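import Pool.Agent.Lib.MP_af3a4a_an.P1.CHK.H81.LT
/-!
# Data, `64 ≤ N ≤ 64`, `286 ≤ 1024 R ≤ 383` (helper81)
-/
set_option autoImplicit false

namespace Pool.Agent.Lib.MP_af3a4a_an.P1.CHK.H81.L

open Pool.Agent.Lib.MP_af3a4a_an.P1.CHK.H58.G (Gr En)

def g64_0 : Gr := ⟨false, 286, 294, 1024, 1024, 64, 64, 8192, 8192, 512, 3668, 0, []⟩

theorem k64_0 : chk g64_0 [] [
  ⟨1188, 120, 0, 176, 88, true, true, false, [(0, 8)], []⟩,
  ⟨1278, 120, 0, 176, 88, true, true, false, [(0, 8)], []⟩,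
  ⟨1529, 120, 0, 160, 78, true, true, false, [(0, 9)], []⟩,
  ⟨2025, 120, 0, 120, 56, true, true, false, [(0, 12)], []⟩,
  ⟨5776, 120, 0, 24, 11, true, true, false, [(0, 18)], []⟩,
  ⟨8425, 120, 0, 0, 0, true, false, false, [(0, 20)], []⟩
  ] = true := by decide +kernel

def g64_1 : Gr := ⟨false, 294, 300, 1024, 1024, 64, 64, 8192, 8192, 512, 3568, 0, []⟩

theorem k64_1 : chk g64_1 [] [
  ⟨1240, 90, 0, 192, 98, true, true, false, [(0, 10)], []⟩,
  ⟨1330, 90, 0, 192, 98, true, true, false, [(0, 10)], []⟩,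
  ⟨1509, 90, 0, 160, 78, true, true, false, [(0, 13)], []⟩,
  ⟨2007, 90, 0, 144, 69, true, true, false, [(0, 14)], []⟩,
  ⟨4697, 90, 0, 32, 14, true, true, false, [(0, 24)], []⟩,
  ⟨8363, 90, 0, 0, 0, true, false, false, [(0, 27)], []⟩
  ] = true := by decide +kernel

def g64_2 : Gr := ⟨false, 300, 308, 1024, 1024, 64, 64, 8192, 8192, 384, 3497, 0, []⟩

theorem k64_2 : chk g64_2 [] [
  ⟨915, 50, 0, 192, 98, true, true, false, [(0, 1), (3, 18)], []⟩,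
  ⟨937, 50, 0, 192, 98, true, true, false, [(0, 1), (3, 18)], []⟩,
  ⟨959, 50, 0, 192, 98, true, true, false, [(0, 2), (3, 17)], []⟩,
  ⟨981, 50, 0, 192, 98, true, true, false, [(0, 2), (3, 17)], []⟩,
  ⟨1003, 50, 0, 192, 98, true, true, false, [(0, 2), (3, 17)], []⟩,
  ⟨1035, 50, 0, 192, 98, true, true, false, [(0, 2), (3, 17)], []⟩,
  ⟨1067, 50, 0, 192, 98, true, true, false, [(0, 2), (3, 17)], []⟩,
  ⟨1099, 50, 0, 192, 98, true, true, false, [(0, 2), (3, 17)], []⟩,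
  ⟨1131, 50, 0, 192, 98, true, true, false, [(0, 3), (3, 16)], []⟩,
  ⟨1153, 50, 0, 192, 98, true, true, false, [(0, 4), (3, 15)], []⟩,
  ⟨1175, 50, 0, 192, 98, true, true, false, [(0, 5), (3, 14)], []⟩,
  ⟨1197, 50, 0, 192, 98, true, true, false, [(0, 12), (3, 7)], []⟩,
  ⟨1229, 50, 0, 192, 98, true, true, false, [(0, 19)], []⟩,
  ⟨1276, 50, 0, 192, 98, true, true, false, [(0, 19)], []⟩,
  ⟨1370, 50, 0, 176, 88, true, true, false, [(0, 22)], []⟩,
  ⟨1633, 50, 0, 160, 78, true, true, false, [(0, 24)], []⟩,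
  ⟨2361, 50, 0, 128, 60, true, true, false, [(0, 29)], []⟩,
  ⟨6288, 50, 0, 0, 0, true, false, false, [(0, 50)], []⟩,
  ⟨8415, 50, 0, 0, 0, true, false, false, [(0, 50)], []⟩
  ] = true := by decide +kernel

def g64_3 : Gr := ⟨false, 307, 315, 1024, 1024, 64, 64, 8192, 8192, 384, 3417, 0, []⟩

theorem k64_3 : chk g64_3 T300 [
  ⟨936, 90, 0, 192, 98, true, true, false, [(0, 1), (3, 10)], []⟩,
  ⟨958, 90, 0, 192, 98, true, true, false, [(0, 1), (3, 10)], []⟩,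
  ⟨980, 90, 0, 192, 98, true, true, false, [(0, 2), (3, 9)], []⟩,
  ⟨1002, 90, 0, 192, 98, true, true, false, [(0, 2), (3, 9)], []⟩,
  ⟨1034, 90, 0, 192, 98, true, true, false, [(0, 2), (3, 9)], []⟩,
  ⟨1066, 90, 0, 192, 98, true, true, false, [(0, 2), (3, 9)], []⟩,
  ⟨1098, 90, 0, 192, 98, true, true, false, [(0, 2), (3, 9)], []⟩,
  ⟨1130, 90, 0, 192, 98, true, true, false, [(0, 2), (3, 9)], []⟩,
  ⟨1162, 90, 0, 192, 98, true, true, false, [(0, 3), (3, 8)], []⟩,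
  ⟨1184, 90, 0, 192, 98, true, true, false, [(0, 4), (3, 7)], []⟩,
  ⟨1206, 90, 0, 192, 98, true, true, false, [(0, 5), (3, 6)], []⟩,
  ⟨1228, 90, 0, 192, 98, true, true, false, [(0, 11)], []⟩,
  ⟨1275, 90, 0, 192, 98, true, true, false, [(0, 11)], []⟩,
  ⟨1341, 90, 0, 192, 98, true, true, false, [(0, 11)], []⟩,
  ⟨1474, 90, 0, 160, 78, true, true, false, [(0, 14)], []⟩,
  ⟨1844, 90, 0, 160, 78, true, true, false, [(0, 14)], []⟩,
  ⟨2864, 90, 0, 80, 36, true, true, false, [(0, 21)], []⟩,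
  ⟨6791, 90, 0, 0, 0, true, false, false, [(0, 28)], []⟩,
  ⟨8410, 90, 0, 0, 0, true, false, false, [(0, 28)], []⟩
  ] = true := by decide +kernel

def g64_4 : Gr := ⟨false, 315, 321, 1024, 1024, 64, 64, 8192, 8192, 256, 3330, 0, []⟩

theorem k64_4 : chk g64_4 T300 [
  ⟨640, 70, 0, 208, 109, true, true, false, [(0, 1), (3, 12)], []⟩,
  ⟨650, 70, 0, 208, 109, true, true, false, [(0, 1), (3, 12)], []⟩,
  ⟨666, 70, 0, 208, 109, true, true, false, [(0, 1), (3, 12)], []⟩,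
  ⟨682, 70, 0, 208, 109, true, true, false, [(0, 1), (3, 12)], []⟩,
  ⟨705, 70, 0, 208, 109, true, true, false, [(0, 1), (3, 12)], []⟩,
  ⟨728, 70, 0, 208, 109, true, true, false, [(0, 1), (3, 12)], []⟩,
  ⟨761, 70, 0, 208, 109, true, true, false, [(0, 1), (3, 12)], []⟩,
  ⟨794, 70, 0, 208, 109, true, true, false, [(0, 1), (3, 12)], []⟩,
  ⟨842, 70, 0, 208, 109, true, true, false, [(0, 1), (3, 12)], []⟩,
  ⟨890, 70, 0, 208, 109, true, true, false, [(0, 1), (3, 12)], []⟩,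
  ⟨938, 70, 0, 208, 109, true, true, false, [(0, 1), (3, 12)], []⟩,
  ⟨986, 70, 0, 208, 109, true, true, false, [(0, 1), (3, 12)], []⟩,
  ⟨1034, 70, 0, 208, 109, true, true, false, [(0, 2), (3, 11)], []⟩,
  ⟨1082, 70, 0, 192, 98, true, true, false, [(0, 2), (3, 13)], []⟩,
  ⟨1130, 70, 0, 192, 98, true, true, false, [(0, 2), (3, 13)], []⟩,
  ⟨1178, 70, 0, 192, 98, true, true, false, [(0, 3), (3, 12)], []⟩,
  ⟨1226, 70, 0, 192, 98, true, true, false, [(0, 4), (3, 11)], []⟩,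
  ⟨1259, 70, 0, 192, 98, true, true, false, [(0, 9), (3, 6)], []⟩,
  ⟨1327, 70, 0, 192, 98, true, true, false, [(0, 15)], []⟩,
  ⟨1424, 70, 0, 192, 98, true, true, false, [(0, 15)], []⟩,
  ⟨1617, 70, 0, 176, 88, true, true, false, [(0, 17)], []⟩,
  ⟨2151, 70, 0, 120, 56, true, true, false, [(0, 23)], []⟩,
  ⟨5037, 70, 0, 16, 7, true, true, false, [(0, 35)], []⟩,
  ⟨7923, 70, 0, 0, 0, true, false, false, [(0, 37)], []⟩,
  ⟨8352, 70, 0, 0, 0, true, false, false, [(0, 37)], []⟩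
  ] = true := by decide +kernel

def g64_5 : Gr := ⟨false, 321, 326, 1024, 1024, 64, 64, 8192, 8192, 256, 3268, 0, []⟩

theorem k64_5 : chk g64_5 T300 [
  ⟨673, 50, 0, 208, 109, true, true, false, [(0, 1), (3, 18)], []⟩,
  ⟨717, 50, 0, 208, 109, true, true, false, [(0, 1), (3, 18)], []⟩,
  ⟨761, 50, 0, 208, 109, true, true, false, [(0, 1), (3, 18)], []⟩,
  ⟨824, 50, 0, 208, 109, true, true, false, [(0, 1), (3, 18)], []⟩,
  ⟨887, 50, 0, 208, 109, true, true, false, [(0, 1), (3, 18)], []⟩,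
  ⟨950, 50, 0, 208, 109, true, true, false, [(0, 1), (3, 18)], []⟩,
  ⟨1013, 50, 0, 208, 109, true, true, false, [(0, 1), (3, 18)], []⟩,
  ⟨1076, 50, 0, 208, 109, true, true, false, [(0, 2), (3, 17)], []⟩,
  ⟨1139, 50, 0, 208, 109, true, true, false, [(0, 2), (3, 17)], []⟩,
  ⟨1183, 50, 0, 208, 109, true, true, false, [(0, 2), (3, 17)], []⟩,
  ⟨1214, 50, 0, 192, 98, true, true, false, [(0, 3), (3, 19)], []⟩,
  ⟨1245, 50, 0, 192, 98, true, true, false, [(0, 4), (3, 18)], []⟩,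
  ⟨1276, 50, 0, 192, 98, true, true, false, [(0, 8), (3, 14)], []⟩,
  ⟨1320, 50, 0, 192, 98, true, true, false, [(0, 22)], []⟩,
  ⟨1447, 50, 0, 176, 88, true, true, false, [(0, 24)], []⟩,
  ⟨1698, 50, 0, 176, 88, true, true, false, [(0, 24)], []⟩,
  ⟨2393, 50, 0, 120, 56, true, true, false, [(0, 33)], []⟩,
  ⟨6145, 50, 0, 0, 0, true, false, false, [(0, 53)], []⟩,
  ⟨8324, 50, 0, 0, 0, true, false, false, [(0, 53)], []⟩
  ] = true := by decide +kernel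

def g64_6 : Gr := ⟨false, 326, 330, 1024, 1024, 64, 64, 8192, 8192, 256, 3218, 0, []⟩

theorem k64_6 : chk g64_6 T300 [
  ⟨673, 70, 0, 208, 109, true, true, false, [(0, 1), (3, 13)], []⟩,
  ⟨694, 70, 0, 208, 109, true, true, false, [(0, 1), (3, 13)], []⟩,
  ⟨725, 70, 0, 208, 109, true, true, false, [(0, 1), (3, 13)], []⟩,
  ⟨756, 70, 0, 208, 109, true, true, false, [(0, 1), (3, 13)], []⟩,
  ⟨801, 70, 0, 208, 109, true, true, false, [(0, 1), (3, 13)], []⟩,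
  ⟨846, 70, 0, 208, 109, true, true, false, [(0, 1), (3, 13)], []⟩,
  ⟨910, 70, 0, 208, 109, true, true, false, [(0, 1), (3, 13)], []⟩,
  ⟨974, 70, 0, 208, 109, true, true, false, [(0, 1), (3, 13)], []⟩,
  ⟨1038, 70, 0, 208, 109, true, true, false, [(0, 2), (3, 12)], []⟩,
  ⟨1102, 70, 0, 208, 109, true, true, false, [(0, 2), (3, 12)], []⟩,
  ⟨1166, 70, 0, 208, 109, true, true, false, [(0, 2), (3, 12)], []⟩,
  ⟨1211, 70, 0, 192, 98, true, true, false, [(0, 3), (3, 13)], []⟩,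
  ⟨1256, 70, 0, 192, 98, true, true, false, [(0, 3), (3, 13)], []⟩,
  ⟨1301, 70, 0, 192, 98, true, true, false, [(0, 7), (3, 9)], []⟩,
  ⟨1392, 70, 0, 192, 98, true, true, false, [(0, 16)], []⟩,
  ⟨1572, 70, 0, 176, 88, true, true, false, [(0, 18)], []⟩,
  ⟨1928, 70, 0, 160, 78, true, true, false, [(0, 20)], []⟩,
  ⟨2911, 70, 0, 88, 40, true, true, false, [(0, 28)], []⟩,
  ⟨6695, 70, 0, 0, 0, true, false, false, [(0, 38)], []⟩,
  ⟨8297, 70, 0, 0, 0, true, false, false, [(0, 38)], []⟩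
  ] = true := by decide +kernel

def g64_7 : Gr := ⟨false, 330, 333, 1024, 1024, 64, 64, 8192, 8192, 256, 3179, 0, []⟩

theorem k64_7 : chk g64_7 T300 [
  ⟨675, 90, 0, 224, 120, true, true, false, [(0, 1), (3, 9)], []⟩,
  ⟨690, 90, 0, 224, 120, true, true, false, [(0, 1), (3, 9)], []⟩,
  ⟨712, 90, 0, 224, 120, true, true, false, [(0, 1), (3, 9)], []⟩,
  ⟨734, 90, 0, 224, 120, true, true, false, [(0, 1), (3, 9)], []⟩,
  ⟨756, 90, 0, 224, 120, true, true, false, [(0, 1), (3, 9)], []⟩,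
  ⟨788, 90, 0, 224, 120, true, true, false, [(0, 1), (3, 9)], []⟩,
  ⟨820, 90, 0, 224, 120, true, true, false, [(0, 1), (3, 9)], []⟩,
  ⟨852, 90, 0, 224, 120, true, true, false, [(0, 1), (3, 9)], []⟩,
  ⟨884, 90, 0, 224, 120, true, true, false, [(0, 1), (3, 9)], []⟩,
  ⟨916, 90, 0, 224, 120, true, true, false, [(0, 1), (3, 9)], []⟩,
  ⟨948, 90, 0, 224, 120, true, true, false, [(0, 1), (3, 9)], []⟩,
  ⟨970, 90, 0, 224, 120, true, true, false, [(0, 1), (3, 9)], []⟩,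
  ⟨992, 90, 0, 224, 120, true, true, false, [(0, 1), (3, 9)], []⟩,
  ⟨1007, 90, 0, 224, 120, true, true, false, [(0, 1), (3, 9)], []⟩,
  ⟨1022, 90, 0, 224, 120, true, true, false, [(0, 2), (3, 8)], []⟩,
  ⟨1033, 90, 0, 192, 98, true, true, false, [(0, 2), (3, 11)], []⟩,
  ⟨1044, 90, 0, 192, 98, true, true, false, [(0, 2), (3, 11)], []⟩,
  ⟨1060, 90, 0, 192, 98, true, true, false, [(0, 2), (3, 11)], []⟩,
  ⟨1076, 90, 0, 192, 98, true, true, false, [(0, 2), (3, 11)], []⟩,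
  ⟨1092, 90, 0, 192, 98, true, true, false, [(0, 2), (3, 11)], []⟩,
  ⟨1116, 90, 0, 192, 98, true, true, false, [(0, 2), (3, 11)], []⟩,
  ⟨1140, 90, 0, 192, 98, true, true, false, [(0, 2), (3, 11)], []⟩,
  ⟨1164, 90, 0, 192, 98, true, true, false, [(0, 2), (3, 11)], []⟩,
  ⟨1188, 90, 0, 192, 98, true, true, false, [(0, 2), (3, 11)], []⟩,
  ⟨1212, 90, 0, 192, 98, true, true, false, [(0, 3), (3, 10)], []⟩,
  ⟨1236, 90, 0, 192, 98, true, true, false, [(0, 3), (3, 10)], []⟩,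
  ⟨1260, 90, 0, 192, 98, true, true, false, [(0, 4), (3, 9)], []⟩,
  ⟨1284, 90, 0, 192, 98, true, true, false, [(0, 5), (3, 8)], []⟩,
  ⟨1308, 90, 0, 192, 98, true, true, false, [(0, 7), (3, 6)], []⟩,
  ⟨1357, 90, 0, 192, 98, true, true, false, [(0, 13)], []⟩,
  ⟨1457, 90, 0, 176, 88, true, true, false, [(0, 14)], []⟩,
  ⟨1656, 90, 0, 176, 88, true, true, false, [(0, 14)], []⟩,
  ⟨2206, 90, 0, 144, 69, true, true, false, [(0, 17)], []⟩,
  ⟨5177, 90, 0, 8, 4, true, true, false, [(0, 29)], []⟩,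
  ⟨8148, 90, 0, 0, 0, true, false, false, [(0, 30)], []⟩,
  ⟨8271, 90, 0, 0, 0, true, false, false, [(0, 30)], []⟩
  ] = true := by decide +kernel

def g64_8 : Gr := ⟨false, 332, 336, 1024, 1024, 64, 64, 8192, 8192, 256, 3160, 0, []⟩

theorem k64_8 : chk g64_8 T325 [
  ⟨674, 90, 0, 224, 120, true, true, false, [(0, 1), (3, 9)], []⟩,
  ⟨690, 90, 0, 224, 120, true, true, false, [(0, 1), (3, 9)], []⟩,
  ⟨706, 90, 0, 224, 120, true, true, false, [(0, 1), (3, 9)], []⟩,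
  ⟨729, 90, 0, 224, 120, true, true, false, [(0, 1), (3, 9)], []⟩,
  ⟨752, 90, 0, 224, 120, true, true, false, [(0, 1), (3, 9)], []⟩,
  ⟨775, 90, 0, 224, 120, true, true, false, [(0, 1), (3, 9)], []⟩,
  ⟨798, 90, 0, 224, 120, true, true, false, [(0, 1), (3, 9)], []⟩,
  ⟨831, 90, 0, 224, 120, true, true, false, [(0, 1), (3, 9)], []⟩,
  ⟨864, 90, 0, 224, 120, true, true, false, [(0, 1), (3, 9)], []⟩,
  ⟨897, 90, 0, 224, 120, true, true, false, [(0, 1), (3, 9)], []⟩,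
  ⟨920, 90, 0, 224, 120, true, true, false, [(0, 1), (3, 9)], []⟩,
  ⟨943, 90, 0, 208, 109, true, true, false, [(0, 1), (3, 11)], []⟩,
  ⟨977, 90, 0, 208, 109, true, true, false, [(0, 1), (3, 11)], []⟩,
  ⟨1011, 90, 0, 208, 109, true, true, false, [(0, 1), (3, 11)], []⟩,
  ⟨1045, 90, 0, 208, 109, true, true, false, [(0, 2), (3, 10)], []⟩,
  ⟨1079, 90, 0, 208, 109, true, true, false, [(0, 2), (3, 10)], []⟩,
  ⟨1113, 90, 0, 208, 109, true, true, false, [(0, 2), (3, 10)], []⟩,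
  ⟨1147, 90, 0, 208, 109, true, true, false, [(0, 2), (3, 10)], []⟩,
  ⟨1181, 90, 0, 208, 109, true, true, false, [(0, 2), (3, 10)], []⟩,
  ⟨1215, 90, 0, 192, 98, true, true, false, [(0, 2), (3, 11)], []⟩,
  ⟨1249, 90, 0, 192, 98, true, true, false, [(0, 3), (3, 10)], []⟩,
  ⟨1283, 90, 0, 192, 98, true, true, false, [(0, 4), (3, 9)], []⟩,
  ⟨1317, 90, 0, 192, 98, true, true, false, [(0, 7), (3, 6)], []⟩,
  ⟨1365, 90, 0, 192, 98, true, true, false, [(0, 13)], []⟩,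
  ⟨1463, 90, 0, 192, 98, true, true, false, [(0, 13)], []⟩,
  ⟨1601, 90, 0, 176, 88, true, true, false, [(0, 15)], []⟩,
  ⟨1985, 90, 0, 160, 78, true, true, false, [(0, 16)], []⟩,
  ⟨3044, 90, 0, 80, 36, true, true, false, [(0, 23)], []⟩,
  ⟨5954, 90, 0, 0, 0, true, false, false, [(0, 30)], []⟩,
  ⟨8296, 90, 0, 0, 0, true, false, false, [(0, 30)], []⟩
  ] = true := by decide +kernel

def g64_9 : Gr := ⟨false, 336, 339, 1024, 1024, 64, 64, 8192, 8192, 128, 3122, 0, []⟩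

theorem k64_9 : chk g64_9 T325 [
  ⟨426, 70, 630, 80, 208, false, false, false, [(0, 1), (3, 29)], []⟩,
  ⟨489, 70, 630, 80, 200, false, false, false, [(0, 1), (3, 29)], []⟩,
  ⟨533, 70, 420, 208, 109, false, true, false, [(0, 1), (3, 14)], []⟩,
  ⟨564, 70, 420, 208, 109, false, true, false, [(0, 1), (3, 14)], []⟩,
  ⟨595, 70, 420, 208, 109, false, true, false, [(0, 1), (3, 14)], []⟩,
  ⟨616, 70, 420, 208, 109, false, true, false, [(0, 1), (3, 14)], []⟩,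
  ⟨631, 70, 420, 208, 109, false, true, false, [(0, 1), (3, 14)], []⟩,
  ⟨641, 70, 420, 208, 109, false, true, false, [(0, 1), (3, 14)], []⟩,
  ⟨651, 70, 420, 208, 109, false, true, false, [(0, 1), (3, 14)], []⟩,
  ⟨661, 70, 0, 208, 109, true, true, false, [(0, 1), (3, 14)], []⟩,
  ⟨676, 70, 0, 208, 109, true, true, false, [(0, 1), (3, 14)], []⟩,
  ⟨691, 70, 0, 208, 109, true, true, false, [(0, 1), (3, 14)], []⟩,
  ⟨714, 70, 0, 208, 109, true, true, false, [(0, 1), (3, 14)], []⟩,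
  ⟨747, 70, 0, 208, 109, true, true, false, [(0, 1), (3, 14)], []⟩,
  ⟨780, 70, 0, 208, 109, true, true, false, [(0, 1), (3, 14)], []⟩,
  ⟨828, 70, 0, 208, 109, true, true, false, [(0, 1), (3, 14)], []⟩,
  ⟨876, 70, 0, 208, 109, true, true, false, [(0, 1), (3, 14)], []⟩,
  ⟨944, 70, 0, 208, 109, true, true, false, [(0, 1), (3, 14)], []⟩,
  ⟨1012, 70, 0, 208, 109, true, true, false, [(0, 1), (3, 14)], []⟩,
  ⟨1080, 70, 0, 208, 109, true, true, false, [(0, 2), (3, 13)], []⟩,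
  ⟨1148, 70, 0, 208, 109, true, true, false, [(0, 2), (3, 13)], []⟩,
  ⟨1216, 70, 0, 208, 109, true, true, false, [(0, 2), (3, 13)], []⟩,
  ⟨1263, 70, 0, 208, 109, true, true, false, [(0, 3), (3, 12)], []⟩,
  ⟨1310, 70, 0, 192, 98, true, true, false, [(0, 4), (3, 13)], []⟩,
  ⟨1357, 70, 0, 192, 98, true, true, false, [(0, 17)], []⟩,
  ⟨1453, 70, 0, 192, 98, true, true, false, [(0, 17)], []⟩,
  ⟨1643, 70, 0, 176, 88, true, true, false, [(0, 19)], []⟩,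
  ⟨2019, 70, 0, 160, 78, true, true, false, [(0, 21)], []⟩,
  ⟨3471, 70, 0, 60, 27, true, true, false, [(0, 32)], []⟩,
  ⟨7460, 70, 0, 0, 0, true, false, false, [(0, 39)], []⟩,
  ⟨8269, 70, 0, 0, 0, true, false, false, [(0, 39)], []⟩
  ] = true := by decide +kernel

def g64_10 : Gr := ⟨false, 339, 342, 1024, 1024, 64, 64, 8192, 8192, 128, 3095, 0, []⟩

theorem k64_10 : chk g64_10 T325 [
  ⟨466, 50, 650, 80, 208, false, false, false, [(0, 1), (3, 22), (8, 1), (3, 18)], []⟩,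
  ⟨528, 50, 450, 192, 98, false, true, false, [(0, 1), (3, 23)], []⟩,
  ⟨571, 50, 450, 192, 98, false, true, false, [(0, 1), (3, 23)], []⟩,
  ⟨614, 50, 450, 192, 98, false, true, false, [(0, 1), (3, 23)], []⟩,
  ⟨657, 50, 0, 224, 120, true, true, false, [(0, 1), (3, 18)], []⟩,
  ⟨719, 50, 0, 224, 120, true, true, false, [(0, 1), (3, 18)], []⟩,
  ⟨781, 50, 0, 224, 120, true, true, false, [(0, 1), (3, 18)], []⟩,
  ⟨843, 50, 0, 224, 120, true, true, false, [(0, 1), (3, 18)], []⟩,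
  ⟨905, 50, 0, 224, 120, true, true, false, [(0, 1), (3, 18)], []⟩,
  ⟨967, 50, 0, 224, 120, true, true, false, [(0, 1), (3, 18)], []⟩,
  ⟨1029, 50, 0, 224, 120, true, true, false, [(0, 1), (3, 18)], []⟩,
  ⟨1072, 50, 0, 208, 109, true, true, false, [(0, 2), (3, 20)], []⟩,
  ⟨1134, 50, 0, 208, 109, true, true, false, [(0, 2), (3, 20)], []⟩,
  ⟨1196, 50, 0, 192, 98, true, true, false, [(0, 2), (3, 22)], []⟩,
  ⟨1258, 50, 0, 192, 98, true, true, false, [(0, 3), (3, 21)], []⟩,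
  ⟨1320, 50, 0, 192, 98, true, true, false, [(0, 4), (3, 20)], []⟩,
  ⟨1382, 50, 0, 192, 98, true, true, false, [(0, 24)], []⟩,
  ⟨1506, 50, 0, 192, 98, true, true, false, [(0, 24)], []⟩,
  ⟨1751, 50, 0, 176, 88, true, true, false, [(0, 27)], []⟩,
  ⟨2429, 50, 0, 128, 60, true, true, false, [(0, 35)], []⟩,
  ⟨6091, 50, 0, 0, 0, true, false, false, [(0, 55)], []⟩,
  ⟨8270, 50, 0, 0, 0, true, false, false, [(0, 55)], []⟩
  ] = true := by decide +kernel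

def g64_11 : Gr := ⟨false, 342, 346, 1024, 1024, 64, 64, 8192, 8192, 128, 3068, 0, []⟩

theorem k64_11 : chk g64_11 T325 [
  ⟨469, 70, 630, 88, 200, false, false, false, [(0, 1), (3, 29)], []⟩,
  ⟨512, 70, 630, 88, 200, false, false, false, [(0, 1), (3, 29)], []⟩,
  ⟨555, 70, 420, 208, 109, false, true, false, [(0, 1), (3, 15)], []⟩,
  ⟨585, 70, 420, 208, 109, false, true, false, [(0, 1), (3, 15)], []⟩,
  ⟨615, 70, 420, 208, 109, false, true, false, [(0, 1), (3, 15)], []⟩,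
  ⟨636, 70, 0, 224, 120, true, true, false, [(0, 1), (3, 13)], []⟩,
  ⟨667, 70, 0, 224, 120, true, true, false, [(0, 1), (3, 13)], []⟩,
  ⟨698, 70, 0, 224, 120, true, true, false, [(0, 1), (3, 13)], []⟩,
  ⟨742, 70, 0, 224, 120, true, true, false, [(0, 1), (3, 13)], []⟩,
  ⟨786, 70, 0, 224, 120, true, true, false, [(0, 1), (3, 13)], []⟩,
  ⟨830, 70, 0, 224, 120, true, true, false, [(0, 1), (3, 13)], []⟩,
  ⟨893, 70, 0, 224, 120, true, true, false, [(0, 1), (3, 13)], []⟩,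
  ⟨956, 70, 0, 224, 120, true, true, false, [(0, 1), (3, 13)], []⟩,
  ⟨1000, 70, 0, 208, 109, true, true, false, [(0, 1), (3, 15)], []⟩,
  ⟨1063, 70, 0, 208, 109, true, true, false, [(0, 1), (3, 15)], []⟩,
  ⟨1126, 70, 0, 208, 109, true, true, false, [(0, 2), (3, 14)], []⟩,
  ⟨1189, 70, 0, 208, 109, true, true, false, [(0, 2), (3, 14)], []⟩,
  ⟨1233, 70, 0, 208, 109, true, true, false, [(0, 2), (3, 14)], []⟩,
  ⟨1277, 70, 0, 208, 109, true, true, false, [(0, 3), (3, 13)], []⟩,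
  ⟨1307, 70, 0, 208, 109, true, true, false, [(0, 4), (3, 12)], []⟩,
  ⟨1337, 70, 0, 208, 109, true, true, false, [(0, 5), (3, 11)], []⟩,
  ⟨1358, 70, 0, 208, 109, true, true, false, [(0, 10), (3, 6)], []⟩,
  ⟨1389, 70, 0, 192, 98, true, true, false, [(0, 18)], []⟩,
  ⟨1479, 70, 0, 192, 98, true, true, false, [(0, 18)], []⟩,
  ⟨1606, 70, 0, 192, 98, true, true, false, [(0, 18)], []⟩,
  ⟨1959, 70, 0, 160, 78, true, true, false, [(0, 22)], []⟩,
  ⟨2933, 70, 0, 96, 44, true, true, false, [(0, 29)], []⟩,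
  ⟨6683, 70, 0, 0, 0, true, false, false, [(0, 40)], []⟩,
  ⟨8294, 70, 0, 0, 0, true, false, false, [(0, 40)], []⟩
  ] = true := by decide +kernel

def g64_12 : Gr := ⟨false, 346, 351, 1024, 1024, 64, 64, 8192, 8192, 128, 3032, 0, []⟩

theorem k64_12 : chk g64_12 T325 [
  ⟨473, 50, 650, 96, 200, false, false, false, [(0, 1), (3, 40)], []⟩,
  ⟨535, 50, 450, 208, 109, false, true, false, [(0, 1), (3, 22)], []⟩,
  ⟨578, 50, 450, 208, 109, false, true, false, [(0, 1), (3, 22)], []⟩,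
  ⟨621, 50, 450, 208, 109, false, true, false, [(0, 1), (3, 22)], []⟩,
  ⟨651, 50, 450, 208, 109, false, true, false, [(0, 1), (3, 22)], []⟩,
  ⟨672, 50, 400, 208, 109, false, true, false, [(0, 1), (3, 22)], []⟩,
  ⟨693, 50, 400, 208, 109, false, true, false, [(0, 1), (3, 22)], []⟩,
  ⟨703, 50, 0, 208, 109, true, true, false, [(0, 1), (3, 22)], []⟩,
  ⟨718, 50, 0, 208, 109, true, true, false, [(0, 1), (3, 22)], []⟩,
  ⟨733, 50, 0, 208, 109, true, true, false, [(0, 1), (3, 22)], []⟩,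
  ⟨756, 50, 0, 208, 109, true, true, false, [(0, 1), (3, 22)], []⟩,
  ⟨779, 50, 0, 208, 109, true, true, false, [(0, 1), (3, 22)], []⟩,
  ⟨812, 50, 0, 208, 109, true, true, false, [(0, 1), (3, 22)], []⟩,
  ⟨845, 50, 0, 208, 109, true, true, false, [(0, 1), (3, 22)], []⟩,
  ⟨892, 50, 0, 208, 109, true, true, false, [(0, 1), (3, 22)], []⟩,
  ⟨939, 50, 0, 208, 109, true, true, false, [(0, 1), (3, 22)], []⟩,
  ⟨986, 50, 0, 208, 109, true, true, false, [(0, 1), (3, 22)], []⟩,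
  ⟨1053, 50, 0, 208, 109, true, true, false, [(0, 1), (3, 22)], []⟩,
  ⟨1120, 50, 0, 208, 109, true, true, false, [(0, 2), (3, 21)], []⟩,
  ⟨1187, 50, 0, 208, 109, true, true, false, [(0, 2), (3, 21)], []⟩,
  ⟨1254, 50, 0, 208, 109, true, true, false, [(0, 2), (3, 21)], []⟩,
  ⟨1301, 50, 0, 208, 109, true, true, false, [(0, 3), (3, 20)], []⟩,
  ⟨1334, 50, 0, 208, 109, true, true, false, [(0, 4), (3, 19)], []⟩,
  ⟨1357, 50, 0, 208, 109, true, true, false, [(0, 6), (3, 17)], []⟩,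
  ⟨1380, 50, 0, 208, 109, true, true, false, [(0, 15), (3, 8)], []⟩,
  ⟨1403, 50, 0, 208, 109, true, true, false, [(0, 23)], []⟩,
  ⟨1450, 50, 0, 192, 98, true, true, false, [(0, 26)], []⟩,
  ⟨1546, 50, 0, 176, 88, true, true, false, [(0, 28)], []⟩,
  ⟨1814, 50, 0, 176, 88, true, true, false, [(0, 28)], []⟩,
  ⟨2554, 50, 0, 120, 56, true, true, false, [(0, 37)], []⟩,
  ⟨6545, 50, 0, 0, 0, true, false, false, [(0, 57)], []⟩,
  ⟨8315, 50, 0, 0, 0, true, false, false, [(0, 57)], []⟩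
  ] = true := by decide +kernel

def g64_13 : Gr := ⟨false, 351, 355, 1024, 1024, 64, 64, 8192, 8192, 128, 2989, 0, []⟩

theorem k64_13 : chk g64_13 T325 [
  ⟨478, 70, 630, 88, 208, false, false, false, [(0, 1), (3, 30)], []⟩,
  ⟨540, 70, 630, 88, 200, false, false, false, [(0, 1), (3, 30)], []⟩,
  ⟨583, 70, 420, 208, 109, false, true, false, [(0, 1), (3, 16)], []⟩,
  ⟨626, 70, 420, 208, 109, false, true, false, [(0, 1), (3, 16)], []⟩,
  ⟨656, 70, 420, 208, 109, false, true, false, [(0, 1), (3, 16)], []⟩,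
  ⟨686, 70, 0, 224, 120, true, true, false, [(0, 1), (3, 14)], []⟩,
  ⟨716, 70, 0, 224, 120, true, true, false, [(0, 1), (3, 14)], []⟩,
  ⟨759, 70, 0, 224, 120, true, true, false, [(0, 1), (3, 14)], []⟩,
  ⟨802, 70, 0, 224, 120, true, true, false, [(0, 1), (3, 14)], []⟩,
  ⟨864, 70, 0, 224, 120, true, true, false, [(0, 1), (3, 14)], []⟩,
  ⟨926, 70, 0, 224, 120, true, true, false, [(0, 1), (3, 14)], []⟩,
  ⟨988, 70, 0, 224, 120, true, true, false, [(0, 1), (3, 14)], []⟩,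
  ⟨1050, 70, 0, 224, 120, true, true, false, [(0, 1), (3, 14)], []⟩,
  ⟨1112, 70, 0, 224, 120, true, true, false, [(0, 2), (3, 13)], []⟩,
  ⟨1174, 70, 0, 208, 109, true, true, false, [(0, 2), (3, 15)], []⟩,
  ⟨1236, 70, 0, 208, 109, true, true, false, [(0, 2), (3, 15)], []⟩,
  ⟨1279, 70, 0, 208, 109, true, true, false, [(0, 2), (3, 15)], []⟩,
  ⟨1322, 70, 0, 208, 109, true, true, false, [(0, 3), (3, 14)], []⟩,
  ⟨1352, 70, 0, 208, 109, true, true, false, [(0, 4), (3, 13)], []⟩,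
  ⟨1382, 70, 0, 208, 109, true, true, false, [(0, 6), (3, 11)], []⟩,
  ⟨1403, 70, 0, 208, 109, true, true, false, [(0, 16), (3, 1)], []⟩,
  ⟨1434, 70, 0, 192, 98, true, true, false, [(0, 19)], []⟩,
  ⟨1523, 70, 0, 192, 98, true, true, false, [(0, 19)], []⟩,
  ⟨1700, 70, 0, 176, 88, true, true, false, [(0, 21)], []⟩,
  ⟨2051, 70, 0, 160, 78, true, true, false, [(0, 23)], []⟩,
  ⟨3018, 70, 0, 88, 40, true, true, false, [(0, 31)], []⟩,
  ⟨6742, 70, 0, 0, 0, true, false, false, [(0, 41)], []⟩,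
  ⟨8290, 70, 0, 0, 0, true, false, false, [(0, 41)], []⟩
  ] = true := by decide +kernel

def g64_14 : Gr := ⟨false, 355, 359, 1024, 1024, 64, 64, 8192, 8192, 0, 2955, 0, []⟩

theorem k64_14 : chk g64_14 T325 [
  ⟨355, 50, 700, 28, 276, false, false, false, [(0, 1), (3, 8), (15, 5), (6, 2), (7, 4), (8, 4), (9, 4), (3, 25)], []⟩,
  ⟨476, 50, 650, 80, 220, false, true, false, [(0, 1), (3, 44)], []⟩,
  ⟨561, 50, 500, 192, 106, false, true, false, [(0, 1), (3, 26)], []⟩,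
  ⟨620, 50, 500, 192, 98, false, true, false, [(0, 1), (3, 26)], []⟩,
  ⟨661, 50, 500, 192, 98, false, true, false, [(0, 1), (3, 26)], []⟩,
  ⟨690, 50, 500, 192, 98, false, true, false, [(0, 1), (3, 26)], []⟩,
  ⟨710, 50, 450, 192, 98, false, true, false, [(0, 1), (3, 26)], []⟩,
  ⟨724, 50, 0, 240, 132, true, true, false, [(0, 1), (3, 19)], []⟩,
  ⟨738, 50, 0, 224, 120, true, true, false, [(0, 1), (3, 21)], []⟩,
  ⟨752, 50, 0, 224, 120, true, true, false, [(0, 1), (3, 21)], []⟩,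
  ⟨773, 50, 0, 224, 120, true, true, false, [(0, 1), (3, 21)], []⟩,
  ⟨794, 50, 0, 224, 120, true, true, false, [(0, 1), (3, 21)], []⟩,
  ⟨824, 50, 0, 224, 120, true, true, false, [(0, 1), (3, 21)], []⟩,
  ⟨854, 50, 0, 224, 120, true, true, false, [(0, 1), (3, 21)], []⟩,
  ⟨897, 50, 0, 224, 120, true, true, false, [(0, 1), (3, 21)], []⟩,
  ⟨940, 50, 0, 224, 120, true, true, false, [(0, 1), (3, 21)], []⟩,
  ⟨983, 50, 0, 224, 120, true, true, false, [(0, 1), (3, 21)], []⟩,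
  ⟨1026, 50, 0, 224, 120, true, true, false, [(0, 1), (3, 21)], []⟩,
  ⟨1069, 50, 0, 224, 120, true, true, false, [(0, 1), (3, 21)], []⟩,
  ⟨1112, 50, 0, 224, 120, true, true, false, [(0, 2), (3, 20)], []⟩,
  ⟨1155, 50, 0, 224, 120, true, true, false, [(0, 2), (3, 20)], []⟩,
  ⟨1185, 50, 0, 208, 109, true, true, false, [(0, 2), (3, 23)], []⟩,
  ⟨1215, 50, 0, 208, 109, true, true, false, [(0, 2), (3, 23)], []⟩,
  ⟨1245, 50, 0, 208, 109, true, true, false, [(0, 2), (3, 23)], []⟩,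
  ⟨1275, 50, 0, 208, 109, true, true, false, [(0, 2), (3, 23)], []⟩,
  ⟨1305, 50, 0, 208, 109, true, true, false, [(0, 3), (3, 22)], []⟩,
  ⟨1326, 50, 0, 208, 109, true, true, false, [(0, 3), (3, 22)], []⟩,
  ⟨1347, 50, 0, 208, 109, true, true, false, [(0, 4), (3, 21)], []⟩,
  ⟨1361, 50, 0, 192, 98, true, true, false, [(0, 4), (3, 23)], []⟩,
  ⟨1375, 50, 0, 192, 98, true, true, false, [(0, 5), (3, 22)], []⟩,
  ⟨1389, 50, 0, 192, 98, true, true, false, [(0, 7), (3, 20)], []⟩,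
  ⟨1403, 50, 0, 192, 98, true, true, false, [(0, 10), (3, 17)], []⟩,
  ⟨1417, 50, 0, 192, 98, true, true, false, [(0, 24), (3, 3)], []⟩,
  ⟨1462, 50, 0, 192, 98, true, true, false, [(0, 27)], []⟩,
  ⟨1553, 50, 0, 192, 98, true, true, false, [(0, 27)], []⟩,
  ⟨1734, 50, 0, 176, 88, true, true, false, [(0, 30)], []⟩,
  ⟨2237, 50, 0, 144, 69, true, true, false, [(0, 35)], []⟩,
  ⟨4954, 50, 0, 28, 12, true, true, false, [(0, 53)], []⟩,
  ⟨8288, 50, 0, 0, 0, true, false, false, [(0, 58)], []⟩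
  ] = true := by decide +kernel

def g64_15 : Gr := ⟨false, 358, 363, 1024, 1024, 64, 64, 8192, 8192, 0, 2930, 0, []⟩

theorem k64_15 : chk g64_15 T350 [
  ⟨355, 70, 700, 40, 266, false, true, false, [(0, 1), (3, 5), (18, 4), (8, 1), (9, 3), (10, 3), (11, 3), (12, 3), (3, 14)], []⟩,
  ⟨476, 70, 630, 104, 200, false, false, false, [(0, 1), (3, 17), (11, 2), (3, 10)], []⟩,
  ⟨535, 70, 630, 104, 192, false, false, false, [(0, 1), (3, 29)], []⟩,
  ⟨594, 70, 490, 208, 109, false, true, false, [(0, 1), (3, 17)], []⟩,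
  ⟨635, 70, 490, 208, 109, false, true, false, [(0, 1), (3, 17)], []⟩,
  ⟨664, 70, 420, 208, 109, false, true, false, [(0, 1), (3, 17)], []⟩,
  ⟨684, 70, 420, 208, 109, false, true, false, [(0, 1), (3, 17)], []⟩,
  ⟨704, 70, 0, 224, 120, true, true, false, [(0, 1), (3, 15)], []⟩,
  ⟨733, 70, 0, 224, 120, true, true, false, [(0, 1), (3, 15)], []⟩,
  ⟨762, 70, 0, 224, 120, true, true, false, [(0, 1), (3, 15)], []⟩,
  ⟨804, 70, 0, 224, 120, true, true, false, [(0, 1), (3, 15)], []⟩,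
  ⟨846, 70, 0, 224, 120, true, true, false, [(0, 1), (3, 15)], []⟩,
  ⟨888, 70, 0, 224, 120, true, true, false, [(0, 1), (3, 15)], []⟩,
  ⟨948, 70, 0, 224, 120, true, true, false, [(0, 1), (3, 15)], []⟩,
  ⟨1008, 70, 0, 224, 120, true, true, false, [(0, 1), (3, 15)], []⟩,
  ⟨1068, 70, 0, 224, 120, true, true, false, [(0, 1), (3, 15)], []⟩,
  ⟨1128, 70, 0, 224, 120, true, true, false, [(0, 2), (3, 14)], []⟩,
  ⟨1170, 70, 0, 224, 120, true, true, false, [(0, 2), (3, 14)], []⟩,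
  ⟨1212, 70, 0, 208, 109, true, true, false, [(0, 2), (3, 16)], []⟩,
  ⟨1254, 70, 0, 208, 109, true, true, false, [(0, 2), (3, 16)], []⟩,
  ⟨1296, 70, 0, 208, 109, true, true, false, [(0, 2), (3, 16)], []⟩,
  ⟨1325, 70, 0, 208, 109, true, true, false, [(0, 3), (3, 15)], []⟩,
  ⟨1354, 70, 0, 208, 109, true, true, false, [(0, 3), (3, 15)], []⟩,
  ⟨1374, 70, 0, 208, 109, true, true, false, [(0, 4), (3, 14)], []⟩,
  ⟨1394, 70, 0, 208, 109, true, true, false, [(0, 5), (3, 13)], []⟩,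
  ⟨1408, 70, 0, 208, 109, true, true, false, [(0, 8), (3, 10)], []⟩,
  ⟨1418, 70, 0, 208, 109, true, true, false, [(0, 12), (3, 6)], []⟩,
  ⟨1433, 70, 0, 208, 109, true, true, false, [(0, 18)], []⟩,
  ⟨1455, 70, 0, 208, 109, true, true, false, [(0, 18)], []⟩,
  ⟨1487, 70, 0, 208, 109, true, true, false, [(0, 18)], []⟩,
  ⟨1552, 70, 0, 192, 98, true, true, false, [(0, 20)], []⟩,
  ⟨1683, 70, 0, 192, 98, true, true, false, [(0, 20)], []⟩,
  ⟨1942, 70, 0, 160, 78, true, true, false, [(0, 24)], []⟩,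
  ⟨2658, 70, 0, 112, 52, true, true, false, [(0, 29)], []⟩,
  ⟨6520, 70, 0, 0, 0, true, false, false, [(0, 42)], []⟩,
  ⟨8310, 70, 0, 0, 0, true, false, false, [(0, 42)], []⟩
  ] = true := by decide +kernel

def g64_16 : Gr := ⟨false, 363, 367, 1024, 1024, 64, 64, 8192, 8192, 0, 2048, 0, []⟩

theorem k64_16 : chk g64_16 T350 [
  ⟨355, 50, 500, 192, 138, false, true, false, [(0, 1), (3, 8), (18, 5), (8, 2), (9, 4), (10, 4), (11, 4)], []⟩,
  ⟨529, 50, 500, 192, 122, false, true, false, [(0, 1), (3, 22), (10, 1), (11, 4)], []⟩,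
  ⟨588, 50, 500, 192, 114, false, true, false, [(0, 1), (3, 27)], []⟩,
  ⟨647, 50, 450, 224, 120, false, true, false, [(0, 1), (3, 22)], []⟩,
  ⟨688, 50, 400, 224, 120, false, true, false, [(0, 1), (3, 22)], []⟩,
  ⟨729, 50, 0, 224, 120, true, true, false, [(0, 1), (3, 22)], []⟩,
  ⟨770, 50, 0, 224, 120, true, true, false, [(0, 1), (3, 22)], []⟩,
  ⟨829, 50, 0, 224, 120, true, true, false, [(0, 1), (3, 22)], []⟩,
  ⟨888, 50, 0, 224, 120, true, true, false, [(0, 1), (3, 22)], []⟩,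
  ⟨972, 50, 0, 224, 120, true, true, false, [(0, 1), (3, 22)], []⟩,
  ⟨1056, 50, 0, 224, 120, true, true, false, [(0, 1), (3, 22)], []⟩,
  ⟨1140, 50, 0, 224, 120, true, true, false, [(0, 2), (3, 21)], []⟩,
  ⟨1199, 50, 0, 224, 120, true, true, false, [(0, 2), (3, 21)], []⟩,
  ⟨1257, 50, 0, 224, 120, true, true, false, [(0, 2), (3, 21)], []⟩,
  ⟨1285, 50, 0, 208, 109, true, true, false, [(0, 2), (3, 24)], []⟩,
  ⟨1313, 50, 0, 208, 109, true, true, false, [(0, 3), (3, 23)], []⟩,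
  ⟨1341, 50, 0, 208, 109, true, true, false, [(0, 3), (3, 23)], []⟩,
  ⟨1369, 50, 0, 208, 109, true, true, false, [(0, 3), (3, 23)], []⟩,
  ⟨1389, 50, 0, 208, 109, true, true, false, [(0, 4), (3, 22)], []⟩,
  ⟨1409, 50, 0, 208, 109, true, true, false, [(0, 5), (3, 21)], []⟩,
  ⟨1423, 50, 0, 192, 98, true, true, false, [(0, 7), (3, 21)], []⟩,
  ⟨1437, 50, 0, 192, 98, true, true, false, [(0, 12), (3, 16)], []⟩,
  ⟨1457, 50, 0, 192, 98, true, true, false, [(0, 28)], []⟩,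
  ⟨1518, 50, 0, 192, 98, true, true, false, [(0, 28)], []⟩,
  ⟨1640, 50, 0, 192, 98, true, true, false, [(0, 28)], []⟩,
  ⟨1882, 50, 0, 176, 88, true, true, false, [(0, 31)], []⟩,
  ⟨2552, 50, 0, 120, 56, true, true, false, [(0, 40)], []⟩,
  ⟨5873, 50, 0, 0, 0, true, false, false, [(0, 59)], []⟩
  ] = true := by decide +kernel

def g64_17 : Gr := ⟨false, 367, 372, 1024, 1024, 64, 64, 8192, 8192, 0, 2048, 0, []⟩

theorem k64_17 : chk g64_17 T350 [
  ⟨355, 70, 700, 40, 274, false, true, false, [(0, 1), (3, 5), (18, 4), (8, 1), (9, 3), (10, 3), (11, 3), (12, 3), (3, 15)], []⟩,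
  ⟨476, 70, 630, 104, 208, false, false, false, [(0, 1), (3, 17), (11, 2), (3, 11)], []⟩,
  ⟨561, 70, 630, 104, 200, false, false, false, [(0, 1), (3, 30)], []⟩,
  ⟨620, 70, 490, 208, 109, false, true, false, [(0, 1), (3, 18)], []⟩,
  ⟨661, 70, 490, 208, 109, false, true, false, [(0, 1), (3, 18)], []⟩,
  ⟨690, 70, 490, 208, 109, false, true, false, [(0, 1), (3, 18)], []⟩,
  ⟨710, 70, 490, 208, 109, false, true, false, [(0, 1), (3, 18)], []⟩,
  ⟨730, 70, 490, 208, 109, false, true, false, [(0, 1), (3, 18)], []⟩,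
  ⟨750, 70, 0, 224, 120, true, true, false, [(0, 1), (3, 16)], []⟩,
  ⟨779, 70, 0, 224, 120, true, true, false, [(0, 1), (3, 16)], []⟩,
  ⟨808, 70, 0, 224, 120, true, true, false, [(0, 1), (3, 16)], []⟩,
  ⟨850, 70, 0, 224, 120, true, true, false, [(0, 1), (3, 16)], []⟩,
  ⟨892, 70, 0, 224, 120, true, true, false, [(0, 1), (3, 16)], []⟩,
  ⟨934, 70, 0, 224, 120, true, true, false, [(0, 1), (3, 16)], []⟩,
  ⟨994, 70, 0, 224, 120, true, true, false, [(0, 1), (3, 16)], []⟩,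
  ⟨1054, 70, 0, 224, 120, true, true, false, [(0, 1), (3, 16)], []⟩,
  ⟨1114, 70, 0, 224, 120, true, true, false, [(0, 2), (3, 15)], []⟩,
  ⟨1174, 70, 0, 224, 120, true, true, false, [(0, 2), (3, 15)], []⟩,
  ⟨1216, 70, 0, 224, 120, true, true, false, [(0, 2), (3, 15)], []⟩,
  ⟨1258, 70, 0, 224, 120, true, true, false, [(0, 2), (3, 15)], []⟩,
  ⟨1287, 70, 0, 208, 109, true, true, false, [(0, 2), (3, 17)], []⟩,
  ⟨1316, 70, 0, 208, 109, true, true, false, [(0, 2), (3, 17)], []⟩,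
  ⟨1345, 70, 0, 208, 109, true, true, false, [(0, 3), (3, 16)], []⟩,
  ⟨1374, 70, 0, 208, 109, true, true, false, [(0, 3), (3, 16)], []⟩,
  ⟨1394, 70, 0, 208, 109, true, true, false, [(0, 4), (3, 15)], []⟩,
  ⟨1414, 70, 0, 208, 109, true, true, false, [(0, 4), (3, 15)], []⟩,
  ⟨1428, 70, 0, 208, 109, true, true, false, [(0, 6), (3, 13)], []⟩,
  ⟨1442, 70, 0, 208, 109, true, true, false, [(0, 8), (3, 11)], []⟩,
  ⟨1452, 70, 0, 208, 109, true, true, false, [(0, 12), (3, 7)], []⟩,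
  ⟨1462, 70, 0, 208, 109, true, true, false, [(0, 19)], []⟩,
  ⟨1477, 70, 0, 208, 109, true, true, false, [(0, 19)], []⟩,
  ⟨1509, 70, 0, 208, 109, true, true, false, [(0, 19)], []⟩,
  ⟨1555, 70, 0, 192, 98, true, true, false, [(0, 21)], []⟩,
  ⟨1686, 70, 0, 192, 98, true, true, false, [(0, 21)], []⟩,
  ⟨1945, 70, 0, 176, 88, true, true, false, [(0, 23)], []⟩,
  ⟨2661, 70, 0, 120, 56, true, true, false, [(0, 29)], []⟩,
  ⟨5953, 70, 0, 0, 0, true, false, false, [(0, 43)], []⟩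
  ] = true := by decide +kernel

def g64_18 : Gr := ⟨false, 372, 375, 1024, 1024, 64, 64, 8192, 8192, 0, 2048, 0, []⟩

theorem k64_18 : chk g64_18 T350 [
  ⟨355, 90, 720, 16, 296, false, false, false, [(0, 1), (3, 4), (18, 3), (8, 1), (9, 2), (10, 2), (11, 2), (12, 3), (3, 14)], []⟩,
  ⟨476, 90, 630, 72, 240, false, false, false, [(0, 1), (3, 13), (11, 1), (3, 12)], []⟩,
  ⟨561, 90, 630, 96, 212, false, true, false, [(0, 1), (3, 24)], []⟩,
  ⟨620, 90, 450, 208, 109, false, true, false, [(0, 1), (3, 14)], []⟩,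
  ⟨661, 90, 450, 208, 109, false, true, false, [(0, 1), (3, 14)], []⟩,
  ⟨690, 90, 450, 208, 109, false, true, false, [(0, 1), (3, 14)], []⟩,
  ⟨719, 90, 0, 240, 132, true, true, false, [(0, 1), (3, 11)], []⟩,
  ⟨748, 90, 0, 240, 132, true, true, false, [(0, 1), (3, 11)], []⟩,
  ⟨789, 90, 0, 240, 132, true, true, false, [(0, 1), (3, 11)], []⟩,
  ⟨830, 90, 0, 240, 132, true, true, false, [(0, 1), (3, 11)], []⟩,
  ⟨871, 90, 0, 240, 132, true, true, false, [(0, 1), (3, 11)], []⟩,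
  ⟨912, 90, 0, 240, 132, true, true, false, [(0, 1), (3, 11)], []⟩,
  ⟨953, 90, 0, 240, 132, true, true, false, [(0, 1), (3, 11)], []⟩,
  ⟨994, 90, 0, 240, 132, true, true, false, [(0, 1), (3, 11)], []⟩,
  ⟨1035, 90, 0, 240, 132, true, true, false, [(0, 1), (3, 11)], []⟩,
  ⟨1076, 90, 0, 224, 120, true, true, false, [(0, 1), (3, 13)], []⟩,
  ⟨1117, 90, 0, 224, 120, true, true, false, [(0, 2), (3, 12)], []⟩,
  ⟨1158, 90, 0, 224, 120, true, true, false, [(0, 2), (3, 12)], []⟩,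
  ⟨1199, 90, 0, 224, 120, true, true, false, [(0, 2), (3, 12)], []⟩,
  ⟨1240, 90, 0, 208, 109, true, true, false, [(0, 2), (3, 13)], []⟩,
  ⟨1281, 90, 0, 208, 109, true, true, false, [(0, 2), (3, 13)], []⟩,
  ⟨1322, 90, 0, 208, 109, true, true, false, [(0, 2), (3, 13)], []⟩,
  ⟨1363, 90, 0, 208, 109, true, true, false, [(0, 3), (3, 12)], []⟩,
  ⟨1392, 90, 0, 208, 109, true, true, false, [(0, 3), (3, 12)], []⟩,
  ⟨1421, 90, 0, 208, 109, true, true, false, [(0, 4), (3, 11)], []⟩,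
  ⟨1450, 90, 0, 208, 109, true, true, false, [(0, 5), (3, 10)], []⟩,
  ⟨1470, 90, 0, 208, 109, true, true, false, [(0, 8), (3, 7)], []⟩,
  ⟨1499, 90, 0, 208, 109, true, true, false, [(0, 15)], []⟩,
  ⟨1541, 90, 0, 208, 109, true, true, false, [(0, 15)], []⟩,
  ⟨1601, 90, 0, 208, 109, true, true, false, [(0, 15)], []⟩,
  ⟨1722, 90, 0, 176, 88, true, true, false, [(0, 18)], []⟩,
  ⟨1962, 90, 0, 176, 88, true, true, false, [(0, 18)], []⟩,
  ⟨2626, 90, 0, 128, 60, true, true, false, [(0, 22)], []⟩,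
  ⟨6001, 90, 0, 0, 0, true, false, false, [(0, 34)], []⟩
  ] = true := by decide +kernel

def g64_19 : Gr := ⟨false, 375, 378, 1024, 1024, 64, 64, 8192, 8192, 0, 2048, 0, []⟩

theorem k64_19 : chk g64_19 T350 [
  ⟨355, 70, 700, 28, 292, false, false, false, [(0, 1), (3, 5), (18, 4), (8, 1), (9, 3), (10, 3), (11, 3), (12, 3), (3, 17)], []⟩,
  ⟨529, 70, 700, 72, 240, false, false, false, [(0, 1), (3, 16), (11, 3), (3, 15)], []⟩,
  ⟨614, 70, 490, 208, 109, false, true, false, [(0, 1), (3, 19)], []⟩,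
  ⟨673, 70, 490, 208, 109, false, true, false, [(0, 1), (3, 19)], []⟩,
  ⟨714, 70, 420, 224, 120, false, true, false, [(0, 1), (3, 17)], []⟩,
  ⟨755, 70, 0, 240, 132, true, true, false, [(0, 1), (3, 15)], []⟩,
  ⟨814, 70, 0, 240, 132, true, true, false, [(0, 1), (3, 15)], []⟩,
  ⟨873, 70, 0, 240, 132, true, true, false, [(0, 1), (3, 15)], []⟩,
  ⟨932, 70, 0, 240, 132, true, true, false, [(0, 1), (3, 15)], []⟩,
  ⟨991, 70, 0, 240, 132, true, true, false, [(0, 1), (3, 15)], []⟩,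
  ⟨1050, 70, 0, 224, 120, true, true, false, [(0, 1), (3, 17)], []⟩,
  ⟨1109, 70, 0, 224, 120, true, true, false, [(0, 1), (3, 17)], []⟩,
  ⟨1168, 70, 0, 224, 120, true, true, false, [(0, 2), (3, 16)], []⟩,
  ⟨1227, 70, 0, 224, 120, true, true, false, [(0, 2), (3, 16)], []⟩,
  ⟨1286, 70, 0, 224, 120, true, true, false, [(0, 2), (3, 16)], []⟩,
  ⟨1327, 70, 0, 224, 120, true, true, false, [(0, 2), (3, 16)], []⟩,
  ⟨1356, 70, 0, 208, 109, true, true, false, [(0, 3), (3, 17)], []⟩,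
  ⟨1385, 70, 0, 208, 109, true, true, false, [(0, 3), (3, 17)], []⟩,
  ⟨1405, 70, 0, 208, 109, true, true, false, [(0, 3), (3, 17)], []⟩,
  ⟨1425, 70, 0, 208, 109, true, true, false, [(0, 4), (3, 16)], []⟩,
  ⟨1445, 70, 0, 208, 109, true, true, false, [(0, 5), (3, 15)], []⟩,
  ⟨1459, 70, 0, 208, 109, true, true, false, [(0, 6), (3, 14)], []⟩,
  ⟨1473, 70, 0, 208, 109, true, true, false, [(0, 8), (3, 12)], []⟩,
  ⟨1482, 70, 0, 208, 109, true, true, false, [(0, 11), (3, 9)], []⟩,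
  ⟨1491, 70, 0, 208, 109, true, true, false, [(0, 18), (3, 2)], []⟩,
  ⟨1505, 70, 0, 208, 109, true, true, false, [(0, 20)], []⟩,
  ⟨1536, 70, 0, 208, 109, true, true, false, [(0, 20)], []⟩,
  ⟨1581, 70, 0, 208, 109, true, true, false, [(0, 20)], []⟩,
  ⟨1672, 70, 0, 192, 98, true, true, false, [(0, 22)], []⟩,
  ⟨1853, 70, 0, 160, 78, true, true, false, [(0, 25)], []⟩,
  ⟨2356, 70, 0, 144, 69, true, true, false, [(0, 27)], []⟩,
  ⟨6049, 70, 0, 2, 1, true, true, true, [(0, 42)], [(0, 1)]⟩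
  ] = true := by decide +kernel

def g64_20 : Gr := ⟨false, 378, 383, 1024, 1024, 64, 64, 8192, 8192, 0, 2048, 0, []⟩

theorem k64_20 : chk g64_20 T350 [
  ⟨355, 50, 500, 208, 141, false, true, false, [(0, 1), (3, 8), (18, 5), (8, 2), (9, 4), (10, 4), (11, 4)], []⟩,
  ⟨529, 50, 650, 96, 220, false, true, false, [(0, 1), (3, 23), (11, 4), (3, 18)], []⟩,
  ⟨614, 50, 650, 96, 212, false, true, false, [(0, 1), (3, 45)], []⟩,
  ⟨673, 50, 500, 208, 109, false, true, false, [(0, 1), (3, 27)], []⟩,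
  ⟨732, 50, 500, 208, 109, false, true, false, [(0, 1), (3, 27)], []⟩,
  ⟨791, 50, 0, 240, 132, true, true, false, [(0, 1), (3, 22)], []⟩,
  ⟨850, 50, 0, 240, 132, true, true, false, [(0, 1), (3, 22)], []⟩,
  ⟨909, 50, 0, 240, 132, true, true, false, [(0, 1), (3, 22)], []⟩,
  ⟨968, 50, 0, 240, 132, true, true, false, [(0, 1), (3, 22)], []⟩,
  ⟨1027, 50, 0, 240, 132, true, true, false, [(0, 1), (3, 22)], []⟩,
  ⟨1086, 50, 0, 240, 132, true, true, false, [(0, 1), (3, 22)], []⟩,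
  ⟨1127, 50, 0, 240, 132, true, true, false, [(0, 2), (3, 21)], []⟩,
  ⟨1168, 50, 0, 224, 120, true, true, false, [(0, 2), (3, 24)], []⟩,
  ⟨1209, 50, 0, 208, 109, true, true, false, [(0, 2), (3, 26)], []⟩,
  ⟨1250, 50, 0, 208, 109, true, true, false, [(0, 2), (3, 26)], []⟩,
  ⟨1291, 50, 0, 208, 109, true, true, false, [(0, 2), (3, 26)], []⟩,
  ⟨1332, 50, 0, 208, 109, true, true, false, [(0, 2), (3, 26)], []⟩,
  ⟨1373, 50, 0, 208, 109, true, true, false, [(0, 3), (3, 25)], []⟩,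
  ⟨1414, 50, 0, 208, 109, true, true, false, [(0, 3), (3, 25)], []⟩,
  ⟨1443, 50, 0, 208, 109, true, true, false, [(0, 4), (3, 24)], []⟩,
  ⟨1472, 50, 0, 208, 109, true, true, false, [(0, 5), (3, 23)], []⟩,
  ⟨1492, 50, 0, 208, 109, true, true, false, [(0, 9), (3, 19)], []⟩,
  ⟨1512, 50, 0, 208, 109, true, true, false, [(0, 28)], []⟩,
  ⟨1541, 50, 0, 208, 109, true, true, false, [(0, 28)], []⟩,
  ⟨1601, 50, 0, 208, 109, true, true, false, [(0, 28)], []⟩,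
  ⟨1722, 50, 0, 192, 98, true, true, false, [(0, 31)], []⟩,
  ⟨1961, 50, 0, 160, 78, true, true, false, [(0, 36)], []⟩,
  ⟨2623, 50, 0, 128, 60, true, true, false, [(0, 41)], []⟩,
  ⟨6129, 50, 0, 0, 0, true, false, false, [(0, 62)], []⟩
  ] = true := by decide +kernel

end Pool.Agent.Lib.MP_af3a4a_an.P1.CHK.H81.L
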