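import Pool.Agent.Lib.MP_af3a4a_an.P1.CHK.H81.LT
/-!
# Data, `64 ≤ N ≤ 64`, `383 ≤ 1024 R ≤ 426` (helper81)
-/
set_option autoImplicit false

namespace Pool.Agent.Lib.MP_af3a4a_an.P1.CHK.H81.L

open Pool.Agent.Lib.MP_af3a4a_an.P1.CHK.H58.G (Gr En)

def g64_21 : Gr := ⟨false, 383, 384, 1024, 1024, 64, 64, 8192, 8192, 0, 2048, 0, []⟩

theorem k64_21 : chk g64_21 T350 [
  ⟨355, 90, 720, 24, 304, false, false, false, [(0, 1), (3, 4), (18, 3), (8, 1), (9, 2), (10, 2), (11, 2), (12, 3), (3, 14)], []⟩,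
  ⟨529, 90, 630, 96, 224, false, false, false, [(0, 1), (3, 13), (11, 1), (3, 11)], []⟩,
  ⟨614, 90, 630, 104, 208, false, false, false, [(0, 1), (3, 24)], []⟩,
  ⟨673, 90, 540, 208, 109, false, true, false, [(0, 1), (3, 15)], []⟩,
  ⟨714, 90, 450, 208, 109, false, true, false, [(0, 1), (3, 15)], []⟩,
  ⟨743, 90, 0, 240, 132, true, true, false, [(0, 1), (3, 12)], []⟩,
  ⟨784, 90, 0, 240, 132, true, true, false, [(0, 1), (3, 12)], []⟩,
  ⟨825, 90, 0, 240, 132, true, true, false, [(0, 1), (3, 12)], []⟩,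
  ⟨884, 90, 0, 240, 132, true, true, false, [(0, 1), (3, 12)], []⟩,
  ⟨943, 90, 0, 240, 132, true, true, false, [(0, 1), (3, 12)], []⟩,
  ⟨1002, 90, 0, 240, 132, true, true, false, [(0, 1), (3, 12)], []⟩,
  ⟨1061, 90, 0, 240, 132, true, true, false, [(0, 1), (3, 12)], []⟩,
  ⟨1120, 90, 0, 240, 132, true, true, false, [(0, 1), (3, 12)], []⟩,
  ⟨1161, 90, 0, 224, 120, true, true, false, [(0, 2), (3, 13)], []⟩,
  ⟨1202, 90, 0, 224, 120, true, true, false, [(0, 2), (3, 13)], []⟩,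
  ⟨1243, 90, 0, 224, 120, true, true, false, [(0, 2), (3, 13)], []⟩,
  ⟨1284, 90, 0, 224, 120, true, true, false, [(0, 2), (3, 13)], []⟩,
  ⟨1325, 90, 0, 208, 109, true, true, false, [(0, 2), (3, 14)], []⟩,
  ⟨1366, 90, 0, 208, 109, true, true, false, [(0, 2), (3, 14)], []⟩,
  ⟨1407, 90, 0, 208, 109, true, true, false, [(0, 3), (3, 13)], []⟩,
  ⟨1436, 90, 0, 208, 109, true, true, false, [(0, 3), (3, 13)], []⟩,
  ⟨1465, 90, 0, 208, 109, true, true, false, [(0, 4), (3, 12)], []⟩,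
  ⟨1494, 90, 0, 208, 109, true, true, false, [(0, 5), (3, 11)], []⟩,
  ⟨1514, 90, 0, 208, 109, true, true, false, [(0, 9), (3, 7)], []⟩,
  ⟨1543, 90, 0, 208, 109, true, true, false, [(0, 16)], []⟩,
  ⟨1603, 90, 0, 208, 109, true, true, false, [(0, 16)], []⟩,
  ⟨1688, 90, 0, 208, 109, true, true, false, [(0, 16)], []⟩,
  ⟨1927, 90, 0, 176, 88, true, true, false, [(0, 19)], []⟩,
  ⟨2589, 90, 0, 128, 60, true, true, false, [(0, 23)], []⟩,
  ⟨6145, 90, 0, 0, 0, true, false, false, [(0, 35)], []⟩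
  ] = true := by decide +kernel

def g64_22 : Gr := ⟨false, 384, 388, 1024, 1024, 64, 64, 8192, 8192, 0, 2048, 0, []⟩

theorem k64_22 : chk g64_22 T375 [
  ⟨355, 90, 630, 28, 300, false, false, false, [(0, 1), (3, 4), (19, 3), (8, 1), (9, 2), (10, 2), (11, 2), (12, 3), (3, 14)], []⟩,
  ⟨529, 90, 630, 96, 224, false, false, false, [(0, 1), (3, 12), (11, 2), (3, 1), (12, 2), (3, 8)], []⟩,
  ⟨614, 90, 630, 96, 216, false, false, false, [(0, 1), (3, 25)], []⟩,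
  ⟨673, 90, 540, 208, 109, false, true, false, [(0, 1), (3, 15)], []⟩,
  ⟨714, 90, 450, 208, 109, false, true, false, [(0, 1), (3, 15)], []⟩,
  ⟨743, 90, 450, 208, 109, false, true, false, [(0, 1), (3, 15)], []⟩,
  ⟨772, 90, 450, 208, 109, false, true, false, [(0, 1), (3, 15)], []⟩,
  ⟨792, 90, 0, 256, 145, true, true, false, [(0, 1), (3, 11)], []⟩,
  ⟨812, 90, 0, 256, 145, true, true, false, [(0, 1), (3, 11)], []⟩,
  ⟨832, 90, 0, 256, 145, true, true, false, [(0, 1), (3, 11)], []⟩,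
  ⟨852, 90, 0, 256, 145, true, true, false, [(0, 1), (3, 11)], []⟩,
  ⟨872, 90, 0, 256, 145, true, true, false, [(0, 1), (3, 11)], []⟩,
  ⟨886, 90, 0, 256, 145, true, true, false, [(0, 1), (3, 11)], []⟩,
  ⟨900, 90, 0, 256, 145, true, true, false, [(0, 1), (3, 11)], []⟩,
  ⟨914, 90, 0, 256, 145, true, true, false, [(0, 1), (3, 11)], []⟩,
  ⟨928, 90, 0, 224, 120, true, true, false, [(0, 1), (3, 14)], []⟩,
  ⟨942, 90, 0, 224, 120, true, true, false, [(0, 1), (3, 14)], []⟩,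
  ⟨963, 90, 0, 224, 120, true, true, false, [(0, 1), (3, 14)], []⟩,
  ⟨984, 90, 0, 224, 120, true, true, false, [(0, 1), (3, 14)], []⟩,
  ⟨1014, 90, 0, 224, 120, true, true, false, [(0, 1), (3, 14)], []⟩,
  ⟨1044, 90, 0, 224, 120, true, true, false, [(0, 1), (3, 14)], []⟩,
  ⟨1074, 90, 0, 224, 120, true, true, false, [(0, 1), (3, 14)], []⟩,
  ⟨1104, 90, 0, 224, 120, true, true, false, [(0, 1), (3, 14)], []⟩,
  ⟨1147, 90, 0, 224, 120, true, true, false, [(0, 2), (3, 13)], []⟩,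
  ⟨1190, 90, 0, 224, 120, true, true, false, [(0, 2), (3, 13)], []⟩,
  ⟨1233, 90, 0, 224, 120, true, true, false, [(0, 2), (3, 13)], []⟩,
  ⟨1276, 90, 0, 224, 120, true, true, false, [(0, 2), (3, 13)], []⟩,
  ⟨1306, 90, 0, 208, 109, true, true, false, [(0, 2), (3, 14)], []⟩,
  ⟨1336, 90, 0, 208, 109, true, true, false, [(0, 2), (3, 14)], []⟩,
  ⟨1366, 90, 0, 208, 109, true, true, false, [(0, 2), (3, 14)], []⟩,
  ⟨1396, 90, 0, 208, 109, true, true, false, [(0, 3), (3, 13)], []⟩,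
  ⟨1426, 90, 0, 208, 109, true, true, false, [(0, 3), (3, 13)], []⟩,
  ⟨1456, 90, 0, 208, 109, true, true, false, [(0, 4), (3, 12)], []⟩,
  ⟨1477, 90, 0, 208, 109, true, true, false, [(0, 4), (3, 12)], []⟩,
  ⟨1498, 90, 0, 208, 109, true, true, false, [(0, 6), (3, 10)], []⟩,
  ⟨1512, 90, 0, 208, 109, true, true, false, [(0, 8), (3, 8)], []⟩,
  ⟨1526, 90, 0, 208, 109, true, true, false, [(0, 13), (3, 3)], []⟩,
  ⟨1557, 90, 0, 208, 109, true, true, false, [(0, 16)], []⟩,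
  ⟨1602, 90, 0, 208, 109, true, true, false, [(0, 16)], []⟩,
  ⟨1666, 90, 0, 208, 109, true, true, false, [(0, 16)], []⟩,
  ⟨1847, 90, 0, 176, 88, true, true, false, [(0, 19)], []⟩,
  ⟨2205, 90, 0, 144, 69, true, true, false, [(0, 22)], []⟩,
  ⟨3590, 90, 0, 64, 28, true, true, false, [(0, 29)], []⟩,
  ⟨6209, 90, 0, 0, 0, true, false, false, [(0, 35)], []⟩
  ] = true := by decide +kernel

def g64_23 : Gr := ⟨false, 388, 391, 1024, 1024, 64, 64, 8192, 8192, 0, 2048, 0, []⟩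

theorem k64_23 : chk g64_23 T375 [
  ⟨355, 70, 700, 24, 304, false, false, false, [(0, 1), (3, 5), (19, 4), (8, 1), (9, 3), (10, 3), (11, 3), (12, 3), (3, 19)], []⟩,
  ⟨529, 70, 630, 96, 228, false, true, false, [(0, 1), (3, 16), (11, 3), (3, 1), (12, 2), (3, 11)], []⟩,
  ⟨614, 70, 630, 96, 220, false, true, false, [(0, 1), (3, 33)], []⟩,
  ⟨699, 70, 490, 208, 109, false, true, false, [(0, 1), (3, 20)], []⟩,
  ⟨758, 70, 490, 208, 109, false, true, false, [(0, 1), (3, 20)], []⟩,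
  ⟨799, 70, 0, 256, 145, true, true, false, [(0, 1), (3, 15)], []⟩,
  ⟨840, 70, 0, 256, 145, true, true, false, [(0, 1), (3, 15)], []⟩,
  ⟨881, 70, 0, 256, 145, true, true, false, [(0, 1), (3, 15)], []⟩,
  ⟨922, 70, 0, 256, 145, true, true, false, [(0, 1), (3, 15)], []⟩,
  ⟨951, 70, 0, 256, 145, true, true, false, [(0, 1), (3, 15)], []⟩,
  ⟨980, 70, 0, 256, 145, true, true, false, [(0, 1), (3, 15)], []⟩,
  ⟨1000, 70, 0, 240, 132, true, true, false, [(0, 1), (3, 17)], []⟩,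
  ⟨1020, 70, 0, 240, 132, true, true, false, [(0, 1), (3, 17)], []⟩,
  ⟨1049, 70, 0, 240, 132, true, true, false, [(0, 1), (3, 17)], []⟩,
  ⟨1069, 70, 0, 240, 132, true, true, false, [(0, 1), (3, 17)], []⟩,
  ⟨1089, 70, 0, 240, 132, true, true, false, [(0, 1), (3, 17)], []⟩,
  ⟨1109, 70, 0, 240, 132, true, true, false, [(0, 1), (3, 17)], []⟩,
  ⟨1129, 70, 0, 208, 109, true, true, false, [(0, 1), (3, 20)], []⟩,
  ⟨1159, 70, 0, 208, 109, true, true, false, [(0, 2), (3, 19)], []⟩,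
  ⟨1189, 70, 0, 208, 109, true, true, false, [(0, 2), (3, 19)], []⟩,
  ⟨1219, 70, 0, 208, 109, true, true, false, [(0, 2), (3, 19)], []⟩,
  ⟨1262, 70, 0, 208, 109, true, true, false, [(0, 2), (3, 19)], []⟩,
  ⟨1305, 70, 0, 208, 109, true, true, false, [(0, 2), (3, 19)], []⟩,
  ⟨1348, 70, 0, 208, 109, true, true, false, [(0, 2), (3, 19)], []⟩,
  ⟨1391, 70, 0, 208, 109, true, true, false, [(0, 2), (3, 19)], []⟩,
  ⟨1434, 70, 0, 208, 109, true, true, false, [(0, 3), (3, 18)], []⟩,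
  ⟨1464, 70, 0, 208, 109, true, true, false, [(0, 3), (3, 18)], []⟩,
  ⟨1494, 70, 0, 208, 109, true, true, false, [(0, 4), (3, 17)], []⟩,
  ⟨1524, 70, 0, 208, 109, true, true, false, [(0, 6), (3, 15)], []⟩,
  ⟨1545, 70, 0, 208, 109, true, true, false, [(0, 15), (3, 6)], []⟩,
  ⟨1588, 70, 0, 208, 109, true, true, false, [(0, 21)], []⟩,
  ⟨1650, 70, 0, 208, 109, true, true, false, [(0, 21)], []⟩,
  ⟨1825, 70, 0, 192, 98, true, true, false, [(0, 23)], []⟩,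
  ⟨2171, 70, 0, 160, 78, true, true, false, [(0, 27)], []⟩,
  ⟨3124, 70, 0, 88, 40, true, true, false, [(0, 35)], []⟩,
  ⟨6257, 70, 0, 0, 0, true, false, false, [(0, 45)], []⟩
  ] = true := by decide +kernel

def g64_24 : Gr := ⟨false, 391, 395, 1024, 1024, 64, 64, 8192, 8192, 0, 2048, 0, []⟩

theorem k64_24 : chk g64_24 T375 [
  ⟨355, 50, 650, 52, 284, false, false, false, [(0, 1), (3, 8), (19, 5), (8, 2), (9, 4), (10, 4), (11, 4), (12, 4), (3, 23)], []⟩,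
  ⟨529, 50, 650, 96, 232, false, false, false, [(0, 1), (3, 24), (11, 3), (3, 2), (12, 2), (3, 16)], []⟩,
  ⟨650, 50, 650, 96, 216, false, false, false, [(0, 1), (3, 47)], []⟩,
  ⟨735, 50, 500, 208, 109, false, true, false, [(0, 1), (3, 29)], []⟩,
  ⟨794, 50, 0, 240, 132, true, true, false, [(0, 1), (3, 24)], []⟩,
  ⟨853, 50, 0, 240, 132, true, true, false, [(0, 1), (3, 24)], []⟩,
  ⟨912, 50, 0, 240, 132, true, true, false, [(0, 1), (3, 24)], []⟩,
  ⟨996, 50, 0, 240, 132, true, true, false, [(0, 1), (3, 24)], []⟩,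
  ⟨1080, 50, 0, 240, 132, true, true, false, [(0, 1), (3, 24)], []⟩,
  ⟨1139, 50, 0, 240, 132, true, true, false, [(0, 1), (3, 24)], []⟩,
  ⟨1198, 50, 0, 240, 132, true, true, false, [(0, 2), (3, 23)], []⟩,
  ⟨1239, 50, 0, 224, 120, true, true, false, [(0, 2), (3, 26)], []⟩,
  ⟨1280, 50, 0, 224, 120, true, true, false, [(0, 2), (3, 26)], []⟩,
  ⟨1321, 50, 0, 224, 120, true, true, false, [(0, 2), (3, 26)], []⟩,
  ⟨1362, 50, 0, 208, 109, true, true, false, [(0, 2), (3, 28)], []⟩,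
  ⟨1403, 50, 0, 208, 109, true, true, false, [(0, 3), (3, 27)], []⟩,
  ⟨1444, 50, 0, 208, 109, true, true, false, [(0, 3), (3, 27)], []⟩,
  ⟨1473, 50, 0, 208, 109, true, true, false, [(0, 4), (3, 26)], []⟩,
  ⟨1502, 50, 0, 208, 109, true, true, false, [(0, 4), (3, 26)], []⟩,
  ⟨1522, 50, 0, 208, 109, true, true, false, [(0, 6), (3, 24)], []⟩,
  ⟨1542, 50, 0, 208, 109, true, true, false, [(0, 10), (3, 20)], []⟩,
  ⟨1562, 50, 0, 208, 109, true, true, false, [(0, 26), (3, 4)], []⟩,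
  ⟨1604, 50, 0, 208, 109, true, true, false, [(0, 30)], []⟩,
  ⟨1664, 50, 0, 208, 109, true, true, false, [(0, 30)], []⟩,
  ⟨1784, 50, 0, 192, 98, true, true, false, [(0, 33)], []⟩,
  ⟨2021, 50, 0, 160, 78, true, true, false, [(0, 38)], []⟩,
  ⟨2678, 50, 0, 120, 56, true, true, false, [(0, 44)], []⟩,
  ⟨6223, 50, 0, 0, 0, true, false, false, [(0, 64)], []⟩,
  ⟨6321, 50, 0, 0, 0, true, false, false, [(0, 64)], []⟩
  ] = true := by decide +kernel

def g64_25 : Gr := ⟨false, 395, 399, 1024, 1024, 64, 64, 8192, 8192, 0, 2048, 0, []⟩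

theorem k64_25 : chk g64_25 T375 [
  ⟨355, 90, 720, 28, 308, false, false, false, [(0, 1), (3, 4), (19, 3), (8, 1), (9, 2), (10, 2), (11, 2), (12, 3), (3, 15)], []⟩,
  ⟨529, 90, 630, 96, 236, false, true, false, [(0, 1), (3, 13), (11, 1), (3, 2), (12, 1), (3, 9)], []⟩,
  ⟨650, 90, 630, 96, 220, false, true, false, [(0, 1), (3, 26)], []⟩,
  ⟨709, 90, 540, 208, 109, false, true, false, [(0, 1), (3, 16)], []⟩,
  ⟨750, 90, 540, 208, 109, false, true, false, [(0, 1), (3, 16)], []⟩,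
  ⟨779, 90, 540, 208, 109, false, true, false, [(0, 1), (3, 16)], []⟩,
  ⟨808, 90, 0, 256, 145, true, true, false, [(0, 1), (3, 12)], []⟩,
  ⟨837, 90, 0, 256, 145, true, true, false, [(0, 1), (3, 12)], []⟩,
  ⟨866, 90, 0, 256, 145, true, true, false, [(0, 1), (3, 12)], []⟩,
  ⟨895, 90, 0, 256, 145, true, true, false, [(0, 1), (3, 12)], []⟩,
  ⟨924, 90, 0, 256, 145, true, true, false, [(0, 1), (3, 12)], []⟩,
  ⟨953, 90, 0, 256, 145, true, true, false, [(0, 1), (3, 12)], []⟩,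
  ⟨982, 90, 0, 256, 145, true, true, false, [(0, 1), (3, 12)], []⟩,
  ⟨1002, 90, 0, 256, 145, true, true, false, [(0, 1), (3, 12)], []⟩,
  ⟨1016, 90, 0, 224, 120, true, true, false, [(0, 1), (3, 15)], []⟩,
  ⟨1037, 90, 0, 224, 120, true, true, false, [(0, 1), (3, 15)], []⟩,
  ⟨1058, 90, 0, 224, 120, true, true, false, [(0, 1), (3, 15)], []⟩,
  ⟨1079, 90, 0, 224, 120, true, true, false, [(0, 1), (3, 15)], []⟩,
  ⟨1109, 90, 0, 224, 120, true, true, false, [(0, 1), (3, 15)], []⟩,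
  ⟨1139, 90, 0, 224, 120, true, true, false, [(0, 1), (3, 15)], []⟩,
  ⟨1169, 90, 0, 224, 120, true, true, false, [(0, 2), (3, 14)], []⟩,
  ⟨1199, 90, 0, 224, 120, true, true, false, [(0, 2), (3, 14)], []⟩,
  ⟨1229, 90, 0, 224, 120, true, true, false, [(0, 2), (3, 14)], []⟩,
  ⟨1259, 90, 0, 224, 120, true, true, false, [(0, 2), (3, 14)], []⟩,
  ⟨1289, 90, 0, 224, 120, true, true, false, [(0, 2), (3, 14)], []⟩,
  ⟨1319, 90, 0, 224, 120, true, true, false, [(0, 2), (3, 14)], []⟩,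
  ⟨1349, 90, 0, 224, 120, true, true, false, [(0, 2), (3, 14)], []⟩,
  ⟨1379, 90, 0, 224, 120, true, true, false, [(0, 2), (3, 14)], []⟩,
  ⟨1409, 90, 0, 208, 109, true, true, false, [(0, 2), (3, 15)], []⟩,
  ⟨1430, 90, 0, 208, 109, true, true, false, [(0, 3), (3, 14)], []⟩,
  ⟨1451, 90, 0, 208, 109, true, true, false, [(0, 3), (3, 14)], []⟩,
  ⟨1472, 90, 0, 208, 109, true, true, false, [(0, 3), (3, 14)], []⟩,
  ⟨1493, 90, 0, 208, 109, true, true, false, [(0, 4), (3, 13)], []⟩,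
  ⟨1514, 90, 0, 208, 109, true, true, false, [(0, 4), (3, 13)], []⟩,
  ⟨1528, 90, 0, 208, 109, true, true, false, [(0, 5), (3, 12)], []⟩,
  ⟨1542, 90, 0, 208, 109, true, true, false, [(0, 6), (3, 11)], []⟩,
  ⟨1556, 90, 0, 208, 109, true, true, false, [(0, 9), (3, 8)], []⟩,
  ⟨1566, 90, 0, 208, 109, true, true, false, [(0, 13), (3, 4)], []⟩,
  ⟨1588, 90, 0, 208, 109, true, true, false, [(0, 17)], []⟩,
  ⟨1635, 90, 0, 208, 109, true, true, false, [(0, 17)], []⟩,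
  ⟨1702, 90, 0, 208, 109, true, true, false, [(0, 17)], []⟩,
  ⟨1836, 90, 0, 192, 98, true, true, false, [(0, 19)], []⟩,
  ⟨2101, 90, 0, 176, 88, true, true, false, [(0, 20)], []⟩,
  ⟨2833, 90, 0, 96, 44, true, true, false, [(0, 27)], []⟩,
  ⟨6385, 90, 0, 0, 0, true, false, false, [(0, 36)], []⟩
  ] = true := by decide +kernel

def g64_26 : Gr := ⟨false, 399, 401, 1024, 1024, 64, 64, 8192, 8192, 0, 2048, 0, []⟩

theorem k64_26 : chk g64_26 T375 [
  ⟨355, 120, 720, 12, 324, false, false, false, [(0, 1), (3, 3), (19, 2), (9, 2), (10, 2), (11, 1), (12, 2), (3, 13)], []⟩,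
  ⟨529, 120, 720, 88, 248, false, false, false, [(0, 1), (3, 9), (11, 1), (3, 10)], []⟩,
  ⟨650, 120, 720, 88, 232, false, false, false, [(0, 1), (3, 20)], []⟩,
  ⟨709, 120, 720, 88, 224, false, false, false, [(0, 1), (3, 20)], []⟩,
  ⟨750, 120, 480, 224, 120, false, true, false, [(0, 1), (3, 11)], []⟩,
  ⟨779, 120, 480, 224, 120, false, true, false, [(0, 1), (3, 11)], []⟩,
  ⟨799, 120, 480, 224, 120, false, true, false, [(0, 1), (3, 11)], []⟩,
  ⟨819, 120, 480, 224, 120, false, true, false, [(0, 1), (3, 11)], []⟩,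
  ⟨839, 120, 0, 256, 145, true, true, false, [(0, 1), (3, 9)], []⟩,
  ⟨859, 120, 0, 256, 145, true, true, false, [(0, 1), (3, 9)], []⟩,
  ⟨879, 120, 0, 256, 145, true, true, false, [(0, 1), (3, 9)], []⟩,
  ⟨899, 120, 0, 240, 132, true, true, false, [(0, 1), (3, 10)], []⟩,
  ⟨928, 120, 0, 240, 132, true, true, false, [(0, 1), (3, 10)], []⟩,
  ⟨957, 120, 0, 240, 132, true, true, false, [(0, 1), (3, 10)], []⟩,
  ⟨986, 120, 0, 240, 132, true, true, false, [(0, 1), (3, 10)], []⟩,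
  ⟨1028, 120, 0, 240, 132, true, true, false, [(0, 1), (3, 10)], []⟩,
  ⟨1070, 120, 0, 240, 132, true, true, false, [(0, 1), (3, 10)], []⟩,
  ⟨1112, 120, 0, 240, 132, true, true, false, [(0, 1), (3, 10)], []⟩,
  ⟨1154, 120, 0, 240, 132, true, true, false, [(0, 1), (3, 10)], []⟩,
  ⟨1196, 120, 0, 240, 132, true, true, false, [(0, 2), (3, 9)], []⟩,
  ⟨1238, 120, 0, 224, 120, true, true, false, [(0, 2), (3, 10)], []⟩,
  ⟨1280, 120, 0, 224, 120, true, true, false, [(0, 2), (3, 10)], []⟩,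
  ⟨1322, 120, 0, 224, 120, true, true, false, [(0, 2), (3, 10)], []⟩,
  ⟨1364, 120, 0, 224, 120, true, true, false, [(0, 2), (3, 10)], []⟩,
  ⟨1406, 120, 0, 224, 120, true, true, false, [(0, 2), (3, 10)], []⟩,
  ⟨1435, 120, 0, 224, 120, true, true, false, [(0, 3), (3, 9)], []⟩,
  ⟨1455, 120, 0, 224, 120, true, true, false, [(0, 3), (3, 9)], []⟩,
  ⟨1475, 120, 0, 224, 120, true, true, false, [(0, 3), (3, 9)], []⟩,
  ⟨1495, 120, 0, 208, 109, true, true, false, [(0, 3), (3, 10)], []⟩,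
  ⟨1509, 120, 0, 208, 109, true, true, false, [(0, 4), (3, 9)], []⟩,
  ⟨1523, 120, 0, 208, 109, true, true, false, [(0, 4), (3, 9)], []⟩,
  ⟨1537, 120, 0, 208, 109, true, true, false, [(0, 5), (3, 8)], []⟩,
  ⟨1551, 120, 0, 208, 109, true, true, false, [(0, 6), (3, 7)], []⟩,
  ⟨1561, 120, 0, 208, 109, true, true, false, [(0, 7), (3, 6)], []⟩,
  ⟨1571, 120, 0, 208, 109, true, true, false, [(0, 8), (3, 5)], []⟩,
  ⟨1581, 120, 0, 208, 109, true, true, false, [(0, 11), (3, 2)], []⟩,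
  ⟨1603, 120, 0, 208, 109, true, true, false, [(0, 13)], []⟩,
  ⟨1649, 120, 0, 208, 109, true, true, false, [(0, 13)], []⟩,
  ⟨1742, 120, 0, 192, 98, true, true, false, [(0, 14)], []⟩,
  ⟨2002, 120, 0, 176, 88, true, true, false, [(0, 15)], []⟩,
  ⟨2514, 120, 0, 120, 56, true, true, false, [(0, 19)], []⟩,
  ⟨6387, 120, 0, 0, 0, true, false, false, [(0, 27)], []⟩,
  ⟨6417, 120, 0, 0, 0, true, false, false, [(0, 27)], []⟩
  ] = true := by decide +kernel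

def g64_27 : Gr := ⟨false, 401, 403, 1024, 1024, 64, 64, 8192, 8192, 0, 2048, 0, []⟩

theorem k64_27 : chk g64_27 T375 [
  ⟨355, 120, 720, 28, 308, false, false, false, [(0, 1), (3, 3), (19, 2), (9, 2), (10, 2), (11, 1), (12, 2), (3, 12)], []⟩,
  ⟨529, 120, 720, 88, 248, false, false, false, [(0, 1), (3, 9), (11, 1), (3, 10)], []⟩,
  ⟨650, 120, 720, 88, 232, false, false, false, [(0, 1), (3, 20)], []⟩,
  ⟨709, 120, 720, 88, 224, false, false, false, [(0, 1), (3, 20)], []⟩,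
  ⟨750, 120, 480, 224, 120, false, true, false, [(0, 1), (3, 11)], []⟩,
  ⟨791, 120, 480, 224, 120, false, true, false, [(0, 1), (3, 11)], []⟩,
  ⟨820, 120, 480, 224, 120, false, true, false, [(0, 1), (3, 11)], []⟩,
  ⟨840, 120, 0, 256, 145, true, true, false, [(0, 1), (3, 9)], []⟩,
  ⟨860, 120, 0, 256, 145, true, true, false, [(0, 1), (3, 9)], []⟩,
  ⟨889, 120, 0, 256, 145, true, true, false, [(0, 1), (3, 9)], []⟩,
  ⟨918, 120, 0, 240, 132, true, true, false, [(0, 1), (3, 10)], []⟩,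
  ⟨947, 120, 0, 240, 132, true, true, false, [(0, 1), (3, 10)], []⟩,
  ⟨989, 120, 0, 240, 132, true, true, false, [(0, 1), (3, 10)], []⟩,
  ⟨1031, 120, 0, 240, 132, true, true, false, [(0, 1), (3, 10)], []⟩,
  ⟨1073, 120, 0, 240, 132, true, true, false, [(0, 1), (3, 10)], []⟩,
  ⟨1115, 120, 0, 240, 132, true, true, false, [(0, 1), (3, 10)], []⟩,
  ⟨1157, 120, 0, 240, 132, true, true, false, [(0, 1), (3, 10)], []⟩,
  ⟨1199, 120, 0, 224, 120, true, true, false, [(0, 2), (3, 10)], []⟩,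
  ⟨1241, 120, 0, 224, 120, true, true, false, [(0, 2), (3, 10)], []⟩,
  ⟨1283, 120, 0, 224, 120, true, true, false, [(0, 2), (3, 10)], []⟩,
  ⟨1325, 120, 0, 224, 120, true, true, false, [(0, 2), (3, 10)], []⟩,
  ⟨1367, 120, 0, 224, 120, true, true, false, [(0, 2), (3, 10)], []⟩,
  ⟨1409, 120, 0, 224, 120, true, true, false, [(0, 2), (3, 10)], []⟩,
  ⟨1451, 120, 0, 224, 120, true, true, false, [(0, 3), (3, 9)], []⟩,
  ⟨1480, 120, 0, 224, 120, true, true, false, [(0, 3), (3, 9)], []⟩,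
  ⟨1509, 120, 0, 208, 109, true, true, false, [(0, 3), (3, 10)], []⟩,
  ⟨1529, 120, 0, 208, 109, true, true, false, [(0, 4), (3, 9)], []⟩,
  ⟨1549, 120, 0, 208, 109, true, true, false, [(0, 5), (3, 8)], []⟩,
  ⟨1569, 120, 0, 208, 109, true, true, false, [(0, 6), (3, 7)], []⟩,
  ⟨1589, 120, 0, 208, 109, true, true, false, [(0, 9), (3, 4)], []⟩,
  ⟨1619, 120, 0, 208, 109, true, true, false, [(0, 13)], []⟩,
  ⟨1680, 120, 0, 208, 109, true, true, false, [(0, 13)], []⟩,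
  ⟨1767, 120, 0, 208, 109, true, true, false, [(0, 13)], []⟩,
  ⟨1890, 120, 0, 192, 98, true, true, false, [(0, 15)], []⟩,
  ⟨2231, 120, 0, 160, 78, true, true, false, [(0, 17)], []⟩,
  ⟨3173, 120, 0, 88, 40, true, true, false, [(0, 21)], []⟩,
  ⟨6449, 120, 0, 0, 0, true, false, false, [(0, 27)], []⟩
  ] = true := by decide +kernel

def g64_28 : Gr := ⟨false, 403, 407, 1024, 1024, 64, 64, 8192, 8192, 0, 2048, 0, []⟩

theorem k64_28 : chk g64_28 T375 [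
  ⟨498, 50, 550, 208, 141, false, true, false, [(0, 1), (3, 8), (19, 5), (8, 2), (9, 4), (10, 4), (11, 4), (12, 4)], []⟩,
  ⟨617, 50, 650, 96, 232, false, false, false, [(0, 1), (3, 49)], []⟩,
  ⟨700, 50, 650, 120, 200, false, false, false, [(0, 1), (3, 45)], []⟩,
  ⟨783, 50, 500, 208, 109, false, true, false, [(0, 1), (3, 31)], []⟩,
  ⟨841, 50, 500, 208, 109, false, true, false, [(0, 1), (3, 31)], []⟩,
  ⟨899, 50, 0, 240, 132, true, true, false, [(0, 1), (3, 26)], []⟩,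
  ⟨957, 50, 0, 240, 132, true, true, false, [(0, 1), (3, 26)], []⟩,
  ⟨1040, 50, 0, 240, 132, true, true, false, [(0, 1), (3, 26)], []⟩,
  ⟨1123, 50, 0, 240, 132, true, true, false, [(0, 1), (3, 26)], []⟩,
  ⟨1206, 50, 0, 240, 132, true, true, false, [(0, 2), (3, 25)], []⟩,
  ⟨1264, 50, 0, 240, 132, true, true, false, [(0, 2), (3, 25)], []⟩,
  ⟨1304, 50, 0, 240, 132, true, true, false, [(0, 2), (3, 25)], []⟩,
  ⟨1344, 50, 0, 224, 120, true, true, false, [(0, 2), (3, 28)], []⟩,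
  ⟨1384, 50, 0, 224, 120, true, true, false, [(0, 2), (3, 28)], []⟩,
  ⟨1412, 50, 0, 224, 120, true, true, false, [(0, 2), (3, 28)], []⟩,
  ⟨1440, 50, 0, 208, 109, true, true, false, [(0, 3), (3, 29)], []⟩,
  ⟨1468, 50, 0, 208, 109, true, true, false, [(0, 3), (3, 29)], []⟩,
  ⟨1496, 50, 0, 208, 109, true, true, false, [(0, 3), (3, 29)], []⟩,
  ⟨1515, 50, 0, 208, 109, true, true, false, [(0, 4), (3, 28)], []⟩,
  ⟨1534, 50, 0, 208, 109, true, true, false, [(0, 4), (3, 28)], []⟩,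
  ⟨1553, 50, 0, 208, 109, true, true, false, [(0, 5), (3, 27)], []⟩,
  ⟨1572, 50, 0, 208, 109, true, true, false, [(0, 7), (3, 25)], []⟩,
  ⟨1585, 50, 0, 208, 109, true, true, false, [(0, 10), (3, 22)], []⟩,
  ⟨1598, 50, 0, 208, 109, true, true, false, [(0, 18), (3, 14)], []⟩,
  ⟨1611, 50, 0, 208, 109, true, true, false, [(0, 32)], []⟩,
  ⟨1640, 50, 0, 208, 109, true, true, false, [(0, 32)], []⟩,
  ⟨1700, 50, 0, 208, 109, true, true, false, [(0, 32)], []⟩,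
  ⟨1821, 50, 0, 192, 98, true, true, false, [(0, 35)], []⟩,
  ⟨2061, 50, 0, 176, 88, true, true, false, [(0, 37)], []⟩,
  ⟨2725, 50, 0, 120, 56, true, true, false, [(0, 46)], []⟩,
  ⟨6307, 50, 0, 0, 0, true, false, false, [(0, 66)], []⟩,
  ⟨6513, 50, 0, 0, 0, true, false, false, [(0, 66)], []⟩
  ] = true := by decide +kernel

def g64_29 : Gr := ⟨false, 407, 410, 1024, 1024, 64, 64, 8192, 8192, 0, 2048, 0, []⟩

theorem k64_29 : chk g64_29 T375 [
  ⟨355, 90, 720, 28, 316, false, false, false, [(0, 1), (3, 4), (19, 3), (8, 1), (9, 2), (10, 2), (11, 2), (12, 3), (3, 16)], []⟩,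
  ⟨529, 90, 630, 96, 244, false, true, false, [(0, 1), (3, 13), (11, 1), (3, 2), (12, 1), (3, 10)], []⟩,
  ⟨650, 90, 630, 96, 232, false, false, false, [(0, 1), (3, 27)], []⟩,
  ⟨735, 90, 630, 96, 224, false, false, false, [(0, 1), (3, 27)], []⟩,
  ⟨794, 90, 540, 208, 109, false, true, false, [(0, 1), (3, 17)], []⟩,
  ⟨835, 90, 0, 256, 145, true, true, false, [(0, 1), (3, 13)], []⟩,
  ⟨876, 90, 0, 256, 145, true, true, false, [(0, 1), (3, 13)], []⟩,
  ⟨917, 90, 0, 256, 145, true, true, false, [(0, 1), (3, 13)], []⟩,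
  ⟨958, 90, 0, 256, 145, true, true, false, [(0, 1), (3, 13)], []⟩,
  ⟨999, 90, 0, 256, 145, true, true, false, [(0, 1), (3, 13)], []⟩,
  ⟨1040, 90, 0, 256, 145, true, true, false, [(0, 1), (3, 13)], []⟩,
  ⟨1081, 90, 0, 256, 145, true, true, false, [(0, 1), (3, 13)], []⟩,
  ⟨1110, 90, 0, 256, 145, true, true, false, [(0, 1), (3, 13)], []⟩,
  ⟨1139, 90, 0, 224, 120, true, true, false, [(0, 1), (3, 16)], []⟩,
  ⟨1168, 90, 0, 224, 120, true, true, false, [(0, 2), (3, 15)], []⟩,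
  ⟨1197, 90, 0, 224, 120, true, true, false, [(0, 2), (3, 15)], []⟩,
  ⟨1226, 90, 0, 224, 120, true, true, false, [(0, 2), (3, 15)], []⟩,
  ⟨1267, 90, 0, 224, 120, true, true, false, [(0, 2), (3, 15)], []⟩,
  ⟨1308, 90, 0, 224, 120, true, true, false, [(0, 2), (3, 15)], []⟩,
  ⟨1349, 90, 0, 224, 120, true, true, false, [(0, 2), (3, 15)], []⟩,
  ⟨1390, 90, 0, 224, 120, true, true, false, [(0, 2), (3, 15)], []⟩,
  ⟨1419, 90, 0, 224, 120, true, true, false, [(0, 2), (3, 15)], []⟩,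
  ⟨1448, 90, 0, 224, 120, true, true, false, [(0, 3), (3, 14)], []⟩,
  ⟨1477, 90, 0, 208, 109, true, true, false, [(0, 3), (3, 15)], []⟩,
  ⟨1497, 90, 0, 208, 109, true, true, false, [(0, 3), (3, 15)], []⟩,
  ⟨1517, 90, 0, 208, 109, true, true, false, [(0, 3), (3, 15)], []⟩,
  ⟨1537, 90, 0, 208, 109, true, true, false, [(0, 4), (3, 14)], []⟩,
  ⟨1557, 90, 0, 208, 109, true, true, false, [(0, 4), (3, 14)], []⟩,
  ⟨1577, 90, 0, 208, 109, true, true, false, [(0, 5), (3, 13)], []⟩,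
  ⟨1591, 90, 0, 208, 109, true, true, false, [(0, 7), (3, 11)], []⟩,
  ⟨1605, 90, 0, 208, 109, true, true, false, [(0, 10), (3, 8)], []⟩,
  ⟨1619, 90, 0, 208, 109, true, true, false, [(0, 15), (3, 3)], []⟩,
  ⟨1649, 90, 0, 208, 109, true, true, false, [(0, 18)], []⟩,
  ⟨1711, 90, 0, 208, 109, true, true, false, [(0, 18)], []⟩,
  ⟨1799, 90, 0, 208, 109, true, true, false, [(0, 18)], []⟩,
  ⟨2045, 90, 0, 176, 88, true, true, false, [(0, 21)], []⟩,
  ⟨2726, 90, 0, 120, 56, true, true, false, [(0, 26)], []⟩,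
  ⟨6401, 90, 0, 0, 0, true, false, false, [(0, 37)], []⟩,
  ⟨6561, 90, 0, 0, 0, true, false, false, [(0, 37)], []⟩
  ] = true := by decide +kernel

def g64_30 : Gr := ⟨false, 409, 413, 1024, 1024, 64, 64, 8192, 8192, 0, 2048, 0, []⟩

theorem k64_30 : chk g64_30 T400 [
  ⟨498, 50, 500, 240, 132, false, true, false, [(0, 1), (3, 8), (22, 5), (10, 2), (11, 4), (12, 4), (13, 4)], []⟩,
  ⟨668, 50, 650, 96, 232, false, false, false, [(0, 1), (3, 14), (7, 1), (3, 11), (13, 1), (14, 4), (3, 19)], []⟩,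
  ⟨751, 50, 550, 208, 117, false, true, false, [(0, 1), (3, 30), (14, 1), (3, 1)], []⟩,
  ⟨809, 50, 550, 208, 109, false, true, false, [(0, 1), (3, 32)], []⟩,
  ⟨850, 50, 0, 240, 132, true, true, false, [(0, 1), (3, 27)], []⟩,
  ⟨908, 50, 0, 240, 132, true, true, false, [(0, 1), (3, 27)], []⟩,
  ⟨966, 50, 0, 240, 132, true, true, false, [(0, 1), (3, 27)], []⟩,
  ⟨1048, 50, 0, 240, 132, true, true, false, [(0, 1), (3, 27)], []⟩,
  ⟨1130, 50, 0, 240, 132, true, true, false, [(0, 1), (3, 27)], []⟩,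
  ⟨1212, 50, 0, 240, 132, true, true, false, [(0, 2), (3, 26)], []⟩,
  ⟨1269, 50, 0, 240, 132, true, true, false, [(0, 2), (3, 26)], []⟩,
  ⟨1326, 50, 0, 240, 132, true, true, false, [(0, 2), (3, 26)], []⟩,
  ⟨1366, 50, 0, 240, 132, true, true, false, [(0, 2), (3, 26)], []⟩,
  ⟨1406, 50, 0, 224, 120, true, true, false, [(0, 2), (3, 29)], []⟩,
  ⟨1434, 50, 0, 224, 120, true, true, false, [(0, 2), (3, 29)], []⟩,
  ⟨1462, 50, 0, 224, 120, true, true, false, [(0, 3), (3, 28)], []⟩,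
  ⟨1481, 50, 0, 208, 109, true, true, false, [(0, 3), (3, 30)], []⟩,
  ⟨1500, 50, 0, 208, 109, true, true, false, [(0, 3), (3, 30)], []⟩,
  ⟨1519, 50, 0, 208, 109, true, true, false, [(0, 3), (3, 30)], []⟩,
  ⟨1538, 50, 0, 208, 109, true, true, false, [(0, 4), (3, 29)], []⟩,
  ⟨1557, 50, 0, 208, 109, true, true, false, [(0, 4), (3, 29)], []⟩,
  ⟨1570, 50, 0, 208, 109, true, true, false, [(0, 5), (3, 28)], []⟩,
  ⟨1583, 50, 0, 208, 109, true, true, false, [(0, 6), (3, 27)], []⟩,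
  ⟨1596, 50, 0, 208, 109, true, true, false, [(0, 7), (3, 26)], []⟩,
  ⟨1605, 50, 0, 208, 109, true, true, false, [(0, 10), (3, 23)], []⟩,
  ⟨1614, 50, 0, 208, 109, true, true, false, [(0, 15), (3, 18)], []⟩,
  ⟨1623, 50, 0, 208, 109, true, true, false, [(0, 23), (3, 10)], []⟩,
  ⟨1637, 50, 0, 208, 109, true, true, false, [(0, 33)], []⟩,
  ⟨1668, 50, 0, 208, 109, true, true, false, [(0, 33)], []⟩,
  ⟨1731, 50, 0, 208, 109, true, true, false, [(0, 33)], []⟩,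
  ⟨1857, 50, 0, 192, 98, true, true, false, [(0, 36)], []⟩,
  ⟨2107, 50, 0, 176, 88, true, true, false, [(0, 38)], []⟩,
  ⟨2798, 50, 0, 120, 56, true, true, false, [(0, 47)], []⟩,
  ⟨6528, 50, 0, 0, 0, true, false, false, [(0, 67)], []⟩,
  ⟨6609, 50, 0, 0, 0, true, false, false, [(0, 67)], []⟩
  ] = true := by decide +kernel

def g64_31 : Gr := ⟨false, 413, 416, 1024, 1024, 64, 64, 8192, 8192, 0, 2048, 0, []⟩

theorem k64_31 : chk g64_31 T400 [
  ⟨498, 70, 560, 224, 136, false, true, false, [(0, 1), (3, 5), (22, 4), (10, 1), (11, 3), (12, 3), (13, 3), (14, 2)], []⟩,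
  ⟨668, 70, 700, 104, 232, false, false, false, [(0, 1), (3, 19), (14, 3), (3, 13)], []⟩,
  ⟨751, 70, 490, 224, 120, false, true, false, [(0, 1), (3, 21)], []⟩,
  ⟨834, 70, 490, 224, 120, false, true, false, [(0, 1), (3, 21)], []⟩,
  ⟨875, 70, 490, 224, 120, false, true, false, [(0, 1), (3, 21)], []⟩,
  ⟨916, 70, 490, 224, 120, false, true, false, [(0, 1), (3, 21)], []⟩,
  ⟨944, 70, 490, 224, 120, false, true, false, [(0, 1), (3, 21)], []⟩,
  ⟨972, 70, 0, 256, 145, true, true, false, [(0, 1), (3, 18)], []⟩,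
  ⟨1000, 70, 0, 224, 120, true, true, false, [(0, 1), (3, 21)], []⟩,
  ⟨1028, 70, 0, 224, 120, true, true, false, [(0, 1), (3, 21)], []⟩,
  ⟨1069, 70, 0, 224, 120, true, true, false, [(0, 1), (3, 21)], []⟩,
  ⟨1110, 70, 0, 224, 120, true, true, false, [(0, 1), (3, 21)], []⟩,
  ⟨1168, 70, 0, 224, 120, true, true, false, [(0, 1), (3, 21)], []⟩,
  ⟨1226, 70, 0, 224, 120, true, true, false, [(0, 2), (3, 20)], []⟩,
  ⟨1284, 70, 0, 224, 120, true, true, false, [(0, 2), (3, 20)], []⟩,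
  ⟨1342, 70, 0, 224, 120, true, true, false, [(0, 2), (3, 20)], []⟩,
  ⟨1400, 70, 0, 224, 120, true, true, false, [(0, 2), (3, 20)], []⟩,
  ⟨1458, 70, 0, 224, 120, true, true, false, [(0, 2), (3, 20)], []⟩,
  ⟨1516, 70, 0, 224, 120, true, true, false, [(0, 3), (3, 19)], []⟩,
  ⟨1557, 70, 0, 224, 120, true, true, false, [(0, 4), (3, 18)], []⟩,
  ⟨1585, 70, 0, 224, 120, true, true, false, [(0, 4), (3, 18)], []⟩,
  ⟨1605, 70, 0, 224, 120, true, true, false, [(0, 6), (3, 16)], []⟩,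
  ⟨1614, 70, 0, 224, 120, true, true, false, [(0, 8), (3, 14)], []⟩,
  ⟨1623, 70, 0, 208, 109, true, true, false, [(0, 10), (3, 14)], []⟩,
  ⟨1632, 70, 0, 208, 109, true, true, false, [(0, 14), (3, 10)], []⟩,
  ⟨1641, 70, 0, 208, 109, true, true, false, [(0, 20), (3, 4)], []⟩,
  ⟨1655, 70, 0, 208, 109, true, true, false, [(0, 24)], []⟩,
  ⟨1686, 70, 0, 208, 109, true, true, false, [(0, 24)], []⟩,
  ⟨1749, 70, 0, 208, 109, true, true, false, [(0, 24)], []⟩,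
  ⟨1876, 70, 0, 192, 98, true, true, false, [(0, 26)], []⟩,
  ⟨2128, 70, 0, 176, 88, true, true, false, [(0, 28)], []⟩,
  ⟨2826, 70, 0, 120, 56, true, true, false, [(0, 34)], []⟩,
  ⟨6593, 70, 0, 0, 0, true, false, false, [(0, 48)], []⟩,
  ⟨6657, 70, 0, 0, 0, true, false, false, [(0, 48)], []⟩
  ] = true := by decide +kernel

def g64_32 : Gr := ⟨false, 416, 418, 1024, 1024, 64, 64, 8192, 8192, 0, 2048, 0, []⟩

theorem k64_32 : chk g64_32 T400 [
  ⟨355, 120, 720, 28, 324, false, false, false, [(0, 1), (3, 3), (22, 2), (11, 2), (12, 2), (13, 1), (14, 2), (15, 2), (3, 11)], []⟩,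
  ⟨599, 120, 720, 88, 248, false, false, false, [(0, 1), (3, 8), (8, 1), (13, 1), (14, 2), (3, 9)], []⟩,
  ⟨718, 120, 720, 88, 240, false, false, false, [(0, 1), (3, 21)], []⟩,
  ⟨776, 120, 600, 104, 216, false, false, false, [(0, 1), (3, 20)], []⟩,
  ⟨834, 120, 480, 224, 120, false, true, false, [(0, 1), (3, 12)], []⟩,
  ⟨875, 120, 480, 224, 120, false, true, false, [(0, 1), (3, 12)], []⟩,
  ⟨903, 120, 0, 256, 145, true, true, false, [(0, 1), (3, 10)], []⟩,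
  ⟨944, 120, 0, 256, 145, true, true, false, [(0, 1), (3, 10)], []⟩,
  ⟨985, 120, 0, 256, 145, true, true, false, [(0, 1), (3, 10)], []⟩,
  ⟨1026, 120, 0, 256, 145, true, true, false, [(0, 1), (3, 10)], []⟩,
  ⟨1067, 120, 0, 240, 132, true, true, false, [(0, 1), (3, 11)], []⟩,
  ⟨1125, 120, 0, 240, 132, true, true, false, [(0, 1), (3, 11)], []⟩,
  ⟨1183, 120, 0, 240, 132, true, true, false, [(0, 1), (3, 11)], []⟩,
  ⟨1241, 120, 0, 240, 132, true, true, false, [(0, 2), (3, 10)], []⟩,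
  ⟨1299, 120, 0, 240, 132, true, true, false, [(0, 2), (3, 10)], []⟩,
  ⟨1357, 120, 0, 224, 120, true, true, false, [(0, 2), (3, 11)], []⟩,
  ⟨1415, 120, 0, 224, 120, true, true, false, [(0, 2), (3, 11)], []⟩,
  ⟨1456, 120, 0, 224, 120, true, true, false, [(0, 2), (3, 11)], []⟩,
  ⟨1497, 120, 0, 224, 120, true, true, false, [(0, 3), (3, 10)], []⟩,
  ⟨1538, 120, 0, 224, 120, true, true, false, [(0, 3), (3, 10)], []⟩,
  ⟨1566, 120, 0, 224, 120, true, true, false, [(0, 4), (3, 9)], []⟩,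
  ⟨1586, 120, 0, 224, 120, true, true, false, [(0, 4), (3, 9)], []⟩,
  ⟨1606, 120, 0, 208, 109, true, true, false, [(0, 5), (3, 9)], []⟩,
  ⟨1626, 120, 0, 208, 109, true, true, false, [(0, 6), (3, 8)], []⟩,
  ⟨1640, 120, 0, 208, 109, true, true, false, [(0, 9), (3, 5)], []⟩,
  ⟨1660, 120, 0, 208, 109, true, true, false, [(0, 14)], []⟩,
  ⟨1703, 120, 0, 208, 109, true, true, false, [(0, 14)], []⟩,
  ⟨1789, 120, 0, 208, 109, true, true, false, [(0, 14)], []⟩,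
  ⟨1911, 120, 0, 208, 109, true, true, false, [(0, 14)], []⟩,
  ⟨2153, 120, 0, 176, 88, true, true, false, [(0, 17)], []⟩,
  ⟨2823, 120, 0, 120, 56, true, true, false, [(0, 20)], []⟩,
  ⟨6440, 120, 0, 0, 0, true, false, false, [(0, 28)], []⟩,
  ⟨6689, 120, 0, 0, 0, true, false, false, [(0, 28)], []⟩
  ] = true := by decide +kernel

def g64_33 : Gr := ⟨false, 418, 421, 1024, 1024, 64, 64, 8192, 8192, 0, 2048, 0, []⟩

theorem k64_33 : chk g64_33 T400 [
  ⟨498, 90, 540, 224, 144, false, true, false, [(0, 1), (3, 4), (22, 3), (10, 1), (11, 2), (12, 2), (13, 2), (14, 3)], []⟩,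
  ⟨668, 90, 630, 96, 240, false, false, false, [(0, 1), (3, 15), (14, 2), (3, 11)], []⟩,
  ⟨751, 90, 630, 96, 232, false, false, false, [(0, 1), (3, 16), (14, 1), (3, 11)], []⟩,
  ⟨809, 90, 540, 208, 125, false, true, false, [(0, 1), (3, 18)], []⟩,
  ⟨850, 90, 540, 208, 117, false, true, false, [(0, 1), (3, 18)], []⟩,
  ⟨891, 90, 0, 256, 145, true, true, false, [(0, 1), (3, 14)], []⟩,
  ⟨949, 90, 0, 256, 145, true, true, false, [(0, 1), (3, 14)], []⟩,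
  ⟨1007, 90, 0, 256, 145, true, true, false, [(0, 1), (3, 14)], []⟩,
  ⟨1065, 90, 0, 256, 145, true, true, false, [(0, 1), (3, 14)], []⟩,
  ⟨1105, 90, 0, 256, 145, true, true, false, [(0, 1), (3, 14)], []⟩,
  ⟨1145, 90, 0, 256, 145, true, true, false, [(0, 1), (3, 14)], []⟩,
  ⟨1185, 90, 0, 256, 145, true, true, false, [(0, 1), (3, 14)], []⟩,
  ⟨1213, 90, 0, 256, 145, true, true, false, [(0, 2), (3, 13)], []⟩,
  ⟨1241, 90, 0, 224, 120, true, true, false, [(0, 2), (3, 16)], []⟩,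
  ⟨1269, 90, 0, 224, 120, true, true, false, [(0, 2), (3, 16)], []⟩,
  ⟨1297, 90, 0, 224, 120, true, true, false, [(0, 2), (3, 16)], []⟩,
  ⟨1325, 90, 0, 224, 120, true, true, false, [(0, 2), (3, 16)], []⟩,
  ⟨1366, 90, 0, 224, 120, true, true, false, [(0, 2), (3, 16)], []⟩,
  ⟨1407, 90, 0, 224, 120, true, true, false, [(0, 2), (3, 16)], []⟩,
  ⟨1435, 90, 0, 224, 120, true, true, false, [(0, 2), (3, 16)], []⟩,
  ⟨1463, 90, 0, 224, 120, true, true, false, [(0, 2), (3, 16)], []⟩,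
  ⟨1491, 90, 0, 224, 120, true, true, false, [(0, 3), (3, 15)], []⟩,
  ⟨1519, 90, 0, 224, 120, true, true, false, [(0, 3), (3, 15)], []⟩,
  ⟨1539, 90, 0, 224, 120, true, true, false, [(0, 3), (3, 15)], []⟩,
  ⟨1559, 90, 0, 208, 109, true, true, false, [(0, 3), (3, 16)], []⟩,
  ⟨1579, 90, 0, 208, 109, true, true, false, [(0, 4), (3, 15)], []⟩,
  ⟨1593, 90, 0, 208, 109, true, true, false, [(0, 4), (3, 15)], []⟩,
  ⟨1607, 90, 0, 208, 109, true, true, false, [(0, 5), (3, 14)], []⟩,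
  ⟨1621, 90, 0, 208, 109, true, true, false, [(0, 6), (3, 13)], []⟩,
  ⟨1635, 90, 0, 208, 109, true, true, false, [(0, 7), (3, 12)], []⟩,
  ⟨1644, 90, 0, 208, 109, true, true, false, [(0, 10), (3, 9)], []⟩,
  ⟨1653, 90, 0, 208, 109, true, true, false, [(0, 13), (3, 6)], []⟩,
  ⟨1662, 90, 0, 208, 109, true, true, false, [(0, 17), (3, 2)], []⟩,
  ⟨1683, 90, 0, 208, 109, true, true, false, [(0, 19)], []⟩,
  ⟨1728, 90, 0, 208, 109, true, true, false, [(0, 19)], []⟩,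
  ⟨1818, 90, 0, 208, 109, true, true, false, [(0, 19)], []⟩,
  ⟨1997, 90, 0, 176, 88, true, true, false, [(0, 22)], []⟩,
  ⟨2495, 90, 0, 144, 69, true, true, false, [(0, 25)], []⟩,
  ⟨5185, 90, 0, 16, 7, true, true, false, [(0, 36)], []⟩,
  ⟨6737, 90, 0, 0, 0, true, false, false, [(0, 38)], []⟩
  ] = true := by decide +kernel

def g64_34 : Gr := ⟨false, 421, 424, 1024, 1024, 64, 64, 8192, 8192, 0, 2048, 0, []⟩

theorem k64_34 : chk g64_34 T400 [
  ⟨498, 50, 550, 224, 144, false, true, false, [(0, 1), (3, 8), (22, 5), (10, 2), (11, 4), (12, 4), (13, 4), (14, 4)], []⟩,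
  ⟨738, 50, 550, 224, 120, false, true, false, [(0, 1), (3, 14), (7, 1), (3, 6), (8, 2), (3, 2), (13, 2), (14, 4)], []⟩,
  ⟨820, 50, 500, 224, 120, false, true, false, [(0, 1), (3, 31)], []⟩,
  ⟨902, 50, 0, 256, 145, true, true, false, [(0, 1), (3, 26)], []⟩,
  ⟨984, 50, 0, 256, 145, true, true, false, [(0, 1), (3, 26)], []⟩,
  ⟨1066, 50, 0, 256, 145, true, true, false, [(0, 1), (3, 26)], []⟩,
  ⟨1148, 50, 0, 256, 145, true, true, false, [(0, 1), (3, 26)], []⟩,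
  ⟨1205, 50, 0, 224, 120, true, true, false, [(0, 1), (3, 31)], []⟩,
  ⟨1262, 50, 0, 224, 120, true, true, false, [(0, 2), (3, 30)], []⟩,
  ⟨1343, 50, 0, 224, 120, true, true, false, [(0, 2), (3, 30)], []⟩,
  ⟨1424, 50, 0, 224, 120, true, true, false, [(0, 2), (3, 30)], []⟩,
  ⟨1481, 50, 0, 224, 120, true, true, false, [(0, 2), (3, 30)], []⟩,
  ⟨1538, 50, 0, 224, 120, true, true, false, [(0, 3), (3, 29)], []⟩,
  ⟨1578, 50, 0, 224, 120, true, true, false, [(0, 3), (3, 29)], []⟩,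
  ⟨1618, 50, 0, 224, 120, true, true, false, [(0, 4), (3, 28)], []⟩,
  ⟨1646, 50, 0, 224, 120, true, true, false, [(0, 7), (3, 25)], []⟩,
  ⟨1659, 50, 0, 224, 120, true, true, false, [(0, 13), (3, 19)], []⟩,
  ⟨1672, 50, 0, 224, 120, true, true, false, [(0, 23), (3, 9)], []⟩,
  ⟨1685, 50, 0, 224, 120, true, true, false, [(0, 32)], []⟩,
  ⟨1714, 50, 0, 208, 109, true, true, false, [(0, 35)], []⟩,
  ⟨1773, 50, 0, 208, 109, true, true, false, [(0, 35)], []⟩,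
  ⟨1892, 50, 0, 208, 109, true, true, false, [(0, 35)], []⟩,
  ⟨2225, 50, 0, 176, 88, true, true, false, [(0, 40)], []⟩,
  ⟨3143, 50, 0, 96, 44, true, true, false, [(0, 53)], []⟩,
  ⟨6677, 50, 0, 0, 0, true, false, false, [(0, 68)], []⟩,
  ⟨6785, 50, 0, 0, 0, true, false, false, [(0, 68)], []⟩
  ] = true := by decide +kernel

def g64_35 : Gr := ⟨false, 424, 426, 1024, 1024, 64, 64, 8192, 8192, 0, 2048, 0, []⟩

theorem k64_35 : chk g64_35 T400 [
  ⟨498, 90, 540, 224, 152, false, true, false, [(0, 1), (3, 4), (22, 3), (10, 1), (11, 2), (12, 2), (13, 2), (14, 3)], []⟩,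
  ⟨668, 90, 630, 112, 232, false, false, false, [(0, 1), (3, 15), (14, 2), (3, 10)], []⟩,
  ⟨787, 90, 630, 112, 216, false, false, false, [(0, 1), (3, 16), (14, 1), (3, 10)], []⟩,
  ⟨870, 90, 540, 224, 120, false, true, false, [(0, 1), (3, 17)], []⟩,
  ⟨911, 90, 540, 224, 120, false, true, false, [(0, 1), (3, 17)], []⟩,
  ⟨952, 90, 540, 224, 120, false, true, false, [(0, 1), (3, 17)], []⟩,
  ⟨980, 90, 0, 240, 132, true, true, false, [(0, 1), (3, 16)], []⟩,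
  ⟨1021, 90, 0, 240, 132, true, true, false, [(0, 1), (3, 16)], []⟩,
  ⟨1062, 90, 0, 240, 132, true, true, false, [(0, 1), (3, 16)], []⟩,
  ⟨1120, 90, 0, 240, 132, true, true, false, [(0, 1), (3, 16)], []⟩,
  ⟨1178, 90, 0, 240, 132, true, true, false, [(0, 1), (3, 16)], []⟩,
  ⟨1236, 90, 0, 240, 132, true, true, false, [(0, 2), (3, 15)], []⟩,
  ⟨1294, 90, 0, 240, 132, true, true, false, [(0, 2), (3, 15)], []⟩,
  ⟨1352, 90, 0, 224, 120, true, true, false, [(0, 2), (3, 16)], []⟩,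
  ⟨1410, 90, 0, 224, 120, true, true, false, [(0, 2), (3, 16)], []⟩,
  ⟨1468, 90, 0, 224, 120, true, true, false, [(0, 2), (3, 16)], []⟩,
  ⟨1526, 90, 0, 224, 120, true, true, false, [(0, 3), (3, 15)], []⟩,
  ⟨1567, 90, 0, 224, 120, true, true, false, [(0, 3), (3, 15)], []⟩,
  ⟨1608, 90, 0, 224, 120, true, true, false, [(0, 4), (3, 14)], []⟩,
  ⟨1636, 90, 0, 224, 120, true, true, false, [(0, 5), (3, 13)], []⟩,
  ⟨1656, 90, 0, 224, 120, true, true, false, [(0, 7), (3, 11)], []⟩,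
  ⟨1670, 90, 0, 224, 120, true, true, false, [(0, 10), (3, 8)], []⟩,
  ⟨1684, 90, 0, 224, 120, true, true, false, [(0, 15), (3, 3)], []⟩,
  ⟨1698, 90, 0, 224, 120, true, true, false, [(0, 18)], []⟩,
  ⟨1718, 90, 0, 224, 120, true, true, false, [(0, 18)], []⟩,
  ⟨1748, 90, 0, 208, 109, true, true, false, [(0, 20)], []⟩,
  ⟨1834, 90, 0, 192, 98, true, true, false, [(0, 21)], []⟩,
  ⟨2006, 90, 0, 192, 98, true, true, false, [(0, 21)], []⟩,
  ⟨2483, 90, 0, 160, 78, true, true, false, [(0, 24)], []⟩,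
  ⟨5061, 90, 0, 24, 11, true, true, false, [(0, 36)], []⟩,
  ⟨6817, 90, 0, 0, 0, true, false, false, [(0, 38)], []⟩
  ] = true := by decide +kernel

end Pool.Agent.Lib.MP_af3a4a_an.P1.CHK.H81.L
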