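import Pool.Agent.Lib.MP_af3a4a_an.P1.CHK.H81.LT
/-!
# Data, `64 ≤ N ≤ 64`, `426 ≤ 1024 R ≤ 475` (helper81)
-/
set_option autoImplicit false

namespace Pool.Agent.Lib.MP_af3a4a_an.P1.CHK.H81.L

open Pool.Agent.Lib.MP_af3a4a_an.P1.CHK.H58.G (Gr En)

def g64_36 : Gr := ⟨false, 426, 429, 1024, 1024, 64, 64, 8192, 8192, 0, 2048, 0, []⟩

theorem k64_36 : chk g64_36 T400 [
  ⟨498, 50, 500, 256, 145, false, true, false, [(0, 1), (3, 8), (22, 5), (10, 2), (11, 4), (12, 4), (13, 4)], []⟩,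
  ⟨668, 50, 650, 104, 240, false, false, false, [(0, 1), (3, 28), (14, 3), (3, 20)], []⟩,
  ⟨787, 50, 650, 104, 224, false, false, false, [(0, 1), (3, 30), (14, 1), (3, 20)], []⟩,
  ⟨870, 50, 500, 224, 120, false, true, false, [(0, 1), (3, 32)], []⟩,
  ⟨953, 50, 0, 256, 145, true, true, false, [(0, 1), (3, 27)], []⟩,
  ⟨1036, 50, 0, 256, 145, true, true, false, [(0, 1), (3, 27)], []⟩,
  ⟨1119, 50, 0, 256, 145, true, true, false, [(0, 1), (3, 27)], []⟩,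
  ⟨1202, 50, 0, 256, 145, true, true, false, [(0, 1), (3, 27)], []⟩,
  ⟨1260, 50, 0, 240, 132, true, true, false, [(0, 2), (3, 29)], []⟩,
  ⟨1318, 50, 0, 224, 120, true, true, false, [(0, 2), (3, 31)], []⟩,
  ⟨1376, 50, 0, 224, 120, true, true, false, [(0, 2), (3, 31)], []⟩,
  ⟨1434, 50, 0, 224, 120, true, true, false, [(0, 2), (3, 31)], []⟩,
  ⟨1492, 50, 0, 224, 120, true, true, false, [(0, 2), (3, 31)], []⟩,
  ⟨1550, 50, 0, 224, 120, true, true, false, [(0, 3), (3, 30)], []⟩,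
  ⟨1591, 50, 0, 224, 120, true, true, false, [(0, 3), (3, 30)], []⟩,
  ⟨1632, 50, 0, 224, 120, true, true, false, [(0, 4), (3, 29)], []⟩,
  ⟨1660, 50, 0, 224, 120, true, true, false, [(0, 6), (3, 27)], []⟩,
  ⟨1674, 50, 0, 224, 120, true, true, false, [(0, 11), (3, 22)], []⟩,
  ⟨1683, 50, 0, 224, 120, true, true, false, [(0, 17), (3, 16)], []⟩,
  ⟨1692, 50, 0, 224, 120, true, true, false, [(0, 27), (3, 6)], []⟩,
  ⟨1701, 50, 0, 224, 120, true, true, false, [(0, 33)], []⟩,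
  ⟨1715, 50, 0, 224, 120, true, true, false, [(0, 33)], []⟩,
  ⟨1746, 50, 0, 208, 109, true, true, false, [(0, 36)], []⟩,
  ⟨1809, 50, 0, 208, 109, true, true, false, [(0, 36)], []⟩,
  ⟨1988, 50, 0, 192, 98, true, true, false, [(0, 38)], []⟩,
  ⟨2342, 50, 0, 160, 78, true, true, false, [(0, 44)], []⟩,
  ⟨3711, 50, 0, 64, 28, true, true, false, [(0, 59)], []⟩,
  ⟨6865, 50, 0, 0, 0, true, false, false, [(0, 69)], []⟩
  ] = true := by decide +kernel

def g64_37 : Gr := ⟨false, 429, 433, 1024, 1024, 64, 64, 8192, 8192, 0, 2048, 0, []⟩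

theorem k64_37 : chk g64_37 T400 [
  ⟨498, 50, 550, 240, 140, false, true, false, [(0, 1), (3, 8), (22, 5), (10, 2), (11, 4), (12, 4), (13, 4), (14, 3)], []⟩,
  ⟨668, 50, 650, 104, 240, false, false, false, [(0, 1), (3, 28), (14, 3), (3, 21)], []⟩,
  ⟨787, 50, 650, 104, 232, false, false, false, [(0, 1), (3, 30), (14, 1), (3, 21)], []⟩,
  ⟨870, 50, 500, 240, 132, false, true, false, [(0, 1), (3, 30)], []⟩,
  ⟨928, 50, 500, 240, 132, false, true, false, [(0, 1), (3, 30)], []⟩,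
  ⟨986, 50, 0, 240, 132, true, true, false, [(0, 1), (3, 30)], []⟩,
  ⟨1044, 50, 0, 240, 132, true, true, false, [(0, 1), (3, 30)], []⟩,
  ⟨1127, 50, 0, 240, 132, true, true, false, [(0, 1), (3, 30)], []⟩,
  ⟨1210, 50, 0, 240, 132, true, true, false, [(0, 1), (3, 30)], []⟩,
  ⟨1293, 50, 0, 240, 132, true, true, false, [(0, 2), (3, 29)], []⟩,
  ⟨1376, 50, 0, 240, 132, true, true, false, [(0, 2), (3, 29)], []⟩,
  ⟨1434, 50, 0, 240, 132, true, true, false, [(0, 2), (3, 29)], []⟩,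
  ⟨1474, 50, 0, 240, 132, true, true, false, [(0, 2), (3, 29)], []⟩,
  ⟨1514, 50, 0, 224, 120, true, true, false, [(0, 3), (3, 31)], []⟩,
  ⟨1554, 50, 0, 224, 120, true, true, false, [(0, 3), (3, 31)], []⟩,
  ⟨1582, 50, 0, 224, 120, true, true, false, [(0, 3), (3, 31)], []⟩,
  ⟨1610, 50, 0, 224, 120, true, true, false, [(0, 4), (3, 30)], []⟩,
  ⟨1629, 50, 0, 208, 109, true, true, false, [(0, 4), (3, 32)], []⟩,
  ⟨1648, 50, 0, 208, 109, true, true, false, [(0, 5), (3, 31)], []⟩,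
  ⟨1661, 50, 0, 208, 109, true, true, false, [(0, 6), (3, 30)], []⟩,
  ⟨1674, 50, 0, 208, 109, true, true, false, [(0, 8), (3, 28)], []⟩,
  ⟨1687, 50, 0, 208, 109, true, true, false, [(0, 11), (3, 25)], []⟩,
  ⟨1696, 50, 0, 208, 109, true, true, false, [(0, 19), (3, 17)], []⟩,
  ⟨1705, 50, 0, 208, 109, true, true, false, [(0, 29), (3, 7)], []⟩,
  ⟨1726, 50, 0, 208, 109, true, true, false, [(0, 36)], []⟩,
  ⟨1789, 50, 0, 208, 109, true, true, false, [(0, 36)], []⟩,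
  ⟨1915, 50, 0, 208, 109, true, true, false, [(0, 36)], []⟩,
  ⟨2166, 50, 0, 176, 88, true, true, false, [(0, 42)], []⟩,
  ⟨2859, 50, 0, 128, 60, true, true, false, [(0, 49)], []⟩,
  ⟨6598, 50, 0, 0, 0, true, false, false, [(0, 70)], []⟩,
  ⟨6929, 50, 0, 0, 0, true, false, false, [(0, 70)], []⟩
  ] = true := by decide +kernel

def g64_38 : Gr := ⟨false, 433, 436, 1024, 1024, 64, 64, 8192, 8192, 0, 2048, 0, []⟩

theorem k64_38 : chk g64_38 T400 [
  ⟨498, 50, 550, 240, 140, false, true, false, [(0, 1), (3, 8), (22, 5), (10, 2), (11, 4), (12, 4), (13, 4), (14, 4)], []⟩,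
  ⟨668, 50, 650, 112, 240, false, false, false, [(0, 1), (3, 28), (14, 3), (3, 20)], []⟩,
  ⟨787, 50, 650, 112, 224, false, false, false, [(0, 1), (3, 51)], []⟩,
  ⟨870, 50, 550, 224, 120, false, true, false, [(0, 1), (3, 33)], []⟩,
  ⟨953, 50, 0, 256, 145, true, true, false, [(0, 1), (3, 28)], []⟩,
  ⟨1036, 50, 0, 256, 145, true, true, false, [(0, 1), (3, 28)], []⟩,
  ⟨1119, 50, 0, 256, 145, true, true, false, [(0, 1), (3, 28)], []⟩,
  ⟨1202, 50, 0, 256, 145, true, true, false, [(0, 1), (3, 28)], []⟩,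
  ⟨1260, 50, 0, 256, 145, true, true, false, [(0, 2), (3, 27)], []⟩,
  ⟨1318, 50, 0, 224, 120, true, true, false, [(0, 2), (3, 32)], []⟩,
  ⟨1376, 50, 0, 224, 120, true, true, false, [(0, 2), (3, 32)], []⟩,
  ⟨1434, 50, 0, 224, 120, true, true, false, [(0, 2), (3, 32)], []⟩,
  ⟨1492, 50, 0, 224, 120, true, true, false, [(0, 2), (3, 32)], []⟩,
  ⟨1550, 50, 0, 224, 120, true, true, false, [(0, 3), (3, 31)], []⟩,
  ⟨1608, 50, 0, 224, 120, true, true, false, [(0, 3), (3, 31)], []⟩,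
  ⟨1649, 50, 0, 224, 120, true, true, false, [(0, 4), (3, 30)], []⟩,
  ⟨1677, 50, 0, 224, 120, true, true, false, [(0, 6), (3, 28)], []⟩,
  ⟨1705, 50, 0, 224, 120, true, true, false, [(0, 9), (3, 25)], []⟩,
  ⟨1719, 50, 0, 224, 120, true, true, false, [(0, 23), (3, 11)], []⟩,
  ⟨1739, 50, 0, 224, 120, true, true, false, [(0, 34)], []⟩,
  ⟨1768, 50, 0, 208, 109, true, true, false, [(0, 37)], []⟩,
  ⟨1854, 50, 0, 208, 109, true, true, false, [(0, 37)], []⟩,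
  ⟨2026, 50, 0, 192, 98, true, true, false, [(0, 40)], []⟩,
  ⟨2502, 50, 0, 144, 69, true, true, false, [(0, 47)], []⟩,
  ⟨4341, 50, 0, 36, 16, true, true, false, [(0, 64)], []⟩,
  ⟨6977, 50, 0, 0, 0, true, false, false, [(0, 70)], []⟩
  ] = true := by decide +kernel

def g64_39 : Gr := ⟨false, 435, 439, 1024, 1024, 64, 64, 8192, 8192, 0, 2048, 0, []⟩

theorem k64_39 : chk g64_39 T425 [
  ⟨498, 50, 550, 240, 148, false, true, false, [(0, 1), (3, 8), (23, 5), (10, 2), (11, 4), (12, 4), (13, 4), (14, 4)], []⟩,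
  ⟨742, 50, 550, 240, 132, false, true, false, [(0, 1), (3, 13), (7, 2), (3, 6), (8, 2), (3, 3), (13, 1), (14, 4)], []⟩,
  ⟨861, 50, 500, 240, 132, false, true, false, [(0, 1), (3, 31)], []⟩,
  ⟨919, 50, 500, 240, 132, false, true, false, [(0, 1), (3, 31)], []⟩,
  ⟨977, 50, 500, 240, 132, false, true, false, [(0, 1), (3, 31)], []⟩,
  ⟨1035, 50, 0, 240, 132, true, true, false, [(0, 1), (3, 31)], []⟩,
  ⟨1093, 50, 0, 240, 132, true, true, false, [(0, 1), (3, 31)], []⟩,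
  ⟨1176, 50, 0, 240, 132, true, true, false, [(0, 1), (3, 31)], []⟩,
  ⟨1259, 50, 0, 240, 132, true, true, false, [(0, 2), (3, 30)], []⟩,
  ⟨1342, 50, 0, 240, 132, true, true, false, [(0, 2), (3, 30)], []⟩,
  ⟨1425, 50, 0, 240, 132, true, true, false, [(0, 2), (3, 30)], []⟩,
  ⟨1483, 50, 0, 240, 132, true, true, false, [(0, 2), (3, 30)], []⟩,
  ⟨1523, 50, 0, 240, 132, true, true, false, [(0, 2), (3, 30)], []⟩,
  ⟨1563, 50, 0, 224, 120, true, true, false, [(0, 3), (3, 32)], []⟩,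
  ⟨1591, 50, 0, 224, 120, true, true, false, [(0, 3), (3, 32)], []⟩,
  ⟨1619, 50, 0, 224, 120, true, true, false, [(0, 3), (3, 32)], []⟩,
  ⟨1638, 50, 0, 224, 120, true, true, false, [(0, 4), (3, 31)], []⟩,
  ⟨1657, 50, 0, 224, 120, true, true, false, [(0, 5), (3, 30)], []⟩,
  ⟨1670, 50, 0, 208, 109, true, true, false, [(0, 5), (3, 32)], []⟩,
  ⟨1683, 50, 0, 208, 109, true, true, false, [(0, 6), (3, 31)], []⟩,
  ⟨1696, 50, 0, 208, 109, true, true, false, [(0, 8), (3, 29)], []⟩,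
  ⟨1705, 50, 0, 208, 109, true, true, false, [(0, 11), (3, 26)], []⟩,
  ⟨1714, 50, 0, 208, 109, true, true, false, [(0, 15), (3, 22)], []⟩,
  ⟨1723, 50, 0, 208, 109, true, true, false, [(0, 22), (3, 15)], []⟩,
  ⟨1732, 50, 0, 208, 109, true, true, false, [(0, 33), (3, 4)], []⟩,
  ⟨1753, 50, 0, 208, 109, true, true, false, [(0, 37)], []⟩,
  ⟨1816, 50, 0, 208, 109, true, true, false, [(0, 37)], []⟩,
  ⟨1942, 50, 0, 208, 109, true, true, false, [(0, 37)], []⟩,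
  ⟨2193, 50, 0, 176, 88, true, true, false, [(0, 43)], []⟩,
  ⟨2886, 50, 0, 128, 60, true, true, false, [(0, 50)], []⟩,
  ⟨6625, 50, 0, 0, 0, true, false, false, [(0, 71)], []⟩,
  ⟨7025, 50, 0, 0, 0, true, false, false, [(0, 71)], []⟩
  ] = true := by decide +kernel

def g64_40 : Gr := ⟨false, 439, 442, 1024, 1024, 64, 64, 8192, 8192, 0, 2048, 0, []⟩

theorem k64_40 : chk g64_40 T425 [
  ⟨498, 70, 560, 224, 160, false, true, false, [(0, 1), (3, 5), (23, 4), (10, 1), (11, 3), (12, 3), (13, 3), (14, 3), (15, 2)], []⟩,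
  ⟨738, 70, 700, 112, 236, false, true, false, [(0, 1), (3, 9), (7, 1), (3, 5), (8, 1), (3, 2), (13, 1), (14, 3), (15, 3), (3, 12)], []⟩,
  ⟨855, 70, 630, 128, 208, false, false, false, [(0, 1), (3, 24), (15, 1), (3, 10)], []⟩,
  ⟨937, 70, 560, 224, 120, false, true, false, [(0, 1), (3, 24)], []⟩,
  ⟨994, 70, 490, 224, 120, false, true, false, [(0, 1), (3, 24)], []⟩,
  ⟨1034, 70, 0, 256, 145, true, true, false, [(0, 1), (3, 21)], []⟩,
  ⟨1074, 70, 0, 256, 145, true, true, false, [(0, 1), (3, 21)], []⟩,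
  ⟨1114, 70, 0, 256, 145, true, true, false, [(0, 1), (3, 21)], []⟩,
  ⟨1154, 70, 0, 256, 145, true, true, false, [(0, 1), (3, 21)], []⟩,
  ⟨1194, 70, 0, 256, 145, true, true, false, [(0, 1), (3, 21)], []⟩,
  ⟨1234, 70, 0, 224, 120, true, true, false, [(0, 2), (3, 23)], []⟩,
  ⟨1274, 70, 0, 224, 120, true, true, false, [(0, 2), (3, 23)], []⟩,
  ⟨1331, 70, 0, 224, 120, true, true, false, [(0, 2), (3, 23)], []⟩,
  ⟨1388, 70, 0, 224, 120, true, true, false, [(0, 2), (3, 23)], []⟩,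
  ⟨1445, 70, 0, 224, 120, true, true, false, [(0, 2), (3, 23)], []⟩,
  ⟨1502, 70, 0, 224, 120, true, true, false, [(0, 2), (3, 23)], []⟩,
  ⟨1559, 70, 0, 224, 120, true, true, false, [(0, 3), (3, 22)], []⟩,
  ⟨1616, 70, 0, 224, 120, true, true, false, [(0, 3), (3, 22)], []⟩,
  ⟨1656, 70, 0, 224, 120, true, true, false, [(0, 4), (3, 21)], []⟩,
  ⟨1696, 70, 0, 224, 120, true, true, false, [(0, 5), (3, 20)], []⟩,
  ⟨1724, 70, 0, 224, 120, true, true, false, [(0, 8), (3, 17)], []⟩,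
  ⟨1743, 70, 0, 224, 120, true, true, false, [(0, 17), (3, 8)], []⟩,
  ⟨1762, 70, 0, 224, 120, true, true, false, [(0, 25)], []⟩,
  ⟨1803, 70, 0, 208, 109, true, true, false, [(0, 27)], []⟩,
  ⟨1885, 70, 0, 208, 109, true, true, false, [(0, 27)], []⟩,
  ⟨2049, 70, 0, 192, 98, true, true, false, [(0, 29)], []⟩,
  ⟨2505, 70, 0, 160, 78, true, true, false, [(0, 33)], []⟩,
  ⟨4267, 70, 0, 32, 14, true, true, false, [(0, 47)], []⟩,
  ⟨7073, 70, 0, 0, 0, true, false, false, [(0, 51)], []⟩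
  ] = true := by decide +kernel

def g64_41 : Gr := ⟨false, 442, 444, 1024, 1024, 64, 64, 8192, 8192, 0, 2048, 0, []⟩

theorem k64_41 : chk g64_41 T425 [
  ⟨498, 90, 540, 224, 168, false, true, false, [(0, 1), (3, 4), (23, 3), (10, 1), (11, 2), (12, 2), (13, 2), (14, 3), (15, 2)], []⟩,
  ⟨738, 90, 720, 96, 252, false, true, false, [(0, 1), (3, 7), (7, 1), (3, 3), (8, 1), (3, 2), (14, 3), (15, 2), (3, 11)], []⟩,
  ⟨855, 90, 630, 120, 216, false, false, false, [(0, 1), (3, 28)], []⟩,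
  ⟨937, 90, 540, 208, 125, false, true, false, [(0, 1), (3, 20)], []⟩,
  ⟨994, 90, 0, 256, 145, true, true, false, [(0, 1), (3, 16)], []⟩,
  ⟨1051, 90, 0, 256, 145, true, true, false, [(0, 1), (3, 16)], []⟩,
  ⟨1132, 90, 0, 256, 145, true, true, false, [(0, 1), (3, 16)], []⟩,
  ⟨1213, 90, 0, 256, 145, true, true, false, [(0, 1), (3, 16)], []⟩,
  ⟨1270, 90, 0, 256, 145, true, true, false, [(0, 2), (3, 15)], []⟩,
  ⟨1327, 90, 0, 256, 145, true, true, false, [(0, 2), (3, 15)], []⟩,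
  ⟨1367, 90, 0, 256, 145, true, true, false, [(0, 2), (3, 15)], []⟩,
  ⟨1407, 90, 0, 224, 120, true, true, false, [(0, 2), (3, 18)], []⟩,
  ⟨1447, 90, 0, 224, 120, true, true, false, [(0, 2), (3, 18)], []⟩,
  ⟨1487, 90, 0, 224, 120, true, true, false, [(0, 2), (3, 18)], []⟩,
  ⟨1527, 90, 0, 224, 120, true, true, false, [(0, 2), (3, 18)], []⟩,
  ⟨1567, 90, 0, 224, 120, true, true, false, [(0, 3), (3, 17)], []⟩,
  ⟨1607, 90, 0, 224, 120, true, true, false, [(0, 3), (3, 17)], []⟩,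
  ⟨1635, 90, 0, 224, 120, true, true, false, [(0, 3), (3, 17)], []⟩,
  ⟨1663, 90, 0, 224, 120, true, true, false, [(0, 4), (3, 16)], []⟩,
  ⟨1691, 90, 0, 224, 120, true, true, false, [(0, 5), (3, 15)], []⟩,
  ⟨1710, 90, 0, 208, 109, true, true, false, [(0, 6), (3, 15)], []⟩,
  ⟨1729, 90, 0, 208, 109, true, true, false, [(0, 7), (3, 14)], []⟩,
  ⟨1748, 90, 0, 208, 109, true, true, false, [(0, 11), (3, 10)], []⟩,
  ⟨1767, 90, 0, 208, 109, true, true, false, [(0, 21)], []⟩,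
  ⟨1825, 90, 0, 208, 109, true, true, false, [(0, 21)], []⟩,
  ⟨1941, 90, 0, 208, 109, true, true, false, [(0, 21)], []⟩,
  ⟨2171, 90, 0, 176, 88, true, true, false, [(0, 24)], []⟩,
  ⟨2808, 90, 0, 120, 56, true, true, false, [(0, 29)], []⟩,
  ⟨6248, 90, 0, 0, 0, true, false, false, [(0, 40)], []⟩,
  ⟨7105, 90, 0, 0, 0, true, false, false, [(0, 40)], []⟩
  ] = true := by decide +kernel

def g64_42 : Gr := ⟨false, 444, 447, 1024, 1024, 64, 64, 8192, 8192, 0, 2048, 0, []⟩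

theorem k64_42 : chk g64_42 T425 [
  ⟨498, 120, 600, 224, 168, false, true, false, [(0, 1), (3, 3), (23, 2), (11, 2), (12, 2), (13, 1), (14, 2), (15, 2)], []⟩,
  ⟨668, 120, 720, 104, 256, false, false, false, [(0, 1), (3, 11), (14, 1), (3, 1), (15, 1), (3, 8)], []⟩,
  ⟨787, 120, 720, 104, 240, false, false, false, [(0, 1), (3, 22)], []⟩,
  ⟨870, 120, 720, 104, 232, false, false, false, [(0, 1), (3, 22)], []⟩,
  ⟨928, 120, 480, 224, 120, false, true, false, [(0, 1), (3, 14)], []⟩,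
  ⟨969, 120, 480, 224, 120, false, true, false, [(0, 1), (3, 14)], []⟩,
  ⟨1010, 120, 0, 256, 145, true, true, false, [(0, 1), (3, 12)], []⟩,
  ⟨1051, 120, 0, 256, 145, true, true, false, [(0, 1), (3, 12)], []⟩,
  ⟨1092, 120, 0, 256, 145, true, true, false, [(0, 1), (3, 12)], []⟩,
  ⟨1150, 120, 0, 256, 145, true, true, false, [(0, 1), (3, 12)], []⟩,
  ⟨1208, 120, 0, 256, 145, true, true, false, [(0, 1), (3, 12)], []⟩,
  ⟨1266, 120, 0, 256, 145, true, true, false, [(0, 2), (3, 11)], []⟩,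
  ⟨1324, 120, 0, 240, 132, true, true, false, [(0, 2), (3, 12)], []⟩,
  ⟨1382, 120, 0, 240, 132, true, true, false, [(0, 2), (3, 12)], []⟩,
  ⟨1440, 120, 0, 240, 132, true, true, false, [(0, 2), (3, 12)], []⟩,
  ⟨1480, 120, 0, 240, 132, true, true, false, [(0, 2), (3, 12)], []⟩,
  ⟨1520, 120, 0, 224, 120, true, true, false, [(0, 2), (3, 13)], []⟩,
  ⟨1560, 120, 0, 224, 120, true, true, false, [(0, 2), (3, 13)], []⟩,
  ⟨1600, 120, 0, 224, 120, true, true, false, [(0, 3), (3, 12)], []⟩,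
  ⟨1640, 120, 0, 224, 120, true, true, false, [(0, 3), (3, 12)], []⟩,
  ⟨1668, 120, 0, 224, 120, true, true, false, [(0, 4), (3, 11)], []⟩,
  ⟨1696, 120, 0, 224, 120, true, true, false, [(0, 4), (3, 11)], []⟩,
  ⟨1716, 120, 0, 224, 120, true, true, false, [(0, 5), (3, 10)], []⟩,
  ⟨1730, 120, 0, 224, 120, true, true, false, [(0, 7), (3, 8)], []⟩,
  ⟨1744, 120, 0, 224, 120, true, true, false, [(0, 8), (3, 7)], []⟩,
  ⟨1753, 120, 0, 224, 120, true, true, false, [(0, 11), (3, 4)], []⟩,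
  ⟨1762, 120, 0, 224, 120, true, true, false, [(0, 14), (3, 1)], []⟩,
  ⟨1776, 120, 0, 224, 120, true, true, false, [(0, 15)], []⟩,
  ⟨1807, 120, 0, 208, 109, true, true, false, [(0, 16)], []⟩,
  ⟨1897, 120, 0, 208, 109, true, true, false, [(0, 16)], []⟩,
  ⟨2076, 120, 0, 192, 98, true, true, false, [(0, 17)], []⟩,
  ⟨2429, 120, 0, 160, 78, true, true, false, [(0, 20)], []⟩,
  ⟨3795, 120, 0, 72, 32, true, true, false, [(0, 25)], []⟩,
  ⟨7153, 120, 0, 0, 0, true, false, false, [(0, 30)], []⟩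
  ] = true := by decide +kernel

def g64_43 : Gr := ⟨false, 447, 451, 1024, 1024, 64, 64, 8192, 8192, 0, 2048, 0, []⟩

theorem k64_43 : chk g64_43 T425 [
  ⟨498, 70, 560, 224, 168, false, true, false, [(0, 1), (3, 5), (23, 4), (10, 1), (11, 3), (12, 3), (13, 3), (14, 3), (15, 3)], []⟩,
  ⟨742, 70, 700, 112, 244, false, true, false, [(0, 1), (3, 9), (7, 1), (3, 5), (8, 1), (3, 2), (13, 1), (14, 3), (15, 3), (3, 13)], []⟩,
  ⟨861, 70, 630, 120, 224, false, false, false, [(0, 1), (3, 24), (15, 1), (3, 12)], []⟩,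
  ⟨944, 70, 560, 224, 120, false, true, false, [(0, 1), (3, 25)], []⟩,
  ⟨1002, 70, 560, 224, 120, false, true, false, [(0, 1), (3, 25)], []⟩,
  ⟨1043, 70, 490, 224, 120, false, true, false, [(0, 1), (3, 25)], []⟩,
  ⟨1084, 70, 0, 256, 145, true, true, false, [(0, 1), (3, 22)], []⟩,
  ⟨1125, 70, 0, 256, 145, true, true, false, [(0, 1), (3, 22)], []⟩,
  ⟨1166, 70, 0, 256, 145, true, true, false, [(0, 1), (3, 22)], []⟩,
  ⟨1207, 70, 0, 256, 145, true, true, false, [(0, 1), (3, 22)], []⟩,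
  ⟨1248, 70, 0, 256, 145, true, true, false, [(0, 2), (3, 21)], []⟩,
  ⟨1289, 70, 0, 256, 145, true, true, false, [(0, 2), (3, 21)], []⟩,
  ⟨1330, 70, 0, 224, 120, true, true, false, [(0, 2), (3, 24)], []⟩,
  ⟨1388, 70, 0, 224, 120, true, true, false, [(0, 2), (3, 24)], []⟩,
  ⟨1446, 70, 0, 224, 120, true, true, false, [(0, 2), (3, 24)], []⟩,
  ⟨1504, 70, 0, 224, 120, true, true, false, [(0, 2), (3, 24)], []⟩,
  ⟨1562, 70, 0, 224, 120, true, true, false, [(0, 2), (3, 24)], []⟩,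
  ⟨1620, 70, 0, 224, 120, true, true, false, [(0, 3), (3, 23)], []⟩,
  ⟨1660, 70, 0, 224, 120, true, true, false, [(0, 3), (3, 23)], []⟩,
  ⟨1700, 70, 0, 224, 120, true, true, false, [(0, 4), (3, 22)], []⟩,
  ⟨1728, 70, 0, 224, 120, true, true, false, [(0, 5), (3, 21)], []⟩,
  ⟨1756, 70, 0, 224, 120, true, true, false, [(0, 8), (3, 18)], []⟩,
  ⟨1776, 70, 0, 224, 120, true, true, false, [(0, 18), (3, 8)], []⟩,
  ⟨1796, 70, 0, 224, 120, true, true, false, [(0, 26)], []⟩,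
  ⟨1837, 70, 0, 208, 109, true, true, false, [(0, 28)], []⟩,
  ⟨1921, 70, 0, 208, 109, true, true, false, [(0, 28)], []⟩,
  ⟨2088, 70, 0, 192, 98, true, true, false, [(0, 30)], []⟩,
  ⟨2551, 70, 0, 160, 78, true, true, false, [(0, 34)], []⟩,
  ⟨4337, 70, 0, 32, 14, true, true, false, [(0, 48)], []⟩,
  ⟨7217, 70, 0, 0, 0, true, false, false, [(0, 52)], []⟩
  ] = true := by decide +kernel

def g64_44 : Gr := ⟨false, 451, 455, 1024, 1024, 64, 64, 8192, 8192, 0, 2048, 0, []⟩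

theorem k64_44 : chk g64_44 T425 [
  ⟨498, 50, 550, 256, 145, false, true, false, [(0, 1), (3, 8), (23, 5), (10, 2), (11, 4), (12, 4), (13, 4), (14, 4)], []⟩,
  ⟨742, 50, 700, 112, 244, false, true, false, [(0, 1), (3, 14), (7, 1), (3, 6), (8, 2), (3, 3), (13, 1), (14, 4), (15, 4), (3, 19)], []⟩,
  ⟨861, 50, 650, 112, 232, false, false, false, [(0, 1), (3, 54)], []⟩,
  ⟨944, 50, 550, 224, 120, false, true, false, [(0, 1), (3, 36)], []⟩,
  ⟨1027, 50, 0, 256, 145, true, true, false, [(0, 1), (3, 31)], []⟩,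
  ⟨1110, 50, 0, 256, 145, true, true, false, [(0, 1), (3, 31)], []⟩,
  ⟨1193, 50, 0, 256, 145, true, true, false, [(0, 1), (3, 31)], []⟩,
  ⟨1276, 50, 0, 256, 145, true, true, false, [(0, 2), (3, 30)], []⟩,
  ⟨1359, 50, 0, 256, 145, true, true, false, [(0, 2), (3, 30)], []⟩,
  ⟨1417, 50, 0, 240, 132, true, true, false, [(0, 2), (3, 33)], []⟩,
  ⟨1475, 50, 0, 224, 120, true, true, false, [(0, 2), (3, 35)], []⟩,
  ⟨1533, 50, 0, 224, 120, true, true, false, [(0, 2), (3, 35)], []⟩,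
  ⟨1591, 50, 0, 224, 120, true, true, false, [(0, 3), (3, 34)], []⟩,
  ⟨1649, 50, 0, 224, 120, true, true, false, [(0, 3), (3, 34)], []⟩,
  ⟨1707, 50, 0, 224, 120, true, true, false, [(0, 4), (3, 33)], []⟩,
  ⟨1748, 50, 0, 224, 120, true, true, false, [(0, 5), (3, 32)], []⟩,
  ⟨1776, 50, 0, 224, 120, true, true, false, [(0, 10), (3, 27)], []⟩,
  ⟨1796, 50, 0, 224, 120, true, true, false, [(0, 28), (3, 9)], []⟩,
  ⟨1825, 50, 0, 224, 120, true, true, false, [(0, 37)], []⟩,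
  ⟨1884, 50, 0, 208, 109, true, true, false, [(0, 40)], []⟩,
  ⟨2003, 50, 0, 208, 109, true, true, false, [(0, 40)], []⟩,
  ⟨2334, 50, 0, 176, 88, true, true, false, [(0, 45)], []⟩,
  ⟨3246, 50, 0, 96, 44, true, true, false, [(0, 58)], []⟩,
  ⟨6760, 50, 0, 0, 0, true, false, false, [(0, 73)], []⟩,
  ⟨7281, 50, 0, 0, 0, true, false, false, [(0, 73)], []⟩
  ] = true := by decide +kernel

def g64_45 : Gr := ⟨false, 455, 460, 1024, 1024, 64, 64, 8192, 8192, 0, 2048, 0, []⟩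

theorem k64_45 : chk g64_45 T425 [
  ⟨498, 90, 540, 240, 164, false, true, false, [(0, 1), (3, 4), (23, 3), (10, 1), (11, 2), (12, 2), (13, 2), (14, 3), (15, 2)], []⟩,
  ⟨742, 90, 720, 112, 248, false, false, false, [(0, 1), (3, 7), (7, 1), (3, 3), (8, 1), (3, 2), (14, 3), (15, 2), (3, 11)], []⟩,
  ⟨861, 90, 630, 112, 236, false, true, false, [(0, 1), (3, 30)], []⟩,
  ⟨944, 90, 630, 112, 228, false, true, false, [(0, 1), (3, 30)], []⟩,
  ⟨1002, 90, 540, 224, 120, false, true, false, [(0, 1), (3, 20)], []⟩,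
  ⟨1043, 90, 540, 224, 120, false, true, false, [(0, 1), (3, 20)], []⟩,
  ⟨1084, 90, 540, 224, 120, false, true, false, [(0, 1), (3, 20)], []⟩,
  ⟨1104, 90, 0, 240, 132, true, true, false, [(0, 1), (3, 19)], []⟩,
  ⟨1133, 90, 0, 240, 132, true, true, false, [(0, 1), (3, 19)], []⟩,
  ⟨1162, 90, 0, 240, 132, true, true, false, [(0, 1), (3, 19)], []⟩,
  ⟨1203, 90, 0, 240, 132, true, true, false, [(0, 1), (3, 19)], []⟩,
  ⟨1244, 90, 0, 240, 132, true, true, false, [(0, 2), (3, 18)], []⟩,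
  ⟨1285, 90, 0, 240, 132, true, true, false, [(0, 2), (3, 18)], []⟩,
  ⟨1326, 90, 0, 240, 132, true, true, false, [(0, 2), (3, 18)], []⟩,
  ⟨1385, 90, 0, 240, 132, true, true, false, [(0, 2), (3, 18)], []⟩,
  ⟨1444, 90, 0, 240, 132, true, true, false, [(0, 2), (3, 18)], []⟩,
  ⟨1503, 90, 0, 240, 132, true, true, false, [(0, 2), (3, 18)], []⟩,
  ⟨1544, 90, 0, 224, 120, true, true, false, [(0, 2), (3, 19)], []⟩,
  ⟨1585, 90, 0, 224, 120, true, true, false, [(0, 2), (3, 19)], []⟩,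
  ⟨1626, 90, 0, 224, 120, true, true, false, [(0, 3), (3, 18)], []⟩,
  ⟨1667, 90, 0, 224, 120, true, true, false, [(0, 3), (3, 18)], []⟩,
  ⟨1708, 90, 0, 224, 120, true, true, false, [(0, 4), (3, 17)], []⟩,
  ⟨1737, 90, 0, 224, 120, true, true, false, [(0, 5), (3, 16)], []⟩,
  ⟨1766, 90, 0, 224, 120, true, true, false, [(0, 6), (3, 15)], []⟩,
  ⟨1786, 90, 0, 224, 120, true, true, false, [(0, 9), (3, 12)], []⟩,
  ⟨1800, 90, 0, 224, 120, true, true, false, [(0, 14), (3, 7)], []⟩,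
  ⟨1814, 90, 0, 224, 120, true, true, false, [(0, 21)], []⟩,
  ⟨1844, 90, 0, 224, 120, true, true, false, [(0, 21)], []⟩,
  ⟨1887, 90, 0, 224, 120, true, true, false, [(0, 21)], []⟩,
  ⟨1974, 90, 0, 208, 109, true, true, false, [(0, 23)], []⟩,
  ⟨2219, 90, 0, 192, 98, true, true, false, [(0, 24)], []⟩,
  ⟨2896, 90, 0, 128, 60, true, true, false, [(0, 30)], []⟩,
  ⟨6550, 90, 0, 0, 0, true, false, false, [(0, 41)], []⟩,
  ⟨7361, 90, 0, 0, 0, true, false, false, [(0, 41)], []⟩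
  ] = true := by decide +kernel

def g64_46 : Gr := ⟨false, 460, 464, 1024, 1024, 64, 64, 8192, 8192, 0, 2048, 0, []⟩

theorem k64_46 : chk g64_46 T450 [
  ⟨498, 120, 600, 240, 172, false, true, false, [(0, 1), (3, 3), (25, 2), (12, 2), (13, 2), (14, 1), (15, 2), (16, 2)], []⟩,
  ⟨742, 120, 720, 104, 256, false, false, false, [(0, 1), (3, 8), (9, 1), (3, 1), (15, 2), (16, 2), (17, 2), (3, 7)], []⟩,
  ⟨861, 120, 720, 104, 248, false, false, false, [(0, 1), (3, 13), (16, 1), (3, 9)], []⟩,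
  ⟨944, 120, 720, 104, 240, false, false, false, [(0, 1), (3, 13), (16, 1), (3, 9)], []⟩,
  ⟨1002, 120, 600, 120, 216, false, false, false, [(0, 1), (3, 22)], []⟩,
  ⟨1043, 120, 480, 224, 120, false, true, false, [(0, 1), (3, 15)], []⟩,
  ⟨1084, 120, 0, 256, 145, true, true, false, [(0, 1), (3, 13)], []⟩,
  ⟨1142, 120, 0, 256, 145, true, true, false, [(0, 1), (3, 13)], []⟩,
  ⟨1200, 120, 0, 256, 145, true, true, false, [(0, 1), (3, 13)], []⟩,
  ⟨1258, 120, 0, 256, 145, true, true, false, [(0, 1), (3, 13)], []⟩,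
  ⟨1316, 120, 0, 256, 145, true, true, false, [(0, 2), (3, 12)], []⟩,
  ⟨1374, 120, 0, 240, 132, true, true, false, [(0, 2), (3, 13)], []⟩,
  ⟨1432, 120, 0, 240, 132, true, true, false, [(0, 2), (3, 13)], []⟩,
  ⟨1490, 120, 0, 240, 132, true, true, false, [(0, 2), (3, 13)], []⟩,
  ⟨1548, 120, 0, 240, 132, true, true, false, [(0, 2), (3, 13)], []⟩,
  ⟨1606, 120, 0, 240, 132, true, true, false, [(0, 2), (3, 13)], []⟩,
  ⟨1646, 120, 0, 224, 120, true, true, false, [(0, 3), (3, 13)], []⟩,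
  ⟨1686, 120, 0, 224, 120, true, true, false, [(0, 3), (3, 13)], []⟩,
  ⟨1726, 120, 0, 224, 120, true, true, false, [(0, 4), (3, 12)], []⟩,
  ⟨1766, 120, 0, 224, 120, true, true, false, [(0, 5), (3, 11)], []⟩,
  ⟨1794, 120, 0, 224, 120, true, true, false, [(0, 6), (3, 10)], []⟩,
  ⟨1822, 120, 0, 224, 120, true, true, false, [(0, 10), (3, 6)], []⟩,
  ⟨1850, 120, 0, 224, 120, true, true, false, [(0, 16)], []⟩,
  ⟨1908, 120, 0, 224, 120, true, true, false, [(0, 16)], []⟩,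
  ⟨1966, 120, 0, 224, 120, true, true, false, [(0, 16)], []⟩,
  ⟨2083, 120, 0, 192, 98, true, true, false, [(0, 19)], []⟩,
  ⟨2408, 120, 0, 176, 88, true, true, false, [(0, 20)], []⟩,
  ⟨3306, 120, 0, 104, 48, true, true, false, [(0, 24)], []⟩,
  ⟨6763, 120, 0, 0, 0, true, false, false, [(0, 31)], []⟩,
  ⟨7425, 120, 0, 0, 0, true, false, false, [(0, 31)], []⟩
  ] = true := by decide +kernel

def g64_47 : Gr := ⟨false, 464, 469, 1024, 1024, 64, 64, 8192, 8192, 0, 2048, 0, []⟩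

theorem k64_47 : chk g64_47 T450 [
  ⟨498, 90, 540, 256, 153, false, true, false, [(0, 1), (3, 4), (25, 3), (11, 1), (12, 2), (13, 2), (14, 2), (15, 3), (16, 1)], []⟩,
  ⟨742, 90, 720, 112, 256, false, false, false, [(0, 1), (3, 7), (8, 1), (3, 3), (9, 1), (3, 2), (15, 3), (16, 2), (3, 1), (17, 1), (3, 10)], []⟩,
  ⟨912, 90, 630, 112, 240, false, false, false, [(0, 1), (3, 7), (8, 1), (3, 9), (16, 2), (3, 12)], []⟩,
  ⟨995, 90, 630, 144, 200, false, false, false, [(0, 1), (3, 18), (16, 1), (3, 9)], []⟩,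
  ⟨1053, 90, 0, 256, 145, true, true, false, [(0, 1), (3, 18)], []⟩,
  ⟨1111, 90, 0, 256, 145, true, true, false, [(0, 1), (3, 18)], []⟩,
  ⟨1194, 90, 0, 256, 145, true, true, false, [(0, 1), (3, 18)], []⟩,
  ⟨1277, 90, 0, 256, 145, true, true, false, [(0, 1), (3, 18)], []⟩,
  ⟨1360, 90, 0, 256, 145, true, true, false, [(0, 2), (3, 17)], []⟩,
  ⟨1442, 90, 0, 256, 145, true, true, false, [(0, 2), (3, 17)], []⟩,
  ⟨1499, 90, 0, 256, 145, true, true, false, [(0, 2), (3, 17)], []⟩,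
  ⟨1539, 90, 0, 224, 120, true, true, false, [(0, 2), (3, 20)], []⟩,
  ⟨1579, 90, 0, 224, 120, true, true, false, [(0, 2), (3, 20)], []⟩,
  ⟨1619, 90, 0, 224, 120, true, true, false, [(0, 3), (3, 19)], []⟩,
  ⟨1659, 90, 0, 224, 120, true, true, false, [(0, 3), (3, 19)], []⟩,
  ⟨1699, 90, 0, 224, 120, true, true, false, [(0, 3), (3, 19)], []⟩,
  ⟨1739, 90, 0, 224, 120, true, true, false, [(0, 4), (3, 18)], []⟩,
  ⟨1767, 90, 0, 224, 120, true, true, false, [(0, 5), (3, 17)], []⟩,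
  ⟨1795, 90, 0, 224, 120, true, true, false, [(0, 6), (3, 16)], []⟩,
  ⟨1814, 90, 0, 224, 120, true, true, false, [(0, 8), (3, 14)], []⟩,
  ⟨1827, 90, 0, 224, 120, true, true, false, [(0, 11), (3, 11)], []⟩,
  ⟨1840, 90, 0, 224, 120, true, true, false, [(0, 16), (3, 6)], []⟩,
  ⟨1853, 90, 0, 224, 120, true, true, false, [(0, 22)], []⟩,
  ⟨1882, 90, 0, 224, 120, true, true, false, [(0, 22)], []⟩,
  ⟨1924, 90, 0, 224, 120, true, true, false, [(0, 22)], []⟩,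
  ⟨2009, 90, 0, 208, 109, true, true, false, [(0, 24)], []⟩,
  ⟨2247, 90, 0, 192, 98, true, true, false, [(0, 25)], []⟩,
  ⟨2906, 90, 0, 144, 69, true, true, false, [(0, 29)], []⟩,
  ⟨6464, 90, 0, 0, 0, true, false, false, [(0, 42)], []⟩,
  ⟨7505, 90, 0, 0, 0, true, false, false, [(0, 42)], []⟩
  ] = true := by decide +kernel

def g64_48 : Gr := ⟨false, 469, 475, 1024, 1024, 64, 64, 8192, 8192, 0, 2048, 0, []⟩

theorem k64_48 : chk g64_48 T450 [
  ⟨498, 70, 560, 256, 161, false, true, false, [(0, 1), (3, 5), (25, 4), (11, 1), (12, 3), (13, 3), (14, 3), (15, 3), (16, 3)], []⟩,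
  ⟨742, 70, 630, 144, 232, false, false, false, [(0, 1), (3, 9), (8, 1), (3, 5), (9, 1), (3, 3), (15, 3), (16, 3), (3, 1), (17, 2), (3, 9)], []⟩,
  ⟨912, 70, 630, 144, 216, false, false, false, [(0, 1), (3, 22), (16, 3), (3, 12)], []⟩,
  ⟨1030, 70, 630, 160, 190, false, true, false, [(0, 1), (3, 24), (16, 1), (3, 10)], []⟩,
  ⟨1087, 70, 630, 160, 182, false, true, false, [(0, 1), (3, 35)], []⟩,
  ⟨1127, 70, 560, 224, 120, false, true, false, [(0, 1), (3, 28)], []⟩,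
  ⟨1167, 70, 0, 240, 132, true, true, false, [(0, 1), (3, 26)], []⟩,
  ⟨1224, 70, 0, 240, 132, true, true, false, [(0, 1), (3, 26)], []⟩,
  ⟨1281, 70, 0, 240, 132, true, true, false, [(0, 2), (3, 25)], []⟩,
  ⟨1338, 70, 0, 240, 132, true, true, false, [(0, 2), (3, 25)], []⟩,
  ⟨1419, 70, 0, 240, 132, true, true, false, [(0, 2), (3, 25)], []⟩,
  ⟨1500, 70, 0, 240, 132, true, true, false, [(0, 2), (3, 25)], []⟩,
  ⟨1581, 70, 0, 240, 132, true, true, false, [(0, 2), (3, 25)], []⟩,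
  ⟨1638, 70, 0, 240, 132, true, true, false, [(0, 3), (3, 24)], []⟩,
  ⟨1695, 70, 0, 240, 132, true, true, false, [(0, 3), (3, 24)], []⟩,
  ⟨1735, 70, 0, 224, 120, true, true, false, [(0, 3), (3, 26)], []⟩,
  ⟨1763, 70, 0, 224, 120, true, true, false, [(0, 4), (3, 25)], []⟩,
  ⟨1791, 70, 0, 224, 120, true, true, false, [(0, 5), (3, 24)], []⟩,
  ⟨1810, 70, 0, 224, 120, true, true, false, [(0, 6), (3, 23)], []⟩,
  ⟨1829, 70, 0, 224, 120, true, true, false, [(0, 8), (3, 21)], []⟩,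
  ⟨1842, 70, 0, 224, 120, true, true, false, [(0, 11), (3, 18)], []⟩,
  ⟨1855, 70, 0, 224, 120, true, true, false, [(0, 17), (3, 12)], []⟩,
  ⟨1864, 70, 0, 224, 120, true, true, false, [(0, 25), (3, 4)], []⟩,
  ⟨1878, 70, 0, 224, 120, true, true, false, [(0, 29)], []⟩,
  ⟨1908, 70, 0, 224, 120, true, true, false, [(0, 29)], []⟩,
  ⟨1970, 70, 0, 208, 109, true, true, false, [(0, 31)], []⟩,
  ⟨2095, 70, 0, 208, 109, true, true, false, [(0, 31)], []⟩,
  ⟨2443, 70, 0, 160, 78, true, true, false, [(0, 36)], []⟩,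
  ⟨3403, 70, 0, 88, 40, true, true, false, [(0, 45)], []⟩,
  ⟨7100, 70, 0, 0, 0, true, false, false, [(0, 55)], []⟩,
  ⟨7601, 70, 0, 0, 0, true, false, false, [(0, 55)], []⟩
  ] = true := by decide +kernel

end Pool.Agent.Lib.MP_af3a4a_an.P1.CHK.H81.L
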