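import Pool.Agent.Lib.MP_af3a4a_an.P1.CHK.H81.LT
/-!
# Data, `64 ≤ N ≤ 64`, `475 ≤ 1024 R ≤ 820` (helper81)
-/
set_option autoImplicit false

namespace Pool.Agent.Lib.MP_af3a4a_an.P1.CHK.H81.L

open Pool.Agent.Lib.MP_af3a4a_an.P1.CHK.H58.G (Gr En)

def g64_49 : Gr := ⟨false, 475, 481, 1024, 1024, 64, 64, 8192, 8192, 0, 2048, 0, []⟩

theorem k64_49 : chk g64_49 T450 [
  ⟨698, 90, 540, 256, 145, false, true, false, [(0, 1), (3, 4), (25, 3), (11, 1), (12, 2), (13, 2), (14, 2), (15, 3), (16, 2)], []⟩,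
  ⟨865, 90, 630, 112, 252, false, true, false, [(0, 1), (3, 17), (16, 2), (3, 13)], []⟩,
  ⟨982, 90, 630, 112, 240, false, false, false, [(0, 1), (3, 18), (16, 1), (3, 13)], []⟩,
  ⟨1064, 90, 630, 144, 205, false, true, false, [(0, 1), (3, 29)], []⟩,
  ⟨1121, 90, 0, 256, 145, true, true, false, [(0, 1), (3, 19)], []⟩,
  ⟨1202, 90, 0, 256, 145, true, true, false, [(0, 1), (3, 19)], []⟩,
  ⟨1283, 90, 0, 256, 145, true, true, false, [(0, 1), (3, 19)], []⟩,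
  ⟨1364, 90, 0, 256, 145, true, true, false, [(0, 2), (3, 18)], []⟩,
  ⟨1445, 90, 0, 256, 145, true, true, false, [(0, 2), (3, 18)], []⟩,
  ⟨1526, 90, 0, 256, 145, true, true, false, [(0, 2), (3, 18)], []⟩,
  ⟨1583, 90, 0, 256, 145, true, true, false, [(0, 2), (3, 18)], []⟩,
  ⟨1622, 90, 0, 224, 120, true, true, false, [(0, 2), (3, 21)], []⟩,
  ⟨1661, 90, 0, 224, 120, true, true, false, [(0, 3), (3, 20)], []⟩,
  ⟨1700, 90, 0, 224, 120, true, true, false, [(0, 3), (3, 20)], []⟩,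
  ⟨1739, 90, 0, 224, 120, true, true, false, [(0, 3), (3, 20)], []⟩,
  ⟨1778, 90, 0, 224, 120, true, true, false, [(0, 4), (3, 19)], []⟩,
  ⟨1817, 90, 0, 224, 120, true, true, false, [(0, 5), (3, 18)], []⟩,
  ⟨1844, 90, 0, 224, 120, true, true, false, [(0, 6), (3, 17)], []⟩,
  ⟨1863, 90, 0, 224, 120, true, true, false, [(0, 9), (3, 14)], []⟩,
  ⟨1882, 90, 0, 224, 120, true, true, false, [(0, 15), (3, 8)], []⟩,
  ⟨1901, 90, 0, 224, 120, true, true, false, [(0, 23)], []⟩,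
  ⟨1941, 90, 0, 224, 120, true, true, false, [(0, 23)], []⟩,
  ⟨1999, 90, 0, 224, 120, true, true, false, [(0, 23)], []⟩,
  ⟨2162, 90, 0, 192, 98, true, true, false, [(0, 26)], []⟩,
  ⟨2615, 90, 0, 160, 78, true, true, false, [(0, 29)], []⟩,
  ⟨4364, 90, 0, 44, 19, true, true, false, [(0, 39)], []⟩,
  ⟨7697, 90, 0, 0, 0, true, false, false, [(0, 43)], []⟩
  ] = true := by decide +kernel

def g64_50 : Gr := ⟨false, 481, 487, 1024, 1024, 64, 64, 8192, 8192, 0, 2048, 0, []⟩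

theorem k64_50 : chk g64_50 T450 [
  ⟨498, 50, 650, 112, 296, false, false, false, [(0, 1), (3, 8), (25, 5), (11, 2), (12, 4), (13, 4), (14, 4), (15, 4), (16, 4), (17, 4), (3, 20)], []⟩,
  ⟨742, 50, 700, 112, 272, false, false, false, [(0, 1), (3, 14), (8, 1), (3, 7), (9, 1), (3, 5), (15, 3), (16, 4), (3, 3), (17, 1), (3, 20)], []⟩,
  ⟨912, 50, 650, 112, 252, false, true, false, [(0, 1), (3, 32), (16, 3), (3, 24)], []⟩,
  ⟨1031, 50, 650, 112, 240, false, false, false, [(0, 1), (3, 34), (16, 1), (3, 24)], []⟩,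
  ⟨1114, 50, 650, 112, 232, false, false, false, [(0, 1), (3, 59)], []⟩,
  ⟨1197, 50, 0, 256, 145, true, true, false, [(0, 1), (3, 36)], []⟩,
  ⟨1280, 50, 0, 256, 145, true, true, false, [(0, 1), (3, 36)], []⟩,
  ⟨1398, 50, 0, 256, 145, true, true, false, [(0, 2), (3, 35)], []⟩,
  ⟨1480, 50, 0, 256, 145, true, true, false, [(0, 2), (3, 35)], []⟩,
  ⟨1562, 50, 0, 256, 145, true, true, false, [(0, 2), (3, 35)], []⟩,
  ⟨1644, 50, 0, 240, 132, true, true, false, [(0, 2), (3, 38)], []⟩,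
  ⟨1701, 50, 0, 240, 132, true, true, false, [(0, 3), (3, 37)], []⟩,
  ⟨1758, 50, 0, 240, 132, true, true, false, [(0, 3), (3, 37)], []⟩,
  ⟨1798, 50, 0, 240, 132, true, true, false, [(0, 4), (3, 36)], []⟩,
  ⟨1826, 50, 0, 240, 132, true, true, false, [(0, 5), (3, 35)], []⟩,
  ⟨1845, 50, 0, 224, 120, true, true, false, [(0, 6), (3, 37)], []⟩,
  ⟨1864, 50, 0, 224, 120, true, true, false, [(0, 7), (3, 36)], []⟩,
  ⟨1877, 50, 0, 224, 120, true, true, false, [(0, 10), (3, 33)], []⟩,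
  ⟨1890, 50, 0, 224, 120, true, true, false, [(0, 14), (3, 29)], []⟩,
  ⟨1899, 50, 0, 224, 120, true, true, false, [(0, 22), (3, 21)], []⟩,
  ⟨1908, 50, 0, 224, 120, true, true, false, [(0, 31), (3, 12)], []⟩,
  ⟨1917, 50, 0, 224, 120, true, true, false, [(0, 42), (3, 1)], []⟩,
  ⟨1938, 50, 0, 224, 120, true, true, false, [(0, 43)], []⟩,
  ⟨2001, 50, 0, 208, 109, true, true, false, [(0, 45)], []⟩,
  ⟨2179, 50, 0, 208, 109, true, true, false, [(0, 45)], []⟩,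
  ⟨2672, 50, 0, 160, 78, true, true, false, [(0, 53)], []⟩,
  ⟨4573, 50, 0, 32, 14, true, true, false, [(0, 73)], []⟩,
  ⟨7793, 50, 0, 0, 0, true, false, false, [(0, 78)], []⟩
  ] = true := by decide +kernel

def g64_51 : Gr := ⟨false, 486, 494, 1024, 1024, 64, 64, 8192, 8192, 0, 2048, 0, []⟩

theorem k64_51 : chk g64_51 T475 [
  ⟨698, 120, 600, 240, 172, false, true, false, [(0, 1), (3, 3), (27, 2), (13, 2), (14, 2), (15, 1), (16, 2), (17, 2), (18, 2)], []⟩,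
  ⟨937, 120, 720, 120, 248, false, false, false, [(0, 1), (3, 8), (9, 1), (3, 2), (10, 1), (17, 2), (18, 2), (3, 8)], []⟩,
  ⟨1054, 120, 600, 120, 232, false, false, false, [(0, 1), (3, 15), (18, 1), (3, 8)], []⟩,
  ⟨1136, 120, 600, 120, 224, false, false, false, [(0, 1), (3, 15), (18, 1), (3, 8)], []⟩,
  ⟨1176, 120, 0, 256, 145, true, true, false, [(0, 1), (3, 15)], []⟩,
  ⟨1233, 120, 0, 256, 145, true, true, false, [(0, 1), (3, 15)], []⟩,
  ⟨1290, 120, 0, 256, 145, true, true, false, [(0, 2), (3, 14)], []⟩,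
  ⟨1347, 120, 0, 256, 145, true, true, false, [(0, 2), (3, 14)], []⟩,
  ⟨1404, 120, 0, 256, 145, true, true, false, [(0, 2), (3, 14)], []⟩,
  ⟨1461, 120, 0, 256, 145, true, true, false, [(0, 2), (3, 14)], []⟩,
  ⟨1518, 120, 0, 256, 145, true, true, false, [(0, 2), (3, 14)], []⟩,
  ⟨1575, 120, 0, 240, 132, true, true, false, [(0, 2), (3, 15)], []⟩,
  ⟨1632, 120, 0, 240, 132, true, true, false, [(0, 2), (3, 15)], []⟩,
  ⟨1689, 120, 0, 240, 132, true, true, false, [(0, 3), (3, 14)], []⟩,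
  ⟨1746, 120, 0, 240, 132, true, true, false, [(0, 3), (3, 14)], []⟩,
  ⟨1786, 120, 0, 224, 120, true, true, false, [(0, 3), (3, 15)], []⟩,
  ⟨1826, 120, 0, 224, 120, true, true, false, [(0, 4), (3, 14)], []⟩,
  ⟨1854, 120, 0, 224, 120, true, true, false, [(0, 5), (3, 13)], []⟩,
  ⟨1882, 120, 0, 224, 120, true, true, false, [(0, 6), (3, 12)], []⟩,
  ⟨1901, 120, 0, 224, 120, true, true, false, [(0, 8), (3, 10)], []⟩,
  ⟨1920, 120, 0, 224, 120, true, true, false, [(0, 11), (3, 7)], []⟩,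
  ⟨1939, 120, 0, 224, 120, true, true, false, [(0, 18)], []⟩,
  ⟨1979, 120, 0, 224, 120, true, true, false, [(0, 18)], []⟩,
  ⟨2061, 120, 0, 224, 120, true, true, false, [(0, 18)], []⟩,
  ⟨2177, 120, 0, 208, 109, true, true, false, [(0, 20)], []⟩,
  ⟨2501, 120, 0, 176, 88, true, true, false, [(0, 22)], []⟩,
  ⟨3396, 120, 0, 104, 48, true, true, false, [(0, 26)], []⟩,
  ⟨6843, 120, 0, 0, 0, true, false, false, [(0, 33)], []⟩,
  ⟨7905, 120, 0, 0, 0, true, false, false, [(0, 33)], []⟩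
  ] = true := by decide +kernel

def g64_52 : Gr := ⟨false, 494, 502, 1024, 1024, 64, 64, 8192, 8192, 0, 2048, 0, []⟩

theorem k64_52 : chk g64_52 T475 [
  ⟨698, 90, 630, 256, 161, false, true, false, [(0, 1), (3, 4), (27, 3), (12, 1), (13, 2), (14, 2), (15, 2), (16, 3), (17, 2), (18, 2)], []⟩,
  ⟨937, 90, 720, 120, 256, false, false, false, [(0, 1), (3, 7), (8, 1), (3, 3), (9, 1), (3, 4), (10, 1), (17, 2), (18, 2), (3, 12)], []⟩,
  ⟨1102, 90, 630, 120, 240, false, false, false, [(0, 1), (3, 16), (10, 1), (3, 1), (17, 1), (3, 1), (18, 1), (3, 12)], []⟩,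
  ⟨1183, 90, 630, 120, 224, false, false, false, [(0, 1), (3, 33)], []⟩,
  ⟨1239, 90, 0, 256, 145, true, true, false, [(0, 1), (3, 21)], []⟩,
  ⟨1319, 90, 0, 256, 145, true, true, false, [(0, 2), (3, 20)], []⟩,
  ⟨1399, 90, 0, 256, 145, true, true, false, [(0, 2), (3, 20)], []⟩,
  ⟨1479, 90, 0, 256, 145, true, true, false, [(0, 2), (3, 20)], []⟩,
  ⟨1559, 90, 0, 256, 145, true, true, false, [(0, 2), (3, 20)], []⟩,
  ⟨1639, 90, 0, 256, 145, true, true, false, [(0, 2), (3, 20)], []⟩,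
  ⟨1695, 90, 0, 256, 145, true, true, false, [(0, 2), (3, 20)], []⟩,
  ⟨1734, 90, 0, 224, 120, true, true, false, [(0, 3), (3, 22)], []⟩,
  ⟨1773, 90, 0, 224, 120, true, true, false, [(0, 3), (3, 22)], []⟩,
  ⟨1812, 90, 0, 224, 120, true, true, false, [(0, 3), (3, 22)], []⟩,
  ⟨1851, 90, 0, 224, 120, true, true, false, [(0, 4), (3, 21)], []⟩,
  ⟨1878, 90, 0, 224, 120, true, true, false, [(0, 5), (3, 20)], []⟩,
  ⟨1905, 90, 0, 224, 120, true, true, false, [(0, 6), (3, 19)], []⟩,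
  ⟨1924, 90, 0, 224, 120, true, true, false, [(0, 8), (3, 17)], []⟩,
  ⟨1943, 90, 0, 224, 120, true, true, false, [(0, 11), (3, 14)], []⟩,
  ⟨1962, 90, 0, 224, 120, true, true, false, [(0, 18), (3, 7)], []⟩,
  ⟨1990, 90, 0, 224, 120, true, true, false, [(0, 25)], []⟩,
  ⟨2047, 90, 0, 224, 120, true, true, false, [(0, 25)], []⟩,
  ⟨2161, 90, 0, 208, 109, true, true, false, [(0, 27)], []⟩,
  ⟨2480, 90, 0, 176, 88, true, true, false, [(0, 29)], []⟩,
  ⟨3360, 90, 0, 112, 52, true, true, false, [(0, 35)], []⟩,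
  ⟨6749, 90, 0, 0, 0, true, false, false, [(0, 45)], []⟩,
  ⟨8033, 90, 0, 0, 0, true, false, false, [(0, 45)], []⟩
  ] = true := by decide +kernel

def g64_53 : Gr := ⟨false, 502, 510, 1024, 1024, 64, 64, 8192, 8192, 0, 2048, 0, []⟩

theorem k64_53 : chk g64_53 T475 [
  ⟨698, 120, 600, 256, 169, false, true, false, [(0, 1), (3, 3), (27, 2), (13, 2), (14, 2), (15, 1), (16, 2), (17, 2), (18, 2)], []⟩,
  ⟨937, 120, 720, 120, 264, false, false, false, [(0, 1), (3, 8), (9, 1), (3, 3), (17, 2), (18, 2), (3, 9)], []⟩,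
  ⟨1104, 120, 720, 120, 240, false, false, false, [(0, 1), (3, 15), (18, 1), (3, 9)], []⟩,
  ⟨1186, 120, 600, 120, 232, false, false, false, [(0, 1), (3, 25)], []⟩,
  ⟨1267, 120, 600, 120, 224, false, false, false, [(0, 1), (3, 25)], []⟩,
  ⟨1348, 120, 0, 256, 145, true, true, false, [(0, 2), (3, 15)], []⟩,
  ⟨1429, 120, 0, 256, 145, true, true, false, [(0, 2), (3, 15)], []⟩,
  ⟨1510, 120, 0, 256, 145, true, true, false, [(0, 2), (3, 15)], []⟩,
  ⟨1591, 120, 0, 256, 145, true, true, false, [(0, 2), (3, 15)], []⟩,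
  ⟨1672, 120, 0, 240, 132, true, true, false, [(0, 2), (3, 16)], []⟩,
  ⟨1753, 120, 0, 240, 132, true, true, false, [(0, 3), (3, 15)], []⟩,
  ⟨1834, 120, 0, 240, 132, true, true, false, [(0, 3), (3, 15)], []⟩,
  ⟨1891, 120, 0, 240, 132, true, true, false, [(0, 4), (3, 14)], []⟩,
  ⟨1930, 120, 0, 240, 132, true, true, false, [(0, 5), (3, 13)], []⟩,
  ⟨1957, 120, 0, 240, 132, true, true, false, [(0, 7), (3, 11)], []⟩,
  ⟨1976, 120, 0, 240, 132, true, true, false, [(0, 10), (3, 8)], []⟩,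
  ⟨1989, 120, 0, 240, 132, true, true, false, [(0, 15), (3, 3)], []⟩,
  ⟨2002, 120, 0, 240, 132, true, true, false, [(0, 18)], []⟩,
  ⟨2015, 120, 0, 240, 132, true, true, false, [(0, 18)], []⟩,
  ⟨2028, 120, 0, 240, 132, true, true, false, [(0, 18)], []⟩,
  ⟨2041, 120, 0, 240, 132, true, true, false, [(0, 18)], []⟩,
  ⟨2070, 120, 0, 224, 120, true, true, false, [(0, 20)], []⟩,
  ⟨2129, 120, 0, 208, 109, true, true, false, [(0, 21)], []⟩,
  ⟨2297, 120, 0, 208, 109, true, true, false, [(0, 21)], []⟩,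
  ⟨2763, 120, 0, 160, 78, true, true, false, [(0, 24)], []⟩,
  ⟨5281, 120, 0, 16, 7, true, true, false, [(0, 33)], []⟩,
  ⟨8161, 120, 0, 0, 0, true, false, false, [(0, 34)], []⟩
  ] = true := by decide +kernel

def g64_54 : Gr := ⟨false, 510, 512, 1024, 1024, 64, 64, 8192, 8192, 0, 2048, 0, []⟩

theorem k64_54 : chk g64_54 T475 [
  ⟨498, 120, 720, 80, 336, false, false, false, [(0, 1), (3, 3), (27, 2), (13, 2), (14, 2), (15, 1), (16, 2), (17, 2), (18, 2), (19, 1), (3, 11)], []⟩,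
  ⟨846, 120, 720, 112, 284, false, true, false, [(0, 1), (3, 4), (8, 1), (3, 2), (9, 2), (3, 1), (16, 2), (17, 2), (18, 2), (3, 10)], []⟩,
  ⟨1086, 120, 720, 128, 244, false, true, false, [(0, 1), (3, 8), (9, 1), (3, 4), (17, 1), (18, 2), (3, 9)], []⟩,
  ⟨1203, 120, 600, 128, 232, false, false, false, [(0, 1), (3, 25)], []⟩,
  ⟨1285, 120, 600, 128, 224, false, false, false, [(0, 1), (3, 25)], []⟩,
  ⟨1342, 120, 600, 128, 216, false, false, false, [(0, 2), (3, 24)], []⟩,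
  ⟨1399, 120, 0, 256, 145, true, true, false, [(0, 2), (3, 16)], []⟩,
  ⟨1456, 120, 0, 256, 145, true, true, false, [(0, 2), (3, 16)], []⟩,
  ⟨1513, 120, 0, 256, 145, true, true, false, [(0, 2), (3, 16)], []⟩,
  ⟨1594, 120, 0, 256, 145, true, true, false, [(0, 2), (3, 16)], []⟩,
  ⟨1675, 120, 0, 240, 132, true, true, false, [(0, 2), (3, 17)], []⟩,
  ⟨1756, 120, 0, 240, 132, true, true, false, [(0, 2), (3, 17)], []⟩,
  ⟨1813, 120, 0, 240, 132, true, true, false, [(0, 3), (3, 16)], []⟩,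
  ⟨1870, 120, 0, 240, 132, true, true, false, [(0, 3), (3, 16)], []⟩,
  ⟨1927, 120, 0, 240, 132, true, true, false, [(0, 4), (3, 15)], []⟩,
  ⟨1967, 120, 0, 240, 132, true, true, false, [(0, 5), (3, 14)], []⟩,
  ⟨1995, 120, 0, 224, 120, true, true, false, [(0, 8), (3, 12)], []⟩,
  ⟨2023, 120, 0, 224, 120, true, true, false, [(0, 13), (3, 7)], []⟩,
  ⟨2063, 120, 0, 224, 120, true, true, false, [(0, 20)], []⟩,
  ⟨2177, 120, 0, 224, 120, true, true, false, [(0, 20)], []⟩,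
  ⟨2496, 120, 0, 192, 98, true, true, false, [(0, 22)], []⟩,
  ⟨3376, 120, 0, 112, 52, true, true, false, [(0, 27)], []⟩,
  ⟨6767, 120, 0, 0, 0, true, false, false, [(0, 35)], []⟩,
  ⟨8193, 120, 0, 0, 0, true, false, false, [(0, 35)], []⟩
  ] = true := by decide +kernel

def g64_55 : Gr := ⟨false, 512, 522, 1024, 1024, 64, 64, 8192, 8192, 0, 2048, 0, []⟩

theorem k64_55 : chk g64_55 T500 [
  ⟨698, 120, 600, 256, 177, false, true, false, [(0, 1), (3, 3), (28, 2), (14, 2), (15, 2), (16, 1), (17, 2), (18, 2), (19, 2), (20, 1)], []⟩,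
  ⟨937, 120, 720, 120, 272, false, false, false, [(0, 1), (3, 8), (10, 1), (3, 2), (11, 1), (18, 2), (19, 2), (20, 1), (3, 9)], []⟩,
  ⟨1104, 120, 720, 120, 248, false, false, false, [(0, 1), (3, 8), (10, 1), (3, 5), (19, 2), (20, 1), (3, 9)], []⟩,
  ⟨1221, 120, 600, 120, 240, false, false, false, [(0, 1), (3, 15), (19, 1), (3, 10)], []⟩,
  ⟨1303, 120, 600, 120, 232, false, false, false, [(0, 1), (3, 15), (19, 1), (3, 10)], []⟩,
  ⟨1360, 120, 0, 256, 145, true, true, false, [(0, 2), (3, 16)], []⟩,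
  ⟨1441, 120, 0, 256, 145, true, true, false, [(0, 2), (3, 14), (19, 1), (3, 1)], []⟩,
  ⟨1522, 120, 0, 256, 145, true, true, false, [(0, 2), (3, 16)], []⟩,
  ⟨1603, 120, 0, 256, 145, true, true, false, [(0, 2), (3, 16)], []⟩,
  ⟨1684, 120, 0, 256, 145, true, true, false, [(0, 2), (3, 16)], []⟩,
  ⟨1765, 120, 0, 240, 132, true, true, false, [(0, 2), (3, 17)], []⟩,
  ⟨1822, 120, 0, 240, 132, true, true, false, [(0, 3), (3, 16)], []⟩,
  ⟨1879, 120, 0, 240, 132, true, true, false, [(0, 3), (3, 16)], []⟩,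
  ⟨1936, 120, 0, 240, 132, true, true, false, [(0, 4), (3, 15)], []⟩,
  ⟨1975, 120, 0, 224, 120, true, true, false, [(0, 6), (3, 14)], []⟩,
  ⟨2002, 120, 0, 224, 120, true, true, false, [(0, 8), (3, 12)], []⟩,
  ⟨2029, 120, 0, 224, 120, true, true, false, [(0, 13), (3, 7)], []⟩,
  ⟨2069, 120, 0, 224, 120, true, true, false, [(0, 20)], []⟩,
  ⟨2183, 120, 0, 208, 109, true, true, false, [(0, 21)], []⟩,
  ⟨2501, 120, 0, 192, 98, true, true, false, [(0, 22)], []⟩,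
  ⟨3379, 120, 0, 104, 48, true, true, false, [(0, 28)], []⟩,
  ⟨6761, 120, 0, 0, 0, true, false, false, [(0, 35)], []⟩,
  ⟨8353, 120, 0, 0, 0, true, false, false, [(0, 35)], []⟩
  ] = true := by decide +kernel

def g64_56 : Gr := ⟨false, 522, 538, 1024, 1024, 64, 64, 8192, 8192, 0, 2010, 0, []⟩

theorem k64_56 : chk g64_56 T500 [
  ⟨498, 120, 720, 28, 380, false, false, true, [(0, 1), (3, 3), (28, 2), (14, 2), (15, 2), (16, 1), (17, 2), (18, 2), (19, 2), (20, 1), (3, 14)], [(3, 2)]⟩,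
  ⟨846, 120, 720, 104, 296, false, false, false, [(0, 1), (3, 4), (9, 1), (3, 2), (10, 2), (3, 1), (11, 2), (18, 2), (19, 2), (20, 1), (3, 11)], []⟩,
  ⟨1090, 120, 720, 120, 264, false, false, false, [(0, 1), (3, 8), (10, 1), (3, 2), (11, 1), (3, 1), (18, 1), (19, 2), (20, 1), (3, 10)], []⟩,
  ⟨1209, 120, 600, 120, 248, false, false, false, [(0, 1), (3, 15), (19, 1), (3, 11)], []⟩,
  ⟨1292, 120, 600, 120, 240, false, false, false, [(0, 1), (3, 15), (19, 1), (3, 11)], []⟩,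
  ⟨1350, 120, 600, 120, 232, false, false, false, [(0, 2), (3, 26)], []⟩,
  ⟨1391, 120, 600, 120, 232, false, false, false, [(0, 2), (3, 26)], []⟩,
  ⟨1432, 120, 0, 256, 145, true, true, false, [(0, 2), (3, 17)], []⟩,
  ⟨1473, 120, 0, 256, 145, true, true, false, [(0, 2), (3, 17)], []⟩,
  ⟨1531, 120, 0, 256, 145, true, true, false, [(0, 2), (3, 17)], []⟩,
  ⟨1589, 120, 0, 256, 145, true, true, false, [(0, 2), (3, 17)], []⟩,
  ⟨1647, 120, 0, 256, 145, true, true, false, [(0, 2), (3, 17)], []⟩,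
  ⟨1705, 120, 0, 256, 145, true, true, false, [(0, 2), (3, 17)], []⟩,
  ⟨1763, 120, 0, 240, 132, true, true, false, [(0, 2), (3, 18)], []⟩,
  ⟨1821, 120, 0, 240, 132, true, true, false, [(0, 3), (3, 17)], []⟩,
  ⟨1879, 120, 0, 240, 132, true, true, false, [(0, 3), (3, 17)], []⟩,
  ⟨1919, 120, 0, 240, 132, true, true, false, [(0, 4), (3, 16)], []⟩,
  ⟨1959, 120, 0, 240, 132, true, true, false, [(0, 4), (3, 16)], []⟩,
  ⟨1987, 120, 0, 240, 132, true, true, false, [(0, 5), (3, 15)], []⟩,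
  ⟨2007, 120, 0, 240, 132, true, true, false, [(0, 6), (3, 14)], []⟩,
  ⟨2021, 120, 0, 224, 120, true, true, false, [(0, 7), (3, 14)], []⟩,
  ⟨2035, 120, 0, 224, 120, true, true, false, [(0, 9), (3, 12)], []⟩,
  ⟨2049, 120, 0, 224, 120, true, true, false, [(0, 11), (3, 10)], []⟩,
  ⟨2058, 120, 0, 224, 120, true, true, false, [(0, 13), (3, 8)], []⟩,
  ⟨2067, 120, 0, 224, 120, true, true, false, [(0, 16), (3, 5)], []⟩,
  ⟨2081, 120, 0, 224, 120, true, true, false, [(0, 21)], []⟩,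
  ⟨2125, 120, 0, 224, 120, true, true, false, [(0, 21)], []⟩,
  ⟨2215, 120, 0, 208, 109, true, true, false, [(0, 22)], []⟩,
  ⟨2467, 120, 0, 208, 109, true, true, false, [(0, 22)], []⟩,
  ⟨3163, 120, 0, 120, 56, true, true, false, [(0, 28)], []⟩,
  ⟨6917, 120, 0, 0, 0, true, false, false, [(0, 36)], []⟩,
  ⟨8449, 120, 0, 0, 0, true, false, false, [(0, 36)], []⟩
  ] = true := by decide +kernel

def g64_57 : Gr := ⟨false, 537, 553, 1024, 1024, 64, 64, 8192, 8192, 0, 1954, 0, []⟩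

theorem k64_57 : chk g64_57 T525 [
  ⟨498, 120, 720, 28, 388, false, false, true, [(0, 1), (3, 3), (29, 2), (14, 2), (15, 2), (16, 1), (17, 2), (18, 2), (19, 2), (20, 1), (21, 2), (3, 13)], [(3, 2)]⟩,
  ⟨846, 120, 720, 104, 312, false, false, false, [(0, 1), (3, 4), (9, 1), (3, 1), (10, 3), (11, 3), (18, 2), (19, 2), (20, 1), (21, 2), (3, 10)], []⟩,
  ⟨1090, 120, 720, 120, 272, false, false, false, [(0, 1), (3, 8), (10, 1), (3, 2), (11, 1), (3, 2), (19, 2), (20, 1), (3, 1), (21, 1), (3, 9)], []⟩,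
  ⟨1260, 120, 600, 120, 256, false, false, false, [(0, 1), (3, 8), (10, 1), (3, 6), (19, 1), (20, 1), (3, 11)], []⟩,
  ⟨1379, 120, 600, 120, 240, false, false, false, [(0, 2), (3, 14), (12, 1), (3, 12)], []⟩,
  ⟨1437, 120, 600, 120, 240, false, false, false, [(0, 2), (3, 27)], []⟩,
  ⟨1495, 120, 0, 256, 145, true, true, false, [(0, 2), (3, 18)], []⟩,
  ⟨1578, 120, 0, 256, 145, true, true, false, [(0, 2), (3, 18)], []⟩,
  ⟨1661, 120, 0, 256, 145, true, true, false, [(0, 2), (3, 18)], []⟩,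
  ⟨1744, 120, 0, 256, 145, true, true, false, [(0, 2), (3, 18)], []⟩,
  ⟨1827, 120, 0, 256, 145, true, true, false, [(0, 3), (3, 17)], []⟩,
  ⟨1910, 120, 0, 240, 132, true, true, false, [(0, 3), (3, 18)], []⟩,
  ⟨1993, 120, 0, 240, 132, true, true, false, [(0, 4), (3, 17)], []⟩,
  ⟨2051, 120, 0, 240, 132, true, true, false, [(0, 5), (3, 16)], []⟩,
  ⟨2091, 120, 0, 240, 132, true, true, false, [(0, 7), (3, 14)], []⟩,
  ⟨2119, 120, 0, 224, 120, true, true, false, [(0, 12), (3, 10)], []⟩,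
  ⟨2159, 120, 0, 224, 120, true, true, false, [(0, 22)], []⟩,
  ⟨2275, 120, 0, 224, 120, true, true, false, [(0, 22)], []⟩,
  ⟨2505, 120, 0, 208, 109, true, true, false, [(0, 23)], []⟩,
  ⟨3142, 120, 0, 120, 56, true, true, false, [(0, 29)], []⟩,
  ⟨6583, 120, 0, 0, 0, true, false, false, [(0, 37)], []⟩,
  ⟨8442, 120, 0, 0, 0, true, false, false, [(0, 37)], []⟩
  ] = true := by decide +kernel

def g64_58 : Gr := ⟨false, 553, 564, 1024, 1024, 64, 64, 8192, 8192, 0, 1898, 0, []⟩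

theorem k64_58 : chk g64_58 T525 [
  ⟨698, 120, 720, 88, 344, false, false, false, [(0, 1), (3, 3), (29, 2), (14, 2), (15, 2), (16, 1), (17, 2), (18, 2), (19, 2), (20, 1), (21, 2), (3, 12)], []⟩,
  ⟨1040, 120, 720, 144, 272, false, false, false, [(0, 1), (3, 4), (9, 1), (3, 2), (10, 2), (3, 1), (11, 2), (18, 2), (19, 2), (20, 1), (21, 2), (3, 8)], []⟩,
  ⟨1279, 120, 600, 144, 248, false, false, false, [(0, 1), (3, 8), (10, 1), (3, 2), (11, 1), (3, 3), (19, 1), (20, 1), (3, 10)], []⟩,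
  ⟨1446, 120, 600, 144, 229, false, true, false, [(0, 2), (3, 26)], []⟩,
  ⟨1563, 120, 600, 144, 216, false, false, false, [(0, 2), (3, 26)], []⟩,
  ⟨1680, 120, 0, 256, 145, true, true, false, [(0, 2), (3, 19)], []⟩,
  ⟨1797, 120, 0, 256, 145, true, true, false, [(0, 2), (3, 19)], []⟩,
  ⟨1914, 120, 0, 256, 145, true, true, false, [(0, 3), (3, 18)], []⟩,
  ⟨2031, 120, 0, 240, 132, true, true, false, [(0, 3), (3, 19)], []⟩,
  ⟨2113, 120, 0, 240, 132, true, true, false, [(0, 5), (3, 17)], []⟩,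
  ⟨2195, 120, 0, 240, 132, true, true, false, [(0, 9), (3, 13)], []⟩,
  ⟨2358, 120, 0, 224, 120, true, true, false, [(0, 23)], []⟩,
  ⟨2810, 120, 0, 176, 88, true, true, false, [(0, 26)], []⟩,
  ⟨4057, 120, 0, 72, 32, true, true, false, [(0, 33)], []⟩,
  ⟨7483, 120, 0, 0, 0, true, false, false, [(0, 38)], []⟩,
  ⟨8364, 120, 0, 0, 0, true, false, false, [(0, 38)], []⟩
  ] = true := by decide +kernel

def g64_59 : Gr := ⟨false, 563, 589, 1024, 1024, 64, 64, 8192, 8192, 0, 1864, 0, []⟩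

theorem k64_59 : chk g64_59 T550 [
  ⟨698, 70, 700, 64, 368, false, false, false, [(0, 1), (3, 5), (32, 4), (15, 1), (16, 3), (17, 3), (18, 3), (19, 3), (20, 3), (21, 3), (22, 3), (23, 3), (24, 3), (3, 22)], []⟩,
  ⟨1040, 70, 700, 128, 292, false, true, false, [(0, 1), (3, 8), (10, 2), (3, 3), (11, 3), (3, 1), (12, 5), (20, 3), (21, 3), (22, 3), (23, 3), (3, 2), (24, 1), (3, 15)], []⟩,
  ⟨1279, 70, 630, 128, 268, false, true, false, [(0, 1), (3, 9), (10, 1), (3, 4), (11, 2), (3, 4), (12, 2), (3, 3), (13, 3), (22, 3), (23, 3), (3, 2), (24, 1), (3, 15)], []⟩,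
  ⟨1446, 70, 630, 144, 237, false, true, false, [(0, 2), (3, 14), (11, 1), (3, 5), (12, 1), (3, 4), (13, 2), (22, 3), (23, 3), (3, 16)], []⟩,
  ⟨1563, 70, 630, 144, 224, false, false, false, [(0, 2), (3, 20), (12, 1), (3, 5), (13, 1), (3, 1), (22, 2), (3, 1), (23, 2), (3, 16)], []⟩,
  ⟨1680, 70, 0, 256, 145, true, true, true, [(0, 2), (3, 20), (12, 1), (3, 5), (13, 1), (3, 2), (22, 1), (3, 1), (23, 2)], [(3, 4)]⟩,
  ⟨1797, 70, 0, 240, 132, true, true, true, [(0, 2), (3, 26), (13, 1), (3, 2), (22, 1), (3, 1), (23, 2)], [(3, 2), (24, 1), (3, 2)]⟩,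
  ⟨1879, 70, 0, 240, 132, true, true, false, [(0, 3), (3, 31), (23, 1), (3, 5)], []⟩,
  ⟨1961, 70, 0, 240, 132, true, true, false, [(0, 3), (3, 31), (23, 1), (3, 2), (24, 1), (3, 2)], []⟩,
  ⟨2043, 70, 0, 240, 132, true, true, false, [(0, 3), (3, 31), (23, 1), (3, 2), (24, 1), (3, 2)], []⟩,
  ⟨2125, 70, 0, 240, 132, true, true, false, [(0, 4), (3, 18), (6, 1), (3, 5), (7, 1), (3, 5), (23, 1), (3, 2), (24, 1), (3, 2)], []⟩,
  ⟨2182, 70, 0, 240, 132, true, true, false, [(0, 7), (3, 15), (6, 1), (3, 5), (7, 1), (3, 5), (23, 1), (3, 2), (24, 1), (3, 2)], []⟩,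
  ⟨2239, 70, 0, 240, 132, true, true, false, [(0, 18), (3, 4), (6, 1), (3, 5), (7, 1), (3, 5), (8, 1), (3, 2), (24, 1), (3, 2)], []⟩,
  ⟨2296, 70, 0, 240, 132, true, true, false, [(0, 40)], []⟩,
  ⟨2458, 70, 0, 224, 120, true, true, false, [(0, 42)], []⟩,
  ⟨2907, 70, 0, 176, 88, true, true, false, [(0, 48)], []⟩,
  ⟨4144, 70, 0, 64, 28, true, true, false, [(0, 60)], []⟩,
  ⟨7544, 70, 0, 0, 0, true, false, false, [(0, 68)], []⟩,
  ⟨8578, 70, 0, 0, 0, true, false, false, [(0, 68)], []⟩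
  ] = true := by decide +kernel

def g64_60 : Gr := ⟨false, 588, 615, 1024, 1024, 64, 64, 8192, 8192, 0, 1785, 0, []⟩

theorem k64_60 : chk g64_60 T575 [
  ⟨698, 120, 600, 60, 388, false, false, true, [(0, 1), (3, 3), (33, 2), (16, 2), (17, 2), (18, 1), (19, 2), (20, 2), (21, 2), (22, 1), (23, 2), (24, 2), (25, 1), (3, 12)], [(3, 2)]⟩,
  ⟨1186, 120, 720, 120, 304, false, false, false, [(0, 1), (3, 4), (10, 1), (3, 1), (11, 3), (12, 3), (13, 1), (20, 1), (21, 2), (22, 1), (23, 2), (24, 2), (25, 1), (3, 10)], []⟩,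
  ⟨1425, 120, 600, 120, 280, false, false, false, [(0, 1), (3, 8), (11, 1), (3, 2), (12, 1), (3, 2), (13, 2), (22, 1), (23, 2), (24, 2), (3, 11)], []⟩,
  ⟨1592, 120, 600, 120, 264, false, false, false, [(0, 2), (3, 14), (13, 1), (3, 2), (23, 1), (3, 1), (24, 1), (3, 11)], []⟩,
  ⟨1759, 120, 0, 256, 145, true, true, true, [(0, 2), (3, 14), (13, 1), (3, 2), (23, 1), (3, 1), (24, 1)], [(3, 2)]⟩,
  ⟨1926, 120, 0, 256, 145, true, true, true, [(0, 2), (3, 7), (5, 1), (3, 6), (13, 1), (3, 2), (23, 1), (3, 1), (24, 1)], [(3, 2)]⟩,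
  ⟨2093, 120, 0, 256, 145, true, true, false, [(0, 3), (3, 6), (5, 1), (3, 6), (13, 1), (3, 4), (24, 1), (3, 2)], []⟩,
  ⟨2210, 120, 0, 240, 132, true, true, false, [(0, 4), (3, 12), (7, 1), (3, 4), (24, 1), (3, 3)], []⟩,
  ⟨2327, 120, 0, 240, 132, true, true, false, [(0, 7), (3, 9), (7, 1), (3, 4), (24, 1), (3, 3)], []⟩,
  ⟨2444, 120, 0, 240, 132, true, true, false, [(0, 25)], []⟩,
  ⟨2676, 120, 0, 208, 109, true, true, false, [(0, 28)], []⟩,
  ⟨3318, 120, 0, 144, 69, true, true, false, [(0, 32)], []⟩,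
  ⟨6783, 120, 0, 0, 0, true, false, false, [(0, 41)], []⟩,
  ⟨8577, 120, 0, 0, 0, true, false, false, [(0, 41)], []⟩
  ] = true := by decide +kernel

def g64_61 : Gr := ⟨false, 614, 640, 1024, 1024, 64, 64, 8192, 8192, 0, 1709, 0, []⟩

theorem k64_61 : chk g64_61 T600 [
  ⟨698, 120, 600, 72, 392, false, false, true, [(0, 1), (3, 3), (35, 2), (17, 2), (18, 2), (19, 1), (20, 2), (21, 2), (22, 2), (23, 1), (24, 2), (25, 2), (26, 1), (3, 13)], [(3, 2)]⟩,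
  ⟨1186, 120, 600, 160, 294, false, true, false, [(0, 1), (3, 3), (11, 2), (3, 1), (12, 3), (13, 3), (14, 3), (22, 1), (23, 1), (24, 2), (25, 2), (26, 1), (3, 9)], []⟩,
  ⟨1528, 120, 600, 160, 256, false, false, false, [(0, 2), (3, 7), (12, 1), (3, 1), (13, 2), (3, 1), (14, 3), (23, 1), (24, 2), (25, 2), (26, 1), (3, 9)], []⟩,
  ⟨1767, 120, 0, 256, 145, true, true, true, [(0, 2), (3, 7), (5, 1), (3, 2), (13, 1), (3, 2), (14, 2), (3, 1), (24, 2), (25, 2)], [(26, 1), (3, 3)]⟩,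
  ⟨2006, 120, 0, 256, 145, true, true, true, [(0, 2), (3, 7), (5, 1), (3, 6), (14, 1), (3, 2), (24, 1), (25, 2), (26, 1)], [(3, 3)]⟩,
  ⟨2245, 120, 0, 224, 120, true, true, true, [(0, 3), (3, 6), (5, 1), (3, 2), (6, 1), (3, 3), (7, 1), (3, 2), (15, 1), (3, 1), (25, 1), (26, 1), (3, 1), (27, 1)], [(3, 3)]⟩,
  ⟨2412, 120, 0, 240, 132, true, true, false, [(0, 5), (3, 4), (5, 1), (3, 6), (7, 1), (3, 2), (8, 1), (3, 1), (25, 1), (3, 5)], []⟩,
  ⟨2647, 120, 0, 224, 120, true, true, false, [(0, 16), (7, 1), (0, 11)], []⟩,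
  ⟨3298, 120, 0, 160, 78, true, true, false, [(0, 32)], []⟩,
  ⟨6812, 120, 0, 0, 0, true, false, false, [(0, 43)], []⟩,
  ⟨8546, 120, 0, 0, 0, true, false, false, [(0, 43)], []⟩
  ] = true := by decide +kernel

def g64_62 : Gr := ⟨false, 640, 666, 1024, 1024, 64, 64, 8192, 8192, 0, 1640, 0, []⟩

theorem k64_62 : chk g64_62 T625 [
  ⟨978, 120, 600, 144, 344, false, false, false, [(0, 1), (3, 3), (36, 2), (17, 2), (18, 2), (19, 1), (20, 2), (21, 2), (22, 2), (23, 1), (24, 2), (25, 2), (26, 1), (27, 2), (28, 2), (3, 8)], []⟩,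
  ⟨1650, 120, 600, 160, 264, false, false, false, [(0, 1), (3, 4), (11, 1), (3, 1), (12, 3), (13, 3), (14, 4), (23, 1), (24, 2), (25, 2), (26, 1), (27, 2), (28, 2), (3, 7)], []⟩,
  ⟨2112, 120, 0, 256, 145, true, true, true, [(0, 2), (3, 7), (5, 1), (3, 2), (13, 1), (3, 2), (14, 2), (3, 1), (15, 2), (25, 2), (26, 1), (27, 2)], [(28, 2), (3, 1)]⟩,
  ⟨2435, 120, 0, 224, 120, true, true, true, [(0, 3), (3, 6), (5, 1), (3, 2), (6, 1), (3, 2), (7, 2), (3, 2), (15, 1), (3, 1), (25, 1), (26, 1), (3, 1), (27, 1), (3, 1), (28, 1)], [(3, 1), (29, 1), (3, 1)]⟩,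
  ⟨2661, 120, 0, 224, 120, true, true, true, [(0, 9), (5, 1), (0, 6), (7, 1), (0, 2), (8, 1), (0, 1), (25, 1), (9, 1), (0, 1), (27, 1), (0, 1), (28, 1)], [(29, 2), (30, 1)]⟩,
  ⟨3287, 120, 0, 192, 98, true, true, false, [(0, 32)], []⟩,
  ⟨5009, 120, 0, 24, 11, true, true, false, [(0, 43)], []⟩,
  ⟨8386, 120, 0, 0, 0, true, false, false, [(0, 45)], []⟩,
  ⟨8534, 120, 0, 0, 0, true, false, false, [(0, 45)], []⟩
  ] = true := by decide +kernel

def g64_63 : Gr := ⟨false, 665, 692, 1024, 1024, 64, 64, 8192, 8192, 0, 1578, 0, []⟩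

theorem k64_63 : chk g64_63 T650 [
  ⟨978, 120, 600, 112, 384, false, false, true, [(0, 1), (3, 3), (39, 2), (19, 2), (20, 2), (21, 1), (22, 2), (23, 2), (24, 2), (25, 1), (26, 2), (27, 2), (28, 1), (29, 2), (30, 2), (3, 9)], [(3, 3)]⟩,
  ⟨1663, 120, 600, 160, 286, false, true, false, [(0, 1), (3, 4), (12, 1), (3, 1), (13, 3), (14, 3), (15, 4), (25, 1), (26, 2), (27, 2), (28, 1), (29, 2), (30, 2), (31, 2), (3, 7)], []⟩,
  ⟨2348, 120, 0, 256, 145, true, true, true, [(0, 2), (3, 3), (4, 1), (3, 2), (5, 2), (3, 1), (6, 1), (14, 1), (3, 1), (15, 3), (16, 3), (27, 2), (28, 1), (29, 2)], [(30, 2), (31, 2), (32, 1)]⟩,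
  ⟨2827, 120, 0, 224, 120, true, true, true, [(0, 9), (5, 1), (0, 2), (6, 1), (0, 1), (7, 3), (0, 1), (8, 2), (27, 2), (28, 1), (29, 2), (30, 2), (31, 2)], [(32, 1), (33, 2)]⟩,
  ⟨3499, 120, 0, 176, 88, true, true, false, [(0, 35)], []⟩,
  ⟨7126, 120, 0, 2, 1, true, true, false, [(0, 46)], []⟩,
  ⟨8532, 120, 0, 0, 0, true, false, false, [(0, 47)], []⟩
  ] = true := by decide +kernel

def g64_64 : Gr := ⟨false, 691, 717, 1024, 1024, 64, 64, 8192, 8192, 0, 1519, 0, []⟩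

theorem k64_64 : chk g64_64 T675 [
  ⟨1371, 120, 600, 272, 272, false, false, false, [(0, 1), (3, 3), (40, 2), (19, 2), (20, 2), (21, 1), (22, 2), (23, 2), (24, 2), (25, 1), (26, 2), (27, 2), (28, 1), (29, 2), (30, 2), (31, 2), (32, 1)], []⟩,
  ⟨2331, 120, 0, 256, 153, true, true, true, [(0, 2), (3, 3), (4, 1), (3, 2), (13, 2), (14, 3), (15, 4), (16, 3), (27, 2), (28, 1), (29, 2)], [(30, 2), (31, 2), (32, 1), (33, 1)]⟩,
  ⟨3003, 120, 0, 224, 120, true, true, true, [(0, 8), (5, 2), (0, 1), (6, 2), (0, 1), (7, 3), (8, 3), (9, 1), (27, 1), (17, 1), (29, 2), (30, 2), (31, 2)], [(32, 1), (33, 2), (34, 1)]⟩,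
  ⟨3944, 120, 0, 120, 88, true, true, true, [(0, 38)], [(0, 2)]⟩,
  ⟨7569, 120, 0, 0, 0, true, false, false, [(0, 48)], []⟩,
  ⟨8509, 120, 0, 0, 0, true, false, false, [(0, 48)], []⟩
  ] = true := by decide +kernel

def g64_65 : Gr := ⟨false, 716, 743, 1024, 1024, 64, 64, 8192, 8192, 0, 1466, 0, []⟩

theorem k64_65 : chk g64_65 T700 [
  ⟨1371, 120, 600, 160, 352, false, false, true, [(0, 1), (3, 3), (41, 2), (19, 2), (20, 2), (21, 1), (22, 2), (23, 2), (24, 2), (25, 1), (26, 2), (27, 2), (28, 1), (29, 2), (30, 2), (31, 2), (32, 1), (33, 2), (3, 5)], [(3, 2)]⟩,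
  ⟨2331, 120, 0, 240, 188, true, true, true, [(0, 2), (3, 3), (4, 1), (3, 1), (5, 1), (13, 2), (14, 3), (15, 4), (16, 3), (27, 2), (28, 1), (29, 2)], [(30, 2), (31, 2), (32, 1), (33, 2), (34, 2)]⟩,
  ⟨3291, 120, 0, 224, 120, true, true, true, [(0, 8), (5, 2), (0, 1), (6, 2), (7, 4), (8, 3), (9, 2), (17, 1), (29, 2), (30, 2), (31, 2), (32, 1), (33, 2)], [(34, 2), (35, 1)]⟩,
  ⟨4636, 120, 0, 56, 88, true, false, true, [(0, 44)], [(0, 2)]⟩,
  ⟨8331, 120, 0, 0, 0, true, false, false, [(0, 50)], []⟩,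
  ⟨8510, 120, 0, 0, 0, true, false, false, [(0, 50)], []⟩
  ] = true := by decide +kernel

def g64_66 : Gr := ⟨false, 742, 768, 1024, 1024, 64, 64, 8192, 8192, 0, 1415, 0, []⟩

theorem k64_66 : chk g64_66 T725 [
  ⟨1371, 120, 600, 304, 304, false, false, true, [(0, 1), (3, 3), (44, 2), (21, 2), (22, 2), (23, 1), (24, 2), (25, 2), (26, 2), (27, 1), (28, 2), (29, 2), (30, 1), (31, 2), (32, 2), (33, 2)], [(34, 1), (35, 1)]⟩,
  ⟨2742, 120, 0, 256, 153, true, true, true, [(0, 2), (3, 2), (4, 2), (3, 1), (5, 1), (14, 2), (15, 3), (16, 4), (17, 3), (29, 2), (30, 1), (31, 2), (32, 2)], [(33, 2), (34, 1), (35, 2), (36, 2), (37, 1)]⟩,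
  ⟨3702, 120, 0, 192, 98, true, true, true, [(0, 9), (5, 1), (0, 2), (6, 1), (0, 2), (7, 2), (0, 1), (8, 2), (0, 1), (9, 2), (0, 1), (31, 1), (10, 2), (33, 2), (34, 1), (35, 2), (36, 2), (37, 1)], [(38, 2), (39, 2)]⟩,
  ⟨5586, 120, 0, 4, 44, true, false, false, [(0, 51)], []⟩,
  ⟨8491, 120, 0, 0, 0, true, false, false, [(0, 52)], []⟩
  ] = true := by decide +kernel

def g64_67 : Gr := ⟨false, 768, 794, 1024, 1024, 64, 64, 8192, 8192, 0, 1367, 0, []⟩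

theorem k64_67 : chk g64_67 T750 [
  ⟨1921, 120, 600, 272, 272, false, false, true, [(2, 4), (45, 2), (21, 2), (22, 2), (23, 1), (24, 2), (25, 2), (26, 2), (27, 1), (28, 2), (29, 2), (30, 1), (31, 2), (32, 2), (33, 2), (34, 1), (35, 2)], [(36, 2), (37, 1)]⟩,
  ⟨3265, 120, 0, 224, 144, true, true, true, [(0, 4), (4, 2), (5, 4), (6, 3), (7, 3), (16, 1), (17, 3), (18, 3), (31, 2), (32, 2), (33, 2), (34, 1), (35, 2), (36, 2)], [(37, 1), (38, 2), (39, 1)]⟩,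
  ⟨4609, 120, 0, 104, 96, true, true, true, [(0, 44)], [(0, 2)]⟩,
  ⟨8303, 120, 0, 0, 0, true, false, false, [(0, 53)], []⟩,
  ⟨8480, 120, 0, 0, 0, true, false, false, [(0, 53)], []⟩
  ] = true := by decide +kernel

def g64_68 : Gr := ⟨false, 793, 820, 1024, 1024, 64, 64, 8192, 8192, 0, 1324, 0, []⟩

theorem k64_68 : chk g64_68 T775 [
  ⟨1921, 120, 600, 272, 272, false, false, true, [(2, 4), (45, 2), (21, 2), (22, 2), (23, 1), (24, 2), (25, 2), (26, 2), (27, 1), (28, 2), (29, 2), (30, 1), (31, 2), (32, 2), (33, 2), (34, 1), (35, 2), (36, 2)], [(37, 1), (38, 2)]⟩,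
  ⟨3842, 120, 0, 192, 130, true, true, true, [(0, 4), (4, 2), (5, 4), (6, 3), (7, 3), (16, 1), (17, 3), (18, 3), (31, 2), (32, 2), (33, 2), (34, 1), (35, 2), (36, 2)], [(37, 1), (38, 2), (39, 2), (40, 1), (41, 2)]⟩,
  ⟨5763, 120, 0, 12, 68, true, false, false, [(0, 54)], []⟩,
  ⟨8482, 120, 0, 0, 0, true, false, false, [(0, 55)], []⟩
  ] = true := by decide +kernel

end Pool.Agent.Lib.MP_af3a4a_an.P1.CHK.H81.L
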