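import Pool.Agent.Lib.MP_af3a4a_an.P1.H74.V3b
import Pool.Agent.Lib.MP_af3a4a_an.P1.CHK.H58.GN

/-!
# The profile V3 from `dual_V3` (helper81)
-/

set_option autoImplicit false

namespace Pool.Agent.Lib.MP_af3a4a_an.P1.CHK.H81.L

open Pool.Agent.Lib.MP_af3a4a_an.SV (uu av)
open Pool.Agent.Lib.MP_af3a4a_an.P1.H80
open Pool.Agent.Lib.MP_af3a4a_an.P1.H74
open Pool.Agent.Lib.MP_af3a4a_an.P1.CHK.H58.G (ProfW)

theorem profW {N : ℕ} (hN : 1 ≤ N) {w : Fin N → ℂ} {R : ℝ} (hw : ∀ k, 1 ≤ ‖w k‖)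
    (ht : ∑ k, ‖w k - (R : ℂ)‖ ≤ N) (hR : 0 < R) (hR1 : R ≤ 3 / 4) : ProfW N w R := by
  intro x hx v hv
  obtain ⟨l, hl⟩ : ∃ l, l = x / R := ⟨_, rfl⟩
  have hxl : x = l * R := by rw [hl, div_mul_cancel₀ _ hR.ne']
  have hl0 : 0 ≤ l := by rw [hl]; exact div_nonneg hx.1 hR.le
  have hl1 : l ≤ 1 := by rw [hl, div_le_one hR]; exact hx.2
  have h := (dual_V3 (v := v) hR hR1 hl0 hl1 hv.1 hv.2).qq_le hN hw ht
  rw [← hxl] at h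
  refine h.trans (le_of_eq ?_)
  congr 3
  have hA : A3 l * R ^ 3 = x ^ 2 * |R - 4 * x / 3| := by
    unfold A3
    have e : l ^ 2 - 4 / 3 * l ^ 3 = l ^ 2 * (1 - 4 / 3 * l) := by ring
    rw [e, abs_mul, abs_of_nonneg (sq_nonneg l)]
    have e2 : R - 4 * x / 3 = R * (1 - 4 / 3 * l) := by rw [hxl]; ring
    rw [e2, abs_mul, abs_of_pos hR, hxl]
    ring
  unfold hV3 gV3
  have h1 : R ^ 2 * (l ^ 2 / 2 - A3 l * R * (1 - v) ^ 2) =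
      x ^ 2 / 2 - x ^ 2 * |R - 4 * x / 3| * (1 - v) ^ 2 := by
    rw [← hA, hxl]
    ring
  have h2 : (l * (1 - 2 * l) + 2 * A3 l * R * (1 - 2 * v)) * R =
      x - 2 * x ^ 2 / R + 2 * (x ^ 2 * |R - 4 * x / 3|) * (1 - 2 * v) / R := by
    rw [← hA, hxl]
    field_simp
  rw [h1, h2]
  ring

end Pool.Agent.Lib.MP_af3a4a_an.P1.CHK.H81.L
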