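import Pool.Agent.Lib.MP_af3a4a_an.P1.CHK.H81.LT
import Pool.Agent.Lib.MP_af3a4a_an.P1.CHK.H81.PW
import Pool.Agent.Lib.MP_af3a4a_an.P1.CHK.H58.SZ2
import Pool.Agent.Lib.MP_af3a4a_an.P1.H74.C0d

/-!
# One window `R₀ ≤ R ≤ R₁` (helper81)
-/

set_option autoImplicit false

namespace Pool.Agent.Lib.MP_af3a4a_an.P1.CHK.H81.L

open Pool.Agent.Lib.MP_af3a4a_an.SV (uu av)
open Pool.Agent.Lib.MP_af3a4a_an.P1.H80
open Pool.Agent.Lib.MP_af3a4a_an.P1.H74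
open Pool.Agent.Lib.MP_af3a4a_an.P1.H81
open Pool.Agent.Lib.MP_af3a4a_an.P1.CHK.H58.G (Gr En)

theorem f0_of {f0 : ℕ} {κ Rk m R : ℝ} (hκ : (f0 : ℝ) / 1024 = κ) (h0 : 0 ≤ κ)
    (h : m ≤ κ * Rk → False) (hR : R ≤ Rk) : (f0 : ℝ) / 1024 * R ≤ m := by
  rw [hκ]
  by_contra hcon
  apply h
  have := mul_le_mul_of_nonneg_left hR h0
  linarith [not_le.1 hcon]

theorem win {N : ℕ} {z w : Fin N → ℂ} {R : ℝ} {σ : Fin N → ℂ} {g : Gr}
    {L : List (ℕ × ℕ × ℕ × ℕ)} {l : List En} (h : chk g L l = true) (htab : g.tab = [])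
    (hpc : g.pc = 0) (hC : Cfg2 N z w R σ) (hNa : g.Na ≤ N) (hNb : N ≤ g.Nb)
    (hR0 : (g.R0 : ℝ) / 2 ^ 10 ≤ R) (hR1 : R ≤ (g.R1 : ℝ) / 2 ^ 10) (hR4 : R ≤ 4 / 5)
    (hf0 : g.f0 = 0 ∨ (g.f0 : ℝ) / 1024 * R ≤ (av (uu w)).re)
    (hfx : (g.fx = 2048 ∧ 40 ≤ g.Na ∧ 8388608 ≤ g.Na * (g.R0 * g.R0)) ∨
      1048576 ≤ g.fx * g.R0)
    (hL : ProfL N w (max 1 R) L) : False := by
  have hw : ∀ k, 1 ≤ ‖w k‖ := hC.cfg.far
  have ht : ∑ k, ‖w k - (R : ℂ)‖ ≤ N := hC.dist.le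
  have hN1 : 1 ≤ N := by have := hC.hN; omega
  have hR := hC.hR
  have hm0 : 0 ≤ (av (uu w)).re := by
    have h1 := first_moment hN1 hw ht hR
    have : 0 ≤ R * ‖av (uu w)‖ ^ 2 := by positivity
    linarith
  have hm1 : (av (uu w)).re ≤ 1 := (Complex.re_le_norm _).trans hC.av_le
  have hfx' : (av (uu w)).re ≤ (g.fx : ℝ) / 1024 * R := by
    rcases hfx with ⟨h1, h40, h2⟩ | h2
    · rw [h1]
      by_contra hcon
      refine CHK.H58.S.big_f2 (le_trans h40 hNa) hC ?_ ?_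
      · have := not_le.1 hcon
        norm_num at this
        linarith
      · have h3 : (8388608 : ℝ) ≤ g.Na * ((g.R0 : ℝ) * g.R0) := by exact_mod_cast h2
        have h4 : (g.Na : ℝ) ≤ N := by exact_mod_cast hNa
        have h5 : ((g.R0 : ℝ) / 2 ^ 10) ^ 2 ≤ R ^ 2 :=
          pow_le_pow_left₀ (by positivity) hR0 2
        calc (8 : ℝ) = 8388608 / 2 ^ 20 := by norm_num
          _ ≤ g.Na * ((g.R0 : ℝ) * g.R0) / 2 ^ 20 := by
              apply div_le_div_of_nonneg_right h3 (by positivity)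
          _ = g.Na * ((g.R0 : ℝ) / 2 ^ 10) ^ 2 := by ring
          _ ≤ N * R ^ 2 := mul_le_mul h4 h5 (by positivity) (by positivity)
    · refine hm1.trans ?_
      have h3 : (1048576 : ℝ) ≤ (g.fx : ℝ) * g.R0 := by exact_mod_cast h2
      calc (1 : ℝ) = 1048576 / 2 ^ 20 := by norm_num
        _ ≤ (g.fx : ℝ) * g.R0 / 2 ^ 20 := by
            apply div_le_div_of_nonneg_right h3 (by positivity)
        _ = (g.fx : ℝ) / 1024 * ((g.R0 : ℝ) / 2 ^ 10) := by ring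
        _ ≤ (g.fx : ℝ) / 1024 * R := mul_le_mul_of_nonneg_left hR0 (by positivity)
  have hf0' : (g.f0 : ℝ) / 1024 * R ≤ (av (uu w)).re := by
    rcases hf0 with h1 | h1
    · rw [h1]
      simpa using hm0
    · exact h1
  refine chk_sound h htab hC hNa hNb hR0 hR1 hf0' hfx' ?_ (fun _ => hR4) ?_ hL
  · rw [hpc]
    intro x hx
    have hx0 : x = 0 := by
      have := hx.1
      have := hx.2
      norm_num at this
      linarith
    rw [hx0, qq_zero, norm_one]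
    simp
  · intro h768
    apply profW hN1 hw ht hR
    refine hR1.trans ?_
    have : (g.R1 : ℝ) ≤ 768 := by exact_mod_cast h768
    exact (div_le_div_of_nonneg_right this (by positivity)).trans (by norm_num)

end Pool.Agent.Lib.MP_af3a4a_an.P1.CHK.H81.L
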