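import Pool.Agent.Lib.MP_af3a4a_an.P1.CHK.H81.LT
/-!
# Data, `65 ≤ N ≤ 65`, `286 ≤ 1024 R ≤ 397` (helper81)
-/
set_option autoImplicit false

namespace Pool.Agent.Lib.MP_af3a4a_an.P1.CHK.H81.L

open Pool.Agent.Lib.MP_af3a4a_an.P1.CHK.H58.G (Gr En)

def g65_0 : Gr := ⟨false, 286, 294, 1024, 1024, 65, 65, 8255, 8256, 512, 3668, 0, []⟩

theorem k65_0 : chk g65_0 [] [
  ⟨1216, 120, 0, 176, 88, true, true, false, [(0, 8)], []⟩,
  ⟨1343, 120, 0, 176, 88, true, true, false, [(0, 8)], []⟩,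
  ⟨1522, 120, 0, 176, 88, true, true, false, [(0, 8)], []⟩,
  ⟨2020, 120, 0, 120, 56, true, true, false, [(0, 12)], []⟩,
  ⟨5787, 120, 0, 12, 6, true, true, false, [(0, 19)], []⟩,
  ⟨8491, 120, 0, 0, 0, true, false, false, [(0, 20)], []⟩
  ] = true := by decide +kernel

def g65_1 : Gr := ⟨false, 294, 302, 1024, 1024, 65, 65, 8255, 8256, 512, 3568, 0, []⟩

theorem k65_1 : chk g65_1 [] [
  ⟨1229, 90, 0, 192, 98, true, true, false, [(0, 10)], []⟩,
  ⟨1292, 90, 0, 192, 98, true, true, false, [(0, 10)], []⟩,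
  ⟨1471, 90, 0, 160, 78, true, true, false, [(0, 13)], []⟩,
  ⟨1824, 90, 0, 160, 78, true, true, false, [(0, 13)], []⟩,
  ⟨3189, 90, 0, 80, 36, true, true, false, [(0, 20)], []⟩,
  ⟨6940, 90, 0, 0, 0, true, false, false, [(0, 28)], []⟩,
  ⟨8485, 90, 0, 0, 0, true, false, false, [(0, 28)], []⟩
  ] = true := by decide +kernel

def g65_2 : Gr := ⟨false, 302, 308, 1024, 1024, 65, 65, 8255, 8256, 384, 3474, 0, []⟩

theorem k65_2 : chk g65_2 [] [
  ⟨922, 120, 0, 192, 98, true, true, false, [(0, 1), (3, 7)], []⟩,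
  ⟨932, 120, 0, 192, 98, true, true, false, [(0, 1), (3, 7)], []⟩,
  ⟨948, 120, 0, 192, 98, true, true, false, [(0, 1), (3, 7)], []⟩,
  ⟨964, 120, 0, 192, 98, true, true, false, [(0, 2), (3, 6)], []⟩,
  ⟨980, 120, 0, 192, 98, true, true, false, [(0, 2), (3, 6)], []⟩,
  ⟨1003, 120, 0, 192, 98, true, true, false, [(0, 2), (3, 6)], []⟩,
  ⟨1026, 120, 0, 192, 98, true, true, false, [(0, 2), (3, 6)], []⟩,
  ⟨1049, 120, 0, 192, 98, true, true, false, [(0, 2), (3, 6)], []⟩,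
  ⟨1072, 120, 0, 192, 98, true, true, false, [(0, 2), (3, 6)], []⟩,
  ⟨1105, 120, 0, 192, 98, true, true, false, [(0, 2), (3, 6)], []⟩,
  ⟨1138, 120, 0, 192, 98, true, true, false, [(0, 3), (3, 5)], []⟩,
  ⟨1161, 120, 0, 192, 98, true, true, false, [(0, 3), (3, 5)], []⟩,
  ⟨1184, 120, 0, 192, 98, true, true, false, [(0, 4), (3, 4)], []⟩,
  ⟨1207, 120, 0, 192, 98, true, true, false, [(0, 6), (3, 2)], []⟩,
  ⟨1255, 120, 0, 192, 98, true, true, false, [(0, 8)], []⟩,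
  ⟨1353, 120, 0, 176, 88, true, true, false, [(0, 9)], []⟩,
  ⟨1626, 120, 0, 160, 78, true, true, false, [(0, 10)], []⟩,
  ⟨2165, 120, 0, 120, 56, true, true, false, [(0, 13)], []⟩,
  ⟨5075, 120, 0, 0, 0, true, false, false, [(0, 21)], []⟩,
  ⟨7985, 120, 0, 0, 0, true, false, false, [(0, 21)], []⟩,
  ⟨8425, 120, 0, 0, 0, true, false, false, [(0, 21)], []⟩
  ] = true := by decide +kernel

def g65_3 : Gr := ⟨false, 307, 313, 1024, 1024, 65, 65, 8255, 8256, 384, 3417, 0, []⟩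

theorem k65_3 : chk g65_3 T300 [
  ⟨959, 90, 0, 192, 98, true, true, false, [(0, 1), (3, 10)], []⟩,
  ⟨1003, 90, 0, 192, 98, true, true, false, [(0, 2), (3, 9)], []⟩,
  ⟨1047, 90, 0, 192, 98, true, true, false, [(0, 2), (3, 9)], []⟩,
  ⟨1091, 90, 0, 192, 98, true, true, false, [(0, 2), (3, 9)], []⟩,
  ⟨1135, 90, 0, 192, 98, true, true, false, [(0, 2), (3, 9)], []⟩,
  ⟨1179, 90, 0, 192, 98, true, true, false, [(0, 3), (3, 8)], []⟩,
  ⟨1223, 90, 0, 192, 98, true, true, false, [(0, 5), (3, 6)], []⟩,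
  ⟨1286, 90, 0, 192, 98, true, true, false, [(0, 11)], []⟩,
  ⟨1376, 90, 0, 192, 98, true, true, false, [(0, 11)], []⟩,
  ⟨1628, 90, 0, 160, 78, true, true, false, [(0, 14)], []⟩,
  ⟨2325, 90, 0, 128, 60, true, true, false, [(0, 17)], []⟩,
  ⟨6085, 90, 0, 2, 1, true, true, false, [(0, 28)], []⟩,
  ⟨8421, 90, 0, 0, 0, true, false, false, [(0, 29)], []⟩
  ] = true := by decide +kernel

def g65_4 : Gr := ⟨false, 313, 317, 1024, 1024, 65, 65, 8255, 8256, 384, 3352, 0, []⟩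

theorem k65_4 : chk g65_4 T300 [
  ⟨967, 120, 0, 208, 109, true, true, false, [(0, 1), (3, 7)], []⟩,
  ⟨988, 120, 0, 208, 109, true, true, false, [(0, 2), (3, 6)], []⟩,
  ⟨1009, 120, 0, 208, 109, true, true, false, [(0, 2), (3, 6)], []⟩,
  ⟨1030, 120, 0, 208, 109, true, true, false, [(0, 2), (3, 6)], []⟩,
  ⟨1051, 120, 0, 208, 109, true, true, false, [(0, 2), (3, 6)], []⟩,
  ⟨1072, 120, 0, 208, 109, true, true, false, [(0, 2), (3, 6)], []⟩,
  ⟨1093, 120, 0, 208, 109, true, true, false, [(0, 2), (3, 6)], []⟩,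
  ⟨1108, 120, 0, 208, 109, true, true, false, [(0, 2), (3, 6)], []⟩,
  ⟨1123, 120, 0, 192, 98, true, true, false, [(0, 2), (3, 7)], []⟩,
  ⟨1138, 120, 0, 192, 98, true, true, false, [(0, 2), (3, 7)], []⟩,
  ⟨1153, 120, 0, 192, 98, true, true, false, [(0, 2), (3, 7)], []⟩,
  ⟨1168, 120, 0, 192, 98, true, true, false, [(0, 3), (3, 6)], []⟩,
  ⟨1183, 120, 0, 192, 98, true, true, false, [(0, 3), (3, 6)], []⟩,
  ⟨1198, 120, 0, 192, 98, true, true, false, [(0, 3), (3, 6)], []⟩,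
  ⟨1213, 120, 0, 192, 98, true, true, false, [(0, 4), (3, 5)], []⟩,
  ⟨1228, 120, 0, 192, 98, true, true, false, [(0, 5), (3, 4)], []⟩,
  ⟨1243, 120, 0, 192, 98, true, true, false, [(0, 6), (3, 3)], []⟩,
  ⟨1275, 120, 0, 192, 98, true, true, false, [(0, 9)], []⟩,
  ⟨1341, 120, 0, 192, 98, true, true, false, [(0, 9)], []⟩,
  ⟨1473, 120, 0, 176, 88, true, true, false, [(0, 10)], []⟩,
  ⟨1839, 120, 0, 160, 78, true, true, false, [(0, 11)], []⟩,
  ⟨2849, 120, 0, 96, 44, true, true, false, [(0, 15)], []⟩,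
  ⟨6737, 120, 0, 0, 0, true, false, false, [(0, 22)], []⟩,
  ⟨8367, 120, 0, 0, 0, true, false, false, [(0, 22)], []⟩
  ] = true := by decide +kernel

def g65_5 : Gr := ⟨false, 317, 323, 1024, 1024, 65, 65, 8255, 8256, 256, 3309, 0, []⟩

theorem k65_5 : chk g65_5 T300 [
  ⟨659, 36, 0, 208, 109, true, true, false, [(0, 1), (3, 25)], []⟩,
  ⟨680, 36, 0, 208, 109, true, true, false, [(0, 1), (3, 25)], []⟩,
  ⟨711, 36, 0, 208, 109, true, true, false, [(0, 1), (3, 25)], []⟩,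
  ⟨742, 36, 0, 208, 109, true, true, false, [(0, 1), (3, 25)], []⟩,
  ⟨787, 36, 0, 208, 109, true, true, false, [(0, 1), (3, 25)], []⟩,
  ⟨832, 36, 0, 208, 109, true, true, false, [(0, 1), (3, 25)], []⟩,
  ⟨877, 36, 0, 208, 109, true, true, false, [(0, 1), (3, 25)], []⟩,
  ⟨941, 36, 0, 208, 109, true, true, false, [(0, 1), (3, 25)], []⟩,
  ⟨1005, 36, 0, 208, 109, true, true, false, [(0, 1), (3, 25)], []⟩,
  ⟨1069, 36, 0, 208, 109, true, true, false, [(0, 2), (3, 24)], []⟩,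
  ⟨1114, 36, 0, 208, 109, true, true, false, [(0, 2), (3, 24)], []⟩,
  ⟨1145, 36, 0, 192, 98, true, true, false, [(0, 2), (3, 28)], []⟩,
  ⟨1176, 36, 0, 192, 98, true, true, false, [(0, 3), (3, 27)], []⟩,
  ⟨1207, 36, 0, 192, 98, true, true, false, [(0, 3), (3, 27)], []⟩,
  ⟨1238, 36, 0, 192, 98, true, true, false, [(0, 4), (3, 26)], []⟩,
  ⟨1269, 36, 0, 192, 98, true, true, false, [(0, 8), (3, 22)], []⟩,
  ⟨1314, 36, 0, 192, 98, true, true, false, [(0, 30)], []⟩,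
  ⟨1442, 36, 0, 176, 88, true, true, false, [(0, 33)], []⟩,
  ⟨1696, 36, 0, 160, 78, true, true, false, [(0, 37)], []⟩,
  ⟨2399, 36, 0, 128, 60, true, true, false, [(0, 44)], []⟩,
  ⟨6191, 36, 0, 0, 0, true, false, false, [(0, 73)], []⟩,
  ⟨8416, 36, 0, 0, 0, true, false, false, [(0, 73)], []⟩
  ] = true := by decide +kernel

def g65_6 : Gr := ⟨false, 323, 329, 1024, 1024, 65, 65, 8255, 8256, 256, 3248, 0, []⟩

theorem k65_6 : chk g65_6 T300 [
  ⟨665, 70, 0, 208, 109, true, true, false, [(0, 1), (3, 13)], []⟩,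
  ⟨687, 70, 0, 208, 109, true, true, false, [(0, 1), (3, 13)], []⟩,
  ⟨709, 70, 0, 208, 109, true, true, false, [(0, 1), (3, 13)], []⟩,
  ⟨741, 70, 0, 208, 109, true, true, false, [(0, 1), (3, 13)], []⟩,
  ⟨773, 70, 0, 208, 109, true, true, false, [(0, 1), (3, 13)], []⟩,
  ⟨819, 70, 0, 208, 109, true, true, false, [(0, 1), (3, 13)], []⟩,
  ⟨865, 70, 0, 208, 109, true, true, false, [(0, 1), (3, 13)], []⟩,
  ⟨911, 70, 0, 208, 109, true, true, false, [(0, 1), (3, 13)], []⟩,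
  ⟨977, 70, 0, 208, 109, true, true, false, [(0, 1), (3, 13)], []⟩,
  ⟨1043, 70, 0, 208, 109, true, true, false, [(0, 2), (3, 12)], []⟩,
  ⟨1089, 70, 0, 208, 109, true, true, false, [(0, 2), (3, 12)], []⟩,
  ⟨1135, 70, 0, 208, 109, true, true, false, [(0, 2), (3, 12)], []⟩,
  ⟨1181, 70, 0, 192, 98, true, true, false, [(0, 2), (3, 14)], []⟩,
  ⟨1227, 70, 0, 192, 98, true, true, false, [(0, 3), (3, 13)], []⟩,
  ⟨1273, 70, 0, 192, 98, true, true, false, [(0, 4), (3, 12)], []⟩,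
  ⟨1319, 70, 0, 192, 98, true, true, false, [(0, 16)], []⟩,
  ⟨1412, 70, 0, 192, 98, true, true, false, [(0, 16)], []⟩,
  ⟨1596, 70, 0, 176, 88, true, true, false, [(0, 18)], []⟩,
  ⟨1960, 70, 0, 144, 69, true, true, false, [(0, 22)], []⟩,
  ⟨3368, 70, 0, 72, 32, true, true, false, [(0, 30)], []⟩,
  ⟨7238, 70, 0, 0, 0, true, false, false, [(0, 38)], []⟩,
  ⟨8414, 70, 0, 0, 0, true, false, false, [(0, 38)], []⟩
  ] = true := by decide +kernel

def g65_7 : Gr := ⟨false, 329, 333, 1024, 1024, 65, 65, 8255, 8256, 256, 3189, 0, []⟩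

theorem k65_7 : chk g65_7 T300 [
  ⟨678, 90, 0, 224, 120, true, true, false, [(0, 1), (3, 9)], []⟩,
  ⟨693, 90, 0, 224, 120, true, true, false, [(0, 1), (3, 9)], []⟩,
  ⟨715, 90, 0, 224, 120, true, true, false, [(0, 1), (3, 9)], []⟩,
  ⟨737, 90, 0, 224, 120, true, true, false, [(0, 1), (3, 9)], []⟩,
  ⟨769, 90, 0, 224, 120, true, true, false, [(0, 1), (3, 9)], []⟩,
  ⟨801, 90, 0, 224, 120, true, true, false, [(0, 1), (3, 9)], []⟩,
  ⟨833, 90, 0, 224, 120, true, true, false, [(0, 1), (3, 9)], []⟩,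
  ⟨865, 90, 0, 224, 120, true, true, false, [(0, 1), (3, 9)], []⟩,
  ⟨897, 90, 0, 224, 120, true, true, false, [(0, 1), (3, 9)], []⟩,
  ⟨929, 90, 0, 224, 120, true, true, false, [(0, 1), (3, 9)], []⟩,
  ⟨951, 90, 0, 224, 120, true, true, false, [(0, 1), (3, 9)], []⟩,
  ⟨973, 90, 0, 224, 120, true, true, false, [(0, 1), (3, 9)], []⟩,
  ⟨995, 90, 0, 224, 120, true, true, false, [(0, 1), (3, 9)], []⟩,
  ⟨1010, 90, 0, 224, 120, true, true, false, [(0, 1), (3, 9)], []⟩,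
  ⟨1025, 90, 0, 192, 98, true, true, false, [(0, 2), (3, 11)], []⟩,
  ⟨1040, 90, 0, 192, 98, true, true, false, [(0, 2), (3, 11)], []⟩,
  ⟨1063, 90, 0, 192, 98, true, true, false, [(0, 2), (3, 11)], []⟩,
  ⟨1086, 90, 0, 192, 98, true, true, false, [(0, 2), (3, 11)], []⟩,
  ⟨1109, 90, 0, 192, 98, true, true, false, [(0, 2), (3, 11)], []⟩,
  ⟨1142, 90, 0, 192, 98, true, true, false, [(0, 2), (3, 11)], []⟩,
  ⟨1175, 90, 0, 192, 98, true, true, false, [(0, 2), (3, 11)], []⟩,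
  ⟨1208, 90, 0, 192, 98, true, true, false, [(0, 2), (3, 11)], []⟩,
  ⟨1241, 90, 0, 192, 98, true, true, false, [(0, 3), (3, 10)], []⟩,
  ⟨1274, 90, 0, 192, 98, true, true, false, [(0, 4), (3, 9)], []⟩,
  ⟨1307, 90, 0, 192, 98, true, true, false, [(0, 5), (3, 8)], []⟩,
  ⟨1355, 90, 0, 192, 98, true, true, false, [(0, 13)], []⟩,
  ⟨1451, 90, 0, 192, 98, true, true, false, [(0, 13)], []⟩,
  ⟨1587, 90, 0, 192, 98, true, true, false, [(0, 13)], []⟩,
  ⟨1965, 90, 0, 144, 69, true, true, false, [(0, 17)], []⟩,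
  ⟨3007, 90, 0, 88, 40, true, true, false, [(0, 22)], []⟩,
  ⟨5872, 90, 0, 0, 0, true, false, false, [(0, 30)], []⟩,
  ⟨8362, 90, 0, 0, 0, true, false, false, [(0, 30)], []⟩
  ] = true := by decide +kernel

def g65_8 : Gr := ⟨false, 332, 336, 1024, 1024, 65, 65, 8255, 8256, 256, 3160, 0, []⟩

theorem k65_8 : chk g65_8 T325 [
  ⟨713, 70, 0, 224, 120, true, true, false, [(0, 1), (3, 12)], []⟩,
  ⟨757, 70, 0, 224, 120, true, true, false, [(0, 1), (3, 12)], []⟩,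
  ⟨801, 70, 0, 224, 120, true, true, false, [(0, 1), (3, 12)], []⟩,
  ⟨845, 70, 0, 224, 120, true, true, false, [(0, 1), (3, 12)], []⟩,
  ⟨908, 70, 0, 208, 109, true, true, false, [(0, 1), (3, 14)], []⟩,
  ⟨971, 70, 0, 208, 109, true, true, false, [(0, 1), (3, 14)], []⟩,
  ⟨1034, 70, 0, 208, 109, true, true, false, [(0, 1), (3, 14)], []⟩,
  ⟨1097, 70, 0, 208, 109, true, true, false, [(0, 2), (3, 13)], []⟩,
  ⟨1160, 70, 0, 208, 109, true, true, false, [(0, 2), (3, 13)], []⟩,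
  ⟨1223, 70, 0, 208, 109, true, true, false, [(0, 2), (3, 13)], []⟩,
  ⟨1267, 70, 0, 208, 109, true, true, false, [(0, 3), (3, 12)], []⟩,
  ⟨1311, 70, 0, 192, 98, true, true, false, [(0, 4), (3, 13)], []⟩,
  ⟨1355, 70, 0, 192, 98, true, true, false, [(0, 17)], []⟩,
  ⟨1444, 70, 0, 192, 98, true, true, false, [(0, 17)], []⟩,
  ⟨1622, 70, 0, 176, 88, true, true, false, [(0, 19)], []⟩,
  ⟨1974, 70, 0, 160, 78, true, true, false, [(0, 21)], []⟩,
  ⟨3334, 70, 0, 80, 36, true, true, false, [(0, 30)], []⟩,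
  ⟨7070, 70, 0, 0, 0, true, false, false, [(0, 39)], []⟩,
  ⟨8360, 70, 0, 0, 0, true, false, false, [(0, 39)], []⟩
  ] = true := by decide +kernel

def g65_9 : Gr := ⟨false, 336, 340, 1024, 1024, 65, 65, 8255, 8256, 128, 3122, 0, []⟩

theorem k65_9 : chk g65_9 T325 [
  ⟨465, 50, 650, 80, 204, false, true, false, [(0, 1), (3, 22), (8, 1), (3, 18)], []⟩,
  ⟨527, 50, 450, 192, 98, false, true, false, [(0, 1), (3, 23)], []⟩,
  ⟨570, 50, 450, 192, 98, false, true, false, [(0, 1), (3, 23)], []⟩,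
  ⟨613, 50, 450, 192, 98, false, true, false, [(0, 1), (3, 23)], []⟩,
  ⟨656, 50, 0, 224, 120, true, true, false, [(0, 1), (3, 18)], []⟩,
  ⟨718, 50, 0, 224, 120, true, true, false, [(0, 1), (3, 18)], []⟩,
  ⟨780, 50, 0, 224, 120, true, true, false, [(0, 1), (3, 18)], []⟩,
  ⟨842, 50, 0, 224, 120, true, true, false, [(0, 1), (3, 18)], []⟩,
  ⟨904, 50, 0, 224, 120, true, true, false, [(0, 1), (3, 18)], []⟩,
  ⟨966, 50, 0, 224, 120, true, true, false, [(0, 1), (3, 18)], []⟩,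
  ⟨1028, 50, 0, 224, 120, true, true, false, [(0, 1), (3, 18)], []⟩,
  ⟨1071, 50, 0, 208, 109, true, true, false, [(0, 2), (3, 20)], []⟩,
  ⟨1114, 50, 0, 192, 98, true, true, false, [(0, 2), (3, 22)], []⟩,
  ⟨1176, 50, 0, 192, 98, true, true, false, [(0, 2), (3, 22)], []⟩,
  ⟨1238, 50, 0, 192, 98, true, true, false, [(0, 2), (3, 22)], []⟩,
  ⟨1300, 50, 0, 192, 98, true, true, false, [(0, 3), (3, 21)], []⟩,
  ⟨1343, 50, 0, 192, 98, true, true, false, [(0, 6), (3, 18)], []⟩,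
  ⟨1430, 50, 0, 192, 98, true, true, false, [(0, 24)], []⟩,
  ⟨1553, 50, 0, 192, 98, true, true, false, [(0, 24)], []⟩,
  ⟨1797, 50, 0, 160, 78, true, true, false, [(0, 30)], []⟩,
  ⟨2473, 50, 0, 120, 56, true, true, false, [(0, 36)], []⟩,
  ⟨6121, 50, 0, 0, 0, true, false, false, [(0, 55)], []⟩,
  ⟨8358, 50, 0, 0, 0, true, false, false, [(0, 55)], []⟩
  ] = true := by decide +kernel

def g65_10 : Gr := ⟨false, 340, 345, 1024, 1024, 65, 65, 8255, 8256, 128, 3086, 0, []⟩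

theorem k65_10 : chk g65_10 T325 [
  ⟨469, 70, 630, 88, 200, false, false, false, [(0, 1), (3, 29)], []⟩,
  ⟨531, 70, 420, 208, 109, false, true, false, [(0, 1), (3, 15)], []⟩,
  ⟨574, 70, 420, 208, 109, false, true, false, [(0, 1), (3, 15)], []⟩,
  ⟨604, 70, 420, 208, 109, false, true, false, [(0, 1), (3, 15)], []⟩,
  ⟨625, 70, 420, 208, 109, false, true, false, [(0, 1), (3, 15)], []⟩,
  ⟨646, 70, 0, 224, 120, true, true, false, [(0, 1), (3, 13)], []⟩,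
  ⟨677, 70, 0, 224, 120, true, true, false, [(0, 1), (3, 13)], []⟩,
  ⟨708, 70, 0, 224, 120, true, true, false, [(0, 1), (3, 13)], []⟩,
  ⟨752, 70, 0, 224, 120, true, true, false, [(0, 1), (3, 13)], []⟩,
  ⟨796, 70, 0, 224, 120, true, true, false, [(0, 1), (3, 13)], []⟩,
  ⟨859, 70, 0, 224, 120, true, true, false, [(0, 1), (3, 13)], []⟩,
  ⟨922, 70, 0, 224, 120, true, true, false, [(0, 1), (3, 13)], []⟩,
  ⟨985, 70, 0, 224, 120, true, true, false, [(0, 1), (3, 13)], []⟩,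
  ⟨1048, 70, 0, 208, 109, true, true, false, [(0, 1), (3, 15)], []⟩,
  ⟨1111, 70, 0, 208, 109, true, true, false, [(0, 2), (3, 14)], []⟩,
  ⟨1174, 70, 0, 208, 109, true, true, false, [(0, 2), (3, 14)], []⟩,
  ⟨1218, 70, 0, 208, 109, true, true, false, [(0, 2), (3, 14)], []⟩,
  ⟨1262, 70, 0, 208, 109, true, true, false, [(0, 3), (3, 13)], []⟩,
  ⟨1306, 70, 0, 208, 109, true, true, false, [(0, 3), (3, 13)], []⟩,
  ⟨1337, 70, 0, 208, 109, true, true, false, [(0, 5), (3, 11)], []⟩,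
  ⟨1358, 70, 0, 192, 98, true, true, false, [(0, 9), (3, 9)], []⟩,
  ⟨1389, 70, 0, 192, 98, true, true, false, [(0, 18)], []⟩,
  ⟨1479, 70, 0, 192, 98, true, true, false, [(0, 18)], []⟩,
  ⟨1606, 70, 0, 192, 98, true, true, false, [(0, 18)], []⟩,
  ⟨1960, 70, 0, 160, 78, true, true, false, [(0, 22)], []⟩,
  ⟨2938, 70, 0, 96, 44, true, true, false, [(0, 29)], []⟩,
  ⟨6703, 70, 0, 0, 0, true, false, false, [(0, 40)], []⟩,
  ⟨8383, 70, 0, 0, 0, true, false, false, [(0, 40)], []⟩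
  ] = true := by decide +kernel

def g65_11 : Gr := ⟨false, 345, 350, 1024, 1024, 65, 65, 8255, 8256, 128, 3041, 0, []⟩

theorem k65_11 : chk g65_11 T325 [
  ⟨474, 50, 650, 96, 196, false, true, false, [(0, 1), (3, 40)], []⟩,
  ⟨536, 50, 650, 96, 192, false, false, false, [(0, 1), (3, 40)], []⟩,
  ⟨598, 50, 450, 208, 109, false, true, false, [(0, 1), (3, 22)], []⟩,
  ⟨641, 50, 450, 208, 109, false, true, false, [(0, 1), (3, 22)], []⟩,
  ⟨671, 50, 400, 208, 109, false, true, false, [(0, 1), (3, 22)], []⟩,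
  ⟨692, 50, 400, 208, 109, false, true, false, [(0, 1), (3, 22)], []⟩,
  ⟨713, 50, 0, 208, 109, true, true, false, [(0, 1), (3, 22)], []⟩,
  ⟨734, 50, 0, 208, 109, true, true, false, [(0, 1), (3, 22)], []⟩,
  ⟨765, 50, 0, 208, 109, true, true, false, [(0, 1), (3, 22)], []⟩,
  ⟨796, 50, 0, 208, 109, true, true, false, [(0, 1), (3, 22)], []⟩,
  ⟨840, 50, 0, 208, 109, true, true, false, [(0, 1), (3, 22)], []⟩,
  ⟨884, 50, 0, 208, 109, true, true, false, [(0, 1), (3, 22)], []⟩,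
  ⟨947, 50, 0, 208, 109, true, true, false, [(0, 1), (3, 22)], []⟩,
  ⟨1010, 50, 0, 208, 109, true, true, false, [(0, 1), (3, 22)], []⟩,
  ⟨1073, 50, 0, 208, 109, true, true, false, [(0, 1), (3, 22)], []⟩,
  ⟨1136, 50, 0, 208, 109, true, true, false, [(0, 2), (3, 21)], []⟩,
  ⟨1199, 50, 0, 208, 109, true, true, false, [(0, 2), (3, 21)], []⟩,
  ⟨1262, 50, 0, 208, 109, true, true, false, [(0, 2), (3, 21)], []⟩,
  ⟨1306, 50, 0, 208, 109, true, true, false, [(0, 3), (3, 20)], []⟩,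
  ⟨1350, 50, 0, 208, 109, true, true, false, [(0, 4), (3, 19)], []⟩,
  ⟨1381, 50, 0, 208, 109, true, true, false, [(0, 9), (3, 14)], []⟩,
  ⟨1412, 50, 0, 208, 109, true, true, false, [(0, 23)], []⟩,
  ⟨1475, 50, 0, 192, 98, true, true, false, [(0, 26)], []⟩,
  ⟨1601, 50, 0, 192, 98, true, true, false, [(0, 26)], []⟩,
  ⟨1951, 50, 0, 160, 78, true, true, false, [(0, 31)], []⟩,
  ⟨2918, 50, 0, 96, 44, true, true, false, [(0, 41)], []⟩,
  ⟨6640, 50, 0, 0, 0, true, false, false, [(0, 57)], []⟩,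
  ⟨8381, 50, 0, 0, 0, true, false, false, [(0, 57)], []⟩
  ] = true := by decide +kernel

def g65_12 : Gr := ⟨false, 350, 354, 1024, 1024, 65, 65, 8255, 8256, 128, 2997, 0, []⟩

theorem k65_12 : chk g65_12 T325 [
  ⟨479, 70, 630, 88, 208, false, false, false, [(0, 1), (3, 30)], []⟩,
  ⟨541, 70, 630, 88, 200, false, false, false, [(0, 1), (3, 30)], []⟩,
  ⟨584, 70, 420, 208, 109, false, true, false, [(0, 1), (3, 16)], []⟩,
  ⟨627, 70, 420, 208, 109, false, true, false, [(0, 1), (3, 16)], []⟩,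
  ⟨657, 70, 420, 208, 109, false, true, false, [(0, 1), (3, 16)], []⟩,
  ⟨687, 70, 0, 224, 120, true, true, false, [(0, 1), (3, 14)], []⟩,
  ⟨730, 70, 0, 224, 120, true, true, false, [(0, 1), (3, 14)], []⟩,
  ⟨773, 70, 0, 224, 120, true, true, false, [(0, 1), (3, 14)], []⟩,
  ⟨835, 70, 0, 224, 120, true, true, false, [(0, 1), (3, 14)], []⟩,
  ⟨897, 70, 0, 224, 120, true, true, false, [(0, 1), (3, 14)], []⟩,
  ⟨959, 70, 0, 224, 120, true, true, false, [(0, 1), (3, 14)], []⟩,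
  ⟨1021, 70, 0, 224, 120, true, true, false, [(0, 1), (3, 14)], []⟩,
  ⟨1083, 70, 0, 224, 120, true, true, false, [(0, 1), (3, 14)], []⟩,
  ⟨1145, 70, 0, 208, 109, true, true, false, [(0, 2), (3, 15)], []⟩,
  ⟨1207, 70, 0, 208, 109, true, true, false, [(0, 2), (3, 15)], []⟩,
  ⟨1269, 70, 0, 208, 109, true, true, false, [(0, 2), (3, 15)], []⟩,
  ⟨1312, 70, 0, 208, 109, true, true, false, [(0, 3), (3, 14)], []⟩,
  ⟨1355, 70, 0, 208, 109, true, true, false, [(0, 4), (3, 13)], []⟩,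
  ⟨1385, 70, 0, 208, 109, true, true, false, [(0, 6), (3, 11)], []⟩,
  ⟨1406, 70, 0, 208, 109, true, true, false, [(0, 13), (3, 4)], []⟩,
  ⟨1450, 70, 0, 192, 98, true, true, false, [(0, 19)], []⟩,
  ⟨1539, 70, 0, 192, 98, true, true, false, [(0, 19)], []⟩,
  ⟨1716, 70, 0, 176, 88, true, true, false, [(0, 21)], []⟩,
  ⟨2067, 70, 0, 160, 78, true, true, false, [(0, 23)], []⟩,
  ⟨3422, 70, 0, 72, 32, true, true, false, [(0, 33)], []⟩,
  ⟨7146, 70, 0, 0, 0, true, false, false, [(0, 41)], []⟩,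
  ⟨8354, 70, 0, 0, 0, true, false, false, [(0, 41)], []⟩
  ] = true := by decide +kernel

def g65_13 : Gr := ⟨false, 354, 357, 1024, 1024, 65, 65, 8255, 8256, 128, 2964, 0, []⟩

theorem k65_13 : chk g65_13 T325 [
  ⟨483, 90, 630, 80, 220, false, true, false, [(0, 1), (3, 24)], []⟩,
  ⟨545, 90, 630, 80, 212, false, true, false, [(0, 1), (3, 24)], []⟩,
  ⟨588, 90, 450, 208, 109, false, true, false, [(0, 1), (3, 13)], []⟩,
  ⟨618, 90, 450, 208, 109, false, true, false, [(0, 1), (3, 13)], []⟩,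
  ⟨648, 90, 450, 208, 109, false, true, false, [(0, 1), (3, 13)], []⟩,
  ⟨669, 90, 450, 208, 109, false, true, false, [(0, 1), (3, 13)], []⟩,
  ⟨684, 90, 0, 224, 120, true, true, false, [(0, 1), (3, 11)], []⟩,
  ⟨706, 90, 0, 224, 120, true, true, false, [(0, 1), (3, 11)], []⟩,
  ⟨737, 90, 0, 224, 120, true, true, false, [(0, 1), (3, 11)], []⟩,
  ⟨768, 90, 0, 224, 120, true, true, false, [(0, 1), (3, 11)], []⟩,
  ⟨813, 90, 0, 224, 120, true, true, false, [(0, 1), (3, 11)], []⟩,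
  ⟨858, 90, 0, 224, 120, true, true, false, [(0, 1), (3, 11)], []⟩,
  ⟨922, 90, 0, 224, 120, true, true, false, [(0, 1), (3, 11)], []⟩,
  ⟨986, 90, 0, 224, 120, true, true, false, [(0, 1), (3, 11)], []⟩,
  ⟨1050, 90, 0, 224, 120, true, true, false, [(0, 1), (3, 11)], []⟩,
  ⟨1114, 90, 0, 224, 120, true, true, false, [(0, 2), (3, 10)], []⟩,
  ⟨1159, 90, 0, 224, 120, true, true, false, [(0, 2), (3, 10)], []⟩,
  ⟨1204, 90, 0, 224, 120, true, true, false, [(0, 2), (3, 10)], []⟩,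
  ⟨1235, 90, 0, 208, 109, true, true, false, [(0, 2), (3, 12)], []⟩,
  ⟨1266, 90, 0, 208, 109, true, true, false, [(0, 2), (3, 12)], []⟩,
  ⟨1297, 90, 0, 208, 109, true, true, false, [(0, 3), (3, 11)], []⟩,
  ⟨1328, 90, 0, 208, 109, true, true, false, [(0, 3), (3, 11)], []⟩,
  ⟨1350, 90, 0, 208, 109, true, true, false, [(0, 3), (3, 11)], []⟩,
  ⟨1372, 90, 0, 208, 109, true, true, false, [(0, 4), (3, 10)], []⟩,
  ⟨1387, 90, 0, 192, 98, true, true, false, [(0, 5), (3, 10)], []⟩,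
  ⟨1402, 90, 0, 192, 98, true, true, false, [(0, 7), (3, 8)], []⟩,
  ⟨1417, 90, 0, 192, 98, true, true, false, [(0, 11), (3, 4)], []⟩,
  ⟨1464, 90, 0, 192, 98, true, true, false, [(0, 15)], []⟩,
  ⟨1558, 90, 0, 192, 98, true, true, false, [(0, 15)], []⟩,
  ⟨1746, 90, 0, 192, 98, true, true, false, [(0, 15)], []⟩,
  ⟨2117, 90, 0, 160, 78, true, true, false, [(0, 18)], []⟩,
  ⟨3549, 90, 0, 56, 25, true, true, false, [(0, 27)], []⟩,
  ⟨7483, 90, 0, 0, 0, true, false, false, [(0, 32)], []⟩,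
  ⟨8332, 90, 0, 0, 0, true, false, false, [(0, 32)], []⟩
  ] = true := by decide +kernel

def g65_14 : Gr := ⟨false, 357, 359, 1024, 1024, 65, 65, 8255, 8256, 0, 2939, 0, []⟩

theorem k65_14 : chk g65_14 T325 [
  ⟨355, 90, 720, 36, 272, false, true, false, [(0, 1), (3, 4), (15, 3), (6, 1), (7, 2), (8, 2), (9, 3), (3, 13)], []⟩,
  ⟨476, 90, 630, 80, 220, false, true, false, [(0, 1), (3, 24)], []⟩,
  ⟨561, 90, 630, 80, 212, false, true, false, [(0, 1), (3, 24)], []⟩,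
  ⟨602, 90, 450, 208, 109, false, true, false, [(0, 1), (3, 13)], []⟩,
  ⟨643, 90, 450, 208, 109, false, true, false, [(0, 1), (3, 13)], []⟩,
  ⟨672, 90, 450, 208, 109, false, true, false, [(0, 1), (3, 13)], []⟩,
  ⟨701, 90, 0, 240, 132, true, true, false, [(0, 1), (3, 10)], []⟩,
  ⟨730, 90, 0, 240, 132, true, true, false, [(0, 1), (3, 10)], []⟩,
  ⟨759, 90, 0, 240, 132, true, true, false, [(0, 1), (3, 10)], []⟩,
  ⟨800, 90, 0, 240, 132, true, true, false, [(0, 1), (3, 10)], []⟩,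
  ⟨841, 90, 0, 240, 132, true, true, false, [(0, 1), (3, 10)], []⟩,
  ⟨882, 90, 0, 240, 132, true, true, false, [(0, 1), (3, 10)], []⟩,
  ⟨911, 90, 0, 240, 132, true, true, false, [(0, 1), (3, 10)], []⟩,
  ⟨940, 90, 0, 240, 132, true, true, false, [(0, 1), (3, 10)], []⟩,
  ⟨969, 90, 0, 240, 132, true, true, false, [(0, 1), (3, 10)], []⟩,
  ⟨998, 90, 0, 208, 109, true, true, false, [(0, 1), (3, 13)], []⟩,
  ⟨1027, 90, 0, 208, 109, true, true, false, [(0, 1), (3, 13)], []⟩,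
  ⟨1069, 90, 0, 208, 109, true, true, false, [(0, 1), (3, 13)], []⟩,
  ⟨1111, 90, 0, 208, 109, true, true, false, [(0, 2), (3, 12)], []⟩,
  ⟨1153, 90, 0, 208, 109, true, true, false, [(0, 2), (3, 12)], []⟩,
  ⟨1195, 90, 0, 208, 109, true, true, false, [(0, 2), (3, 12)], []⟩,
  ⟨1237, 90, 0, 208, 109, true, true, false, [(0, 2), (3, 12)], []⟩,
  ⟨1279, 90, 0, 208, 109, true, true, false, [(0, 2), (3, 12)], []⟩,
  ⟨1321, 90, 0, 208, 109, true, true, false, [(0, 3), (3, 11)], []⟩,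
  ⟨1363, 90, 0, 208, 109, true, true, false, [(0, 3), (3, 11)], []⟩,
  ⟨1392, 90, 0, 192, 98, true, true, false, [(0, 4), (3, 11)], []⟩,
  ⟨1421, 90, 0, 192, 98, true, true, false, [(0, 7), (3, 8)], []⟩,
  ⟨1481, 90, 0, 192, 98, true, true, false, [(0, 15)], []⟩,
  ⟨1601, 90, 0, 192, 98, true, true, false, [(0, 15)], []⟩,
  ⟨1839, 90, 0, 176, 88, true, true, false, [(0, 17)], []⟩,
  ⟨2497, 90, 0, 128, 60, true, true, false, [(0, 21)], []⟩,
  ⟨6047, 90, 0, 0, 0, true, false, false, [(0, 33)], []⟩,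
  ⟨8308, 90, 0, 0, 0, true, false, false, [(0, 33)], []⟩
  ] = true := by decide +kernel

def g65_15 : Gr := ⟨false, 358, 362, 1024, 1024, 65, 65, 8255, 8256, 0, 2930, 0, []⟩

theorem k65_15 : chk g65_15 T350 [
  ⟨355, 90, 720, 16, 288, false, false, false, [(0, 1), (3, 4), (18, 3), (8, 1), (9, 2), (10, 2), (11, 3), (12, 2), (3, 13)], []⟩,
  ⟨476, 90, 630, 72, 232, false, false, false, [(0, 1), (3, 13), (11, 2), (3, 10)], []⟩,
  ⟨561, 90, 630, 96, 200, false, false, false, [(0, 1), (3, 14), (11, 1), (3, 8)], []⟩,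
  ⟨602, 90, 450, 208, 109, false, true, false, [(0, 1), (3, 13)], []⟩,
  ⟨643, 90, 450, 208, 109, false, true, false, [(0, 1), (3, 13)], []⟩,
  ⟨672, 90, 450, 208, 109, false, true, false, [(0, 1), (3, 13)], []⟩,
  ⟨692, 90, 0, 240, 132, true, true, false, [(0, 1), (3, 10)], []⟩,
  ⟨712, 90, 0, 240, 132, true, true, false, [(0, 1), (3, 10)], []⟩,
  ⟨741, 90, 0, 240, 132, true, true, false, [(0, 1), (3, 10)], []⟩,
  ⟨770, 90, 0, 240, 132, true, true, false, [(0, 1), (3, 10)], []⟩,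
  ⟨799, 90, 0, 240, 132, true, true, false, [(0, 1), (3, 10)], []⟩,
  ⟨828, 90, 0, 240, 132, true, true, false, [(0, 1), (3, 10)], []⟩,
  ⟨857, 90, 0, 240, 132, true, true, false, [(0, 1), (3, 10)], []⟩,
  ⟨886, 90, 0, 240, 132, true, true, false, [(0, 1), (3, 10)], []⟩,
  ⟨915, 90, 0, 224, 120, true, true, false, [(0, 1), (3, 12)], []⟩,
  ⟨944, 90, 0, 224, 120, true, true, false, [(0, 1), (3, 12)], []⟩,
  ⟨986, 90, 0, 224, 120, true, true, false, [(0, 1), (3, 12)], []⟩,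
  ⟨1028, 90, 0, 224, 120, true, true, false, [(0, 1), (3, 12)], []⟩,
  ⟨1070, 90, 0, 224, 120, true, true, false, [(0, 1), (3, 12)], []⟩,
  ⟨1112, 90, 0, 208, 109, true, true, false, [(0, 2), (3, 12)], []⟩,
  ⟨1154, 90, 0, 208, 109, true, true, false, [(0, 2), (3, 12)], []⟩,
  ⟨1196, 90, 0, 208, 109, true, true, false, [(0, 2), (3, 12)], []⟩,
  ⟨1238, 90, 0, 208, 109, true, true, false, [(0, 2), (3, 12)], []⟩,
  ⟨1280, 90, 0, 208, 109, true, true, false, [(0, 2), (3, 12)], []⟩,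
  ⟨1322, 90, 0, 208, 109, true, true, false, [(0, 3), (3, 11)], []⟩,
  ⟨1364, 90, 0, 208, 109, true, true, false, [(0, 3), (3, 11)], []⟩,
  ⟨1393, 90, 0, 208, 109, true, true, false, [(0, 4), (3, 10)], []⟩,
  ⟨1413, 90, 0, 208, 109, true, true, false, [(0, 6), (3, 8)], []⟩,
  ⟨1433, 90, 0, 208, 109, true, true, false, [(0, 10), (3, 4)], []⟩,
  ⟨1463, 90, 0, 208, 109, true, true, false, [(0, 14)], []⟩,
  ⟨1506, 90, 0, 208, 109, true, true, false, [(0, 14)], []⟩,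
  ⟨1567, 90, 0, 192, 98, true, true, false, [(0, 16)], []⟩,
  ⟨1740, 90, 0, 176, 88, true, true, false, [(0, 17)], []⟩,
  ⟨2081, 90, 0, 144, 69, true, true, false, [(0, 20)], []⟩,
  ⟨3401, 90, 0, 72, 32, true, true, false, [(0, 26)], []⟩,
  ⟨7029, 90, 0, 0, 0, true, false, false, [(0, 33)], []⟩,
  ⟨8352, 90, 0, 0, 0, true, false, false, [(0, 33)], []⟩
  ] = true := by decide +kernel

def g65_16 : Gr := ⟨false, 362, 366, 1024, 1024, 65, 65, 8255, 8256, 0, 2048, 0, []⟩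

theorem k65_16 : chk g65_16 T350 [
  ⟨355, 50, 650, 56, 257, false, true, false, [(0, 1), (3, 8), (18, 5), (8, 2), (9, 4), (10, 4), (11, 4), (12, 5), (3, 17)], []⟩,
  ⟨529, 50, 650, 88, 216, false, false, false, [(0, 1), (3, 22), (10, 1), (11, 4), (3, 17)], []⟩,
  ⟨614, 50, 450, 224, 120, false, true, false, [(0, 1), (3, 22)], []⟩,
  ⟨673, 50, 400, 224, 120, false, true, false, [(0, 1), (3, 22)], []⟩,
  ⟨714, 50, 0, 224, 120, true, true, false, [(0, 1), (3, 22)], []⟩,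
  ⟨773, 50, 0, 224, 120, true, true, false, [(0, 1), (3, 22)], []⟩,
  ⟨832, 50, 0, 224, 120, true, true, false, [(0, 1), (3, 22)], []⟩,
  ⟨916, 50, 0, 224, 120, true, true, false, [(0, 1), (3, 22)], []⟩,
  ⟨1000, 50, 0, 224, 120, true, true, false, [(0, 1), (3, 22)], []⟩,
  ⟨1084, 50, 0, 224, 120, true, true, false, [(0, 1), (3, 22)], []⟩,
  ⟨1168, 50, 0, 224, 120, true, true, false, [(0, 2), (3, 21)], []⟩,
  ⟨1227, 50, 0, 224, 120, true, true, false, [(0, 2), (3, 21)], []⟩,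
  ⟨1268, 50, 0, 224, 120, true, true, false, [(0, 2), (3, 21)], []⟩,
  ⟨1309, 50, 0, 208, 109, true, true, false, [(0, 2), (3, 24)], []⟩,
  ⟨1350, 50, 0, 208, 109, true, true, false, [(0, 3), (3, 23)], []⟩,
  ⟨1378, 50, 0, 208, 109, true, true, false, [(0, 3), (3, 23)], []⟩,
  ⟨1406, 50, 0, 208, 109, true, true, false, [(0, 4), (3, 22)], []⟩,
  ⟨1426, 50, 0, 208, 109, true, true, false, [(0, 6), (3, 20)], []⟩,
  ⟨1446, 50, 0, 208, 109, true, true, false, [(0, 11), (3, 15)], []⟩,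
  ⟨1466, 50, 0, 208, 109, true, true, false, [(0, 26)], []⟩,
  ⟨1495, 50, 0, 208, 109, true, true, false, [(0, 26)], []⟩,
  ⟨1554, 50, 0, 192, 98, true, true, false, [(0, 29)], []⟩,
  ⟨1673, 50, 0, 176, 88, true, true, false, [(0, 31)], []⟩,
  ⟨1910, 50, 0, 176, 88, true, true, false, [(0, 31)], []⟩,
  ⟨2565, 50, 0, 120, 56, true, true, false, [(0, 40)], []⟩,
  ⟨5902, 50, 0, 0, 0, true, false, false, [(0, 60)], []⟩
  ] = true := by decide +kernel

def g65_17 : Gr := ⟨false, 366, 371, 1024, 1024, 65, 65, 8255, 8256, 0, 2048, 0, []⟩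

theorem k65_17 : chk g65_17 T350 [
  ⟨355, 70, 700, 24, 288, false, false, false, [(0, 1), (3, 5), (18, 4), (8, 1), (9, 3), (10, 3), (11, 3), (12, 3), (3, 17)], []⟩,
  ⟨526, 70, 630, 88, 216, false, false, false, [(0, 1), (3, 16), (11, 3), (3, 13)], []⟩,
  ⟨610, 70, 490, 208, 109, false, true, false, [(0, 1), (3, 18)], []⟩,
  ⟨668, 70, 490, 208, 109, false, true, false, [(0, 1), (3, 18)], []⟩,
  ⟨709, 70, 490, 208, 109, false, true, false, [(0, 1), (3, 18)], []⟩,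
  ⟨737, 70, 490, 208, 109, false, true, false, [(0, 1), (3, 18)], []⟩,
  ⟨765, 70, 0, 224, 120, true, true, false, [(0, 1), (3, 16)], []⟩,
  ⟨806, 70, 0, 224, 120, true, true, false, [(0, 1), (3, 16)], []⟩,
  ⟨847, 70, 0, 224, 120, true, true, false, [(0, 1), (3, 16)], []⟩,
  ⟨905, 70, 0, 224, 120, true, true, false, [(0, 1), (3, 16)], []⟩,
  ⟨963, 70, 0, 224, 120, true, true, false, [(0, 1), (3, 16)], []⟩,
  ⟨1021, 70, 0, 224, 120, true, true, false, [(0, 1), (3, 16)], []⟩,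
  ⟨1079, 70, 0, 224, 120, true, true, false, [(0, 1), (3, 16)], []⟩,
  ⟨1137, 70, 0, 224, 120, true, true, false, [(0, 2), (3, 15)], []⟩,
  ⟨1195, 70, 0, 224, 120, true, true, false, [(0, 2), (3, 15)], []⟩,
  ⟨1236, 70, 0, 224, 120, true, true, false, [(0, 2), (3, 15)], []⟩,
  ⟨1277, 70, 0, 208, 109, true, true, false, [(0, 2), (3, 17)], []⟩,
  ⟨1318, 70, 0, 208, 109, true, true, false, [(0, 2), (3, 17)], []⟩,
  ⟨1359, 70, 0, 208, 109, true, true, false, [(0, 3), (3, 16)], []⟩,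
  ⟨1387, 70, 0, 208, 109, true, true, false, [(0, 3), (3, 16)], []⟩,
  ⟨1415, 70, 0, 208, 109, true, true, false, [(0, 4), (3, 15)], []⟩,
  ⟨1435, 70, 0, 208, 109, true, true, false, [(0, 5), (3, 14)], []⟩,
  ⟨1455, 70, 0, 208, 109, true, true, false, [(0, 8), (3, 11)], []⟩,
  ⟨1469, 70, 0, 208, 109, true, true, false, [(0, 17), (3, 2)], []⟩,
  ⟨1499, 70, 0, 208, 109, true, true, false, [(0, 19)], []⟩,
  ⟨1542, 70, 0, 192, 98, true, true, false, [(0, 21)], []⟩,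
  ⟨1664, 70, 0, 192, 98, true, true, false, [(0, 21)], []⟩,
  ⟨1907, 70, 0, 176, 88, true, true, false, [(0, 23)], []⟩,
  ⟨2578, 70, 0, 128, 60, true, true, false, [(0, 28)], []⟩,
  ⟨5983, 70, 0, 0, 0, true, false, false, [(0, 43)], []⟩
  ] = true := by decide +kernel

def g65_18 : Gr := ⟨false, 371, 375, 1024, 1024, 65, 65, 8255, 8256, 0, 2048, 0, []⟩

theorem k65_18 : chk g65_18 T350 [
  ⟨355, 50, 700, 28, 292, false, false, false, [(0, 1), (3, 8), (18, 5), (8, 2), (9, 4), (10, 4), (11, 4), (12, 5), (3, 23)], []⟩,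
  ⟨529, 50, 650, 96, 216, false, false, false, [(0, 1), (3, 23), (11, 4), (3, 17)], []⟩,
  ⟨614, 50, 650, 96, 204, false, true, false, [(0, 1), (3, 44)], []⟩,
  ⟨673, 50, 500, 208, 109, false, true, false, [(0, 1), (3, 26)], []⟩,
  ⟨732, 50, 0, 240, 132, true, true, false, [(0, 1), (3, 21)], []⟩,
  ⟨791, 50, 0, 240, 132, true, true, false, [(0, 1), (3, 21)], []⟩,
  ⟨875, 50, 0, 240, 132, true, true, false, [(0, 1), (3, 21)], []⟩,
  ⟨959, 50, 0, 240, 132, true, true, false, [(0, 1), (3, 21)], []⟩,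
  ⟨1018, 50, 0, 240, 132, true, true, false, [(0, 1), (3, 21)], []⟩,
  ⟨1077, 50, 0, 240, 132, true, true, false, [(0, 1), (3, 21)], []⟩,
  ⟨1136, 50, 0, 208, 109, true, true, false, [(0, 2), (3, 25)], []⟩,
  ⟨1195, 50, 0, 208, 109, true, true, false, [(0, 2), (3, 25)], []⟩,
  ⟨1254, 50, 0, 208, 109, true, true, false, [(0, 2), (3, 25)], []⟩,
  ⟨1313, 50, 0, 208, 109, true, true, false, [(0, 2), (3, 25)], []⟩,
  ⟨1372, 50, 0, 208, 109, true, true, false, [(0, 3), (3, 24)], []⟩,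
  ⟨1413, 50, 0, 208, 109, true, true, false, [(0, 3), (3, 24)], []⟩,
  ⟨1454, 50, 0, 208, 109, true, true, false, [(0, 5), (3, 22)], []⟩,
  ⟨1483, 50, 0, 208, 109, true, true, false, [(0, 10), (3, 17)], []⟩,
  ⟨1524, 50, 0, 208, 109, true, true, false, [(0, 27)], []⟩,
  ⟨1583, 50, 0, 208, 109, true, true, false, [(0, 27)], []⟩,
  ⟨1701, 50, 0, 192, 98, true, true, false, [(0, 30)], []⟩,
  ⟨2030, 50, 0, 160, 78, true, true, false, [(0, 35)], []⟩,
  ⟨2938, 50, 0, 96, 44, true, true, false, [(0, 45)], []⟩,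
  ⟨6047, 50, 0, 0, 0, true, false, false, [(0, 61)], []⟩
  ] = true := by decide +kernel

def g65_19 : Gr := ⟨false, 375, 380, 1024, 1024, 65, 65, 8255, 8256, 0, 2048, 0, []⟩

theorem k65_19 : chk g65_19 T350 [
  ⟨355, 70, 700, 16, 304, false, false, false, [(0, 1), (3, 5), (18, 4), (8, 1), (9, 3), (10, 3), (11, 3), (12, 3), (3, 19)], []⟩,
  ⟨529, 70, 700, 88, 224, false, false, false, [(0, 1), (3, 16), (11, 3), (3, 14)], []⟩,
  ⟨614, 70, 630, 96, 208, false, false, false, [(0, 1), (3, 32)], []⟩,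
  ⟨673, 70, 490, 208, 109, false, true, false, [(0, 1), (3, 19)], []⟩,
  ⟨714, 70, 490, 208, 109, false, true, false, [(0, 1), (3, 19)], []⟩,
  ⟨755, 70, 490, 208, 109, false, true, false, [(0, 1), (3, 19)], []⟩,
  ⟨784, 70, 490, 208, 109, false, true, false, [(0, 1), (3, 19)], []⟩,
  ⟨813, 70, 0, 224, 120, true, true, false, [(0, 1), (3, 17)], []⟩,
  ⟨854, 70, 0, 224, 120, true, true, false, [(0, 1), (3, 17)], []⟩,
  ⟨895, 70, 0, 224, 120, true, true, false, [(0, 1), (3, 17)], []⟩,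
  ⟨954, 70, 0, 224, 120, true, true, false, [(0, 1), (3, 17)], []⟩,
  ⟨1013, 70, 0, 224, 120, true, true, false, [(0, 1), (3, 17)], []⟩,
  ⟨1072, 70, 0, 224, 120, true, true, false, [(0, 1), (3, 17)], []⟩,
  ⟨1131, 70, 0, 224, 120, true, true, false, [(0, 1), (3, 17)], []⟩,
  ⟨1190, 70, 0, 224, 120, true, true, false, [(0, 2), (3, 16)], []⟩,
  ⟨1249, 70, 0, 224, 120, true, true, false, [(0, 2), (3, 16)], []⟩,
  ⟨1290, 70, 0, 224, 120, true, true, false, [(0, 2), (3, 16)], []⟩,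
  ⟨1331, 70, 0, 224, 120, true, true, false, [(0, 2), (3, 16)], []⟩,
  ⟨1372, 70, 0, 208, 109, true, true, false, [(0, 3), (3, 17)], []⟩,
  ⟨1401, 70, 0, 208, 109, true, true, false, [(0, 3), (3, 17)], []⟩,
  ⟨1430, 70, 0, 208, 109, true, true, false, [(0, 4), (3, 16)], []⟩,
  ⟨1459, 70, 0, 208, 109, true, true, false, [(0, 4), (3, 16)], []⟩,
  ⟨1479, 70, 0, 208, 109, true, true, false, [(0, 6), (3, 14)], []⟩,
  ⟨1493, 70, 0, 208, 109, true, true, false, [(0, 10), (3, 10)], []⟩,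
  ⟨1507, 70, 0, 208, 109, true, true, false, [(0, 19), (3, 1)], []⟩,
  ⟨1537, 70, 0, 208, 109, true, true, false, [(0, 20)], []⟩,
  ⟨1580, 70, 0, 208, 109, true, true, false, [(0, 20)], []⟩,
  ⟨1668, 70, 0, 192, 98, true, true, false, [(0, 22)], []⟩,
  ⟨1843, 70, 0, 176, 88, true, true, false, [(0, 24)], []⟩,
  ⟨2188, 70, 0, 160, 78, true, true, false, [(0, 26)], []⟩,
  ⟨3522, 70, 0, 60, 27, true, true, false, [(0, 37)], []⟩,
  ⟨6128, 70, 0, 0, 0, true, false, false, [(0, 44)], []⟩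
  ] = true := by decide +kernel

def g65_20 : Gr := ⟨false, 380, 384, 1024, 1024, 65, 65, 8255, 8256, 0, 2048, 0, []⟩

theorem k65_20 : chk g65_20 T350 [
  ⟨355, 90, 720, 16, 304, false, false, false, [(0, 1), (3, 4), (18, 3), (8, 1), (9, 2), (10, 2), (11, 3), (12, 2), (3, 15)], []⟩,
  ⟨529, 90, 630, 96, 220, false, true, false, [(0, 1), (3, 13), (11, 2), (3, 10)], []⟩,
  ⟨614, 90, 630, 96, 212, false, true, false, [(0, 1), (3, 25)], []⟩,
  ⟨673, 90, 540, 208, 109, false, true, false, [(0, 1), (3, 15)], []⟩,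
  ⟨714, 90, 450, 208, 109, false, true, false, [(0, 1), (3, 15)], []⟩,
  ⟨743, 90, 450, 208, 109, false, true, false, [(0, 1), (3, 15)], []⟩,
  ⟨772, 90, 0, 240, 132, true, true, false, [(0, 1), (3, 12)], []⟩,
  ⟨813, 90, 0, 240, 132, true, true, false, [(0, 1), (3, 12)], []⟩,
  ⟨854, 90, 0, 240, 132, true, true, false, [(0, 1), (3, 12)], []⟩,
  ⟨895, 90, 0, 240, 132, true, true, false, [(0, 1), (3, 12)], []⟩,
  ⟨954, 90, 0, 240, 132, true, true, false, [(0, 1), (3, 12)], []⟩,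
  ⟨1013, 90, 0, 240, 132, true, true, false, [(0, 1), (3, 12)], []⟩,
  ⟨1054, 90, 0, 240, 132, true, true, false, [(0, 1), (3, 12)], []⟩,
  ⟨1095, 90, 0, 240, 132, true, true, false, [(0, 1), (3, 12)], []⟩,
  ⟨1136, 90, 0, 240, 132, true, true, false, [(0, 2), (3, 11)], []⟩,
  ⟨1165, 90, 0, 240, 132, true, true, false, [(0, 2), (3, 11)], []⟩,
  ⟨1185, 90, 0, 208, 109, true, true, false, [(0, 2), (3, 14)], []⟩,
  ⟨1205, 90, 0, 208, 109, true, true, false, [(0, 2), (3, 14)], []⟩,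
  ⟨1234, 90, 0, 208, 109, true, true, false, [(0, 2), (3, 14)], []⟩,
  ⟨1263, 90, 0, 208, 109, true, true, false, [(0, 2), (3, 14)], []⟩,
  ⟨1292, 90, 0, 208, 109, true, true, false, [(0, 2), (3, 14)], []⟩,
  ⟨1321, 90, 0, 208, 109, true, true, false, [(0, 2), (3, 14)], []⟩,
  ⟨1350, 90, 0, 208, 109, true, true, false, [(0, 2), (3, 14)], []⟩,
  ⟨1379, 90, 0, 208, 109, true, true, false, [(0, 3), (3, 13)], []⟩,
  ⟨1408, 90, 0, 208, 109, true, true, false, [(0, 3), (3, 13)], []⟩,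
  ⟨1437, 90, 0, 208, 109, true, true, false, [(0, 3), (3, 13)], []⟩,
  ⟨1457, 90, 0, 208, 109, true, true, false, [(0, 4), (3, 12)], []⟩,
  ⟨1477, 90, 0, 208, 109, true, true, false, [(0, 5), (3, 11)], []⟩,
  ⟨1491, 90, 0, 208, 109, true, true, false, [(0, 6), (3, 10)], []⟩,
  ⟨1505, 90, 0, 208, 109, true, true, false, [(0, 8), (3, 8)], []⟩,
  ⟨1519, 90, 0, 208, 109, true, true, false, [(0, 12), (3, 4)], []⟩,
  ⟨1540, 90, 0, 208, 109, true, true, false, [(0, 16)], []⟩,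
  ⟨1570, 90, 0, 208, 109, true, true, false, [(0, 16)], []⟩,
  ⟨1632, 90, 0, 208, 109, true, true, false, [(0, 16)], []⟩,
  ⟨1721, 90, 0, 192, 98, true, true, false, [(0, 18)], []⟩,
  ⟨1970, 90, 0, 176, 88, true, true, false, [(0, 19)], []⟩,
  ⟨2657, 90, 0, 128, 60, true, true, false, [(0, 23)], []⟩,
  ⟨6193, 90, 0, 0, 0, true, false, false, [(0, 35)], []⟩
  ] = true := by decide +kernel

def g65_21 : Gr := ⟨false, 384, 388, 1024, 1024, 65, 65, 8255, 8256, 0, 2048, 0, []⟩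

theorem k65_21 : chk g65_21 T375 [
  ⟨355, 70, 700, 24, 304, false, false, false, [(0, 1), (3, 5), (19, 4), (8, 1), (9, 3), (10, 3), (11, 3), (12, 3), (3, 19)], []⟩,
  ⟨529, 70, 630, 96, 224, false, false, false, [(0, 1), (3, 16), (11, 3), (3, 1), (12, 2), (3, 11)], []⟩,
  ⟨614, 70, 630, 96, 216, false, false, false, [(0, 1), (3, 33)], []⟩,
  ⟨699, 70, 490, 224, 120, false, true, false, [(0, 1), (3, 18)], []⟩,
  ⟨758, 70, 490, 224, 120, false, true, false, [(0, 1), (3, 18)], []⟩,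
  ⟨799, 70, 490, 224, 120, false, true, false, [(0, 1), (3, 18)], []⟩,
  ⟨828, 70, 0, 224, 120, true, true, false, [(0, 1), (3, 18)], []⟩,
  ⟨857, 70, 0, 224, 120, true, true, false, [(0, 1), (3, 18)], []⟩,
  ⟨898, 70, 0, 224, 120, true, true, false, [(0, 1), (3, 18)], []⟩,
  ⟨939, 70, 0, 224, 120, true, true, false, [(0, 1), (3, 18)], []⟩,
  ⟨998, 70, 0, 224, 120, true, true, false, [(0, 1), (3, 18)], []⟩,
  ⟨1057, 70, 0, 224, 120, true, true, false, [(0, 1), (3, 18)], []⟩,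
  ⟨1116, 70, 0, 224, 120, true, true, false, [(0, 1), (3, 18)], []⟩,
  ⟨1175, 70, 0, 224, 120, true, true, false, [(0, 2), (3, 17)], []⟩,
  ⟨1234, 70, 0, 224, 120, true, true, false, [(0, 2), (3, 17)], []⟩,
  ⟨1293, 70, 0, 224, 120, true, true, false, [(0, 2), (3, 17)], []⟩,
  ⟨1352, 70, 0, 224, 120, true, true, false, [(0, 2), (3, 17)], []⟩,
  ⟨1393, 70, 0, 224, 120, true, true, false, [(0, 3), (3, 16)], []⟩,
  ⟨1422, 70, 0, 208, 109, true, true, false, [(0, 3), (3, 18)], []⟩,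
  ⟨1451, 70, 0, 208, 109, true, true, false, [(0, 3), (3, 18)], []⟩,
  ⟨1480, 70, 0, 208, 109, true, true, false, [(0, 4), (3, 17)], []⟩,
  ⟨1500, 70, 0, 208, 109, true, true, false, [(0, 5), (3, 16)], []⟩,
  ⟨1520, 70, 0, 208, 109, true, true, false, [(0, 7), (3, 14)], []⟩,
  ⟨1534, 70, 0, 208, 109, true, true, false, [(0, 13), (3, 8)], []⟩,
  ⟨1555, 70, 0, 208, 109, true, true, false, [(0, 21)], []⟩,
  ⟨1598, 70, 0, 208, 109, true, true, false, [(0, 21)], []⟩,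
  ⟨1686, 70, 0, 192, 98, true, true, false, [(0, 23)], []⟩,
  ⟨1861, 70, 0, 192, 98, true, true, false, [(0, 23)], []⟩,
  ⟨2206, 70, 0, 160, 78, true, true, false, [(0, 27)], []⟩,
  ⟨3540, 70, 0, 72, 32, true, true, false, [(0, 37)], []⟩,
  ⟨6257, 70, 0, 0, 0, true, false, false, [(0, 45)], []⟩
  ] = true := by decide +kernel

def g65_22 : Gr := ⟨false, 388, 394, 1024, 1024, 65, 65, 8255, 8256, 0, 2048, 0, []⟩

theorem k65_22 : chk g65_22 T375 [
  ⟨355, 50, 700, 16, 312, false, false, false, [(0, 1), (3, 8), (19, 5), (8, 2), (9, 4), (10, 4), (11, 4), (12, 5), (3, 28)], []⟩,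
  ⟨529, 50, 650, 80, 244, false, true, false, [(0, 1), (3, 23), (11, 4), (3, 2), (12, 3), (3, 18)], []⟩,
  ⟨650, 50, 500, 208, 109, false, true, false, [(0, 1), (3, 29)], []⟩,
  ⟨735, 50, 500, 208, 109, false, true, false, [(0, 1), (3, 29)], []⟩,
  ⟨794, 50, 500, 208, 109, false, true, false, [(0, 1), (3, 29)], []⟩,
  ⟨835, 50, 500, 208, 109, false, true, false, [(0, 1), (3, 29)], []⟩,
  ⟨876, 50, 0, 240, 132, true, true, false, [(0, 1), (3, 24)], []⟩,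
  ⟨917, 50, 0, 240, 132, true, true, false, [(0, 1), (3, 24)], []⟩,
  ⟨958, 50, 0, 240, 132, true, true, false, [(0, 1), (3, 24)], []⟩,
  ⟨999, 50, 0, 240, 132, true, true, false, [(0, 1), (3, 24)], []⟩,
  ⟨1040, 50, 0, 240, 132, true, true, false, [(0, 1), (3, 24)], []⟩,
  ⟨1081, 50, 0, 240, 132, true, true, false, [(0, 1), (3, 24)], []⟩,
  ⟨1122, 50, 0, 240, 132, true, true, false, [(0, 1), (3, 24)], []⟩,
  ⟨1163, 50, 0, 224, 120, true, true, false, [(0, 2), (3, 26)], []⟩,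
  ⟨1204, 50, 0, 224, 120, true, true, false, [(0, 2), (3, 26)], []⟩,
  ⟨1245, 50, 0, 224, 120, true, true, false, [(0, 2), (3, 26)], []⟩,
  ⟨1286, 50, 0, 224, 120, true, true, false, [(0, 2), (3, 26)], []⟩,
  ⟨1327, 50, 0, 208, 109, true, true, false, [(0, 2), (3, 28)], []⟩,
  ⟨1368, 50, 0, 208, 109, true, true, false, [(0, 2), (3, 28)], []⟩,
  ⟨1409, 50, 0, 208, 109, true, true, false, [(0, 3), (3, 27)], []⟩,
  ⟨1438, 50, 0, 208, 109, true, true, false, [(0, 3), (3, 27)], []⟩,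
  ⟨1467, 50, 0, 208, 109, true, true, false, [(0, 3), (3, 27)], []⟩,
  ⟨1496, 50, 0, 208, 109, true, true, false, [(0, 4), (3, 26)], []⟩,
  ⟨1516, 50, 0, 208, 109, true, true, false, [(0, 5), (3, 25)], []⟩,
  ⟨1536, 50, 0, 208, 109, true, true, false, [(0, 8), (3, 22)], []⟩,
  ⟨1550, 50, 0, 208, 109, true, true, false, [(0, 16), (3, 14)], []⟩,
  ⟨1564, 50, 0, 208, 109, true, true, false, [(0, 30)], []⟩,
  ⟨1594, 50, 0, 208, 109, true, true, false, [(0, 30)], []⟩,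
  ⟨1637, 50, 0, 208, 109, true, true, false, [(0, 30)], []⟩,
  ⟨1725, 50, 0, 192, 98, true, true, false, [(0, 33)], []⟩,
  ⟨1899, 50, 0, 176, 88, true, true, false, [(0, 36)], []⟩,
  ⟨2383, 50, 0, 144, 69, true, true, false, [(0, 41)], []⟩,
  ⟨4998, 50, 0, 16, 7, true, true, false, [(0, 61)], []⟩,
  ⟨6354, 50, 0, 0, 0, true, false, false, [(0, 64)], []⟩
  ] = true := by decide +kernel

def g65_23 : Gr := ⟨false, 394, 397, 1024, 1024, 65, 65, 8255, 8256, 0, 2048, 0, []⟩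

theorem k65_23 : chk g65_23 T375 [
  ⟨355, 90, 630, 40, 296, false, false, false, [(0, 1), (3, 4), (19, 3), (8, 1), (9, 2), (10, 2), (11, 3), (12, 2), (3, 14)], []⟩,
  ⟨529, 90, 630, 96, 232, false, false, false, [(0, 1), (3, 13), (11, 2), (3, 1), (12, 1), (3, 9)], []⟩,
  ⟨650, 90, 630, 96, 220, false, true, false, [(0, 1), (3, 26)], []⟩,
  ⟨709, 90, 630, 96, 216, false, false, false, [(0, 1), (3, 26)], []⟩,
  ⟨768, 90, 540, 208, 109, false, true, false, [(0, 1), (3, 16)], []⟩,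
  ⟨809, 90, 540, 208, 109, false, true, false, [(0, 1), (3, 16)], []⟩,
  ⟨850, 90, 0, 256, 145, true, true, false, [(0, 1), (3, 12)], []⟩,
  ⟨891, 90, 0, 256, 145, true, true, false, [(0, 1), (3, 12)], []⟩,
  ⟨932, 90, 0, 256, 145, true, true, false, [(0, 1), (3, 12)], []⟩,
  ⟨973, 90, 0, 256, 145, true, true, false, [(0, 1), (3, 12)], []⟩,
  ⟨1002, 90, 0, 256, 145, true, true, false, [(0, 1), (3, 12)], []⟩,
  ⟨1031, 90, 0, 224, 120, true, true, false, [(0, 1), (3, 15)], []⟩,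
  ⟨1060, 90, 0, 224, 120, true, true, false, [(0, 1), (3, 15)], []⟩,
  ⟨1101, 90, 0, 224, 120, true, true, false, [(0, 1), (3, 15)], []⟩,
  ⟨1142, 90, 0, 224, 120, true, true, false, [(0, 1), (3, 15)], []⟩,
  ⟨1183, 90, 0, 224, 120, true, true, false, [(0, 2), (3, 14)], []⟩,
  ⟨1224, 90, 0, 224, 120, true, true, false, [(0, 2), (3, 14)], []⟩,
  ⟨1265, 90, 0, 224, 120, true, true, false, [(0, 2), (3, 14)], []⟩,
  ⟨1306, 90, 0, 224, 120, true, true, false, [(0, 2), (3, 14)], []⟩,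
  ⟨1347, 90, 0, 224, 120, true, true, false, [(0, 2), (3, 14)], []⟩,
  ⟨1388, 90, 0, 208, 109, true, true, false, [(0, 2), (3, 15)], []⟩,
  ⟨1429, 90, 0, 208, 109, true, true, false, [(0, 3), (3, 14)], []⟩,
  ⟨1470, 90, 0, 208, 109, true, true, false, [(0, 3), (3, 14)], []⟩,
  ⟨1499, 90, 0, 208, 109, true, true, false, [(0, 4), (3, 13)], []⟩,
  ⟨1528, 90, 0, 208, 109, true, true, false, [(0, 4), (3, 13)], []⟩,
  ⟨1557, 90, 0, 208, 109, true, true, false, [(0, 6), (3, 11)], []⟩,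
  ⟨1577, 90, 0, 208, 109, true, true, false, [(0, 12), (3, 5)], []⟩,
  ⟨1619, 90, 0, 208, 109, true, true, false, [(0, 17)], []⟩,
  ⟨1679, 90, 0, 208, 109, true, true, false, [(0, 17)], []⟩,
  ⟨1800, 90, 0, 192, 98, true, true, false, [(0, 19)], []⟩,
  ⟨2137, 90, 0, 176, 88, true, true, false, [(0, 20)], []⟩,
  ⟨3068, 90, 0, 96, 44, true, true, false, [(0, 27)], []⟩,
  ⟨6402, 90, 0, 0, 0, true, false, false, [(0, 36)], []⟩
  ] = true := by decide +kernel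

end Pool.Agent.Lib.MP_af3a4a_an.P1.CHK.H81.L
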