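import Pool.Agent.Lib.MP_af3a4a_an.P1.CHK.H81.LT
/-!
# Data, `65 ≤ N ≤ 65`, `397 ≤ 1024 R ≤ 453` (helper81)
-/
set_option autoImplicit false

namespace Pool.Agent.Lib.MP_af3a4a_an.P1.CHK.H81.L

open Pool.Agent.Lib.MP_af3a4a_an.P1.CHK.H58.G (Gr En)

def g65_24 : Gr := ⟨false, 397, 401, 1024, 1024, 65, 65, 8255, 8256, 0, 2048, 0, []⟩

theorem k65_24 : chk g65_24 T375 [
  ⟨355, 120, 720, 16, 320, false, false, false, [(0, 1), (3, 3), (19, 2), (9, 2), (10, 2), (11, 2), (12, 1), (3, 13)], []⟩,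
  ⟨529, 120, 720, 60, 267, false, true, false, [(0, 1), (3, 9), (11, 2), (3, 11)], []⟩,
  ⟨650, 120, 600, 104, 216, false, false, false, [(0, 1), (3, 19)], []⟩,
  ⟨709, 120, 600, 104, 208, false, false, false, [(0, 1), (3, 19)], []⟩,
  ⟨750, 120, 480, 224, 120, false, true, false, [(0, 1), (3, 11)], []⟩,
  ⟨779, 120, 480, 224, 120, false, true, false, [(0, 1), (3, 11)], []⟩,
  ⟨808, 120, 480, 224, 120, false, true, false, [(0, 1), (3, 11)], []⟩,
  ⟨828, 120, 480, 224, 120, false, true, false, [(0, 1), (3, 11)], []⟩,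
  ⟨842, 120, 0, 256, 145, true, true, false, [(0, 1), (3, 9)], []⟩,
  ⟨856, 120, 0, 256, 145, true, true, false, [(0, 1), (3, 9)], []⟩,
  ⟨877, 120, 0, 240, 132, true, true, false, [(0, 1), (3, 10)], []⟩,
  ⟨898, 120, 0, 240, 132, true, true, false, [(0, 1), (3, 10)], []⟩,
  ⟨928, 120, 0, 240, 132, true, true, false, [(0, 1), (3, 10)], []⟩,
  ⟨958, 120, 0, 240, 132, true, true, false, [(0, 1), (3, 10)], []⟩,
  ⟨988, 120, 0, 240, 132, true, true, false, [(0, 1), (3, 10)], []⟩,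
  ⟨1031, 120, 0, 240, 132, true, true, false, [(0, 1), (3, 10)], []⟩,
  ⟨1074, 120, 0, 240, 132, true, true, false, [(0, 1), (3, 10)], []⟩,
  ⟨1117, 120, 0, 240, 132, true, true, false, [(0, 1), (3, 10)], []⟩,
  ⟨1160, 120, 0, 240, 132, true, true, false, [(0, 1), (3, 10)], []⟩,
  ⟨1203, 120, 0, 224, 120, true, true, false, [(0, 2), (3, 10)], []⟩,
  ⟨1246, 120, 0, 224, 120, true, true, false, [(0, 2), (3, 10)], []⟩,
  ⟨1289, 120, 0, 224, 120, true, true, false, [(0, 2), (3, 10)], []⟩,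
  ⟨1332, 120, 0, 224, 120, true, true, false, [(0, 2), (3, 10)], []⟩,
  ⟨1375, 120, 0, 224, 120, true, true, false, [(0, 2), (3, 10)], []⟩,
  ⟨1405, 120, 0, 224, 120, true, true, false, [(0, 2), (3, 10)], []⟩,
  ⟨1435, 120, 0, 224, 120, true, true, false, [(0, 3), (3, 9)], []⟩,
  ⟨1456, 120, 0, 224, 120, true, true, false, [(0, 3), (3, 9)], []⟩,
  ⟨1477, 120, 0, 208, 109, true, true, false, [(0, 3), (3, 10)], []⟩,
  ⟨1498, 120, 0, 208, 109, true, true, false, [(0, 3), (3, 10)], []⟩,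
  ⟨1512, 120, 0, 208, 109, true, true, false, [(0, 4), (3, 9)], []⟩,
  ⟨1526, 120, 0, 208, 109, true, true, false, [(0, 4), (3, 9)], []⟩,
  ⟨1540, 120, 0, 208, 109, true, true, false, [(0, 5), (3, 8)], []⟩,
  ⟨1554, 120, 0, 208, 109, true, true, false, [(0, 6), (3, 7)], []⟩,
  ⟨1564, 120, 0, 208, 109, true, true, false, [(0, 7), (3, 6)], []⟩,
  ⟨1574, 120, 0, 208, 109, true, true, false, [(0, 8), (3, 5)], []⟩,
  ⟨1584, 120, 0, 208, 109, true, true, false, [(0, 11), (3, 2)], []⟩,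
  ⟨1599, 120, 0, 208, 109, true, true, false, [(0, 13)], []⟩,
  ⟨1632, 120, 0, 208, 109, true, true, false, [(0, 13)], []⟩,
  ⟨1699, 120, 0, 208, 109, true, true, false, [(0, 13)], []⟩,
  ⟨1794, 120, 0, 208, 109, true, true, false, [(0, 13)], []⟩,
  ⟨1983, 120, 0, 176, 88, true, true, false, [(0, 16)], []⟩,
  ⟨2506, 120, 0, 120, 56, true, true, false, [(0, 19)], []⟩,
  ⟨6464, 120, 0, 0, 0, true, false, false, [(0, 27)], []⟩,
  ⟨6467, 120, 0, 0, 0, true, false, false, [(0, 27)], []⟩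
  ] = true := by decide +kernel

def g65_25 : Gr := ⟨false, 401, 406, 1024, 1024, 65, 65, 8255, 8256, 0, 2048, 0, []⟩

theorem k65_25 : chk g65_25 T375 [
  ⟨498, 50, 550, 208, 141, false, true, false, [(0, 1), (3, 8), (19, 5), (8, 2), (9, 4), (10, 4), (11, 4), (12, 4)], []⟩,
  ⟨668, 50, 650, 96, 224, false, false, false, [(0, 1), (3, 26), (11, 1), (3, 3), (12, 2), (3, 17)], []⟩,
  ⟨751, 50, 500, 208, 109, false, true, false, [(0, 1), (3, 31)], []⟩,
  ⟨809, 50, 500, 208, 109, false, true, false, [(0, 1), (3, 31)], []⟩,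
  ⟨850, 50, 500, 208, 109, false, true, false, [(0, 1), (3, 31)], []⟩,
  ⟨891, 50, 0, 240, 132, true, true, false, [(0, 1), (3, 26)], []⟩,
  ⟨932, 50, 0, 240, 132, true, true, false, [(0, 1), (3, 26)], []⟩,
  ⟨990, 50, 0, 240, 132, true, true, false, [(0, 1), (3, 26)], []⟩,
  ⟨1048, 50, 0, 240, 132, true, true, false, [(0, 1), (3, 26)], []⟩,
  ⟨1106, 50, 0, 240, 132, true, true, false, [(0, 1), (3, 26)], []⟩,
  ⟨1164, 50, 0, 240, 132, true, true, false, [(0, 1), (3, 26)], []⟩,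
  ⟨1222, 50, 0, 240, 132, true, true, false, [(0, 2), (3, 25)], []⟩,
  ⟨1262, 50, 0, 224, 120, true, true, false, [(0, 2), (3, 28)], []⟩,
  ⟨1302, 50, 0, 224, 120, true, true, false, [(0, 2), (3, 28)], []⟩,
  ⟨1342, 50, 0, 224, 120, true, true, false, [(0, 2), (3, 28)], []⟩,
  ⟨1382, 50, 0, 224, 120, true, true, false, [(0, 2), (3, 28)], []⟩,
  ⟨1422, 50, 0, 224, 120, true, true, false, [(0, 2), (3, 28)], []⟩,
  ⟨1450, 50, 0, 208, 109, true, true, false, [(0, 3), (3, 29)], []⟩,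
  ⟨1478, 50, 0, 208, 109, true, true, false, [(0, 3), (3, 29)], []⟩,
  ⟨1506, 50, 0, 208, 109, true, true, false, [(0, 3), (3, 29)], []⟩,
  ⟨1534, 50, 0, 208, 109, true, true, false, [(0, 4), (3, 28)], []⟩,
  ⟨1554, 50, 0, 208, 109, true, true, false, [(0, 5), (3, 27)], []⟩,
  ⟨1574, 50, 0, 208, 109, true, true, false, [(0, 6), (3, 26)], []⟩,
  ⟨1588, 50, 0, 208, 109, true, true, false, [(0, 10), (3, 22)], []⟩,
  ⟨1602, 50, 0, 208, 109, true, true, false, [(0, 18), (3, 14)], []⟩,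
  ⟨1622, 50, 0, 208, 109, true, true, false, [(0, 32)], []⟩,
  ⟨1664, 50, 0, 208, 109, true, true, false, [(0, 32)], []⟩,
  ⟨1750, 50, 0, 208, 109, true, true, false, [(0, 32)], []⟩,
  ⟨1921, 50, 0, 192, 98, true, true, false, [(0, 35)], []⟩,
  ⟨2396, 50, 0, 160, 78, true, true, false, [(0, 40)], []⟩,
  ⟨4230, 50, 0, 28, 12, true, true, false, [(0, 61)], []⟩,
  ⟨6547, 50, 0, 0, 0, true, false, false, [(0, 66)], []⟩
  ] = true := by decide +kernel

def g65_26 : Gr := ⟨false, 406, 408, 1024, 1024, 65, 65, 8255, 8256, 0, 2048, 0, []⟩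

theorem k65_26 : chk g65_26 T375 [
  ⟨355, 90, 630, 40, 304, false, false, false, [(0, 1), (3, 4), (19, 3), (8, 1), (9, 2), (10, 2), (11, 3), (12, 2), (3, 15)], []⟩,
  ⟨599, 90, 720, 96, 236, false, true, false, [(0, 1), (3, 7), (6, 1), (3, 4), (11, 3), (12, 2), (3, 10)], []⟩,
  ⟨718, 90, 630, 96, 224, false, false, false, [(0, 1), (3, 27)], []⟩,
  ⟨776, 90, 540, 208, 117, false, true, false, [(0, 1), (3, 17)], []⟩,
  ⟨834, 90, 540, 208, 109, false, true, false, [(0, 1), (3, 17)], []⟩,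
  ⟨892, 90, 0, 256, 145, true, true, false, [(0, 1), (3, 13)], []⟩,
  ⟨950, 90, 0, 256, 145, true, true, false, [(0, 1), (3, 13)], []⟩,
  ⟨1008, 90, 0, 256, 145, true, true, false, [(0, 1), (3, 13)], []⟩,
  ⟨1049, 90, 0, 256, 145, true, true, false, [(0, 1), (3, 13)], []⟩,
  ⟨1090, 90, 0, 256, 145, true, true, false, [(0, 1), (3, 13)], []⟩,
  ⟨1118, 90, 0, 224, 120, true, true, false, [(0, 1), (3, 16)], []⟩,
  ⟨1159, 90, 0, 224, 120, true, true, false, [(0, 1), (3, 16)], []⟩,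
  ⟨1200, 90, 0, 224, 120, true, true, false, [(0, 2), (3, 15)], []⟩,
  ⟨1241, 90, 0, 224, 120, true, true, false, [(0, 2), (3, 15)], []⟩,
  ⟨1282, 90, 0, 224, 120, true, true, false, [(0, 2), (3, 15)], []⟩,
  ⟨1340, 90, 0, 224, 120, true, true, false, [(0, 2), (3, 15)], []⟩,
  ⟨1381, 90, 0, 224, 120, true, true, false, [(0, 2), (3, 15)], []⟩,
  ⟨1422, 90, 0, 224, 120, true, true, false, [(0, 2), (3, 15)], []⟩,
  ⟨1463, 90, 0, 224, 120, true, true, false, [(0, 3), (3, 14)], []⟩,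
  ⟨1504, 90, 0, 208, 109, true, true, false, [(0, 3), (3, 15)], []⟩,
  ⟨1545, 90, 0, 208, 109, true, true, false, [(0, 3), (3, 15)], []⟩,
  ⟨1573, 90, 0, 208, 109, true, true, false, [(0, 4), (3, 14)], []⟩,
  ⟨1601, 90, 0, 208, 109, true, true, false, [(0, 6), (3, 12)], []⟩,
  ⟨1629, 90, 0, 208, 109, true, true, false, [(0, 12), (3, 6)], []⟩,
  ⟨1687, 90, 0, 208, 109, true, true, false, [(0, 18)], []⟩,
  ⟨1770, 90, 0, 208, 109, true, true, false, [(0, 18)], []⟩,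
  ⟨1935, 90, 0, 176, 88, true, true, false, [(0, 21)], []⟩,
  ⟨2394, 90, 0, 144, 69, true, true, false, [(0, 24)], []⟩,
  ⟨4167, 90, 0, 40, 18, true, true, false, [(0, 33)], []⟩,
  ⟨6580, 90, 0, 0, 0, true, false, false, [(0, 37)], []⟩
  ] = true := by decide +kernel

def g65_27 : Gr := ⟨false, 408, 410, 1024, 1024, 65, 65, 8255, 8256, 0, 2048, 0, []⟩

theorem k65_27 : chk g65_27 T375 [
  ⟨498, 50, 550, 208, 149, false, true, false, [(0, 1), (3, 8), (19, 5), (8, 2), (9, 4), (10, 4), (11, 4), (12, 5)], []⟩,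
  ⟨668, 50, 650, 96, 232, false, false, false, [(0, 1), (3, 26), (11, 1), (3, 4), (12, 1), (3, 18)], []⟩,
  ⟨787, 50, 500, 224, 120, false, true, false, [(0, 1), (3, 29)], []⟩,
  ⟨870, 50, 0, 256, 145, true, true, false, [(0, 1), (3, 24)], []⟩,
  ⟨953, 50, 0, 256, 145, true, true, false, [(0, 1), (3, 24)], []⟩,
  ⟨1036, 50, 0, 256, 145, true, true, false, [(0, 1), (3, 24)], []⟩,
  ⟨1119, 50, 0, 240, 132, true, true, false, [(0, 1), (3, 27)], []⟩,
  ⟨1202, 50, 0, 240, 132, true, true, false, [(0, 1), (3, 27)], []⟩,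
  ⟨1285, 50, 0, 224, 120, true, true, false, [(0, 2), (3, 28)], []⟩,
  ⟨1368, 50, 0, 224, 120, true, true, false, [(0, 2), (3, 28)], []⟩,
  ⟨1451, 50, 0, 224, 120, true, true, false, [(0, 2), (3, 28)], []⟩,
  ⟨1509, 50, 0, 224, 120, true, true, false, [(0, 3), (3, 27)], []⟩,
  ⟨1567, 50, 0, 224, 120, true, true, false, [(0, 4), (3, 26)], []⟩,
  ⟨1595, 50, 0, 224, 120, true, true, false, [(0, 5), (3, 25)], []⟩,
  ⟨1623, 50, 0, 208, 109, true, true, false, [(0, 9), (3, 24)], []⟩,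
  ⟨1651, 50, 0, 208, 109, true, true, false, [(0, 33)], []⟩,
  ⟨1709, 50, 0, 208, 109, true, true, false, [(0, 33)], []⟩,
  ⟨1826, 50, 0, 208, 109, true, true, false, [(0, 33)], []⟩,
  ⟨2152, 50, 0, 176, 88, true, true, false, [(0, 38)], []⟩,
  ⟨3052, 50, 0, 96, 44, true, true, false, [(0, 51)], []⟩,
  ⟨6518, 50, 0, 0, 0, true, false, false, [(0, 67)], []⟩,
  ⟨6612, 50, 0, 0, 0, true, false, false, [(0, 67)], []⟩
  ] = true := by decide +kernel

def g65_28 : Gr := ⟨false, 409, 412, 1024, 1024, 65, 65, 8255, 8256, 0, 2048, 0, []⟩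

theorem k65_28 : chk g65_28 T400 [
  ⟨498, 50, 550, 208, 149, false, true, false, [(0, 1), (3, 8), (22, 5), (10, 2), (11, 4), (12, 4), (13, 4), (14, 5)], []⟩,
  ⟨742, 50, 550, 208, 125, false, true, false, [(0, 1), (3, 13), (7, 2), (3, 6), (8, 2), (3, 2), (13, 2), (14, 5)], []⟩,
  ⟨860, 50, 550, 208, 109, false, true, false, [(0, 1), (3, 30), (14, 2)], []⟩,
  ⟨917, 50, 0, 240, 132, true, true, false, [(0, 1), (3, 27)], []⟩,
  ⟨999, 50, 0, 240, 132, true, true, false, [(0, 1), (3, 27)], []⟩,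
  ⟨1081, 50, 0, 240, 132, true, true, false, [(0, 1), (3, 27)], []⟩,
  ⟨1163, 50, 0, 240, 132, true, true, false, [(0, 1), (3, 27)], []⟩,
  ⟨1245, 50, 0, 240, 132, true, true, false, [(0, 2), (3, 26)], []⟩,
  ⟨1327, 50, 0, 240, 132, true, true, false, [(0, 2), (3, 26)], []⟩,
  ⟨1384, 50, 0, 224, 120, true, true, false, [(0, 2), (3, 29)], []⟩,
  ⟨1441, 50, 0, 224, 120, true, true, false, [(0, 2), (3, 29)], []⟩,
  ⟨1481, 50, 0, 208, 109, true, true, false, [(0, 3), (3, 30)], []⟩,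
  ⟨1521, 50, 0, 208, 109, true, true, false, [(0, 3), (3, 30)], []⟩,
  ⟨1561, 50, 0, 208, 109, true, true, false, [(0, 4), (3, 29)], []⟩,
  ⟨1589, 50, 0, 208, 109, true, true, false, [(0, 5), (3, 28)], []⟩,
  ⟨1617, 50, 0, 208, 109, true, true, false, [(0, 7), (3, 26)], []⟩,
  ⟨1645, 50, 0, 208, 109, true, true, false, [(0, 21), (3, 12)], []⟩,
  ⟨1702, 50, 0, 208, 109, true, true, false, [(0, 33)], []⟩,
  ⟨1783, 50, 0, 208, 109, true, true, false, [(0, 33)], []⟩,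
  ⟨1945, 50, 0, 192, 98, true, true, false, [(0, 36)], []⟩,
  ⟨2395, 50, 0, 160, 78, true, true, false, [(0, 41)], []⟩,
  ⟨4130, 50, 0, 40, 18, true, true, false, [(0, 60)], []⟩,
  ⟨6644, 50, 0, 0, 0, true, false, false, [(0, 67)], []⟩
  ] = true := by decide +kernel

def g65_29 : Gr := ⟨false, 412, 415, 1024, 1024, 65, 65, 8255, 8256, 0, 2048, 0, []⟩

theorem k65_29 : chk g65_29 T400 [
  ⟨355, 120, 720, 16, 328, false, false, false, [(0, 1), (3, 3), (22, 2), (11, 2), (12, 2), (13, 2), (14, 1), (15, 2), (3, 12)], []⟩,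
  ⟨599, 120, 720, 88, 248, false, false, false, [(0, 1), (3, 8), (8, 1), (13, 2), (14, 1), (3, 9)], []⟩,
  ⟨718, 120, 720, 88, 232, false, false, false, [(0, 1), (3, 11), (14, 1), (3, 9)], []⟩,
  ⟨776, 120, 600, 104, 216, false, false, false, [(0, 1), (3, 20)], []⟩,
  ⟨817, 120, 480, 224, 120, false, true, false, [(0, 1), (3, 12)], []⟩,
  ⟨858, 120, 480, 224, 120, false, true, false, [(0, 1), (3, 12)], []⟩,
  ⟨886, 120, 0, 256, 145, true, true, false, [(0, 1), (3, 10)], []⟩,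
  ⟨914, 120, 0, 256, 145, true, true, false, [(0, 1), (3, 10)], []⟩,
  ⟨942, 120, 0, 256, 145, true, true, false, [(0, 1), (3, 10)], []⟩,
  ⟨970, 120, 0, 256, 145, true, true, false, [(0, 1), (3, 10)], []⟩,
  ⟨998, 120, 0, 256, 145, true, true, false, [(0, 1), (3, 10)], []⟩,
  ⟨1039, 120, 0, 240, 132, true, true, false, [(0, 1), (3, 11)], []⟩,
  ⟨1080, 120, 0, 240, 132, true, true, false, [(0, 1), (3, 11)], []⟩,
  ⟨1121, 120, 0, 240, 132, true, true, false, [(0, 1), (3, 11)], []⟩,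
  ⟨1162, 120, 0, 240, 132, true, true, false, [(0, 1), (3, 11)], []⟩,
  ⟨1203, 120, 0, 240, 132, true, true, false, [(0, 2), (3, 10)], []⟩,
  ⟨1244, 120, 0, 240, 132, true, true, false, [(0, 2), (3, 10)], []⟩,
  ⟨1285, 120, 0, 240, 132, true, true, false, [(0, 2), (3, 10)], []⟩,
  ⟨1326, 120, 0, 224, 120, true, true, false, [(0, 2), (3, 11)], []⟩,
  ⟨1367, 120, 0, 224, 120, true, true, false, [(0, 2), (3, 11)], []⟩,
  ⟨1408, 120, 0, 224, 120, true, true, false, [(0, 2), (3, 11)], []⟩,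
  ⟨1449, 120, 0, 224, 120, true, true, false, [(0, 2), (3, 11)], []⟩,
  ⟨1490, 120, 0, 224, 120, true, true, false, [(0, 3), (3, 10)], []⟩,
  ⟨1518, 120, 0, 224, 120, true, true, false, [(0, 3), (3, 10)], []⟩,
  ⟨1546, 120, 0, 224, 120, true, true, false, [(0, 3), (3, 10)], []⟩,
  ⟨1566, 120, 0, 224, 120, true, true, false, [(0, 4), (3, 9)], []⟩,
  ⟨1580, 120, 0, 208, 109, true, true, false, [(0, 4), (3, 10)], []⟩,
  ⟨1594, 120, 0, 208, 109, true, true, false, [(0, 5), (3, 9)], []⟩,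
  ⟨1608, 120, 0, 208, 109, true, true, false, [(0, 5), (3, 9)], []⟩,
  ⟨1617, 120, 0, 208, 109, true, true, false, [(0, 6), (3, 8)], []⟩,
  ⟨1626, 120, 0, 208, 109, true, true, false, [(0, 7), (3, 7)], []⟩,
  ⟨1635, 120, 0, 208, 109, true, true, false, [(0, 9), (3, 5)], []⟩,
  ⟨1644, 120, 0, 208, 109, true, true, false, [(0, 11), (3, 3)], []⟩,
  ⟨1665, 120, 0, 208, 109, true, true, false, [(0, 14)], []⟩,
  ⟨1710, 120, 0, 208, 109, true, true, false, [(0, 14)], []⟩,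
  ⟨1800, 120, 0, 192, 98, true, true, false, [(0, 15)], []⟩,
  ⟨1980, 120, 0, 192, 98, true, true, false, [(0, 15)], []⟩,
  ⟨2336, 120, 0, 160, 78, true, true, false, [(0, 18)], []⟩,
  ⟨3713, 120, 0, 60, 27, true, true, false, [(0, 24)], []⟩,
  ⟨6692, 120, 0, 0, 0, true, false, false, [(0, 28)], []⟩
  ] = true := by decide +kernel

def g65_30 : Gr := ⟨false, 415, 419, 1024, 1024, 65, 65, 8255, 8256, 0, 2048, 0, []⟩

theorem k65_30 : chk g65_30 T400 [
  ⟨498, 90, 540, 224, 144, false, true, false, [(0, 1), (3, 4), (22, 3), (10, 1), (11, 2), (12, 2), (13, 3), (14, 2)], []⟩,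
  ⟨668, 90, 630, 96, 236, false, true, false, [(0, 1), (3, 14), (13, 1), (14, 2), (3, 11)], []⟩,
  ⟨751, 90, 630, 96, 228, false, true, false, [(0, 1), (3, 16), (14, 1), (3, 11)], []⟩,
  ⟨809, 90, 540, 208, 117, false, true, false, [(0, 1), (3, 18)], []⟩,
  ⟨867, 90, 540, 208, 109, false, true, false, [(0, 1), (3, 18)], []⟩,
  ⟨908, 90, 0, 256, 145, true, true, false, [(0, 1), (3, 14)], []⟩,
  ⟨966, 90, 0, 256, 145, true, true, false, [(0, 1), (3, 14)], []⟩,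
  ⟨1024, 90, 0, 256, 145, true, true, false, [(0, 1), (3, 14)], []⟩,
  ⟨1064, 90, 0, 256, 145, true, true, false, [(0, 1), (3, 14)], []⟩,
  ⟨1104, 90, 0, 256, 145, true, true, false, [(0, 1), (3, 14)], []⟩,
  ⟨1144, 90, 0, 256, 145, true, true, false, [(0, 1), (3, 14)], []⟩,
  ⟨1172, 90, 0, 256, 145, true, true, false, [(0, 1), (3, 14)], []⟩,
  ⟨1200, 90, 0, 256, 145, true, true, false, [(0, 2), (3, 13)], []⟩,
  ⟨1228, 90, 0, 224, 120, true, true, false, [(0, 2), (3, 16)], []⟩,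
  ⟨1256, 90, 0, 224, 120, true, true, false, [(0, 2), (3, 16)], []⟩,
  ⟨1284, 90, 0, 224, 120, true, true, false, [(0, 2), (3, 16)], []⟩,
  ⟨1312, 90, 0, 224, 120, true, true, false, [(0, 2), (3, 16)], []⟩,
  ⟨1340, 90, 0, 224, 120, true, true, false, [(0, 2), (3, 16)], []⟩,
  ⟨1381, 90, 0, 224, 120, true, true, false, [(0, 2), (3, 16)], []⟩,
  ⟨1409, 90, 0, 224, 120, true, true, false, [(0, 2), (3, 16)], []⟩,
  ⟨1437, 90, 0, 224, 120, true, true, false, [(0, 2), (3, 16)], []⟩,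
  ⟨1465, 90, 0, 224, 120, true, true, false, [(0, 2), (3, 16)], []⟩,
  ⟨1493, 90, 0, 224, 120, true, true, false, [(0, 3), (3, 15)], []⟩,
  ⟨1513, 90, 0, 224, 120, true, true, false, [(0, 3), (3, 15)], []⟩,
  ⟨1533, 90, 0, 208, 109, true, true, false, [(0, 3), (3, 16)], []⟩,
  ⟨1553, 90, 0, 208, 109, true, true, false, [(0, 3), (3, 16)], []⟩,
  ⟨1573, 90, 0, 208, 109, true, true, false, [(0, 4), (3, 15)], []⟩,
  ⟨1587, 90, 0, 208, 109, true, true, false, [(0, 4), (3, 15)], []⟩,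
  ⟨1601, 90, 0, 208, 109, true, true, false, [(0, 5), (3, 14)], []⟩,
  ⟨1615, 90, 0, 208, 109, true, true, false, [(0, 5), (3, 14)], []⟩,
  ⟨1629, 90, 0, 208, 109, true, true, false, [(0, 6), (3, 13)], []⟩,
  ⟨1638, 90, 0, 208, 109, true, true, false, [(0, 8), (3, 11)], []⟩,
  ⟨1647, 90, 0, 208, 109, true, true, false, [(0, 10), (3, 9)], []⟩,
  ⟨1656, 90, 0, 208, 109, true, true, false, [(0, 13), (3, 6)], []⟩,
  ⟨1670, 90, 0, 208, 109, true, true, false, [(0, 19)], []⟩,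
  ⟨1701, 90, 0, 208, 109, true, true, false, [(0, 19)], []⟩,
  ⟨1765, 90, 0, 208, 109, true, true, false, [(0, 19)], []⟩,
  ⟨1855, 90, 0, 208, 109, true, true, false, [(0, 19)], []⟩,
  ⟨2107, 90, 0, 176, 88, true, true, false, [(0, 22)], []⟩,
  ⟨2805, 90, 0, 120, 56, true, true, false, [(0, 27)], []⟩,
  ⟨6573, 90, 0, 0, 0, true, false, false, [(0, 38)], []⟩,
  ⟨6757, 90, 0, 0, 0, true, false, false, [(0, 38)], []⟩
  ] = true := by decide +kernel

def g65_31 : Gr := ⟨false, 419, 422, 1024, 1024, 65, 65, 8255, 8256, 0, 2048, 0, []⟩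

theorem k65_31 : chk g65_31 T400 [
  ⟨498, 70, 560, 224, 144, false, true, false, [(0, 1), (3, 5), (22, 4), (10, 1), (11, 3), (12, 3), (13, 3), (14, 3)], []⟩,
  ⟨668, 70, 700, 104, 232, false, false, false, [(0, 1), (3, 19), (14, 3), (3, 14)], []⟩,
  ⟨787, 70, 630, 128, 200, false, false, false, [(0, 1), (3, 21), (14, 1), (3, 11)], []⟩,
  ⟨870, 70, 490, 224, 120, false, true, false, [(0, 1), (3, 22)], []⟩,
  ⟨928, 70, 0, 240, 132, true, true, false, [(0, 1), (3, 20)], []⟩,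
  ⟨986, 70, 0, 240, 132, true, true, false, [(0, 1), (3, 20)], []⟩,
  ⟨1069, 70, 0, 240, 132, true, true, false, [(0, 1), (3, 20)], []⟩,
  ⟨1152, 70, 0, 240, 132, true, true, false, [(0, 1), (3, 20)], []⟩,
  ⟨1235, 70, 0, 240, 132, true, true, false, [(0, 2), (3, 19)], []⟩,
  ⟨1318, 70, 0, 240, 132, true, true, false, [(0, 2), (3, 19)], []⟩,
  ⟨1376, 70, 0, 224, 120, true, true, false, [(0, 2), (3, 21)], []⟩,
  ⟨1434, 70, 0, 224, 120, true, true, false, [(0, 2), (3, 21)], []⟩,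
  ⟨1492, 70, 0, 224, 120, true, true, false, [(0, 2), (3, 21)], []⟩,
  ⟨1550, 70, 0, 224, 120, true, true, false, [(0, 3), (3, 20)], []⟩,
  ⟨1590, 70, 0, 224, 120, true, true, false, [(0, 4), (3, 19)], []⟩,
  ⟨1618, 70, 0, 224, 120, true, true, false, [(0, 4), (3, 19)], []⟩,
  ⟨1637, 70, 0, 224, 120, true, true, false, [(0, 6), (3, 17)], []⟩,
  ⟨1650, 70, 0, 224, 120, true, true, false, [(0, 8), (3, 15)], []⟩,
  ⟨1663, 70, 0, 224, 120, true, true, false, [(0, 11), (3, 12)], []⟩,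
  ⟨1672, 70, 0, 208, 109, true, true, false, [(0, 16), (3, 9)], []⟩,
  ⟨1681, 70, 0, 208, 109, true, true, false, [(0, 23), (3, 2)], []⟩,
  ⟨1702, 70, 0, 208, 109, true, true, false, [(0, 25)], []⟩,
  ⟨1746, 70, 0, 208, 109, true, true, false, [(0, 25)], []⟩,
  ⟨1835, 70, 0, 208, 109, true, true, false, [(0, 25)], []⟩,
  ⟨2013, 70, 0, 192, 98, true, true, false, [(0, 27)], []⟩,
  ⟨2507, 70, 0, 160, 78, true, true, false, [(0, 31)], []⟩,
  ⟨6246, 70, 0, 0, 0, true, false, true, [(0, 47)], [(0, 2)]⟩,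
  ⟨6805, 70, 0, 0, 0, true, false, false, [(0, 49)], []⟩
  ] = true := by decide +kernel

def g65_32 : Gr := ⟨false, 422, 425, 1024, 1024, 65, 65, 8255, 8256, 0, 2048, 0, []⟩

theorem k65_32 : chk g65_32 T400 [
  ⟨498, 70, 490, 256, 145, false, true, false, [(0, 1), (3, 5), (22, 4), (10, 1), (11, 3), (12, 3), (13, 3)], []⟩,
  ⟨668, 70, 700, 104, 240, false, false, false, [(0, 1), (3, 19), (14, 3), (3, 14)], []⟩,
  ⟨787, 70, 630, 104, 224, false, false, false, [(0, 1), (3, 21), (14, 1), (3, 14)], []⟩,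
  ⟨870, 70, 560, 208, 117, false, true, false, [(0, 1), (3, 24)], []⟩,
  ⟨928, 70, 0, 256, 145, true, true, false, [(0, 1), (3, 19)], []⟩,
  ⟨986, 70, 0, 256, 145, true, true, false, [(0, 1), (3, 19)], []⟩,
  ⟨1044, 70, 0, 256, 145, true, true, false, [(0, 1), (3, 19)], []⟩,
  ⟨1102, 70, 0, 256, 145, true, true, false, [(0, 1), (3, 19)], []⟩,
  ⟨1160, 70, 0, 256, 145, true, true, false, [(0, 1), (3, 19)], []⟩,
  ⟨1218, 70, 0, 256, 145, true, true, false, [(0, 2), (3, 18)], []⟩,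
  ⟨1259, 70, 0, 240, 132, true, true, false, [(0, 2), (3, 20)], []⟩,
  ⟨1300, 70, 0, 240, 132, true, true, false, [(0, 2), (3, 20)], []⟩,
  ⟨1341, 70, 0, 240, 132, true, true, false, [(0, 2), (3, 20)], []⟩,
  ⟨1382, 70, 0, 240, 132, true, true, false, [(0, 2), (3, 20)], []⟩,
  ⟨1410, 70, 0, 208, 109, true, true, false, [(0, 2), (3, 23)], []⟩,
  ⟨1438, 70, 0, 208, 109, true, true, false, [(0, 2), (3, 23)], []⟩,
  ⟨1466, 70, 0, 208, 109, true, true, false, [(0, 2), (3, 23)], []⟩,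
  ⟨1507, 70, 0, 208, 109, true, true, false, [(0, 3), (3, 22)], []⟩,
  ⟨1548, 70, 0, 208, 109, true, true, false, [(0, 3), (3, 22)], []⟩,
  ⟨1576, 70, 0, 208, 109, true, true, false, [(0, 3), (3, 22)], []⟩,
  ⟨1604, 70, 0, 208, 109, true, true, false, [(0, 4), (3, 21)], []⟩,
  ⟨1632, 70, 0, 208, 109, true, true, false, [(0, 5), (3, 20)], []⟩,
  ⟨1660, 70, 0, 208, 109, true, true, false, [(0, 6), (3, 19)], []⟩,
  ⟨1688, 70, 0, 208, 109, true, true, false, [(0, 12), (3, 13)], []⟩,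
  ⟨1729, 70, 0, 208, 109, true, true, false, [(0, 25)], []⟩,
  ⟨1812, 70, 0, 208, 109, true, true, false, [(0, 25)], []⟩,
  ⟨1978, 70, 0, 192, 98, true, true, false, [(0, 27)], []⟩,
  ⟨2438, 70, 0, 160, 78, true, true, false, [(0, 31)], []⟩,
  ⟨4212, 70, 0, 44, 19, true, true, false, [(0, 44)], []⟩,
  ⟨6854, 70, 0, 0, 0, true, false, false, [(0, 49)], []⟩
  ] = true := by decide +kernel

def g65_33 : Gr := ⟨false, 425, 428, 1024, 1024, 65, 65, 8255, 8256, 0, 2048, 0, []⟩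

theorem k65_33 : chk g65_33 T400 [
  ⟨498, 50, 550, 224, 152, false, true, false, [(0, 1), (3, 8), (22, 5), (10, 2), (11, 4), (12, 4), (13, 4), (14, 5)], []⟩,
  ⟨742, 50, 550, 224, 120, false, true, false, [(0, 1), (3, 14), (7, 1), (3, 7), (8, 1), (3, 2), (13, 2), (14, 5)], []⟩,
  ⟨861, 50, 550, 224, 120, false, true, false, [(0, 1), (3, 31), (14, 1)], []⟩,
  ⟨944, 50, 0, 256, 145, true, true, false, [(0, 1), (3, 27)], []⟩,
  ⟨1027, 50, 0, 256, 145, true, true, false, [(0, 1), (3, 27)], []⟩,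
  ⟨1110, 50, 0, 256, 145, true, true, false, [(0, 1), (3, 27)], []⟩,
  ⟨1193, 50, 0, 256, 145, true, true, false, [(0, 1), (3, 27)], []⟩,
  ⟨1251, 50, 0, 224, 120, true, true, false, [(0, 2), (3, 31)], []⟩,
  ⟨1334, 50, 0, 224, 120, true, true, false, [(0, 2), (3, 31)], []⟩,
  ⟨1417, 50, 0, 224, 120, true, true, false, [(0, 2), (3, 31)], []⟩,
  ⟨1500, 50, 0, 224, 120, true, true, false, [(0, 2), (3, 31)], []⟩,
  ⟨1558, 50, 0, 224, 120, true, true, false, [(0, 3), (3, 30)], []⟩,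
  ⟨1616, 50, 0, 224, 120, true, true, false, [(0, 3), (3, 30)], []⟩,
  ⟨1656, 50, 0, 224, 120, true, true, false, [(0, 5), (3, 28)], []⟩,
  ⟨1684, 50, 0, 224, 120, true, true, false, [(0, 8), (3, 25)], []⟩,
  ⟨1703, 50, 0, 224, 120, true, true, false, [(0, 22), (3, 11)], []⟩,
  ⟨1722, 50, 0, 224, 120, true, true, false, [(0, 33)], []⟩,
  ⟨1763, 50, 0, 208, 109, true, true, false, [(0, 36)], []⟩,
  ⟨1846, 50, 0, 208, 109, true, true, false, [(0, 36)], []⟩,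
  ⟨2012, 50, 0, 192, 98, true, true, false, [(0, 39)], []⟩,
  ⟨2473, 50, 0, 144, 69, true, true, false, [(0, 46)], []⟩,
  ⟨4251, 50, 0, 32, 14, true, true, false, [(0, 64)], []⟩,
  ⟨6902, 50, 0, 0, 0, true, false, false, [(0, 70)], []⟩
  ] = true := by decide +kernel

def g65_34 : Gr := ⟨false, 428, 431, 1024, 1024, 65, 65, 8255, 8256, 0, 2048, 0, []⟩

theorem k65_34 : chk g65_34 T400 [
  ⟨498, 120, 480, 240, 140, false, true, false, [(0, 1), (3, 3), (22, 2), (11, 2), (12, 2), (13, 2), (14, 1)], []⟩,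
  ⟨668, 120, 720, 104, 240, false, false, false, [(0, 1), (3, 11), (14, 1), (3, 9)], []⟩,
  ⟨787, 120, 720, 104, 232, false, false, false, [(0, 1), (3, 21)], []⟩,
  ⟨845, 120, 600, 104, 224, false, false, false, [(0, 1), (3, 21)], []⟩,
  ⟨903, 120, 480, 224, 120, false, true, false, [(0, 1), (3, 13)], []⟩,
  ⟨944, 120, 480, 224, 120, false, true, false, [(0, 1), (3, 13)], []⟩,
  ⟨985, 120, 0, 256, 145, true, true, false, [(0, 1), (3, 11)], []⟩,
  ⟨1026, 120, 0, 256, 145, true, true, false, [(0, 1), (3, 11)], []⟩,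
  ⟨1067, 120, 0, 256, 145, true, true, false, [(0, 1), (3, 11)], []⟩,
  ⟨1108, 120, 0, 256, 145, true, true, false, [(0, 1), (3, 11)], []⟩,
  ⟨1166, 120, 0, 240, 132, true, true, false, [(0, 1), (3, 12)], []⟩,
  ⟨1224, 120, 0, 240, 132, true, true, false, [(0, 1), (3, 12)], []⟩,
  ⟨1282, 120, 0, 240, 132, true, true, false, [(0, 2), (3, 11)], []⟩,
  ⟨1340, 120, 0, 240, 132, true, true, false, [(0, 2), (3, 11)], []⟩,
  ⟨1398, 120, 0, 240, 132, true, true, false, [(0, 2), (3, 11)], []⟩,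
  ⟨1456, 120, 0, 224, 120, true, true, false, [(0, 2), (3, 12)], []⟩,
  ⟨1514, 120, 0, 224, 120, true, true, false, [(0, 2), (3, 12)], []⟩,
  ⟨1554, 120, 0, 224, 120, true, true, false, [(0, 3), (3, 11)], []⟩,
  ⟨1594, 120, 0, 224, 120, true, true, false, [(0, 3), (3, 11)], []⟩,
  ⟨1622, 120, 0, 224, 120, true, true, false, [(0, 4), (3, 10)], []⟩,
  ⟨1650, 120, 0, 224, 120, true, true, false, [(0, 4), (3, 10)], []⟩,
  ⟨1670, 120, 0, 224, 120, true, true, false, [(0, 5), (3, 9)], []⟩,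
  ⟨1684, 120, 0, 208, 109, true, true, false, [(0, 7), (3, 8)], []⟩,
  ⟨1698, 120, 0, 208, 109, true, true, false, [(0, 9), (3, 6)], []⟩,
  ⟨1712, 120, 0, 208, 109, true, true, false, [(0, 12), (3, 3)], []⟩,
  ⟨1741, 120, 0, 208, 109, true, true, false, [(0, 15)], []⟩,
  ⟨1827, 120, 0, 208, 109, true, true, false, [(0, 15)], []⟩,
  ⟨1948, 120, 0, 208, 109, true, true, false, [(0, 15)], []⟩,
  ⟨2189, 120, 0, 176, 88, true, true, false, [(0, 18)], []⟩,
  ⟨2855, 120, 0, 120, 56, true, true, false, [(0, 21)], []⟩,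
  ⟨6453, 120, 0, 0, 0, true, false, false, [(0, 29)], []⟩,
  ⟨6950, 120, 0, 0, 0, true, false, false, [(0, 29)], []⟩
  ] = true := by decide +kernel

def g65_35 : Gr := ⟨false, 431, 434, 1024, 1024, 65, 65, 8255, 8256, 0, 2048, 0, []⟩

theorem k65_35 : chk g65_35 T400 [
  ⟨498, 90, 540, 240, 140, false, true, false, [(0, 1), (3, 4), (22, 3), (10, 1), (11, 2), (12, 2), (13, 3), (14, 2)], []⟩,
  ⟨668, 90, 720, 88, 256, false, false, false, [(0, 1), (3, 15), (14, 2), (3, 13)], []⟩,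
  ⟨787, 90, 630, 112, 224, false, false, false, [(0, 1), (3, 28)], []⟩,
  ⟨870, 90, 540, 224, 120, false, true, false, [(0, 1), (3, 18)], []⟩,
  ⟨928, 90, 0, 256, 145, true, true, false, [(0, 1), (3, 15)], []⟩,
  ⟨986, 90, 0, 256, 145, true, true, false, [(0, 1), (3, 15)], []⟩,
  ⟨1069, 90, 0, 256, 145, true, true, false, [(0, 1), (3, 15)], []⟩,
  ⟨1152, 90, 0, 256, 145, true, true, false, [(0, 1), (3, 15)], []⟩,
  ⟨1210, 90, 0, 256, 145, true, true, false, [(0, 1), (3, 15)], []⟩,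
  ⟨1268, 90, 0, 256, 145, true, true, false, [(0, 2), (3, 14)], []⟩,
  ⟨1326, 90, 0, 240, 132, true, true, false, [(0, 2), (3, 16)], []⟩,
  ⟨1384, 90, 0, 224, 120, true, true, false, [(0, 2), (3, 17)], []⟩,
  ⟨1442, 90, 0, 224, 120, true, true, false, [(0, 2), (3, 17)], []⟩,
  ⟨1500, 90, 0, 224, 120, true, true, false, [(0, 2), (3, 17)], []⟩,
  ⟨1558, 90, 0, 224, 120, true, true, false, [(0, 3), (3, 16)], []⟩,
  ⟨1598, 90, 0, 224, 120, true, true, false, [(0, 3), (3, 16)], []⟩,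
  ⟨1638, 90, 0, 224, 120, true, true, false, [(0, 4), (3, 15)], []⟩,
  ⟨1666, 90, 0, 224, 120, true, true, false, [(0, 5), (3, 14)], []⟩,
  ⟨1685, 90, 0, 224, 120, true, true, false, [(0, 6), (3, 13)], []⟩,
  ⟨1704, 90, 0, 224, 120, true, true, false, [(0, 8), (3, 11)], []⟩,
  ⟨1717, 90, 0, 224, 120, true, true, false, [(0, 12), (3, 7)], []⟩,
  ⟨1726, 90, 0, 224, 120, true, true, false, [(0, 18), (3, 1)], []⟩,
  ⟨1740, 90, 0, 224, 120, true, true, false, [(0, 19)], []⟩,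
  ⟨1761, 90, 0, 224, 120, true, true, false, [(0, 19)], []⟩,
  ⟨1782, 90, 0, 224, 120, true, true, false, [(0, 19)], []⟩,
  ⟨1826, 90, 0, 208, 109, true, true, false, [(0, 21)], []⟩,
  ⟨1952, 90, 0, 192, 98, true, true, false, [(0, 22)], []⟩,
  ⟨2203, 90, 0, 176, 88, true, true, false, [(0, 24)], []⟩,
  ⟨2896, 90, 0, 112, 52, true, true, false, [(0, 29)], []⟩,
  ⟨6635, 90, 0, 0, 0, true, false, false, [(0, 39)], []⟩,
  ⟨6999, 90, 0, 0, 0, true, false, false, [(0, 39)], []⟩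
  ] = true := by decide +kernel

def g65_36 : Gr := ⟨false, 434, 436, 1024, 1024, 65, 65, 8255, 8256, 0, 2048, 0, []⟩

theorem k65_36 : chk g65_36 T400 [
  ⟨498, 90, 540, 240, 148, false, true, false, [(0, 1), (3, 4), (22, 3), (10, 1), (11, 2), (12, 2), (13, 3), (14, 2)], []⟩,
  ⟨668, 90, 630, 104, 248, false, false, false, [(0, 1), (3, 15), (14, 2), (3, 12)], []⟩,
  ⟨787, 90, 630, 104, 232, false, false, false, [(0, 1), (3, 29)], []⟩,
  ⟨870, 90, 540, 224, 120, false, true, false, [(0, 1), (3, 18)], []⟩,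
  ⟨953, 90, 540, 224, 120, false, true, false, [(0, 1), (3, 18)], []⟩,
  ⟨1011, 90, 540, 224, 120, false, true, false, [(0, 1), (3, 18)], []⟩,
  ⟨1052, 90, 0, 240, 132, true, true, false, [(0, 1), (3, 17)], []⟩,
  ⟨1110, 90, 0, 240, 132, true, true, false, [(0, 1), (3, 17)], []⟩,
  ⟨1168, 90, 0, 240, 132, true, true, false, [(0, 1), (3, 17)], []⟩,
  ⟨1226, 90, 0, 240, 132, true, true, false, [(0, 1), (3, 17)], []⟩,
  ⟨1308, 90, 0, 240, 132, true, true, false, [(0, 2), (3, 16)], []⟩,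
  ⟨1365, 90, 0, 224, 120, true, true, false, [(0, 2), (3, 17)], []⟩,
  ⟨1447, 90, 0, 224, 120, true, true, false, [(0, 2), (3, 17)], []⟩,
  ⟨1529, 90, 0, 224, 120, true, true, false, [(0, 2), (3, 17)], []⟩,
  ⟨1586, 90, 0, 224, 120, true, true, false, [(0, 3), (3, 16)], []⟩,
  ⟨1643, 90, 0, 224, 120, true, true, false, [(0, 3), (3, 16)], []⟩,
  ⟨1683, 90, 0, 224, 120, true, true, false, [(0, 5), (3, 14)], []⟩,
  ⟨1723, 90, 0, 224, 120, true, true, false, [(0, 7), (3, 12)], []⟩,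
  ⟨1751, 90, 0, 224, 120, true, true, false, [(0, 19)], []⟩,
  ⟨1791, 90, 0, 224, 120, true, true, false, [(0, 19)], []⟩,
  ⟨1872, 90, 0, 208, 109, true, true, false, [(0, 21)], []⟩,
  ⟨2100, 90, 0, 192, 98, true, true, false, [(0, 22)], []⟩,
  ⟨2550, 90, 0, 144, 69, true, true, false, [(0, 27)], []⟩,
  ⟨5956, 90, 0, 2, 1, true, true, true, [(0, 37)], [(0, 2)]⟩,
  ⟨7031, 90, 0, 0, 0, true, false, false, [(0, 40)], []⟩
  ] = true := by decide +kernel

def g65_37 : Gr := ⟨false, 435, 439, 1024, 1024, 65, 65, 8255, 8256, 0, 2048, 0, []⟩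

theorem k65_37 : chk g65_37 T425 [
  ⟨498, 70, 560, 240, 148, false, true, false, [(0, 1), (3, 5), (23, 4), (10, 1), (11, 3), (12, 3), (13, 3), (14, 3)], []⟩,
  ⟨742, 70, 560, 240, 132, false, true, false, [(0, 1), (3, 9), (7, 1), (3, 5), (8, 1), (3, 2), (13, 1), (14, 3)], []⟩,
  ⟨861, 70, 630, 144, 192, false, false, false, [(0, 1), (3, 24), (15, 1), (3, 8)], []⟩,
  ⟨944, 70, 560, 224, 120, false, true, false, [(0, 1), (3, 24)], []⟩,
  ⟨1002, 70, 490, 224, 120, false, true, false, [(0, 1), (3, 24)], []⟩,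
  ⟨1060, 70, 0, 240, 132, true, true, false, [(0, 1), (3, 22)], []⟩,
  ⟨1118, 70, 0, 240, 132, true, true, false, [(0, 1), (3, 22)], []⟩,
  ⟨1201, 70, 0, 240, 132, true, true, false, [(0, 1), (3, 22)], []⟩,
  ⟨1284, 70, 0, 240, 132, true, true, false, [(0, 2), (3, 21)], []⟩,
  ⟨1367, 70, 0, 240, 132, true, true, false, [(0, 2), (3, 21)], []⟩,
  ⟨1450, 70, 0, 240, 132, true, true, false, [(0, 2), (3, 21)], []⟩,
  ⟨1508, 70, 0, 224, 120, true, true, false, [(0, 2), (3, 23)], []⟩,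
  ⟨1566, 70, 0, 224, 120, true, true, false, [(0, 3), (3, 22)], []⟩,
  ⟨1606, 70, 0, 224, 120, true, true, false, [(0, 3), (3, 22)], []⟩,
  ⟨1646, 70, 0, 224, 120, true, true, false, [(0, 4), (3, 21)], []⟩,
  ⟨1674, 70, 0, 224, 120, true, true, false, [(0, 4), (3, 21)], []⟩,
  ⟨1702, 70, 0, 224, 120, true, true, false, [(0, 6), (3, 19)], []⟩,
  ⟨1721, 70, 0, 224, 120, true, true, false, [(0, 9), (3, 16)], []⟩,
  ⟨1734, 70, 0, 224, 120, true, true, false, [(0, 15), (3, 10)], []⟩,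
  ⟨1743, 70, 0, 224, 120, true, true, false, [(0, 23), (3, 2)], []⟩,
  ⟨1757, 70, 0, 224, 120, true, true, false, [(0, 25)], []⟩,
  ⟨1778, 70, 0, 208, 109, true, true, false, [(0, 27)], []⟩,
  ⟨1841, 70, 0, 208, 109, true, true, false, [(0, 27)], []⟩,
  ⟨1967, 70, 0, 192, 98, true, true, false, [(0, 29)], []⟩,
  ⟨2218, 70, 0, 176, 88, true, true, false, [(0, 31)], []⟩,
  ⟨2911, 70, 0, 120, 56, true, true, false, [(0, 37)], []⟩,
  ⟨6650, 70, 0, 0, 0, true, false, false, [(0, 51)], []⟩,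
  ⟨7079, 70, 0, 0, 0, true, false, false, [(0, 51)], []⟩
  ] = true := by decide +kernel

def g65_38 : Gr := ⟨false, 439, 442, 1024, 1024, 65, 65, 8255, 8256, 0, 2048, 0, []⟩

theorem k65_38 : chk g65_38 T425 [
  ⟨498, 90, 540, 224, 160, false, true, false, [(0, 1), (3, 4), (23, 3), (10, 1), (11, 2), (12, 2), (13, 3), (14, 2), (15, 2)], []⟩,
  ⟨742, 90, 720, 96, 248, false, false, false, [(0, 1), (3, 7), (7, 1), (3, 3), (8, 1), (3, 2), (13, 1), (14, 2), (15, 2), (3, 11)], []⟩,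
  ⟨861, 90, 630, 120, 216, false, false, false, [(0, 1), (3, 28)], []⟩,
  ⟨944, 90, 540, 208, 125, false, true, false, [(0, 1), (3, 20)], []⟩,
  ⟨1002, 90, 0, 256, 145, true, true, false, [(0, 1), (3, 16)], []⟩,
  ⟨1060, 90, 0, 256, 145, true, true, false, [(0, 1), (3, 16)], []⟩,
  ⟨1143, 90, 0, 256, 145, true, true, false, [(0, 1), (3, 16)], []⟩,
  ⟨1225, 90, 0, 256, 145, true, true, false, [(0, 1), (3, 16)], []⟩,
  ⟨1282, 90, 0, 256, 145, true, true, false, [(0, 2), (3, 15)], []⟩,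
  ⟨1339, 90, 0, 256, 145, true, true, false, [(0, 2), (3, 15)], []⟩,
  ⟨1379, 90, 0, 224, 120, true, true, false, [(0, 2), (3, 18)], []⟩,
  ⟨1419, 90, 0, 224, 120, true, true, false, [(0, 2), (3, 18)], []⟩,
  ⟨1459, 90, 0, 224, 120, true, true, false, [(0, 2), (3, 18)], []⟩,
  ⟨1499, 90, 0, 224, 120, true, true, false, [(0, 2), (3, 18)], []⟩,
  ⟨1539, 90, 0, 224, 120, true, true, false, [(0, 2), (3, 18)], []⟩,
  ⟨1579, 90, 0, 224, 120, true, true, false, [(0, 3), (3, 17)], []⟩,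
  ⟨1619, 90, 0, 224, 120, true, true, false, [(0, 3), (3, 17)], []⟩,
  ⟨1647, 90, 0, 224, 120, true, true, false, [(0, 3), (3, 17)], []⟩,
  ⟨1675, 90, 0, 224, 120, true, true, false, [(0, 4), (3, 16)], []⟩,
  ⟨1694, 90, 0, 208, 109, true, true, false, [(0, 5), (3, 16)], []⟩,
  ⟨1713, 90, 0, 208, 109, true, true, false, [(0, 6), (3, 15)], []⟩,
  ⟨1732, 90, 0, 208, 109, true, true, false, [(0, 8), (3, 13)], []⟩,
  ⟨1751, 90, 0, 208, 109, true, true, false, [(0, 12), (3, 9)], []⟩,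
  ⟨1779, 90, 0, 208, 109, true, true, false, [(0, 21)], []⟩,
  ⟨1862, 90, 0, 208, 109, true, true, false, [(0, 21)], []⟩,
  ⟨1979, 90, 0, 208, 109, true, true, false, [(0, 21)], []⟩,
  ⟨2305, 90, 0, 176, 88, true, true, false, [(0, 24)], []⟩,
  ⟨3204, 90, 0, 96, 44, true, true, false, [(0, 31)], []⟩,
  ⟨6668, 90, 0, 0, 0, true, false, false, [(0, 40)], []⟩,
  ⟨7128, 90, 0, 0, 0, true, false, false, [(0, 40)], []⟩
  ] = true := by decide +kernel

def g65_39 : Gr := ⟨false, 442, 447, 1024, 1024, 65, 65, 8255, 8256, 0, 2048, 0, []⟩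

theorem k65_39 : chk g65_39 T425 [
  ⟨498, 120, 600, 224, 168, false, true, false, [(0, 1), (3, 3), (23, 2), (11, 2), (12, 2), (13, 2), (14, 1), (15, 2)], []⟩,
  ⟨668, 120, 720, 96, 260, false, true, false, [(0, 1), (3, 11), (14, 1), (3, 1), (15, 1), (3, 9)], []⟩,
  ⟨787, 120, 600, 120, 224, false, false, false, [(0, 1), (3, 21)], []⟩,
  ⟨870, 120, 600, 120, 216, false, false, false, [(0, 1), (3, 21)], []⟩,
  ⟨928, 120, 600, 120, 208, false, false, false, [(0, 1), (3, 21)], []⟩,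
  ⟨969, 120, 480, 224, 120, false, true, false, [(0, 1), (3, 14)], []⟩,
  ⟨1010, 120, 0, 256, 145, true, true, false, [(0, 1), (3, 12)], []⟩,
  ⟨1051, 120, 0, 256, 145, true, true, false, [(0, 1), (3, 12)], []⟩,
  ⟨1092, 120, 0, 256, 145, true, true, false, [(0, 1), (3, 12)], []⟩,
  ⟨1150, 120, 0, 256, 145, true, true, false, [(0, 1), (3, 12)], []⟩,
  ⟨1208, 120, 0, 256, 145, true, true, false, [(0, 1), (3, 12)], []⟩,
  ⟨1266, 120, 0, 240, 132, true, true, false, [(0, 2), (3, 12)], []⟩,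
  ⟨1324, 120, 0, 240, 132, true, true, false, [(0, 2), (3, 12)], []⟩,
  ⟨1382, 120, 0, 240, 132, true, true, false, [(0, 2), (3, 12)], []⟩,
  ⟨1440, 120, 0, 240, 132, true, true, false, [(0, 2), (3, 12)], []⟩,
  ⟨1480, 120, 0, 240, 132, true, true, false, [(0, 2), (3, 12)], []⟩,
  ⟨1520, 120, 0, 224, 120, true, true, false, [(0, 2), (3, 13)], []⟩,
  ⟨1560, 120, 0, 224, 120, true, true, false, [(0, 2), (3, 13)], []⟩,
  ⟨1600, 120, 0, 224, 120, true, true, false, [(0, 3), (3, 12)], []⟩,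
  ⟨1640, 120, 0, 224, 120, true, true, false, [(0, 3), (3, 12)], []⟩,
  ⟨1668, 120, 0, 224, 120, true, true, false, [(0, 4), (3, 11)], []⟩,
  ⟨1696, 120, 0, 224, 120, true, true, false, [(0, 4), (3, 11)], []⟩,
  ⟨1716, 120, 0, 224, 120, true, true, false, [(0, 5), (3, 10)], []⟩,
  ⟨1730, 120, 0, 224, 120, true, true, false, [(0, 6), (3, 9)], []⟩,
  ⟨1744, 120, 0, 224, 120, true, true, false, [(0, 8), (3, 7)], []⟩,
  ⟨1753, 120, 0, 224, 120, true, true, false, [(0, 10), (3, 5)], []⟩,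
  ⟨1762, 120, 0, 224, 120, true, true, false, [(0, 12), (3, 3)], []⟩,
  ⟨1771, 120, 0, 224, 120, true, true, false, [(0, 15)], []⟩,
  ⟨1785, 120, 0, 224, 120, true, true, false, [(0, 15)], []⟩,
  ⟨1806, 120, 0, 224, 120, true, true, false, [(0, 15)], []⟩,
  ⟨1837, 120, 0, 224, 120, true, true, false, [(0, 15)], []⟩,
  ⟨1868, 120, 0, 224, 120, true, true, false, [(0, 15)], []⟩,
  ⟨1912, 120, 0, 208, 109, true, true, false, [(0, 17)], []⟩,
  ⟨2002, 120, 0, 192, 98, true, true, false, [(0, 18)], []⟩,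
  ⟨2254, 120, 0, 176, 88, true, true, false, [(0, 19)], []⟩,
  ⟨2950, 120, 0, 120, 56, true, true, false, [(0, 22)], []⟩,
  ⟨6704, 120, 0, 0, 0, true, false, false, [(0, 31)], []⟩,
  ⟨7208, 120, 0, 0, 0, true, false, false, [(0, 31)], []⟩
  ] = true := by decide +kernel

def g65_40 : Gr := ⟨false, 447, 453, 1024, 1024, 65, 65, 8255, 8256, 0, 2048, 0, []⟩

theorem k65_40 : chk g65_40 T425 [
  ⟨498, 50, 600, 224, 168, false, true, false, [(0, 1), (3, 8), (23, 5), (10, 2), (11, 4), (12, 4), (13, 4), (14, 5), (15, 4)], []⟩,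
  ⟨742, 50, 700, 112, 244, false, true, false, [(0, 1), (3, 14), (7, 1), (3, 6), (8, 2), (3, 3), (13, 1), (14, 5), (15, 4), (3, 18)], []⟩,
  ⟨861, 50, 650, 112, 228, false, true, false, [(0, 1), (3, 31), (14, 1), (3, 3), (15, 1), (3, 18)], []⟩,
  ⟨944, 50, 650, 112, 220, false, true, false, [(0, 1), (3, 54)], []⟩,
  ⟨1002, 50, 550, 224, 120, false, true, false, [(0, 1), (3, 36)], []⟩,
  ⟨1060, 50, 0, 256, 145, true, true, false, [(0, 1), (3, 31)], []⟩,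
  ⟨1118, 50, 0, 256, 145, true, true, false, [(0, 1), (3, 31)], []⟩,
  ⟨1201, 50, 0, 256, 145, true, true, false, [(0, 1), (3, 31)], []⟩,
  ⟨1283, 50, 0, 256, 145, true, true, false, [(0, 2), (3, 30)], []⟩,
  ⟨1340, 50, 0, 240, 132, true, true, false, [(0, 2), (3, 33)], []⟩,
  ⟨1397, 50, 0, 240, 132, true, true, false, [(0, 2), (3, 33)], []⟩,
  ⟨1454, 50, 0, 240, 132, true, true, false, [(0, 2), (3, 33)], []⟩,
  ⟨1511, 50, 0, 224, 120, true, true, false, [(0, 2), (3, 35)], []⟩,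
  ⟨1568, 50, 0, 224, 120, true, true, false, [(0, 2), (3, 35)], []⟩,
  ⟨1625, 50, 0, 224, 120, true, true, false, [(0, 3), (3, 34)], []⟩,
  ⟨1665, 50, 0, 224, 120, true, true, false, [(0, 3), (3, 34)], []⟩,
  ⟨1705, 50, 0, 224, 120, true, true, false, [(0, 4), (3, 33)], []⟩,
  ⟨1733, 50, 0, 224, 120, true, true, false, [(0, 5), (3, 32)], []⟩,
  ⟨1752, 50, 0, 224, 120, true, true, false, [(0, 7), (3, 30)], []⟩,
  ⟨1771, 50, 0, 224, 120, true, true, false, [(0, 11), (3, 26)], []⟩,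
  ⟨1784, 50, 0, 224, 120, true, true, false, [(0, 22), (3, 15)], []⟩,
  ⟨1797, 50, 0, 224, 120, true, true, false, [(0, 37)], []⟩,
  ⟨1817, 50, 0, 224, 120, true, true, false, [(0, 37)], []⟩,
  ⟨1846, 50, 0, 224, 120, true, true, false, [(0, 37)], []⟩,
  ⟨1931, 50, 0, 208, 109, true, true, false, [(0, 40)], []⟩,
  ⟨2100, 50, 0, 192, 98, true, true, false, [(0, 43)], []⟩,
  ⟨2570, 50, 0, 144, 69, true, true, false, [(0, 50)], []⟩,
  ⟨5110, 50, 0, 20, 9, true, true, false, [(0, 70)], []⟩,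
  ⟨7305, 50, 0, 0, 0, true, false, false, [(0, 74)], []⟩
  ] = true := by decide +kernel

end Pool.Agent.Lib.MP_af3a4a_an.P1.CHK.H81.L
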