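import Pool.Agent.Lib.MP_af3a4a_an.P1.CHK.H81.LT
/-!
# Data, `65 ≤ N ≤ 65`, `453 ≤ 1024 R ≤ 820` (helper81)
-/
set_option autoImplicit false

namespace Pool.Agent.Lib.MP_af3a4a_an.P1.CHK.H81.L

open Pool.Agent.Lib.MP_af3a4a_an.P1.CHK.H58.G (Gr En)

def g65_41 : Gr := ⟨false, 453, 458, 1024, 1024, 65, 65, 8255, 8256, 0, 2048, 0, []⟩

theorem k65_41 : chk g65_41 T425 [
  ⟨498, 90, 540, 240, 164, false, true, false, [(0, 1), (3, 4), (23, 3), (10, 1), (11, 2), (12, 2), (13, 3), (14, 2), (15, 2)], []⟩,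
  ⟨742, 90, 720, 112, 248, false, false, false, [(0, 1), (3, 7), (7, 1), (3, 6), (13, 1), (14, 2), (15, 2), (3, 11)], []⟩,
  ⟨861, 90, 630, 112, 236, false, true, false, [(0, 1), (3, 30)], []⟩,
  ⟨944, 90, 630, 112, 228, false, true, false, [(0, 1), (3, 30)], []⟩,
  ⟨1027, 90, 540, 224, 120, false, true, false, [(0, 1), (3, 20)], []⟩,
  ⟨1068, 90, 540, 224, 120, false, true, false, [(0, 1), (3, 20)], []⟩,
  ⟨1109, 90, 540, 224, 120, false, true, false, [(0, 1), (3, 20)], []⟩,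
  ⟨1137, 90, 0, 240, 132, true, true, false, [(0, 1), (3, 19)], []⟩,
  ⟨1178, 90, 0, 240, 132, true, true, false, [(0, 1), (3, 19)], []⟩,
  ⟨1219, 90, 0, 240, 132, true, true, false, [(0, 1), (3, 19)], []⟩,
  ⟨1277, 90, 0, 240, 132, true, true, false, [(0, 2), (3, 18)], []⟩,
  ⟨1335, 90, 0, 240, 132, true, true, false, [(0, 2), (3, 18)], []⟩,
  ⟨1393, 90, 0, 240, 132, true, true, false, [(0, 2), (3, 18)], []⟩,
  ⟨1451, 90, 0, 240, 132, true, true, false, [(0, 2), (3, 18)], []⟩,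
  ⟨1509, 90, 0, 224, 120, true, true, false, [(0, 2), (3, 19)], []⟩,
  ⟨1567, 90, 0, 224, 120, true, true, false, [(0, 2), (3, 19)], []⟩,
  ⟨1625, 90, 0, 224, 120, true, true, false, [(0, 3), (3, 18)], []⟩,
  ⟨1683, 90, 0, 224, 120, true, true, false, [(0, 3), (3, 18)], []⟩,
  ⟨1724, 90, 0, 224, 120, true, true, false, [(0, 4), (3, 17)], []⟩,
  ⟨1765, 90, 0, 224, 120, true, true, false, [(0, 5), (3, 16)], []⟩,
  ⟨1793, 90, 0, 224, 120, true, true, false, [(0, 8), (3, 13)], []⟩,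
  ⟨1813, 90, 0, 224, 120, true, true, false, [(0, 15), (3, 6)], []⟩,
  ⟨1842, 90, 0, 224, 120, true, true, false, [(0, 21)], []⟩,
  ⟨1883, 90, 0, 224, 120, true, true, false, [(0, 21)], []⟩,
  ⟨1967, 90, 0, 208, 109, true, true, false, [(0, 23)], []⟩,
  ⟨2203, 90, 0, 192, 98, true, true, false, [(0, 24)], []⟩,
  ⟨2855, 90, 0, 128, 60, true, true, false, [(0, 30)], []⟩,
  ⟨6373, 90, 0, 0, 0, true, false, false, [(0, 42)], []⟩,
  ⟨7386, 90, 0, 0, 0, true, false, false, [(0, 42)], []⟩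
  ] = true := by decide +kernel

def g65_42 : Gr := ⟨false, 458, 461, 1024, 1024, 65, 65, 8255, 8256, 0, 2048, 0, []⟩

theorem k65_42 : chk g65_42 T425 [
  ⟨498, 120, 600, 240, 164, false, true, false, [(0, 1), (3, 3), (23, 2), (11, 2), (12, 2), (13, 2), (14, 1), (15, 2)], []⟩,
  ⟨742, 120, 720, 104, 256, false, false, false, [(0, 1), (3, 8), (8, 1), (3, 2), (14, 1), (15, 2), (3, 9)], []⟩,
  ⟨910, 120, 720, 104, 240, false, false, false, [(0, 1), (3, 23)], []⟩,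
  ⟨992, 120, 600, 120, 216, false, false, false, [(0, 1), (3, 22)], []⟩,
  ⟨1049, 120, 480, 224, 120, false, true, false, [(0, 1), (3, 15)], []⟩,
  ⟨1106, 120, 0, 256, 145, true, true, false, [(0, 1), (3, 13)], []⟩,
  ⟨1163, 120, 0, 256, 145, true, true, false, [(0, 1), (3, 13)], []⟩,
  ⟨1244, 120, 0, 256, 145, true, true, false, [(0, 1), (3, 13)], []⟩,
  ⟨1325, 120, 0, 256, 145, true, true, false, [(0, 2), (3, 12)], []⟩,
  ⟨1406, 120, 0, 240, 132, true, true, false, [(0, 2), (3, 13)], []⟩,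
  ⟨1487, 120, 0, 240, 132, true, true, false, [(0, 2), (3, 13)], []⟩,
  ⟨1568, 120, 0, 240, 132, true, true, false, [(0, 2), (3, 13)], []⟩,
  ⟨1625, 120, 0, 224, 120, true, true, false, [(0, 3), (3, 13)], []⟩,
  ⟨1682, 120, 0, 224, 120, true, true, false, [(0, 3), (3, 13)], []⟩,
  ⟨1739, 120, 0, 224, 120, true, true, false, [(0, 4), (3, 12)], []⟩,
  ⟨1779, 120, 0, 224, 120, true, true, false, [(0, 5), (3, 11)], []⟩,
  ⟨1819, 120, 0, 224, 120, true, true, false, [(0, 7), (3, 9)], []⟩,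
  ⟨1847, 120, 0, 224, 120, true, true, false, [(0, 16)], []⟩,
  ⟨1928, 120, 0, 208, 109, true, true, false, [(0, 17)], []⟩,
  ⟨2090, 120, 0, 208, 109, true, true, false, [(0, 17)], []⟩,
  ⟨2409, 120, 0, 176, 88, true, true, false, [(0, 20)], []⟩,
  ⟨3291, 120, 0, 104, 48, true, true, false, [(0, 24)], []⟩,
  ⟨6687, 120, 0, 0, 0, true, false, false, [(0, 31)], []⟩,
  ⟨7434, 120, 0, 0, 0, true, false, false, [(0, 31)], []⟩
  ] = true := by decide +kernel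

def g65_43 : Gr := ⟨false, 460, 465, 1024, 1024, 65, 65, 8255, 8256, 0, 2048, 0, []⟩

theorem k65_43 : chk g65_43 T450 [
  ⟨698, 70, 560, 240, 148, false, true, false, [(0, 1), (3, 5), (25, 4), (11, 1), (12, 3), (13, 3), (14, 3), (15, 3), (16, 3)], []⟩,
  ⟨937, 70, 560, 240, 132, false, true, false, [(0, 1), (3, 9), (8, 1), (3, 5), (9, 1), (3, 4), (10, 2), (16, 3)], []⟩,
  ⟨1019, 70, 630, 144, 197, false, true, false, [(0, 1), (3, 24), (16, 1), (3, 11)], []⟩,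
  ⟨1076, 70, 560, 224, 120, false, true, false, [(0, 1), (3, 27)], []⟩,
  ⟨1133, 70, 0, 240, 132, true, true, false, [(0, 1), (3, 25)], []⟩,
  ⟨1190, 70, 0, 240, 132, true, true, false, [(0, 1), (3, 25)], []⟩,
  ⟨1271, 70, 0, 240, 132, true, true, false, [(0, 1), (3, 25)], []⟩,
  ⟨1352, 70, 0, 240, 132, true, true, false, [(0, 2), (3, 24)], []⟩,
  ⟨1433, 70, 0, 240, 132, true, true, false, [(0, 2), (3, 24)], []⟩,
  ⟨1514, 70, 0, 240, 132, true, true, false, [(0, 2), (3, 24)], []⟩,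
  ⟨1595, 70, 0, 240, 132, true, true, false, [(0, 2), (3, 24)], []⟩,
  ⟨1652, 70, 0, 240, 132, true, true, false, [(0, 3), (3, 23)], []⟩,
  ⟨1709, 70, 0, 224, 120, true, true, false, [(0, 3), (3, 25)], []⟩,
  ⟨1748, 70, 0, 224, 120, true, true, false, [(0, 4), (3, 24)], []⟩,
  ⟨1787, 70, 0, 224, 120, true, true, false, [(0, 5), (3, 23)], []⟩,
  ⟨1814, 70, 0, 224, 120, true, true, false, [(0, 8), (3, 20)], []⟩,
  ⟨1833, 70, 0, 224, 120, true, true, false, [(0, 14), (3, 14)], []⟩,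
  ⟨1852, 70, 0, 224, 120, true, true, false, [(0, 28)], []⟩,
  ⟨1892, 70, 0, 224, 120, true, true, false, [(0, 28)], []⟩,
  ⟨1974, 70, 0, 208, 109, true, true, false, [(0, 30)], []⟩,
  ⟨2137, 70, 0, 192, 98, true, true, false, [(0, 32)], []⟩,
  ⟨2590, 70, 0, 144, 69, true, true, false, [(0, 37)], []⟩,
  ⟨4339, 70, 0, 32, 14, true, true, false, [(0, 50)], []⟩,
  ⟨7499, 70, 0, 0, 0, true, false, false, [(0, 54)], []⟩
  ] = true := by decide +kernel

def g65_44 : Gr := ⟨false, 465, 469, 1024, 1024, 65, 65, 8255, 8256, 0, 2048, 0, []⟩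

theorem k65_44 : chk g65_44 T450 [
  ⟨498, 90, 630, 80, 304, false, false, false, [(0, 1), (3, 4), (25, 3), (11, 1), (12, 2), (13, 2), (14, 3), (15, 2), (16, 2), (17, 2), (3, 13)], []⟩,
  ⟨742, 90, 720, 112, 256, false, false, false, [(0, 1), (3, 7), (8, 1), (3, 3), (9, 1), (3, 3), (15, 2), (16, 2), (3, 1), (17, 1), (3, 10)], []⟩,
  ⟨912, 90, 630, 112, 240, false, false, false, [(0, 1), (3, 17), (16, 2), (3, 12)], []⟩,
  ⟨1031, 90, 630, 112, 228, false, true, false, [(0, 1), (3, 18), (16, 1), (3, 12)], []⟩,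
  ⟨1089, 90, 540, 224, 120, false, true, false, [(0, 1), (3, 21)], []⟩,
  ⟨1147, 90, 540, 224, 120, false, true, false, [(0, 1), (3, 21)], []⟩,
  ⟨1188, 90, 0, 240, 132, true, true, false, [(0, 1), (3, 20)], []⟩,
  ⟨1229, 90, 0, 240, 132, true, true, false, [(0, 1), (3, 20)], []⟩,
  ⟨1287, 90, 0, 240, 132, true, true, false, [(0, 2), (3, 19)], []⟩,
  ⟨1345, 90, 0, 240, 132, true, true, false, [(0, 2), (3, 19)], []⟩,
  ⟨1403, 90, 0, 240, 132, true, true, false, [(0, 2), (3, 19)], []⟩,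
  ⟨1485, 90, 0, 240, 132, true, true, false, [(0, 2), (3, 19)], []⟩,
  ⟨1542, 90, 0, 240, 132, true, true, false, [(0, 2), (3, 19)], []⟩,
  ⟨1599, 90, 0, 224, 120, true, true, false, [(0, 2), (3, 20)], []⟩,
  ⟨1656, 90, 0, 224, 120, true, true, false, [(0, 3), (3, 19)], []⟩,
  ⟨1713, 90, 0, 224, 120, true, true, false, [(0, 3), (3, 19)], []⟩,
  ⟨1770, 90, 0, 224, 120, true, true, false, [(0, 4), (3, 18)], []⟩,
  ⟨1827, 90, 0, 224, 120, true, true, false, [(0, 5), (3, 17)], []⟩,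
  ⟨1867, 90, 0, 224, 120, true, true, false, [(0, 13), (3, 9)], []⟩,
  ⟨1924, 90, 0, 224, 120, true, true, false, [(0, 22)], []⟩,
  ⟨2005, 90, 0, 208, 109, true, true, false, [(0, 24)], []⟩,
  ⟨2234, 90, 0, 192, 98, true, true, false, [(0, 25)], []⟩,
  ⟨2867, 90, 0, 128, 60, true, true, false, [(0, 31)], []⟩,
  ⟨6283, 90, 0, 0, 0, true, false, false, [(0, 43)], []⟩,
  ⟨7563, 90, 0, 0, 0, true, false, false, [(0, 43)], []⟩
  ] = true := by decide +kernel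

def g65_45 : Gr := ⟨false, 469, 475, 1024, 1024, 65, 65, 8255, 8256, 0, 2048, 0, []⟩

theorem k65_45 : chk g65_45 T450 [
  ⟨498, 120, 600, 256, 161, false, true, false, [(0, 1), (3, 3), (25, 2), (12, 2), (13, 2), (14, 2), (15, 1), (16, 2)], []⟩,
  ⟨742, 120, 720, 104, 264, false, false, false, [(0, 1), (3, 8), (9, 1), (3, 2), (15, 1), (16, 2), (3, 1), (17, 1), (3, 8)], []⟩,
  ⟨912, 120, 720, 104, 248, false, false, false, [(0, 1), (3, 13), (16, 1), (3, 10)], []⟩,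
  ⟨995, 120, 600, 120, 224, false, false, false, [(0, 1), (3, 23)], []⟩,
  ⟨1078, 120, 600, 120, 216, false, false, false, [(0, 1), (3, 23)], []⟩,
  ⟨1119, 120, 0, 256, 145, true, true, false, [(0, 1), (3, 14)], []⟩,
  ⟨1160, 120, 0, 256, 145, true, true, false, [(0, 1), (3, 14)], []⟩,
  ⟨1218, 120, 0, 256, 145, true, true, false, [(0, 1), (3, 14)], []⟩,
  ⟨1276, 120, 0, 256, 145, true, true, false, [(0, 1), (3, 14)], []⟩,
  ⟨1334, 120, 0, 256, 145, true, true, false, [(0, 2), (3, 13)], []⟩,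
  ⟨1392, 120, 0, 256, 145, true, true, false, [(0, 2), (3, 13)], []⟩,
  ⟨1450, 120, 0, 240, 132, true, true, false, [(0, 2), (3, 14)], []⟩,
  ⟨1508, 120, 0, 240, 132, true, true, false, [(0, 2), (3, 14)], []⟩,
  ⟨1566, 120, 0, 240, 132, true, true, false, [(0, 2), (3, 14)], []⟩,
  ⟨1624, 120, 0, 240, 132, true, true, false, [(0, 2), (3, 14)], []⟩,
  ⟨1664, 120, 0, 240, 132, true, true, false, [(0, 3), (3, 13)], []⟩,
  ⟨1704, 120, 0, 224, 120, true, true, false, [(0, 3), (3, 14)], []⟩,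
  ⟨1744, 120, 0, 224, 120, true, true, false, [(0, 3), (3, 14)], []⟩,
  ⟨1784, 120, 0, 224, 120, true, true, false, [(0, 4), (3, 13)], []⟩,
  ⟨1812, 120, 0, 224, 120, true, true, false, [(0, 5), (3, 12)], []⟩,
  ⟨1840, 120, 0, 224, 120, true, true, false, [(0, 6), (3, 11)], []⟩,
  ⟨1860, 120, 0, 224, 120, true, true, false, [(0, 9), (3, 8)], []⟩,
  ⟨1874, 120, 0, 224, 120, true, true, false, [(0, 13), (3, 4)], []⟩,
  ⟨1894, 120, 0, 224, 120, true, true, false, [(0, 17)], []⟩,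
  ⟨1936, 120, 0, 224, 120, true, true, false, [(0, 17)], []⟩,
  ⟨2057, 120, 0, 208, 109, true, true, false, [(0, 18)], []⟩,
  ⟨2228, 120, 0, 192, 98, true, true, false, [(0, 20)], []⟩,
  ⟨2703, 120, 0, 144, 69, true, true, false, [(0, 23)], []⟩,
  ⟨6301, 120, 0, 0, 0, true, false, true, [(0, 31)], [(0, 1)]⟩,
  ⟨7660, 120, 0, 0, 0, true, false, false, [(0, 32)], []⟩
  ] = true := by decide +kernel

def g65_46 : Gr := ⟨false, 475, 483, 1024, 1024, 65, 65, 8255, 8256, 0, 2048, 0, []⟩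

theorem k65_46 : chk g65_46 T450 [
  ⟨498, 70, 700, 32, 352, false, false, false, [(0, 1), (3, 5), (25, 4), (11, 1), (12, 3), (13, 3), (14, 3), (15, 3), (16, 3), (17, 3), (3, 23)], []⟩,
  ⟨742, 70, 700, 112, 264, false, false, false, [(0, 1), (3, 9), (8, 1), (3, 5), (9, 1), (3, 3), (15, 3), (16, 3), (3, 2), (17, 1), (3, 14)], []⟩,
  ⟨912, 70, 700, 112, 248, false, false, false, [(0, 1), (3, 23), (16, 2), (3, 17)], []⟩,
  ⟨1031, 70, 630, 120, 232, false, false, false, [(0, 1), (3, 24), (16, 1), (3, 16)], []⟩,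
  ⟨1114, 70, 560, 240, 132, false, true, false, [(0, 1), (3, 27)], []⟩,
  ⟨1172, 70, 490, 240, 132, false, true, false, [(0, 1), (3, 27)], []⟩,
  ⟨1230, 70, 0, 240, 132, true, true, false, [(0, 1), (3, 27)], []⟩,
  ⟨1288, 70, 0, 240, 132, true, true, false, [(0, 2), (3, 26)], []⟩,
  ⟨1346, 70, 0, 240, 132, true, true, false, [(0, 2), (3, 26)], []⟩,
  ⟨1429, 70, 0, 240, 132, true, true, false, [(0, 2), (3, 26)], []⟩,
  ⟨1512, 70, 0, 240, 132, true, true, false, [(0, 2), (3, 26)], []⟩,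
  ⟨1595, 70, 0, 240, 132, true, true, false, [(0, 2), (3, 26)], []⟩,
  ⟨1678, 70, 0, 240, 132, true, true, false, [(0, 2), (3, 26)], []⟩,
  ⟨1736, 70, 0, 240, 132, true, true, false, [(0, 3), (3, 25)], []⟩,
  ⟨1776, 70, 0, 224, 120, true, true, false, [(0, 4), (3, 26)], []⟩,
  ⟨1816, 70, 0, 224, 120, true, true, false, [(0, 4), (3, 26)], []⟩,
  ⟨1844, 70, 0, 224, 120, true, true, false, [(0, 6), (3, 24)], []⟩,
  ⟨1872, 70, 0, 224, 120, true, true, false, [(0, 8), (3, 22)], []⟩,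
  ⟨1891, 70, 0, 224, 120, true, true, false, [(0, 15), (3, 15)], []⟩,
  ⟨1910, 70, 0, 224, 120, true, true, false, [(0, 28), (3, 2)], []⟩,
  ⟨1951, 70, 0, 224, 120, true, true, false, [(0, 30)], []⟩,
  ⟨2034, 70, 0, 208, 109, true, true, false, [(0, 32)], []⟩,
  ⟨2200, 70, 0, 192, 98, true, true, false, [(0, 34)], []⟩,
  ⟨2661, 70, 0, 160, 78, true, true, false, [(0, 38)], []⟩,
  ⟨4439, 70, 0, 32, 14, true, true, false, [(0, 52)], []⟩,
  ⟨7789, 70, 0, 0, 0, true, false, false, [(0, 56)], []⟩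
  ] = true := by decide +kernel

def g65_47 : Gr := ⟨false, 483, 487, 1024, 1024, 65, 65, 8255, 8256, 0, 2048, 0, []⟩

theorem k65_47 : chk g65_47 T450 [
  ⟨498, 120, 720, 72, 328, false, false, false, [(0, 1), (3, 3), (25, 2), (12, 2), (13, 2), (14, 2), (15, 1), (16, 2), (17, 2), (3, 11)], []⟩,
  ⟨742, 120, 720, 104, 280, false, false, false, [(0, 1), (3, 8), (9, 1), (3, 2), (15, 1), (16, 2), (3, 11)], []⟩,
  ⟨912, 120, 720, 120, 248, false, false, false, [(0, 1), (3, 13), (16, 1), (3, 10)], []⟩,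
  ⟨1031, 120, 600, 120, 232, false, false, false, [(0, 1), (3, 24)], []⟩,
  ⟨1114, 120, 600, 160, 192, false, false, false, [(0, 1), (3, 21)], []⟩,
  ⟨1172, 120, 600, 160, 184, false, false, false, [(0, 1), (3, 21)], []⟩,
  ⟨1230, 120, 0, 256, 145, true, true, false, [(0, 1), (3, 15)], []⟩,
  ⟨1288, 120, 0, 256, 145, true, true, false, [(0, 1), (3, 15)], []⟩,
  ⟨1371, 120, 0, 256, 145, true, true, false, [(0, 2), (3, 14)], []⟩,
  ⟨1454, 120, 0, 256, 145, true, true, false, [(0, 2), (3, 14)], []⟩,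
  ⟨1537, 120, 0, 256, 145, true, true, false, [(0, 2), (3, 14)], []⟩,
  ⟨1620, 120, 0, 240, 132, true, true, false, [(0, 2), (3, 15)], []⟩,
  ⟨1678, 120, 0, 240, 132, true, true, false, [(0, 2), (3, 15)], []⟩,
  ⟨1736, 120, 0, 240, 132, true, true, false, [(0, 3), (3, 14)], []⟩,
  ⟨1794, 120, 0, 240, 132, true, true, false, [(0, 3), (3, 14)], []⟩,
  ⟨1834, 120, 0, 224, 120, true, true, false, [(0, 4), (3, 14)], []⟩,
  ⟨1874, 120, 0, 224, 120, true, true, false, [(0, 5), (3, 13)], []⟩,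
  ⟨1902, 120, 0, 224, 120, true, true, false, [(0, 7), (3, 11)], []⟩,
  ⟨1930, 120, 0, 224, 120, true, true, false, [(0, 12), (3, 6)], []⟩,
  ⟨1970, 120, 0, 224, 120, true, true, false, [(0, 18)], []⟩,
  ⟨2086, 120, 0, 208, 109, true, true, false, [(0, 19)], []⟩,
  ⟨2410, 120, 0, 176, 88, true, true, false, [(0, 21)], []⟩,
  ⟨3303, 120, 0, 104, 48, true, true, false, [(0, 26)], []⟩,
  ⟨6744, 120, 0, 0, 0, true, false, false, [(0, 33)], []⟩,
  ⟨7853, 120, 0, 0, 0, true, false, false, [(0, 33)], []⟩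
  ] = true := by decide +kernel

def g65_48 : Gr := ⟨false, 486, 496, 1024, 1024, 65, 65, 8255, 8256, 0, 2048, 0, []⟩

theorem k65_48 : chk g65_48 T475 [
  ⟨698, 50, 600, 256, 153, false, true, false, [(0, 1), (3, 8), (27, 5), (12, 2), (13, 4), (14, 4), (15, 4), (16, 5), (17, 4), (18, 2)], []⟩,
  ⟨937, 50, 700, 112, 256, false, false, false, [(0, 1), (3, 13), (8, 2), (3, 6), (9, 2), (3, 6), (10, 3), (17, 4), (18, 4), (3, 21)], []⟩,
  ⟨1054, 50, 650, 112, 244, false, true, false, [(0, 1), (3, 31), (10, 1), (3, 3), (17, 1), (3, 2), (18, 2), (3, 21)], []⟩,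
  ⟨1136, 50, 650, 120, 224, false, false, false, [(0, 1), (3, 38), (18, 2), (3, 20)], []⟩,
  ⟨1193, 50, 0, 256, 145, true, true, false, [(0, 1), (3, 38)], []⟩,
  ⟨1274, 50, 0, 256, 145, true, true, false, [(0, 1), (3, 31), (10, 1), (3, 6)], []⟩,
  ⟨1355, 50, 0, 256, 145, true, true, false, [(0, 2), (3, 30), (10, 1), (3, 6)], []⟩,
  ⟨1436, 50, 0, 256, 145, true, true, false, [(0, 2), (3, 30), (10, 1), (3, 6)], []⟩,
  ⟨1517, 50, 0, 256, 145, true, true, false, [(0, 2), (3, 37)], []⟩,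
  ⟨1598, 50, 0, 256, 145, true, true, false, [(0, 2), (3, 37)], []⟩,
  ⟨1655, 50, 0, 240, 132, true, true, false, [(0, 2), (3, 40)], []⟩,
  ⟨1712, 50, 0, 240, 132, true, true, false, [(0, 3), (3, 39)], []⟩,
  ⟨1769, 50, 0, 224, 120, true, true, false, [(0, 3), (3, 41)], []⟩,
  ⟨1808, 50, 0, 224, 120, true, true, false, [(0, 4), (3, 40)], []⟩,
  ⟨1847, 50, 0, 224, 120, true, true, false, [(0, 4), (3, 40)], []⟩,
  ⟨1886, 50, 0, 224, 120, true, true, false, [(0, 6), (3, 38)], []⟩,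
  ⟨1913, 50, 0, 224, 120, true, true, false, [(0, 9), (3, 35)], []⟩,
  ⟨1940, 50, 0, 224, 120, true, true, false, [(0, 20), (3, 24)], []⟩,
  ⟨1967, 50, 0, 224, 120, true, true, false, [(0, 44)], []⟩,
  ⟨2024, 50, 0, 224, 120, true, true, false, [(0, 44)], []⟩,
  ⟨2138, 50, 0, 208, 109, true, true, false, [(0, 47)], []⟩,
  ⟨2456, 50, 0, 176, 88, true, true, false, [(0, 52)], []⟩,
  ⟨3334, 50, 0, 112, 52, true, true, false, [(0, 62)], []⟩,
  ⟨6716, 50, 0, 0, 0, true, false, false, [(0, 80)], []⟩,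
  ⟨7999, 50, 0, 0, 0, true, false, false, [(0, 80)], []⟩
  ] = true := by decide +kernel

def g65_49 : Gr := ⟨false, 496, 506, 1024, 1024, 65, 65, 8255, 8256, 0, 2048, 0, []⟩

theorem k65_49 : chk g65_49 T475 [
  ⟨698, 120, 600, 256, 161, false, true, false, [(0, 1), (3, 3), (27, 2), (13, 2), (14, 2), (15, 2), (16, 1), (17, 2), (18, 2)], []⟩,
  ⟨937, 120, 720, 120, 256, false, false, false, [(0, 1), (3, 8), (9, 1), (3, 2), (10, 1), (17, 2), (18, 2), (3, 9)], []⟩,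
  ⟨1104, 120, 720, 120, 240, false, false, false, [(0, 1), (3, 15), (18, 1), (3, 9)], []⟩,
  ⟨1186, 120, 600, 120, 232, false, false, false, [(0, 1), (3, 25)], []⟩,
  ⟨1243, 120, 600, 120, 224, false, false, false, [(0, 1), (3, 25)], []⟩,
  ⟨1300, 120, 0, 256, 145, true, true, false, [(0, 1), (3, 16)], []⟩,
  ⟨1357, 120, 0, 256, 145, true, true, false, [(0, 2), (3, 15)], []⟩,
  ⟨1438, 120, 0, 256, 145, true, true, false, [(0, 2), (3, 15)], []⟩,
  ⟨1519, 120, 0, 256, 145, true, true, false, [(0, 2), (3, 15)], []⟩,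
  ⟨1600, 120, 0, 256, 145, true, true, false, [(0, 2), (3, 15)], []⟩,
  ⟨1681, 120, 0, 240, 132, true, true, false, [(0, 2), (3, 16)], []⟩,
  ⟨1738, 120, 0, 240, 132, true, true, false, [(0, 3), (3, 15)], []⟩,
  ⟨1795, 120, 0, 240, 132, true, true, false, [(0, 3), (3, 15)], []⟩,
  ⟨1851, 120, 0, 240, 132, true, true, false, [(0, 3), (3, 15)], []⟩,
  ⟨1890, 120, 0, 224, 120, true, true, false, [(0, 4), (3, 15)], []⟩,
  ⟨1929, 120, 0, 224, 120, true, true, false, [(0, 5), (3, 14)], []⟩,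
  ⟨1956, 120, 0, 224, 120, true, true, false, [(0, 8), (3, 11)], []⟩,
  ⟨1983, 120, 0, 224, 120, true, true, false, [(0, 13), (3, 6)], []⟩,
  ⟨2023, 120, 0, 224, 120, true, true, false, [(0, 19)], []⟩,
  ⟨2103, 120, 0, 224, 120, true, true, false, [(0, 19)], []⟩,
  ⟨2217, 120, 0, 208, 109, true, true, false, [(0, 21)], []⟩,
  ⟨2534, 120, 0, 176, 88, true, true, false, [(0, 23)], []⟩,
  ⟨3410, 120, 0, 96, 44, true, true, false, [(0, 28)], []⟩,
  ⟨6785, 120, 0, 0, 0, true, false, false, [(0, 34)], []⟩,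
  ⟨8160, 120, 0, 0, 0, true, false, false, [(0, 34)], []⟩
  ] = true := by decide +kernel

def g65_50 : Gr := ⟨false, 506, 512, 1024, 1024, 65, 65, 8255, 8256, 0, 2048, 0, []⟩

theorem k65_50 : chk g65_50 T475 [
  ⟨498, 120, 720, 96, 328, false, false, false, [(0, 1), (3, 3), (27, 2), (13, 2), (14, 2), (15, 2), (16, 1), (17, 2), (18, 2), (19, 1), (3, 10)], []⟩,
  ⟨846, 120, 720, 112, 280, false, false, false, [(0, 1), (3, 4), (8, 1), (3, 2), (9, 2), (3, 1), (15, 1), (16, 1), (17, 2), (18, 2), (3, 10)], []⟩,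
  ⟨1086, 120, 720, 128, 244, false, true, false, [(0, 1), (3, 8), (9, 1), (3, 4), (17, 1), (18, 2), (3, 9)], []⟩,
  ⟨1203, 120, 600, 128, 228, false, true, false, [(0, 1), (3, 25)], []⟩,
  ⟨1285, 120, 600, 128, 220, false, true, false, [(0, 1), (3, 25)], []⟩,
  ⟨1342, 120, 600, 128, 216, false, false, false, [(0, 2), (3, 24)], []⟩,
  ⟨1382, 120, 0, 256, 145, true, true, false, [(0, 2), (3, 16)], []⟩,
  ⟨1439, 120, 0, 256, 145, true, true, false, [(0, 2), (3, 16)], []⟩,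
  ⟨1496, 120, 0, 256, 145, true, true, false, [(0, 2), (3, 16)], []⟩,
  ⟨1553, 120, 0, 256, 145, true, true, false, [(0, 2), (3, 16)], []⟩,
  ⟨1610, 120, 0, 256, 145, true, true, false, [(0, 2), (3, 16)], []⟩,
  ⟨1667, 120, 0, 240, 132, true, true, false, [(0, 2), (3, 17)], []⟩,
  ⟨1724, 120, 0, 240, 132, true, true, false, [(0, 2), (3, 17)], []⟩,
  ⟨1781, 120, 0, 240, 132, true, true, false, [(0, 3), (3, 16)], []⟩,
  ⟨1838, 120, 0, 240, 132, true, true, false, [(0, 3), (3, 16)], []⟩,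
  ⟨1878, 120, 0, 240, 132, true, true, false, [(0, 3), (3, 16)], []⟩,
  ⟨1918, 120, 0, 240, 132, true, true, false, [(0, 4), (3, 15)], []⟩,
  ⟨1946, 120, 0, 240, 132, true, true, false, [(0, 5), (3, 14)], []⟩,
  ⟨1974, 120, 0, 224, 120, true, true, false, [(0, 6), (3, 14)], []⟩,
  ⟨1993, 120, 0, 224, 120, true, true, false, [(0, 8), (3, 12)], []⟩,
  ⟨2012, 120, 0, 224, 120, true, true, false, [(0, 11), (3, 9)], []⟩,
  ⟨2031, 120, 0, 224, 120, true, true, false, [(0, 17), (3, 3)], []⟩,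
  ⟨2072, 120, 0, 224, 120, true, true, false, [(0, 20)], []⟩,
  ⟨2189, 120, 0, 208, 109, true, true, false, [(0, 21)], []⟩,
  ⟨2514, 120, 0, 192, 98, true, true, false, [(0, 22)], []⟩,
  ⟨3411, 120, 0, 96, 44, true, true, false, [(0, 28)], []⟩,
  ⟨6867, 120, 0, 0, 0, true, false, false, [(0, 35)], []⟩,
  ⟨8257, 120, 0, 0, 0, true, false, false, [(0, 35)], []⟩
  ] = true := by decide +kernel

def g65_51 : Gr := ⟨false, 512, 522, 1024, 1024, 65, 65, 8255, 8256, 0, 2048, 0, []⟩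

theorem k65_51 : chk g65_51 T500 [
  ⟨698, 120, 600, 256, 177, false, true, false, [(0, 1), (3, 3), (28, 2), (14, 2), (15, 2), (16, 2), (17, 1), (18, 2), (19, 2), (20, 1)], []⟩,
  ⟨937, 120, 720, 112, 276, false, true, false, [(0, 1), (3, 8), (10, 1), (3, 2), (11, 1), (3, 1), (18, 1), (19, 2), (20, 1), (3, 10)], []⟩,
  ⟨1104, 120, 720, 112, 260, false, true, false, [(0, 1), (3, 8), (10, 1), (3, 5), (19, 2), (3, 11)], []⟩,
  ⟨1221, 120, 600, 128, 232, false, false, false, [(0, 1), (3, 15), (19, 1), (3, 10)], []⟩,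
  ⟨1303, 120, 0, 256, 145, true, true, true, [(0, 1), (3, 15), (19, 1)], [(3, 1)]⟩,
  ⟨1385, 120, 0, 256, 145, true, true, false, [(0, 2), (3, 14), (19, 1), (3, 1)], []⟩,
  ⟨1467, 120, 0, 256, 145, true, true, false, [(0, 2), (3, 16)], []⟩,
  ⟨1549, 120, 0, 256, 145, true, true, false, [(0, 2), (3, 16)], []⟩,
  ⟨1631, 120, 0, 256, 145, true, true, false, [(0, 2), (3, 16)], []⟩,
  ⟨1713, 120, 0, 240, 132, true, true, false, [(0, 2), (3, 17)], []⟩,
  ⟨1795, 120, 0, 240, 132, true, true, false, [(0, 3), (3, 16)], []⟩,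
  ⟨1877, 120, 0, 240, 132, true, true, false, [(0, 3), (3, 16)], []⟩,
  ⟨1934, 120, 0, 240, 132, true, true, false, [(0, 4), (3, 15)], []⟩,
  ⟨1991, 120, 0, 240, 132, true, true, false, [(0, 5), (3, 14)], []⟩,
  ⟨2031, 120, 0, 240, 132, true, true, false, [(0, 9), (3, 10)], []⟩,
  ⟨2050, 120, 0, 240, 132, true, true, false, [(0, 16), (3, 3)], []⟩,
  ⟨2078, 120, 0, 240, 132, true, true, false, [(0, 19)], []⟩,
  ⟨2106, 120, 0, 240, 132, true, true, false, [(0, 19)], []⟩,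
  ⟨2164, 120, 0, 224, 120, true, true, false, [(0, 21)], []⟩,
  ⟨2328, 120, 0, 208, 109, true, true, false, [(0, 22)], []⟩,
  ⟨2784, 120, 0, 160, 78, true, true, false, [(0, 25)], []⟩,
  ⟨4545, 120, 0, 32, 14, true, true, false, [(0, 33)], []⟩,
  ⟨8000, 120, 0, 0, 0, true, false, false, [(0, 36)], []⟩,
  ⟨8418, 120, 0, 0, 0, true, false, false, [(0, 36)], []⟩
  ] = true := by decide +kernel

def g65_52 : Gr := ⟨false, 522, 535, 1024, 1024, 65, 65, 8255, 8256, 0, 2010, 0, []⟩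

theorem k65_52 : chk g65_52 T500 [
  ⟨498, 120, 720, 60, 364, false, false, false, [(0, 1), (3, 3), (28, 2), (14, 2), (15, 2), (16, 2), (17, 1), (18, 2), (19, 2), (20, 1), (3, 14)], []⟩,
  ⟨846, 120, 720, 120, 288, false, false, false, [(0, 1), (3, 4), (9, 1), (3, 2), (10, 2), (3, 1), (11, 2), (18, 2), (19, 2), (20, 1), (3, 10)], []⟩,
  ⟨1090, 120, 720, 120, 264, false, false, false, [(0, 1), (3, 8), (10, 1), (3, 2), (11, 1), (3, 1), (18, 1), (19, 2), (20, 1), (3, 10)], []⟩,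
  ⟨1260, 120, 600, 120, 248, false, false, false, [(0, 1), (3, 15), (19, 1), (3, 11)], []⟩,
  ⟨1343, 120, 600, 120, 232, false, false, false, [(0, 2), (3, 26)], []⟩,
  ⟨1401, 120, 600, 120, 232, false, false, false, [(0, 2), (3, 26)], []⟩,
  ⟨1459, 120, 0, 256, 145, true, true, false, [(0, 2), (3, 17)], []⟩,
  ⟨1542, 120, 0, 256, 145, true, true, false, [(0, 2), (3, 17)], []⟩,
  ⟨1625, 120, 0, 256, 145, true, true, false, [(0, 2), (3, 17)], []⟩,
  ⟨1708, 120, 0, 256, 145, true, true, false, [(0, 2), (3, 17)], []⟩,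
  ⟨1791, 120, 0, 240, 132, true, true, false, [(0, 2), (3, 18)], []⟩,
  ⟨1874, 120, 0, 240, 132, true, true, false, [(0, 3), (3, 17)], []⟩,
  ⟨1956, 120, 0, 240, 132, true, true, false, [(0, 4), (3, 16)], []⟩,
  ⟨2013, 120, 0, 240, 132, true, true, false, [(0, 5), (3, 15)], []⟩,
  ⟨2053, 120, 0, 224, 120, true, true, false, [(0, 7), (3, 14)], []⟩,
  ⟨2093, 120, 0, 224, 120, true, true, false, [(0, 14), (3, 7)], []⟩,
  ⟨2174, 120, 0, 224, 120, true, true, false, [(0, 21)], []⟩,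
  ⟨2402, 120, 0, 208, 109, true, true, false, [(0, 22)], []⟩,
  ⟨2851, 120, 0, 160, 78, true, true, false, [(0, 26)], []⟩,
  ⟨5279, 120, 0, 16, 7, true, true, false, [(0, 35)], []⟩,
  ⟨8467, 120, 0, 0, 0, true, false, false, [(0, 36)], []⟩
  ] = true := by decide +kernel

def g65_53 : Gr := ⟨false, 535, 538, 1024, 1024, 65, 65, 8255, 8256, 0, 1961, 0, []⟩

theorem k65_53 : chk g65_53 T500 [
  ⟨498, 120, 720, 80, 360, false, false, false, [(0, 1), (3, 3), (28, 2), (14, 2), (15, 2), (16, 2), (17, 1), (18, 2), (19, 2), (20, 1), (3, 13)], []⟩,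
  ⟨846, 120, 720, 128, 292, false, true, false, [(0, 1), (3, 4), (9, 1), (3, 2), (10, 2), (3, 1), (11, 2), (18, 2), (19, 2), (20, 1), (3, 10)], []⟩,
  ⟨1090, 120, 720, 128, 264, false, false, false, [(0, 1), (3, 8), (10, 1), (3, 5), (19, 2), (3, 11)], []⟩,
  ⟨1260, 120, 600, 128, 248, false, false, false, [(0, 1), (3, 15), (19, 1), (3, 11)], []⟩,
  ⟨1430, 120, 600, 128, 232, false, false, false, [(0, 2), (3, 26)], []⟩,
  ⟨1600, 120, 0, 256, 145, true, true, false, [(0, 2), (3, 17)], []⟩,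
  ⟨1770, 120, 0, 256, 145, true, true, false, [(0, 2), (3, 17)], []⟩,
  ⟨1940, 120, 0, 256, 145, true, true, false, [(0, 3), (3, 16)], []⟩,
  ⟨2023, 120, 0, 240, 132, true, true, false, [(0, 4), (3, 17)], []⟩,
  ⟨2106, 120, 0, 240, 132, true, true, false, [(0, 6), (3, 15)], []⟩,
  ⟨2147, 120, 0, 224, 120, true, true, false, [(0, 14), (3, 8)], []⟩,
  ⟨2263, 120, 0, 224, 120, true, true, false, [(0, 22)], []⟩,
  ⟨2588, 120, 0, 192, 98, true, true, false, [(0, 24)], []⟩,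
  ⟨3484, 120, 0, 112, 52, true, true, false, [(0, 29)], []⟩,
  ⟨6936, 120, 0, 0, 0, true, false, false, [(0, 37)], []⟩,
  ⟨8307, 120, 0, 0, 0, true, false, false, [(0, 37)], []⟩
  ] = true := by decide +kernel

def g65_54 : Gr := ⟨false, 537, 550, 1024, 1024, 65, 65, 8255, 8256, 0, 1954, 0, []⟩

theorem k65_54 : chk g65_54 T525 [
  ⟨698, 120, 720, 120, 312, false, false, false, [(0, 1), (3, 3), (29, 2), (14, 2), (15, 2), (16, 2), (17, 1), (18, 2), (19, 2), (20, 1), (21, 2), (3, 9)], []⟩,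
  ⟨1040, 120, 720, 120, 280, false, false, false, [(0, 1), (3, 4), (9, 1), (3, 2), (10, 2), (3, 1), (11, 2), (18, 2), (19, 2), (20, 1), (21, 2), (3, 9)], []⟩,
  ⟨1279, 120, 720, 120, 256, false, false, false, [(0, 1), (3, 8), (10, 1), (3, 2), (11, 1), (3, 2), (19, 2), (20, 1), (3, 1), (21, 1), (3, 9)], []⟩,
  ⟨1396, 120, 600, 120, 240, false, false, false, [(0, 2), (3, 27)], []⟩,
  ⟨1478, 120, 600, 120, 232, false, false, false, [(0, 2), (3, 27)], []⟩,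
  ⟨1560, 120, 0, 256, 145, true, true, false, [(0, 2), (3, 18)], []⟩,
  ⟨1676, 120, 0, 256, 145, true, true, false, [(0, 2), (3, 18)], []⟩,
  ⟨1792, 120, 0, 256, 145, true, true, false, [(0, 2), (3, 18)], []⟩,
  ⟨1908, 120, 0, 240, 132, true, true, false, [(0, 3), (3, 18)], []⟩,
  ⟨2022, 120, 0, 240, 132, true, true, false, [(0, 3), (3, 18)], []⟩,
  ⟨2102, 120, 0, 240, 132, true, true, false, [(0, 5), (3, 16)], []⟩,
  ⟨2158, 120, 0, 224, 120, true, true, false, [(0, 13), (3, 9)], []⟩,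
  ⟨2270, 120, 0, 224, 120, true, true, false, [(0, 22)], []⟩,
  ⟨2583, 120, 0, 208, 109, true, true, false, [(0, 23)], []⟩,
  ⟨3447, 120, 0, 120, 56, true, true, false, [(0, 29)], []⟩,
  ⟨6773, 120, 0, 0, 0, true, false, false, [(0, 37)], []⟩,
  ⟨8462, 120, 0, 0, 0, true, false, false, [(0, 37)], []⟩
  ] = true := by decide +kernel

def g65_55 : Gr := ⟨false, 550, 564, 1024, 1024, 65, 65, 8255, 8256, 0, 1908, 0, []⟩

theorem k65_55 : chk g65_55 T525 [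
  ⟨698, 120, 720, 88, 344, false, false, false, [(0, 1), (3, 3), (29, 2), (14, 2), (15, 2), (16, 2), (17, 1), (18, 2), (19, 2), (20, 1), (21, 2), (3, 12)], []⟩,
  ⟨1040, 120, 720, 120, 288, false, false, false, [(0, 1), (3, 4), (9, 1), (3, 2), (10, 2), (3, 1), (11, 2), (18, 2), (19, 2), (20, 1), (21, 2), (3, 10)], []⟩,
  ⟨1279, 120, 720, 120, 264, false, false, false, [(0, 1), (3, 8), (10, 1), (3, 2), (11, 1), (3, 3), (19, 1), (20, 1), (3, 12)], []⟩,
  ⟨1446, 120, 600, 120, 248, false, false, false, [(0, 2), (3, 28)], []⟩,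
  ⟨1563, 120, 600, 192, 170, false, true, false, [(0, 2), (3, 23)], []⟩,
  ⟨1680, 120, 0, 256, 145, true, true, false, [(0, 2), (3, 19)], []⟩,
  ⟨1797, 120, 0, 256, 145, true, true, false, [(0, 2), (3, 19)], []⟩,
  ⟨1914, 120, 0, 256, 145, true, true, false, [(0, 3), (3, 18)], []⟩,
  ⟨2031, 120, 0, 240, 132, true, true, false, [(0, 3), (3, 19)], []⟩,
  ⟨2113, 120, 0, 240, 132, true, true, false, [(0, 4), (3, 18)], []⟩,
  ⟨2195, 120, 0, 240, 132, true, true, false, [(0, 8), (3, 14)], []⟩,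
  ⟨2358, 120, 0, 224, 120, true, true, false, [(0, 23)], []⟩,
  ⟨2810, 120, 0, 192, 98, true, true, false, [(0, 25)], []⟩,
  ⟨4057, 120, 0, 60, 27, true, true, false, [(0, 34)], []⟩,
  ⟨7483, 120, 0, 0, 0, true, false, false, [(0, 38)], []⟩,
  ⟨8473, 120, 0, 0, 0, true, false, false, [(0, 38)], []⟩
  ] = true := by decide +kernel

def g65_56 : Gr := ⟨false, 563, 589, 1024, 1024, 65, 65, 8255, 8256, 0, 1864, 0, []⟩

theorem k65_56 : chk g65_56 T550 [
  ⟨698, 120, 720, 56, 376, false, false, true, [(0, 1), (3, 3), (32, 2), (16, 2), (17, 2), (18, 2), (19, 1), (20, 2), (21, 2), (22, 1), (23, 2), (24, 2), (3, 12)], [(3, 2)]⟩,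
  ⟨1040, 120, 720, 128, 292, false, true, false, [(0, 1), (3, 4), (10, 1), (3, 2), (11, 2), (3, 1), (12, 2), (20, 2), (21, 2), (22, 1), (23, 2), (3, 11)], []⟩,
  ⟨1279, 120, 600, 128, 268, false, true, false, [(0, 1), (3, 8), (11, 1), (3, 2), (12, 1), (3, 2), (13, 2), (22, 1), (23, 2), (3, 11)], []⟩,
  ⟨1446, 120, 600, 128, 252, false, true, false, [(0, 2), (3, 14), (13, 1), (22, 1), (3, 1), (23, 1), (3, 11)], []⟩,
  ⟨1563, 120, 600, 144, 224, false, false, false, [(0, 2), (3, 14), (13, 1), (3, 2), (23, 1), (3, 10)], []⟩,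
  ⟨1645, 120, 600, 144, 216, false, false, false, [(0, 2), (3, 28)], []⟩,
  ⟨1727, 120, 0, 256, 145, true, true, false, [(0, 2), (3, 21)], []⟩,
  ⟨1809, 120, 0, 256, 145, true, true, false, [(0, 2), (3, 21)], []⟩,
  ⟨1891, 120, 0, 256, 145, true, true, false, [(0, 3), (3, 20)], []⟩,
  ⟨1973, 120, 0, 256, 145, true, true, false, [(0, 3), (3, 20)], []⟩,
  ⟨2030, 120, 0, 240, 132, true, true, false, [(0, 3), (3, 21)], []⟩,
  ⟨2087, 120, 0, 240, 132, true, true, false, [(0, 4), (3, 20)], []⟩,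
  ⟨2144, 120, 0, 240, 132, true, true, false, [(0, 5), (3, 19)], []⟩,
  ⟨2184, 120, 0, 240, 132, true, true, false, [(0, 6), (3, 18)], []⟩,
  ⟨2212, 120, 0, 240, 132, true, true, false, [(0, 9), (3, 15)], []⟩,
  ⟨2240, 120, 0, 240, 132, true, true, false, [(0, 13), (3, 11)], []⟩,
  ⟨2259, 120, 0, 240, 132, true, true, false, [(0, 21), (3, 3)], []⟩,
  ⟨2300, 120, 0, 240, 132, true, true, false, [(0, 24)], []⟩,
  ⟨2417, 120, 0, 224, 120, true, true, false, [(0, 25)], []⟩,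
  ⟨2742, 120, 0, 192, 98, true, true, false, [(0, 27)], []⟩,
  ⟨3639, 120, 0, 104, 48, true, true, false, [(0, 33)], []⟩,
  ⟨7094, 120, 0, 0, 0, true, false, false, [(0, 40)], []⟩,
  ⟨8645, 120, 0, 0, 0, true, false, false, [(0, 40)], []⟩
  ] = true := by decide +kernel

def g65_57 : Gr := ⟨false, 588, 615, 1024, 1024, 65, 65, 8255, 8256, 0, 1785, 0, []⟩

theorem k65_57 : chk g65_57 T575 [
  ⟨698, 120, 600, 80, 376, false, false, true, [(0, 1), (3, 3), (33, 2), (16, 2), (17, 2), (18, 2), (19, 1), (20, 2), (21, 2), (22, 1), (23, 2), (24, 2), (25, 2), (3, 10)], [(3, 2)]⟩,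
  ⟨1186, 120, 720, 128, 296, false, false, false, [(0, 1), (3, 4), (10, 1), (3, 1), (11, 3), (12, 3), (13, 1), (20, 1), (21, 2), (22, 1), (23, 2), (24, 2), (25, 2), (3, 9)], []⟩,
  ⟨1528, 120, 600, 144, 253, false, true, false, [(0, 2), (3, 7), (11, 1), (3, 2), (12, 1), (3, 2), (13, 2), (22, 1), (23, 2), (24, 2), (3, 1), (25, 1), (3, 8)], []⟩,
  ⟨1695, 120, 600, 144, 232, false, false, false, [(0, 2), (3, 14), (13, 1), (3, 2), (23, 1), (3, 1), (24, 1), (3, 10)], []⟩,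
  ⟨1862, 120, 0, 256, 145, true, true, true, [(0, 2), (3, 14), (13, 1), (3, 2), (23, 1), (3, 1), (24, 1)], [(3, 3)]⟩,
  ⟨1979, 120, 0, 256, 145, true, true, false, [(0, 3), (3, 18), (24, 1), (3, 3)], []⟩,
  ⟨2096, 120, 0, 256, 145, true, true, false, [(0, 3), (3, 18), (24, 1), (3, 3)], []⟩,
  ⟨2213, 120, 0, 224, 120, true, true, true, [(0, 4), (3, 12), (7, 1), (3, 6), (25, 1)], [(3, 3)]⟩,
  ⟨2295, 120, 0, 240, 132, true, true, false, [(0, 6), (3, 10), (7, 1), (3, 9)], []⟩,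
  ⟨2352, 120, 0, 240, 132, true, true, false, [(0, 13), (3, 3), (7, 1), (3, 9)], []⟩,
  ⟨2467, 120, 0, 240, 132, true, true, false, [(0, 26)], []⟩,
  ⟨2787, 120, 0, 208, 109, true, true, false, [(0, 28)], []⟩,
  ⟨3670, 120, 0, 112, 52, true, true, false, [(0, 34)], []⟩,
  ⟨7070, 120, 0, 0, 0, true, false, false, [(0, 42)], []⟩,
  ⟨8644, 120, 0, 0, 0, true, false, false, [(0, 42)], []⟩
  ] = true := by decide +kernel

def g65_58 : Gr := ⟨false, 614, 640, 1024, 1024, 65, 65, 8255, 8256, 0, 1709, 0, []⟩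

theorem k65_58 : chk g65_58 T600 [
  ⟨978, 120, 720, 120, 344, false, false, false, [(0, 1), (3, 3), (35, 2), (17, 2), (18, 2), (19, 2), (20, 1), (21, 2), (22, 2), (23, 1), (24, 2), (25, 2), (26, 2), (27, 1), (3, 10)], []⟩,
  ⟨1457, 120, 600, 120, 296, false, false, false, [(0, 1), (3, 4), (11, 1), (3, 2), (12, 2), (13, 3), (14, 4), (23, 1), (24, 2), (25, 2), (26, 2), (27, 1), (3, 10)], []⟩,
  ⟨1792, 120, 0, 256, 145, true, true, true, [(0, 2), (3, 7), (12, 1), (3, 2), (13, 1), (3, 2), (14, 2), (3, 1), (24, 2), (25, 2)], [(26, 2), (3, 2)]⟩,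
  ⟨2127, 120, 0, 256, 145, true, true, true, [(0, 2), (3, 7), (5, 1), (3, 2), (6, 1), (3, 3), (14, 1), (3, 2), (15, 1), (25, 2), (26, 2)], [(27, 1), (3, 1)]⟩,
  ⟨2362, 120, 0, 240, 132, true, true, true, [(0, 4), (3, 5), (5, 1), (3, 6), (7, 1), (3, 4), (25, 1), (3, 1), (26, 1)], [(3, 3)]⟩,
  ⟨2526, 120, 0, 240, 132, true, true, false, [(0, 16), (7, 1), (0, 2), (8, 1), (0, 1), (25, 1), (0, 1), (26, 1), (27, 1), (0, 1), (28, 1)], []⟩,
  ⟨2850, 120, 0, 224, 120, true, true, false, [(0, 28)], []⟩,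
  ⟨3745, 120, 0, 120, 56, true, true, false, [(0, 35)], []⟩,
  ⟨7193, 120, 0, 0, 0, true, false, false, [(0, 43)], []⟩,
  ⟨8612, 120, 0, 0, 0, true, false, false, [(0, 43)], []⟩
  ] = true := by decide +kernel

def g65_59 : Gr := ⟨false, 640, 666, 1024, 1024, 65, 65, 8255, 8256, 0, 1640, 0, []⟩

theorem k65_59 : chk g65_59 T625 [
  ⟨978, 120, 600, 104, 368, false, false, true, [(0, 1), (3, 3), (36, 2), (17, 2), (18, 2), (19, 2), (20, 1), (21, 2), (22, 2), (23, 1), (24, 2), (25, 2), (26, 2), (27, 1), (28, 2), (3, 9)], [(3, 2)]⟩,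
  ⟨1663, 120, 600, 160, 264, false, false, false, [(0, 1), (3, 4), (11, 1), (3, 1), (12, 3), (13, 3), (14, 4), (23, 1), (24, 2), (25, 2), (26, 2), (27, 1), (28, 2), (3, 7)], []⟩,
  ⟨2142, 120, 0, 256, 145, true, true, true, [(0, 2), (3, 7), (5, 1), (3, 2), (6, 1), (3, 2), (14, 2), (3, 1), (15, 2), (25, 2), (26, 2)], [(27, 1), (28, 2), (3, 1)]⟩,
  ⟨2477, 120, 0, 224, 120, true, true, true, [(0, 3), (3, 6), (5, 1), (3, 2), (6, 1), (3, 3), (7, 1), (3, 2), (15, 1), (3, 1), (25, 1), (26, 2), (27, 1), (3, 1), (28, 1)], [(3, 1), (29, 1), (3, 1)]⟩,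
  ⟨2812, 120, 0, 208, 109, true, true, true, [(0, 16), (7, 1), (0, 2), (8, 1), (0, 3), (26, 1), (0, 2), (28, 1), (0, 1), (29, 1)], [(0, 2)]⟩,
  ⟨3737, 120, 0, 160, 78, true, true, false, [(0, 34)], []⟩,
  ⟨7300, 120, 0, 0, 0, true, false, false, [(0, 45)], []⟩,
  ⟨8600, 120, 0, 0, 0, true, false, false, [(0, 45)], []⟩
  ] = true := by decide +kernel

def g65_60 : Gr := ⟨false, 665, 692, 1024, 1024, 65, 65, 8255, 8256, 0, 1578, 0, []⟩

theorem k65_60 : chk g65_60 T650 [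
  ⟨978, 120, 600, 128, 368, false, false, true, [(0, 1), (3, 3), (39, 2), (19, 2), (20, 2), (21, 2), (22, 1), (23, 2), (24, 2), (25, 1), (26, 2), (27, 2), (28, 2), (29, 1), (30, 2), (3, 9)], [(3, 2)]⟩,
  ⟨1663, 120, 600, 144, 296, false, false, false, [(0, 1), (3, 4), (12, 1), (3, 1), (13, 3), (14, 3), (15, 4), (25, 1), (26, 2), (27, 2), (28, 2), (29, 1), (30, 2), (31, 2), (3, 8)], []⟩,
  ⟨2348, 120, 0, 256, 145, true, true, true, [(0, 2), (3, 3), (4, 1), (3, 2), (5, 2), (3, 1), (6, 1), (14, 1), (3, 1), (15, 3), (16, 3), (27, 2), (28, 2)], [(29, 1), (30, 2), (31, 2), (32, 1)]⟩,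
  ⟨2827, 120, 0, 224, 120, true, true, true, [(0, 9), (5, 1), (0, 2), (6, 1), (0, 1), (7, 3), (0, 1), (8, 2), (27, 2), (28, 2), (29, 1), (30, 2), (31, 2)], [(32, 1), (33, 2)]⟩,
  ⟨3769, 120, 0, 144, 69, true, true, true, [(0, 35)], [(0, 2)]⟩,
  ⟨7396, 120, 0, 0, 0, true, false, false, [(0, 47)], []⟩,
  ⟨8598, 120, 0, 0, 0, true, false, false, [(0, 47)], []⟩
  ] = true := by decide +kernel

def g65_61 : Gr := ⟨false, 691, 717, 1024, 1024, 65, 65, 8255, 8256, 0, 1519, 0, []⟩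

theorem k65_61 : chk g65_61 T675 [
  ⟨1371, 120, 600, 272, 272, false, false, false, [(0, 1), (3, 3), (40, 2), (19, 2), (20, 2), (21, 2), (22, 1), (23, 2), (24, 2), (25, 1), (26, 2), (27, 2), (28, 2), (29, 1), (30, 2), (31, 2), (32, 1)], []⟩,
  ⟨2331, 120, 0, 256, 153, true, true, true, [(0, 2), (3, 3), (4, 1), (3, 2), (13, 2), (14, 3), (15, 4), (16, 3), (27, 2), (28, 2)], [(29, 1), (30, 2), (31, 2), (32, 1), (33, 1)]⟩,
  ⟨3003, 120, 0, 224, 120, true, true, true, [(0, 8), (5, 2), (0, 1), (6, 2), (0, 1), (7, 3), (8, 3), (9, 1), (27, 1), (17, 2), (29, 1), (30, 2), (31, 2), (32, 1)], [(33, 2), (34, 2)]⟩,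
  ⟨3944, 120, 0, 144, 69, true, true, false, [(0, 39)], []⟩,
  ⟨7569, 120, 0, 0, 0, true, false, false, [(0, 49)], []⟩,
  ⟨8576, 120, 0, 0, 0, true, false, false, [(0, 49)], []⟩
  ] = true := by decide +kernel

def g65_62 : Gr := ⟨false, 716, 743, 1024, 1024, 65, 65, 8255, 8256, 0, 1466, 0, []⟩

theorem k65_62 : chk g65_62 T700 [
  ⟨1371, 120, 600, 160, 352, false, false, true, [(0, 1), (3, 3), (41, 2), (19, 2), (20, 2), (21, 2), (22, 1), (23, 2), (24, 2), (25, 1), (26, 2), (27, 2), (28, 2), (29, 1), (30, 2), (31, 2), (32, 1), (33, 2), (3, 5)], [(3, 3)]⟩,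
  ⟨2716, 120, 0, 240, 148, true, true, true, [(0, 2), (3, 3), (4, 1), (3, 1), (5, 1), (13, 2), (14, 3), (15, 4), (16, 3), (27, 2), (28, 2), (29, 1)], [(30, 2), (31, 2), (32, 1), (33, 2), (34, 2)]⟩,
  ⟨3639, 120, 0, 208, 109, true, true, true, [(0, 9), (5, 1), (0, 2), (6, 1), (0, 2), (7, 2), (0, 2), (8, 1), (0, 2), (9, 2), (29, 1), (10, 1), (30, 1), (31, 2), (32, 1), (0, 1), (33, 1), (34, 2)], [(35, 2)]⟩,
  ⟨6177, 120, 0, 0, 0, true, false, false, [(0, 50)], []⟩,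
  ⟨8577, 120, 0, 0, 0, true, false, false, [(0, 50)], []⟩
  ] = true := by decide +kernel

def g65_63 : Gr := ⟨false, 742, 768, 1024, 1024, 65, 65, 8255, 8256, 0, 1415, 0, []⟩

theorem k65_63 : chk g65_63 T725 [
  ⟨1371, 120, 600, 176, 360, false, false, true, [(0, 1), (3, 3), (44, 2), (21, 2), (22, 2), (23, 2), (24, 1), (25, 2), (26, 2), (27, 1), (28, 2), (29, 2), (30, 2), (31, 1), (32, 2), (33, 2), (34, 1), (35, 2), (3, 6)], [(3, 2)]⟩,
  ⟨2742, 120, 0, 240, 164, true, true, true, [(0, 2), (3, 2), (4, 2), (3, 1), (5, 1), (14, 2), (15, 3), (16, 4), (17, 3), (29, 2), (30, 2), (31, 1), (32, 2)], [(33, 2), (34, 1), (35, 2), (36, 2), (37, 2)]⟩,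
  ⟨3702, 120, 0, 192, 98, true, true, true, [(0, 9), (5, 1), (0, 2), (6, 1), (0, 2), (7, 2), (0, 1), (8, 2), (0, 1), (9, 3), (31, 1), (10, 2), (33, 2), (34, 1), (35, 2), (36, 2), (37, 2)], [(38, 1), (39, 2)]⟩,
  ⟨5586, 120, 0, 0, 56, true, false, false, [(0, 52)], []⟩,
  ⟨8557, 120, 0, 0, 0, true, false, false, [(0, 52)], []⟩
  ] = true := by decide +kernel

def g65_64 : Gr := ⟨false, 768, 794, 1024, 1024, 65, 65, 8255, 8256, 0, 1367, 0, []⟩

theorem k65_64 : chk g65_64 T750 [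
  ⟨1921, 120, 600, 288, 288, false, false, true, [(2, 4), (45, 2), (21, 2), (22, 2), (23, 2), (24, 1), (25, 2), (26, 2), (27, 1), (28, 2), (29, 2), (30, 2), (31, 1), (32, 2), (33, 2), (34, 1), (35, 2)], [(36, 2)]⟩,
  ⟨3265, 120, 0, 224, 144, true, true, true, [(0, 4), (4, 2), (5, 4), (6, 3), (7, 3), (16, 1), (17, 3), (18, 4), (31, 1), (32, 2), (33, 2), (34, 1), (35, 2), (36, 2)], [(37, 2), (38, 1), (39, 2)]⟩,
  ⟨4609, 120, 0, 144, 69, true, true, false, [(0, 44)], []⟩,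
  ⟨8303, 120, 0, 0, 0, true, false, false, [(0, 54)], []⟩,
  ⟨8546, 120, 0, 0, 0, true, false, false, [(0, 54)], []⟩
  ] = true := by decide +kernel

def g65_65 : Gr := ⟨false, 793, 820, 1024, 1024, 65, 65, 8255, 8256, 0, 1324, 0, []⟩

theorem k65_65 : chk g65_65 T775 [
  ⟨1921, 120, 600, 272, 272, false, false, true, [(2, 4), (45, 2), (21, 2), (22, 2), (23, 2), (24, 1), (25, 2), (26, 2), (27, 1), (28, 2), (29, 2), (30, 2), (31, 1), (32, 2), (33, 2), (34, 1), (35, 2), (36, 2)], [(37, 2), (38, 1)]⟩,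
  ⟨3842, 120, 0, 208, 117, true, true, true, [(0, 4), (4, 2), (5, 4), (6, 3), (7, 3), (16, 1), (17, 3), (18, 4), (31, 1), (32, 2), (33, 2), (34, 1), (35, 2), (36, 2)], [(37, 2), (38, 1), (39, 2), (40, 2), (41, 1)]⟩,
  ⟨5763, 120, 0, 2, 81, true, true, true, [(0, 53)], [(0, 2)]⟩,
  ⟨8549, 120, 0, 0, 0, true, false, false, [(0, 56)], []⟩
  ] = true := by decide +kernel

end Pool.Agent.Lib.MP_af3a4a_an.P1.CHK.H81.L
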