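import Pool.Agent.Lib.MP_af3a4a_an.P1.CHK.H81.LT
/-!
# Data, `66 ≤ N ≤ 66`, `286 ≤ 1024 R ≤ 392` (helper81)
-/
set_option autoImplicit false

namespace Pool.Agent.Lib.MP_af3a4a_an.P1.CHK.H81.L

open Pool.Agent.Lib.MP_af3a4a_an.P1.CHK.H58.G (Gr En)

def g66_0 : Gr := ⟨false, 286, 294, 1024, 1024, 66, 66, 8319, 8320, 512, 3668, 0, []⟩

theorem k66_0 : chk g66_0 [] [
  ⟨1225, 120, 0, 176, 88, true, true, false, [(0, 8)], []⟩,
  ⟨1352, 120, 0, 176, 88, true, true, false, [(0, 8)], []⟩,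
  ⟨1531, 120, 0, 176, 88, true, true, false, [(0, 8)], []⟩,
  ⟨2029, 120, 0, 120, 56, true, true, false, [(0, 12)], []⟩,
  ⟨5796, 120, 0, 16, 7, true, true, false, [(0, 19)], []⟩,
  ⟨8557, 120, 0, 0, 0, true, false, false, [(0, 20)], []⟩
  ] = true := by decide +kernel

def g66_1 : Gr := ⟨false, 294, 302, 1024, 1024, 66, 66, 8319, 8320, 512, 3568, 0, []⟩

theorem k66_1 : chk g66_1 [] [
  ⟨1238, 90, 0, 192, 98, true, true, false, [(0, 10)], []⟩,
  ⟨1301, 90, 0, 192, 98, true, true, false, [(0, 10)], []⟩,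
  ⟨1480, 90, 0, 160, 78, true, true, false, [(0, 13)], []⟩,
  ⟨1833, 90, 0, 144, 69, true, true, false, [(0, 15)], []⟩,
  ⟨3198, 90, 0, 72, 32, true, true, false, [(0, 21)], []⟩,
  ⟨6949, 90, 0, 0, 0, true, false, false, [(0, 28)], []⟩,
  ⟨8550, 90, 0, 0, 0, true, false, false, [(0, 28)], []⟩
  ] = true := by decide +kernel

def g66_2 : Gr := ⟨false, 302, 308, 1024, 1024, 66, 66, 8319, 8320, 384, 3474, 0, []⟩

theorem k66_2 : chk g66_2 [] [
  ⟨941, 120, 0, 192, 98, true, true, false, [(0, 1), (3, 7)], []⟩,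
  ⟨962, 120, 0, 192, 98, true, true, false, [(0, 1), (3, 7)], []⟩,
  ⟨983, 120, 0, 192, 98, true, true, false, [(0, 2), (3, 6)], []⟩,
  ⟨1014, 120, 0, 192, 98, true, true, false, [(0, 2), (3, 6)], []⟩,
  ⟨1045, 120, 0, 192, 98, true, true, false, [(0, 2), (3, 6)], []⟩,
  ⟨1076, 120, 0, 192, 98, true, true, false, [(0, 2), (3, 6)], []⟩,
  ⟨1107, 120, 0, 192, 98, true, true, false, [(0, 2), (3, 6)], []⟩,
  ⟨1138, 120, 0, 192, 98, true, true, false, [(0, 3), (3, 5)], []⟩,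
  ⟨1169, 120, 0, 192, 98, true, true, false, [(0, 3), (3, 5)], []⟩,
  ⟨1200, 120, 0, 192, 98, true, true, false, [(0, 4), (3, 4)], []⟩,
  ⟨1231, 120, 0, 192, 98, true, true, false, [(0, 8)], []⟩,
  ⟨1295, 120, 0, 176, 88, true, true, false, [(0, 9)], []⟩,
  ⟨1476, 120, 0, 176, 88, true, true, false, [(0, 9)], []⟩,
  ⟨1731, 120, 0, 160, 78, true, true, false, [(0, 11)], []⟩,
  ⟨2718, 120, 0, 104, 48, true, true, false, [(0, 14)], []⟩,
  ⟨6519, 120, 0, 0, 0, true, false, false, [(0, 21)], []⟩,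
  ⟨8490, 120, 0, 0, 0, true, false, false, [(0, 21)], []⟩
  ] = true := by decide +kernel

def g66_3 : Gr := ⟨false, 307, 313, 1024, 1024, 66, 66, 8319, 8320, 384, 3417, 0, []⟩

theorem k66_3 : chk g66_3 T300 [
  ⟨979, 90, 0, 192, 98, true, true, false, [(0, 1), (3, 10)], []⟩,
  ⟨1023, 90, 0, 192, 98, true, true, false, [(0, 2), (3, 9)], []⟩,
  ⟨1086, 90, 0, 192, 98, true, true, false, [(0, 2), (3, 9)], []⟩,
  ⟨1149, 90, 0, 192, 98, true, true, false, [(0, 2), (3, 9)], []⟩,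
  ⟨1193, 90, 0, 192, 98, true, true, false, [(0, 3), (3, 8)], []⟩,
  ⟨1237, 90, 0, 192, 98, true, true, false, [(0, 5), (3, 6)], []⟩,
  ⟨1300, 90, 0, 192, 98, true, true, false, [(0, 11)], []⟩,
  ⟨1389, 90, 0, 192, 98, true, true, false, [(0, 11)], []⟩,
  ⟨1639, 90, 0, 160, 78, true, true, false, [(0, 14)], []⟩,
  ⟨2331, 90, 0, 128, 60, true, true, false, [(0, 17)], []⟩,
  ⟨6067, 90, 0, 0, 0, true, false, false, [(0, 29)], []⟩,
  ⟨8487, 90, 0, 0, 0, true, false, false, [(0, 29)], []⟩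
  ] = true := by decide +kernel

def g66_4 : Gr := ⟨false, 313, 317, 1024, 1024, 66, 66, 8319, 8320, 384, 3352, 0, []⟩

theorem k66_4 : chk g66_4 T300 [
  ⟨974, 120, 0, 208, 109, true, true, false, [(0, 1), (3, 7)], []⟩,
  ⟨995, 120, 0, 208, 109, true, true, false, [(0, 2), (3, 6)], []⟩,
  ⟨1016, 120, 0, 208, 109, true, true, false, [(0, 2), (3, 6)], []⟩,
  ⟨1037, 120, 0, 208, 109, true, true, false, [(0, 2), (3, 6)], []⟩,
  ⟨1058, 120, 0, 208, 109, true, true, false, [(0, 2), (3, 6)], []⟩,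
  ⟨1079, 120, 0, 208, 109, true, true, false, [(0, 2), (3, 6)], []⟩,
  ⟨1100, 120, 0, 192, 98, true, true, false, [(0, 2), (3, 7)], []⟩,
  ⟨1121, 120, 0, 192, 98, true, true, false, [(0, 2), (3, 7)], []⟩,
  ⟨1142, 120, 0, 192, 98, true, true, false, [(0, 2), (3, 7)], []⟩,
  ⟨1163, 120, 0, 192, 98, true, true, false, [(0, 2), (3, 7)], []⟩,
  ⟨1194, 120, 0, 192, 98, true, true, false, [(0, 3), (3, 6)], []⟩,
  ⟨1225, 120, 0, 192, 98, true, true, false, [(0, 4), (3, 5)], []⟩,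
  ⟨1247, 120, 0, 192, 98, true, true, false, [(0, 5), (3, 4)], []⟩,
  ⟨1279, 120, 0, 192, 98, true, true, false, [(0, 9)], []⟩,
  ⟨1344, 120, 0, 192, 98, true, true, false, [(0, 9)], []⟩,
  ⟨1474, 120, 0, 176, 88, true, true, false, [(0, 10)], []⟩,
  ⟨1836, 120, 0, 160, 78, true, true, false, [(0, 11)], []⟩,
  ⟨2834, 120, 0, 96, 44, true, true, false, [(0, 15)], []⟩,
  ⟨6676, 120, 0, 0, 0, true, false, false, [(0, 22)], []⟩,
  ⟨8432, 120, 0, 0, 0, true, false, false, [(0, 22)], []⟩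
  ] = true := by decide +kernel

def g66_5 : Gr := ⟨false, 317, 321, 1024, 1024, 66, 66, 8319, 8320, 256, 3309, 0, []⟩

theorem k66_5 : chk g66_5 T300 [
  ⟨687, 50, 0, 224, 120, true, true, false, [(0, 1), (3, 15)], []⟩,
  ⟨731, 50, 0, 224, 120, true, true, false, [(0, 1), (3, 15)], []⟩,
  ⟨775, 50, 0, 224, 120, true, true, false, [(0, 1), (3, 15)], []⟩,
  ⟨819, 50, 0, 224, 120, true, true, false, [(0, 1), (3, 15)], []⟩,
  ⟨863, 50, 0, 192, 98, true, true, false, [(0, 1), (3, 20)], []⟩,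
  ⟨926, 50, 0, 192, 98, true, true, false, [(0, 1), (3, 20)], []⟩,
  ⟨989, 50, 0, 192, 98, true, true, false, [(0, 1), (3, 20)], []⟩,
  ⟨1079, 50, 0, 192, 98, true, true, false, [(0, 2), (3, 19)], []⟩,
  ⟨1169, 50, 0, 192, 98, true, true, false, [(0, 2), (3, 19)], []⟩,
  ⟨1259, 50, 0, 192, 98, true, true, false, [(0, 3), (3, 18)], []⟩,
  ⟨1349, 50, 0, 192, 98, true, true, false, [(0, 21)], []⟩,
  ⟨1528, 50, 0, 176, 88, true, true, false, [(0, 24)], []⟩,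
  ⟨1881, 50, 0, 144, 69, true, true, false, [(0, 29)], []⟩,
  ⟨2855, 50, 0, 88, 40, true, true, false, [(0, 38)], []⟩,
  ⟨6606, 50, 0, 0, 0, true, false, false, [(0, 53)], []⟩,
  ⟨8429, 50, 0, 0, 0, true, false, false, [(0, 53)], []⟩
  ] = true := by decide +kernel

def g66_6 : Gr := ⟨false, 321, 327, 1024, 1024, 66, 66, 8319, 8320, 256, 3268, 0, []⟩

theorem k66_6 : chk g66_6 T300 [
  ⟨672, 70, 0, 224, 120, true, true, false, [(0, 1), (3, 11)], []⟩,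
  ⟨703, 70, 0, 224, 120, true, true, false, [(0, 1), (3, 11)], []⟩,
  ⟨734, 70, 0, 208, 109, true, true, false, [(0, 1), (3, 13)], []⟩,
  ⟨765, 70, 0, 208, 109, true, true, false, [(0, 1), (3, 13)], []⟩,
  ⟨810, 70, 0, 208, 109, true, true, false, [(0, 1), (3, 13)], []⟩,
  ⟨855, 70, 0, 208, 109, true, true, false, [(0, 1), (3, 13)], []⟩,
  ⟨919, 70, 0, 208, 109, true, true, false, [(0, 1), (3, 13)], []⟩,
  ⟨983, 70, 0, 208, 109, true, true, false, [(0, 1), (3, 13)], []⟩,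
  ⟨1047, 70, 0, 208, 109, true, true, false, [(0, 2), (3, 12)], []⟩,
  ⟨1111, 70, 0, 208, 109, true, true, false, [(0, 2), (3, 12)], []⟩,
  ⟨1156, 70, 0, 208, 109, true, true, false, [(0, 2), (3, 12)], []⟩,
  ⟨1187, 70, 0, 208, 109, true, true, false, [(0, 2), (3, 12)], []⟩,
  ⟨1218, 70, 0, 208, 109, true, true, false, [(0, 3), (3, 11)], []⟩,
  ⟨1240, 70, 0, 192, 98, true, true, false, [(0, 3), (3, 13)], []⟩,
  ⟨1262, 70, 0, 192, 98, true, true, false, [(0, 4), (3, 12)], []⟩,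
  ⟨1284, 70, 0, 192, 98, true, true, false, [(0, 6), (3, 10)], []⟩,
  ⟨1306, 70, 0, 192, 98, true, true, false, [(0, 16)], []⟩,
  ⟨1351, 70, 0, 192, 98, true, true, false, [(0, 16)], []⟩,
  ⟨1443, 70, 0, 192, 98, true, true, false, [(0, 16)], []⟩,
  ⟨1626, 70, 0, 176, 88, true, true, false, [(0, 18)], []⟩,
  ⟨2132, 70, 0, 144, 69, true, true, false, [(0, 22)], []⟩,
  ⟨4869, 70, 0, 28, 12, true, true, false, [(0, 35)], []⟩,
  ⟨8480, 70, 0, 0, 0, true, false, false, [(0, 38)], []⟩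
  ] = true := by decide +kernel

def g66_7 : Gr := ⟨false, 327, 333, 1024, 1024, 66, 66, 8319, 8320, 256, 3208, 0, []⟩

theorem k66_7 : chk g66_7 T300 [
  ⟨674, 90, 0, 224, 120, true, true, false, [(0, 1), (3, 9)], []⟩,
  ⟨684, 90, 0, 224, 120, true, true, false, [(0, 1), (3, 9)], []⟩,
  ⟨700, 90, 0, 224, 120, true, true, false, [(0, 1), (3, 9)], []⟩,
  ⟨716, 90, 0, 224, 120, true, true, false, [(0, 1), (3, 9)], []⟩,
  ⟨732, 90, 0, 224, 120, true, true, false, [(0, 1), (3, 9)], []⟩,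
  ⟨755, 90, 0, 224, 120, true, true, false, [(0, 1), (3, 9)], []⟩,
  ⟨778, 90, 0, 224, 120, true, true, false, [(0, 1), (3, 9)], []⟩,
  ⟨801, 90, 0, 224, 120, true, true, false, [(0, 1), (3, 9)], []⟩,
  ⟨824, 90, 0, 224, 120, true, true, false, [(0, 1), (3, 9)], []⟩,
  ⟨847, 90, 0, 224, 120, true, true, false, [(0, 1), (3, 9)], []⟩,
  ⟨870, 90, 0, 224, 120, true, true, false, [(0, 1), (3, 9)], []⟩,
  ⟨893, 90, 0, 224, 120, true, true, false, [(0, 1), (3, 9)], []⟩,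
  ⟨916, 90, 0, 224, 120, true, true, false, [(0, 1), (3, 9)], []⟩,
  ⟨932, 90, 0, 224, 120, true, true, false, [(0, 1), (3, 9)], []⟩,
  ⟨948, 90, 0, 224, 120, true, true, false, [(0, 1), (3, 9)], []⟩,
  ⟨964, 90, 0, 224, 120, true, true, false, [(0, 1), (3, 9)], []⟩,
  ⟨975, 90, 0, 224, 120, true, true, false, [(0, 1), (3, 9)], []⟩,
  ⟨986, 90, 0, 224, 120, true, true, false, [(0, 1), (3, 9)], []⟩,
  ⟨997, 90, 0, 192, 98, true, true, false, [(0, 1), (3, 12)], []⟩,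
  ⟨1008, 90, 0, 192, 98, true, true, false, [(0, 1), (3, 12)], []⟩,
  ⟨1019, 90, 0, 192, 98, true, true, false, [(0, 2), (3, 11)], []⟩,
  ⟨1036, 90, 0, 192, 98, true, true, false, [(0, 2), (3, 11)], []⟩,
  ⟨1053, 90, 0, 192, 98, true, true, false, [(0, 2), (3, 11)], []⟩,
  ⟨1077, 90, 0, 192, 98, true, true, false, [(0, 2), (3, 11)], []⟩,
  ⟨1101, 90, 0, 192, 98, true, true, false, [(0, 2), (3, 11)], []⟩,
  ⟨1125, 90, 0, 192, 98, true, true, false, [(0, 2), (3, 11)], []⟩,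
  ⟨1149, 90, 0, 192, 98, true, true, false, [(0, 2), (3, 11)], []⟩,
  ⟨1173, 90, 0, 192, 98, true, true, false, [(0, 2), (3, 11)], []⟩,
  ⟨1208, 90, 0, 192, 98, true, true, false, [(0, 2), (3, 11)], []⟩,
  ⟨1243, 90, 0, 192, 98, true, true, false, [(0, 3), (3, 10)], []⟩,
  ⟨1268, 90, 0, 192, 98, true, true, false, [(0, 3), (3, 10)], []⟩,
  ⟨1293, 90, 0, 192, 98, true, true, false, [(0, 5), (3, 8)], []⟩,
  ⟨1318, 90, 0, 192, 98, true, true, false, [(0, 8), (3, 5)], []⟩,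
  ⟨1369, 90, 0, 192, 98, true, true, false, [(0, 13)], []⟩,
  ⟨1472, 90, 0, 192, 98, true, true, false, [(0, 13)], []⟩,
  ⟨1677, 90, 0, 160, 78, true, true, false, [(0, 16)], []⟩,
  ⟨2082, 90, 0, 144, 69, true, true, false, [(0, 18)], []⟩,
  ⟨3647, 90, 0, 48, 21, true, true, false, [(0, 26)], []⟩,
  ⟨6717, 90, 0, 0, 0, true, false, false, [(0, 31)], []⟩,
  ⟨8477, 90, 0, 0, 0, true, false, false, [(0, 31)], []⟩
  ] = true := by decide +kernel

def g66_8 : Gr := ⟨false, 332, 336, 1024, 1024, 66, 66, 8319, 8320, 256, 3160, 0, []⟩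

theorem k66_8 : chk g66_8 T325 [
  ⟨718, 70, 0, 224, 120, true, true, false, [(0, 1), (3, 12)], []⟩,
  ⟨762, 70, 0, 224, 120, true, true, false, [(0, 1), (3, 12)], []⟩,
  ⟨825, 70, 0, 224, 120, true, true, false, [(0, 1), (3, 12)], []⟩,
  ⟨888, 70, 0, 208, 109, true, true, false, [(0, 1), (3, 14)], []⟩,
  ⟨951, 70, 0, 208, 109, true, true, false, [(0, 1), (3, 14)], []⟩,
  ⟨1014, 70, 0, 208, 109, true, true, false, [(0, 1), (3, 14)], []⟩,
  ⟨1077, 70, 0, 208, 109, true, true, false, [(0, 2), (3, 13)], []⟩,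
  ⟨1140, 70, 0, 208, 109, true, true, false, [(0, 2), (3, 13)], []⟩,
  ⟨1203, 70, 0, 208, 109, true, true, false, [(0, 2), (3, 13)], []⟩,
  ⟨1247, 70, 0, 192, 98, true, true, false, [(0, 3), (3, 14)], []⟩,
  ⟨1291, 70, 0, 192, 98, true, true, false, [(0, 3), (3, 14)], []⟩,
  ⟨1335, 70, 0, 192, 98, true, true, false, [(0, 6), (3, 11)], []⟩,
  ⟨1398, 70, 0, 192, 98, true, true, false, [(0, 17)], []⟩,
  ⟨1524, 70, 0, 192, 98, true, true, false, [(0, 17)], []⟩,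
  ⟨1774, 70, 0, 176, 88, true, true, false, [(0, 19)], []⟩,
  ⟨2466, 70, 0, 112, 52, true, true, false, [(0, 26)], []⟩,
  ⟨6202, 70, 0, 0, 0, true, false, false, [(0, 39)], []⟩,
  ⟨8425, 70, 0, 0, 0, true, false, false, [(0, 39)], []⟩
  ] = true := by decide +kernel

def g66_9 : Gr := ⟨false, 336, 339, 1024, 1024, 66, 66, 8319, 8320, 128, 3122, 0, []⟩

theorem k66_9 : chk g66_9 T325 [
  ⟨468, 90, 630, 64, 220, false, true, false, [(0, 1), (3, 24)], []⟩,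
  ⟨511, 90, 630, 96, 184, false, false, false, [(0, 1), (3, 21)], []⟩,
  ⟨541, 90, 450, 208, 109, false, true, false, [(0, 1), (3, 11)], []⟩,
  ⟨571, 90, 450, 208, 109, false, true, false, [(0, 1), (3, 11)], []⟩,
  ⟨592, 90, 450, 208, 109, false, true, false, [(0, 1), (3, 11)], []⟩,
  ⟨613, 90, 450, 208, 109, false, true, false, [(0, 1), (3, 11)], []⟩,
  ⟨628, 90, 450, 208, 109, false, true, false, [(0, 1), (3, 11)], []⟩,
  ⟨638, 90, 450, 208, 109, false, true, false, [(0, 1), (3, 11)], []⟩,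
  ⟨648, 90, 0, 224, 120, true, true, false, [(0, 1), (3, 10)], []⟩,
  ⟨663, 90, 0, 224, 120, true, true, false, [(0, 1), (3, 10)], []⟩,
  ⟨678, 90, 0, 224, 120, true, true, false, [(0, 1), (3, 10)], []⟩,
  ⟨701, 90, 0, 224, 120, true, true, false, [(0, 1), (3, 10)], []⟩,
  ⟨724, 90, 0, 224, 120, true, true, false, [(0, 1), (3, 10)], []⟩,
  ⟨757, 90, 0, 224, 120, true, true, false, [(0, 1), (3, 10)], []⟩,
  ⟨790, 90, 0, 224, 120, true, true, false, [(0, 1), (3, 10)], []⟩,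
  ⟨837, 90, 0, 224, 120, true, true, false, [(0, 1), (3, 10)], []⟩,
  ⟨884, 90, 0, 224, 120, true, true, false, [(0, 1), (3, 10)], []⟩,
  ⟨931, 90, 0, 208, 109, true, true, false, [(0, 1), (3, 11)], []⟩,
  ⟨998, 90, 0, 208, 109, true, true, false, [(0, 1), (3, 11)], []⟩,
  ⟨1065, 90, 0, 208, 109, true, true, false, [(0, 1), (3, 11)], []⟩,
  ⟨1132, 90, 0, 208, 109, true, true, false, [(0, 2), (3, 10)], []⟩,
  ⟨1199, 90, 0, 208, 109, true, true, false, [(0, 2), (3, 10)], []⟩,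
  ⟨1246, 90, 0, 208, 109, true, true, false, [(0, 2), (3, 10)], []⟩,
  ⟨1293, 90, 0, 208, 109, true, true, false, [(0, 3), (3, 9)], []⟩,
  ⟨1326, 90, 0, 208, 109, true, true, false, [(0, 4), (3, 8)], []⟩,
  ⟨1349, 90, 0, 208, 109, true, true, false, [(0, 7), (3, 5)], []⟩,
  ⟨1372, 90, 0, 208, 109, true, true, false, [(0, 12)], []⟩,
  ⟨1405, 90, 0, 192, 98, true, true, false, [(0, 14)], []⟩,
  ⟨1501, 90, 0, 176, 88, true, true, false, [(0, 15)], []⟩,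
  ⟨1769, 90, 0, 176, 88, true, true, false, [(0, 15)], []⟩,
  ⟨2509, 90, 0, 120, 56, true, true, false, [(0, 20)], []⟩,
  ⟨6500, 90, 0, 0, 0, true, false, false, [(0, 31)], []⟩,
  ⟨8398, 90, 0, 0, 0, true, false, false, [(0, 31)], []⟩
  ] = true := by decide +kernel

def g66_10 : Gr := ⟨false, 339, 344, 1024, 1024, 66, 66, 8319, 8320, 128, 3095, 0, []⟩

theorem k66_10 : chk g66_10 T325 [
  ⟨471, 90, 630, 80, 208, false, false, false, [(0, 1), (3, 23)], []⟩,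
  ⟨514, 90, 630, 80, 200, false, false, false, [(0, 1), (3, 23)], []⟩,
  ⟨544, 90, 450, 192, 98, false, true, false, [(0, 1), (3, 13)], []⟩,
  ⟨574, 90, 450, 192, 98, false, true, false, [(0, 1), (3, 13)], []⟩,
  ⟨595, 90, 450, 192, 98, false, true, false, [(0, 1), (3, 13)], []⟩,
  ⟨610, 90, 450, 192, 98, false, true, false, [(0, 1), (3, 13)], []⟩,
  ⟨625, 90, 450, 192, 98, false, true, false, [(0, 1), (3, 13)], []⟩,
  ⟨635, 90, 450, 192, 98, false, true, false, [(0, 1), (3, 13)], []⟩,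
  ⟨645, 90, 0, 224, 120, true, true, false, [(0, 1), (3, 10)], []⟩,
  ⟨655, 90, 0, 224, 120, true, true, false, [(0, 1), (3, 10)], []⟩,
  ⟨670, 90, 0, 224, 120, true, true, false, [(0, 1), (3, 10)], []⟩,
  ⟨685, 90, 0, 224, 120, true, true, false, [(0, 1), (3, 10)], []⟩,
  ⟨708, 90, 0, 224, 120, true, true, false, [(0, 1), (3, 10)], []⟩,
  ⟨731, 90, 0, 224, 120, true, true, false, [(0, 1), (3, 10)], []⟩,
  ⟨764, 90, 0, 224, 120, true, true, false, [(0, 1), (3, 10)], []⟩,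
  ⟨797, 90, 0, 224, 120, true, true, false, [(0, 1), (3, 10)], []⟩,
  ⟨830, 90, 0, 224, 120, true, true, false, [(0, 1), (3, 10)], []⟩,
  ⟨877, 90, 0, 224, 120, true, true, false, [(0, 1), (3, 10)], []⟩,
  ⟨924, 90, 0, 224, 120, true, true, false, [(0, 1), (3, 10)], []⟩,
  ⟨971, 90, 0, 224, 120, true, true, false, [(0, 1), (3, 10)], []⟩,
  ⟨1004, 90, 0, 224, 120, true, true, false, [(0, 1), (3, 10)], []⟩,
  ⟨1037, 90, 0, 224, 120, true, true, false, [(0, 1), (3, 10)], []⟩,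
  ⟨1070, 90, 0, 224, 120, true, true, false, [(0, 2), (3, 9)], []⟩,
  ⟨1093, 90, 0, 224, 120, true, true, false, [(0, 2), (3, 9)], []⟩,
  ⟨1109, 90, 0, 224, 120, true, true, false, [(0, 2), (3, 9)], []⟩,
  ⟨1125, 90, 0, 224, 120, true, true, false, [(0, 2), (3, 9)], []⟩,
  ⟨1141, 90, 0, 192, 98, true, true, false, [(0, 2), (3, 12)], []⟩,
  ⟨1157, 90, 0, 192, 98, true, true, false, [(0, 2), (3, 12)], []⟩,
  ⟨1173, 90, 0, 192, 98, true, true, false, [(0, 2), (3, 12)], []⟩,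
  ⟨1196, 90, 0, 192, 98, true, true, false, [(0, 2), (3, 12)], []⟩,
  ⟨1219, 90, 0, 192, 98, true, true, false, [(0, 2), (3, 12)], []⟩,
  ⟨1242, 90, 0, 192, 98, true, true, false, [(0, 2), (3, 12)], []⟩,
  ⟨1265, 90, 0, 192, 98, true, true, false, [(0, 3), (3, 11)], []⟩,
  ⟨1288, 90, 0, 192, 98, true, true, false, [(0, 3), (3, 11)], []⟩,
  ⟨1311, 90, 0, 192, 98, true, true, false, [(0, 4), (3, 10)], []⟩,
  ⟨1334, 90, 0, 192, 98, true, true, false, [(0, 4), (3, 10)], []⟩,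
  ⟨1357, 90, 0, 192, 98, true, true, false, [(0, 6), (3, 8)], []⟩,
  ⟨1380, 90, 0, 192, 98, true, true, false, [(0, 14)], []⟩,
  ⟨1449, 90, 0, 192, 98, true, true, false, [(0, 14)], []⟩,
  ⟨1588, 90, 0, 192, 98, true, true, false, [(0, 14)], []⟩,
  ⟨1863, 90, 0, 160, 78, true, true, false, [(0, 17)], []⟩,
  ⟨2622, 90, 0, 112, 52, true, true, false, [(0, 21)], []⟩,
  ⟨5545, 90, 0, 0, 0, true, false, false, [(0, 32)], []⟩,
  ⟨8448, 90, 0, 0, 0, true, false, false, [(0, 32)], []⟩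
  ] = true := by decide +kernel

def g66_11 : Gr := ⟨false, 344, 349, 1024, 1024, 66, 66, 8319, 8320, 128, 3050, 0, []⟩

theorem k66_11 : chk g66_11 T325 [
  ⟨476, 50, 650, 60, 228, false, false, false, [(0, 1), (3, 23), (8, 1), (3, 22)], []⟩,
  ⟨564, 50, 450, 208, 109, false, true, false, [(0, 1), (3, 22)], []⟩,
  ⟨626, 50, 450, 208, 109, false, true, false, [(0, 1), (3, 22)], []⟩,
  ⟨669, 50, 450, 208, 109, false, true, false, [(0, 1), (3, 22)], []⟩,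
  ⟨699, 50, 400, 208, 109, false, true, false, [(0, 1), (3, 22)], []⟩,
  ⟨729, 50, 0, 208, 109, true, true, false, [(0, 1), (3, 22)], []⟩,
  ⟨759, 50, 0, 208, 109, true, true, false, [(0, 1), (3, 22)], []⟩,
  ⟨802, 50, 0, 208, 109, true, true, false, [(0, 1), (3, 22)], []⟩,
  ⟨845, 50, 0, 208, 109, true, true, false, [(0, 1), (3, 22)], []⟩,
  ⟨907, 50, 0, 208, 109, true, true, false, [(0, 1), (3, 22)], []⟩,
  ⟨969, 50, 0, 208, 109, true, true, false, [(0, 1), (3, 22)], []⟩,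
  ⟨1031, 50, 0, 208, 109, true, true, false, [(0, 1), (3, 22)], []⟩,
  ⟨1118, 50, 0, 208, 109, true, true, false, [(0, 2), (3, 21)], []⟩,
  ⟨1205, 50, 0, 208, 109, true, true, false, [(0, 2), (3, 21)], []⟩,
  ⟨1266, 50, 0, 208, 109, true, true, false, [(0, 2), (3, 21)], []⟩,
  ⟨1327, 50, 0, 208, 109, true, true, false, [(0, 3), (3, 20)], []⟩,
  ⟨1370, 50, 0, 208, 109, true, true, false, [(0, 5), (3, 18)], []⟩,
  ⟨1391, 50, 0, 208, 109, true, true, false, [(0, 14), (3, 9)], []⟩,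
  ⟨1434, 50, 0, 192, 98, true, true, false, [(0, 26)], []⟩,
  ⟨1522, 50, 0, 192, 98, true, true, false, [(0, 26)], []⟩,
  ⟨1697, 50, 0, 176, 88, true, true, false, [(0, 29)], []⟩,
  ⟨2181, 50, 0, 144, 69, true, true, false, [(0, 34)], []⟩,
  ⟨4050, 50, 0, 36, 16, true, true, false, [(0, 51)], []⟩,
  ⟨7717, 50, 0, 0, 0, true, false, false, [(0, 57)], []⟩,
  ⟨8446, 50, 0, 0, 0, true, false, false, [(0, 57)], []⟩
  ] = true := by decide +kernel

def g66_12 : Gr := ⟨false, 349, 353, 1024, 1024, 66, 66, 8319, 8320, 128, 3006, 0, []⟩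

theorem k66_12 : chk g66_12 T325 [
  ⟨481, 70, 630, 88, 208, false, false, false, [(0, 1), (3, 30)], []⟩,
  ⟨543, 70, 630, 88, 200, false, false, false, [(0, 1), (3, 30)], []⟩,
  ⟨605, 70, 420, 208, 109, false, true, false, [(0, 1), (3, 16)], []⟩,
  ⟨648, 70, 420, 208, 109, false, true, false, [(0, 1), (3, 16)], []⟩,
  ⟨678, 70, 0, 224, 120, true, true, false, [(0, 1), (3, 14)], []⟩,
  ⟨721, 70, 0, 224, 120, true, true, false, [(0, 1), (3, 14)], []⟩,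
  ⟨764, 70, 0, 224, 120, true, true, false, [(0, 1), (3, 14)], []⟩,
  ⟨826, 70, 0, 224, 120, true, true, false, [(0, 1), (3, 14)], []⟩,
  ⟨888, 70, 0, 224, 120, true, true, false, [(0, 1), (3, 14)], []⟩,
  ⟨950, 70, 0, 224, 120, true, true, false, [(0, 1), (3, 14)], []⟩,
  ⟨1012, 70, 0, 224, 120, true, true, false, [(0, 1), (3, 14)], []⟩,
  ⟨1074, 70, 0, 208, 109, true, true, false, [(0, 1), (3, 16)], []⟩,
  ⟨1136, 70, 0, 208, 109, true, true, false, [(0, 2), (3, 15)], []⟩,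
  ⟨1198, 70, 0, 208, 109, true, true, false, [(0, 2), (3, 15)], []⟩,
  ⟨1260, 70, 0, 208, 109, true, true, false, [(0, 2), (3, 15)], []⟩,
  ⟨1322, 70, 0, 208, 109, true, true, false, [(0, 3), (3, 14)], []⟩,
  ⟨1365, 70, 0, 208, 109, true, true, false, [(0, 4), (3, 13)], []⟩,
  ⟨1395, 70, 0, 208, 109, true, true, false, [(0, 6), (3, 11)], []⟩,
  ⟨1425, 70, 0, 208, 109, true, true, false, [(0, 17)], []⟩,
  ⟨1513, 70, 0, 192, 98, true, true, false, [(0, 19)], []⟩,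
  ⟨1688, 70, 0, 176, 88, true, true, false, [(0, 21)], []⟩,
  ⟨2034, 70, 0, 160, 78, true, true, false, [(0, 23)], []⟩,
  ⟨2990, 70, 0, 88, 40, true, true, false, [(0, 31)], []⟩,
  ⟨6671, 70, 0, 0, 0, true, false, false, [(0, 41)], []⟩,
  ⟨8420, 70, 0, 0, 0, true, false, false, [(0, 41)], []⟩
  ] = true := by decide +kernel

def g66_13 : Gr := ⟨false, 353, 358, 1024, 1024, 66, 66, 8319, 8320, 0, 2972, 0, []⟩

theorem k66_13 : chk g66_13 T325 [
  ⟨355, 90, 720, 16, 287, false, true, false, [(0, 1), (3, 4), (15, 3), (6, 1), (7, 2), (8, 2), (9, 3), (3, 15)], []⟩,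
  ⟨476, 90, 630, 72, 224, false, false, false, [(0, 1), (3, 25)], []⟩,
  ⟨535, 90, 630, 104, 192, false, false, false, [(0, 1), (3, 22)], []⟩,
  ⟨576, 90, 630, 104, 184, false, false, false, [(0, 1), (3, 22)], []⟩,
  ⟨617, 90, 450, 208, 109, false, true, false, [(0, 1), (3, 13)], []⟩,
  ⟨646, 90, 450, 208, 109, false, true, false, [(0, 1), (3, 13)], []⟩,
  ⟨666, 90, 450, 208, 109, false, true, false, [(0, 1), (3, 13)], []⟩,
  ⟨686, 90, 450, 208, 109, false, true, false, [(0, 1), (3, 13)], []⟩,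
  ⟨700, 90, 0, 240, 132, true, true, false, [(0, 1), (3, 10)], []⟩,
  ⟨721, 90, 0, 240, 132, true, true, false, [(0, 1), (3, 10)], []⟩,
  ⟨742, 90, 0, 240, 132, true, true, false, [(0, 1), (3, 10)], []⟩,
  ⟨763, 90, 0, 240, 132, true, true, false, [(0, 1), (3, 10)], []⟩,
  ⟨784, 90, 0, 240, 132, true, true, false, [(0, 1), (3, 10)], []⟩,
  ⟨805, 90, 0, 240, 132, true, true, false, [(0, 1), (3, 10)], []⟩,
  ⟨826, 90, 0, 240, 132, true, true, false, [(0, 1), (3, 10)], []⟩,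
  ⟨847, 90, 0, 240, 132, true, true, false, [(0, 1), (3, 10)], []⟩,
  ⟨868, 90, 0, 240, 132, true, true, false, [(0, 1), (3, 10)], []⟩,
  ⟨889, 90, 0, 240, 132, true, true, false, [(0, 1), (3, 10)], []⟩,
  ⟨910, 90, 0, 240, 132, true, true, false, [(0, 1), (3, 10)], []⟩,
  ⟨924, 90, 0, 240, 132, true, true, false, [(0, 1), (3, 10)], []⟩,
  ⟨938, 90, 0, 240, 132, true, true, false, [(0, 1), (3, 10)], []⟩,
  ⟨952, 90, 0, 208, 109, true, true, false, [(0, 1), (3, 13)], []⟩,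
  ⟨966, 90, 0, 208, 109, true, true, false, [(0, 1), (3, 13)], []⟩,
  ⟨980, 90, 0, 208, 109, true, true, false, [(0, 1), (3, 13)], []⟩,
  ⟨1001, 90, 0, 208, 109, true, true, false, [(0, 1), (3, 13)], []⟩,
  ⟨1022, 90, 0, 208, 109, true, true, false, [(0, 1), (3, 13)], []⟩,
  ⟨1043, 90, 0, 208, 109, true, true, false, [(0, 1), (3, 13)], []⟩,
  ⟨1074, 90, 0, 208, 109, true, true, false, [(0, 1), (3, 13)], []⟩,
  ⟨1105, 90, 0, 208, 109, true, true, false, [(0, 2), (3, 12)], []⟩,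
  ⟨1136, 90, 0, 208, 109, true, true, false, [(0, 2), (3, 12)], []⟩,
  ⟨1167, 90, 0, 208, 109, true, true, false, [(0, 2), (3, 12)], []⟩,
  ⟨1198, 90, 0, 208, 109, true, true, false, [(0, 2), (3, 12)], []⟩,
  ⟨1229, 90, 0, 208, 109, true, true, false, [(0, 2), (3, 12)], []⟩,
  ⟨1260, 90, 0, 208, 109, true, true, false, [(0, 2), (3, 12)], []⟩,
  ⟨1291, 90, 0, 208, 109, true, true, false, [(0, 2), (3, 12)], []⟩,
  ⟨1322, 90, 0, 208, 109, true, true, false, [(0, 3), (3, 11)], []⟩,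
  ⟨1343, 90, 0, 208, 109, true, true, false, [(0, 3), (3, 11)], []⟩,
  ⟨1364, 90, 0, 192, 98, true, true, false, [(0, 4), (3, 11)], []⟩,
  ⟨1385, 90, 0, 192, 98, true, true, false, [(0, 4), (3, 11)], []⟩,
  ⟨1406, 90, 0, 192, 98, true, true, false, [(0, 6), (3, 9)], []⟩,
  ⟨1427, 90, 0, 192, 98, true, true, false, [(0, 11), (3, 4)], []⟩,
  ⟨1472, 90, 0, 192, 98, true, true, false, [(0, 15)], []⟩,
  ⟨1563, 90, 0, 192, 98, true, true, false, [(0, 15)], []⟩,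
  ⟨1744, 90, 0, 192, 98, true, true, false, [(0, 15)], []⟩,
  ⟨2101, 90, 0, 160, 78, true, true, false, [(0, 18)], []⟩,
  ⟨3482, 90, 0, 72, 32, true, true, false, [(0, 26)], []⟩,
  ⟨7276, 90, 0, 0, 0, true, false, false, [(0, 33)], []⟩,
  ⟨8443, 90, 0, 0, 0, true, false, false, [(0, 33)], []⟩
  ] = true := by decide +kernel

def g66_14 : Gr := ⟨false, 358, 363, 1024, 1024, 66, 66, 8319, 8320, 0, 2048, 0, []⟩

theorem k66_14 : chk g66_14 T350 [
  ⟨355, 90, 720, 20, 284, false, false, false, [(0, 1), (3, 4), (18, 3), (8, 1), (9, 2), (10, 2), (11, 3), (12, 2), (3, 13)], []⟩,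
  ⟨476, 90, 630, 88, 216, false, false, false, [(0, 1), (3, 13), (11, 2), (3, 9)], []⟩,
  ⟨561, 90, 630, 88, 208, false, false, false, [(0, 1), (3, 14), (11, 1), (3, 9)], []⟩,
  ⟨620, 90, 450, 208, 109, false, true, false, [(0, 1), (3, 13)], []⟩,
  ⟨661, 90, 450, 208, 109, false, true, false, [(0, 1), (3, 13)], []⟩,
  ⟨690, 90, 450, 208, 109, false, true, false, [(0, 1), (3, 13)], []⟩,
  ⟨710, 90, 450, 208, 109, false, true, false, [(0, 1), (3, 13)], []⟩,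
  ⟨724, 90, 450, 208, 109, false, true, false, [(0, 1), (3, 13)], []⟩,
  ⟨738, 90, 450, 208, 109, false, true, false, [(0, 1), (3, 13)], []⟩,
  ⟨748, 90, 0, 224, 120, true, true, false, [(0, 1), (3, 12)], []⟩,
  ⟨763, 90, 0, 224, 120, true, true, false, [(0, 1), (3, 12)], []⟩,
  ⟨778, 90, 0, 224, 120, true, true, false, [(0, 1), (3, 12)], []⟩,
  ⟨800, 90, 0, 224, 120, true, true, false, [(0, 1), (3, 12)], []⟩,
  ⟨822, 90, 0, 224, 120, true, true, false, [(0, 1), (3, 12)], []⟩,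
  ⟨853, 90, 0, 224, 120, true, true, false, [(0, 1), (3, 12)], []⟩,
  ⟨884, 90, 0, 224, 120, true, true, false, [(0, 1), (3, 12)], []⟩,
  ⟨915, 90, 0, 224, 120, true, true, false, [(0, 1), (3, 12)], []⟩,
  ⟨960, 90, 0, 224, 120, true, true, false, [(0, 1), (3, 12)], []⟩,
  ⟨1005, 90, 0, 224, 120, true, true, false, [(0, 1), (3, 12)], []⟩,
  ⟨1050, 90, 0, 224, 120, true, true, false, [(0, 1), (3, 12)], []⟩,
  ⟨1095, 90, 0, 208, 109, true, true, false, [(0, 1), (3, 13)], []⟩,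
  ⟨1140, 90, 0, 208, 109, true, true, false, [(0, 2), (3, 12)], []⟩,
  ⟨1185, 90, 0, 208, 109, true, true, false, [(0, 2), (3, 12)], []⟩,
  ⟨1230, 90, 0, 208, 109, true, true, false, [(0, 2), (3, 12)], []⟩,
  ⟨1275, 90, 0, 208, 109, true, true, false, [(0, 2), (3, 12)], []⟩,
  ⟨1320, 90, 0, 208, 109, true, true, false, [(0, 2), (3, 12)], []⟩,
  ⟨1365, 90, 0, 208, 109, true, true, false, [(0, 3), (3, 11)], []⟩,
  ⟨1396, 90, 0, 208, 109, true, true, false, [(0, 4), (3, 10)], []⟩,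
  ⟨1427, 90, 0, 208, 109, true, true, false, [(0, 6), (3, 8)], []⟩,
  ⟨1449, 90, 0, 208, 109, true, true, false, [(0, 12), (3, 2)], []⟩,
  ⟨1481, 90, 0, 208, 109, true, true, false, [(0, 14)], []⟩,
  ⟨1527, 90, 0, 208, 109, true, true, false, [(0, 14)], []⟩,
  ⟨1620, 90, 0, 176, 88, true, true, false, [(0, 17)], []⟩,
  ⟨1879, 90, 0, 176, 88, true, true, false, [(0, 17)], []⟩,
  ⟨2595, 90, 0, 120, 56, true, true, false, [(0, 22)], []⟩,
  ⟨5899, 90, 0, 0, 0, true, false, false, [(0, 33)], []⟩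
  ] = true := by decide +kernel

def g66_15 : Gr := ⟨false, 363, 368, 1024, 1024, 66, 66, 8319, 8320, 0, 2048, 0, []⟩

theorem k66_15 : chk g66_15 T350 [
  ⟨355, 50, 650, 48, 264, false, false, false, [(0, 1), (3, 8), (18, 5), (8, 2), (9, 4), (10, 5), (11, 4), (12, 4), (3, 19)], []⟩,
  ⟨529, 50, 650, 104, 200, false, false, false, [(0, 1), (3, 22), (10, 2), (11, 4), (3, 14)], []⟩,
  ⟨614, 50, 450, 208, 109, false, true, false, [(0, 1), (3, 25)], []⟩,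
  ⟨673, 50, 450, 208, 109, false, true, false, [(0, 1), (3, 25)], []⟩,
  ⟨732, 50, 450, 208, 109, false, true, false, [(0, 1), (3, 25)], []⟩,
  ⟨761, 50, 450, 208, 109, false, true, false, [(0, 1), (3, 25)], []⟩,
  ⟨790, 50, 0, 240, 132, true, true, false, [(0, 1), (3, 20)], []⟩,
  ⟨831, 50, 0, 240, 132, true, true, false, [(0, 1), (3, 20)], []⟩,
  ⟨872, 50, 0, 240, 132, true, true, false, [(0, 1), (3, 20)], []⟩,
  ⟨913, 50, 0, 224, 120, true, true, false, [(0, 1), (3, 23)], []⟩,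
  ⟨954, 50, 0, 224, 120, true, true, false, [(0, 1), (3, 23)], []⟩,
  ⟨995, 50, 0, 208, 109, true, true, false, [(0, 1), (3, 25)], []⟩,
  ⟨1054, 50, 0, 208, 109, true, true, false, [(0, 1), (3, 25)], []⟩,
  ⟨1113, 50, 0, 208, 109, true, true, false, [(0, 1), (3, 25)], []⟩,
  ⟨1172, 50, 0, 208, 109, true, true, false, [(0, 2), (3, 24)], []⟩,
  ⟨1231, 50, 0, 208, 109, true, true, false, [(0, 2), (3, 24)], []⟩,
  ⟨1290, 50, 0, 208, 109, true, true, false, [(0, 2), (3, 24)], []⟩,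
  ⟨1349, 50, 0, 208, 109, true, true, false, [(0, 3), (3, 23)], []⟩,
  ⟨1408, 50, 0, 208, 109, true, true, false, [(0, 3), (3, 23)], []⟩,
  ⟨1449, 50, 0, 208, 109, true, true, false, [(0, 6), (3, 20)], []⟩,
  ⟨1478, 50, 0, 208, 109, true, true, false, [(0, 26)], []⟩,
  ⟨1519, 50, 0, 208, 109, true, true, false, [(0, 26)], []⟩,
  ⟨1603, 50, 0, 192, 98, true, true, false, [(0, 29)], []⟩,
  ⟨1771, 50, 0, 176, 88, true, true, false, [(0, 32)], []⟩,
  ⟨2237, 50, 0, 144, 69, true, true, false, [(0, 37)], []⟩,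
  ⟨4035, 50, 0, 48, 21, true, true, false, [(0, 52)], []⟩,
  ⟨5981, 50, 0, 0, 0, true, false, false, [(0, 60)], []⟩
  ] = true := by decide +kernel

def g66_16 : Gr := ⟨false, 368, 372, 1024, 1024, 66, 66, 8319, 8320, 0, 2048, 0, []⟩

theorem k66_16 : chk g66_16 T350 [
  ⟨355, 90, 630, 40, 274, false, true, false, [(0, 1), (3, 4), (18, 3), (8, 1), (9, 2), (10, 2), (11, 3), (12, 2), (3, 12)], []⟩,
  ⟨529, 90, 630, 88, 216, false, false, false, [(0, 1), (3, 12), (11, 3), (3, 10)], []⟩,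
  ⟨614, 90, 630, 96, 204, false, true, false, [(0, 1), (3, 24)], []⟩,
  ⟨673, 90, 450, 208, 109, false, true, false, [(0, 1), (3, 14)], []⟩,
  ⟨714, 90, 450, 208, 109, false, true, false, [(0, 1), (3, 14)], []⟩,
  ⟨755, 90, 0, 240, 132, true, true, false, [(0, 1), (3, 11)], []⟩,
  ⟨796, 90, 0, 240, 132, true, true, false, [(0, 1), (3, 11)], []⟩,
  ⟨837, 90, 0, 240, 132, true, true, false, [(0, 1), (3, 11)], []⟩,
  ⟨878, 90, 0, 240, 132, true, true, false, [(0, 1), (3, 11)], []⟩,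
  ⟨919, 90, 0, 240, 132, true, true, false, [(0, 1), (3, 11)], []⟩,
  ⟨960, 90, 0, 240, 132, true, true, false, [(0, 1), (3, 11)], []⟩,
  ⟨1001, 90, 0, 240, 132, true, true, false, [(0, 1), (3, 11)], []⟩,
  ⟨1042, 90, 0, 240, 132, true, true, false, [(0, 1), (3, 11)], []⟩,
  ⟨1071, 90, 0, 208, 109, true, true, false, [(0, 1), (3, 14)], []⟩,
  ⟨1100, 90, 0, 208, 109, true, true, false, [(0, 1), (3, 14)], []⟩,
  ⟨1141, 90, 0, 208, 109, true, true, false, [(0, 2), (3, 13)], []⟩,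
  ⟨1182, 90, 0, 208, 109, true, true, false, [(0, 2), (3, 13)], []⟩,
  ⟨1223, 90, 0, 208, 109, true, true, false, [(0, 2), (3, 13)], []⟩,
  ⟨1264, 90, 0, 208, 109, true, true, false, [(0, 2), (3, 13)], []⟩,
  ⟨1305, 90, 0, 208, 109, true, true, false, [(0, 2), (3, 13)], []⟩,
  ⟨1346, 90, 0, 208, 109, true, true, false, [(0, 2), (3, 13)], []⟩,
  ⟨1387, 90, 0, 208, 109, true, true, false, [(0, 3), (3, 12)], []⟩,
  ⟨1428, 90, 0, 208, 109, true, true, false, [(0, 4), (3, 11)], []⟩,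
  ⟨1457, 90, 0, 208, 109, true, true, false, [(0, 5), (3, 10)], []⟩,
  ⟨1477, 90, 0, 208, 109, true, true, false, [(0, 8), (3, 7)], []⟩,
  ⟨1506, 90, 0, 208, 109, true, true, false, [(0, 15)], []⟩,
  ⟨1548, 90, 0, 208, 109, true, true, false, [(0, 15)], []⟩,
  ⟨1608, 90, 0, 208, 109, true, true, false, [(0, 15)], []⟩,
  ⟨1779, 90, 0, 176, 88, true, true, false, [(0, 18)], []⟩,
  ⟨2116, 90, 0, 144, 69, true, true, false, [(0, 21)], []⟩,
  ⟨3047, 90, 0, 88, 40, true, true, false, [(0, 26)], []⟩,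
  ⟨6046, 90, 0, 0, 0, true, false, false, [(0, 34)], []⟩
  ] = true := by decide +kernel

def g66_17 : Gr := ⟨false, 372, 378, 1024, 1024, 66, 66, 8319, 8320, 0, 2048, 0, []⟩

theorem k66_17 : chk g66_17 T350 [
  ⟨355, 70, 700, 44, 276, false, false, false, [(0, 1), (3, 5), (18, 4), (8, 1), (9, 3), (10, 3), (11, 3), (12, 3), (3, 16)], []⟩,
  ⟨529, 70, 630, 96, 216, false, false, false, [(0, 1), (3, 16), (11, 3), (3, 13)], []⟩,
  ⟨614, 70, 630, 96, 204, false, true, false, [(0, 1), (3, 32)], []⟩,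
  ⟨673, 70, 490, 208, 109, false, true, false, [(0, 1), (3, 19)], []⟩,
  ⟨714, 70, 490, 208, 109, false, true, false, [(0, 1), (3, 19)], []⟩,
  ⟨755, 70, 490, 208, 109, false, true, false, [(0, 1), (3, 19)], []⟩,
  ⟨775, 70, 0, 224, 120, true, true, false, [(0, 1), (3, 17)], []⟩,
  ⟨804, 70, 0, 224, 120, true, true, false, [(0, 1), (3, 17)], []⟩,
  ⟨833, 70, 0, 224, 120, true, true, false, [(0, 1), (3, 17)], []⟩,
  ⟨875, 70, 0, 224, 120, true, true, false, [(0, 1), (3, 17)], []⟩,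
  ⟨917, 70, 0, 224, 120, true, true, false, [(0, 1), (3, 17)], []⟩,
  ⟨977, 70, 0, 224, 120, true, true, false, [(0, 1), (3, 17)], []⟩,
  ⟨1037, 70, 0, 224, 120, true, true, false, [(0, 1), (3, 17)], []⟩,
  ⟨1097, 70, 0, 224, 120, true, true, false, [(0, 1), (3, 17)], []⟩,
  ⟨1157, 70, 0, 224, 120, true, true, false, [(0, 2), (3, 16)], []⟩,
  ⟨1217, 70, 0, 224, 120, true, true, false, [(0, 2), (3, 16)], []⟩,
  ⟨1259, 70, 0, 224, 120, true, true, false, [(0, 2), (3, 16)], []⟩,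
  ⟨1301, 70, 0, 224, 120, true, true, false, [(0, 2), (3, 16)], []⟩,
  ⟨1330, 70, 0, 208, 109, true, true, false, [(0, 2), (3, 18)], []⟩,
  ⟨1359, 70, 0, 208, 109, true, true, false, [(0, 3), (3, 17)], []⟩,
  ⟨1388, 70, 0, 208, 109, true, true, false, [(0, 3), (3, 17)], []⟩,
  ⟨1417, 70, 0, 208, 109, true, true, false, [(0, 3), (3, 17)], []⟩,
  ⟨1437, 70, 0, 208, 109, true, true, false, [(0, 4), (3, 16)], []⟩,
  ⟨1457, 70, 0, 208, 109, true, true, false, [(0, 5), (3, 15)], []⟩,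
  ⟨1471, 70, 0, 208, 109, true, true, false, [(0, 6), (3, 14)], []⟩,
  ⟨1485, 70, 0, 208, 109, true, true, false, [(0, 8), (3, 12)], []⟩,
  ⟨1495, 70, 0, 208, 109, true, true, false, [(0, 12), (3, 8)], []⟩,
  ⟨1505, 70, 0, 208, 109, true, true, false, [(0, 20)], []⟩,
  ⟨1520, 70, 0, 208, 109, true, true, false, [(0, 20)], []⟩,
  ⟨1552, 70, 0, 208, 109, true, true, false, [(0, 20)], []⟩,
  ⟨1598, 70, 0, 192, 98, true, true, false, [(0, 22)], []⟩,
  ⟨1690, 70, 0, 192, 98, true, true, false, [(0, 22)], []⟩,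
  ⟨1874, 70, 0, 176, 88, true, true, false, [(0, 24)], []⟩,
  ⟨2384, 70, 0, 144, 69, true, true, false, [(0, 28)], []⟩,
  ⟨6143, 70, 0, 0, 0, true, false, true, [(0, 43)], [(0, 1)]⟩
  ] = true := by decide +kernel

def g66_18 : Gr := ⟨false, 378, 384, 1024, 1024, 66, 66, 8319, 8320, 0, 2048, 0, []⟩

theorem k66_18 : chk g66_18 T350 [
  ⟨355, 36, 684, 44, 283, false, true, false, [(0, 1), (3, 11), (18, 7), (8, 4), (9, 5), (10, 6), (11, 6), (12, 5), (3, 32)], []⟩,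
  ⟨529, 36, 684, 88, 224, false, false, false, [(0, 1), (3, 33), (11, 6), (3, 27)], []⟩,
  ⟨614, 36, 648, 96, 212, false, true, false, [(0, 1), (3, 64)], []⟩,
  ⟨673, 36, 504, 208, 109, false, true, false, [(0, 1), (3, 39)], []⟩,
  ⟨732, 36, 504, 208, 109, false, true, false, [(0, 1), (3, 39)], []⟩,
  ⟨773, 36, 0, 240, 132, true, true, false, [(0, 1), (3, 32)], []⟩,
  ⟨814, 36, 0, 240, 132, true, true, false, [(0, 1), (3, 32)], []⟩,
  ⟨873, 36, 0, 240, 132, true, true, false, [(0, 1), (3, 32)], []⟩,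
  ⟨932, 36, 0, 240, 132, true, true, false, [(0, 1), (3, 32)], []⟩,
  ⟨991, 36, 0, 240, 132, true, true, false, [(0, 1), (3, 32)], []⟩,
  ⟨1050, 36, 0, 240, 132, true, true, false, [(0, 1), (3, 32)], []⟩,
  ⟨1091, 36, 0, 240, 132, true, true, false, [(0, 1), (3, 32)], []⟩,
  ⟨1132, 36, 0, 224, 120, true, true, false, [(0, 1), (3, 36)], []⟩,
  ⟨1173, 36, 0, 224, 120, true, true, false, [(0, 2), (3, 35)], []⟩,
  ⟨1214, 36, 0, 224, 120, true, true, false, [(0, 2), (3, 35)], []⟩,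
  ⟨1255, 36, 0, 208, 109, true, true, false, [(0, 2), (3, 38)], []⟩,
  ⟨1296, 36, 0, 208, 109, true, true, false, [(0, 2), (3, 38)], []⟩,
  ⟨1337, 36, 0, 208, 109, true, true, false, [(0, 2), (3, 38)], []⟩,
  ⟨1378, 36, 0, 208, 109, true, true, false, [(0, 2), (3, 38)], []⟩,
  ⟨1419, 36, 0, 208, 109, true, true, false, [(0, 3), (3, 37)], []⟩,
  ⟨1448, 36, 0, 208, 109, true, true, false, [(0, 4), (3, 36)], []⟩,
  ⟨1477, 36, 0, 208, 109, true, true, false, [(0, 4), (3, 36)], []⟩,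
  ⟨1497, 36, 0, 208, 109, true, true, false, [(0, 6), (3, 34)], []⟩,
  ⟨1517, 36, 0, 208, 109, true, true, false, [(0, 11), (3, 29)], []⟩,
  ⟨1531, 36, 0, 208, 109, true, true, false, [(0, 36), (3, 4)], []⟩,
  ⟨1561, 36, 0, 208, 109, true, true, false, [(0, 40)], []⟩,
  ⟨1604, 36, 0, 208, 109, true, true, false, [(0, 40)], []⟩,
  ⟨1691, 36, 0, 192, 98, true, true, false, [(0, 44)], []⟩,
  ⟨1936, 36, 0, 176, 88, true, true, false, [(0, 47)], []⟩,
  ⟨2613, 36, 0, 128, 60, true, true, false, [(0, 58)], []⟩,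
  ⟨6241, 36, 0, 0, 0, true, false, false, [(0, 87)], []⟩
  ] = true := by decide +kernel

def g66_19 : Gr := ⟨false, 384, 387, 1024, 1024, 66, 66, 8319, 8320, 0, 2048, 0, []⟩

theorem k66_19 : chk g66_19 T375 [
  ⟨355, 70, 700, 44, 284, false, false, false, [(0, 1), (3, 5), (19, 4), (8, 1), (9, 3), (10, 3), (11, 3), (12, 3), (3, 17)], []⟩,
  ⟨529, 70, 700, 88, 232, false, false, false, [(0, 1), (3, 16), (11, 3), (3, 1), (12, 2), (3, 12)], []⟩,
  ⟨650, 70, 630, 96, 212, false, true, false, [(0, 1), (3, 33)], []⟩,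
  ⟨735, 70, 490, 224, 120, false, true, false, [(0, 1), (3, 18)], []⟩,
  ⟨794, 70, 490, 224, 120, false, true, false, [(0, 1), (3, 18)], []⟩,
  ⟨835, 70, 490, 208, 109, false, true, false, [(0, 1), (3, 20)], []⟩,
  ⟨876, 70, 0, 224, 120, true, true, false, [(0, 1), (3, 18)], []⟩,
  ⟨935, 70, 0, 224, 120, true, true, false, [(0, 1), (3, 18)], []⟩,
  ⟨994, 70, 0, 224, 120, true, true, false, [(0, 1), (3, 18)], []⟩,
  ⟨1078, 70, 0, 224, 120, true, true, false, [(0, 1), (3, 18)], []⟩,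
  ⟨1162, 70, 0, 224, 120, true, true, false, [(0, 1), (3, 18)], []⟩,
  ⟨1246, 70, 0, 224, 120, true, true, false, [(0, 2), (3, 17)], []⟩,
  ⟨1330, 70, 0, 224, 120, true, true, false, [(0, 2), (3, 17)], []⟩,
  ⟨1389, 70, 0, 224, 120, true, true, false, [(0, 2), (3, 17)], []⟩,
  ⟨1430, 70, 0, 208, 109, true, true, false, [(0, 3), (3, 18)], []⟩,
  ⟨1471, 70, 0, 208, 109, true, true, false, [(0, 3), (3, 18)], []⟩,
  ⟨1512, 70, 0, 208, 109, true, true, false, [(0, 5), (3, 16)], []⟩,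
  ⟨1540, 70, 0, 208, 109, true, true, false, [(0, 8), (3, 13)], []⟩,
  ⟨1581, 70, 0, 208, 109, true, true, false, [(0, 21)], []⟩,
  ⟨1640, 70, 0, 208, 109, true, true, false, [(0, 21)], []⟩,
  ⟨1806, 70, 0, 192, 98, true, true, false, [(0, 23)], []⟩,
  ⟨2134, 70, 0, 160, 78, true, true, false, [(0, 27)], []⟩,
  ⟨3040, 70, 0, 96, 44, true, true, false, [(0, 34)], []⟩,
  ⟨6289, 70, 0, 0, 0, true, false, false, [(0, 45)], []⟩
  ] = true := by decide +kernel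

def g66_20 : Gr := ⟨false, 387, 392, 1024, 1024, 66, 66, 8319, 8320, 0, 2048, 0, []⟩

theorem k66_20 : chk g66_20 T375 [
  ⟨355, 50, 650, 48, 285, false, true, false, [(0, 1), (3, 8), (19, 5), (8, 2), (9, 4), (10, 5), (11, 4), (12, 4), (3, 23)], []⟩,
  ⟨529, 50, 700, 72, 248, false, false, false, [(0, 1), (3, 24), (11, 4), (3, 1), (12, 3), (3, 19)], []⟩,
  ⟨650, 50, 650, 128, 188, false, true, false, [(0, 1), (3, 27), (11, 1), (3, 3), (12, 1), (3, 10)], []⟩,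
  ⟨735, 50, 500, 208, 109, false, true, false, [(0, 1), (3, 29)], []⟩,
  ⟨794, 50, 500, 208, 109, false, true, false, [(0, 1), (3, 29)], []⟩,
  ⟨835, 50, 500, 208, 109, false, true, false, [(0, 1), (3, 29)], []⟩,
  ⟨876, 50, 0, 240, 132, true, true, false, [(0, 1), (3, 24)], []⟩,
  ⟨935, 50, 0, 240, 132, true, true, false, [(0, 1), (3, 24)], []⟩,
  ⟨994, 50, 0, 240, 132, true, true, false, [(0, 1), (3, 24)], []⟩,
  ⟨1053, 50, 0, 240, 132, true, true, false, [(0, 1), (3, 24)], []⟩,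
  ⟨1112, 50, 0, 240, 132, true, true, false, [(0, 1), (3, 24)], []⟩,
  ⟨1153, 50, 0, 224, 120, true, true, false, [(0, 1), (3, 27)], []⟩,
  ⟨1194, 50, 0, 224, 120, true, true, false, [(0, 2), (3, 26)], []⟩,
  ⟨1235, 50, 0, 224, 120, true, true, false, [(0, 2), (3, 26)], []⟩,
  ⟨1276, 50, 0, 208, 109, true, true, false, [(0, 2), (3, 28)], []⟩,
  ⟨1317, 50, 0, 208, 109, true, true, false, [(0, 2), (3, 28)], []⟩,
  ⟨1358, 50, 0, 208, 109, true, true, false, [(0, 2), (3, 28)], []⟩,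
  ⟨1399, 50, 0, 208, 109, true, true, false, [(0, 2), (3, 28)], []⟩,
  ⟨1440, 50, 0, 208, 109, true, true, false, [(0, 3), (3, 27)], []⟩,
  ⟨1481, 50, 0, 208, 109, true, true, false, [(0, 3), (3, 27)], []⟩,
  ⟨1510, 50, 0, 208, 109, true, true, false, [(0, 4), (3, 26)], []⟩,
  ⟨1539, 50, 0, 208, 109, true, true, false, [(0, 6), (3, 24)], []⟩,
  ⟨1559, 50, 0, 208, 109, true, true, false, [(0, 14), (3, 16)], []⟩,
  ⟨1588, 50, 0, 208, 109, true, true, false, [(0, 30)], []⟩,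
  ⟨1648, 50, 0, 208, 109, true, true, false, [(0, 30)], []⟩,
  ⟨1768, 50, 0, 192, 98, true, true, false, [(0, 33)], []⟩,
  ⟨2006, 50, 0, 176, 88, true, true, false, [(0, 36)], []⟩,
  ⟨2666, 50, 0, 128, 60, true, true, false, [(0, 43)], []⟩,
  ⟨6227, 50, 0, 0, 0, true, false, false, [(0, 64)], []⟩,
  ⟨6371, 50, 0, 0, 0, true, false, false, [(0, 64)], []⟩
  ] = true := by decide +kernel

end Pool.Agent.Lib.MP_af3a4a_an.P1.CHK.H81.L
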