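import Pool.Agent.Lib.MP_af3a4a_an.P1.CHK.H81.LT
/-!
# Data, `66 ≤ N ≤ 66`, `392 ≤ 1024 R ≤ 451` (helper81)
-/
set_option autoImplicit false

namespace Pool.Agent.Lib.MP_af3a4a_an.P1.CHK.H81.L

open Pool.Agent.Lib.MP_af3a4a_an.P1.CHK.H58.G (Gr En)

def g66_21 : Gr := ⟨false, 392, 396, 1024, 1024, 66, 66, 8319, 8320, 0, 2048, 0, []⟩

theorem k66_21 : chk g66_21 T375 [
  ⟨355, 90, 720, 20, 308, false, false, false, [(0, 1), (3, 4), (19, 3), (8, 1), (9, 2), (10, 2), (11, 3), (12, 2), (3, 16)], []⟩,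
  ⟨529, 90, 630, 88, 240, false, false, false, [(0, 1), (3, 13), (11, 2), (3, 1), (12, 1), (3, 10)], []⟩,
  ⟨650, 90, 630, 88, 224, false, false, false, [(0, 1), (3, 27)], []⟩,
  ⟨734, 90, 540, 208, 109, false, true, false, [(0, 1), (3, 16)], []⟩,
  ⟨793, 90, 540, 208, 109, false, true, false, [(0, 1), (3, 16)], []⟩,
  ⟨834, 90, 0, 256, 145, true, true, false, [(0, 1), (3, 12)], []⟩,
  ⟨875, 90, 0, 256, 145, true, true, false, [(0, 1), (3, 12)], []⟩,
  ⟨916, 90, 0, 256, 145, true, true, false, [(0, 1), (3, 12)], []⟩,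
  ⟨945, 90, 0, 256, 145, true, true, false, [(0, 1), (3, 12)], []⟩,
  ⟨974, 90, 0, 256, 145, true, true, false, [(0, 1), (3, 12)], []⟩,
  ⟨1003, 90, 0, 256, 145, true, true, false, [(0, 1), (3, 12)], []⟩,
  ⟨1032, 90, 0, 224, 120, true, true, false, [(0, 1), (3, 15)], []⟩,
  ⟨1061, 90, 0, 224, 120, true, true, false, [(0, 1), (3, 15)], []⟩,
  ⟨1102, 90, 0, 224, 120, true, true, false, [(0, 1), (3, 15)], []⟩,
  ⟨1143, 90, 0, 224, 120, true, true, false, [(0, 1), (3, 15)], []⟩,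
  ⟨1184, 90, 0, 224, 120, true, true, false, [(0, 2), (3, 14)], []⟩,
  ⟨1225, 90, 0, 224, 120, true, true, false, [(0, 2), (3, 14)], []⟩,
  ⟨1266, 90, 0, 224, 120, true, true, false, [(0, 2), (3, 14)], []⟩,
  ⟨1307, 90, 0, 224, 120, true, true, false, [(0, 2), (3, 14)], []⟩,
  ⟨1348, 90, 0, 224, 120, true, true, false, [(0, 2), (3, 14)], []⟩,
  ⟨1389, 90, 0, 208, 109, true, true, false, [(0, 2), (3, 15)], []⟩,
  ⟨1430, 90, 0, 208, 109, true, true, false, [(0, 3), (3, 14)], []⟩,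
  ⟨1471, 90, 0, 208, 109, true, true, false, [(0, 3), (3, 14)], []⟩,
  ⟨1512, 90, 0, 208, 109, true, true, false, [(0, 4), (3, 13)], []⟩,
  ⟨1541, 90, 0, 208, 109, true, true, false, [(0, 5), (3, 12)], []⟩,
  ⟨1570, 90, 0, 208, 109, true, true, false, [(0, 7), (3, 10)], []⟩,
  ⟨1599, 90, 0, 208, 109, true, true, false, [(0, 17)], []⟩,
  ⟨1658, 90, 0, 208, 109, true, true, false, [(0, 17)], []⟩,
  ⟨1742, 90, 0, 208, 109, true, true, false, [(0, 17)], []⟩,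
  ⟨1977, 90, 0, 176, 88, true, true, false, [(0, 20)], []⟩,
  ⟨2441, 90, 0, 144, 69, true, true, false, [(0, 23)], []⟩,
  ⟨5952, 90, 0, 0, 0, true, false, true, [(0, 35)], [(0, 1)]⟩,
  ⟨6436, 90, 0, 0, 0, true, false, false, [(0, 36)], []⟩
  ] = true := by decide +kernel

def g66_22 : Gr := ⟨false, 396, 400, 1024, 1024, 66, 66, 8319, 8320, 0, 2048, 0, []⟩

theorem k66_22 : chk g66_22 T375 [
  ⟨355, 120, 720, 16, 320, false, false, false, [(0, 1), (3, 3), (19, 2), (9, 2), (10, 2), (11, 2), (12, 1), (3, 13)], []⟩,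
  ⟨529, 120, 720, 80, 248, false, false, false, [(0, 1), (3, 9), (11, 2), (3, 10)], []⟩,
  ⟨650, 120, 720, 96, 224, false, false, false, [(0, 1), (3, 20)], []⟩,
  ⟨709, 120, 600, 120, 192, false, false, false, [(0, 1), (3, 18)], []⟩,
  ⟨750, 120, 480, 224, 120, false, true, false, [(0, 1), (3, 11)], []⟩,
  ⟨791, 120, 480, 208, 109, false, true, false, [(0, 1), (3, 12)], []⟩,
  ⟨820, 120, 480, 208, 109, false, true, false, [(0, 1), (3, 12)], []⟩,
  ⟨840, 120, 480, 208, 109, false, true, false, [(0, 1), (3, 12)], []⟩,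
  ⟨860, 120, 0, 240, 132, true, true, false, [(0, 1), (3, 10)], []⟩,
  ⟨889, 120, 0, 240, 132, true, true, false, [(0, 1), (3, 10)], []⟩,
  ⟨918, 120, 0, 240, 132, true, true, false, [(0, 1), (3, 10)], []⟩,
  ⟨947, 120, 0, 240, 132, true, true, false, [(0, 1), (3, 10)], []⟩,
  ⟨989, 120, 0, 240, 132, true, true, false, [(0, 1), (3, 10)], []⟩,
  ⟨1031, 120, 0, 240, 132, true, true, false, [(0, 1), (3, 10)], []⟩,
  ⟨1073, 120, 0, 240, 132, true, true, false, [(0, 1), (3, 10)], []⟩,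
  ⟨1115, 120, 0, 240, 132, true, true, false, [(0, 1), (3, 10)], []⟩,
  ⟨1157, 120, 0, 240, 132, true, true, false, [(0, 1), (3, 10)], []⟩,
  ⟨1199, 120, 0, 224, 120, true, true, false, [(0, 2), (3, 10)], []⟩,
  ⟨1241, 120, 0, 224, 120, true, true, false, [(0, 2), (3, 10)], []⟩,
  ⟨1283, 120, 0, 224, 120, true, true, false, [(0, 2), (3, 10)], []⟩,
  ⟨1325, 120, 0, 224, 120, true, true, false, [(0, 2), (3, 10)], []⟩,
  ⟨1367, 120, 0, 224, 120, true, true, false, [(0, 2), (3, 10)], []⟩,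
  ⟨1409, 120, 0, 224, 120, true, true, false, [(0, 2), (3, 10)], []⟩,
  ⟨1438, 120, 0, 224, 120, true, true, false, [(0, 3), (3, 9)], []⟩,
  ⟨1467, 120, 0, 208, 109, true, true, false, [(0, 3), (3, 10)], []⟩,
  ⟨1496, 120, 0, 208, 109, true, true, false, [(0, 3), (3, 10)], []⟩,
  ⟨1525, 120, 0, 208, 109, true, true, false, [(0, 4), (3, 9)], []⟩,
  ⟨1545, 120, 0, 208, 109, true, true, false, [(0, 4), (3, 9)], []⟩,
  ⟨1565, 120, 0, 208, 109, true, true, false, [(0, 5), (3, 8)], []⟩,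
  ⟨1585, 120, 0, 208, 109, true, true, false, [(0, 8), (3, 5)], []⟩,
  ⟨1605, 120, 0, 208, 109, true, true, false, [(0, 13)], []⟩,
  ⟨1648, 120, 0, 208, 109, true, true, false, [(0, 13)], []⟩,
  ⟨1709, 120, 0, 208, 109, true, true, false, [(0, 13)], []⟩,
  ⟨1796, 120, 0, 208, 109, true, true, false, [(0, 13)], []⟩,
  ⟨1969, 120, 0, 176, 88, true, true, false, [(0, 16)], []⟩,
  ⟨2448, 120, 0, 144, 69, true, true, false, [(0, 18)], []⟩,
  ⟨6076, 120, 0, 2, 1, true, true, true, [(0, 26)], [(0, 1)]⟩,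
  ⟨6501, 120, 0, 0, 0, true, false, false, [(0, 28)], []⟩
  ] = true := by decide +kernel

def g66_23 : Gr := ⟨false, 400, 404, 1024, 1024, 66, 66, 8319, 8320, 0, 2048, 0, []⟩

theorem k66_23 : chk g66_23 T375 [
  ⟨355, 70, 700, 44, 300, false, false, false, [(0, 1), (3, 5), (19, 4), (8, 1), (9, 3), (10, 3), (11, 3), (12, 3), (3, 19)], []⟩,
  ⟨599, 70, 700, 96, 232, false, false, false, [(0, 1), (3, 15), (10, 1), (11, 3), (12, 3), (3, 13)], []⟩,
  ⟨718, 70, 630, 112, 204, false, true, false, [(0, 1), (3, 33)], []⟩,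
  ⟨801, 70, 490, 224, 120, false, true, false, [(0, 1), (3, 20)], []⟩,
  ⟨859, 70, 490, 224, 120, false, true, false, [(0, 1), (3, 20)], []⟩,
  ⟨900, 70, 490, 224, 120, false, true, false, [(0, 1), (3, 20)], []⟩,
  ⟨928, 70, 0, 224, 120, true, true, false, [(0, 1), (3, 20)], []⟩,
  ⟨969, 70, 0, 224, 120, true, true, false, [(0, 1), (3, 20)], []⟩,
  ⟨1010, 70, 0, 224, 120, true, true, false, [(0, 1), (3, 20)], []⟩,
  ⟨1068, 70, 0, 224, 120, true, true, false, [(0, 1), (3, 20)], []⟩,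
  ⟨1126, 70, 0, 224, 120, true, true, false, [(0, 1), (3, 20)], []⟩,
  ⟨1184, 70, 0, 224, 120, true, true, false, [(0, 1), (3, 20)], []⟩,
  ⟨1267, 70, 0, 224, 120, true, true, false, [(0, 2), (3, 19)], []⟩,
  ⟨1350, 70, 0, 224, 120, true, true, false, [(0, 2), (3, 19)], []⟩,
  ⟨1408, 70, 0, 224, 120, true, true, false, [(0, 2), (3, 19)], []⟩,
  ⟨1466, 70, 0, 224, 120, true, true, false, [(0, 3), (3, 18)], []⟩,
  ⟨1506, 70, 0, 224, 120, true, true, false, [(0, 3), (3, 18)], []⟩,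
  ⟨1534, 70, 0, 208, 109, true, true, false, [(0, 4), (3, 19)], []⟩,
  ⟨1562, 70, 0, 208, 109, true, true, false, [(0, 4), (3, 19)], []⟩,
  ⟨1582, 70, 0, 208, 109, true, true, false, [(0, 6), (3, 17)], []⟩,
  ⟨1602, 70, 0, 208, 109, true, true, false, [(0, 9), (3, 14)], []⟩,
  ⟨1616, 70, 0, 208, 109, true, true, false, [(0, 18), (3, 5)], []⟩,
  ⟨1645, 70, 0, 208, 109, true, true, false, [(0, 23)], []⟩,
  ⟨1705, 70, 0, 208, 109, true, true, false, [(0, 23)], []⟩,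
  ⟨1826, 70, 0, 192, 98, true, true, false, [(0, 25)], []⟩,
  ⟨2067, 70, 0, 176, 88, true, true, false, [(0, 27)], []⟩,
  ⟨2732, 70, 0, 120, 56, true, true, false, [(0, 33)], []⟩,
  ⟨6324, 70, 0, 0, 0, true, false, false, [(0, 47)], []⟩,
  ⟨6566, 70, 0, 0, 0, true, false, false, [(0, 47)], []⟩
  ] = true := by decide +kernel

def g66_24 : Gr := ⟨false, 404, 407, 1024, 1024, 66, 66, 8319, 8320, 0, 2048, 0, []⟩

theorem k66_24 : chk g66_24 T375 [
  ⟨355, 90, 720, 20, 316, false, false, false, [(0, 1), (3, 4), (19, 3), (8, 1), (9, 2), (10, 2), (11, 3), (12, 2), (3, 17)], []⟩,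
  ⟨599, 90, 720, 88, 240, false, false, false, [(0, 1), (3, 7), (6, 1), (3, 4), (11, 3), (12, 2), (3, 11)], []⟩,
  ⟨718, 90, 630, 120, 200, false, false, false, [(0, 1), (3, 25)], []⟩,
  ⟨801, 90, 540, 208, 109, false, true, false, [(0, 1), (3, 17)], []⟩,
  ⟨859, 90, 540, 208, 109, false, true, false, [(0, 1), (3, 17)], []⟩,
  ⟨917, 90, 0, 256, 145, true, true, false, [(0, 1), (3, 13)], []⟩,
  ⟨975, 90, 0, 256, 145, true, true, false, [(0, 1), (3, 13)], []⟩,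
  ⟨1033, 90, 0, 256, 145, true, true, false, [(0, 1), (3, 13)], []⟩,
  ⟨1074, 90, 0, 256, 145, true, true, false, [(0, 1), (3, 13)], []⟩,
  ⟨1102, 90, 0, 224, 120, true, true, false, [(0, 1), (3, 16)], []⟩,
  ⟨1143, 90, 0, 224, 120, true, true, false, [(0, 1), (3, 16)], []⟩,
  ⟨1184, 90, 0, 224, 120, true, true, false, [(0, 1), (3, 16)], []⟩,
  ⟨1225, 90, 0, 224, 120, true, true, false, [(0, 2), (3, 15)], []⟩,
  ⟨1283, 90, 0, 224, 120, true, true, false, [(0, 2), (3, 15)], []⟩,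
  ⟨1341, 90, 0, 224, 120, true, true, false, [(0, 2), (3, 15)], []⟩,
  ⟨1399, 90, 0, 224, 120, true, true, false, [(0, 2), (3, 15)], []⟩,
  ⟨1440, 90, 0, 224, 120, true, true, false, [(0, 2), (3, 15)], []⟩,
  ⟨1481, 90, 0, 208, 109, true, true, false, [(0, 3), (3, 15)], []⟩,
  ⟨1522, 90, 0, 208, 109, true, true, false, [(0, 3), (3, 15)], []⟩,
  ⟨1563, 90, 0, 208, 109, true, true, false, [(0, 4), (3, 14)], []⟩,
  ⟨1591, 90, 0, 208, 109, true, true, false, [(0, 5), (3, 13)], []⟩,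
  ⟨1619, 90, 0, 208, 109, true, true, false, [(0, 8), (3, 10)], []⟩,
  ⟨1660, 90, 0, 208, 109, true, true, false, [(0, 18)], []⟩,
  ⟨1743, 90, 0, 208, 109, true, true, false, [(0, 18)], []⟩,
  ⟨1860, 90, 0, 192, 98, true, true, false, [(0, 20)], []⟩,
  ⟨2187, 90, 0, 176, 88, true, true, false, [(0, 21)], []⟩,
  ⟨3090, 90, 0, 88, 40, true, true, false, [(0, 29)], []⟩,
  ⟨6567, 90, 0, 0, 0, true, false, false, [(0, 37)], []⟩,
  ⟨6614, 90, 0, 0, 0, true, false, false, [(0, 37)], []⟩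
  ] = true := by decide +kernel

def g66_25 : Gr := ⟨false, 407, 410, 1024, 1024, 66, 66, 8319, 8320, 0, 2048, 0, []⟩

theorem k66_25 : chk g66_25 T375 [
  ⟨498, 70, 490, 240, 132, false, true, false, [(0, 1), (3, 5), (19, 4), (8, 1), (9, 3), (10, 3), (11, 3)], []⟩,
  ⟨668, 70, 700, 104, 224, false, false, false, [(0, 1), (3, 35)], []⟩,
  ⟨751, 70, 630, 120, 200, false, false, false, [(0, 1), (3, 33)], []⟩,
  ⟨834, 70, 490, 224, 120, false, true, false, [(0, 1), (3, 21)], []⟩,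
  ⟨917, 70, 0, 256, 145, true, true, false, [(0, 1), (3, 17)], []⟩,
  ⟨1000, 70, 0, 256, 145, true, true, false, [(0, 1), (3, 17)], []⟩,
  ⟨1083, 70, 0, 240, 132, true, true, false, [(0, 1), (3, 19)], []⟩,
  ⟨1166, 70, 0, 240, 132, true, true, false, [(0, 1), (3, 19)], []⟩,
  ⟨1249, 70, 0, 240, 132, true, true, false, [(0, 2), (3, 18)], []⟩,
  ⟨1307, 70, 0, 224, 120, true, true, false, [(0, 2), (3, 20)], []⟩,
  ⟨1365, 70, 0, 224, 120, true, true, false, [(0, 2), (3, 20)], []⟩,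
  ⟨1423, 70, 0, 224, 120, true, true, false, [(0, 2), (3, 20)], []⟩,
  ⟨1481, 70, 0, 224, 120, true, true, false, [(0, 2), (3, 20)], []⟩,
  ⟨1522, 70, 0, 224, 120, true, true, false, [(0, 3), (3, 19)], []⟩,
  ⟨1550, 70, 0, 224, 120, true, true, false, [(0, 3), (3, 19)], []⟩,
  ⟨1578, 70, 0, 224, 120, true, true, false, [(0, 4), (3, 18)], []⟩,
  ⟨1592, 70, 0, 224, 120, true, true, false, [(0, 5), (3, 17)], []⟩,
  ⟨1606, 70, 0, 208, 109, true, true, false, [(0, 6), (3, 18)], []⟩,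
  ⟨1615, 70, 0, 208, 109, true, true, false, [(0, 8), (3, 16)], []⟩,
  ⟨1624, 70, 0, 208, 109, true, true, false, [(0, 10), (3, 14)], []⟩,
  ⟨1633, 70, 0, 208, 109, true, true, false, [(0, 13), (3, 11)], []⟩,
  ⟨1642, 70, 0, 208, 109, true, true, false, [(0, 19), (3, 5)], []⟩,
  ⟨1656, 70, 0, 208, 109, true, true, false, [(0, 24)], []⟩,
  ⟨1687, 70, 0, 208, 109, true, true, false, [(0, 24)], []⟩,
  ⟨1750, 70, 0, 208, 109, true, true, false, [(0, 24)], []⟩,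
  ⟨1877, 70, 0, 192, 98, true, true, false, [(0, 26)], []⟩,
  ⟨2129, 70, 0, 176, 88, true, true, false, [(0, 28)], []⟩,
  ⟨2826, 70, 0, 120, 56, true, true, false, [(0, 34)], []⟩,
  ⟨6589, 70, 0, 0, 0, true, false, false, [(0, 48)], []⟩,
  ⟨6663, 70, 0, 0, 0, true, false, false, [(0, 48)], []⟩
  ] = true := by decide +kernel

def g66_26 : Gr := ⟨false, 409, 412, 1024, 1024, 66, 66, 8319, 8320, 0, 2048, 0, []⟩

theorem k66_26 : chk g66_26 T400 [
  ⟨498, 120, 480, 224, 136, false, true, false, [(0, 1), (3, 3), (22, 2), (11, 2), (12, 2), (13, 2), (14, 1)], []⟩,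
  ⟨668, 120, 720, 88, 240, false, false, false, [(0, 1), (3, 10), (13, 1), (14, 1), (3, 9)], []⟩,
  ⟨751, 120, 720, 88, 232, false, false, false, [(0, 1), (3, 21)], []⟩,
  ⟨809, 120, 480, 224, 120, false, true, false, [(0, 1), (3, 12)], []⟩,
  ⟨850, 120, 480, 224, 120, false, true, false, [(0, 1), (3, 12)], []⟩,
  ⟨878, 120, 480, 224, 120, false, true, false, [(0, 1), (3, 12)], []⟩,
  ⟨906, 120, 0, 256, 145, true, true, false, [(0, 1), (3, 10)], []⟩,
  ⟨934, 120, 0, 256, 145, true, true, false, [(0, 1), (3, 10)], []⟩,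
  ⟨962, 120, 0, 256, 145, true, true, false, [(0, 1), (3, 10)], []⟩,
  ⟨990, 120, 0, 240, 132, true, true, false, [(0, 1), (3, 11)], []⟩,
  ⟨1031, 120, 0, 240, 132, true, true, false, [(0, 1), (3, 11)], []⟩,
  ⟨1072, 120, 0, 240, 132, true, true, false, [(0, 1), (3, 11)], []⟩,
  ⟨1113, 120, 0, 240, 132, true, true, false, [(0, 1), (3, 11)], []⟩,
  ⟨1154, 120, 0, 240, 132, true, true, false, [(0, 1), (3, 11)], []⟩,
  ⟨1195, 120, 0, 240, 132, true, true, false, [(0, 1), (3, 11)], []⟩,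
  ⟨1236, 120, 0, 240, 132, true, true, false, [(0, 2), (3, 10)], []⟩,
  ⟨1277, 120, 0, 240, 132, true, true, false, [(0, 2), (3, 10)], []⟩,
  ⟨1318, 120, 0, 224, 120, true, true, false, [(0, 2), (3, 11)], []⟩,
  ⟨1359, 120, 0, 224, 120, true, true, false, [(0, 2), (3, 11)], []⟩,
  ⟨1400, 120, 0, 224, 120, true, true, false, [(0, 2), (3, 11)], []⟩,
  ⟨1441, 120, 0, 224, 120, true, true, false, [(0, 2), (3, 11)], []⟩,
  ⟨1482, 120, 0, 224, 120, true, true, false, [(0, 2), (3, 11)], []⟩,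
  ⟨1510, 120, 0, 224, 120, true, true, false, [(0, 3), (3, 10)], []⟩,
  ⟨1538, 120, 0, 224, 120, true, true, false, [(0, 3), (3, 10)], []⟩,
  ⟨1558, 120, 0, 224, 120, true, true, false, [(0, 4), (3, 9)], []⟩,
  ⟨1572, 120, 0, 208, 109, true, true, false, [(0, 4), (3, 10)], []⟩,
  ⟨1586, 120, 0, 208, 109, true, true, false, [(0, 4), (3, 10)], []⟩,
  ⟨1600, 120, 0, 208, 109, true, true, false, [(0, 5), (3, 9)], []⟩,
  ⟨1614, 120, 0, 208, 109, true, true, false, [(0, 6), (3, 8)], []⟩,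
  ⟨1623, 120, 0, 208, 109, true, true, false, [(0, 7), (3, 7)], []⟩,
  ⟨1632, 120, 0, 208, 109, true, true, false, [(0, 8), (3, 6)], []⟩,
  ⟨1641, 120, 0, 208, 109, true, true, false, [(0, 10), (3, 4)], []⟩,
  ⟨1655, 120, 0, 208, 109, true, true, false, [(0, 14)], []⟩,
  ⟨1686, 120, 0, 208, 109, true, true, false, [(0, 14)], []⟩,
  ⟨1750, 120, 0, 208, 109, true, true, false, [(0, 14)], []⟩,
  ⟨1930, 120, 0, 192, 98, true, true, false, [(0, 15)], []⟩,
  ⟨2286, 120, 0, 176, 88, true, true, false, [(0, 16)], []⟩,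
  ⟨3267, 120, 0, 88, 40, true, true, false, [(0, 22)], []⟩,
  ⟨6696, 120, 0, 0, 0, true, false, false, [(0, 28)], []⟩
  ] = true := by decide +kernel

def g66_27 : Gr := ⟨false, 412, 416, 1024, 1024, 66, 66, 8319, 8320, 0, 2048, 0, []⟩

theorem k66_27 : chk g66_27 T400 [
  ⟨355, 90, 630, 40, 312, false, false, false, [(0, 1), (3, 4), (22, 3), (10, 1), (11, 2), (12, 2), (13, 3), (14, 2), (15, 2), (3, 14)], []⟩,
  ⟨603, 90, 720, 96, 240, false, false, false, [(0, 1), (3, 7), (7, 1), (3, 3), (8, 1), (13, 3), (14, 2), (3, 11)], []⟩,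
  ⟨724, 90, 630, 96, 228, false, true, false, [(0, 1), (3, 16), (14, 1), (3, 11)], []⟩,
  ⟨809, 90, 540, 208, 117, false, true, false, [(0, 1), (3, 18)], []⟩,
  ⟨868, 90, 540, 208, 109, false, true, false, [(0, 1), (3, 18)], []⟩,
  ⟨909, 90, 0, 256, 145, true, true, false, [(0, 1), (3, 14)], []⟩,
  ⟨968, 90, 0, 240, 132, true, true, false, [(0, 1), (3, 15)], []⟩,
  ⟨1027, 90, 0, 240, 132, true, true, false, [(0, 1), (3, 15)], []⟩,
  ⟨1086, 90, 0, 240, 132, true, true, false, [(0, 1), (3, 15)], []⟩,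
  ⟨1145, 90, 0, 240, 132, true, true, false, [(0, 1), (3, 15)], []⟩,
  ⟨1229, 90, 0, 240, 132, true, true, false, [(0, 2), (3, 14)], []⟩,
  ⟨1288, 90, 0, 240, 132, true, true, false, [(0, 2), (3, 14)], []⟩,
  ⟨1347, 90, 0, 240, 132, true, true, false, [(0, 2), (3, 14)], []⟩,
  ⟨1388, 90, 0, 240, 132, true, true, false, [(0, 2), (3, 14)], []⟩,
  ⟨1416, 90, 0, 240, 132, true, true, false, [(0, 2), (3, 14)], []⟩,
  ⟨1436, 90, 0, 208, 109, true, true, false, [(0, 2), (3, 17)], []⟩,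
  ⟨1456, 90, 0, 208, 109, true, true, false, [(0, 2), (3, 17)], []⟩,
  ⟨1476, 90, 0, 208, 109, true, true, false, [(0, 3), (3, 16)], []⟩,
  ⟨1496, 90, 0, 208, 109, true, true, false, [(0, 3), (3, 16)], []⟩,
  ⟨1516, 90, 0, 208, 109, true, true, false, [(0, 3), (3, 16)], []⟩,
  ⟨1536, 90, 0, 208, 109, true, true, false, [(0, 3), (3, 16)], []⟩,
  ⟨1556, 90, 0, 208, 109, true, true, false, [(0, 3), (3, 16)], []⟩,
  ⟨1576, 90, 0, 208, 109, true, true, false, [(0, 4), (3, 15)], []⟩,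
  ⟨1590, 90, 0, 208, 109, true, true, false, [(0, 4), (3, 15)], []⟩,
  ⟨1604, 90, 0, 208, 109, true, true, false, [(0, 5), (3, 14)], []⟩,
  ⟨1618, 90, 0, 208, 109, true, true, false, [(0, 5), (3, 14)], []⟩,
  ⟨1632, 90, 0, 208, 109, true, true, false, [(0, 7), (3, 12)], []⟩,
  ⟨1641, 90, 0, 208, 109, true, true, false, [(0, 8), (3, 11)], []⟩,
  ⟨1650, 90, 0, 208, 109, true, true, false, [(0, 11), (3, 8)], []⟩,
  ⟨1659, 90, 0, 208, 109, true, true, false, [(0, 15), (3, 4)], []⟩,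
  ⟨1673, 90, 0, 208, 109, true, true, false, [(0, 19)], []⟩,
  ⟨1704, 90, 0, 208, 109, true, true, false, [(0, 19)], []⟩,
  ⟨1768, 90, 0, 208, 109, true, true, false, [(0, 19)], []⟩,
  ⟨1858, 90, 0, 208, 109, true, true, false, [(0, 19)], []⟩,
  ⟨2112, 90, 0, 176, 88, true, true, false, [(0, 22)], []⟩,
  ⟨2813, 90, 0, 128, 60, true, true, false, [(0, 26)], []⟩,
  ⟨6596, 90, 0, 0, 0, true, false, false, [(0, 38)], []⟩,
  ⟨6761, 90, 0, 0, 0, true, false, false, [(0, 38)], []⟩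
  ] = true := by decide +kernel

def g66_28 : Gr := ⟨false, 416, 420, 1024, 1024, 66, 66, 8319, 8320, 0, 2048, 0, []⟩

theorem k66_28 : chk g66_28 T400 [
  ⟨498, 50, 550, 224, 144, false, true, false, [(0, 1), (3, 8), (22, 5), (10, 2), (11, 4), (12, 5), (13, 4), (14, 3)], []⟩,
  ⟨742, 50, 550, 224, 120, false, true, false, [(0, 1), (3, 14), (7, 1), (3, 7), (8, 2), (3, 1), (13, 3), (14, 3)], []⟩,
  ⟨825, 50, 500, 224, 120, false, true, false, [(0, 1), (3, 31)], []⟩,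
  ⟨908, 50, 500, 224, 120, false, true, false, [(0, 1), (3, 31)], []⟩,
  ⟨966, 50, 0, 256, 145, true, true, false, [(0, 1), (3, 26)], []⟩,
  ⟨1024, 50, 0, 256, 145, true, true, false, [(0, 1), (3, 26)], []⟩,
  ⟨1082, 50, 0, 256, 145, true, true, false, [(0, 1), (3, 26)], []⟩,
  ⟨1140, 50, 0, 240, 132, true, true, false, [(0, 1), (3, 29)], []⟩,
  ⟨1198, 50, 0, 224, 120, true, true, false, [(0, 1), (3, 31)], []⟩,
  ⟨1281, 50, 0, 224, 120, true, true, false, [(0, 2), (3, 30)], []⟩,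
  ⟨1364, 50, 0, 224, 120, true, true, false, [(0, 2), (3, 30)], []⟩,
  ⟨1447, 50, 0, 224, 120, true, true, false, [(0, 2), (3, 30)], []⟩,
  ⟨1505, 50, 0, 224, 120, true, true, false, [(0, 2), (3, 30)], []⟩,
  ⟨1563, 50, 0, 224, 120, true, true, false, [(0, 3), (3, 29)], []⟩,
  ⟨1603, 50, 0, 224, 120, true, true, false, [(0, 4), (3, 28)], []⟩,
  ⟨1631, 50, 0, 224, 120, true, true, false, [(0, 5), (3, 27)], []⟩,
  ⟨1650, 50, 0, 224, 120, true, true, false, [(0, 7), (3, 25)], []⟩,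
  ⟨1663, 50, 0, 224, 120, true, true, false, [(0, 12), (3, 20)], []⟩,
  ⟨1672, 50, 0, 208, 109, true, true, false, [(0, 19), (3, 16)], []⟩,
  ⟨1681, 50, 0, 208, 109, true, true, false, [(0, 30), (3, 5)], []⟩,
  ⟨1702, 50, 0, 208, 109, true, true, false, [(0, 35)], []⟩,
  ⟨1746, 50, 0, 208, 109, true, true, false, [(0, 35)], []⟩,
  ⟨1835, 50, 0, 208, 109, true, true, false, [(0, 35)], []⟩,
  ⟨2086, 50, 0, 176, 88, true, true, false, [(0, 40)], []⟩,
  ⟨2779, 50, 0, 128, 60, true, true, false, [(0, 48)], []⟩,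
  ⟨6518, 50, 0, 0, 0, true, false, false, [(0, 69)], []⟩,
  ⟨6826, 50, 0, 0, 0, true, false, false, [(0, 69)], []⟩
  ] = true := by decide +kernel

def g66_29 : Gr := ⟨false, 420, 423, 1024, 1024, 66, 66, 8319, 8320, 0, 2048, 0, []⟩

theorem k66_29 : chk g66_29 T400 [
  ⟨498, 90, 540, 224, 144, false, true, false, [(0, 1), (3, 4), (22, 3), (10, 1), (11, 2), (12, 2), (13, 3), (14, 2)], []⟩,
  ⟨668, 90, 630, 104, 232, false, false, false, [(0, 1), (3, 15), (14, 2), (3, 11)], []⟩,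
  ⟨787, 90, 630, 104, 224, false, false, false, [(0, 1), (3, 16), (14, 1), (3, 11)], []⟩,
  ⟨870, 90, 540, 224, 120, false, true, false, [(0, 1), (3, 17)], []⟩,
  ⟨928, 90, 540, 224, 120, false, true, false, [(0, 1), (3, 17)], []⟩,
  ⟨969, 90, 0, 240, 132, true, true, false, [(0, 1), (3, 16)], []⟩,
  ⟨1010, 90, 0, 240, 132, true, true, false, [(0, 1), (3, 16)], []⟩,
  ⟨1068, 90, 0, 240, 132, true, true, false, [(0, 1), (3, 16)], []⟩,
  ⟨1126, 90, 0, 240, 132, true, true, false, [(0, 1), (3, 16)], []⟩,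
  ⟨1184, 90, 0, 240, 132, true, true, false, [(0, 1), (3, 16)], []⟩,
  ⟨1242, 90, 0, 240, 132, true, true, false, [(0, 2), (3, 15)], []⟩,
  ⟨1300, 90, 0, 224, 120, true, true, false, [(0, 2), (3, 16)], []⟩,
  ⟨1382, 90, 0, 224, 120, true, true, false, [(0, 2), (3, 16)], []⟩,
  ⟨1464, 90, 0, 224, 120, true, true, false, [(0, 2), (3, 16)], []⟩,
  ⟨1521, 90, 0, 224, 120, true, true, false, [(0, 2), (3, 16)], []⟩,
  ⟨1578, 90, 0, 224, 120, true, true, false, [(0, 3), (3, 15)], []⟩,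
  ⟨1618, 90, 0, 224, 120, true, true, false, [(0, 4), (3, 14)], []⟩,
  ⟨1646, 90, 0, 224, 120, true, true, false, [(0, 5), (3, 13)], []⟩,
  ⟨1665, 90, 0, 224, 120, true, true, false, [(0, 7), (3, 11)], []⟩,
  ⟨1678, 90, 0, 224, 120, true, true, false, [(0, 9), (3, 9)], []⟩,
  ⟨1691, 90, 0, 224, 120, true, true, false, [(0, 14), (3, 4)], []⟩,
  ⟨1704, 90, 0, 224, 120, true, true, false, [(0, 18)], []⟩,
  ⟨1717, 90, 0, 224, 120, true, true, false, [(0, 18)], []⟩,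
  ⟨1746, 90, 0, 208, 109, true, true, false, [(0, 20)], []⟩,
  ⟨1831, 90, 0, 192, 98, true, true, false, [(0, 21)], []⟩,
  ⟨2001, 90, 0, 192, 98, true, true, false, [(0, 21)], []⟩,
  ⟨2473, 90, 0, 160, 78, true, true, false, [(0, 24)], []⟩,
  ⟨4295, 90, 0, 36, 16, true, true, false, [(0, 35)], []⟩,
  ⟨6874, 90, 0, 0, 0, true, false, false, [(0, 39)], []⟩
  ] = true := by decide +kernel

def g66_30 : Gr := ⟨false, 423, 427, 1024, 1024, 66, 66, 8319, 8320, 0, 2048, 0, []⟩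

theorem k66_30 : chk g66_30 T400 [
  ⟨498, 50, 550, 224, 152, false, true, false, [(0, 1), (3, 8), (22, 5), (10, 2), (11, 4), (12, 5), (13, 4), (14, 4)], []⟩,
  ⟨742, 50, 550, 224, 120, false, true, false, [(0, 1), (3, 14), (7, 1), (3, 7), (8, 2), (3, 1), (13, 3), (14, 4)], []⟩,
  ⟨861, 50, 550, 224, 120, false, true, false, [(0, 1), (3, 31), (14, 1)], []⟩,
  ⟨944, 50, 0, 256, 145, true, true, false, [(0, 1), (3, 27)], []⟩,
  ⟨1027, 50, 0, 256, 145, true, true, false, [(0, 1), (3, 27)], []⟩,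
  ⟨1110, 50, 0, 256, 145, true, true, false, [(0, 1), (3, 27)], []⟩,
  ⟨1193, 50, 0, 256, 145, true, true, false, [(0, 1), (3, 27)], []⟩,
  ⟨1276, 50, 0, 224, 120, true, true, false, [(0, 2), (3, 31)], []⟩,
  ⟨1359, 50, 0, 224, 120, true, true, false, [(0, 2), (3, 31)], []⟩,
  ⟨1442, 50, 0, 224, 120, true, true, false, [(0, 2), (3, 31)], []⟩,
  ⟨1525, 50, 0, 224, 120, true, true, false, [(0, 2), (3, 31)], []⟩,
  ⟨1583, 50, 0, 224, 120, true, true, false, [(0, 3), (3, 30)], []⟩,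
  ⟨1624, 50, 0, 224, 120, true, true, false, [(0, 4), (3, 29)], []⟩,
  ⟨1665, 50, 0, 224, 120, true, true, false, [(0, 5), (3, 28)], []⟩,
  ⟨1685, 50, 0, 224, 120, true, true, false, [(0, 9), (3, 24)], []⟩,
  ⟨1699, 50, 0, 224, 120, true, true, false, [(0, 17), (3, 16)], []⟩,
  ⟨1713, 50, 0, 208, 109, true, true, false, [(0, 32), (3, 4)], []⟩,
  ⟨1742, 50, 0, 208, 109, true, true, false, [(0, 36)], []⟩,
  ⟨1803, 50, 0, 208, 109, true, true, false, [(0, 36)], []⟩,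
  ⟨1925, 50, 0, 192, 98, true, true, false, [(0, 39)], []⟩,
  ⟨2264, 50, 0, 176, 88, true, true, false, [(0, 41)], []⟩,
  ⟨3201, 50, 0, 96, 44, true, true, false, [(0, 54)], []⟩,
  ⟨6808, 50, 0, 0, 0, true, false, false, [(0, 70)], []⟩,
  ⟨6939, 50, 0, 0, 0, true, false, false, [(0, 70)], []⟩
  ] = true := by decide +kernel

def g66_31 : Gr := ⟨false, 427, 430, 1024, 1024, 66, 66, 8319, 8320, 0, 2048, 0, []⟩

theorem k66_31 : chk g66_31 T400 [
  ⟨498, 120, 480, 240, 140, false, true, false, [(0, 1), (3, 3), (22, 2), (11, 2), (12, 2), (13, 2), (14, 1)], []⟩,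
  ⟨668, 120, 720, 96, 248, false, false, false, [(0, 1), (3, 11), (14, 1), (3, 10)], []⟩,
  ⟨787, 120, 600, 120, 216, false, false, false, [(0, 1), (3, 20)], []⟩,
  ⟨870, 120, 480, 224, 120, false, true, false, [(0, 1), (3, 13)], []⟩,
  ⟨928, 120, 480, 224, 120, false, true, false, [(0, 1), (3, 13)], []⟩,
  ⟨969, 120, 0, 256, 145, true, true, false, [(0, 1), (3, 11)], []⟩,
  ⟨1027, 120, 0, 256, 145, true, true, false, [(0, 1), (3, 11)], []⟩,
  ⟨1085, 120, 0, 256, 145, true, true, false, [(0, 1), (3, 11)], []⟩,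
  ⟨1143, 120, 0, 240, 132, true, true, false, [(0, 1), (3, 12)], []⟩,
  ⟨1201, 120, 0, 240, 132, true, true, false, [(0, 1), (3, 12)], []⟩,
  ⟨1259, 120, 0, 240, 132, true, true, false, [(0, 2), (3, 11)], []⟩,
  ⟨1317, 120, 0, 240, 132, true, true, false, [(0, 2), (3, 11)], []⟩,
  ⟨1375, 120, 0, 240, 132, true, true, false, [(0, 2), (3, 11)], []⟩,
  ⟨1433, 120, 0, 224, 120, true, true, false, [(0, 2), (3, 12)], []⟩,
  ⟨1491, 120, 0, 224, 120, true, true, false, [(0, 2), (3, 12)], []⟩,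
  ⟨1549, 120, 0, 224, 120, true, true, false, [(0, 3), (3, 11)], []⟩,
  ⟨1589, 120, 0, 224, 120, true, true, false, [(0, 3), (3, 11)], []⟩,
  ⟨1629, 120, 0, 224, 120, true, true, false, [(0, 3), (3, 11)], []⟩,
  ⟨1657, 120, 0, 224, 120, true, true, false, [(0, 4), (3, 10)], []⟩,
  ⟨1685, 120, 0, 224, 120, true, true, false, [(0, 5), (3, 9)], []⟩,
  ⟨1699, 120, 0, 224, 120, true, true, false, [(0, 7), (3, 7)], []⟩,
  ⟨1713, 120, 0, 224, 120, true, true, false, [(0, 10), (3, 4)], []⟩,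
  ⟨1722, 120, 0, 224, 120, true, true, false, [(0, 14)], []⟩,
  ⟨1736, 120, 0, 224, 120, true, true, false, [(0, 14)], []⟩,
  ⟨1757, 120, 0, 224, 120, true, true, false, [(0, 14)], []⟩,
  ⟨1778, 120, 0, 224, 120, true, true, false, [(0, 14)], []⟩,
  ⟨1799, 120, 0, 224, 120, true, true, false, [(0, 14)], []⟩,
  ⟨1830, 120, 0, 208, 109, true, true, false, [(0, 16)], []⟩,
  ⟨1893, 120, 0, 208, 109, true, true, false, [(0, 16)], []⟩,
  ⟨2072, 120, 0, 192, 98, true, true, false, [(0, 17)], []⟩,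
  ⟨2568, 120, 0, 144, 69, true, true, false, [(0, 20)], []⟩,
  ⟨6322, 120, 0, 2, 1, true, true, true, [(0, 28)], [(0, 1)]⟩,
  ⟨6988, 120, 0, 0, 0, true, false, false, [(0, 30)], []⟩
  ] = true := by decide +kernel

def g66_32 : Gr := ⟨false, 430, 434, 1024, 1024, 66, 66, 8319, 8320, 0, 2048, 0, []⟩

theorem k66_32 : chk g66_32 T400 [
  ⟨498, 90, 540, 240, 140, false, true, false, [(0, 1), (3, 4), (22, 3), (10, 1), (11, 2), (12, 2), (13, 3), (14, 2)], []⟩,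
  ⟨668, 90, 630, 104, 240, false, false, false, [(0, 1), (3, 15), (14, 2), (3, 12)], []⟩,
  ⟨787, 90, 630, 104, 232, false, false, false, [(0, 1), (3, 29)], []⟩,
  ⟨870, 90, 540, 224, 120, false, true, false, [(0, 1), (3, 18)], []⟩,
  ⟨928, 90, 540, 224, 120, false, true, false, [(0, 1), (3, 18)], []⟩,
  ⟨986, 90, 540, 224, 120, false, true, false, [(0, 1), (3, 18)], []⟩,
  ⟨1027, 90, 0, 240, 132, true, true, false, [(0, 1), (3, 17)], []⟩,
  ⟨1068, 90, 0, 240, 132, true, true, false, [(0, 1), (3, 17)], []⟩,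
  ⟨1109, 90, 0, 240, 132, true, true, false, [(0, 1), (3, 17)], []⟩,
  ⟨1167, 90, 0, 240, 132, true, true, false, [(0, 1), (3, 17)], []⟩,
  ⟨1225, 90, 0, 240, 132, true, true, false, [(0, 1), (3, 17)], []⟩,
  ⟨1283, 90, 0, 240, 132, true, true, false, [(0, 2), (3, 16)], []⟩,
  ⟨1341, 90, 0, 240, 132, true, true, false, [(0, 2), (3, 16)], []⟩,
  ⟨1399, 90, 0, 224, 120, true, true, false, [(0, 2), (3, 17)], []⟩,
  ⟨1457, 90, 0, 224, 120, true, true, false, [(0, 2), (3, 17)], []⟩,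
  ⟨1515, 90, 0, 224, 120, true, true, false, [(0, 2), (3, 17)], []⟩,
  ⟨1573, 90, 0, 224, 120, true, true, false, [(0, 3), (3, 16)], []⟩,
  ⟨1631, 90, 0, 224, 120, true, true, false, [(0, 3), (3, 16)], []⟩,
  ⟨1671, 90, 0, 224, 120, true, true, false, [(0, 4), (3, 15)], []⟩,
  ⟨1699, 90, 0, 224, 120, true, true, false, [(0, 6), (3, 13)], []⟩,
  ⟨1719, 90, 0, 224, 120, true, true, false, [(0, 9), (3, 10)], []⟩,
  ⟨1733, 90, 0, 224, 120, true, true, false, [(0, 15), (3, 4)], []⟩,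
  ⟨1747, 90, 0, 224, 120, true, true, false, [(0, 19)], []⟩,
  ⟨1767, 90, 0, 224, 120, true, true, false, [(0, 19)], []⟩,
  ⟨1796, 90, 0, 208, 109, true, true, false, [(0, 21)], []⟩,
  ⟨1882, 90, 0, 192, 98, true, true, false, [(0, 22)], []⟩,
  ⟨2123, 90, 0, 192, 98, true, true, false, [(0, 22)], []⟩,
  ⟨2789, 90, 0, 128, 60, true, true, false, [(0, 28)], []⟩,
  ⟨6387, 90, 0, 0, 0, true, false, false, [(0, 40)], []⟩,
  ⟨7053, 90, 0, 0, 0, true, false, false, [(0, 40)], []⟩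
  ] = true := by decide +kernel

def g66_33 : Gr := ⟨false, 434, 436, 1024, 1024, 66, 66, 8319, 8320, 0, 2048, 0, []⟩

theorem k66_33 : chk g66_33 T400 [
  ⟨498, 90, 540, 240, 148, false, true, false, [(0, 1), (3, 4), (22, 3), (10, 1), (11, 2), (12, 2), (13, 3), (14, 2)], []⟩,
  ⟨668, 90, 630, 104, 248, false, false, false, [(0, 1), (3, 15), (14, 2), (3, 12)], []⟩,
  ⟨787, 90, 630, 104, 232, false, false, false, [(0, 1), (3, 29)], []⟩,
  ⟨870, 90, 630, 104, 224, false, false, false, [(0, 1), (3, 29)], []⟩,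
  ⟨928, 90, 630, 104, 216, false, false, false, [(0, 1), (3, 29)], []⟩,
  ⟨986, 90, 0, 256, 145, true, true, false, [(0, 1), (3, 16)], []⟩,
  ⟨1044, 90, 0, 256, 145, true, true, false, [(0, 1), (3, 16)], []⟩,
  ⟨1102, 90, 0, 256, 145, true, true, false, [(0, 1), (3, 16)], []⟩,
  ⟨1185, 90, 0, 240, 132, true, true, false, [(0, 1), (3, 17)], []⟩,
  ⟨1268, 90, 0, 240, 132, true, true, false, [(0, 2), (3, 16)], []⟩,
  ⟨1351, 90, 0, 240, 132, true, true, false, [(0, 2), (3, 16)], []⟩,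
  ⟨1434, 90, 0, 240, 132, true, true, false, [(0, 2), (3, 16)], []⟩,
  ⟨1492, 90, 0, 240, 132, true, true, false, [(0, 2), (3, 16)], []⟩,
  ⟨1549, 90, 0, 240, 132, true, true, false, [(0, 2), (3, 16)], []⟩,
  ⟨1577, 90, 0, 240, 132, true, true, false, [(0, 3), (3, 15)], []⟩,
  ⟨1596, 90, 0, 224, 120, true, true, false, [(0, 3), (3, 17)], []⟩,
  ⟨1615, 90, 0, 224, 120, true, true, false, [(0, 3), (3, 17)], []⟩,
  ⟨1634, 90, 0, 208, 109, true, true, false, [(0, 3), (3, 18)], []⟩,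
  ⟨1653, 90, 0, 208, 109, true, true, false, [(0, 4), (3, 17)], []⟩,
  ⟨1672, 90, 0, 208, 109, true, true, false, [(0, 4), (3, 17)], []⟩,
  ⟨1685, 90, 0, 208, 109, true, true, false, [(0, 5), (3, 16)], []⟩,
  ⟨1698, 90, 0, 208, 109, true, true, false, [(0, 5), (3, 16)], []⟩,
  ⟨1711, 90, 0, 208, 109, true, true, false, [(0, 6), (3, 15)], []⟩,
  ⟨1724, 90, 0, 208, 109, true, true, false, [(0, 8), (3, 13)], []⟩,
  ⟨1733, 90, 0, 208, 109, true, true, false, [(0, 10), (3, 11)], []⟩,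
  ⟨1742, 90, 0, 208, 109, true, true, false, [(0, 13), (3, 8)], []⟩,
  ⟨1751, 90, 0, 208, 109, true, true, false, [(0, 18), (3, 3)], []⟩,
  ⟨1772, 90, 0, 208, 109, true, true, false, [(0, 21)], []⟩,
  ⟨1835, 90, 0, 208, 109, true, true, false, [(0, 21)], []⟩,
  ⟨1961, 90, 0, 208, 109, true, true, false, [(0, 21)], []⟩,
  ⟨2312, 90, 0, 160, 78, true, true, false, [(0, 25)], []⟩,
  ⟨3281, 90, 0, 96, 44, true, true, false, [(0, 31)], []⟩,
  ⟨7012, 90, 0, 0, 0, true, false, false, [(0, 40)], []⟩,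
  ⟨7086, 90, 0, 0, 0, true, false, false, [(0, 40)], []⟩
  ] = true := by decide +kernel

def g66_34 : Gr := ⟨false, 435, 440, 1024, 1024, 66, 66, 8319, 8320, 0, 2048, 0, []⟩

theorem k66_34 : chk g66_34 T425 [
  ⟨498, 90, 540, 224, 160, false, true, false, [(0, 1), (3, 4), (23, 3), (10, 1), (11, 2), (12, 2), (13, 3), (14, 2), (15, 2)], []⟩,
  ⟨668, 90, 630, 112, 240, false, false, false, [(0, 1), (3, 15), (14, 2), (15, 2), (3, 10)], []⟩,
  ⟨787, 90, 630, 120, 224, false, false, false, [(0, 1), (3, 28)], []⟩,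
  ⟨870, 90, 630, 120, 216, false, false, false, [(0, 1), (3, 28)], []⟩,
  ⟨928, 90, 540, 208, 125, false, true, false, [(0, 1), (3, 20)], []⟩,
  ⟨986, 90, 0, 256, 145, true, true, false, [(0, 1), (3, 16)], []⟩,
  ⟨1044, 90, 0, 256, 145, true, true, false, [(0, 1), (3, 16)], []⟩,
  ⟨1102, 90, 0, 256, 145, true, true, false, [(0, 1), (3, 16)], []⟩,
  ⟨1160, 90, 0, 256, 145, true, true, false, [(0, 1), (3, 16)], []⟩,
  ⟨1218, 90, 0, 256, 145, true, true, false, [(0, 1), (3, 16)], []⟩,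
  ⟨1276, 90, 0, 256, 145, true, true, false, [(0, 2), (3, 15)], []⟩,
  ⟨1317, 90, 0, 256, 145, true, true, false, [(0, 2), (3, 15)], []⟩,
  ⟨1345, 90, 0, 224, 120, true, true, false, [(0, 2), (3, 18)], []⟩,
  ⟨1373, 90, 0, 224, 120, true, true, false, [(0, 2), (3, 18)], []⟩,
  ⟨1414, 90, 0, 224, 120, true, true, false, [(0, 2), (3, 18)], []⟩,
  ⟨1455, 90, 0, 224, 120, true, true, false, [(0, 2), (3, 18)], []⟩,
  ⟨1496, 90, 0, 224, 120, true, true, false, [(0, 2), (3, 18)], []⟩,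
  ⟨1537, 90, 0, 224, 120, true, true, false, [(0, 2), (3, 18)], []⟩,
  ⟨1565, 90, 0, 224, 120, true, true, false, [(0, 3), (3, 17)], []⟩,
  ⟨1593, 90, 0, 224, 120, true, true, false, [(0, 3), (3, 17)], []⟩,
  ⟨1621, 90, 0, 224, 120, true, true, false, [(0, 3), (3, 17)], []⟩,
  ⟨1641, 90, 0, 224, 120, true, true, false, [(0, 3), (3, 17)], []⟩,
  ⟨1661, 90, 0, 208, 109, true, true, false, [(0, 4), (3, 17)], []⟩,
  ⟨1681, 90, 0, 208, 109, true, true, false, [(0, 4), (3, 17)], []⟩,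
  ⟨1695, 90, 0, 208, 109, true, true, false, [(0, 5), (3, 16)], []⟩,
  ⟨1709, 90, 0, 208, 109, true, true, false, [(0, 6), (3, 15)], []⟩,
  ⟨1723, 90, 0, 208, 109, true, true, false, [(0, 7), (3, 14)], []⟩,
  ⟨1732, 90, 0, 208, 109, true, true, false, [(0, 9), (3, 12)], []⟩,
  ⟨1741, 90, 0, 208, 109, true, true, false, [(0, 11), (3, 10)], []⟩,
  ⟨1750, 90, 0, 208, 109, true, true, false, [(0, 15), (3, 6)], []⟩,
  ⟨1764, 90, 0, 208, 109, true, true, false, [(0, 21)], []⟩,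
  ⟨1809, 90, 0, 208, 109, true, true, false, [(0, 21)], []⟩,
  ⟨1899, 90, 0, 208, 109, true, true, false, [(0, 21)], []⟩,
  ⟨2079, 90, 0, 176, 88, true, true, false, [(0, 24)], []⟩,
  ⟨2578, 90, 0, 144, 69, true, true, false, [(0, 27)], []⟩,
  ⟨6354, 90, 0, 0, 0, true, false, true, [(0, 38)], [(0, 2)]⟩,
  ⟨7151, 90, 0, 0, 0, true, false, false, [(0, 40)], []⟩
  ] = true := by decide +kernel

def g66_35 : Gr := ⟨false, 440, 445, 1024, 1024, 66, 66, 8319, 8320, 0, 2048, 0, []⟩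

theorem k66_35 : chk g66_35 T425 [
  ⟨498, 120, 600, 224, 168, false, true, false, [(0, 1), (3, 3), (23, 2), (11, 2), (12, 2), (13, 2), (14, 1), (15, 2)], []⟩,
  ⟨668, 120, 720, 96, 260, false, true, false, [(0, 1), (3, 11), (14, 1), (3, 1), (15, 1), (3, 9)], []⟩,
  ⟨787, 120, 720, 112, 232, false, false, false, [(0, 1), (3, 22)], []⟩,
  ⟨870, 120, 720, 112, 224, false, false, false, [(0, 1), (3, 22)], []⟩,
  ⟨928, 120, 480, 224, 120, false, true, false, [(0, 1), (3, 14)], []⟩,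
  ⟨986, 120, 480, 224, 120, false, true, false, [(0, 1), (3, 14)], []⟩,
  ⟨1027, 120, 0, 256, 145, true, true, false, [(0, 1), (3, 12)], []⟩,
  ⟨1085, 120, 0, 256, 145, true, true, false, [(0, 1), (3, 12)], []⟩,
  ⟨1143, 120, 0, 256, 145, true, true, false, [(0, 1), (3, 12)], []⟩,
  ⟨1201, 120, 0, 256, 145, true, true, false, [(0, 1), (3, 12)], []⟩,
  ⟨1259, 120, 0, 240, 132, true, true, false, [(0, 2), (3, 12)], []⟩,
  ⟨1317, 120, 0, 240, 132, true, true, false, [(0, 2), (3, 12)], []⟩,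
  ⟨1375, 120, 0, 240, 132, true, true, false, [(0, 2), (3, 12)], []⟩,
  ⟨1433, 120, 0, 240, 132, true, true, false, [(0, 2), (3, 12)], []⟩,
  ⟨1491, 120, 0, 240, 132, true, true, false, [(0, 2), (3, 12)], []⟩,
  ⟨1549, 120, 0, 224, 120, true, true, false, [(0, 2), (3, 13)], []⟩,
  ⟨1589, 120, 0, 224, 120, true, true, false, [(0, 3), (3, 12)], []⟩,
  ⟨1629, 120, 0, 224, 120, true, true, false, [(0, 3), (3, 12)], []⟩,
  ⟨1669, 120, 0, 224, 120, true, true, false, [(0, 3), (3, 12)], []⟩,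
  ⟨1697, 120, 0, 224, 120, true, true, false, [(0, 4), (3, 11)], []⟩,
  ⟨1725, 120, 0, 224, 120, true, true, false, [(0, 5), (3, 10)], []⟩,
  ⟨1745, 120, 0, 224, 120, true, true, false, [(0, 7), (3, 8)], []⟩,
  ⟨1759, 120, 0, 224, 120, true, true, false, [(0, 9), (3, 6)], []⟩,
  ⟨1768, 120, 0, 224, 120, true, true, false, [(0, 12), (3, 3)], []⟩,
  ⟨1782, 120, 0, 224, 120, true, true, false, [(0, 15)], []⟩,
  ⟨1803, 120, 0, 224, 120, true, true, false, [(0, 15)], []⟩,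
  ⟨1834, 120, 0, 224, 120, true, true, false, [(0, 15)], []⟩,
  ⟨1865, 120, 0, 224, 120, true, true, false, [(0, 15)], []⟩,
  ⟨1909, 120, 0, 208, 109, true, true, false, [(0, 17)], []⟩,
  ⟨1999, 120, 0, 192, 98, true, true, false, [(0, 18)], []⟩,
  ⟨2251, 120, 0, 176, 88, true, true, false, [(0, 19)], []⟩,
  ⟨2947, 120, 0, 112, 52, true, true, false, [(0, 23)], []⟩,
  ⟨6701, 120, 0, 0, 0, true, false, false, [(0, 31)], []⟩,
  ⟨7232, 120, 0, 0, 0, true, false, false, [(0, 31)], []⟩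
  ] = true := by decide +kernel

def g66_36 : Gr := ⟨false, 445, 451, 1024, 1024, 66, 66, 8319, 8320, 0, 2048, 0, []⟩

theorem k66_36 : chk g66_36 T425 [
  ⟨498, 50, 600, 224, 168, false, true, false, [(0, 1), (3, 8), (23, 5), (10, 2), (11, 4), (12, 5), (13, 4), (14, 4), (15, 4)], []⟩,
  ⟨742, 50, 700, 88, 264, false, false, false, [(0, 1), (3, 14), (7, 1), (3, 7), (8, 2), (3, 2), (13, 2), (14, 4), (15, 4), (3, 22)], []⟩,
  ⟨861, 50, 650, 120, 224, false, false, false, [(0, 1), (3, 35), (15, 1), (3, 17)], []⟩,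
  ⟨944, 50, 650, 120, 216, false, false, false, [(0, 1), (3, 53)], []⟩,
  ⟨1002, 50, 0, 256, 145, true, true, false, [(0, 1), (3, 31)], []⟩,
  ⟨1060, 50, 0, 256, 145, true, true, false, [(0, 1), (3, 31)], []⟩,
  ⟨1143, 50, 0, 256, 145, true, true, false, [(0, 1), (3, 31)], []⟩,
  ⟨1226, 50, 0, 256, 145, true, true, false, [(0, 1), (3, 31)], []⟩,
  ⟨1284, 50, 0, 256, 145, true, true, false, [(0, 2), (3, 30)], []⟩,
  ⟨1342, 50, 0, 240, 132, true, true, false, [(0, 2), (3, 33)], []⟩,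
  ⟨1400, 50, 0, 240, 132, true, true, false, [(0, 2), (3, 33)], []⟩,
  ⟨1458, 50, 0, 240, 132, true, true, false, [(0, 2), (3, 33)], []⟩,
  ⟨1516, 50, 0, 224, 120, true, true, false, [(0, 2), (3, 35)], []⟩,
  ⟨1574, 50, 0, 224, 120, true, true, false, [(0, 2), (3, 35)], []⟩,
  ⟨1632, 50, 0, 224, 120, true, true, false, [(0, 3), (3, 34)], []⟩,
  ⟨1689, 50, 0, 224, 120, true, true, false, [(0, 3), (3, 34)], []⟩,
  ⟨1729, 50, 0, 224, 120, true, true, false, [(0, 4), (3, 33)], []⟩,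
  ⟨1757, 50, 0, 224, 120, true, true, false, [(0, 6), (3, 31)], []⟩,
  ⟨1776, 50, 0, 224, 120, true, true, false, [(0, 11), (3, 26)], []⟩,
  ⟨1795, 50, 0, 224, 120, true, true, false, [(0, 23), (3, 14)], []⟩,
  ⟨1814, 50, 0, 224, 120, true, true, false, [(0, 37)], []⟩,
  ⟨1842, 50, 0, 224, 120, true, true, false, [(0, 37)], []⟩,
  ⟨1925, 50, 0, 208, 109, true, true, false, [(0, 40)], []⟩,
  ⟨2091, 50, 0, 192, 98, true, true, false, [(0, 43)], []⟩,
  ⟨2551, 50, 0, 144, 69, true, true, false, [(0, 50)], []⟩,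
  ⟨4325, 50, 0, 28, 12, true, true, false, [(0, 69)], []⟩,
  ⟨7329, 50, 0, 0, 0, true, false, false, [(0, 74)], []⟩
  ] = true := by decide +kernel

end Pool.Agent.Lib.MP_af3a4a_an.P1.CHK.H81.L
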