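import Pool.Agent.Lib.MP_af3a4a_an.P1.CHK.H81.LT
/-!
# Data, `66 ≤ N ≤ 66`, `451 ≤ 1024 R ≤ 820` (helper81)
-/
set_option autoImplicit false

namespace Pool.Agent.Lib.MP_af3a4a_an.P1.CHK.H81.L

open Pool.Agent.Lib.MP_af3a4a_an.P1.CHK.H58.G (Gr En)

def g66_37 : Gr := ⟨false, 451, 456, 1024, 1024, 66, 66, 8319, 8320, 0, 2048, 0, []⟩

theorem k66_37 : chk g66_37 T425 [
  ⟨498, 90, 540, 240, 164, false, true, false, [(0, 1), (3, 4), (23, 3), (10, 1), (11, 2), (12, 2), (13, 3), (14, 2), (15, 2)], []⟩,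
  ⟨742, 90, 720, 104, 256, false, false, false, [(0, 1), (3, 7), (7, 1), (3, 6), (13, 1), (14, 2), (15, 2), (3, 12)], []⟩,
  ⟨861, 90, 630, 104, 240, false, false, false, [(0, 1), (3, 31)], []⟩,
  ⟨944, 90, 630, 104, 232, false, false, false, [(0, 1), (3, 31)], []⟩,
  ⟨1027, 90, 540, 224, 120, false, true, false, [(0, 1), (3, 20)], []⟩,
  ⟨1085, 90, 540, 224, 120, false, true, false, [(0, 1), (3, 20)], []⟩,
  ⟨1126, 90, 0, 240, 132, true, true, false, [(0, 1), (3, 19)], []⟩,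
  ⟨1167, 90, 0, 240, 132, true, true, false, [(0, 1), (3, 19)], []⟩,
  ⟨1208, 90, 0, 240, 132, true, true, false, [(0, 1), (3, 19)], []⟩,
  ⟨1266, 90, 0, 240, 132, true, true, false, [(0, 1), (3, 19)], []⟩,
  ⟨1324, 90, 0, 240, 132, true, true, false, [(0, 2), (3, 18)], []⟩,
  ⟨1382, 90, 0, 240, 132, true, true, false, [(0, 2), (3, 18)], []⟩,
  ⟨1440, 90, 0, 240, 132, true, true, false, [(0, 2), (3, 18)], []⟩,
  ⟨1498, 90, 0, 224, 120, true, true, false, [(0, 2), (3, 19)], []⟩,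
  ⟨1556, 90, 0, 224, 120, true, true, false, [(0, 2), (3, 19)], []⟩,
  ⟨1614, 90, 0, 224, 120, true, true, false, [(0, 3), (3, 18)], []⟩,
  ⟨1672, 90, 0, 224, 120, true, true, false, [(0, 3), (3, 18)], []⟩,
  ⟨1730, 90, 0, 224, 120, true, true, false, [(0, 4), (3, 17)], []⟩,
  ⟨1770, 90, 0, 224, 120, true, true, false, [(0, 5), (3, 16)], []⟩,
  ⟨1798, 90, 0, 224, 120, true, true, false, [(0, 8), (3, 13)], []⟩,
  ⟨1818, 90, 0, 224, 120, true, true, false, [(0, 15), (3, 6)], []⟩,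
  ⟨1847, 90, 0, 224, 120, true, true, false, [(0, 21)], []⟩,
  ⟨1888, 90, 0, 224, 120, true, true, false, [(0, 21)], []⟩,
  ⟨1972, 90, 0, 192, 98, true, true, false, [(0, 24)], []⟩,
  ⟨2207, 90, 0, 192, 98, true, true, false, [(0, 24)], []⟩,
  ⟨2856, 90, 0, 128, 60, true, true, false, [(0, 30)], []⟩,
  ⟨6360, 90, 0, 0, 0, true, false, false, [(0, 42)], []⟩,
  ⟨7411, 90, 0, 0, 0, true, false, false, [(0, 42)], []⟩
  ] = true := by decide +kernel

def g66_38 : Gr := ⟨false, 456, 461, 1024, 1024, 66, 66, 8319, 8320, 0, 2048, 0, []⟩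

theorem k66_38 : chk g66_38 T425 [
  ⟨498, 90, 540, 240, 164, false, true, false, [(0, 1), (3, 4), (23, 3), (10, 1), (11, 2), (12, 2), (13, 3), (14, 2), (15, 2)], []⟩,
  ⟨742, 90, 720, 96, 264, false, false, false, [(0, 1), (3, 7), (7, 1), (3, 6), (13, 1), (14, 2), (15, 2), (3, 13)], []⟩,
  ⟨912, 90, 630, 120, 224, false, false, false, [(0, 1), (3, 30)], []⟩,
  ⟨995, 90, 630, 120, 216, false, false, false, [(0, 1), (3, 30)], []⟩,
  ⟨1053, 90, 540, 240, 132, false, true, false, [(0, 1), (3, 19)], []⟩,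
  ⟨1111, 90, 0, 256, 145, true, true, false, [(0, 1), (3, 18)], []⟩,
  ⟨1169, 90, 0, 256, 145, true, true, false, [(0, 1), (3, 18)], []⟩,
  ⟨1252, 90, 0, 256, 145, true, true, false, [(0, 1), (3, 18)], []⟩,
  ⟨1335, 90, 0, 240, 132, true, true, false, [(0, 2), (3, 18)], []⟩,
  ⟨1418, 90, 0, 240, 132, true, true, false, [(0, 2), (3, 18)], []⟩,
  ⟨1501, 90, 0, 240, 132, true, true, false, [(0, 2), (3, 18)], []⟩,
  ⟨1584, 90, 0, 240, 132, true, true, false, [(0, 2), (3, 18)], []⟩,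
  ⟨1642, 90, 0, 240, 132, true, true, false, [(0, 3), (3, 17)], []⟩,
  ⟨1682, 90, 0, 240, 132, true, true, false, [(0, 3), (3, 17)], []⟩,
  ⟨1710, 90, 0, 240, 132, true, true, false, [(0, 3), (3, 17)], []⟩,
  ⟨1729, 90, 0, 224, 120, true, true, false, [(0, 4), (3, 18)], []⟩,
  ⟨1748, 90, 0, 224, 120, true, true, false, [(0, 4), (3, 18)], []⟩,
  ⟨1767, 90, 0, 224, 120, true, true, false, [(0, 5), (3, 17)], []⟩,
  ⟨1780, 90, 0, 224, 120, true, true, false, [(0, 5), (3, 17)], []⟩,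
  ⟨1793, 90, 0, 224, 120, true, true, false, [(0, 6), (3, 16)], []⟩,
  ⟨1802, 90, 0, 208, 109, true, true, false, [(0, 7), (3, 16)], []⟩,
  ⟨1811, 90, 0, 208, 109, true, true, false, [(0, 9), (3, 14)], []⟩,
  ⟨1820, 90, 0, 208, 109, true, true, false, [(0, 11), (3, 12)], []⟩,
  ⟨1829, 90, 0, 208, 109, true, true, false, [(0, 14), (3, 9)], []⟩,
  ⟨1838, 90, 0, 208, 109, true, true, false, [(0, 18), (3, 5)], []⟩,
  ⟨1852, 90, 0, 208, 109, true, true, false, [(0, 23)], []⟩,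
  ⟨1896, 90, 0, 208, 109, true, true, false, [(0, 23)], []⟩,
  ⟨2022, 90, 0, 208, 109, true, true, false, [(0, 23)], []⟩,
  ⟨2273, 90, 0, 176, 88, true, true, false, [(0, 26)], []⟩,
  ⟨2966, 90, 0, 120, 56, true, true, false, [(0, 31)], []⟩,
  ⟨6705, 90, 0, 0, 0, true, false, false, [(0, 42)], []⟩,
  ⟨7492, 90, 0, 0, 0, true, false, false, [(0, 42)], []⟩
  ] = true := by decide +kernel

def g66_39 : Gr := ⟨false, 460, 466, 1024, 1024, 66, 66, 8319, 8320, 0, 2048, 0, []⟩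

theorem k66_39 : chk g66_39 T450 [
  ⟨498, 90, 540, 256, 153, false, true, false, [(0, 1), (3, 4), (25, 3), (11, 1), (12, 2), (13, 2), (14, 3), (15, 2), (16, 1)], []⟩,
  ⟨742, 90, 720, 112, 252, false, true, false, [(0, 1), (3, 7), (8, 1), (3, 3), (9, 1), (3, 3), (15, 2), (16, 2), (3, 1), (17, 2), (3, 9)], []⟩,
  ⟨912, 90, 630, 112, 236, false, true, false, [(0, 1), (3, 17), (16, 2), (3, 2), (17, 1), (3, 9)], []⟩,
  ⟨995, 90, 630, 112, 228, false, true, false, [(0, 1), (3, 31)], []⟩,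
  ⟨1078, 90, 540, 224, 120, false, true, false, [(0, 1), (3, 21)], []⟩,
  ⟨1161, 90, 0, 256, 145, true, true, false, [(0, 1), (3, 18)], []⟩,
  ⟨1244, 90, 0, 256, 145, true, true, false, [(0, 1), (3, 18)], []⟩,
  ⟨1327, 90, 0, 256, 145, true, true, false, [(0, 2), (3, 17)], []⟩,
  ⟨1410, 90, 0, 256, 145, true, true, false, [(0, 2), (3, 17)], []⟩,
  ⟨1468, 90, 0, 256, 145, true, true, false, [(0, 2), (3, 17)], []⟩,
  ⟨1526, 90, 0, 224, 120, true, true, false, [(0, 2), (3, 20)], []⟩,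
  ⟨1584, 90, 0, 224, 120, true, true, false, [(0, 2), (3, 20)], []⟩,
  ⟨1642, 90, 0, 224, 120, true, true, false, [(0, 3), (3, 19)], []⟩,
  ⟨1700, 90, 0, 224, 120, true, true, false, [(0, 3), (3, 19)], []⟩,
  ⟨1741, 90, 0, 224, 120, true, true, false, [(0, 4), (3, 18)], []⟩,
  ⟨1782, 90, 0, 224, 120, true, true, false, [(0, 4), (3, 18)], []⟩,
  ⟨1810, 90, 0, 224, 120, true, true, false, [(0, 6), (3, 16)], []⟩,
  ⟨1838, 90, 0, 224, 120, true, true, false, [(0, 9), (3, 13)], []⟩,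
  ⟨1858, 90, 0, 224, 120, true, true, false, [(0, 17), (3, 5)], []⟩,
  ⟨1887, 90, 0, 224, 120, true, true, false, [(0, 22)], []⟩,
  ⟨1928, 90, 0, 224, 120, true, true, false, [(0, 22)], []⟩,
  ⟨2012, 90, 0, 208, 109, true, true, false, [(0, 24)], []⟩,
  ⟨2247, 90, 0, 192, 98, true, true, false, [(0, 25)], []⟩,
  ⟨2898, 90, 0, 128, 60, true, true, false, [(0, 31)], []⟩,
  ⟨6412, 90, 0, 0, 0, true, false, false, [(0, 43)], []⟩,
  ⟨7573, 90, 0, 0, 0, true, false, false, [(0, 43)], []⟩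
  ] = true := by decide +kernel

def g66_40 : Gr := ⟨false, 466, 474, 1024, 1024, 66, 66, 8319, 8320, 0, 2048, 0, []⟩

theorem k66_40 : chk g66_40 T450 [
  ⟨498, 120, 600, 256, 161, false, true, false, [(0, 1), (3, 3), (25, 2), (12, 2), (13, 2), (14, 2), (15, 1), (16, 2)], []⟩,
  ⟨742, 120, 720, 120, 256, false, false, false, [(0, 1), (3, 8), (9, 1), (3, 2), (15, 1), (16, 2), (3, 1), (17, 1), (3, 7)], []⟩,
  ⟨912, 120, 720, 120, 232, false, false, false, [(0, 1), (3, 13), (16, 1), (3, 9)], []⟩,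
  ⟨1031, 120, 720, 120, 224, false, false, false, [(0, 1), (3, 23)], []⟩,
  ⟨1089, 120, 600, 120, 216, false, false, false, [(0, 1), (3, 23)], []⟩,
  ⟨1130, 120, 0, 256, 145, true, true, false, [(0, 1), (3, 14)], []⟩,
  ⟨1188, 120, 0, 256, 145, true, true, false, [(0, 1), (3, 14)], []⟩,
  ⟨1246, 120, 0, 256, 145, true, true, false, [(0, 1), (3, 14)], []⟩,
  ⟨1304, 120, 0, 256, 145, true, true, false, [(0, 2), (3, 13)], []⟩,
  ⟨1362, 120, 0, 256, 145, true, true, false, [(0, 2), (3, 13)], []⟩,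
  ⟨1420, 120, 0, 240, 132, true, true, false, [(0, 2), (3, 14)], []⟩,
  ⟨1478, 120, 0, 240, 132, true, true, false, [(0, 2), (3, 14)], []⟩,
  ⟨1536, 120, 0, 240, 132, true, true, false, [(0, 2), (3, 14)], []⟩,
  ⟨1594, 120, 0, 240, 132, true, true, false, [(0, 2), (3, 14)], []⟩,
  ⟨1634, 120, 0, 240, 132, true, true, false, [(0, 2), (3, 14)], []⟩,
  ⟨1674, 120, 0, 224, 120, true, true, false, [(0, 3), (3, 14)], []⟩,
  ⟨1714, 120, 0, 224, 120, true, true, false, [(0, 3), (3, 14)], []⟩,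
  ⟨1754, 120, 0, 224, 120, true, true, false, [(0, 3), (3, 14)], []⟩,
  ⟨1782, 120, 0, 224, 120, true, true, false, [(0, 4), (3, 13)], []⟩,
  ⟨1810, 120, 0, 224, 120, true, true, false, [(0, 5), (3, 12)], []⟩,
  ⟨1830, 120, 0, 224, 120, true, true, false, [(0, 6), (3, 11)], []⟩,
  ⟨1850, 120, 0, 224, 120, true, true, false, [(0, 7), (3, 10)], []⟩,
  ⟨1864, 120, 0, 224, 120, true, true, false, [(0, 10), (3, 7)], []⟩,
  ⟨1878, 120, 0, 224, 120, true, true, false, [(0, 14), (3, 3)], []⟩,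
  ⟨1898, 120, 0, 224, 120, true, true, false, [(0, 17)], []⟩,
  ⟨1927, 120, 0, 224, 120, true, true, false, [(0, 17)], []⟩,
  ⟨1969, 120, 0, 224, 120, true, true, false, [(0, 17)], []⟩,
  ⟨2030, 120, 0, 224, 120, true, true, false, [(0, 17)], []⟩,
  ⟨2151, 120, 0, 192, 98, true, true, false, [(0, 20)], []⟩,
  ⟨2490, 120, 0, 160, 78, true, true, false, [(0, 22)], []⟩,
  ⟨3799, 120, 0, 80, 36, true, true, false, [(0, 27)], []⟩,
  ⟨7397, 120, 0, 0, 0, true, false, false, [(0, 33)], []⟩,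
  ⟨7703, 120, 0, 0, 0, true, false, false, [(0, 33)], []⟩
  ] = true := by decide +kernel

def g66_41 : Gr := ⟨false, 474, 480, 1024, 1024, 66, 66, 8319, 8320, 0, 2048, 0, []⟩

theorem k66_41 : chk g66_41 T450 [
  ⟨698, 70, 560, 256, 145, false, true, false, [(0, 1), (3, 5), (25, 4), (11, 1), (12, 3), (13, 3), (14, 3), (15, 3), (16, 3)], []⟩,
  ⟨937, 70, 560, 256, 145, false, true, false, [(0, 1), (3, 15), (9, 1), (3, 5), (10, 1), (16, 3)], []⟩,
  ⟨1054, 70, 630, 128, 220, false, true, false, [(0, 1), (3, 24), (16, 1), (3, 15)], []⟩,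
  ⟨1136, 70, 0, 256, 145, true, true, false, [(0, 1), (3, 25)], []⟩,
  ⟨1218, 70, 0, 256, 145, true, true, false, [(0, 1), (3, 25)], []⟩,
  ⟨1334, 70, 0, 256, 145, true, true, false, [(0, 2), (3, 24)], []⟩,
  ⟨1450, 70, 0, 256, 145, true, true, false, [(0, 2), (3, 24)], []⟩,
  ⟨1564, 70, 0, 240, 132, true, true, false, [(0, 2), (3, 26)], []⟩,
  ⟨1644, 70, 0, 240, 132, true, true, false, [(0, 2), (3, 26)], []⟩,
  ⟨1724, 70, 0, 240, 132, true, true, false, [(0, 3), (3, 25)], []⟩,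
  ⟨1780, 70, 0, 224, 120, true, true, false, [(0, 3), (3, 27)], []⟩,
  ⟨1836, 70, 0, 224, 120, true, true, false, [(0, 4), (3, 26)], []⟩,
  ⟨1875, 70, 0, 224, 120, true, true, false, [(0, 6), (3, 24)], []⟩,
  ⟨1914, 70, 0, 224, 120, true, true, false, [(0, 15), (3, 15)], []⟩,
  ⟨1970, 70, 0, 224, 120, true, true, false, [(0, 30)], []⟩,
  ⟨2082, 70, 0, 208, 109, true, true, false, [(0, 32)], []⟩,
  ⟨2304, 70, 0, 192, 98, true, true, false, [(0, 34)], []⟩,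
  ⟨2919, 70, 0, 128, 60, true, true, false, [(0, 41)], []⟩,
  ⟨6238, 70, 0, 0, 0, true, false, false, [(0, 56)], []⟩,
  ⟨7801, 70, 0, 0, 0, true, false, false, [(0, 56)], []⟩
  ] = true := by decide +kernel

def g66_42 : Gr := ⟨false, 480, 487, 1024, 1024, 66, 66, 8319, 8320, 0, 2048, 0, []⟩

theorem k66_42 : chk g66_42 T450 [
  ⟨498, 120, 720, 60, 332, false, false, false, [(0, 1), (3, 3), (25, 2), (12, 2), (13, 2), (14, 2), (15, 1), (16, 2), (17, 2), (3, 12)], []⟩,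
  ⟨742, 120, 720, 104, 280, false, false, false, [(0, 1), (3, 8), (9, 1), (3, 2), (15, 1), (16, 2), (3, 11)], []⟩,
  ⟨912, 120, 720, 104, 256, false, false, false, [(0, 1), (3, 13), (16, 1), (3, 11)], []⟩,
  ⟨1031, 120, 600, 120, 232, false, false, false, [(0, 1), (3, 24)], []⟩,
  ⟨1114, 120, 600, 120, 224, false, false, false, [(0, 1), (3, 24)], []⟩,
  ⟨1172, 120, 600, 120, 216, false, false, false, [(0, 1), (3, 24)], []⟩,
  ⟨1230, 120, 0, 256, 145, true, true, false, [(0, 1), (3, 15)], []⟩,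
  ⟨1288, 120, 0, 256, 145, true, true, false, [(0, 1), (3, 15)], []⟩,
  ⟨1346, 120, 0, 256, 145, true, true, false, [(0, 2), (3, 14)], []⟩,
  ⟨1429, 120, 0, 256, 145, true, true, false, [(0, 2), (3, 14)], []⟩,
  ⟨1487, 120, 0, 256, 145, true, true, false, [(0, 2), (3, 14)], []⟩,
  ⟨1569, 120, 0, 240, 132, true, true, false, [(0, 2), (3, 15)], []⟩,
  ⟨1651, 120, 0, 240, 132, true, true, false, [(0, 2), (3, 15)], []⟩,
  ⟨1708, 120, 0, 240, 132, true, true, false, [(0, 3), (3, 14)], []⟩,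
  ⟨1765, 120, 0, 240, 132, true, true, false, [(0, 3), (3, 14)], []⟩,
  ⟨1805, 120, 0, 224, 120, true, true, false, [(0, 3), (3, 15)], []⟩,
  ⟨1845, 120, 0, 224, 120, true, true, false, [(0, 4), (3, 14)], []⟩,
  ⟨1885, 120, 0, 224, 120, true, true, false, [(0, 5), (3, 13)], []⟩,
  ⟨1913, 120, 0, 224, 120, true, true, false, [(0, 8), (3, 10)], []⟩,
  ⟨1941, 120, 0, 224, 120, true, true, false, [(0, 14), (3, 4)], []⟩,
  ⟨1981, 120, 0, 224, 120, true, true, false, [(0, 18)], []⟩,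
  ⟨2096, 120, 0, 208, 109, true, true, false, [(0, 19)], []⟩,
  ⟨2417, 120, 0, 192, 98, true, true, false, [(0, 20)], []⟩,
  ⟨3304, 120, 0, 104, 48, true, true, false, [(0, 26)], []⟩,
  ⟨6719, 120, 0, 0, 0, true, false, false, [(0, 33)], []⟩,
  ⟨7914, 120, 0, 0, 0, true, false, false, [(0, 33)], []⟩
  ] = true := by decide +kernel

def g66_43 : Gr := ⟨false, 486, 496, 1024, 1024, 66, 66, 8319, 8320, 0, 2048, 0, []⟩

theorem k66_43 : chk g66_43 T475 [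
  ⟨698, 70, 560, 256, 153, false, true, false, [(0, 1), (3, 5), (27, 4), (12, 1), (13, 3), (14, 3), (15, 3), (16, 3), (17, 3), (18, 2)], []⟩,
  ⟨937, 70, 700, 120, 248, false, false, false, [(0, 1), (3, 9), (8, 1), (3, 5), (9, 1), (3, 4), (10, 2), (17, 3), (18, 3), (3, 15)], []⟩,
  ⟨1054, 70, 630, 120, 240, false, false, false, [(0, 1), (3, 27), (18, 1), (3, 15)], []⟩,
  ⟨1170, 70, 630, 144, 205, false, true, false, [(0, 1), (3, 27), (18, 1), (3, 12)], []⟩,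
  ⟨1226, 70, 0, 256, 145, true, true, false, [(0, 1), (3, 27)], []⟩,
  ⟨1306, 70, 0, 256, 145, true, true, false, [(0, 1), (3, 27)], []⟩,
  ⟨1386, 70, 0, 256, 145, true, true, false, [(0, 2), (3, 26)], []⟩,
  ⟨1466, 70, 0, 256, 145, true, true, false, [(0, 2), (3, 26)], []⟩,
  ⟨1546, 70, 0, 256, 145, true, true, false, [(0, 2), (3, 26)], []⟩,
  ⟨1626, 70, 0, 240, 132, true, true, false, [(0, 2), (3, 28)], []⟩,
  ⟨1706, 70, 0, 240, 132, true, true, false, [(0, 2), (3, 28)], []⟩,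
  ⟨1762, 70, 0, 240, 132, true, true, false, [(0, 3), (3, 27)], []⟩,
  ⟨1818, 70, 0, 240, 132, true, true, false, [(0, 3), (3, 27)], []⟩,
  ⟨1857, 70, 0, 224, 120, true, true, false, [(0, 4), (3, 28)], []⟩,
  ⟨1884, 70, 0, 224, 120, true, true, false, [(0, 5), (3, 27)], []⟩,
  ⟨1911, 70, 0, 224, 120, true, true, false, [(0, 6), (3, 26)], []⟩,
  ⟨1930, 70, 0, 224, 120, true, true, false, [(0, 9), (3, 23)], []⟩,
  ⟨1949, 70, 0, 224, 120, true, true, false, [(0, 15), (3, 17)], []⟩,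
  ⟨1962, 70, 0, 224, 120, true, true, false, [(0, 26), (3, 6)], []⟩,
  ⟨1990, 70, 0, 224, 120, true, true, false, [(0, 32)], []⟩,
  ⟨2049, 70, 0, 224, 120, true, true, false, [(0, 32)], []⟩,
  ⟨2167, 70, 0, 208, 109, true, true, false, [(0, 34)], []⟩,
  ⟨2496, 70, 0, 160, 78, true, true, false, [(0, 39)], []⟩,
  ⟨3403, 70, 0, 96, 44, true, true, false, [(0, 47)], []⟩,
  ⟨6895, 70, 0, 0, 0, true, false, false, [(0, 58)], []⟩,
  ⟨8061, 70, 0, 0, 0, true, false, false, [(0, 58)], []⟩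
  ] = true := by decide +kernel

def g66_44 : Gr := ⟨false, 496, 504, 1024, 1024, 66, 66, 8319, 8320, 0, 2048, 0, []⟩

theorem k66_44 : chk g66_44 T475 [
  ⟨698, 120, 600, 256, 161, false, true, false, [(0, 1), (3, 3), (27, 2), (13, 2), (14, 2), (15, 2), (16, 1), (17, 2), (18, 2)], []⟩,
  ⟨937, 120, 720, 120, 256, false, false, false, [(0, 1), (3, 8), (9, 1), (3, 3), (17, 2), (18, 2), (3, 9)], []⟩,
  ⟨1104, 120, 720, 120, 240, false, false, false, [(0, 1), (3, 15), (18, 1), (3, 9)], []⟩,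
  ⟨1221, 120, 600, 120, 224, false, false, false, [(0, 1), (3, 25)], []⟩,
  ⟨1303, 120, 0, 256, 145, true, true, false, [(0, 1), (3, 16)], []⟩,
  ⟨1385, 120, 0, 256, 145, true, true, false, [(0, 2), (3, 15)], []⟩,
  ⟨1467, 120, 0, 256, 145, true, true, false, [(0, 2), (3, 15)], []⟩,
  ⟨1549, 120, 0, 256, 145, true, true, false, [(0, 2), (3, 15)], []⟩,
  ⟨1631, 120, 0, 240, 132, true, true, false, [(0, 2), (3, 16)], []⟩,
  ⟨1713, 120, 0, 240, 132, true, true, false, [(0, 2), (3, 16)], []⟩,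
  ⟨1795, 120, 0, 240, 132, true, true, false, [(0, 3), (3, 15)], []⟩,
  ⟨1852, 120, 0, 224, 120, true, true, false, [(0, 3), (3, 16)], []⟩,
  ⟨1909, 120, 0, 224, 120, true, true, false, [(0, 4), (3, 15)], []⟩,
  ⟨1966, 120, 0, 224, 120, true, true, false, [(0, 6), (3, 13)], []⟩,
  ⟨2006, 120, 0, 224, 120, true, true, false, [(0, 13), (3, 6)], []⟩,
  ⟨2087, 120, 0, 224, 120, true, true, false, [(0, 19)], []⟩,
  ⟨2201, 120, 0, 224, 120, true, true, false, [(0, 19)], []⟩,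
  ⟨2520, 120, 0, 176, 88, true, true, false, [(0, 23)], []⟩,
  ⟨3401, 120, 0, 96, 44, true, true, false, [(0, 28)], []⟩,
  ⟨6792, 120, 0, 0, 0, true, false, false, [(0, 35)], []⟩,
  ⟨8191, 120, 0, 0, 0, true, false, false, [(0, 35)], []⟩
  ] = true := by decide +kernel

def g66_45 : Gr := ⟨false, 504, 512, 1024, 1024, 66, 66, 8319, 8320, 0, 2048, 0, []⟩

theorem k66_45 : chk g66_45 T475 [
  ⟨498, 120, 720, 72, 344, false, false, false, [(0, 1), (3, 3), (27, 2), (13, 2), (14, 2), (15, 2), (16, 1), (17, 2), (18, 2), (19, 2), (3, 11)], []⟩,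
  ⟨846, 120, 720, 128, 268, false, true, false, [(0, 1), (3, 4), (8, 1), (3, 2), (9, 2), (3, 1), (15, 1), (16, 1), (17, 2), (18, 2), (3, 1), (19, 1), (3, 7)], []⟩,
  ⟨1090, 120, 720, 128, 240, false, false, false, [(0, 1), (3, 8), (9, 1), (3, 4), (17, 1), (18, 2), (3, 9)], []⟩,
  ⟨1209, 120, 600, 128, 228, false, true, false, [(0, 1), (3, 25)], []⟩,
  ⟨1292, 120, 600, 128, 220, false, true, false, [(0, 1), (3, 25)], []⟩,
  ⟨1350, 120, 600, 128, 212, false, true, false, [(0, 2), (3, 24)], []⟩,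
  ⟨1408, 120, 0, 256, 145, true, true, false, [(0, 2), (3, 16)], []⟩,
  ⟨1466, 120, 0, 256, 145, true, true, false, [(0, 2), (3, 16)], []⟩,
  ⟨1524, 120, 0, 256, 145, true, true, false, [(0, 2), (3, 16)], []⟩,
  ⟨1582, 120, 0, 256, 145, true, true, false, [(0, 2), (3, 16)], []⟩,
  ⟨1640, 120, 0, 256, 145, true, true, false, [(0, 2), (3, 16)], []⟩,
  ⟨1698, 120, 0, 240, 132, true, true, false, [(0, 2), (3, 17)], []⟩,
  ⟨1756, 120, 0, 240, 132, true, true, false, [(0, 2), (3, 17)], []⟩,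
  ⟨1814, 120, 0, 240, 132, true, true, false, [(0, 3), (3, 16)], []⟩,
  ⟨1872, 120, 0, 240, 132, true, true, false, [(0, 3), (3, 16)], []⟩,
  ⟨1913, 120, 0, 240, 132, true, true, false, [(0, 4), (3, 15)], []⟩,
  ⟨1954, 120, 0, 224, 120, true, true, false, [(0, 5), (3, 15)], []⟩,
  ⟨1982, 120, 0, 224, 120, true, true, false, [(0, 6), (3, 14)], []⟩,
  ⟨2010, 120, 0, 224, 120, true, true, false, [(0, 9), (3, 11)], []⟩,
  ⟨2038, 120, 0, 224, 120, true, true, false, [(0, 15), (3, 5)], []⟩,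
  ⟨2096, 120, 0, 224, 120, true, true, false, [(0, 20)], []⟩,
  ⟨2261, 120, 0, 208, 109, true, true, false, [(0, 21)], []⟩,
  ⟨2719, 120, 0, 160, 78, true, true, false, [(0, 24)], []⟩,
  ⟨4486, 120, 0, 40, 18, true, true, false, [(0, 32)], []⟩,
  ⟨7952, 120, 0, 0, 0, true, false, false, [(0, 35)], []⟩,
  ⟨8321, 120, 0, 0, 0, true, false, false, [(0, 35)], []⟩
  ] = true := by decide +kernel

def g66_46 : Gr := ⟨false, 512, 520, 1024, 1024, 66, 66, 8319, 8320, 0, 2048, 0, []⟩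

theorem k66_46 : chk g66_46 T500 [
  ⟨698, 120, 600, 240, 196, false, true, false, [(0, 1), (3, 3), (28, 2), (14, 2), (15, 2), (16, 2), (17, 1), (18, 2), (19, 2), (20, 2)], []⟩,
  ⟨1040, 120, 600, 240, 156, false, true, false, [(0, 1), (3, 4), (9, 1), (3, 2), (10, 2), (3, 1), (11, 2), (18, 2), (19, 2), (20, 2)], []⟩,
  ⟨1207, 120, 720, 112, 248, false, false, false, [(0, 1), (3, 15), (19, 1), (3, 1), (20, 1), (3, 9)], []⟩,
  ⟨1324, 120, 600, 128, 224, false, false, false, [(0, 1), (3, 15), (19, 1), (3, 1), (20, 1), (3, 8)], []⟩,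
  ⟨1441, 120, 0, 256, 145, true, true, false, [(0, 2), (3, 14), (19, 1), (3, 1)], []⟩,
  ⟨1558, 120, 0, 256, 145, true, true, false, [(0, 2), (3, 16)], []⟩,
  ⟨1675, 120, 0, 256, 145, true, true, false, [(0, 2), (3, 16)], []⟩,
  ⟨1792, 120, 0, 240, 132, true, true, false, [(0, 2), (3, 16), (20, 1)], []⟩,
  ⟨1874, 120, 0, 240, 132, true, true, false, [(0, 3), (3, 16)], []⟩,
  ⟨1956, 120, 0, 240, 132, true, true, false, [(0, 4), (3, 15)], []⟩,
  ⟨2013, 120, 0, 240, 132, true, true, false, [(0, 5), (3, 14)], []⟩,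
  ⟨2053, 120, 0, 240, 132, true, true, false, [(0, 10), (3, 9)], []⟩,
  ⟨2093, 120, 0, 240, 132, true, true, false, [(0, 19)], []⟩,
  ⟨2150, 120, 0, 224, 120, true, true, false, [(0, 21)], []⟩,
  ⟨2311, 120, 0, 208, 109, true, true, false, [(0, 22)], []⟩,
  ⟨2759, 120, 0, 160, 78, true, true, false, [(0, 25)], []⟩,
  ⟨4488, 120, 0, 48, 21, true, true, false, [(0, 32)], []⟩,
  ⟨7879, 120, 0, 0, 0, true, false, false, [(0, 36)], []⟩,
  ⟨8451, 120, 0, 0, 0, true, false, false, [(0, 36)], []⟩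
  ] = true := by decide +kernel

def g66_47 : Gr := ⟨false, 520, 533, 1024, 1024, 66, 66, 8319, 8320, 0, 2018, 0, []⟩

theorem k66_47 : chk g66_47 T500 [
  ⟨698, 120, 600, 256, 185, false, true, false, [(0, 1), (3, 3), (28, 2), (14, 2), (15, 2), (16, 2), (17, 1), (18, 2), (19, 2), (20, 2)], []⟩,
  ⟨1040, 120, 720, 120, 264, false, false, false, [(0, 1), (3, 4), (9, 1), (3, 2), (10, 2), (3, 1), (11, 2), (18, 2), (19, 2), (20, 2), (3, 9)], []⟩,
  ⟨1207, 120, 600, 120, 248, false, false, false, [(0, 1), (3, 15), (19, 1), (3, 1), (20, 1), (3, 9)], []⟩,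
  ⟨1324, 120, 600, 120, 240, false, false, false, [(0, 1), (3, 15), (19, 1), (3, 1), (20, 1), (3, 9)], []⟩,
  ⟨1406, 120, 600, 120, 224, false, false, false, [(0, 2), (3, 26)], []⟩,
  ⟨1488, 120, 0, 256, 145, true, true, false, [(0, 2), (3, 17)], []⟩,
  ⟨1570, 120, 0, 256, 145, true, true, false, [(0, 2), (3, 17)], []⟩,
  ⟨1652, 120, 0, 256, 145, true, true, false, [(0, 2), (3, 17)], []⟩,
  ⟨1734, 120, 0, 240, 132, true, true, false, [(0, 2), (3, 18)], []⟩,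
  ⟨1816, 120, 0, 240, 132, true, true, false, [(0, 3), (3, 17)], []⟩,
  ⟨1898, 120, 0, 240, 132, true, true, false, [(0, 3), (3, 17)], []⟩,
  ⟨1980, 120, 0, 240, 132, true, true, false, [(0, 4), (3, 16)], []⟩,
  ⟨2037, 120, 0, 224, 120, true, true, false, [(0, 5), (3, 16)], []⟩,
  ⟨2094, 120, 0, 224, 120, true, true, false, [(0, 10), (3, 11)], []⟩,
  ⟨2175, 120, 0, 224, 120, true, true, false, [(0, 21)], []⟩,
  ⟨2337, 120, 0, 224, 120, true, true, false, [(0, 21)], []⟩,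
  ⟨2786, 120, 0, 176, 88, true, true, false, [(0, 25)], []⟩,
  ⟨4519, 120, 0, 48, 21, true, true, false, [(0, 33)], []⟩,
  ⟨7919, 120, 0, 0, 0, true, false, false, [(0, 37)], []⟩,
  ⟨8535, 120, 0, 0, 0, true, false, false, [(0, 37)], []⟩
  ] = true := by decide +kernel

def g66_48 : Gr := ⟨false, 533, 538, 1024, 1024, 66, 66, 8319, 8320, 0, 1969, 0, []⟩

theorem k66_48 : chk g66_48 T500 [
  ⟨698, 120, 720, 112, 312, false, false, false, [(0, 1), (3, 3), (28, 2), (14, 2), (15, 2), (16, 2), (17, 1), (18, 2), (19, 2), (20, 2), (21, 1), (3, 9)], []⟩,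
  ⟨1040, 120, 720, 128, 268, false, true, false, [(0, 1), (3, 8), (10, 1), (3, 2), (11, 1), (18, 2), (19, 2), (20, 2), (3, 9)], []⟩,
  ⟨1279, 120, 600, 128, 244, false, true, false, [(0, 1), (3, 15), (19, 1), (3, 1), (20, 1), (3, 9)], []⟩,
  ⟨1446, 120, 600, 128, 228, false, true, false, [(0, 2), (3, 26)], []⟩,
  ⟨1528, 120, 0, 256, 145, true, true, false, [(0, 2), (3, 18)], []⟩,
  ⟨1644, 120, 0, 256, 145, true, true, false, [(0, 2), (3, 18)], []⟩,
  ⟨1760, 120, 0, 256, 145, true, true, false, [(0, 2), (3, 18)], []⟩,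
  ⟨1876, 120, 0, 240, 132, true, true, false, [(0, 3), (3, 18)], []⟩,
  ⟨1992, 120, 0, 240, 132, true, true, false, [(0, 3), (3, 18)], []⟩,
  ⟨2073, 120, 0, 240, 132, true, true, false, [(0, 4), (3, 17)], []⟩,
  ⟨2154, 120, 0, 224, 120, true, true, false, [(0, 9), (3, 13)], []⟩,
  ⟨2315, 120, 0, 224, 120, true, true, false, [(0, 22)], []⟩,
  ⟨2762, 120, 0, 176, 88, true, true, false, [(0, 25)], []⟩,
  ⟨4489, 120, 0, 52, 23, true, true, false, [(0, 33)], []⟩,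
  ⟨7877, 120, 0, 0, 0, true, false, false, [(0, 37)], []⟩,
  ⟨8406, 120, 0, 0, 0, true, false, false, [(0, 37)], []⟩
  ] = true := by decide +kernel

def g66_49 : Gr := ⟨false, 537, 550, 1024, 1024, 66, 66, 8319, 8320, 0, 1954, 0, []⟩

theorem k66_49 : chk g66_49 T525 [
  ⟨698, 120, 600, 256, 201, false, true, false, [(0, 1), (3, 3), (29, 2), (14, 2), (15, 2), (16, 2), (17, 1), (18, 2), (19, 2), (20, 2), (21, 1)], []⟩,
  ⟨1040, 120, 720, 112, 284, false, true, false, [(0, 1), (3, 4), (9, 1), (3, 2), (10, 2), (3, 1), (11, 2), (18, 2), (19, 2), (20, 2), (21, 1), (3, 10)], []⟩,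
  ⟨1279, 120, 600, 128, 248, false, false, false, [(0, 1), (3, 8), (10, 1), (3, 2), (11, 1), (3, 3), (19, 1), (20, 2), (21, 1), (3, 9)], []⟩,
  ⟨1444, 120, 0, 256, 145, true, true, true, [(0, 2), (3, 14), (12, 1), (3, 1), (20, 1)], [(3, 1)]⟩,
  ⟨1609, 120, 0, 256, 145, true, true, true, [(0, 2), (3, 14), (12, 1), (3, 1), (20, 1)], [(3, 1)]⟩,
  ⟨1774, 120, 0, 256, 145, true, true, true, [(0, 2), (3, 16), (20, 1)], [(3, 1)]⟩,
  ⟨1889, 120, 0, 240, 132, true, true, false, [(0, 3), (3, 15), (20, 1), (3, 2)], []⟩,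
  ⟨2004, 120, 0, 240, 132, true, true, false, [(0, 3), (3, 18)], []⟩,
  ⟨2119, 120, 0, 240, 132, true, true, false, [(0, 5), (3, 16)], []⟩,
  ⟨2175, 120, 0, 240, 132, true, true, false, [(0, 13), (3, 8)], []⟩,
  ⟨2255, 120, 0, 240, 132, true, true, false, [(0, 21)], []⟩,
  ⟨2479, 120, 0, 208, 109, true, true, false, [(0, 24)], []⟩,
  ⟨3100, 120, 0, 144, 69, true, true, false, [(0, 28)], []⟩,
  ⟨6454, 120, 0, 0, 0, true, false, false, [(0, 38)], []⟩,
  ⟨8528, 120, 0, 0, 0, true, false, false, [(0, 38)], []⟩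
  ] = true := by decide +kernel

def g66_50 : Gr := ⟨false, 550, 564, 1024, 1024, 66, 66, 8319, 8320, 0, 1908, 0, []⟩

theorem k66_50 : chk g66_50 T525 [
  ⟨698, 120, 720, 80, 352, false, false, false, [(0, 1), (3, 3), (29, 2), (14, 2), (15, 2), (16, 2), (17, 1), (18, 2), (19, 2), (20, 2), (21, 1), (3, 13)], []⟩,
  ⟨1040, 120, 720, 112, 296, false, false, false, [(0, 1), (3, 4), (9, 1), (3, 2), (10, 2), (3, 1), (11, 2), (18, 2), (19, 2), (20, 2), (21, 1), (3, 11)], []⟩,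
  ⟨1279, 120, 600, 128, 260, false, true, false, [(0, 1), (3, 8), (10, 1), (3, 6), (19, 1), (20, 2), (3, 11)], []⟩,
  ⟨1446, 120, 600, 128, 244, false, true, false, [(0, 2), (3, 16), (20, 1), (3, 11)], []⟩,
  ⟨1563, 120, 0, 256, 145, true, true, true, [(0, 2), (3, 16), (20, 1)], [(3, 2)]⟩,
  ⟨1680, 120, 0, 256, 145, true, true, false, [(0, 2), (3, 19)], []⟩,
  ⟨1845, 120, 0, 256, 145, true, true, false, [(0, 2), (3, 19)], []⟩,
  ⟨2010, 120, 0, 240, 132, true, true, false, [(0, 3), (3, 19)], []⟩,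
  ⟨2125, 120, 0, 240, 132, true, true, false, [(0, 4), (3, 18)], []⟩,
  ⟨2206, 120, 0, 240, 132, true, true, false, [(0, 8), (3, 14)], []⟩,
  ⟨2320, 120, 0, 240, 132, true, true, false, [(0, 22)], []⟩,
  ⟨2546, 120, 0, 208, 109, true, true, false, [(0, 25)], []⟩,
  ⟨3172, 120, 0, 144, 69, true, true, false, [(0, 29)], []⟩,
  ⟨6551, 120, 0, 0, 0, true, false, false, [(0, 39)], []⟩,
  ⟨8539, 120, 0, 0, 0, true, false, false, [(0, 39)], []⟩
  ] = true := by decide +kernel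

def g66_51 : Gr := ⟨false, 563, 589, 1024, 1024, 66, 66, 8319, 8320, 0, 1864, 0, []⟩

theorem k66_51 : chk g66_51 T550 [
  ⟨698, 120, 720, 88, 352, false, false, false, [(0, 1), (3, 3), (32, 2), (16, 2), (17, 2), (18, 2), (19, 1), (20, 2), (21, 2), (22, 2), (23, 1), (24, 2), (3, 12)], []⟩,
  ⟨1040, 120, 720, 104, 312, false, false, false, [(0, 1), (3, 4), (10, 1), (3, 2), (11, 2), (3, 1), (12, 2), (3, 1), (20, 1), (21, 2), (22, 2), (23, 1), (3, 13)], []⟩,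
  ⟨1279, 120, 600, 120, 280, false, false, false, [(0, 1), (3, 8), (11, 1), (3, 2), (12, 1), (3, 2), (13, 2), (22, 2), (23, 1), (3, 12)], []⟩,
  ⟨1446, 120, 600, 120, 256, false, false, false, [(0, 2), (3, 14), (13, 1), (22, 2), (23, 1), (3, 12)], []⟩,
  ⟨1613, 120, 600, 176, 192, false, false, false, [(0, 2), (3, 14), (13, 1), (3, 1), (22, 1), (23, 1), (3, 8)], []⟩,
  ⟨1695, 120, 0, 256, 145, true, true, false, [(0, 2), (3, 16), (22, 1), (3, 4)], []⟩,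
  ⟨1811, 120, 0, 256, 145, true, true, false, [(0, 2), (3, 16), (22, 1), (3, 4)], []⟩,
  ⟨1927, 120, 0, 256, 145, true, true, false, [(0, 2), (3, 21)], []⟩,
  ⟨2041, 120, 0, 256, 145, true, true, false, [(0, 3), (3, 20)], []⟩,
  ⟨2121, 120, 0, 240, 132, true, true, false, [(0, 4), (3, 20)], []⟩,
  ⟨2201, 120, 0, 240, 132, true, true, false, [(0, 5), (3, 19)], []⟩,
  ⟨2257, 120, 0, 240, 132, true, true, false, [(0, 10), (3, 14)], []⟩,
  ⟨2313, 120, 0, 224, 120, true, true, false, [(0, 25)], []⟩,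
  ⟨2471, 120, 0, 224, 120, true, true, false, [(0, 25)], []⟩,
  ⟨2910, 120, 0, 176, 88, true, true, false, [(0, 28)], []⟩,
  ⟨4120, 120, 0, 60, 27, true, true, false, [(0, 36)], []⟩,
  ⟨7446, 120, 0, 0, 0, true, false, false, [(0, 40)], []⟩,
  ⟨8712, 120, 0, 0, 0, true, false, false, [(0, 40)], []⟩
  ] = true := by decide +kernel

def g66_52 : Gr := ⟨false, 588, 615, 1024, 1024, 66, 66, 8319, 8320, 0, 1785, 0, []⟩

theorem k66_52 : chk g66_52 T575 [
  ⟨698, 120, 600, 56, 392, false, false, true, [(0, 1), (3, 3), (33, 2), (16, 2), (17, 2), (18, 2), (19, 1), (20, 2), (21, 2), (22, 2), (23, 1), (24, 2), (25, 2), (3, 12)], [(3, 2)]⟩,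
  ⟨1186, 120, 720, 128, 296, false, false, false, [(0, 1), (3, 4), (10, 1), (3, 1), (11, 3), (12, 3), (13, 1), (20, 1), (21, 2), (22, 2), (23, 1), (24, 2), (25, 2), (3, 9)], []⟩,
  ⟨1528, 120, 600, 144, 253, false, true, false, [(0, 1), (3, 8), (11, 1), (3, 2), (12, 1), (3, 2), (13, 2), (22, 2), (23, 1), (24, 2), (3, 1), (25, 1), (3, 8)], []⟩,
  ⟨1695, 120, 600, 144, 232, false, false, false, [(0, 2), (3, 14), (13, 1), (3, 1), (22, 1), (23, 1), (3, 1), (24, 1), (3, 10)], []⟩,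
  ⟨1862, 120, 0, 256, 145, true, true, true, [(0, 2), (3, 14), (13, 1), (3, 2), (23, 1), (3, 1), (24, 1)], [(3, 3)]⟩,
  ⟨2029, 120, 0, 256, 145, true, true, false, [(0, 3), (3, 18), (24, 1), (3, 3)], []⟩,
  ⟨2194, 120, 0, 224, 120, true, true, true, [(0, 3), (3, 13), (7, 1), (3, 4), (24, 1), (3, 1), (25, 1)], [(3, 3)]⟩,
  ⟨2309, 120, 0, 240, 132, true, true, false, [(0, 5), (3, 11), (7, 1), (3, 9)], []⟩,
  ⟨2365, 120, 0, 240, 132, true, true, false, [(0, 12), (3, 14)], []⟩,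
  ⟨2524, 120, 0, 224, 120, true, true, false, [(0, 27)], []⟩,
  ⟨2967, 120, 0, 192, 98, true, true, false, [(0, 29)], []⟩,
  ⟨4187, 120, 0, 72, 32, true, true, false, [(0, 37)], []⟩,
  ⟨7541, 120, 0, 0, 0, true, false, false, [(0, 42)], []⟩,
  ⟨8711, 120, 0, 0, 0, true, false, false, [(0, 42)], []⟩
  ] = true := by decide +kernel

def g66_53 : Gr := ⟨false, 614, 640, 1024, 1024, 66, 66, 8319, 8320, 0, 1709, 0, []⟩

theorem k66_53 : chk g66_53 T600 [
  ⟨978, 120, 720, 96, 360, false, false, false, [(0, 1), (3, 3), (35, 2), (17, 2), (18, 2), (19, 2), (20, 1), (21, 2), (22, 2), (23, 2), (24, 1), (25, 2), (26, 2), (27, 1), (3, 12)], []⟩,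
  ⟨1457, 120, 600, 144, 280, false, false, false, [(0, 1), (3, 4), (11, 1), (3, 2), (12, 2), (13, 3), (14, 4), (23, 2), (24, 1), (25, 2), (26, 2), (3, 10)], []⟩,
  ⟨1792, 120, 0, 256, 145, true, true, true, [(0, 2), (3, 7), (12, 1), (3, 2), (13, 1), (3, 2), (14, 2), (3, 1), (23, 1), (24, 1), (25, 2)], [(26, 2), (3, 2)]⟩,
  ⟨2127, 120, 0, 256, 145, true, true, true, [(0, 2), (3, 7), (5, 1), (3, 2), (6, 1), (3, 3), (14, 1), (3, 2), (15, 1), (25, 2), (26, 2)], [(27, 1), (3, 1)]⟩,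
  ⟨2362, 120, 0, 256, 145, true, true, false, [(0, 4), (3, 5), (5, 1), (3, 6), (7, 1), (3, 4), (25, 1), (3, 1), (26, 1), (3, 2)], []⟩,
  ⟨2477, 120, 0, 256, 145, true, true, false, [(0, 9), (3, 7), (7, 1), (3, 6), (26, 1), (3, 2)], []⟩,
  ⟨2705, 120, 0, 224, 120, true, true, false, [(0, 29)], []⟩,
  ⟨3335, 120, 0, 160, 78, true, true, false, [(0, 33)], []⟩,
  ⟨6736, 120, 0, 0, 0, true, false, false, [(0, 44)], []⟩,
  ⟨8679, 120, 0, 0, 0, true, false, false, [(0, 44)], []⟩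
  ] = true := by decide +kernel

def g66_54 : Gr := ⟨false, 640, 666, 1024, 1024, 66, 66, 8319, 8320, 0, 1640, 0, []⟩

theorem k66_54 : chk g66_54 T625 [
  ⟨978, 120, 600, 120, 360, false, false, true, [(0, 1), (3, 3), (36, 2), (17, 2), (18, 2), (19, 2), (20, 1), (21, 2), (22, 2), (23, 2), (24, 1), (25, 2), (26, 2), (27, 1), (28, 2), (3, 8)], [(3, 2)]⟩,
  ⟨1663, 120, 600, 160, 270, false, true, false, [(0, 1), (3, 4), (11, 1), (3, 1), (12, 3), (13, 3), (14, 4), (23, 2), (24, 1), (25, 2), (26, 2), (27, 1), (28, 2), (3, 8)], []⟩,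
  ⟨2142, 120, 0, 256, 145, true, true, true, [(0, 2), (3, 7), (5, 1), (3, 2), (6, 1), (3, 2), (14, 2), (3, 1), (15, 2), (25, 2), (26, 2)], [(27, 1), (3, 1), (28, 1), (3, 1)]⟩,
  ⟨2477, 120, 0, 240, 132, true, true, true, [(0, 3), (3, 6), (5, 1), (3, 2), (6, 1), (3, 3), (7, 1), (3, 2), (15, 1), (3, 1), (25, 1), (26, 2), (27, 1), (3, 1), (28, 1)], [(3, 1), (29, 1)]⟩,
  ⟨2812, 120, 0, 240, 132, true, true, false, [(0, 16), (7, 1), (0, 2), (8, 1), (0, 3), (26, 1), (0, 2), (28, 1), (0, 1), (29, 1)], []⟩,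
  ⟨3737, 120, 0, 160, 78, true, true, false, [(0, 35)], []⟩,
  ⟨7300, 120, 0, 0, 0, true, false, false, [(0, 46)], []⟩,
  ⟨8667, 120, 0, 0, 0, true, false, false, [(0, 46)], []⟩
  ] = true := by decide +kernel

def g66_55 : Gr := ⟨false, 665, 692, 1024, 1024, 66, 66, 8319, 8320, 0, 1578, 0, []⟩

theorem k66_55 : chk g66_55 T650 [
  ⟨978, 120, 600, 88, 392, false, false, true, [(0, 1), (3, 3), (39, 2), (19, 2), (20, 2), (21, 2), (22, 1), (23, 2), (24, 2), (25, 2), (26, 1), (27, 2), (28, 2), (29, 1), (30, 2), (3, 12)], [(3, 2)]⟩,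
  ⟨1663, 120, 600, 176, 272, false, false, false, [(0, 1), (3, 4), (12, 1), (3, 1), (13, 3), (14, 3), (15, 4), (25, 2), (26, 1), (27, 2), (28, 2), (29, 1), (30, 2), (3, 1), (31, 1), (3, 6)], []⟩,
  ⟨2348, 120, 0, 256, 145, true, true, true, [(0, 2), (3, 3), (4, 1), (3, 2), (5, 2), (3, 1), (6, 1), (14, 1), (3, 1), (15, 3), (16, 3), (27, 2), (28, 2), (29, 1)], [(30, 2), (31, 2), (32, 1)]⟩,
  ⟨2827, 120, 0, 224, 120, true, true, true, [(0, 9), (5, 1), (0, 2), (6, 1), (0, 1), (7, 3), (0, 1), (8, 2), (27, 2), (28, 2), (29, 1), (30, 2), (31, 2)], [(32, 2), (33, 1)]⟩,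
  ⟨3769, 120, 0, 176, 88, true, true, false, [(0, 35)], []⟩,
  ⟨7396, 120, 0, 0, 0, true, false, false, [(0, 47)], []⟩,
  ⟨8665, 120, 0, 0, 0, true, false, false, [(0, 47)], []⟩
  ] = true := by decide +kernel

def g66_56 : Gr := ⟨false, 691, 717, 1024, 1024, 66, 66, 8319, 8320, 0, 1519, 0, []⟩

theorem k66_56 : chk g66_56 T675 [
  ⟨1371, 120, 600, 144, 344, false, false, true, [(0, 1), (3, 3), (40, 2), (19, 2), (20, 2), (21, 2), (22, 1), (23, 2), (24, 2), (25, 2), (26, 1), (27, 2), (28, 2), (29, 1), (30, 2), (31, 2), (32, 2), (3, 6)], [(3, 2)]⟩,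
  ⟨2331, 120, 0, 256, 153, true, true, true, [(0, 2), (3, 3), (4, 1), (3, 2), (13, 2), (14, 3), (15, 4), (16, 3), (27, 2), (28, 2)], [(29, 1), (30, 2), (31, 2), (32, 2), (33, 1)]⟩,
  ⟨3003, 120, 0, 224, 120, true, true, true, [(0, 8), (5, 2), (0, 1), (6, 2), (0, 1), (7, 3), (8, 3), (9, 1), (27, 1), (17, 2), (29, 1), (30, 2), (31, 2), (32, 2)], [(33, 1), (34, 2)]⟩,
  ⟨3944, 120, 0, 144, 69, true, true, false, [(0, 39)], []⟩,
  ⟨7569, 120, 0, 0, 0, true, false, false, [(0, 49)], []⟩,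
  ⟨8642, 120, 0, 0, 0, true, false, false, [(0, 49)], []⟩
  ] = true := by decide +kernel

def g66_57 : Gr := ⟨false, 716, 743, 1024, 1024, 66, 66, 8319, 8320, 0, 1466, 0, []⟩

theorem k66_57 : chk g66_57 T700 [
  ⟨1371, 120, 600, 288, 288, false, false, false, [(0, 1), (3, 3), (41, 2), (19, 2), (20, 2), (21, 2), (22, 1), (23, 2), (24, 2), (25, 2), (26, 1), (27, 2), (28, 2), (29, 1), (30, 2), (31, 2), (32, 2)], []⟩,
  ⟨2742, 120, 0, 256, 145, true, true, true, [(0, 2), (3, 3), (4, 1), (3, 1), (5, 1), (13, 2), (14, 3), (15, 4), (16, 3), (27, 2), (28, 2), (29, 1)], [(30, 2), (31, 2), (32, 2), (33, 1), (34, 1)]⟩,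
  ⟨3414, 120, 0, 208, 109, true, true, true, [(0, 9), (5, 1), (0, 2), (6, 1), (0, 3), (7, 1), (0, 2), (8, 1), (0, 2), (9, 2), (0, 2), (10, 1), (31, 2), (32, 2), (33, 1), (34, 2)], [(35, 2), (36, 1)]⟩,
  ⟨5262, 120, 0, 64, 28, true, true, false, [(0, 46)], []⟩,
  ⟨8643, 120, 0, 0, 0, true, false, false, [(0, 51)], []⟩
  ] = true := by decide +kernel

def g66_58 : Gr := ⟨false, 742, 768, 1024, 1024, 66, 66, 8319, 8320, 0, 1415, 0, []⟩

theorem k66_58 : chk g66_58 T725 [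
  ⟨1371, 120, 600, 192, 344, false, false, true, [(0, 1), (3, 3), (44, 2), (21, 2), (22, 2), (23, 2), (24, 1), (25, 2), (26, 2), (27, 2), (28, 1), (29, 2), (30, 2), (31, 1), (32, 2), (33, 2), (34, 2), (35, 1), (3, 5)], [(3, 2)]⟩,
  ⟨2742, 120, 0, 208, 197, true, true, true, [(0, 2), (3, 2), (4, 2), (3, 1), (5, 1), (14, 2), (15, 3), (16, 4), (17, 3), (29, 2), (30, 2), (31, 1), (32, 2)], [(33, 2), (34, 2), (35, 1), (36, 2), (37, 2), (38, 2)]⟩,
  ⟨3702, 120, 0, 208, 109, true, true, true, [(0, 9), (5, 1), (0, 2), (6, 1), (0, 2), (7, 2), (0, 1), (8, 2), (0, 1), (9, 3), (31, 1), (10, 2), (33, 2), (34, 2), (35, 1), (36, 2), (37, 2)], [(38, 2)]⟩,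
  ⟨5586, 120, 0, 0, 56, true, false, false, [(0, 52)], []⟩,
  ⟨8623, 120, 0, 0, 0, true, false, false, [(0, 52)], []⟩
  ] = true := by decide +kernel

def g66_59 : Gr := ⟨false, 768, 794, 1024, 1024, 66, 66, 8319, 8320, 0, 1367, 0, []⟩

theorem k66_59 : chk g66_59 T750 [
  ⟨1921, 120, 600, 272, 272, false, false, false, [(2, 4), (45, 2), (21, 2), (22, 2), (23, 2), (24, 1), (25, 2), (26, 2), (27, 2), (28, 1), (29, 2), (30, 2), (31, 1), (32, 2), (33, 2), (34, 2), (35, 1), (36, 2), (37, 2)], []⟩,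
  ⟨3842, 120, 0, 192, 114, true, true, true, [(0, 4), (4, 2), (5, 4), (6, 3), (7, 3), (16, 1), (17, 3), (18, 4), (31, 1), (32, 2), (33, 2), (34, 2), (35, 1), (36, 2)], [(37, 2), (38, 2), (39, 1), (40, 2)]⟩,
  ⟨5763, 120, 0, 0, 64, true, false, false, [(0, 54)], []⟩,
  ⟨8613, 120, 0, 0, 0, true, false, false, [(0, 54)], []⟩
  ] = true := by decide +kernel

def g66_60 : Gr := ⟨false, 793, 820, 1024, 1024, 66, 66, 8319, 8320, 0, 1324, 0, []⟩

theorem k66_60 : chk g66_60 T775 [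
  ⟨1921, 120, 600, 272, 272, false, false, true, [(2, 4), (45, 2), (21, 2), (22, 2), (23, 2), (24, 1), (25, 2), (26, 2), (27, 2), (28, 1), (29, 2), (30, 2), (31, 1), (32, 2), (33, 2), (34, 2), (35, 1), (36, 2)], [(37, 2), (38, 2)]⟩,
  ⟨3842, 120, 0, 192, 138, true, true, true, [(0, 4), (4, 2), (5, 4), (6, 3), (7, 3), (16, 1), (17, 3), (18, 4), (31, 1), (32, 2), (33, 2), (34, 2), (35, 1), (36, 2), (37, 2)], [(38, 2), (39, 1), (40, 2), (41, 2)]⟩,
  ⟨5763, 120, 0, 8, 80, true, false, true, [(0, 53)], [(0, 2)]⟩,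
  ⟨8615, 120, 0, 0, 0, true, false, false, [(0, 56)], []⟩
  ] = true := by decide +kernel

end Pool.Agent.Lib.MP_af3a4a_an.P1.CHK.H81.L
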