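import Pool.Agent.Lib.MP_af3a4a_an.P1.CHK.H81.LT
/-!
# Data, `67 ≤ N ≤ 67`, `286 ≤ 1024 R ≤ 388` (helper81)
-/
set_option autoImplicit false

namespace Pool.Agent.Lib.MP_af3a4a_an.P1.CHK.H81.L

open Pool.Agent.Lib.MP_af3a4a_an.P1.CHK.H58.G (Gr En)

def g67_0 : Gr := ⟨false, 286, 296, 1024, 1024, 67, 67, 8381, 8382, 512, 3668, 0, []⟩

theorem k67_0 : chk g67_0 [] [
  ⟨1234, 90, 0, 176, 88, true, true, false, [(0, 11)], []⟩,
  ⟨1361, 90, 0, 176, 88, true, true, false, [(0, 11)], []⟩,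
  ⟨1613, 90, 0, 160, 78, true, true, false, [(0, 13)], []⟩,
  ⟨2311, 90, 0, 112, 52, true, true, false, [(0, 17)], []⟩,
  ⟨6078, 90, 0, 0, 0, true, false, false, [(0, 27)], []⟩,
  ⟨8679, 90, 0, 0, 0, true, false, false, [(0, 27)], []⟩
  ] = true := by decide +kernel

def g67_1 : Gr := ⟨false, 296, 302, 1024, 1024, 67, 67, 8381, 8382, 512, 3544, 0, []⟩

theorem k67_1 : chk g67_1 [] [
  ⟨1255, 120, 0, 192, 98, true, true, false, [(0, 8)], []⟩,
  ⟨1382, 120, 0, 176, 88, true, true, false, [(0, 9)], []⟩,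
  ⟨1633, 120, 0, 160, 78, true, true, false, [(0, 10)], []⟩,
  ⟨2328, 120, 0, 112, 52, true, true, false, [(0, 13)], []⟩,
  ⟨6079, 120, 0, 0, 0, true, false, false, [(0, 21)], []⟩,
  ⟨8556, 120, 0, 0, 0, true, false, false, [(0, 21)], []⟩
  ] = true := by decide +kernel

def g67_2 : Gr := ⟨false, 302, 308, 1024, 1024, 67, 67, 8381, 8382, 384, 3474, 0, []⟩

theorem k67_2 : chk g67_2 [] [
  ⟨957, 120, 0, 192, 98, true, true, false, [(0, 1), (3, 7)], []⟩,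
  ⟨988, 120, 0, 192, 98, true, true, false, [(0, 2), (3, 6)], []⟩,
  ⟨1019, 120, 0, 192, 98, true, true, false, [(0, 2), (3, 6)], []⟩,
  ⟨1063, 120, 0, 192, 98, true, true, false, [(0, 2), (3, 6)], []⟩,
  ⟨1107, 120, 0, 192, 98, true, true, false, [(0, 2), (3, 6)], []⟩,
  ⟨1151, 120, 0, 192, 98, true, true, false, [(0, 3), (3, 5)], []⟩,
  ⟨1195, 120, 0, 192, 98, true, true, false, [(0, 3), (3, 5)], []⟩,
  ⟨1226, 120, 0, 192, 98, true, true, false, [(0, 6), (3, 2)], []⟩,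
  ⟨1271, 120, 0, 192, 98, true, true, false, [(0, 8)], []⟩,
  ⟨1335, 120, 0, 192, 98, true, true, false, [(0, 8)], []⟩,
  ⟨1425, 120, 0, 192, 98, true, true, false, [(0, 8)], []⟩,
  ⟨1604, 120, 0, 160, 78, true, true, false, [(0, 11)], []⟩,
  ⟨2102, 120, 0, 120, 56, true, true, false, [(0, 13)], []⟩,
  ⟨5870, 120, 0, 16, 7, true, true, false, [(0, 20)], []⟩,
  ⟨8554, 120, 0, 0, 0, true, false, false, [(0, 22)], []⟩
  ] = true := by decide +kernel

def g67_3 : Gr := ⟨false, 307, 312, 1024, 1024, 67, 67, 8381, 8382, 384, 3417, 0, []⟩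

theorem k67_3 : chk g67_3 T300 [
  ⟨1006, 90, 0, 192, 98, true, true, false, [(0, 1), (3, 10)], []⟩,
  ⟨1070, 90, 0, 192, 98, true, true, false, [(0, 2), (3, 9)], []⟩,
  ⟨1134, 90, 0, 192, 98, true, true, false, [(0, 2), (3, 9)], []⟩,
  ⟨1198, 90, 0, 192, 98, true, true, false, [(0, 3), (3, 8)], []⟩,
  ⟨1242, 90, 0, 192, 98, true, true, false, [(0, 5), (3, 6)], []⟩,
  ⟨1332, 90, 0, 192, 98, true, true, false, [(0, 11)], []⟩,
  ⟨1459, 90, 0, 160, 78, true, true, false, [(0, 14)], []⟩,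
  ⟨1812, 90, 0, 160, 78, true, true, false, [(0, 14)], []⟩,
  ⟨2786, 90, 0, 96, 44, true, true, false, [(0, 20)], []⟩,
  ⟨6537, 90, 0, 0, 0, true, false, false, [(0, 29)], []⟩,
  ⟨8523, 90, 0, 0, 0, true, false, false, [(0, 29)], []⟩
  ] = true := by decide +kernel

def g67_4 : Gr := ⟨false, 312, 317, 1024, 1024, 67, 67, 8381, 8382, 384, 3362, 0, []⟩

theorem k67_4 : chk g67_4 T300 [
  ⟨978, 120, 0, 208, 109, true, true, false, [(0, 1), (3, 7)], []⟩,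
  ⟨999, 120, 0, 208, 109, true, true, false, [(0, 2), (3, 6)], []⟩,
  ⟨1020, 120, 0, 208, 109, true, true, false, [(0, 2), (3, 6)], []⟩,
  ⟨1041, 120, 0, 208, 109, true, true, false, [(0, 2), (3, 6)], []⟩,
  ⟨1062, 120, 0, 208, 109, true, true, false, [(0, 2), (3, 6)], []⟩,
  ⟨1083, 120, 0, 192, 98, true, true, false, [(0, 2), (3, 7)], []⟩,
  ⟨1104, 120, 0, 192, 98, true, true, false, [(0, 2), (3, 7)], []⟩,
  ⟨1125, 120, 0, 192, 98, true, true, false, [(0, 2), (3, 7)], []⟩,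
  ⟨1156, 120, 0, 192, 98, true, true, false, [(0, 2), (3, 7)], []⟩,
  ⟨1187, 120, 0, 192, 98, true, true, false, [(0, 3), (3, 6)], []⟩,
  ⟨1218, 120, 0, 192, 98, true, true, false, [(0, 3), (3, 6)], []⟩,
  ⟨1249, 120, 0, 192, 98, true, true, false, [(0, 4), (3, 5)], []⟩,
  ⟨1280, 120, 0, 192, 98, true, true, false, [(0, 9)], []⟩,
  ⟨1344, 120, 0, 192, 98, true, true, false, [(0, 9)], []⟩,
  ⟨1473, 120, 0, 176, 88, true, true, false, [(0, 10)], []⟩,
  ⟨1831, 120, 0, 160, 78, true, true, false, [(0, 11)], []⟩,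
  ⟨2818, 120, 0, 88, 40, true, true, false, [(0, 16)], []⟩,
  ⟨6619, 120, 0, 0, 0, true, false, false, [(0, 22)], []⟩,
  ⟨8520, 120, 0, 0, 0, true, false, false, [(0, 22)], []⟩
  ] = true := by decide +kernel

def g67_5 : Gr := ⟨false, 317, 321, 1024, 1024, 67, 67, 8381, 8382, 256, 3309, 0, []⟩

theorem k67_5 : chk g67_5 T300 [
  ⟨658, 90, 0, 224, 120, true, true, false, [(0, 1), (3, 8)], []⟩,
  ⟨668, 90, 0, 224, 120, true, true, false, [(0, 1), (3, 8)], []⟩,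
  ⟨678, 90, 0, 224, 120, true, true, false, [(0, 1), (3, 8)], []⟩,
  ⟨694, 90, 0, 224, 120, true, true, false, [(0, 1), (3, 8)], []⟩,
  ⟨710, 90, 0, 224, 120, true, true, false, [(0, 1), (3, 8)], []⟩,
  ⟨726, 90, 0, 224, 120, true, true, false, [(0, 1), (3, 8)], []⟩,
  ⟨742, 90, 0, 224, 120, true, true, false, [(0, 1), (3, 8)], []⟩,
  ⟨758, 90, 0, 224, 120, true, true, false, [(0, 1), (3, 8)], []⟩,
  ⟨774, 90, 0, 224, 120, true, true, false, [(0, 1), (3, 8)], []⟩,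
  ⟨790, 90, 0, 224, 120, true, true, false, [(0, 1), (3, 8)], []⟩,
  ⟨806, 90, 0, 224, 120, true, true, false, [(0, 1), (3, 8)], []⟩,
  ⟨822, 90, 0, 224, 120, true, true, false, [(0, 1), (3, 8)], []⟩,
  ⟨838, 90, 0, 224, 120, true, true, false, [(0, 1), (3, 8)], []⟩,
  ⟨854, 90, 0, 192, 98, true, true, false, [(0, 1), (3, 11)], []⟩,
  ⟨877, 90, 0, 192, 98, true, true, false, [(0, 1), (3, 11)], []⟩,
  ⟨900, 90, 0, 192, 98, true, true, false, [(0, 1), (3, 11)], []⟩,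
  ⟨933, 90, 0, 192, 98, true, true, false, [(0, 1), (3, 11)], []⟩,
  ⟨966, 90, 0, 192, 98, true, true, false, [(0, 1), (3, 11)], []⟩,
  ⟨1014, 90, 0, 192, 98, true, true, false, [(0, 1), (3, 11)], []⟩,
  ⟨1062, 90, 0, 192, 98, true, true, false, [(0, 2), (3, 10)], []⟩,
  ⟨1130, 90, 0, 192, 98, true, true, false, [(0, 2), (3, 10)], []⟩,
  ⟨1198, 90, 0, 192, 98, true, true, false, [(0, 2), (3, 10)], []⟩,
  ⟨1266, 90, 0, 192, 98, true, true, false, [(0, 3), (3, 9)], []⟩,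
  ⟨1334, 90, 0, 192, 98, true, true, false, [(0, 12)], []⟩,
  ⟨1431, 90, 0, 192, 98, true, true, false, [(0, 12)], []⟩,
  ⟨1702, 90, 0, 160, 78, true, true, false, [(0, 15)], []⟩,
  ⟨2451, 90, 0, 128, 60, true, true, false, [(0, 18)], []⟩,
  ⟨5335, 90, 0, 0, 0, true, false, false, [(0, 30)], []⟩,
  ⟨8219, 90, 0, 0, 0, true, false, false, [(0, 30)], []⟩,
  ⟨8491, 90, 0, 0, 0, true, false, false, [(0, 30)], []⟩
  ] = true := by decide +kernel

def g67_6 : Gr := ⟨false, 321, 327, 1024, 1024, 67, 67, 8381, 8382, 256, 3268, 0, []⟩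

theorem k67_6 : chk g67_6 T300 [
  ⟨677, 70, 0, 208, 109, true, true, false, [(0, 1), (3, 13)], []⟩,
  ⟨708, 70, 0, 208, 109, true, true, false, [(0, 1), (3, 13)], []⟩,
  ⟨739, 70, 0, 208, 109, true, true, false, [(0, 1), (3, 13)], []⟩,
  ⟨784, 70, 0, 208, 109, true, true, false, [(0, 1), (3, 13)], []⟩,
  ⟨829, 70, 0, 208, 109, true, true, false, [(0, 1), (3, 13)], []⟩,
  ⟨893, 70, 0, 208, 109, true, true, false, [(0, 1), (3, 13)], []⟩,
  ⟨957, 70, 0, 208, 109, true, true, false, [(0, 1), (3, 13)], []⟩,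
  ⟨1021, 70, 0, 208, 109, true, true, false, [(0, 1), (3, 13)], []⟩,
  ⟨1085, 70, 0, 208, 109, true, true, false, [(0, 2), (3, 12)], []⟩,
  ⟨1149, 70, 0, 208, 109, true, true, false, [(0, 2), (3, 12)], []⟩,
  ⟨1213, 70, 0, 192, 98, true, true, false, [(0, 2), (3, 14)], []⟩,
  ⟨1258, 70, 0, 192, 98, true, true, false, [(0, 3), (3, 13)], []⟩,
  ⟨1303, 70, 0, 192, 98, true, true, false, [(0, 6), (3, 10)], []⟩,
  ⟨1367, 70, 0, 192, 98, true, true, false, [(0, 16)], []⟩,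
  ⟨1495, 70, 0, 192, 98, true, true, false, [(0, 16)], []⟩,
  ⟨1749, 70, 0, 160, 78, true, true, false, [(0, 20)], []⟩,
  ⟨2450, 70, 0, 120, 56, true, true, false, [(0, 25)], []⟩,
  ⟨6234, 70, 0, 0, 0, true, false, false, [(0, 39)], []⟩,
  ⟨8543, 70, 0, 0, 0, true, false, false, [(0, 39)], []⟩
  ] = true := by decide +kernel

def g67_7 : Gr := ⟨false, 327, 333, 1024, 1024, 67, 67, 8381, 8382, 256, 3208, 0, []⟩

theorem k67_7 : chk g67_7 T300 [
  ⟨684, 90, 0, 224, 120, true, true, false, [(0, 1), (3, 9)], []⟩,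
  ⟨699, 90, 0, 224, 120, true, true, false, [(0, 1), (3, 9)], []⟩,
  ⟨721, 90, 0, 224, 120, true, true, false, [(0, 1), (3, 9)], []⟩,
  ⟨743, 90, 0, 224, 120, true, true, false, [(0, 1), (3, 9)], []⟩,
  ⟨765, 90, 0, 224, 120, true, true, false, [(0, 1), (3, 9)], []⟩,
  ⟨787, 90, 0, 224, 120, true, true, false, [(0, 1), (3, 9)], []⟩,
  ⟨819, 90, 0, 224, 120, true, true, false, [(0, 1), (3, 9)], []⟩,
  ⟨851, 90, 0, 224, 120, true, true, false, [(0, 1), (3, 9)], []⟩,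
  ⟨883, 90, 0, 224, 120, true, true, false, [(0, 1), (3, 9)], []⟩,
  ⟨905, 90, 0, 224, 120, true, true, false, [(0, 1), (3, 9)], []⟩,
  ⟨927, 90, 0, 224, 120, true, true, false, [(0, 1), (3, 9)], []⟩,
  ⟨949, 90, 0, 224, 120, true, true, false, [(0, 1), (3, 9)], []⟩,
  ⟨964, 90, 0, 224, 120, true, true, false, [(0, 1), (3, 9)], []⟩,
  ⟨979, 90, 0, 192, 98, true, true, false, [(0, 1), (3, 12)], []⟩,
  ⟨994, 90, 0, 192, 98, true, true, false, [(0, 1), (3, 12)], []⟩,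
  ⟨1017, 90, 0, 192, 98, true, true, false, [(0, 1), (3, 12)], []⟩,
  ⟨1040, 90, 0, 192, 98, true, true, false, [(0, 2), (3, 11)], []⟩,
  ⟨1073, 90, 0, 192, 98, true, true, false, [(0, 2), (3, 11)], []⟩,
  ⟨1106, 90, 0, 192, 98, true, true, false, [(0, 2), (3, 11)], []⟩,
  ⟨1139, 90, 0, 192, 98, true, true, false, [(0, 2), (3, 11)], []⟩,
  ⟨1172, 90, 0, 192, 98, true, true, false, [(0, 2), (3, 11)], []⟩,
  ⟨1205, 90, 0, 192, 98, true, true, false, [(0, 2), (3, 11)], []⟩,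
  ⟨1238, 90, 0, 192, 98, true, true, false, [(0, 3), (3, 10)], []⟩,
  ⟨1271, 90, 0, 192, 98, true, true, false, [(0, 3), (3, 10)], []⟩,
  ⟨1304, 90, 0, 192, 98, true, true, false, [(0, 4), (3, 9)], []⟩,
  ⟨1337, 90, 0, 192, 98, true, true, false, [(0, 9), (3, 4)], []⟩,
  ⟨1405, 90, 0, 192, 98, true, true, false, [(0, 13)], []⟩,
  ⟨1501, 90, 0, 192, 98, true, true, false, [(0, 13)], []⟩,
  ⟨1770, 90, 0, 160, 78, true, true, false, [(0, 16)], []⟩,
  ⟨2513, 90, 0, 128, 60, true, true, false, [(0, 19)], []⟩,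
  ⟨5378, 90, 0, 0, 0, true, false, false, [(0, 31)], []⟩,
  ⟨8243, 90, 0, 0, 0, true, false, false, [(0, 31)], []⟩,
  ⟨8540, 90, 0, 0, 0, true, false, false, [(0, 31)], []⟩
  ] = true := by decide +kernel

def g67_8 : Gr := ⟨false, 332, 336, 1024, 1024, 67, 67, 8381, 8382, 256, 3160, 0, []⟩

theorem k67_8 : chk g67_8 T325 [
  ⟨710, 70, 0, 208, 109, true, true, false, [(0, 1), (3, 14)], []⟩,
  ⟨754, 70, 0, 208, 109, true, true, false, [(0, 1), (3, 14)], []⟩,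
  ⟨798, 70, 0, 208, 109, true, true, false, [(0, 1), (3, 14)], []⟩,
  ⟨861, 70, 0, 208, 109, true, true, false, [(0, 1), (3, 14)], []⟩,
  ⟨924, 70, 0, 208, 109, true, true, false, [(0, 1), (3, 14)], []⟩,
  ⟨1014, 70, 0, 208, 109, true, true, false, [(0, 1), (3, 14)], []⟩,
  ⟨1104, 70, 0, 208, 109, true, true, false, [(0, 2), (3, 13)], []⟩,
  ⟨1193, 70, 0, 208, 109, true, true, false, [(0, 2), (3, 13)], []⟩,
  ⟨1255, 70, 0, 192, 98, true, true, false, [(0, 2), (3, 15)], []⟩,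
  ⟨1317, 70, 0, 192, 98, true, true, false, [(0, 3), (3, 14)], []⟩,
  ⟨1379, 70, 0, 192, 98, true, true, false, [(0, 17)], []⟩,
  ⟨1504, 70, 0, 192, 98, true, true, false, [(0, 17)], []⟩,
  ⟨1752, 70, 0, 176, 88, true, true, false, [(0, 19)], []⟩,
  ⟨2437, 70, 0, 128, 60, true, true, false, [(0, 25)], []⟩,
  ⟨6132, 70, 0, 0, 0, true, false, false, [(0, 40)], []⟩,
  ⟨8488, 70, 0, 0, 0, true, false, false, [(0, 40)], []⟩
  ] = true := by decide +kernel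

def g67_9 : Gr := ⟨false, 336, 342, 1024, 1024, 67, 67, 8381, 8382, 128, 3122, 0, []⟩

theorem k67_9 : chk g67_9 T325 [
  ⟨470, 70, 630, 96, 192, false, false, false, [(0, 1), (3, 16), (8, 1), (3, 11)], []⟩,
  ⟨532, 70, 630, 96, 184, false, false, false, [(0, 1), (3, 28)], []⟩,
  ⟨562, 70, 350, 224, 120, false, true, false, [(0, 1), (3, 13)], []⟩,
  ⟨592, 70, 350, 224, 120, false, true, false, [(0, 1), (3, 13)], []⟩,
  ⟨613, 70, 0, 224, 120, true, true, false, [(0, 1), (3, 13)], []⟩,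
  ⟨634, 70, 0, 224, 120, true, true, false, [(0, 1), (3, 13)], []⟩,
  ⟨665, 70, 0, 224, 120, true, true, false, [(0, 1), (3, 13)], []⟩,
  ⟨696, 70, 0, 224, 120, true, true, false, [(0, 1), (3, 13)], []⟩,
  ⟨740, 70, 0, 224, 120, true, true, false, [(0, 1), (3, 13)], []⟩,
  ⟨784, 70, 0, 224, 120, true, true, false, [(0, 1), (3, 13)], []⟩,
  ⟨828, 70, 0, 224, 120, true, true, false, [(0, 1), (3, 13)], []⟩,
  ⟨891, 70, 0, 224, 120, true, true, false, [(0, 1), (3, 13)], []⟩,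
  ⟨954, 70, 0, 224, 120, true, true, false, [(0, 1), (3, 13)], []⟩,
  ⟨998, 70, 0, 224, 120, true, true, false, [(0, 1), (3, 13)], []⟩,
  ⟨1042, 70, 0, 224, 120, true, true, false, [(0, 1), (3, 13)], []⟩,
  ⟨1073, 70, 0, 224, 120, true, true, false, [(0, 2), (3, 12)], []⟩,
  ⟨1104, 70, 0, 208, 109, true, true, false, [(0, 2), (3, 14)], []⟩,
  ⟨1135, 70, 0, 208, 109, true, true, false, [(0, 2), (3, 14)], []⟩,
  ⟨1166, 70, 0, 208, 109, true, true, false, [(0, 2), (3, 14)], []⟩,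
  ⟨1197, 70, 0, 208, 109, true, true, false, [(0, 2), (3, 14)], []⟩,
  ⟨1218, 70, 0, 208, 109, true, true, false, [(0, 2), (3, 14)], []⟩,
  ⟨1239, 70, 0, 208, 109, true, true, false, [(0, 2), (3, 14)], []⟩,
  ⟨1260, 70, 0, 208, 109, true, true, false, [(0, 3), (3, 13)], []⟩,
  ⟨1275, 70, 0, 208, 109, true, true, false, [(0, 3), (3, 13)], []⟩,
  ⟨1285, 70, 0, 208, 109, true, true, false, [(0, 3), (3, 13)], []⟩,
  ⟨1295, 70, 0, 192, 98, true, true, false, [(0, 3), (3, 15)], []⟩,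
  ⟨1305, 70, 0, 192, 98, true, true, false, [(0, 4), (3, 14)], []⟩,
  ⟨1315, 70, 0, 192, 98, true, true, false, [(0, 4), (3, 14)], []⟩,
  ⟨1325, 70, 0, 192, 98, true, true, false, [(0, 5), (3, 13)], []⟩,
  ⟨1335, 70, 0, 192, 98, true, true, false, [(0, 5), (3, 13)], []⟩,
  ⟨1345, 70, 0, 192, 98, true, true, false, [(0, 6), (3, 12)], []⟩,
  ⟨1355, 70, 0, 192, 98, true, true, false, [(0, 8), (3, 10)], []⟩,
  ⟨1365, 70, 0, 192, 98, true, true, false, [(0, 13), (3, 5)], []⟩,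
  ⟨1388, 70, 0, 192, 98, true, true, false, [(0, 18)], []⟩,
  ⟨1435, 70, 0, 192, 98, true, true, false, [(0, 18)], []⟩,
  ⟨1531, 70, 0, 192, 98, true, true, false, [(0, 18)], []⟩,
  ⟨1722, 70, 0, 176, 88, true, true, false, [(0, 20)], []⟩,
  ⟨2251, 70, 0, 144, 69, true, true, false, [(0, 24)], []⟩,
  ⟨5110, 70, 0, 0, 0, true, false, false, [(0, 40)], []⟩,
  ⟨7969, 70, 0, 0, 0, true, false, false, [(0, 40)], []⟩,
  ⟨8536, 70, 0, 0, 0, true, false, false, [(0, 40)], []⟩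
  ] = true := by decide +kernel

def g67_10 : Gr := ⟨false, 342, 346, 1024, 1024, 67, 67, 8381, 8382, 128, 3068, 0, []⟩

theorem k67_10 : chk g67_10 T325 [
  ⟨476, 90, 630, 72, 216, false, false, false, [(0, 1), (3, 12), (8, 1), (3, 11)], []⟩,
  ⟨538, 90, 630, 72, 208, false, false, false, [(0, 1), (3, 24)], []⟩,
  ⟨581, 90, 450, 208, 109, false, true, false, [(0, 1), (3, 12)], []⟩,
  ⟨611, 90, 450, 208, 109, false, true, false, [(0, 1), (3, 12)], []⟩,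
  ⟨641, 90, 450, 208, 109, false, true, false, [(0, 1), (3, 12)], []⟩,
  ⟨662, 90, 450, 208, 109, false, true, false, [(0, 1), (3, 12)], []⟩,
  ⟨677, 90, 450, 208, 109, false, true, false, [(0, 1), (3, 12)], []⟩,
  ⟨687, 90, 0, 240, 132, true, true, false, [(0, 1), (3, 9)], []⟩,
  ⟨702, 90, 0, 240, 132, true, true, false, [(0, 1), (3, 9)], []⟩,
  ⟨717, 90, 0, 240, 132, true, true, false, [(0, 1), (3, 9)], []⟩,
  ⟨732, 90, 0, 240, 132, true, true, false, [(0, 1), (3, 9)], []⟩,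
  ⟨747, 90, 0, 240, 132, true, true, false, [(0, 1), (3, 9)], []⟩,
  ⟨762, 90, 0, 240, 132, true, true, false, [(0, 1), (3, 9)], []⟩,
  ⟨777, 90, 0, 240, 132, true, true, false, [(0, 1), (3, 9)], []⟩,
  ⟨792, 90, 0, 240, 132, true, true, false, [(0, 1), (3, 9)], []⟩,
  ⟨803, 90, 0, 240, 132, true, true, false, [(0, 1), (3, 9)], []⟩,
  ⟨814, 90, 0, 208, 109, true, true, false, [(0, 1), (3, 12)], []⟩,
  ⟨830, 90, 0, 208, 109, true, true, false, [(0, 1), (3, 12)], []⟩,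
  ⟨846, 90, 0, 208, 109, true, true, false, [(0, 1), (3, 12)], []⟩,
  ⟨869, 90, 0, 208, 109, true, true, false, [(0, 1), (3, 12)], []⟩,
  ⟨892, 90, 0, 208, 109, true, true, false, [(0, 1), (3, 12)], []⟩,
  ⟨926, 90, 0, 208, 109, true, true, false, [(0, 1), (3, 12)], []⟩,
  ⟨960, 90, 0, 208, 109, true, true, false, [(0, 1), (3, 12)], []⟩,
  ⟨1009, 90, 0, 208, 109, true, true, false, [(0, 1), (3, 12)], []⟩,
  ⟨1058, 90, 0, 208, 109, true, true, false, [(0, 1), (3, 12)], []⟩,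
  ⟨1107, 90, 0, 208, 109, true, true, false, [(0, 2), (3, 11)], []⟩,
  ⟨1156, 90, 0, 208, 109, true, true, false, [(0, 2), (3, 11)], []⟩,
  ⟨1205, 90, 0, 208, 109, true, true, false, [(0, 2), (3, 11)], []⟩,
  ⟨1254, 90, 0, 208, 109, true, true, false, [(0, 2), (3, 11)], []⟩,
  ⟨1303, 90, 0, 208, 109, true, true, false, [(0, 3), (3, 10)], []⟩,
  ⟨1337, 90, 0, 208, 109, true, true, false, [(0, 3), (3, 10)], []⟩,
  ⟨1361, 90, 0, 208, 109, true, true, false, [(0, 5), (3, 8)], []⟩,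
  ⟨1377, 90, 0, 208, 109, true, true, false, [(0, 7), (3, 6)], []⟩,
  ⟨1393, 90, 0, 208, 109, true, true, false, [(0, 12), (3, 1)], []⟩,
  ⟨1417, 90, 0, 208, 109, true, true, false, [(0, 13)], []⟩,
  ⟨1441, 90, 0, 208, 109, true, true, false, [(0, 13)], []⟩,
  ⟨1491, 90, 0, 192, 98, true, true, false, [(0, 15)], []⟩,
  ⟨1634, 90, 0, 176, 88, true, true, false, [(0, 16)], []⟩,
  ⟨2033, 90, 0, 160, 78, true, true, false, [(0, 17)], []⟩,
  ⟨3133, 90, 0, 72, 32, true, true, false, [(0, 25)], []⟩,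
  ⟨6156, 90, 0, 0, 0, true, false, false, [(0, 32)], []⟩,
  ⟨8486, 90, 0, 0, 0, true, false, false, [(0, 32)], []⟩
  ] = true := by decide +kernel

def g67_11 : Gr := ⟨false, 346, 352, 1024, 1024, 67, 67, 8381, 8382, 128, 3032, 0, []⟩

theorem k67_11 : chk g67_11 T325 [
  ⟨480, 70, 630, 80, 212, false, true, false, [(0, 1), (3, 16), (8, 1), (3, 14)], []⟩,
  ⟨542, 70, 630, 88, 200, false, false, false, [(0, 1), (3, 30)], []⟩,
  ⟨604, 70, 420, 208, 109, false, true, false, [(0, 1), (3, 16)], []⟩,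
  ⟨647, 70, 420, 208, 109, false, true, false, [(0, 1), (3, 16)], []⟩,
  ⟨677, 70, 0, 224, 120, true, true, false, [(0, 1), (3, 14)], []⟩,
  ⟨720, 70, 0, 224, 120, true, true, false, [(0, 1), (3, 14)], []⟩,
  ⟨763, 70, 0, 224, 120, true, true, false, [(0, 1), (3, 14)], []⟩,
  ⟨825, 70, 0, 224, 120, true, true, false, [(0, 1), (3, 14)], []⟩,
  ⟨887, 70, 0, 224, 120, true, true, false, [(0, 1), (3, 14)], []⟩,
  ⟨949, 70, 0, 224, 120, true, true, false, [(0, 1), (3, 14)], []⟩,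
  ⟨1011, 70, 0, 224, 120, true, true, false, [(0, 1), (3, 14)], []⟩,
  ⟨1073, 70, 0, 208, 109, true, true, false, [(0, 1), (3, 16)], []⟩,
  ⟨1135, 70, 0, 208, 109, true, true, false, [(0, 2), (3, 15)], []⟩,
  ⟨1197, 70, 0, 208, 109, true, true, false, [(0, 2), (3, 15)], []⟩,
  ⟨1259, 70, 0, 208, 109, true, true, false, [(0, 2), (3, 15)], []⟩,
  ⟨1302, 70, 0, 208, 109, true, true, false, [(0, 3), (3, 14)], []⟩,
  ⟨1345, 70, 0, 208, 109, true, true, false, [(0, 3), (3, 14)], []⟩,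
  ⟨1375, 70, 0, 208, 109, true, true, false, [(0, 5), (3, 12)], []⟩,
  ⟨1396, 70, 0, 208, 109, true, true, false, [(0, 7), (3, 10)], []⟩,
  ⟨1417, 70, 0, 192, 98, true, true, false, [(0, 19)], []⟩,
  ⟨1461, 70, 0, 192, 98, true, true, false, [(0, 19)], []⟩,
  ⟨1550, 70, 0, 192, 98, true, true, false, [(0, 19)], []⟩,
  ⟨1727, 70, 0, 176, 88, true, true, false, [(0, 21)], []⟩,
  ⟨2078, 70, 0, 144, 69, true, true, false, [(0, 25)], []⟩,
  ⟨3433, 70, 0, 72, 32, true, true, false, [(0, 33)], []⟩,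
  ⟨7157, 70, 0, 0, 0, true, false, false, [(0, 42)], []⟩,
  ⟨8532, 70, 0, 0, 0, true, false, false, [(0, 42)], []⟩
  ] = true := by decide +kernel

def g67_12 : Gr := ⟨false, 352, 356, 1024, 1024, 67, 67, 8381, 8382, 128, 2980, 0, []⟩

theorem k67_12 : chk g67_12 T325 [
  ⟨487, 90, 630, 72, 224, false, false, false, [(0, 1), (3, 25)], []⟩,
  ⟨549, 90, 630, 104, 192, false, false, false, [(0, 1), (3, 22)], []⟩,
  ⟨592, 90, 450, 208, 109, false, true, false, [(0, 1), (3, 13)], []⟩,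
  ⟨635, 90, 450, 208, 109, false, true, false, [(0, 1), (3, 13)], []⟩,
  ⟨665, 90, 450, 208, 109, false, true, false, [(0, 1), (3, 13)], []⟩,
  ⟨686, 90, 450, 208, 109, false, true, false, [(0, 1), (3, 13)], []⟩,
  ⟨707, 90, 0, 240, 132, true, true, false, [(0, 1), (3, 10)], []⟩,
  ⟨728, 90, 0, 240, 132, true, true, false, [(0, 1), (3, 10)], []⟩,
  ⟨759, 90, 0, 240, 132, true, true, false, [(0, 1), (3, 10)], []⟩,
  ⟨790, 90, 0, 240, 132, true, true, false, [(0, 1), (3, 10)], []⟩,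
  ⟨821, 90, 0, 240, 132, true, true, false, [(0, 1), (3, 10)], []⟩,
  ⟨852, 90, 0, 240, 132, true, true, false, [(0, 1), (3, 10)], []⟩,
  ⟨883, 90, 0, 240, 132, true, true, false, [(0, 1), (3, 10)], []⟩,
  ⟨904, 90, 0, 240, 132, true, true, false, [(0, 1), (3, 10)], []⟩,
  ⟨925, 90, 0, 240, 132, true, true, false, [(0, 1), (3, 10)], []⟩,
  ⟨946, 90, 0, 240, 132, true, true, false, [(0, 1), (3, 10)], []⟩,
  ⟨967, 90, 0, 208, 109, true, true, false, [(0, 1), (3, 13)], []⟩,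
  ⟨988, 90, 0, 208, 109, true, true, false, [(0, 1), (3, 13)], []⟩,
  ⟨1019, 90, 0, 208, 109, true, true, false, [(0, 1), (3, 13)], []⟩,
  ⟨1050, 90, 0, 208, 109, true, true, false, [(0, 1), (3, 13)], []⟩,
  ⟨1081, 90, 0, 208, 109, true, true, false, [(0, 1), (3, 13)], []⟩,
  ⟨1126, 90, 0, 208, 109, true, true, false, [(0, 2), (3, 12)], []⟩,
  ⟨1171, 90, 0, 208, 109, true, true, false, [(0, 2), (3, 12)], []⟩,
  ⟨1216, 90, 0, 208, 109, true, true, false, [(0, 2), (3, 12)], []⟩,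
  ⟨1261, 90, 0, 208, 109, true, true, false, [(0, 2), (3, 12)], []⟩,
  ⟨1306, 90, 0, 208, 109, true, true, false, [(0, 2), (3, 12)], []⟩,
  ⟨1337, 90, 0, 208, 109, true, true, false, [(0, 3), (3, 11)], []⟩,
  ⟨1368, 90, 0, 192, 98, true, true, false, [(0, 3), (3, 12)], []⟩,
  ⟨1399, 90, 0, 192, 98, true, true, false, [(0, 4), (3, 11)], []⟩,
  ⟨1430, 90, 0, 192, 98, true, true, false, [(0, 8), (3, 7)], []⟩,
  ⟨1494, 90, 0, 192, 98, true, true, false, [(0, 15)], []⟩,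
  ⟨1622, 90, 0, 192, 98, true, true, false, [(0, 15)], []⟩,
  ⟨1875, 90, 0, 160, 78, true, true, false, [(0, 18)], []⟩,
  ⟨2575, 90, 0, 128, 60, true, true, false, [(0, 21)], []⟩,
  ⟨6353, 90, 0, 0, 0, true, false, false, [(0, 33)], []⟩,
  ⟨8481, 90, 0, 0, 0, true, false, false, [(0, 33)], []⟩
  ] = true := by decide +kernel

def g67_13 : Gr := ⟨false, 356, 359, 1024, 1024, 67, 67, 8381, 8382, 0, 2048, 0, []⟩

theorem k67_13 : chk g67_13 T325 [
  ⟨355, 90, 720, 8, 292, false, true, false, [(0, 1), (3, 4), (15, 3), (6, 1), (7, 2), (8, 3), (9, 2), (3, 16)], []⟩,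
  ⟨476, 90, 630, 88, 216, false, false, false, [(0, 1), (3, 24)], []⟩,
  ⟨561, 90, 630, 96, 196, false, true, false, [(0, 1), (3, 23)], []⟩,
  ⟨620, 90, 450, 208, 109, false, true, false, [(0, 1), (3, 13)], []⟩,
  ⟨661, 90, 450, 208, 109, false, true, false, [(0, 1), (3, 13)], []⟩,
  ⟨702, 90, 450, 208, 109, false, true, false, [(0, 1), (3, 13)], []⟩,
  ⟨743, 90, 0, 240, 132, true, true, false, [(0, 1), (3, 10)], []⟩,
  ⟨784, 90, 0, 240, 132, true, true, false, [(0, 1), (3, 10)], []⟩,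
  ⟨825, 90, 0, 240, 132, true, true, false, [(0, 1), (3, 10)], []⟩,
  ⟨866, 90, 0, 240, 132, true, true, false, [(0, 1), (3, 10)], []⟩,
  ⟨907, 90, 0, 224, 120, true, true, false, [(0, 1), (3, 12)], []⟩,
  ⟨948, 90, 0, 224, 120, true, true, false, [(0, 1), (3, 12)], []⟩,
  ⟨1007, 90, 0, 224, 120, true, true, false, [(0, 1), (3, 12)], []⟩,
  ⟨1066, 90, 0, 224, 120, true, true, false, [(0, 1), (3, 12)], []⟩,
  ⟨1125, 90, 0, 208, 109, true, true, false, [(0, 2), (3, 12)], []⟩,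
  ⟨1184, 90, 0, 208, 109, true, true, false, [(0, 2), (3, 12)], []⟩,
  ⟨1243, 90, 0, 208, 109, true, true, false, [(0, 2), (3, 12)], []⟩,
  ⟨1302, 90, 0, 208, 109, true, true, false, [(0, 2), (3, 12)], []⟩,
  ⟨1361, 90, 0, 208, 109, true, true, false, [(0, 3), (3, 11)], []⟩,
  ⟨1402, 90, 0, 208, 109, true, true, false, [(0, 4), (3, 10)], []⟩,
  ⟨1431, 90, 0, 208, 109, true, true, false, [(0, 6), (3, 8)], []⟩,
  ⟨1460, 90, 0, 208, 109, true, true, false, [(0, 14)], []⟩,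
  ⟨1501, 90, 0, 208, 109, true, true, false, [(0, 14)], []⟩,
  ⟨1560, 90, 0, 192, 98, true, true, false, [(0, 16)], []⟩,
  ⟨1727, 90, 0, 176, 88, true, true, false, [(0, 17)], []⟩,
  ⟨2058, 90, 0, 144, 69, true, true, false, [(0, 20)], []⟩,
  ⟨2971, 90, 0, 96, 44, true, true, false, [(0, 24)], []⟩,
  ⟨5878, 90, 0, 0, 0, true, false, false, [(0, 33)], []⟩
  ] = true := by decide +kernel

def g67_14 : Gr := ⟨false, 358, 363, 1024, 1024, 67, 67, 8381, 8382, 0, 2048, 0, []⟩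

theorem k67_14 : chk g67_14 T350 [
  ⟨498, 50, 500, 192, 114, false, true, false, [(0, 1), (3, 8), (18, 5), (8, 2), (9, 4), (10, 5), (11, 3)], []⟩,
  ⟨581, 50, 500, 192, 106, false, true, false, [(0, 1), (3, 27)], []⟩,
  ⟨639, 50, 500, 192, 98, false, true, false, [(0, 1), (3, 27)], []⟩,
  ⟨697, 50, 500, 192, 98, false, true, false, [(0, 1), (3, 27)], []⟩,
  ⟨738, 50, 500, 192, 98, false, true, false, [(0, 1), (3, 27)], []⟩,
  ⟨766, 50, 0, 224, 120, true, true, false, [(0, 1), (3, 22)], []⟩,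
  ⟨794, 50, 0, 224, 120, true, true, false, [(0, 1), (3, 22)], []⟩,
  ⟨835, 50, 0, 224, 120, true, true, false, [(0, 1), (3, 22)], []⟩,
  ⟨876, 50, 0, 224, 120, true, true, false, [(0, 1), (3, 22)], []⟩,
  ⟨934, 50, 0, 224, 120, true, true, false, [(0, 1), (3, 22)], []⟩,
  ⟨992, 50, 0, 224, 120, true, true, false, [(0, 1), (3, 22)], []⟩,
  ⟨1050, 50, 0, 224, 120, true, true, false, [(0, 1), (3, 22)], []⟩,
  ⟨1108, 50, 0, 224, 120, true, true, false, [(0, 1), (3, 22)], []⟩,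
  ⟨1166, 50, 0, 224, 120, true, true, false, [(0, 2), (3, 21)], []⟩,
  ⟨1207, 50, 0, 208, 109, true, true, false, [(0, 2), (3, 24)], []⟩,
  ⟨1248, 50, 0, 208, 109, true, true, false, [(0, 2), (3, 24)], []⟩,
  ⟨1289, 50, 0, 208, 109, true, true, false, [(0, 2), (3, 24)], []⟩,
  ⟨1330, 50, 0, 208, 109, true, true, false, [(0, 3), (3, 23)], []⟩,
  ⟨1371, 50, 0, 208, 109, true, true, false, [(0, 3), (3, 23)], []⟩,
  ⟨1399, 50, 0, 192, 98, true, true, false, [(0, 4), (3, 24)], []⟩,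
  ⟨1427, 50, 0, 192, 98, true, true, false, [(0, 5), (3, 23)], []⟩,
  ⟨1455, 50, 0, 192, 98, true, true, false, [(0, 10), (3, 18)], []⟩,
  ⟨1513, 50, 0, 192, 98, true, true, false, [(0, 28)], []⟩,
  ⟨1630, 50, 0, 192, 98, true, true, false, [(0, 28)], []⟩,
  ⟨1862, 50, 0, 176, 88, true, true, false, [(0, 31)], []⟩,
  ⟨2505, 50, 0, 128, 60, true, true, false, [(0, 39)], []⟩,
  ⟨5943, 50, 0, 0, 0, true, false, false, [(0, 60)], []⟩
  ] = true := by decide +kernel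

def g67_15 : Gr := ⟨false, 363, 369, 1024, 1024, 67, 67, 8381, 8382, 0, 2048, 0, []⟩

theorem k67_15 : chk g67_15 T350 [
  ⟨355, 70, 700, 36, 276, false, false, false, [(0, 1), (3, 5), (18, 4), (8, 1), (9, 3), (10, 4), (11, 2), (12, 3), (3, 16)], []⟩,
  ⟨529, 70, 630, 88, 216, false, false, false, [(0, 1), (3, 16), (10, 1), (11, 2), (3, 13)], []⟩,
  ⟨614, 70, 490, 208, 109, false, true, false, [(0, 1), (3, 18)], []⟩,
  ⟨673, 70, 490, 208, 109, false, true, false, [(0, 1), (3, 18)], []⟩,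
  ⟨714, 70, 490, 208, 109, false, true, false, [(0, 1), (3, 18)], []⟩,
  ⟨743, 70, 0, 224, 120, true, true, false, [(0, 1), (3, 16)], []⟩,
  ⟨784, 70, 0, 224, 120, true, true, false, [(0, 1), (3, 16)], []⟩,
  ⟨825, 70, 0, 224, 120, true, true, false, [(0, 1), (3, 16)], []⟩,
  ⟨884, 70, 0, 224, 120, true, true, false, [(0, 1), (3, 16)], []⟩,
  ⟨943, 70, 0, 224, 120, true, true, false, [(0, 1), (3, 16)], []⟩,
  ⟨1002, 70, 0, 224, 120, true, true, false, [(0, 1), (3, 16)], []⟩,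
  ⟨1061, 70, 0, 224, 120, true, true, false, [(0, 1), (3, 16)], []⟩,
  ⟨1120, 70, 0, 224, 120, true, true, false, [(0, 1), (3, 16)], []⟩,
  ⟨1179, 70, 0, 224, 120, true, true, false, [(0, 2), (3, 15)], []⟩,
  ⟨1238, 70, 0, 224, 120, true, true, false, [(0, 2), (3, 15)], []⟩,
  ⟨1297, 70, 0, 208, 109, true, true, false, [(0, 2), (3, 17)], []⟩,
  ⟨1338, 70, 0, 208, 109, true, true, false, [(0, 2), (3, 17)], []⟩,
  ⟨1379, 70, 0, 208, 109, true, true, false, [(0, 3), (3, 16)], []⟩,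
  ⟨1408, 70, 0, 208, 109, true, true, false, [(0, 4), (3, 15)], []⟩,
  ⟨1437, 70, 0, 208, 109, true, true, false, [(0, 4), (3, 15)], []⟩,
  ⟨1457, 70, 0, 208, 109, true, true, false, [(0, 7), (3, 12)], []⟩,
  ⟨1477, 70, 0, 208, 109, true, true, false, [(0, 13), (3, 6)], []⟩,
  ⟨1497, 70, 0, 208, 109, true, true, false, [(0, 19)], []⟩,
  ⟨1526, 70, 0, 208, 109, true, true, false, [(0, 19)], []⟩,
  ⟨1586, 70, 0, 192, 98, true, true, false, [(0, 21)], []⟩,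
  ⟨1707, 70, 0, 192, 98, true, true, false, [(0, 21)], []⟩,
  ⟨1946, 70, 0, 160, 78, true, true, false, [(0, 25)], []⟩,
  ⟨2608, 70, 0, 104, 48, true, true, false, [(0, 31)], []⟩,
  ⟨6041, 70, 0, 0, 0, true, false, false, [(0, 44)], []⟩
  ] = true := by decide +kernel

def g67_16 : Gr := ⟨false, 369, 375, 1024, 1024, 67, 67, 8381, 8382, 0, 2048, 0, []⟩

theorem k67_16 : chk g67_16 T350 [
  ⟨355, 36, 684, 32, 286, false, true, false, [(0, 1), (3, 11), (18, 7), (8, 4), (9, 6), (10, 6), (11, 5), (12, 6), (3, 32)], []⟩,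
  ⟨529, 36, 648, 96, 212, false, true, false, [(0, 1), (3, 32), (10, 2), (11, 5), (3, 24)], []⟩,
  ⟨614, 36, 648, 96, 204, false, true, false, [(0, 1), (3, 38), (11, 1), (3, 24)], []⟩,
  ⟨673, 36, 468, 208, 109, false, true, false, [(0, 1), (3, 37)], []⟩,
  ⟨732, 36, 468, 208, 109, false, true, false, [(0, 1), (3, 37)], []⟩,
  ⟨791, 36, 0, 240, 132, true, true, false, [(0, 1), (3, 30)], []⟩,
  ⟨850, 36, 0, 240, 132, true, true, false, [(0, 1), (3, 30)], []⟩,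
  ⟨909, 36, 0, 240, 132, true, true, false, [(0, 1), (3, 30)], []⟩,
  ⟨968, 36, 0, 240, 132, true, true, false, [(0, 1), (3, 30)], []⟩,
  ⟨1027, 36, 0, 240, 132, true, true, false, [(0, 1), (3, 30)], []⟩,
  ⟨1068, 36, 0, 224, 120, true, true, false, [(0, 1), (3, 34)], []⟩,
  ⟨1127, 36, 0, 224, 120, true, true, false, [(0, 1), (3, 34)], []⟩,
  ⟨1186, 36, 0, 208, 109, true, true, false, [(0, 2), (3, 36)], []⟩,
  ⟨1245, 36, 0, 208, 109, true, true, false, [(0, 2), (3, 36)], []⟩,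
  ⟨1304, 36, 0, 208, 109, true, true, false, [(0, 2), (3, 36)], []⟩,
  ⟨1363, 36, 0, 208, 109, true, true, false, [(0, 2), (3, 36)], []⟩,
  ⟨1404, 36, 0, 208, 109, true, true, false, [(0, 3), (3, 35)], []⟩,
  ⟨1445, 36, 0, 208, 109, true, true, false, [(0, 4), (3, 34)], []⟩,
  ⟨1474, 36, 0, 208, 109, true, true, false, [(0, 6), (3, 32)], []⟩,
  ⟨1503, 36, 0, 208, 109, true, true, false, [(0, 15), (3, 23)], []⟩,
  ⟨1532, 36, 0, 208, 109, true, true, false, [(0, 38)], []⟩,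
  ⟨1591, 36, 0, 192, 98, true, true, false, [(0, 42)], []⟩,
  ⟨1710, 36, 0, 192, 98, true, true, false, [(0, 42)], []⟩,
  ⟨2041, 36, 0, 160, 78, true, true, false, [(0, 49)], []⟩,
  ⟨2954, 36, 0, 104, 48, true, true, false, [(0, 62)], []⟩,
  ⟨6140, 36, 0, 0, 0, true, false, false, [(0, 86)], []⟩
  ] = true := by decide +kernel

def g67_17 : Gr := ⟨false, 375, 379, 1024, 1024, 67, 67, 8381, 8382, 0, 2048, 0, []⟩

theorem k67_17 : chk g67_17 T350 [
  ⟨355, 90, 720, 28, 292, false, false, false, [(0, 1), (3, 4), (18, 3), (8, 1), (9, 2), (10, 3), (11, 2), (12, 2), (3, 14)], []⟩,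
  ⟨529, 90, 720, 72, 240, false, false, false, [(0, 1), (3, 12), (10, 1), (11, 2), (3, 12)], []⟩,
  ⟨614, 90, 630, 96, 208, false, false, false, [(0, 1), (3, 25)], []⟩,
  ⟨673, 90, 540, 208, 109, false, true, false, [(0, 1), (3, 15)], []⟩,
  ⟨714, 90, 450, 208, 109, false, true, false, [(0, 1), (3, 15)], []⟩,
  ⟨755, 90, 450, 208, 109, false, true, false, [(0, 1), (3, 15)], []⟩,
  ⟨796, 90, 0, 240, 132, true, true, false, [(0, 1), (3, 12)], []⟩,
  ⟨837, 90, 0, 240, 132, true, true, false, [(0, 1), (3, 12)], []⟩,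
  ⟨878, 90, 0, 240, 132, true, true, false, [(0, 1), (3, 12)], []⟩,
  ⟨937, 90, 0, 240, 132, true, true, false, [(0, 1), (3, 12)], []⟩,
  ⟨996, 90, 0, 240, 132, true, true, false, [(0, 1), (3, 12)], []⟩,
  ⟨1037, 90, 0, 240, 132, true, true, false, [(0, 1), (3, 12)], []⟩,
  ⟨1078, 90, 0, 240, 132, true, true, false, [(0, 1), (3, 12)], []⟩,
  ⟨1119, 90, 0, 240, 132, true, true, false, [(0, 1), (3, 12)], []⟩,
  ⟨1148, 90, 0, 240, 132, true, true, false, [(0, 2), (3, 11)], []⟩,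
  ⟨1168, 90, 0, 208, 109, true, true, false, [(0, 2), (3, 14)], []⟩,
  ⟨1197, 90, 0, 208, 109, true, true, false, [(0, 2), (3, 14)], []⟩,
  ⟨1226, 90, 0, 208, 109, true, true, false, [(0, 2), (3, 14)], []⟩,
  ⟨1255, 90, 0, 208, 109, true, true, false, [(0, 2), (3, 14)], []⟩,
  ⟨1284, 90, 0, 208, 109, true, true, false, [(0, 2), (3, 14)], []⟩,
  ⟨1313, 90, 0, 208, 109, true, true, false, [(0, 2), (3, 14)], []⟩,
  ⟨1342, 90, 0, 208, 109, true, true, false, [(0, 2), (3, 14)], []⟩,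
  ⟨1371, 90, 0, 208, 109, true, true, false, [(0, 2), (3, 14)], []⟩,
  ⟨1400, 90, 0, 208, 109, true, true, false, [(0, 3), (3, 13)], []⟩,
  ⟨1429, 90, 0, 208, 109, true, true, false, [(0, 3), (3, 13)], []⟩,
  ⟨1458, 90, 0, 208, 109, true, true, false, [(0, 4), (3, 12)], []⟩,
  ⟨1478, 90, 0, 208, 109, true, true, false, [(0, 4), (3, 12)], []⟩,
  ⟨1492, 90, 0, 208, 109, true, true, false, [(0, 6), (3, 10)], []⟩,
  ⟨1506, 90, 0, 208, 109, true, true, false, [(0, 7), (3, 9)], []⟩,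
  ⟨1520, 90, 0, 208, 109, true, true, false, [(0, 11), (3, 5)], []⟩,
  ⟨1534, 90, 0, 208, 109, true, true, false, [(0, 16)], []⟩,
  ⟨1564, 90, 0, 208, 109, true, true, false, [(0, 16)], []⟩,
  ⟨1608, 90, 0, 208, 109, true, true, false, [(0, 16)], []⟩,
  ⟨1670, 90, 0, 208, 109, true, true, false, [(0, 16)], []⟩,
  ⟨1846, 90, 0, 176, 88, true, true, false, [(0, 19)], []⟩,
  ⟨2334, 90, 0, 160, 78, true, true, false, [(0, 20)], []⟩,
  ⟨4974, 90, 0, 28, 12, true, true, false, [(0, 32)], []⟩,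
  ⟨6205, 90, 0, 0, 0, true, false, false, [(0, 35)], []⟩
  ] = true := by decide +kernel

def g67_18 : Gr := ⟨false, 379, 383, 1024, 1024, 67, 67, 8381, 8382, 0, 2048, 0, []⟩

theorem k67_18 : chk g67_18 T350 [
  ⟨355, 120, 720, 20, 300, false, false, false, [(0, 1), (3, 3), (18, 2), (9, 2), (10, 2), (11, 2), (12, 1), (3, 12)], []⟩,
  ⟨529, 120, 720, 80, 236, false, true, false, [(0, 1), (3, 9), (11, 2), (3, 9)], []⟩,
  ⟨614, 120, 600, 96, 212, false, true, false, [(0, 1), (3, 19)], []⟩,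
  ⟨673, 120, 480, 208, 109, false, true, false, [(0, 1), (3, 11)], []⟩,
  ⟨714, 120, 480, 208, 109, false, true, false, [(0, 1), (3, 11)], []⟩,
  ⟨743, 120, 480, 208, 109, false, true, false, [(0, 1), (3, 11)], []⟩,
  ⟨772, 120, 480, 208, 109, false, true, false, [(0, 1), (3, 11)], []⟩,
  ⟨792, 120, 480, 208, 109, false, true, false, [(0, 1), (3, 11)], []⟩,
  ⟨812, 120, 0, 240, 132, true, true, false, [(0, 1), (3, 9)], []⟩,
  ⟨832, 120, 0, 240, 132, true, true, false, [(0, 1), (3, 9)], []⟩,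
  ⟨861, 120, 0, 240, 132, true, true, false, [(0, 1), (3, 9)], []⟩,
  ⟨890, 120, 0, 240, 132, true, true, false, [(0, 1), (3, 9)], []⟩,
  ⟨919, 120, 0, 240, 132, true, true, false, [(0, 1), (3, 9)], []⟩,
  ⟨948, 120, 0, 240, 132, true, true, false, [(0, 1), (3, 9)], []⟩,
  ⟨990, 120, 0, 240, 132, true, true, false, [(0, 1), (3, 9)], []⟩,
  ⟨1032, 120, 0, 224, 120, true, true, false, [(0, 1), (3, 10)], []⟩,
  ⟨1074, 120, 0, 224, 120, true, true, false, [(0, 1), (3, 10)], []⟩,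
  ⟨1116, 120, 0, 224, 120, true, true, false, [(0, 1), (3, 10)], []⟩,
  ⟨1158, 120, 0, 224, 120, true, true, false, [(0, 2), (3, 9)], []⟩,
  ⟨1200, 120, 0, 224, 120, true, true, false, [(0, 2), (3, 9)], []⟩,
  ⟨1242, 120, 0, 224, 120, true, true, false, [(0, 2), (3, 9)], []⟩,
  ⟨1284, 120, 0, 224, 120, true, true, false, [(0, 2), (3, 9)], []⟩,
  ⟨1326, 120, 0, 208, 109, true, true, false, [(0, 2), (3, 10)], []⟩,
  ⟨1368, 120, 0, 208, 109, true, true, false, [(0, 2), (3, 10)], []⟩,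
  ⟨1410, 120, 0, 208, 109, true, true, false, [(0, 3), (3, 9)], []⟩,
  ⟨1439, 120, 0, 208, 109, true, true, false, [(0, 3), (3, 9)], []⟩,
  ⟨1468, 120, 0, 208, 109, true, true, false, [(0, 3), (3, 9)], []⟩,
  ⟨1497, 120, 0, 208, 109, true, true, false, [(0, 4), (3, 8)], []⟩,
  ⟨1517, 120, 0, 208, 109, true, true, false, [(0, 6), (3, 6)], []⟩,
  ⟨1537, 120, 0, 208, 109, true, true, false, [(0, 9), (3, 3)], []⟩,
  ⟨1567, 120, 0, 208, 109, true, true, false, [(0, 12)], []⟩,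
  ⟨1610, 120, 0, 208, 109, true, true, false, [(0, 12)], []⟩,
  ⟨1671, 120, 0, 208, 109, true, true, false, [(0, 12)], []⟩,
  ⟨1758, 120, 0, 192, 98, true, true, false, [(0, 14)], []⟩,
  ⟨1931, 120, 0, 176, 88, true, true, false, [(0, 15)], []⟩,
  ⟨2410, 120, 0, 120, 56, true, true, false, [(0, 18)], []⟩,
  ⟨6038, 120, 0, 2, 1, true, true, false, [(0, 26)], []⟩,
  ⟨6271, 120, 0, 0, 0, true, false, false, [(0, 27)], []⟩
  ] = true := by decide +kernel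

def g67_19 : Gr := ⟨false, 383, 384, 1024, 1024, 67, 67, 8381, 8382, 0, 2048, 0, []⟩

theorem k67_19 : chk g67_19 T350 [
  ⟨355, 70, 700, 44, 284, false, false, false, [(0, 1), (3, 5), (18, 4), (8, 1), (9, 3), (10, 4), (11, 2), (12, 2), (3, 18)], []⟩,
  ⟨529, 70, 700, 88, 232, false, false, false, [(0, 1), (3, 17), (11, 2), (3, 15)], []⟩,
  ⟨650, 70, 630, 96, 212, false, true, false, [(0, 1), (3, 33)], []⟩,
  ⟨735, 70, 490, 224, 120, false, true, false, [(0, 1), (3, 18)], []⟩,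
  ⟨794, 70, 0, 240, 132, true, true, false, [(0, 1), (3, 16)], []⟩,
  ⟨878, 70, 0, 240, 132, true, true, false, [(0, 1), (3, 16)], []⟩,
  ⟨962, 70, 0, 240, 132, true, true, false, [(0, 1), (3, 16)], []⟩,
  ⟨1046, 70, 0, 240, 132, true, true, false, [(0, 1), (3, 16)], []⟩,
  ⟨1130, 70, 0, 224, 120, true, true, false, [(0, 1), (3, 18)], []⟩,
  ⟨1214, 70, 0, 224, 120, true, true, false, [(0, 2), (3, 17)], []⟩,
  ⟨1298, 70, 0, 224, 120, true, true, false, [(0, 2), (3, 17)], []⟩,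
  ⟨1382, 70, 0, 224, 120, true, true, false, [(0, 2), (3, 17)], []⟩,
  ⟨1441, 70, 0, 208, 109, true, true, false, [(0, 3), (3, 18)], []⟩,
  ⟨1500, 70, 0, 208, 109, true, true, false, [(0, 4), (3, 17)], []⟩,
  ⟨1541, 70, 0, 208, 109, true, true, false, [(0, 6), (3, 15)], []⟩,
  ⟨1582, 70, 0, 208, 109, true, true, false, [(0, 21)], []⟩,
  ⟨1665, 70, 0, 208, 109, true, true, false, [(0, 21)], []⟩,
  ⟨1831, 70, 0, 192, 98, true, true, false, [(0, 23)], []⟩,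
  ⟨2159, 70, 0, 160, 78, true, true, false, [(0, 27)], []⟩,
  ⟨3427, 70, 0, 80, 36, true, true, false, [(0, 36)], []⟩,
  ⟨6287, 70, 0, 0, 0, true, false, false, [(0, 45)], []⟩
  ] = true := by decide +kernel

def g67_20 : Gr := ⟨false, 384, 388, 1024, 1024, 67, 67, 8381, 8382, 0, 2048, 0, []⟩

theorem k67_20 : chk g67_20 T375 [
  ⟨498, 50, 500, 224, 120, false, true, false, [(0, 1), (3, 8), (19, 5), (8, 2), (9, 4), (10, 5), (11, 2)], []⟩,
  ⟨617, 50, 650, 96, 216, false, false, false, [(0, 1), (3, 27), (11, 1), (3, 19)], []⟩,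
  ⟨700, 50, 450, 224, 120, false, true, false, [(0, 1), (3, 26)], []⟩,
  ⟨783, 50, 450, 224, 120, false, true, false, [(0, 1), (3, 26)], []⟩,
  ⟨841, 50, 450, 224, 120, false, true, false, [(0, 1), (3, 26)], []⟩,
  ⟨899, 50, 0, 224, 120, true, true, false, [(0, 1), (3, 26)], []⟩,
  ⟨957, 50, 0, 224, 120, true, true, false, [(0, 1), (3, 26)], []⟩,
  ⟨1040, 50, 0, 224, 120, true, true, false, [(0, 1), (3, 26)], []⟩,
  ⟨1123, 50, 0, 224, 120, true, true, false, [(0, 1), (3, 26)], []⟩,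
  ⟨1206, 50, 0, 224, 120, true, true, false, [(0, 2), (3, 25)], []⟩,
  ⟨1289, 50, 0, 224, 120, true, true, false, [(0, 2), (3, 25)], []⟩,
  ⟨1372, 50, 0, 224, 120, true, true, false, [(0, 2), (3, 25)], []⟩,
  ⟨1430, 50, 0, 224, 120, true, true, false, [(0, 3), (3, 24)], []⟩,
  ⟨1470, 50, 0, 208, 109, true, true, false, [(0, 3), (3, 27)], []⟩,
  ⟨1498, 50, 0, 208, 109, true, true, false, [(0, 4), (3, 26)], []⟩,
  ⟨1526, 50, 0, 208, 109, true, true, false, [(0, 5), (3, 25)], []⟩,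
  ⟨1545, 50, 0, 208, 109, true, true, false, [(0, 8), (3, 22)], []⟩,
  ⟨1564, 50, 0, 208, 109, true, true, false, [(0, 20), (3, 10)], []⟩,
  ⟨1592, 50, 0, 208, 109, true, true, false, [(0, 30)], []⟩,
  ⟨1651, 50, 0, 208, 109, true, true, false, [(0, 30)], []⟩,
  ⟨1769, 50, 0, 192, 98, true, true, false, [(0, 33)], []⟩,
  ⟨2097, 50, 0, 176, 88, true, true, false, [(0, 35)], []⟩,
  ⟨3003, 50, 0, 96, 44, true, true, false, [(0, 48)], []⟩,
  ⟨6352, 50, 0, 0, 0, true, false, false, [(0, 64)], []⟩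
  ] = true := by decide +kernel

end Pool.Agent.Lib.MP_af3a4a_an.P1.CHK.H81.L
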