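import Pool.Agent.Lib.MP_af3a4a_an.P1.CHK.H81.LT
/-!
# Data, `67 ≤ N ≤ 67`, `388 ≤ 1024 R ≤ 454` (helper81)
-/
set_option autoImplicit false

namespace Pool.Agent.Lib.MP_af3a4a_an.P1.CHK.H81.L

open Pool.Agent.Lib.MP_af3a4a_an.P1.CHK.H58.G (Gr En)

def g67_21 : Gr := ⟨false, 388, 394, 1024, 1024, 67, 67, 8381, 8382, 0, 2048, 0, []⟩

theorem k67_21 : chk g67_21 T375 [
  ⟨498, 70, 490, 224, 120, false, true, false, [(0, 1), (3, 5), (19, 4), (8, 1), (9, 3), (10, 4), (11, 2)], []⟩,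
  ⟨617, 70, 630, 96, 220, false, true, false, [(0, 1), (3, 34)], []⟩,
  ⟨700, 70, 490, 224, 120, false, true, false, [(0, 1), (3, 19)], []⟩,
  ⟨758, 70, 490, 224, 120, false, true, false, [(0, 1), (3, 19)], []⟩,
  ⟨799, 70, 490, 224, 120, false, true, false, [(0, 1), (3, 19)], []⟩,
  ⟨840, 70, 490, 224, 120, false, true, false, [(0, 1), (3, 19)], []⟩,
  ⟨868, 70, 0, 224, 120, true, true, false, [(0, 1), (3, 19)], []⟩,
  ⟨896, 70, 0, 224, 120, true, true, false, [(0, 1), (3, 19)], []⟩,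
  ⟨937, 70, 0, 224, 120, true, true, false, [(0, 1), (3, 19)], []⟩,
  ⟨978, 70, 0, 224, 120, true, true, false, [(0, 1), (3, 19)], []⟩,
  ⟨1036, 70, 0, 224, 120, true, true, false, [(0, 1), (3, 19)], []⟩,
  ⟨1094, 70, 0, 224, 120, true, true, false, [(0, 1), (3, 19)], []⟩,
  ⟨1152, 70, 0, 224, 120, true, true, false, [(0, 1), (3, 19)], []⟩,
  ⟨1210, 70, 0, 224, 120, true, true, false, [(0, 2), (3, 18)], []⟩,
  ⟨1268, 70, 0, 224, 120, true, true, false, [(0, 2), (3, 18)], []⟩,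
  ⟨1326, 70, 0, 224, 120, true, true, false, [(0, 2), (3, 18)], []⟩,
  ⟨1384, 70, 0, 224, 120, true, true, false, [(0, 2), (3, 18)], []⟩,
  ⟨1425, 70, 0, 224, 120, true, true, false, [(0, 3), (3, 17)], []⟩,
  ⟨1453, 70, 0, 208, 109, true, true, false, [(0, 3), (3, 19)], []⟩,
  ⟨1481, 70, 0, 208, 109, true, true, false, [(0, 3), (3, 19)], []⟩,
  ⟨1501, 70, 0, 208, 109, true, true, false, [(0, 4), (3, 18)], []⟩,
  ⟨1521, 70, 0, 208, 109, true, true, false, [(0, 4), (3, 18)], []⟩,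
  ⟨1535, 70, 0, 208, 109, true, true, false, [(0, 5), (3, 17)], []⟩,
  ⟨1549, 70, 0, 208, 109, true, true, false, [(0, 7), (3, 15)], []⟩,
  ⟨1563, 70, 0, 208, 109, true, true, false, [(0, 9), (3, 13)], []⟩,
  ⟨1572, 70, 0, 208, 109, true, true, false, [(0, 14), (3, 8)], []⟩,
  ⟨1581, 70, 0, 208, 109, true, true, false, [(0, 22)], []⟩,
  ⟨1602, 70, 0, 208, 109, true, true, false, [(0, 22)], []⟩,
  ⟨1646, 70, 0, 208, 109, true, true, false, [(0, 22)], []⟩,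
  ⟨1736, 70, 0, 192, 98, true, true, false, [(0, 24)], []⟩,
  ⟨1915, 70, 0, 176, 88, true, true, false, [(0, 26)], []⟩,
  ⟨2270, 70, 0, 160, 78, true, true, false, [(0, 28)], []⟩,
  ⟨3641, 70, 0, 64, 28, true, true, false, [(0, 39)], []⟩,
  ⟨6451, 70, 0, 0, 0, true, false, false, [(0, 47)], []⟩
  ] = true := by decide +kernel

def g67_22 : Gr := ⟨false, 394, 398, 1024, 1024, 67, 67, 8381, 8382, 0, 2048, 0, []⟩

theorem k67_22 : chk g67_22 T375 [
  ⟨355, 120, 720, 32, 304, false, false, false, [(0, 1), (3, 3), (19, 2), (9, 2), (10, 2), (11, 2), (12, 1), (3, 12)], []⟩,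
  ⟨529, 120, 720, 80, 248, false, false, false, [(0, 1), (3, 9), (11, 2), (3, 10)], []⟩,
  ⟨650, 120, 720, 96, 220, false, true, false, [(0, 1), (3, 20)], []⟩,
  ⟨709, 120, 600, 120, 192, false, false, false, [(0, 1), (3, 18)], []⟩,
  ⟨768, 120, 480, 208, 109, false, true, false, [(0, 1), (3, 12)], []⟩,
  ⟨809, 120, 480, 208, 109, false, true, false, [(0, 1), (3, 12)], []⟩,
  ⟨838, 120, 480, 208, 109, false, true, false, [(0, 1), (3, 12)], []⟩,
  ⟨858, 120, 0, 240, 132, true, true, false, [(0, 1), (3, 10)], []⟩,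
  ⟨887, 120, 0, 240, 132, true, true, false, [(0, 1), (3, 10)], []⟩,
  ⟨916, 120, 0, 240, 132, true, true, false, [(0, 1), (3, 10)], []⟩,
  ⟨958, 120, 0, 240, 132, true, true, false, [(0, 1), (3, 10)], []⟩,
  ⟨1000, 120, 0, 240, 132, true, true, false, [(0, 1), (3, 10)], []⟩,
  ⟨1042, 120, 0, 240, 132, true, true, false, [(0, 1), (3, 10)], []⟩,
  ⟨1084, 120, 0, 240, 132, true, true, false, [(0, 1), (3, 10)], []⟩,
  ⟨1126, 120, 0, 240, 132, true, true, false, [(0, 1), (3, 10)], []⟩,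
  ⟨1168, 120, 0, 224, 120, true, true, false, [(0, 1), (3, 11)], []⟩,
  ⟨1210, 120, 0, 224, 120, true, true, false, [(0, 2), (3, 10)], []⟩,
  ⟨1270, 120, 0, 224, 120, true, true, false, [(0, 2), (3, 10)], []⟩,
  ⟨1330, 120, 0, 224, 120, true, true, false, [(0, 2), (3, 10)], []⟩,
  ⟨1372, 120, 0, 224, 120, true, true, false, [(0, 2), (3, 10)], []⟩,
  ⟨1414, 120, 0, 224, 120, true, true, false, [(0, 2), (3, 10)], []⟩,
  ⟨1443, 120, 0, 208, 109, true, true, false, [(0, 3), (3, 10)], []⟩,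
  ⟨1472, 120, 0, 208, 109, true, true, false, [(0, 3), (3, 10)], []⟩,
  ⟨1501, 120, 0, 208, 109, true, true, false, [(0, 3), (3, 10)], []⟩,
  ⟨1530, 120, 0, 208, 109, true, true, false, [(0, 4), (3, 9)], []⟩,
  ⟨1559, 120, 0, 208, 109, true, true, false, [(0, 5), (3, 8)], []⟩,
  ⟨1579, 120, 0, 208, 109, true, true, false, [(0, 6), (3, 7)], []⟩,
  ⟨1599, 120, 0, 208, 109, true, true, false, [(0, 10), (3, 3)], []⟩,
  ⟨1629, 120, 0, 208, 109, true, true, false, [(0, 13)], []⟩,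
  ⟨1690, 120, 0, 208, 109, true, true, false, [(0, 13)], []⟩,
  ⟨1776, 120, 0, 208, 109, true, true, false, [(0, 13)], []⟩,
  ⟨1898, 120, 0, 192, 98, true, true, false, [(0, 15)], []⟩,
  ⟨2238, 120, 0, 160, 78, true, true, false, [(0, 17)], []⟩,
  ⟨3554, 120, 0, 80, 36, true, true, false, [(0, 22)], []⟩,
  ⟨6516, 120, 0, 0, 0, true, false, false, [(0, 28)], []⟩
  ] = true := by decide +kernel

def g67_23 : Gr := ⟨false, 398, 403, 1024, 1024, 67, 67, 8381, 8382, 0, 2048, 0, []⟩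

theorem k67_23 : chk g67_23 T375 [
  ⟨355, 90, 720, 20, 316, false, false, false, [(0, 1), (3, 4), (19, 3), (8, 1), (9, 2), (10, 3), (11, 2), (12, 2), (3, 17)], []⟩,
  ⟨529, 90, 630, 96, 236, false, true, false, [(0, 1), (3, 13), (11, 2), (3, 1), (12, 1), (3, 10)], []⟩,
  ⟨650, 90, 630, 96, 224, false, false, false, [(0, 1), (3, 27)], []⟩,
  ⟨735, 90, 630, 96, 216, false, false, false, [(0, 1), (3, 27)], []⟩,
  ⟨794, 90, 540, 208, 109, false, true, false, [(0, 1), (3, 17)], []⟩,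
  ⟨835, 90, 540, 208, 109, false, true, false, [(0, 1), (3, 17)], []⟩,
  ⟨876, 90, 0, 240, 132, true, true, false, [(0, 1), (3, 14)], []⟩,
  ⟨917, 90, 0, 240, 132, true, true, false, [(0, 1), (3, 14)], []⟩,
  ⟨976, 90, 0, 240, 132, true, true, false, [(0, 1), (3, 14)], []⟩,
  ⟨1035, 90, 0, 240, 132, true, true, false, [(0, 1), (3, 14)], []⟩,
  ⟨1094, 90, 0, 240, 132, true, true, false, [(0, 1), (3, 14)], []⟩,
  ⟨1153, 90, 0, 240, 132, true, true, false, [(0, 1), (3, 14)], []⟩,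
  ⟨1212, 90, 0, 240, 132, true, true, false, [(0, 2), (3, 13)], []⟩,
  ⟨1253, 90, 0, 240, 132, true, true, false, [(0, 2), (3, 13)], []⟩,
  ⟨1294, 90, 0, 240, 132, true, true, false, [(0, 2), (3, 13)], []⟩,
  ⟨1323, 90, 0, 240, 132, true, true, false, [(0, 2), (3, 13)], []⟩,
  ⟨1343, 90, 0, 208, 109, true, true, false, [(0, 2), (3, 16)], []⟩,
  ⟨1363, 90, 0, 208, 109, true, true, false, [(0, 2), (3, 16)], []⟩,
  ⟨1383, 90, 0, 208, 109, true, true, false, [(0, 2), (3, 16)], []⟩,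
  ⟨1403, 90, 0, 208, 109, true, true, false, [(0, 2), (3, 16)], []⟩,
  ⟨1423, 90, 0, 208, 109, true, true, false, [(0, 2), (3, 16)], []⟩,
  ⟨1443, 90, 0, 208, 109, true, true, false, [(0, 2), (3, 16)], []⟩,
  ⟨1463, 90, 0, 208, 109, true, true, false, [(0, 3), (3, 15)], []⟩,
  ⟨1483, 90, 0, 208, 109, true, true, false, [(0, 3), (3, 15)], []⟩,
  ⟨1503, 90, 0, 208, 109, true, true, false, [(0, 3), (3, 15)], []⟩,
  ⟨1523, 90, 0, 208, 109, true, true, false, [(0, 3), (3, 15)], []⟩,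
  ⟨1543, 90, 0, 208, 109, true, true, false, [(0, 4), (3, 14)], []⟩,
  ⟨1557, 90, 0, 208, 109, true, true, false, [(0, 4), (3, 14)], []⟩,
  ⟨1571, 90, 0, 208, 109, true, true, false, [(0, 5), (3, 13)], []⟩,
  ⟨1585, 90, 0, 208, 109, true, true, false, [(0, 6), (3, 12)], []⟩,
  ⟨1594, 90, 0, 208, 109, true, true, false, [(0, 8), (3, 10)], []⟩,
  ⟨1603, 90, 0, 208, 109, true, true, false, [(0, 9), (3, 9)], []⟩,
  ⟨1612, 90, 0, 208, 109, true, true, false, [(0, 13), (3, 5)], []⟩,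
  ⟨1621, 90, 0, 208, 109, true, true, false, [(0, 18)], []⟩,
  ⟨1642, 90, 0, 208, 109, true, true, false, [(0, 18)], []⟩,
  ⟨1687, 90, 0, 208, 109, true, true, false, [(0, 18)], []⟩,
  ⟨1751, 90, 0, 208, 109, true, true, false, [(0, 18)], []⟩,
  ⟨1880, 90, 0, 176, 88, true, true, false, [(0, 21)], []⟩,
  ⟨2135, 90, 0, 176, 88, true, true, false, [(0, 21)], []⟩,
  ⟨2841, 90, 0, 96, 44, true, true, false, [(0, 28)], []⟩,
  ⟨6598, 90, 0, 0, 0, true, false, false, [(0, 37)], []⟩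
  ] = true := by decide +kernel

def g67_24 : Gr := ⟨false, 403, 409, 1024, 1024, 67, 67, 8381, 8382, 0, 2048, 0, []⟩

theorem k67_24 : chk g67_24 T375 [
  ⟨355, 50, 700, 12, 324, false, false, false, [(0, 1), (3, 8), (19, 5), (8, 2), (9, 4), (10, 5), (11, 4), (12, 4), (3, 32)], []⟩,
  ⟨603, 50, 700, 88, 240, false, false, false, [(0, 1), (3, 14), (6, 1), (3, 7), (10, 2), (11, 4), (12, 4), (3, 20)], []⟩,
  ⟨724, 50, 650, 104, 216, false, false, false, [(0, 1), (3, 49)], []⟩,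
  ⟨783, 50, 550, 208, 109, false, true, false, [(0, 1), (3, 32)], []⟩,
  ⟨842, 50, 500, 208, 109, false, true, false, [(0, 1), (3, 32)], []⟩,
  ⟨883, 50, 0, 256, 145, true, true, false, [(0, 1), (3, 25)], []⟩,
  ⟨924, 50, 0, 240, 132, true, true, false, [(0, 1), (3, 27)], []⟩,
  ⟨983, 50, 0, 240, 132, true, true, false, [(0, 1), (3, 27)], []⟩,
  ⟨1042, 50, 0, 240, 132, true, true, false, [(0, 1), (3, 27)], []⟩,
  ⟨1101, 50, 0, 240, 132, true, true, false, [(0, 1), (3, 27)], []⟩,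
  ⟨1160, 50, 0, 240, 132, true, true, false, [(0, 1), (3, 27)], []⟩,
  ⟨1219, 50, 0, 240, 132, true, true, false, [(0, 2), (3, 26)], []⟩,
  ⟨1278, 50, 0, 240, 132, true, true, false, [(0, 2), (3, 26)], []⟩,
  ⟨1319, 50, 0, 224, 120, true, true, false, [(0, 2), (3, 29)], []⟩,
  ⟨1360, 50, 0, 224, 120, true, true, false, [(0, 2), (3, 29)], []⟩,
  ⟨1401, 50, 0, 224, 120, true, true, false, [(0, 2), (3, 29)], []⟩,
  ⟨1442, 50, 0, 224, 120, true, true, false, [(0, 2), (3, 29)], []⟩,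
  ⟨1471, 50, 0, 208, 109, true, true, false, [(0, 3), (3, 30)], []⟩,
  ⟨1500, 50, 0, 208, 109, true, true, false, [(0, 3), (3, 30)], []⟩,
  ⟨1529, 50, 0, 208, 109, true, true, false, [(0, 3), (3, 30)], []⟩,
  ⟨1558, 50, 0, 208, 109, true, true, false, [(0, 4), (3, 29)], []⟩,
  ⟨1578, 50, 0, 208, 109, true, true, false, [(0, 5), (3, 28)], []⟩,
  ⟨1598, 50, 0, 208, 109, true, true, false, [(0, 6), (3, 27)], []⟩,
  ⟨1618, 50, 0, 208, 109, true, true, false, [(0, 8), (3, 25)], []⟩,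
  ⟨1632, 50, 0, 208, 109, true, true, false, [(0, 16), (3, 17)], []⟩,
  ⟨1652, 50, 0, 208, 109, true, true, false, [(0, 33)], []⟩,
  ⟨1695, 50, 0, 208, 109, true, true, false, [(0, 33)], []⟩,
  ⟨1756, 50, 0, 208, 109, true, true, false, [(0, 33)], []⟩,
  ⟨1930, 50, 0, 192, 98, true, true, false, [(0, 36)], []⟩,
  ⟨2274, 50, 0, 160, 78, true, true, false, [(0, 41)], []⟩,
  ⟨3603, 50, 0, 80, 36, true, true, false, [(0, 54)], []⟩,
  ⟨6696, 50, 0, 0, 0, true, false, false, [(0, 67)], []⟩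
  ] = true := by decide +kernel

def g67_25 : Gr := ⟨false, 409, 413, 1024, 1024, 67, 67, 8381, 8382, 0, 2048, 0, []⟩

theorem k67_25 : chk g67_25 T400 [
  ⟨498, 120, 480, 224, 136, false, true, false, [(0, 1), (3, 3), (22, 2), (11, 2), (12, 2), (13, 2), (14, 1)], []⟩,
  ⟨668, 120, 720, 96, 232, false, false, false, [(0, 1), (3, 11), (14, 1), (3, 9)], []⟩,
  ⟨751, 120, 600, 120, 200, false, false, false, [(0, 1), (3, 19)], []⟩,
  ⟨809, 120, 480, 224, 120, false, true, false, [(0, 1), (3, 12)], []⟩,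
  ⟨850, 120, 480, 224, 120, false, true, false, [(0, 1), (3, 12)], []⟩,
  ⟨891, 120, 480, 224, 120, false, true, false, [(0, 1), (3, 12)], []⟩,
  ⟨932, 120, 0, 256, 145, true, true, false, [(0, 1), (3, 10)], []⟩,
  ⟨973, 120, 0, 256, 145, true, true, false, [(0, 1), (3, 10)], []⟩,
  ⟨1014, 120, 0, 240, 132, true, true, false, [(0, 1), (3, 11)], []⟩,
  ⟨1055, 120, 0, 240, 132, true, true, false, [(0, 1), (3, 11)], []⟩,
  ⟨1113, 120, 0, 240, 132, true, true, false, [(0, 1), (3, 11)], []⟩,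
  ⟨1171, 120, 0, 240, 132, true, true, false, [(0, 1), (3, 11)], []⟩,
  ⟨1229, 120, 0, 240, 132, true, true, false, [(0, 2), (3, 10)], []⟩,
  ⟨1287, 120, 0, 224, 120, true, true, false, [(0, 2), (3, 11)], []⟩,
  ⟨1345, 120, 0, 224, 120, true, true, false, [(0, 2), (3, 11)], []⟩,
  ⟨1403, 120, 0, 224, 120, true, true, false, [(0, 2), (3, 11)], []⟩,
  ⟨1461, 120, 0, 224, 120, true, true, false, [(0, 2), (3, 11)], []⟩,
  ⟨1501, 120, 0, 224, 120, true, true, false, [(0, 3), (3, 10)], []⟩,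
  ⟨1541, 120, 0, 224, 120, true, true, false, [(0, 3), (3, 10)], []⟩,
  ⟨1569, 120, 0, 208, 109, true, true, false, [(0, 3), (3, 11)], []⟩,
  ⟨1597, 120, 0, 208, 109, true, true, false, [(0, 4), (3, 10)], []⟩,
  ⟨1625, 120, 0, 208, 109, true, true, false, [(0, 5), (3, 9)], []⟩,
  ⟨1645, 120, 0, 208, 109, true, true, false, [(0, 7), (3, 7)], []⟩,
  ⟨1665, 120, 0, 208, 109, true, true, false, [(0, 12), (3, 2)], []⟩,
  ⟨1706, 120, 0, 208, 109, true, true, false, [(0, 14)], []⟩,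
  ⟨1790, 120, 0, 208, 109, true, true, false, [(0, 14)], []⟩,
  ⟨1908, 120, 0, 208, 109, true, true, false, [(0, 14)], []⟩,
  ⟨2143, 120, 0, 176, 88, true, true, false, [(0, 17)], []⟩,
  ⟨2792, 120, 0, 120, 56, true, true, false, [(0, 20)], []⟩,
  ⟨6296, 120, 0, 0, 0, true, false, false, [(0, 29)], []⟩,
  ⟨6762, 120, 0, 0, 0, true, false, false, [(0, 29)], []⟩
  ] = true := by decide +kernel

def g67_26 : Gr := ⟨false, 413, 419, 1024, 1024, 67, 67, 8381, 8382, 0, 2048, 0, []⟩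

theorem k67_26 : chk g67_26 T400 [
  ⟨498, 36, 540, 224, 136, false, true, false, [(0, 1), (3, 11), (22, 7), (10, 4), (11, 6), (12, 6), (13, 5), (14, 5)], []⟩,
  ⟨668, 36, 684, 104, 232, false, false, false, [(0, 1), (3, 21), (7, 1), (3, 11), (8, 1), (3, 4), (13, 1), (14, 6), (3, 26)], []⟩,
  ⟨787, 36, 648, 120, 200, false, false, false, [(0, 1), (3, 42), (14, 3), (3, 22)], []⟩,
  ⟨870, 36, 540, 208, 109, false, true, false, [(0, 1), (3, 44), (14, 1), (3, 2)], []⟩,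
  ⟨928, 36, 0, 240, 132, true, true, false, [(0, 1), (3, 40)], []⟩,
  ⟨986, 36, 0, 240, 132, true, true, false, [(0, 1), (3, 40)], []⟩,
  ⟨1069, 36, 0, 240, 132, true, true, false, [(0, 1), (3, 40)], []⟩,
  ⟨1152, 36, 0, 240, 132, true, true, false, [(0, 1), (3, 40)], []⟩,
  ⟨1235, 36, 0, 240, 132, true, true, false, [(0, 2), (3, 39)], []⟩,
  ⟨1317, 36, 0, 240, 132, true, true, false, [(0, 2), (3, 39)], []⟩,
  ⟨1374, 36, 0, 240, 132, true, true, false, [(0, 2), (3, 39)], []⟩,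
  ⟨1431, 36, 0, 224, 120, true, true, false, [(0, 2), (3, 43)], []⟩,
  ⟨1471, 36, 0, 224, 120, true, true, false, [(0, 2), (3, 43)], []⟩,
  ⟨1511, 36, 0, 224, 120, true, true, false, [(0, 3), (3, 42)], []⟩,
  ⟨1551, 36, 0, 208, 109, true, true, false, [(0, 3), (3, 45)], []⟩,
  ⟨1579, 36, 0, 208, 109, true, true, false, [(0, 3), (3, 45)], []⟩,
  ⟨1607, 36, 0, 208, 109, true, true, false, [(0, 4), (3, 44)], []⟩,
  ⟨1635, 36, 0, 208, 109, true, true, false, [(0, 5), (3, 43)], []⟩,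
  ⟨1654, 36, 0, 208, 109, true, true, false, [(0, 8), (3, 40)], []⟩,
  ⟨1673, 36, 0, 208, 109, true, true, false, [(0, 18), (3, 30)], []⟩,
  ⟨1701, 36, 0, 208, 109, true, true, false, [(0, 48)], []⟩,
  ⟨1759, 36, 0, 208, 109, true, true, false, [(0, 48)], []⟩,
  ⟨1876, 36, 0, 192, 98, true, true, false, [(0, 52)], []⟩,
  ⟨2108, 36, 0, 176, 88, true, true, false, [(0, 56)], []⟩,
  ⟨2750, 36, 0, 120, 56, true, true, false, [(0, 68)], []⟩,
  ⟨6214, 36, 0, 0, 0, true, false, false, [(0, 96)], []⟩,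
  ⟨6860, 36, 0, 0, 0, true, false, false, [(0, 96)], []⟩
  ] = true := by decide +kernel

def g67_27 : Gr := ⟨false, 419, 421, 1024, 1024, 67, 67, 8381, 8382, 0, 2048, 0, []⟩

theorem k67_27 : chk g67_27 T400 [
  ⟨498, 90, 540, 224, 144, false, true, false, [(0, 1), (3, 4), (22, 3), (10, 1), (11, 2), (12, 3), (13, 2), (14, 2)], []⟩,
  ⟨668, 90, 630, 104, 232, false, false, false, [(0, 1), (3, 15), (14, 2), (3, 11)], []⟩,
  ⟨787, 90, 630, 104, 224, false, false, false, [(0, 1), (3, 16), (14, 1), (3, 11)], []⟩,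
  ⟨870, 90, 540, 224, 120, false, true, false, [(0, 1), (3, 17)], []⟩,
  ⟨928, 90, 540, 224, 120, false, true, false, [(0, 1), (3, 17)], []⟩,
  ⟨969, 90, 0, 240, 132, true, true, false, [(0, 1), (3, 16)], []⟩,
  ⟨1027, 90, 0, 240, 132, true, true, false, [(0, 1), (3, 16)], []⟩,
  ⟨1085, 90, 0, 240, 132, true, true, false, [(0, 1), (3, 16)], []⟩,
  ⟨1167, 90, 0, 240, 132, true, true, false, [(0, 1), (3, 16)], []⟩,
  ⟨1249, 90, 0, 240, 132, true, true, false, [(0, 2), (3, 15)], []⟩,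
  ⟨1331, 90, 0, 224, 120, true, true, false, [(0, 2), (3, 16)], []⟩,
  ⟨1413, 90, 0, 224, 120, true, true, false, [(0, 2), (3, 16)], []⟩,
  ⟨1495, 90, 0, 224, 120, true, true, false, [(0, 2), (3, 16)], []⟩,
  ⟨1552, 90, 0, 224, 120, true, true, false, [(0, 3), (3, 15)], []⟩,
  ⟨1609, 90, 0, 224, 120, true, true, false, [(0, 3), (3, 15)], []⟩,
  ⟨1649, 90, 0, 224, 120, true, true, false, [(0, 4), (3, 14)], []⟩,
  ⟨1677, 90, 0, 224, 120, true, true, false, [(0, 6), (3, 12)], []⟩,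
  ⟨1696, 90, 0, 224, 120, true, true, false, [(0, 11), (3, 7)], []⟩,
  ⟨1715, 90, 0, 224, 120, true, true, false, [(0, 18)], []⟩,
  ⟨1743, 90, 0, 208, 109, true, true, false, [(0, 20)], []⟩,
  ⟨1826, 90, 0, 192, 98, true, true, false, [(0, 21)], []⟩,
  ⟨2059, 90, 0, 192, 98, true, true, false, [(0, 21)], []⟩,
  ⟨2518, 90, 0, 144, 69, true, true, false, [(0, 26)], []⟩,
  ⟨5997, 90, 0, 4, 2, true, true, true, [(0, 37)], [(0, 1)]⟩,
  ⟨6893, 90, 0, 0, 0, true, false, false, [(0, 39)], []⟩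
  ] = true := by decide +kernel

def g67_28 : Gr := ⟨false, 421, 425, 1024, 1024, 67, 67, 8381, 8382, 0, 2048, 0, []⟩

theorem k67_28 : chk g67_28 T400 [
  ⟨498, 120, 480, 240, 132, false, true, false, [(0, 1), (3, 3), (22, 2), (11, 2), (12, 2), (13, 2), (14, 1)], []⟩,
  ⟨668, 120, 720, 88, 248, false, false, false, [(0, 1), (3, 11), (14, 1), (3, 10)], []⟩,
  ⟨787, 120, 720, 104, 224, false, false, false, [(0, 1), (3, 21)], []⟩,
  ⟨845, 120, 600, 104, 216, false, false, false, [(0, 1), (3, 21)], []⟩,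
  ⟨903, 120, 480, 224, 120, false, true, false, [(0, 1), (3, 13)], []⟩,
  ⟨944, 120, 480, 224, 120, false, true, false, [(0, 1), (3, 13)], []⟩,
  ⟨985, 120, 0, 256, 145, true, true, false, [(0, 1), (3, 11)], []⟩,
  ⟨1026, 120, 0, 256, 145, true, true, false, [(0, 1), (3, 11)], []⟩,
  ⟨1067, 120, 0, 256, 145, true, true, false, [(0, 1), (3, 11)], []⟩,
  ⟨1108, 120, 0, 240, 132, true, true, false, [(0, 1), (3, 12)], []⟩,
  ⟨1149, 120, 0, 240, 132, true, true, false, [(0, 1), (3, 12)], []⟩,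
  ⟨1190, 120, 0, 240, 132, true, true, false, [(0, 1), (3, 12)], []⟩,
  ⟨1248, 120, 0, 240, 132, true, true, false, [(0, 2), (3, 11)], []⟩,
  ⟨1306, 120, 0, 240, 132, true, true, false, [(0, 2), (3, 11)], []⟩,
  ⟨1346, 120, 0, 240, 132, true, true, false, [(0, 2), (3, 11)], []⟩,
  ⟨1386, 120, 0, 224, 120, true, true, false, [(0, 2), (3, 12)], []⟩,
  ⟨1426, 120, 0, 224, 120, true, true, false, [(0, 2), (3, 12)], []⟩,
  ⟨1466, 120, 0, 224, 120, true, true, false, [(0, 2), (3, 12)], []⟩,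
  ⟨1506, 120, 0, 224, 120, true, true, false, [(0, 2), (3, 12)], []⟩,
  ⟨1546, 120, 0, 224, 120, true, true, false, [(0, 3), (3, 11)], []⟩,
  ⟨1574, 120, 0, 224, 120, true, true, false, [(0, 3), (3, 11)], []⟩,
  ⟨1602, 120, 0, 224, 120, true, true, false, [(0, 3), (3, 11)], []⟩,
  ⟨1622, 120, 0, 224, 120, true, true, false, [(0, 4), (3, 10)], []⟩,
  ⟨1636, 120, 0, 224, 120, true, true, false, [(0, 4), (3, 10)], []⟩,
  ⟨1645, 120, 0, 208, 109, true, true, false, [(0, 5), (3, 10)], []⟩,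
  ⟨1654, 120, 0, 208, 109, true, true, false, [(0, 5), (3, 10)], []⟩,
  ⟨1663, 120, 0, 208, 109, true, true, false, [(0, 5), (3, 10)], []⟩,
  ⟨1672, 120, 0, 208, 109, true, true, false, [(0, 6), (3, 9)], []⟩,
  ⟨1681, 120, 0, 208, 109, true, true, false, [(0, 7), (3, 8)], []⟩,
  ⟨1690, 120, 0, 208, 109, true, true, false, [(0, 8), (3, 7)], []⟩,
  ⟨1699, 120, 0, 208, 109, true, true, false, [(0, 10), (3, 5)], []⟩,
  ⟨1708, 120, 0, 208, 109, true, true, false, [(0, 13), (3, 2)], []⟩,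
  ⟨1722, 120, 0, 208, 109, true, true, false, [(0, 15)], []⟩,
  ⟨1766, 120, 0, 208, 109, true, true, false, [(0, 15)], []⟩,
  ⟨1856, 120, 0, 208, 109, true, true, false, [(0, 15)], []⟩,
  ⟨2108, 120, 0, 176, 88, true, true, false, [(0, 17)], []⟩,
  ⟨2604, 120, 0, 120, 56, true, true, false, [(0, 21)], []⟩,
  ⟨6358, 120, 0, 0, 0, true, false, false, [(0, 29)], []⟩,
  ⟨6958, 120, 0, 0, 0, true, false, false, [(0, 29)], []⟩
  ] = true := by decide +kernel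

def g67_29 : Gr := ⟨false, 425, 429, 1024, 1024, 67, 67, 8381, 8382, 0, 2048, 0, []⟩

theorem k67_29 : chk g67_29 T400 [
  ⟨498, 120, 480, 240, 140, false, true, false, [(0, 1), (3, 3), (22, 2), (11, 2), (12, 2), (13, 2), (14, 1)], []⟩,
  ⟨668, 120, 720, 96, 248, false, false, false, [(0, 1), (3, 11), (14, 1), (3, 10)], []⟩,
  ⟨787, 120, 720, 96, 232, false, false, false, [(0, 1), (3, 22)], []⟩,
  ⟨870, 120, 480, 224, 120, false, true, false, [(0, 1), (3, 13)], []⟩,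
  ⟨928, 120, 480, 224, 120, false, true, false, [(0, 1), (3, 13)], []⟩,
  ⟨969, 120, 0, 256, 145, true, true, false, [(0, 1), (3, 11)], []⟩,
  ⟨1027, 120, 0, 256, 145, true, true, false, [(0, 1), (3, 11)], []⟩,
  ⟨1085, 120, 0, 256, 145, true, true, false, [(0, 1), (3, 11)], []⟩,
  ⟨1143, 120, 0, 240, 132, true, true, false, [(0, 1), (3, 12)], []⟩,
  ⟨1201, 120, 0, 240, 132, true, true, false, [(0, 1), (3, 12)], []⟩,
  ⟨1259, 120, 0, 240, 132, true, true, false, [(0, 2), (3, 11)], []⟩,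
  ⟨1317, 120, 0, 240, 132, true, true, false, [(0, 2), (3, 11)], []⟩,
  ⟨1375, 120, 0, 240, 132, true, true, false, [(0, 2), (3, 11)], []⟩,
  ⟨1433, 120, 0, 224, 120, true, true, false, [(0, 2), (3, 12)], []⟩,
  ⟨1491, 120, 0, 224, 120, true, true, false, [(0, 2), (3, 12)], []⟩,
  ⟨1549, 120, 0, 224, 120, true, true, false, [(0, 2), (3, 12)], []⟩,
  ⟨1607, 120, 0, 224, 120, true, true, false, [(0, 3), (3, 11)], []⟩,
  ⟨1647, 120, 0, 224, 120, true, true, false, [(0, 4), (3, 10)], []⟩,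
  ⟨1675, 120, 0, 224, 120, true, true, false, [(0, 5), (3, 9)], []⟩,
  ⟨1695, 120, 0, 224, 120, true, true, false, [(0, 6), (3, 8)], []⟩,
  ⟨1709, 120, 0, 224, 120, true, true, false, [(0, 8), (3, 6)], []⟩,
  ⟨1718, 120, 0, 224, 120, true, true, false, [(0, 11), (3, 3)], []⟩,
  ⟨1727, 120, 0, 224, 120, true, true, false, [(0, 14)], []⟩,
  ⟨1736, 120, 0, 224, 120, true, true, false, [(0, 14)], []⟩,
  ⟨1750, 120, 0, 224, 120, true, true, false, [(0, 14)], []⟩,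
  ⟨1764, 120, 0, 224, 120, true, true, false, [(0, 14)], []⟩,
  ⟨1778, 120, 0, 224, 120, true, true, false, [(0, 14)], []⟩,
  ⟨1792, 120, 0, 224, 120, true, true, false, [(0, 14)], []⟩,
  ⟨1813, 120, 0, 208, 109, true, true, false, [(0, 16)], []⟩,
  ⟨1857, 120, 0, 208, 109, true, true, false, [(0, 16)], []⟩,
  ⟨1984, 120, 0, 192, 98, true, true, false, [(0, 17)], []⟩,
  ⟨2337, 120, 0, 160, 78, true, true, false, [(0, 19)], []⟩,
  ⟨3312, 120, 0, 80, 36, true, true, false, [(0, 24)], []⟩,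
  ⟨7024, 120, 0, 0, 0, true, false, false, [(0, 30)], []⟩
  ] = true := by decide +kernel

def g67_30 : Gr := ⟨false, 429, 432, 1024, 1024, 67, 67, 8381, 8382, 0, 2048, 0, []⟩

theorem k67_30 : chk g67_30 T400 [
  ⟨498, 90, 540, 240, 140, false, true, false, [(0, 1), (3, 4), (22, 3), (10, 1), (11, 2), (12, 3), (13, 2), (14, 2)], []⟩,
  ⟨668, 90, 630, 104, 240, false, false, false, [(0, 1), (3, 15), (14, 2), (3, 12)], []⟩,
  ⟨787, 90, 630, 104, 232, false, false, false, [(0, 1), (3, 29)], []⟩,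
  ⟨870, 90, 630, 104, 224, false, false, false, [(0, 1), (3, 29)], []⟩,
  ⟨953, 90, 540, 224, 120, false, true, false, [(0, 1), (3, 18)], []⟩,
  ⟨1011, 90, 540, 224, 120, false, true, false, [(0, 1), (3, 18)], []⟩,
  ⟨1052, 90, 0, 240, 132, true, true, false, [(0, 1), (3, 17)], []⟩,
  ⟨1110, 90, 0, 240, 132, true, true, false, [(0, 1), (3, 17)], []⟩,
  ⟨1168, 90, 0, 240, 132, true, true, false, [(0, 1), (3, 17)], []⟩,
  ⟨1226, 90, 0, 240, 132, true, true, false, [(0, 1), (3, 17)], []⟩,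
  ⟨1308, 90, 0, 240, 132, true, true, false, [(0, 2), (3, 16)], []⟩,
  ⟨1390, 90, 0, 224, 120, true, true, false, [(0, 2), (3, 17)], []⟩,
  ⟨1472, 90, 0, 224, 120, true, true, false, [(0, 2), (3, 17)], []⟩,
  ⟨1554, 90, 0, 224, 120, true, true, false, [(0, 2), (3, 17)], []⟩,
  ⟨1611, 90, 0, 224, 120, true, true, false, [(0, 3), (3, 16)], []⟩,
  ⟨1668, 90, 0, 224, 120, true, true, false, [(0, 4), (3, 15)], []⟩,
  ⟨1708, 90, 0, 224, 120, true, true, false, [(0, 5), (3, 14)], []⟩,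
  ⟨1736, 90, 0, 224, 120, true, true, false, [(0, 10), (3, 9)], []⟩,
  ⟨1755, 90, 0, 224, 120, true, true, false, [(0, 19)], []⟩,
  ⟨1783, 90, 0, 224, 120, true, true, false, [(0, 19)], []⟩,
  ⟨1841, 90, 0, 208, 109, true, true, false, [(0, 21)], []⟩,
  ⟨2007, 90, 0, 192, 98, true, true, false, [(0, 22)], []⟩,
  ⟨2466, 90, 0, 160, 78, true, true, false, [(0, 25)], []⟩,
  ⟨4240, 90, 0, 48, 21, true, true, false, [(0, 35)], []⟩,
  ⟨7073, 90, 0, 0, 0, true, false, false, [(0, 40)], []⟩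
  ] = true := by decide +kernel

def g67_31 : Gr := ⟨false, 432, 436, 1024, 1024, 67, 67, 8381, 8382, 0, 2048, 0, []⟩

theorem k67_31 : chk g67_31 T400 [
  ⟨498, 90, 540, 240, 140, false, true, false, [(0, 1), (3, 4), (22, 3), (10, 1), (11, 2), (12, 3), (13, 2), (14, 2)], []⟩,
  ⟨738, 90, 720, 96, 244, false, true, false, [(0, 1), (3, 7), (7, 1), (3, 4), (8, 1), (3, 1), (13, 1), (14, 2), (3, 13)], []⟩,
  ⟨855, 90, 630, 96, 232, false, false, false, [(0, 1), (3, 30)], []⟩,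
  ⟨937, 90, 540, 208, 125, false, true, false, [(0, 1), (3, 20)], []⟩,
  ⟨994, 90, 0, 256, 145, true, true, false, [(0, 1), (3, 16)], []⟩,
  ⟨1051, 90, 0, 256, 145, true, true, false, [(0, 1), (3, 16)], []⟩,
  ⟨1108, 90, 0, 240, 132, true, true, false, [(0, 1), (3, 17)], []⟩,
  ⟨1189, 90, 0, 240, 132, true, true, false, [(0, 1), (3, 17)], []⟩,
  ⟨1270, 90, 0, 240, 132, true, true, false, [(0, 2), (3, 16)], []⟩,
  ⟨1351, 90, 0, 240, 132, true, true, false, [(0, 2), (3, 16)], []⟩,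
  ⟨1432, 90, 0, 240, 132, true, true, false, [(0, 2), (3, 16)], []⟩,
  ⟨1489, 90, 0, 240, 132, true, true, false, [(0, 2), (3, 16)], []⟩,
  ⟨1529, 90, 0, 240, 132, true, true, false, [(0, 2), (3, 16)], []⟩,
  ⟨1557, 90, 0, 240, 132, true, true, false, [(0, 3), (3, 15)], []⟩,
  ⟨1585, 90, 0, 224, 120, true, true, false, [(0, 3), (3, 17)], []⟩,
  ⟨1604, 90, 0, 208, 109, true, true, false, [(0, 3), (3, 18)], []⟩,
  ⟨1623, 90, 0, 208, 109, true, true, false, [(0, 3), (3, 18)], []⟩,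
  ⟨1642, 90, 0, 208, 109, true, true, false, [(0, 3), (3, 18)], []⟩,
  ⟨1661, 90, 0, 208, 109, true, true, false, [(0, 4), (3, 17)], []⟩,
  ⟨1680, 90, 0, 208, 109, true, true, false, [(0, 4), (3, 17)], []⟩,
  ⟨1699, 90, 0, 208, 109, true, true, false, [(0, 5), (3, 16)], []⟩,
  ⟨1718, 90, 0, 208, 109, true, true, false, [(0, 6), (3, 15)], []⟩,
  ⟨1731, 90, 0, 208, 109, true, true, false, [(0, 8), (3, 13)], []⟩,
  ⟨1744, 90, 0, 208, 109, true, true, false, [(0, 11), (3, 10)], []⟩,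
  ⟨1757, 90, 0, 208, 109, true, true, false, [(0, 17), (3, 4)], []⟩,
  ⟨1786, 90, 0, 208, 109, true, true, false, [(0, 21)], []⟩,
  ⟨1845, 90, 0, 208, 109, true, true, false, [(0, 21)], []⟩,
  ⟨1964, 90, 0, 208, 109, true, true, false, [(0, 21)], []⟩,
  ⟨2297, 90, 0, 176, 88, true, true, false, [(0, 24)], []⟩,
  ⟨3215, 90, 0, 96, 44, true, true, false, [(0, 31)], []⟩,
  ⟨6749, 90, 0, 0, 0, true, false, false, [(0, 40)], []⟩,
  ⟨7138, 90, 0, 0, 0, true, false, false, [(0, 40)], []⟩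
  ] = true := by decide +kernel

def g67_32 : Gr := ⟨false, 435, 438, 1024, 1024, 67, 67, 8381, 8382, 0, 2048, 0, []⟩

theorem k67_32 : chk g67_32 T425 [
  ⟨498, 90, 540, 224, 160, false, true, false, [(0, 1), (3, 4), (23, 3), (10, 1), (11, 2), (12, 3), (13, 2), (14, 2), (15, 2)], []⟩,
  ⟨742, 90, 720, 112, 232, false, false, false, [(0, 1), (3, 7), (7, 1), (3, 3), (8, 2), (3, 1), (13, 1), (14, 2), (15, 2), (3, 10)], []⟩,
  ⟨861, 90, 630, 120, 216, false, false, false, [(0, 1), (3, 28)], []⟩,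
  ⟨944, 90, 540, 208, 125, false, true, false, [(0, 1), (3, 20)], []⟩,
  ⟨1002, 90, 0, 256, 145, true, true, false, [(0, 1), (3, 16)], []⟩,
  ⟨1085, 90, 0, 256, 145, true, true, false, [(0, 1), (3, 16)], []⟩,
  ⟨1168, 90, 0, 256, 145, true, true, false, [(0, 1), (3, 16)], []⟩,
  ⟨1251, 90, 0, 256, 145, true, true, false, [(0, 1), (3, 16)], []⟩,
  ⟨1309, 90, 0, 256, 145, true, true, false, [(0, 2), (3, 15)], []⟩,
  ⟨1349, 90, 0, 224, 120, true, true, false, [(0, 2), (3, 18)], []⟩,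
  ⟨1406, 90, 0, 224, 120, true, true, false, [(0, 2), (3, 18)], []⟩,
  ⟨1463, 90, 0, 224, 120, true, true, false, [(0, 2), (3, 18)], []⟩,
  ⟨1520, 90, 0, 224, 120, true, true, false, [(0, 2), (3, 18)], []⟩,
  ⟨1577, 90, 0, 224, 120, true, true, false, [(0, 2), (3, 18)], []⟩,
  ⟨1617, 90, 0, 224, 120, true, true, false, [(0, 3), (3, 17)], []⟩,
  ⟨1657, 90, 0, 208, 109, true, true, false, [(0, 3), (3, 18)], []⟩,
  ⟨1697, 90, 0, 208, 109, true, true, false, [(0, 4), (3, 17)], []⟩,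
  ⟨1737, 90, 0, 208, 109, true, true, false, [(0, 6), (3, 15)], []⟩,
  ⟨1765, 90, 0, 208, 109, true, true, false, [(0, 11), (3, 10)], []⟩,
  ⟨1823, 90, 0, 208, 109, true, true, false, [(0, 21)], []⟩,
  ⟨1939, 90, 0, 208, 109, true, true, false, [(0, 21)], []⟩,
  ⟨2262, 90, 0, 176, 88, true, true, false, [(0, 24)], []⟩,
  ⟨3153, 90, 0, 112, 52, true, true, false, [(0, 30)], []⟩,
  ⟨6585, 90, 0, 0, 0, true, false, false, [(0, 40)], []⟩,
  ⟨7171, 90, 0, 0, 0, true, false, false, [(0, 40)], []⟩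
  ] = true := by decide +kernel

def g67_33 : Gr := ⟨false, 438, 443, 1024, 1024, 67, 67, 8381, 8382, 0, 2048, 0, []⟩

theorem k67_33 : chk g67_33 T425 [
  ⟨498, 120, 600, 224, 160, false, true, false, [(0, 1), (3, 3), (23, 2), (11, 2), (12, 2), (13, 2), (14, 1), (15, 2)], []⟩,
  ⟨738, 120, 720, 96, 248, false, false, false, [(0, 1), (3, 8), (8, 1), (3, 1), (13, 1), (14, 1), (15, 2), (3, 9)], []⟩,
  ⟨855, 120, 720, 112, 224, false, false, false, [(0, 1), (3, 22)], []⟩,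
  ⟨937, 120, 480, 224, 120, false, true, false, [(0, 1), (3, 14)], []⟩,
  ⟨994, 120, 480, 224, 120, false, true, false, [(0, 1), (3, 14)], []⟩,
  ⟨1051, 120, 0, 256, 145, true, true, false, [(0, 1), (3, 12)], []⟩,
  ⟨1108, 120, 0, 256, 145, true, true, false, [(0, 1), (3, 12)], []⟩,
  ⟨1165, 120, 0, 256, 145, true, true, false, [(0, 1), (3, 12)], []⟩,
  ⟨1222, 120, 0, 240, 132, true, true, false, [(0, 1), (3, 13)], []⟩,
  ⟨1279, 120, 0, 240, 132, true, true, false, [(0, 2), (3, 12)], []⟩,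
  ⟨1336, 120, 0, 240, 132, true, true, false, [(0, 2), (3, 12)], []⟩,
  ⟨1393, 120, 0, 240, 132, true, true, false, [(0, 2), (3, 12)], []⟩,
  ⟨1450, 120, 0, 240, 132, true, true, false, [(0, 2), (3, 12)], []⟩,
  ⟨1507, 120, 0, 224, 120, true, true, false, [(0, 2), (3, 13)], []⟩,
  ⟨1564, 120, 0, 224, 120, true, true, false, [(0, 2), (3, 13)], []⟩,
  ⟨1621, 120, 0, 224, 120, true, true, false, [(0, 3), (3, 12)], []⟩,
  ⟨1661, 120, 0, 224, 120, true, true, false, [(0, 3), (3, 12)], []⟩,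
  ⟨1701, 120, 0, 224, 120, true, true, false, [(0, 4), (3, 11)], []⟩,
  ⟨1729, 120, 0, 224, 120, true, true, false, [(0, 5), (3, 10)], []⟩,
  ⟨1748, 120, 0, 224, 120, true, true, false, [(0, 7), (3, 8)], []⟩,
  ⟨1761, 120, 0, 224, 120, true, true, false, [(0, 9), (3, 6)], []⟩,
  ⟨1774, 120, 0, 224, 120, true, true, false, [(0, 12), (3, 3)], []⟩,
  ⟨1787, 120, 0, 224, 120, true, true, false, [(0, 15)], []⟩,
  ⟨1807, 120, 0, 224, 120, true, true, false, [(0, 15)], []⟩,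
  ⟨1836, 120, 0, 224, 120, true, true, false, [(0, 15)], []⟩,
  ⟨1865, 120, 0, 224, 120, true, true, false, [(0, 15)], []⟩,
  ⟨1907, 120, 0, 208, 109, true, true, false, [(0, 17)], []⟩,
  ⟨1992, 120, 0, 192, 98, true, true, false, [(0, 18)], []⟩,
  ⟨2230, 120, 0, 176, 88, true, true, false, [(0, 19)], []⟩,
  ⟨2889, 120, 0, 128, 60, true, true, false, [(0, 22)], []⟩,
  ⟨6447, 120, 0, 0, 0, true, false, false, [(0, 31)], []⟩,
  ⟨7253, 120, 0, 0, 0, true, false, false, [(0, 31)], []⟩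
  ] = true := by decide +kernel

def g67_34 : Gr := ⟨false, 443, 449, 1024, 1024, 67, 67, 8381, 8382, 0, 2048, 0, []⟩

theorem k67_34 : chk g67_34 T425 [
  ⟨498, 90, 540, 256, 145, false, true, false, [(0, 1), (3, 4), (23, 3), (10, 1), (11, 2), (12, 3), (13, 2), (14, 2)], []⟩,
  ⟨742, 90, 720, 112, 240, false, false, false, [(0, 1), (3, 7), (7, 1), (3, 3), (8, 2), (3, 1), (13, 1), (14, 2), (15, 2), (3, 11)], []⟩,
  ⟨861, 90, 630, 120, 224, false, false, false, [(0, 1), (3, 29)], []⟩,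
  ⟨944, 90, 630, 120, 208, false, false, false, [(0, 1), (3, 29)], []⟩,
  ⟨1002, 90, 540, 208, 125, false, true, false, [(0, 1), (3, 21)], []⟩,
  ⟨1060, 90, 0, 256, 145, true, true, false, [(0, 1), (3, 17)], []⟩,
  ⟨1118, 90, 0, 256, 145, true, true, false, [(0, 1), (3, 17)], []⟩,
  ⟨1176, 90, 0, 256, 145, true, true, false, [(0, 1), (3, 17)], []⟩,
  ⟨1234, 90, 0, 256, 145, true, true, false, [(0, 1), (3, 17)], []⟩,
  ⟨1292, 90, 0, 256, 145, true, true, false, [(0, 2), (3, 16)], []⟩,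
  ⟨1350, 90, 0, 256, 145, true, true, false, [(0, 2), (3, 16)], []⟩,
  ⟨1391, 90, 0, 256, 145, true, true, false, [(0, 2), (3, 16)], []⟩,
  ⟨1419, 90, 0, 256, 145, true, true, false, [(0, 2), (3, 16)], []⟩,
  ⟨1447, 90, 0, 224, 120, true, true, false, [(0, 2), (3, 19)], []⟩,
  ⟨1475, 90, 0, 224, 120, true, true, false, [(0, 2), (3, 19)], []⟩,
  ⟨1503, 90, 0, 224, 120, true, true, false, [(0, 2), (3, 19)], []⟩,
  ⟨1531, 90, 0, 224, 120, true, true, false, [(0, 2), (3, 19)], []⟩,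
  ⟨1559, 90, 0, 224, 120, true, true, false, [(0, 2), (3, 19)], []⟩,
  ⟨1587, 90, 0, 224, 120, true, true, false, [(0, 3), (3, 18)], []⟩,
  ⟨1615, 90, 0, 224, 120, true, true, false, [(0, 3), (3, 18)], []⟩,
  ⟨1643, 90, 0, 224, 120, true, true, false, [(0, 3), (3, 18)], []⟩,
  ⟨1663, 90, 0, 224, 120, true, true, false, [(0, 3), (3, 18)], []⟩,
  ⟨1683, 90, 0, 208, 109, true, true, false, [(0, 4), (3, 18)], []⟩,
  ⟨1703, 90, 0, 208, 109, true, true, false, [(0, 4), (3, 18)], []⟩,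
  ⟨1723, 90, 0, 208, 109, true, true, false, [(0, 4), (3, 18)], []⟩,
  ⟨1737, 90, 0, 208, 109, true, true, false, [(0, 5), (3, 17)], []⟩,
  ⟨1751, 90, 0, 208, 109, true, true, false, [(0, 6), (3, 16)], []⟩,
  ⟨1765, 90, 0, 208, 109, true, true, false, [(0, 7), (3, 15)], []⟩,
  ⟨1779, 90, 0, 208, 109, true, true, false, [(0, 9), (3, 13)], []⟩,
  ⟨1788, 90, 0, 208, 109, true, true, false, [(0, 12), (3, 10)], []⟩,
  ⟨1797, 90, 0, 208, 109, true, true, false, [(0, 16), (3, 6)], []⟩,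
  ⟨1811, 90, 0, 208, 109, true, true, false, [(0, 22)], []⟩,
  ⟨1855, 90, 0, 208, 109, true, true, false, [(0, 22)], []⟩,
  ⟨1945, 90, 0, 208, 109, true, true, false, [(0, 22)], []⟩,
  ⟨2124, 90, 0, 176, 88, true, true, false, [(0, 25)], []⟩,
  ⟨2621, 90, 0, 144, 69, true, true, false, [(0, 28)], []⟩,
  ⟨6384, 90, 0, 0, 0, true, false, true, [(0, 39)], [(0, 2)]⟩,
  ⟨7351, 90, 0, 0, 0, true, false, false, [(0, 41)], []⟩
  ] = true := by decide +kernel

def g67_35 : Gr := ⟨false, 449, 454, 1024, 1024, 67, 67, 8381, 8382, 0, 2048, 0, []⟩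

theorem k67_35 : chk g67_35 T425 [
  ⟨498, 90, 540, 240, 156, false, true, false, [(0, 1), (3, 4), (23, 3), (10, 1), (11, 2), (12, 3), (13, 2), (14, 2), (15, 2)], []⟩,
  ⟨742, 90, 720, 104, 248, false, false, false, [(0, 1), (3, 7), (7, 1), (3, 4), (8, 1), (3, 1), (13, 1), (14, 2), (15, 2), (3, 12)], []⟩,
  ⟨910, 90, 720, 104, 232, false, false, false, [(0, 1), (3, 31)], []⟩,
  ⟨992, 90, 540, 224, 120, false, true, false, [(0, 1), (3, 20)], []⟩,
  ⟨1049, 90, 540, 224, 120, false, true, false, [(0, 1), (3, 20)], []⟩,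
  ⟨1106, 90, 540, 224, 120, false, true, false, [(0, 1), (3, 20)], []⟩,
  ⟨1146, 90, 0, 240, 132, true, true, false, [(0, 1), (3, 19)], []⟩,
  ⟨1203, 90, 0, 240, 132, true, true, false, [(0, 1), (3, 19)], []⟩,
  ⟨1260, 90, 0, 240, 132, true, true, false, [(0, 1), (3, 19)], []⟩,
  ⟨1317, 90, 0, 240, 132, true, true, false, [(0, 2), (3, 18)], []⟩,
  ⟨1374, 90, 0, 240, 132, true, true, false, [(0, 2), (3, 18)], []⟩,
  ⟨1455, 90, 0, 240, 132, true, true, false, [(0, 2), (3, 18)], []⟩,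
  ⟨1536, 90, 0, 224, 120, true, true, false, [(0, 2), (3, 19)], []⟩,
  ⟨1617, 90, 0, 224, 120, true, true, false, [(0, 2), (3, 19)], []⟩,
  ⟨1674, 90, 0, 224, 120, true, true, false, [(0, 3), (3, 18)], []⟩,
  ⟨1731, 90, 0, 224, 120, true, true, false, [(0, 4), (3, 17)], []⟩,
  ⟨1771, 90, 0, 224, 120, true, true, false, [(0, 5), (3, 16)], []⟩,
  ⟨1799, 90, 0, 224, 120, true, true, false, [(0, 7), (3, 14)], []⟩,
  ⟨1827, 90, 0, 224, 120, true, true, false, [(0, 14), (3, 7)], []⟩,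
  ⟨1867, 90, 0, 224, 120, true, true, false, [(0, 21)], []⟩,
  ⟨1924, 90, 0, 208, 109, true, true, false, [(0, 23)], []⟩,
  ⟨2085, 90, 0, 192, 98, true, true, false, [(0, 24)], []⟩,
  ⟨2532, 90, 0, 160, 78, true, true, false, [(0, 27)], []⟩,
  ⟨4259, 90, 0, 48, 21, true, true, false, [(0, 37)], []⟩,
  ⟨7433, 90, 0, 0, 0, true, false, false, [(0, 42)], []⟩
  ] = true := by decide +kernel

end Pool.Agent.Lib.MP_af3a4a_an.P1.CHK.H81.L
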