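import Pool.Agent.Lib.MP_af3a4a_an.P1.CHK.H81.LT
/-!
# Data, `67 ≤ N ≤ 67`, `454 ≤ 1024 R ≤ 820` (helper81)
-/
set_option autoImplicit false

namespace Pool.Agent.Lib.MP_af3a4a_an.P1.CHK.H81.L

open Pool.Agent.Lib.MP_af3a4a_an.P1.CHK.H58.G (Gr En)

def g67_36 : Gr := ⟨false, 454, 461, 1024, 1024, 67, 67, 8381, 8382, 0, 2048, 0, []⟩

theorem k67_36 : chk g67_36 T425 [
  ⟨498, 70, 560, 240, 164, false, true, false, [(0, 1), (3, 5), (23, 4), (10, 1), (11, 3), (12, 4), (13, 2), (14, 3), (15, 3)], []⟩,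
  ⟨742, 70, 700, 120, 240, false, false, false, [(0, 1), (3, 16), (8, 1), (3, 2), (14, 3), (15, 3), (3, 14)], []⟩,
  ⟨912, 70, 700, 120, 224, false, false, false, [(0, 1), (3, 24), (15, 1), (3, 14)], []⟩,
  ⟨995, 70, 630, 128, 208, false, false, false, [(0, 1), (3, 38)], []⟩,
  ⟨1078, 70, 0, 256, 145, true, true, false, [(0, 1), (3, 23)], []⟩,
  ⟨1161, 70, 0, 256, 145, true, true, false, [(0, 1), (3, 23)], []⟩,
  ⟨1244, 70, 0, 256, 145, true, true, false, [(0, 1), (3, 23)], []⟩,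
  ⟨1327, 70, 0, 256, 145, true, true, false, [(0, 2), (3, 22)], []⟩,
  ⟨1410, 70, 0, 240, 132, true, true, false, [(0, 2), (3, 24)], []⟩,
  ⟨1493, 70, 0, 240, 132, true, true, false, [(0, 2), (3, 24)], []⟩,
  ⟨1576, 70, 0, 240, 132, true, true, false, [(0, 2), (3, 24)], []⟩,
  ⟨1634, 70, 0, 240, 132, true, true, false, [(0, 3), (3, 23)], []⟩,
  ⟨1692, 70, 0, 224, 120, true, true, false, [(0, 3), (3, 25)], []⟩,
  ⟨1733, 70, 0, 224, 120, true, true, false, [(0, 4), (3, 24)], []⟩,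
  ⟨1774, 70, 0, 224, 120, true, true, false, [(0, 4), (3, 24)], []⟩,
  ⟨1802, 70, 0, 224, 120, true, true, false, [(0, 6), (3, 22)], []⟩,
  ⟨1822, 70, 0, 224, 120, true, true, false, [(0, 9), (3, 19)], []⟩,
  ⟨1836, 70, 0, 224, 120, true, true, false, [(0, 15), (3, 13)], []⟩,
  ⟨1850, 70, 0, 224, 120, true, true, false, [(0, 25), (3, 3)], []⟩,
  ⟨1870, 70, 0, 224, 120, true, true, false, [(0, 28)], []⟩,
  ⟨1912, 70, 0, 208, 109, true, true, false, [(0, 30)], []⟩,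
  ⟨1998, 70, 0, 208, 109, true, true, false, [(0, 30)], []⟩,
  ⟨2240, 70, 0, 192, 98, true, true, false, [(0, 32)], []⟩,
  ⟨2908, 70, 0, 128, 60, true, true, false, [(0, 39)], []⟩,
  ⟨6515, 70, 0, 0, 0, true, false, false, [(0, 54)], []⟩,
  ⟨7548, 70, 0, 0, 0, true, false, false, [(0, 54)], []⟩
  ] = true := by decide +kernel

def g67_37 : Gr := ⟨false, 460, 465, 1024, 1024, 67, 67, 8381, 8382, 0, 2048, 0, []⟩

theorem k67_37 : chk g67_37 T450 [
  ⟨498, 90, 630, 104, 288, false, false, false, [(0, 1), (3, 4), (25, 3), (11, 1), (12, 2), (13, 3), (14, 2), (15, 2), (16, 2), (17, 3), (3, 10)], []⟩,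
  ⟨742, 90, 720, 104, 264, false, false, false, [(0, 1), (3, 7), (8, 1), (3, 3), (9, 2), (3, 2), (15, 2), (16, 2), (3, 1), (17, 2), (3, 10)], []⟩,
  ⟨912, 90, 720, 104, 240, false, false, false, [(0, 1), (3, 12), (9, 1), (3, 4), (16, 2), (3, 2), (17, 1), (3, 10)], []⟩,
  ⟨1031, 90, 630, 128, 212, false, true, false, [(0, 1), (3, 18), (16, 1), (3, 11)], []⟩,
  ⟨1114, 90, 540, 224, 120, false, true, false, [(0, 1), (3, 21)], []⟩,
  ⟨1172, 90, 540, 224, 120, false, true, false, [(0, 1), (3, 21)], []⟩,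
  ⟨1230, 90, 0, 240, 132, true, true, false, [(0, 1), (3, 20)], []⟩,
  ⟨1288, 90, 0, 240, 132, true, true, false, [(0, 1), (3, 20)], []⟩,
  ⟨1346, 90, 0, 240, 132, true, true, false, [(0, 2), (3, 19)], []⟩,
  ⟨1429, 90, 0, 240, 132, true, true, false, [(0, 2), (3, 19)], []⟩,
  ⟨1512, 90, 0, 240, 132, true, true, false, [(0, 2), (3, 19)], []⟩,
  ⟨1595, 90, 0, 224, 120, true, true, false, [(0, 2), (3, 20)], []⟩,
  ⟨1678, 90, 0, 224, 120, true, true, false, [(0, 3), (3, 19)], []⟩,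
  ⟨1736, 90, 0, 224, 120, true, true, false, [(0, 3), (3, 19)], []⟩,
  ⟨1794, 90, 0, 224, 120, true, true, false, [(0, 4), (3, 18)], []⟩,
  ⟨1834, 90, 0, 224, 120, true, true, false, [(0, 6), (3, 16)], []⟩,
  ⟨1874, 90, 0, 224, 120, true, true, false, [(0, 13), (3, 9)], []⟩,
  ⟨1931, 90, 0, 224, 120, true, true, false, [(0, 22)], []⟩,
  ⟨2047, 90, 0, 192, 98, true, true, false, [(0, 25)], []⟩,
  ⟨2276, 90, 0, 192, 98, true, true, false, [(0, 25)], []⟩,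
  ⟨2911, 90, 0, 128, 60, true, true, false, [(0, 31)], []⟩,
  ⟨6337, 90, 0, 0, 0, true, false, false, [(0, 43)], []⟩,
  ⟨7613, 90, 0, 0, 0, true, false, false, [(0, 43)], []⟩
  ] = true := by decide +kernel

def g67_38 : Gr := ⟨false, 465, 473, 1024, 1024, 67, 67, 8381, 8382, 0, 2048, 0, []⟩

theorem k67_38 : chk g67_38 T450 [
  ⟨498, 120, 600, 256, 161, false, true, false, [(0, 1), (3, 3), (25, 2), (12, 2), (13, 2), (14, 2), (15, 1), (16, 2)], []⟩,
  ⟨742, 120, 720, 112, 260, false, true, false, [(0, 1), (3, 8), (9, 1), (3, 2), (15, 1), (16, 2), (3, 1), (17, 1), (3, 8)], []⟩,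
  ⟨912, 120, 720, 112, 240, false, false, false, [(0, 1), (3, 13), (16, 1), (3, 10)], []⟩,
  ⟨1031, 120, 720, 112, 228, false, true, false, [(0, 1), (3, 24)], []⟩,
  ⟨1089, 120, 600, 112, 224, false, false, false, [(0, 1), (3, 24)], []⟩,
  ⟨1147, 120, 0, 256, 145, true, true, false, [(0, 1), (3, 14)], []⟩,
  ⟨1205, 120, 0, 256, 145, true, true, false, [(0, 1), (3, 14)], []⟩,
  ⟨1263, 120, 0, 256, 145, true, true, false, [(0, 1), (3, 14)], []⟩,
  ⟨1321, 120, 0, 256, 145, true, true, false, [(0, 2), (3, 13)], []⟩,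
  ⟨1379, 120, 0, 256, 145, true, true, false, [(0, 2), (3, 13)], []⟩,
  ⟨1437, 120, 0, 240, 132, true, true, false, [(0, 2), (3, 14)], []⟩,
  ⟨1495, 120, 0, 240, 132, true, true, false, [(0, 2), (3, 14)], []⟩,
  ⟨1553, 120, 0, 240, 132, true, true, false, [(0, 2), (3, 14)], []⟩,
  ⟨1611, 120, 0, 240, 132, true, true, false, [(0, 2), (3, 14)], []⟩,
  ⟨1669, 120, 0, 224, 120, true, true, false, [(0, 3), (3, 14)], []⟩,
  ⟨1727, 120, 0, 224, 120, true, true, false, [(0, 3), (3, 14)], []⟩,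
  ⟨1768, 120, 0, 224, 120, true, true, false, [(0, 3), (3, 14)], []⟩,
  ⟨1809, 120, 0, 224, 120, true, true, false, [(0, 4), (3, 13)], []⟩,
  ⟨1837, 120, 0, 224, 120, true, true, false, [(0, 5), (3, 12)], []⟩,
  ⟨1865, 120, 0, 224, 120, true, true, false, [(0, 7), (3, 10)], []⟩,
  ⟨1885, 120, 0, 224, 120, true, true, false, [(0, 12), (3, 5)], []⟩,
  ⟨1914, 120, 0, 224, 120, true, true, false, [(0, 17)], []⟩,
  ⟨1955, 120, 0, 224, 120, true, true, false, [(0, 17)], []⟩,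
  ⟨2014, 120, 0, 224, 120, true, true, false, [(0, 17)], []⟩,
  ⟨2133, 120, 0, 192, 98, true, true, false, [(0, 20)], []⟩,
  ⟨2464, 120, 0, 176, 88, true, true, false, [(0, 21)], []⟩,
  ⟨3743, 120, 0, 80, 36, true, true, false, [(0, 27)], []⟩,
  ⟨7257, 120, 0, 0, 0, true, false, false, [(0, 33)], []⟩,
  ⟨7744, 120, 0, 0, 0, true, false, false, [(0, 33)], []⟩
  ] = true := by decide +kernel

def g67_39 : Gr := ⟨false, 473, 481, 1024, 1024, 67, 67, 8381, 8382, 0, 2048, 0, []⟩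

theorem k67_39 : chk g67_39 T450 [
  ⟨498, 70, 700, 88, 304, false, false, false, [(0, 1), (3, 5), (25, 4), (11, 1), (12, 3), (13, 4), (14, 2), (15, 3), (16, 3), (17, 3), (3, 17)], []⟩,
  ⟨742, 70, 700, 88, 280, false, false, false, [(0, 1), (3, 15), (9, 2), (3, 3), (15, 2), (16, 3), (3, 2), (17, 1), (3, 17)], []⟩,
  ⟨912, 70, 700, 88, 264, false, false, false, [(0, 1), (3, 16), (9, 1), (3, 6), (16, 2), (3, 20)], []⟩,
  ⟨1031, 70, 630, 120, 232, false, false, false, [(0, 1), (3, 24), (16, 1), (3, 17)], []⟩,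
  ⟨1114, 70, 630, 128, 212, false, true, false, [(0, 1), (3, 41)], []⟩,
  ⟨1172, 70, 560, 208, 133, false, true, false, [(0, 1), (3, 31)], []⟩,
  ⟨1230, 70, 0, 256, 145, true, true, false, [(0, 1), (3, 26)], []⟩,
  ⟨1288, 70, 0, 256, 145, true, true, false, [(0, 1), (3, 26)], []⟩,
  ⟨1371, 70, 0, 256, 145, true, true, false, [(0, 2), (3, 25)], []⟩,
  ⟨1453, 70, 0, 256, 145, true, true, false, [(0, 2), (3, 25)], []⟩,
  ⟨1510, 70, 0, 240, 132, true, true, false, [(0, 2), (3, 27)], []⟩,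
  ⟨1567, 70, 0, 240, 132, true, true, false, [(0, 2), (3, 27)], []⟩,
  ⟨1624, 70, 0, 240, 132, true, true, false, [(0, 2), (3, 27)], []⟩,
  ⟨1681, 70, 0, 240, 132, true, true, false, [(0, 2), (3, 27)], []⟩,
  ⟨1721, 70, 0, 240, 132, true, true, false, [(0, 3), (3, 26)], []⟩,
  ⟨1761, 70, 0, 240, 132, true, true, false, [(0, 3), (3, 26)], []⟩,
  ⟨1789, 70, 0, 224, 120, true, true, false, [(0, 4), (3, 27)], []⟩,
  ⟨1817, 70, 0, 224, 120, true, true, false, [(0, 4), (3, 27)], []⟩,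
  ⟨1836, 70, 0, 208, 109, true, true, false, [(0, 5), (3, 27)], []⟩,
  ⟨1855, 70, 0, 208, 109, true, true, false, [(0, 5), (3, 27)], []⟩,
  ⟨1874, 70, 0, 208, 109, true, true, false, [(0, 7), (3, 25)], []⟩,
  ⟨1893, 70, 0, 208, 109, true, true, false, [(0, 9), (3, 23)], []⟩,
  ⟨1906, 70, 0, 208, 109, true, true, false, [(0, 14), (3, 18)], []⟩,
  ⟨1919, 70, 0, 208, 109, true, true, false, [(0, 21), (3, 11)], []⟩,
  ⟨1948, 70, 0, 208, 109, true, true, false, [(0, 32)], []⟩,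
  ⟨2033, 70, 0, 208, 109, true, true, false, [(0, 32)], []⟩,
  ⟨2271, 70, 0, 192, 98, true, true, false, [(0, 34)], []⟩,
  ⟨2930, 70, 0, 144, 69, true, true, false, [(0, 40)], []⟩,
  ⟨6488, 70, 0, 0, 0, true, false, false, [(0, 57)], []⟩,
  ⟨7875, 70, 0, 0, 0, true, false, false, [(0, 57)], []⟩
  ] = true := by decide +kernel

def g67_40 : Gr := ⟨false, 481, 487, 1024, 1024, 67, 67, 8381, 8382, 0, 2048, 0, []⟩

theorem k67_40 : chk g67_40 T450 [
  ⟨498, 120, 720, 64, 328, false, false, false, [(0, 1), (3, 3), (25, 2), (12, 2), (13, 2), (14, 2), (15, 1), (16, 2), (17, 2), (3, 12)], []⟩,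
  ⟨742, 120, 720, 112, 272, false, false, false, [(0, 1), (3, 11), (15, 1), (16, 2), (3, 11)], []⟩,
  ⟨912, 120, 720, 112, 256, false, false, false, [(0, 1), (3, 13), (16, 1), (3, 11)], []⟩,
  ⟨1031, 120, 720, 112, 240, false, false, false, [(0, 1), (3, 25)], []⟩,
  ⟨1150, 120, 600, 128, 216, false, false, false, [(0, 1), (3, 24)], []⟩,
  ⟨1233, 120, 0, 256, 145, true, true, false, [(0, 1), (3, 15)], []⟩,
  ⟨1316, 120, 0, 256, 145, true, true, false, [(0, 1), (3, 15)], []⟩,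
  ⟨1399, 120, 0, 256, 145, true, true, false, [(0, 2), (3, 14)], []⟩,
  ⟨1482, 120, 0, 256, 145, true, true, false, [(0, 2), (3, 14)], []⟩,
  ⟨1565, 120, 0, 240, 132, true, true, false, [(0, 2), (3, 15)], []⟩,
  ⟨1648, 120, 0, 240, 132, true, true, false, [(0, 2), (3, 15)], []⟩,
  ⟨1731, 120, 0, 240, 132, true, true, false, [(0, 3), (3, 14)], []⟩,
  ⟨1814, 120, 0, 224, 120, true, true, false, [(0, 3), (3, 15)], []⟩,
  ⟨1872, 120, 0, 224, 120, true, true, false, [(0, 4), (3, 14)], []⟩,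
  ⟨1930, 120, 0, 224, 120, true, true, false, [(0, 6), (3, 12)], []⟩,
  ⟨1988, 120, 0, 224, 120, true, true, false, [(0, 18)], []⟩,
  ⟨2071, 120, 0, 224, 120, true, true, false, [(0, 18)], []⟩,
  ⟨2236, 120, 0, 192, 98, true, true, false, [(0, 21)], []⟩,
  ⟨2693, 120, 0, 160, 78, true, true, false, [(0, 23)], []⟩,
  ⟨4458, 120, 0, 36, 16, true, true, false, [(0, 31)], []⟩,
  ⟨7920, 120, 0, 0, 0, true, false, false, [(0, 34)], []⟩,
  ⟨7973, 120, 0, 0, 0, true, false, false, [(0, 34)], []⟩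
  ] = true := by decide +kernel

def g67_41 : Gr := ⟨false, 486, 496, 1024, 1024, 67, 67, 8381, 8382, 0, 2048, 0, []⟩

theorem k67_41 : chk g67_41 T475 [
  ⟨498, 90, 630, 112, 296, false, false, false, [(0, 1), (3, 4), (27, 3), (12, 1), (13, 2), (14, 3), (15, 2), (16, 2), (17, 2), (18, 3), (19, 2), (3, 10)], []⟩,
  ⟨846, 90, 720, 112, 264, false, false, false, [(0, 1), (3, 6), (8, 2), (3, 2), (9, 3), (3, 1), (15, 1), (16, 2), (17, 2), (18, 3), (3, 1), (19, 1), (3, 10)], []⟩,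
  ⟨1016, 90, 630, 112, 248, false, false, false, [(0, 1), (3, 12), (9, 1), (3, 5), (17, 1), (3, 1), (18, 2), (3, 12)], []⟩,
  ⟨1135, 90, 630, 112, 236, false, true, false, [(0, 1), (3, 12), (9, 1), (3, 8), (18, 1), (3, 12)], []⟩,
  ⟨1218, 90, 630, 112, 228, false, true, false, [(0, 1), (3, 21), (18, 1), (3, 12)], []⟩,
  ⟨1276, 90, 0, 256, 145, true, true, false, [(0, 1), (3, 21)], []⟩,
  ⟨1359, 90, 0, 256, 145, true, true, false, [(0, 2), (3, 20)], []⟩,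
  ⟨1442, 90, 0, 256, 145, true, true, false, [(0, 2), (3, 20)], []⟩,
  ⟨1525, 90, 0, 256, 145, true, true, false, [(0, 2), (3, 20)], []⟩,
  ⟨1607, 90, 0, 256, 145, true, true, false, [(0, 2), (3, 20)], []⟩,
  ⟨1664, 90, 0, 240, 132, true, true, false, [(0, 2), (3, 22)], []⟩,
  ⟨1721, 90, 0, 224, 120, true, true, false, [(0, 3), (3, 22)], []⟩,
  ⟨1778, 90, 0, 224, 120, true, true, false, [(0, 3), (3, 22)], []⟩,
  ⟨1835, 90, 0, 224, 120, true, true, false, [(0, 3), (3, 22)], []⟩,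
  ⟨1875, 90, 0, 224, 120, true, true, false, [(0, 4), (3, 21)], []⟩,
  ⟨1915, 90, 0, 224, 120, true, true, false, [(0, 5), (3, 20)], []⟩,
  ⟨1943, 90, 0, 224, 120, true, true, false, [(0, 8), (3, 17)], []⟩,
  ⟨1971, 90, 0, 224, 120, true, true, false, [(0, 14), (3, 11)], []⟩,
  ⟨2011, 90, 0, 224, 120, true, true, false, [(0, 25)], []⟩,
  ⟨2092, 90, 0, 224, 120, true, true, false, [(0, 25)], []⟩,
  ⟨2321, 90, 0, 192, 98, true, true, false, [(0, 28)], []⟩,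
  ⟨2954, 90, 0, 144, 69, true, true, false, [(0, 33)], []⟩,
  ⟨6369, 90, 0, 0, 0, true, false, false, [(0, 46)], []⟩,
  ⟨8121, 90, 0, 0, 0, true, false, false, [(0, 46)], []⟩
  ] = true := by decide +kernel

def g67_42 : Gr := ⟨false, 496, 506, 1024, 1024, 67, 67, 8381, 8382, 0, 2048, 0, []⟩

theorem k67_42 : chk g67_42 T475 [
  ⟨698, 90, 630, 256, 161, false, true, false, [(0, 1), (3, 4), (27, 3), (12, 1), (13, 2), (14, 3), (15, 2), (16, 2), (17, 2), (18, 3)], []⟩,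
  ⟨937, 90, 630, 144, 237, false, true, false, [(0, 1), (3, 7), (8, 1), (3, 3), (9, 2), (3, 3), (10, 1), (17, 2), (18, 3), (3, 10)], []⟩,
  ⟨1104, 90, 630, 144, 221, false, true, false, [(0, 1), (3, 12), (9, 1), (3, 7), (18, 2), (3, 10)], []⟩,
  ⟨1221, 90, 630, 144, 208, false, false, false, [(0, 1), (3, 21), (18, 1), (3, 10)], []⟩,
  ⟨1303, 90, 630, 144, 197, false, true, false, [(0, 1), (3, 32)], []⟩,
  ⟨1385, 90, 0, 256, 145, true, true, false, [(0, 2), (3, 21)], []⟩,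
  ⟨1467, 90, 0, 256, 145, true, true, false, [(0, 2), (3, 21)], []⟩,
  ⟨1549, 90, 0, 256, 145, true, true, false, [(0, 2), (3, 21)], []⟩,
  ⟨1631, 90, 0, 256, 145, true, true, false, [(0, 2), (3, 21)], []⟩,
  ⟨1713, 90, 0, 256, 145, true, true, false, [(0, 2), (3, 21)], []⟩,
  ⟨1770, 90, 0, 224, 120, true, true, false, [(0, 3), (3, 23)], []⟩,
  ⟨1827, 90, 0, 224, 120, true, true, false, [(0, 3), (3, 23)], []⟩,
  ⟨1884, 90, 0, 224, 120, true, true, false, [(0, 4), (3, 22)], []⟩,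
  ⟨1941, 90, 0, 224, 120, true, true, false, [(0, 5), (3, 21)], []⟩,
  ⟨1981, 90, 0, 224, 120, true, true, false, [(0, 7), (3, 19)], []⟩,
  ⟨2009, 90, 0, 224, 120, true, true, false, [(0, 14), (3, 12)], []⟩,
  ⟨2049, 90, 0, 224, 120, true, true, false, [(0, 26)], []⟩,
  ⟨2130, 90, 0, 224, 120, true, true, false, [(0, 26)], []⟩,
  ⟨2358, 90, 0, 192, 98, true, true, false, [(0, 29)], []⟩,
  ⟨2989, 90, 0, 144, 69, true, true, false, [(0, 33)], []⟩,
  ⟨6396, 90, 0, 0, 0, true, false, false, [(0, 47)], []⟩,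
  ⟨8284, 90, 0, 0, 0, true, false, false, [(0, 47)], []⟩
  ] = true := by decide +kernel

def g67_43 : Gr := ⟨false, 506, 512, 1024, 1024, 67, 67, 8381, 8382, 0, 2048, 0, []⟩

theorem k67_43 : chk g67_43 T475 [
  ⟨498, 120, 720, 88, 328, false, false, false, [(0, 1), (3, 3), (27, 2), (13, 2), (14, 2), (15, 2), (16, 1), (17, 2), (18, 2), (19, 2), (3, 10)], []⟩,
  ⟨846, 120, 720, 120, 272, false, false, false, [(0, 1), (3, 4), (8, 1), (3, 2), (9, 2), (3, 1), (15, 1), (16, 1), (17, 2), (18, 2), (3, 10)], []⟩,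
  ⟨1090, 120, 720, 120, 248, false, false, false, [(0, 1), (3, 13), (17, 1), (3, 1), (18, 1), (3, 10)], []⟩,
  ⟨1260, 120, 600, 120, 232, false, false, false, [(0, 1), (3, 26)], []⟩,
  ⟨1343, 120, 0, 256, 145, true, true, false, [(0, 1), (3, 17)], []⟩,
  ⟨1426, 120, 0, 256, 145, true, true, false, [(0, 2), (3, 16)], []⟩,
  ⟨1544, 120, 0, 256, 145, true, true, false, [(0, 2), (3, 16)], []⟩,
  ⟨1662, 120, 0, 256, 145, true, true, false, [(0, 2), (3, 16)], []⟩,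
  ⟨1780, 120, 0, 240, 132, true, true, false, [(0, 2), (3, 17)], []⟩,
  ⟨1862, 120, 0, 240, 132, true, true, false, [(0, 3), (3, 16)], []⟩,
  ⟨1944, 120, 0, 224, 120, true, true, false, [(0, 4), (3, 16)], []⟩,
  ⟨2001, 120, 0, 224, 120, true, true, false, [(0, 5), (3, 15)], []⟩,
  ⟨2058, 120, 0, 224, 120, true, true, false, [(0, 10), (3, 10)], []⟩,
  ⟨2173, 120, 0, 224, 120, true, true, false, [(0, 20)], []⟩,
  ⟨2495, 120, 0, 192, 98, true, true, false, [(0, 22)], []⟩,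
  ⟨3384, 120, 0, 104, 48, true, true, false, [(0, 28)], []⟩,
  ⟨6807, 120, 0, 0, 0, true, false, false, [(0, 35)], []⟩,
  ⟨8383, 120, 0, 0, 0, true, false, false, [(0, 35)], []⟩
  ] = true := by decide +kernel

def g67_44 : Gr := ⟨false, 512, 528, 1024, 1024, 67, 67, 8381, 8382, 0, 2048, 0, []⟩

theorem k67_44 : chk g67_44 T500 [
  ⟨498, 120, 720, 32, 376, false, false, false, [(0, 1), (3, 3), (28, 2), (14, 2), (15, 2), (16, 2), (17, 1), (18, 2), (19, 2), (20, 2), (3, 15)], []⟩,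
  ⟨846, 120, 720, 104, 288, false, false, false, [(0, 1), (3, 4), (9, 1), (3, 2), (10, 2), (3, 1), (11, 2), (18, 2), (19, 2), (20, 2), (3, 10)], []⟩,
  ⟨1090, 120, 720, 120, 256, false, false, false, [(0, 1), (3, 8), (10, 1), (3, 2), (11, 1), (3, 1), (18, 1), (19, 2), (20, 2), (3, 9)], []⟩,
  ⟨1258, 120, 600, 120, 240, false, false, false, [(0, 1), (3, 15), (19, 1), (3, 1), (20, 1), (3, 9)], []⟩,
  ⟨1340, 120, 600, 120, 232, false, false, false, [(0, 1), (3, 27)], []⟩,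
  ⟨1397, 120, 600, 120, 224, false, false, false, [(0, 2), (3, 26)], []⟩,
  ⟨1454, 120, 0, 256, 145, true, true, false, [(0, 2), (3, 17)], []⟩,
  ⟨1511, 120, 0, 256, 145, true, true, false, [(0, 2), (3, 17)], []⟩,
  ⟨1568, 120, 0, 256, 145, true, true, false, [(0, 2), (3, 17)], []⟩,
  ⟨1625, 120, 0, 256, 145, true, true, false, [(0, 2), (3, 17)], []⟩,
  ⟨1682, 120, 0, 256, 145, true, true, false, [(0, 2), (3, 17)], []⟩,
  ⟨1739, 120, 0, 240, 132, true, true, false, [(0, 2), (3, 18)], []⟩,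
  ⟨1796, 120, 0, 240, 132, true, true, false, [(0, 3), (3, 17)], []⟩,
  ⟨1853, 120, 0, 240, 132, true, true, false, [(0, 3), (3, 17)], []⟩,
  ⟨1910, 120, 0, 240, 132, true, true, false, [(0, 3), (3, 17)], []⟩,
  ⟨1950, 120, 0, 240, 132, true, true, false, [(0, 4), (3, 16)], []⟩,
  ⟨1978, 120, 0, 224, 120, true, true, false, [(0, 5), (3, 16)], []⟩,
  ⟨2006, 120, 0, 224, 120, true, true, false, [(0, 5), (3, 16)], []⟩,
  ⟨2034, 120, 0, 224, 120, true, true, false, [(0, 7), (3, 14)], []⟩,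
  ⟨2053, 120, 0, 224, 120, true, true, false, [(0, 9), (3, 12)], []⟩,
  ⟨2072, 120, 0, 224, 120, true, true, false, [(0, 13), (3, 8)], []⟩,
  ⟨2091, 120, 0, 224, 120, true, true, false, [(0, 21)], []⟩,
  ⟨2149, 120, 0, 224, 120, true, true, false, [(0, 21)], []⟩,
  ⟨2314, 120, 0, 208, 109, true, true, false, [(0, 22)], []⟩,
  ⟨2640, 120, 0, 192, 98, true, true, false, [(0, 23)], []⟩,
  ⟨3902, 120, 0, 80, 36, true, true, false, [(0, 31)], []⟩,
  ⟨7371, 120, 0, 0, 0, true, false, false, [(0, 37)], []⟩,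
  ⟨8644, 120, 0, 0, 0, true, false, false, [(0, 37)], []⟩
  ] = true := by decide +kernel

def g67_45 : Gr := ⟨false, 528, 538, 1024, 1024, 67, 67, 8381, 8382, 0, 1987, 0, []⟩

theorem k67_45 : chk g67_45 T500 [
  ⟨698, 120, 720, 128, 296, false, false, false, [(0, 1), (3, 3), (28, 2), (14, 2), (15, 2), (16, 2), (17, 1), (18, 2), (19, 2), (20, 2), (21, 1), (3, 8)], []⟩,
  ⟨1040, 120, 720, 128, 268, false, true, false, [(0, 1), (3, 8), (10, 1), (3, 2), (11, 1), (18, 2), (19, 2), (20, 2), (3, 9)], []⟩,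
  ⟨1279, 120, 720, 128, 244, false, true, false, [(0, 1), (3, 15), (19, 1), (3, 1), (20, 1), (3, 9)], []⟩,
  ⟨1446, 120, 600, 128, 224, false, false, false, [(0, 2), (3, 26)], []⟩,
  ⟨1528, 120, 0, 256, 145, true, true, false, [(0, 2), (3, 18)], []⟩,
  ⟨1644, 120, 0, 256, 145, true, true, false, [(0, 2), (3, 18)], []⟩,
  ⟨1760, 120, 0, 256, 145, true, true, false, [(0, 2), (3, 18)], []⟩,
  ⟨1876, 120, 0, 240, 132, true, true, false, [(0, 3), (3, 18)], []⟩,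
  ⟨1957, 120, 0, 240, 132, true, true, false, [(0, 3), (3, 18)], []⟩,
  ⟨2038, 120, 0, 240, 132, true, true, false, [(0, 4), (3, 17)], []⟩,
  ⟨2094, 120, 0, 224, 120, true, true, false, [(0, 6), (3, 16)], []⟩,
  ⟨2150, 120, 0, 224, 120, true, true, false, [(0, 12), (3, 10)], []⟩,
  ⟨2263, 120, 0, 224, 120, true, true, false, [(0, 22)], []⟩,
  ⟨2579, 120, 0, 192, 98, true, true, false, [(0, 24)], []⟩,
  ⟨3452, 120, 0, 120, 56, true, true, false, [(0, 29)], []⟩,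
  ⟨6815, 120, 0, 0, 0, true, false, false, [(0, 37)], []⟩,
  ⟨8546, 120, 0, 0, 0, true, false, false, [(0, 37)], []⟩
  ] = true := by decide +kernel

def g67_46 : Gr := ⟨false, 537, 557, 1024, 1024, 67, 67, 8381, 8382, 0, 1954, 0, []⟩

theorem k67_46 : chk g67_46 T525 [
  ⟨698, 120, 720, 88, 336, false, false, false, [(0, 1), (3, 3), (29, 2), (14, 2), (15, 2), (16, 2), (17, 1), (18, 2), (19, 2), (20, 2), (21, 1), (22, 1), (3, 11)], []⟩,
  ⟨1040, 120, 720, 120, 280, false, false, false, [(0, 1), (3, 4), (9, 1), (3, 2), (10, 2), (3, 1), (11, 2), (18, 2), (19, 2), (20, 2), (21, 1), (3, 10)], []⟩,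
  ⟨1279, 120, 720, 120, 256, false, false, false, [(0, 1), (3, 8), (10, 1), (3, 2), (11, 1), (3, 3), (19, 1), (20, 2), (21, 1), (3, 10)], []⟩,
  ⟨1446, 120, 600, 120, 240, false, false, false, [(0, 2), (3, 14), (12, 1), (3, 1), (20, 1), (3, 11)], []⟩,
  ⟨1528, 120, 600, 176, 184, false, false, false, [(0, 2), (3, 16), (20, 1), (3, 7)], []⟩,
  ⟨1610, 120, 0, 256, 145, true, true, false, [(0, 2), (3, 16), (20, 1), (3, 2)], []⟩,
  ⟨1692, 120, 0, 256, 145, true, true, false, [(0, 2), (3, 19)], []⟩,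
  ⟨1774, 120, 0, 256, 145, true, true, false, [(0, 2), (3, 19)], []⟩,
  ⟨1856, 120, 0, 240, 132, true, true, false, [(0, 2), (3, 20)], []⟩,
  ⟨1938, 120, 0, 240, 132, true, true, false, [(0, 3), (3, 19)], []⟩,
  ⟨2020, 120, 0, 240, 132, true, true, false, [(0, 3), (3, 19)], []⟩,
  ⟨2077, 120, 0, 240, 132, true, true, false, [(0, 4), (3, 18)], []⟩,
  ⟨2117, 120, 0, 240, 132, true, true, false, [(0, 6), (3, 16)], []⟩,
  ⟨2157, 120, 0, 224, 120, true, true, false, [(0, 9), (3, 14)], []⟩,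
  ⟨2197, 120, 0, 224, 120, true, true, false, [(0, 19), (3, 4)], []⟩,
  ⟨2311, 120, 0, 224, 120, true, true, false, [(0, 23)], []⟩,
  ⟨2630, 120, 0, 192, 98, true, true, false, [(0, 25)], []⟩,
  ⟨3511, 120, 0, 104, 48, true, true, false, [(0, 31)], []⟩,
  ⟨6902, 120, 0, 0, 0, true, false, false, [(0, 38)], []⟩,
  ⟨8701, 120, 0, 0, 0, true, false, false, [(0, 38)], []⟩
  ] = true := by decide +kernel

def g67_47 : Gr := ⟨false, 557, 564, 1024, 1024, 67, 67, 8381, 8382, 0, 1884, 0, []⟩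

theorem k67_47 : chk g67_47 T525 [
  ⟨698, 120, 600, 288, 288, false, false, false, [(0, 1), (3, 3), (29, 2), (14, 2), (15, 2), (16, 2), (17, 1), (18, 2), (19, 2), (20, 2)], []⟩,
  ⟨1186, 120, 720, 128, 276, false, true, false, [(0, 1), (3, 4), (9, 1), (3, 2), (10, 2), (11, 3), (18, 2), (19, 2), (20, 2), (21, 1), (3, 10)], []⟩,
  ⟨1425, 120, 600, 128, 252, false, true, false, [(0, 1), (3, 17), (20, 1), (3, 11)], []⟩,
  ⟨1592, 120, 600, 144, 221, false, true, false, [(0, 2), (3, 16), (20, 1), (3, 10)], []⟩,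
  ⟨1759, 120, 0, 256, 145, true, true, false, [(0, 2), (3, 20)], []⟩,
  ⟨1926, 120, 0, 256, 145, true, true, false, [(0, 2), (3, 20)], []⟩,
  ⟨2093, 120, 0, 240, 132, true, true, false, [(0, 3), (3, 20)], []⟩,
  ⟨2210, 120, 0, 240, 132, true, true, false, [(0, 5), (3, 18)], []⟩,
  ⟨2327, 120, 0, 224, 120, true, true, false, [(0, 24)], []⟩,
  ⟨2653, 120, 0, 208, 109, true, true, false, [(0, 25)], []⟩,
  ⟨3553, 120, 0, 112, 52, true, true, false, [(0, 31)], []⟩,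
  ⟨7018, 120, 0, 0, 0, true, false, false, [(0, 39)], []⟩,
  ⟨8494, 120, 0, 0, 0, true, false, false, [(0, 39)], []⟩
  ] = true := by decide +kernel

def g67_48 : Gr := ⟨false, 563, 589, 1024, 1024, 67, 67, 8381, 8382, 0, 1864, 0, []⟩

theorem k67_48 : chk g67_48 T550 [
  ⟨698, 120, 720, 48, 384, false, false, true, [(0, 1), (3, 3), (32, 2), (16, 2), (17, 2), (18, 2), (19, 1), (20, 2), (21, 2), (22, 2), (23, 1), (24, 2), (3, 13)], [(3, 2)]⟩,
  ⟨1186, 120, 720, 120, 288, false, false, false, [(0, 1), (3, 4), (10, 1), (3, 1), (11, 3), (12, 3), (20, 2), (21, 2), (22, 2), (23, 1), (24, 2), (3, 10)], []⟩,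
  ⟨1425, 120, 600, 120, 264, false, false, false, [(0, 1), (3, 8), (11, 1), (3, 2), (12, 1), (3, 3), (13, 1), (22, 2), (23, 1), (3, 12)], []⟩,
  ⟨1592, 120, 600, 120, 248, false, false, false, [(0, 2), (3, 14), (13, 1), (3, 1), (22, 1), (23, 1), (3, 12)], []⟩,
  ⟨1709, 120, 0, 240, 132, true, true, true, [(0, 2), (3, 16), (22, 1), (3, 3)], [(3, 2)]⟩,
  ⟨1826, 120, 0, 256, 145, true, true, false, [(0, 2), (3, 21)], []⟩,
  ⟨1943, 120, 0, 256, 145, true, true, false, [(0, 2), (3, 21)], []⟩,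
  ⟨2060, 120, 0, 240, 132, true, true, false, [(0, 3), (3, 21)], []⟩,
  ⟨2177, 120, 0, 240, 132, true, true, false, [(0, 4), (3, 20)], []⟩,
  ⟨2259, 120, 0, 240, 132, true, true, false, [(0, 7), (3, 17)], []⟩,
  ⟨2341, 120, 0, 224, 120, true, true, false, [(0, 25)], []⟩,
  ⟨2570, 120, 0, 208, 109, true, true, false, [(0, 26)], []⟩,
  ⟨3205, 120, 0, 160, 78, true, true, false, [(0, 30)], []⟩,
  ⟨6631, 120, 0, 0, 0, true, false, false, [(0, 41)], []⟩,
  ⟨8777, 120, 0, 0, 0, true, false, false, [(0, 41)], []⟩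
  ] = true := by decide +kernel

def g67_49 : Gr := ⟨false, 588, 615, 1024, 1024, 67, 67, 8381, 8382, 0, 1785, 0, []⟩

theorem k67_49 : chk g67_49 T575 [
  ⟨698, 120, 600, 60, 388, false, false, true, [(0, 1), (3, 3), (33, 2), (16, 2), (17, 2), (18, 2), (19, 1), (20, 2), (21, 2), (22, 2), (23, 1), (24, 2), (25, 2), (3, 12)], [(3, 2)]⟩,
  ⟨1186, 120, 720, 120, 304, false, false, false, [(0, 1), (3, 4), (10, 1), (3, 1), (11, 3), (12, 3), (13, 1), (20, 1), (21, 2), (22, 2), (23, 1), (24, 2), (25, 2), (3, 10)], []⟩,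
  ⟨1528, 120, 600, 176, 224, false, false, false, [(0, 1), (3, 8), (11, 1), (3, 2), (12, 1), (3, 2), (13, 2), (22, 2), (23, 1), (24, 2), (3, 1), (25, 1), (3, 6)], []⟩,
  ⟨1767, 120, 600, 176, 200, false, false, false, [(0, 2), (3, 14), (13, 1), (3, 1), (22, 1), (23, 1), (3, 1), (24, 1), (3, 8)], []⟩,
  ⟨1934, 120, 0, 240, 132, true, true, true, [(0, 2), (3, 19), (24, 1), (3, 1)], [(3, 3)]⟩,
  ⟨2101, 120, 0, 256, 145, true, true, false, [(0, 3), (3, 22)], []⟩,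
  ⟨2268, 120, 0, 240, 132, true, true, false, [(0, 4), (3, 22)], []⟩,
  ⟨2385, 120, 0, 240, 132, true, true, false, [(0, 8), (3, 18)], []⟩,
  ⟨2617, 120, 0, 224, 120, true, true, false, [(0, 27)], []⟩,
  ⟨3259, 120, 0, 176, 88, true, true, false, [(0, 30)], []⟩,
  ⟨6724, 120, 0, 0, 0, true, false, false, [(0, 42)], []⟩,
  ⟨8776, 120, 0, 0, 0, true, false, false, [(0, 42)], []⟩
  ] = true := by decide +kernel

def g67_50 : Gr := ⟨false, 614, 640, 1024, 1024, 67, 67, 8381, 8382, 0, 1709, 0, []⟩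

theorem k67_50 : chk g67_50 T600 [
  ⟨978, 120, 720, 128, 336, false, false, false, [(0, 1), (3, 3), (35, 2), (17, 2), (18, 2), (19, 2), (20, 1), (21, 2), (22, 2), (23, 2), (24, 1), (25, 2), (26, 2), (27, 2), (3, 9)], []⟩,
  ⟨1457, 120, 600, 144, 280, false, false, false, [(0, 1), (3, 4), (11, 1), (3, 2), (12, 2), (3, 1), (13, 2), (14, 4), (23, 2), (24, 1), (25, 2), (26, 2), (3, 1), (27, 1), (3, 8)], []⟩,
  ⟨1792, 120, 600, 144, 248, false, false, false, [(0, 2), (3, 7), (12, 1), (3, 2), (13, 1), (3, 2), (14, 2), (3, 1), (23, 1), (24, 1), (25, 2), (26, 2), (3, 1), (27, 1), (3, 8)], []⟩,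
  ⟨2127, 120, 0, 256, 145, true, true, true, [(0, 2), (3, 7), (5, 1), (3, 6), (14, 1), (3, 2), (15, 1), (25, 2), (26, 2)], [(3, 1), (27, 1), (3, 1)]⟩,
  ⟨2362, 120, 0, 224, 120, true, true, true, [(0, 3), (3, 13), (7, 1), (3, 4), (25, 1), (3, 1), (26, 1), (3, 1), (27, 1)], [(3, 3)]⟩,
  ⟨2526, 120, 0, 224, 120, true, true, true, [(0, 16), (7, 1), (0, 2), (8, 1), (0, 1), (25, 1), (0, 1), (26, 1), (27, 2)], [(28, 1), (0, 1), (29, 1)]⟩,
  ⟨2850, 120, 0, 208, 109, true, true, false, [(0, 30)], []⟩,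
  ⟨3745, 120, 0, 128, 60, true, true, false, [(0, 35)], []⟩,
  ⟨7193, 120, 0, 0, 0, true, false, false, [(0, 44)], []⟩,
  ⟨8744, 120, 0, 0, 0, true, false, false, [(0, 44)], []⟩
  ] = true := by decide +kernel

def g67_51 : Gr := ⟨false, 640, 666, 1024, 1024, 67, 67, 8381, 8382, 0, 1640, 0, []⟩

theorem k67_51 : chk g67_51 T625 [
  ⟨978, 120, 600, 112, 368, false, false, true, [(0, 1), (3, 3), (36, 2), (17, 2), (18, 2), (19, 2), (20, 1), (21, 2), (22, 2), (23, 2), (24, 1), (25, 2), (26, 2), (27, 2), (28, 1), (3, 9)], [(3, 2)]⟩,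
  ⟨1663, 120, 600, 144, 280, false, false, false, [(0, 1), (3, 4), (11, 1), (3, 1), (12, 3), (13, 3), (14, 4), (23, 2), (24, 1), (25, 2), (26, 2), (27, 2), (28, 1), (3, 9)], []⟩,
  ⟨2142, 120, 0, 256, 145, true, true, true, [(0, 2), (3, 7), (5, 1), (3, 2), (6, 1), (3, 2), (14, 2), (3, 1), (15, 2), (25, 2), (26, 2), (27, 2)], [(28, 1), (3, 1)]⟩,
  ⟨2613, 120, 0, 256, 145, true, true, true, [(0, 3), (3, 6), (5, 1), (3, 2), (6, 1), (3, 2), (7, 2), (3, 2), (15, 1), (3, 1), (25, 1), (26, 2), (27, 2)], [(28, 1), (29, 1)]⟩,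
  ⟨3084, 120, 0, 208, 109, true, true, false, [(0, 32)], []⟩,
  ⟨4380, 120, 0, 80, 36, true, true, false, [(0, 40)], []⟩,
  ⟨7943, 120, 0, 0, 0, true, false, false, [(0, 46)], []⟩,
  ⟨8732, 120, 0, 0, 0, true, false, false, [(0, 46)], []⟩
  ] = true := by decide +kernel

def g67_52 : Gr := ⟨false, 665, 692, 1024, 1024, 67, 67, 8381, 8382, 0, 1578, 0, []⟩

theorem k67_52 : chk g67_52 T650 [
  ⟨978, 120, 600, 96, 392, false, false, true, [(0, 1), (3, 3), (39, 2), (19, 2), (20, 2), (21, 2), (22, 1), (23, 2), (24, 2), (25, 2), (26, 1), (27, 2), (28, 2), (29, 2), (30, 1), (3, 11)], [(3, 3)]⟩,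
  ⟨1663, 120, 600, 160, 288, false, false, false, [(0, 1), (3, 4), (12, 1), (3, 1), (13, 3), (14, 3), (15, 4), (25, 2), (26, 1), (27, 2), (28, 2), (29, 2), (30, 1), (3, 1), (31, 1), (3, 8)], []⟩,
  ⟨2348, 120, 0, 256, 145, true, true, true, [(0, 2), (3, 3), (4, 1), (3, 2), (5, 2), (3, 2), (14, 1), (3, 1), (15, 3), (16, 3), (27, 2), (28, 2), (29, 2)], [(30, 1), (31, 2), (32, 1)]⟩,
  ⟨2827, 120, 0, 224, 120, true, true, true, [(0, 9), (5, 1), (0, 2), (6, 1), (0, 1), (7, 3), (0, 1), (8, 2), (27, 2), (28, 2), (29, 2), (30, 1), (31, 2)], [(32, 2), (33, 1)]⟩,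
  ⟨3499, 120, 0, 176, 88, true, true, false, [(0, 36)], []⟩,
  ⟨6089, 120, 0, 4, 2, true, true, false, [(0, 47)], []⟩,
  ⟨8729, 120, 0, 0, 0, true, false, false, [(0, 48)], []⟩
  ] = true := by decide +kernel

def g67_53 : Gr := ⟨false, 691, 717, 1024, 1024, 67, 67, 8381, 8382, 0, 1519, 0, []⟩

theorem k67_53 : chk g67_53 T675 [
  ⟨1371, 120, 600, 160, 336, false, false, false, [(0, 1), (3, 3), (40, 2), (19, 2), (20, 2), (21, 2), (22, 1), (23, 2), (24, 2), (25, 2), (26, 1), (27, 2), (28, 2), (29, 2), (30, 1), (31, 2), (32, 2), (3, 7)], []⟩,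
  ⟨2331, 120, 0, 240, 172, true, true, true, [(0, 2), (3, 3), (4, 1), (3, 2), (13, 2), (14, 3), (15, 4), (16, 3), (27, 2), (28, 2), (29, 2)], [(30, 1), (31, 2), (32, 2), (33, 2)]⟩,
  ⟨3003, 120, 0, 224, 120, true, true, true, [(0, 8), (5, 2), (0, 1), (6, 2), (0, 1), (7, 3), (8, 3), (9, 1), (27, 1), (17, 2), (29, 2), (30, 1), (31, 2), (32, 2)], [(33, 2), (34, 1)]⟩,
  ⟨3944, 120, 0, 160, 78, true, true, false, [(0, 38)], []⟩,
  ⟨7569, 120, 0, 0, 0, true, false, false, [(0, 49)], []⟩,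
  ⟨8707, 120, 0, 0, 0, true, false, false, [(0, 49)], []⟩
  ] = true := by decide +kernel

def g67_54 : Gr := ⟨false, 716, 742, 1024, 1024, 67, 67, 8381, 8382, 0, 1466, 0, []⟩

theorem k67_54 : chk g67_54 T700 [
  ⟨1371, 120, 600, 288, 288, false, false, true, [(0, 1), (3, 3), (41, 2), (19, 2), (20, 2), (21, 2), (22, 1), (23, 2), (24, 2), (25, 2), (26, 1), (27, 2), (28, 2), (29, 2), (30, 1), (31, 2)], [(32, 2)]⟩,
  ⟨2742, 120, 0, 256, 145, true, true, true, [(0, 2), (3, 3), (4, 1), (3, 1), (5, 1), (13, 2), (14, 3), (15, 4), (16, 3), (27, 2), (28, 2), (29, 2)], [(30, 1), (31, 2), (32, 2), (33, 2), (34, 1)]⟩,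
  ⟨3414, 120, 0, 208, 109, true, true, true, [(0, 9), (5, 1), (0, 2), (6, 1), (0, 3), (7, 1), (0, 2), (8, 1), (0, 2), (9, 2), (0, 1), (29, 1), (10, 1), (31, 2), (32, 2), (33, 2), (34, 1)], [(35, 2), (36, 1)]⟩,
  ⟨5262, 120, 0, 72, 32, true, true, false, [(0, 46)], []⟩,
  ⟨8696, 120, 0, 0, 0, true, false, false, [(0, 51)], []⟩
  ] = true := by decide +kernel

def g67_55 : Gr := ⟨false, 742, 768, 1024, 1024, 67, 67, 8381, 8382, 0, 1415, 0, []⟩

theorem k67_55 : chk g67_55 T725 [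
  ⟨1921, 120, 600, 256, 249, false, true, true, [(0, 1), (3, 3), (44, 2), (21, 2), (22, 2), (23, 2), (24, 1), (25, 2), (26, 2), (27, 2), (28, 1), (29, 2), (30, 2), (31, 2), (32, 1), (33, 2), (34, 2), (35, 2)], [(36, 1), (37, 1)]⟩,
  ⟨3265, 120, 0, 224, 128, true, true, true, [(0, 4), (4, 2), (5, 4), (6, 3), (7, 3), (16, 1), (17, 3), (18, 4), (31, 2), (32, 1), (33, 2), (34, 2), (35, 2)], [(36, 1), (37, 2), (38, 2)]⟩,
  ⟨4609, 120, 0, 128, 60, true, true, false, [(0, 44)], []⟩,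
  ⟨8303, 120, 0, 0, 0, true, false, false, [(0, 53)], []⟩,
  ⟨8687, 120, 0, 0, 0, true, false, false, [(0, 53)], []⟩
  ] = true := by decide +kernel

def g67_56 : Gr := ⟨false, 768, 794, 1024, 1024, 67, 67, 8381, 8382, 0, 1367, 0, []⟩

theorem k67_56 : chk g67_56 T750 [
  ⟨1921, 120, 600, 272, 272, false, false, true, [(2, 4), (45, 2), (21, 2), (22, 2), (23, 2), (24, 1), (25, 2), (26, 2), (27, 2), (28, 1), (29, 2), (30, 2), (31, 2), (32, 1), (33, 2), (34, 2), (35, 2)], [(36, 1), (37, 2)]⟩,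
  ⟨3842, 120, 0, 208, 109, true, true, true, [(0, 4), (4, 2), (5, 4), (6, 3), (7, 3), (16, 1), (17, 3), (18, 4), (31, 2), (32, 1), (33, 2), (34, 2), (35, 2)], [(36, 1), (37, 2), (38, 2), (39, 2)]⟩,
  ⟨5763, 120, 0, 4, 66, true, true, false, [(0, 54)], []⟩,
  ⟨8677, 120, 0, 0, 0, true, false, false, [(0, 55)], []⟩
  ] = true := by decide +kernel

def g67_57 : Gr := ⟨false, 793, 820, 1024, 1024, 67, 67, 8381, 8382, 0, 1324, 0, []⟩

theorem k67_57 : chk g67_57 T775 [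
  ⟨1921, 120, 600, 272, 272, false, false, true, [(2, 4), (45, 2), (21, 2), (22, 2), (23, 2), (24, 1), (25, 2), (26, 2), (27, 2), (28, 1), (29, 2), (30, 2), (31, 2), (32, 1), (33, 2), (34, 2), (35, 2)], [(36, 1), (37, 2), (38, 2)]⟩,
  ⟨3842, 120, 0, 192, 138, true, true, true, [(0, 4), (4, 2), (5, 4), (6, 3), (7, 3), (16, 1), (17, 3), (18, 4), (31, 2), (32, 1), (33, 2), (34, 2), (35, 2), (36, 1), (37, 2)], [(38, 2), (39, 2), (40, 1), (41, 2)]⟩,
  ⟨5763, 120, 0, 0, 96, true, false, true, [(0, 54)], [(0, 2)]⟩,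
  ⟨8679, 120, 0, 0, 0, true, false, false, [(0, 56)], []⟩
  ] = true := by decide +kernel

end Pool.Agent.Lib.MP_af3a4a_an.P1.CHK.H81.L
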