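import Pool.Agent.Lib.MP_af3a4a_an.P1.CHK.H81.LT
/-!
# Data, `68 ≤ N ≤ 68`, `286 ≤ 1024 R ≤ 425` (helper81)
-/
set_option autoImplicit false

namespace Pool.Agent.Lib.MP_af3a4a_an.P1.CHK.H81.L

open Pool.Agent.Lib.MP_af3a4a_an.P1.CHK.H58.G (Gr En)

def g68_0 : Gr := ⟨false, 286, 296, 1024, 1024, 68, 68, 8444, 8445, 512, 3668, 0, []⟩

theorem k68_0 : chk g68_0 [] [
  ⟨1269, 90, 0, 176, 88, true, true, false, [(0, 11)], []⟩,
  ⟨1448, 90, 0, 176, 88, true, true, false, [(0, 11)], []⟩,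
  ⟨1946, 90, 0, 144, 69, true, true, false, [(0, 14)], []⟩,
  ⟨3867, 90, 0, 48, 21, true, true, false, [(0, 23)], []⟩,
  ⟨7634, 90, 0, 0, 0, true, false, false, [(0, 28)], []⟩,
  ⟨8745, 90, 0, 0, 0, true, false, false, [(0, 28)], []⟩
  ] = true := by decide +kernel

def g68_1 : Gr := ⟨false, 296, 302, 1024, 1024, 68, 68, 8444, 8445, 512, 3544, 0, []⟩

theorem k68_1 : chk g68_1 [] [
  ⟨1284, 120, 0, 176, 88, true, true, false, [(0, 9)], []⟩,
  ⟨1463, 120, 0, 176, 88, true, true, false, [(0, 9)], []⟩,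
  ⟨1818, 120, 0, 144, 69, true, true, false, [(0, 11)], []⟩,
  ⟨2796, 120, 0, 88, 40, true, true, false, [(0, 15)], []⟩,
  ⟨6563, 120, 0, 0, 0, true, false, false, [(0, 21)], []⟩,
  ⟨8620, 120, 0, 0, 0, true, false, false, [(0, 21)], []⟩
  ] = true := by decide +kernel

def g68_2 : Gr := ⟨false, 302, 308, 1024, 1024, 68, 68, 8444, 8445, 384, 3474, 0, []⟩

theorem k68_2 : chk g68_2 [] [
  ⟨964, 120, 0, 192, 98, true, true, false, [(0, 1), (3, 7)], []⟩,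
  ⟨1008, 120, 0, 192, 98, true, true, false, [(0, 2), (3, 6)], []⟩,
  ⟨1052, 120, 0, 192, 98, true, true, false, [(0, 2), (3, 6)], []⟩,
  ⟨1096, 120, 0, 192, 98, true, true, false, [(0, 2), (3, 6)], []⟩,
  ⟨1140, 120, 0, 192, 98, true, true, false, [(0, 2), (3, 6)], []⟩,
  ⟨1184, 120, 0, 192, 98, true, true, false, [(0, 3), (3, 5)], []⟩,
  ⟨1228, 120, 0, 192, 98, true, true, false, [(0, 4), (3, 4)], []⟩,
  ⟨1272, 120, 0, 192, 98, true, true, false, [(0, 8)], []⟩,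
  ⟨1335, 120, 0, 192, 98, true, true, false, [(0, 8)], []⟩,
  ⟨1425, 120, 0, 192, 98, true, true, false, [(0, 8)], []⟩,
  ⟨1604, 120, 0, 160, 78, true, true, false, [(0, 11)], []⟩,
  ⟨2101, 120, 0, 120, 56, true, true, false, [(0, 13)], []⟩,
  ⟨4786, 120, 0, 20, 9, true, true, false, [(0, 20)], []⟩,
  ⟨8546, 120, 0, 0, 0, true, false, false, [(0, 22)], []⟩,
  ⟨8618, 120, 0, 0, 0, true, false, false, [(0, 22)], []⟩
  ] = true := by decide +kernel

def g68_3 : Gr := ⟨false, 307, 312, 1024, 1024, 68, 68, 8444, 8445, 384, 3417, 0, []⟩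

theorem k68_3 : chk g68_3 T300 [
  ⟨1013, 90, 0, 192, 98, true, true, false, [(0, 1), (3, 10)], []⟩,
  ⟨1077, 90, 0, 192, 98, true, true, false, [(0, 2), (3, 9)], []⟩,
  ⟨1141, 90, 0, 192, 98, true, true, false, [(0, 2), (3, 9)], []⟩,
  ⟨1205, 90, 0, 192, 98, true, true, false, [(0, 3), (3, 8)], []⟩,
  ⟨1249, 90, 0, 192, 98, true, true, false, [(0, 5), (3, 6)], []⟩,
  ⟨1339, 90, 0, 192, 98, true, true, false, [(0, 11)], []⟩,
  ⟨1518, 90, 0, 176, 88, true, true, false, [(0, 13)], []⟩,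
  ⟨1871, 90, 0, 160, 78, true, true, false, [(0, 14)], []⟩,
  ⟨3236, 90, 0, 72, 32, true, true, false, [(0, 22)], []⟩,
  ⟨6987, 90, 0, 0, 0, true, false, false, [(0, 29)], []⟩,
  ⟨8587, 90, 0, 0, 0, true, false, false, [(0, 29)], []⟩
  ] = true := by decide +kernel

def g68_4 : Gr := ⟨false, 312, 317, 1024, 1024, 68, 68, 8444, 8445, 384, 3362, 0, []⟩

theorem k68_4 : chk g68_4 T300 [
  ⟨995, 120, 0, 208, 109, true, true, false, [(0, 1), (3, 7)], []⟩,
  ⟨1026, 120, 0, 208, 109, true, true, false, [(0, 2), (3, 6)], []⟩,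
  ⟨1057, 120, 0, 208, 109, true, true, false, [(0, 2), (3, 6)], []⟩,
  ⟨1088, 120, 0, 192, 98, true, true, false, [(0, 2), (3, 7)], []⟩,
  ⟨1119, 120, 0, 192, 98, true, true, false, [(0, 2), (3, 7)], []⟩,
  ⟨1150, 120, 0, 192, 98, true, true, false, [(0, 2), (3, 7)], []⟩,
  ⟨1181, 120, 0, 192, 98, true, true, false, [(0, 2), (3, 7)], []⟩,
  ⟨1212, 120, 0, 192, 98, true, true, false, [(0, 3), (3, 6)], []⟩,
  ⟨1243, 120, 0, 192, 98, true, true, false, [(0, 4), (3, 5)], []⟩,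
  ⟨1274, 120, 0, 192, 98, true, true, false, [(0, 6), (3, 3)], []⟩,
  ⟨1337, 120, 0, 192, 98, true, true, false, [(0, 9)], []⟩,
  ⟨1464, 120, 0, 176, 88, true, true, false, [(0, 10)], []⟩,
  ⟨1818, 120, 0, 160, 78, true, true, false, [(0, 11)], []⟩,
  ⟨2794, 120, 0, 104, 48, true, true, false, [(0, 15)], []⟩,
  ⟨6554, 120, 0, 0, 0, true, false, false, [(0, 22)], []⟩,
  ⟨8584, 120, 0, 0, 0, true, false, false, [(0, 22)], []⟩
  ] = true := by decide +kernel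

def g68_5 : Gr := ⟨false, 317, 321, 1024, 1024, 68, 68, 8444, 8445, 256, 3309, 0, []⟩

theorem k68_5 : chk g68_5 T300 [
  ⟨668, 90, 0, 224, 120, true, true, false, [(0, 1), (3, 8)], []⟩,
  ⟨683, 90, 0, 224, 120, true, true, false, [(0, 1), (3, 8)], []⟩,
  ⟨698, 90, 0, 224, 120, true, true, false, [(0, 1), (3, 8)], []⟩,
  ⟨720, 90, 0, 224, 120, true, true, false, [(0, 1), (3, 8)], []⟩,
  ⟨742, 90, 0, 224, 120, true, true, false, [(0, 1), (3, 8)], []⟩,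
  ⟨764, 90, 0, 224, 120, true, true, false, [(0, 1), (3, 8)], []⟩,
  ⟨786, 90, 0, 224, 120, true, true, false, [(0, 1), (3, 8)], []⟩,
  ⟨808, 90, 0, 224, 120, true, true, false, [(0, 1), (3, 8)], []⟩,
  ⟨830, 90, 0, 192, 98, true, true, false, [(0, 1), (3, 11)], []⟩,
  ⟨852, 90, 0, 192, 98, true, true, false, [(0, 1), (3, 11)], []⟩,
  ⟨884, 90, 0, 192, 98, true, true, false, [(0, 1), (3, 11)], []⟩,
  ⟨916, 90, 0, 192, 98, true, true, false, [(0, 1), (3, 11)], []⟩,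
  ⟨962, 90, 0, 192, 98, true, true, false, [(0, 1), (3, 11)], []⟩,
  ⟨1008, 90, 0, 192, 98, true, true, false, [(0, 1), (3, 11)], []⟩,
  ⟨1074, 90, 0, 192, 98, true, true, false, [(0, 2), (3, 10)], []⟩,
  ⟨1140, 90, 0, 192, 98, true, true, false, [(0, 2), (3, 10)], []⟩,
  ⟨1206, 90, 0, 192, 98, true, true, false, [(0, 2), (3, 10)], []⟩,
  ⟨1272, 90, 0, 192, 98, true, true, false, [(0, 3), (3, 9)], []⟩,
  ⟨1338, 90, 0, 192, 98, true, true, false, [(0, 12)], []⟩,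
  ⟨1470, 90, 0, 192, 98, true, true, false, [(0, 12)], []⟩,
  ⟨1731, 90, 0, 160, 78, true, true, false, [(0, 15)], []⟩,
  ⟨2452, 90, 0, 128, 60, true, true, false, [(0, 18)], []⟩,
  ⟨6340, 90, 0, 0, 0, true, false, false, [(0, 30)], []⟩,
  ⟨8555, 90, 0, 0, 0, true, false, false, [(0, 30)], []⟩
  ] = true := by decide +kernel

def g68_6 : Gr := ⟨false, 321, 326, 1024, 1024, 68, 68, 8444, 8445, 256, 3268, 0, []⟩

theorem k68_6 : chk g68_6 T300 [
  ⟨692, 70, 0, 208, 109, true, true, false, [(0, 1), (3, 13)], []⟩,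
  ⟨736, 70, 0, 208, 109, true, true, false, [(0, 1), (3, 13)], []⟩,
  ⟨799, 70, 0, 208, 109, true, true, false, [(0, 1), (3, 13)], []⟩,
  ⟨862, 70, 0, 208, 109, true, true, false, [(0, 1), (3, 13)], []⟩,
  ⟨925, 70, 0, 208, 109, true, true, false, [(0, 1), (3, 13)], []⟩,
  ⟨1015, 70, 0, 208, 109, true, true, false, [(0, 1), (3, 13)], []⟩,
  ⟨1078, 70, 0, 208, 109, true, true, false, [(0, 2), (3, 12)], []⟩,
  ⟨1141, 70, 0, 192, 98, true, true, false, [(0, 2), (3, 14)], []⟩,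
  ⟨1204, 70, 0, 192, 98, true, true, false, [(0, 2), (3, 14)], []⟩,
  ⟨1267, 70, 0, 192, 98, true, true, false, [(0, 3), (3, 13)], []⟩,
  ⟨1311, 70, 0, 192, 98, true, true, false, [(0, 6), (3, 10)], []⟩,
  ⟨1400, 70, 0, 192, 98, true, true, false, [(0, 16)], []⟩,
  ⟨1577, 70, 0, 176, 88, true, true, false, [(0, 18)], []⟩,
  ⟨1926, 70, 0, 160, 78, true, true, false, [(0, 20)], []⟩,
  ⟨3277, 70, 0, 80, 36, true, true, false, [(0, 29)], []⟩,
  ⟨6989, 70, 0, 0, 0, true, false, false, [(0, 39)], []⟩,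
  ⟨8581, 70, 0, 0, 0, true, false, false, [(0, 39)], []⟩
  ] = true := by decide +kernel

def g68_7 : Gr := ⟨false, 326, 333, 1024, 1024, 68, 68, 8444, 8445, 256, 3218, 0, []⟩

theorem k68_7 : chk g68_7 T300 [
  ⟨687, 90, 0, 224, 120, true, true, false, [(0, 1), (3, 9)], []⟩,
  ⟨702, 90, 0, 224, 120, true, true, false, [(0, 1), (3, 9)], []⟩,
  ⟨724, 90, 0, 224, 120, true, true, false, [(0, 1), (3, 9)], []⟩,
  ⟨746, 90, 0, 224, 120, true, true, false, [(0, 1), (3, 9)], []⟩,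
  ⟨768, 90, 0, 224, 120, true, true, false, [(0, 1), (3, 9)], []⟩,
  ⟨790, 90, 0, 224, 120, true, true, false, [(0, 1), (3, 9)], []⟩,
  ⟨812, 90, 0, 224, 120, true, true, false, [(0, 1), (3, 9)], []⟩,
  ⟨834, 90, 0, 224, 120, true, true, false, [(0, 1), (3, 9)], []⟩,
  ⟨856, 90, 0, 224, 120, true, true, false, [(0, 1), (3, 9)], []⟩,
  ⟨878, 90, 0, 224, 120, true, true, false, [(0, 1), (3, 9)], []⟩,
  ⟨900, 90, 0, 224, 120, true, true, false, [(0, 1), (3, 9)], []⟩,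
  ⟨922, 90, 0, 224, 120, true, true, false, [(0, 1), (3, 9)], []⟩,
  ⟨937, 90, 0, 224, 120, true, true, false, [(0, 1), (3, 9)], []⟩,
  ⟨952, 90, 0, 224, 120, true, true, false, [(0, 1), (3, 9)], []⟩,
  ⟨967, 90, 0, 192, 98, true, true, false, [(0, 1), (3, 12)], []⟩,
  ⟨990, 90, 0, 192, 98, true, true, false, [(0, 1), (3, 12)], []⟩,
  ⟨1013, 90, 0, 192, 98, true, true, false, [(0, 1), (3, 12)], []⟩,
  ⟨1036, 90, 0, 192, 98, true, true, false, [(0, 1), (3, 12)], []⟩,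
  ⟨1069, 90, 0, 192, 98, true, true, false, [(0, 2), (3, 11)], []⟩,
  ⟨1102, 90, 0, 192, 98, true, true, false, [(0, 2), (3, 11)], []⟩,
  ⟨1135, 90, 0, 192, 98, true, true, false, [(0, 2), (3, 11)], []⟩,
  ⟨1182, 90, 0, 192, 98, true, true, false, [(0, 2), (3, 11)], []⟩,
  ⟨1229, 90, 0, 192, 98, true, true, false, [(0, 2), (3, 11)], []⟩,
  ⟨1276, 90, 0, 192, 98, true, true, false, [(0, 3), (3, 10)], []⟩,
  ⟨1309, 90, 0, 192, 98, true, true, false, [(0, 4), (3, 9)], []⟩,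
  ⟨1342, 90, 0, 192, 98, true, true, false, [(0, 9), (3, 4)], []⟩,
  ⟨1409, 90, 0, 192, 98, true, true, false, [(0, 13)], []⟩,
  ⟨1504, 90, 0, 192, 98, true, true, false, [(0, 13)], []⟩,
  ⟨1771, 90, 0, 160, 78, true, true, false, [(0, 16)], []⟩,
  ⟨2508, 90, 0, 128, 60, true, true, false, [(0, 19)], []⟩,
  ⟨6486, 90, 0, 0, 0, true, false, false, [(0, 31)], []⟩,
  ⟨8631, 90, 0, 0, 0, true, false, false, [(0, 31)], []⟩
  ] = true := by decide +kernel

def g68_8 : Gr := ⟨false, 332, 335, 1024, 1024, 68, 68, 8444, 8445, 256, 3160, 0, []⟩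

theorem k68_8 : chk g68_8 T325 [
  ⟨694, 90, 0, 208, 109, true, true, false, [(0, 1), (3, 11)], []⟩,
  ⟨704, 90, 0, 208, 109, true, true, false, [(0, 1), (3, 11)], []⟩,
  ⟨720, 90, 0, 208, 109, true, true, false, [(0, 1), (3, 11)], []⟩,
  ⟨743, 90, 0, 208, 109, true, true, false, [(0, 1), (3, 11)], []⟩,
  ⟨766, 90, 0, 208, 109, true, true, false, [(0, 1), (3, 11)], []⟩,
  ⟨799, 90, 0, 208, 109, true, true, false, [(0, 1), (3, 11)], []⟩,
  ⟨832, 90, 0, 208, 109, true, true, false, [(0, 1), (3, 11)], []⟩,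
  ⟨880, 90, 0, 208, 109, true, true, false, [(0, 1), (3, 11)], []⟩,
  ⟨928, 90, 0, 208, 109, true, true, false, [(0, 1), (3, 11)], []⟩,
  ⟨996, 90, 0, 208, 109, true, true, false, [(0, 1), (3, 11)], []⟩,
  ⟨1064, 90, 0, 208, 109, true, true, false, [(0, 1), (3, 11)], []⟩,
  ⟨1132, 90, 0, 208, 109, true, true, false, [(0, 2), (3, 10)], []⟩,
  ⟨1200, 90, 0, 208, 109, true, true, false, [(0, 2), (3, 10)], []⟩,
  ⟨1248, 90, 0, 208, 109, true, true, false, [(0, 2), (3, 10)], []⟩,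
  ⟨1296, 90, 0, 208, 109, true, true, false, [(0, 3), (3, 9)], []⟩,
  ⟨1329, 90, 0, 208, 109, true, true, false, [(0, 4), (3, 8)], []⟩,
  ⟨1352, 90, 0, 208, 109, true, true, false, [(0, 7), (3, 5)], []⟩,
  ⟨1375, 90, 0, 208, 109, true, true, false, [(0, 12)], []⟩,
  ⟨1409, 90, 0, 192, 98, true, true, false, [(0, 14)], []⟩,
  ⟨1506, 90, 0, 176, 88, true, true, false, [(0, 15)], []⟩,
  ⟨1778, 90, 0, 176, 88, true, true, false, [(0, 15)], []⟩,
  ⟨2530, 90, 0, 128, 60, true, true, false, [(0, 19)], []⟩,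
  ⟨5427, 90, 0, 0, 0, true, false, false, [(0, 31)], []⟩,
  ⟨8324, 90, 0, 0, 0, true, false, false, [(0, 31)], []⟩,
  ⟨8526, 90, 0, 0, 0, true, false, false, [(0, 31)], []⟩
  ] = true := by decide +kernel

def g68_9 : Gr := ⟨false, 335, 340, 1024, 1024, 68, 68, 8444, 8445, 128, 3132, 0, []⟩

theorem k68_9 : chk g68_9 T325 [
  ⟨472, 90, 630, 80, 204, false, true, false, [(0, 1), (3, 12), (8, 1), (3, 10)], []⟩,
  ⟨534, 90, 630, 80, 196, false, true, false, [(0, 1), (3, 23)], []⟩,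
  ⟨577, 90, 450, 192, 98, false, true, false, [(0, 1), (3, 13)], []⟩,
  ⟨607, 90, 450, 192, 98, false, true, false, [(0, 1), (3, 13)], []⟩,
  ⟨628, 90, 450, 192, 98, false, true, false, [(0, 1), (3, 13)], []⟩,
  ⟨643, 90, 450, 192, 98, false, true, false, [(0, 1), (3, 13)], []⟩,
  ⟨658, 90, 0, 224, 120, true, true, false, [(0, 1), (3, 10)], []⟩,
  ⟨680, 90, 0, 224, 120, true, true, false, [(0, 1), (3, 10)], []⟩,
  ⟨702, 90, 0, 224, 120, true, true, false, [(0, 1), (3, 10)], []⟩,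
  ⟨733, 90, 0, 224, 120, true, true, false, [(0, 1), (3, 10)], []⟩,
  ⟨764, 90, 0, 224, 120, true, true, false, [(0, 1), (3, 10)], []⟩,
  ⟨809, 90, 0, 224, 120, true, true, false, [(0, 1), (3, 10)], []⟩,
  ⟨854, 90, 0, 224, 120, true, true, false, [(0, 1), (3, 10)], []⟩,
  ⟨899, 90, 0, 224, 120, true, true, false, [(0, 1), (3, 10)], []⟩,
  ⟨944, 90, 0, 224, 120, true, true, false, [(0, 1), (3, 10)], []⟩,
  ⟨989, 90, 0, 224, 120, true, true, false, [(0, 1), (3, 10)], []⟩,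
  ⟨1020, 90, 0, 224, 120, true, true, false, [(0, 1), (3, 10)], []⟩,
  ⟨1051, 90, 0, 224, 120, true, true, false, [(0, 1), (3, 10)], []⟩,
  ⟨1082, 90, 0, 224, 120, true, true, false, [(0, 2), (3, 9)], []⟩,
  ⟨1104, 90, 0, 224, 120, true, true, false, [(0, 2), (3, 9)], []⟩,
  ⟨1126, 90, 0, 192, 98, true, true, false, [(0, 2), (3, 12)], []⟩,
  ⟨1148, 90, 0, 192, 98, true, true, false, [(0, 2), (3, 12)], []⟩,
  ⟨1170, 90, 0, 192, 98, true, true, false, [(0, 2), (3, 12)], []⟩,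
  ⟨1192, 90, 0, 192, 98, true, true, false, [(0, 2), (3, 12)], []⟩,
  ⟨1224, 90, 0, 192, 98, true, true, false, [(0, 2), (3, 12)], []⟩,
  ⟨1256, 90, 0, 192, 98, true, true, false, [(0, 2), (3, 12)], []⟩,
  ⟨1288, 90, 0, 192, 98, true, true, false, [(0, 3), (3, 11)], []⟩,
  ⟨1320, 90, 0, 192, 98, true, true, false, [(0, 3), (3, 11)], []⟩,
  ⟨1352, 90, 0, 192, 98, true, true, false, [(0, 5), (3, 9)], []⟩,
  ⟨1374, 90, 0, 192, 98, true, true, false, [(0, 10), (3, 4)], []⟩,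
  ⟨1420, 90, 0, 192, 98, true, true, false, [(0, 14)], []⟩,
  ⟨1513, 90, 0, 192, 98, true, true, false, [(0, 14)], []⟩,
  ⟨1645, 90, 0, 176, 88, true, true, false, [(0, 16)], []⟩,
  ⟨2013, 90, 0, 144, 69, true, true, false, [(0, 18)], []⟩,
  ⟨3027, 90, 0, 80, 36, true, true, false, [(0, 24)], []⟩,
  ⟨6931, 90, 0, 0, 0, true, false, false, [(0, 32)], []⟩,
  ⟨8577, 90, 0, 0, 0, true, false, false, [(0, 32)], []⟩
  ] = true := by decide +kernel

def g68_10 : Gr := ⟨false, 340, 344, 1024, 1024, 68, 68, 8444, 8445, 128, 3086, 0, []⟩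

theorem k68_10 : chk g68_10 T325 [
  ⟨477, 90, 630, 72, 216, false, false, false, [(0, 1), (3, 12), (8, 1), (3, 11)], []⟩,
  ⟨539, 90, 630, 72, 208, false, false, false, [(0, 1), (3, 24)], []⟩,
  ⟨582, 90, 450, 192, 98, false, true, false, [(0, 1), (3, 13)], []⟩,
  ⟨625, 90, 450, 192, 98, false, true, false, [(0, 1), (3, 13)], []⟩,
  ⟨655, 90, 450, 192, 98, false, true, false, [(0, 1), (3, 13)], []⟩,
  ⟨685, 90, 0, 224, 120, true, true, false, [(0, 1), (3, 10)], []⟩,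
  ⟨728, 90, 0, 224, 120, true, true, false, [(0, 1), (3, 10)], []⟩,
  ⟨771, 90, 0, 224, 120, true, true, false, [(0, 1), (3, 10)], []⟩,
  ⟨814, 90, 0, 224, 120, true, true, false, [(0, 1), (3, 10)], []⟩,
  ⟨876, 90, 0, 224, 120, true, true, false, [(0, 1), (3, 10)], []⟩,
  ⟨938, 90, 0, 224, 120, true, true, false, [(0, 1), (3, 10)], []⟩,
  ⟨1000, 90, 0, 224, 120, true, true, false, [(0, 1), (3, 10)], []⟩,
  ⟨1043, 90, 0, 208, 109, true, true, false, [(0, 1), (3, 12)], []⟩,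
  ⟨1105, 90, 0, 208, 109, true, true, false, [(0, 2), (3, 11)], []⟩,
  ⟨1167, 90, 0, 208, 109, true, true, false, [(0, 2), (3, 11)], []⟩,
  ⟨1229, 90, 0, 208, 109, true, true, false, [(0, 2), (3, 11)], []⟩,
  ⟨1272, 90, 0, 192, 98, true, true, false, [(0, 2), (3, 12)], []⟩,
  ⟨1315, 90, 0, 192, 98, true, true, false, [(0, 3), (3, 11)], []⟩,
  ⟨1358, 90, 0, 192, 98, true, true, false, [(0, 4), (3, 10)], []⟩,
  ⟨1401, 90, 0, 192, 98, true, true, false, [(0, 8), (3, 6)], []⟩,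
  ⟨1488, 90, 0, 192, 98, true, true, false, [(0, 14)], []⟩,
  ⟨1612, 90, 0, 192, 98, true, true, false, [(0, 14)], []⟩,
  ⟨1956, 90, 0, 160, 78, true, true, false, [(0, 17)], []⟩,
  ⟨2906, 90, 0, 104, 48, true, true, false, [(0, 22)], []⟩,
  ⟨6563, 90, 0, 0, 0, true, false, false, [(0, 32)], []⟩,
  ⟨8550, 90, 0, 0, 0, true, false, false, [(0, 32)], []⟩
  ] = true := by decide +kernel

def g68_11 : Gr := ⟨false, 344, 350, 1024, 1024, 68, 68, 8444, 8445, 128, 3050, 0, []⟩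

theorem k68_11 : chk g68_11 T325 [
  ⟨481, 70, 630, 80, 212, false, true, false, [(0, 1), (3, 16), (8, 1), (3, 14)], []⟩,
  ⟨543, 70, 630, 88, 200, false, false, false, [(0, 1), (3, 30)], []⟩,
  ⟨605, 70, 420, 208, 109, false, true, false, [(0, 1), (3, 16)], []⟩,
  ⟨648, 70, 420, 208, 109, false, true, false, [(0, 1), (3, 16)], []⟩,
  ⟨678, 70, 0, 224, 120, true, true, false, [(0, 1), (3, 14)], []⟩,
  ⟨721, 70, 0, 224, 120, true, true, false, [(0, 1), (3, 14)], []⟩,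
  ⟨764, 70, 0, 224, 120, true, true, false, [(0, 1), (3, 14)], []⟩,
  ⟨826, 70, 0, 224, 120, true, true, false, [(0, 1), (3, 14)], []⟩,
  ⟨888, 70, 0, 224, 120, true, true, false, [(0, 1), (3, 14)], []⟩,
  ⟨950, 70, 0, 224, 120, true, true, false, [(0, 1), (3, 14)], []⟩,
  ⟨1012, 70, 0, 224, 120, true, true, false, [(0, 1), (3, 14)], []⟩,
  ⟨1074, 70, 0, 208, 109, true, true, false, [(0, 1), (3, 16)], []⟩,
  ⟨1136, 70, 0, 208, 109, true, true, false, [(0, 2), (3, 15)], []⟩,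
  ⟨1198, 70, 0, 208, 109, true, true, false, [(0, 2), (3, 15)], []⟩,
  ⟨1260, 70, 0, 208, 109, true, true, false, [(0, 2), (3, 15)], []⟩,
  ⟨1303, 70, 0, 208, 109, true, true, false, [(0, 3), (3, 14)], []⟩,
  ⟨1346, 70, 0, 208, 109, true, true, false, [(0, 3), (3, 14)], []⟩,
  ⟨1376, 70, 0, 208, 109, true, true, false, [(0, 4), (3, 13)], []⟩,
  ⟨1397, 70, 0, 208, 109, true, true, false, [(0, 7), (3, 10)], []⟩,
  ⟨1412, 70, 0, 208, 109, true, true, false, [(0, 15), (3, 2)], []⟩,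
  ⟨1443, 70, 0, 192, 98, true, true, false, [(0, 19)], []⟩,
  ⟨1507, 70, 0, 192, 98, true, true, false, [(0, 19)], []⟩,
  ⟨1636, 70, 0, 176, 88, true, true, false, [(0, 21)], []⟩,
  ⟨1892, 70, 0, 160, 78, true, true, false, [(0, 23)], []⟩,
  ⟨2599, 70, 0, 104, 48, true, true, false, [(0, 29)], []⟩,
  ⟨6412, 70, 0, 0, 0, true, false, false, [(0, 42)], []⟩,
  ⟨8598, 70, 0, 0, 0, true, false, false, [(0, 42)], []⟩
  ] = true := by decide +kernel

def g68_12 : Gr := ⟨false, 350, 355, 1024, 1024, 68, 68, 8444, 8445, 128, 2997, 0, []⟩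

theorem k68_12 : chk g68_12 T325 [
  ⟨487, 90, 630, 72, 224, false, false, false, [(0, 1), (3, 25)], []⟩,
  ⟨549, 90, 630, 96, 196, false, true, false, [(0, 1), (3, 23)], []⟩,
  ⟨592, 90, 450, 192, 98, false, true, false, [(0, 1), (3, 14)], []⟩,
  ⟨635, 90, 450, 208, 109, false, true, false, [(0, 1), (3, 13)], []⟩,
  ⟨665, 90, 450, 208, 109, false, true, false, [(0, 1), (3, 13)], []⟩,
  ⟨686, 90, 450, 192, 98, false, true, false, [(0, 1), (3, 14)], []⟩,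
  ⟨707, 90, 0, 240, 132, true, true, false, [(0, 1), (3, 10)], []⟩,
  ⟨728, 90, 0, 240, 132, true, true, false, [(0, 1), (3, 10)], []⟩,
  ⟨749, 90, 0, 240, 132, true, true, false, [(0, 1), (3, 10)], []⟩,
  ⟨770, 90, 0, 240, 132, true, true, false, [(0, 1), (3, 10)], []⟩,
  ⟨801, 90, 0, 240, 132, true, true, false, [(0, 1), (3, 10)], []⟩,
  ⟨832, 90, 0, 240, 132, true, true, false, [(0, 1), (3, 10)], []⟩,
  ⟨853, 90, 0, 240, 132, true, true, false, [(0, 1), (3, 10)], []⟩,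
  ⟨874, 90, 0, 240, 132, true, true, false, [(0, 1), (3, 10)], []⟩,
  ⟨895, 90, 0, 240, 132, true, true, false, [(0, 1), (3, 10)], []⟩,
  ⟨916, 90, 0, 240, 132, true, true, false, [(0, 1), (3, 10)], []⟩,
  ⟨931, 90, 0, 208, 109, true, true, false, [(0, 1), (3, 13)], []⟩,
  ⟨953, 90, 0, 208, 109, true, true, false, [(0, 1), (3, 13)], []⟩,
  ⟨975, 90, 0, 208, 109, true, true, false, [(0, 1), (3, 13)], []⟩,
  ⟨1007, 90, 0, 208, 109, true, true, false, [(0, 1), (3, 13)], []⟩,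
  ⟨1039, 90, 0, 208, 109, true, true, false, [(0, 1), (3, 13)], []⟩,
  ⟨1071, 90, 0, 208, 109, true, true, false, [(0, 1), (3, 13)], []⟩,
  ⟨1117, 90, 0, 208, 109, true, true, false, [(0, 2), (3, 12)], []⟩,
  ⟨1163, 90, 0, 208, 109, true, true, false, [(0, 2), (3, 12)], []⟩,
  ⟨1209, 90, 0, 208, 109, true, true, false, [(0, 2), (3, 12)], []⟩,
  ⟨1255, 90, 0, 208, 109, true, true, false, [(0, 2), (3, 12)], []⟩,
  ⟨1301, 90, 0, 208, 109, true, true, false, [(0, 2), (3, 12)], []⟩,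
  ⟨1333, 90, 0, 192, 98, true, true, false, [(0, 3), (3, 12)], []⟩,
  ⟨1365, 90, 0, 192, 98, true, true, false, [(0, 3), (3, 12)], []⟩,
  ⟨1397, 90, 0, 192, 98, true, true, false, [(0, 4), (3, 11)], []⟩,
  ⟨1429, 90, 0, 192, 98, true, true, false, [(0, 7), (3, 8)], []⟩,
  ⟨1494, 90, 0, 192, 98, true, true, false, [(0, 15)], []⟩,
  ⟨1625, 90, 0, 192, 98, true, true, false, [(0, 15)], []⟩,
  ⟨1884, 90, 0, 160, 78, true, true, false, [(0, 18)], []⟩,
  ⟨2600, 90, 0, 128, 60, true, true, false, [(0, 21)], []⟩,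
  ⟨6465, 90, 0, 0, 0, true, false, false, [(0, 33)], []⟩,
  ⟨8569, 90, 0, 0, 0, true, false, false, [(0, 33)], []⟩
  ] = true := by decide +kernel

def g68_13 : Gr := ⟨false, 355, 359, 1024, 1024, 68, 68, 8444, 8445, 0, 2048, 0, []⟩

theorem k68_13 : chk g68_13 T325 [
  ⟨355, 90, 720, 32, 272, false, false, false, [(0, 1), (3, 4), (15, 3), (6, 1), (7, 2), (8, 3), (9, 2), (3, 14)], []⟩,
  ⟨476, 90, 630, 88, 216, false, false, false, [(0, 1), (3, 24)], []⟩,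
  ⟨561, 90, 630, 88, 208, false, false, false, [(0, 1), (3, 24)], []⟩,
  ⟨620, 90, 450, 208, 109, false, true, false, [(0, 1), (3, 13)], []⟩,
  ⟨661, 90, 450, 208, 109, false, true, false, [(0, 1), (3, 13)], []⟩,
  ⟨702, 90, 450, 208, 109, false, true, false, [(0, 1), (3, 13)], []⟩,
  ⟨743, 90, 0, 240, 132, true, true, false, [(0, 1), (3, 10)], []⟩,
  ⟨784, 90, 0, 240, 132, true, true, false, [(0, 1), (3, 10)], []⟩,
  ⟨825, 90, 0, 240, 132, true, true, false, [(0, 1), (3, 10)], []⟩,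
  ⟨866, 90, 0, 224, 120, true, true, false, [(0, 1), (3, 12)], []⟩,
  ⟨907, 90, 0, 224, 120, true, true, false, [(0, 1), (3, 12)], []⟩,
  ⟨948, 90, 0, 224, 120, true, true, false, [(0, 1), (3, 12)], []⟩,
  ⟨1007, 90, 0, 224, 120, true, true, false, [(0, 1), (3, 12)], []⟩,
  ⟨1066, 90, 0, 224, 120, true, true, false, [(0, 1), (3, 12)], []⟩,
  ⟨1125, 90, 0, 208, 109, true, true, false, [(0, 2), (3, 12)], []⟩,
  ⟨1184, 90, 0, 208, 109, true, true, false, [(0, 2), (3, 12)], []⟩,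
  ⟨1243, 90, 0, 208, 109, true, true, false, [(0, 2), (3, 12)], []⟩,
  ⟨1302, 90, 0, 208, 109, true, true, false, [(0, 2), (3, 12)], []⟩,
  ⟨1361, 90, 0, 208, 109, true, true, false, [(0, 3), (3, 11)], []⟩,
  ⟨1402, 90, 0, 208, 109, true, true, false, [(0, 4), (3, 10)], []⟩,
  ⟨1431, 90, 0, 208, 109, true, true, false, [(0, 5), (3, 9)], []⟩,
  ⟨1460, 90, 0, 208, 109, true, true, false, [(0, 11), (3, 3)], []⟩,
  ⟨1501, 90, 0, 208, 109, true, true, false, [(0, 14)], []⟩,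
  ⟨1560, 90, 0, 192, 98, true, true, false, [(0, 16)], []⟩,
  ⟨1727, 90, 0, 176, 88, true, true, false, [(0, 17)], []⟩,
  ⟨2058, 90, 0, 144, 69, true, true, false, [(0, 20)], []⟩,
  ⟨2971, 90, 0, 88, 40, true, true, false, [(0, 25)], []⟩,
  ⟨5922, 90, 0, 0, 0, true, false, false, [(0, 33)], []⟩
  ] = true := by decide +kernel

def g68_14 : Gr := ⟨false, 358, 363, 1024, 1024, 68, 68, 8444, 8445, 0, 2048, 0, []⟩

theorem k68_14 : chk g68_14 T350 [
  ⟨355, 50, 650, 48, 261, false, true, false, [(0, 1), (3, 8), (18, 5), (8, 2), (9, 5), (10, 4), (11, 4), (12, 4), (3, 19)], []⟩,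
  ⟨529, 50, 650, 72, 224, false, false, false, [(0, 1), (3, 22), (10, 2), (11, 4), (3, 19)], []⟩,
  ⟨614, 50, 450, 224, 120, false, true, false, [(0, 1), (3, 22)], []⟩,
  ⟨673, 50, 400, 224, 120, false, true, false, [(0, 1), (3, 22)], []⟩,
  ⟨732, 50, 0, 224, 120, true, true, false, [(0, 1), (3, 22)], []⟩,
  ⟨791, 50, 0, 224, 120, true, true, false, [(0, 1), (3, 22)], []⟩,
  ⟨875, 50, 0, 224, 120, true, true, false, [(0, 1), (3, 22)], []⟩,
  ⟨959, 50, 0, 224, 120, true, true, false, [(0, 1), (3, 22)], []⟩,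
  ⟨1043, 50, 0, 224, 120, true, true, false, [(0, 1), (3, 22)], []⟩,
  ⟨1127, 50, 0, 224, 120, true, true, false, [(0, 1), (3, 22)], []⟩,
  ⟨1211, 50, 0, 224, 120, true, true, false, [(0, 2), (3, 21)], []⟩,
  ⟨1270, 50, 0, 208, 109, true, true, false, [(0, 2), (3, 24)], []⟩,
  ⟨1329, 50, 0, 208, 109, true, true, false, [(0, 2), (3, 24)], []⟩,
  ⟨1370, 50, 0, 208, 109, true, true, false, [(0, 3), (3, 23)], []⟩,
  ⟨1411, 50, 0, 208, 109, true, true, false, [(0, 4), (3, 22)], []⟩,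
  ⟨1440, 50, 0, 208, 109, true, true, false, [(0, 5), (3, 21)], []⟩,
  ⟨1460, 50, 0, 208, 109, true, true, false, [(0, 10), (3, 16)], []⟩,
  ⟨1480, 50, 0, 208, 109, true, true, false, [(0, 26)], []⟩,
  ⟨1509, 50, 0, 192, 98, true, true, false, [(0, 29)], []⟩,
  ⟨1594, 50, 0, 192, 98, true, true, false, [(0, 29)], []⟩,
  ⟨1831, 50, 0, 176, 88, true, true, false, [(0, 31)], []⟩,
  ⟨2299, 50, 0, 128, 60, true, true, false, [(0, 39)], []⟩,
  ⟨4830, 50, 0, 24, 11, true, true, false, [(0, 56)], []⟩,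
  ⟨5988, 50, 0, 0, 0, true, false, false, [(0, 60)], []⟩
  ] = true := by decide +kernel

def g68_15 : Gr := ⟨false, 363, 368, 1024, 1024, 68, 68, 8444, 8445, 0, 2048, 0, []⟩

theorem k68_15 : chk g68_15 T350 [
  ⟨355, 120, 720, 20, 289, false, true, false, [(0, 1), (3, 3), (18, 2), (8, 1), (9, 1), (10, 2), (11, 2), (12, 2), (3, 10)], []⟩,
  ⟨526, 120, 720, 80, 224, false, false, false, [(0, 1), (3, 9), (11, 2), (3, 8)], []⟩,
  ⟨584, 120, 600, 80, 216, false, false, false, [(0, 1), (3, 19)], []⟩,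
  ⟨625, 120, 480, 208, 109, false, true, false, [(0, 1), (3, 10)], []⟩,
  ⟨666, 120, 480, 208, 109, false, true, false, [(0, 1), (3, 10)], []⟩,
  ⟨694, 120, 480, 208, 109, false, true, false, [(0, 1), (3, 10)], []⟩,
  ⟨714, 120, 480, 208, 109, false, true, false, [(0, 1), (3, 10)], []⟩,
  ⟨734, 120, 480, 208, 109, false, true, false, [(0, 1), (3, 10)], []⟩,
  ⟨748, 120, 480, 208, 109, false, true, false, [(0, 1), (3, 10)], []⟩,
  ⟨757, 120, 0, 240, 132, true, true, false, [(0, 1), (3, 8)], []⟩,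
  ⟨771, 120, 0, 240, 132, true, true, false, [(0, 1), (3, 8)], []⟩,
  ⟨785, 120, 0, 240, 132, true, true, false, [(0, 1), (3, 8)], []⟩,
  ⟨799, 120, 0, 240, 132, true, true, false, [(0, 1), (3, 8)], []⟩,
  ⟨813, 120, 0, 240, 132, true, true, false, [(0, 1), (3, 8)], []⟩,
  ⟨834, 120, 0, 240, 132, true, true, false, [(0, 1), (3, 8)], []⟩,
  ⟨855, 120, 0, 224, 120, true, true, false, [(0, 1), (3, 9)], []⟩,
  ⟨876, 120, 0, 224, 120, true, true, false, [(0, 1), (3, 9)], []⟩,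
  ⟨907, 120, 0, 224, 120, true, true, false, [(0, 1), (3, 9)], []⟩,
  ⟨938, 120, 0, 224, 120, true, true, false, [(0, 1), (3, 9)], []⟩,
  ⟨983, 120, 0, 224, 120, true, true, false, [(0, 1), (3, 9)], []⟩,
  ⟨1028, 120, 0, 224, 120, true, true, false, [(0, 1), (3, 9)], []⟩,
  ⟨1073, 120, 0, 224, 120, true, true, false, [(0, 1), (3, 9)], []⟩,
  ⟨1118, 120, 0, 224, 120, true, true, false, [(0, 1), (3, 9)], []⟩,
  ⟨1163, 120, 0, 224, 120, true, true, false, [(0, 2), (3, 8)], []⟩,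
  ⟨1208, 120, 0, 208, 109, true, true, false, [(0, 2), (3, 9)], []⟩,
  ⟨1253, 120, 0, 208, 109, true, true, false, [(0, 2), (3, 9)], []⟩,
  ⟨1298, 120, 0, 208, 109, true, true, false, [(0, 2), (3, 9)], []⟩,
  ⟨1343, 120, 0, 208, 109, true, true, false, [(0, 2), (3, 9)], []⟩,
  ⟨1388, 120, 0, 208, 109, true, true, false, [(0, 3), (3, 8)], []⟩,
  ⟨1419, 120, 0, 208, 109, true, true, false, [(0, 3), (3, 8)], []⟩,
  ⟨1450, 120, 0, 208, 109, true, true, false, [(0, 4), (3, 7)], []⟩,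
  ⟨1472, 120, 0, 208, 109, true, true, false, [(0, 6), (3, 5)], []⟩,
  ⟨1494, 120, 0, 208, 109, true, true, false, [(0, 11)], []⟩,
  ⟨1525, 120, 0, 208, 109, true, true, false, [(0, 11)], []⟩,
  ⟨1570, 120, 0, 208, 109, true, true, false, [(0, 11)], []⟩,
  ⟨1615, 120, 0, 208, 109, true, true, false, [(0, 11)], []⟩,
  ⟨1706, 120, 0, 192, 98, true, true, false, [(0, 13)], []⟩,
  ⟨1888, 120, 0, 176, 88, true, true, false, [(0, 14)], []⟩,
  ⟨2393, 120, 0, 128, 60, true, true, false, [(0, 17)], []⟩,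
  ⟨6070, 120, 0, 6, 3, true, true, false, [(0, 25)], []⟩
  ] = true := by decide +kernel

def g68_16 : Gr := ⟨false, 368, 371, 1024, 1024, 68, 68, 8444, 8445, 0, 2048, 0, []⟩

theorem k68_16 : chk g68_16 T350 [
  ⟨355, 90, 720, 12, 300, false, false, false, [(0, 1), (3, 4), (18, 3), (8, 1), (9, 2), (10, 3), (11, 2), (12, 2), (3, 15)], []⟩,
  ⟨529, 90, 630, 88, 216, false, false, false, [(0, 1), (3, 12), (10, 1), (11, 2), (3, 10)], []⟩,
  ⟨614, 90, 630, 88, 208, false, false, false, [(0, 1), (3, 25)], []⟩,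
  ⟨673, 90, 450, 208, 109, false, true, false, [(0, 1), (3, 14)], []⟩,
  ⟨732, 90, 450, 208, 109, false, true, false, [(0, 1), (3, 14)], []⟩,
  ⟨773, 90, 450, 208, 109, false, true, false, [(0, 1), (3, 14)], []⟩,
  ⟨802, 90, 450, 208, 109, false, true, false, [(0, 1), (3, 14)], []⟩,
  ⟨831, 90, 0, 224, 120, true, true, false, [(0, 1), (3, 13)], []⟩,
  ⟨872, 90, 0, 224, 120, true, true, false, [(0, 1), (3, 13)], []⟩,
  ⟨913, 90, 0, 224, 120, true, true, false, [(0, 1), (3, 13)], []⟩,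
  ⟨972, 90, 0, 224, 120, true, true, false, [(0, 1), (3, 13)], []⟩,
  ⟨1031, 90, 0, 224, 120, true, true, false, [(0, 1), (3, 13)], []⟩,
  ⟨1090, 90, 0, 224, 120, true, true, false, [(0, 1), (3, 13)], []⟩,
  ⟨1149, 90, 0, 224, 120, true, true, false, [(0, 1), (3, 13)], []⟩,
  ⟨1208, 90, 0, 208, 109, true, true, false, [(0, 2), (3, 13)], []⟩,
  ⟨1267, 90, 0, 208, 109, true, true, false, [(0, 2), (3, 13)], []⟩,
  ⟨1326, 90, 0, 208, 109, true, true, false, [(0, 2), (3, 13)], []⟩,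
  ⟨1385, 90, 0, 208, 109, true, true, false, [(0, 2), (3, 13)], []⟩,
  ⟨1444, 90, 0, 208, 109, true, true, false, [(0, 3), (3, 12)], []⟩,
  ⟨1485, 90, 0, 208, 109, true, true, false, [(0, 5), (3, 10)], []⟩,
  ⟨1526, 90, 0, 208, 109, true, true, false, [(0, 15)], []⟩,
  ⟨1585, 90, 0, 208, 109, true, true, false, [(0, 15)], []⟩,
  ⟨1704, 90, 0, 192, 98, true, true, false, [(0, 17)], []⟩,
  ⟨1939, 90, 0, 176, 88, true, true, false, [(0, 18)], []⟩,
  ⟨2590, 90, 0, 128, 60, true, true, false, [(0, 23)], []⟩,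
  ⟨6104, 90, 0, 0, 0, true, false, false, [(0, 34)], []⟩,
  ⟨6120, 90, 0, 0, 0, true, false, false, [(0, 34)], []⟩
  ] = true := by decide +kernel

def g68_17 : Gr := ⟨false, 371, 376, 1024, 1024, 68, 68, 8444, 8445, 0, 2048, 0, []⟩

theorem k68_17 : chk g68_17 T350 [
  ⟨355, 70, 700, 28, 292, false, false, false, [(0, 1), (3, 6), (18, 3), (8, 2), (9, 3), (10, 3), (11, 3), (12, 2), (3, 18)], []⟩,
  ⟨529, 70, 630, 88, 224, false, false, false, [(0, 1), (3, 16), (10, 1), (11, 3), (3, 13)], []⟩,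
  ⟨614, 70, 630, 88, 216, false, false, false, [(0, 1), (3, 33)], []⟩,
  ⟨699, 70, 490, 208, 109, false, true, false, [(0, 1), (3, 19)], []⟩,
  ⟨758, 70, 490, 208, 109, false, true, false, [(0, 1), (3, 19)], []⟩,
  ⟨799, 70, 0, 224, 120, true, true, false, [(0, 1), (3, 17)], []⟩,
  ⟨840, 70, 0, 224, 120, true, true, false, [(0, 1), (3, 17)], []⟩,
  ⟨899, 70, 0, 224, 120, true, true, false, [(0, 1), (3, 17)], []⟩,
  ⟨958, 70, 0, 224, 120, true, true, false, [(0, 1), (3, 17)], []⟩,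
  ⟨1042, 70, 0, 224, 120, true, true, false, [(0, 1), (3, 17)], []⟩,
  ⟨1126, 70, 0, 224, 120, true, true, false, [(0, 1), (3, 17)], []⟩,
  ⟨1210, 70, 0, 224, 120, true, true, false, [(0, 2), (3, 16)], []⟩,
  ⟨1269, 70, 0, 224, 120, true, true, false, [(0, 2), (3, 16)], []⟩,
  ⟨1328, 70, 0, 208, 109, true, true, false, [(0, 2), (3, 18)], []⟩,
  ⟨1387, 70, 0, 208, 109, true, true, false, [(0, 2), (3, 18)], []⟩,
  ⟨1428, 70, 0, 208, 109, true, true, false, [(0, 3), (3, 17)], []⟩,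
  ⟨1469, 70, 0, 208, 109, true, true, false, [(0, 4), (3, 16)], []⟩,
  ⟨1497, 70, 0, 208, 109, true, true, false, [(0, 6), (3, 14)], []⟩,
  ⟨1525, 70, 0, 208, 109, true, true, false, [(0, 13), (3, 7)], []⟩,
  ⟨1566, 70, 0, 208, 109, true, true, false, [(0, 20)], []⟩,
  ⟨1649, 70, 0, 192, 98, true, true, false, [(0, 22)], []⟩,
  ⟨1815, 70, 0, 176, 88, true, true, false, [(0, 24)], []⟩,
  ⟨2143, 70, 0, 160, 78, true, true, false, [(0, 26)], []⟩,
  ⟨3412, 70, 0, 80, 36, true, true, false, [(0, 35)], []⟩,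
  ⟨6202, 70, 0, 0, 0, true, false, false, [(0, 45)], []⟩
  ] = true := by decide +kernel

def g68_18 : Gr := ⟨false, 376, 382, 1024, 1024, 68, 68, 8444, 8445, 0, 2048, 0, []⟩

theorem k68_18 : chk g68_18 T350 [
  ⟨355, 120, 720, 20, 300, false, false, false, [(0, 1), (3, 3), (18, 2), (8, 1), (9, 1), (10, 2), (11, 2), (12, 2), (3, 11)], []⟩,
  ⟨529, 120, 720, 80, 232, false, false, false, [(0, 1), (3, 9), (11, 2), (3, 9)], []⟩,
  ⟨614, 120, 720, 80, 224, false, false, false, [(0, 1), (3, 20)], []⟩,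
  ⟨673, 120, 480, 208, 109, false, true, false, [(0, 1), (3, 11)], []⟩,
  ⟨714, 120, 480, 208, 109, false, true, false, [(0, 1), (3, 11)], []⟩,
  ⟨743, 120, 480, 208, 109, false, true, false, [(0, 1), (3, 11)], []⟩,
  ⟨763, 120, 480, 208, 109, false, true, false, [(0, 1), (3, 11)], []⟩,
  ⟨783, 120, 480, 208, 109, false, true, false, [(0, 1), (3, 11)], []⟩,
  ⟨797, 120, 480, 208, 109, false, true, false, [(0, 1), (3, 11)], []⟩,
  ⟨811, 120, 0, 240, 132, true, true, false, [(0, 1), (3, 9)], []⟩,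
  ⟨825, 120, 0, 240, 132, true, true, false, [(0, 1), (3, 9)], []⟩,
  ⟨846, 120, 0, 240, 132, true, true, false, [(0, 1), (3, 9)], []⟩,
  ⟨867, 120, 0, 240, 132, true, true, false, [(0, 1), (3, 9)], []⟩,
  ⟨888, 120, 0, 240, 132, true, true, false, [(0, 1), (3, 9)], []⟩,
  ⟨918, 120, 0, 240, 132, true, true, false, [(0, 1), (3, 9)], []⟩,
  ⟨948, 120, 0, 240, 132, true, true, false, [(0, 1), (3, 9)], []⟩,
  ⟨978, 120, 0, 240, 132, true, true, false, [(0, 1), (3, 9)], []⟩,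
  ⟨1008, 120, 0, 224, 120, true, true, false, [(0, 1), (3, 10)], []⟩,
  ⟨1038, 120, 0, 224, 120, true, true, false, [(0, 1), (3, 10)], []⟩,
  ⟨1081, 120, 0, 224, 120, true, true, false, [(0, 1), (3, 10)], []⟩,
  ⟨1124, 120, 0, 224, 120, true, true, false, [(0, 1), (3, 10)], []⟩,
  ⟨1167, 120, 0, 224, 120, true, true, false, [(0, 2), (3, 9)], []⟩,
  ⟨1210, 120, 0, 224, 120, true, true, false, [(0, 2), (3, 9)], []⟩,
  ⟨1253, 120, 0, 224, 120, true, true, false, [(0, 2), (3, 9)], []⟩,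
  ⟨1283, 120, 0, 224, 120, true, true, false, [(0, 2), (3, 9)], []⟩,
  ⟨1313, 120, 0, 208, 109, true, true, false, [(0, 2), (3, 10)], []⟩,
  ⟨1343, 120, 0, 208, 109, true, true, false, [(0, 2), (3, 10)], []⟩,
  ⟨1373, 120, 0, 208, 109, true, true, false, [(0, 2), (3, 10)], []⟩,
  ⟨1403, 120, 0, 208, 109, true, true, false, [(0, 3), (3, 9)], []⟩,
  ⟨1433, 120, 0, 208, 109, true, true, false, [(0, 3), (3, 9)], []⟩,
  ⟨1463, 120, 0, 208, 109, true, true, false, [(0, 3), (3, 9)], []⟩,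
  ⟨1484, 120, 0, 208, 109, true, true, false, [(0, 4), (3, 8)], []⟩,
  ⟨1498, 120, 0, 208, 109, true, true, false, [(0, 5), (3, 7)], []⟩,
  ⟨1512, 120, 0, 208, 109, true, true, false, [(0, 6), (3, 6)], []⟩,
  ⟨1526, 120, 0, 208, 109, true, true, false, [(0, 8), (3, 4)], []⟩,
  ⟨1536, 120, 0, 208, 109, true, true, false, [(0, 10), (3, 2)], []⟩,
  ⟨1551, 120, 0, 208, 109, true, true, false, [(0, 12)], []⟩,
  ⟨1573, 120, 0, 208, 109, true, true, false, [(0, 12)], []⟩,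
  ⟨1606, 120, 0, 208, 109, true, true, false, [(0, 12)], []⟩,
  ⟨1653, 120, 0, 208, 109, true, true, false, [(0, 12)], []⟩,
  ⟨1700, 120, 0, 208, 109, true, true, false, [(0, 12)], []⟩,
  ⟨1795, 120, 0, 192, 98, true, true, false, [(0, 14)], []⟩,
  ⟨2060, 120, 0, 160, 78, true, true, false, [(0, 16)], []⟩,
  ⟨2793, 120, 0, 112, 52, true, true, false, [(0, 19)], []⟩,
  ⟨6301, 120, 0, 0, 0, true, false, false, [(0, 27)], []⟩
  ] = true := by decide +kernel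

def g68_19 : Gr := ⟨false, 382, 384, 1024, 1024, 68, 68, 8444, 8445, 0, 2048, 0, []⟩

theorem k68_19 : chk g68_19 T350 [
  ⟨498, 70, 490, 208, 125, false, true, false, [(0, 1), (3, 6), (18, 3), (8, 2), (9, 3), (10, 3), (11, 3)], []⟩,
  ⟨617, 70, 630, 96, 216, false, false, false, [(0, 1), (3, 19), (11, 1), (3, 13)], []⟩,
  ⟨700, 70, 490, 208, 109, false, true, false, [(0, 1), (3, 20)], []⟩,
  ⟨783, 70, 490, 208, 109, false, true, false, [(0, 1), (3, 20)], []⟩,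
  ⟨866, 70, 0, 240, 132, true, true, false, [(0, 1), (3, 16)], []⟩,
  ⟨949, 70, 0, 240, 132, true, true, false, [(0, 1), (3, 16)], []⟩,
  ⟨1032, 70, 0, 240, 132, true, true, false, [(0, 1), (3, 16)], []⟩,
  ⟨1115, 70, 0, 224, 120, true, true, false, [(0, 1), (3, 18)], []⟩,
  ⟨1198, 70, 0, 224, 120, true, true, false, [(0, 2), (3, 17)], []⟩,
  ⟨1281, 70, 0, 224, 120, true, true, false, [(0, 2), (3, 17)], []⟩,
  ⟨1364, 70, 0, 224, 120, true, true, false, [(0, 2), (3, 17)], []⟩,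
  ⟨1422, 70, 0, 208, 109, true, true, false, [(0, 2), (3, 19)], []⟩,
  ⟨1480, 70, 0, 208, 109, true, true, false, [(0, 3), (3, 18)], []⟩,
  ⟨1538, 70, 0, 208, 109, true, true, false, [(0, 5), (3, 16)], []⟩,
  ⟨1579, 70, 0, 208, 109, true, true, false, [(0, 21)], []⟩,
  ⟨1637, 70, 0, 208, 109, true, true, false, [(0, 21)], []⟩,
  ⟨1801, 70, 0, 192, 98, true, true, false, [(0, 23)], []⟩,
  ⟨2126, 70, 0, 160, 78, true, true, false, [(0, 27)], []⟩,
  ⟨3022, 70, 0, 96, 44, true, true, false, [(0, 34)], []⟩,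
  ⟨6334, 70, 0, 0, 0, true, false, false, [(0, 46)], []⟩
  ] = true := by decide +kernel

def g68_20 : Gr := ⟨false, 384, 388, 1024, 1024, 68, 68, 8444, 8445, 0, 2048, 0, []⟩

theorem k68_20 : chk g68_20 T375 [
  ⟨355, 90, 720, 28, 300, false, false, false, [(0, 1), (3, 4), (19, 3), (8, 1), (9, 2), (10, 3), (11, 2), (12, 2), (3, 15)], []⟩,
  ⟨529, 90, 720, 72, 248, false, false, false, [(0, 1), (3, 13), (11, 2), (3, 1), (12, 1), (3, 11)], []⟩,
  ⟨650, 90, 630, 96, 212, false, true, false, [(0, 1), (3, 26)], []⟩,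
  ⟨709, 90, 540, 192, 122, false, true, false, [(0, 1), (3, 17)], []⟩,
  ⟨768, 90, 540, 208, 109, false, true, false, [(0, 1), (3, 16)], []⟩,
  ⟨809, 90, 0, 240, 132, true, true, false, [(0, 1), (3, 13)], []⟩,
  ⟨850, 90, 0, 240, 132, true, true, false, [(0, 1), (3, 13)], []⟩,
  ⟨909, 90, 0, 240, 132, true, true, false, [(0, 1), (3, 13)], []⟩,
  ⟨968, 90, 0, 240, 132, true, true, false, [(0, 1), (3, 13)], []⟩,
  ⟨1027, 90, 0, 240, 132, true, true, false, [(0, 1), (3, 13)], []⟩,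
  ⟨1086, 90, 0, 240, 132, true, true, false, [(0, 1), (3, 13)], []⟩,
  ⟨1145, 90, 0, 240, 132, true, true, false, [(0, 1), (3, 13)], []⟩,
  ⟨1186, 90, 0, 240, 132, true, true, false, [(0, 2), (3, 12)], []⟩,
  ⟨1215, 90, 0, 240, 132, true, true, false, [(0, 2), (3, 12)], []⟩,
  ⟨1244, 90, 0, 240, 132, true, true, false, [(0, 2), (3, 12)], []⟩,
  ⟨1273, 90, 0, 208, 109, true, true, false, [(0, 2), (3, 15)], []⟩,
  ⟨1302, 90, 0, 208, 109, true, true, false, [(0, 2), (3, 15)], []⟩,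
  ⟨1331, 90, 0, 208, 109, true, true, false, [(0, 2), (3, 15)], []⟩,
  ⟨1360, 90, 0, 208, 109, true, true, false, [(0, 2), (3, 15)], []⟩,
  ⟨1389, 90, 0, 208, 109, true, true, false, [(0, 2), (3, 15)], []⟩,
  ⟨1418, 90, 0, 208, 109, true, true, false, [(0, 3), (3, 14)], []⟩,
  ⟨1447, 90, 0, 208, 109, true, true, false, [(0, 3), (3, 14)], []⟩,
  ⟨1476, 90, 0, 208, 109, true, true, false, [(0, 3), (3, 14)], []⟩,
  ⟨1496, 90, 0, 208, 109, true, true, false, [(0, 4), (3, 13)], []⟩,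
  ⟨1516, 90, 0, 208, 109, true, true, false, [(0, 4), (3, 13)], []⟩,
  ⟨1536, 90, 0, 208, 109, true, true, false, [(0, 5), (3, 12)], []⟩,
  ⟨1550, 90, 0, 208, 109, true, true, false, [(0, 7), (3, 10)], []⟩,
  ⟨1559, 90, 0, 208, 109, true, true, false, [(0, 9), (3, 8)], []⟩,
  ⟨1568, 90, 0, 208, 109, true, true, false, [(0, 12), (3, 5)], []⟩,
  ⟨1582, 90, 0, 208, 109, true, true, false, [(0, 17)], []⟩,
  ⟨1627, 90, 0, 192, 98, true, true, false, [(0, 18)], []⟩,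
  ⟨1756, 90, 0, 192, 98, true, true, false, [(0, 18)], []⟩,
  ⟨2011, 90, 0, 176, 88, true, true, false, [(0, 20)], []⟩,
  ⟨2717, 90, 0, 128, 60, true, true, false, [(0, 24)], []⟩,
  ⟨6400, 90, 0, 0, 0, true, false, false, [(0, 36)], []⟩
  ] = true := by decide +kernel

def g68_21 : Gr := ⟨false, 388, 393, 1024, 1024, 68, 68, 8444, 8445, 0, 2048, 0, []⟩

theorem k68_21 : chk g68_21 T375 [
  ⟨355, 90, 720, 12, 316, false, false, false, [(0, 1), (3, 4), (19, 3), (8, 1), (9, 2), (10, 3), (11, 2), (12, 2), (3, 17)], []⟩,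
  ⟨529, 90, 630, 88, 240, false, false, false, [(0, 1), (3, 13), (11, 2), (3, 1), (12, 1), (3, 10)], []⟩,
  ⟨650, 90, 630, 88, 224, false, false, false, [(0, 1), (3, 27)], []⟩,
  ⟨735, 90, 540, 208, 109, false, true, false, [(0, 1), (3, 16)], []⟩,
  ⟨794, 90, 540, 208, 109, false, true, false, [(0, 1), (3, 16)], []⟩,
  ⟨835, 90, 540, 208, 109, false, true, false, [(0, 1), (3, 16)], []⟩,
  ⟨876, 90, 0, 256, 145, true, true, false, [(0, 1), (3, 12)], []⟩,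
  ⟨905, 90, 0, 256, 145, true, true, false, [(0, 1), (3, 12)], []⟩,
  ⟨934, 90, 0, 256, 145, true, true, false, [(0, 1), (3, 12)], []⟩,
  ⟨963, 90, 0, 256, 145, true, true, false, [(0, 1), (3, 12)], []⟩,
  ⟨992, 90, 0, 224, 120, true, true, false, [(0, 1), (3, 15)], []⟩,
  ⟨1021, 90, 0, 224, 120, true, true, false, [(0, 1), (3, 15)], []⟩,
  ⟨1062, 90, 0, 224, 120, true, true, false, [(0, 1), (3, 15)], []⟩,
  ⟨1103, 90, 0, 224, 120, true, true, false, [(0, 1), (3, 15)], []⟩,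
  ⟨1144, 90, 0, 224, 120, true, true, false, [(0, 1), (3, 15)], []⟩,
  ⟨1185, 90, 0, 224, 120, true, true, false, [(0, 2), (3, 14)], []⟩,
  ⟨1244, 90, 0, 224, 120, true, true, false, [(0, 2), (3, 14)], []⟩,
  ⟨1285, 90, 0, 224, 120, true, true, false, [(0, 2), (3, 14)], []⟩,
  ⟨1326, 90, 0, 208, 109, true, true, false, [(0, 2), (3, 15)], []⟩,
  ⟨1367, 90, 0, 208, 109, true, true, false, [(0, 2), (3, 15)], []⟩,
  ⟨1408, 90, 0, 208, 109, true, true, false, [(0, 2), (3, 15)], []⟩,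
  ⟨1449, 90, 0, 208, 109, true, true, false, [(0, 3), (3, 14)], []⟩,
  ⟨1490, 90, 0, 208, 109, true, true, false, [(0, 3), (3, 14)], []⟩,
  ⟨1531, 90, 0, 208, 109, true, true, false, [(0, 4), (3, 13)], []⟩,
  ⟨1560, 90, 0, 208, 109, true, true, false, [(0, 5), (3, 12)], []⟩,
  ⟨1589, 90, 0, 208, 109, true, true, false, [(0, 10), (3, 7)], []⟩,
  ⟨1630, 90, 0, 208, 109, true, true, false, [(0, 17)], []⟩,
  ⟨1689, 90, 0, 208, 109, true, true, false, [(0, 17)], []⟩,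
  ⟨1808, 90, 0, 192, 98, true, true, false, [(0, 19)], []⟩,
  ⟨2140, 90, 0, 176, 88, true, true, false, [(0, 20)], []⟩,
  ⟨3056, 90, 0, 88, 40, true, true, false, [(0, 28)], []⟩,
  ⟨6483, 90, 0, 0, 0, true, false, false, [(0, 37)], []⟩
  ] = true := by decide +kernel

def g68_22 : Gr := ⟨false, 393, 397, 1024, 1024, 68, 68, 8444, 8445, 0, 2048, 0, []⟩

theorem k68_22 : chk g68_22 T375 [
  ⟨355, 120, 720, 6, 318, false, false, false, [(0, 1), (3, 3), (19, 2), (8, 1), (9, 1), (10, 2), (11, 2), (12, 2), (3, 13)], []⟩,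
  ⟨529, 120, 720, 80, 248, false, false, false, [(0, 1), (3, 9), (11, 2), (3, 1), (12, 1), (3, 8)], []⟩,
  ⟨650, 120, 720, 96, 220, false, true, false, [(0, 1), (3, 20)], []⟩,
  ⟨709, 120, 600, 96, 216, false, false, false, [(0, 1), (3, 20)], []⟩,
  ⟨768, 120, 480, 208, 109, false, true, false, [(0, 1), (3, 12)], []⟩,
  ⟨809, 120, 480, 208, 109, false, true, false, [(0, 1), (3, 12)], []⟩,
  ⟨838, 120, 480, 208, 109, false, true, false, [(0, 1), (3, 12)], []⟩,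
  ⟨867, 120, 0, 240, 132, true, true, false, [(0, 1), (3, 10)], []⟩,
  ⟨896, 120, 0, 240, 132, true, true, false, [(0, 1), (3, 10)], []⟩,
  ⟨937, 120, 0, 240, 132, true, true, false, [(0, 1), (3, 10)], []⟩,
  ⟨978, 120, 0, 240, 132, true, true, false, [(0, 1), (3, 10)], []⟩,
  ⟨1019, 120, 0, 240, 132, true, true, false, [(0, 1), (3, 10)], []⟩,
  ⟨1078, 120, 0, 240, 132, true, true, false, [(0, 1), (3, 10)], []⟩,
  ⟨1137, 120, 0, 240, 132, true, true, false, [(0, 1), (3, 10)], []⟩,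
  ⟨1196, 120, 0, 224, 120, true, true, false, [(0, 2), (3, 10)], []⟩,
  ⟨1255, 120, 0, 224, 120, true, true, false, [(0, 2), (3, 10)], []⟩,
  ⟨1314, 120, 0, 224, 120, true, true, false, [(0, 2), (3, 10)], []⟩,
  ⟨1373, 120, 0, 224, 120, true, true, false, [(0, 2), (3, 10)], []⟩,
  ⟨1414, 120, 0, 224, 120, true, true, false, [(0, 2), (3, 10)], []⟩,
  ⟨1455, 120, 0, 208, 109, true, true, false, [(0, 3), (3, 10)], []⟩,
  ⟨1496, 120, 0, 208, 109, true, true, false, [(0, 3), (3, 10)], []⟩,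
  ⟨1537, 120, 0, 208, 109, true, true, false, [(0, 4), (3, 9)], []⟩,
  ⟨1566, 120, 0, 208, 109, true, true, false, [(0, 5), (3, 8)], []⟩,
  ⟨1595, 120, 0, 208, 109, true, true, false, [(0, 7), (3, 6)], []⟩,
  ⟨1624, 120, 0, 208, 109, true, true, false, [(0, 13)], []⟩,
  ⟨1683, 120, 0, 208, 109, true, true, false, [(0, 13)], []⟩,
  ⟨1767, 120, 0, 208, 109, true, true, false, [(0, 13)], []⟩,
  ⟨1886, 120, 0, 192, 98, true, true, false, [(0, 15)], []⟩,
  ⟨2218, 120, 0, 160, 78, true, true, false, [(0, 17)], []⟩,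
  ⟨3501, 120, 0, 80, 36, true, true, false, [(0, 22)], []⟩,
  ⟨6549, 120, 0, 0, 0, true, false, false, [(0, 28)], []⟩
  ] = true := by decide +kernel

def g68_23 : Gr := ⟨false, 397, 403, 1024, 1024, 68, 68, 8444, 8445, 0, 2048, 0, []⟩

theorem k68_23 : chk g68_23 T375 [
  ⟨355, 90, 720, 32, 304, false, false, false, [(0, 1), (3, 4), (19, 3), (8, 1), (9, 2), (10, 3), (11, 2), (12, 2), (3, 16)], []⟩,
  ⟨599, 90, 720, 88, 240, false, false, false, [(0, 1), (3, 7), (6, 1), (3, 4), (10, 1), (11, 2), (12, 2), (3, 11)], []⟩,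
  ⟨718, 90, 630, 120, 200, false, false, false, [(0, 1), (3, 25)], []⟩,
  ⟨776, 90, 540, 208, 109, false, true, false, [(0, 1), (3, 17)], []⟩,
  ⟨834, 90, 540, 208, 109, false, true, false, [(0, 1), (3, 17)], []⟩,
  ⟨875, 90, 0, 240, 132, true, true, false, [(0, 1), (3, 14)], []⟩,
  ⟨933, 90, 0, 240, 132, true, true, false, [(0, 1), (3, 14)], []⟩,
  ⟨991, 90, 0, 240, 132, true, true, false, [(0, 1), (3, 14)], []⟩,
  ⟨1049, 90, 0, 240, 132, true, true, false, [(0, 1), (3, 14)], []⟩,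
  ⟨1107, 90, 0, 240, 132, true, true, false, [(0, 1), (3, 14)], []⟩,
  ⟨1165, 90, 0, 240, 132, true, true, false, [(0, 1), (3, 14)], []⟩,
  ⟨1223, 90, 0, 240, 132, true, true, false, [(0, 2), (3, 13)], []⟩,
  ⟨1263, 90, 0, 240, 132, true, true, false, [(0, 2), (3, 13)], []⟩,
  ⟨1303, 90, 0, 240, 132, true, true, false, [(0, 2), (3, 13)], []⟩,
  ⟨1331, 90, 0, 208, 109, true, true, false, [(0, 2), (3, 16)], []⟩,
  ⟨1359, 90, 0, 208, 109, true, true, false, [(0, 2), (3, 16)], []⟩,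
  ⟨1387, 90, 0, 208, 109, true, true, false, [(0, 2), (3, 16)], []⟩,
  ⟨1415, 90, 0, 208, 109, true, true, false, [(0, 2), (3, 16)], []⟩,
  ⟨1443, 90, 0, 208, 109, true, true, false, [(0, 2), (3, 16)], []⟩,
  ⟨1471, 90, 0, 208, 109, true, true, false, [(0, 3), (3, 15)], []⟩,
  ⟨1499, 90, 0, 208, 109, true, true, false, [(0, 3), (3, 15)], []⟩,
  ⟨1527, 90, 0, 208, 109, true, true, false, [(0, 3), (3, 15)], []⟩,
  ⟨1555, 90, 0, 208, 109, true, true, false, [(0, 4), (3, 14)], []⟩,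
  ⟨1575, 90, 0, 208, 109, true, true, false, [(0, 5), (3, 13)], []⟩,
  ⟨1595, 90, 0, 208, 109, true, true, false, [(0, 6), (3, 12)], []⟩,
  ⟨1609, 90, 0, 208, 109, true, true, false, [(0, 8), (3, 10)], []⟩,
  ⟨1623, 90, 0, 208, 109, true, true, false, [(0, 13), (3, 5)], []⟩,
  ⟨1643, 90, 0, 208, 109, true, true, false, [(0, 18)], []⟩,
  ⟨1685, 90, 0, 208, 109, true, true, false, [(0, 18)], []⟩,
  ⟨1746, 90, 0, 208, 109, true, true, false, [(0, 18)], []⟩,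
  ⟨1868, 90, 0, 176, 88, true, true, false, [(0, 21)], []⟩,
  ⟨2207, 90, 0, 176, 88, true, true, false, [(0, 21)], []⟩,
  ⟨3143, 90, 0, 88, 40, true, true, false, [(0, 29)], []⟩,
  ⟨6648, 90, 0, 0, 0, true, false, false, [(0, 37)], []⟩
  ] = true := by decide +kernel

def g68_24 : Gr := ⟨false, 403, 408, 1024, 1024, 68, 68, 8444, 8445, 0, 2048, 0, []⟩

theorem k68_24 : chk g68_24 T375 [
  ⟨498, 70, 490, 240, 132, false, true, false, [(0, 1), (3, 6), (19, 3), (8, 2), (9, 3), (10, 3), (11, 2)], []⟩,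
  ⟨668, 70, 700, 96, 228, false, true, false, [(0, 1), (3, 19), (11, 1), (3, 2), (12, 1), (3, 13)], []⟩,
  ⟨751, 70, 630, 112, 204, false, true, false, [(0, 1), (3, 34)], []⟩,
  ⟨834, 70, 490, 224, 120, false, true, false, [(0, 1), (3, 21)], []⟩,
  ⟨892, 70, 0, 256, 145, true, true, false, [(0, 1), (3, 17)], []⟩,
  ⟨975, 70, 0, 256, 145, true, true, false, [(0, 1), (3, 17)], []⟩,
  ⟨1058, 70, 0, 240, 132, true, true, false, [(0, 1), (3, 19)], []⟩,
  ⟨1141, 70, 0, 240, 132, true, true, false, [(0, 1), (3, 19)], []⟩,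
  ⟨1224, 70, 0, 240, 132, true, true, false, [(0, 1), (3, 19)], []⟩,
  ⟨1282, 70, 0, 224, 120, true, true, false, [(0, 2), (3, 20)], []⟩,
  ⟨1340, 70, 0, 224, 120, true, true, false, [(0, 2), (3, 20)], []⟩,
  ⟨1398, 70, 0, 224, 120, true, true, false, [(0, 2), (3, 20)], []⟩,
  ⟨1456, 70, 0, 224, 120, true, true, false, [(0, 2), (3, 20)], []⟩,
  ⟨1496, 70, 0, 224, 120, true, true, false, [(0, 3), (3, 19)], []⟩,
  ⟨1536, 70, 0, 224, 120, true, true, false, [(0, 3), (3, 19)], []⟩,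
  ⟨1564, 70, 0, 224, 120, true, true, false, [(0, 4), (3, 18)], []⟩,
  ⟨1583, 70, 0, 208, 109, true, true, false, [(0, 4), (3, 20)], []⟩,
  ⟨1596, 70, 0, 208, 109, true, true, false, [(0, 5), (3, 19)], []⟩,
  ⟨1609, 70, 0, 208, 109, true, true, false, [(0, 6), (3, 18)], []⟩,
  ⟨1622, 70, 0, 208, 109, true, true, false, [(0, 7), (3, 17)], []⟩,
  ⟨1631, 70, 0, 208, 109, true, true, false, [(0, 9), (3, 15)], []⟩,
  ⟨1640, 70, 0, 208, 109, true, true, false, [(0, 13), (3, 11)], []⟩,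
  ⟨1649, 70, 0, 208, 109, true, true, false, [(0, 18), (3, 6)], []⟩,
  ⟨1663, 70, 0, 208, 109, true, true, false, [(0, 24)], []⟩,
  ⟨1694, 70, 0, 208, 109, true, true, false, [(0, 24)], []⟩,
  ⟨1757, 70, 0, 208, 109, true, true, false, [(0, 24)], []⟩,
  ⟨1883, 70, 0, 192, 98, true, true, false, [(0, 26)], []⟩,
  ⟨2134, 70, 0, 176, 88, true, true, false, [(0, 28)], []⟩,
  ⟨2827, 70, 0, 112, 52, true, true, false, [(0, 35)], []⟩,
  ⟨6566, 70, 0, 0, 0, true, false, false, [(0, 49)], []⟩,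
  ⟨6730, 70, 0, 0, 0, true, false, false, [(0, 49)], []⟩
  ] = true := by decide +kernel

def g68_25 : Gr := ⟨false, 408, 410, 1024, 1024, 68, 68, 8444, 8445, 0, 2048, 0, []⟩

theorem k68_25 : chk g68_25 T375 [
  ⟨355, 120, 720, 4, 332, false, false, false, [(0, 1), (3, 3), (19, 2), (8, 1), (9, 1), (10, 2), (11, 2), (12, 2), (3, 14)], []⟩,
  ⟨603, 120, 720, 96, 240, false, false, false, [(0, 1), (3, 5), (6, 1), (3, 3), (11, 2), (12, 2), (3, 8)], []⟩,
  ⟨724, 120, 720, 96, 228, false, true, false, [(0, 1), (3, 21)], []⟩,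
  ⟨809, 120, 480, 224, 120, false, true, false, [(0, 1), (3, 12)], []⟩,
  ⟨868, 120, 480, 224, 120, false, true, false, [(0, 1), (3, 12)], []⟩,
  ⟨909, 120, 0, 256, 145, true, true, false, [(0, 1), (3, 10)], []⟩,
  ⟨950, 120, 0, 256, 145, true, true, false, [(0, 1), (3, 10)], []⟩,
  ⟨991, 120, 0, 240, 132, true, true, false, [(0, 1), (3, 11)], []⟩,
  ⟨1050, 120, 0, 240, 132, true, true, false, [(0, 1), (3, 11)], []⟩,
  ⟨1109, 120, 0, 240, 132, true, true, false, [(0, 1), (3, 11)], []⟩,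
  ⟨1168, 120, 0, 240, 132, true, true, false, [(0, 1), (3, 11)], []⟩,
  ⟨1227, 120, 0, 240, 132, true, true, false, [(0, 2), (3, 10)], []⟩,
  ⟨1286, 120, 0, 224, 120, true, true, false, [(0, 2), (3, 11)], []⟩,
  ⟨1345, 120, 0, 224, 120, true, true, false, [(0, 2), (3, 11)], []⟩,
  ⟨1404, 120, 0, 224, 120, true, true, false, [(0, 2), (3, 11)], []⟩,
  ⟨1463, 120, 0, 224, 120, true, true, false, [(0, 2), (3, 11)], []⟩,
  ⟨1522, 120, 0, 224, 120, true, true, false, [(0, 3), (3, 10)], []⟩,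
  ⟨1563, 120, 0, 208, 109, true, true, false, [(0, 3), (3, 11)], []⟩,
  ⟨1604, 120, 0, 208, 109, true, true, false, [(0, 4), (3, 10)], []⟩,
  ⟨1645, 120, 0, 208, 109, true, true, false, [(0, 5), (3, 9)], []⟩,
  ⟨1674, 120, 0, 208, 109, true, true, false, [(0, 10), (3, 4)], []⟩,
  ⟨1733, 120, 0, 208, 109, true, true, false, [(0, 14)], []⟩,
  ⟨1900, 120, 0, 192, 98, true, true, false, [(0, 15)], []⟩,
  ⟨2135, 120, 0, 176, 88, true, true, false, [(0, 17)], []⟩,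
  ⟨2786, 120, 0, 120, 56, true, true, false, [(0, 20)], []⟩,
  ⟨6300, 120, 0, 0, 0, true, false, false, [(0, 29)], []⟩,
  ⟨6763, 120, 0, 0, 0, true, false, false, [(0, 29)], []⟩
  ] = true := by decide +kernel

def g68_26 : Gr := ⟨false, 409, 414, 1024, 1024, 68, 68, 8444, 8445, 0, 2048, 0, []⟩

theorem k68_26 : chk g68_26 T400 [
  ⟨498, 90, 540, 240, 132, false, true, false, [(0, 1), (3, 4), (22, 3), (10, 1), (11, 2), (12, 3), (13, 2)], []⟩,
  ⟨668, 90, 720, 88, 240, false, false, false, [(0, 1), (3, 15), (14, 2), (3, 12)], []⟩,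
  ⟨787, 90, 630, 120, 200, false, false, false, [(0, 1), (3, 16), (14, 1), (3, 9)], []⟩,
  ⟨845, 90, 540, 208, 109, false, true, false, [(0, 1), (3, 18)], []⟩,
  ⟨903, 90, 540, 208, 109, false, true, false, [(0, 1), (3, 18)], []⟩,
  ⟨961, 90, 0, 240, 132, true, true, false, [(0, 1), (3, 15)], []⟩,
  ⟨1019, 90, 0, 240, 132, true, true, false, [(0, 1), (3, 15)], []⟩,
  ⟨1102, 90, 0, 240, 132, true, true, false, [(0, 1), (3, 15)], []⟩,
  ⟨1185, 90, 0, 240, 132, true, true, false, [(0, 1), (3, 15)], []⟩,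
  ⟨1268, 90, 0, 240, 132, true, true, false, [(0, 2), (3, 14)], []⟩,
  ⟨1326, 90, 0, 240, 132, true, true, false, [(0, 2), (3, 14)], []⟩,
  ⟨1366, 90, 0, 240, 132, true, true, false, [(0, 2), (3, 14)], []⟩,
  ⟨1406, 90, 0, 240, 132, true, true, false, [(0, 2), (3, 14)], []⟩,
  ⟨1446, 90, 0, 208, 109, true, true, false, [(0, 2), (3, 17)], []⟩,
  ⟨1486, 90, 0, 208, 109, true, true, false, [(0, 2), (3, 17)], []⟩,
  ⟨1526, 90, 0, 208, 109, true, true, false, [(0, 3), (3, 16)], []⟩,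
  ⟨1554, 90, 0, 208, 109, true, true, false, [(0, 3), (3, 16)], []⟩,
  ⟨1582, 90, 0, 208, 109, true, true, false, [(0, 4), (3, 15)], []⟩,
  ⟨1610, 90, 0, 208, 109, true, true, false, [(0, 4), (3, 15)], []⟩,
  ⟨1638, 90, 0, 208, 109, true, true, false, [(0, 5), (3, 14)], []⟩,
  ⟨1657, 90, 0, 208, 109, true, true, false, [(0, 8), (3, 11)], []⟩,
  ⟨1676, 90, 0, 208, 109, true, true, false, [(0, 14), (3, 5)], []⟩,
  ⟨1717, 90, 0, 208, 109, true, true, false, [(0, 19)], []⟩,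
  ⟨1800, 90, 0, 208, 109, true, true, false, [(0, 19)], []⟩,
  ⟨1966, 90, 0, 176, 88, true, true, false, [(0, 22)], []⟩,
  ⟨2294, 90, 0, 160, 78, true, true, false, [(0, 24)], []⟩,
  ⟨3563, 90, 0, 80, 36, true, true, false, [(0, 31)], []⟩,
  ⟨6829, 90, 0, 0, 0, true, false, false, [(0, 38)], []⟩
  ] = true := by decide +kernel

def g68_27 : Gr := ⟨false, 414, 419, 1024, 1024, 68, 68, 8444, 8445, 0, 2048, 0, []⟩

theorem k68_27 : chk g68_27 T400 [
  ⟨498, 70, 560, 224, 144, false, true, false, [(0, 1), (3, 6), (22, 3), (10, 2), (11, 3), (12, 3), (13, 3), (14, 2)], []⟩,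
  ⟨738, 70, 560, 224, 120, false, true, false, [(0, 1), (3, 10), (7, 1), (3, 4), (8, 2), (3, 1), (13, 2), (14, 2)], []⟩,
  ⟨855, 70, 490, 224, 120, false, true, false, [(0, 1), (3, 22)], []⟩,
  ⟨912, 70, 490, 224, 120, false, true, false, [(0, 1), (3, 22)], []⟩,
  ⟨969, 70, 490, 224, 120, false, true, false, [(0, 1), (3, 22)], []⟩,
  ⟨1009, 70, 0, 224, 120, true, true, false, [(0, 1), (3, 22)], []⟩,
  ⟨1049, 70, 0, 224, 120, true, true, false, [(0, 1), (3, 22)], []⟩,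
  ⟨1106, 70, 0, 224, 120, true, true, false, [(0, 1), (3, 22)], []⟩,
  ⟨1163, 70, 0, 224, 120, true, true, false, [(0, 1), (3, 22)], []⟩,
  ⟨1244, 70, 0, 224, 120, true, true, false, [(0, 2), (3, 21)], []⟩,
  ⟨1325, 70, 0, 224, 120, true, true, false, [(0, 2), (3, 21)], []⟩,
  ⟨1406, 70, 0, 224, 120, true, true, false, [(0, 2), (3, 21)], []⟩,
  ⟨1487, 70, 0, 224, 120, true, true, false, [(0, 2), (3, 21)], []⟩,
  ⟨1544, 70, 0, 224, 120, true, true, false, [(0, 3), (3, 20)], []⟩,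
  ⟨1600, 70, 0, 224, 120, true, true, false, [(0, 3), (3, 20)], []⟩,
  ⟨1627, 70, 0, 208, 109, true, true, false, [(0, 4), (3, 21)], []⟩,
  ⟨1654, 70, 0, 208, 109, true, true, false, [(0, 5), (3, 20)], []⟩,
  ⟨1681, 70, 0, 208, 109, true, true, false, [(0, 8), (3, 17)], []⟩,
  ⟨1700, 70, 0, 208, 109, true, true, false, [(0, 19), (3, 6)], []⟩,
  ⟨1740, 70, 0, 208, 109, true, true, false, [(0, 25)], []⟩,
  ⟨1822, 70, 0, 208, 109, true, true, false, [(0, 25)], []⟩,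
  ⟨1985, 70, 0, 192, 98, true, true, false, [(0, 27)], []⟩,
  ⟨2437, 70, 0, 160, 78, true, true, false, [(0, 31)], []⟩,
  ⟨4182, 70, 0, 48, 21, true, true, false, [(0, 44)], []⟩,
  ⟨6912, 70, 0, 0, 0, true, false, false, [(0, 50)], []⟩
  ] = true := by decide +kernel

def g68_28 : Gr := ⟨false, 419, 425, 1024, 1024, 68, 68, 8444, 8445, 0, 2048, 0, []⟩

theorem k68_28 : chk g68_28 T400 [
  ⟨498, 120, 600, 224, 144, false, true, false, [(0, 1), (3, 3), (22, 2), (10, 1), (11, 1), (12, 2), (13, 2), (14, 2)], []⟩,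
  ⟨668, 120, 720, 96, 240, false, false, false, [(0, 1), (3, 11), (14, 2), (3, 9)], []⟩,
  ⟨787, 120, 600, 120, 208, false, false, false, [(0, 1), (3, 12), (14, 1), (3, 7)], []⟩,
  ⟨845, 120, 600, 120, 200, false, false, false, [(0, 1), (3, 20)], []⟩,
  ⟨903, 120, 480, 224, 120, false, true, false, [(0, 1), (3, 13)], []⟩,
  ⟨944, 120, 480, 224, 120, false, true, false, [(0, 1), (3, 13)], []⟩,
  ⟨972, 120, 0, 256, 145, true, true, false, [(0, 1), (3, 11)], []⟩,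
  ⟨1013, 120, 0, 256, 145, true, true, false, [(0, 1), (3, 11)], []⟩,
  ⟨1054, 120, 0, 256, 145, true, true, false, [(0, 1), (3, 11)], []⟩,
  ⟨1095, 120, 0, 240, 132, true, true, false, [(0, 1), (3, 12)], []⟩,
  ⟨1136, 120, 0, 240, 132, true, true, false, [(0, 1), (3, 12)], []⟩,
  ⟨1177, 120, 0, 240, 132, true, true, false, [(0, 1), (3, 12)], []⟩,
  ⟨1235, 120, 0, 240, 132, true, true, false, [(0, 1), (3, 12)], []⟩,
  ⟨1276, 120, 0, 240, 132, true, true, false, [(0, 2), (3, 11)], []⟩,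
  ⟨1317, 120, 0, 240, 132, true, true, false, [(0, 2), (3, 11)], []⟩,
  ⟨1358, 120, 0, 224, 120, true, true, false, [(0, 2), (3, 12)], []⟩,
  ⟨1399, 120, 0, 224, 120, true, true, false, [(0, 2), (3, 12)], []⟩,
  ⟨1440, 120, 0, 224, 120, true, true, false, [(0, 2), (3, 12)], []⟩,
  ⟨1481, 120, 0, 224, 120, true, true, false, [(0, 2), (3, 12)], []⟩,
  ⟨1522, 120, 0, 224, 120, true, true, false, [(0, 2), (3, 12)], []⟩,
  ⟨1550, 120, 0, 224, 120, true, true, false, [(0, 3), (3, 11)], []⟩,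
  ⟨1578, 120, 0, 224, 120, true, true, false, [(0, 3), (3, 11)], []⟩,
  ⟨1598, 120, 0, 224, 120, true, true, false, [(0, 3), (3, 11)], []⟩,
  ⟨1618, 120, 0, 224, 120, true, true, false, [(0, 4), (3, 10)], []⟩,
  ⟨1632, 120, 0, 208, 109, true, true, false, [(0, 4), (3, 11)], []⟩,
  ⟨1646, 120, 0, 208, 109, true, true, false, [(0, 4), (3, 11)], []⟩,
  ⟨1660, 120, 0, 208, 109, true, true, false, [(0, 5), (3, 10)], []⟩,
  ⟨1669, 120, 0, 208, 109, true, true, false, [(0, 6), (3, 9)], []⟩,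
  ⟨1678, 120, 0, 208, 109, true, true, false, [(0, 6), (3, 9)], []⟩,
  ⟨1687, 120, 0, 208, 109, true, true, false, [(0, 7), (3, 8)], []⟩,
  ⟨1696, 120, 0, 208, 109, true, true, false, [(0, 8), (3, 7)], []⟩,
  ⟨1705, 120, 0, 208, 109, true, true, false, [(0, 10), (3, 5)], []⟩,
  ⟨1714, 120, 0, 208, 109, true, true, false, [(0, 13), (3, 2)], []⟩,
  ⟨1735, 120, 0, 208, 109, true, true, false, [(0, 15)], []⟩,
  ⟨1779, 120, 0, 208, 109, true, true, false, [(0, 15)], []⟩,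
  ⟨1869, 120, 0, 208, 109, true, true, false, [(0, 15)], []⟩,
  ⟨1996, 120, 0, 192, 98, true, true, false, [(0, 17)], []⟩,
  ⟨2351, 120, 0, 160, 78, true, true, false, [(0, 19)], []⟩,
  ⟨3722, 120, 0, 64, 28, true, true, false, [(0, 25)], []⟩,
  ⟨7011, 120, 0, 0, 0, true, false, false, [(0, 30)], []⟩
  ] = true := by decide +kernel

end Pool.Agent.Lib.MP_af3a4a_an.P1.CHK.H81.L
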