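import Pool.Agent.Lib.MP_af3a4a_an.P1.CHK.H81.LT
/-!
# Data, `68 ≤ N ≤ 68`, `425 ≤ 1024 R ≤ 820` (helper81)
-/
set_option autoImplicit false

namespace Pool.Agent.Lib.MP_af3a4a_an.P1.CHK.H81.L

open Pool.Agent.Lib.MP_af3a4a_an.P1.CHK.H58.G (Gr En)

def g68_29 : Gr := ⟨false, 425, 429, 1024, 1024, 68, 68, 8444, 8445, 0, 2048, 0, []⟩

theorem k68_29 : chk g68_29 T400 [
  ⟨498, 90, 720, 80, 276, false, true, false, [(0, 1), (3, 4), (22, 3), (10, 1), (11, 2), (12, 3), (13, 2), (14, 2), (15, 3), (3, 11)], []⟩,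
  ⟨668, 90, 630, 104, 240, false, false, false, [(0, 1), (3, 15), (14, 2), (3, 12)], []⟩,
  ⟨787, 90, 630, 104, 224, false, false, false, [(0, 1), (3, 29)], []⟩,
  ⟨870, 90, 630, 104, 216, false, false, false, [(0, 1), (3, 29)], []⟩,
  ⟨953, 90, 540, 224, 120, false, true, false, [(0, 1), (3, 18)], []⟩,
  ⟨1036, 90, 0, 256, 145, true, true, false, [(0, 1), (3, 15)], []⟩,
  ⟨1119, 90, 0, 256, 145, true, true, false, [(0, 1), (3, 15)], []⟩,
  ⟨1202, 90, 0, 256, 145, true, true, false, [(0, 1), (3, 15)], []⟩,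
  ⟨1260, 90, 0, 224, 120, true, true, false, [(0, 2), (3, 17)], []⟩,
  ⟨1318, 90, 0, 224, 120, true, true, false, [(0, 2), (3, 17)], []⟩,
  ⟨1376, 90, 0, 224, 120, true, true, false, [(0, 2), (3, 17)], []⟩,
  ⟨1459, 90, 0, 224, 120, true, true, false, [(0, 2), (3, 17)], []⟩,
  ⟨1517, 90, 0, 224, 120, true, true, false, [(0, 2), (3, 17)], []⟩,
  ⟨1575, 90, 0, 224, 120, true, true, false, [(0, 3), (3, 16)], []⟩,
  ⟨1633, 90, 0, 224, 120, true, true, false, [(0, 3), (3, 16)], []⟩,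
  ⟨1673, 90, 0, 224, 120, true, true, false, [(0, 4), (3, 15)], []⟩,
  ⟨1701, 90, 0, 224, 120, true, true, false, [(0, 6), (3, 13)], []⟩,
  ⟨1720, 90, 0, 224, 120, true, true, false, [(0, 8), (3, 11)], []⟩,
  ⟨1729, 90, 0, 224, 120, true, true, false, [(0, 12), (3, 7)], []⟩,
  ⟨1738, 90, 0, 224, 120, true, true, false, [(0, 16), (3, 3)], []⟩,
  ⟨1747, 90, 0, 224, 120, true, true, false, [(0, 19)], []⟩,
  ⟨1756, 90, 0, 224, 120, true, true, false, [(0, 19)], []⟩,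
  ⟨1770, 90, 0, 224, 120, true, true, false, [(0, 19)], []⟩,
  ⟨1801, 90, 0, 208, 109, true, true, false, [(0, 21)], []⟩,
  ⟨1890, 90, 0, 192, 98, true, true, false, [(0, 22)], []⟩,
  ⟨2068, 90, 0, 192, 98, true, true, false, [(0, 22)], []⟩,
  ⟨2562, 90, 0, 160, 78, true, true, false, [(0, 25)], []⟩,
  ⟨6301, 90, 0, 4, 2, true, true, true, [(0, 38)], [(0, 1)]⟩,
  ⟨7076, 90, 0, 0, 0, true, false, false, [(0, 40)], []⟩
  ] = true := by decide +kernel

def g68_30 : Gr := ⟨false, 429, 435, 1024, 1024, 68, 68, 8444, 8445, 0, 2048, 0, []⟩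

theorem k68_30 : chk g68_30 T400 [
  ⟨498, 90, 540, 240, 140, false, true, false, [(0, 1), (3, 4), (22, 3), (10, 1), (11, 2), (12, 3), (13, 2), (14, 2)], []⟩,
  ⟨668, 90, 720, 88, 256, false, false, false, [(0, 1), (3, 15), (14, 2), (3, 14)], []⟩,
  ⟨787, 90, 630, 120, 216, false, false, false, [(0, 1), (3, 28)], []⟩,
  ⟨870, 90, 630, 120, 208, false, false, false, [(0, 1), (3, 28)], []⟩,
  ⟨928, 90, 540, 208, 117, false, true, false, [(0, 1), (3, 20)], []⟩,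
  ⟨986, 90, 540, 208, 117, false, true, false, [(0, 1), (3, 20)], []⟩,
  ⟨1044, 90, 0, 240, 132, true, true, false, [(0, 1), (3, 17)], []⟩,
  ⟨1102, 90, 0, 240, 132, true, true, false, [(0, 1), (3, 17)], []⟩,
  ⟨1160, 90, 0, 240, 132, true, true, false, [(0, 1), (3, 17)], []⟩,
  ⟨1243, 90, 0, 240, 132, true, true, false, [(0, 1), (3, 17)], []⟩,
  ⟨1326, 90, 0, 240, 132, true, true, false, [(0, 2), (3, 16)], []⟩,
  ⟨1409, 90, 0, 240, 132, true, true, false, [(0, 2), (3, 16)], []⟩,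
  ⟨1467, 90, 0, 240, 132, true, true, false, [(0, 2), (3, 16)], []⟩,
  ⟨1507, 90, 0, 240, 132, true, true, false, [(0, 2), (3, 16)], []⟩,
  ⟨1535, 90, 0, 240, 132, true, true, false, [(0, 2), (3, 16)], []⟩,
  ⟨1554, 90, 0, 208, 109, true, true, false, [(0, 3), (3, 18)], []⟩,
  ⟨1573, 90, 0, 208, 109, true, true, false, [(0, 3), (3, 18)], []⟩,
  ⟨1592, 90, 0, 208, 109, true, true, false, [(0, 3), (3, 18)], []⟩,
  ⟨1611, 90, 0, 208, 109, true, true, false, [(0, 3), (3, 18)], []⟩,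
  ⟨1630, 90, 0, 208, 109, true, true, false, [(0, 3), (3, 18)], []⟩,
  ⟨1649, 90, 0, 208, 109, true, true, false, [(0, 4), (3, 17)], []⟩,
  ⟨1668, 90, 0, 208, 109, true, true, false, [(0, 4), (3, 17)], []⟩,
  ⟨1687, 90, 0, 208, 109, true, true, false, [(0, 4), (3, 17)], []⟩,
  ⟨1700, 90, 0, 208, 109, true, true, false, [(0, 5), (3, 16)], []⟩,
  ⟨1713, 90, 0, 208, 109, true, true, false, [(0, 6), (3, 15)], []⟩,
  ⟨1726, 90, 0, 208, 109, true, true, false, [(0, 7), (3, 14)], []⟩,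
  ⟨1735, 90, 0, 208, 109, true, true, false, [(0, 9), (3, 12)], []⟩,
  ⟨1744, 90, 0, 208, 109, true, true, false, [(0, 12), (3, 9)], []⟩,
  ⟨1753, 90, 0, 208, 109, true, true, false, [(0, 16), (3, 5)], []⟩,
  ⟨1767, 90, 0, 208, 109, true, true, false, [(0, 21)], []⟩,
  ⟨1798, 90, 0, 208, 109, true, true, false, [(0, 21)], []⟩,
  ⟨1861, 90, 0, 208, 109, true, true, false, [(0, 21)], []⟩,
  ⟨1987, 90, 0, 208, 109, true, true, false, [(0, 21)], []⟩,
  ⟨2339, 90, 0, 176, 88, true, true, false, [(0, 24)], []⟩,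
  ⟨3310, 90, 0, 88, 40, true, true, false, [(0, 32)], []⟩,
  ⟨7049, 90, 0, 0, 0, true, false, false, [(0, 40)], []⟩,
  ⟨7175, 90, 0, 0, 0, true, false, false, [(0, 40)], []⟩
  ] = true := by decide +kernel

def g68_31 : Gr := ⟨false, 435, 440, 1024, 1024, 68, 68, 8444, 8445, 0, 2048, 0, []⟩

theorem k68_31 : chk g68_31 T425 [
  ⟨498, 120, 600, 240, 148, false, true, false, [(0, 1), (3, 3), (23, 2), (10, 1), (11, 1), (12, 2), (13, 2), (14, 2)], []⟩,
  ⟨742, 120, 720, 96, 248, false, false, false, [(0, 1), (3, 5), (7, 1), (3, 2), (8, 1), (3, 1), (13, 1), (14, 2), (15, 1), (3, 9)], []⟩,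
  ⟨861, 120, 600, 120, 216, false, false, false, [(0, 1), (3, 12), (14, 1), (3, 8)], []⟩,
  ⟨944, 120, 600, 120, 208, false, false, false, [(0, 1), (3, 21)], []⟩,
  ⟨1002, 120, 480, 224, 120, false, true, false, [(0, 1), (3, 14)], []⟩,
  ⟨1060, 120, 0, 256, 145, true, true, false, [(0, 1), (3, 12)], []⟩,
  ⟨1118, 120, 0, 256, 145, true, true, false, [(0, 1), (3, 12)], []⟩,
  ⟨1176, 120, 0, 256, 145, true, true, false, [(0, 1), (3, 12)], []⟩,
  ⟨1234, 120, 0, 240, 132, true, true, false, [(0, 1), (3, 13)], []⟩,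
  ⟨1292, 120, 0, 240, 132, true, true, false, [(0, 2), (3, 12)], []⟩,
  ⟨1350, 120, 0, 240, 132, true, true, false, [(0, 2), (3, 12)], []⟩,
  ⟨1408, 120, 0, 240, 132, true, true, false, [(0, 2), (3, 12)], []⟩,
  ⟨1466, 120, 0, 224, 120, true, true, false, [(0, 2), (3, 13)], []⟩,
  ⟨1524, 120, 0, 224, 120, true, true, false, [(0, 2), (3, 13)], []⟩,
  ⟨1582, 120, 0, 224, 120, true, true, false, [(0, 2), (3, 13)], []⟩,
  ⟨1623, 120, 0, 224, 120, true, true, false, [(0, 3), (3, 12)], []⟩,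
  ⟨1664, 120, 0, 224, 120, true, true, false, [(0, 3), (3, 12)], []⟩,
  ⟨1692, 120, 0, 224, 120, true, true, false, [(0, 4), (3, 11)], []⟩,
  ⟨1720, 120, 0, 224, 120, true, true, false, [(0, 5), (3, 10)], []⟩,
  ⟨1740, 120, 0, 208, 109, true, true, false, [(0, 6), (3, 10)], []⟩,
  ⟨1760, 120, 0, 208, 109, true, true, false, [(0, 8), (3, 8)], []⟩,
  ⟨1780, 120, 0, 208, 109, true, true, false, [(0, 12), (3, 4)], []⟩,
  ⟨1821, 120, 0, 208, 109, true, true, false, [(0, 16)], []⟩,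
  ⟨1905, 120, 0, 208, 109, true, true, false, [(0, 16)], []⟩,
  ⟨2024, 120, 0, 208, 109, true, true, false, [(0, 16)], []⟩,
  ⟨2355, 120, 0, 176, 88, true, true, false, [(0, 19)], []⟩,
  ⟨3267, 120, 0, 96, 44, true, true, false, [(0, 24)], []⟩,
  ⟨6781, 120, 0, 0, 0, true, false, false, [(0, 31)], []⟩,
  ⟨7258, 120, 0, 0, 0, true, false, false, [(0, 31)], []⟩
  ] = true := by decide +kernel

def g68_32 : Gr := ⟨false, 440, 446, 1024, 1024, 68, 68, 8444, 8445, 0, 2048, 0, []⟩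

theorem k68_32 : chk g68_32 T425 [
  ⟨498, 90, 630, 88, 280, false, false, false, [(0, 1), (3, 4), (23, 3), (10, 1), (11, 2), (12, 3), (13, 2), (14, 2), (15, 3), (16, 2), (3, 10)], []⟩,
  ⟨742, 90, 720, 112, 236, false, true, false, [(0, 1), (3, 7), (7, 1), (3, 4), (8, 1), (3, 1), (13, 1), (14, 2), (15, 3), (3, 10)], []⟩,
  ⟨861, 90, 630, 120, 216, false, false, false, [(0, 1), (3, 19), (15, 1), (3, 9)], []⟩,
  ⟨944, 90, 630, 120, 208, false, false, false, [(0, 1), (3, 29)], []⟩,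
  ⟨1002, 90, 540, 208, 125, false, true, false, [(0, 1), (3, 21)], []⟩,
  ⟨1043, 90, 0, 240, 132, true, true, false, [(0, 1), (3, 18)], []⟩,
  ⟨1101, 90, 0, 240, 132, true, true, false, [(0, 1), (3, 18)], []⟩,
  ⟨1159, 90, 0, 240, 132, true, true, false, [(0, 1), (3, 18)], []⟩,
  ⟨1241, 90, 0, 240, 132, true, true, false, [(0, 1), (3, 18)], []⟩,
  ⟨1323, 90, 0, 240, 132, true, true, false, [(0, 2), (3, 17)], []⟩,
  ⟨1405, 90, 0, 240, 132, true, true, false, [(0, 2), (3, 17)], []⟩,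
  ⟨1487, 90, 0, 240, 132, true, true, false, [(0, 2), (3, 17)], []⟩,
  ⟨1544, 90, 0, 240, 132, true, true, false, [(0, 2), (3, 17)], []⟩,
  ⟨1584, 90, 0, 240, 132, true, true, false, [(0, 2), (3, 17)], []⟩,
  ⟨1612, 90, 0, 240, 132, true, true, false, [(0, 3), (3, 16)], []⟩,
  ⟨1640, 90, 0, 224, 120, true, true, false, [(0, 3), (3, 18)], []⟩,
  ⟨1659, 90, 0, 208, 109, true, true, false, [(0, 3), (3, 19)], []⟩,
  ⟨1678, 90, 0, 208, 109, true, true, false, [(0, 3), (3, 19)], []⟩,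
  ⟨1697, 90, 0, 208, 109, true, true, false, [(0, 4), (3, 18)], []⟩,
  ⟨1716, 90, 0, 208, 109, true, true, false, [(0, 4), (3, 18)], []⟩,
  ⟨1735, 90, 0, 208, 109, true, true, false, [(0, 5), (3, 17)], []⟩,
  ⟨1754, 90, 0, 208, 109, true, true, false, [(0, 6), (3, 16)], []⟩,
  ⟨1767, 90, 0, 208, 109, true, true, false, [(0, 7), (3, 15)], []⟩,
  ⟨1780, 90, 0, 208, 109, true, true, false, [(0, 9), (3, 13)], []⟩,
  ⟨1793, 90, 0, 208, 109, true, true, false, [(0, 13), (3, 9)], []⟩,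
  ⟨1806, 90, 0, 208, 109, true, true, false, [(0, 20), (3, 2)], []⟩,
  ⟨1835, 90, 0, 208, 109, true, true, false, [(0, 22)], []⟩,
  ⟨1920, 90, 0, 208, 109, true, true, false, [(0, 22)], []⟩,
  ⟨2041, 90, 0, 192, 98, true, true, false, [(0, 24)], []⟩,
  ⟨2377, 90, 0, 176, 88, true, true, false, [(0, 25)], []⟩,
  ⟨3305, 90, 0, 88, 40, true, true, false, [(0, 33)], []⟩,
  ⟨6878, 90, 0, 0, 0, true, false, false, [(0, 41)], []⟩,
  ⟨7357, 90, 0, 0, 0, true, false, false, [(0, 41)], []⟩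
  ] = true := by decide +kernel

def g68_33 : Gr := ⟨false, 446, 452, 1024, 1024, 68, 68, 8444, 8445, 0, 2048, 0, []⟩

theorem k68_33 : chk g68_33 T425 [
  ⟨498, 90, 630, 224, 168, false, true, false, [(0, 1), (3, 4), (23, 3), (10, 1), (11, 2), (12, 3), (13, 2), (14, 2), (15, 3)], []⟩,
  ⟨742, 90, 720, 104, 248, false, false, false, [(0, 1), (3, 7), (7, 1), (3, 4), (8, 1), (3, 1), (13, 1), (14, 2), (15, 3), (3, 11)], []⟩,
  ⟨912, 90, 720, 104, 232, false, false, false, [(0, 1), (3, 19), (15, 1), (3, 11)], []⟩,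
  ⟨995, 90, 540, 224, 120, false, true, false, [(0, 1), (3, 20)], []⟩,
  ⟨1078, 90, 0, 256, 145, true, true, false, [(0, 1), (3, 17)], []⟩,
  ⟨1161, 90, 0, 256, 145, true, true, false, [(0, 1), (3, 17)], []⟩,
  ⟨1244, 90, 0, 256, 145, true, true, false, [(0, 1), (3, 17)], []⟩,
  ⟨1327, 90, 0, 256, 145, true, true, false, [(0, 2), (3, 16)], []⟩,
  ⟨1385, 90, 0, 256, 145, true, true, false, [(0, 2), (3, 16)], []⟩,
  ⟨1443, 90, 0, 224, 120, true, true, false, [(0, 2), (3, 19)], []⟩,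
  ⟨1501, 90, 0, 224, 120, true, true, false, [(0, 2), (3, 19)], []⟩,
  ⟨1559, 90, 0, 224, 120, true, true, false, [(0, 2), (3, 19)], []⟩,
  ⟨1617, 90, 0, 224, 120, true, true, false, [(0, 2), (3, 19)], []⟩,
  ⟨1675, 90, 0, 224, 120, true, true, false, [(0, 3), (3, 18)], []⟩,
  ⟨1733, 90, 0, 224, 120, true, true, false, [(0, 4), (3, 17)], []⟩,
  ⟨1774, 90, 0, 224, 120, true, true, false, [(0, 5), (3, 16)], []⟩,
  ⟨1802, 90, 0, 224, 120, true, true, false, [(0, 7), (3, 14)], []⟩,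
  ⟨1822, 90, 0, 224, 120, true, true, false, [(0, 13), (3, 8)], []⟩,
  ⟨1842, 90, 0, 224, 120, true, true, false, [(0, 21)], []⟩,
  ⟨1871, 90, 0, 224, 120, true, true, false, [(0, 21)], []⟩,
  ⟨1930, 90, 0, 208, 109, true, true, false, [(0, 23)], []⟩,
  ⟨2097, 90, 0, 192, 98, true, true, false, [(0, 24)], []⟩,
  ⟨2561, 90, 0, 160, 78, true, true, false, [(0, 27)], []⟩,
  ⟨4352, 90, 0, 40, 18, true, true, false, [(0, 38)], []⟩,
  ⟨7456, 90, 0, 0, 0, true, false, false, [(0, 42)], []⟩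
  ] = true := by decide +kernel

def g68_34 : Gr := ⟨false, 452, 456, 1024, 1024, 68, 68, 8444, 8445, 0, 2048, 0, []⟩

theorem k68_34 : chk g68_34 T425 [
  ⟨498, 120, 600, 256, 145, false, true, false, [(0, 1), (3, 3), (23, 2), (10, 1), (11, 1), (12, 2), (13, 2), (14, 2)], []⟩,
  ⟨742, 120, 720, 96, 260, false, true, false, [(0, 1), (3, 5), (7, 1), (3, 5), (14, 2), (15, 1), (3, 10)], []⟩,
  ⟨912, 120, 720, 112, 232, false, false, false, [(0, 1), (3, 12), (14, 1), (3, 10)], []⟩,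
  ⟨995, 120, 600, 112, 220, false, true, false, [(0, 1), (3, 23)], []⟩,
  ⟨1078, 120, 480, 224, 120, false, true, false, [(0, 1), (3, 15)], []⟩,
  ⟨1161, 120, 0, 256, 145, true, true, false, [(0, 1), (3, 13)], []⟩,
  ⟨1244, 120, 0, 256, 145, true, true, false, [(0, 1), (3, 13)], []⟩,
  ⟨1327, 120, 0, 240, 132, true, true, false, [(0, 2), (3, 13)], []⟩,
  ⟨1410, 120, 0, 240, 132, true, true, false, [(0, 2), (3, 13)], []⟩,
  ⟨1493, 120, 0, 240, 132, true, true, false, [(0, 2), (3, 13)], []⟩,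
  ⟨1576, 120, 0, 240, 132, true, true, false, [(0, 2), (3, 13)], []⟩,
  ⟨1659, 120, 0, 224, 120, true, true, false, [(0, 3), (3, 13)], []⟩,
  ⟨1717, 120, 0, 224, 120, true, true, false, [(0, 3), (3, 13)], []⟩,
  ⟨1775, 120, 0, 224, 120, true, true, false, [(0, 4), (3, 12)], []⟩,
  ⟨1816, 120, 0, 224, 120, true, true, false, [(0, 6), (3, 10)], []⟩,
  ⟨1857, 120, 0, 224, 120, true, true, false, [(0, 11), (3, 5)], []⟩,
  ⟨1915, 120, 0, 224, 120, true, true, false, [(0, 16)], []⟩,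
  ⟨1973, 120, 0, 224, 120, true, true, false, [(0, 16)], []⟩,
  ⟨2137, 120, 0, 192, 98, true, true, false, [(0, 19)], []⟩,
  ⟨2593, 120, 0, 160, 78, true, true, false, [(0, 21)], []⟩,
  ⟨4353, 120, 0, 36, 16, true, true, false, [(0, 29)], []⟩,
  ⟨7522, 120, 0, 0, 0, true, false, false, [(0, 32)], []⟩
  ] = true := by decide +kernel

def g68_35 : Gr := ⟨false, 456, 461, 1024, 1024, 68, 68, 8444, 8445, 0, 2048, 0, []⟩

theorem k68_35 : chk g68_35 T425 [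
  ⟨498, 90, 720, 80, 304, false, false, false, [(0, 1), (3, 4), (23, 3), (10, 1), (11, 2), (12, 3), (13, 2), (14, 2), (15, 3), (16, 2), (3, 12)], []⟩,
  ⟨742, 90, 720, 112, 252, false, true, false, [(0, 1), (3, 7), (7, 1), (3, 4), (8, 1), (3, 2), (14, 2), (15, 3), (3, 11)], []⟩,
  ⟨912, 90, 630, 112, 232, false, false, false, [(0, 1), (3, 19), (15, 1), (3, 11)], []⟩,
  ⟨1031, 90, 630, 112, 220, false, true, false, [(0, 1), (3, 31)], []⟩,
  ⟨1114, 90, 0, 256, 145, true, true, false, [(0, 1), (3, 18)], []⟩,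
  ⟨1197, 90, 0, 256, 145, true, true, false, [(0, 1), (3, 18)], []⟩,
  ⟨1280, 90, 0, 256, 145, true, true, false, [(0, 1), (3, 18)], []⟩,
  ⟨1363, 90, 0, 256, 145, true, true, false, [(0, 2), (3, 17)], []⟩,
  ⟨1446, 90, 0, 256, 145, true, true, false, [(0, 2), (3, 17)], []⟩,
  ⟨1504, 90, 0, 224, 120, true, true, false, [(0, 2), (3, 20)], []⟩,
  ⟨1587, 90, 0, 224, 120, true, true, false, [(0, 2), (3, 20)], []⟩,
  ⟨1670, 90, 0, 224, 120, true, true, false, [(0, 3), (3, 19)], []⟩,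
  ⟨1728, 90, 0, 224, 120, true, true, false, [(0, 3), (3, 19)], []⟩,
  ⟨1786, 90, 0, 224, 120, true, true, false, [(0, 4), (3, 18)], []⟩,
  ⟨1826, 90, 0, 224, 120, true, true, false, [(0, 6), (3, 16)], []⟩,
  ⟨1854, 90, 0, 224, 120, true, true, false, [(0, 10), (3, 12)], []⟩,
  ⟨1882, 90, 0, 224, 120, true, true, false, [(0, 22)], []⟩,
  ⟨1922, 90, 0, 224, 120, true, true, false, [(0, 22)], []⟩,
  ⟨2004, 90, 0, 208, 109, true, true, false, [(0, 24)], []⟩,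
  ⟨2234, 90, 0, 192, 98, true, true, false, [(0, 25)], []⟩,
  ⟨2871, 90, 0, 128, 60, true, true, false, [(0, 31)], []⟩,
  ⟨6312, 90, 0, 0, 0, true, false, false, [(0, 43)], []⟩,
  ⟨7604, 90, 0, 0, 0, true, false, false, [(0, 43)], []⟩
  ] = true := by decide +kernel

def g68_36 : Gr := ⟨false, 460, 468, 1024, 1024, 68, 68, 8444, 8445, 0, 2048, 0, []⟩

theorem k68_36 : chk g68_36 T450 [
  ⟨498, 120, 600, 256, 153, false, true, false, [(0, 1), (3, 3), (25, 2), (11, 1), (12, 1), (13, 2), (14, 2), (15, 2), (16, 1)], []⟩,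
  ⟨742, 120, 720, 120, 248, false, false, false, [(0, 1), (3, 5), (8, 1), (3, 2), (9, 1), (3, 2), (15, 2), (16, 1), (3, 1), (17, 1), (3, 7)], []⟩,
  ⟨912, 120, 720, 120, 232, false, false, false, [(0, 1), (3, 5), (8, 1), (3, 6), (10, 1), (16, 1), (3, 9)], []⟩,
  ⟨1031, 120, 720, 120, 216, false, false, false, [(0, 1), (3, 23)], []⟩,
  ⟨1089, 120, 600, 120, 208, false, false, false, [(0, 1), (3, 23)], []⟩,
  ⟨1130, 120, 0, 256, 145, true, true, false, [(0, 1), (3, 14)], []⟩,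
  ⟨1188, 120, 0, 256, 145, true, true, false, [(0, 1), (3, 14)], []⟩,
  ⟨1246, 120, 0, 256, 145, true, true, false, [(0, 1), (3, 14)], []⟩,
  ⟨1304, 120, 0, 256, 145, true, true, false, [(0, 2), (3, 13)], []⟩,
  ⟨1362, 120, 0, 256, 145, true, true, false, [(0, 2), (3, 13)], []⟩,
  ⟨1420, 120, 0, 240, 132, true, true, false, [(0, 2), (3, 14)], []⟩,
  ⟨1478, 120, 0, 240, 132, true, true, false, [(0, 2), (3, 14)], []⟩,
  ⟨1536, 120, 0, 240, 132, true, true, false, [(0, 2), (3, 14)], []⟩,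
  ⟨1594, 120, 0, 240, 132, true, true, false, [(0, 2), (3, 14)], []⟩,
  ⟨1634, 120, 0, 224, 120, true, true, false, [(0, 2), (3, 15)], []⟩,
  ⟨1674, 120, 0, 224, 120, true, true, false, [(0, 3), (3, 14)], []⟩,
  ⟨1714, 120, 0, 224, 120, true, true, false, [(0, 3), (3, 14)], []⟩,
  ⟨1754, 120, 0, 224, 120, true, true, false, [(0, 3), (3, 14)], []⟩,
  ⟨1782, 120, 0, 224, 120, true, true, false, [(0, 4), (3, 13)], []⟩,
  ⟨1810, 120, 0, 224, 120, true, true, false, [(0, 5), (3, 12)], []⟩,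
  ⟨1830, 120, 0, 224, 120, true, true, false, [(0, 6), (3, 11)], []⟩,
  ⟨1850, 120, 0, 224, 120, true, true, false, [(0, 7), (3, 10)], []⟩,
  ⟨1864, 120, 0, 224, 120, true, true, false, [(0, 9), (3, 8)], []⟩,
  ⟨1873, 120, 0, 224, 120, true, true, false, [(0, 12), (3, 5)], []⟩,
  ⟨1882, 120, 0, 224, 120, true, true, false, [(0, 15), (3, 2)], []⟩,
  ⟨1896, 120, 0, 224, 120, true, true, false, [(0, 17)], []⟩,
  ⟨1940, 120, 0, 208, 109, true, true, false, [(0, 18)], []⟩,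
  ⟨2030, 120, 0, 208, 109, true, true, false, [(0, 18)], []⟩,
  ⟨2282, 120, 0, 192, 98, true, true, false, [(0, 19)], []⟩,
  ⟨2978, 120, 0, 120, 56, true, true, false, [(0, 24)], []⟩,
  ⟨6732, 120, 0, 0, 0, true, false, false, [(0, 33)], []⟩,
  ⟨7720, 120, 0, 0, 0, true, false, false, [(0, 33)], []⟩
  ] = true := by decide +kernel

def g68_37 : Gr := ⟨false, 468, 474, 1024, 1024, 68, 68, 8444, 8445, 0, 2048, 0, []⟩

theorem k68_37 : chk g68_37 T450 [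
  ⟨698, 90, 540, 256, 145, false, true, false, [(0, 1), (3, 4), (25, 3), (11, 1), (12, 2), (13, 3), (14, 2), (15, 2), (16, 2)], []⟩,
  ⟨937, 90, 720, 104, 248, false, false, false, [(0, 1), (3, 7), (8, 1), (3, 4), (9, 1), (3, 3), (10, 1), (16, 3), (3, 1), (17, 1), (3, 11)], []⟩,
  ⟨1054, 90, 630, 128, 216, false, false, false, [(0, 1), (3, 19), (16, 1), (3, 11)], []⟩,
  ⟨1136, 90, 0, 256, 145, true, true, false, [(0, 1), (3, 19)], []⟩,
  ⟨1252, 90, 0, 256, 145, true, true, false, [(0, 1), (3, 19)], []⟩,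
  ⟨1368, 90, 0, 256, 145, true, true, false, [(0, 2), (3, 18)], []⟩,
  ⟨1484, 90, 0, 256, 145, true, true, false, [(0, 2), (3, 18)], []⟩,
  ⟨1565, 90, 0, 224, 120, true, true, false, [(0, 2), (3, 21)], []⟩,
  ⟨1646, 90, 0, 224, 120, true, true, false, [(0, 2), (3, 21)], []⟩,
  ⟨1727, 90, 0, 224, 120, true, true, false, [(0, 3), (3, 20)], []⟩,
  ⟨1808, 90, 0, 224, 120, true, true, false, [(0, 3), (3, 20)], []⟩,
  ⟨1864, 90, 0, 224, 120, true, true, false, [(0, 5), (3, 18)], []⟩,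
  ⟨1920, 90, 0, 224, 120, true, true, false, [(0, 10), (3, 13)], []⟩,
  ⟨1976, 90, 0, 224, 120, true, true, false, [(0, 23)], []⟩,
  ⟨2089, 90, 0, 192, 98, true, true, false, [(0, 26)], []⟩,
  ⟨2405, 90, 0, 192, 98, true, true, false, [(0, 26)], []⟩,
  ⟨3278, 90, 0, 104, 48, true, true, false, [(0, 34)], []⟩,
  ⟨6641, 90, 0, 0, 0, true, false, false, [(0, 44)], []⟩,
  ⟨7819, 90, 0, 0, 0, true, false, false, [(0, 44)], []⟩
  ] = true := by decide +kernel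

def g68_38 : Gr := ⟨false, 474, 484, 1024, 1024, 68, 68, 8444, 8445, 0, 2048, 0, []⟩

theorem k68_38 : chk g68_38 T450 [
  ⟨498, 120, 720, 64, 328, false, false, false, [(0, 1), (3, 3), (25, 2), (11, 1), (12, 1), (13, 2), (14, 2), (15, 2), (16, 1), (17, 2), (3, 12)], []⟩,
  ⟨742, 120, 720, 80, 292, false, true, false, [(0, 1), (3, 5), (8, 1), (3, 2), (9, 1), (3, 2), (15, 2), (16, 1), (3, 13)], []⟩,
  ⟨912, 120, 720, 80, 276, false, true, false, [(0, 1), (3, 13), (16, 1), (3, 13)], []⟩,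
  ⟨1031, 120, 720, 112, 236, false, true, false, [(0, 1), (3, 25)], []⟩,
  ⟨1114, 120, 600, 208, 141, false, true, false, [(0, 1), (3, 18)], []⟩,
  ⟨1172, 120, 600, 208, 133, false, true, false, [(0, 1), (3, 18)], []⟩,
  ⟨1213, 120, 600, 208, 133, false, true, false, [(0, 1), (3, 18)], []⟩,
  ⟨1254, 120, 0, 240, 132, true, true, false, [(0, 1), (3, 16)], []⟩,
  ⟨1295, 120, 0, 240, 132, true, true, false, [(0, 1), (3, 16)], []⟩,
  ⟨1353, 120, 0, 240, 132, true, true, false, [(0, 2), (3, 15)], []⟩,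
  ⟨1411, 120, 0, 240, 132, true, true, false, [(0, 2), (3, 15)], []⟩,
  ⟨1469, 120, 0, 240, 132, true, true, false, [(0, 2), (3, 15)], []⟩,
  ⟨1527, 120, 0, 240, 132, true, true, false, [(0, 2), (3, 15)], []⟩,
  ⟨1585, 120, 0, 240, 132, true, true, false, [(0, 2), (3, 15)], []⟩,
  ⟨1643, 120, 0, 240, 132, true, true, false, [(0, 2), (3, 15)], []⟩,
  ⟨1701, 120, 0, 240, 132, true, true, false, [(0, 3), (3, 14)], []⟩,
  ⟨1759, 120, 0, 224, 120, true, true, false, [(0, 3), (3, 15)], []⟩,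
  ⟨1799, 120, 0, 224, 120, true, true, false, [(0, 3), (3, 15)], []⟩,
  ⟨1839, 120, 0, 224, 120, true, true, false, [(0, 4), (3, 14)], []⟩,
  ⟨1879, 120, 0, 224, 120, true, true, false, [(0, 5), (3, 13)], []⟩,
  ⟨1907, 120, 0, 224, 120, true, true, false, [(0, 7), (3, 11)], []⟩,
  ⟨1927, 120, 0, 224, 120, true, true, false, [(0, 10), (3, 8)], []⟩,
  ⟨1947, 120, 0, 224, 120, true, true, false, [(0, 17), (3, 1)], []⟩,
  ⟨1988, 120, 0, 208, 109, true, true, false, [(0, 19)], []⟩,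
  ⟨2106, 120, 0, 208, 109, true, true, false, [(0, 19)], []⟩,
  ⟨2273, 120, 0, 192, 98, true, true, false, [(0, 21)], []⟩,
  ⟨2736, 120, 0, 144, 69, true, true, false, [(0, 24)], []⟩,
  ⟨6240, 120, 0, 4, 2, true, true, true, [(0, 32)], [(0, 1)]⟩,
  ⟨7984, 120, 0, 0, 0, true, false, false, [(0, 34)], []⟩
  ] = true := by decide +kernel

def g68_39 : Gr := ⟨false, 484, 487, 1024, 1024, 68, 68, 8444, 8445, 0, 2048, 0, []⟩

theorem k68_39 : chk g68_39 T450 [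
  ⟨498, 120, 720, 80, 320, false, false, false, [(0, 1), (3, 3), (25, 2), (11, 1), (12, 1), (13, 2), (14, 2), (15, 2), (16, 1), (17, 2), (3, 11)], []⟩,
  ⟨846, 120, 720, 112, 264, false, false, false, [(0, 1), (3, 4), (8, 2), (3, 2), (9, 1), (3, 1), (14, 1), (15, 2), (16, 1), (17, 2), (3, 9)], []⟩,
  ⟨1016, 120, 720, 112, 248, false, false, false, [(0, 1), (3, 25)], []⟩,
  ⟨1135, 120, 600, 112, 236, false, true, false, [(0, 1), (3, 25)], []⟩,
  ⟨1218, 120, 0, 256, 145, true, true, false, [(0, 1), (3, 15)], []⟩,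
  ⟨1336, 120, 0, 256, 145, true, true, false, [(0, 1), (3, 15)], []⟩,
  ⟨1454, 120, 0, 256, 145, true, true, false, [(0, 2), (3, 14)], []⟩,
  ⟨1572, 120, 0, 240, 132, true, true, false, [(0, 2), (3, 15)], []⟩,
  ⟨1690, 120, 0, 240, 132, true, true, false, [(0, 2), (3, 15)], []⟩,
  ⟨1808, 120, 0, 240, 132, true, true, false, [(0, 3), (3, 14)], []⟩,
  ⟨1890, 120, 0, 240, 132, true, true, false, [(0, 4), (3, 13)], []⟩,
  ⟨1947, 120, 0, 240, 132, true, true, false, [(0, 6), (3, 11)], []⟩,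
  ⟨1975, 120, 0, 240, 132, true, true, false, [(0, 11), (3, 6)], []⟩,
  ⟨2003, 120, 0, 224, 120, true, true, false, [(0, 19)], []⟩,
  ⟨2061, 120, 0, 208, 109, true, true, false, [(0, 20)], []⟩,
  ⟨2224, 120, 0, 208, 109, true, true, false, [(0, 20)], []⟩,
  ⟨2677, 120, 0, 160, 78, true, true, false, [(0, 23)], []⟩,
  ⟨4425, 120, 0, 36, 16, true, true, false, [(0, 31)], []⟩,
  ⟨7854, 120, 0, 0, 0, true, false, false, [(0, 34)], []⟩,
  ⟨8033, 120, 0, 0, 0, true, false, false, [(0, 34)], []⟩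
  ] = true := by decide +kernel

def g68_40 : Gr := ⟨false, 486, 499, 1024, 1024, 68, 68, 8444, 8445, 0, 2048, 0, []⟩

theorem k68_40 : chk g68_40 T475 [
  ⟨498, 120, 720, 48, 344, false, false, false, [(0, 1), (3, 3), (27, 2), (12, 1), (13, 1), (14, 2), (15, 2), (16, 2), (17, 1), (18, 2), (19, 2), (3, 12)], []⟩,
  ⟨846, 120, 720, 96, 280, false, false, false, [(0, 1), (3, 4), (8, 2), (3, 1), (9, 2), (3, 1), (15, 1), (16, 2), (17, 1), (18, 2), (3, 1), (19, 1), (3, 9)], []⟩,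
  ⟨1016, 120, 720, 112, 248, false, false, false, [(0, 1), (3, 5), (8, 1), (3, 6), (10, 1), (17, 1), (3, 1), (18, 1), (3, 10)], []⟩,
  ⟨1135, 120, 720, 112, 236, false, true, false, [(0, 1), (3, 15), (18, 1), (3, 10)], []⟩,
  ⟨1218, 120, 600, 208, 141, false, true, false, [(0, 1), (3, 19)], []⟩,
  ⟨1259, 120, 600, 208, 133, false, true, false, [(0, 1), (3, 19)], []⟩,
  ⟨1300, 120, 0, 256, 145, true, true, false, [(0, 1), (3, 16)], []⟩,
  ⟨1341, 120, 0, 256, 145, true, true, false, [(0, 2), (3, 15)], []⟩,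
  ⟨1382, 120, 0, 256, 145, true, true, false, [(0, 2), (3, 15)], []⟩,
  ⟨1440, 120, 0, 256, 145, true, true, false, [(0, 2), (3, 15)], []⟩,
  ⟨1498, 120, 0, 256, 145, true, true, false, [(0, 2), (3, 15)], []⟩,
  ⟨1556, 120, 0, 240, 132, true, true, false, [(0, 2), (3, 16)], []⟩,
  ⟨1614, 120, 0, 240, 132, true, true, false, [(0, 2), (3, 16)], []⟩,
  ⟨1672, 120, 0, 240, 132, true, true, false, [(0, 2), (3, 16)], []⟩,
  ⟨1730, 120, 0, 240, 132, true, true, false, [(0, 2), (3, 16)], []⟩,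
  ⟨1788, 120, 0, 224, 120, true, true, false, [(0, 3), (3, 16)], []⟩,
  ⟨1828, 120, 0, 224, 120, true, true, false, [(0, 3), (3, 16)], []⟩,
  ⟨1868, 120, 0, 224, 120, true, true, false, [(0, 4), (3, 15)], []⟩,
  ⟨1908, 120, 0, 224, 120, true, true, false, [(0, 5), (3, 14)], []⟩,
  ⟨1936, 120, 0, 224, 120, true, true, false, [(0, 6), (3, 13)], []⟩,
  ⟨1964, 120, 0, 224, 120, true, true, false, [(0, 8), (3, 11)], []⟩,
  ⟨1984, 120, 0, 224, 120, true, true, false, [(0, 13), (3, 6)], []⟩,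
  ⟨2013, 120, 0, 224, 120, true, true, false, [(0, 19)], []⟩,
  ⟨2072, 120, 0, 208, 109, true, true, false, [(0, 20)], []⟩,
  ⟨2239, 120, 0, 208, 109, true, true, false, [(0, 20)], []⟩,
  ⟨2569, 120, 0, 176, 88, true, true, false, [(0, 23)], []⟩,
  ⟨3844, 120, 0, 80, 36, true, true, false, [(0, 29)], []⟩,
  ⟨7348, 120, 0, 0, 0, true, false, false, [(0, 35)], []⟩,
  ⟨8231, 120, 0, 0, 0, true, false, false, [(0, 35)], []⟩
  ] = true := by decide +kernel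

def g68_41 : Gr := ⟨false, 499, 512, 1024, 1024, 68, 68, 8444, 8445, 0, 2048, 0, []⟩

theorem k68_41 : chk g68_41 T475 [
  ⟨498, 120, 720, 32, 368, false, false, false, [(0, 1), (3, 3), (27, 2), (12, 1), (13, 1), (14, 2), (15, 2), (16, 2), (17, 1), (18, 2), (19, 2), (3, 14)], []⟩,
  ⟨846, 120, 720, 120, 272, false, false, false, [(0, 1), (3, 4), (8, 2), (3, 1), (9, 2), (3, 1), (15, 1), (16, 2), (17, 1), (18, 2), (3, 1), (19, 1), (3, 8)], []⟩,
  ⟨1090, 120, 720, 120, 248, false, false, false, [(0, 1), (3, 5), (8, 1), (3, 2), (9, 1), (3, 3), (10, 1), (17, 1), (18, 2), (3, 10)], []⟩,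
  ⟨1209, 120, 600, 120, 232, false, false, false, [(0, 1), (3, 26)], []⟩,
  ⟨1292, 120, 600, 120, 224, false, false, false, [(0, 1), (3, 26)], []⟩,
  ⟨1350, 120, 600, 120, 216, false, false, false, [(0, 2), (3, 25)], []⟩,
  ⟨1408, 120, 0, 256, 145, true, true, false, [(0, 2), (3, 16)], []⟩,
  ⟨1466, 120, 0, 256, 145, true, true, false, [(0, 2), (3, 16)], []⟩,
  ⟨1524, 120, 0, 256, 145, true, true, false, [(0, 2), (3, 16)], []⟩,
  ⟨1582, 120, 0, 256, 145, true, true, false, [(0, 2), (3, 16)], []⟩,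
  ⟨1640, 120, 0, 240, 132, true, true, false, [(0, 2), (3, 17)], []⟩,
  ⟨1723, 120, 0, 240, 132, true, true, false, [(0, 2), (3, 17)], []⟩,
  ⟨1781, 120, 0, 240, 132, true, true, false, [(0, 3), (3, 16)], []⟩,
  ⟨1839, 120, 0, 240, 132, true, true, false, [(0, 3), (3, 16)], []⟩,
  ⟨1897, 120, 0, 224, 120, true, true, false, [(0, 3), (3, 17)], []⟩,
  ⟨1937, 120, 0, 224, 120, true, true, false, [(0, 4), (3, 16)], []⟩,
  ⟨1977, 120, 0, 224, 120, true, true, false, [(0, 5), (3, 15)], []⟩,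
  ⟨2017, 120, 0, 224, 120, true, true, false, [(0, 8), (3, 12)], []⟩,
  ⟨2045, 120, 0, 224, 120, true, true, false, [(0, 14), (3, 6)], []⟩,
  ⟨2103, 120, 0, 224, 120, true, true, false, [(0, 20)], []⟩,
  ⟨2267, 120, 0, 208, 109, true, true, false, [(0, 21)], []⟩,
  ⟨2591, 120, 0, 192, 98, true, true, false, [(0, 22)], []⟩,
  ⟨3843, 120, 0, 80, 36, true, true, false, [(0, 30)], []⟩,
  ⟨7284, 120, 0, 0, 0, true, false, false, [(0, 36)], []⟩,
  ⟨8446, 120, 0, 0, 0, true, false, false, [(0, 36)], []⟩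
  ] = true := by decide +kernel

def g68_42 : Gr := ⟨false, 512, 528, 1024, 1024, 68, 68, 8444, 8445, 0, 2048, 0, []⟩

theorem k68_42 : chk g68_42 T500 [
  ⟨698, 120, 720, 80, 320, false, false, false, [(0, 1), (3, 3), (28, 2), (13, 1), (14, 1), (15, 2), (16, 2), (17, 2), (18, 1), (19, 2), (20, 2), (21, 2), (3, 10)], []⟩,
  ⟨1040, 120, 720, 112, 268, false, true, false, [(0, 1), (3, 4), (9, 2), (3, 1), (10, 2), (3, 1), (11, 3), (18, 1), (19, 2), (20, 2), (3, 10)], []⟩,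
  ⟨1207, 120, 600, 128, 236, false, true, false, [(0, 1), (3, 5), (9, 1), (3, 6), (11, 1), (3, 2), (19, 1), (3, 1), (20, 1), (3, 9)], []⟩,
  ⟨1324, 120, 600, 128, 224, false, false, false, [(0, 1), (3, 12), (11, 1), (3, 2), (19, 1), (3, 1), (20, 1), (3, 9)], []⟩,
  ⟨1405, 120, 600, 128, 216, false, false, false, [(0, 2), (3, 26)], []⟩,
  ⟨1486, 120, 0, 256, 145, true, true, false, [(0, 2), (3, 17)], []⟩,
  ⟨1567, 120, 0, 256, 145, true, true, false, [(0, 2), (3, 17)], []⟩,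
  ⟨1648, 120, 0, 256, 145, true, true, false, [(0, 2), (3, 17)], []⟩,
  ⟨1729, 120, 0, 240, 132, true, true, false, [(0, 2), (3, 18)], []⟩,
  ⟨1810, 120, 0, 240, 132, true, true, false, [(0, 2), (3, 18)], []⟩,
  ⟨1891, 120, 0, 240, 132, true, true, false, [(0, 3), (3, 17)], []⟩,
  ⟨1948, 120, 0, 240, 132, true, true, false, [(0, 4), (3, 16)], []⟩,
  ⟨2005, 120, 0, 224, 120, true, true, false, [(0, 4), (3, 17)], []⟩,
  ⟨2044, 120, 0, 224, 120, true, true, false, [(0, 6), (3, 15)], []⟩,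
  ⟨2083, 120, 0, 224, 120, true, true, false, [(0, 10), (3, 11)], []⟩,
  ⟨2139, 120, 0, 224, 120, true, true, false, [(0, 21)], []⟩,
  ⟨2299, 120, 0, 208, 109, true, true, false, [(0, 22)], []⟩,
  ⟨2616, 120, 0, 176, 88, true, true, false, [(0, 25)], []⟩,
  ⟨3490, 120, 0, 96, 44, true, true, false, [(0, 30)], []⟩,
  ⟨6856, 120, 0, 0, 0, true, false, false, [(0, 37)], []⟩,
  ⟨8709, 120, 0, 0, 0, true, false, false, [(0, 37)], []⟩
  ] = true := by decide +kernel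

def g68_43 : Gr := ⟨false, 528, 538, 1024, 1024, 68, 68, 8444, 8445, 0, 1987, 0, []⟩

theorem k68_43 : chk g68_43 T500 [
  ⟨698, 120, 720, 104, 320, false, false, false, [(0, 1), (3, 3), (28, 2), (13, 1), (14, 1), (15, 2), (16, 2), (17, 2), (18, 1), (19, 2), (20, 2), (21, 2), (3, 9)], []⟩,
  ⟨1040, 120, 720, 120, 272, false, false, false, [(0, 1), (3, 5), (9, 1), (3, 2), (10, 1), (3, 2), (11, 2), (18, 1), (19, 2), (20, 2), (3, 10)], []⟩,
  ⟨1279, 120, 600, 160, 216, false, false, false, [(0, 1), (3, 5), (9, 1), (3, 6), (11, 1), (3, 2), (19, 1), (3, 1), (20, 1), (3, 7)], []⟩,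
  ⟨1446, 120, 600, 160, 198, false, true, false, [(0, 2), (3, 24)], []⟩,
  ⟨1563, 120, 0, 256, 145, true, true, false, [(0, 2), (3, 18)], []⟩,
  ⟨1680, 120, 0, 256, 145, true, true, false, [(0, 2), (3, 18)], []⟩,
  ⟨1797, 120, 0, 240, 132, true, true, false, [(0, 2), (3, 19)], []⟩,
  ⟨1914, 120, 0, 240, 132, true, true, false, [(0, 3), (3, 18)], []⟩,
  ⟨2031, 120, 0, 240, 132, true, true, false, [(0, 3), (3, 18)], []⟩,
  ⟨2113, 120, 0, 224, 120, true, true, false, [(0, 5), (3, 17)], []⟩,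
  ⟨2170, 120, 0, 224, 120, true, true, false, [(0, 12), (3, 10)], []⟩,
  ⟨2332, 120, 0, 208, 109, true, true, false, [(0, 23)], []⟩,
  ⟨2781, 120, 0, 176, 88, true, true, false, [(0, 25)], []⟩,
  ⟨4514, 120, 0, 44, 19, true, true, false, [(0, 34)], []⟩,
  ⟨7914, 120, 0, 0, 0, true, false, false, [(0, 37)], []⟩,
  ⟨8610, 120, 0, 0, 0, true, false, false, [(0, 37)], []⟩
  ] = true := by decide +kernel

def g68_44 : Gr := ⟨false, 537, 564, 1024, 1024, 68, 68, 8444, 8445, 0, 1954, 0, []⟩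

theorem k68_44 : chk g68_44 T525 [
  ⟨698, 90, 630, 64, 352, false, false, false, [(0, 1), (3, 4), (29, 3), (13, 1), (14, 2), (15, 3), (16, 2), (17, 2), (18, 3), (19, 2), (20, 2), (21, 3), (3, 18)], []⟩,
  ⟨1040, 90, 630, 128, 276, false, true, false, [(0, 1), (3, 6), (9, 2), (3, 2), (10, 3), (3, 1), (11, 3), (18, 3), (19, 2), (20, 2), (21, 3), (3, 12)], []⟩,
  ⟨1279, 90, 630, 128, 252, false, true, false, [(0, 1), (3, 7), (9, 1), (3, 3), (10, 2), (3, 3), (11, 1), (3, 3), (19, 2), (20, 2), (3, 1), (21, 2), (3, 12)], []⟩,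
  ⟨1446, 90, 630, 128, 232, false, false, false, [(0, 2), (3, 11), (10, 1), (3, 3), (11, 1), (3, 4), (12, 1), (3, 1), (20, 1), (3, 2), (21, 1), (3, 12)], []⟩,
  ⟨1528, 90, 630, 128, 224, false, false, false, [(0, 2), (3, 38)], []⟩,
  ⟨1585, 90, 0, 240, 132, true, true, true, [(0, 2), (3, 25)], [(3, 3)]⟩,
  ⟨1642, 90, 0, 240, 132, true, true, false, [(0, 2), (3, 28)], []⟩,
  ⟨1723, 90, 0, 240, 132, true, true, false, [(0, 2), (3, 28)], []⟩,
  ⟨1804, 90, 0, 240, 132, true, true, false, [(0, 2), (3, 28)], []⟩,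
  ⟨1885, 90, 0, 240, 132, true, true, false, [(0, 3), (3, 10), (5, 1), (3, 13), (21, 1), (3, 2)], []⟩,
  ⟨1966, 90, 0, 240, 132, true, true, false, [(0, 3), (3, 10), (5, 1), (3, 13), (21, 1), (3, 2)], []⟩,
  ⟨2023, 90, 0, 240, 132, true, true, false, [(0, 4), (3, 9), (5, 1), (3, 16)], []⟩,
  ⟨2080, 90, 0, 240, 132, true, true, false, [(0, 4), (3, 9), (5, 1), (3, 16)], []⟩,
  ⟨2119, 90, 0, 240, 132, true, true, false, [(0, 6), (3, 7), (5, 1), (3, 16)], []⟩,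
  ⟨2146, 90, 0, 240, 132, true, true, false, [(0, 8), (3, 5), (5, 1), (3, 16)], []⟩,
  ⟨2165, 90, 0, 240, 132, true, true, false, [(0, 11), (3, 2), (5, 1), (3, 16)], []⟩,
  ⟨2178, 90, 0, 240, 132, true, true, false, [(0, 13), (5, 1), (0, 2), (3, 14)], []⟩,
  ⟨2191, 90, 0, 240, 132, true, true, false, [(0, 21), (3, 9)], []⟩,
  ⟨2200, 90, 0, 240, 132, true, true, false, [(0, 27), (3, 3)], []⟩,
  ⟨2214, 90, 0, 240, 132, true, true, false, [(0, 30)], []⟩,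
  ⟨2235, 90, 0, 240, 132, true, true, false, [(0, 30)], []⟩,
  ⟨2297, 90, 0, 208, 109, true, true, false, [(0, 33)], []⟩,
  ⟨2472, 90, 0, 208, 109, true, true, false, [(0, 33)], []⟩,
  ⟨2959, 90, 0, 176, 88, true, true, false, [(0, 36)], []⟩,
  ⟨4837, 90, 0, 32, 14, true, true, false, [(0, 49)], []⟩,
  ⟨8521, 90, 0, 0, 0, true, false, false, [(0, 52)], []⟩,
  ⟨8876, 90, 0, 0, 0, true, false, false, [(0, 52)], []⟩
  ] = true := by decide +kernel

def g68_45 : Gr := ⟨false, 563, 589, 1024, 1024, 68, 68, 8444, 8445, 0, 1864, 0, []⟩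

theorem k68_45 : chk g68_45 T550 [
  ⟨698, 120, 720, 80, 360, false, false, false, [(0, 1), (3, 3), (32, 2), (15, 1), (16, 1), (17, 2), (18, 2), (19, 2), (20, 1), (21, 2), (22, 2), (23, 2), (24, 1), (3, 13)], []⟩,
  ⟨1186, 120, 720, 112, 292, false, true, false, [(0, 1), (3, 4), (10, 2), (11, 3), (12, 4), (20, 1), (21, 2), (22, 2), (23, 2), (24, 1), (3, 11)], []⟩,
  ⟨1425, 120, 600, 128, 256, false, false, false, [(0, 1), (3, 5), (10, 1), (3, 2), (11, 1), (3, 2), (12, 2), (3, 2), (13, 1), (22, 2), (23, 2), (3, 11)], []⟩,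
  ⟨1592, 120, 0, 256, 145, true, true, true, [(0, 2), (3, 4), (4, 1), (3, 6), (12, 1), (3, 2), (13, 1), (3, 1), (22, 1), (23, 2)], [(3, 2)]⟩,
  ⟨1759, 120, 0, 256, 145, true, true, true, [(0, 2), (3, 4), (4, 1), (3, 6), (12, 1), (3, 4), (22, 1), (3, 1), (23, 1)], [(3, 2)]⟩,
  ⟨1926, 120, 0, 256, 145, true, true, false, [(0, 2), (3, 4), (4, 1), (3, 6), (12, 1), (3, 6), (23, 1), (3, 2)], []⟩,
  ⟨2093, 120, 0, 240, 132, true, true, false, [(0, 3), (3, 3), (4, 1), (3, 6), (6, 1), (3, 6), (23, 1), (3, 3)], []⟩,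
  ⟨2210, 120, 0, 240, 132, true, true, false, [(0, 4), (3, 9), (6, 1), (3, 6), (23, 1), (3, 3)], []⟩,
  ⟨2292, 120, 0, 240, 132, true, true, false, [(0, 8), (3, 5), (6, 1), (3, 10)], []⟩,
  ⟨2408, 120, 0, 240, 132, true, true, false, [(0, 24)], []⟩,
  ⟨2637, 120, 0, 208, 109, true, true, false, [(0, 27)], []⟩,
  ⟨3272, 120, 0, 144, 69, true, true, false, [(0, 31)], []⟩,
  ⟨6698, 120, 0, 0, 0, true, false, false, [(0, 41)], []⟩,
  ⟨8843, 120, 0, 0, 0, true, false, false, [(0, 41)], []⟩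
  ] = true := by decide +kernel

def g68_46 : Gr := ⟨false, 588, 615, 1024, 1024, 68, 68, 8444, 8445, 0, 1785, 0, []⟩

theorem k68_46 : chk g68_46 T575 [
  ⟨698, 120, 600, 64, 384, false, false, true, [(0, 1), (3, 3), (33, 2), (15, 1), (16, 1), (17, 2), (18, 2), (19, 2), (20, 1), (21, 2), (22, 2), (23, 2), (24, 1), (25, 2), (3, 12)], [(3, 2)]⟩,
  ⟨1186, 120, 720, 128, 304, false, false, false, [(0, 1), (3, 4), (10, 2), (11, 3), (12, 4), (20, 1), (21, 2), (22, 2), (23, 2), (24, 1), (3, 1), (25, 1), (3, 10)], []⟩,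
  ⟨1528, 120, 600, 128, 268, false, true, false, [(0, 1), (3, 5), (10, 1), (3, 2), (11, 1), (3, 2), (12, 2), (3, 1), (13, 2), (22, 2), (23, 2), (24, 1), (3, 1), (25, 1), (3, 10)], []⟩,
  ⟨1767, 120, 0, 256, 145, true, true, true, [(0, 2), (3, 4), (4, 1), (3, 6), (12, 1), (3, 2), (13, 1), (3, 1), (22, 1), (23, 2), (24, 1)], [(3, 3)]⟩,
  ⟨2006, 120, 0, 256, 145, true, true, true, [(0, 2), (3, 4), (4, 1), (3, 6), (12, 1), (3, 2), (13, 1), (3, 2), (23, 2), (24, 1)], [(3, 3)]⟩,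
  ⟨2173, 120, 0, 240, 132, true, true, false, [(0, 3), (3, 3), (4, 1), (3, 6), (6, 1), (3, 6), (23, 1), (3, 5)], []⟩,
  ⟨2340, 120, 0, 240, 132, true, true, false, [(0, 4), (3, 2), (4, 1), (3, 6), (6, 1), (3, 6), (14, 1), (3, 5)], []⟩,
  ⟨2507, 120, 0, 208, 109, true, true, true, [(0, 13), (6, 1), (0, 6), (8, 1), (0, 4), (26, 1)], [(0, 1), (27, 1)]⟩,
  ⟨2971, 120, 0, 208, 109, true, true, false, [(0, 28)], []⟩,
  ⟨4250, 120, 0, 80, 36, true, true, false, [(0, 37)], []⟩,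
  ⟨7764, 120, 0, 0, 0, true, false, false, [(0, 43)], []⟩,
  ⟨8842, 120, 0, 0, 0, true, false, false, [(0, 43)], []⟩
  ] = true := by decide +kernel

def g68_47 : Gr := ⟨false, 614, 640, 1024, 1024, 68, 68, 8444, 8445, 0, 1709, 0, []⟩

theorem k68_47 : chk g68_47 T600 [
  ⟨978, 120, 720, 104, 352, false, false, false, [(0, 1), (3, 3), (35, 2), (16, 1), (17, 1), (18, 2), (19, 2), (20, 2), (21, 1), (22, 2), (23, 2), (24, 2), (25, 1), (26, 2), (27, 2), (3, 11)], []⟩,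
  ⟨1457, 120, 600, 160, 270, false, true, false, [(0, 1), (3, 4), (11, 2), (3, 1), (12, 2), (3, 1), (13, 3), (14, 3), (23, 2), (24, 2), (25, 1), (26, 2), (3, 1), (27, 1), (3, 7)], []⟩,
  ⟨1792, 120, 600, 160, 238, false, true, false, [(0, 2), (3, 4), (4, 1), (3, 2), (12, 1), (3, 2), (13, 2), (3, 1), (14, 2), (3, 1), (23, 1), (24, 2), (25, 1), (26, 2), (3, 1), (27, 1), (3, 7)], []⟩,
  ⟨2127, 120, 0, 256, 145, true, true, true, [(0, 2), (3, 4), (4, 1), (3, 2), (5, 1), (3, 3), (6, 1), (3, 2), (14, 1), (3, 2), (15, 1), (24, 1), (25, 1), (26, 2)], [(3, 1), (27, 1), (3, 1)]⟩,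
  ⟨2462, 120, 0, 224, 120, true, true, true, [(0, 3), (3, 3), (4, 1), (3, 2), (5, 1), (3, 3), (6, 1), (3, 2), (7, 1), (3, 3), (15, 1), (25, 1), (3, 1), (26, 1), (3, 1), (27, 1)], [(3, 1), (28, 1), (3, 1)]⟩,
  ⟨2792, 120, 0, 224, 120, true, true, false, [(0, 13), (6, 1), (0, 6), (8, 1), (0, 6), (28, 1), (0, 1)], []⟩,
  ⟨3702, 120, 0, 160, 78, true, true, false, [(0, 33)], []⟩,
  ⟨7204, 120, 0, 0, 0, true, false, false, [(0, 44)], []⟩,
  ⟨8809, 120, 0, 0, 0, true, false, false, [(0, 44)], []⟩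
  ] = true := by decide +kernel

def g68_48 : Gr := ⟨false, 640, 666, 1024, 1024, 68, 68, 8444, 8445, 0, 1640, 0, []⟩

theorem k68_48 : chk g68_48 T625 [
  ⟨978, 120, 600, 128, 352, false, false, false, [(0, 1), (3, 3), (36, 2), (16, 1), (17, 1), (18, 2), (19, 2), (20, 2), (21, 1), (22, 2), (23, 2), (24, 2), (25, 1), (26, 2), (27, 2), (28, 2), (3, 9)], []⟩,
  ⟨1663, 120, 600, 144, 280, false, false, false, [(0, 1), (3, 4), (11, 2), (12, 3), (13, 4), (14, 3), (23, 2), (24, 2), (25, 1), (26, 2), (27, 2), (28, 2), (3, 8)], []⟩,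
  ⟨2142, 120, 0, 256, 145, true, true, true, [(0, 2), (3, 4), (4, 1), (3, 2), (5, 1), (3, 2), (6, 1), (13, 1), (3, 1), (14, 2), (3, 1), (15, 3), (25, 1), (26, 2), (27, 2)], [(28, 2), (3, 1)]⟩,
  ⟨2621, 120, 0, 224, 120, true, true, true, [(0, 3), (3, 3), (4, 1), (3, 2), (5, 1), (3, 2), (6, 2), (3, 2), (7, 1), (3, 2), (15, 2), (25, 1), (26, 2), (27, 2), (28, 2)], [(29, 1), (3, 1), (30, 1)]⟩,
  ⟨3100, 120, 0, 208, 109, true, true, false, [(0, 13), (6, 1), (0, 18)], []⟩,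
  ⟨4420, 120, 0, 88, 40, true, true, false, [(0, 40)], []⟩,
  ⟨8047, 120, 0, 0, 0, true, false, false, [(0, 46)], []⟩,
  ⟨8797, 120, 0, 0, 0, true, false, false, [(0, 46)], []⟩
  ] = true := by decide +kernel

def g68_49 : Gr := ⟨false, 665, 692, 1024, 1024, 68, 68, 8444, 8445, 0, 1578, 0, []⟩

theorem k68_49 : chk g68_49 T650 [
  ⟨1371, 120, 600, 272, 272, false, false, false, [(0, 1), (3, 3), (39, 2), (18, 1), (19, 1), (20, 2), (21, 2), (22, 2), (23, 1), (24, 2), (25, 2), (26, 2), (27, 1), (28, 2), (29, 2), (30, 2), (31, 1)], []⟩,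
  ⟨2312, 120, 0, 256, 145, true, true, true, [(0, 2), (3, 3), (4, 1), (12, 1), (3, 1), (5, 1), (13, 1), (3, 1), (14, 3), (15, 3), (16, 4), (27, 1), (28, 2)], [(29, 2), (30, 2), (31, 1), (32, 1)]⟩,
  ⟨2959, 120, 0, 224, 120, true, true, true, [(0, 6), (4, 1), (0, 2), (5, 1), (0, 1), (6, 3), (7, 3), (8, 4), (27, 1), (28, 2), (29, 2), (30, 2), (31, 1)], [(32, 2), (33, 2)]⟩,
  ⟨3865, 120, 0, 144, 69, true, true, false, [(0, 38)], []⟩,
  ⟨7356, 120, 0, 0, 0, true, false, false, [(0, 48)], []⟩,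
  ⟨8795, 120, 0, 0, 0, true, false, false, [(0, 48)], []⟩
  ] = true := by decide +kernel

def g68_50 : Gr := ⟨false, 691, 717, 1024, 1024, 68, 68, 8444, 8445, 0, 1519, 0, []⟩

theorem k68_50 : chk g68_50 T675 [
  ⟨1371, 120, 600, 144, 344, false, false, true, [(0, 1), (3, 3), (40, 2), (18, 1), (19, 1), (20, 2), (21, 2), (22, 2), (23, 1), (24, 2), (25, 2), (26, 2), (27, 1), (28, 2), (29, 2), (30, 2), (31, 1), (32, 2), (3, 6)], [(3, 3)]⟩,
  ⟨2331, 120, 0, 240, 172, true, true, true, [(0, 2), (3, 3), (4, 1), (12, 1), (3, 1), (13, 2), (14, 4), (15, 3), (16, 4), (27, 1), (28, 2), (29, 2)], [(30, 2), (31, 1), (32, 2), (33, 2)]⟩,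
  ⟨3291, 120, 0, 208, 109, true, true, true, [(0, 6), (4, 1), (0, 1), (5, 2), (0, 1), (6, 3), (7, 3), (8, 4), (27, 1), (17, 2), (29, 2), (30, 2), (31, 1), (32, 2)], [(33, 2), (34, 2)]⟩,
  ⟨4636, 120, 0, 48, 88, true, false, true, [(0, 44)], [(0, 2)]⟩,
  ⟨8331, 120, 0, 0, 0, true, false, false, [(0, 50)], []⟩,
  ⟨8772, 120, 0, 0, 0, true, false, false, [(0, 50)], []⟩
  ] = true := by decide +kernel

def g68_51 : Gr := ⟨false, 716, 743, 1024, 1024, 68, 68, 8444, 8445, 0, 1466, 0, []⟩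

theorem k68_51 : chk g68_51 T700 [
  ⟨1371, 120, 600, 176, 344, false, false, true, [(0, 1), (3, 3), (41, 2), (18, 1), (19, 1), (20, 2), (21, 2), (22, 2), (23, 1), (24, 2), (25, 2), (26, 2), (27, 1), (28, 2), (29, 2), (30, 2), (31, 1), (32, 2), (33, 2), (3, 4)], [(3, 2)]⟩,
  ⟨2742, 120, 0, 240, 148, true, true, true, [(0, 2), (3, 3), (4, 1), (12, 1), (5, 1), (13, 2), (14, 4), (15, 3), (16, 4), (27, 1), (28, 2), (29, 2)], [(30, 2), (31, 1), (32, 2), (33, 2), (34, 2)]⟩,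
  ⟨3702, 120, 0, 192, 98, true, true, true, [(0, 9), (5, 1), (0, 2), (6, 2), (0, 2), (7, 1), (0, 2), (8, 2), (0, 1), (9, 2), (0, 1), (29, 1), (10, 1), (30, 1), (31, 1), (32, 2), (33, 2), (34, 2)], [(35, 1), (36, 2)]⟩,
  ⟨6340, 120, 0, 2, 1, true, true, false, [(0, 51)], []⟩,
  ⟨8773, 120, 0, 0, 0, true, false, false, [(0, 52)], []⟩
  ] = true := by decide +kernel

def g68_52 : Gr := ⟨false, 742, 768, 1024, 1024, 68, 68, 8444, 8445, 0, 1415, 0, []⟩

theorem k68_52 : chk g68_52 T725 [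
  ⟨1371, 120, 600, 160, 368, false, false, true, [(0, 1), (3, 3), (44, 2), (20, 1), (21, 1), (22, 2), (23, 2), (24, 2), (25, 1), (26, 2), (27, 2), (28, 2), (29, 1), (30, 2), (31, 2), (32, 2), (33, 1), (34, 2), (35, 2), (3, 6)], [(3, 3)]⟩,
  ⟨2742, 120, 0, 224, 192, true, true, true, [(0, 2), (3, 3), (4, 1), (13, 1), (5, 1), (14, 2), (15, 4), (16, 3), (17, 4), (29, 1), (30, 2), (31, 2), (32, 2)], [(33, 1), (34, 2), (35, 2), (36, 2), (37, 1), (38, 2)]⟩,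
  ⟨3702, 120, 0, 192, 106, true, true, true, [(0, 6), (4, 1), (0, 2), (5, 1), (0, 2), (6, 2), (0, 1), (7, 2), (0, 1), (8, 3), (9, 3), (31, 2), (10, 1), (32, 1), (33, 1), (34, 2), (35, 2), (36, 2), (37, 1), (38, 1)], [(38, 1), (39, 2)]⟩,
  ⟨5586, 120, 0, 12, 60, true, false, false, [(0, 52)], []⟩,
  ⟨8753, 120, 0, 0, 0, true, false, false, [(0, 53)], []⟩
  ] = true := by decide +kernel

def g68_53 : Gr := ⟨false, 768, 794, 1024, 1024, 68, 68, 8444, 8445, 0, 1367, 0, []⟩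

theorem k68_53 : chk g68_53 T750 [
  ⟨1921, 120, 600, 272, 272, false, false, true, [(2, 4), (45, 2), (20, 1), (21, 1), (22, 2), (23, 2), (24, 2), (25, 1), (26, 2), (27, 2), (28, 2), (29, 1), (30, 2), (31, 2), (32, 2), (33, 1), (34, 2), (35, 2)], [(36, 2), (37, 1)]⟩,
  ⟨3842, 120, 0, 192, 114, true, true, true, [(0, 4), (4, 3), (5, 3), (6, 4), (7, 2), (16, 1), (17, 4), (18, 3), (31, 2), (32, 2), (33, 1), (34, 2), (35, 2), (36, 2)], [(37, 1), (38, 2), (39, 2), (40, 2)]⟩,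
  ⟨5763, 120, 0, 12, 62, true, true, false, [(0, 54)], []⟩,
  ⟨8742, 120, 0, 0, 0, true, false, false, [(0, 55)], []⟩
  ] = true := by decide +kernel

def g68_54 : Gr := ⟨false, 793, 820, 1024, 1024, 68, 68, 8444, 8445, 0, 1324, 0, []⟩

theorem k68_54 : chk g68_54 T775 [
  ⟨1921, 120, 600, 272, 280, false, false, true, [(2, 4), (45, 2), (20, 1), (21, 1), (22, 2), (23, 2), (24, 2), (25, 1), (26, 2), (27, 2), (28, 2), (29, 1), (30, 2), (31, 2), (32, 2), (33, 1), (34, 2), (35, 2), (36, 2)], [(37, 1), (38, 2)]⟩,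
  ⟨3842, 120, 0, 224, 120, true, true, true, [(0, 4), (4, 3), (5, 3), (6, 4), (7, 2), (16, 1), (17, 4), (18, 3), (31, 2), (32, 2), (33, 1), (34, 2), (35, 2), (36, 2)], [(37, 1), (38, 2), (39, 2), (40, 1)]⟩,
  ⟨5763, 120, 0, 6, 91, true, true, true, [(0, 54)], [(0, 2)]⟩,
  ⟨8744, 120, 0, 0, 0, true, false, false, [(0, 57)], []⟩
  ] = true := by decide +kernel

end Pool.Agent.Lib.MP_af3a4a_an.P1.CHK.H81.L
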