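import Pool.Agent.Lib.MP_af3a4a_an.P1.CHK.H81.LT
/-!
# Data, `69 ≤ N ≤ 69`, `286 ≤ 1024 R ≤ 426` (helper81)
-/
set_option autoImplicit false

namespace Pool.Agent.Lib.MP_af3a4a_an.P1.CHK.H81.L

open Pool.Agent.Lib.MP_af3a4a_an.P1.CHK.H58.G (Gr En)

def g69_0 : Gr := ⟨false, 286, 294, 1024, 1024, 69, 69, 8505, 8506, 512, 3668, 0, []⟩

theorem k69_0 : chk g69_0 [] [
  ⟨1277, 90, 0, 176, 88, true, true, false, [(0, 11)], []⟩,
  ⟨1456, 90, 0, 176, 88, true, true, false, [(0, 11)], []⟩,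
  ⟨1954, 90, 0, 144, 69, true, true, false, [(0, 14)], []⟩,
  ⟨3875, 90, 0, 48, 21, true, true, false, [(0, 23)], []⟩,
  ⟨7642, 90, 0, 0, 0, true, false, false, [(0, 28)], []⟩,
  ⟨8748, 90, 0, 0, 0, true, false, false, [(0, 28)], []⟩
  ] = true := by decide +kernel

def g69_1 : Gr := ⟨false, 294, 302, 1024, 1024, 69, 69, 8505, 8506, 512, 3568, 0, []⟩

theorem k69_1 : chk g69_1 [] [
  ⟨1264, 120, 0, 176, 88, true, true, false, [(0, 9)], []⟩,
  ⟨1391, 120, 0, 176, 88, true, true, false, [(0, 9)], []⟩,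
  ⟨1642, 120, 0, 160, 78, true, true, false, [(0, 10)], []⟩,
  ⟨2337, 120, 0, 120, 56, true, true, false, [(0, 13)], []⟩,
  ⟨6088, 120, 0, 0, 0, true, false, false, [(0, 21)], []⟩,
  ⟨8741, 120, 0, 0, 0, true, false, false, [(0, 21)], []⟩
  ] = true := by decide +kernel

def g69_2 : Gr := ⟨false, 302, 308, 1024, 1024, 69, 69, 8505, 8506, 384, 3474, 0, []⟩

theorem k69_2 : chk g69_2 [] [
  ⟨1004, 90, 0, 192, 98, true, true, false, [(0, 1), (3, 10)], []⟩,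
  ⟨1068, 90, 0, 192, 98, true, true, false, [(0, 2), (3, 9)], []⟩,
  ⟨1132, 90, 0, 192, 98, true, true, false, [(0, 2), (3, 9)], []⟩,
  ⟨1196, 90, 0, 192, 98, true, true, false, [(0, 3), (3, 8)], []⟩,
  ⟨1240, 90, 0, 192, 98, true, true, false, [(0, 5), (3, 6)], []⟩,
  ⟨1303, 90, 0, 192, 98, true, true, false, [(0, 11)], []⟩,
  ⟨1393, 90, 0, 192, 98, true, true, false, [(0, 11)], []⟩,
  ⟨1644, 90, 0, 160, 78, true, true, false, [(0, 14)], []⟩,
  ⟨2339, 90, 0, 128, 60, true, true, false, [(0, 17)], []⟩,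
  ⟨6090, 90, 0, 0, 0, true, false, false, [(0, 29)], []⟩,
  ⟨8680, 90, 0, 0, 0, true, false, false, [(0, 29)], []⟩
  ] = true := by decide +kernel

def g69_3 : Gr := ⟨false, 307, 317, 1024, 1024, 69, 69, 8505, 8506, 384, 3417, 0, []⟩

theorem k69_3 : chk g69_3 T300 [
  ⟨987, 50, 0, 192, 98, true, true, false, [(0, 1), (3, 20)], []⟩,
  ⟨1018, 50, 0, 192, 98, true, true, false, [(0, 2), (3, 19)], []⟩,
  ⟨1049, 50, 0, 192, 98, true, true, false, [(0, 2), (3, 19)], []⟩,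
  ⟨1093, 50, 0, 192, 98, true, true, false, [(0, 2), (3, 19)], []⟩,
  ⟨1137, 50, 0, 192, 98, true, true, false, [(0, 2), (3, 19)], []⟩,
  ⟨1181, 50, 0, 192, 98, true, true, false, [(0, 3), (3, 18)], []⟩,
  ⟨1212, 50, 0, 192, 98, true, true, false, [(0, 3), (3, 18)], []⟩,
  ⟨1243, 50, 0, 192, 98, true, true, false, [(0, 4), (3, 17)], []⟩,
  ⟨1274, 50, 0, 192, 98, true, true, false, [(0, 11), (3, 10)], []⟩,
  ⟨1319, 50, 0, 192, 98, true, true, false, [(0, 21)], []⟩,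
  ⟨1383, 50, 0, 192, 98, true, true, false, [(0, 21)], []⟩,
  ⟨1510, 50, 0, 176, 88, true, true, false, [(0, 24)], []⟩,
  ⟨1865, 50, 0, 144, 69, true, true, false, [(0, 29)], []⟩,
  ⟨2844, 50, 0, 96, 44, true, true, false, [(0, 37)], []⟩,
  ⟨6612, 50, 0, 0, 0, true, false, false, [(0, 53)], []⟩,
  ⟨8787, 50, 0, 0, 0, true, false, false, [(0, 53)], []⟩
  ] = true := by decide +kernel

def g69_4 : Gr := ⟨false, 317, 322, 1024, 1024, 69, 69, 8505, 8506, 256, 3309, 0, []⟩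

theorem k69_4 : chk g69_4 T300 [
  ⟨668, 90, 0, 208, 109, true, true, false, [(0, 1), (3, 10)], []⟩,
  ⟨678, 90, 0, 208, 109, true, true, false, [(0, 1), (3, 10)], []⟩,
  ⟨694, 90, 0, 208, 109, true, true, false, [(0, 1), (3, 10)], []⟩,
  ⟨717, 90, 0, 208, 109, true, true, false, [(0, 1), (3, 10)], []⟩,
  ⟨740, 90, 0, 208, 109, true, true, false, [(0, 1), (3, 10)], []⟩,
  ⟨773, 90, 0, 208, 109, true, true, false, [(0, 1), (3, 10)], []⟩,
  ⟨806, 90, 0, 208, 109, true, true, false, [(0, 1), (3, 10)], []⟩,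
  ⟨854, 90, 0, 208, 109, true, true, false, [(0, 1), (3, 10)], []⟩,
  ⟨902, 90, 0, 208, 109, true, true, false, [(0, 1), (3, 10)], []⟩,
  ⟨950, 90, 0, 208, 109, true, true, false, [(0, 1), (3, 10)], []⟩,
  ⟨1018, 90, 0, 208, 109, true, true, false, [(0, 1), (3, 10)], []⟩,
  ⟨1086, 90, 0, 192, 98, true, true, false, [(0, 2), (3, 10)], []⟩,
  ⟨1154, 90, 0, 192, 98, true, true, false, [(0, 2), (3, 10)], []⟩,
  ⟨1222, 90, 0, 192, 98, true, true, false, [(0, 2), (3, 10)], []⟩,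
  ⟨1290, 90, 0, 192, 98, true, true, false, [(0, 4), (3, 8)], []⟩,
  ⟨1358, 90, 0, 192, 98, true, true, false, [(0, 12)], []⟩,
  ⟨1495, 90, 0, 176, 88, true, true, false, [(0, 14)], []⟩,
  ⟨1875, 90, 0, 160, 78, true, true, false, [(0, 15)], []⟩,
  ⟨2924, 90, 0, 96, 44, true, true, false, [(0, 21)], []⟩,
  ⟨5808, 90, 0, 0, 0, true, false, false, [(0, 30)], []⟩,
  ⟨8644, 90, 0, 0, 0, true, false, false, [(0, 30)], []⟩
  ] = true := by decide +kernel

def g69_5 : Gr := ⟨false, 322, 327, 1024, 1024, 69, 69, 8505, 8506, 256, 3258, 0, []⟩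

theorem k69_5 : chk g69_5 T300 [
  ⟨689, 90, 0, 208, 109, true, true, false, [(0, 1), (3, 10)], []⟩,
  ⟨720, 90, 0, 208, 109, true, true, false, [(0, 1), (3, 10)], []⟩,
  ⟨751, 90, 0, 208, 109, true, true, false, [(0, 1), (3, 10)], []⟩,
  ⟨796, 90, 0, 208, 109, true, true, false, [(0, 1), (3, 10)], []⟩,
  ⟨841, 90, 0, 208, 109, true, true, false, [(0, 1), (3, 10)], []⟩,
  ⟨905, 90, 0, 208, 109, true, true, false, [(0, 1), (3, 10)], []⟩,
  ⟨969, 90, 0, 208, 109, true, true, false, [(0, 1), (3, 10)], []⟩,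
  ⟨1033, 90, 0, 208, 109, true, true, false, [(0, 1), (3, 10)], []⟩,
  ⟨1097, 90, 0, 208, 109, true, true, false, [(0, 2), (3, 9)], []⟩,
  ⟨1161, 90, 0, 208, 109, true, true, false, [(0, 2), (3, 9)], []⟩,
  ⟨1206, 90, 0, 208, 109, true, true, false, [(0, 2), (3, 9)], []⟩,
  ⟨1237, 90, 0, 208, 109, true, true, false, [(0, 3), (3, 8)], []⟩,
  ⟨1259, 90, 0, 208, 109, true, true, false, [(0, 3), (3, 8)], []⟩,
  ⟨1274, 90, 0, 192, 98, true, true, false, [(0, 4), (3, 9)], []⟩,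
  ⟨1289, 90, 0, 192, 98, true, true, false, [(0, 4), (3, 9)], []⟩,
  ⟨1304, 90, 0, 176, 88, true, true, false, [(0, 5), (3, 9)], []⟩,
  ⟨1319, 90, 0, 176, 88, true, true, false, [(0, 7), (3, 7)], []⟩,
  ⟨1351, 90, 0, 176, 88, true, true, false, [(0, 14)], []⟩,
  ⟨1445, 90, 0, 176, 88, true, true, false, [(0, 14)], []⟩,
  ⟨1632, 90, 0, 176, 88, true, true, false, [(0, 14)], []⟩,
  ⟨2150, 90, 0, 144, 69, true, true, false, [(0, 17)], []⟩,
  ⟨4949, 90, 0, 24, 11, true, true, false, [(0, 28)], []⟩,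
  ⟨8643, 90, 0, 0, 0, true, false, false, [(0, 31)], []⟩
  ] = true := by decide +kernel

def g69_6 : Gr := ⟨false, 327, 333, 1024, 1024, 69, 69, 8505, 8506, 256, 3208, 0, []⟩

theorem k69_6 : chk g69_6 T300 [
  ⟨722, 70, 0, 224, 120, true, true, false, [(0, 1), (3, 12)], []⟩,
  ⟨766, 70, 0, 224, 120, true, true, false, [(0, 1), (3, 12)], []⟩,
  ⟨810, 70, 0, 208, 109, true, true, false, [(0, 1), (3, 14)], []⟩,
  ⟨873, 70, 0, 208, 109, true, true, false, [(0, 1), (3, 14)], []⟩,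
  ⟨936, 70, 0, 208, 109, true, true, false, [(0, 1), (3, 14)], []⟩,
  ⟨999, 70, 0, 208, 109, true, true, false, [(0, 1), (3, 14)], []⟩,
  ⟨1062, 70, 0, 208, 109, true, true, false, [(0, 1), (3, 14)], []⟩,
  ⟨1125, 70, 0, 208, 109, true, true, false, [(0, 2), (3, 13)], []⟩,
  ⟨1188, 70, 0, 208, 109, true, true, false, [(0, 2), (3, 13)], []⟩,
  ⟨1251, 70, 0, 192, 98, true, true, false, [(0, 2), (3, 15)], []⟩,
  ⟨1295, 70, 0, 192, 98, true, true, false, [(0, 3), (3, 14)], []⟩,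
  ⟨1339, 70, 0, 192, 98, true, true, false, [(0, 5), (3, 12)], []⟩,
  ⟨1402, 70, 0, 192, 98, true, true, false, [(0, 17)], []⟩,
  ⟨1528, 70, 0, 192, 98, true, true, false, [(0, 17)], []⟩,
  ⟨1778, 70, 0, 160, 78, true, true, false, [(0, 21)], []⟩,
  ⟨2470, 70, 0, 128, 60, true, true, false, [(0, 25)], []⟩,
  ⟨6206, 70, 0, 0, 0, true, false, false, [(0, 40)], []⟩,
  ⟨8666, 70, 0, 0, 0, true, false, false, [(0, 40)], []⟩
  ] = true := by decide +kernel

def g69_7 : Gr := ⟨false, 332, 336, 1024, 1024, 69, 69, 8505, 8506, 256, 3160, 0, []⟩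

theorem k69_7 : chk g69_7 T325 [
  ⟨704, 90, 0, 208, 109, true, true, false, [(0, 1), (3, 11)], []⟩,
  ⟨726, 90, 0, 208, 109, true, true, false, [(0, 1), (3, 11)], []⟩,
  ⟨748, 90, 0, 208, 109, true, true, false, [(0, 1), (3, 11)], []⟩,
  ⟨780, 90, 0, 208, 109, true, true, false, [(0, 1), (3, 11)], []⟩,
  ⟨826, 90, 0, 208, 109, true, true, false, [(0, 1), (3, 11)], []⟩,
  ⟨872, 90, 0, 208, 109, true, true, false, [(0, 1), (3, 11)], []⟩,
  ⟨938, 90, 0, 208, 109, true, true, false, [(0, 1), (3, 11)], []⟩,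
  ⟨1004, 90, 0, 208, 109, true, true, false, [(0, 1), (3, 11)], []⟩,
  ⟨1070, 90, 0, 208, 109, true, true, false, [(0, 1), (3, 11)], []⟩,
  ⟨1136, 90, 0, 208, 109, true, true, false, [(0, 2), (3, 10)], []⟩,
  ⟨1202, 90, 0, 208, 109, true, true, false, [(0, 2), (3, 10)], []⟩,
  ⟨1268, 90, 0, 208, 109, true, true, false, [(0, 2), (3, 10)], []⟩,
  ⟨1314, 90, 0, 208, 109, true, true, false, [(0, 3), (3, 9)], []⟩,
  ⟨1346, 90, 0, 208, 109, true, true, false, [(0, 5), (3, 7)], []⟩,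
  ⟨1361, 90, 0, 208, 109, true, true, false, [(0, 8), (3, 4)], []⟩,
  ⟨1376, 90, 0, 208, 109, true, true, false, [(0, 12)], []⟩,
  ⟨1409, 90, 0, 192, 98, true, true, false, [(0, 14)], []⟩,
  ⟨1505, 90, 0, 176, 88, true, true, false, [(0, 15)], []⟩,
  ⟨1773, 90, 0, 176, 88, true, true, false, [(0, 15)], []⟩,
  ⟨2514, 90, 0, 120, 56, true, true, false, [(0, 20)], []⟩,
  ⟨5370, 90, 0, 0, 0, true, false, false, [(0, 32)], []⟩,
  ⟨8226, 90, 0, 0, 0, true, false, false, [(0, 32)], []⟩,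
  ⟨8613, 90, 0, 0, 0, true, false, false, [(0, 32)], []⟩
  ] = true := by decide +kernel

def g69_8 : Gr := ⟨false, 336, 342, 1024, 1024, 69, 69, 8505, 8506, 128, 3122, 0, []⟩

theorem k69_8 : chk g69_8 T325 [
  ⟨475, 90, 630, 72, 208, false, false, false, [(0, 1), (3, 12), (8, 1), (3, 11)], []⟩,
  ⟨537, 90, 630, 72, 208, false, false, false, [(0, 1), (3, 24)], []⟩,
  ⟨580, 90, 450, 192, 98, false, true, false, [(0, 1), (3, 13)], []⟩,
  ⟨610, 90, 450, 192, 98, false, true, false, [(0, 1), (3, 13)], []⟩,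
  ⟨640, 90, 450, 192, 98, false, true, false, [(0, 1), (3, 13)], []⟩,
  ⟨661, 90, 0, 224, 120, true, true, false, [(0, 1), (3, 10)], []⟩,
  ⟨682, 90, 0, 224, 120, true, true, false, [(0, 1), (3, 10)], []⟩,
  ⟨713, 90, 0, 224, 120, true, true, false, [(0, 1), (3, 10)], []⟩,
  ⟨744, 90, 0, 224, 120, true, true, false, [(0, 1), (3, 10)], []⟩,
  ⟨788, 90, 0, 224, 120, true, true, false, [(0, 1), (3, 10)], []⟩,
  ⟨832, 90, 0, 224, 120, true, true, false, [(0, 1), (3, 10)], []⟩,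
  ⟨876, 90, 0, 224, 120, true, true, false, [(0, 1), (3, 10)], []⟩,
  ⟨920, 90, 0, 224, 120, true, true, false, [(0, 1), (3, 10)], []⟩,
  ⟨964, 90, 0, 224, 120, true, true, false, [(0, 1), (3, 10)], []⟩,
  ⟨1008, 90, 0, 224, 120, true, true, false, [(0, 1), (3, 10)], []⟩,
  ⟨1039, 90, 0, 224, 120, true, true, false, [(0, 1), (3, 10)], []⟩,
  ⟨1070, 90, 0, 224, 120, true, true, false, [(0, 1), (3, 10)], []⟩,
  ⟨1091, 90, 0, 192, 98, true, true, false, [(0, 2), (3, 12)], []⟩,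
  ⟨1122, 90, 0, 192, 98, true, true, false, [(0, 2), (3, 12)], []⟩,
  ⟨1153, 90, 0, 192, 98, true, true, false, [(0, 2), (3, 12)], []⟩,
  ⟨1184, 90, 0, 192, 98, true, true, false, [(0, 2), (3, 12)], []⟩,
  ⟨1229, 90, 0, 192, 98, true, true, false, [(0, 2), (3, 12)], []⟩,
  ⟨1274, 90, 0, 192, 98, true, true, false, [(0, 2), (3, 12)], []⟩,
  ⟨1319, 90, 0, 192, 98, true, true, false, [(0, 3), (3, 11)], []⟩,
  ⟨1364, 90, 0, 192, 98, true, true, false, [(0, 4), (3, 10)], []⟩,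
  ⟨1395, 90, 0, 192, 98, true, true, false, [(0, 11), (3, 3)], []⟩,
  ⟨1459, 90, 0, 192, 98, true, true, false, [(0, 14)], []⟩,
  ⟨1587, 90, 0, 192, 98, true, true, false, [(0, 14)], []⟩,
  ⟨1841, 90, 0, 160, 78, true, true, false, [(0, 17)], []⟩,
  ⟨2543, 90, 0, 128, 60, true, true, false, [(0, 20)], []⟩,
  ⟨6330, 90, 0, 0, 0, true, false, false, [(0, 32)], []⟩,
  ⟨8662, 90, 0, 0, 0, true, false, false, [(0, 32)], []⟩
  ] = true := by decide +kernel

def g69_9 : Gr := ⟨false, 342, 348, 1024, 1024, 69, 69, 8505, 8506, 128, 3068, 0, []⟩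

theorem k69_9 : chk g69_9 T325 [
  ⟨482, 90, 630, 80, 208, false, false, false, [(0, 1), (3, 12), (8, 1), (3, 11)], []⟩,
  ⟨544, 90, 630, 88, 192, false, false, false, [(0, 1), (3, 23)], []⟩,
  ⟨587, 90, 450, 208, 109, false, true, false, [(0, 1), (3, 12)], []⟩,
  ⟨630, 90, 450, 208, 109, false, true, false, [(0, 1), (3, 12)], []⟩,
  ⟨660, 90, 450, 208, 109, false, true, false, [(0, 1), (3, 12)], []⟩,
  ⟨681, 90, 450, 208, 109, false, true, false, [(0, 1), (3, 12)], []⟩,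
  ⟨696, 90, 450, 208, 109, false, true, false, [(0, 1), (3, 12)], []⟩,
  ⟨711, 90, 450, 208, 109, false, true, false, [(0, 1), (3, 12)], []⟩,
  ⟨721, 90, 0, 240, 132, true, true, false, [(0, 1), (3, 9)], []⟩,
  ⟨731, 90, 0, 240, 132, true, true, false, [(0, 1), (3, 9)], []⟩,
  ⟨741, 90, 0, 240, 132, true, true, false, [(0, 1), (3, 9)], []⟩,
  ⟨751, 90, 0, 240, 132, true, true, false, [(0, 1), (3, 9)], []⟩,
  ⟨761, 90, 0, 208, 109, true, true, false, [(0, 1), (3, 12)], []⟩,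
  ⟨776, 90, 0, 208, 109, true, true, false, [(0, 1), (3, 12)], []⟩,
  ⟨791, 90, 0, 208, 109, true, true, false, [(0, 1), (3, 12)], []⟩,
  ⟨814, 90, 0, 208, 109, true, true, false, [(0, 1), (3, 12)], []⟩,
  ⟨837, 90, 0, 208, 109, true, true, false, [(0, 1), (3, 12)], []⟩,
  ⟨870, 90, 0, 208, 109, true, true, false, [(0, 1), (3, 12)], []⟩,
  ⟨903, 90, 0, 208, 109, true, true, false, [(0, 1), (3, 12)], []⟩,
  ⟨950, 90, 0, 208, 109, true, true, false, [(0, 1), (3, 12)], []⟩,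
  ⟨997, 90, 0, 208, 109, true, true, false, [(0, 1), (3, 12)], []⟩,
  ⟨1064, 90, 0, 208, 109, true, true, false, [(0, 1), (3, 12)], []⟩,
  ⟨1131, 90, 0, 208, 109, true, true, false, [(0, 2), (3, 11)], []⟩,
  ⟨1198, 90, 0, 208, 109, true, true, false, [(0, 2), (3, 11)], []⟩,
  ⟨1265, 90, 0, 208, 109, true, true, false, [(0, 2), (3, 11)], []⟩,
  ⟨1312, 90, 0, 208, 109, true, true, false, [(0, 3), (3, 10)], []⟩,
  ⟨1345, 90, 0, 208, 109, true, true, false, [(0, 3), (3, 10)], []⟩,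
  ⟨1368, 90, 0, 208, 109, true, true, false, [(0, 4), (3, 9)], []⟩,
  ⟨1391, 90, 0, 208, 109, true, true, false, [(0, 6), (3, 7)], []⟩,
  ⟨1402, 90, 0, 208, 109, true, true, false, [(0, 9), (3, 4)], []⟩,
  ⟨1413, 90, 0, 208, 109, true, true, false, [(0, 13)], []⟩,
  ⟨1429, 90, 0, 208, 109, true, true, false, [(0, 13)], []⟩,
  ⟨1445, 90, 0, 192, 98, true, true, false, [(0, 15)], []⟩,
  ⟨1480, 90, 0, 192, 98, true, true, false, [(0, 15)], []⟩,
  ⟨1581, 90, 0, 176, 88, true, true, false, [(0, 16)], []⟩,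
  ⟨1782, 90, 0, 176, 88, true, true, false, [(0, 16)], []⟩,
  ⟨2340, 90, 0, 144, 69, true, true, false, [(0, 19)], []⟩,
  ⟨5355, 90, 0, 2, 1, true, true, false, [(0, 32)], []⟩,
  ⟨8370, 90, 0, 0, 0, true, false, false, [(0, 33)], []⟩,
  ⟨8661, 90, 0, 0, 0, true, false, false, [(0, 33)], []⟩
  ] = true := by decide +kernel

def g69_10 : Gr := ⟨false, 348, 354, 1024, 1024, 69, 69, 8505, 8506, 128, 3015, 0, []⟩

theorem k69_10 : chk g69_10 T325 [
  ⟨488, 90, 630, 96, 200, false, false, false, [(0, 1), (3, 23)], []⟩,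
  ⟨550, 90, 630, 96, 192, false, false, false, [(0, 1), (3, 23)], []⟩,
  ⟨593, 90, 450, 192, 98, false, true, false, [(0, 1), (3, 14)], []⟩,
  ⟨636, 90, 450, 192, 98, false, true, false, [(0, 1), (3, 14)], []⟩,
  ⟨666, 90, 450, 192, 98, false, true, false, [(0, 1), (3, 14)], []⟩,
  ⟨687, 90, 450, 192, 98, false, true, false, [(0, 1), (3, 14)], []⟩,
  ⟨718, 90, 0, 224, 120, true, true, false, [(0, 1), (3, 11)], []⟩,
  ⟨749, 90, 0, 224, 120, true, true, false, [(0, 1), (3, 11)], []⟩,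
  ⟨793, 90, 0, 224, 120, true, true, false, [(0, 1), (3, 11)], []⟩,
  ⟨837, 90, 0, 224, 120, true, true, false, [(0, 1), (3, 11)], []⟩,
  ⟨900, 90, 0, 224, 120, true, true, false, [(0, 1), (3, 11)], []⟩,
  ⟨963, 90, 0, 224, 120, true, true, false, [(0, 1), (3, 11)], []⟩,
  ⟨1026, 90, 0, 224, 120, true, true, false, [(0, 1), (3, 11)], []⟩,
  ⟨1089, 90, 0, 224, 120, true, true, false, [(0, 1), (3, 11)], []⟩,
  ⟨1133, 90, 0, 224, 120, true, true, false, [(0, 2), (3, 10)], []⟩,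
  ⟨1164, 90, 0, 224, 120, true, true, false, [(0, 2), (3, 10)], []⟩,
  ⟨1195, 90, 0, 224, 120, true, true, false, [(0, 2), (3, 10)], []⟩,
  ⟨1226, 90, 0, 192, 98, true, true, false, [(0, 2), (3, 13)], []⟩,
  ⟨1257, 90, 0, 192, 98, true, true, false, [(0, 2), (3, 13)], []⟩,
  ⟨1288, 90, 0, 192, 98, true, true, false, [(0, 2), (3, 13)], []⟩,
  ⟨1319, 90, 0, 192, 98, true, true, false, [(0, 3), (3, 12)], []⟩,
  ⟨1350, 90, 0, 192, 98, true, true, false, [(0, 3), (3, 12)], []⟩,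
  ⟨1381, 90, 0, 192, 98, true, true, false, [(0, 4), (3, 11)], []⟩,
  ⟨1412, 90, 0, 192, 98, true, true, false, [(0, 5), (3, 10)], []⟩,
  ⟨1443, 90, 0, 192, 98, true, true, false, [(0, 11), (3, 4)], []⟩,
  ⟨1506, 90, 0, 192, 98, true, true, false, [(0, 15)], []⟩,
  ⟨1632, 90, 0, 192, 98, true, true, false, [(0, 15)], []⟩,
  ⟨1881, 90, 0, 160, 78, true, true, false, [(0, 18)], []⟩,
  ⟨2571, 90, 0, 128, 60, true, true, false, [(0, 21)], []⟩,
  ⟨6293, 90, 0, 0, 0, true, false, false, [(0, 33)], []⟩,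
  ⟨8658, 90, 0, 0, 0, true, false, false, [(0, 33)], []⟩
  ] = true := by decide +kernel

def g69_11 : Gr := ⟨false, 354, 359, 1024, 1024, 69, 69, 8505, 8506, 0, 2048, 0, []⟩

theorem k69_11 : chk g69_11 T325 [
  ⟨355, 90, 720, 24, 280, false, false, false, [(0, 1), (3, 4), (15, 3), (6, 1), (7, 2), (8, 3), (9, 2), (3, 15)], []⟩,
  ⟨476, 90, 630, 80, 220, false, true, false, [(0, 1), (3, 25)], []⟩,
  ⟨561, 90, 630, 80, 212, false, true, false, [(0, 1), (3, 25)], []⟩,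
  ⟨620, 90, 450, 208, 109, false, true, false, [(0, 1), (3, 13)], []⟩,
  ⟨661, 90, 450, 208, 109, false, true, false, [(0, 1), (3, 13)], []⟩,
  ⟨702, 90, 450, 208, 109, false, true, false, [(0, 1), (3, 13)], []⟩,
  ⟨731, 90, 0, 240, 132, true, true, false, [(0, 1), (3, 10)], []⟩,
  ⟨772, 90, 0, 240, 132, true, true, false, [(0, 1), (3, 10)], []⟩,
  ⟨813, 90, 0, 240, 132, true, true, false, [(0, 1), (3, 10)], []⟩,
  ⟨854, 90, 0, 240, 132, true, true, false, [(0, 1), (3, 10)], []⟩,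
  ⟨883, 90, 0, 240, 132, true, true, false, [(0, 1), (3, 10)], []⟩,
  ⟨912, 90, 0, 208, 109, true, true, false, [(0, 1), (3, 13)], []⟩,
  ⟨954, 90, 0, 208, 109, true, true, false, [(0, 1), (3, 13)], []⟩,
  ⟨996, 90, 0, 208, 109, true, true, false, [(0, 1), (3, 13)], []⟩,
  ⟨1055, 90, 0, 208, 109, true, true, false, [(0, 1), (3, 13)], []⟩,
  ⟨1114, 90, 0, 208, 109, true, true, false, [(0, 1), (3, 13)], []⟩,
  ⟨1173, 90, 0, 208, 109, true, true, false, [(0, 2), (3, 12)], []⟩,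
  ⟨1232, 90, 0, 208, 109, true, true, false, [(0, 2), (3, 12)], []⟩,
  ⟨1291, 90, 0, 208, 109, true, true, false, [(0, 2), (3, 12)], []⟩,
  ⟨1350, 90, 0, 208, 109, true, true, false, [(0, 3), (3, 11)], []⟩,
  ⟨1391, 90, 0, 208, 109, true, true, false, [(0, 3), (3, 11)], []⟩,
  ⟨1432, 90, 0, 208, 109, true, true, false, [(0, 4), (3, 10)], []⟩,
  ⟨1461, 90, 0, 208, 109, true, true, false, [(0, 9), (3, 5)], []⟩,
  ⟨1490, 90, 0, 208, 109, true, true, false, [(0, 14)], []⟩,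
  ⟨1532, 90, 0, 192, 98, true, true, false, [(0, 16)], []⟩,
  ⟨1651, 90, 0, 176, 88, true, true, false, [(0, 17)], []⟩,
  ⟨1888, 90, 0, 176, 88, true, true, false, [(0, 17)], []⟩,
  ⟨2544, 90, 0, 128, 60, true, true, false, [(0, 22)], []⟩,
  ⟨5965, 90, 0, 0, 0, true, false, false, [(0, 34)], []⟩
  ] = true := by decide +kernel

def g69_12 : Gr := ⟨false, 358, 364, 1024, 1024, 69, 69, 8505, 8506, 0, 2048, 0, []⟩

theorem k69_12 : chk g69_12 T350 [
  ⟨355, 90, 720, 8, 296, false, false, false, [(0, 1), (3, 4), (18, 3), (8, 1), (9, 2), (10, 3), (11, 2), (12, 2), (3, 15)], []⟩,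
  ⟨529, 90, 630, 72, 224, false, false, false, [(0, 1), (3, 12), (10, 1), (11, 2), (3, 11)], []⟩,
  ⟨613, 90, 630, 104, 184, false, false, false, [(0, 1), (3, 23)], []⟩,
  ⟨654, 90, 540, 192, 98, false, true, false, [(0, 1), (3, 15)], []⟩,
  ⟨695, 90, 540, 192, 98, false, true, false, [(0, 1), (3, 15)], []⟩,
  ⟨724, 90, 450, 192, 98, false, true, false, [(0, 1), (3, 15)], []⟩,
  ⟨753, 90, 0, 224, 120, true, true, false, [(0, 1), (3, 12)], []⟩,
  ⟨782, 90, 0, 224, 120, true, true, false, [(0, 1), (3, 12)], []⟩,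
  ⟨823, 90, 0, 224, 120, true, true, false, [(0, 1), (3, 12)], []⟩,
  ⟨864, 90, 0, 224, 120, true, true, false, [(0, 1), (3, 12)], []⟩,
  ⟨923, 90, 0, 224, 120, true, true, false, [(0, 1), (3, 12)], []⟩,
  ⟨982, 90, 0, 224, 120, true, true, false, [(0, 1), (3, 12)], []⟩,
  ⟨1041, 90, 0, 224, 120, true, true, false, [(0, 1), (3, 12)], []⟩,
  ⟨1100, 90, 0, 224, 120, true, true, false, [(0, 1), (3, 12)], []⟩,
  ⟨1159, 90, 0, 224, 120, true, true, false, [(0, 2), (3, 11)], []⟩,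
  ⟨1200, 90, 0, 224, 120, true, true, false, [(0, 2), (3, 11)], []⟩,
  ⟨1241, 90, 0, 224, 120, true, true, false, [(0, 2), (3, 11)], []⟩,
  ⟨1270, 90, 0, 224, 120, true, true, false, [(0, 2), (3, 11)], []⟩,
  ⟨1290, 90, 0, 224, 120, true, true, false, [(0, 2), (3, 11)], []⟩,
  ⟨1304, 90, 0, 192, 98, true, true, false, [(0, 2), (3, 14)], []⟩,
  ⟨1318, 90, 0, 192, 98, true, true, false, [(0, 2), (3, 14)], []⟩,
  ⟨1332, 90, 0, 192, 98, true, true, false, [(0, 2), (3, 14)], []⟩,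
  ⟨1352, 90, 0, 192, 98, true, true, false, [(0, 3), (3, 13)], []⟩,
  ⟨1372, 90, 0, 192, 98, true, true, false, [(0, 3), (3, 13)], []⟩,
  ⟨1392, 90, 0, 192, 98, true, true, false, [(0, 3), (3, 13)], []⟩,
  ⟨1412, 90, 0, 192, 98, true, true, false, [(0, 4), (3, 12)], []⟩,
  ⟨1426, 90, 0, 192, 98, true, true, false, [(0, 4), (3, 12)], []⟩,
  ⟨1440, 90, 0, 192, 98, true, true, false, [(0, 5), (3, 11)], []⟩,
  ⟨1454, 90, 0, 192, 98, true, true, false, [(0, 6), (3, 10)], []⟩,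
  ⟨1468, 90, 0, 192, 98, true, true, false, [(0, 9), (3, 7)], []⟩,
  ⟨1489, 90, 0, 192, 98, true, true, false, [(0, 16)], []⟩,
  ⟨1552, 90, 0, 192, 98, true, true, false, [(0, 16)], []⟩,
  ⟨1678, 90, 0, 192, 98, true, true, false, [(0, 16)], []⟩,
  ⟨1928, 90, 0, 160, 78, true, true, false, [(0, 19)], []⟩,
  ⟨2619, 90, 0, 128, 60, true, true, false, [(0, 22)], []⟩,
  ⟨6048, 90, 0, 0, 0, true, false, false, [(0, 34)], []⟩
  ] = true := by decide +kernel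

def g69_13 : Gr := ⟨false, 364, 370, 1024, 1024, 69, 69, 8505, 8506, 0, 2048, 0, []⟩

theorem k69_13 : chk g69_13 T350 [
  ⟨355, 90, 720, 24, 288, false, false, false, [(0, 1), (3, 4), (18, 3), (8, 1), (9, 2), (10, 3), (11, 2), (12, 2), (3, 14)], []⟩,
  ⟨529, 90, 630, 80, 224, false, false, false, [(0, 1), (3, 12), (10, 1), (11, 2), (3, 11)], []⟩,
  ⟨614, 90, 630, 112, 184, false, false, false, [(0, 1), (3, 23)], []⟩,
  ⟨673, 90, 450, 208, 109, false, true, false, [(0, 1), (3, 14)], []⟩,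
  ⟨714, 90, 450, 208, 109, false, true, false, [(0, 1), (3, 14)], []⟩,
  ⟨755, 90, 0, 240, 132, true, true, false, [(0, 1), (3, 11)], []⟩,
  ⟨796, 90, 0, 240, 132, true, true, false, [(0, 1), (3, 11)], []⟩,
  ⟨837, 90, 0, 240, 132, true, true, false, [(0, 1), (3, 11)], []⟩,
  ⟨878, 90, 0, 240, 132, true, true, false, [(0, 1), (3, 11)], []⟩,
  ⟨919, 90, 0, 240, 132, true, true, false, [(0, 1), (3, 11)], []⟩,
  ⟨960, 90, 0, 240, 132, true, true, false, [(0, 1), (3, 11)], []⟩,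
  ⟨1001, 90, 0, 240, 132, true, true, false, [(0, 1), (3, 11)], []⟩,
  ⟨1042, 90, 0, 208, 109, true, true, false, [(0, 1), (3, 14)], []⟩,
  ⟨1083, 90, 0, 208, 109, true, true, false, [(0, 1), (3, 14)], []⟩,
  ⟨1124, 90, 0, 208, 109, true, true, false, [(0, 1), (3, 14)], []⟩,
  ⟨1183, 90, 0, 208, 109, true, true, false, [(0, 2), (3, 13)], []⟩,
  ⟨1242, 90, 0, 208, 109, true, true, false, [(0, 2), (3, 13)], []⟩,
  ⟨1301, 90, 0, 208, 109, true, true, false, [(0, 2), (3, 13)], []⟩,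
  ⟨1360, 90, 0, 208, 109, true, true, false, [(0, 2), (3, 13)], []⟩,
  ⟨1401, 90, 0, 208, 109, true, true, false, [(0, 3), (3, 12)], []⟩,
  ⟨1442, 90, 0, 208, 109, true, true, false, [(0, 4), (3, 11)], []⟩,
  ⟨1471, 90, 0, 208, 109, true, true, false, [(0, 5), (3, 10)], []⟩,
  ⟨1491, 90, 0, 208, 109, true, true, false, [(0, 8), (3, 7)], []⟩,
  ⟨1511, 90, 0, 208, 109, true, true, false, [(0, 15)], []⟩,
  ⟨1540, 90, 0, 208, 109, true, true, false, [(0, 15)], []⟩,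
  ⟨1582, 90, 0, 208, 109, true, true, false, [(0, 15)], []⟩,
  ⟨1667, 90, 0, 176, 88, true, true, false, [(0, 18)], []⟩,
  ⟨1905, 90, 0, 176, 88, true, true, false, [(0, 18)], []⟩,
  ⟨2375, 90, 0, 144, 69, true, true, false, [(0, 21)], []⟩,
  ⟨5936, 90, 0, 2, 1, true, true, false, [(0, 34)], []⟩,
  ⟨6147, 90, 0, 0, 0, true, false, false, [(0, 35)], []⟩
  ] = true := by decide +kernel

def g69_14 : Gr := ⟨false, 370, 375, 1024, 1024, 69, 69, 8505, 8506, 0, 2048, 0, []⟩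

theorem k69_14 : chk g69_14 T350 [
  ⟨355, 90, 720, 8, 304, false, false, false, [(0, 1), (3, 4), (18, 3), (8, 1), (9, 2), (10, 3), (11, 2), (12, 2), (3, 16)], []⟩,
  ⟨529, 90, 720, 72, 232, false, false, false, [(0, 1), (3, 12), (10, 1), (11, 2), (3, 12)], []⟩,
  ⟨614, 90, 630, 96, 204, false, true, false, [(0, 1), (3, 25)], []⟩,
  ⟨673, 90, 450, 224, 120, false, true, false, [(0, 1), (3, 13)], []⟩,
  ⟨732, 90, 450, 224, 120, false, true, false, [(0, 1), (3, 13)], []⟩,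
  ⟨773, 90, 450, 224, 120, false, true, false, [(0, 1), (3, 13)], []⟩,
  ⟨802, 90, 0, 224, 120, true, true, false, [(0, 1), (3, 13)], []⟩,
  ⟨843, 90, 0, 224, 120, true, true, false, [(0, 1), (3, 13)], []⟩,
  ⟨884, 90, 0, 224, 120, true, true, false, [(0, 1), (3, 13)], []⟩,
  ⟨943, 90, 0, 224, 120, true, true, false, [(0, 1), (3, 13)], []⟩,
  ⟨1002, 90, 0, 224, 120, true, true, false, [(0, 1), (3, 13)], []⟩,
  ⟨1061, 90, 0, 224, 120, true, true, false, [(0, 1), (3, 13)], []⟩,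
  ⟨1145, 90, 0, 224, 120, true, true, false, [(0, 1), (3, 13)], []⟩,
  ⟨1204, 90, 0, 224, 120, true, true, false, [(0, 2), (3, 12)], []⟩,
  ⟨1263, 90, 0, 224, 120, true, true, false, [(0, 2), (3, 12)], []⟩,
  ⟨1322, 90, 0, 224, 120, true, true, false, [(0, 2), (3, 12)], []⟩,
  ⟨1351, 90, 0, 224, 120, true, true, false, [(0, 2), (3, 12)], []⟩,
  ⟨1380, 90, 0, 224, 120, true, true, false, [(0, 2), (3, 12)], []⟩,
  ⟨1394, 90, 0, 224, 120, true, true, false, [(0, 3), (3, 11)], []⟩,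
  ⟨1408, 90, 0, 192, 98, true, true, false, [(0, 3), (3, 14)], []⟩,
  ⟨1422, 90, 0, 192, 98, true, true, false, [(0, 3), (3, 14)], []⟩,
  ⟨1436, 90, 0, 192, 98, true, true, false, [(0, 3), (3, 14)], []⟩,
  ⟨1450, 90, 0, 192, 98, true, true, false, [(0, 4), (3, 13)], []⟩,
  ⟨1464, 90, 0, 192, 98, true, true, false, [(0, 4), (3, 13)], []⟩,
  ⟨1478, 90, 0, 192, 98, true, true, false, [(0, 5), (3, 12)], []⟩,
  ⟨1492, 90, 0, 192, 98, true, true, false, [(0, 5), (3, 12)], []⟩,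
  ⟨1506, 90, 0, 192, 98, true, true, false, [(0, 7), (3, 10)], []⟩,
  ⟨1520, 90, 0, 192, 98, true, true, false, [(0, 10), (3, 7)], []⟩,
  ⟨1540, 90, 0, 192, 98, true, true, false, [(0, 17)], []⟩,
  ⟨1601, 90, 0, 192, 98, true, true, false, [(0, 17)], []⟩,
  ⟨1724, 90, 0, 192, 98, true, true, false, [(0, 17)], []⟩,
  ⟨1968, 90, 0, 160, 78, true, true, false, [(0, 20)], []⟩,
  ⟨2642, 90, 0, 128, 60, true, true, false, [(0, 23)], []⟩,
  ⟨6230, 90, 0, 0, 0, true, false, false, [(0, 35)], []⟩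
  ] = true := by decide +kernel

def g69_15 : Gr := ⟨false, 375, 381, 1024, 1024, 69, 69, 8505, 8506, 0, 2048, 0, []⟩

theorem k69_15 : chk g69_15 T350 [
  ⟨355, 120, 720, 20, 300, false, false, false, [(0, 1), (3, 3), (18, 2), (8, 1), (9, 1), (10, 2), (11, 2), (12, 2), (3, 11)], []⟩,
  ⟨529, 120, 720, 80, 232, false, false, false, [(0, 1), (3, 9), (11, 2), (3, 9)], []⟩,
  ⟨614, 120, 720, 80, 224, false, false, false, [(0, 1), (3, 20)], []⟩,
  ⟨673, 120, 480, 208, 109, false, true, false, [(0, 1), (3, 11)], []⟩,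
  ⟨714, 120, 480, 208, 109, false, true, false, [(0, 1), (3, 11)], []⟩,
  ⟨755, 120, 480, 208, 109, false, true, false, [(0, 1), (3, 11)], []⟩,
  ⟨784, 120, 480, 208, 109, false, true, false, [(0, 1), (3, 11)], []⟩,
  ⟨804, 120, 480, 208, 109, false, true, false, [(0, 1), (3, 11)], []⟩,
  ⟨824, 120, 0, 240, 132, true, true, false, [(0, 1), (3, 9)], []⟩,
  ⟨844, 120, 0, 240, 132, true, true, false, [(0, 1), (3, 9)], []⟩,
  ⟨873, 120, 0, 240, 132, true, true, false, [(0, 1), (3, 9)], []⟩,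
  ⟨902, 120, 0, 240, 132, true, true, false, [(0, 1), (3, 9)], []⟩,
  ⟨931, 120, 0, 240, 132, true, true, false, [(0, 1), (3, 9)], []⟩,
  ⟨960, 120, 0, 240, 132, true, true, false, [(0, 1), (3, 9)], []⟩,
  ⟨989, 120, 0, 224, 120, true, true, false, [(0, 1), (3, 10)], []⟩,
  ⟨1031, 120, 0, 224, 120, true, true, false, [(0, 1), (3, 10)], []⟩,
  ⟨1073, 120, 0, 224, 120, true, true, false, [(0, 1), (3, 10)], []⟩,
  ⟨1115, 120, 0, 224, 120, true, true, false, [(0, 1), (3, 10)], []⟩,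
  ⟨1157, 120, 0, 224, 120, true, true, false, [(0, 1), (3, 10)], []⟩,
  ⟨1199, 120, 0, 224, 120, true, true, false, [(0, 2), (3, 9)], []⟩,
  ⟨1241, 120, 0, 224, 120, true, true, false, [(0, 2), (3, 9)], []⟩,
  ⟨1283, 120, 0, 224, 120, true, true, false, [(0, 2), (3, 9)], []⟩,
  ⟨1325, 120, 0, 208, 109, true, true, false, [(0, 2), (3, 10)], []⟩,
  ⟨1367, 120, 0, 208, 109, true, true, false, [(0, 2), (3, 10)], []⟩,
  ⟨1409, 120, 0, 208, 109, true, true, false, [(0, 3), (3, 9)], []⟩,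
  ⟨1438, 120, 0, 208, 109, true, true, false, [(0, 3), (3, 9)], []⟩,
  ⟨1467, 120, 0, 208, 109, true, true, false, [(0, 3), (3, 9)], []⟩,
  ⟨1496, 120, 0, 208, 109, true, true, false, [(0, 4), (3, 8)], []⟩,
  ⟨1516, 120, 0, 208, 109, true, true, false, [(0, 5), (3, 7)], []⟩,
  ⟨1536, 120, 0, 208, 109, true, true, false, [(0, 7), (3, 5)], []⟩,
  ⟨1556, 120, 0, 208, 109, true, true, false, [(0, 12)], []⟩,
  ⟨1586, 120, 0, 208, 109, true, true, false, [(0, 12)], []⟩,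
  ⟨1629, 120, 0, 208, 109, true, true, false, [(0, 12)], []⟩,
  ⟨1672, 120, 0, 208, 109, true, true, false, [(0, 12)], []⟩,
  ⟨1759, 120, 0, 192, 98, true, true, false, [(0, 14)], []⟩,
  ⟨1932, 120, 0, 176, 88, true, true, false, [(0, 15)], []⟩,
  ⟨2411, 120, 0, 144, 69, true, true, false, [(0, 17)], []⟩,
  ⟨6039, 120, 0, 6, 3, true, true, false, [(0, 26)], []⟩,
  ⟨6330, 120, 0, 0, 0, true, false, false, [(0, 27)], []⟩
  ] = true := by decide +kernel

def g69_16 : Gr := ⟨false, 381, 384, 1024, 1024, 69, 69, 8505, 8506, 0, 2048, 0, []⟩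

theorem k69_16 : chk g69_16 T350 [
  ⟨498, 70, 490, 208, 125, false, true, false, [(0, 1), (3, 6), (18, 3), (8, 2), (9, 3), (10, 3), (11, 3)], []⟩,
  ⟨617, 70, 700, 64, 240, false, false, false, [(0, 1), (3, 19), (11, 1), (3, 17)], []⟩,
  ⟨700, 70, 490, 208, 109, false, true, false, [(0, 1), (3, 20)], []⟩,
  ⟨783, 70, 490, 208, 109, false, true, false, [(0, 1), (3, 20)], []⟩,
  ⟨841, 70, 490, 208, 109, false, true, false, [(0, 1), (3, 20)], []⟩,
  ⟨899, 70, 0, 224, 120, true, true, false, [(0, 1), (3, 18)], []⟩,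
  ⟨982, 70, 0, 224, 120, true, true, false, [(0, 1), (3, 18)], []⟩,
  ⟨1065, 70, 0, 224, 120, true, true, false, [(0, 1), (3, 18)], []⟩,
  ⟨1148, 70, 0, 224, 120, true, true, false, [(0, 1), (3, 18)], []⟩,
  ⟨1231, 70, 0, 224, 120, true, true, false, [(0, 2), (3, 17)], []⟩,
  ⟨1314, 70, 0, 224, 120, true, true, false, [(0, 2), (3, 17)], []⟩,
  ⟨1397, 70, 0, 208, 109, true, true, false, [(0, 2), (3, 19)], []⟩,
  ⟨1479, 70, 0, 208, 109, true, true, false, [(0, 3), (3, 18)], []⟩,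
  ⟨1536, 70, 0, 208, 109, true, true, false, [(0, 4), (3, 17)], []⟩,
  ⟨1576, 70, 0, 208, 109, true, true, false, [(0, 10), (3, 11)], []⟩,
  ⟨1633, 70, 0, 208, 109, true, true, false, [(0, 21)], []⟩,
  ⟨1795, 70, 0, 192, 98, true, true, false, [(0, 23)], []⟩,
  ⟨2115, 70, 0, 160, 78, true, true, false, [(0, 27)], []⟩,
  ⟨2998, 70, 0, 104, 48, true, true, false, [(0, 34)], []⟩,
  ⟨6380, 70, 0, 0, 0, true, false, false, [(0, 46)], []⟩
  ] = true := by decide +kernel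

def g69_17 : Gr := ⟨false, 384, 390, 1024, 1024, 69, 69, 8505, 8506, 0, 2048, 0, []⟩

theorem k69_17 : chk g69_17 T375 [
  ⟨355, 90, 720, 12, 308, false, false, false, [(0, 1), (3, 4), (19, 3), (8, 1), (9, 2), (10, 3), (11, 2), (12, 2), (3, 17)], []⟩,
  ⟨529, 90, 630, 88, 232, false, false, false, [(0, 1), (3, 13), (11, 2), (3, 1), (12, 1), (3, 10)], []⟩,
  ⟨650, 90, 630, 88, 224, false, false, false, [(0, 1), (3, 27)], []⟩,
  ⟨735, 90, 540, 208, 109, false, true, false, [(0, 1), (3, 16)], []⟩,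
  ⟨794, 90, 540, 208, 109, false, true, false, [(0, 1), (3, 16)], []⟩,
  ⟨835, 90, 0, 240, 132, true, true, false, [(0, 1), (3, 13)], []⟩,
  ⟨894, 90, 0, 240, 132, true, true, false, [(0, 1), (3, 13)], []⟩,
  ⟨953, 90, 0, 240, 132, true, true, false, [(0, 1), (3, 13)], []⟩,
  ⟨1012, 90, 0, 240, 132, true, true, false, [(0, 1), (3, 13)], []⟩,
  ⟨1071, 90, 0, 240, 132, true, true, false, [(0, 1), (3, 13)], []⟩,
  ⟨1130, 90, 0, 240, 132, true, true, false, [(0, 1), (3, 13)], []⟩,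
  ⟨1171, 90, 0, 240, 132, true, true, false, [(0, 1), (3, 13)], []⟩,
  ⟨1212, 90, 0, 240, 132, true, true, false, [(0, 2), (3, 12)], []⟩,
  ⟨1241, 90, 0, 208, 109, true, true, false, [(0, 2), (3, 15)], []⟩,
  ⟨1282, 90, 0, 208, 109, true, true, false, [(0, 2), (3, 15)], []⟩,
  ⟨1323, 90, 0, 208, 109, true, true, false, [(0, 2), (3, 15)], []⟩,
  ⟨1364, 90, 0, 208, 109, true, true, false, [(0, 2), (3, 15)], []⟩,
  ⟨1405, 90, 0, 208, 109, true, true, false, [(0, 2), (3, 15)], []⟩,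
  ⟨1446, 90, 0, 208, 109, true, true, false, [(0, 3), (3, 14)], []⟩,
  ⟨1475, 90, 0, 208, 109, true, true, false, [(0, 3), (3, 14)], []⟩,
  ⟨1504, 90, 0, 208, 109, true, true, false, [(0, 3), (3, 14)], []⟩,
  ⟨1533, 90, 0, 208, 109, true, true, false, [(0, 4), (3, 13)], []⟩,
  ⟨1553, 90, 0, 208, 109, true, true, false, [(0, 6), (3, 11)], []⟩,
  ⟨1573, 90, 0, 208, 109, true, true, false, [(0, 8), (3, 9)], []⟩,
  ⟨1587, 90, 0, 208, 109, true, true, false, [(0, 15), (3, 2)], []⟩,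
  ⟨1617, 90, 0, 208, 109, true, true, false, [(0, 17)], []⟩,
  ⟨1660, 90, 0, 208, 109, true, true, false, [(0, 17)], []⟩,
  ⟨1722, 90, 0, 192, 98, true, true, false, [(0, 19)], []⟩,
  ⟨1897, 90, 0, 176, 88, true, true, false, [(0, 20)], []⟩,
  ⟨2381, 90, 0, 144, 69, true, true, false, [(0, 23)], []⟩,
  ⟨4250, 90, 0, 44, 19, true, true, false, [(0, 32)], []⟩,
  ⟨6480, 90, 0, 0, 0, true, false, false, [(0, 36)], []⟩
  ] = true := by decide +kernel

def g69_18 : Gr := ⟨false, 390, 395, 1024, 1024, 69, 69, 8505, 8506, 0, 2048, 0, []⟩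

theorem k69_18 : chk g69_18 T375 [
  ⟨355, 120, 720, 20, 308, false, false, false, [(0, 1), (3, 3), (19, 2), (8, 1), (9, 1), (10, 2), (11, 2), (12, 2), (3, 12)], []⟩,
  ⟨529, 120, 720, 80, 244, false, true, false, [(0, 1), (3, 9), (11, 2), (3, 1), (12, 1), (3, 8)], []⟩,
  ⟨650, 120, 720, 96, 220, false, true, false, [(0, 1), (3, 20)], []⟩,
  ⟨709, 120, 600, 96, 212, false, true, false, [(0, 1), (3, 20)], []⟩,
  ⟨768, 120, 480, 208, 109, false, true, false, [(0, 1), (3, 12)], []⟩,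
  ⟨809, 120, 480, 208, 109, false, true, false, [(0, 1), (3, 12)], []⟩,
  ⟨838, 120, 480, 208, 109, false, true, false, [(0, 1), (3, 12)], []⟩,
  ⟨867, 120, 0, 240, 132, true, true, false, [(0, 1), (3, 10)], []⟩,
  ⟨896, 120, 0, 240, 132, true, true, false, [(0, 1), (3, 10)], []⟩,
  ⟨937, 120, 0, 240, 132, true, true, false, [(0, 1), (3, 10)], []⟩,
  ⟨978, 120, 0, 240, 132, true, true, false, [(0, 1), (3, 10)], []⟩,
  ⟨1019, 120, 0, 240, 132, true, true, false, [(0, 1), (3, 10)], []⟩,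
  ⟨1060, 120, 0, 240, 132, true, true, false, [(0, 1), (3, 10)], []⟩,
  ⟨1101, 120, 0, 240, 132, true, true, false, [(0, 1), (3, 10)], []⟩,
  ⟨1142, 120, 0, 224, 120, true, true, false, [(0, 1), (3, 11)], []⟩,
  ⟨1201, 120, 0, 224, 120, true, true, false, [(0, 2), (3, 10)], []⟩,
  ⟨1260, 120, 0, 224, 120, true, true, false, [(0, 2), (3, 10)], []⟩,
  ⟨1319, 120, 0, 224, 120, true, true, false, [(0, 2), (3, 10)], []⟩,
  ⟨1360, 120, 0, 224, 120, true, true, false, [(0, 2), (3, 10)], []⟩,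
  ⟨1401, 120, 0, 224, 120, true, true, false, [(0, 2), (3, 10)], []⟩,
  ⟨1442, 120, 0, 208, 109, true, true, false, [(0, 2), (3, 11)], []⟩,
  ⟨1483, 120, 0, 208, 109, true, true, false, [(0, 3), (3, 10)], []⟩,
  ⟨1524, 120, 0, 208, 109, true, true, false, [(0, 3), (3, 10)], []⟩,
  ⟨1553, 120, 0, 208, 109, true, true, false, [(0, 4), (3, 9)], []⟩,
  ⟨1582, 120, 0, 208, 109, true, true, false, [(0, 5), (3, 8)], []⟩,
  ⟨1602, 120, 0, 208, 109, true, true, false, [(0, 9), (3, 4)], []⟩,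
  ⟨1631, 120, 0, 208, 109, true, true, false, [(0, 13)], []⟩,
  ⟨1691, 120, 0, 208, 109, true, true, false, [(0, 13)], []⟩,
  ⟨1751, 120, 0, 208, 109, true, true, false, [(0, 13)], []⟩,
  ⟨1872, 120, 0, 192, 98, true, true, false, [(0, 15)], []⟩,
  ⟨2208, 120, 0, 160, 78, true, true, false, [(0, 17)], []⟩,
  ⟨3136, 120, 0, 80, 36, true, true, false, [(0, 22)], []⟩,
  ⟨6563, 120, 0, 0, 0, true, false, false, [(0, 28)], []⟩
  ] = true := by decide +kernel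

def g69_19 : Gr := ⟨false, 395, 401, 1024, 1024, 69, 69, 8505, 8506, 0, 2048, 0, []⟩

theorem k69_19 : chk g69_19 T375 [
  ⟨355, 90, 720, 12, 316, false, false, false, [(0, 1), (3, 4), (19, 3), (8, 1), (9, 2), (10, 3), (11, 2), (12, 2), (3, 18)], []⟩,
  ⟨603, 90, 720, 88, 232, false, false, false, [(0, 1), (3, 7), (6, 1), (3, 4), (10, 1), (11, 2), (12, 2), (3, 11)], []⟩,
  ⟨724, 90, 630, 120, 192, false, false, false, [(0, 1), (3, 25)], []⟩,
  ⟨783, 90, 540, 208, 109, false, true, false, [(0, 1), (3, 17)], []⟩,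
  ⟨842, 90, 540, 208, 109, false, true, false, [(0, 1), (3, 17)], []⟩,
  ⟨883, 90, 0, 240, 132, true, true, false, [(0, 1), (3, 14)], []⟩,
  ⟨942, 90, 0, 240, 132, true, true, false, [(0, 1), (3, 14)], []⟩,
  ⟨1001, 90, 0, 240, 132, true, true, false, [(0, 1), (3, 14)], []⟩,
  ⟨1060, 90, 0, 240, 132, true, true, false, [(0, 1), (3, 14)], []⟩,
  ⟨1119, 90, 0, 240, 132, true, true, false, [(0, 1), (3, 14)], []⟩,
  ⟨1178, 90, 0, 240, 132, true, true, false, [(0, 1), (3, 14)], []⟩,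
  ⟨1237, 90, 0, 240, 132, true, true, false, [(0, 2), (3, 13)], []⟩,
  ⟨1278, 90, 0, 240, 132, true, true, false, [(0, 2), (3, 13)], []⟩,
  ⟨1307, 90, 0, 208, 109, true, true, false, [(0, 2), (3, 16)], []⟩,
  ⟨1336, 90, 0, 208, 109, true, true, false, [(0, 2), (3, 16)], []⟩,
  ⟨1365, 90, 0, 208, 109, true, true, false, [(0, 2), (3, 16)], []⟩,
  ⟨1406, 90, 0, 208, 109, true, true, false, [(0, 2), (3, 16)], []⟩,
  ⟨1447, 90, 0, 208, 109, true, true, false, [(0, 2), (3, 16)], []⟩,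
  ⟨1476, 90, 0, 208, 109, true, true, false, [(0, 3), (3, 15)], []⟩,
  ⟨1505, 90, 0, 208, 109, true, true, false, [(0, 3), (3, 15)], []⟩,
  ⟨1534, 90, 0, 208, 109, true, true, false, [(0, 3), (3, 15)], []⟩,
  ⟨1563, 90, 0, 208, 109, true, true, false, [(0, 4), (3, 14)], []⟩,
  ⟨1583, 90, 0, 208, 109, true, true, false, [(0, 5), (3, 13)], []⟩,
  ⟨1603, 90, 0, 208, 109, true, true, false, [(0, 6), (3, 12)], []⟩,
  ⟨1617, 90, 0, 208, 109, true, true, false, [(0, 9), (3, 9)], []⟩,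
  ⟨1631, 90, 0, 208, 109, true, true, false, [(0, 15), (3, 3)], []⟩,
  ⟨1661, 90, 0, 208, 109, true, true, false, [(0, 18)], []⟩,
  ⟨1704, 90, 0, 208, 109, true, true, false, [(0, 18)], []⟩,
  ⟨1766, 90, 0, 208, 109, true, true, false, [(0, 18)], []⟩,
  ⟨1941, 90, 0, 176, 88, true, true, false, [(0, 21)], []⟩,
  ⟨2425, 90, 0, 144, 69, true, true, false, [(0, 24)], []⟩,
  ⟨5042, 90, 0, 24, 11, true, true, false, [(0, 35)], []⟩,
  ⟨6662, 90, 0, 0, 0, true, false, false, [(0, 38)], []⟩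
  ] = true := by decide +kernel

def g69_20 : Gr := ⟨false, 401, 407, 1024, 1024, 69, 69, 8505, 8506, 0, 2048, 0, []⟩

theorem k69_20 : chk g69_20 T375 [
  ⟨498, 70, 490, 240, 132, false, true, false, [(0, 1), (3, 6), (19, 3), (8, 2), (9, 3), (10, 3), (11, 2)], []⟩,
  ⟨668, 70, 700, 96, 228, false, true, false, [(0, 1), (3, 19), (11, 1), (3, 2), (12, 1), (3, 13)], []⟩,
  ⟨786, 70, 490, 224, 120, false, true, false, [(0, 1), (3, 21)], []⟩,
  ⟨868, 70, 490, 224, 120, false, true, false, [(0, 1), (3, 21)], []⟩,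
  ⟨925, 70, 0, 256, 145, true, true, false, [(0, 1), (3, 17)], []⟩,
  ⟨1007, 70, 0, 240, 132, true, true, false, [(0, 1), (3, 19)], []⟩,
  ⟨1089, 70, 0, 240, 132, true, true, false, [(0, 1), (3, 19)], []⟩,
  ⟨1171, 70, 0, 240, 132, true, true, false, [(0, 1), (3, 19)], []⟩,
  ⟨1253, 70, 0, 240, 132, true, true, false, [(0, 2), (3, 18)], []⟩,
  ⟨1335, 70, 0, 224, 120, true, true, false, [(0, 2), (3, 20)], []⟩,
  ⟨1392, 70, 0, 224, 120, true, true, false, [(0, 2), (3, 20)], []⟩,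
  ⟨1449, 70, 0, 224, 120, true, true, false, [(0, 2), (3, 20)], []⟩,
  ⟨1489, 70, 0, 224, 120, true, true, false, [(0, 3), (3, 19)], []⟩,
  ⟨1529, 70, 0, 224, 120, true, true, false, [(0, 3), (3, 19)], []⟩,
  ⟨1557, 70, 0, 224, 120, true, true, false, [(0, 3), (3, 19)], []⟩,
  ⟨1576, 70, 0, 208, 109, true, true, false, [(0, 4), (3, 20)], []⟩,
  ⟨1595, 70, 0, 208, 109, true, true, false, [(0, 5), (3, 19)], []⟩,
  ⟨1608, 70, 0, 208, 109, true, true, false, [(0, 5), (3, 19)], []⟩,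
  ⟨1621, 70, 0, 208, 109, true, true, false, [(0, 7), (3, 17)], []⟩,
  ⟨1634, 70, 0, 208, 109, true, true, false, [(0, 9), (3, 15)], []⟩,
  ⟨1643, 70, 0, 208, 109, true, true, false, [(0, 12), (3, 12)], []⟩,
  ⟨1652, 70, 0, 208, 109, true, true, false, [(0, 18), (3, 6)], []⟩,
  ⟨1666, 70, 0, 208, 109, true, true, false, [(0, 24)], []⟩,
  ⟨1696, 70, 0, 208, 109, true, true, false, [(0, 24)], []⟩,
  ⟨1740, 70, 0, 208, 109, true, true, false, [(0, 24)], []⟩,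
  ⟨1865, 70, 0, 192, 98, true, true, false, [(0, 26)], []⟩,
  ⟨2113, 70, 0, 176, 88, true, true, false, [(0, 28)], []⟩,
  ⟨2799, 70, 0, 104, 48, true, true, false, [(0, 36)], []⟩,
  ⟨6504, 70, 0, 0, 0, true, false, false, [(0, 49)], []⟩,
  ⟨6762, 70, 0, 0, 0, true, false, false, [(0, 49)], []⟩
  ] = true := by decide +kernel

def g69_21 : Gr := ⟨false, 407, 410, 1024, 1024, 69, 69, 8505, 8506, 0, 2048, 0, []⟩

theorem k69_21 : chk g69_21 T375 [
  ⟨355, 120, 720, 6, 334, false, false, false, [(0, 1), (3, 3), (19, 2), (8, 1), (9, 1), (10, 2), (11, 2), (12, 2), (3, 14)], []⟩,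
  ⟨603, 120, 720, 80, 252, false, true, false, [(0, 1), (3, 5), (6, 1), (3, 3), (11, 2), (12, 2), (3, 9)], []⟩,
  ⟨724, 120, 720, 96, 224, false, false, false, [(0, 1), (3, 21)], []⟩,
  ⟨809, 120, 480, 224, 120, false, true, false, [(0, 1), (3, 12)], []⟩,
  ⟨868, 120, 480, 224, 120, false, true, false, [(0, 1), (3, 12)], []⟩,
  ⟨909, 120, 0, 256, 145, true, true, false, [(0, 1), (3, 10)], []⟩,
  ⟨950, 120, 0, 256, 145, true, true, false, [(0, 1), (3, 10)], []⟩,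
  ⟨1009, 120, 0, 240, 132, true, true, false, [(0, 1), (3, 11)], []⟩,
  ⟨1068, 120, 0, 240, 132, true, true, false, [(0, 1), (3, 11)], []⟩,
  ⟨1127, 120, 0, 240, 132, true, true, false, [(0, 1), (3, 11)], []⟩,
  ⟨1186, 120, 0, 240, 132, true, true, false, [(0, 1), (3, 11)], []⟩,
  ⟨1245, 120, 0, 224, 120, true, true, false, [(0, 2), (3, 11)], []⟩,
  ⟨1304, 120, 0, 224, 120, true, true, false, [(0, 2), (3, 11)], []⟩,
  ⟨1388, 120, 0, 224, 120, true, true, false, [(0, 2), (3, 11)], []⟩,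
  ⟨1447, 120, 0, 224, 120, true, true, false, [(0, 2), (3, 11)], []⟩,
  ⟨1506, 120, 0, 224, 120, true, true, false, [(0, 2), (3, 11)], []⟩,
  ⟨1565, 120, 0, 208, 109, true, true, false, [(0, 3), (3, 11)], []⟩,
  ⟨1606, 120, 0, 208, 109, true, true, false, [(0, 4), (3, 10)], []⟩,
  ⟨1647, 120, 0, 208, 109, true, true, false, [(0, 5), (3, 9)], []⟩,
  ⟨1688, 120, 0, 208, 109, true, true, false, [(0, 10), (3, 4)], []⟩,
  ⟨1771, 120, 0, 208, 109, true, true, false, [(0, 14)], []⟩,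
  ⟨1888, 120, 0, 208, 109, true, true, false, [(0, 14)], []⟩,
  ⟨2121, 120, 0, 176, 88, true, true, false, [(0, 17)], []⟩,
  ⟨2764, 120, 0, 128, 60, true, true, false, [(0, 20)], []⟩,
  ⟨6238, 120, 0, 0, 0, true, false, false, [(0, 29)], []⟩,
  ⟨6812, 120, 0, 0, 0, true, false, false, [(0, 29)], []⟩
  ] = true := by decide +kernel

def g69_22 : Gr := ⟨false, 409, 413, 1024, 1024, 69, 69, 8505, 8506, 0, 2048, 0, []⟩

theorem k69_22 : chk g69_22 T400 [
  ⟨498, 90, 540, 224, 136, false, true, false, [(0, 1), (3, 4), (22, 3), (10, 1), (11, 2), (12, 3), (13, 2), (14, 2)], []⟩,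
  ⟨668, 90, 720, 88, 240, false, false, false, [(0, 1), (3, 15), (14, 2), (3, 12)], []⟩,
  ⟨787, 90, 630, 112, 208, false, false, false, [(0, 1), (3, 16), (14, 1), (3, 10)], []⟩,
  ⟨870, 90, 540, 208, 109, false, true, false, [(0, 1), (3, 18)], []⟩,
  ⟨928, 90, 0, 240, 132, true, true, false, [(0, 1), (3, 15)], []⟩,
  ⟨1011, 90, 0, 240, 132, true, true, false, [(0, 1), (3, 15)], []⟩,
  ⟨1094, 90, 0, 240, 132, true, true, false, [(0, 1), (3, 15)], []⟩,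
  ⟨1177, 90, 0, 240, 132, true, true, false, [(0, 1), (3, 15)], []⟩,
  ⟨1260, 90, 0, 240, 132, true, true, false, [(0, 2), (3, 14)], []⟩,
  ⟨1343, 90, 0, 240, 132, true, true, false, [(0, 2), (3, 14)], []⟩,
  ⟨1401, 90, 0, 224, 120, true, true, false, [(0, 2), (3, 16)], []⟩,
  ⟨1459, 90, 0, 224, 120, true, true, false, [(0, 2), (3, 16)], []⟩,
  ⟨1517, 90, 0, 208, 109, true, true, false, [(0, 2), (3, 17)], []⟩,
  ⟨1575, 90, 0, 208, 109, true, true, false, [(0, 3), (3, 16)], []⟩,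
  ⟨1615, 90, 0, 208, 109, true, true, false, [(0, 4), (3, 15)], []⟩,
  ⟨1655, 90, 0, 208, 109, true, true, false, [(0, 5), (3, 14)], []⟩,
  ⟨1695, 90, 0, 208, 109, true, true, false, [(0, 12), (3, 7)], []⟩,
  ⟨1752, 90, 0, 208, 109, true, true, false, [(0, 19)], []⟩,
  ⟨1834, 90, 0, 208, 109, true, true, false, [(0, 19)], []⟩,
  ⟨2063, 90, 0, 176, 88, true, true, false, [(0, 22)], []⟩,
  ⟨2698, 90, 0, 144, 69, true, true, false, [(0, 25)], []⟩,
  ⟨6124, 90, 0, 0, 0, true, false, false, [(0, 39)], []⟩,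
  ⟨6862, 90, 0, 0, 0, true, false, false, [(0, 39)], []⟩
  ] = true := by decide +kernel

def g69_23 : Gr := ⟨false, 413, 417, 1024, 1024, 69, 69, 8505, 8506, 0, 2048, 0, []⟩

theorem k69_23 : chk g69_23 T400 [
  ⟨498, 70, 560, 224, 144, false, true, false, [(0, 1), (3, 6), (22, 3), (10, 2), (11, 3), (12, 3), (13, 3), (14, 2)], []⟩,
  ⟨742, 70, 560, 224, 120, false, true, false, [(0, 1), (3, 10), (7, 1), (3, 4), (8, 2), (3, 1), (13, 2), (14, 2)], []⟩,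
  ⟨861, 70, 490, 224, 120, false, true, false, [(0, 1), (3, 22)], []⟩,
  ⟨944, 70, 490, 224, 120, false, true, false, [(0, 1), (3, 22)], []⟩,
  ⟨1002, 70, 490, 224, 120, false, true, false, [(0, 1), (3, 22)], []⟩,
  ⟨1060, 70, 0, 224, 120, true, true, false, [(0, 1), (3, 22)], []⟩,
  ⟨1118, 70, 0, 224, 120, true, true, false, [(0, 1), (3, 22)], []⟩,
  ⟨1201, 70, 0, 224, 120, true, true, false, [(0, 1), (3, 22)], []⟩,
  ⟨1284, 70, 0, 224, 120, true, true, false, [(0, 2), (3, 21)], []⟩,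
  ⟨1367, 70, 0, 224, 120, true, true, false, [(0, 2), (3, 21)], []⟩,
  ⟨1450, 70, 0, 224, 120, true, true, false, [(0, 2), (3, 21)], []⟩,
  ⟨1533, 70, 0, 224, 120, true, true, false, [(0, 2), (3, 21)], []⟩,
  ⟨1591, 70, 0, 224, 120, true, true, false, [(0, 3), (3, 20)], []⟩,
  ⟨1631, 70, 0, 208, 109, true, true, false, [(0, 4), (3, 21)], []⟩,
  ⟨1671, 70, 0, 208, 109, true, true, false, [(0, 5), (3, 20)], []⟩,
  ⟨1711, 70, 0, 208, 109, true, true, false, [(0, 13), (3, 12)], []⟩,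
  ⟨1768, 70, 0, 208, 109, true, true, false, [(0, 25)], []⟩,
  ⟨1884, 70, 0, 192, 98, true, true, false, [(0, 27)], []⟩,
  ⟨2113, 70, 0, 176, 88, true, true, false, [(0, 29)], []⟩,
  ⟨2748, 70, 0, 128, 60, true, true, false, [(0, 35)], []⟩,
  ⟨6174, 70, 0, 0, 0, true, false, false, [(0, 50)], []⟩,
  ⟨6928, 70, 0, 0, 0, true, false, false, [(0, 50)], []⟩
  ] = true := by decide +kernel

def g69_24 : Gr := ⟨false, 417, 423, 1024, 1024, 69, 69, 8505, 8506, 0, 2048, 0, []⟩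

theorem k69_24 : chk g69_24 T400 [
  ⟨498, 120, 600, 224, 144, false, true, false, [(0, 1), (3, 3), (22, 2), (10, 1), (11, 1), (12, 2), (13, 2), (14, 2)], []⟩,
  ⟨668, 120, 720, 96, 240, false, false, false, [(0, 1), (3, 11), (14, 2), (3, 9)], []⟩,
  ⟨787, 120, 600, 120, 208, false, false, false, [(0, 1), (3, 12), (14, 1), (3, 7)], []⟩,
  ⟨870, 120, 600, 120, 200, false, false, false, [(0, 1), (3, 20)], []⟩,
  ⟨928, 120, 480, 224, 120, false, true, false, [(0, 1), (3, 13)], []⟩,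
  ⟨969, 120, 0, 256, 145, true, true, false, [(0, 1), (3, 11)], []⟩,
  ⟨1010, 120, 0, 256, 145, true, true, false, [(0, 1), (3, 11)], []⟩,
  ⟨1051, 120, 0, 256, 145, true, true, false, [(0, 1), (3, 11)], []⟩,
  ⟨1092, 120, 0, 240, 132, true, true, false, [(0, 1), (3, 12)], []⟩,
  ⟨1133, 120, 0, 240, 132, true, true, false, [(0, 1), (3, 12)], []⟩,
  ⟨1191, 120, 0, 240, 132, true, true, false, [(0, 1), (3, 12)], []⟩,
  ⟨1249, 120, 0, 240, 132, true, true, false, [(0, 2), (3, 11)], []⟩,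
  ⟨1307, 120, 0, 240, 132, true, true, false, [(0, 2), (3, 11)], []⟩,
  ⟨1347, 120, 0, 224, 120, true, true, false, [(0, 2), (3, 12)], []⟩,
  ⟨1387, 120, 0, 224, 120, true, true, false, [(0, 2), (3, 12)], []⟩,
  ⟨1427, 120, 0, 224, 120, true, true, false, [(0, 2), (3, 12)], []⟩,
  ⟨1467, 120, 0, 224, 120, true, true, false, [(0, 2), (3, 12)], []⟩,
  ⟨1507, 120, 0, 224, 120, true, true, false, [(0, 2), (3, 12)], []⟩,
  ⟨1547, 120, 0, 224, 120, true, true, false, [(0, 3), (3, 11)], []⟩,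
  ⟨1575, 120, 0, 224, 120, true, true, false, [(0, 3), (3, 11)], []⟩,
  ⟨1603, 120, 0, 224, 120, true, true, false, [(0, 3), (3, 11)], []⟩,
  ⟨1623, 120, 0, 208, 109, true, true, false, [(0, 4), (3, 11)], []⟩,
  ⟨1643, 120, 0, 208, 109, true, true, false, [(0, 4), (3, 11)], []⟩,
  ⟨1663, 120, 0, 208, 109, true, true, false, [(0, 5), (3, 10)], []⟩,
  ⟨1677, 120, 0, 208, 109, true, true, false, [(0, 6), (3, 9)], []⟩,
  ⟨1691, 120, 0, 208, 109, true, true, false, [(0, 7), (3, 8)], []⟩,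
  ⟨1705, 120, 0, 208, 109, true, true, false, [(0, 9), (3, 6)], []⟩,
  ⟨1719, 120, 0, 208, 109, true, true, false, [(0, 12), (3, 3)], []⟩,
  ⟨1748, 120, 0, 208, 109, true, true, false, [(0, 15)], []⟩,
  ⟨1809, 120, 0, 208, 109, true, true, false, [(0, 15)], []⟩,
  ⟨1980, 120, 0, 192, 98, true, true, false, [(0, 16)], []⟩,
  ⟨2319, 120, 0, 160, 78, true, true, false, [(0, 19)], []⟩,
  ⟨3253, 120, 0, 80, 36, true, true, false, [(0, 24)], []⟩,
  ⟨6851, 120, 0, 0, 0, true, false, false, [(0, 30)], []⟩,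
  ⟨7028, 120, 0, 0, 0, true, false, false, [(0, 30)], []⟩
  ] = true := by decide +kernel

def g69_25 : Gr := ⟨false, 423, 426, 1024, 1024, 69, 69, 8505, 8506, 0, 2048, 0, []⟩

theorem k69_25 : chk g69_25 T400 [
  ⟨498, 120, 600, 224, 152, false, true, false, [(0, 1), (3, 3), (22, 2), (10, 1), (11, 1), (12, 2), (13, 2), (14, 2)], []⟩,
  ⟨668, 120, 720, 96, 244, false, true, false, [(0, 1), (3, 11), (14, 2), (3, 9)], []⟩,
  ⟨787, 120, 720, 96, 232, false, false, false, [(0, 1), (3, 12), (14, 1), (3, 9)], []⟩,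
  ⟨870, 120, 720, 96, 224, false, false, false, [(0, 1), (3, 22)], []⟩,
  ⟨953, 120, 480, 224, 120, false, true, false, [(0, 1), (3, 13)], []⟩,
  ⟨1011, 120, 0, 256, 145, true, true, false, [(0, 1), (3, 11)], []⟩,
  ⟨1069, 120, 0, 256, 145, true, true, false, [(0, 1), (3, 11)], []⟩,
  ⟨1152, 120, 0, 240, 132, true, true, false, [(0, 1), (3, 12)], []⟩,
  ⟨1235, 120, 0, 240, 132, true, true, false, [(0, 1), (3, 12)], []⟩,
  ⟨1318, 120, 0, 240, 132, true, true, false, [(0, 2), (3, 11)], []⟩,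
  ⟨1401, 120, 0, 224, 120, true, true, false, [(0, 2), (3, 12)], []⟩,
  ⟨1484, 120, 0, 224, 120, true, true, false, [(0, 2), (3, 12)], []⟩,
  ⟨1567, 120, 0, 224, 120, true, true, false, [(0, 2), (3, 12)], []⟩,
  ⟨1625, 120, 0, 224, 120, true, true, false, [(0, 3), (3, 11)], []⟩,
  ⟨1682, 120, 0, 224, 120, true, true, false, [(0, 4), (3, 10)], []⟩,
  ⟨1710, 120, 0, 224, 120, true, true, false, [(0, 6), (3, 8)], []⟩,
  ⟨1729, 120, 0, 224, 120, true, true, false, [(0, 8), (3, 6)], []⟩,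
  ⟨1748, 120, 0, 224, 120, true, true, false, [(0, 13), (3, 1)], []⟩,
  ⟨1767, 120, 0, 224, 120, true, true, false, [(0, 14)], []⟩,
  ⟨1786, 120, 0, 224, 120, true, true, false, [(0, 14)], []⟩,
  ⟨1814, 120, 0, 208, 109, true, true, false, [(0, 16)], []⟩,
  ⟨1872, 120, 0, 208, 109, true, true, false, [(0, 16)], []⟩,
  ⟨2038, 120, 0, 192, 98, true, true, false, [(0, 17)], []⟩,
  ⟨2498, 120, 0, 160, 78, true, true, false, [(0, 19)], []⟩,
  ⟨4272, 120, 0, 36, 16, true, true, false, [(0, 27)], []⟩,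
  ⟨7078, 120, 0, 0, 0, true, false, false, [(0, 30)], []⟩
  ] = true := by decide +kernel

end Pool.Agent.Lib.MP_af3a4a_an.P1.CHK.H81.L
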