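import Pool.Agent.Lib.MP_af3a4a_an.P1.CHK.H81.LT
/-!
# Data, `69 ≤ N ≤ 69`, `426 ≤ 1024 R ≤ 820` (helper81)
-/
set_option autoImplicit false

namespace Pool.Agent.Lib.MP_af3a4a_an.P1.CHK.H81.L

open Pool.Agent.Lib.MP_af3a4a_an.P1.CHK.H58.G (Gr En)

def g69_26 : Gr := ⟨false, 426, 431, 1024, 1024, 69, 69, 8505, 8506, 0, 2048, 0, []⟩

theorem k69_26 : chk g69_26 T400 [
  ⟨498, 90, 540, 240, 140, false, true, false, [(0, 1), (3, 4), (22, 3), (10, 1), (11, 2), (12, 3), (13, 2), (14, 2)], []⟩,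
  ⟨738, 90, 720, 96, 240, false, false, false, [(0, 1), (3, 7), (7, 1), (3, 4), (8, 1), (3, 1), (13, 1), (14, 2), (3, 13)], []⟩,
  ⟨855, 90, 630, 128, 200, false, false, false, [(0, 1), (3, 27)], []⟩,
  ⟨937, 90, 630, 128, 192, false, false, false, [(0, 1), (3, 27)], []⟩,
  ⟨994, 90, 540, 208, 109, false, true, false, [(0, 1), (3, 20)], []⟩,
  ⟨1051, 90, 0, 240, 132, true, true, false, [(0, 1), (3, 17)], []⟩,
  ⟨1108, 90, 0, 240, 132, true, true, false, [(0, 1), (3, 17)], []⟩,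
  ⟨1189, 90, 0, 240, 132, true, true, false, [(0, 1), (3, 17)], []⟩,
  ⟨1270, 90, 0, 240, 132, true, true, false, [(0, 1), (3, 17)], []⟩,
  ⟨1351, 90, 0, 240, 132, true, true, false, [(0, 2), (3, 16)], []⟩,
  ⟨1408, 90, 0, 240, 132, true, true, false, [(0, 2), (3, 16)], []⟩,
  ⟨1465, 90, 0, 240, 132, true, true, false, [(0, 2), (3, 16)], []⟩,
  ⟨1505, 90, 0, 240, 132, true, true, false, [(0, 2), (3, 16)], []⟩,
  ⟨1533, 90, 0, 240, 132, true, true, false, [(0, 2), (3, 16)], []⟩,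
  ⟨1552, 90, 0, 208, 109, true, true, false, [(0, 3), (3, 18)], []⟩,
  ⟨1571, 90, 0, 208, 109, true, true, false, [(0, 3), (3, 18)], []⟩,
  ⟨1590, 90, 0, 208, 109, true, true, false, [(0, 3), (3, 18)], []⟩,
  ⟨1609, 90, 0, 208, 109, true, true, false, [(0, 3), (3, 18)], []⟩,
  ⟨1628, 90, 0, 208, 109, true, true, false, [(0, 3), (3, 18)], []⟩,
  ⟨1647, 90, 0, 208, 109, true, true, false, [(0, 4), (3, 17)], []⟩,
  ⟨1666, 90, 0, 208, 109, true, true, false, [(0, 4), (3, 17)], []⟩,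
  ⟨1685, 90, 0, 208, 109, true, true, false, [(0, 4), (3, 17)], []⟩,
  ⟨1704, 90, 0, 208, 109, true, true, false, [(0, 5), (3, 16)], []⟩,
  ⟨1717, 90, 0, 208, 109, true, true, false, [(0, 6), (3, 15)], []⟩,
  ⟨1730, 90, 0, 208, 109, true, true, false, [(0, 8), (3, 13)], []⟩,
  ⟨1739, 90, 0, 208, 109, true, true, false, [(0, 10), (3, 11)], []⟩,
  ⟨1748, 90, 0, 208, 109, true, true, false, [(0, 13), (3, 8)], []⟩,
  ⟨1757, 90, 0, 208, 109, true, true, false, [(0, 18), (3, 3)], []⟩,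
  ⟨1778, 90, 0, 208, 109, true, true, false, [(0, 21)], []⟩,
  ⟨1822, 90, 0, 208, 109, true, true, false, [(0, 21)], []⟩,
  ⟨1910, 90, 0, 208, 109, true, true, false, [(0, 21)], []⟩,
  ⟨2086, 90, 0, 176, 88, true, true, false, [(0, 24)], []⟩,
  ⟨2574, 90, 0, 144, 69, true, true, false, [(0, 27)], []⟩,
  ⟨6266, 90, 0, 0, 0, true, false, true, [(0, 38)], [(0, 2)]⟩,
  ⟨7161, 90, 0, 0, 0, true, false, false, [(0, 40)], []⟩
  ] = true := by decide +kernel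

def g69_27 : Gr := ⟨false, 431, 436, 1024, 1024, 69, 69, 8505, 8506, 0, 2048, 0, []⟩

theorem k69_27 : chk g69_27 T400 [
  ⟨498, 120, 600, 240, 140, false, true, false, [(0, 1), (3, 3), (22, 2), (10, 1), (11, 1), (12, 2), (13, 2), (14, 2)], []⟩,
  ⟨742, 120, 720, 104, 240, false, false, false, [(0, 1), (3, 5), (7, 1), (3, 4), (13, 1), (14, 2), (3, 9)], []⟩,
  ⟨861, 120, 720, 104, 224, false, false, false, [(0, 1), (3, 22)], []⟩,
  ⟨944, 120, 720, 104, 216, false, false, false, [(0, 1), (3, 22)], []⟩,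
  ⟨1002, 120, 480, 224, 120, false, true, false, [(0, 1), (3, 14)], []⟩,
  ⟨1043, 120, 0, 256, 145, true, true, false, [(0, 1), (3, 12)], []⟩,
  ⟨1101, 120, 0, 256, 145, true, true, false, [(0, 1), (3, 12)], []⟩,
  ⟨1159, 120, 0, 256, 145, true, true, false, [(0, 1), (3, 12)], []⟩,
  ⟨1217, 120, 0, 240, 132, true, true, false, [(0, 1), (3, 13)], []⟩,
  ⟨1275, 120, 0, 240, 132, true, true, false, [(0, 2), (3, 12)], []⟩,
  ⟨1333, 120, 0, 240, 132, true, true, false, [(0, 2), (3, 12)], []⟩,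
  ⟨1391, 120, 0, 240, 132, true, true, false, [(0, 2), (3, 12)], []⟩,
  ⟨1449, 120, 0, 240, 132, true, true, false, [(0, 2), (3, 12)], []⟩,
  ⟨1507, 120, 0, 224, 120, true, true, false, [(0, 2), (3, 13)], []⟩,
  ⟨1565, 120, 0, 224, 120, true, true, false, [(0, 2), (3, 13)], []⟩,
  ⟨1605, 120, 0, 224, 120, true, true, false, [(0, 3), (3, 12)], []⟩,
  ⟨1645, 120, 0, 224, 120, true, true, false, [(0, 3), (3, 12)], []⟩,
  ⟨1673, 120, 0, 224, 120, true, true, false, [(0, 4), (3, 11)], []⟩,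
  ⟨1701, 120, 0, 224, 120, true, true, false, [(0, 4), (3, 11)], []⟩,
  ⟨1721, 120, 0, 208, 109, true, true, false, [(0, 5), (3, 11)], []⟩,
  ⟨1741, 120, 0, 208, 109, true, true, false, [(0, 6), (3, 10)], []⟩,
  ⟨1755, 120, 0, 208, 109, true, true, false, [(0, 8), (3, 8)], []⟩,
  ⟨1769, 120, 0, 208, 109, true, true, false, [(0, 11), (3, 5)], []⟩,
  ⟨1783, 120, 0, 208, 109, true, true, false, [(0, 16)], []⟩,
  ⟨1825, 120, 0, 208, 109, true, true, false, [(0, 16)], []⟩,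
  ⟨1911, 120, 0, 208, 109, true, true, false, [(0, 16)], []⟩,
  ⟨2152, 120, 0, 176, 88, true, true, false, [(0, 18)], []⟩,
  ⟨2818, 120, 0, 120, 56, true, true, false, [(0, 22)], []⟩,
  ⟨6416, 120, 0, 0, 0, true, false, false, [(0, 31)], []⟩,
  ⟨7244, 120, 0, 0, 0, true, false, false, [(0, 31)], []⟩
  ] = true := by decide +kernel

def g69_28 : Gr := ⟨false, 435, 440, 1024, 1024, 69, 69, 8505, 8506, 0, 2048, 0, []⟩

theorem k69_28 : chk g69_28 T425 [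
  ⟨498, 120, 600, 240, 148, false, true, false, [(0, 1), (3, 3), (23, 2), (10, 1), (11, 1), (12, 2), (13, 2), (14, 2)], []⟩,
  ⟨742, 120, 720, 96, 248, false, false, false, [(0, 1), (3, 5), (7, 1), (3, 2), (8, 1), (3, 1), (13, 1), (14, 2), (15, 1), (3, 9)], []⟩,
  ⟨861, 120, 720, 96, 236, false, true, false, [(0, 1), (3, 23)], []⟩,
  ⟨944, 120, 480, 224, 120, false, true, false, [(0, 1), (3, 14)], []⟩,
  ⟨1002, 120, 480, 224, 120, false, true, false, [(0, 1), (3, 14)], []⟩,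
  ⟨1060, 120, 0, 256, 145, true, true, false, [(0, 1), (3, 12)], []⟩,
  ⟨1118, 120, 0, 256, 145, true, true, false, [(0, 1), (3, 12)], []⟩,
  ⟨1176, 120, 0, 240, 132, true, true, false, [(0, 1), (3, 13)], []⟩,
  ⟨1259, 120, 0, 240, 132, true, true, false, [(0, 1), (3, 13)], []⟩,
  ⟨1342, 120, 0, 240, 132, true, true, false, [(0, 2), (3, 12)], []⟩,
  ⟨1425, 120, 0, 240, 132, true, true, false, [(0, 2), (3, 12)], []⟩,
  ⟨1508, 120, 0, 224, 120, true, true, false, [(0, 2), (3, 13)], []⟩,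
  ⟨1590, 120, 0, 224, 120, true, true, false, [(0, 2), (3, 13)], []⟩,
  ⟨1647, 120, 0, 224, 120, true, true, false, [(0, 3), (3, 12)], []⟩,
  ⟨1704, 120, 0, 224, 120, true, true, false, [(0, 3), (3, 12)], []⟩,
  ⟨1744, 120, 0, 224, 120, true, true, false, [(0, 5), (3, 10)], []⟩,
  ⟨1772, 120, 0, 224, 120, true, true, false, [(0, 7), (3, 8)], []⟩,
  ⟨1791, 120, 0, 224, 120, true, true, false, [(0, 11), (3, 4)], []⟩,
  ⟨1810, 120, 0, 224, 120, true, true, false, [(0, 15)], []⟩,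
  ⟨1838, 120, 0, 224, 120, true, true, false, [(0, 15)], []⟩,
  ⟨1866, 120, 0, 224, 120, true, true, false, [(0, 15)], []⟩,
  ⟨1907, 120, 0, 208, 109, true, true, false, [(0, 17)], []⟩,
  ⟨2024, 120, 0, 192, 98, true, true, false, [(0, 18)], []⟩,
  ⟨2350, 120, 0, 176, 88, true, true, false, [(0, 19)], []⟩,
  ⟨3249, 120, 0, 96, 44, true, true, false, [(0, 24)], []⟩,
  ⟨6713, 120, 0, 0, 0, true, false, false, [(0, 31)], []⟩,
  ⟨7310, 120, 0, 0, 0, true, false, false, [(0, 31)], []⟩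
  ] = true := by decide +kernel

def g69_29 : Gr := ⟨false, 440, 446, 1024, 1024, 69, 69, 8505, 8506, 0, 2048, 0, []⟩

theorem k69_29 : chk g69_29 T425 [
  ⟨498, 90, 720, 56, 304, false, false, false, [(0, 1), (3, 4), (23, 3), (10, 1), (11, 2), (12, 3), (13, 2), (14, 2), (15, 3), (16, 2), (3, 13)], []⟩,
  ⟨742, 90, 720, 112, 240, false, false, false, [(0, 1), (3, 7), (7, 1), (3, 4), (8, 1), (3, 1), (13, 1), (14, 2), (15, 3), (3, 10)], []⟩,
  ⟨910, 90, 720, 112, 220, false, true, false, [(0, 1), (3, 18), (15, 2), (3, 10)], []⟩,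
  ⟨992, 90, 540, 208, 125, false, true, false, [(0, 1), (3, 21)], []⟩,
  ⟨1049, 90, 540, 208, 117, false, true, false, [(0, 1), (3, 21)], []⟩,
  ⟨1089, 90, 0, 256, 145, true, true, false, [(0, 1), (3, 17)], []⟩,
  ⟨1129, 90, 0, 256, 145, true, true, false, [(0, 1), (3, 17)], []⟩,
  ⟨1186, 90, 0, 256, 145, true, true, false, [(0, 1), (3, 17)], []⟩,
  ⟨1243, 90, 0, 256, 145, true, true, false, [(0, 1), (3, 17)], []⟩,
  ⟨1283, 90, 0, 256, 145, true, true, false, [(0, 2), (3, 16)], []⟩,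
  ⟨1323, 90, 0, 256, 145, true, true, false, [(0, 2), (3, 16)], []⟩,
  ⟨1363, 90, 0, 240, 132, true, true, false, [(0, 2), (3, 18)], []⟩,
  ⟨1403, 90, 0, 240, 132, true, true, false, [(0, 2), (3, 18)], []⟩,
  ⟨1443, 90, 0, 224, 120, true, true, false, [(0, 2), (3, 19)], []⟩,
  ⟨1483, 90, 0, 224, 120, true, true, false, [(0, 2), (3, 19)], []⟩,
  ⟨1523, 90, 0, 224, 120, true, true, false, [(0, 2), (3, 19)], []⟩,
  ⟨1563, 90, 0, 224, 120, true, true, false, [(0, 2), (3, 19)], []⟩,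
  ⟨1603, 90, 0, 224, 120, true, true, false, [(0, 2), (3, 19)], []⟩,
  ⟨1643, 90, 0, 208, 109, true, true, false, [(0, 3), (3, 19)], []⟩,
  ⟨1683, 90, 0, 208, 109, true, true, false, [(0, 3), (3, 19)], []⟩,
  ⟨1723, 90, 0, 208, 109, true, true, false, [(0, 4), (3, 18)], []⟩,
  ⟨1763, 90, 0, 208, 109, true, true, false, [(0, 5), (3, 17)], []⟩,
  ⟨1791, 90, 0, 208, 109, true, true, false, [(0, 7), (3, 15)], []⟩,
  ⟨1819, 90, 0, 208, 109, true, true, false, [(0, 15), (3, 7)], []⟩,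
  ⟨1876, 90, 0, 208, 109, true, true, false, [(0, 22)], []⟩,
  ⟨1991, 90, 0, 208, 109, true, true, false, [(0, 22)], []⟩,
  ⟨2312, 90, 0, 176, 88, true, true, false, [(0, 25)], []⟩,
  ⟨3198, 90, 0, 112, 52, true, true, false, [(0, 31)], []⟩,
  ⟨6611, 90, 0, 0, 0, true, false, false, [(0, 42)], []⟩,
  ⟨7410, 90, 0, 0, 0, true, false, false, [(0, 42)], []⟩
  ] = true := by decide +kernel

def g69_30 : Gr := ⟨false, 446, 454, 1024, 1024, 69, 69, 8505, 8506, 0, 2048, 0, []⟩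

theorem k69_30 : chk g69_30 T425 [
  ⟨498, 120, 600, 256, 145, false, true, false, [(0, 1), (3, 3), (23, 2), (10, 1), (11, 1), (12, 2), (13, 2), (14, 2)], []⟩,
  ⟨742, 120, 720, 96, 256, false, false, false, [(0, 1), (3, 5), (7, 1), (3, 5), (14, 2), (15, 1), (3, 10)], []⟩,
  ⟨861, 120, 720, 112, 232, false, false, false, [(0, 1), (3, 23)], []⟩,
  ⟨944, 120, 720, 112, 224, false, false, false, [(0, 1), (3, 23)], []⟩,
  ⟨1027, 120, 600, 224, 120, false, true, false, [(0, 1), (3, 15)], []⟩,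
  ⟨1068, 120, 0, 256, 145, true, true, false, [(0, 1), (3, 13)], []⟩,
  ⟨1126, 120, 0, 256, 145, true, true, false, [(0, 1), (3, 13)], []⟩,
  ⟨1184, 120, 0, 256, 145, true, true, false, [(0, 1), (3, 13)], []⟩,
  ⟨1242, 120, 0, 256, 145, true, true, false, [(0, 1), (3, 13)], []⟩,
  ⟨1300, 120, 0, 240, 132, true, true, false, [(0, 2), (3, 13)], []⟩,
  ⟨1358, 120, 0, 240, 132, true, true, false, [(0, 2), (3, 13)], []⟩,
  ⟨1416, 120, 0, 240, 132, true, true, false, [(0, 2), (3, 13)], []⟩,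
  ⟨1474, 120, 0, 240, 132, true, true, false, [(0, 2), (3, 13)], []⟩,
  ⟨1532, 120, 0, 240, 132, true, true, false, [(0, 2), (3, 13)], []⟩,
  ⟨1590, 120, 0, 224, 120, true, true, false, [(0, 2), (3, 14)], []⟩,
  ⟨1648, 120, 0, 224, 120, true, true, false, [(0, 3), (3, 13)], []⟩,
  ⟨1688, 120, 0, 224, 120, true, true, false, [(0, 3), (3, 13)], []⟩,
  ⟨1728, 120, 0, 224, 120, true, true, false, [(0, 3), (3, 13)], []⟩,
  ⟨1756, 120, 0, 224, 120, true, true, false, [(0, 4), (3, 12)], []⟩,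
  ⟨1784, 120, 0, 224, 120, true, true, false, [(0, 5), (3, 11)], []⟩,
  ⟨1804, 120, 0, 224, 120, true, true, false, [(0, 6), (3, 10)], []⟩,
  ⟨1818, 120, 0, 224, 120, true, true, false, [(0, 9), (3, 7)], []⟩,
  ⟨1827, 120, 0, 224, 120, true, true, false, [(0, 11), (3, 5)], []⟩,
  ⟨1836, 120, 0, 224, 120, true, true, false, [(0, 14), (3, 2)], []⟩,
  ⟨1850, 120, 0, 224, 120, true, true, false, [(0, 16)], []⟩,
  ⟨1871, 120, 0, 224, 120, true, true, false, [(0, 16)], []⟩,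
  ⟨1892, 120, 0, 224, 120, true, true, false, [(0, 16)], []⟩,
  ⟨1923, 120, 0, 224, 120, true, true, false, [(0, 16)], []⟩,
  ⟨1967, 120, 0, 208, 109, true, true, false, [(0, 18)], []⟩,
  ⟨2094, 120, 0, 192, 98, true, true, false, [(0, 19)], []⟩,
  ⟨2447, 120, 0, 160, 78, true, true, false, [(0, 21)], []⟩,
  ⟨3813, 120, 0, 64, 28, true, true, false, [(0, 27)], []⟩,
  ⟨7543, 120, 0, 0, 0, true, false, false, [(0, 32)], []⟩
  ] = true := by decide +kernel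

def g69_31 : Gr := ⟨false, 454, 461, 1024, 1024, 69, 69, 8505, 8506, 0, 2048, 0, []⟩

theorem k69_31 : chk g69_31 T425 [
  ⟨498, 90, 720, 72, 304, false, false, false, [(0, 1), (3, 4), (23, 3), (10, 1), (11, 2), (12, 3), (13, 2), (14, 2), (15, 3), (16, 2), (3, 13)], []⟩,
  ⟨742, 90, 720, 104, 256, false, false, false, [(0, 1), (3, 7), (7, 1), (3, 4), (8, 1), (3, 2), (14, 2), (15, 3), (3, 12)], []⟩,
  ⟨912, 90, 720, 104, 240, false, false, false, [(0, 1), (3, 19), (15, 1), (3, 12)], []⟩,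
  ⟨1031, 90, 630, 104, 224, false, false, false, [(0, 1), (3, 32)], []⟩,
  ⟨1114, 90, 0, 256, 145, true, true, false, [(0, 1), (3, 18)], []⟩,
  ⟨1197, 90, 0, 256, 145, true, true, false, [(0, 1), (3, 18)], []⟩,
  ⟨1280, 90, 0, 256, 145, true, true, false, [(0, 1), (3, 18)], []⟩,
  ⟨1363, 90, 0, 256, 145, true, true, false, [(0, 2), (3, 17)], []⟩,
  ⟨1446, 90, 0, 256, 145, true, true, false, [(0, 2), (3, 17)], []⟩,
  ⟨1529, 90, 0, 224, 120, true, true, false, [(0, 2), (3, 20)], []⟩,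
  ⟨1612, 90, 0, 224, 120, true, true, false, [(0, 2), (3, 20)], []⟩,
  ⟨1695, 90, 0, 224, 120, true, true, false, [(0, 3), (3, 19)], []⟩,
  ⟨1753, 90, 0, 224, 120, true, true, false, [(0, 3), (3, 19)], []⟩,
  ⟨1811, 90, 0, 224, 120, true, true, false, [(0, 4), (3, 18)], []⟩,
  ⟨1852, 90, 0, 224, 120, true, true, false, [(0, 7), (3, 15)], []⟩,
  ⟨1880, 90, 0, 224, 120, true, true, false, [(0, 18), (3, 4)], []⟩,
  ⟨1921, 90, 0, 224, 120, true, true, false, [(0, 22)], []⟩,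
  ⟨2004, 90, 0, 192, 98, true, true, false, [(0, 25)], []⟩,
  ⟨2236, 90, 0, 192, 98, true, true, false, [(0, 25)], []⟩,
  ⟨2878, 90, 0, 128, 60, true, true, false, [(0, 31)], []⟩,
  ⟨6344, 90, 0, 0, 0, true, false, false, [(0, 43)], []⟩,
  ⟨7659, 90, 0, 0, 0, true, false, false, [(0, 43)], []⟩
  ] = true := by decide +kernel

def g69_32 : Gr := ⟨false, 460, 468, 1024, 1024, 69, 69, 8505, 8506, 0, 2048, 0, []⟩

theorem k69_32 : chk g69_32 T450 [
  ⟨698, 120, 600, 256, 145, false, true, false, [(0, 1), (3, 3), (25, 2), (11, 1), (12, 1), (13, 2), (14, 2), (15, 2), (16, 1)], []⟩,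
  ⟨865, 120, 720, 112, 244, false, true, false, [(0, 1), (3, 5), (8, 1), (3, 7), (16, 1), (3, 10)], []⟩,
  ⟨982, 120, 720, 112, 232, false, false, false, [(0, 1), (3, 24)], []⟩,
  ⟨1064, 120, 600, 112, 220, false, true, false, [(0, 1), (3, 24)], []⟩,
  ⟨1121, 120, 600, 208, 125, false, true, false, [(0, 1), (3, 17)], []⟩,
  ⟨1178, 120, 0, 256, 145, true, true, false, [(0, 1), (3, 14)], []⟩,
  ⟨1235, 120, 0, 256, 145, true, true, false, [(0, 1), (3, 14)], []⟩,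
  ⟨1316, 120, 0, 256, 145, true, true, false, [(0, 2), (3, 13)], []⟩,
  ⟨1397, 120, 0, 240, 132, true, true, false, [(0, 2), (3, 14)], []⟩,
  ⟨1478, 120, 0, 240, 132, true, true, false, [(0, 2), (3, 14)], []⟩,
  ⟨1559, 120, 0, 240, 132, true, true, false, [(0, 2), (3, 14)], []⟩,
  ⟨1616, 120, 0, 224, 120, true, true, false, [(0, 2), (3, 15)], []⟩,
  ⟨1673, 120, 0, 224, 120, true, true, false, [(0, 2), (3, 15)], []⟩,
  ⟨1730, 120, 0, 224, 120, true, true, false, [(0, 3), (3, 14)], []⟩,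
  ⟨1787, 120, 0, 224, 120, true, true, false, [(0, 3), (3, 14)], []⟩,
  ⟨1826, 120, 0, 224, 120, true, true, false, [(0, 4), (3, 13)], []⟩,
  ⟨1865, 120, 0, 224, 120, true, true, false, [(0, 6), (3, 11)], []⟩,
  ⟨1892, 120, 0, 224, 120, true, true, false, [(0, 11), (3, 6)], []⟩,
  ⟨1932, 120, 0, 208, 109, true, true, false, [(0, 18)], []⟩,
  ⟨2046, 120, 0, 208, 109, true, true, false, [(0, 18)], []⟩,
  ⟨2207, 120, 0, 192, 98, true, true, false, [(0, 20)], []⟩,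
  ⟨2654, 120, 0, 160, 78, true, true, false, [(0, 22)], []⟩,
  ⟨5069, 120, 0, 24, 11, true, true, false, [(0, 31)], []⟩,
  ⟨7776, 120, 0, 0, 0, true, false, false, [(0, 33)], []⟩
  ] = true := by decide +kernel

def g69_33 : Gr := ⟨false, 468, 478, 1024, 1024, 69, 69, 8505, 8506, 0, 2048, 0, []⟩

theorem k69_33 : chk g69_33 T450 [
  ⟨498, 90, 630, 88, 304, false, false, false, [(0, 1), (3, 4), (25, 3), (11, 1), (12, 2), (13, 3), (14, 2), (15, 2), (16, 3), (17, 2), (3, 13)], []⟩,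
  ⟨840, 90, 720, 88, 272, false, false, false, [(0, 1), (3, 6), (8, 2), (3, 2), (9, 3), (3, 1), (14, 1), (15, 2), (16, 3), (17, 2), (3, 13)], []⟩,
  ⟨1007, 90, 630, 112, 236, false, true, false, [(0, 1), (3, 18), (16, 2), (3, 13)], []⟩,
  ⟨1089, 90, 630, 112, 228, false, true, false, [(0, 1), (3, 19), (16, 1), (3, 13)], []⟩,
  ⟨1171, 90, 540, 240, 132, false, true, false, [(0, 1), (3, 21)], []⟩,
  ⟨1228, 90, 0, 240, 132, true, true, false, [(0, 1), (3, 21)], []⟩,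
  ⟨1309, 90, 0, 240, 132, true, true, false, [(0, 1), (3, 21)], []⟩,
  ⟨1390, 90, 0, 240, 132, true, true, false, [(0, 2), (3, 20)], []⟩,
  ⟨1471, 90, 0, 240, 132, true, true, false, [(0, 2), (3, 20)], []⟩,
  ⟨1552, 90, 0, 240, 132, true, true, false, [(0, 2), (3, 20)], []⟩,
  ⟨1633, 90, 0, 240, 132, true, true, false, [(0, 2), (3, 20)], []⟩,
  ⟨1714, 90, 0, 240, 132, true, true, false, [(0, 3), (3, 19)], []⟩,
  ⟨1771, 90, 0, 240, 132, true, true, false, [(0, 3), (3, 19)], []⟩,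
  ⟨1811, 90, 0, 224, 120, true, true, false, [(0, 4), (3, 20)], []⟩,
  ⟨1839, 90, 0, 224, 120, true, true, false, [(0, 4), (3, 20)], []⟩,
  ⟨1858, 90, 0, 224, 120, true, true, false, [(0, 5), (3, 19)], []⟩,
  ⟨1877, 90, 0, 208, 109, true, true, false, [(0, 6), (3, 19)], []⟩,
  ⟨1896, 90, 0, 208, 109, true, true, false, [(0, 8), (3, 17)], []⟩,
  ⟨1909, 90, 0, 208, 109, true, true, false, [(0, 11), (3, 14)], []⟩,
  ⟨1922, 90, 0, 208, 109, true, true, false, [(0, 15), (3, 10)], []⟩,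
  ⟨1935, 90, 0, 208, 109, true, true, false, [(0, 22), (3, 3)], []⟩,
  ⟨1977, 90, 0, 208, 109, true, true, false, [(0, 25)], []⟩,
  ⟨2096, 90, 0, 208, 109, true, true, false, [(0, 25)], []⟩,
  ⟨2428, 90, 0, 176, 88, true, true, false, [(0, 28)], []⟩,
  ⟨3345, 90, 0, 88, 40, true, true, false, [(0, 36)], []⟩,
  ⟨6875, 90, 0, 0, 0, true, false, false, [(0, 45)], []⟩,
  ⟨7942, 90, 0, 0, 0, true, false, false, [(0, 45)], []⟩
  ] = true := by decide +kernel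

def g69_34 : Gr := ⟨false, 478, 487, 1024, 1024, 69, 69, 8505, 8506, 0, 2048, 0, []⟩

theorem k69_34 : chk g69_34 T450 [
  ⟨498, 90, 630, 44, 340, false, false, false, [(0, 1), (3, 4), (25, 3), (11, 1), (12, 2), (13, 3), (14, 2), (15, 2), (16, 3), (17, 2), (3, 18)], []⟩,
  ⟨846, 90, 720, 120, 256, false, false, false, [(0, 1), (3, 6), (8, 2), (3, 2), (9, 3), (3, 1), (14, 1), (15, 2), (16, 3), (17, 2), (3, 11)], []⟩,
  ⟨1016, 90, 630, 120, 232, false, false, false, [(0, 1), (3, 18), (16, 2), (3, 13)], []⟩,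
  ⟨1135, 90, 630, 120, 224, false, false, false, [(0, 1), (3, 19), (16, 1), (3, 13)], []⟩,
  ⟨1218, 90, 630, 120, 216, false, false, false, [(0, 1), (3, 33)], []⟩,
  ⟨1276, 90, 0, 256, 145, true, true, false, [(0, 1), (3, 21)], []⟩,
  ⟨1334, 90, 0, 256, 145, true, true, false, [(0, 2), (3, 20)], []⟩,
  ⟨1417, 90, 0, 240, 132, true, true, false, [(0, 2), (3, 21)], []⟩,
  ⟨1500, 90, 0, 240, 132, true, true, false, [(0, 2), (3, 21)], []⟩,
  ⟨1583, 90, 0, 240, 132, true, true, false, [(0, 2), (3, 21)], []⟩,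
  ⟨1666, 90, 0, 240, 132, true, true, false, [(0, 2), (3, 21)], []⟩,
  ⟨1749, 90, 0, 240, 132, true, true, false, [(0, 3), (3, 20)], []⟩,
  ⟨1807, 90, 0, 240, 132, true, true, false, [(0, 3), (3, 20)], []⟩,
  ⟨1847, 90, 0, 224, 120, true, true, false, [(0, 4), (3, 21)], []⟩,
  ⟨1887, 90, 0, 224, 120, true, true, false, [(0, 4), (3, 21)], []⟩,
  ⟨1915, 90, 0, 224, 120, true, true, false, [(0, 6), (3, 19)], []⟩,
  ⟨1934, 90, 0, 208, 109, true, true, false, [(0, 8), (3, 18)], []⟩,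
  ⟨1953, 90, 0, 208, 109, true, true, false, [(0, 11), (3, 15)], []⟩,
  ⟨1972, 90, 0, 208, 109, true, true, false, [(0, 18), (3, 8)], []⟩,
  ⟨2031, 90, 0, 208, 109, true, true, false, [(0, 26)], []⟩,
  ⟨2197, 90, 0, 208, 109, true, true, false, [(0, 26)], []⟩,
  ⟨2525, 90, 0, 176, 88, true, true, false, [(0, 29)], []⟩,
  ⟨3794, 90, 0, 88, 40, true, true, false, [(0, 37)], []⟩,
  ⟨7282, 90, 0, 0, 0, true, false, false, [(0, 45)], []⟩,
  ⟨8091, 90, 0, 0, 0, true, false, false, [(0, 45)], []⟩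
  ] = true := by decide +kernel

def g69_35 : Gr := ⟨false, 486, 496, 1024, 1024, 69, 69, 8505, 8506, 0, 2048, 0, []⟩

theorem k69_35 : chk g69_35 T475 [
  ⟨498, 120, 720, 64, 336, false, false, false, [(0, 1), (3, 3), (27, 2), (12, 1), (13, 1), (14, 2), (15, 2), (16, 2), (17, 1), (18, 2), (19, 2), (3, 11)], []⟩,
  ⟨846, 120, 720, 80, 292, false, true, false, [(0, 1), (3, 4), (8, 2), (3, 1), (9, 2), (3, 1), (15, 1), (16, 2), (17, 1), (18, 2), (3, 1), (19, 1), (3, 10)], []⟩,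
  ⟨1016, 120, 720, 112, 248, false, false, false, [(0, 1), (3, 5), (8, 1), (3, 6), (10, 1), (3, 2), (18, 1), (3, 10)], []⟩,
  ⟨1135, 120, 600, 112, 236, false, true, false, [(0, 1), (3, 26)], []⟩,
  ⟨1218, 120, 600, 208, 141, false, true, false, [(0, 1), (3, 19)], []⟩,
  ⟨1276, 120, 600, 208, 133, false, true, false, [(0, 1), (3, 19)], []⟩,
  ⟨1334, 120, 0, 256, 145, true, true, false, [(0, 2), (3, 15)], []⟩,
  ⟨1392, 120, 0, 240, 132, true, true, false, [(0, 2), (3, 16)], []⟩,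
  ⟨1475, 120, 0, 240, 132, true, true, false, [(0, 2), (3, 16)], []⟩,
  ⟨1558, 120, 0, 240, 132, true, true, false, [(0, 2), (3, 16)], []⟩,
  ⟨1641, 120, 0, 240, 132, true, true, false, [(0, 2), (3, 16)], []⟩,
  ⟨1724, 120, 0, 240, 132, true, true, false, [(0, 2), (3, 16)], []⟩,
  ⟨1807, 120, 0, 240, 132, true, true, false, [(0, 3), (3, 15)], []⟩,
  ⟨1865, 120, 0, 224, 120, true, true, false, [(0, 3), (3, 16)], []⟩,
  ⟨1923, 120, 0, 224, 120, true, true, false, [(0, 4), (3, 15)], []⟩,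
  ⟨1980, 120, 0, 224, 120, true, true, false, [(0, 6), (3, 13)], []⟩,
  ⟨2020, 120, 0, 224, 120, true, true, false, [(0, 19)], []⟩,
  ⟨2135, 120, 0, 208, 109, true, true, false, [(0, 20)], []⟩,
  ⟨2364, 120, 0, 208, 109, true, true, false, [(0, 20)], []⟩,
  ⟨2997, 120, 0, 128, 60, true, true, false, [(0, 26)], []⟩,
  ⟨6414, 120, 0, 0, 0, true, false, false, [(0, 35)], []⟩,
  ⟨8241, 120, 0, 0, 0, true, false, false, [(0, 35)], []⟩
  ] = true := by decide +kernel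

def g69_36 : Gr := ⟨false, 496, 512, 1024, 1024, 69, 69, 8505, 8506, 0, 2048, 0, []⟩

theorem k69_36 : chk g69_36 T475 [
  ⟨498, 120, 720, 24, 368, false, false, false, [(0, 1), (3, 3), (27, 2), (12, 1), (13, 1), (14, 2), (15, 2), (16, 2), (17, 1), (18, 2), (19, 2), (3, 15)], []⟩,
  ⟨846, 120, 720, 96, 288, false, false, false, [(0, 1), (3, 4), (8, 2), (3, 1), (9, 2), (3, 1), (15, 1), (16, 2), (17, 1), (18, 2), (3, 1), (19, 1), (3, 10)], []⟩,
  ⟨1016, 120, 720, 112, 256, false, false, false, [(0, 1), (3, 15), (18, 1), (3, 11)], []⟩,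
  ⟨1184, 120, 720, 112, 240, false, false, false, [(0, 1), (3, 15), (18, 1), (3, 11)], []⟩,
  ⟨1266, 120, 600, 128, 216, false, false, false, [(0, 1), (3, 26)], []⟩,
  ⟨1323, 120, 600, 128, 212, false, true, false, [(0, 1), (3, 26)], []⟩,
  ⟨1380, 120, 0, 256, 145, true, true, false, [(0, 2), (3, 16)], []⟩,
  ⟨1437, 120, 0, 256, 145, true, true, false, [(0, 2), (3, 16)], []⟩,
  ⟨1494, 120, 0, 256, 145, true, true, false, [(0, 2), (3, 16)], []⟩,
  ⟨1551, 120, 0, 256, 145, true, true, false, [(0, 2), (3, 16)], []⟩,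
  ⟨1608, 120, 0, 240, 132, true, true, false, [(0, 2), (3, 17)], []⟩,
  ⟨1689, 120, 0, 240, 132, true, true, false, [(0, 2), (3, 17)], []⟩,
  ⟨1746, 120, 0, 240, 132, true, true, false, [(0, 2), (3, 17)], []⟩,
  ⟨1803, 120, 0, 240, 132, true, true, false, [(0, 3), (3, 16)], []⟩,
  ⟨1860, 120, 0, 224, 120, true, true, false, [(0, 3), (3, 17)], []⟩,
  ⟨1917, 120, 0, 224, 120, true, true, false, [(0, 4), (3, 16)], []⟩,
  ⟨1957, 120, 0, 224, 120, true, true, false, [(0, 5), (3, 15)], []⟩,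
  ⟨1997, 120, 0, 224, 120, true, true, false, [(0, 6), (3, 14)], []⟩,
  ⟨2025, 120, 0, 224, 120, true, true, false, [(0, 9), (3, 11)], []⟩,
  ⟨2053, 120, 0, 224, 120, true, true, false, [(0, 17), (3, 3)], []⟩,
  ⟨2110, 120, 0, 224, 120, true, true, false, [(0, 20)], []⟩,
  ⟨2191, 120, 0, 224, 120, true, true, false, [(0, 20)], []⟩,
  ⟨2353, 120, 0, 192, 98, true, true, false, [(0, 23)], []⟩,
  ⟨2801, 120, 0, 160, 78, true, true, false, [(0, 25)], []⟩,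
  ⟨4532, 120, 0, 36, 16, true, true, false, [(0, 33)], []⟩,
  ⟨7928, 120, 0, 0, 0, true, false, false, [(0, 36)], []⟩,
  ⟨8507, 120, 0, 0, 0, true, false, false, [(0, 36)], []⟩
  ] = true := by decide +kernel

def g69_37 : Gr := ⟨false, 512, 528, 1024, 1024, 69, 69, 8505, 8506, 0, 2048, 0, []⟩

theorem k69_37 : chk g69_37 T500 [
  ⟨698, 120, 720, 96, 312, false, false, false, [(0, 1), (3, 3), (28, 2), (13, 1), (14, 1), (15, 2), (16, 2), (17, 2), (18, 1), (19, 2), (20, 2), (21, 2), (3, 9)], []⟩,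
  ⟨1040, 120, 720, 112, 268, false, true, false, [(0, 1), (3, 5), (9, 1), (3, 1), (10, 2), (3, 1), (11, 3), (18, 1), (19, 2), (20, 2), (3, 10)], []⟩,
  ⟨1207, 120, 600, 112, 252, false, true, false, [(0, 1), (3, 12), (11, 1), (3, 2), (19, 1), (3, 1), (20, 1), (3, 10)], []⟩,
  ⟨1324, 120, 600, 128, 224, false, false, false, [(0, 1), (3, 27)], []⟩,
  ⟨1406, 120, 600, 128, 216, false, false, false, [(0, 2), (3, 26)], []⟩,
  ⟨1488, 120, 0, 256, 145, true, true, false, [(0, 2), (3, 17)], []⟩,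
  ⟨1570, 120, 0, 256, 145, true, true, false, [(0, 2), (3, 17)], []⟩,
  ⟨1652, 120, 0, 256, 145, true, true, false, [(0, 2), (3, 17)], []⟩,
  ⟨1768, 120, 0, 240, 132, true, true, false, [(0, 2), (3, 18)], []⟩,
  ⟨1884, 120, 0, 240, 132, true, true, false, [(0, 3), (3, 17)], []⟩,
  ⟨1965, 120, 0, 240, 132, true, true, false, [(0, 3), (3, 17)], []⟩,
  ⟨2021, 120, 0, 240, 132, true, true, false, [(0, 4), (3, 16)], []⟩,
  ⟨2060, 120, 0, 240, 132, true, true, false, [(0, 6), (3, 14)], []⟩,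
  ⟨2087, 120, 0, 240, 132, true, true, false, [(0, 9), (3, 11)], []⟩,
  ⟨2106, 120, 0, 240, 132, true, true, false, [(0, 15), (3, 5)], []⟩,
  ⟨2119, 120, 0, 240, 132, true, true, false, [(0, 20)], []⟩,
  ⟨2139, 120, 0, 240, 132, true, true, false, [(0, 20)], []⟩,
  ⟨2180, 120, 0, 224, 120, true, true, false, [(0, 22)], []⟩,
  ⟨2299, 120, 0, 208, 109, true, true, false, [(0, 23)], []⟩,
  ⟨2630, 120, 0, 176, 88, true, true, false, [(0, 25)], []⟩,
  ⟨3543, 120, 0, 96, 44, true, true, false, [(0, 30)], []⟩,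
  ⟨7058, 120, 0, 0, 0, true, false, false, [(0, 37)], []⟩,
  ⟨8772, 120, 0, 0, 0, true, false, false, [(0, 37)], []⟩
  ] = true := by decide +kernel

def g69_38 : Gr := ⟨false, 528, 538, 1024, 1024, 69, 69, 8505, 8506, 0, 1987, 0, []⟩

theorem k69_38 : chk g69_38 T500 [
  ⟨698, 120, 720, 120, 304, false, false, false, [(0, 1), (3, 3), (28, 2), (13, 1), (14, 1), (15, 2), (16, 2), (17, 2), (18, 1), (19, 2), (20, 2), (21, 2), (3, 8)], []⟩,
  ⟨1040, 120, 720, 120, 272, false, false, false, [(0, 1), (3, 5), (9, 1), (3, 2), (10, 1), (3, 2), (11, 2), (18, 1), (19, 2), (20, 2), (3, 10)], []⟩,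
  ⟨1279, 120, 720, 120, 248, false, false, false, [(0, 1), (3, 5), (9, 1), (3, 6), (11, 1), (3, 2), (19, 1), (3, 1), (20, 1), (3, 10)], []⟩,
  ⟨1446, 120, 600, 120, 232, false, false, false, [(0, 2), (3, 27)], []⟩,
  ⟨1563, 120, 0, 256, 145, true, true, false, [(0, 2), (3, 18)], []⟩,
  ⟨1680, 120, 0, 256, 145, true, true, false, [(0, 2), (3, 18)], []⟩,
  ⟨1797, 120, 0, 240, 132, true, true, false, [(0, 2), (3, 19)], []⟩,
  ⟨1962, 120, 0, 240, 132, true, true, false, [(0, 3), (3, 18)], []⟩,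
  ⟨2077, 120, 0, 224, 120, true, true, false, [(0, 4), (3, 18)], []⟩,
  ⟨2192, 120, 0, 224, 120, true, true, false, [(0, 8), (3, 14)], []⟩,
  ⟨2421, 120, 0, 208, 109, true, true, false, [(0, 23)], []⟩,
  ⟨3054, 120, 0, 160, 78, true, true, false, [(0, 27)], []⟩,
  ⟨6471, 120, 0, 0, 0, true, false, false, [(0, 38)], []⟩,
  ⟨8672, 120, 0, 0, 0, true, false, false, [(0, 38)], []⟩
  ] = true := by decide +kernel

def g69_39 : Gr := ⟨false, 537, 557, 1024, 1024, 69, 69, 8505, 8506, 0, 1954, 0, []⟩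

theorem k69_39 : chk g69_39 T525 [
  ⟨698, 120, 720, 52, 364, false, false, false, [(0, 1), (3, 3), (29, 2), (13, 1), (14, 1), (15, 2), (16, 2), (17, 2), (18, 1), (19, 2), (20, 2), (21, 2), (3, 14)], []⟩,
  ⟨1040, 120, 720, 112, 288, false, false, false, [(0, 1), (3, 4), (9, 2), (3, 1), (10, 2), (3, 1), (11, 3), (18, 1), (19, 2), (20, 2), (21, 2), (3, 10)], []⟩,
  ⟨1279, 120, 600, 128, 252, false, true, false, [(0, 1), (3, 5), (9, 1), (3, 2), (10, 1), (3, 3), (11, 1), (3, 2), (19, 1), (20, 2), (3, 1), (21, 1), (3, 9)], []⟩,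
  ⟨1446, 120, 600, 128, 236, false, true, false, [(0, 2), (3, 11), (11, 1), (3, 4), (20, 1), (3, 1), (21, 1), (3, 9)], []⟩,
  ⟨1563, 120, 0, 256, 145, true, true, true, [(0, 2), (3, 16), (20, 1)], [(3, 2)]⟩,
  ⟨1680, 120, 0, 256, 145, true, true, false, [(0, 2), (3, 19)], []⟩,
  ⟨1797, 120, 0, 256, 145, true, true, false, [(0, 2), (3, 19)], []⟩,
  ⟨1914, 120, 0, 240, 132, true, true, false, [(0, 3), (3, 19)], []⟩,
  ⟨2031, 120, 0, 240, 132, true, true, false, [(0, 3), (3, 19)], []⟩,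
  ⟨2148, 120, 0, 240, 132, true, true, false, [(0, 4), (3, 18)], []⟩,
  ⟨2205, 120, 0, 240, 132, true, true, false, [(0, 10), (3, 12)], []⟩,
  ⟨2262, 120, 0, 240, 132, true, true, false, [(0, 22)], []⟩,
  ⟨2377, 120, 0, 208, 109, true, true, false, [(0, 25)], []⟩,
  ⟨2697, 120, 0, 192, 98, true, true, false, [(0, 26)], []⟩,
  ⟨3934, 120, 0, 96, 44, true, true, false, [(0, 32)], []⟩,
  ⟨7334, 120, 0, 0, 0, true, false, false, [(0, 39)], []⟩,
  ⟨8829, 120, 0, 0, 0, true, false, false, [(0, 39)], []⟩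
  ] = true := by decide +kernel

def g69_40 : Gr := ⟨false, 557, 564, 1024, 1024, 69, 69, 8505, 8506, 0, 1884, 0, []⟩

theorem k69_40 : chk g69_40 T525 [
  ⟨698, 120, 720, 104, 336, false, false, false, [(0, 1), (3, 3), (29, 2), (13, 1), (14, 1), (15, 2), (16, 2), (17, 2), (18, 1), (19, 2), (20, 2), (21, 2), (3, 11)], []⟩,
  ⟨1186, 120, 720, 120, 280, false, false, false, [(0, 1), (3, 4), (9, 2), (3, 1), (10, 2), (3, 1), (11, 3), (18, 1), (19, 2), (20, 2), (21, 2), (3, 10)], []⟩,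
  ⟨1528, 120, 600, 160, 216, false, false, false, [(0, 1), (3, 5), (9, 1), (3, 6), (11, 1), (3, 2), (12, 1), (20, 2), (3, 1), (21, 1), (3, 7)], []⟩,
  ⟨1695, 120, 0, 256, 145, true, true, false, [(0, 2), (3, 20)], []⟩,
  ⟨1930, 120, 0, 256, 145, true, true, false, [(0, 2), (3, 20)], []⟩,
  ⟨2165, 120, 0, 240, 132, true, true, false, [(0, 3), (3, 20)], []⟩,
  ⟨2280, 120, 0, 224, 120, true, true, false, [(0, 6), (3, 18)], []⟩,
  ⟨2601, 120, 0, 208, 109, true, true, false, [(0, 25)], []⟩,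
  ⟨3487, 120, 0, 120, 56, true, true, false, [(0, 31)], []⟩,
  ⟨6898, 120, 0, 0, 0, true, false, false, [(0, 40)], []⟩,
  ⟨8620, 120, 0, 0, 0, true, false, false, [(0, 40)], []⟩
  ] = true := by decide +kernel

def g69_41 : Gr := ⟨false, 563, 589, 1024, 1024, 69, 69, 8505, 8506, 0, 1864, 0, []⟩

theorem k69_41 : chk g69_41 T550 [
  ⟨698, 120, 720, 56, 376, false, false, true, [(0, 1), (3, 3), (32, 2), (15, 1), (16, 1), (17, 2), (18, 2), (19, 2), (20, 1), (21, 2), (22, 2), (23, 2), (24, 2), (3, 12)], [(3, 2)]⟩,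
  ⟨1186, 120, 720, 128, 280, false, false, false, [(0, 1), (3, 4), (10, 2), (11, 3), (12, 4), (20, 1), (21, 2), (22, 2), (23, 2), (24, 2), (3, 9)], []⟩,
  ⟨1528, 120, 600, 144, 232, false, false, false, [(0, 1), (3, 5), (10, 1), (3, 2), (11, 1), (3, 2), (12, 2), (3, 1), (13, 2), (22, 2), (23, 2), (24, 2), (3, 8)], []⟩,
  ⟨1695, 120, 600, 144, 216, false, false, false, [(0, 2), (3, 4), (4, 1), (3, 6), (12, 1), (3, 4), (22, 1), (3, 1), (23, 1), (3, 1), (24, 1), (3, 8)], []⟩,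
  ⟨1812, 120, 0, 256, 145, true, true, false, [(0, 2), (3, 18), (23, 1), (3, 3)], []⟩,
  ⟨1929, 120, 0, 256, 145, true, true, false, [(0, 2), (3, 18), (23, 1), (3, 3)], []⟩,
  ⟨2046, 120, 0, 224, 120, true, true, true, [(0, 3), (3, 17), (23, 1), (3, 1), (24, 1)], [(3, 3)]⟩,
  ⟨2163, 120, 0, 240, 132, true, true, false, [(0, 4), (3, 9), (6, 1), (3, 8), (24, 1), (3, 2)], []⟩,
  ⟨2245, 120, 0, 240, 132, true, true, false, [(0, 5), (3, 20)], []⟩,
  ⟨2302, 120, 0, 240, 132, true, true, false, [(0, 9), (3, 16)], []⟩,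
  ⟨2359, 120, 0, 224, 120, true, true, false, [(0, 26)], []⟩,
  ⟨2521, 120, 0, 208, 109, true, true, false, [(0, 27)], []⟩,
  ⟨2970, 120, 0, 176, 88, true, true, false, [(0, 29)], []⟩,
  ⟨4703, 120, 0, 56, 25, true, true, false, [(0, 37)], []⟩,
  ⟨8103, 120, 0, 0, 0, true, false, false, [(0, 41)], []⟩,
  ⟨8907, 120, 0, 0, 0, true, false, false, [(0, 41)], []⟩
  ] = true := by decide +kernel

def g69_42 : Gr := ⟨false, 588, 614, 1024, 1024, 69, 69, 8505, 8506, 0, 1785, 0, []⟩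

theorem k69_42 : chk g69_42 T575 [
  ⟨978, 120, 720, 96, 344, false, false, false, [(0, 1), (3, 3), (33, 2), (15, 1), (16, 1), (17, 2), (18, 2), (19, 2), (20, 1), (21, 2), (22, 2), (23, 2), (24, 2), (25, 1), (26, 1), (3, 11)], []⟩,
  ⟨1457, 120, 600, 128, 276, false, true, false, [(0, 1), (3, 4), (10, 2), (3, 1), (11, 2), (3, 1), (12, 3), (13, 3), (22, 2), (23, 2), (24, 2), (25, 1), (3, 10)], []⟩,
  ⟨1787, 120, 0, 240, 140, true, true, true, [(0, 2), (3, 4), (4, 1), (3, 2), (11, 1), (3, 3), (12, 1), (3, 2), (13, 1), (3, 1), (22, 1), (23, 2), (24, 2)], [(25, 1), (3, 2)]⟩,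
  ⟨2117, 120, 0, 240, 132, true, true, true, [(0, 2), (3, 4), (4, 1), (3, 6), (12, 1), (3, 2), (13, 1), (3, 2), (23, 2), (24, 2)], [(25, 1), (3, 2)]⟩,
  ⟨2348, 120, 0, 240, 132, true, true, false, [(0, 4), (3, 2), (4, 1), (3, 6), (6, 1), (3, 6), (14, 1), (3, 1), (24, 1), (3, 3)], []⟩,
  ⟨2509, 120, 0, 224, 120, true, true, false, [(0, 13), (6, 1), (0, 6), (8, 1), (0, 1), (24, 1), (0, 2), (26, 1), (0, 1)], []⟩,
  ⟨2828, 120, 0, 208, 109, true, true, false, [(0, 29)], []⟩,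
  ⟨3708, 120, 0, 112, 52, true, true, false, [(0, 35)], []⟩,
  ⟨7098, 120, 0, 0, 0, true, false, false, [(0, 43)], []⟩,
  ⟨8891, 120, 0, 0, 0, true, false, false, [(0, 43)], []⟩
  ] = true := by decide +kernel

def g69_43 : Gr := ⟨false, 614, 640, 1024, 1024, 69, 69, 8505, 8506, 0, 1709, 0, []⟩

theorem k69_43 : chk g69_43 T600 [
  ⟨978, 120, 720, 120, 344, false, false, false, [(0, 1), (3, 3), (35, 2), (16, 1), (17, 1), (18, 2), (19, 2), (20, 2), (21, 1), (22, 2), (23, 2), (24, 2), (25, 2), (26, 1), (27, 2), (3, 10)], []⟩,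
  ⟨1650, 120, 600, 120, 280, false, false, false, [(0, 1), (3, 4), (11, 2), (3, 1), (12, 2), (13, 4), (14, 3), (23, 2), (24, 2), (25, 2), (26, 1), (27, 2), (3, 10)], []⟩,
  ⟨2120, 120, 0, 256, 145, true, true, true, [(0, 2), (3, 4), (4, 1), (3, 2), (5, 1), (3, 2), (6, 1), (13, 1), (3, 1), (14, 2), (3, 1), (23, 1), (24, 2), (25, 2)], [(26, 1), (27, 2), (3, 1)]⟩,
  ⟨2449, 120, 0, 224, 120, true, true, true, [(0, 3), (3, 3), (4, 1), (3, 6), (6, 1), (3, 2), (7, 1), (3, 3), (15, 1), (25, 2), (26, 1), (3, 1), (27, 1)], [(3, 1), (28, 1), (3, 1)]⟩,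
  ⟨2778, 120, 0, 208, 109, true, true, true, [(0, 13), (6, 1), (0, 6), (8, 1), (0, 1), (25, 1), (0, 2), (27, 1), (0, 1), (28, 1)], [(0, 1), (29, 1)]⟩,
  ⟨3686, 120, 0, 120, 56, true, true, true, [(0, 34)], [(0, 2)]⟩,
  ⟨7183, 120, 0, 0, 0, true, false, false, [(0, 45)], []⟩,
  ⟨8873, 120, 0, 0, 0, true, false, false, [(0, 45)], []⟩
  ] = true := by decide +kernel

def g69_44 : Gr := ⟨false, 640, 666, 1024, 1024, 69, 69, 8505, 8506, 0, 1640, 0, []⟩

theorem k69_44 : chk g69_44 T625 [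
  ⟨978, 120, 600, 104, 376, false, false, true, [(0, 1), (3, 3), (36, 2), (16, 1), (17, 1), (18, 2), (19, 2), (20, 2), (21, 1), (22, 2), (23, 2), (24, 2), (25, 2), (26, 1), (27, 2), (28, 2), (3, 9)], [(3, 2)]⟩,
  ⟨1663, 120, 600, 176, 256, false, false, false, [(0, 1), (3, 4), (11, 2), (12, 3), (13, 4), (14, 3), (23, 2), (24, 2), (25, 2), (26, 1), (27, 2), (28, 2), (3, 6)], []⟩,
  ⟨2348, 120, 0, 240, 132, true, true, true, [(0, 2), (3, 4), (4, 1), (3, 2), (5, 1), (3, 2), (6, 1), (13, 1), (3, 1), (14, 2), (3, 1), (15, 3), (25, 2), (26, 1), (27, 2)], [(28, 2), (29, 2)]⟩,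
  ⟨2827, 120, 0, 224, 120, true, true, true, [(0, 6), (4, 1), (0, 2), (5, 1), (0, 2), (6, 2), (0, 1), (7, 2), (0, 1), (8, 3), (25, 2), (26, 1), (27, 2), (28, 2)], [(29, 2), (30, 1)]⟩,
  ⟨3769, 120, 0, 160, 78, true, true, false, [(0, 36)], []⟩,
  ⟨7396, 120, 0, 0, 0, true, false, false, [(0, 47)], []⟩,
  ⟨8861, 120, 0, 0, 0, true, false, false, [(0, 47)], []⟩
  ] = true := by decide +kernel

def g69_45 : Gr := ⟨false, 665, 692, 1024, 1024, 69, 69, 8505, 8506, 0, 1578, 0, []⟩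

theorem k69_45 : chk g69_45 T650 [
  ⟨1371, 120, 600, 144, 328, false, false, false, [(0, 1), (3, 3), (39, 2), (18, 1), (19, 1), (20, 2), (21, 2), (22, 2), (23, 1), (24, 2), (25, 2), (26, 2), (27, 2), (28, 1), (29, 2), (30, 2), (31, 2), (3, 8)], []⟩,
  ⟨2312, 120, 0, 256, 145, true, true, true, [(0, 2), (3, 3), (4, 1), (12, 1), (3, 1), (5, 1), (13, 1), (3, 1), (14, 3), (15, 3), (16, 4), (27, 2), (28, 1)], [(29, 2), (30, 2), (31, 2), (32, 1)]⟩,
  ⟨2971, 120, 0, 224, 120, true, true, true, [(0, 6), (4, 1), (0, 2), (5, 1), (0, 1), (6, 3), (7, 3), (8, 4), (27, 2), (28, 1), (29, 2), (30, 2), (31, 2)], [(32, 1), (33, 2)]⟩,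
  ⟨3894, 120, 0, 144, 69, true, true, false, [(0, 38)], []⟩,
  ⟨7450, 120, 0, 0, 0, true, false, false, [(0, 48)], []⟩,
  ⟨8859, 120, 0, 0, 0, true, false, false, [(0, 48)], []⟩
  ] = true := by decide +kernel

def g69_46 : Gr := ⟨false, 691, 717, 1024, 1024, 69, 69, 8505, 8506, 0, 1519, 0, []⟩

theorem k69_46 : chk g69_46 T675 [
  ⟨1371, 120, 600, 288, 288, false, false, false, [(0, 1), (3, 3), (40, 2), (18, 1), (19, 1), (20, 2), (21, 2), (22, 2), (23, 1), (24, 2), (25, 2), (26, 2), (27, 2), (28, 1), (29, 2), (30, 2), (31, 2)], []⟩,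
  ⟨2331, 120, 0, 256, 161, true, true, true, [(0, 2), (3, 3), (4, 1), (12, 1), (3, 1), (13, 2), (14, 4), (15, 3), (16, 4), (27, 2), (28, 1), (29, 2)], [(30, 2), (31, 2), (32, 1), (33, 1)]⟩,
  ⟨3291, 120, 0, 208, 109, true, true, true, [(0, 6), (4, 1), (0, 1), (5, 2), (0, 1), (6, 3), (7, 3), (8, 4), (27, 2), (17, 1), (29, 2), (30, 2), (31, 2), (32, 1), (33, 2)], [(34, 2), (35, 1)]⟩,
  ⟨4636, 120, 0, 72, 64, true, true, false, [(0, 45)], []⟩,
  ⟨8331, 120, 0, 0, 0, true, false, false, [(0, 50)], []⟩,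
  ⟨8835, 120, 0, 0, 0, true, false, false, [(0, 50)], []⟩
  ] = true := by decide +kernel

def g69_47 : Gr := ⟨false, 716, 743, 1024, 1024, 69, 69, 8505, 8506, 0, 1466, 0, []⟩

theorem k69_47 : chk g69_47 T700 [
  ⟨1371, 120, 600, 160, 352, false, false, true, [(0, 1), (3, 3), (41, 2), (18, 1), (19, 1), (20, 2), (21, 2), (22, 2), (23, 1), (24, 2), (25, 2), (26, 2), (27, 2), (28, 1), (29, 2), (30, 2), (31, 2), (32, 1), (33, 2), (3, 5)], [(3, 3)]⟩,
  ⟨2742, 120, 0, 240, 156, true, true, true, [(0, 2), (3, 3), (4, 1), (12, 1), (5, 1), (13, 2), (14, 4), (15, 3), (16, 4), (27, 2), (28, 1), (29, 2)], [(30, 2), (31, 2), (32, 1), (33, 2), (34, 2)]⟩,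
  ⟨3702, 120, 0, 208, 109, true, true, true, [(0, 9), (5, 1), (0, 2), (6, 2), (0, 2), (7, 1), (0, 2), (8, 2), (0, 1), (9, 2), (0, 1), (29, 1), (10, 1), (30, 1), (31, 2), (32, 1), (33, 2), (34, 2)], [(35, 2), (36, 1)]⟩,
  ⟨6340, 120, 0, 8, 4, true, true, false, [(0, 51)], []⟩,
  ⟨8836, 120, 0, 0, 0, true, false, false, [(0, 52)], []⟩
  ] = true := by decide +kernel

def g69_48 : Gr := ⟨false, 742, 768, 1024, 1024, 69, 69, 8505, 8506, 0, 1415, 0, []⟩

theorem k69_48 : chk g69_48 T725 [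
  ⟨1921, 120, 600, 272, 272, false, false, false, [(0, 1), (3, 3), (44, 2), (20, 1), (21, 1), (22, 2), (23, 2), (24, 2), (25, 1), (26, 2), (27, 2), (28, 2), (29, 2), (30, 1), (31, 2), (32, 2), (33, 2), (34, 1), (35, 2), (36, 2)], []⟩,
  ⟨3265, 120, 0, 224, 128, true, true, true, [(0, 4), (4, 3), (5, 3), (6, 4), (7, 2), (16, 1), (17, 4), (18, 3), (31, 2), (32, 2), (33, 2), (34, 1), (35, 2)], [(36, 2), (37, 2), (38, 1)]⟩,
  ⟨4609, 120, 0, 104, 88, true, true, true, [(0, 44)], [(0, 2)]⟩,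
  ⟨8303, 120, 0, 0, 0, true, false, false, [(0, 54)], []⟩,
  ⟨8816, 120, 0, 0, 0, true, false, false, [(0, 54)], []⟩
  ] = true := by decide +kernel

def g69_49 : Gr := ⟨false, 768, 794, 1024, 1024, 69, 69, 8505, 8506, 0, 1367, 0, []⟩

theorem k69_49 : chk g69_49 T750 [
  ⟨1921, 120, 600, 272, 272, false, false, true, [(2, 4), (45, 2), (20, 1), (21, 1), (22, 2), (23, 2), (24, 2), (25, 1), (26, 2), (27, 2), (28, 2), (29, 2), (30, 1), (31, 2), (32, 2), (33, 2), (34, 1), (35, 2)], [(36, 2), (37, 2)]⟩,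
  ⟨3842, 120, 0, 192, 122, true, true, true, [(0, 4), (4, 3), (5, 3), (6, 4), (7, 2), (16, 1), (17, 4), (18, 3), (31, 2), (32, 2), (33, 2), (34, 1), (35, 2), (36, 2)], [(37, 2), (38, 1), (39, 2), (40, 2)]⟩,
  ⟨5763, 120, 0, 0, 80, true, false, false, [(0, 55)], []⟩,
  ⟨8805, 120, 0, 0, 0, true, false, false, [(0, 55)], []⟩
  ] = true := by decide +kernel

def g69_50 : Gr := ⟨false, 793, 820, 1024, 1024, 69, 69, 8505, 8506, 0, 1324, 0, []⟩

theorem k69_50 : chk g69_50 T775 [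
  ⟨1921, 120, 600, 272, 280, false, false, true, [(2, 4), (45, 2), (20, 1), (21, 1), (22, 2), (23, 2), (24, 2), (25, 1), (26, 2), (27, 2), (28, 2), (29, 2), (30, 1), (31, 2), (32, 2), (33, 2), (34, 1), (35, 2), (36, 2)], [(37, 2), (38, 1)]⟩,
  ⟨3842, 120, 0, 192, 146, true, true, true, [(0, 4), (4, 3), (5, 3), (6, 4), (7, 2), (16, 1), (17, 4), (18, 3), (31, 2), (32, 2), (33, 2), (34, 1), (35, 2), (36, 2), (37, 2)], [(38, 1), (39, 2), (40, 2), (41, 2)]⟩,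
  ⟨5763, 120, 0, 12, 92, true, false, true, [(0, 54)], [(0, 2)]⟩,
  ⟨8807, 120, 0, 0, 0, true, false, false, [(0, 57)], []⟩
  ] = true := by decide +kernel

end Pool.Agent.Lib.MP_af3a4a_an.P1.CHK.H81.L
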