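import Pool.Agent.Lib.MP_af3a4a_an.P1.CHK.H81.LT
/-!
# Data, `70 ≤ N ≤ 72`, `286 ≤ 1024 R ≤ 388` (helper81)
-/
set_option autoImplicit false

namespace Pool.Agent.Lib.MP_af3a4a_an.P1.CHK.H81.L

open Pool.Agent.Lib.MP_af3a4a_an.P1.CHK.H58.G (Gr En)

def g70_0 : Gr := ⟨false, 286, 296, 1024, 1024, 70, 72, 8567, 8689, 512, 3668, 0, []⟩

theorem k70_0 : chk g70_0 [] [
  ⟨1211, 70, 0, 176, 88, true, true, false, [(0, 15)], []⟩,
  ⟨1243, 70, 0, 176, 88, true, true, false, [(0, 15)], []⟩,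
  ⟨1309, 70, 0, 176, 88, true, true, false, [(0, 15)], []⟩,
  ⟨1441, 70, 0, 160, 78, true, true, false, [(0, 17)], []⟩,
  ⟨1702, 70, 0, 160, 78, true, true, false, [(0, 17)], []⟩,
  ⟨2423, 70, 0, 104, 48, true, true, false, [(0, 24)], []⟩,
  ⟨6311, 70, 0, 0, 0, true, false, false, [(0, 36)], []⟩,
  ⟨8997, 70, 0, 0, 0, true, false, false, [(0, 36)], []⟩
  ] = true := by decide +kernel

def g70_1 : Gr := ⟨false, 296, 302, 1024, 1024, 70, 72, 8567, 8689, 512, 3544, 0, []⟩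

theorem k70_1 : chk g70_1 [] [
  ⟨1328, 120, 0, 176, 88, true, true, false, [(0, 9)], []⟩,
  ⟨1507, 120, 0, 176, 88, true, true, false, [(0, 9)], []⟩,
  ⟨1862, 120, 0, 144, 69, true, true, false, [(0, 12)], []⟩,
  ⟨2840, 120, 0, 80, 36, true, true, false, [(0, 16)], []⟩,
  ⟨6607, 120, 0, 0, 0, true, false, false, [(0, 22)], []⟩,
  ⟨8869, 120, 0, 0, 0, true, false, false, [(0, 22)], []⟩
  ] = true := by decide +kernel

def g70_2 : Gr := ⟨false, 302, 308, 1024, 1024, 70, 72, 8567, 8689, 384, 3474, 0, []⟩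

theorem k70_2 : chk g70_2 [] [
  ⟨1011, 90, 0, 192, 98, true, true, false, [(0, 1), (3, 10)], []⟩,
  ⟨1075, 90, 0, 192, 98, true, true, false, [(0, 2), (3, 9)], []⟩,
  ⟨1139, 90, 0, 192, 98, true, true, false, [(0, 2), (3, 9)], []⟩,
  ⟨1203, 90, 0, 192, 98, true, true, false, [(0, 3), (3, 8)], []⟩,
  ⟨1247, 90, 0, 192, 98, true, true, false, [(0, 5), (3, 6)], []⟩,
  ⟨1310, 90, 0, 192, 98, true, true, false, [(0, 11)], []⟩,
  ⟨1400, 90, 0, 176, 88, true, true, false, [(0, 13)], []⟩,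
  ⟨1651, 90, 0, 160, 78, true, true, false, [(0, 14)], []⟩,
  ⟨2346, 90, 0, 128, 60, true, true, false, [(0, 17)], []⟩,
  ⟨6097, 90, 0, 2, 1, true, true, false, [(0, 29)], []⟩,
  ⟨8867, 90, 0, 0, 0, true, false, false, [(0, 30)], []⟩
  ] = true := by decide +kernel

def g70_3 : Gr := ⟨false, 307, 313, 1024, 1024, 70, 72, 8567, 8689, 384, 3417, 0, []⟩

theorem k70_3 : chk g70_3 T300 [
  ⟨973, 120, 0, 192, 98, true, true, false, [(0, 1), (3, 8)], []⟩,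
  ⟨983, 120, 0, 192, 98, true, true, false, [(0, 1), (3, 8)], []⟩,
  ⟨993, 120, 0, 192, 98, true, true, false, [(0, 1), (3, 8)], []⟩,
  ⟨1003, 120, 0, 192, 98, true, true, false, [(0, 2), (3, 7)], []⟩,
  ⟨1019, 120, 0, 192, 98, true, true, false, [(0, 2), (3, 7)], []⟩,
  ⟨1035, 120, 0, 192, 98, true, true, false, [(0, 2), (3, 7)], []⟩,
  ⟨1051, 120, 0, 192, 98, true, true, false, [(0, 2), (3, 7)], []⟩,
  ⟨1074, 120, 0, 192, 98, true, true, false, [(0, 2), (3, 7)], []⟩,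
  ⟨1097, 120, 0, 192, 98, true, true, false, [(0, 2), (3, 7)], []⟩,
  ⟨1120, 120, 0, 192, 98, true, true, false, [(0, 2), (3, 7)], []⟩,
  ⟨1143, 120, 0, 192, 98, true, true, false, [(0, 2), (3, 7)], []⟩,
  ⟨1166, 120, 0, 192, 98, true, true, false, [(0, 2), (3, 7)], []⟩,
  ⟨1189, 120, 0, 192, 98, true, true, false, [(0, 3), (3, 6)], []⟩,
  ⟨1212, 120, 0, 192, 98, true, true, false, [(0, 3), (3, 6)], []⟩,
  ⟨1235, 120, 0, 192, 98, true, true, false, [(0, 4), (3, 5)], []⟩,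
  ⟨1251, 120, 0, 192, 98, true, true, false, [(0, 5), (3, 4)], []⟩,
  ⟨1267, 120, 0, 192, 98, true, true, false, [(0, 6), (3, 3)], []⟩,
  ⟨1291, 120, 0, 192, 98, true, true, false, [(0, 9)], []⟩,
  ⟨1340, 120, 0, 192, 98, true, true, false, [(0, 9)], []⟩,
  ⟨1439, 120, 0, 176, 88, true, true, false, [(0, 10)], []⟩,
  ⟨1715, 120, 0, 160, 78, true, true, false, [(0, 11)], []⟩,
  ⟨2260, 120, 0, 120, 56, true, true, false, [(0, 14)], []⟩,
  ⟨5203, 120, 0, 2, 1, true, true, false, [(0, 22)], []⟩,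
  ⟨8146, 120, 0, 0, 0, true, false, false, [(0, 23)], []⟩,
  ⟨8863, 120, 0, 0, 0, true, false, false, [(0, 23)], []⟩
  ] = true := by decide +kernel

def g70_4 : Gr := ⟨false, 313, 317, 1024, 1024, 70, 72, 8567, 8689, 384, 3352, 0, []⟩

theorem k70_4 : chk g70_4 T300 [
  ⟨1012, 120, 0, 192, 98, true, true, false, [(0, 1), (3, 8)], []⟩,
  ⟨1056, 120, 0, 192, 98, true, true, false, [(0, 2), (3, 7)], []⟩,
  ⟨1100, 120, 0, 192, 98, true, true, false, [(0, 2), (3, 7)], []⟩,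
  ⟨1144, 120, 0, 192, 98, true, true, false, [(0, 2), (3, 7)], []⟩,
  ⟨1188, 120, 0, 192, 98, true, true, false, [(0, 2), (3, 7)], []⟩,
  ⟨1232, 120, 0, 192, 98, true, true, false, [(0, 3), (3, 6)], []⟩,
  ⟨1276, 120, 0, 192, 98, true, true, false, [(0, 4), (3, 5)], []⟩,
  ⟨1320, 120, 0, 192, 98, true, true, false, [(0, 9)], []⟩,
  ⟨1410, 120, 0, 176, 88, true, true, false, [(0, 10)], []⟩,
  ⟨1589, 120, 0, 176, 88, true, true, false, [(0, 10)], []⟩,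
  ⟨1943, 120, 0, 144, 69, true, true, false, [(0, 13)], []⟩,
  ⟨3311, 120, 0, 80, 36, true, true, false, [(0, 17)], []⟩,
  ⟨7071, 120, 0, 0, 0, true, false, false, [(0, 23)], []⟩,
  ⟨8806, 120, 0, 0, 0, true, false, false, [(0, 23)], []⟩
  ] = true := by decide +kernel

def g70_5 : Gr := ⟨false, 317, 323, 1024, 1024, 70, 72, 8567, 8689, 256, 3309, 0, []⟩

theorem k70_5 : chk g70_5 T300 [
  ⟨694, 70, 0, 208, 109, true, true, false, [(0, 1), (3, 13)], []⟩,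
  ⟨738, 70, 0, 208, 109, true, true, false, [(0, 1), (3, 13)], []⟩,
  ⟨782, 70, 0, 208, 109, true, true, false, [(0, 1), (3, 13)], []⟩,
  ⟨845, 70, 0, 208, 109, true, true, false, [(0, 1), (3, 13)], []⟩,
  ⟨908, 70, 0, 208, 109, true, true, false, [(0, 1), (3, 13)], []⟩,
  ⟨971, 70, 0, 208, 109, true, true, false, [(0, 1), (3, 13)], []⟩,
  ⟨1034, 70, 0, 208, 109, true, true, false, [(0, 1), (3, 13)], []⟩,
  ⟨1097, 70, 0, 208, 109, true, true, false, [(0, 2), (3, 12)], []⟩,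
  ⟨1141, 70, 0, 208, 109, true, true, false, [(0, 2), (3, 12)], []⟩,
  ⟨1185, 70, 0, 192, 98, true, true, false, [(0, 2), (3, 14)], []⟩,
  ⟨1216, 70, 0, 192, 98, true, true, false, [(0, 2), (3, 14)], []⟩,
  ⟨1247, 70, 0, 192, 98, true, true, false, [(0, 3), (3, 13)], []⟩,
  ⟨1278, 70, 0, 192, 98, true, true, false, [(0, 4), (3, 12)], []⟩,
  ⟨1309, 70, 0, 192, 98, true, true, false, [(0, 6), (3, 10)], []⟩,
  ⟨1340, 70, 0, 192, 98, true, true, false, [(0, 16)], []⟩,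
  ⟨1403, 70, 0, 192, 98, true, true, false, [(0, 16)], []⟩,
  ⟨1530, 70, 0, 176, 88, true, true, false, [(0, 18)], []⟩,
  ⟨1781, 70, 0, 160, 78, true, true, false, [(0, 20)], []⟩,
  ⟨2476, 70, 0, 120, 56, true, true, false, [(0, 25)], []⟩,
  ⟨6228, 70, 0, 0, 0, true, false, false, [(0, 40)], []⟩,
  ⟨8857, 70, 0, 0, 0, true, false, false, [(0, 40)], []⟩
  ] = true := by decide +kernel

def g70_6 : Gr := ⟨false, 323, 329, 1024, 1024, 70, 72, 8567, 8689, 256, 3248, 0, []⟩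

theorem k70_6 : chk g70_6 T300 [
  ⟨696, 90, 0, 224, 120, true, true, false, [(0, 1), (3, 9)], []⟩,
  ⟨717, 90, 0, 224, 120, true, true, false, [(0, 1), (3, 9)], []⟩,
  ⟨738, 90, 0, 224, 120, true, true, false, [(0, 1), (3, 9)], []⟩,
  ⟨759, 90, 0, 224, 120, true, true, false, [(0, 1), (3, 9)], []⟩,
  ⟨780, 90, 0, 224, 120, true, true, false, [(0, 1), (3, 9)], []⟩,
  ⟨801, 90, 0, 224, 120, true, true, false, [(0, 1), (3, 9)], []⟩,
  ⟨822, 90, 0, 224, 120, true, true, false, [(0, 1), (3, 9)], []⟩,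
  ⟨843, 90, 0, 224, 120, true, true, false, [(0, 1), (3, 9)], []⟩,
  ⟨864, 90, 0, 224, 120, true, true, false, [(0, 1), (3, 9)], []⟩,
  ⟨885, 90, 0, 224, 120, true, true, false, [(0, 1), (3, 9)], []⟩,
  ⟨906, 90, 0, 224, 120, true, true, false, [(0, 1), (3, 9)], []⟩,
  ⟨921, 90, 0, 192, 98, true, true, false, [(0, 1), (3, 12)], []⟩,
  ⟨943, 90, 0, 192, 98, true, true, false, [(0, 1), (3, 12)], []⟩,
  ⟨965, 90, 0, 192, 98, true, true, false, [(0, 1), (3, 12)], []⟩,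
  ⟨997, 90, 0, 192, 98, true, true, false, [(0, 1), (3, 12)], []⟩,
  ⟨1029, 90, 0, 192, 98, true, true, false, [(0, 1), (3, 12)], []⟩,
  ⟨1061, 90, 0, 192, 98, true, true, false, [(0, 2), (3, 11)], []⟩,
  ⟨1107, 90, 0, 192, 98, true, true, false, [(0, 2), (3, 11)], []⟩,
  ⟨1153, 90, 0, 192, 98, true, true, false, [(0, 2), (3, 11)], []⟩,
  ⟨1199, 90, 0, 192, 98, true, true, false, [(0, 2), (3, 11)], []⟩,
  ⟨1245, 90, 0, 192, 98, true, true, false, [(0, 2), (3, 11)], []⟩,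
  ⟨1291, 90, 0, 192, 98, true, true, false, [(0, 3), (3, 10)], []⟩,
  ⟨1323, 90, 0, 192, 98, true, true, false, [(0, 5), (3, 8)], []⟩,
  ⟨1369, 90, 0, 192, 98, true, true, false, [(0, 13)], []⟩,
  ⟨1435, 90, 0, 192, 98, true, true, false, [(0, 13)], []⟩,
  ⟨1528, 90, 0, 192, 98, true, true, false, [(0, 13)], []⟩,
  ⟨1789, 90, 0, 160, 78, true, true, false, [(0, 16)], []⟩,
  ⟨2511, 90, 0, 128, 60, true, true, false, [(0, 19)], []⟩,
  ⟨6405, 90, 0, 0, 0, true, false, false, [(0, 32)], []⟩,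
  ⟨8855, 90, 0, 0, 0, true, false, false, [(0, 32)], []⟩
  ] = true := by decide +kernel

def g70_7 : Gr := ⟨false, 329, 333, 1024, 1024, 70, 72, 8567, 8689, 256, 3189, 0, []⟩

theorem k70_7 : chk g70_7 T300 [
  ⟨719, 50, 0, 224, 120, true, true, false, [(0, 1), (3, 18)], []⟩,
  ⟨750, 50, 0, 224, 120, true, true, false, [(0, 1), (3, 18)], []⟩,
  ⟨794, 50, 0, 224, 120, true, true, false, [(0, 1), (3, 18)], []⟩,
  ⟨838, 50, 0, 224, 120, true, true, false, [(0, 1), (3, 18)], []⟩,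
  ⟨882, 50, 0, 224, 120, true, true, false, [(0, 1), (3, 18)], []⟩,
  ⟨926, 50, 0, 208, 109, true, true, false, [(0, 1), (3, 21)], []⟩,
  ⟨989, 50, 0, 208, 109, true, true, false, [(0, 1), (3, 21)], []⟩,
  ⟨1052, 50, 0, 208, 109, true, true, false, [(0, 1), (3, 21)], []⟩,
  ⟨1115, 50, 0, 208, 109, true, true, false, [(0, 2), (3, 20)], []⟩,
  ⟨1178, 50, 0, 192, 98, true, true, false, [(0, 2), (3, 22)], []⟩,
  ⟨1241, 50, 0, 192, 98, true, true, false, [(0, 2), (3, 22)], []⟩,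
  ⟨1304, 50, 0, 192, 98, true, true, false, [(0, 3), (3, 21)], []⟩,
  ⟨1367, 50, 0, 192, 98, true, true, false, [(0, 5), (3, 19)], []⟩,
  ⟨1457, 50, 0, 192, 98, true, true, false, [(0, 24)], []⟩,
  ⟨1636, 50, 0, 176, 88, true, true, false, [(0, 27)], []⟩,
  ⟨1990, 50, 0, 160, 78, true, true, false, [(0, 30)], []⟩,
  ⟨2966, 50, 0, 80, 36, true, true, false, [(0, 43)], []⟩,
  ⟨6726, 50, 0, 0, 0, true, false, false, [(0, 57)], []⟩,
  ⟨8800, 50, 0, 0, 0, true, false, false, [(0, 57)], []⟩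
  ] = true := by decide +kernel

def g70_8 : Gr := ⟨false, 332, 340, 1024, 1024, 70, 72, 8567, 8689, 128, 3160, 0, []⟩

theorem k70_8 : chk g70_8 T325 [
  ⟨437, 90, 630, 56, 225, false, true, false, [(0, 1), (3, 26)], []⟩,
  ⟨500, 90, 450, 192, 98, false, true, false, [(0, 1), (3, 13)], []⟩,
  ⟨544, 90, 450, 192, 98, false, true, false, [(0, 1), (3, 13)], []⟩,
  ⟨575, 90, 450, 192, 98, false, true, false, [(0, 1), (3, 13)], []⟩,
  ⟨606, 90, 450, 192, 98, false, true, false, [(0, 1), (3, 13)], []⟩,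
  ⟨627, 90, 450, 192, 98, false, true, false, [(0, 1), (3, 13)], []⟩,
  ⟨642, 90, 450, 192, 98, false, true, false, [(0, 1), (3, 13)], []⟩,
  ⟨652, 90, 450, 192, 98, false, true, false, [(0, 1), (3, 13)], []⟩,
  ⟨662, 90, 0, 224, 120, true, true, false, [(0, 1), (3, 10)], []⟩,
  ⟨672, 90, 0, 224, 120, true, true, false, [(0, 1), (3, 10)], []⟩,
  ⟨687, 90, 0, 224, 120, true, true, false, [(0, 1), (3, 10)], []⟩,
  ⟨702, 90, 0, 224, 120, true, true, false, [(0, 1), (3, 10)], []⟩,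
  ⟨717, 90, 0, 224, 120, true, true, false, [(0, 1), (3, 10)], []⟩,
  ⟨740, 90, 0, 224, 120, true, true, false, [(0, 1), (3, 10)], []⟩,
  ⟨763, 90, 0, 224, 120, true, true, false, [(0, 1), (3, 10)], []⟩,
  ⟨786, 90, 0, 224, 120, true, true, false, [(0, 1), (3, 10)], []⟩,
  ⟨819, 90, 0, 224, 120, true, true, false, [(0, 1), (3, 10)], []⟩,
  ⟨852, 90, 0, 224, 120, true, true, false, [(0, 1), (3, 10)], []⟩,
  ⟨885, 90, 0, 224, 120, true, true, false, [(0, 1), (3, 10)], []⟩,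
  ⟨908, 90, 0, 224, 120, true, true, false, [(0, 1), (3, 10)], []⟩,
  ⟨931, 90, 0, 224, 120, true, true, false, [(0, 1), (3, 10)], []⟩,
  ⟨954, 90, 0, 224, 120, true, true, false, [(0, 1), (3, 10)], []⟩,
  ⟨977, 90, 0, 224, 120, true, true, false, [(0, 1), (3, 10)], []⟩,
  ⟨993, 90, 0, 224, 120, true, true, false, [(0, 1), (3, 10)], []⟩,
  ⟨1009, 90, 0, 224, 120, true, true, false, [(0, 1), (3, 10)], []⟩,
  ⟨1020, 90, 0, 224, 120, true, true, false, [(0, 1), (3, 10)], []⟩,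
  ⟨1028, 90, 0, 224, 120, true, true, false, [(0, 1), (3, 10)], []⟩,
  ⟨1036, 90, 0, 192, 98, true, true, false, [(0, 1), (3, 13)], []⟩,
  ⟨1044, 90, 0, 192, 98, true, true, false, [(0, 1), (3, 13)], []⟩,
  ⟨1052, 90, 0, 192, 98, true, true, false, [(0, 1), (3, 13)], []⟩,
  ⟨1064, 90, 0, 192, 98, true, true, false, [(0, 2), (3, 12)], []⟩,
  ⟨1076, 90, 0, 192, 98, true, true, false, [(0, 2), (3, 12)], []⟩,
  ⟨1088, 90, 0, 192, 98, true, true, false, [(0, 2), (3, 12)], []⟩,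
  ⟨1106, 90, 0, 192, 98, true, true, false, [(0, 2), (3, 12)], []⟩,
  ⟨1124, 90, 0, 192, 98, true, true, false, [(0, 2), (3, 12)], []⟩,
  ⟨1142, 90, 0, 192, 98, true, true, false, [(0, 2), (3, 12)], []⟩,
  ⟨1160, 90, 0, 192, 98, true, true, false, [(0, 2), (3, 12)], []⟩,
  ⟨1178, 90, 0, 192, 98, true, true, false, [(0, 2), (3, 12)], []⟩,
  ⟨1204, 90, 0, 192, 98, true, true, false, [(0, 2), (3, 12)], []⟩,
  ⟨1230, 90, 0, 192, 98, true, true, false, [(0, 2), (3, 12)], []⟩,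
  ⟨1256, 90, 0, 192, 98, true, true, false, [(0, 2), (3, 12)], []⟩,
  ⟨1282, 90, 0, 192, 98, true, true, false, [(0, 3), (3, 11)], []⟩,
  ⟨1300, 90, 0, 192, 98, true, true, false, [(0, 3), (3, 11)], []⟩,
  ⟨1318, 90, 0, 192, 98, true, true, false, [(0, 3), (3, 11)], []⟩,
  ⟨1336, 90, 0, 192, 98, true, true, false, [(0, 4), (3, 10)], []⟩,
  ⟨1354, 90, 0, 192, 98, true, true, false, [(0, 5), (3, 9)], []⟩,
  ⟨1366, 90, 0, 192, 98, true, true, false, [(0, 7), (3, 7)], []⟩,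
  ⟨1378, 90, 0, 192, 98, true, true, false, [(0, 11), (3, 3)], []⟩,
  ⟨1405, 90, 0, 192, 98, true, true, false, [(0, 14)], []⟩,
  ⟨1461, 90, 0, 192, 98, true, true, false, [(0, 14)], []⟩,
  ⟨1541, 90, 0, 192, 98, true, true, false, [(0, 14)], []⟩,
  ⟨1701, 90, 0, 160, 78, true, true, false, [(0, 17)], []⟩,
  ⟨2018, 90, 0, 144, 69, true, true, false, [(0, 19)], []⟩,
  ⟨3244, 90, 0, 88, 40, true, true, false, [(0, 24)], []⟩,
  ⟨6614, 90, 0, 0, 0, true, false, false, [(0, 33)], []⟩,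
  ⟨8903, 90, 0, 0, 0, true, false, false, [(0, 33)], []⟩
  ] = true := by decide +kernel

def g70_9 : Gr := ⟨false, 340, 345, 1024, 1024, 70, 72, 8567, 8689, 128, 3086, 0, []⟩

theorem k70_9 : chk g70_9 T325 [
  ⟨482, 50, 650, 80, 208, false, false, false, [(0, 1), (3, 23), (8, 1), (3, 20)], []⟩,
  ⟨544, 50, 650, 80, 200, false, false, false, [(0, 1), (3, 44)], []⟩,
  ⟨587, 50, 450, 192, 98, false, true, false, [(0, 1), (3, 25)], []⟩,
  ⟨630, 50, 450, 192, 98, false, true, false, [(0, 1), (3, 25)], []⟩,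
  ⟨660, 50, 450, 192, 98, false, true, false, [(0, 1), (3, 25)], []⟩,
  ⟨681, 50, 450, 192, 98, false, true, false, [(0, 1), (3, 25)], []⟩,
  ⟨702, 50, 0, 224, 120, true, true, false, [(0, 1), (3, 20)], []⟩,
  ⟨733, 50, 0, 224, 120, true, true, false, [(0, 1), (3, 20)], []⟩,
  ⟨764, 50, 0, 224, 120, true, true, false, [(0, 1), (3, 20)], []⟩,
  ⟨808, 50, 0, 224, 120, true, true, false, [(0, 1), (3, 20)], []⟩,
  ⟨852, 50, 0, 224, 120, true, true, false, [(0, 1), (3, 20)], []⟩,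
  ⟨896, 50, 0, 224, 120, true, true, false, [(0, 1), (3, 20)], []⟩,
  ⟨940, 50, 0, 224, 120, true, true, false, [(0, 1), (3, 20)], []⟩,
  ⟨984, 50, 0, 224, 120, true, true, false, [(0, 1), (3, 20)], []⟩,
  ⟨1028, 50, 0, 208, 109, true, true, false, [(0, 1), (3, 23)], []⟩,
  ⟨1072, 50, 0, 208, 109, true, true, false, [(0, 1), (3, 23)], []⟩,
  ⟨1116, 50, 0, 208, 109, true, true, false, [(0, 2), (3, 22)], []⟩,
  ⟨1160, 50, 0, 208, 109, true, true, false, [(0, 2), (3, 22)], []⟩,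
  ⟨1204, 50, 0, 208, 109, true, true, false, [(0, 2), (3, 22)], []⟩,
  ⟨1248, 50, 0, 208, 109, true, true, false, [(0, 2), (3, 22)], []⟩,
  ⟨1292, 50, 0, 192, 98, true, true, false, [(0, 2), (3, 24)], []⟩,
  ⟨1336, 50, 0, 192, 98, true, true, false, [(0, 3), (3, 23)], []⟩,
  ⟨1380, 50, 0, 192, 98, true, true, false, [(0, 4), (3, 22)], []⟩,
  ⟨1411, 50, 0, 192, 98, true, true, false, [(0, 8), (3, 18)], []⟩,
  ⟨1474, 50, 0, 192, 98, true, true, false, [(0, 26)], []⟩,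
  ⟨1563, 50, 0, 192, 98, true, true, false, [(0, 26)], []⟩,
  ⟨1741, 50, 0, 176, 88, true, true, false, [(0, 29)], []⟩,
  ⟨2235, 50, 0, 144, 69, true, true, false, [(0, 35)], []⟩,
  ⟨4904, 50, 0, 28, 12, true, true, false, [(0, 54)], []⟩,
  ⟨8641, 50, 0, 0, 0, true, false, false, [(0, 59)], []⟩,
  ⟨8823, 50, 0, 0, 0, true, false, false, [(0, 59)], []⟩
  ] = true := by decide +kernel

def g70_10 : Gr := ⟨false, 345, 351, 1024, 1024, 70, 72, 8567, 8689, 128, 3041, 0, []⟩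

theorem k70_10 : chk g70_10 T325 [
  ⟨487, 90, 720, 56, 232, false, false, false, [(0, 1), (3, 27)], []⟩,
  ⟨549, 90, 450, 192, 98, false, true, false, [(0, 1), (3, 14)], []⟩,
  ⟨592, 90, 450, 192, 98, false, true, false, [(0, 1), (3, 14)], []⟩,
  ⟨635, 90, 450, 192, 98, false, true, false, [(0, 1), (3, 14)], []⟩,
  ⟨665, 90, 450, 192, 98, false, true, false, [(0, 1), (3, 14)], []⟩,
  ⟨695, 90, 450, 192, 98, false, true, false, [(0, 1), (3, 14)], []⟩,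
  ⟨725, 90, 0, 224, 120, true, true, false, [(0, 1), (3, 11)], []⟩,
  ⟨755, 90, 0, 224, 120, true, true, false, [(0, 1), (3, 11)], []⟩,
  ⟨798, 90, 0, 224, 120, true, true, false, [(0, 1), (3, 11)], []⟩,
  ⟨841, 90, 0, 224, 120, true, true, false, [(0, 1), (3, 11)], []⟩,
  ⟨884, 90, 0, 224, 120, true, true, false, [(0, 1), (3, 11)], []⟩,
  ⟨927, 90, 0, 224, 120, true, true, false, [(0, 1), (3, 11)], []⟩,
  ⟨970, 90, 0, 224, 120, true, true, false, [(0, 1), (3, 11)], []⟩,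
  ⟨1013, 90, 0, 224, 120, true, true, false, [(0, 1), (3, 11)], []⟩,
  ⟨1056, 90, 0, 224, 120, true, true, false, [(0, 1), (3, 11)], []⟩,
  ⟨1099, 90, 0, 224, 120, true, true, false, [(0, 1), (3, 11)], []⟩,
  ⟨1129, 90, 0, 224, 120, true, true, false, [(0, 2), (3, 10)], []⟩,
  ⟨1150, 90, 0, 224, 120, true, true, false, [(0, 2), (3, 10)], []⟩,
  ⟨1171, 90, 0, 192, 98, true, true, false, [(0, 2), (3, 13)], []⟩,
  ⟨1192, 90, 0, 192, 98, true, true, false, [(0, 2), (3, 13)], []⟩,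
  ⟨1213, 90, 0, 192, 98, true, true, false, [(0, 2), (3, 13)], []⟩,
  ⟨1234, 90, 0, 192, 98, true, true, false, [(0, 2), (3, 13)], []⟩,
  ⟨1255, 90, 0, 192, 98, true, true, false, [(0, 2), (3, 13)], []⟩,
  ⟨1286, 90, 0, 192, 98, true, true, false, [(0, 2), (3, 13)], []⟩,
  ⟨1317, 90, 0, 192, 98, true, true, false, [(0, 3), (3, 12)], []⟩,
  ⟨1348, 90, 0, 192, 98, true, true, false, [(0, 3), (3, 12)], []⟩,
  ⟨1369, 90, 0, 192, 98, true, true, false, [(0, 3), (3, 12)], []⟩,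
  ⟨1390, 90, 0, 192, 98, true, true, false, [(0, 4), (3, 11)], []⟩,
  ⟨1411, 90, 0, 192, 98, true, true, false, [(0, 6), (3, 9)], []⟩,
  ⟨1432, 90, 0, 192, 98, true, true, false, [(0, 9), (3, 6)], []⟩,
  ⟨1477, 90, 0, 192, 98, true, true, false, [(0, 15)], []⟩,
  ⟨1567, 90, 0, 192, 98, true, true, false, [(0, 15)], []⟩,
  ⟨1695, 90, 0, 176, 88, true, true, false, [(0, 17)], []⟩,
  ⟨1948, 90, 0, 160, 78, true, true, false, [(0, 19)], []⟩,
  ⟨2648, 90, 0, 112, 52, true, true, false, [(0, 23)], []⟩,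
  ⟨6428, 90, 0, 0, 0, true, false, false, [(0, 34)], []⟩,
  ⟨8845, 90, 0, 0, 0, true, false, false, [(0, 34)], []⟩
  ] = true := by decide +kernel

def g70_11 : Gr := ⟨false, 351, 356, 1024, 1024, 70, 72, 8567, 8689, 128, 2048, 0, []⟩

theorem k70_11 : chk g70_11 T325 [
  ⟨494, 70, 630, 80, 216, false, false, false, [(0, 1), (3, 33)], []⟩,
  ⟨583, 70, 490, 208, 109, false, true, false, [(0, 1), (3, 17)], []⟩,
  ⟨645, 70, 490, 208, 109, false, true, false, [(0, 1), (3, 17)], []⟩,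
  ⟨688, 70, 420, 208, 109, false, true, false, [(0, 1), (3, 17)], []⟩,
  ⟨731, 70, 420, 208, 109, false, true, false, [(0, 1), (3, 17)], []⟩,
  ⟨761, 70, 420, 208, 109, false, true, false, [(0, 1), (3, 17)], []⟩,
  ⟨782, 70, 420, 208, 109, false, true, false, [(0, 1), (3, 17)], []⟩,
  ⟨803, 70, 0, 208, 109, true, true, false, [(0, 1), (3, 17)], []⟩,
  ⟨834, 70, 0, 208, 109, true, true, false, [(0, 1), (3, 17)], []⟩,
  ⟨865, 70, 0, 208, 109, true, true, false, [(0, 1), (3, 17)], []⟩,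
  ⟨909, 70, 0, 208, 109, true, true, false, [(0, 1), (3, 17)], []⟩,
  ⟨953, 70, 0, 208, 109, true, true, false, [(0, 1), (3, 17)], []⟩,
  ⟨1016, 70, 0, 208, 109, true, true, false, [(0, 1), (3, 17)], []⟩,
  ⟨1079, 70, 0, 208, 109, true, true, false, [(0, 1), (3, 17)], []⟩,
  ⟨1142, 70, 0, 208, 109, true, true, false, [(0, 2), (3, 16)], []⟩,
  ⟨1205, 70, 0, 208, 109, true, true, false, [(0, 2), (3, 16)], []⟩,
  ⟨1268, 70, 0, 208, 109, true, true, false, [(0, 2), (3, 16)], []⟩,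
  ⟨1331, 70, 0, 208, 109, true, true, false, [(0, 2), (3, 16)], []⟩,
  ⟨1375, 70, 0, 208, 109, true, true, false, [(0, 3), (3, 15)], []⟩,
  ⟨1406, 70, 0, 208, 109, true, true, false, [(0, 4), (3, 14)], []⟩,
  ⟨1427, 70, 0, 192, 98, true, true, false, [(0, 5), (3, 15)], []⟩,
  ⟨1448, 70, 0, 192, 98, true, true, false, [(0, 8), (3, 12)], []⟩,
  ⟨1479, 70, 0, 192, 98, true, true, false, [(0, 20)], []⟩,
  ⟨1542, 70, 0, 192, 98, true, true, false, [(0, 20)], []⟩,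
  ⟨1669, 70, 0, 192, 98, true, true, false, [(0, 20)], []⟩,
  ⟨1921, 70, 0, 160, 78, true, true, false, [(0, 24)], []⟩,
  ⟨2619, 70, 0, 120, 56, true, true, false, [(0, 29)], []⟩,
  ⟨6042, 70, 0, 0, 0, true, false, false, [(0, 44)], []⟩
  ] = true := by decide +kernel

def g70_12 : Gr := ⟨false, 356, 359, 1024, 1024, 70, 72, 8567, 8689, 0, 2048, 0, []⟩

theorem k70_12 : chk g70_12 T325 [
  ⟨355, 120, 720, 20, 284, false, false, false, [(0, 1), (3, 3), (15, 2), (6, 1), (7, 1), (8, 2), (9, 2), (3, 12)], []⟩,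
  ⟨476, 120, 720, 80, 220, false, true, false, [(0, 1), (3, 19)], []⟩,
  ⟨561, 120, 720, 80, 212, false, true, false, [(0, 1), (3, 19)], []⟩,
  ⟨620, 120, 480, 208, 109, false, true, false, [(0, 1), (3, 10)], []⟩,
  ⟨661, 120, 480, 208, 109, false, true, false, [(0, 1), (3, 10)], []⟩,
  ⟨690, 120, 480, 208, 109, false, true, false, [(0, 1), (3, 10)], []⟩,
  ⟨719, 120, 480, 208, 109, false, true, false, [(0, 1), (3, 10)], []⟩,
  ⟨739, 120, 480, 208, 109, false, true, false, [(0, 1), (3, 10)], []⟩,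
  ⟨753, 120, 480, 208, 109, false, true, false, [(0, 1), (3, 10)], []⟩,
  ⟨763, 120, 480, 208, 109, false, true, false, [(0, 1), (3, 10)], []⟩,
  ⟨773, 120, 0, 240, 132, true, true, false, [(0, 1), (3, 8)], []⟩,
  ⟨783, 120, 0, 240, 132, true, true, false, [(0, 1), (3, 8)], []⟩,
  ⟨793, 120, 0, 240, 132, true, true, false, [(0, 1), (3, 8)], []⟩,
  ⟨803, 120, 0, 240, 132, true, true, false, [(0, 1), (3, 8)], []⟩,
  ⟨818, 120, 0, 240, 132, true, true, false, [(0, 1), (3, 8)], []⟩,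
  ⟨833, 120, 0, 224, 120, true, true, false, [(0, 1), (3, 9)], []⟩,
  ⟨855, 120, 0, 224, 120, true, true, false, [(0, 1), (3, 9)], []⟩,
  ⟨877, 120, 0, 224, 120, true, true, false, [(0, 1), (3, 9)], []⟩,
  ⟨908, 120, 0, 224, 120, true, true, false, [(0, 1), (3, 9)], []⟩,
  ⟨939, 120, 0, 224, 120, true, true, false, [(0, 1), (3, 9)], []⟩,
  ⟨970, 120, 0, 224, 120, true, true, false, [(0, 1), (3, 9)], []⟩,
  ⟨1001, 120, 0, 224, 120, true, true, false, [(0, 1), (3, 9)], []⟩,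
  ⟨1046, 120, 0, 224, 120, true, true, false, [(0, 1), (3, 9)], []⟩,
  ⟨1091, 120, 0, 224, 120, true, true, false, [(0, 1), (3, 9)], []⟩,
  ⟨1122, 120, 0, 224, 120, true, true, false, [(0, 1), (3, 9)], []⟩,
  ⟨1153, 120, 0, 208, 109, true, true, false, [(0, 2), (3, 9)], []⟩,
  ⟨1198, 120, 0, 208, 109, true, true, false, [(0, 2), (3, 9)], []⟩,
  ⟨1243, 120, 0, 208, 109, true, true, false, [(0, 2), (3, 9)], []⟩,
  ⟨1288, 120, 0, 208, 109, true, true, false, [(0, 2), (3, 9)], []⟩,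
  ⟨1320, 120, 0, 208, 109, true, true, false, [(0, 2), (3, 9)], []⟩,
  ⟨1352, 120, 0, 208, 109, true, true, false, [(0, 3), (3, 8)], []⟩,
  ⟨1384, 120, 0, 208, 109, true, true, false, [(0, 3), (3, 8)], []⟩,
  ⟨1406, 120, 0, 208, 109, true, true, false, [(0, 3), (3, 8)], []⟩,
  ⟨1421, 120, 0, 208, 109, true, true, false, [(0, 4), (3, 7)], []⟩,
  ⟨1436, 120, 0, 208, 109, true, true, false, [(0, 4), (3, 7)], []⟩,
  ⟨1446, 120, 0, 192, 98, true, true, false, [(0, 5), (3, 7)], []⟩,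
  ⟨1456, 120, 0, 192, 98, true, true, false, [(0, 6), (3, 6)], []⟩,
  ⟨1466, 120, 0, 192, 98, true, true, false, [(0, 7), (3, 5)], []⟩,
  ⟨1476, 120, 0, 192, 98, true, true, false, [(0, 10), (3, 2)], []⟩,
  ⟨1510, 120, 0, 192, 98, true, true, false, [(0, 12)], []⟩,
  ⟨1579, 120, 0, 192, 98, true, true, false, [(0, 12)], []⟩,
  ⟨1718, 120, 0, 176, 88, true, true, false, [(0, 13)], []⟩,
  ⟨1994, 120, 0, 176, 88, true, true, false, [(0, 13)], []⟩,
  ⟨2755, 120, 0, 120, 56, true, true, false, [(0, 17)], []⟩,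
  ⟨5688, 120, 0, 0, 0, true, false, false, [(0, 26)], []⟩,
  ⟨6093, 120, 0, 0, 0, true, false, false, [(0, 26)], []⟩
  ] = true := by decide +kernel

def g70_13 : Gr := ⟨false, 358, 361, 1024, 1024, 70, 72, 8567, 8689, 0, 2048, 0, []⟩

theorem k70_13 : chk g70_13 T350 [
  ⟨355, 120, 720, 24, 283, false, true, false, [(0, 1), (3, 3), (18, 2), (8, 1), (9, 1), (10, 2), (11, 2), (12, 2), (3, 10)], []⟩,
  ⟨529, 120, 720, 80, 216, false, false, false, [(0, 1), (3, 9), (11, 2), (3, 8)], []⟩,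
  ⟨588, 120, 720, 80, 212, false, true, false, [(0, 1), (3, 19)], []⟩,
  ⟨647, 120, 480, 208, 109, false, true, false, [(0, 1), (3, 10)], []⟩,
  ⟨688, 120, 480, 208, 109, false, true, false, [(0, 1), (3, 10)], []⟩,
  ⟨717, 120, 480, 208, 109, false, true, false, [(0, 1), (3, 10)], []⟩,
  ⟨737, 120, 480, 208, 109, false, true, false, [(0, 1), (3, 10)], []⟩,
  ⟨757, 120, 480, 208, 109, false, true, false, [(0, 1), (3, 10)], []⟩,
  ⟨771, 120, 0, 240, 132, true, true, false, [(0, 1), (3, 8)], []⟩,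
  ⟨785, 120, 0, 240, 132, true, true, false, [(0, 1), (3, 8)], []⟩,
  ⟨799, 120, 0, 240, 132, true, true, false, [(0, 1), (3, 8)], []⟩,
  ⟨813, 120, 0, 224, 120, true, true, false, [(0, 1), (3, 9)], []⟩,
  ⟨834, 120, 0, 224, 120, true, true, false, [(0, 1), (3, 9)], []⟩,
  ⟨855, 120, 0, 224, 120, true, true, false, [(0, 1), (3, 9)], []⟩,
  ⟨885, 120, 0, 224, 120, true, true, false, [(0, 1), (3, 9)], []⟩,
  ⟨915, 120, 0, 224, 120, true, true, false, [(0, 1), (3, 9)], []⟩,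
  ⟨958, 120, 0, 224, 120, true, true, false, [(0, 1), (3, 9)], []⟩,
  ⟨1001, 120, 0, 224, 120, true, true, false, [(0, 1), (3, 9)], []⟩,
  ⟨1044, 120, 0, 224, 120, true, true, false, [(0, 1), (3, 9)], []⟩,
  ⟨1087, 120, 0, 224, 120, true, true, false, [(0, 1), (3, 9)], []⟩,
  ⟨1130, 120, 0, 224, 120, true, true, false, [(0, 1), (3, 9)], []⟩,
  ⟨1173, 120, 0, 208, 109, true, true, false, [(0, 2), (3, 9)], []⟩,
  ⟨1216, 120, 0, 208, 109, true, true, false, [(0, 2), (3, 9)], []⟩,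
  ⟨1259, 120, 0, 208, 109, true, true, false, [(0, 2), (3, 9)], []⟩,
  ⟨1302, 120, 0, 208, 109, true, true, false, [(0, 2), (3, 9)], []⟩,
  ⟨1345, 120, 0, 208, 109, true, true, false, [(0, 2), (3, 9)], []⟩,
  ⟨1388, 120, 0, 208, 109, true, true, false, [(0, 3), (3, 8)], []⟩,
  ⟨1418, 120, 0, 208, 109, true, true, false, [(0, 3), (3, 8)], []⟩,
  ⟨1439, 120, 0, 192, 98, true, true, false, [(0, 4), (3, 8)], []⟩,
  ⟨1460, 120, 0, 192, 98, true, true, false, [(0, 5), (3, 7)], []⟩,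
  ⟨1481, 120, 0, 192, 98, true, true, false, [(0, 8), (3, 4)], []⟩,
  ⟨1525, 120, 0, 192, 98, true, true, false, [(0, 12)], []⟩,
  ⟨1614, 120, 0, 192, 98, true, true, false, [(0, 12)], []⟩,
  ⟨1740, 120, 0, 192, 98, true, true, false, [(0, 12)], []⟩,
  ⟨1989, 120, 0, 160, 78, true, true, false, [(0, 15)], []⟩,
  ⟨2677, 120, 0, 112, 52, true, true, false, [(0, 18)], []⟩,
  ⟨6127, 120, 0, 0, 0, true, false, false, [(0, 26)], []⟩
  ] = true := by decide +kernel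

def g70_14 : Gr := ⟨false, 361, 365, 1024, 1024, 70, 72, 8567, 8689, 0, 2048, 0, []⟩

theorem k70_14 : chk g70_14 T350 [
  ⟨355, 90, 720, 16, 288, false, false, false, [(0, 1), (3, 4), (18, 3), (8, 1), (9, 2), (10, 3), (11, 2), (12, 3), (3, 14)], []⟩,
  ⟨529, 90, 630, 80, 220, false, true, false, [(0, 1), (3, 12), (10, 1), (11, 2), (3, 11)], []⟩,
  ⟨614, 90, 630, 112, 184, false, false, false, [(0, 1), (3, 23)], []⟩,
  ⟨673, 90, 450, 208, 109, false, true, false, [(0, 1), (3, 14)], []⟩,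
  ⟨714, 90, 450, 208, 109, false, true, false, [(0, 1), (3, 14)], []⟩,
  ⟨755, 90, 0, 240, 132, true, true, false, [(0, 1), (3, 11)], []⟩,
  ⟨796, 90, 0, 240, 132, true, true, false, [(0, 1), (3, 11)], []⟩,
  ⟨837, 90, 0, 240, 132, true, true, false, [(0, 1), (3, 11)], []⟩,
  ⟨878, 90, 0, 240, 132, true, true, false, [(0, 1), (3, 11)], []⟩,
  ⟨919, 90, 0, 240, 132, true, true, false, [(0, 1), (3, 11)], []⟩,
  ⟨960, 90, 0, 240, 132, true, true, false, [(0, 1), (3, 11)], []⟩,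
  ⟨989, 90, 0, 240, 132, true, true, false, [(0, 1), (3, 11)], []⟩,
  ⟨1018, 90, 0, 208, 109, true, true, false, [(0, 1), (3, 14)], []⟩,
  ⟨1059, 90, 0, 208, 109, true, true, false, [(0, 1), (3, 14)], []⟩,
  ⟨1100, 90, 0, 208, 109, true, true, false, [(0, 1), (3, 14)], []⟩,
  ⟨1141, 90, 0, 208, 109, true, true, false, [(0, 2), (3, 13)], []⟩,
  ⟨1200, 90, 0, 208, 109, true, true, false, [(0, 2), (3, 13)], []⟩,
  ⟨1259, 90, 0, 208, 109, true, true, false, [(0, 2), (3, 13)], []⟩,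
  ⟨1318, 90, 0, 208, 109, true, true, false, [(0, 2), (3, 13)], []⟩,
  ⟨1359, 90, 0, 208, 109, true, true, false, [(0, 2), (3, 13)], []⟩,
  ⟨1400, 90, 0, 208, 109, true, true, false, [(0, 3), (3, 12)], []⟩,
  ⟨1429, 90, 0, 208, 109, true, true, false, [(0, 3), (3, 12)], []⟩,
  ⟨1458, 90, 0, 208, 109, true, true, false, [(0, 4), (3, 11)], []⟩,
  ⟨1478, 90, 0, 208, 109, true, true, false, [(0, 6), (3, 9)], []⟩,
  ⟨1492, 90, 0, 208, 109, true, true, false, [(0, 9), (3, 6)], []⟩,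
  ⟨1506, 90, 0, 208, 109, true, true, false, [(0, 15)], []⟩,
  ⟨1527, 90, 0, 208, 109, true, true, false, [(0, 15)], []⟩,
  ⟨1548, 90, 0, 208, 109, true, true, false, [(0, 15)], []⟩,
  ⟨1578, 90, 0, 192, 98, true, true, false, [(0, 17)], []⟩,
  ⟨1666, 90, 0, 176, 88, true, true, false, [(0, 18)], []⟩,
  ⟨1912, 90, 0, 176, 88, true, true, false, [(0, 18)], []⟩,
  ⟨2396, 90, 0, 144, 69, true, true, false, [(0, 21)], []⟩,
  ⟨6061, 90, 0, 6, 3, true, true, false, [(0, 34)], []⟩,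
  ⟨6195, 90, 0, 0, 0, true, false, false, [(0, 35)], []⟩
  ] = true := by decide +kernel

def g70_15 : Gr := ⟨false, 365, 367, 1024, 1024, 70, 72, 8567, 8689, 0, 2048, 0, []⟩

theorem k70_15 : chk g70_15 T350 [
  ⟨355, 90, 720, 28, 284, false, false, false, [(0, 1), (3, 4), (18, 3), (8, 1), (9, 2), (10, 3), (11, 2), (12, 2), (3, 14)], []⟩,
  ⟨529, 90, 720, 72, 232, false, false, false, [(0, 1), (3, 12), (10, 1), (11, 2), (3, 12)], []⟩,
  ⟨614, 90, 630, 104, 192, false, false, false, [(0, 1), (3, 24)], []⟩,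
  ⟨699, 90, 450, 208, 109, false, true, false, [(0, 1), (3, 14)], []⟩,
  ⟨758, 90, 450, 208, 109, false, true, false, [(0, 1), (3, 14)], []⟩,
  ⟨817, 90, 0, 240, 132, true, true, false, [(0, 1), (3, 11)], []⟩,
  ⟨876, 90, 0, 240, 132, true, true, false, [(0, 1), (3, 11)], []⟩,
  ⟨935, 90, 0, 240, 132, true, true, false, [(0, 1), (3, 11)], []⟩,
  ⟨994, 90, 0, 224, 120, true, true, false, [(0, 1), (3, 13)], []⟩,
  ⟨1053, 90, 0, 224, 120, true, true, false, [(0, 1), (3, 13)], []⟩,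
  ⟨1112, 90, 0, 224, 120, true, true, false, [(0, 1), (3, 13)], []⟩,
  ⟨1171, 90, 0, 208, 109, true, true, false, [(0, 2), (3, 13)], []⟩,
  ⟨1255, 90, 0, 208, 109, true, true, false, [(0, 2), (3, 13)], []⟩,
  ⟨1339, 90, 0, 208, 109, true, true, false, [(0, 2), (3, 13)], []⟩,
  ⟨1398, 90, 0, 208, 109, true, true, false, [(0, 3), (3, 12)], []⟩,
  ⟨1457, 90, 0, 208, 109, true, true, false, [(0, 3), (3, 12)], []⟩,
  ⟨1498, 90, 0, 208, 109, true, true, false, [(0, 5), (3, 10)], []⟩,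
  ⟨1527, 90, 0, 208, 109, true, true, false, [(0, 15)], []⟩,
  ⟨1568, 90, 0, 208, 109, true, true, false, [(0, 15)], []⟩,
  ⟨1651, 90, 0, 192, 98, true, true, false, [(0, 17)], []⟩,
  ⟨1817, 90, 0, 192, 98, true, true, false, [(0, 17)], []⟩,
  ⟨2146, 90, 0, 160, 78, true, true, false, [(0, 20)], []⟩,
  ⟨3419, 90, 0, 72, 32, true, true, false, [(0, 28)], []⟩,
  ⟨6229, 90, 0, 0, 0, true, false, false, [(0, 35)], []⟩
  ] = true := by decide +kernel

def g70_16 : Gr := ⟨false, 367, 371, 1024, 1024, 70, 72, 8567, 8689, 0, 2048, 0, []⟩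

theorem k70_16 : chk g70_16 T350 [
  ⟨355, 70, 700, 20, 292, false, false, false, [(0, 1), (3, 6), (18, 3), (8, 2), (9, 3), (10, 3), (11, 3), (12, 2), (3, 20)], []⟩,
  ⟨529, 70, 700, 80, 224, false, false, false, [(0, 1), (3, 16), (10, 1), (11, 3), (3, 15)], []⟩,
  ⟨614, 70, 490, 208, 109, false, true, false, [(0, 1), (3, 19)], []⟩,
  ⟨699, 70, 490, 208, 109, false, true, false, [(0, 1), (3, 19)], []⟩,
  ⟨758, 70, 0, 240, 132, true, true, false, [(0, 1), (3, 15)], []⟩,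
  ⟨817, 70, 0, 240, 132, true, true, false, [(0, 1), (3, 15)], []⟩,
  ⟨876, 70, 0, 240, 132, true, true, false, [(0, 1), (3, 15)], []⟩,
  ⟨935, 70, 0, 224, 120, true, true, false, [(0, 1), (3, 17)], []⟩,
  ⟨1019, 70, 0, 224, 120, true, true, false, [(0, 1), (3, 17)], []⟩,
  ⟨1103, 70, 0, 224, 120, true, true, false, [(0, 1), (3, 17)], []⟩,
  ⟨1187, 70, 0, 224, 120, true, true, false, [(0, 2), (3, 16)], []⟩,
  ⟨1246, 70, 0, 224, 120, true, true, false, [(0, 2), (3, 16)], []⟩,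
  ⟨1305, 70, 0, 208, 109, true, true, false, [(0, 2), (3, 18)], []⟩,
  ⟨1364, 70, 0, 208, 109, true, true, false, [(0, 2), (3, 18)], []⟩,
  ⟨1405, 70, 0, 208, 109, true, true, false, [(0, 3), (3, 17)], []⟩,
  ⟨1446, 70, 0, 208, 109, true, true, false, [(0, 3), (3, 17)], []⟩,
  ⟨1475, 70, 0, 208, 109, true, true, false, [(0, 4), (3, 16)], []⟩,
  ⟨1504, 70, 0, 208, 109, true, true, false, [(0, 6), (3, 14)], []⟩,
  ⟨1524, 70, 0, 208, 109, true, true, false, [(0, 12), (3, 8)], []⟩,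
  ⟨1544, 70, 0, 208, 109, true, true, false, [(0, 20)], []⟩,
  ⟨1586, 70, 0, 192, 98, true, true, false, [(0, 22)], []⟩,
  ⟨1671, 70, 0, 192, 98, true, true, false, [(0, 22)], []⟩,
  ⟨1840, 70, 0, 176, 88, true, true, false, [(0, 24)], []⟩,
  ⟨2308, 70, 0, 144, 69, true, true, false, [(0, 28)], []⟩,
  ⟨4115, 70, 0, 44, 19, true, true, false, [(0, 40)], []⟩,
  ⟨6297, 70, 0, 0, 0, true, false, false, [(0, 45)], []⟩
  ] = true := by decide +kernel

def g70_17 : Gr := ⟨false, 371, 375, 1024, 1024, 70, 72, 8567, 8689, 0, 2048, 0, []⟩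

theorem k70_17 : chk g70_17 T350 [
  ⟨355, 90, 720, 16, 296, false, false, false, [(0, 1), (3, 4), (18, 3), (8, 1), (9, 2), (10, 3), (11, 2), (12, 2), (3, 16)], []⟩,
  ⟨529, 90, 720, 80, 228, false, true, false, [(0, 1), (3, 13), (11, 2), (3, 12)], []⟩,
  ⟨614, 90, 630, 112, 192, false, false, false, [(0, 1), (3, 24)], []⟩,
  ⟨699, 90, 540, 208, 109, false, true, false, [(0, 1), (3, 15)], []⟩,
  ⟨758, 90, 450, 208, 109, false, true, false, [(0, 1), (3, 15)], []⟩,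
  ⟨799, 90, 0, 240, 132, true, true, false, [(0, 1), (3, 12)], []⟩,
  ⟨840, 90, 0, 240, 132, true, true, false, [(0, 1), (3, 12)], []⟩,
  ⟨899, 90, 0, 240, 132, true, true, false, [(0, 1), (3, 12)], []⟩,
  ⟨958, 90, 0, 240, 132, true, true, false, [(0, 1), (3, 12)], []⟩,
  ⟨1017, 90, 0, 240, 132, true, true, false, [(0, 1), (3, 12)], []⟩,
  ⟨1058, 90, 0, 240, 132, true, true, false, [(0, 1), (3, 12)], []⟩,
  ⟨1087, 90, 0, 240, 132, true, true, false, [(0, 1), (3, 12)], []⟩,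
  ⟨1116, 90, 0, 208, 109, true, true, false, [(0, 1), (3, 15)], []⟩,
  ⟨1157, 90, 0, 208, 109, true, true, false, [(0, 1), (3, 15)], []⟩,
  ⟨1198, 90, 0, 208, 109, true, true, false, [(0, 2), (3, 14)], []⟩,
  ⟨1239, 90, 0, 208, 109, true, true, false, [(0, 2), (3, 14)], []⟩,
  ⟨1280, 90, 0, 208, 109, true, true, false, [(0, 2), (3, 14)], []⟩,
  ⟨1321, 90, 0, 208, 109, true, true, false, [(0, 2), (3, 14)], []⟩,
  ⟨1362, 90, 0, 208, 109, true, true, false, [(0, 2), (3, 14)], []⟩,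
  ⟨1403, 90, 0, 208, 109, true, true, false, [(0, 2), (3, 14)], []⟩,
  ⟨1444, 90, 0, 208, 109, true, true, false, [(0, 3), (3, 13)], []⟩,
  ⟨1473, 90, 0, 208, 109, true, true, false, [(0, 4), (3, 12)], []⟩,
  ⟨1493, 90, 0, 208, 109, true, true, false, [(0, 4), (3, 12)], []⟩,
  ⟨1513, 90, 0, 208, 109, true, true, false, [(0, 6), (3, 10)], []⟩,
  ⟨1527, 90, 0, 208, 109, true, true, false, [(0, 8), (3, 8)], []⟩,
  ⟨1537, 90, 0, 208, 109, true, true, false, [(0, 12), (3, 4)], []⟩,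
  ⟨1552, 90, 0, 208, 109, true, true, false, [(0, 16)], []⟩,
  ⟨1574, 90, 0, 208, 109, true, true, false, [(0, 16)], []⟩,
  ⟨1605, 90, 0, 208, 109, true, true, false, [(0, 16)], []⟩,
  ⟨1650, 90, 0, 192, 98, true, true, false, [(0, 18)], []⟩,
  ⟨1779, 90, 0, 176, 88, true, true, false, [(0, 19)], []⟩,
  ⟨2035, 90, 0, 176, 88, true, true, false, [(0, 19)], []⟩,
  ⟨2743, 90, 0, 112, 52, true, true, false, [(0, 25)], []⟩,
  ⟨6365, 90, 0, 0, 0, true, false, false, [(0, 36)], []⟩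
  ] = true := by decide +kernel

def g70_18 : Gr := ⟨false, 375, 379, 1024, 1024, 70, 72, 8567, 8689, 0, 2048, 0, []⟩

theorem k70_18 : chk g70_18 T350 [
  ⟨355, 70, 700, 20, 300, false, false, false, [(0, 1), (3, 6), (18, 3), (8, 2), (9, 3), (10, 3), (11, 3), (12, 1), (3, 22)], []⟩,
  ⟨529, 70, 700, 88, 224, false, false, false, [(0, 1), (3, 17), (11, 3), (3, 15)], []⟩,
  ⟨650, 70, 490, 224, 120, false, true, false, [(0, 1), (3, 18)], []⟩,
  ⟨735, 70, 490, 224, 120, false, true, false, [(0, 1), (3, 18)], []⟩,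
  ⟨794, 70, 0, 240, 132, true, true, false, [(0, 1), (3, 16)], []⟩,
  ⟨853, 70, 0, 240, 132, true, true, false, [(0, 1), (3, 16)], []⟩,
  ⟨937, 70, 0, 240, 132, true, true, false, [(0, 1), (3, 16)], []⟩,
  ⟨1020, 70, 0, 240, 132, true, true, false, [(0, 1), (3, 16)], []⟩,
  ⟨1103, 70, 0, 224, 120, true, true, false, [(0, 1), (3, 18)], []⟩,
  ⟨1186, 70, 0, 224, 120, true, true, false, [(0, 1), (3, 18)], []⟩,
  ⟨1269, 70, 0, 224, 120, true, true, false, [(0, 2), (3, 17)], []⟩,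
  ⟨1327, 70, 0, 224, 120, true, true, false, [(0, 2), (3, 17)], []⟩,
  ⟨1368, 70, 0, 224, 120, true, true, false, [(0, 2), (3, 17)], []⟩,
  ⟨1409, 70, 0, 208, 109, true, true, false, [(0, 2), (3, 19)], []⟩,
  ⟨1437, 70, 0, 208, 109, true, true, false, [(0, 3), (3, 18)], []⟩,
  ⟨1465, 70, 0, 208, 109, true, true, false, [(0, 3), (3, 18)], []⟩,
  ⟨1493, 70, 0, 208, 109, true, true, false, [(0, 4), (3, 17)], []⟩,
  ⟨1513, 70, 0, 208, 109, true, true, false, [(0, 5), (3, 16)], []⟩,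
  ⟨1527, 70, 0, 208, 109, true, true, false, [(0, 6), (3, 15)], []⟩,
  ⟨1541, 70, 0, 208, 109, true, true, false, [(0, 8), (3, 13)], []⟩,
  ⟨1550, 70, 0, 208, 109, true, true, false, [(0, 12), (3, 9)], []⟩,
  ⟨1559, 70, 0, 208, 109, true, true, false, [(0, 18), (3, 3)], []⟩,
  ⟨1573, 70, 0, 208, 109, true, true, false, [(0, 21)], []⟩,
  ⟨1594, 70, 0, 208, 109, true, true, false, [(0, 21)], []⟩,
  ⟨1658, 70, 0, 192, 98, true, true, false, [(0, 23)], []⟩,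
  ⟨1785, 70, 0, 192, 98, true, true, false, [(0, 23)], []⟩,
  ⟨2038, 70, 0, 160, 78, true, true, false, [(0, 27)], []⟩,
  ⟨2736, 70, 0, 120, 56, true, true, false, [(0, 32)], []⟩,
  ⟨6432, 70, 0, 0, 0, true, false, false, [(0, 46)], []⟩
  ] = true := by decide +kernel

def g70_19 : Gr := ⟨false, 379, 384, 1024, 1024, 70, 72, 8567, 8689, 0, 2048, 0, []⟩

theorem k70_19 : chk g70_19 T350 [
  ⟨355, 50, 700, 20, 300, false, false, false, [(0, 1), (3, 8), (18, 5), (8, 3), (9, 4), (10, 4), (11, 4), (12, 2), (3, 31)], []⟩,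
  ⟨529, 50, 700, 72, 240, false, false, false, [(0, 1), (3, 24), (11, 4), (3, 24)], []⟩,
  ⟨650, 50, 650, 96, 208, false, false, false, [(0, 1), (3, 48)], []⟩,
  ⟨735, 50, 500, 208, 109, false, true, false, [(0, 1), (3, 29)], []⟩,
  ⟨794, 50, 500, 208, 109, false, true, false, [(0, 1), (3, 29)], []⟩,
  ⟨835, 50, 0, 240, 132, true, true, false, [(0, 1), (3, 24)], []⟩,
  ⟨876, 50, 0, 240, 132, true, true, false, [(0, 1), (3, 24)], []⟩,
  ⟨935, 50, 0, 240, 132, true, true, false, [(0, 1), (3, 24)], []⟩,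
  ⟨994, 50, 0, 240, 132, true, true, false, [(0, 1), (3, 24)], []⟩,
  ⟨1053, 50, 0, 240, 132, true, true, false, [(0, 1), (3, 24)], []⟩,
  ⟨1094, 50, 0, 240, 132, true, true, false, [(0, 1), (3, 24)], []⟩,
  ⟨1135, 50, 0, 240, 132, true, true, false, [(0, 1), (3, 24)], []⟩,
  ⟨1176, 50, 0, 208, 109, true, true, false, [(0, 2), (3, 28)], []⟩,
  ⟨1217, 50, 0, 208, 109, true, true, false, [(0, 2), (3, 28)], []⟩,
  ⟨1258, 50, 0, 208, 109, true, true, false, [(0, 2), (3, 28)], []⟩,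
  ⟨1299, 50, 0, 208, 109, true, true, false, [(0, 2), (3, 28)], []⟩,
  ⟨1340, 50, 0, 208, 109, true, true, false, [(0, 2), (3, 28)], []⟩,
  ⟨1381, 50, 0, 208, 109, true, true, false, [(0, 2), (3, 28)], []⟩,
  ⟨1422, 50, 0, 208, 109, true, true, false, [(0, 2), (3, 28)], []⟩,
  ⟨1463, 50, 0, 208, 109, true, true, false, [(0, 3), (3, 27)], []⟩,
  ⟨1492, 50, 0, 208, 109, true, true, false, [(0, 3), (3, 27)], []⟩,
  ⟨1521, 50, 0, 208, 109, true, true, false, [(0, 4), (3, 26)], []⟩,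
  ⟨1541, 50, 0, 208, 109, true, true, false, [(0, 6), (3, 24)], []⟩,
  ⟨1561, 50, 0, 208, 109, true, true, false, [(0, 9), (3, 21)], []⟩,
  ⟨1575, 50, 0, 208, 109, true, true, false, [(0, 20), (3, 10)], []⟩,
  ⟨1595, 50, 0, 208, 109, true, true, false, [(0, 30)], []⟩,
  ⟨1625, 50, 0, 208, 109, true, true, false, [(0, 30)], []⟩,
  ⟨1686, 50, 0, 192, 98, true, true, false, [(0, 33)], []⟩,
  ⟨1809, 50, 0, 192, 98, true, true, false, [(0, 33)], []⟩,
  ⟨2054, 50, 0, 160, 78, true, true, false, [(0, 39)], []⟩,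
  ⟨2731, 50, 0, 120, 56, true, true, false, [(0, 45)], []⟩,
  ⟨6384, 50, 0, 0, 0, true, false, false, [(0, 66)], []⟩,
  ⟨6517, 50, 0, 0, 0, true, false, false, [(0, 66)], []⟩
  ] = true := by decide +kernel

def g70_20 : Gr := ⟨false, 384, 388, 1024, 1024, 70, 72, 8567, 8689, 0, 2048, 0, []⟩

theorem k70_20 : chk g70_20 T375 [
  ⟨355, 90, 720, 28, 300, false, false, false, [(0, 1), (3, 4), (19, 3), (8, 1), (9, 2), (10, 3), (11, 2), (12, 3), (3, 15)], []⟩,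
  ⟨529, 90, 720, 72, 248, false, false, false, [(0, 1), (3, 13), (11, 2), (3, 1), (12, 2), (3, 11)], []⟩,
  ⟨650, 90, 630, 104, 208, false, false, false, [(0, 1), (3, 17), (12, 1), (3, 8)], []⟩,
  ⟨735, 90, 540, 208, 109, false, true, false, [(0, 1), (3, 16)], []⟩,
  ⟨794, 90, 540, 208, 109, false, true, false, [(0, 1), (3, 16)], []⟩,
  ⟨853, 90, 0, 240, 132, true, true, false, [(0, 1), (3, 13)], []⟩,
  ⟨912, 90, 0, 240, 132, true, true, false, [(0, 1), (3, 13)], []⟩,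
  ⟨971, 90, 0, 240, 132, true, true, false, [(0, 1), (3, 13)], []⟩,
  ⟨1030, 90, 0, 240, 132, true, true, false, [(0, 1), (3, 13)], []⟩,
  ⟨1089, 90, 0, 240, 132, true, true, false, [(0, 1), (3, 13)], []⟩,
  ⟨1148, 90, 0, 240, 132, true, true, false, [(0, 1), (3, 13)], []⟩,
  ⟨1189, 90, 0, 240, 132, true, true, false, [(0, 2), (3, 12)], []⟩,
  ⟨1230, 90, 0, 208, 109, true, true, false, [(0, 2), (3, 15)], []⟩,
  ⟨1271, 90, 0, 208, 109, true, true, false, [(0, 2), (3, 15)], []⟩,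
  ⟨1330, 90, 0, 208, 109, true, true, false, [(0, 2), (3, 15)], []⟩,
  ⟨1389, 90, 0, 208, 109, true, true, false, [(0, 2), (3, 15)], []⟩,
  ⟨1430, 90, 0, 208, 109, true, true, false, [(0, 2), (3, 15)], []⟩,
  ⟨1471, 90, 0, 208, 109, true, true, false, [(0, 3), (3, 14)], []⟩,
  ⟨1512, 90, 0, 208, 109, true, true, false, [(0, 3), (3, 14)], []⟩,
  ⟨1541, 90, 0, 208, 109, true, true, false, [(0, 4), (3, 13)], []⟩,
  ⟨1570, 90, 0, 208, 109, true, true, false, [(0, 6), (3, 11)], []⟩,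
  ⟨1590, 90, 0, 208, 109, true, true, false, [(0, 10), (3, 7)], []⟩,
  ⟨1619, 90, 0, 208, 109, true, true, false, [(0, 17)], []⟩,
  ⟨1661, 90, 0, 208, 109, true, true, false, [(0, 17)], []⟩,
  ⟨1721, 90, 0, 192, 98, true, true, false, [(0, 19)], []⟩,
  ⟨1890, 90, 0, 176, 88, true, true, false, [(0, 20)], []⟩,
  ⟨2225, 90, 0, 160, 78, true, true, false, [(0, 22)], []⟩,
  ⟨3521, 90, 0, 72, 32, true, true, false, [(0, 30)], []⟩,
  ⟨6585, 90, 0, 0, 0, true, false, false, [(0, 37)], []⟩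
  ] = true := by decide +kernel

end Pool.Agent.Lib.MP_af3a4a_an.P1.CHK.H81.L
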