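import Pool.Agent.Lib.MP_af3a4a_an.P1.CHK.H81.LT
/-!
# Data, `70 ≤ N ≤ 72`, `388 ≤ 1024 R ≤ 446` (helper81)
-/
set_option autoImplicit false

namespace Pool.Agent.Lib.MP_af3a4a_an.P1.CHK.H81.L

open Pool.Agent.Lib.MP_af3a4a_an.P1.CHK.H58.G (Gr En)

def g70_21 : Gr := ⟨false, 388, 391, 1024, 1024, 70, 72, 8567, 8689, 0, 2048, 0, []⟩

theorem k70_21 : chk g70_21 T375 [
  ⟨355, 120, 720, 24, 304, false, false, false, [(0, 1), (3, 3), (19, 2), (8, 1), (9, 1), (10, 2), (11, 2), (12, 2), (3, 12)], []⟩,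
  ⟨529, 120, 720, 80, 244, false, true, false, [(0, 1), (3, 9), (11, 2), (3, 1), (12, 1), (3, 8)], []⟩,
  ⟨650, 120, 720, 80, 232, false, false, false, [(0, 1), (3, 21)], []⟩,
  ⟨735, 120, 480, 208, 109, false, true, false, [(0, 1), (3, 12)], []⟩,
  ⟨794, 120, 480, 208, 109, false, true, false, [(0, 1), (3, 12)], []⟩,
  ⟨835, 120, 480, 208, 109, false, true, false, [(0, 1), (3, 12)], []⟩,
  ⟨864, 120, 480, 208, 109, false, true, false, [(0, 1), (3, 12)], []⟩,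
  ⟨893, 120, 0, 240, 132, true, true, false, [(0, 1), (3, 10)], []⟩,
  ⟨934, 120, 0, 240, 132, true, true, false, [(0, 1), (3, 10)], []⟩,
  ⟨975, 120, 0, 240, 132, true, true, false, [(0, 1), (3, 10)], []⟩,
  ⟨1016, 120, 0, 240, 132, true, true, false, [(0, 1), (3, 10)], []⟩,
  ⟨1057, 120, 0, 240, 132, true, true, false, [(0, 1), (3, 10)], []⟩,
  ⟨1098, 120, 0, 224, 120, true, true, false, [(0, 1), (3, 11)], []⟩,
  ⟨1157, 120, 0, 224, 120, true, true, false, [(0, 1), (3, 11)], []⟩,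
  ⟨1216, 120, 0, 224, 120, true, true, false, [(0, 2), (3, 10)], []⟩,
  ⟨1275, 120, 0, 224, 120, true, true, false, [(0, 2), (3, 10)], []⟩,
  ⟨1334, 120, 0, 224, 120, true, true, false, [(0, 2), (3, 10)], []⟩,
  ⟨1375, 120, 0, 224, 120, true, true, false, [(0, 2), (3, 10)], []⟩,
  ⟨1416, 120, 0, 208, 109, true, true, false, [(0, 2), (3, 11)], []⟩,
  ⟨1457, 120, 0, 208, 109, true, true, false, [(0, 2), (3, 11)], []⟩,
  ⟨1498, 120, 0, 208, 109, true, true, false, [(0, 3), (3, 10)], []⟩,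
  ⟨1527, 120, 0, 208, 109, true, true, false, [(0, 3), (3, 10)], []⟩,
  ⟨1556, 120, 0, 208, 109, true, true, false, [(0, 4), (3, 9)], []⟩,
  ⟨1585, 120, 0, 208, 109, true, true, false, [(0, 5), (3, 8)], []⟩,
  ⟨1605, 120, 0, 208, 109, true, true, false, [(0, 9), (3, 4)], []⟩,
  ⟨1634, 120, 0, 208, 109, true, true, false, [(0, 13)], []⟩,
  ⟨1676, 120, 0, 208, 109, true, true, false, [(0, 13)], []⟩,
  ⟨1736, 120, 0, 208, 109, true, true, false, [(0, 13)], []⟩,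
  ⟨1821, 120, 0, 192, 98, true, true, false, [(0, 15)], []⟩,
  ⟨2060, 120, 0, 176, 88, true, true, false, [(0, 16)], []⟩,
  ⟨2722, 120, 0, 128, 60, true, true, false, [(0, 19)], []⟩,
  ⟨6295, 120, 0, 0, 0, true, false, false, [(0, 28)], []⟩,
  ⟨6636, 120, 0, 0, 0, true, false, false, [(0, 28)], []⟩
  ] = true := by decide +kernel

def g70_22 : Gr := ⟨false, 391, 395, 1024, 1024, 70, 72, 8567, 8689, 0, 2048, 0, []⟩

theorem k70_22 : chk g70_22 T375 [
  ⟨355, 70, 700, 16, 312, false, false, false, [(0, 1), (3, 6), (19, 3), (8, 2), (9, 3), (10, 3), (11, 3), (12, 3), (3, 22)], []⟩,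
  ⟨529, 70, 700, 88, 240, false, false, false, [(0, 1), (3, 17), (11, 3), (3, 2), (12, 1), (3, 14)], []⟩,
  ⟨650, 70, 700, 96, 220, false, true, false, [(0, 1), (3, 36)], []⟩,
  ⟨735, 70, 490, 240, 132, false, true, false, [(0, 1), (3, 18)], []⟩,
  ⟨794, 70, 0, 256, 145, true, true, false, [(0, 1), (3, 16)], []⟩,
  ⟨853, 70, 0, 240, 132, true, true, false, [(0, 1), (3, 18)], []⟩,
  ⟨912, 70, 0, 240, 132, true, true, false, [(0, 1), (3, 18)], []⟩,
  ⟨996, 70, 0, 240, 132, true, true, false, [(0, 1), (3, 18)], []⟩,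
  ⟨1080, 70, 0, 240, 132, true, true, false, [(0, 1), (3, 18)], []⟩,
  ⟨1164, 70, 0, 240, 132, true, true, false, [(0, 1), (3, 18)], []⟩,
  ⟨1223, 70, 0, 240, 132, true, true, false, [(0, 2), (3, 17)], []⟩,
  ⟨1282, 70, 0, 224, 120, true, true, false, [(0, 2), (3, 19)], []⟩,
  ⟨1341, 70, 0, 224, 120, true, true, false, [(0, 2), (3, 19)], []⟩,
  ⟨1382, 70, 0, 224, 120, true, true, false, [(0, 2), (3, 19)], []⟩,
  ⟨1423, 70, 0, 224, 120, true, true, false, [(0, 2), (3, 19)], []⟩,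
  ⟨1452, 70, 0, 208, 109, true, true, false, [(0, 2), (3, 21)], []⟩,
  ⟨1481, 70, 0, 208, 109, true, true, false, [(0, 3), (3, 20)], []⟩,
  ⟨1510, 70, 0, 208, 109, true, true, false, [(0, 3), (3, 20)], []⟩,
  ⟨1539, 70, 0, 208, 109, true, true, false, [(0, 3), (3, 20)], []⟩,
  ⟨1559, 70, 0, 208, 109, true, true, false, [(0, 4), (3, 19)], []⟩,
  ⟨1579, 70, 0, 208, 109, true, true, false, [(0, 5), (3, 18)], []⟩,
  ⟨1593, 70, 0, 208, 109, true, true, false, [(0, 6), (3, 17)], []⟩,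
  ⟨1607, 70, 0, 208, 109, true, true, false, [(0, 9), (3, 14)], []⟩,
  ⟨1616, 70, 0, 208, 109, true, true, false, [(0, 13), (3, 10)], []⟩,
  ⟨1625, 70, 0, 208, 109, true, true, false, [(0, 19), (3, 4)], []⟩,
  ⟨1639, 70, 0, 208, 109, true, true, false, [(0, 23)], []⟩,
  ⟨1660, 70, 0, 208, 109, true, true, false, [(0, 23)], []⟩,
  ⟨1691, 70, 0, 208, 109, true, true, false, [(0, 23)], []⟩,
  ⟨1782, 70, 0, 192, 98, true, true, false, [(0, 25)], []⟩,
  ⟨1963, 70, 0, 176, 88, true, true, false, [(0, 27)], []⟩,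
  ⟨2464, 70, 0, 144, 69, true, true, false, [(0, 31)], []⟩,
  ⟨6257, 70, 0, 0, 0, true, false, true, [(0, 46)], [(0, 2)]⟩,
  ⟨6704, 70, 0, 0, 0, true, false, false, [(0, 48)], []⟩
  ] = true := by decide +kernel

def g70_23 : Gr := ⟨false, 395, 398, 1024, 1024, 70, 72, 8567, 8689, 0, 2048, 0, []⟩

theorem k70_23 : chk g70_23 T375 [
  ⟨355, 90, 720, 28, 308, false, false, false, [(0, 1), (3, 4), (19, 3), (8, 1), (9, 2), (10, 3), (11, 2), (12, 3), (3, 16)], []⟩,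
  ⟨603, 90, 720, 80, 240, false, false, false, [(0, 1), (3, 7), (6, 1), (3, 4), (10, 1), (11, 2), (12, 3), (3, 11)], []⟩,
  ⟨724, 90, 630, 112, 200, false, false, false, [(0, 1), (3, 26)], []⟩,
  ⟨809, 90, 540, 208, 109, false, true, false, [(0, 1), (3, 17)], []⟩,
  ⟨868, 90, 540, 208, 109, false, true, false, [(0, 1), (3, 17)], []⟩,
  ⟨927, 90, 0, 240, 132, true, true, false, [(0, 1), (3, 14)], []⟩,
  ⟨1011, 90, 0, 240, 132, true, true, false, [(0, 1), (3, 14)], []⟩,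
  ⟨1095, 90, 0, 240, 132, true, true, false, [(0, 1), (3, 14)], []⟩,
  ⟨1179, 90, 0, 240, 132, true, true, false, [(0, 1), (3, 14)], []⟩,
  ⟨1238, 90, 0, 240, 132, true, true, false, [(0, 2), (3, 13)], []⟩,
  ⟨1279, 90, 0, 240, 132, true, true, false, [(0, 2), (3, 13)], []⟩,
  ⟨1320, 90, 0, 208, 109, true, true, false, [(0, 2), (3, 16)], []⟩,
  ⟨1361, 90, 0, 208, 109, true, true, false, [(0, 2), (3, 16)], []⟩,
  ⟨1420, 90, 0, 208, 109, true, true, false, [(0, 2), (3, 16)], []⟩,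
  ⟨1479, 90, 0, 208, 109, true, true, false, [(0, 2), (3, 16)], []⟩,
  ⟨1520, 90, 0, 208, 109, true, true, false, [(0, 3), (3, 15)], []⟩,
  ⟨1561, 90, 0, 208, 109, true, true, false, [(0, 3), (3, 15)], []⟩,
  ⟨1602, 90, 0, 208, 109, true, true, false, [(0, 5), (3, 13)], []⟩,
  ⟨1630, 90, 0, 208, 109, true, true, false, [(0, 8), (3, 10)], []⟩,
  ⟨1658, 90, 0, 208, 109, true, true, false, [(0, 18)], []⟩,
  ⟨1717, 90, 0, 208, 109, true, true, false, [(0, 18)], []⟩,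
  ⟨1800, 90, 0, 192, 98, true, true, false, [(0, 20)], []⟩,
  ⟨2034, 90, 0, 176, 88, true, true, false, [(0, 21)], []⟩,
  ⟨2495, 90, 0, 144, 69, true, true, false, [(0, 24)], []⟩,
  ⟨5983, 90, 0, 6, 3, true, true, false, [(0, 37)], []⟩,
  ⟨6755, 90, 0, 0, 0, true, false, false, [(0, 38)], []⟩
  ] = true := by decide +kernel

def g70_24 : Gr := ⟨false, 398, 402, 1024, 1024, 70, 72, 8567, 8689, 0, 2048, 0, []⟩

theorem k70_24 : chk g70_24 T375 [
  ⟨355, 50, 700, 20, 316, false, false, false, [(0, 1), (3, 8), (19, 5), (8, 3), (9, 4), (10, 4), (11, 4), (12, 5), (3, 31)], []⟩,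
  ⟨603, 50, 700, 96, 232, false, false, false, [(0, 1), (3, 14), (6, 2), (3, 6), (10, 2), (11, 4), (12, 5), (3, 18)], []⟩,
  ⟨724, 50, 650, 96, 220, false, true, false, [(0, 1), (3, 51)], []⟩,
  ⟨809, 50, 550, 208, 109, false, true, false, [(0, 1), (3, 32)], []⟩,
  ⟨868, 50, 500, 208, 109, false, true, false, [(0, 1), (3, 32)], []⟩,
  ⟨927, 50, 0, 256, 145, true, true, false, [(0, 1), (3, 24)], []⟩,
  ⟨986, 50, 0, 240, 132, true, true, false, [(0, 1), (3, 27)], []⟩,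
  ⟨1045, 50, 0, 240, 132, true, true, false, [(0, 1), (3, 27)], []⟩,
  ⟨1104, 50, 0, 240, 132, true, true, false, [(0, 1), (3, 27)], []⟩,
  ⟨1163, 50, 0, 240, 132, true, true, false, [(0, 1), (3, 27)], []⟩,
  ⟨1222, 50, 0, 240, 132, true, true, false, [(0, 2), (3, 26)], []⟩,
  ⟨1281, 50, 0, 224, 120, true, true, false, [(0, 2), (3, 29)], []⟩,
  ⟨1340, 50, 0, 224, 120, true, true, false, [(0, 2), (3, 29)], []⟩,
  ⟨1399, 50, 0, 224, 120, true, true, false, [(0, 2), (3, 29)], []⟩,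
  ⟨1458, 50, 0, 208, 109, true, true, false, [(0, 2), (3, 31)], []⟩,
  ⟨1499, 50, 0, 208, 109, true, true, false, [(0, 3), (3, 30)], []⟩,
  ⟨1540, 50, 0, 208, 109, true, true, false, [(0, 3), (3, 30)], []⟩,
  ⟨1581, 50, 0, 208, 109, true, true, false, [(0, 4), (3, 29)], []⟩,
  ⟨1610, 50, 0, 208, 109, true, true, false, [(0, 5), (3, 28)], []⟩,
  ⟨1639, 50, 0, 208, 109, true, true, false, [(0, 8), (3, 25)], []⟩,
  ⟨1659, 50, 0, 208, 109, true, true, false, [(0, 24), (3, 9)], []⟩,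
  ⟨1701, 50, 0, 208, 109, true, true, false, [(0, 33)], []⟩,
  ⟨1761, 50, 0, 192, 98, true, true, false, [(0, 36)], []⟩,
  ⟨1931, 50, 0, 192, 98, true, true, false, [(0, 36)], []⟩,
  ⟨2267, 50, 0, 160, 78, true, true, false, [(0, 42)], []⟩,
  ⟨3566, 50, 0, 80, 36, true, true, false, [(0, 55)], []⟩,
  ⟨6823, 50, 0, 0, 0, true, false, false, [(0, 69)], []⟩
  ] = true := by decide +kernel

def g70_25 : Gr := ⟨false, 402, 408, 1024, 1024, 70, 72, 8567, 8689, 0, 2048, 0, []⟩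

theorem k70_25 : chk g70_25 T375 [
  ⟨498, 50, 550, 208, 149, false, true, false, [(0, 1), (3, 8), (19, 5), (8, 3), (9, 4), (10, 4), (11, 4), (12, 5)], []⟩,
  ⟨668, 50, 700, 96, 228, false, true, false, [(0, 1), (3, 27), (11, 1), (3, 4), (12, 1), (3, 19)], []⟩,
  ⟨751, 50, 650, 96, 220, false, true, false, [(0, 1), (3, 52)], []⟩,
  ⟨834, 50, 550, 208, 109, false, true, false, [(0, 1), (3, 33)], []⟩,
  ⟨892, 50, 550, 208, 109, false, true, false, [(0, 1), (3, 33)], []⟩,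
  ⟨950, 50, 0, 256, 145, true, true, false, [(0, 1), (3, 25)], []⟩,
  ⟨1008, 50, 0, 240, 132, true, true, false, [(0, 1), (3, 28)], []⟩,
  ⟨1066, 50, 0, 240, 132, true, true, false, [(0, 1), (3, 28)], []⟩,
  ⟨1124, 50, 0, 240, 132, true, true, false, [(0, 1), (3, 28)], []⟩,
  ⟨1182, 50, 0, 240, 132, true, true, false, [(0, 1), (3, 28)], []⟩,
  ⟨1240, 50, 0, 240, 132, true, true, false, [(0, 2), (3, 27)], []⟩,
  ⟨1281, 50, 0, 240, 132, true, true, false, [(0, 2), (3, 27)], []⟩,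
  ⟨1322, 50, 0, 224, 120, true, true, false, [(0, 2), (3, 30)], []⟩,
  ⟨1363, 50, 0, 224, 120, true, true, false, [(0, 2), (3, 30)], []⟩,
  ⟨1391, 50, 0, 208, 109, true, true, false, [(0, 2), (3, 32)], []⟩,
  ⟨1432, 50, 0, 208, 109, true, true, false, [(0, 2), (3, 32)], []⟩,
  ⟨1473, 50, 0, 208, 109, true, true, false, [(0, 2), (3, 32)], []⟩,
  ⟨1501, 50, 0, 208, 109, true, true, false, [(0, 3), (3, 31)], []⟩,
  ⟨1529, 50, 0, 208, 109, true, true, false, [(0, 3), (3, 31)], []⟩,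
  ⟨1557, 50, 0, 208, 109, true, true, false, [(0, 3), (3, 31)], []⟩,
  ⟨1585, 50, 0, 208, 109, true, true, false, [(0, 4), (3, 30)], []⟩,
  ⟨1605, 50, 0, 208, 109, true, true, false, [(0, 4), (3, 30)], []⟩,
  ⟨1625, 50, 0, 208, 109, true, true, false, [(0, 5), (3, 29)], []⟩,
  ⟨1639, 50, 0, 208, 109, true, true, false, [(0, 7), (3, 27)], []⟩,
  ⟨1653, 50, 0, 208, 109, true, true, false, [(0, 10), (3, 24)], []⟩,
  ⟨1662, 50, 0, 208, 109, true, true, false, [(0, 17), (3, 17)], []⟩,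
  ⟨1671, 50, 0, 208, 109, true, true, false, [(0, 27), (3, 7)], []⟩,
  ⟨1685, 50, 0, 208, 109, true, true, false, [(0, 34)], []⟩,
  ⟨1716, 50, 0, 208, 109, true, true, false, [(0, 34)], []⟩,
  ⟨1761, 50, 0, 208, 109, true, true, false, [(0, 34)], []⟩,
  ⟨1889, 50, 0, 192, 98, true, true, false, [(0, 37)], []⟩,
  ⟨2142, 50, 0, 176, 88, true, true, false, [(0, 40)], []⟩,
  ⟨2842, 50, 0, 120, 56, true, true, false, [(0, 49)], []⟩,
  ⟨6618, 50, 0, 0, 0, true, false, false, [(0, 70)], []⟩,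
  ⟨6925, 50, 0, 0, 0, true, false, false, [(0, 70)], []⟩
  ] = true := by decide +kernel

def g70_26 : Gr := ⟨false, 408, 410, 1024, 1024, 70, 72, 8567, 8689, 0, 2048, 0, []⟩

theorem k70_26 : chk g70_26 T375 [
  ⟨498, 70, 490, 240, 132, false, true, false, [(0, 1), (3, 6), (19, 3), (8, 2), (9, 3), (10, 3), (11, 3)], []⟩,
  ⟨668, 70, 700, 72, 256, false, false, false, [(0, 1), (3, 19), (11, 1), (3, 20)], []⟩,
  ⟨787, 70, 490, 240, 132, false, true, false, [(0, 1), (3, 20)], []⟩,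
  ⟨870, 70, 490, 240, 132, false, true, false, [(0, 1), (3, 20)], []⟩,
  ⟨953, 70, 0, 256, 145, true, true, false, [(0, 1), (3, 18)], []⟩,
  ⟨1036, 70, 0, 240, 132, true, true, false, [(0, 1), (3, 20)], []⟩,
  ⟨1119, 70, 0, 240, 132, true, true, false, [(0, 1), (3, 20)], []⟩,
  ⟨1202, 70, 0, 240, 132, true, true, false, [(0, 1), (3, 20)], []⟩,
  ⟨1285, 70, 0, 240, 132, true, true, false, [(0, 2), (3, 19)], []⟩,
  ⟨1343, 70, 0, 240, 132, true, true, false, [(0, 2), (3, 19)], []⟩,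
  ⟨1401, 70, 0, 224, 120, true, true, false, [(0, 2), (3, 21)], []⟩,
  ⟨1459, 70, 0, 224, 120, true, true, false, [(0, 2), (3, 21)], []⟩,
  ⟨1517, 70, 0, 224, 120, true, true, false, [(0, 2), (3, 21)], []⟩,
  ⟨1558, 70, 0, 224, 120, true, true, false, [(0, 3), (3, 20)], []⟩,
  ⟨1586, 70, 0, 208, 109, true, true, false, [(0, 3), (3, 22)], []⟩,
  ⟨1614, 70, 0, 208, 109, true, true, false, [(0, 4), (3, 21)], []⟩,
  ⟨1642, 70, 0, 208, 109, true, true, false, [(0, 5), (3, 20)], []⟩,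
  ⟨1662, 70, 0, 208, 109, true, true, false, [(0, 6), (3, 19)], []⟩,
  ⟨1682, 70, 0, 208, 109, true, true, false, [(0, 9), (3, 16)], []⟩,
  ⟨1702, 70, 0, 208, 109, true, true, false, [(0, 21), (3, 4)], []⟩,
  ⟨1743, 70, 0, 208, 109, true, true, false, [(0, 25)], []⟩,
  ⟨1802, 70, 0, 208, 109, true, true, false, [(0, 25)], []⟩,
  ⟨1969, 70, 0, 192, 98, true, true, false, [(0, 27)], []⟩,
  ⟨2300, 70, 0, 160, 78, true, true, false, [(0, 31)], []⟩,
  ⟨3579, 70, 0, 72, 32, true, true, false, [(0, 41)], []⟩,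
  ⟨6958, 70, 0, 0, 0, true, false, false, [(0, 50)], []⟩
  ] = true := by decide +kernel

def g70_27 : Gr := ⟨false, 409, 413, 1024, 1024, 70, 72, 8567, 8689, 0, 2048, 0, []⟩

theorem k70_27 : chk g70_27 T400 [
  ⟨498, 70, 560, 224, 136, false, true, false, [(0, 1), (3, 6), (22, 3), (10, 2), (11, 3), (12, 3), (13, 3), (14, 2)], []⟩,
  ⟨742, 70, 560, 224, 120, false, true, false, [(0, 1), (3, 10), (7, 1), (3, 4), (8, 2), (3, 1), (13, 2), (14, 2)], []⟩,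
  ⟨861, 70, 490, 224, 120, false, true, false, [(0, 1), (3, 22)], []⟩,
  ⟨944, 70, 490, 224, 120, false, true, false, [(0, 1), (3, 22)], []⟩,
  ⟨1027, 70, 0, 240, 132, true, true, false, [(0, 1), (3, 20)], []⟩,
  ⟨1110, 70, 0, 240, 132, true, true, false, [(0, 1), (3, 20)], []⟩,
  ⟨1193, 70, 0, 240, 132, true, true, false, [(0, 1), (3, 20)], []⟩,
  ⟨1276, 70, 0, 240, 132, true, true, false, [(0, 2), (3, 19)], []⟩,
  ⟨1359, 70, 0, 224, 120, true, true, false, [(0, 2), (3, 21)], []⟩,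
  ⟨1442, 70, 0, 224, 120, true, true, false, [(0, 2), (3, 21)], []⟩,
  ⟨1500, 70, 0, 224, 120, true, true, false, [(0, 2), (3, 21)], []⟩,
  ⟨1558, 70, 0, 224, 120, true, true, false, [(0, 3), (3, 20)], []⟩,
  ⟨1599, 70, 0, 208, 109, true, true, false, [(0, 3), (3, 22)], []⟩,
  ⟨1627, 70, 0, 208, 109, true, true, false, [(0, 4), (3, 21)], []⟩,
  ⟨1655, 70, 0, 208, 109, true, true, false, [(0, 5), (3, 20)], []⟩,
  ⟨1683, 70, 0, 208, 109, true, true, false, [(0, 8), (3, 17)], []⟩,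
  ⟨1703, 70, 0, 208, 109, true, true, false, [(0, 18), (3, 7)], []⟩,
  ⟨1744, 70, 0, 208, 109, true, true, false, [(0, 25)], []⟩,
  ⟨1803, 70, 0, 208, 109, true, true, false, [(0, 25)], []⟩,
  ⟨1970, 70, 0, 192, 98, true, true, false, [(0, 27)], []⟩,
  ⟨2301, 70, 0, 160, 78, true, true, false, [(0, 31)], []⟩,
  ⟨3213, 70, 0, 88, 40, true, true, false, [(0, 40)], []⟩,
  ⟨6727, 70, 0, 0, 0, true, false, false, [(0, 51)], []⟩,
  ⟨7009, 70, 0, 0, 0, true, false, false, [(0, 51)], []⟩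
  ] = true := by decide +kernel

def g70_28 : Gr := ⟨false, 413, 417, 1024, 1024, 70, 72, 8567, 8689, 0, 2048, 0, []⟩

theorem k70_28 : chk g70_28 T400 [
  ⟨498, 90, 540, 240, 132, false, true, false, [(0, 1), (3, 4), (22, 3), (10, 1), (11, 2), (12, 3), (13, 2), (14, 1)], []⟩,
  ⟨668, 90, 630, 144, 197, false, true, false, [(0, 1), (3, 15), (14, 3), (3, 7)], []⟩,
  ⟨787, 90, 630, 144, 181, false, true, false, [(0, 1), (3, 16), (14, 2), (3, 7)], []⟩,
  ⟨870, 90, 540, 208, 109, false, true, false, [(0, 1), (3, 17), (14, 1), (3, 1)], []⟩,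
  ⟨928, 90, 540, 208, 109, false, true, false, [(0, 1), (3, 19)], []⟩,
  ⟨986, 90, 0, 240, 132, true, true, false, [(0, 1), (3, 16)], []⟩,
  ⟨1044, 90, 0, 240, 132, true, true, false, [(0, 1), (3, 16)], []⟩,
  ⟨1102, 90, 0, 240, 132, true, true, false, [(0, 1), (3, 16)], []⟩,
  ⟨1185, 90, 0, 240, 132, true, true, false, [(0, 1), (3, 16)], []⟩,
  ⟨1268, 90, 0, 240, 132, true, true, false, [(0, 2), (3, 15)], []⟩,
  ⟨1326, 90, 0, 240, 132, true, true, false, [(0, 2), (3, 15)], []⟩,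
  ⟨1384, 90, 0, 240, 132, true, true, false, [(0, 2), (3, 15)], []⟩,
  ⟨1424, 90, 0, 240, 132, true, true, false, [(0, 2), (3, 15)], []⟩,
  ⟨1452, 90, 0, 208, 109, true, true, false, [(0, 2), (3, 18)], []⟩,
  ⟨1480, 90, 0, 208, 109, true, true, false, [(0, 2), (3, 18)], []⟩,
  ⟨1508, 90, 0, 208, 109, true, true, false, [(0, 2), (3, 18)], []⟩,
  ⟨1536, 90, 0, 208, 109, true, true, false, [(0, 3), (3, 17)], []⟩,
  ⟨1564, 90, 0, 208, 109, true, true, false, [(0, 3), (3, 17)], []⟩,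
  ⟨1592, 90, 0, 208, 109, true, true, false, [(0, 3), (3, 17)], []⟩,
  ⟨1611, 90, 0, 208, 109, true, true, false, [(0, 3), (3, 17)], []⟩,
  ⟨1630, 90, 0, 208, 109, true, true, false, [(0, 4), (3, 16)], []⟩,
  ⟨1649, 90, 0, 208, 109, true, true, false, [(0, 4), (3, 16)], []⟩,
  ⟨1662, 90, 0, 208, 109, true, true, false, [(0, 5), (3, 15)], []⟩,
  ⟨1675, 90, 0, 208, 109, true, true, false, [(0, 6), (3, 14)], []⟩,
  ⟨1688, 90, 0, 208, 109, true, true, false, [(0, 7), (3, 13)], []⟩,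
  ⟨1697, 90, 0, 208, 109, true, true, false, [(0, 9), (3, 11)], []⟩,
  ⟨1706, 90, 0, 208, 109, true, true, false, [(0, 12), (3, 8)], []⟩,
  ⟨1715, 90, 0, 208, 109, true, true, false, [(0, 16), (3, 4)], []⟩,
  ⟨1729, 90, 0, 208, 109, true, true, false, [(0, 20)], []⟩,
  ⟨1760, 90, 0, 208, 109, true, true, false, [(0, 20)], []⟩,
  ⟨1823, 90, 0, 208, 109, true, true, false, [(0, 20)], []⟩,
  ⟨1912, 90, 0, 192, 98, true, true, false, [(0, 22)], []⟩,
  ⟨2163, 90, 0, 176, 88, true, true, false, [(0, 23)], []⟩,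
  ⟨2856, 90, 0, 112, 52, true, true, false, [(0, 29)], []⟩,
  ⟨6595, 90, 0, 0, 0, true, false, false, [(0, 40)], []⟩,
  ⟨7077, 90, 0, 0, 0, true, false, false, [(0, 40)], []⟩
  ] = true := by decide +kernel

def g70_29 : Gr := ⟨false, 417, 421, 1024, 1024, 70, 72, 8567, 8689, 0, 2048, 0, []⟩

theorem k70_29 : chk g70_29 T400 [
  ⟨698, 70, 560, 224, 120, false, true, false, [(0, 1), (3, 6), (22, 3), (10, 2), (11, 3), (12, 3), (13, 3), (14, 3)], []⟩,
  ⟨865, 70, 560, 224, 120, false, true, false, [(0, 1), (3, 21), (14, 2)], []⟩,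
  ⟨947, 70, 490, 224, 120, false, true, false, [(0, 1), (3, 23)], []⟩,
  ⟨1029, 70, 0, 240, 132, true, true, false, [(0, 1), (3, 21)], []⟩,
  ⟨1111, 70, 0, 240, 132, true, true, false, [(0, 1), (3, 21)], []⟩,
  ⟨1193, 70, 0, 240, 132, true, true, false, [(0, 1), (3, 21)], []⟩,
  ⟨1275, 70, 0, 240, 132, true, true, false, [(0, 2), (3, 20)], []⟩,
  ⟨1357, 70, 0, 240, 132, true, true, false, [(0, 2), (3, 20)], []⟩,
  ⟨1439, 70, 0, 224, 120, true, true, false, [(0, 2), (3, 22)], []⟩,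
  ⟨1521, 70, 0, 224, 120, true, true, false, [(0, 2), (3, 22)], []⟩,
  ⟨1578, 70, 0, 224, 120, true, true, false, [(0, 3), (3, 21)], []⟩,
  ⟨1618, 70, 0, 224, 120, true, true, false, [(0, 3), (3, 21)], []⟩,
  ⟨1646, 70, 0, 224, 120, true, true, false, [(0, 4), (3, 20)], []⟩,
  ⟨1674, 70, 0, 208, 109, true, true, false, [(0, 5), (3, 21)], []⟩,
  ⟨1702, 70, 0, 208, 109, true, true, false, [(0, 6), (3, 20)], []⟩,
  ⟨1721, 70, 0, 208, 109, true, true, false, [(0, 11), (3, 15)], []⟩,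
  ⟨1740, 70, 0, 208, 109, true, true, false, [(0, 23), (3, 3)], []⟩,
  ⟨1781, 70, 0, 208, 109, true, true, false, [(0, 26)], []⟩,
  ⟨1863, 70, 0, 208, 109, true, true, false, [(0, 26)], []⟩,
  ⟨2027, 70, 0, 192, 98, true, true, false, [(0, 28)], []⟩,
  ⟨2483, 70, 0, 160, 78, true, true, false, [(0, 32)], []⟩,
  ⟨4244, 70, 0, 44, 19, true, true, false, [(0, 46)], []⟩,
  ⟨7145, 70, 0, 0, 0, true, false, false, [(0, 52)], []⟩
  ] = true := by decide +kernel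

def g70_30 : Gr := ⟨false, 421, 426, 1024, 1024, 70, 72, 8567, 8689, 0, 2048, 0, []⟩

theorem k70_30 : chk g70_30 T400 [
  ⟨498, 50, 550, 240, 132, false, true, false, [(0, 1), (3, 8), (22, 5), (10, 3), (11, 4), (12, 4), (13, 4), (14, 3)], []⟩,
  ⟨738, 50, 700, 104, 232, false, false, false, [(0, 1), (3, 14), (7, 2), (3, 7), (8, 1), (3, 2), (13, 2), (14, 5), (3, 21)], []⟩,
  ⟨855, 50, 650, 120, 200, false, false, false, [(0, 1), (3, 31), (14, 2), (3, 18)], []⟩,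
  ⟨937, 50, 550, 208, 109, false, true, false, [(0, 1), (3, 36)], []⟩,
  ⟨1019, 50, 0, 256, 145, true, true, false, [(0, 1), (3, 28)], []⟩,
  ⟨1101, 50, 0, 256, 145, true, true, false, [(0, 1), (3, 28)], []⟩,
  ⟨1183, 50, 0, 240, 132, true, true, false, [(0, 1), (3, 31)], []⟩,
  ⟨1265, 50, 0, 240, 132, true, true, false, [(0, 1), (3, 31)], []⟩,
  ⟨1347, 50, 0, 240, 132, true, true, false, [(0, 2), (3, 30)], []⟩,
  ⟨1404, 50, 0, 240, 132, true, true, false, [(0, 2), (3, 30)], []⟩,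
  ⟨1461, 50, 0, 224, 120, true, true, false, [(0, 2), (3, 33)], []⟩,
  ⟨1501, 50, 0, 224, 120, true, true, false, [(0, 2), (3, 33)], []⟩,
  ⟨1541, 50, 0, 208, 109, true, true, false, [(0, 2), (3, 35)], []⟩,
  ⟨1581, 50, 0, 208, 109, true, true, false, [(0, 3), (3, 34)], []⟩,
  ⟨1621, 50, 0, 208, 109, true, true, false, [(0, 3), (3, 34)], []⟩,
  ⟨1661, 50, 0, 208, 109, true, true, false, [(0, 4), (3, 33)], []⟩,
  ⟨1689, 50, 0, 208, 109, true, true, false, [(0, 5), (3, 32)], []⟩,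
  ⟨1717, 50, 0, 208, 109, true, true, false, [(0, 6), (3, 31)], []⟩,
  ⟨1745, 50, 0, 208, 109, true, true, false, [(0, 14), (3, 23)], []⟩,
  ⟨1773, 50, 0, 208, 109, true, true, false, [(0, 37)], []⟩,
  ⟨1830, 50, 0, 208, 109, true, true, false, [(0, 37)], []⟩,
  ⟨1945, 50, 0, 192, 98, true, true, false, [(0, 40)], []⟩,
  ⟨2174, 50, 0, 176, 88, true, true, false, [(0, 43)], []⟩,
  ⟨2807, 50, 0, 120, 56, true, true, false, [(0, 52)], []⟩,
  ⟨6223, 50, 0, 0, 0, true, false, false, [(0, 73)], []⟩,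
  ⟨7230, 50, 0, 0, 0, true, false, false, [(0, 73)], []⟩
  ] = true := by decide +kernel

def g70_31 : Gr := ⟨false, 426, 430, 1024, 1024, 70, 72, 8567, 8689, 0, 2048, 0, []⟩

theorem k70_31 : chk g70_31 T400 [
  ⟨498, 90, 540, 240, 140, false, true, false, [(0, 1), (3, 4), (22, 3), (10, 1), (11, 2), (12, 3), (13, 2), (14, 2)], []⟩,
  ⟨742, 90, 720, 112, 228, false, true, false, [(0, 1), (3, 12), (8, 1), (3, 1), (13, 1), (14, 3), (3, 11)], []⟩,
  ⟨861, 90, 630, 112, 216, false, false, false, [(0, 1), (3, 17), (14, 1), (3, 11)], []⟩,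
  ⟨944, 90, 540, 208, 117, false, true, false, [(0, 1), (3, 20)], []⟩,
  ⟨1002, 90, 0, 240, 132, true, true, false, [(0, 1), (3, 17)], []⟩,
  ⟨1060, 90, 0, 240, 132, true, true, false, [(0, 1), (3, 17)], []⟩,
  ⟨1143, 90, 0, 240, 132, true, true, false, [(0, 1), (3, 17)], []⟩,
  ⟨1226, 90, 0, 240, 132, true, true, false, [(0, 1), (3, 17)], []⟩,
  ⟨1309, 90, 0, 240, 132, true, true, false, [(0, 2), (3, 16)], []⟩,
  ⟨1392, 90, 0, 240, 132, true, true, false, [(0, 2), (3, 16)], []⟩,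
  ⟨1450, 90, 0, 240, 132, true, true, false, [(0, 2), (3, 16)], []⟩,
  ⟨1508, 90, 0, 240, 132, true, true, false, [(0, 2), (3, 16)], []⟩,
  ⟨1548, 90, 0, 208, 109, true, true, false, [(0, 2), (3, 19)], []⟩,
  ⟨1588, 90, 0, 208, 109, true, true, false, [(0, 3), (3, 18)], []⟩,
  ⟨1628, 90, 0, 208, 109, true, true, false, [(0, 3), (3, 18)], []⟩,
  ⟨1668, 90, 0, 208, 109, true, true, false, [(0, 3), (3, 18)], []⟩,
  ⟨1696, 90, 0, 208, 109, true, true, false, [(0, 4), (3, 17)], []⟩,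
  ⟨1724, 90, 0, 208, 109, true, true, false, [(0, 5), (3, 16)], []⟩,
  ⟨1752, 90, 0, 208, 109, true, true, false, [(0, 8), (3, 13)], []⟩,
  ⟨1771, 90, 0, 208, 109, true, true, false, [(0, 15), (3, 6)], []⟩,
  ⟨1812, 90, 0, 208, 109, true, true, false, [(0, 21)], []⟩,
  ⟨1895, 90, 0, 208, 109, true, true, false, [(0, 21)], []⟩,
  ⟨2061, 90, 0, 176, 88, true, true, false, [(0, 24)], []⟩,
  ⟨2522, 90, 0, 144, 69, true, true, false, [(0, 27)], []⟩,
  ⟨4300, 90, 0, 28, 12, true, true, false, [(0, 38)], []⟩,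
  ⟨7298, 90, 0, 0, 0, true, false, false, [(0, 41)], []⟩
  ] = true := by decide +kernel

def g70_32 : Gr := ⟨false, 430, 434, 1024, 1024, 70, 72, 8567, 8689, 0, 2048, 0, []⟩

theorem k70_32 : chk g70_32 T400 [
  ⟨498, 120, 600, 240, 140, false, true, false, [(0, 1), (3, 3), (22, 2), (10, 1), (11, 1), (12, 2), (13, 2), (14, 2)], []⟩,
  ⟨742, 120, 720, 96, 244, false, true, false, [(0, 1), (3, 5), (7, 1), (3, 4), (13, 1), (14, 2), (3, 10)], []⟩,
  ⟨861, 120, 720, 96, 232, false, false, false, [(0, 1), (3, 23)], []⟩,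
  ⟨944, 120, 600, 208, 117, false, true, false, [(0, 1), (3, 15)], []⟩,
  ⟨1002, 120, 480, 224, 120, false, true, false, [(0, 1), (3, 14)], []⟩,
  ⟨1060, 120, 0, 256, 145, true, true, false, [(0, 1), (3, 12)], []⟩,
  ⟨1118, 120, 0, 256, 145, true, true, false, [(0, 1), (3, 12)], []⟩,
  ⟨1176, 120, 0, 240, 132, true, true, false, [(0, 1), (3, 13)], []⟩,
  ⟨1234, 120, 0, 240, 132, true, true, false, [(0, 1), (3, 13)], []⟩,
  ⟨1292, 120, 0, 240, 132, true, true, false, [(0, 2), (3, 12)], []⟩,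
  ⟨1350, 120, 0, 240, 132, true, true, false, [(0, 2), (3, 12)], []⟩,
  ⟨1408, 120, 0, 240, 132, true, true, false, [(0, 2), (3, 12)], []⟩,
  ⟨1466, 120, 0, 224, 120, true, true, false, [(0, 2), (3, 13)], []⟩,
  ⟨1524, 120, 0, 224, 120, true, true, false, [(0, 2), (3, 13)], []⟩,
  ⟨1582, 120, 0, 224, 120, true, true, false, [(0, 2), (3, 13)], []⟩,
  ⟨1623, 120, 0, 224, 120, true, true, false, [(0, 3), (3, 12)], []⟩,
  ⟨1664, 120, 0, 224, 120, true, true, false, [(0, 3), (3, 12)], []⟩,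
  ⟨1692, 120, 0, 208, 109, true, true, false, [(0, 4), (3, 12)], []⟩,
  ⟨1720, 120, 0, 208, 109, true, true, false, [(0, 4), (3, 12)], []⟩,
  ⟨1748, 120, 0, 208, 109, true, true, false, [(0, 6), (3, 10)], []⟩,
  ⟨1768, 120, 0, 208, 109, true, true, false, [(0, 8), (3, 8)], []⟩,
  ⟨1788, 120, 0, 208, 109, true, true, false, [(0, 13), (3, 3)], []⟩,
  ⟨1829, 120, 0, 208, 109, true, true, false, [(0, 16)], []⟩,
  ⟨1913, 120, 0, 208, 109, true, true, false, [(0, 16)], []⟩,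
  ⟨2032, 120, 0, 208, 109, true, true, false, [(0, 16)], []⟩,
  ⟨2363, 120, 0, 160, 78, true, true, false, [(0, 20)], []⟩,
  ⟨3275, 120, 0, 96, 44, true, true, false, [(0, 24)], []⟩,
  ⟨6789, 120, 0, 0, 0, true, false, false, [(0, 31)], []⟩,
  ⟨7366, 120, 0, 0, 0, true, false, false, [(0, 31)], []⟩
  ] = true := by decide +kernel

def g70_33 : Gr := ⟨false, 434, 436, 1024, 1024, 70, 72, 8567, 8689, 0, 2048, 0, []⟩

theorem k70_33 : chk g70_33 T400 [
  ⟨498, 120, 600, 240, 148, false, true, false, [(0, 1), (3, 3), (22, 2), (10, 1), (11, 1), (12, 2), (13, 2), (14, 2)], []⟩,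
  ⟨742, 120, 720, 112, 232, false, false, false, [(0, 1), (3, 5), (7, 1), (3, 4), (13, 1), (14, 2), (3, 9)], []⟩,
  ⟨861, 120, 720, 112, 220, false, true, false, [(0, 1), (3, 22)], []⟩,
  ⟨944, 120, 480, 224, 120, false, true, false, [(0, 1), (3, 14)], []⟩,
  ⟨1027, 120, 480, 224, 120, false, true, false, [(0, 1), (3, 14)], []⟩,
  ⟨1085, 120, 0, 256, 145, true, true, false, [(0, 1), (3, 12)], []⟩,
  ⟨1168, 120, 0, 256, 145, true, true, false, [(0, 1), (3, 12)], []⟩,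
  ⟨1251, 120, 0, 240, 132, true, true, false, [(0, 1), (3, 13)], []⟩,
  ⟨1334, 120, 0, 240, 132, true, true, false, [(0, 2), (3, 12)], []⟩,
  ⟨1417, 120, 0, 240, 132, true, true, false, [(0, 2), (3, 12)], []⟩,
  ⟨1500, 120, 0, 224, 120, true, true, false, [(0, 2), (3, 13)], []⟩,
  ⟨1583, 120, 0, 224, 120, true, true, false, [(0, 2), (3, 13)], []⟩,
  ⟨1666, 120, 0, 224, 120, true, true, false, [(0, 3), (3, 12)], []⟩,
  ⟨1724, 120, 0, 224, 120, true, true, false, [(0, 4), (3, 11)], []⟩,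
  ⟨1764, 120, 0, 224, 120, true, true, false, [(0, 5), (3, 10)], []⟩,
  ⟨1792, 120, 0, 224, 120, true, true, false, [(0, 8), (3, 7)], []⟩,
  ⟨1811, 120, 0, 224, 120, true, true, false, [(0, 15)], []⟩,
  ⟨1830, 120, 0, 224, 120, true, true, false, [(0, 15)], []⟩,
  ⟨1849, 120, 0, 224, 120, true, true, false, [(0, 15)], []⟩,
  ⟨1877, 120, 0, 208, 109, true, true, false, [(0, 17)], []⟩,
  ⟨1936, 120, 0, 208, 109, true, true, false, [(0, 17)], []⟩,
  ⟨2102, 120, 0, 192, 98, true, true, false, [(0, 18)], []⟩,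
  ⟨2563, 120, 0, 144, 69, true, true, false, [(0, 21)], []⟩,
  ⟨5054, 120, 0, 28, 12, true, true, false, [(0, 29)], []⟩,
  ⟨7400, 120, 0, 0, 0, true, false, false, [(0, 31)], []⟩
  ] = true := by decide +kernel

def g70_34 : Gr := ⟨false, 435, 441, 1024, 1024, 70, 72, 8567, 8689, 0, 2048, 0, []⟩

theorem k70_34 : chk g70_34 T425 [
  ⟨698, 90, 540, 240, 132, false, true, false, [(0, 1), (3, 4), (23, 3), (10, 1), (11, 2), (12, 3), (13, 2), (14, 3)], []⟩,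
  ⟨865, 90, 540, 240, 132, false, true, false, [(0, 1), (3, 16), (14, 2)], []⟩,
  ⟨947, 90, 540, 208, 125, false, true, false, [(0, 1), (3, 21)], []⟩,
  ⟨1028, 90, 540, 208, 117, false, true, false, [(0, 1), (3, 21)], []⟩,
  ⟨1085, 90, 0, 240, 132, true, true, false, [(0, 1), (3, 18)], []⟩,
  ⟨1142, 90, 0, 240, 132, true, true, false, [(0, 1), (3, 18)], []⟩,
  ⟨1222, 90, 0, 240, 132, true, true, false, [(0, 1), (3, 18)], []⟩,
  ⟨1302, 90, 0, 240, 132, true, true, false, [(0, 2), (3, 17)], []⟩,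
  ⟨1382, 90, 0, 240, 132, true, true, false, [(0, 2), (3, 17)], []⟩,
  ⟨1462, 90, 0, 240, 132, true, true, false, [(0, 2), (3, 17)], []⟩,
  ⟨1518, 90, 0, 240, 132, true, true, false, [(0, 2), (3, 17)], []⟩,
  ⟨1557, 90, 0, 240, 132, true, true, false, [(0, 2), (3, 17)], []⟩,
  ⟨1584, 90, 0, 224, 120, true, true, false, [(0, 2), (3, 19)], []⟩,
  ⟨1611, 90, 0, 208, 109, true, true, false, [(0, 3), (3, 19)], []⟩,
  ⟨1638, 90, 0, 208, 109, true, true, false, [(0, 3), (3, 19)], []⟩,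
  ⟨1665, 90, 0, 208, 109, true, true, false, [(0, 3), (3, 19)], []⟩,
  ⟨1692, 90, 0, 208, 109, true, true, false, [(0, 3), (3, 19)], []⟩,
  ⟨1719, 90, 0, 208, 109, true, true, false, [(0, 4), (3, 18)], []⟩,
  ⟨1738, 90, 0, 208, 109, true, true, false, [(0, 5), (3, 17)], []⟩,
  ⟨1757, 90, 0, 208, 109, true, true, false, [(0, 6), (3, 16)], []⟩,
  ⟨1776, 90, 0, 208, 109, true, true, false, [(0, 7), (3, 15)], []⟩,
  ⟨1789, 90, 0, 208, 109, true, true, false, [(0, 10), (3, 12)], []⟩,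
  ⟨1802, 90, 0, 208, 109, true, true, false, [(0, 14), (3, 8)], []⟩,
  ⟨1815, 90, 0, 208, 109, true, true, false, [(0, 22)], []⟩,
  ⟨1856, 90, 0, 208, 109, true, true, false, [(0, 22)], []⟩,
  ⟨1940, 90, 0, 208, 109, true, true, false, [(0, 22)], []⟩,
  ⟨2107, 90, 0, 176, 88, true, true, false, [(0, 25)], []⟩,
  ⟨2570, 90, 0, 160, 78, true, true, false, [(0, 27)], []⟩,
  ⟨4356, 90, 0, 28, 12, true, true, false, [(0, 39)], []⟩,
  ⟨7485, 90, 0, 0, 0, true, false, false, [(0, 42)], []⟩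
  ] = true := by decide +kernel

def g70_35 : Gr := ⟨false, 441, 446, 1024, 1024, 70, 72, 8567, 8689, 0, 2048, 0, []⟩

theorem k70_35 : chk g70_35 T425 [
  ⟨698, 90, 540, 224, 144, false, true, false, [(0, 1), (3, 4), (23, 3), (10, 1), (11, 2), (12, 3), (13, 2), (14, 3), (15, 2)], []⟩,
  ⟨865, 90, 630, 128, 212, false, true, false, [(0, 1), (3, 17), (14, 1), (3, 1), (15, 1), (3, 9)], []⟩,
  ⟨982, 90, 630, 128, 200, false, false, false, [(0, 1), (3, 19), (15, 1), (3, 9)], []⟩,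
  ⟨1064, 90, 0, 256, 145, true, true, false, [(0, 1), (3, 17)], []⟩,
  ⟨1146, 90, 0, 256, 145, true, true, false, [(0, 1), (3, 17)], []⟩,
  ⟨1228, 90, 0, 256, 145, true, true, false, [(0, 1), (3, 17)], []⟩,
  ⟨1310, 90, 0, 256, 145, true, true, false, [(0, 2), (3, 16)], []⟩,
  ⟨1367, 90, 0, 224, 120, true, true, false, [(0, 2), (3, 19)], []⟩,
  ⟨1424, 90, 0, 224, 120, true, true, false, [(0, 2), (3, 19)], []⟩,
  ⟨1505, 90, 0, 224, 120, true, true, false, [(0, 2), (3, 19)], []⟩,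
  ⟨1586, 90, 0, 224, 120, true, true, false, [(0, 2), (3, 19)], []⟩,
  ⟨1643, 90, 0, 224, 120, true, true, false, [(0, 3), (3, 18)], []⟩,
  ⟨1700, 90, 0, 224, 120, true, true, false, [(0, 3), (3, 18)], []⟩,
  ⟨1739, 90, 0, 224, 120, true, true, false, [(0, 4), (3, 17)], []⟩,
  ⟨1778, 90, 0, 224, 120, true, true, false, [(0, 5), (3, 16)], []⟩,
  ⟨1797, 90, 0, 224, 120, true, true, false, [(0, 7), (3, 14)], []⟩,
  ⟨1816, 90, 0, 224, 120, true, true, false, [(0, 10), (3, 11)], []⟩,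
  ⟨1825, 90, 0, 224, 120, true, true, false, [(0, 15), (3, 6)], []⟩,
  ⟨1834, 90, 0, 224, 120, true, true, false, [(0, 20), (3, 1)], []⟩,
  ⟨1848, 90, 0, 224, 120, true, true, false, [(0, 21)], []⟩,
  ⟨1862, 90, 0, 224, 120, true, true, false, [(0, 21)], []⟩,
  ⟨1892, 90, 0, 208, 109, true, true, false, [(0, 23)], []⟩,
  ⟨1980, 90, 0, 192, 98, true, true, false, [(0, 24)], []⟩,
  ⟨2227, 90, 0, 192, 98, true, true, false, [(0, 24)], []⟩,
  ⟨2910, 90, 0, 128, 60, true, true, false, [(0, 30)], []⟩,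
  ⟨6594, 90, 0, 0, 0, true, false, false, [(0, 43)], []⟩,
  ⟨7569, 90, 0, 0, 0, true, false, false, [(0, 43)], []⟩
  ] = true := by decide +kernel

end Pool.Agent.Lib.MP_af3a4a_an.P1.CHK.H81.L
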