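import Pool.Agent.Lib.MP_af3a4a_an.P1.CHK.H81.LT
/-!
# Data, `70 ≤ N ≤ 72`, `446 ≤ 1024 R ≤ 820` (helper81)
-/
set_option autoImplicit false

namespace Pool.Agent.Lib.MP_af3a4a_an.P1.CHK.H81.L

open Pool.Agent.Lib.MP_af3a4a_an.P1.CHK.H58.G (Gr En)

def g70_36 : Gr := ⟨false, 446, 450, 1024, 1024, 70, 72, 8567, 8689, 0, 2048, 0, []⟩

theorem k70_36 : chk g70_36 T425 [
  ⟨498, 120, 600, 224, 168, false, true, false, [(0, 1), (3, 3), (23, 2), (10, 1), (11, 1), (12, 2), (13, 2), (14, 2), (15, 2)], []⟩,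
  ⟨742, 120, 720, 112, 244, false, true, false, [(0, 1), (3, 5), (7, 1), (3, 5), (14, 2), (15, 2), (3, 8)], []⟩,
  ⟨912, 120, 720, 112, 228, false, true, false, [(0, 1), (3, 12), (14, 1), (3, 1), (15, 1), (3, 8)], []⟩,
  ⟨995, 120, 600, 112, 216, false, false, false, [(0, 1), (3, 23)], []⟩,
  ⟨1078, 120, 480, 224, 120, false, true, false, [(0, 1), (3, 15)], []⟩,
  ⟨1136, 120, 0, 256, 145, true, true, false, [(0, 1), (3, 13)], []⟩,
  ⟨1219, 120, 0, 256, 145, true, true, false, [(0, 1), (3, 13)], []⟩,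
  ⟨1302, 120, 0, 240, 132, true, true, false, [(0, 1), (3, 14)], []⟩,
  ⟨1385, 120, 0, 240, 132, true, true, false, [(0, 2), (3, 13)], []⟩,
  ⟨1468, 120, 0, 240, 132, true, true, false, [(0, 2), (3, 13)], []⟩,
  ⟨1551, 120, 0, 224, 120, true, true, false, [(0, 2), (3, 14)], []⟩,
  ⟨1634, 120, 0, 224, 120, true, true, false, [(0, 2), (3, 14)], []⟩,
  ⟨1692, 120, 0, 224, 120, true, true, false, [(0, 3), (3, 13)], []⟩,
  ⟨1750, 120, 0, 224, 120, true, true, false, [(0, 3), (3, 13)], []⟩,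
  ⟨1790, 120, 0, 224, 120, true, true, false, [(0, 4), (3, 12)], []⟩,
  ⟨1818, 120, 0, 224, 120, true, true, false, [(0, 6), (3, 10)], []⟩,
  ⟨1846, 120, 0, 224, 120, true, true, false, [(0, 10), (3, 6)], []⟩,
  ⟨1865, 120, 0, 224, 120, true, true, false, [(0, 16)], []⟩,
  ⟨1893, 120, 0, 224, 120, true, true, false, [(0, 16)], []⟩,
  ⟨1921, 120, 0, 224, 120, true, true, false, [(0, 16)], []⟩,
  ⟨1962, 120, 0, 208, 109, true, true, false, [(0, 18)], []⟩,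
  ⟨2080, 120, 0, 192, 98, true, true, false, [(0, 19)], []⟩,
  ⟨2408, 120, 0, 176, 88, true, true, false, [(0, 20)], []⟩,
  ⟨3314, 120, 0, 88, 40, true, true, false, [(0, 26)], []⟩,
  ⟨6802, 120, 0, 0, 0, true, false, false, [(0, 32)], []⟩,
  ⟨7637, 120, 0, 0, 0, true, false, false, [(0, 32)], []⟩
  ] = true := by decide +kernel

def g70_37 : Gr := ⟨false, 450, 456, 1024, 1024, 70, 72, 8567, 8689, 0, 2048, 0, []⟩

theorem k70_37 : chk g70_37 T425 [
  ⟨698, 90, 540, 256, 145, false, true, false, [(0, 1), (3, 4), (23, 3), (10, 1), (11, 2), (12, 3), (13, 2), (14, 3)], []⟩,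
  ⟨865, 90, 720, 96, 248, false, false, false, [(0, 1), (3, 17), (14, 1), (3, 1), (15, 1), (3, 13)], []⟩,
  ⟨982, 90, 540, 224, 120, false, true, false, [(0, 1), (3, 21)], []⟩,
  ⟨1064, 90, 540, 224, 120, false, true, false, [(0, 1), (3, 21)], []⟩,
  ⟨1146, 90, 0, 256, 145, true, true, false, [(0, 1), (3, 18)], []⟩,
  ⟨1228, 90, 0, 256, 145, true, true, false, [(0, 1), (3, 18)], []⟩,
  ⟨1310, 90, 0, 256, 145, true, true, false, [(0, 1), (3, 18)], []⟩,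
  ⟨1392, 90, 0, 256, 145, true, true, false, [(0, 2), (3, 17)], []⟩,
  ⟨1449, 90, 0, 224, 120, true, true, false, [(0, 2), (3, 20)], []⟩,
  ⟨1506, 90, 0, 224, 120, true, true, false, [(0, 2), (3, 20)], []⟩,
  ⟨1587, 90, 0, 224, 120, true, true, false, [(0, 2), (3, 20)], []⟩,
  ⟨1644, 90, 0, 224, 120, true, true, false, [(0, 2), (3, 20)], []⟩,
  ⟨1701, 90, 0, 224, 120, true, true, false, [(0, 3), (3, 19)], []⟩,
  ⟨1758, 90, 0, 224, 120, true, true, false, [(0, 3), (3, 19)], []⟩,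
  ⟨1797, 90, 0, 224, 120, true, true, false, [(0, 4), (3, 18)], []⟩,
  ⟨1824, 90, 0, 224, 120, true, true, false, [(0, 6), (3, 16)], []⟩,
  ⟨1843, 90, 0, 224, 120, true, true, false, [(0, 8), (3, 14)], []⟩,
  ⟨1856, 90, 0, 224, 120, true, true, false, [(0, 12), (3, 10)], []⟩,
  ⟨1869, 90, 0, 224, 120, true, true, false, [(0, 18), (3, 4)], []⟩,
  ⟨1882, 90, 0, 224, 120, true, true, false, [(0, 22)], []⟩,
  ⟨1902, 90, 0, 224, 120, true, true, false, [(0, 22)], []⟩,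
  ⟨1931, 90, 0, 208, 109, true, true, false, [(0, 24)], []⟩,
  ⟨2015, 90, 0, 192, 98, true, true, false, [(0, 25)], []⟩,
  ⟨2251, 90, 0, 192, 98, true, true, false, [(0, 25)], []⟩,
  ⟨2904, 90, 0, 128, 60, true, true, false, [(0, 31)], []⟩,
  ⟨6430, 90, 0, 0, 0, true, false, false, [(0, 43)], []⟩,
  ⟨7739, 90, 0, 0, 0, true, false, false, [(0, 43)], []⟩
  ] = true := by decide +kernel

def g70_38 : Gr := ⟨false, 456, 461, 1024, 1024, 70, 72, 8567, 8689, 0, 2048, 0, []⟩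

theorem k70_38 : chk g70_38 T425 [
  ⟨498, 120, 600, 240, 164, false, true, false, [(0, 1), (3, 3), (23, 2), (10, 1), (11, 1), (12, 2), (13, 2), (14, 2), (15, 2)], []⟩,
  ⟨742, 120, 720, 96, 264, false, false, false, [(0, 1), (3, 5), (7, 1), (3, 5), (14, 2), (15, 2), (3, 10)], []⟩,
  ⟨912, 120, 720, 96, 248, false, false, false, [(0, 1), (3, 14), (15, 1), (3, 10)], []⟩,
  ⟨1031, 120, 720, 96, 236, false, true, false, [(0, 1), (3, 25)], []⟩,
  ⟨1114, 120, 600, 208, 125, false, true, false, [(0, 1), (3, 17)], []⟩,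
  ⟨1155, 120, 600, 208, 117, false, true, false, [(0, 1), (3, 17)], []⟩,
  ⟨1196, 120, 0, 240, 132, true, true, false, [(0, 1), (3, 15)], []⟩,
  ⟨1254, 120, 0, 240, 132, true, true, false, [(0, 1), (3, 15)], []⟩,
  ⟨1312, 120, 0, 240, 132, true, true, false, [(0, 2), (3, 14)], []⟩,
  ⟨1370, 120, 0, 240, 132, true, true, false, [(0, 2), (3, 14)], []⟩,
  ⟨1452, 120, 0, 240, 132, true, true, false, [(0, 2), (3, 14)], []⟩,
  ⟨1534, 120, 0, 240, 132, true, true, false, [(0, 2), (3, 14)], []⟩,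
  ⟨1591, 120, 0, 240, 132, true, true, false, [(0, 2), (3, 14)], []⟩,
  ⟨1648, 120, 0, 224, 120, true, true, false, [(0, 2), (3, 15)], []⟩,
  ⟨1705, 120, 0, 224, 120, true, true, false, [(0, 3), (3, 14)], []⟩,
  ⟨1762, 120, 0, 224, 120, true, true, false, [(0, 3), (3, 14)], []⟩,
  ⟨1802, 120, 0, 224, 120, true, true, false, [(0, 4), (3, 13)], []⟩,
  ⟨1830, 120, 0, 224, 120, true, true, false, [(0, 5), (3, 12)], []⟩,
  ⟨1858, 120, 0, 224, 120, true, true, false, [(0, 6), (3, 11)], []⟩,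
  ⟨1877, 120, 0, 208, 109, true, true, false, [(0, 9), (3, 9)], []⟩,
  ⟨1896, 120, 0, 208, 109, true, true, false, [(0, 14), (3, 4)], []⟩,
  ⟨1937, 120, 0, 208, 109, true, true, false, [(0, 18)], []⟩,
  ⟨2054, 120, 0, 208, 109, true, true, false, [(0, 18)], []⟩,
  ⟨2220, 120, 0, 192, 98, true, true, false, [(0, 20)], []⟩,
  ⟨2679, 120, 0, 144, 69, true, true, false, [(0, 23)], []⟩,
  ⟨5163, 120, 0, 24, 11, true, true, false, [(0, 31)], []⟩,
  ⟨7824, 120, 0, 0, 0, true, false, false, [(0, 33)], []⟩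
  ] = true := by decide +kernel

def g70_39 : Gr := ⟨false, 460, 464, 1024, 1024, 70, 72, 8567, 8689, 0, 2048, 0, []⟩

theorem k70_39 : chk g70_39 T450 [
  ⟨698, 120, 600, 240, 148, false, true, false, [(0, 1), (3, 3), (25, 2), (11, 1), (12, 1), (13, 2), (14, 2), (15, 2), (16, 2)], []⟩,
  ⟨937, 120, 600, 240, 132, false, true, false, [(0, 1), (3, 5), (8, 1), (3, 2), (9, 1), (3, 3), (15, 1), (16, 2)], []⟩,
  ⟨1054, 120, 720, 112, 224, false, false, false, [(0, 1), (3, 14), (16, 1), (3, 9)], []⟩,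
  ⟨1136, 120, 600, 224, 120, false, true, false, [(0, 1), (3, 14), (16, 1), (3, 1)], []⟩,
  ⟨1218, 120, 0, 256, 145, true, true, false, [(0, 1), (3, 14)], []⟩,
  ⟨1300, 120, 0, 256, 145, true, true, false, [(0, 1), (3, 14)], []⟩,
  ⟨1382, 120, 0, 240, 132, true, true, false, [(0, 2), (3, 14)], []⟩,
  ⟨1464, 120, 0, 240, 132, true, true, false, [(0, 2), (3, 14)], []⟩,
  ⟨1546, 120, 0, 240, 132, true, true, false, [(0, 2), (3, 14)], []⟩,
  ⟨1628, 120, 0, 224, 120, true, true, false, [(0, 2), (3, 15)], []⟩,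
  ⟨1710, 120, 0, 224, 120, true, true, false, [(0, 3), (3, 14)], []⟩,
  ⟨1792, 120, 0, 224, 120, true, true, false, [(0, 3), (3, 14)], []⟩,
  ⟨1849, 120, 0, 224, 120, true, true, false, [(0, 4), (3, 13)], []⟩,
  ⟨1889, 120, 0, 224, 120, true, true, false, [(0, 7), (3, 10)], []⟩,
  ⟨1929, 120, 0, 224, 120, true, true, false, [(0, 17)], []⟩,
  ⟨1986, 120, 0, 224, 120, true, true, false, [(0, 17)], []⟩,
  ⟨2067, 120, 0, 208, 109, true, true, false, [(0, 19)], []⟩,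
  ⟨2294, 120, 0, 192, 98, true, true, false, [(0, 20)], []⟩,
  ⟨2922, 120, 0, 128, 60, true, true, false, [(0, 24)], []⟩,
  ⟨6313, 120, 0, 0, 0, true, false, false, [(0, 33)], []⟩,
  ⟨7875, 120, 0, 0, 0, true, false, false, [(0, 33)], []⟩
  ] = true := by decide +kernel

def g70_40 : Gr := ⟨false, 464, 470, 1024, 1024, 70, 72, 8567, 8689, 0, 2048, 0, []⟩

theorem k70_40 : chk g70_40 T450 [
  ⟨498, 90, 720, 36, 340, false, false, false, [(0, 1), (3, 4), (25, 3), (11, 1), (12, 2), (13, 3), (14, 2), (15, 3), (16, 2), (17, 2), (3, 18)], []⟩,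
  ⟨742, 90, 720, 104, 264, false, false, false, [(0, 1), (3, 7), (8, 1), (3, 4), (9, 1), (3, 2), (15, 3), (16, 2), (3, 1), (17, 1), (3, 12)], []⟩,
  ⟨912, 90, 630, 120, 232, false, false, false, [(0, 1), (3, 17), (10, 1), (16, 2), (3, 12)], []⟩,
  ⟨1031, 90, 630, 120, 224, false, false, false, [(0, 1), (3, 19), (16, 1), (3, 12)], []⟩,
  ⟨1114, 90, 630, 120, 216, false, false, false, [(0, 1), (3, 19), (16, 1), (3, 12)], []⟩,
  ⟨1172, 90, 630, 120, 208, false, false, false, [(0, 1), (3, 32)], []⟩,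
  ⟨1230, 90, 0, 256, 145, true, true, false, [(0, 1), (3, 20)], []⟩,
  ⟨1288, 90, 0, 256, 145, true, true, false, [(0, 1), (3, 20)], []⟩,
  ⟨1346, 90, 0, 240, 132, true, true, false, [(0, 2), (3, 20)], []⟩,
  ⟨1429, 90, 0, 240, 132, true, true, false, [(0, 2), (3, 20)], []⟩,
  ⟨1512, 90, 0, 240, 132, true, true, false, [(0, 2), (3, 20)], []⟩,
  ⟨1595, 90, 0, 240, 132, true, true, false, [(0, 2), (3, 20)], []⟩,
  ⟨1653, 90, 0, 240, 132, true, true, false, [(0, 2), (3, 20)], []⟩,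
  ⟨1711, 90, 0, 240, 132, true, true, false, [(0, 3), (3, 19)], []⟩,
  ⟨1751, 90, 0, 240, 132, true, true, false, [(0, 3), (3, 19)], []⟩,
  ⟨1779, 90, 0, 224, 120, true, true, false, [(0, 3), (3, 21)], []⟩,
  ⟨1807, 90, 0, 224, 120, true, true, false, [(0, 4), (3, 20)], []⟩,
  ⟨1835, 90, 0, 224, 120, true, true, false, [(0, 4), (3, 20)], []⟩,
  ⟨1854, 90, 0, 208, 109, true, true, false, [(0, 5), (3, 20)], []⟩,
  ⟨1873, 90, 0, 208, 109, true, true, false, [(0, 6), (3, 19)], []⟩,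
  ⟨1886, 90, 0, 208, 109, true, true, false, [(0, 7), (3, 18)], []⟩,
  ⟨1899, 90, 0, 208, 109, true, true, false, [(0, 9), (3, 16)], []⟩,
  ⟨1912, 90, 0, 208, 109, true, true, false, [(0, 12), (3, 13)], []⟩,
  ⟨1925, 90, 0, 208, 109, true, true, false, [(0, 18), (3, 7)], []⟩,
  ⟨1945, 90, 0, 208, 109, true, true, false, [(0, 25)], []⟩,
  ⟨2005, 90, 0, 208, 109, true, true, false, [(0, 25)], []⟩,
  ⟨2126, 90, 0, 208, 109, true, true, false, [(0, 25)], []⟩,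
  ⟨2463, 90, 0, 176, 88, true, true, false, [(0, 28)], []⟩,
  ⟨3393, 90, 0, 104, 48, true, true, false, [(0, 35)], []⟩,
  ⟨6975, 90, 0, 0, 0, true, false, false, [(0, 45)], []⟩,
  ⟨7977, 90, 0, 0, 0, true, false, false, [(0, 45)], []⟩
  ] = true := by decide +kernel

def g70_41 : Gr := ⟨false, 470, 478, 1024, 1024, 70, 72, 8567, 8689, 0, 2048, 0, []⟩

theorem k70_41 : chk g70_41 T450 [
  ⟨498, 120, 720, 28, 348, false, false, false, [(0, 1), (3, 3), (25, 2), (11, 1), (12, 1), (13, 2), (14, 2), (15, 2), (16, 2), (17, 1), (3, 15)], []⟩,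
  ⟨742, 120, 720, 88, 280, false, false, false, [(0, 1), (3, 5), (8, 1), (3, 5), (15, 2), (16, 2), (3, 12)], []⟩,
  ⟨912, 120, 720, 112, 248, false, false, false, [(0, 1), (3, 13), (16, 2), (3, 10)], []⟩,
  ⟨1031, 120, 720, 112, 236, false, true, false, [(0, 1), (3, 14), (16, 1), (3, 10)], []⟩,
  ⟨1114, 120, 600, 112, 224, false, false, false, [(0, 1), (3, 25)], []⟩,
  ⟨1197, 120, 600, 224, 120, false, true, false, [(0, 1), (3, 17)], []⟩,
  ⟨1238, 120, 0, 240, 132, true, true, false, [(0, 1), (3, 16)], []⟩,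
  ⟨1296, 120, 0, 240, 132, true, true, false, [(0, 1), (3, 16)], []⟩,
  ⟨1354, 120, 0, 240, 132, true, true, false, [(0, 2), (3, 15)], []⟩,
  ⟨1436, 120, 0, 240, 132, true, true, false, [(0, 2), (3, 15)], []⟩,
  ⟨1518, 120, 0, 240, 132, true, true, false, [(0, 2), (3, 15)], []⟩,
  ⟨1600, 120, 0, 240, 132, true, true, false, [(0, 2), (3, 15)], []⟩,
  ⟨1682, 120, 0, 240, 132, true, true, false, [(0, 2), (3, 15)], []⟩,
  ⟨1739, 120, 0, 224, 120, true, true, false, [(0, 3), (3, 15)], []⟩,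
  ⟨1796, 120, 0, 224, 120, true, true, false, [(0, 3), (3, 15)], []⟩,
  ⟨1853, 120, 0, 224, 120, true, true, false, [(0, 4), (3, 14)], []⟩,
  ⟨1893, 120, 0, 224, 120, true, true, false, [(0, 5), (3, 13)], []⟩,
  ⟨1921, 120, 0, 224, 120, true, true, false, [(0, 7), (3, 11)], []⟩,
  ⟨1949, 120, 0, 224, 120, true, true, false, [(0, 12), (3, 6)], []⟩,
  ⟨1977, 120, 0, 224, 120, true, true, false, [(0, 18)], []⟩,
  ⟨2017, 120, 0, 224, 120, true, true, false, [(0, 18)], []⟩,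
  ⟨2075, 120, 0, 224, 120, true, true, false, [(0, 18)], []⟩,
  ⟨2191, 120, 0, 192, 98, true, true, false, [(0, 21)], []⟩,
  ⟨2514, 120, 0, 160, 78, true, true, false, [(0, 23)], []⟩,
  ⟨3405, 120, 0, 88, 40, true, true, false, [(0, 28)], []⟩,
  ⟨6836, 120, 0, 0, 0, true, false, false, [(0, 34)], []⟩,
  ⟨8112, 120, 0, 0, 0, true, false, false, [(0, 34)], []⟩
  ] = true := by decide +kernel

def g70_42 : Gr := ⟨false, 478, 487, 1024, 1024, 70, 72, 8567, 8689, 0, 2048, 0, []⟩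

theorem k70_42 : chk g70_42 T450 [
  ⟨498, 90, 720, 32, 352, false, false, false, [(0, 1), (3, 4), (25, 3), (11, 1), (12, 2), (13, 3), (14, 2), (15, 3), (16, 2), (17, 2), (3, 20)], []⟩,
  ⟨846, 90, 720, 96, 272, false, false, false, [(0, 1), (3, 6), (8, 2), (3, 2), (9, 3), (3, 1), (14, 1), (15, 3), (16, 2), (17, 2), (3, 14)], []⟩,
  ⟨1016, 90, 630, 128, 228, false, true, false, [(0, 1), (3, 19), (16, 1), (3, 13)], []⟩,
  ⟨1135, 90, 630, 128, 216, false, false, false, [(0, 1), (3, 33)], []⟩,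
  ⟨1218, 90, 630, 128, 208, false, false, false, [(0, 1), (3, 33)], []⟩,
  ⟨1301, 90, 0, 256, 145, true, true, false, [(0, 1), (3, 21)], []⟩,
  ⟨1384, 90, 0, 256, 145, true, true, false, [(0, 2), (3, 20)], []⟩,
  ⟨1467, 90, 0, 256, 145, true, true, false, [(0, 2), (3, 20)], []⟩,
  ⟨1550, 90, 0, 256, 145, true, true, false, [(0, 2), (3, 20)], []⟩,
  ⟨1608, 90, 0, 240, 132, true, true, false, [(0, 2), (3, 22)], []⟩,
  ⟨1666, 90, 0, 224, 120, true, true, false, [(0, 2), (3, 23)], []⟩,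
  ⟨1724, 90, 0, 224, 120, true, true, false, [(0, 2), (3, 23)], []⟩,
  ⟨1782, 90, 0, 224, 120, true, true, false, [(0, 3), (3, 22)], []⟩,
  ⟨1840, 90, 0, 224, 120, true, true, false, [(0, 3), (3, 22)], []⟩,
  ⟨1898, 90, 0, 224, 120, true, true, false, [(0, 4), (3, 21)], []⟩,
  ⟨1939, 90, 0, 224, 120, true, true, false, [(0, 6), (3, 19)], []⟩,
  ⟨1967, 90, 0, 224, 120, true, true, false, [(0, 10), (3, 15)], []⟩,
  ⟨1995, 90, 0, 224, 120, true, true, false, [(0, 21), (3, 4)], []⟩,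
  ⟨2036, 90, 0, 224, 120, true, true, false, [(0, 25)], []⟩,
  ⟨2119, 90, 0, 208, 109, true, true, false, [(0, 27)], []⟩,
  ⟨2351, 90, 0, 192, 98, true, true, false, [(0, 28)], []⟩,
  ⟨2993, 90, 0, 128, 60, true, true, false, [(0, 34)], []⟩,
  ⟨6459, 90, 0, 0, 0, true, false, false, [(0, 46)], []⟩,
  ⟨8265, 90, 0, 0, 0, true, false, false, [(0, 46)], []⟩
  ] = true := by decide +kernel

def g70_43 : Gr := ⟨false, 486, 499, 1024, 1024, 70, 72, 8567, 8689, 0, 2048, 0, []⟩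

theorem k70_43 : chk g70_43 T475 [
  ⟨698, 90, 630, 256, 153, false, true, false, [(0, 1), (3, 4), (27, 3), (12, 1), (13, 2), (14, 3), (15, 2), (16, 3), (17, 2), (18, 2)], []⟩,
  ⟨937, 90, 720, 120, 248, false, false, false, [(0, 1), (3, 7), (8, 1), (3, 4), (9, 1), (3, 3), (10, 2), (17, 2), (18, 2), (3, 13)], []⟩,
  ⟨1104, 90, 630, 128, 228, false, true, false, [(0, 1), (3, 12), (9, 1), (3, 4), (10, 1), (3, 1), (17, 1), (18, 2), (3, 12)], []⟩,
  ⟨1221, 90, 630, 128, 216, false, false, false, [(0, 1), (3, 17), (10, 1), (3, 3), (18, 1), (3, 12)], []⟩,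
  ⟨1278, 90, 0, 256, 145, true, true, false, [(0, 1), (3, 22)], []⟩,
  ⟨1359, 90, 0, 256, 145, true, true, false, [(0, 2), (3, 21)], []⟩,
  ⟨1440, 90, 0, 256, 145, true, true, false, [(0, 2), (3, 21)], []⟩,
  ⟨1521, 90, 0, 256, 145, true, true, false, [(0, 2), (3, 21)], []⟩,
  ⟨1602, 90, 0, 256, 145, true, true, false, [(0, 2), (3, 21)], []⟩,
  ⟨1659, 90, 0, 224, 120, true, true, false, [(0, 2), (3, 24)], []⟩,
  ⟨1716, 90, 0, 224, 120, true, true, false, [(0, 2), (3, 24)], []⟩,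
  ⟨1773, 90, 0, 224, 120, true, true, false, [(0, 3), (3, 23)], []⟩,
  ⟨1830, 90, 0, 224, 120, true, true, false, [(0, 3), (3, 23)], []⟩,
  ⟨1887, 90, 0, 224, 120, true, true, false, [(0, 4), (3, 22)], []⟩,
  ⟨1926, 90, 0, 224, 120, true, true, false, [(0, 4), (3, 22)], []⟩,
  ⟨1965, 90, 0, 224, 120, true, true, false, [(0, 6), (3, 20)], []⟩,
  ⟨1992, 90, 0, 224, 120, true, true, false, [(0, 9), (3, 17)], []⟩,
  ⟨2011, 90, 0, 224, 120, true, true, false, [(0, 15), (3, 11)], []⟩,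
  ⟨2030, 90, 0, 224, 120, true, true, false, [(0, 26)], []⟩,
  ⟨2070, 90, 0, 224, 120, true, true, false, [(0, 26)], []⟩,
  ⟨2128, 90, 0, 208, 109, true, true, false, [(0, 28)], []⟩,
  ⟨2358, 90, 0, 192, 98, true, true, false, [(0, 29)], []⟩,
  ⟨2994, 90, 0, 128, 60, true, true, false, [(0, 35)], []⟩,
  ⟨6425, 90, 0, 0, 0, true, false, false, [(0, 48)], []⟩,
  ⟨8469, 90, 0, 0, 0, true, false, false, [(0, 48)], []⟩
  ] = true := by decide +kernel

def g70_44 : Gr := ⟨false, 499, 512, 1024, 1024, 70, 72, 8567, 8689, 0, 2048, 0, []⟩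

theorem k70_44 : chk g70_44 T475 [
  ⟨498, 70, 700, 28, 372, false, false, false, [(0, 1), (3, 6), (27, 3), (12, 2), (13, 3), (14, 3), (15, 3), (16, 3), (17, 3), (18, 3), (19, 3), (3, 26)], []⟩,
  ⟨846, 70, 700, 112, 276, false, true, false, [(0, 1), (3, 9), (8, 2), (3, 3), (9, 3), (3, 2), (15, 1), (16, 3), (17, 3), (18, 3), (3, 2), (19, 1), (3, 16)], []⟩,
  ⟨1090, 70, 700, 120, 248, false, false, false, [(0, 1), (3, 10), (8, 1), (3, 5), (9, 1), (3, 5), (10, 1), (3, 1), (17, 2), (18, 3), (3, 18)], []⟩,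
  ⟨1260, 70, 630, 128, 220, false, true, false, [(0, 1), (3, 28), (18, 1), (3, 17)], []⟩,
  ⟨1343, 70, 630, 128, 212, false, true, false, [(0, 1), (3, 46)], []⟩,
  ⟨1401, 70, 0, 240, 132, true, true, false, [(0, 2), (3, 31)], []⟩,
  ⟨1484, 70, 0, 240, 132, true, true, false, [(0, 2), (3, 31)], []⟩,
  ⟨1567, 70, 0, 240, 132, true, true, false, [(0, 2), (3, 31)], []⟩,
  ⟨1684, 70, 0, 240, 132, true, true, false, [(0, 2), (3, 31)], []⟩,
  ⟨1801, 70, 0, 240, 132, true, true, false, [(0, 2), (3, 31)], []⟩,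
  ⟨1883, 70, 0, 240, 132, true, true, false, [(0, 3), (3, 30)], []⟩,
  ⟨1965, 70, 0, 224, 120, true, true, false, [(0, 4), (3, 31)], []⟩,
  ⟨2022, 70, 0, 224, 120, true, true, false, [(0, 6), (3, 29)], []⟩,
  ⟨2062, 70, 0, 224, 120, true, true, false, [(0, 12), (3, 23)], []⟩,
  ⟨2119, 70, 0, 224, 120, true, true, false, [(0, 35)], []⟩,
  ⟨2280, 70, 0, 208, 109, true, true, false, [(0, 37)], []⟩,
  ⟨2727, 70, 0, 176, 88, true, true, false, [(0, 41)], []⟩,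
  ⟨3960, 70, 0, 60, 27, true, true, false, [(0, 55)], []⟩,
  ⟨7348, 70, 0, 0, 0, true, false, false, [(0, 63)], []⟩,
  ⟨8690, 70, 0, 0, 0, true, false, false, [(0, 63)], []⟩
  ] = true := by decide +kernel

def g70_45 : Gr := ⟨false, 512, 522, 1024, 1024, 70, 72, 8567, 8689, 0, 2048, 0, []⟩

theorem k70_45 : chk g70_45 T500 [
  ⟨698, 120, 720, 72, 328, false, false, false, [(0, 1), (3, 3), (28, 2), (13, 1), (14, 1), (15, 2), (16, 2), (17, 2), (18, 2), (19, 1), (20, 2), (21, 2), (3, 11)], []⟩,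
  ⟨1040, 120, 720, 112, 268, false, true, false, [(0, 1), (3, 5), (9, 1), (3, 2), (10, 1), (3, 2), (11, 2), (18, 2), (19, 1), (20, 2), (3, 10)], []⟩,
  ⟨1275, 120, 720, 112, 244, false, true, false, [(0, 1), (3, 5), (9, 1), (3, 6), (11, 1), (3, 1), (18, 1), (19, 1), (3, 1), (20, 1), (3, 10)], []⟩,
  ⟨1390, 120, 600, 128, 220, false, true, false, [(0, 1), (3, 27)], []⟩,
  ⟨1505, 120, 0, 256, 145, true, true, false, [(0, 2), (3, 17)], []⟩,
  ⟨1620, 120, 0, 256, 145, true, true, false, [(0, 2), (3, 17)], []⟩,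
  ⟨1735, 120, 0, 240, 132, true, true, false, [(0, 2), (3, 18)], []⟩,
  ⟨1850, 120, 0, 240, 132, true, true, false, [(0, 2), (3, 18)], []⟩,
  ⟨1965, 120, 0, 240, 132, true, true, false, [(0, 3), (3, 17)], []⟩,
  ⟨2045, 120, 0, 240, 132, true, true, false, [(0, 4), (3, 16)], []⟩,
  ⟨2101, 120, 0, 240, 132, true, true, false, [(0, 7), (3, 13)], []⟩,
  ⟨2128, 120, 0, 240, 132, true, true, false, [(0, 15), (3, 5)], []⟩,
  ⟨2167, 120, 0, 224, 120, true, true, false, [(0, 22)], []⟩,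
  ⟨2280, 120, 0, 208, 109, true, true, false, [(0, 23)], []⟩,
  ⟨2596, 120, 0, 176, 88, true, true, false, [(0, 25)], []⟩,
  ⟨3468, 120, 0, 112, 52, true, true, false, [(0, 29)], []⟩,
  ⟨6825, 120, 0, 0, 0, true, false, false, [(0, 37)], []⟩,
  ⟨8859, 120, 0, 0, 0, true, false, false, [(0, 37)], []⟩
  ] = true := by decide +kernel

def g70_46 : Gr := ⟨false, 522, 535, 1024, 1024, 70, 72, 8567, 8689, 0, 2010, 0, []⟩

theorem k70_46 : chk g70_46 T500 [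
  ⟨698, 120, 720, 72, 336, false, false, false, [(0, 1), (3, 3), (28, 2), (13, 1), (14, 1), (15, 2), (16, 2), (17, 2), (18, 2), (19, 1), (20, 2), (21, 2), (3, 12)], []⟩,
  ⟨1040, 120, 720, 112, 276, false, true, false, [(0, 1), (3, 5), (9, 1), (3, 2), (10, 1), (3, 2), (11, 2), (18, 2), (19, 1), (20, 2), (3, 11)], []⟩,
  ⟨1279, 120, 720, 112, 252, false, true, false, [(0, 1), (3, 5), (9, 1), (3, 6), (11, 1), (3, 2), (19, 1), (3, 1), (20, 1), (3, 11)], []⟩,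
  ⟨1444, 120, 600, 128, 224, false, false, false, [(0, 2), (3, 27)], []⟩,
  ⟨1559, 120, 0, 256, 145, true, true, false, [(0, 2), (3, 18)], []⟩,
  ⟨1674, 120, 0, 256, 145, true, true, false, [(0, 2), (3, 18)], []⟩,
  ⟨1789, 120, 0, 240, 132, true, true, false, [(0, 2), (3, 19)], []⟩,
  ⟨1904, 120, 0, 240, 132, true, true, false, [(0, 3), (3, 18)], []⟩,
  ⟨2019, 120, 0, 240, 132, true, true, false, [(0, 3), (3, 18)], []⟩,
  ⟨2100, 120, 0, 224, 120, true, true, false, [(0, 5), (3, 17)], []⟩,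
  ⟨2181, 120, 0, 224, 120, true, true, false, [(0, 10), (3, 12)], []⟩,
  ⟨2295, 120, 0, 224, 120, true, true, false, [(0, 22)], []⟩,
  ⟨2613, 120, 0, 192, 98, true, true, false, [(0, 25)], []⟩,
  ⟨3490, 120, 0, 112, 52, true, true, false, [(0, 30)], []⟩,
  ⟨6869, 120, 0, 0, 0, true, false, false, [(0, 38)], []⟩,
  ⟨8911, 120, 0, 0, 0, true, false, false, [(0, 38)], []⟩
  ] = true := by decide +kernel

def g70_47 : Gr := ⟨false, 535, 538, 1024, 1024, 70, 72, 8567, 8689, 0, 1961, 0, []⟩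

theorem k70_47 : chk g70_47 T500 [
  ⟨698, 120, 720, 128, 304, false, false, false, [(0, 1), (3, 3), (28, 2), (13, 1), (14, 1), (15, 2), (16, 2), (17, 2), (18, 2), (19, 1), (20, 2), (21, 2), (3, 8)], []⟩,
  ⟨1040, 120, 720, 128, 272, false, false, false, [(0, 1), (3, 5), (9, 1), (3, 2), (10, 1), (3, 2), (11, 2), (18, 2), (19, 1), (20, 2), (3, 10)], []⟩,
  ⟨1279, 120, 600, 128, 252, false, true, false, [(0, 1), (3, 12), (11, 1), (3, 2), (19, 1), (3, 1), (20, 1), (3, 10)], []⟩,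
  ⟨1518, 120, 600, 128, 224, false, false, false, [(0, 2), (3, 27)], []⟩,
  ⟨1753, 120, 0, 256, 145, true, true, false, [(0, 2), (3, 18)], []⟩,
  ⟨1918, 120, 0, 256, 145, true, true, false, [(0, 2), (3, 18)], []⟩,
  ⟨2083, 120, 0, 240, 132, true, true, false, [(0, 3), (3, 19)], []⟩,
  ⟨2198, 120, 0, 224, 120, true, true, false, [(0, 5), (3, 18)], []⟩,
  ⟨2360, 120, 0, 224, 120, true, true, false, [(0, 23)], []⟩,
  ⟨2810, 120, 0, 176, 88, true, true, false, [(0, 26)], []⟩,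
  ⟨4549, 120, 0, 60, 27, true, true, false, [(0, 34)], []⟩,
  ⟨7960, 120, 0, 0, 0, true, false, false, [(0, 39)], []⟩,
  ⟨8743, 120, 0, 0, 0, true, false, false, [(0, 39)], []⟩
  ] = true := by decide +kernel

def g70_48 : Gr := ⟨false, 537, 563, 1024, 1024, 70, 72, 8567, 8689, 0, 1954, 0, []⟩

theorem k70_48 : chk g70_48 T525 [
  ⟨698, 120, 720, 40, 368, false, false, false, [(0, 1), (3, 3), (29, 2), (13, 1), (14, 1), (15, 2), (16, 2), (17, 2), (18, 2), (19, 1), (20, 2), (21, 2), (3, 16)], []⟩,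
  ⟨1040, 120, 720, 112, 288, false, false, false, [(0, 1), (3, 4), (9, 2), (3, 1), (10, 2), (3, 1), (11, 3), (18, 2), (19, 1), (20, 2), (21, 2), (3, 11)], []⟩,
  ⟨1279, 120, 720, 112, 264, false, false, false, [(0, 1), (3, 5), (9, 1), (3, 2), (10, 1), (3, 3), (11, 1), (3, 2), (19, 1), (20, 2), (3, 1), (21, 1), (3, 11)], []⟩,
  ⟨1446, 120, 600, 128, 236, false, true, false, [(0, 2), (3, 11), (11, 1), (3, 4), (20, 1), (3, 1), (21, 1), (3, 10)], []⟩,
  ⟨1562, 120, 600, 144, 208, false, false, false, [(0, 2), (3, 16), (20, 1), (3, 11)], []⟩,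
  ⟨1643, 120, 0, 256, 145, true, true, false, [(0, 2), (3, 20)], []⟩,
  ⟨1724, 120, 0, 256, 145, true, true, false, [(0, 2), (3, 20)], []⟩,
  ⟨1805, 120, 0, 256, 145, true, true, false, [(0, 2), (3, 20)], []⟩,
  ⟨1886, 120, 0, 240, 132, true, true, false, [(0, 2), (3, 21)], []⟩,
  ⟨1967, 120, 0, 240, 132, true, true, false, [(0, 3), (3, 20)], []⟩,
  ⟨2048, 120, 0, 240, 132, true, true, false, [(0, 3), (3, 20)], []⟩,
  ⟨2104, 120, 0, 240, 132, true, true, false, [(0, 4), (3, 19)], []⟩,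
  ⟨2160, 120, 0, 224, 120, true, true, false, [(0, 5), (3, 19)], []⟩,
  ⟨2199, 120, 0, 224, 120, true, true, false, [(0, 9), (3, 15)], []⟩,
  ⟨2226, 120, 0, 224, 120, true, true, false, [(0, 15), (3, 9)], []⟩,
  ⟨2283, 120, 0, 224, 120, true, true, false, [(0, 24)], []⟩,
  ⟨2397, 120, 0, 224, 120, true, true, false, [(0, 24)], []⟩,
  ⟨2714, 120, 0, 192, 98, true, true, false, [(0, 27)], []⟩,
  ⟨3589, 120, 0, 112, 52, true, true, false, [(0, 32)], []⟩,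
  ⟨6960, 120, 0, 0, 0, true, false, false, [(0, 40)], []⟩,
  ⟨9116, 120, 0, 0, 0, true, false, false, [(0, 40)], []⟩
  ] = true := by decide +kernel

def g70_49 : Gr := ⟨false, 563, 589, 1024, 1024, 70, 72, 8567, 8689, 0, 1864, 0, []⟩

theorem k70_49 : chk g70_49 T550 [
  ⟨698, 120, 720, 40, 384, false, false, true, [(0, 1), (3, 3), (32, 2), (15, 1), (16, 1), (17, 2), (18, 2), (19, 2), (20, 2), (21, 1), (22, 2), (23, 2), (24, 2), (3, 13)], [(3, 3)]⟩,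
  ⟨1186, 120, 720, 112, 296, false, false, false, [(0, 1), (3, 4), (10, 2), (11, 3), (12, 4), (20, 2), (21, 1), (22, 2), (23, 2), (24, 2), (3, 11)], []⟩,
  ⟨1425, 120, 600, 128, 260, false, true, false, [(0, 1), (3, 5), (10, 1), (3, 2), (11, 1), (3, 3), (12, 1), (3, 2), (13, 1), (22, 2), (23, 2), (3, 1), (24, 1), (3, 10)], []⟩,
  ⟨1592, 120, 600, 144, 229, false, true, false, [(0, 2), (3, 11), (12, 1), (3, 4), (22, 1), (3, 1), (23, 1), (3, 11)], []⟩,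
  ⟨1759, 120, 0, 256, 145, true, true, true, [(0, 2), (3, 11), (12, 1), (3, 4), (22, 1), (3, 1), (23, 1)], [(3, 3)]⟩,
  ⟨1926, 120, 0, 224, 120, true, true, true, [(0, 2), (3, 18), (23, 1), (3, 1), (24, 1)], [(3, 3)]⟩,
  ⟨2043, 120, 0, 240, 132, true, true, false, [(0, 3), (3, 22)], []⟩,
  ⟨2160, 120, 0, 240, 132, true, true, false, [(0, 3), (3, 22)], []⟩,
  ⟨2277, 120, 0, 240, 132, true, true, false, [(0, 5), (3, 20)], []⟩,
  ⟨2334, 120, 0, 224, 120, true, true, false, [(0, 12), (3, 14)], []⟩,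
  ⟨2496, 120, 0, 224, 120, true, true, false, [(0, 26)], []⟩,
  ⟨2816, 120, 0, 192, 98, true, true, false, [(0, 29)], []⟩,
  ⟨4053, 120, 0, 96, 44, true, true, false, [(0, 35)], []⟩,
  ⟨7453, 120, 0, 0, 0, true, false, false, [(0, 42)], []⟩,
  ⟨9098, 120, 0, 0, 0, true, false, false, [(0, 42)], []⟩
  ] = true := by decide +kernel

def g70_50 : Gr := ⟨false, 588, 615, 1024, 1024, 70, 72, 8567, 8689, 0, 1785, 0, []⟩

theorem k70_50 : chk g70_50 T575 [
  ⟨698, 120, 600, 52, 396, false, false, true, [(0, 1), (3, 3), (33, 2), (15, 1), (16, 1), (17, 2), (18, 2), (19, 2), (20, 2), (21, 1), (22, 2), (23, 2), (24, 2), (25, 1), (3, 13)], [(3, 3)]⟩,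
  ⟨1186, 120, 720, 128, 304, false, false, false, [(0, 1), (3, 4), (10, 2), (11, 3), (12, 4), (20, 2), (21, 1), (22, 2), (23, 2), (24, 2), (25, 1), (3, 11)], []⟩,
  ⟨1528, 120, 600, 128, 268, false, true, false, [(0, 1), (3, 5), (10, 1), (3, 2), (11, 1), (3, 2), (12, 2), (3, 1), (13, 2), (22, 2), (23, 2), (24, 2), (3, 12)], []⟩,
  ⟨1767, 120, 0, 256, 145, true, true, true, [(0, 2), (3, 4), (4, 1), (3, 6), (12, 1), (3, 2), (13, 1), (3, 1), (22, 1), (23, 2), (24, 2)], [(3, 3)]⟩,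
  ⟨2006, 120, 0, 256, 145, true, true, true, [(0, 2), (3, 4), (4, 1), (3, 6), (12, 1), (3, 6), (23, 1), (24, 2)], [(3, 3)]⟩,
  ⟨2173, 120, 0, 240, 132, true, true, false, [(0, 3), (3, 3), (4, 1), (3, 6), (6, 1), (3, 6), (23, 1), (3, 1), (24, 1), (3, 4)], []⟩,
  ⟨2340, 120, 0, 240, 132, true, true, false, [(0, 4), (3, 2), (4, 1), (3, 6), (6, 1), (3, 8), (24, 1), (3, 4)], []⟩,
  ⟨2457, 120, 0, 240, 132, true, true, false, [(0, 10), (3, 3), (6, 1), (3, 8), (24, 1), (3, 4)], []⟩,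
  ⟨2783, 120, 0, 208, 109, true, true, false, [(0, 29)], []⟩,
  ⟨3683, 120, 0, 128, 60, true, true, false, [(0, 35)], []⟩,
  ⟨7148, 120, 0, 0, 0, true, false, false, [(0, 44)], []⟩,
  ⟨9097, 120, 0, 0, 0, true, false, false, [(0, 44)], []⟩
  ] = true := by decide +kernel

def g70_51 : Gr := ⟨false, 614, 640, 1024, 1024, 70, 72, 8567, 8689, 0, 1709, 0, []⟩

theorem k70_51 : chk g70_51 T600 [
  ⟨978, 120, 720, 104, 352, false, false, false, [(0, 1), (3, 3), (35, 2), (16, 1), (17, 1), (18, 2), (19, 2), (20, 2), (21, 2), (22, 1), (23, 2), (24, 2), (25, 2), (26, 1), (27, 2), (3, 12)], []⟩,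
  ⟨1663, 120, 600, 160, 248, false, false, false, [(0, 1), (3, 4), (11, 2), (3, 1), (12, 2), (13, 4), (14, 3), (23, 2), (24, 2), (25, 2), (26, 1), (27, 2), (3, 8)], []⟩,
  ⟨1998, 120, 0, 256, 145, true, true, true, [(0, 2), (3, 4), (4, 1), (3, 2), (5, 1), (3, 3), (13, 1), (3, 2), (14, 1), (3, 2), (24, 2), (25, 2), (26, 1)], [(3, 1), (27, 1), (3, 2)]⟩,
  ⟨2333, 120, 0, 240, 132, true, true, true, [(0, 3), (3, 3), (4, 1), (3, 6), (6, 1), (3, 2), (7, 1), (3, 3), (15, 1), (25, 2), (26, 1), (3, 1), (27, 1)], [(3, 3)]⟩,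
  ⟨2568, 120, 0, 224, 120, true, true, true, [(0, 6), (4, 1), (3, 6), (6, 1), (3, 2), (7, 1), (3, 3), (8, 1), (3, 1), (25, 1), (3, 2), (27, 1), (3, 1)], [(28, 1), (3, 1), (29, 1)]⟩,
  ⟨3031, 120, 0, 208, 109, true, true, false, [(0, 31)], []⟩,
  ⟨4306, 120, 0, 96, 44, true, true, false, [(0, 39)], []⟩,
  ⟨7808, 120, 0, 0, 0, true, false, false, [(0, 46)], []⟩,
  ⟨9064, 120, 0, 0, 0, true, false, false, [(0, 46)], []⟩
  ] = true := by decide +kernel

def g70_52 : Gr := ⟨false, 640, 666, 1024, 1024, 70, 72, 8567, 8689, 0, 1640, 0, []⟩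

theorem k70_52 : chk g70_52 T625 [
  ⟨978, 120, 600, 88, 384, false, false, true, [(0, 1), (3, 3), (36, 2), (16, 1), (17, 1), (18, 2), (19, 2), (20, 2), (21, 2), (22, 1), (23, 2), (24, 2), (25, 2), (26, 1), (27, 2), (28, 2), (3, 10)], [(3, 3)]⟩,
  ⟨1663, 120, 600, 144, 285, false, true, false, [(0, 1), (3, 4), (11, 2), (12, 3), (13, 4), (14, 3), (23, 2), (24, 2), (25, 2), (26, 1), (27, 2), (28, 2), (3, 9)], []⟩,
  ⟨2348, 120, 0, 256, 145, true, true, true, [(0, 2), (3, 4), (4, 1), (3, 2), (5, 1), (3, 2), (6, 1), (13, 1), (3, 1), (14, 2), (3, 1), (15, 3), (25, 2), (26, 1), (27, 2)], [(28, 2), (29, 1)]⟩,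
  ⟨2683, 120, 0, 224, 120, true, true, true, [(0, 6), (4, 1), (0, 2), (5, 1), (0, 2), (6, 2), (0, 1), (7, 2), (0, 1), (8, 3), (25, 2), (26, 1), (27, 2), (28, 2)], [(29, 2), (30, 2)]⟩,
  ⟨3154, 120, 0, 208, 109, true, true, false, [(0, 33)], []⟩,
  ⟨4450, 120, 0, 88, 40, true, true, false, [(0, 41)], []⟩,
  ⟨8013, 120, 0, 0, 0, true, false, false, [(0, 48)], []⟩,
  ⟨9051, 120, 0, 0, 0, true, false, false, [(0, 48)], []⟩
  ] = true := by decide +kernel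

def g70_53 : Gr := ⟨false, 665, 692, 1024, 1024, 70, 72, 8567, 8689, 0, 1578, 0, []⟩

theorem k70_53 : chk g70_53 T650 [
  ⟨1371, 120, 600, 272, 272, false, false, false, [(0, 1), (3, 3), (39, 2), (18, 1), (19, 1), (20, 2), (21, 2), (22, 2), (23, 2), (24, 1), (25, 2), (26, 2), (27, 2), (28, 1), (29, 2), (30, 2), (31, 2)], []⟩,
  ⟨2331, 120, 0, 240, 156, true, true, true, [(0, 2), (3, 3), (4, 1), (12, 1), (3, 1), (5, 1), (13, 1), (3, 1), (14, 3), (15, 3), (16, 4), (27, 2), (28, 1)], [(29, 2), (30, 2), (31, 2), (32, 2)]⟩,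
  ⟨3003, 120, 0, 240, 132, true, true, true, [(0, 6), (4, 1), (0, 2), (5, 1), (0, 2), (6, 2), (7, 3), (8, 4), (27, 2), (28, 1), (29, 2), (30, 2), (31, 1)], [(31, 1), (32, 2)]⟩,
  ⟨3944, 120, 0, 144, 69, true, true, false, [(0, 39)], []⟩,
  ⟨7569, 120, 0, 0, 0, true, false, false, [(0, 49)], []⟩,
  ⟨9049, 120, 0, 0, 0, true, false, false, [(0, 49)], []⟩
  ] = true := by decide +kernel

def g70_54 : Gr := ⟨false, 691, 717, 1024, 1024, 70, 72, 8567, 8689, 0, 1519, 0, []⟩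

theorem k70_54 : chk g70_54 T675 [
  ⟨1371, 120, 600, 144, 352, false, false, true, [(0, 1), (3, 3), (40, 2), (18, 1), (19, 1), (20, 2), (21, 2), (22, 2), (23, 2), (24, 1), (25, 2), (26, 2), (27, 2), (28, 1), (29, 2), (30, 2), (31, 2), (32, 2), (3, 6)], [(3, 3)]⟩,
  ⟨2331, 120, 0, 256, 161, true, true, true, [(0, 2), (3, 3), (4, 1), (12, 1), (3, 1), (13, 2), (14, 4), (15, 3), (16, 4), (27, 2), (28, 1), (29, 2)], [(30, 2), (31, 2), (32, 2), (33, 1)]⟩,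
  ⟨3291, 120, 0, 224, 120, true, true, true, [(0, 6), (4, 1), (0, 1), (5, 2), (0, 1), (6, 3), (7, 3), (8, 4), (27, 2), (17, 1), (29, 2), (30, 2), (31, 2), (32, 2)], [(33, 1), (34, 2)]⟩,
  ⟨4636, 120, 0, 96, 44, true, true, false, [(0, 44)], []⟩,
  ⟨8331, 120, 0, 0, 0, true, false, false, [(0, 51)], []⟩,
  ⟨9025, 120, 0, 0, 0, true, false, false, [(0, 51)], []⟩
  ] = true := by decide +kernel

def g70_55 : Gr := ⟨false, 716, 743, 1024, 1024, 70, 72, 8567, 8689, 0, 1466, 0, []⟩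

theorem k70_55 : chk g70_55 T700 [
  ⟨1371, 120, 600, 144, 368, false, false, true, [(0, 1), (3, 3), (41, 2), (18, 1), (19, 1), (20, 2), (21, 2), (22, 2), (23, 2), (24, 1), (25, 2), (26, 2), (27, 2), (28, 1), (29, 2), (30, 2), (31, 2), (32, 2), (33, 1), (3, 6)], [(3, 4)]⟩,
  ⟨2742, 120, 0, 224, 168, true, true, true, [(0, 2), (3, 3), (4, 1), (12, 1), (5, 1), (13, 2), (14, 4), (15, 3), (16, 4), (27, 2), (28, 1), (29, 2), (30, 2)], [(31, 2), (32, 2), (33, 1), (34, 2), (35, 2)]⟩,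
  ⟨3702, 120, 0, 192, 98, true, true, true, [(0, 9), (5, 1), (0, 2), (6, 2), (0, 2), (7, 1), (0, 2), (8, 2), (0, 1), (9, 2), (0, 1), (29, 1), (10, 1), (30, 1), (31, 2), (32, 2), (33, 1), (34, 2), (35, 1)], [(35, 1), (36, 2)]⟩,
  ⟨5586, 120, 0, 8, 44, true, true, false, [(0, 52)], []⟩,
  ⟨9026, 120, 0, 0, 0, true, false, false, [(0, 53)], []⟩
  ] = true := by decide +kernel

def g70_56 : Gr := ⟨false, 742, 768, 1024, 1024, 70, 72, 8567, 8689, 0, 1415, 0, []⟩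

theorem k70_56 : chk g70_56 T725 [
  ⟨1921, 120, 600, 288, 288, false, false, false, [(0, 1), (3, 3), (44, 2), (20, 1), (21, 1), (22, 2), (23, 2), (24, 2), (25, 2), (26, 1), (27, 2), (28, 2), (29, 2), (30, 1), (31, 2), (32, 2), (33, 2), (34, 2), (35, 1), (36, 1)], []⟩,
  ⟨3265, 120, 0, 192, 162, true, true, true, [(0, 4), (4, 3), (5, 3), (6, 4), (7, 2), (16, 1), (17, 4), (18, 3), (31, 2), (32, 2), (33, 2), (34, 2)], [(35, 1), (36, 2), (37, 2), (38, 2), (39, 2)]⟩,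
  ⟨4609, 120, 0, 120, 80, true, true, true, [(0, 43)], [(0, 3)]⟩,
  ⟨8303, 120, 0, 0, 0, true, false, false, [(0, 55)], []⟩,
  ⟨9006, 120, 0, 0, 0, true, false, false, [(0, 55)], []⟩
  ] = true := by decide +kernel

def g70_57 : Gr := ⟨false, 768, 794, 1024, 1024, 70, 72, 8567, 8689, 0, 1367, 0, []⟩

theorem k70_57 : chk g70_57 T750 [
  ⟨1921, 120, 600, 272, 272, false, false, false, [(2, 4), (45, 2), (20, 1), (21, 1), (22, 2), (23, 2), (24, 2), (25, 2), (26, 1), (27, 2), (28, 2), (29, 2), (30, 1), (31, 2), (32, 2), (33, 2), (34, 2), (35, 1), (36, 2), (37, 2)], []⟩,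
  ⟨3842, 120, 0, 208, 109, true, true, true, [(0, 4), (4, 3), (5, 3), (6, 4), (7, 2), (16, 1), (17, 4), (18, 3), (31, 2), (32, 2), (33, 2), (34, 2), (35, 1), (36, 2)], [(37, 2), (38, 2), (39, 2), (40, 1)]⟩,
  ⟨5763, 120, 0, 4, 82, true, true, true, [(0, 53)], [(0, 3)]⟩,
  ⟨8995, 120, 0, 0, 0, true, false, false, [(0, 57)], []⟩
  ] = true := by decide +kernel

def g70_58 : Gr := ⟨false, 793, 820, 1024, 1024, 70, 72, 8567, 8689, 0, 1324, 0, []⟩

theorem k70_58 : chk g70_58 T775 [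
  ⟨1921, 120, 600, 272, 280, false, false, true, [(2, 4), (45, 2), (20, 1), (21, 1), (22, 2), (23, 2), (24, 2), (25, 2), (26, 1), (27, 2), (28, 2), (29, 2), (30, 1), (31, 2), (32, 2), (33, 2), (34, 2), (35, 1), (36, 2)], [(37, 2), (38, 2)]⟩,
  ⟨3842, 120, 0, 208, 133, true, true, true, [(0, 4), (4, 3), (5, 3), (6, 4), (7, 2), (16, 1), (17, 4), (18, 3), (31, 2), (32, 2), (33, 2), (34, 2), (35, 1), (36, 2), (37, 2)], [(38, 2), (39, 2), (40, 1), (41, 2)]⟩,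
  ⟨5763, 120, 0, 16, 95, true, true, true, [(0, 54)], [(0, 3)]⟩,
  ⟨8997, 120, 0, 0, 0, true, false, true, [(0, 55)], [(0, 3)]⟩
  ] = true := by decide +kernel

end Pool.Agent.Lib.MP_af3a4a_an.P1.CHK.H81.L
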