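import Pool.Agent.Lib.MP_af3a4a_an.P1.CHK.H81.LT
/-!
# Data, `73 ≤ N ≤ 75`, `286 ≤ 1024 R ≤ 415` (helper81)
-/
set_option autoImplicit false

namespace Pool.Agent.Lib.MP_af3a4a_an.P1.CHK.H81.L

open Pool.Agent.Lib.MP_af3a4a_an.P1.CHK.H58.G (Gr En)

def g73_0 : Gr := ⟨false, 286, 296, 1024, 1024, 73, 75, 8749, 8869, 512, 3668, 0, []⟩

theorem k73_0 : chk g73_0 [] [
  ⟨1265, 70, 0, 176, 88, true, true, false, [(0, 15)], []⟩,
  ⟨1355, 70, 0, 176, 88, true, true, false, [(0, 15)], []⟩,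
  ⟨1606, 70, 0, 160, 78, true, true, false, [(0, 17)], []⟩,
  ⟨2301, 70, 0, 120, 56, true, true, false, [(0, 22)], []⟩,
  ⟨6052, 70, 0, 0, 0, true, false, false, [(0, 37)], []⟩,
  ⟨9184, 70, 0, 0, 0, true, false, false, [(0, 37)], []⟩
  ] = true := by decide +kernel

def g73_1 : Gr := ⟨false, 296, 302, 1024, 1024, 73, 75, 8749, 8869, 512, 3544, 0, []⟩

theorem k73_1 : chk g73_1 [] [
  ⟨1308, 120, 0, 192, 98, true, true, false, [(0, 8)], []⟩,
  ⟨1352, 120, 0, 192, 98, true, true, false, [(0, 8)], []⟩,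
  ⟨1442, 120, 0, 176, 88, true, true, false, [(0, 10)], []⟩,
  ⟨1693, 120, 0, 160, 78, true, true, false, [(0, 11)], []⟩,
  ⟨2388, 120, 0, 112, 52, true, true, false, [(0, 14)], []⟩,
  ⟨6139, 120, 0, 0, 0, true, false, false, [(0, 22)], []⟩,
  ⟨9053, 120, 0, 0, 0, true, false, false, [(0, 22)], []⟩
  ] = true := by decide +kernel

def g73_2 : Gr := ⟨false, 302, 308, 1024, 1024, 73, 75, 8749, 8869, 384, 3474, 0, []⟩

theorem k73_2 : chk g73_2 [] [
  ⟨998, 70, 0, 192, 98, true, true, false, [(0, 1), (3, 14)], []⟩,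
  ⟨1029, 70, 0, 192, 98, true, true, false, [(0, 2), (3, 13)], []⟩,
  ⟨1073, 70, 0, 192, 98, true, true, false, [(0, 2), (3, 13)], []⟩,
  ⟨1117, 70, 0, 192, 98, true, true, false, [(0, 2), (3, 13)], []⟩,
  ⟨1161, 70, 0, 192, 98, true, true, false, [(0, 2), (3, 13)], []⟩,
  ⟨1205, 70, 0, 192, 98, true, true, false, [(0, 3), (3, 12)], []⟩,
  ⟨1236, 70, 0, 192, 98, true, true, false, [(0, 3), (3, 12)], []⟩,
  ⟨1267, 70, 0, 192, 98, true, true, false, [(0, 5), (3, 10)], []⟩,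
  ⟨1298, 70, 0, 192, 98, true, true, false, [(0, 15)], []⟩,
  ⟨1362, 70, 0, 176, 88, true, true, false, [(0, 17)], []⟩,
  ⟨1489, 70, 0, 176, 88, true, true, false, [(0, 17)], []⟩,
  ⟨1844, 70, 0, 160, 78, true, true, false, [(0, 19)], []⟩,
  ⟨2823, 70, 0, 96, 44, true, true, false, [(0, 27)], []⟩,
  ⟨6591, 70, 0, 0, 0, true, false, false, [(0, 39)], []⟩,
  ⟨9051, 70, 0, 0, 0, true, false, false, [(0, 39)], []⟩
  ] = true := by decide +kernel

def g73_3 : Gr := ⟨false, 307, 315, 1024, 1024, 73, 75, 8749, 8869, 384, 3417, 0, []⟩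

theorem k73_3 : chk g73_3 T300 [
  ⟨1014, 120, 0, 192, 98, true, true, false, [(0, 1), (3, 8)], []⟩,
  ⟨1045, 120, 0, 192, 98, true, true, false, [(0, 2), (3, 7)], []⟩,
  ⟨1076, 120, 0, 192, 98, true, true, false, [(0, 2), (3, 7)], []⟩,
  ⟨1107, 120, 0, 192, 98, true, true, false, [(0, 2), (3, 7)], []⟩,
  ⟨1151, 120, 0, 192, 98, true, true, false, [(0, 2), (3, 7)], []⟩,
  ⟨1182, 120, 0, 192, 98, true, true, false, [(0, 2), (3, 7)], []⟩,
  ⟨1213, 120, 0, 192, 98, true, true, false, [(0, 3), (3, 6)], []⟩,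
  ⟨1244, 120, 0, 192, 98, true, true, false, [(0, 3), (3, 6)], []⟩,
  ⟨1275, 120, 0, 192, 98, true, true, false, [(0, 4), (3, 5)], []⟩,
  ⟨1297, 120, 0, 192, 98, true, true, false, [(0, 6), (3, 3)], []⟩,
  ⟨1328, 120, 0, 192, 98, true, true, false, [(0, 9)], []⟩,
  ⟨1373, 120, 0, 192, 98, true, true, false, [(0, 9)], []⟩,
  ⟨1437, 120, 0, 192, 98, true, true, false, [(0, 9)], []⟩,
  ⟨1528, 120, 0, 176, 88, true, true, false, [(0, 11)], []⟩,
  ⟨1783, 120, 0, 160, 78, true, true, false, [(0, 12)], []⟩,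
  ⟨2489, 120, 0, 112, 52, true, true, false, [(0, 15)], []⟩,
  ⟨6298, 120, 0, 0, 0, true, false, false, [(0, 23)], []⟩,
  ⟨9104, 120, 0, 0, 0, true, false, false, [(0, 23)], []⟩
  ] = true := by decide +kernel

def g73_4 : Gr := ⟨false, 315, 321, 1024, 1024, 73, 75, 8749, 8869, 256, 3330, 0, []⟩

theorem k73_4 : chk g73_4 T300 [
  ⟨703, 90, 0, 208, 109, true, true, false, [(0, 1), (3, 10)], []⟩,
  ⟨734, 90, 0, 208, 109, true, true, false, [(0, 1), (3, 10)], []⟩,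
  ⟨778, 90, 0, 208, 109, true, true, false, [(0, 1), (3, 10)], []⟩,
  ⟨822, 90, 0, 208, 109, true, true, false, [(0, 1), (3, 10)], []⟩,
  ⟨885, 90, 0, 208, 109, true, true, false, [(0, 1), (3, 10)], []⟩,
  ⟨948, 90, 0, 208, 109, true, true, false, [(0, 1), (3, 10)], []⟩,
  ⟨1011, 90, 0, 208, 109, true, true, false, [(0, 1), (3, 10)], []⟩,
  ⟨1074, 90, 0, 208, 109, true, true, false, [(0, 2), (3, 9)], []⟩,
  ⟨1118, 90, 0, 208, 109, true, true, false, [(0, 2), (3, 9)], []⟩,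
  ⟨1162, 90, 0, 208, 109, true, true, false, [(0, 2), (3, 9)], []⟩,
  ⟨1193, 90, 0, 208, 109, true, true, false, [(0, 2), (3, 9)], []⟩,
  ⟨1214, 90, 0, 208, 109, true, true, false, [(0, 2), (3, 9)], []⟩,
  ⟨1235, 90, 0, 176, 88, true, true, false, [(0, 3), (3, 11)], []⟩,
  ⟨1256, 90, 0, 176, 88, true, true, false, [(0, 3), (3, 11)], []⟩,
  ⟨1277, 90, 0, 176, 88, true, true, false, [(0, 3), (3, 11)], []⟩,
  ⟨1298, 90, 0, 176, 88, true, true, false, [(0, 4), (3, 10)], []⟩,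
  ⟨1319, 90, 0, 176, 88, true, true, false, [(0, 5), (3, 9)], []⟩,
  ⟨1340, 90, 0, 176, 88, true, true, false, [(0, 10), (3, 4)], []⟩,
  ⟨1404, 90, 0, 176, 88, true, true, false, [(0, 14)], []⟩,
  ⟨1585, 90, 0, 176, 88, true, true, false, [(0, 14)], []⟩,
  ⟨1942, 90, 0, 160, 78, true, true, false, [(0, 16)], []⟩,
  ⟨2927, 90, 0, 88, 40, true, true, false, [(0, 23)], []⟩,
  ⟨6721, 90, 0, 0, 0, true, false, false, [(0, 31)], []⟩,
  ⟨9042, 90, 0, 0, 0, true, false, false, [(0, 31)], []⟩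
  ] = true := by decide +kernel

def g73_5 : Gr := ⟨false, 321, 327, 1024, 1024, 73, 75, 8749, 8869, 256, 3268, 0, []⟩

theorem k73_5 : chk g73_5 T300 [
  ⟨716, 90, 0, 224, 120, true, true, false, [(0, 1), (3, 9)], []⟩,
  ⟨747, 90, 0, 224, 120, true, true, false, [(0, 1), (3, 9)], []⟩,
  ⟨778, 90, 0, 224, 120, true, true, false, [(0, 1), (3, 9)], []⟩,
  ⟨809, 90, 0, 224, 120, true, true, false, [(0, 1), (3, 9)], []⟩,
  ⟨840, 90, 0, 224, 120, true, true, false, [(0, 1), (3, 9)], []⟩,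
  ⟨871, 90, 0, 224, 120, true, true, false, [(0, 1), (3, 9)], []⟩,
  ⟨902, 90, 0, 192, 98, true, true, false, [(0, 1), (3, 12)], []⟩,
  ⟨933, 90, 0, 192, 98, true, true, false, [(0, 1), (3, 12)], []⟩,
  ⟨977, 90, 0, 192, 98, true, true, false, [(0, 1), (3, 12)], []⟩,
  ⟨1021, 90, 0, 192, 98, true, true, false, [(0, 1), (3, 12)], []⟩,
  ⟨1084, 90, 0, 192, 98, true, true, false, [(0, 1), (3, 12)], []⟩,
  ⟨1147, 90, 0, 192, 98, true, true, false, [(0, 2), (3, 11)], []⟩,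
  ⟨1210, 90, 0, 192, 98, true, true, false, [(0, 2), (3, 11)], []⟩,
  ⟨1273, 90, 0, 192, 98, true, true, false, [(0, 2), (3, 11)], []⟩,
  ⟨1336, 90, 0, 192, 98, true, true, false, [(0, 4), (3, 9)], []⟩,
  ⟨1399, 90, 0, 192, 98, true, true, false, [(0, 13)], []⟩,
  ⟨1489, 90, 0, 192, 98, true, true, false, [(0, 13)], []⟩,
  ⟨1668, 90, 0, 176, 88, true, true, false, [(0, 15)], []⟩,
  ⟨2022, 90, 0, 144, 69, true, true, false, [(0, 18)], []⟩,
  ⟨3390, 90, 0, 80, 36, true, true, false, [(0, 24)], []⟩,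
  ⟨7150, 90, 0, 0, 0, true, false, false, [(0, 32)], []⟩,
  ⟨9039, 90, 0, 0, 0, true, false, false, [(0, 32)], []⟩
  ] = true := by decide +kernel

def g73_6 : Gr := ⟨false, 327, 333, 1024, 1024, 73, 75, 8749, 8869, 256, 3208, 0, []⟩

theorem k73_6 : chk g73_6 T300 [
  ⟨729, 50, 0, 224, 120, true, true, false, [(0, 1), (3, 18)], []⟩,
  ⟨773, 50, 0, 224, 120, true, true, false, [(0, 1), (3, 18)], []⟩,
  ⟨817, 50, 0, 224, 120, true, true, false, [(0, 1), (3, 18)], []⟩,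
  ⟨861, 50, 0, 208, 109, true, true, false, [(0, 1), (3, 21)], []⟩,
  ⟨924, 50, 0, 208, 109, true, true, false, [(0, 1), (3, 21)], []⟩,
  ⟨987, 50, 0, 208, 109, true, true, false, [(0, 1), (3, 21)], []⟩,
  ⟨1050, 50, 0, 208, 109, true, true, false, [(0, 1), (3, 21)], []⟩,
  ⟨1113, 50, 0, 208, 109, true, true, false, [(0, 2), (3, 20)], []⟩,
  ⟨1176, 50, 0, 208, 109, true, true, false, [(0, 2), (3, 20)], []⟩,
  ⟨1220, 50, 0, 192, 98, true, true, false, [(0, 2), (3, 23)], []⟩,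
  ⟨1264, 50, 0, 192, 98, true, true, false, [(0, 2), (3, 23)], []⟩,
  ⟨1308, 50, 0, 192, 98, true, true, false, [(0, 3), (3, 22)], []⟩,
  ⟨1352, 50, 0, 192, 98, true, true, false, [(0, 4), (3, 21)], []⟩,
  ⟨1383, 50, 0, 192, 98, true, true, false, [(0, 7), (3, 18)], []⟩,
  ⟨1427, 50, 0, 192, 98, true, true, false, [(0, 25)], []⟩,
  ⟨1517, 50, 0, 192, 98, true, true, false, [(0, 25)], []⟩,
  ⟨1696, 50, 0, 160, 78, true, true, false, [(0, 30)], []⟩,
  ⟨2192, 50, 0, 144, 69, true, true, false, [(0, 33)], []⟩,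
  ⟨4871, 50, 0, 28, 12, true, true, false, [(0, 53)], []⟩,
  ⟨8623, 50, 0, 0, 0, true, false, false, [(0, 58)], []⟩,
  ⟨9036, 50, 0, 0, 0, true, false, false, [(0, 58)], []⟩
  ] = true := by decide +kernel

def g73_7 : Gr := ⟨false, 332, 336, 1024, 1024, 73, 75, 8749, 8869, 256, 3160, 0, []⟩

theorem k73_7 : chk g73_7 T325 [
  ⟨753, 90, 0, 224, 120, true, true, false, [(0, 1), (3, 10)], []⟩,
  ⟨816, 90, 0, 224, 120, true, true, false, [(0, 1), (3, 10)], []⟩,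
  ⟨879, 90, 0, 224, 120, true, true, false, [(0, 1), (3, 10)], []⟩,
  ⟨942, 90, 0, 224, 120, true, true, false, [(0, 1), (3, 10)], []⟩,
  ⟨986, 90, 0, 224, 120, true, true, false, [(0, 1), (3, 10)], []⟩,
  ⟨1030, 90, 0, 224, 120, true, true, false, [(0, 1), (3, 10)], []⟩,
  ⟨1074, 90, 0, 192, 98, true, true, false, [(0, 1), (3, 13)], []⟩,
  ⟨1137, 90, 0, 192, 98, true, true, false, [(0, 2), (3, 12)], []⟩,
  ⟨1200, 90, 0, 192, 98, true, true, false, [(0, 2), (3, 12)], []⟩,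
  ⟨1263, 90, 0, 192, 98, true, true, false, [(0, 2), (3, 12)], []⟩,
  ⟨1326, 90, 0, 192, 98, true, true, false, [(0, 3), (3, 11)], []⟩,
  ⟨1389, 90, 0, 192, 98, true, true, false, [(0, 4), (3, 10)], []⟩,
  ⟨1452, 90, 0, 192, 98, true, true, false, [(0, 14)], []⟩,
  ⟨1578, 90, 0, 192, 98, true, true, false, [(0, 14)], []⟩,
  ⟨1828, 90, 0, 160, 78, true, true, false, [(0, 17)], []⟩,
  ⟨2520, 90, 0, 120, 56, true, true, false, [(0, 21)], []⟩,
  ⟨6256, 90, 0, 0, 0, true, false, false, [(0, 33)], []⟩,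
  ⟨8981, 90, 0, 0, 0, true, false, false, [(0, 33)], []⟩
  ] = true := by decide +kernel

def g73_8 : Gr := ⟨false, 336, 342, 1024, 1024, 73, 75, 8749, 8869, 128, 3122, 0, []⟩

theorem k73_8 : chk g73_8 T325 [
  ⟨485, 50, 650, 72, 208, false, false, false, [(0, 1), (3, 24), (8, 1), (3, 21)], []⟩,
  ⟨547, 50, 650, 88, 192, false, false, false, [(0, 1), (3, 43)], []⟩,
  ⟨609, 50, 450, 192, 98, false, true, false, [(0, 1), (3, 25)], []⟩,
  ⟨652, 50, 450, 192, 98, false, true, false, [(0, 1), (3, 25)], []⟩,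
  ⟨682, 50, 450, 192, 98, false, true, false, [(0, 1), (3, 25)], []⟩,
  ⟨712, 50, 0, 224, 120, true, true, false, [(0, 1), (3, 20)], []⟩,
  ⟨742, 50, 0, 224, 120, true, true, false, [(0, 1), (3, 20)], []⟩,
  ⟨785, 50, 0, 224, 120, true, true, false, [(0, 1), (3, 20)], []⟩,
  ⟨828, 50, 0, 224, 120, true, true, false, [(0, 1), (3, 20)], []⟩,
  ⟨871, 50, 0, 224, 120, true, true, false, [(0, 1), (3, 20)], []⟩,
  ⟨914, 50, 0, 224, 120, true, true, false, [(0, 1), (3, 20)], []⟩,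
  ⟨957, 50, 0, 224, 120, true, true, false, [(0, 1), (3, 20)], []⟩,
  ⟨1000, 50, 0, 224, 120, true, true, false, [(0, 1), (3, 20)], []⟩,
  ⟨1043, 50, 0, 224, 120, true, true, false, [(0, 1), (3, 20)], []⟩,
  ⟨1073, 50, 0, 192, 98, true, true, false, [(0, 1), (3, 25)], []⟩,
  ⟨1117, 50, 0, 192, 98, true, true, false, [(0, 2), (3, 24)], []⟩,
  ⟨1161, 50, 0, 192, 98, true, true, false, [(0, 2), (3, 24)], []⟩,
  ⟨1205, 50, 0, 192, 98, true, true, false, [(0, 2), (3, 24)], []⟩,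
  ⟨1267, 50, 0, 192, 98, true, true, false, [(0, 2), (3, 24)], []⟩,
  ⟨1329, 50, 0, 192, 98, true, true, false, [(0, 3), (3, 23)], []⟩,
  ⟨1372, 50, 0, 192, 98, true, true, false, [(0, 3), (3, 23)], []⟩,
  ⟨1415, 50, 0, 192, 98, true, true, false, [(0, 6), (3, 20)], []⟩,
  ⟨1477, 50, 0, 192, 98, true, true, false, [(0, 26)], []⟩,
  ⟨1565, 50, 0, 192, 98, true, true, false, [(0, 26)], []⟩,
  ⟨1740, 50, 0, 176, 88, true, true, false, [(0, 29)], []⟩,
  ⟨2226, 50, 0, 144, 69, true, true, false, [(0, 35)], []⟩,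
  ⟨4102, 50, 0, 44, 19, true, true, false, [(0, 52)], []⟩,
  ⟨7783, 50, 0, 0, 0, true, false, false, [(0, 60)], []⟩,
  ⟨9031, 50, 0, 0, 0, true, false, false, [(0, 60)], []⟩
  ] = true := by decide +kernel

def g73_9 : Gr := ⟨false, 342, 347, 1024, 1024, 73, 75, 8749, 8869, 128, 2048, 0, []⟩

theorem k73_9 : chk g73_9 T325 [
  ⟨492, 90, 630, 88, 200, false, false, false, [(0, 1), (3, 24)], []⟩,
  ⟨581, 90, 630, 88, 192, false, false, false, [(0, 1), (3, 24)], []⟩,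
  ⟨643, 90, 450, 192, 98, false, true, false, [(0, 1), (3, 14)], []⟩,
  ⟨686, 90, 450, 192, 98, false, true, false, [(0, 1), (3, 14)], []⟩,
  ⟨729, 90, 0, 224, 120, true, true, false, [(0, 1), (3, 11)], []⟩,
  ⟨772, 90, 0, 224, 120, true, true, false, [(0, 1), (3, 11)], []⟩,
  ⟨834, 90, 0, 224, 120, true, true, false, [(0, 1), (3, 11)], []⟩,
  ⟨896, 90, 0, 224, 120, true, true, false, [(0, 1), (3, 11)], []⟩,
  ⟨958, 90, 0, 224, 120, true, true, false, [(0, 1), (3, 11)], []⟩,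
  ⟨1020, 90, 0, 224, 120, true, true, false, [(0, 1), (3, 11)], []⟩,
  ⟨1082, 90, 0, 224, 120, true, true, false, [(0, 1), (3, 11)], []⟩,
  ⟨1125, 90, 0, 224, 120, true, true, false, [(0, 2), (3, 10)], []⟩,
  ⟨1168, 90, 0, 192, 98, true, true, false, [(0, 2), (3, 13)], []⟩,
  ⟨1211, 90, 0, 192, 98, true, true, false, [(0, 2), (3, 13)], []⟩,
  ⟨1254, 90, 0, 192, 98, true, true, false, [(0, 2), (3, 13)], []⟩,
  ⟨1297, 90, 0, 192, 98, true, true, false, [(0, 2), (3, 13)], []⟩,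
  ⟨1340, 90, 0, 192, 98, true, true, false, [(0, 3), (3, 12)], []⟩,
  ⟨1383, 90, 0, 192, 98, true, true, false, [(0, 3), (3, 12)], []⟩,
  ⟨1426, 90, 0, 192, 98, true, true, false, [(0, 4), (3, 11)], []⟩,
  ⟨1469, 90, 0, 192, 98, true, true, false, [(0, 15)], []⟩,
  ⟨1556, 90, 0, 192, 98, true, true, false, [(0, 15)], []⟩,
  ⟨1680, 90, 0, 176, 88, true, true, false, [(0, 17)], []⟩,
  ⟨2025, 90, 0, 160, 78, true, true, false, [(0, 18)], []⟩,
  ⟨2976, 90, 0, 88, 40, true, true, false, [(0, 25)], []⟩,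
  ⟨6011, 90, 0, 0, 0, true, false, false, [(0, 34)], []⟩
  ] = true := by decide +kernel

def g73_10 : Gr := ⟨false, 347, 353, 1024, 1024, 73, 75, 8749, 8869, 128, 2048, 0, []⟩

theorem k73_10 : chk g73_10 T325 [
  ⟨497, 70, 630, 80, 212, false, true, false, [(0, 1), (3, 33)], []⟩,
  ⟨586, 70, 420, 224, 120, false, true, false, [(0, 1), (3, 15)], []⟩,
  ⟨648, 70, 420, 224, 120, false, true, false, [(0, 1), (3, 15)], []⟩,
  ⟨691, 70, 420, 224, 120, false, true, false, [(0, 1), (3, 15)], []⟩,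
  ⟨753, 70, 0, 224, 120, true, true, false, [(0, 1), (3, 15)], []⟩,
  ⟨815, 70, 0, 224, 120, true, true, false, [(0, 1), (3, 15)], []⟩,
  ⟨877, 70, 0, 224, 120, true, true, false, [(0, 1), (3, 15)], []⟩,
  ⟨965, 70, 0, 224, 120, true, true, false, [(0, 1), (3, 15)], []⟩,
  ⟨1053, 70, 0, 224, 120, true, true, false, [(0, 1), (3, 15)], []⟩,
  ⟨1114, 70, 0, 224, 120, true, true, false, [(0, 1), (3, 15)], []⟩,
  ⟨1175, 70, 0, 208, 109, true, true, false, [(0, 2), (3, 16)], []⟩,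
  ⟨1236, 70, 0, 208, 109, true, true, false, [(0, 2), (3, 16)], []⟩,
  ⟨1279, 70, 0, 208, 109, true, true, false, [(0, 2), (3, 16)], []⟩,
  ⟨1322, 70, 0, 208, 109, true, true, false, [(0, 2), (3, 16)], []⟩,
  ⟨1352, 70, 0, 208, 109, true, true, false, [(0, 3), (3, 15)], []⟩,
  ⟨1382, 70, 0, 192, 98, true, true, false, [(0, 3), (3, 17)], []⟩,
  ⟨1412, 70, 0, 192, 98, true, true, false, [(0, 4), (3, 16)], []⟩,
  ⟨1442, 70, 0, 192, 98, true, true, false, [(0, 5), (3, 15)], []⟩,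
  ⟨1472, 70, 0, 192, 98, true, true, false, [(0, 9), (3, 11)], []⟩,
  ⟨1515, 70, 0, 192, 98, true, true, false, [(0, 20)], []⟩,
  ⟨1602, 70, 0, 192, 98, true, true, false, [(0, 20)], []⟩,
  ⟨1775, 70, 0, 176, 88, true, true, false, [(0, 22)], []⟩,
  ⟨2256, 70, 0, 144, 69, true, true, false, [(0, 26)], []⟩,
  ⟨4113, 70, 0, 40, 18, true, true, false, [(0, 39)], []⟩,
  ⟨6115, 70, 0, 0, 0, true, false, false, [(0, 44)], []⟩
  ] = true := by decide +kernel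

def g73_11 : Gr := ⟨false, 353, 359, 1024, 1024, 73, 75, 8749, 8869, 0, 2048, 0, []⟩

theorem k73_11 : chk g73_11 T325 [
  ⟨355, 70, 700, 12, 286, false, true, false, [(0, 1), (3, 6), (15, 4), (6, 1), (7, 3), (8, 3), (9, 3), (3, 22)], []⟩,
  ⟨529, 70, 700, 80, 216, false, false, false, [(0, 1), (3, 16), (8, 1), (3, 17)], []⟩,
  ⟨613, 70, 630, 88, 200, false, false, false, [(0, 1), (3, 33)], []⟩,
  ⟨654, 70, 490, 208, 109, false, true, false, [(0, 1), (3, 18)], []⟩,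
  ⟨695, 70, 490, 208, 109, false, true, false, [(0, 1), (3, 18)], []⟩,
  ⟨724, 70, 490, 208, 109, false, true, false, [(0, 1), (3, 18)], []⟩,
  ⟨744, 70, 490, 208, 109, false, true, false, [(0, 1), (3, 18)], []⟩,
  ⟨758, 70, 490, 208, 109, false, true, false, [(0, 1), (3, 18)], []⟩,
  ⟨767, 70, 490, 208, 109, false, true, false, [(0, 1), (3, 18)], []⟩,
  ⟨776, 70, 0, 224, 120, true, true, false, [(0, 1), (3, 16)], []⟩,
  ⟨790, 70, 0, 224, 120, true, true, false, [(0, 1), (3, 16)], []⟩,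
  ⟨804, 70, 0, 224, 120, true, true, false, [(0, 1), (3, 16)], []⟩,
  ⟨825, 70, 0, 224, 120, true, true, false, [(0, 1), (3, 16)], []⟩,
  ⟨846, 70, 0, 224, 120, true, true, false, [(0, 1), (3, 16)], []⟩,
  ⟨877, 70, 0, 224, 120, true, true, false, [(0, 1), (3, 16)], []⟩,
  ⟨908, 70, 0, 224, 120, true, true, false, [(0, 1), (3, 16)], []⟩,
  ⟨939, 70, 0, 224, 120, true, true, false, [(0, 1), (3, 16)], []⟩,
  ⟨984, 70, 0, 224, 120, true, true, false, [(0, 1), (3, 16)], []⟩,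
  ⟨1029, 70, 0, 224, 120, true, true, false, [(0, 1), (3, 16)], []⟩,
  ⟨1074, 70, 0, 224, 120, true, true, false, [(0, 1), (3, 16)], []⟩,
  ⟨1119, 70, 0, 224, 120, true, true, false, [(0, 1), (3, 16)], []⟩,
  ⟨1164, 70, 0, 208, 109, true, true, false, [(0, 2), (3, 17)], []⟩,
  ⟨1209, 70, 0, 208, 109, true, true, false, [(0, 2), (3, 17)], []⟩,
  ⟨1254, 70, 0, 208, 109, true, true, false, [(0, 2), (3, 17)], []⟩,
  ⟨1299, 70, 0, 208, 109, true, true, false, [(0, 2), (3, 17)], []⟩,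
  ⟨1344, 70, 0, 208, 109, true, true, false, [(0, 2), (3, 17)], []⟩,
  ⟨1375, 70, 0, 208, 109, true, true, false, [(0, 3), (3, 16)], []⟩,
  ⟨1397, 70, 0, 208, 109, true, true, false, [(0, 3), (3, 16)], []⟩,
  ⟨1419, 70, 0, 208, 109, true, true, false, [(0, 3), (3, 16)], []⟩,
  ⟨1434, 70, 0, 208, 109, true, true, false, [(0, 4), (3, 15)], []⟩,
  ⟨1449, 70, 0, 192, 98, true, true, false, [(0, 4), (3, 17)], []⟩,
  ⟨1459, 70, 0, 192, 98, true, true, false, [(0, 5), (3, 16)], []⟩,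
  ⟨1469, 70, 0, 192, 98, true, true, false, [(0, 6), (3, 15)], []⟩,
  ⟨1479, 70, 0, 192, 98, true, true, false, [(0, 7), (3, 14)], []⟩,
  ⟨1489, 70, 0, 192, 98, true, true, false, [(0, 10), (3, 11)], []⟩,
  ⟨1499, 70, 0, 192, 98, true, true, false, [(0, 17), (3, 4)], []⟩,
  ⟨1522, 70, 0, 192, 98, true, true, false, [(0, 21)], []⟩,
  ⟨1570, 70, 0, 192, 98, true, true, false, [(0, 21)], []⟩,
  ⟨1668, 70, 0, 192, 98, true, true, false, [(0, 21)], []⟩,
  ⟨1862, 70, 0, 176, 88, true, true, false, [(0, 23)], []⟩,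
  ⟨2401, 70, 0, 128, 60, true, true, false, [(0, 29)], []⟩,
  ⟨5313, 70, 0, 4, 2, true, true, false, [(0, 44)], []⟩,
  ⟨6219, 70, 0, 0, 0, true, false, false, [(0, 45)], []⟩
  ] = true := by decide +kernel

def g73_12 : Gr := ⟨false, 358, 363, 1024, 1024, 73, 75, 8749, 8869, 0, 2048, 0, []⟩

theorem k73_12 : chk g73_12 T350 [
  ⟨355, 90, 720, 52, 260, false, false, false, [(0, 1), (3, 4), (18, 3), (8, 1), (9, 3), (10, 2), (11, 2), (12, 2), (3, 12)], []⟩,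
  ⟨529, 90, 630, 104, 200, false, false, false, [(0, 1), (3, 12), (10, 1), (11, 2), (3, 9)], []⟩,
  ⟨614, 90, 630, 104, 192, false, false, false, [(0, 1), (3, 24)], []⟩,
  ⟨699, 90, 450, 208, 109, false, true, false, [(0, 1), (3, 14)], []⟩,
  ⟨758, 90, 450, 208, 109, false, true, false, [(0, 1), (3, 14)], []⟩,
  ⟨799, 90, 0, 240, 132, true, true, false, [(0, 1), (3, 11)], []⟩,
  ⟨840, 90, 0, 240, 132, true, true, false, [(0, 1), (3, 11)], []⟩,
  ⟨881, 90, 0, 240, 132, true, true, false, [(0, 1), (3, 11)], []⟩,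
  ⟨922, 90, 0, 240, 132, true, true, false, [(0, 1), (3, 11)], []⟩,
  ⟨963, 90, 0, 240, 132, true, true, false, [(0, 1), (3, 11)], []⟩,
  ⟨1004, 90, 0, 208, 109, true, true, false, [(0, 1), (3, 14)], []⟩,
  ⟨1063, 90, 0, 208, 109, true, true, false, [(0, 1), (3, 14)], []⟩,
  ⟨1122, 90, 0, 208, 109, true, true, false, [(0, 1), (3, 14)], []⟩,
  ⟨1181, 90, 0, 208, 109, true, true, false, [(0, 2), (3, 13)], []⟩,
  ⟨1240, 90, 0, 208, 109, true, true, false, [(0, 2), (3, 13)], []⟩,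
  ⟨1299, 90, 0, 208, 109, true, true, false, [(0, 2), (3, 13)], []⟩,
  ⟨1358, 90, 0, 208, 109, true, true, false, [(0, 2), (3, 13)], []⟩,
  ⟨1417, 90, 0, 208, 109, true, true, false, [(0, 3), (3, 12)], []⟩,
  ⟨1458, 90, 0, 208, 109, true, true, false, [(0, 3), (3, 12)], []⟩,
  ⟨1487, 90, 0, 208, 109, true, true, false, [(0, 5), (3, 10)], []⟩,
  ⟨1507, 90, 0, 208, 109, true, true, false, [(0, 7), (3, 8)], []⟩,
  ⟨1521, 90, 0, 208, 109, true, true, false, [(0, 14), (3, 1)], []⟩,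
  ⟨1535, 90, 0, 208, 109, true, true, false, [(0, 15)], []⟩,
  ⟨1555, 90, 0, 208, 109, true, true, false, [(0, 15)], []⟩,
  ⟨1598, 90, 0, 192, 98, true, true, false, [(0, 17)], []⟩,
  ⟨1721, 90, 0, 176, 88, true, true, false, [(0, 18)], []⟩,
  ⟨1966, 90, 0, 176, 88, true, true, false, [(0, 18)], []⟩,
  ⟨2643, 90, 0, 128, 60, true, true, false, [(0, 23)], []⟩,
  ⟨6288, 90, 0, 0, 0, true, false, false, [(0, 35)], []⟩
  ] = true := by decide +kernel

def g73_13 : Gr := ⟨false, 363, 368, 1024, 1024, 73, 75, 8749, 8869, 0, 2048, 0, []⟩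

theorem k73_13 : chk g73_13 T350 [
  ⟨355, 90, 720, 36, 276, false, false, false, [(0, 1), (3, 4), (18, 3), (8, 1), (9, 3), (10, 2), (11, 2), (12, 2), (3, 14)], []⟩,
  ⟨529, 90, 630, 88, 216, false, false, false, [(0, 1), (3, 13), (11, 2), (3, 11)], []⟩,
  ⟨614, 90, 630, 88, 208, false, false, false, [(0, 1), (3, 26)], []⟩,
  ⟨699, 90, 540, 192, 98, false, true, false, [(0, 1), (3, 16)], []⟩,
  ⟨758, 90, 540, 192, 98, false, true, false, [(0, 1), (3, 16)], []⟩,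
  ⟨799, 90, 0, 224, 120, true, true, false, [(0, 1), (3, 13)], []⟩,
  ⟨840, 90, 0, 224, 120, true, true, false, [(0, 1), (3, 13)], []⟩,
  ⟨899, 90, 0, 224, 120, true, true, false, [(0, 1), (3, 13)], []⟩,
  ⟨958, 90, 0, 224, 120, true, true, false, [(0, 1), (3, 13)], []⟩,
  ⟨1042, 90, 0, 224, 120, true, true, false, [(0, 1), (3, 13)], []⟩,
  ⟨1126, 90, 0, 224, 120, true, true, false, [(0, 1), (3, 13)], []⟩,
  ⟨1185, 90, 0, 224, 120, true, true, false, [(0, 2), (3, 12)], []⟩,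
  ⟨1244, 90, 0, 224, 120, true, true, false, [(0, 2), (3, 12)], []⟩,
  ⟨1285, 90, 0, 224, 120, true, true, false, [(0, 2), (3, 12)], []⟩,
  ⟨1313, 90, 0, 224, 120, true, true, false, [(0, 2), (3, 12)], []⟩,
  ⟨1341, 90, 0, 192, 98, true, true, false, [(0, 2), (3, 15)], []⟩,
  ⟨1369, 90, 0, 192, 98, true, true, false, [(0, 2), (3, 15)], []⟩,
  ⟨1397, 90, 0, 192, 98, true, true, false, [(0, 2), (3, 15)], []⟩,
  ⟨1425, 90, 0, 192, 98, true, true, false, [(0, 3), (3, 14)], []⟩,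
  ⟨1453, 90, 0, 192, 98, true, true, false, [(0, 3), (3, 14)], []⟩,
  ⟨1481, 90, 0, 192, 98, true, true, false, [(0, 4), (3, 13)], []⟩,
  ⟨1509, 90, 0, 192, 98, true, true, false, [(0, 5), (3, 12)], []⟩,
  ⟨1537, 90, 0, 192, 98, true, true, false, [(0, 8), (3, 9)], []⟩,
  ⟨1578, 90, 0, 192, 98, true, true, false, [(0, 17)], []⟩,
  ⟨1661, 90, 0, 192, 98, true, true, false, [(0, 17)], []⟩,
  ⟨1827, 90, 0, 176, 88, true, true, false, [(0, 19)], []⟩,
  ⟨2155, 90, 0, 144, 69, true, true, false, [(0, 22)], []⟩,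
  ⟨3424, 90, 0, 80, 36, true, true, false, [(0, 28)], []⟩,
  ⟨6375, 90, 0, 0, 0, true, false, false, [(0, 36)], []⟩
  ] = true := by decide +kernel

def g73_14 : Gr := ⟨false, 368, 374, 1024, 1024, 73, 75, 8749, 8869, 0, 2048, 0, []⟩

theorem k73_14 : chk g73_14 T350 [
  ⟨355, 90, 720, 24, 291, false, true, false, [(0, 1), (3, 4), (18, 3), (8, 1), (9, 3), (10, 2), (11, 2), (12, 1), (3, 17)], []⟩,
  ⟨529, 90, 630, 104, 208, false, false, false, [(0, 1), (3, 13), (11, 2), (3, 10)], []⟩,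
  ⟨650, 90, 630, 104, 192, false, false, false, [(0, 1), (3, 25)], []⟩,
  ⟨735, 90, 540, 208, 109, false, true, false, [(0, 1), (3, 15)], []⟩,
  ⟨794, 90, 450, 208, 109, false, true, false, [(0, 1), (3, 15)], []⟩,
  ⟨853, 90, 0, 240, 132, true, true, false, [(0, 1), (3, 12)], []⟩,
  ⟨912, 90, 0, 240, 132, true, true, false, [(0, 1), (3, 12)], []⟩,
  ⟨971, 90, 0, 240, 132, true, true, false, [(0, 1), (3, 12)], []⟩,
  ⟨1012, 90, 0, 240, 132, true, true, false, [(0, 1), (3, 12)], []⟩,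
  ⟨1053, 90, 0, 240, 132, true, true, false, [(0, 1), (3, 12)], []⟩,
  ⟨1094, 90, 0, 208, 109, true, true, false, [(0, 1), (3, 15)], []⟩,
  ⟨1135, 90, 0, 208, 109, true, true, false, [(0, 1), (3, 15)], []⟩,
  ⟨1194, 90, 0, 208, 109, true, true, false, [(0, 2), (3, 14)], []⟩,
  ⟨1253, 90, 0, 208, 109, true, true, false, [(0, 2), (3, 14)], []⟩,
  ⟨1312, 90, 0, 208, 109, true, true, false, [(0, 2), (3, 14)], []⟩,
  ⟨1371, 90, 0, 208, 109, true, true, false, [(0, 2), (3, 14)], []⟩,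
  ⟨1430, 90, 0, 208, 109, true, true, false, [(0, 2), (3, 14)], []⟩,
  ⟨1471, 90, 0, 208, 109, true, true, false, [(0, 3), (3, 13)], []⟩,
  ⟨1500, 90, 0, 208, 109, true, true, false, [(0, 4), (3, 12)], []⟩,
  ⟨1529, 90, 0, 208, 109, true, true, false, [(0, 5), (3, 11)], []⟩,
  ⟨1549, 90, 0, 208, 109, true, true, false, [(0, 8), (3, 8)], []⟩,
  ⟨1558, 90, 0, 208, 109, true, true, false, [(0, 13), (3, 3)], []⟩,
  ⟨1572, 90, 0, 208, 109, true, true, false, [(0, 16)], []⟩,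
  ⟨1593, 90, 0, 208, 109, true, true, false, [(0, 16)], []⟩,
  ⟨1614, 90, 0, 208, 109, true, true, false, [(0, 16)], []⟩,
  ⟨1678, 90, 0, 192, 98, true, true, false, [(0, 18)], []⟩,
  ⟨1807, 90, 0, 192, 98, true, true, false, [(0, 18)], []⟩,
  ⟨2166, 90, 0, 160, 78, true, true, false, [(0, 21)], []⟩,
  ⟨3155, 90, 0, 88, 40, true, true, false, [(0, 28)], []⟩,
  ⟨6479, 90, 0, 0, 0, true, false, false, [(0, 36)], []⟩
  ] = true := by decide +kernel

def g73_15 : Gr := ⟨false, 374, 379, 1024, 1024, 73, 75, 8749, 8869, 0, 2048, 0, []⟩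

theorem k73_15 : chk g73_15 T350 [
  ⟨355, 90, 720, 16, 304, false, false, false, [(0, 1), (3, 4), (18, 3), (8, 1), (9, 3), (10, 2), (11, 2), (12, 1), (3, 18)], []⟩,
  ⟨529, 90, 630, 120, 200, false, false, false, [(0, 1), (3, 13), (11, 2), (3, 9)], []⟩,
  ⟨650, 90, 630, 120, 184, false, false, false, [(0, 1), (3, 24)], []⟩,
  ⟨735, 90, 540, 192, 106, false, true, false, [(0, 1), (3, 17)], []⟩,
  ⟨794, 90, 450, 224, 120, false, true, false, [(0, 1), (3, 14)], []⟩,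
  ⟨835, 90, 540, 192, 98, false, true, false, [(0, 1), (3, 17)], []⟩,
  ⟨876, 90, 0, 224, 120, true, true, false, [(0, 1), (3, 14)], []⟩,
  ⟨935, 90, 0, 224, 120, true, true, false, [(0, 1), (3, 14)], []⟩,
  ⟨994, 90, 0, 224, 120, true, true, false, [(0, 1), (3, 14)], []⟩,
  ⟨1078, 90, 0, 224, 120, true, true, false, [(0, 1), (3, 14)], []⟩,
  ⟨1162, 90, 0, 224, 120, true, true, false, [(0, 1), (3, 14)], []⟩,
  ⟨1246, 90, 0, 224, 120, true, true, false, [(0, 2), (3, 13)], []⟩,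
  ⟨1305, 90, 0, 224, 120, true, true, false, [(0, 2), (3, 13)], []⟩,
  ⟨1364, 90, 0, 224, 120, true, true, false, [(0, 2), (3, 13)], []⟩,
  ⟨1392, 90, 0, 224, 120, true, true, false, [(0, 2), (3, 13)], []⟩,
  ⟨1420, 90, 0, 224, 120, true, true, false, [(0, 2), (3, 13)], []⟩,
  ⟨1440, 90, 0, 192, 98, true, true, false, [(0, 3), (3, 15)], []⟩,
  ⟨1460, 90, 0, 192, 98, true, true, false, [(0, 3), (3, 15)], []⟩,
  ⟨1480, 90, 0, 192, 98, true, true, false, [(0, 3), (3, 15)], []⟩,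
  ⟨1500, 90, 0, 192, 98, true, true, false, [(0, 3), (3, 15)], []⟩,
  ⟨1520, 90, 0, 192, 98, true, true, false, [(0, 4), (3, 14)], []⟩,
  ⟨1540, 90, 0, 192, 98, true, true, false, [(0, 5), (3, 13)], []⟩,
  ⟨1560, 90, 0, 192, 98, true, true, false, [(0, 6), (3, 12)], []⟩,
  ⟨1580, 90, 0, 192, 98, true, true, false, [(0, 9), (3, 9)], []⟩,
  ⟨1609, 90, 0, 192, 98, true, true, false, [(0, 18)], []⟩,
  ⟨1693, 90, 0, 192, 98, true, true, false, [(0, 18)], []⟩,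
  ⟨1861, 90, 0, 192, 98, true, true, false, [(0, 18)], []⟩,
  ⟨2194, 90, 0, 144, 69, true, true, false, [(0, 23)], []⟩,
  ⟨3112, 90, 0, 80, 36, true, true, false, [(0, 29)], []⟩,
  ⟨6566, 90, 0, 0, 0, true, false, false, [(0, 37)], []⟩
  ] = true := by decide +kernel

def g73_16 : Gr := ⟨false, 379, 384, 1024, 1024, 73, 75, 8749, 8869, 0, 2048, 0, []⟩

theorem k73_16 : chk g73_16 T350 [
  ⟨355, 90, 720, 52, 276, false, false, false, [(0, 1), (3, 4), (18, 3), (8, 1), (9, 3), (10, 2), (11, 2), (12, 1), (3, 15)], []⟩,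
  ⟨529, 90, 630, 104, 216, false, false, false, [(0, 1), (3, 13), (11, 2), (3, 11)], []⟩,
  ⟨650, 90, 630, 104, 200, false, false, false, [(0, 1), (3, 26)], []⟩,
  ⟨735, 90, 540, 208, 109, false, true, false, [(0, 1), (3, 16)], []⟩,
  ⟨820, 90, 540, 208, 109, false, true, false, [(0, 1), (3, 16)], []⟩,
  ⟨879, 90, 0, 240, 132, true, true, false, [(0, 1), (3, 13)], []⟩,
  ⟨938, 90, 0, 240, 132, true, true, false, [(0, 1), (3, 13)], []⟩,
  ⟨997, 90, 0, 240, 132, true, true, false, [(0, 1), (3, 13)], []⟩,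
  ⟨1056, 90, 0, 240, 132, true, true, false, [(0, 1), (3, 13)], []⟩,
  ⟨1115, 90, 0, 240, 132, true, true, false, [(0, 1), (3, 13)], []⟩,
  ⟨1156, 90, 0, 208, 109, true, true, false, [(0, 1), (3, 16)], []⟩,
  ⟨1215, 90, 0, 208, 109, true, true, false, [(0, 2), (3, 15)], []⟩,
  ⟨1274, 90, 0, 208, 109, true, true, false, [(0, 2), (3, 15)], []⟩,
  ⟨1333, 90, 0, 208, 109, true, true, false, [(0, 2), (3, 15)], []⟩,
  ⟨1392, 90, 0, 208, 109, true, true, false, [(0, 2), (3, 15)], []⟩,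
  ⟨1451, 90, 0, 208, 109, true, true, false, [(0, 2), (3, 15)], []⟩,
  ⟨1510, 90, 0, 208, 109, true, true, false, [(0, 3), (3, 14)], []⟩,
  ⟨1551, 90, 0, 208, 109, true, true, false, [(0, 4), (3, 13)], []⟩,
  ⟨1580, 90, 0, 208, 109, true, true, false, [(0, 5), (3, 12)], []⟩,
  ⟨1600, 90, 0, 208, 109, true, true, false, [(0, 9), (3, 8)], []⟩,
  ⟨1620, 90, 0, 208, 109, true, true, false, [(0, 17)], []⟩,
  ⟨1649, 90, 0, 208, 109, true, true, false, [(0, 17)], []⟩,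
  ⟨1691, 90, 0, 192, 98, true, true, false, [(0, 19)], []⟩,
  ⟨1776, 90, 0, 192, 98, true, true, false, [(0, 19)], []⟩,
  ⟨1945, 90, 0, 176, 88, true, true, false, [(0, 21)], []⟩,
  ⟨2415, 90, 0, 144, 69, true, true, false, [(0, 24)], []⟩,
  ⟨4957, 90, 0, 32, 14, true, true, false, [(0, 34)], []⟩,
  ⟨6652, 90, 0, 0, 0, true, false, false, [(0, 37)], []⟩
  ] = true := by decide +kernel

def g73_17 : Gr := ⟨false, 384, 388, 1024, 1024, 73, 75, 8749, 8869, 0, 2048, 0, []⟩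

theorem k73_17 : chk g73_17 T375 [
  ⟨355, 120, 720, 16, 312, false, false, false, [(0, 1), (3, 3), (19, 2), (8, 1), (9, 2), (10, 1), (11, 2), (12, 2), (3, 13)], []⟩,
  ⟨529, 120, 720, 72, 248, false, false, false, [(0, 1), (3, 10), (11, 1), (3, 1), (12, 1), (3, 9)], []⟩,
  ⟨650, 120, 720, 88, 224, false, false, false, [(0, 1), (3, 21)], []⟩,
  ⟨735, 120, 480, 208, 109, false, true, false, [(0, 1), (3, 12)], []⟩,
  ⟨794, 120, 480, 208, 109, false, true, false, [(0, 1), (3, 12)], []⟩,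
  ⟨853, 120, 480, 208, 109, false, true, false, [(0, 1), (3, 12)], []⟩,
  ⟨894, 120, 0, 240, 132, true, true, false, [(0, 1), (3, 10)], []⟩,
  ⟨935, 120, 0, 240, 132, true, true, false, [(0, 1), (3, 10)], []⟩,
  ⟨994, 120, 0, 240, 132, true, true, false, [(0, 1), (3, 10)], []⟩,
  ⟨1053, 120, 0, 240, 132, true, true, false, [(0, 1), (3, 10)], []⟩,
  ⟨1112, 120, 0, 224, 120, true, true, false, [(0, 1), (3, 11)], []⟩,
  ⟨1171, 120, 0, 224, 120, true, true, false, [(0, 1), (3, 11)], []⟩,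
  ⟨1230, 120, 0, 224, 120, true, true, false, [(0, 2), (3, 10)], []⟩,
  ⟨1289, 120, 0, 224, 120, true, true, false, [(0, 2), (3, 10)], []⟩,
  ⟨1348, 120, 0, 224, 120, true, true, false, [(0, 2), (3, 10)], []⟩,
  ⟨1407, 120, 0, 208, 109, true, true, false, [(0, 2), (3, 11)], []⟩,
  ⟨1466, 120, 0, 208, 109, true, true, false, [(0, 2), (3, 11)], []⟩,
  ⟨1525, 120, 0, 208, 109, true, true, false, [(0, 3), (3, 10)], []⟩,
  ⟨1566, 120, 0, 208, 109, true, true, false, [(0, 4), (3, 9)], []⟩,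
  ⟨1595, 120, 0, 208, 109, true, true, false, [(0, 5), (3, 8)], []⟩,
  ⟨1624, 120, 0, 208, 109, true, true, false, [(0, 8), (3, 5)], []⟩,
  ⟨1653, 120, 0, 208, 109, true, true, false, [(0, 13)], []⟩,
  ⟨1694, 120, 0, 208, 109, true, true, false, [(0, 13)], []⟩,
  ⟨1753, 120, 0, 208, 109, true, true, false, [(0, 13)], []⟩,
  ⟨1837, 120, 0, 192, 98, true, true, false, [(0, 15)], []⟩,
  ⟨2072, 120, 0, 176, 88, true, true, false, [(0, 16)], []⟩,
  ⟨2723, 120, 0, 112, 52, true, true, false, [(0, 20)], []⟩,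
  ⟨6237, 120, 0, 0, 0, true, false, false, [(0, 29)], []⟩,
  ⟨6722, 120, 0, 0, 0, true, false, false, [(0, 29)], []⟩
  ] = true := by decide +kernel

def g73_18 : Gr := ⟨false, 388, 394, 1024, 1024, 73, 75, 8749, 8869, 0, 2048, 0, []⟩

theorem k73_18 : chk g73_18 T375 [
  ⟨355, 90, 720, 20, 308, false, false, false, [(0, 1), (3, 4), (19, 3), (8, 1), (9, 3), (10, 2), (11, 2), (12, 3), (3, 17)], []⟩,
  ⟨599, 90, 720, 72, 240, false, false, false, [(0, 1), (3, 7), (6, 1), (3, 4), (10, 1), (11, 2), (12, 3), (3, 12)], []⟩,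
  ⟨718, 90, 540, 208, 109, false, true, false, [(0, 1), (3, 17)], []⟩,
  ⟨801, 90, 540, 208, 109, false, true, false, [(0, 1), (3, 17)], []⟩,
  ⟨859, 90, 540, 208, 109, false, true, false, [(0, 1), (3, 17)], []⟩,
  ⟨917, 90, 0, 240, 132, true, true, false, [(0, 1), (3, 14)], []⟩,
  ⟨975, 90, 0, 240, 132, true, true, false, [(0, 1), (3, 14)], []⟩,
  ⟨1033, 90, 0, 240, 132, true, true, false, [(0, 1), (3, 14)], []⟩,
  ⟨1091, 90, 0, 240, 132, true, true, false, [(0, 1), (3, 14)], []⟩,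
  ⟨1149, 90, 0, 240, 132, true, true, false, [(0, 1), (3, 14)], []⟩,
  ⟨1207, 90, 0, 240, 132, true, true, false, [(0, 1), (3, 14)], []⟩,
  ⟨1248, 90, 0, 208, 109, true, true, false, [(0, 2), (3, 16)], []⟩,
  ⟨1289, 90, 0, 208, 109, true, true, false, [(0, 2), (3, 16)], []⟩,
  ⟨1330, 90, 0, 208, 109, true, true, false, [(0, 2), (3, 16)], []⟩,
  ⟨1388, 90, 0, 208, 109, true, true, false, [(0, 2), (3, 16)], []⟩,
  ⟨1446, 90, 0, 208, 109, true, true, false, [(0, 2), (3, 16)], []⟩,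
  ⟨1486, 90, 0, 208, 109, true, true, false, [(0, 3), (3, 15)], []⟩,
  ⟨1526, 90, 0, 208, 109, true, true, false, [(0, 3), (3, 15)], []⟩,
  ⟨1566, 90, 0, 208, 109, true, true, false, [(0, 3), (3, 15)], []⟩,
  ⟨1594, 90, 0, 208, 109, true, true, false, [(0, 4), (3, 14)], []⟩,
  ⟨1614, 90, 0, 208, 109, true, true, false, [(0, 6), (3, 12)], []⟩,
  ⟨1634, 90, 0, 208, 109, true, true, false, [(0, 8), (3, 10)], []⟩,
  ⟨1648, 90, 0, 208, 109, true, true, false, [(0, 15), (3, 3)], []⟩,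
  ⟨1668, 90, 0, 208, 109, true, true, false, [(0, 18)], []⟩,
  ⟨1697, 90, 0, 208, 109, true, true, false, [(0, 18)], []⟩,
  ⟨1739, 90, 0, 208, 109, true, true, false, [(0, 18)], []⟩,
  ⟨1861, 90, 0, 176, 88, true, true, false, [(0, 21)], []⟩,
  ⟨2102, 90, 0, 176, 88, true, true, false, [(0, 21)], []⟩,
  ⟨2770, 90, 0, 128, 60, true, true, false, [(0, 26)], []⟩,
  ⟨6374, 90, 0, 0, 0, true, false, false, [(0, 38)], []⟩,
  ⟨6825, 90, 0, 0, 0, true, false, false, [(0, 38)], []⟩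
  ] = true := by decide +kernel

def g73_19 : Gr := ⟨false, 394, 399, 1024, 1024, 73, 75, 8749, 8869, 0, 2048, 0, []⟩

theorem k73_19 : chk g73_19 T375 [
  ⟨355, 120, 720, 12, 316, false, false, false, [(0, 1), (3, 3), (19, 2), (8, 1), (9, 2), (10, 1), (11, 2), (12, 2), (3, 14)], []⟩,
  ⟨603, 120, 720, 96, 228, false, true, false, [(0, 1), (3, 5), (6, 1), (3, 3), (11, 2), (12, 2), (3, 8)], []⟩,
  ⟨724, 120, 720, 96, 216, false, false, false, [(0, 1), (3, 21)], []⟩,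
  ⟨809, 120, 480, 208, 109, false, true, false, [(0, 1), (3, 13)], []⟩,
  ⟨868, 120, 480, 208, 109, false, true, false, [(0, 1), (3, 13)], []⟩,
  ⟨909, 120, 480, 208, 109, false, true, false, [(0, 1), (3, 13)], []⟩,
  ⟨938, 120, 480, 208, 109, false, true, false, [(0, 1), (3, 13)], []⟩,
  ⟨958, 120, 480, 208, 109, false, true, false, [(0, 1), (3, 13)], []⟩,
  ⟨978, 120, 480, 208, 109, false, true, false, [(0, 1), (3, 13)], []⟩,
  ⟨998, 120, 0, 224, 120, true, true, false, [(0, 1), (3, 12)], []⟩,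
  ⟨1018, 120, 0, 224, 120, true, true, false, [(0, 1), (3, 12)], []⟩,
  ⟨1047, 120, 0, 224, 120, true, true, false, [(0, 1), (3, 12)], []⟩,
  ⟨1076, 120, 0, 224, 120, true, true, false, [(0, 1), (3, 12)], []⟩,
  ⟨1118, 120, 0, 224, 120, true, true, false, [(0, 1), (3, 12)], []⟩,
  ⟨1160, 120, 0, 224, 120, true, true, false, [(0, 1), (3, 12)], []⟩,
  ⟨1202, 120, 0, 224, 120, true, true, false, [(0, 1), (3, 12)], []⟩,
  ⟨1244, 120, 0, 224, 120, true, true, false, [(0, 2), (3, 11)], []⟩,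
  ⟨1286, 120, 0, 224, 120, true, true, false, [(0, 2), (3, 11)], []⟩,
  ⟨1328, 120, 0, 224, 120, true, true, false, [(0, 2), (3, 11)], []⟩,
  ⟨1370, 120, 0, 224, 120, true, true, false, [(0, 2), (3, 11)], []⟩,
  ⟨1412, 120, 0, 224, 120, true, true, false, [(0, 2), (3, 11)], []⟩,
  ⟨1454, 120, 0, 224, 120, true, true, false, [(0, 2), (3, 11)], []⟩,
  ⟨1483, 120, 0, 208, 109, true, true, false, [(0, 2), (3, 12)], []⟩,
  ⟨1512, 120, 0, 208, 109, true, true, false, [(0, 3), (3, 11)], []⟩,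
  ⟨1541, 120, 0, 208, 109, true, true, false, [(0, 3), (3, 11)], []⟩,
  ⟨1570, 120, 0, 208, 109, true, true, false, [(0, 3), (3, 11)], []⟩,
  ⟨1590, 120, 0, 208, 109, true, true, false, [(0, 4), (3, 10)], []⟩,
  ⟨1610, 120, 0, 208, 109, true, true, false, [(0, 4), (3, 10)], []⟩,
  ⟨1630, 120, 0, 208, 109, true, true, false, [(0, 5), (3, 9)], []⟩,
  ⟨1644, 120, 0, 208, 109, true, true, false, [(0, 6), (3, 8)], []⟩,
  ⟨1654, 120, 0, 208, 109, true, true, false, [(0, 8), (3, 6)], []⟩,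
  ⟨1664, 120, 0, 208, 109, true, true, false, [(0, 10), (3, 4)], []⟩,
  ⟨1674, 120, 0, 208, 109, true, true, false, [(0, 14)], []⟩,
  ⟨1696, 120, 0, 208, 109, true, true, false, [(0, 14)], []⟩,
  ⟨1761, 120, 0, 192, 98, true, true, false, [(0, 15)], []⟩,
  ⟨1892, 120, 0, 192, 98, true, true, false, [(0, 15)], []⟩,
  ⟨2077, 120, 0, 176, 88, true, true, false, [(0, 17)], []⟩,
  ⟨2589, 120, 0, 128, 60, true, true, false, [(0, 20)], []⟩,
  ⟨6462, 120, 0, 0, 0, true, false, false, [(0, 29)], []⟩,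
  ⟨6912, 120, 0, 0, 0, true, false, false, [(0, 29)], []⟩
  ] = true := by decide +kernel

def g73_20 : Gr := ⟨false, 399, 405, 1024, 1024, 73, 75, 8749, 8869, 0, 2048, 0, []⟩

theorem k73_20 : chk g73_20 T375 [
  ⟨498, 90, 540, 208, 141, false, true, false, [(0, 1), (3, 4), (19, 3), (8, 1), (9, 3), (10, 2), (11, 2), (12, 3)], []⟩,
  ⟨668, 90, 720, 104, 216, false, false, false, [(0, 1), (3, 17), (12, 1), (3, 10)], []⟩,
  ⟨787, 90, 630, 104, 208, false, false, false, [(0, 1), (3, 28)], []⟩,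
  ⟨870, 90, 540, 208, 109, false, true, false, [(0, 1), (3, 18)], []⟩,
  ⟨928, 90, 0, 240, 132, true, true, false, [(0, 1), (3, 15)], []⟩,
  ⟨986, 90, 0, 240, 132, true, true, false, [(0, 1), (3, 15)], []⟩,
  ⟨1069, 90, 0, 240, 132, true, true, false, [(0, 1), (3, 15)], []⟩,
  ⟨1152, 90, 0, 240, 132, true, true, false, [(0, 1), (3, 15)], []⟩,
  ⟨1234, 90, 0, 240, 132, true, true, false, [(0, 1), (3, 15)], []⟩,
  ⟨1291, 90, 0, 240, 132, true, true, false, [(0, 2), (3, 14)], []⟩,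
  ⟨1331, 90, 0, 208, 109, true, true, false, [(0, 2), (3, 17)], []⟩,
  ⟨1371, 90, 0, 208, 109, true, true, false, [(0, 2), (3, 17)], []⟩,
  ⟨1428, 90, 0, 208, 109, true, true, false, [(0, 2), (3, 17)], []⟩,
  ⟨1485, 90, 0, 208, 109, true, true, false, [(0, 2), (3, 17)], []⟩,
  ⟨1542, 90, 0, 208, 109, true, true, false, [(0, 3), (3, 16)], []⟩,
  ⟨1582, 90, 0, 208, 109, true, true, false, [(0, 3), (3, 16)], []⟩,
  ⟨1622, 90, 0, 208, 109, true, true, false, [(0, 4), (3, 15)], []⟩,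
  ⟨1650, 90, 0, 208, 109, true, true, false, [(0, 5), (3, 14)], []⟩,
  ⟨1678, 90, 0, 208, 109, true, true, false, [(0, 7), (3, 12)], []⟩,
  ⟨1697, 90, 0, 208, 109, true, true, false, [(0, 16), (3, 3)], []⟩,
  ⟨1725, 90, 0, 208, 109, true, true, false, [(0, 19)], []⟩,
  ⟨1783, 90, 0, 208, 109, true, true, false, [(0, 19)], []⟩,
  ⟨1900, 90, 0, 192, 98, true, true, false, [(0, 21)], []⟩,
  ⟨2131, 90, 0, 160, 78, true, true, false, [(0, 24)], []⟩,
  ⟨2771, 90, 0, 128, 60, true, true, false, [(0, 27)], []⟩,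
  ⟨6226, 90, 0, 0, 0, true, false, false, [(0, 39)], []⟩,
  ⟨7016, 90, 0, 0, 0, true, false, false, [(0, 39)], []⟩
  ] = true := by decide +kernel

def g73_21 : Gr := ⟨false, 405, 410, 1024, 1024, 73, 75, 8749, 8869, 0, 2048, 0, []⟩

theorem k73_21 : chk g73_21 T375 [
  ⟨498, 70, 560, 208, 149, false, true, false, [(0, 1), (3, 6), (19, 4), (8, 1), (9, 3), (10, 3), (11, 3), (12, 4)], []⟩,
  ⟨668, 70, 700, 88, 240, false, false, false, [(0, 1), (3, 23), (12, 1), (3, 15)], []⟩,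
  ⟨787, 70, 560, 208, 117, false, true, false, [(0, 1), (3, 24)], []⟩,
  ⟨906, 70, 560, 208, 109, false, true, false, [(0, 1), (3, 24)], []⟩,
  ⟨964, 70, 560, 208, 109, false, true, false, [(0, 1), (3, 24)], []⟩,
  ⟨1022, 70, 490, 208, 109, false, true, false, [(0, 1), (3, 24)], []⟩,
  ⟨1063, 70, 0, 240, 132, true, true, false, [(0, 1), (3, 21)], []⟩,
  ⟨1104, 70, 0, 240, 132, true, true, false, [(0, 1), (3, 21)], []⟩,
  ⟨1162, 70, 0, 240, 132, true, true, false, [(0, 1), (3, 21)], []⟩,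
  ⟨1220, 70, 0, 240, 132, true, true, false, [(0, 1), (3, 21)], []⟩,
  ⟨1260, 70, 0, 208, 109, true, true, false, [(0, 2), (3, 23)], []⟩,
  ⟨1318, 70, 0, 208, 109, true, true, false, [(0, 2), (3, 23)], []⟩,
  ⟨1376, 70, 0, 208, 109, true, true, false, [(0, 2), (3, 23)], []⟩,
  ⟨1434, 70, 0, 208, 109, true, true, false, [(0, 2), (3, 23)], []⟩,
  ⟨1492, 70, 0, 208, 109, true, true, false, [(0, 2), (3, 23)], []⟩,
  ⟨1550, 70, 0, 208, 109, true, true, false, [(0, 2), (3, 23)], []⟩,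
  ⟨1608, 70, 0, 208, 109, true, true, false, [(0, 3), (3, 22)], []⟩,
  ⟨1666, 70, 0, 208, 109, true, true, false, [(0, 4), (3, 21)], []⟩,
  ⟨1706, 70, 0, 208, 109, true, true, false, [(0, 7), (3, 18)], []⟩,
  ⟨1746, 70, 0, 208, 109, true, true, false, [(0, 25)], []⟩,
  ⟨1828, 70, 0, 192, 98, true, true, false, [(0, 27)], []⟩,
  ⟨1991, 70, 0, 192, 98, true, true, false, [(0, 27)], []⟩,
  ⟨2444, 70, 0, 160, 78, true, true, false, [(0, 31)], []⟩,
  ⟨4194, 70, 0, 48, 21, true, true, false, [(0, 45)], []⟩,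
  ⟨7103, 70, 0, 0, 0, true, false, false, [(0, 51)], []⟩
  ] = true := by decide +kernel

def g73_22 : Gr := ⟨false, 409, 415, 1024, 1024, 73, 75, 8749, 8869, 0, 2048, 0, []⟩

theorem k73_22 : chk g73_22 T400 [
  ⟨498, 120, 600, 224, 136, false, true, false, [(0, 1), (3, 3), (22, 2), (10, 1), (11, 2), (12, 1), (13, 2), (14, 2)], []⟩,
  ⟨668, 120, 720, 112, 220, false, true, false, [(0, 1), (3, 11), (14, 2), (3, 8)], []⟩,
  ⟨787, 120, 720, 112, 208, false, false, false, [(0, 1), (3, 12), (14, 1), (3, 8)], []⟩,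
  ⟨870, 120, 600, 208, 109, false, true, false, [(0, 1), (3, 14)], []⟩,
  ⟨928, 120, 600, 208, 109, false, true, false, [(0, 1), (3, 14)], []⟩,
  ⟨969, 120, 480, 208, 109, false, true, false, [(0, 1), (3, 14)], []⟩,
  ⟨1010, 120, 0, 240, 132, true, true, false, [(0, 1), (3, 12)], []⟩,
  ⟨1051, 120, 0, 240, 132, true, true, false, [(0, 1), (3, 12)], []⟩,
  ⟨1109, 120, 0, 240, 132, true, true, false, [(0, 1), (3, 12)], []⟩,
  ⟨1167, 120, 0, 240, 132, true, true, false, [(0, 1), (3, 12)], []⟩,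
  ⟨1225, 120, 0, 240, 132, true, true, false, [(0, 1), (3, 12)], []⟩,
  ⟨1283, 120, 0, 224, 120, true, true, false, [(0, 2), (3, 12)], []⟩,
  ⟨1341, 120, 0, 224, 120, true, true, false, [(0, 2), (3, 12)], []⟩,
  ⟨1399, 120, 0, 224, 120, true, true, false, [(0, 2), (3, 12)], []⟩,
  ⟨1457, 120, 0, 224, 120, true, true, false, [(0, 2), (3, 12)], []⟩,
  ⟨1497, 120, 0, 224, 120, true, true, false, [(0, 2), (3, 12)], []⟩,
  ⟨1537, 120, 0, 224, 120, true, true, false, [(0, 2), (3, 12)], []⟩,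
  ⟨1577, 120, 0, 208, 109, true, true, false, [(0, 3), (3, 12)], []⟩,
  ⟨1617, 120, 0, 208, 109, true, true, false, [(0, 3), (3, 12)], []⟩,
  ⟨1645, 120, 0, 208, 109, true, true, false, [(0, 4), (3, 11)], []⟩,
  ⟨1673, 120, 0, 208, 109, true, true, false, [(0, 4), (3, 11)], []⟩,
  ⟨1693, 120, 0, 208, 109, true, true, false, [(0, 5), (3, 10)], []⟩,
  ⟨1713, 120, 0, 208, 109, true, true, false, [(0, 7), (3, 8)], []⟩,
  ⟨1733, 120, 0, 208, 109, true, true, false, [(0, 11), (3, 4)], []⟩,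
  ⟨1762, 120, 0, 208, 109, true, true, false, [(0, 15)], []⟩,
  ⟨1821, 120, 0, 208, 109, true, true, false, [(0, 15)], []⟩,
  ⟨1905, 120, 0, 208, 109, true, true, false, [(0, 15)], []⟩,
  ⟨2072, 120, 0, 176, 88, true, true, false, [(0, 18)], []⟩,
  ⟨2535, 120, 0, 144, 69, true, true, false, [(0, 20)], []⟩,
  ⟨5037, 120, 0, 28, 12, true, true, false, [(0, 28)], []⟩,
  ⟨7189, 120, 0, 0, 0, true, false, false, [(0, 30)], []⟩
  ] = true := by decide +kernel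

end Pool.Agent.Lib.MP_af3a4a_an.P1.CHK.H81.L
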