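import Pool.Agent.Lib.MP_af3a4a_an.P1.CHK.H81.LT
/-!
# Data, `73 ≤ N ≤ 75`, `415 ≤ 1024 R ≤ 820` (helper81)
-/
set_option autoImplicit false

namespace Pool.Agent.Lib.MP_af3a4a_an.P1.CHK.H81.L

open Pool.Agent.Lib.MP_af3a4a_an.P1.CHK.H58.G (Gr En)

def g73_23 : Gr := ⟨false, 415, 421, 1024, 1024, 73, 75, 8749, 8869, 0, 2048, 0, []⟩

theorem k73_23 : chk g73_23 T400 [
  ⟨498, 50, 550, 224, 144, false, true, false, [(0, 1), (3, 8), (22, 6), (10, 2), (11, 4), (12, 5), (13, 4), (14, 5)], []⟩,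
  ⟨742, 50, 700, 104, 224, false, false, false, [(0, 1), (3, 15), (7, 1), (3, 7), (8, 2), (3, 1), (13, 3), (14, 5), (3, 3), (15, 1), (3, 16)], []⟩,
  ⟨861, 50, 650, 104, 216, false, false, false, [(0, 1), (3, 32), (14, 2), (3, 20)], []⟩,
  ⟨944, 50, 550, 208, 109, false, true, false, [(0, 1), (3, 33), (14, 1), (3, 2)], []⟩,
  ⟨1027, 50, 0, 256, 145, true, true, false, [(0, 1), (3, 28)], []⟩,
  ⟨1085, 50, 0, 256, 145, true, true, false, [(0, 1), (3, 28)], []⟩,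
  ⟨1143, 50, 0, 240, 132, true, true, false, [(0, 1), (3, 31)], []⟩,
  ⟨1201, 50, 0, 240, 132, true, true, false, [(0, 1), (3, 31)], []⟩,
  ⟨1259, 50, 0, 240, 132, true, true, false, [(0, 1), (3, 31)], []⟩,
  ⟨1317, 50, 0, 240, 132, true, true, false, [(0, 2), (3, 30)], []⟩,
  ⟨1375, 50, 0, 224, 120, true, true, false, [(0, 2), (3, 33)], []⟩,
  ⟨1433, 50, 0, 224, 120, true, true, false, [(0, 2), (3, 33)], []⟩,
  ⟨1491, 50, 0, 224, 120, true, true, false, [(0, 2), (3, 33)], []⟩,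
  ⟨1549, 50, 0, 208, 109, true, true, false, [(0, 2), (3, 35)], []⟩,
  ⟨1607, 50, 0, 208, 109, true, true, false, [(0, 3), (3, 34)], []⟩,
  ⟨1648, 50, 0, 208, 109, true, true, false, [(0, 3), (3, 34)], []⟩,
  ⟨1689, 50, 0, 208, 109, true, true, false, [(0, 4), (3, 33)], []⟩,
  ⟨1730, 50, 0, 208, 109, true, true, false, [(0, 6), (3, 31)], []⟩,
  ⟨1758, 50, 0, 208, 109, true, true, false, [(0, 14), (3, 23)], []⟩,
  ⟨1799, 50, 0, 208, 109, true, true, false, [(0, 37)], []⟩,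
  ⟨1882, 50, 0, 208, 109, true, true, false, [(0, 37)], []⟩,
  ⟨2047, 50, 0, 192, 98, true, true, false, [(0, 40)], []⟩,
  ⟨2505, 50, 0, 144, 69, true, true, false, [(0, 48)], []⟩,
  ⟨4272, 50, 0, 40, 18, true, true, false, [(0, 66)], []⟩,
  ⟨7293, 50, 0, 0, 0, true, false, false, [(0, 73)], []⟩
  ] = true := by decide +kernel

def g73_24 : Gr := ⟨false, 421, 427, 1024, 1024, 73, 75, 8749, 8869, 0, 2048, 0, []⟩

theorem k73_24 : chk g73_24 T400 [
  ⟨498, 120, 720, 40, 304, false, false, false, [(0, 1), (3, 3), (22, 2), (10, 1), (11, 2), (12, 1), (13, 2), (14, 2), (15, 2), (3, 12)], []⟩,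
  ⟨742, 120, 720, 96, 236, false, true, false, [(0, 1), (3, 5), (7, 1), (3, 4), (13, 1), (14, 2), (3, 10)], []⟩,
  ⟨861, 120, 720, 96, 224, false, false, false, [(0, 1), (3, 23)], []⟩,
  ⟨944, 120, 600, 192, 130, false, true, false, [(0, 1), (3, 16)], []⟩,
  ⟨1002, 120, 600, 208, 109, false, true, false, [(0, 1), (3, 15)], []⟩,
  ⟨1043, 120, 600, 208, 109, false, true, false, [(0, 1), (3, 15)], []⟩,
  ⟨1071, 120, 480, 208, 109, false, true, false, [(0, 1), (3, 15)], []⟩,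
  ⟨1091, 120, 480, 208, 109, false, true, false, [(0, 1), (3, 15)], []⟩,
  ⟨1105, 120, 0, 224, 120, true, true, false, [(0, 1), (3, 14)], []⟩,
  ⟨1125, 120, 0, 224, 120, true, true, false, [(0, 1), (3, 14)], []⟩,
  ⟨1145, 120, 0, 224, 120, true, true, false, [(0, 1), (3, 14)], []⟩,
  ⟨1174, 120, 0, 224, 120, true, true, false, [(0, 1), (3, 14)], []⟩,
  ⟨1203, 120, 0, 224, 120, true, true, false, [(0, 1), (3, 14)], []⟩,
  ⟨1232, 120, 0, 224, 120, true, true, false, [(0, 1), (3, 14)], []⟩,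
  ⟨1274, 120, 0, 224, 120, true, true, false, [(0, 2), (3, 13)], []⟩,
  ⟨1316, 120, 0, 224, 120, true, true, false, [(0, 2), (3, 13)], []⟩,
  ⟨1358, 120, 0, 224, 120, true, true, false, [(0, 2), (3, 13)], []⟩,
  ⟨1400, 120, 0, 224, 120, true, true, false, [(0, 2), (3, 13)], []⟩,
  ⟨1461, 120, 0, 224, 120, true, true, false, [(0, 2), (3, 13)], []⟩,
  ⟨1521, 120, 0, 224, 120, true, true, false, [(0, 2), (3, 13)], []⟩,
  ⟨1563, 120, 0, 224, 120, true, true, false, [(0, 2), (3, 13)], []⟩,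
  ⟨1605, 120, 0, 224, 120, true, true, false, [(0, 3), (3, 12)], []⟩,
  ⟨1634, 120, 0, 208, 109, true, true, false, [(0, 3), (3, 13)], []⟩,
  ⟨1663, 120, 0, 208, 109, true, true, false, [(0, 3), (3, 13)], []⟩,
  ⟨1692, 120, 0, 208, 109, true, true, false, [(0, 4), (3, 12)], []⟩,
  ⟨1712, 120, 0, 208, 109, true, true, false, [(0, 4), (3, 12)], []⟩,
  ⟨1732, 120, 0, 208, 109, true, true, false, [(0, 5), (3, 11)], []⟩,
  ⟨1752, 120, 0, 208, 109, true, true, false, [(0, 6), (3, 10)], []⟩,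
  ⟨1766, 120, 0, 208, 109, true, true, false, [(0, 8), (3, 8)], []⟩,
  ⟨1780, 120, 0, 208, 109, true, true, false, [(0, 11), (3, 5)], []⟩,
  ⟨1794, 120, 0, 208, 109, true, true, false, [(0, 16)], []⟩,
  ⟨1825, 120, 0, 208, 109, true, true, false, [(0, 16)], []⟩,
  ⟨1888, 120, 0, 192, 98, true, true, false, [(0, 17)], []⟩,
  ⟨2066, 120, 0, 192, 98, true, true, false, [(0, 17)], []⟩,
  ⟨2417, 120, 0, 160, 78, true, true, false, [(0, 20)], []⟩,
  ⟨3774, 120, 0, 72, 32, true, true, false, [(0, 26)], []⟩,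
  ⟨7397, 120, 0, 0, 0, true, false, false, [(0, 31)], []⟩
  ] = true := by decide +kernel

def g73_25 : Gr := ⟨false, 427, 435, 1024, 1024, 73, 75, 8749, 8869, 0, 2048, 0, []⟩

theorem k73_25 : chk g73_25 T400 [
  ⟨498, 90, 720, 20, 324, false, false, false, [(0, 1), (3, 4), (22, 3), (10, 1), (11, 3), (12, 2), (13, 2), (14, 3), (15, 2), (3, 19)], []⟩,
  ⟨742, 90, 720, 96, 244, false, true, false, [(0, 1), (3, 14), (13, 1), (14, 3), (3, 14)], []⟩,
  ⟨861, 90, 630, 104, 224, false, false, false, [(0, 1), (3, 31)], []⟩,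
  ⟨944, 90, 630, 104, 216, false, false, false, [(0, 1), (3, 31)], []⟩,
  ⟨1002, 90, 540, 208, 109, false, true, false, [(0, 1), (3, 21)], []⟩,
  ⟨1043, 90, 540, 208, 109, false, true, false, [(0, 1), (3, 21)], []⟩,
  ⟨1071, 90, 0, 240, 132, true, true, false, [(0, 1), (3, 18)], []⟩,
  ⟨1112, 90, 0, 240, 132, true, true, false, [(0, 1), (3, 18)], []⟩,
  ⟨1153, 90, 0, 240, 132, true, true, false, [(0, 1), (3, 18)], []⟩,
  ⟨1211, 90, 0, 240, 132, true, true, false, [(0, 1), (3, 18)], []⟩,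
  ⟨1269, 90, 0, 240, 132, true, true, false, [(0, 1), (3, 18)], []⟩,
  ⟨1327, 90, 0, 240, 132, true, true, false, [(0, 2), (3, 17)], []⟩,
  ⟨1385, 90, 0, 240, 132, true, true, false, [(0, 2), (3, 17)], []⟩,
  ⟨1426, 90, 0, 240, 132, true, true, false, [(0, 2), (3, 17)], []⟩,
  ⟨1467, 90, 0, 240, 132, true, true, false, [(0, 2), (3, 17)], []⟩,
  ⟨1495, 90, 0, 224, 120, true, true, false, [(0, 2), (3, 19)], []⟩,
  ⟨1523, 90, 0, 224, 120, true, true, false, [(0, 2), (3, 19)], []⟩,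
  ⟨1551, 90, 0, 224, 120, true, true, false, [(0, 2), (3, 19)], []⟩,
  ⟨1579, 90, 0, 224, 120, true, true, false, [(0, 2), (3, 19)], []⟩,
  ⟨1607, 90, 0, 208, 109, true, true, false, [(0, 3), (3, 19)], []⟩,
  ⟨1635, 90, 0, 208, 109, true, true, false, [(0, 3), (3, 19)], []⟩,
  ⟨1663, 90, 0, 208, 109, true, true, false, [(0, 3), (3, 19)], []⟩,
  ⟨1691, 90, 0, 208, 109, true, true, false, [(0, 3), (3, 19)], []⟩,
  ⟨1711, 90, 0, 208, 109, true, true, false, [(0, 4), (3, 18)], []⟩,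
  ⟨1731, 90, 0, 208, 109, true, true, false, [(0, 4), (3, 18)], []⟩,
  ⟨1751, 90, 0, 208, 109, true, true, false, [(0, 5), (3, 17)], []⟩,
  ⟨1765, 90, 0, 208, 109, true, true, false, [(0, 6), (3, 16)], []⟩,
  ⟨1779, 90, 0, 208, 109, true, true, false, [(0, 7), (3, 15)], []⟩,
  ⟨1793, 90, 0, 208, 109, true, true, false, [(0, 10), (3, 12)], []⟩,
  ⟨1802, 90, 0, 208, 109, true, true, false, [(0, 13), (3, 9)], []⟩,
  ⟨1811, 90, 0, 208, 109, true, true, false, [(0, 18), (3, 4)], []⟩,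
  ⟨1825, 90, 0, 208, 109, true, true, false, [(0, 22)], []⟩,
  ⟨1856, 90, 0, 208, 109, true, true, false, [(0, 22)], []⟩,
  ⟨1919, 90, 0, 208, 109, true, true, false, [(0, 22)], []⟩,
  ⟨2046, 90, 0, 192, 98, true, true, false, [(0, 24)], []⟩,
  ⟨2401, 90, 0, 176, 88, true, true, false, [(0, 25)], []⟩,
  ⟨3379, 90, 0, 72, 32, true, true, false, [(0, 35)], []⟩,
  ⟨7146, 90, 0, 0, 0, true, false, false, [(0, 42)], []⟩,
  ⟨7536, 90, 0, 0, 0, true, false, false, [(0, 42)], []⟩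
  ] = true := by decide +kernel

def g73_26 : Gr := ⟨false, 435, 443, 1024, 1024, 73, 75, 8749, 8869, 0, 2048, 0, []⟩

theorem k73_26 : chk g73_26 T425 [
  ⟨498, 120, 600, 224, 160, false, true, false, [(0, 1), (3, 3), (23, 2), (10, 1), (11, 2), (12, 1), (13, 2), (14, 2), (15, 2)], []⟩,
  ⟨742, 120, 720, 88, 256, false, false, false, [(0, 1), (3, 5), (7, 1), (3, 5), (14, 2), (15, 2), (3, 10)], []⟩,
  ⟨861, 120, 720, 112, 224, false, false, false, [(0, 1), (3, 14), (15, 1), (3, 8)], []⟩,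
  ⟨979, 120, 600, 208, 125, false, true, false, [(0, 1), (3, 14), (15, 1), (3, 1)], []⟩,
  ⟨1036, 120, 600, 208, 117, false, true, false, [(0, 1), (3, 16)], []⟩,
  ⟨1093, 120, 600, 208, 109, false, true, false, [(0, 1), (3, 16)], []⟩,
  ⟨1133, 120, 600, 208, 109, false, true, false, [(0, 1), (3, 16)], []⟩,
  ⟨1161, 120, 600, 208, 109, false, true, false, [(0, 1), (3, 16)], []⟩,
  ⟨1180, 120, 0, 224, 120, true, true, false, [(0, 1), (3, 15)], []⟩,
  ⟨1199, 120, 0, 224, 120, true, true, false, [(0, 1), (3, 15)], []⟩,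
  ⟨1227, 120, 0, 224, 120, true, true, false, [(0, 1), (3, 15)], []⟩,
  ⟨1255, 120, 0, 224, 120, true, true, false, [(0, 1), (3, 15)], []⟩,
  ⟨1296, 120, 0, 224, 120, true, true, false, [(0, 2), (3, 14)], []⟩,
  ⟨1337, 120, 0, 224, 120, true, true, false, [(0, 2), (3, 14)], []⟩,
  ⟨1378, 120, 0, 224, 120, true, true, false, [(0, 2), (3, 14)], []⟩,
  ⟨1436, 120, 0, 224, 120, true, true, false, [(0, 2), (3, 14)], []⟩,
  ⟨1494, 120, 0, 224, 120, true, true, false, [(0, 2), (3, 14)], []⟩,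
  ⟨1552, 120, 0, 224, 120, true, true, false, [(0, 2), (3, 14)], []⟩,
  ⟨1610, 120, 0, 224, 120, true, true, false, [(0, 2), (3, 14)], []⟩,
  ⟨1651, 120, 0, 224, 120, true, true, false, [(0, 3), (3, 13)], []⟩,
  ⟨1692, 120, 0, 224, 120, true, true, false, [(0, 3), (3, 13)], []⟩,
  ⟨1720, 120, 0, 208, 109, true, true, false, [(0, 3), (3, 14)], []⟩,
  ⟨1748, 120, 0, 208, 109, true, true, false, [(0, 4), (3, 13)], []⟩,
  ⟨1776, 120, 0, 208, 109, true, true, false, [(0, 4), (3, 13)], []⟩,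
  ⟨1796, 120, 0, 208, 109, true, true, false, [(0, 5), (3, 12)], []⟩,
  ⟨1816, 120, 0, 208, 109, true, true, false, [(0, 7), (3, 10)], []⟩,
  ⟨1830, 120, 0, 208, 109, true, true, false, [(0, 9), (3, 8)], []⟩,
  ⟨1844, 120, 0, 208, 109, true, true, false, [(0, 14), (3, 3)], []⟩,
  ⟨1874, 120, 0, 208, 109, true, true, false, [(0, 17)], []⟩,
  ⟨1935, 120, 0, 208, 109, true, true, false, [(0, 17)], []⟩,
  ⟨2021, 120, 0, 208, 109, true, true, false, [(0, 17)], []⟩,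
  ⟨2193, 120, 0, 176, 88, true, true, false, [(0, 20)], []⟩,
  ⟨2671, 120, 0, 144, 69, true, true, false, [(0, 22)], []⟩,
  ⟨6292, 120, 0, 0, 0, true, false, true, [(0, 30)], [(0, 2)]⟩,
  ⟨7674, 120, 0, 0, 0, true, false, false, [(0, 32)], []⟩
  ] = true := by decide +kernel

def g73_27 : Gr := ⟨false, 443, 449, 1024, 1024, 73, 75, 8749, 8869, 0, 2048, 0, []⟩

theorem k73_27 : chk g73_27 T425 [
  ⟨698, 70, 560, 240, 132, false, true, false, [(0, 1), (3, 6), (23, 4), (10, 1), (11, 3), (12, 3), (13, 3), (14, 4), (15, 1)], []⟩,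
  ⟨865, 70, 700, 104, 240, false, false, false, [(0, 1), (3, 22), (14, 2), (3, 1), (15, 2), (3, 15)], []⟩,
  ⟨982, 70, 700, 104, 224, false, false, false, [(0, 1), (3, 26), (15, 1), (3, 15)], []⟩,
  ⟨1064, 70, 630, 120, 200, false, false, false, [(0, 1), (3, 40)], []⟩,
  ⟨1146, 70, 0, 256, 145, true, true, false, [(0, 1), (3, 23)], []⟩,
  ⟨1228, 70, 0, 256, 145, true, true, false, [(0, 1), (3, 23)], []⟩,
  ⟨1310, 70, 0, 240, 132, true, true, false, [(0, 1), (3, 25)], []⟩,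
  ⟨1392, 70, 0, 240, 132, true, true, false, [(0, 2), (3, 24)], []⟩,
  ⟨1474, 70, 0, 240, 132, true, true, false, [(0, 2), (3, 24)], []⟩,
  ⟨1556, 70, 0, 224, 120, true, true, false, [(0, 2), (3, 26)], []⟩,
  ⟨1638, 70, 0, 224, 120, true, true, false, [(0, 2), (3, 26)], []⟩,
  ⟨1720, 70, 0, 224, 120, true, true, false, [(0, 3), (3, 25)], []⟩,
  ⟨1777, 70, 0, 224, 120, true, true, false, [(0, 4), (3, 24)], []⟩,
  ⟨1817, 70, 0, 208, 109, true, true, false, [(0, 5), (3, 25)], []⟩,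
  ⟨1857, 70, 0, 208, 109, true, true, false, [(0, 7), (3, 23)], []⟩,
  ⟨1885, 70, 0, 208, 109, true, true, false, [(0, 20), (3, 10)], []⟩,
  ⟨1966, 70, 0, 208, 109, true, true, false, [(0, 30)], []⟩,
  ⟨2128, 70, 0, 192, 98, true, true, false, [(0, 32)], []⟩,
  ⟨2578, 70, 0, 160, 78, true, true, false, [(0, 36)], []⟩,
  ⟨4315, 70, 0, 48, 21, true, true, false, [(0, 50)], []⟩,
  ⟨7722, 70, 0, 0, 0, true, false, false, [(0, 56)], []⟩,
  ⟨7778, 70, 0, 0, 0, true, false, false, [(0, 56)], []⟩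
  ] = true := by decide +kernel

def g73_28 : Gr := ⟨false, 449, 457, 1024, 1024, 73, 75, 8749, 8869, 0, 2048, 0, []⟩

theorem k73_28 : chk g73_28 T425 [
  ⟨498, 120, 720, 28, 332, false, false, false, [(0, 1), (3, 3), (23, 2), (10, 1), (11, 2), (12, 1), (13, 2), (14, 2), (15, 2), (16, 2), (3, 13)], []⟩,
  ⟨742, 120, 720, 88, 264, false, false, false, [(0, 1), (3, 5), (7, 1), (3, 5), (14, 2), (15, 2), (3, 11)], []⟩,
  ⟨912, 120, 720, 112, 232, false, false, false, [(0, 1), (3, 14), (15, 1), (3, 9)], []⟩,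
  ⟨1031, 120, 600, 208, 133, false, true, false, [(0, 1), (3, 17)], []⟩,
  ⟨1114, 120, 600, 208, 125, false, true, false, [(0, 1), (3, 17)], []⟩,
  ⟨1172, 120, 600, 208, 117, false, true, false, [(0, 1), (3, 17)], []⟩,
  ⟨1213, 120, 600, 208, 109, false, true, false, [(0, 1), (3, 17)], []⟩,
  ⟨1254, 120, 0, 256, 145, true, true, false, [(0, 1), (3, 14)], []⟩,
  ⟨1295, 120, 0, 240, 132, true, true, false, [(0, 1), (3, 15)], []⟩,
  ⟨1336, 120, 0, 240, 132, true, true, false, [(0, 2), (3, 14)], []⟩,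
  ⟨1394, 120, 0, 240, 132, true, true, false, [(0, 2), (3, 14)], []⟩,
  ⟨1452, 120, 0, 224, 120, true, true, false, [(0, 2), (3, 15)], []⟩,
  ⟨1510, 120, 0, 224, 120, true, true, false, [(0, 2), (3, 15)], []⟩,
  ⟨1568, 120, 0, 224, 120, true, true, false, [(0, 2), (3, 15)], []⟩,
  ⟨1626, 120, 0, 224, 120, true, true, false, [(0, 2), (3, 15)], []⟩,
  ⟨1684, 120, 0, 224, 120, true, true, false, [(0, 2), (3, 15)], []⟩,
  ⟨1742, 120, 0, 224, 120, true, true, false, [(0, 3), (3, 14)], []⟩,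
  ⟨1782, 120, 0, 224, 120, true, true, false, [(0, 3), (3, 14)], []⟩,
  ⟨1822, 120, 0, 224, 120, true, true, false, [(0, 4), (3, 13)], []⟩,
  ⟨1850, 120, 0, 208, 109, true, true, false, [(0, 5), (3, 13)], []⟩,
  ⟨1878, 120, 0, 208, 109, true, true, false, [(0, 7), (3, 11)], []⟩,
  ⟨1906, 120, 0, 208, 109, true, true, false, [(0, 12), (3, 6)], []⟩,
  ⟨1964, 120, 0, 208, 109, true, true, false, [(0, 18)], []⟩,
  ⟨2081, 120, 0, 208, 109, true, true, false, [(0, 18)], []⟩,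
  ⟨2312, 120, 0, 176, 88, true, true, false, [(0, 21)], []⟩,
  ⟨2952, 120, 0, 128, 60, true, true, false, [(0, 24)], []⟩,
  ⟨6409, 120, 0, 0, 0, true, false, false, [(0, 33)], []⟩,
  ⟨7917, 120, 0, 0, 0, true, false, false, [(0, 33)], []⟩
  ] = true := by decide +kernel

def g73_29 : Gr := ⟨false, 457, 461, 1024, 1024, 73, 75, 8749, 8869, 0, 2048, 0, []⟩

theorem k73_29 : chk g73_29 T425 [
  ⟨498, 90, 720, 56, 320, false, false, false, [(0, 1), (3, 4), (23, 3), (10, 1), (11, 3), (12, 2), (13, 2), (14, 3), (15, 2), (16, 1), (3, 17)], []⟩,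
  ⟨840, 90, 720, 88, 264, false, false, false, [(0, 1), (3, 7), (7, 1), (3, 3), (8, 2), (3, 1), (13, 1), (14, 3), (15, 2), (3, 15)], []⟩,
  ⟨1007, 90, 630, 160, 184, false, false, false, [(0, 1), (3, 28)], []⟩,
  ⟨1124, 90, 630, 160, 174, false, true, false, [(0, 1), (3, 28)], []⟩,
  ⟨1241, 90, 0, 256, 145, true, true, false, [(0, 1), (3, 19)], []⟩,
  ⟨1358, 90, 0, 256, 145, true, true, false, [(0, 1), (3, 19)], []⟩,
  ⟨1475, 90, 0, 256, 145, true, true, false, [(0, 2), (3, 18)], []⟩,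
  ⟨1592, 90, 0, 224, 120, true, true, false, [(0, 2), (3, 21)], []⟩,
  ⟨1709, 90, 0, 224, 120, true, true, false, [(0, 2), (3, 21)], []⟩,
  ⟨1791, 90, 0, 224, 120, true, true, false, [(0, 3), (3, 20)], []⟩,
  ⟨1873, 90, 0, 224, 120, true, true, false, [(0, 4), (3, 19)], []⟩,
  ⟨1930, 90, 0, 224, 120, true, true, false, [(0, 8), (3, 15)], []⟩,
  ⟨1970, 90, 0, 224, 120, true, true, false, [(0, 23)], []⟩,
  ⟨2085, 90, 0, 192, 98, true, true, false, [(0, 26)], []⟩,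
  ⟨2404, 90, 0, 176, 88, true, true, false, [(0, 28)], []⟩,
  ⟨3286, 90, 0, 112, 52, true, true, false, [(0, 34)], []⟩,
  ⟨6682, 90, 0, 0, 0, true, false, false, [(0, 45)], []⟩,
  ⟨7986, 90, 0, 0, 0, true, false, false, [(0, 45)], []⟩
  ] = true := by decide +kernel

def g73_30 : Gr := ⟨false, 460, 470, 1024, 1024, 73, 75, 8749, 8869, 0, 2048, 0, []⟩

theorem k73_30 : chk g73_30 T450 [
  ⟨498, 120, 720, 28, 340, false, false, false, [(0, 1), (3, 3), (25, 2), (11, 1), (12, 2), (13, 1), (14, 2), (15, 2), (16, 2), (17, 2), (3, 14)], []⟩,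
  ⟨846, 120, 720, 96, 260, false, true, false, [(0, 1), (3, 4), (8, 2), (3, 1), (9, 2), (3, 1), (14, 1), (15, 2), (16, 2), (17, 2), (3, 9)], []⟩,
  ⟨1016, 120, 720, 96, 244, false, true, false, [(0, 1), (3, 13), (16, 2), (3, 1), (17, 1), (3, 9)], []⟩,
  ⟨1099, 120, 720, 96, 236, false, true, false, [(0, 1), (3, 14), (16, 1), (3, 11)], []⟩,
  ⟨1157, 120, 600, 112, 216, false, false, false, [(0, 1), (3, 25)], []⟩,
  ⟨1198, 120, 600, 112, 212, false, true, false, [(0, 1), (3, 25)], []⟩,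
  ⟨1239, 120, 0, 256, 145, true, true, false, [(0, 1), (3, 15)], []⟩,
  ⟨1280, 120, 0, 256, 145, true, true, false, [(0, 1), (3, 15)], []⟩,
  ⟨1321, 120, 0, 256, 145, true, true, false, [(0, 1), (3, 15)], []⟩,
  ⟨1362, 120, 0, 240, 132, true, true, false, [(0, 2), (3, 15)], []⟩,
  ⟨1403, 120, 0, 240, 132, true, true, false, [(0, 2), (3, 15)], []⟩,
  ⟨1461, 120, 0, 240, 132, true, true, false, [(0, 2), (3, 15)], []⟩,
  ⟨1519, 120, 0, 240, 132, true, true, false, [(0, 2), (3, 15)], []⟩,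
  ⟨1577, 120, 0, 240, 132, true, true, false, [(0, 2), (3, 15)], []⟩,
  ⟨1635, 120, 0, 224, 120, true, true, false, [(0, 2), (3, 16)], []⟩,
  ⟨1693, 120, 0, 224, 120, true, true, false, [(0, 2), (3, 16)], []⟩,
  ⟨1751, 120, 0, 224, 120, true, true, false, [(0, 3), (3, 15)], []⟩,
  ⟨1791, 120, 0, 224, 120, true, true, false, [(0, 3), (3, 15)], []⟩,
  ⟨1831, 120, 0, 224, 120, true, true, false, [(0, 4), (3, 14)], []⟩,
  ⟨1859, 120, 0, 224, 120, true, true, false, [(0, 4), (3, 14)], []⟩,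
  ⟨1887, 120, 0, 224, 120, true, true, false, [(0, 5), (3, 13)], []⟩,
  ⟨1907, 120, 0, 208, 109, true, true, false, [(0, 6), (3, 13)], []⟩,
  ⟨1927, 120, 0, 208, 109, true, true, false, [(0, 8), (3, 11)], []⟩,
  ⟨1941, 120, 0, 208, 109, true, true, false, [(0, 12), (3, 7)], []⟩,
  ⟨1961, 120, 0, 208, 109, true, true, false, [(0, 18), (3, 1)], []⟩,
  ⟨2022, 120, 0, 208, 109, true, true, false, [(0, 19)], []⟩,
  ⟨2143, 120, 0, 208, 109, true, true, false, [(0, 19)], []⟩,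
  ⟨2384, 120, 0, 176, 88, true, true, false, [(0, 22)], []⟩,
  ⟨3050, 120, 0, 112, 52, true, true, false, [(0, 26)], []⟩,
  ⟨6648, 120, 0, 0, 0, true, false, false, [(0, 34)], []⟩,
  ⟨8142, 120, 0, 0, 0, true, false, false, [(0, 34)], []⟩
  ] = true := by decide +kernel

def g73_31 : Gr := ⟨false, 470, 483, 1024, 1024, 73, 75, 8749, 8869, 0, 2048, 0, []⟩

theorem k73_31 : chk g73_31 T450 [
  ⟨498, 90, 720, 48, 336, false, false, false, [(0, 1), (3, 4), (25, 3), (11, 1), (12, 3), (13, 2), (14, 2), (15, 3), (16, 2), (17, 3), (3, 18)], []⟩,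
  ⟨846, 90, 720, 120, 248, false, false, false, [(0, 1), (3, 6), (8, 2), (3, 3), (9, 2), (3, 1), (14, 1), (15, 3), (16, 2), (17, 3), (3, 11)], []⟩,
  ⟨1016, 90, 630, 120, 232, false, false, false, [(0, 1), (3, 19), (16, 1), (3, 14)], []⟩,
  ⟨1135, 90, 630, 120, 216, false, false, false, [(0, 1), (3, 34)], []⟩,
  ⟨1218, 90, 630, 120, 208, false, false, false, [(0, 1), (3, 34)], []⟩,
  ⟨1301, 90, 0, 256, 145, true, true, false, [(0, 1), (3, 21)], []⟩,
  ⟨1384, 90, 0, 256, 145, true, true, false, [(0, 2), (3, 20)], []⟩,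
  ⟨1467, 90, 0, 256, 145, true, true, false, [(0, 2), (3, 20)], []⟩,
  ⟨1525, 90, 0, 256, 145, true, true, false, [(0, 2), (3, 20)], []⟩,
  ⟨1583, 90, 0, 224, 120, true, true, false, [(0, 2), (3, 23)], []⟩,
  ⟨1641, 90, 0, 224, 120, true, true, false, [(0, 2), (3, 23)], []⟩,
  ⟨1724, 90, 0, 224, 120, true, true, false, [(0, 2), (3, 23)], []⟩,
  ⟨1782, 90, 0, 224, 120, true, true, false, [(0, 3), (3, 22)], []⟩,
  ⟨1840, 90, 0, 224, 120, true, true, false, [(0, 3), (3, 22)], []⟩,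
  ⟨1898, 90, 0, 224, 120, true, true, false, [(0, 4), (3, 21)], []⟩,
  ⟨1938, 90, 0, 224, 120, true, true, false, [(0, 5), (3, 20)], []⟩,
  ⟨1966, 90, 0, 224, 120, true, true, false, [(0, 8), (3, 17)], []⟩,
  ⟨1985, 90, 0, 224, 120, true, true, false, [(0, 14), (3, 11)], []⟩,
  ⟨1998, 90, 0, 224, 120, true, true, false, [(0, 23), (3, 2)], []⟩,
  ⟨2018, 90, 0, 224, 120, true, true, false, [(0, 25)], []⟩,
  ⟨2047, 90, 0, 224, 120, true, true, false, [(0, 25)], []⟩,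
  ⟨2133, 90, 0, 208, 109, true, true, false, [(0, 27)], []⟩,
  ⟨2304, 90, 0, 176, 88, true, true, false, [(0, 30)], []⟩,
  ⟨2777, 90, 0, 144, 69, true, true, false, [(0, 33)], []⟩,
  ⟨5335, 90, 0, 16, 7, true, true, false, [(0, 45)], []⟩,
  ⟨8367, 90, 0, 0, 0, true, false, false, [(0, 47)], []⟩
  ] = true := by decide +kernel

def g73_32 : Gr := ⟨false, 483, 487, 1024, 1024, 73, 75, 8749, 8869, 0, 2048, 0, []⟩

theorem k73_32 : chk g73_32 T450 [
  ⟨698, 120, 600, 240, 172, false, true, false, [(0, 1), (3, 3), (25, 2), (11, 1), (12, 2), (13, 1), (14, 2), (15, 2), (16, 2), (17, 2)], []⟩,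
  ⟨937, 120, 720, 128, 244, false, true, false, [(0, 1), (3, 13), (16, 2), (3, 10)], []⟩,
  ⟨1176, 120, 720, 128, 220, false, true, false, [(0, 1), (3, 14), (16, 1), (3, 1), (17, 1), (3, 8)], []⟩,
  ⟨1293, 120, 600, 128, 208, false, false, false, [(0, 1), (3, 25)], []⟩,
  ⟨1410, 120, 0, 256, 145, true, true, false, [(0, 2), (3, 15)], []⟩,
  ⟨1527, 120, 0, 240, 132, true, true, false, [(0, 2), (3, 16)], []⟩,
  ⟨1692, 120, 0, 240, 132, true, true, false, [(0, 2), (3, 16)], []⟩,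
  ⟨1807, 120, 0, 224, 120, true, true, false, [(0, 2), (3, 17)], []⟩,
  ⟨1922, 120, 0, 224, 120, true, true, false, [(0, 3), (3, 16)], []⟩,
  ⟨2037, 120, 0, 224, 120, true, true, false, [(0, 5), (3, 14)], []⟩,
  ⟨2152, 120, 0, 224, 120, true, true, false, [(0, 19)], []⟩,
  ⟨2381, 120, 0, 192, 98, true, true, false, [(0, 22)], []⟩,
  ⟨3014, 120, 0, 128, 60, true, true, false, [(0, 26)], []⟩,
  ⟨6431, 120, 0, 0, 0, true, false, false, [(0, 36)], []⟩,
  ⟨8436, 120, 0, 0, 0, true, false, false, [(0, 36)], []⟩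
  ] = true := by decide +kernel

def g73_33 : Gr := ⟨false, 486, 499, 1024, 1024, 73, 75, 8749, 8869, 0, 2048, 0, []⟩

theorem k73_33 : chk g73_33 T475 [
  ⟨698, 120, 600, 256, 161, false, true, false, [(0, 1), (3, 3), (27, 2), (12, 1), (13, 2), (14, 1), (15, 2), (16, 2), (17, 2), (18, 2)], []⟩,
  ⟨937, 120, 720, 112, 260, false, true, false, [(0, 1), (3, 5), (8, 1), (3, 6), (10, 1), (17, 2), (18, 2), (3, 10)], []⟩,
  ⟨1104, 120, 720, 112, 244, false, true, false, [(0, 1), (3, 14), (17, 1), (18, 2), (3, 10)], []⟩,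
  ⟨1221, 120, 600, 112, 232, false, false, false, [(0, 1), (3, 16), (18, 1), (3, 10)], []⟩,
  ⟨1303, 120, 600, 112, 224, false, false, false, [(0, 1), (3, 16), (18, 1), (3, 10)], []⟩,
  ⟨1360, 120, 0, 256, 145, true, true, false, [(0, 1), (3, 17)], []⟩,
  ⟨1441, 120, 0, 256, 145, true, true, false, [(0, 2), (3, 16)], []⟩,
  ⟨1522, 120, 0, 256, 145, true, true, false, [(0, 2), (3, 16)], []⟩,
  ⟨1603, 120, 0, 240, 132, true, true, false, [(0, 2), (3, 17)], []⟩,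
  ⟨1684, 120, 0, 240, 132, true, true, false, [(0, 2), (3, 17)], []⟩,
  ⟨1765, 120, 0, 240, 132, true, true, false, [(0, 2), (3, 17)], []⟩,
  ⟨1846, 120, 0, 224, 120, true, true, false, [(0, 3), (3, 17)], []⟩,
  ⟨1927, 120, 0, 224, 120, true, true, false, [(0, 3), (3, 17)], []⟩,
  ⟨1984, 120, 0, 224, 120, true, true, false, [(0, 4), (3, 16)], []⟩,
  ⟨2023, 120, 0, 224, 120, true, true, false, [(0, 7), (3, 13)], []⟩,
  ⟨2062, 120, 0, 224, 120, true, true, false, [(0, 12), (3, 8)], []⟩,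
  ⟨2118, 120, 0, 224, 120, true, true, false, [(0, 20)], []⟩,
  ⟨2198, 120, 0, 224, 120, true, true, false, [(0, 20)], []⟩,
  ⟨2423, 120, 0, 192, 98, true, true, false, [(0, 23)], []⟩,
  ⟨3046, 120, 0, 128, 60, true, true, false, [(0, 27)], []⟩,
  ⟨6412, 120, 0, 0, 0, true, false, false, [(0, 37)], []⟩,
  ⟨8644, 120, 0, 0, 0, true, false, false, [(0, 37)], []⟩
  ] = true := by decide +kernel

def g73_34 : Gr := ⟨false, 499, 512, 1024, 1024, 73, 75, 8749, 8869, 0, 2048, 0, []⟩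

theorem k73_34 : chk g73_34 T475 [
  ⟨698, 120, 720, 56, 336, false, false, false, [(0, 1), (3, 3), (27, 2), (12, 1), (13, 2), (14, 1), (15, 2), (16, 2), (17, 2), (18, 2), (19, 2), (3, 13)], []⟩,
  ⟨1040, 120, 720, 112, 260, false, true, false, [(0, 1), (3, 5), (8, 1), (3, 2), (9, 1), (3, 2), (10, 2), (17, 2), (18, 2), (3, 1), (19, 1), (3, 9)], []⟩,
  ⟨1207, 120, 600, 112, 244, false, true, false, [(0, 1), (3, 16), (18, 1), (3, 11)], []⟩,
  ⟨1324, 120, 600, 112, 232, false, false, false, [(0, 1), (3, 28)], []⟩,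
  ⟨1406, 120, 600, 128, 208, false, false, false, [(0, 2), (3, 26)], []⟩,
  ⟨1488, 120, 0, 256, 145, true, true, false, [(0, 2), (3, 17)], []⟩,
  ⟨1570, 120, 0, 256, 145, true, true, false, [(0, 2), (3, 17)], []⟩,
  ⟨1686, 120, 0, 240, 132, true, true, false, [(0, 2), (3, 18)], []⟩,
  ⟨1802, 120, 0, 240, 132, true, true, false, [(0, 2), (3, 18)], []⟩,
  ⟨1883, 120, 0, 224, 120, true, true, false, [(0, 3), (3, 18)], []⟩,
  ⟨1964, 120, 0, 224, 120, true, true, false, [(0, 3), (3, 18)], []⟩,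
  ⟨2045, 120, 0, 224, 120, true, true, false, [(0, 4), (3, 17)], []⟩,
  ⟨2101, 120, 0, 224, 120, true, true, false, [(0, 8), (3, 13)], []⟩,
  ⟨2181, 120, 0, 208, 109, true, true, false, [(0, 22)], []⟩,
  ⟨2406, 120, 0, 208, 109, true, true, false, [(0, 22)], []⟩,
  ⟨3029, 120, 0, 144, 69, true, true, false, [(0, 27)], []⟩,
  ⟨6392, 120, 0, 0, 0, true, false, false, [(0, 37)], []⟩,
  ⟨8870, 120, 0, 0, 0, true, false, false, [(0, 37)], []⟩
  ] = true := by decide +kernel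

def g73_35 : Gr := ⟨false, 512, 528, 1024, 1024, 73, 75, 8749, 8869, 0, 2048, 0, []⟩

theorem k73_35 : chk g73_35 T500 [
  ⟨698, 120, 720, 72, 328, false, false, false, [(0, 1), (3, 3), (28, 2), (13, 1), (14, 2), (15, 1), (16, 2), (17, 2), (18, 2), (19, 2), (20, 2), (21, 1), (3, 12)], []⟩,
  ⟨1040, 120, 720, 128, 256, false, false, false, [(0, 1), (3, 5), (9, 1), (3, 2), (10, 1), (3, 2), (11, 2), (18, 2), (19, 2), (20, 2), (3, 9)], []⟩,
  ⟨1279, 120, 600, 128, 232, false, false, false, [(0, 1), (3, 5), (9, 1), (3, 6), (11, 1), (3, 2), (19, 2), (20, 2), (3, 9)], []⟩,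
  ⟨1446, 120, 600, 128, 216, false, false, false, [(0, 1), (3, 16), (19, 1), (3, 1), (20, 1), (3, 9)], []⟩,
  ⟨1563, 120, 0, 256, 145, true, true, false, [(0, 2), (3, 15), (19, 1), (3, 1), (20, 1)], []⟩,
  ⟨1680, 120, 0, 256, 145, true, true, false, [(0, 2), (3, 17), (20, 1)], []⟩,
  ⟨1797, 120, 0, 240, 132, true, true, false, [(0, 2), (3, 17), (20, 1), (3, 1)], []⟩,
  ⟨1914, 120, 0, 224, 120, true, true, false, [(0, 3), (3, 16), (20, 1), (3, 2)], []⟩,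
  ⟨2031, 120, 0, 224, 120, true, true, false, [(0, 3), (3, 16), (20, 1), (3, 2)], []⟩,
  ⟨2113, 120, 0, 224, 120, true, true, false, [(0, 5), (3, 17)], []⟩,
  ⟨2170, 120, 0, 224, 120, true, true, false, [(0, 10), (3, 12)], []⟩,
  ⟨2285, 120, 0, 224, 120, true, true, false, [(0, 22)], []⟩,
  ⟨2513, 120, 0, 192, 98, true, true, false, [(0, 25)], []⟩,
  ⟨3143, 120, 0, 128, 60, true, true, false, [(0, 29)], []⟩,
  ⟨6543, 120, 0, 0, 0, true, false, false, [(0, 39)], []⟩,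
  ⟨9147, 120, 0, 0, 0, true, false, false, [(0, 39)], []⟩
  ] = true := by decide +kernel

def g73_36 : Gr := ⟨false, 528, 538, 1024, 1024, 73, 75, 8749, 8869, 0, 1987, 0, []⟩

theorem k73_36 : chk g73_36 T500 [
  ⟨698, 120, 720, 56, 352, false, false, false, [(0, 1), (3, 3), (28, 2), (13, 1), (14, 2), (15, 1), (16, 2), (17, 2), (18, 2), (19, 2), (20, 2), (21, 1), (3, 14)], []⟩,
  ⟨1040, 120, 720, 112, 284, false, true, false, [(0, 1), (3, 5), (9, 1), (3, 2), (10, 1), (3, 2), (11, 2), (18, 2), (19, 2), (20, 2), (3, 11)], []⟩,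
  ⟨1376, 120, 720, 128, 236, false, true, false, [(0, 1), (3, 5), (9, 1), (3, 6), (11, 1), (3, 1), (18, 1), (19, 2), (20, 2), (3, 10)], []⟩,
  ⟨1540, 120, 600, 128, 220, false, true, false, [(0, 2), (3, 15), (19, 1), (3, 1), (20, 1), (3, 10)], []⟩,
  ⟨1704, 120, 0, 256, 145, true, true, false, [(0, 2), (3, 19)], []⟩,
  ⟨1868, 120, 0, 240, 132, true, true, false, [(0, 2), (3, 20)], []⟩,
  ⟨2032, 120, 0, 240, 132, true, true, false, [(0, 3), (3, 19)], []⟩,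
  ⟨2196, 120, 0, 224, 120, true, true, false, [(0, 4), (3, 19)], []⟩,
  ⟨2360, 120, 0, 224, 120, true, true, false, [(0, 23)], []⟩,
  ⟨2816, 120, 0, 192, 98, true, true, false, [(0, 25)], []⟩,
  ⟨4073, 120, 0, 72, 32, true, true, false, [(0, 34)], []⟩,
  ⟨7528, 120, 0, 0, 0, true, false, false, [(0, 39)], []⟩,
  ⟨9042, 120, 0, 0, 0, true, false, false, [(0, 39)], []⟩
  ] = true := by decide +kernel

def g73_37 : Gr := ⟨false, 537, 563, 1024, 1024, 73, 75, 8749, 8869, 0, 1954, 0, []⟩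

theorem k73_37 : chk g73_37 T525 [
  ⟨698, 120, 720, 40, 368, false, false, false, [(0, 1), (3, 3), (29, 2), (13, 1), (14, 2), (15, 1), (16, 2), (17, 2), (18, 2), (19, 2), (20, 2), (21, 1), (3, 17)], []⟩,
  ⟨1186, 120, 720, 120, 272, false, false, false, [(0, 1), (3, 4), (9, 2), (3, 1), (10, 2), (11, 4), (18, 2), (19, 2), (20, 2), (21, 1), (3, 11)], []⟩,
  ⟨1425, 120, 600, 120, 248, false, false, false, [(0, 1), (3, 5), (9, 1), (3, 6), (11, 1), (3, 3), (19, 1), (20, 2), (21, 1), (3, 11)], []⟩,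
  ⟨1592, 120, 600, 120, 232, false, false, false, [(0, 2), (3, 15), (12, 1), (20, 2), (3, 12)], []⟩,
  ⟨1708, 120, 0, 256, 145, true, true, false, [(0, 2), (3, 17), (20, 1), (3, 3)], []⟩,
  ⟨1824, 120, 0, 256, 145, true, true, false, [(0, 2), (3, 17), (20, 1), (3, 3)], []⟩,
  ⟨1940, 120, 0, 240, 132, true, true, false, [(0, 2), (3, 17), (20, 1), (3, 4)], []⟩,
  ⟨2054, 120, 0, 240, 132, true, true, false, [(0, 3), (3, 16), (20, 1), (3, 4)], []⟩,
  ⟨2134, 120, 0, 240, 132, true, true, false, [(0, 4), (3, 20)], []⟩,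
  ⟨2190, 120, 0, 224, 120, true, true, false, [(0, 5), (3, 20)], []⟩,
  ⟨2246, 120, 0, 224, 120, true, true, false, [(0, 8), (3, 17)], []⟩,
  ⟨2285, 120, 0, 224, 120, true, true, false, [(0, 17), (3, 8)], []⟩,
  ⟨2364, 120, 0, 224, 120, true, true, false, [(0, 25)], []⟩,
  ⟨2586, 120, 0, 192, 98, true, true, false, [(0, 27)], []⟩,
  ⟨3201, 120, 0, 144, 69, true, true, false, [(0, 31)], []⟩,
  ⟨6520, 120, 0, 0, 0, true, false, false, [(0, 41)], []⟩,
  ⟨9305, 120, 0, 0, 0, true, false, false, [(0, 41)], []⟩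
  ] = true := by decide +kernel

def g73_38 : Gr := ⟨false, 563, 589, 1024, 1024, 73, 75, 8749, 8869, 0, 1864, 0, []⟩

theorem k73_38 : chk g73_38 T550 [
  ⟨698, 120, 720, 36, 388, false, false, true, [(0, 1), (3, 3), (32, 2), (15, 1), (16, 2), (17, 1), (18, 2), (19, 2), (20, 2), (21, 2), (22, 2), (23, 1), (24, 2), (3, 14)], [(3, 3)]⟩,
  ⟨1186, 120, 720, 120, 288, false, false, false, [(0, 1), (3, 4), (10, 2), (3, 1), (11, 2), (12, 4), (20, 2), (21, 2), (22, 2), (23, 1), (24, 2), (3, 11)], []⟩,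
  ⟨1528, 120, 600, 120, 256, false, false, false, [(0, 1), (3, 5), (10, 1), (3, 2), (11, 1), (3, 2), (12, 2), (3, 2), (13, 2), (22, 2), (23, 1), (3, 1), (24, 1), (3, 11)], []⟩,
  ⟨1767, 120, 600, 160, 200, false, false, false, [(0, 2), (3, 11), (12, 1), (3, 3), (13, 1), (22, 2), (23, 1), (3, 10)], []⟩,
  ⟨1934, 120, 0, 224, 120, true, true, true, [(0, 2), (3, 15), (13, 1), (3, 1), (22, 1), (3, 4)], [(3, 3)]⟩,
  ⟨2101, 120, 0, 240, 132, true, true, false, [(0, 3), (3, 14), (13, 1), (3, 1), (22, 1), (3, 6)], []⟩,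
  ⟨2218, 120, 0, 240, 132, true, true, false, [(0, 3), (3, 23)], []⟩,
  ⟨2335, 120, 0, 240, 132, true, true, false, [(0, 5), (3, 12), (7, 1), (3, 8)], []⟩,
  ⟨2392, 120, 0, 224, 120, true, true, false, [(0, 14), (3, 13)], []⟩,
  ⟨2554, 120, 0, 224, 120, true, true, false, [(0, 27)], []⟩,
  ⟨3003, 120, 0, 176, 88, true, true, false, [(0, 30)], []⟩,
  ⟨4240, 120, 0, 64, 28, true, true, false, [(0, 38)], []⟩,
  ⟨7640, 120, 0, 0, 0, true, false, false, [(0, 43)], []⟩,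
  ⟨9287, 120, 0, 0, 0, true, false, false, [(0, 43)], []⟩
  ] = true := by decide +kernel

def g73_39 : Gr := ⟨false, 588, 615, 1024, 1024, 73, 75, 8749, 8869, 0, 1785, 0, []⟩

theorem k73_39 : chk g73_39 T575 [
  ⟨978, 120, 720, 104, 336, false, false, false, [(0, 1), (3, 3), (33, 2), (15, 1), (16, 2), (17, 1), (18, 2), (19, 2), (20, 2), (21, 2), (22, 2), (23, 1), (24, 2), (25, 2), (3, 12)], []⟩,
  ⟨1457, 120, 600, 144, 264, false, false, false, [(0, 1), (3, 5), (10, 1), (3, 1), (11, 2), (3, 1), (12, 3), (13, 4), (22, 2), (23, 1), (24, 2), (25, 2), (3, 9)], []⟩,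
  ⟨1792, 120, 0, 256, 145, true, true, true, [(0, 2), (3, 4), (4, 1), (3, 6), (12, 1), (3, 2), (13, 2), (22, 2), (23, 1), (24, 2)], [(3, 1), (25, 1), (3, 1)]⟩,
  ⟨2127, 120, 0, 256, 145, true, true, true, [(0, 2), (3, 4), (4, 1), (3, 6), (6, 1), (3, 3), (13, 1), (3, 1), (22, 1), (23, 1), (24, 2)], [(3, 1), (25, 1), (3, 1)]⟩,
  ⟨2362, 120, 0, 256, 145, true, true, false, [(0, 3), (3, 14), (7, 1), (3, 4), (24, 1), (3, 1), (25, 1), (3, 1)], []⟩,
  ⟨2477, 120, 0, 224, 120, true, true, false, [(0, 7), (3, 10), (7, 1), (3, 11)], []⟩,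
  ⟨2705, 120, 0, 224, 120, true, true, false, [(0, 29)], []⟩,
  ⟨3335, 120, 0, 160, 78, true, true, false, [(0, 33)], []⟩,
  ⟨6736, 120, 0, 6, 3, true, true, false, [(0, 44)], []⟩,
  ⟨9286, 120, 0, 0, 0, true, false, false, [(0, 45)], []⟩
  ] = true := by decide +kernel

def g73_40 : Gr := ⟨false, 614, 640, 1024, 1024, 73, 75, 8749, 8869, 0, 1709, 0, []⟩

theorem k73_40 : chk g73_40 T600 [
  ⟨978, 120, 600, 72, 376, false, false, true, [(0, 1), (3, 3), (35, 2), (16, 1), (17, 2), (18, 1), (19, 2), (20, 2), (21, 2), (22, 2), (23, 2), (24, 1), (25, 2), (26, 2), (27, 2), (3, 11)], [(3, 3)]⟩,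
  ⟨1663, 120, 600, 144, 269, false, true, false, [(0, 1), (3, 4), (11, 2), (3, 1), (12, 2), (13, 4), (14, 4), (23, 2), (24, 1), (25, 2), (26, 2), (27, 2), (3, 9)], []⟩,
  ⟨2142, 120, 0, 256, 145, true, true, true, [(0, 2), (3, 4), (4, 1), (3, 2), (5, 1), (3, 3), (13, 1), (3, 2), (14, 2), (3, 1), (23, 1), (24, 1), (25, 2), (26, 2)], [(27, 2), (3, 1)]⟩,
  ⟨2621, 120, 0, 240, 132, true, true, true, [(0, 3), (3, 3), (4, 1), (3, 6), (6, 1), (3, 2), (7, 2), (3, 2), (15, 1), (25, 2), (26, 2), (27, 1)], [(27, 1), (28, 2)]⟩,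
  ⟨3100, 120, 0, 208, 109, true, true, false, [(0, 32)], []⟩,
  ⟨4420, 120, 0, 88, 40, true, true, false, [(0, 40)], []⟩,
  ⟨8047, 120, 0, 0, 0, true, false, false, [(0, 47)], []⟩,
  ⟨9252, 120, 0, 0, 0, true, false, false, [(0, 47)], []⟩
  ] = true := by decide +kernel

def g73_41 : Gr := ⟨false, 640, 666, 1024, 1024, 73, 75, 8749, 8869, 0, 1640, 0, []⟩

theorem k73_41 : chk g73_41 T625 [
  ⟨978, 120, 600, 88, 384, false, false, true, [(0, 1), (3, 3), (36, 2), (16, 1), (17, 2), (18, 1), (19, 2), (20, 2), (21, 2), (22, 2), (23, 2), (24, 1), (25, 2), (26, 2), (27, 2), (3, 12)], [(3, 3)]⟩,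
  ⟨1663, 120, 600, 144, 288, false, false, false, [(0, 1), (3, 4), (11, 2), (3, 1), (12, 2), (13, 4), (14, 4), (23, 2), (24, 1), (25, 2), (26, 2), (27, 2), (28, 2), (3, 9)], []⟩,
  ⟨2348, 120, 0, 256, 145, true, true, true, [(0, 2), (3, 4), (4, 1), (3, 2), (5, 1), (3, 2), (6, 1), (13, 1), (3, 1), (14, 3), (15, 3), (25, 2), (26, 2), (27, 2)], [(28, 2), (29, 1)]⟩,
  ⟨2827, 120, 0, 224, 120, true, true, true, [(0, 6), (4, 1), (0, 2), (5, 1), (0, 2), (6, 2), (0, 1), (7, 3), (8, 3), (25, 2), (26, 2), (27, 2), (28, 2)], [(29, 1), (30, 2)]⟩,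
  ⟨3499, 120, 0, 176, 88, true, true, false, [(0, 36)], []⟩,
  ⟨6089, 120, 0, 2, 1, true, true, false, [(0, 48)], []⟩,
  ⟨9239, 120, 0, 0, 0, true, false, false, [(0, 49)], []⟩
  ] = true := by decide +kernel

def g73_42 : Gr := ⟨false, 665, 692, 1024, 1024, 73, 75, 8749, 8869, 0, 1578, 0, []⟩

theorem k73_42 : chk g73_42 T650 [
  ⟨1371, 120, 600, 144, 328, false, false, false, [(0, 1), (3, 3), (39, 2), (18, 1), (19, 2), (20, 1), (21, 2), (22, 2), (23, 2), (24, 2), (25, 2), (26, 1), (27, 2), (28, 2), (29, 2), (30, 2), (31, 1), (3, 10)], []⟩,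
  ⟨2331, 120, 0, 256, 145, true, true, true, [(0, 2), (3, 3), (4, 1), (12, 1), (3, 1), (5, 1), (13, 1), (3, 1), (14, 3), (15, 4), (16, 3), (27, 2), (28, 2)], [(29, 2), (30, 2), (31, 1), (32, 2)]⟩,
  ⟨3003, 120, 0, 224, 120, true, true, true, [(0, 6), (4, 1), (0, 2), (5, 1), (0, 2), (6, 2), (7, 4), (8, 3), (27, 2), (28, 2), (29, 2), (30, 2), (31, 1), (32, 1)], [(32, 1), (33, 2)]⟩,
  ⟨3944, 120, 0, 160, 78, true, true, false, [(0, 39)], []⟩,
  ⟨7569, 120, 0, 0, 0, true, false, false, [(0, 50)], []⟩,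
  ⟨9237, 120, 0, 0, 0, true, false, false, [(0, 50)], []⟩
  ] = true := by decide +kernel

def g73_43 : Gr := ⟨false, 691, 717, 1024, 1024, 73, 75, 8749, 8869, 0, 1519, 0, []⟩

theorem k73_43 : chk g73_43 T675 [
  ⟨1371, 120, 600, 128, 360, false, false, true, [(0, 1), (3, 3), (40, 2), (18, 1), (19, 2), (20, 1), (21, 2), (22, 2), (23, 2), (24, 2), (25, 2), (26, 1), (27, 2), (28, 2), (29, 2), (30, 2), (31, 1), (32, 2), (3, 8)], [(3, 3)]⟩,
  ⟨2742, 120, 0, 224, 152, true, true, true, [(0, 2), (3, 3), (4, 1), (12, 1), (3, 1), (13, 2), (14, 4), (15, 4), (16, 3), (27, 2), (28, 2), (29, 2)], [(30, 2), (31, 1), (32, 2), (33, 2), (34, 2)]⟩,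
  ⟨3702, 120, 0, 192, 98, true, true, true, [(0, 13), (6, 1), (0, 2), (7, 2), (0, 2), (8, 1), (0, 2), (9, 2), (29, 2), (30, 2), (31, 1), (32, 2), (33, 2), (34, 1)], [(34, 1), (35, 2)]⟩,
  ⟨6340, 120, 0, 0, 0, true, false, false, [(0, 52)], []⟩,
  ⟨9212, 120, 0, 0, 0, true, false, false, [(0, 52)], []⟩
  ] = true := by decide +kernel

def g73_44 : Gr := ⟨false, 716, 743, 1024, 1024, 73, 75, 8749, 8869, 0, 1466, 0, []⟩

theorem k73_44 : chk g73_44 T700 [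
  ⟨1371, 120, 600, 120, 384, false, false, true, [(0, 1), (3, 3), (41, 2), (18, 1), (19, 2), (20, 1), (21, 2), (22, 2), (23, 2), (24, 2), (25, 2), (26, 1), (27, 2), (28, 2), (29, 2), (30, 2), (31, 1), (32, 2), (33, 1), (3, 9)], [(3, 3)]⟩,
  ⟨2742, 120, 0, 224, 176, true, true, true, [(0, 2), (3, 3), (4, 1), (12, 1), (5, 1), (13, 2), (14, 4), (15, 4), (16, 3), (27, 2), (28, 2), (29, 2), (30, 2)], [(31, 1), (32, 2), (33, 2), (34, 2), (35, 2)]⟩,
  ⟨3702, 120, 0, 192, 98, true, true, true, [(0, 9), (5, 1), (0, 2), (6, 2), (0, 2), (7, 2), (0, 1), (8, 2), (0, 1), (9, 3), (29, 2), (30, 2), (31, 1), (32, 2), (33, 2), (34, 2), (35, 1)], [(35, 1), (36, 2)]⟩,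
  ⟨5586, 120, 0, 24, 43, true, true, false, [(0, 52)], []⟩,
  ⟨9213, 120, 0, 0, 0, true, false, false, [(0, 54)], []⟩
  ] = true := by decide +kernel

def g73_45 : Gr := ⟨false, 742, 768, 1024, 1024, 73, 75, 8749, 8869, 0, 1415, 0, []⟩

theorem k73_45 : chk g73_45 T725 [
  ⟨1921, 120, 600, 272, 272, false, false, false, [(0, 1), (3, 3), (44, 2), (20, 1), (21, 2), (22, 1), (23, 2), (24, 2), (25, 2), (26, 2), (27, 2), (28, 1), (29, 2), (30, 2), (31, 2), (32, 2), (33, 1), (34, 2), (35, 2), (36, 2)], []⟩,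
  ⟨3842, 120, 0, 208, 109, true, true, true, [(0, 4), (4, 3), (5, 3), (6, 4), (7, 2), (16, 2), (17, 3), (18, 4), (31, 2), (32, 2), (33, 1), (34, 2), (35, 2)], [(36, 2), (37, 2), (38, 2), (39, 1)]⟩,
  ⟨5763, 120, 0, 6, 67, true, true, false, [(0, 55)], []⟩,
  ⟨9192, 120, 0, 0, 0, true, false, false, [(0, 56)], []⟩
  ] = true := by decide +kernel

def g73_46 : Gr := ⟨false, 768, 794, 1024, 1024, 73, 75, 8749, 8869, 0, 1367, 0, []⟩

theorem k73_46 : chk g73_46 T750 [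
  ⟨1921, 120, 600, 272, 272, false, false, true, [(2, 4), (45, 2), (20, 1), (21, 2), (22, 1), (23, 2), (24, 2), (25, 2), (26, 2), (27, 2), (28, 1), (29, 2), (30, 2), (31, 2), (32, 2), (33, 1), (34, 2), (35, 2)], [(36, 2), (37, 2)]⟩,
  ⟨3842, 120, 0, 208, 117, true, true, true, [(0, 4), (4, 3), (5, 3), (6, 4), (7, 2), (16, 2), (17, 3), (18, 4), (31, 2), (32, 2), (33, 1), (34, 2), (35, 2), (36, 2), (37, 2)], [(38, 2), (39, 1), (40, 2)]⟩,
  ⟨5763, 120, 0, 6, 91, true, true, true, [(0, 54)], [(0, 3)]⟩,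
  ⟨9181, 120, 0, 0, 0, true, false, false, [(0, 58)], []⟩
  ] = true := by decide +kernel

def g73_47 : Gr := ⟨false, 793, 820, 1024, 1024, 73, 75, 8749, 8869, 0, 1324, 0, []⟩

theorem k73_47 : chk g73_47 T775 [
  ⟨1921, 120, 600, 272, 280, false, false, true, [(2, 4), (45, 2), (20, 1), (21, 2), (22, 1), (23, 2), (24, 2), (25, 2), (26, 2), (27, 2), (28, 1), (29, 2), (30, 2), (31, 2), (32, 2), (33, 1), (34, 2), (35, 2), (36, 2)], [(37, 2), (38, 2)]⟩,
  ⟨3842, 120, 0, 208, 141, true, true, true, [(0, 4), (4, 3), (5, 3), (6, 4), (7, 2), (16, 2), (17, 3), (18, 4), (31, 2), (32, 2), (33, 1), (34, 2), (35, 2), (36, 2), (37, 2), (38, 2)], [(39, 1), (40, 2), (41, 2)]⟩,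
  ⟨5763, 120, 0, 32, 88, true, false, true, [(0, 54)], [(0, 3)]⟩,
  ⟨9183, 120, 0, 0, 0, true, false, true, [(0, 56)], [(0, 4)]⟩
  ] = true := by decide +kernel

end Pool.Agent.Lib.MP_af3a4a_an.P1.CHK.H81.L
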