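import Pool.Agent.Lib.MP_af3a4a_an.P1.CHK.H81.LT
/-!
# Data, `76 ≤ N ≤ 78`, `286 ≤ 1024 R ≤ 417` (helper81)
-/
set_option autoImplicit false

namespace Pool.Agent.Lib.MP_af3a4a_an.P1.CHK.H81.L

open Pool.Agent.Lib.MP_af3a4a_an.P1.CHK.H58.G (Gr En)

def g76_0 : Gr := ⟨false, 286, 296, 1024, 1024, 76, 78, 8927, 9044, 512, 3668, 0, []⟩

theorem k76_0 : chk g76_0 [] [
  ⟨1290, 90, 0, 176, 88, true, true, false, [(0, 12)], []⟩,
  ⟨1380, 90, 0, 176, 88, true, true, false, [(0, 12)], []⟩,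
  ⟨1559, 90, 0, 160, 78, true, true, false, [(0, 14)], []⟩,
  ⟨2055, 90, 0, 128, 60, true, true, false, [(0, 17)], []⟩,
  ⟨4734, 90, 0, 32, 14, true, true, false, [(0, 26)], []⟩,
  ⟨8485, 90, 0, 0, 0, true, false, false, [(0, 30)], []⟩,
  ⟨9365, 90, 0, 0, 0, true, false, false, [(0, 30)], []⟩
  ] = true := by decide +kernel

def g76_1 : Gr := ⟨false, 296, 302, 1024, 1024, 76, 78, 8927, 9044, 512, 3544, 0, []⟩

theorem k76_1 : chk g76_1 [] [
  ⟨1354, 90, 0, 192, 98, true, true, false, [(0, 11)], []⟩,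
  ⟨1533, 90, 0, 160, 78, true, true, false, [(0, 14)], []⟩,
  ⟨1888, 90, 0, 144, 69, true, true, false, [(0, 16)], []⟩,
  ⟨3259, 90, 0, 80, 36, true, true, false, [(0, 22)], []⟩,
  ⟨7026, 90, 0, 0, 0, true, false, false, [(0, 30)], []⟩,
  ⟨9232, 90, 0, 0, 0, true, false, false, [(0, 30)], []⟩
  ] = true := by decide +kernel

def g76_2 : Gr := ⟨false, 302, 308, 1024, 1024, 76, 78, 8927, 9044, 384, 3474, 0, []⟩

theorem k76_2 : chk g76_2 [] [
  ⟨1031, 90, 0, 208, 109, true, true, false, [(0, 1), (3, 9)], []⟩,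
  ⟨1075, 90, 0, 176, 88, true, true, false, [(0, 2), (3, 11)], []⟩,
  ⟨1119, 90, 0, 176, 88, true, true, false, [(0, 2), (3, 11)], []⟩,
  ⟨1182, 90, 0, 176, 88, true, true, false, [(0, 2), (3, 11)], []⟩,
  ⟨1245, 90, 0, 176, 88, true, true, false, [(0, 3), (3, 10)], []⟩,
  ⟨1308, 90, 0, 176, 88, true, true, false, [(0, 5), (3, 8)], []⟩,
  ⟨1435, 90, 0, 176, 88, true, true, false, [(0, 13)], []⟩,
  ⟨1614, 90, 0, 176, 88, true, true, false, [(0, 13)], []⟩,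
  ⟨2110, 90, 0, 128, 60, true, true, false, [(0, 18)], []⟩,
  ⟨4789, 90, 0, 24, 11, true, true, false, [(0, 28)], []⟩,
  ⟨8540, 90, 0, 0, 0, true, false, false, [(0, 31)], []⟩,
  ⟨9229, 90, 0, 0, 0, true, false, false, [(0, 31)], []⟩
  ] = true := by decide +kernel

def g76_3 : Gr := ⟨false, 307, 313, 1024, 1024, 76, 78, 8927, 9044, 384, 3417, 0, []⟩

theorem k76_3 : chk g76_3 T300 [
  ⟨1067, 120, 0, 192, 98, true, true, false, [(0, 1), (3, 8)], []⟩,
  ⟨1131, 120, 0, 192, 98, true, true, false, [(0, 2), (3, 7)], []⟩,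
  ⟨1195, 120, 0, 192, 98, true, true, false, [(0, 2), (3, 7)], []⟩,
  ⟨1259, 120, 0, 192, 98, true, true, false, [(0, 3), (3, 6)], []⟩,
  ⟨1303, 120, 0, 192, 98, true, true, false, [(0, 4), (3, 5)], []⟩,
  ⟨1347, 120, 0, 192, 98, true, true, false, [(0, 9)], []⟩,
  ⟨1410, 120, 0, 192, 98, true, true, false, [(0, 9)], []⟩,
  ⟨1473, 120, 0, 192, 98, true, true, false, [(0, 9)], []⟩,
  ⟨1600, 120, 0, 160, 78, true, true, false, [(0, 12)], []⟩,
  ⟨1953, 120, 0, 144, 69, true, true, false, [(0, 13)], []⟩,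
  ⟨3318, 120, 0, 72, 32, true, true, false, [(0, 18)], []⟩,
  ⟨7069, 120, 0, 0, 0, true, false, false, [(0, 24)], []⟩,
  ⟨9225, 120, 0, 0, 0, true, false, false, [(0, 24)], []⟩
  ] = true := by decide +kernel

def g76_4 : Gr := ⟨false, 313, 317, 1024, 1024, 76, 78, 8927, 9044, 384, 3352, 0, []⟩

theorem k76_4 : chk g76_4 T300 [
  ⟨1087, 90, 0, 208, 109, true, true, false, [(0, 1), (3, 10)], []⟩,
  ⟨1151, 90, 0, 208, 109, true, true, false, [(0, 2), (3, 9)], []⟩,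
  ⟨1195, 90, 0, 208, 109, true, true, false, [(0, 2), (3, 9)], []⟩,
  ⟨1239, 90, 0, 176, 88, true, true, false, [(0, 2), (3, 12)], []⟩,
  ⟨1283, 90, 0, 176, 88, true, true, false, [(0, 3), (3, 11)], []⟩,
  ⟨1327, 90, 0, 176, 88, true, true, false, [(0, 4), (3, 10)], []⟩,
  ⟨1390, 90, 0, 176, 88, true, true, false, [(0, 14)], []⟩,
  ⟨1569, 90, 0, 176, 88, true, true, false, [(0, 14)], []⟩,
  ⟨1922, 90, 0, 144, 69, true, true, false, [(0, 17)], []⟩,
  ⟨2896, 90, 0, 96, 44, true, true, false, [(0, 22)], []⟩,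
  ⟨6647, 90, 0, 0, 0, true, false, false, [(0, 32)], []⟩,
  ⟨9165, 90, 0, 0, 0, true, false, false, [(0, 32)], []⟩
  ] = true := by decide +kernel

def g76_5 : Gr := ⟨false, 317, 323, 1024, 1024, 76, 78, 8927, 9044, 256, 3309, 0, []⟩

theorem k76_5 : chk g76_5 T300 [
  ⟨721, 90, 0, 224, 120, true, true, false, [(0, 1), (3, 9)], []⟩,
  ⟨752, 90, 0, 224, 120, true, true, false, [(0, 1), (3, 9)], []⟩,
  ⟨783, 90, 0, 224, 120, true, true, false, [(0, 1), (3, 9)], []⟩,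
  ⟨814, 90, 0, 224, 120, true, true, false, [(0, 1), (3, 9)], []⟩,
  ⟨845, 90, 0, 224, 120, true, true, false, [(0, 1), (3, 9)], []⟩,
  ⟨876, 90, 0, 192, 98, true, true, false, [(0, 1), (3, 12)], []⟩,
  ⟨920, 90, 0, 192, 98, true, true, false, [(0, 1), (3, 12)], []⟩,
  ⟨964, 90, 0, 192, 98, true, true, false, [(0, 1), (3, 12)], []⟩,
  ⟨1027, 90, 0, 192, 98, true, true, false, [(0, 1), (3, 12)], []⟩,
  ⟨1090, 90, 0, 192, 98, true, true, false, [(0, 1), (3, 12)], []⟩,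
  ⟨1153, 90, 0, 192, 98, true, true, false, [(0, 2), (3, 11)], []⟩,
  ⟨1216, 90, 0, 192, 98, true, true, false, [(0, 2), (3, 11)], []⟩,
  ⟨1279, 90, 0, 192, 98, true, true, false, [(0, 2), (3, 11)], []⟩,
  ⟨1342, 90, 0, 192, 98, true, true, false, [(0, 3), (3, 10)], []⟩,
  ⟨1405, 90, 0, 192, 98, true, true, false, [(0, 13)], []⟩,
  ⟨1495, 90, 0, 192, 98, true, true, false, [(0, 13)], []⟩,
  ⟨1747, 90, 0, 160, 78, true, true, false, [(0, 16)], []⟩,
  ⟨2444, 90, 0, 120, 56, true, true, false, [(0, 20)], []⟩,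
  ⟨6204, 90, 0, 0, 0, true, false, false, [(0, 32)], []⟩,
  ⟨9219, 90, 0, 0, 0, true, false, false, [(0, 32)], []⟩
  ] = true := by decide +kernel

def g76_6 : Gr := ⟨false, 323, 327, 1024, 1024, 76, 78, 8927, 9044, 256, 3248, 0, []⟩

theorem k76_6 : chk g76_6 T300 [
  ⟨724, 120, 0, 224, 120, true, true, false, [(0, 1), (3, 7)], []⟩,
  ⟨745, 120, 0, 224, 120, true, true, false, [(0, 1), (3, 7)], []⟩,
  ⟨766, 120, 0, 208, 109, true, true, false, [(0, 1), (3, 8)], []⟩,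
  ⟨797, 120, 0, 208, 109, true, true, false, [(0, 1), (3, 8)], []⟩,
  ⟨842, 120, 0, 208, 109, true, true, false, [(0, 1), (3, 8)], []⟩,
  ⟨887, 120, 0, 208, 109, true, true, false, [(0, 1), (3, 8)], []⟩,
  ⟨951, 120, 0, 208, 109, true, true, false, [(0, 1), (3, 8)], []⟩,
  ⟨1015, 120, 0, 208, 109, true, true, false, [(0, 1), (3, 8)], []⟩,
  ⟨1079, 120, 0, 208, 109, true, true, false, [(0, 1), (3, 8)], []⟩,
  ⟨1143, 120, 0, 192, 98, true, true, false, [(0, 2), (3, 8)], []⟩,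
  ⟨1207, 120, 0, 192, 98, true, true, false, [(0, 2), (3, 8)], []⟩,
  ⟨1271, 120, 0, 192, 98, true, true, false, [(0, 2), (3, 8)], []⟩,
  ⟨1335, 120, 0, 192, 98, true, true, false, [(0, 3), (3, 7)], []⟩,
  ⟨1399, 120, 0, 192, 98, true, true, false, [(0, 5), (3, 5)], []⟩,
  ⟨1490, 120, 0, 192, 98, true, true, false, [(0, 10)], []⟩,
  ⟨1581, 120, 0, 192, 98, true, true, false, [(0, 10)], []⟩,
  ⟨1836, 120, 0, 160, 78, true, true, false, [(0, 13)], []⟩,
  ⟨2540, 120, 0, 112, 52, true, true, false, [(0, 16)], []⟩,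
  ⟨6341, 120, 0, 0, 0, true, false, false, [(0, 25)], []⟩,
  ⟨9161, 120, 0, 0, 0, true, false, false, [(0, 25)], []⟩
  ] = true := by decide +kernel

def g76_7 : Gr := ⟨false, 327, 330, 1024, 1024, 76, 78, 8927, 9044, 256, 3208, 0, []⟩

theorem k76_7 : chk g76_7 T300 [
  ⟨776, 90, 0, 208, 109, true, true, false, [(0, 1), (3, 11)], []⟩,
  ⟨840, 90, 0, 208, 109, true, true, false, [(0, 1), (3, 11)], []⟩,
  ⟨930, 90, 0, 208, 109, true, true, false, [(0, 1), (3, 11)], []⟩,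
  ⟨1020, 90, 0, 208, 109, true, true, false, [(0, 1), (3, 11)], []⟩,
  ⟨1110, 90, 0, 208, 109, true, true, false, [(0, 1), (3, 11)], []⟩,
  ⟨1200, 90, 0, 208, 109, true, true, false, [(0, 2), (3, 10)], []⟩,
  ⟨1263, 90, 0, 192, 98, true, true, false, [(0, 2), (3, 12)], []⟩,
  ⟨1326, 90, 0, 192, 98, true, true, false, [(0, 3), (3, 11)], []⟩,
  ⟨1389, 90, 0, 192, 98, true, true, false, [(0, 4), (3, 10)], []⟩,
  ⟨1452, 90, 0, 192, 98, true, true, false, [(0, 14)], []⟩,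
  ⟨1578, 90, 0, 192, 98, true, true, false, [(0, 14)], []⟩,
  ⟨1930, 90, 0, 160, 78, true, true, false, [(0, 17)], []⟩,
  ⟨2900, 90, 0, 96, 44, true, true, false, [(0, 23)], []⟩,
  ⟨6634, 90, 0, 0, 0, true, false, false, [(0, 33)], []⟩,
  ⟨9131, 90, 0, 0, 0, true, false, false, [(0, 33)], []⟩
  ] = true := by decide +kernel

def g76_8 : Gr := ⟨false, 330, 333, 1024, 1024, 76, 78, 8927, 9044, 256, 3179, 0, []⟩

theorem k76_8 : chk g76_8 T300 [
  ⟨783, 90, 0, 224, 120, true, true, false, [(0, 1), (3, 10)], []⟩,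
  ⟨847, 90, 0, 224, 120, true, true, false, [(0, 1), (3, 10)], []⟩,
  ⟨911, 90, 0, 224, 120, true, true, false, [(0, 1), (3, 10)], []⟩,
  ⟨975, 90, 0, 224, 120, true, true, false, [(0, 1), (3, 10)], []⟩,
  ⟨1039, 90, 0, 192, 98, true, true, false, [(0, 1), (3, 13)], []⟩,
  ⟨1103, 90, 0, 192, 98, true, true, false, [(0, 1), (3, 13)], []⟩,
  ⟨1193, 90, 0, 192, 98, true, true, false, [(0, 2), (3, 12)], []⟩,
  ⟨1283, 90, 0, 192, 98, true, true, false, [(0, 2), (3, 12)], []⟩,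
  ⟨1373, 90, 0, 192, 98, true, true, false, [(0, 3), (3, 11)], []⟩,
  ⟨1436, 90, 0, 192, 98, true, true, false, [(0, 6), (3, 8)], []⟩,
  ⟨1562, 90, 0, 192, 98, true, true, false, [(0, 14)], []⟩,
  ⟨1812, 90, 0, 160, 78, true, true, false, [(0, 17)], []⟩,
  ⟨2504, 90, 0, 120, 56, true, true, false, [(0, 21)], []⟩,
  ⟨6238, 90, 0, 0, 0, true, false, false, [(0, 33)], []⟩,
  ⟨9131, 90, 0, 0, 0, true, false, false, [(0, 33)], []⟩
  ] = true := by decide +kernel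

def g76_9 : Gr := ⟨false, 332, 336, 1024, 1024, 76, 78, 8927, 9044, 256, 3160, 0, []⟩

theorem k76_9 : chk g76_9 T325 [
  ⟨787, 90, 0, 224, 120, true, true, false, [(0, 1), (3, 10)], []⟩,
  ⟨851, 90, 0, 224, 120, true, true, false, [(0, 1), (3, 10)], []⟩,
  ⟨915, 90, 0, 224, 120, true, true, false, [(0, 1), (3, 10)], []⟩,
  ⟨979, 90, 0, 208, 109, true, true, false, [(0, 1), (3, 12)], []⟩,
  ⟨1069, 90, 0, 208, 109, true, true, false, [(0, 1), (3, 12)], []⟩,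
  ⟨1159, 90, 0, 208, 109, true, true, false, [(0, 2), (3, 11)], []⟩,
  ⟨1222, 90, 0, 208, 109, true, true, false, [(0, 2), (3, 11)], []⟩,
  ⟨1285, 90, 0, 208, 109, true, true, false, [(0, 2), (3, 11)], []⟩,
  ⟨1329, 90, 0, 208, 109, true, true, false, [(0, 3), (3, 10)], []⟩,
  ⟨1360, 90, 0, 208, 109, true, true, false, [(0, 3), (3, 10)], []⟩,
  ⟨1381, 90, 0, 208, 109, true, true, false, [(0, 4), (3, 9)], []⟩,
  ⟨1396, 90, 0, 192, 98, true, true, false, [(0, 4), (3, 11)], []⟩,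
  ⟨1411, 90, 0, 192, 98, true, true, false, [(0, 5), (3, 10)], []⟩,
  ⟨1426, 90, 0, 192, 98, true, true, false, [(0, 7), (3, 8)], []⟩,
  ⟨1441, 90, 0, 192, 98, true, true, false, [(0, 13), (3, 2)], []⟩,
  ⟨1487, 90, 0, 176, 88, true, true, false, [(0, 16)], []⟩,
  ⟨1617, 90, 0, 176, 88, true, true, false, [(0, 16)], []⟩,
  ⟨1876, 90, 0, 160, 78, true, true, false, [(0, 18)], []⟩,
  ⟨2591, 90, 0, 112, 52, true, true, false, [(0, 22)], []⟩,
  ⟨6449, 90, 0, 0, 0, true, false, false, [(0, 33)], []⟩,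
  ⟨9158, 90, 0, 0, 0, true, false, false, [(0, 33)], []⟩
  ] = true := by decide +kernel

def g76_10 : Gr := ⟨false, 336, 341, 1024, 1024, 76, 78, 8927, 9044, 128, 2048, 0, []⟩

theorem k76_10 : chk g76_10 T325 [
  ⟨493, 120, 720, 72, 208, false, false, false, [(0, 1), (3, 9), (8, 1), (3, 9)], []⟩,
  ⟨555, 120, 720, 72, 208, false, false, false, [(0, 1), (3, 19)], []⟩,
  ⟨617, 120, 480, 192, 98, false, true, false, [(0, 1), (3, 10)], []⟩,
  ⟨660, 120, 480, 192, 98, false, true, false, [(0, 1), (3, 10)], []⟩,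
  ⟨703, 120, 480, 192, 98, false, true, false, [(0, 1), (3, 10)], []⟩,
  ⟨733, 120, 480, 192, 98, false, true, false, [(0, 1), (3, 10)], []⟩,
  ⟨754, 120, 0, 224, 120, true, true, false, [(0, 1), (3, 8)], []⟩,
  ⟨785, 120, 0, 224, 120, true, true, false, [(0, 1), (3, 8)], []⟩,
  ⟨816, 120, 0, 224, 120, true, true, false, [(0, 1), (3, 8)], []⟩,
  ⟨847, 120, 0, 224, 120, true, true, false, [(0, 1), (3, 8)], []⟩,
  ⟨891, 120, 0, 224, 120, true, true, false, [(0, 1), (3, 8)], []⟩,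
  ⟨935, 120, 0, 208, 109, true, true, false, [(0, 1), (3, 9)], []⟩,
  ⟨979, 120, 0, 208, 109, true, true, false, [(0, 1), (3, 9)], []⟩,
  ⟨1042, 120, 0, 208, 109, true, true, false, [(0, 1), (3, 9)], []⟩,
  ⟨1105, 120, 0, 208, 109, true, true, false, [(0, 1), (3, 9)], []⟩,
  ⟨1168, 120, 0, 208, 109, true, true, false, [(0, 2), (3, 8)], []⟩,
  ⟨1231, 120, 0, 208, 109, true, true, false, [(0, 2), (3, 8)], []⟩,
  ⟨1294, 120, 0, 192, 98, true, true, false, [(0, 2), (3, 9)], []⟩,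
  ⟨1357, 120, 0, 192, 98, true, true, false, [(0, 3), (3, 8)], []⟩,
  ⟨1420, 120, 0, 192, 98, true, true, false, [(0, 4), (3, 7)], []⟩,
  ⟨1464, 120, 0, 192, 98, true, true, false, [(0, 8), (3, 3)], []⟩,
  ⟨1553, 120, 0, 192, 98, true, true, false, [(0, 11)], []⟩,
  ⟨1678, 120, 0, 192, 98, true, true, false, [(0, 11)], []⟩,
  ⟨1927, 120, 0, 160, 78, true, true, false, [(0, 14)], []⟩,
  ⟨2615, 120, 0, 112, 52, true, true, false, [(0, 17)], []⟩,
  ⟨6024, 120, 0, 0, 0, true, false, false, [(0, 26)], []⟩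
  ] = true := by decide +kernel

def g76_11 : Gr := ⟨false, 341, 349, 1024, 1024, 76, 78, 8927, 9044, 128, 2048, 0, []⟩

theorem k76_11 : chk g76_11 T325 [
  ⟨498, 70, 700, 72, 216, false, false, false, [(0, 1), (3, 17), (8, 1), (3, 16)], []⟩,
  ⟨587, 70, 700, 80, 200, false, false, false, [(0, 1), (3, 33)], []⟩,
  ⟨630, 70, 490, 192, 98, false, true, false, [(0, 1), (3, 19)], []⟩,
  ⟨660, 70, 490, 192, 98, false, true, false, [(0, 1), (3, 19)], []⟩,
  ⟨690, 70, 490, 192, 98, false, true, false, [(0, 1), (3, 19)], []⟩,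
  ⟨711, 70, 490, 192, 98, false, true, false, [(0, 1), (3, 19)], []⟩,
  ⟨732, 70, 490, 192, 98, false, true, false, [(0, 1), (3, 19)], []⟩,
  ⟨747, 70, 490, 192, 98, false, true, false, [(0, 1), (3, 19)], []⟩,
  ⟨762, 70, 0, 224, 120, true, true, false, [(0, 1), (3, 15)], []⟩,
  ⟨777, 70, 0, 224, 120, true, true, false, [(0, 1), (3, 15)], []⟩,
  ⟨799, 70, 0, 224, 120, true, true, false, [(0, 1), (3, 15)], []⟩,
  ⟨821, 70, 0, 224, 120, true, true, false, [(0, 1), (3, 15)], []⟩,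
  ⟨843, 70, 0, 224, 120, true, true, false, [(0, 1), (3, 15)], []⟩,
  ⟨874, 70, 0, 224, 120, true, true, false, [(0, 1), (3, 15)], []⟩,
  ⟨905, 70, 0, 224, 120, true, true, false, [(0, 1), (3, 15)], []⟩,
  ⟨936, 70, 0, 224, 120, true, true, false, [(0, 1), (3, 15)], []⟩,
  ⟨967, 70, 0, 224, 120, true, true, false, [(0, 1), (3, 15)], []⟩,
  ⟨998, 70, 0, 208, 109, true, true, false, [(0, 1), (3, 17)], []⟩,
  ⟨1043, 70, 0, 208, 109, true, true, false, [(0, 1), (3, 17)], []⟩,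
  ⟨1088, 70, 0, 208, 109, true, true, false, [(0, 1), (3, 17)], []⟩,
  ⟨1133, 70, 0, 208, 109, true, true, false, [(0, 1), (3, 17)], []⟩,
  ⟨1178, 70, 0, 208, 109, true, true, false, [(0, 2), (3, 16)], []⟩,
  ⟨1223, 70, 0, 208, 109, true, true, false, [(0, 2), (3, 16)], []⟩,
  ⟨1268, 70, 0, 208, 109, true, true, false, [(0, 2), (3, 16)], []⟩,
  ⟨1299, 70, 0, 208, 109, true, true, false, [(0, 2), (3, 16)], []⟩,
  ⟨1330, 70, 0, 192, 98, true, true, false, [(0, 2), (3, 18)], []⟩,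
  ⟨1361, 70, 0, 192, 98, true, true, false, [(0, 3), (3, 17)], []⟩,
  ⟨1392, 70, 0, 192, 98, true, true, false, [(0, 3), (3, 17)], []⟩,
  ⟨1423, 70, 0, 192, 98, true, true, false, [(0, 4), (3, 16)], []⟩,
  ⟨1445, 70, 0, 192, 98, true, true, false, [(0, 5), (3, 15)], []⟩,
  ⟨1467, 70, 0, 192, 98, true, true, false, [(0, 8), (3, 12)], []⟩,
  ⟨1489, 70, 0, 192, 98, true, true, false, [(0, 20)], []⟩,
  ⟨1535, 70, 0, 192, 98, true, true, false, [(0, 20)], []⟩,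
  ⟨1627, 70, 0, 176, 88, true, true, false, [(0, 22)], []⟩,
  ⟨1811, 70, 0, 176, 88, true, true, false, [(0, 22)], []⟩,
  ⟨2322, 70, 0, 144, 69, true, true, false, [(0, 26)], []⟩,
  ⟨5081, 70, 0, 20, 9, true, true, false, [(0, 42)], []⟩,
  ⟨6165, 70, 0, 0, 0, true, false, false, [(0, 45)], []⟩
  ] = true := by decide +kernel

def g76_12 : Gr := ⟨false, 349, 355, 1024, 1024, 76, 78, 8927, 9044, 128, 2048, 0, []⟩

theorem k76_12 : chk g76_12 T325 [
  ⟨507, 120, 720, 72, 224, false, false, false, [(0, 1), (3, 20)], []⟩,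
  ⟨596, 120, 720, 72, 208, false, false, false, [(0, 1), (3, 20)], []⟩,
  ⟨658, 120, 480, 192, 98, false, true, false, [(0, 1), (3, 11)], []⟩,
  ⟨701, 120, 480, 192, 98, false, true, false, [(0, 1), (3, 11)], []⟩,
  ⟨744, 120, 480, 192, 98, false, true, false, [(0, 1), (3, 11)], []⟩,
  ⟨774, 120, 480, 192, 98, false, true, false, [(0, 1), (3, 11)], []⟩,
  ⟨795, 120, 480, 192, 98, false, true, false, [(0, 1), (3, 11)], []⟩,
  ⟨816, 120, 0, 224, 120, true, true, false, [(0, 1), (3, 9)], []⟩,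
  ⟨847, 120, 0, 224, 120, true, true, false, [(0, 1), (3, 9)], []⟩,
  ⟨878, 120, 0, 224, 120, true, true, false, [(0, 1), (3, 9)], []⟩,
  ⟨922, 120, 0, 224, 120, true, true, false, [(0, 1), (3, 9)], []⟩,
  ⟨966, 120, 0, 224, 120, true, true, false, [(0, 1), (3, 9)], []⟩,
  ⟨1010, 120, 0, 224, 120, true, true, false, [(0, 1), (3, 9)], []⟩,
  ⟨1054, 120, 0, 224, 120, true, true, false, [(0, 1), (3, 9)], []⟩,
  ⟨1098, 120, 0, 208, 109, true, true, false, [(0, 1), (3, 10)], []⟩,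
  ⟨1161, 120, 0, 208, 109, true, true, false, [(0, 1), (3, 10)], []⟩,
  ⟨1224, 120, 0, 208, 109, true, true, false, [(0, 2), (3, 9)], []⟩,
  ⟨1287, 120, 0, 208, 109, true, true, false, [(0, 2), (3, 9)], []⟩,
  ⟨1331, 120, 0, 208, 109, true, true, false, [(0, 2), (3, 9)], []⟩,
  ⟨1375, 120, 0, 192, 98, true, true, false, [(0, 2), (3, 10)], []⟩,
  ⟨1419, 120, 0, 192, 98, true, true, false, [(0, 3), (3, 9)], []⟩,
  ⟨1463, 120, 0, 192, 98, true, true, false, [(0, 4), (3, 8)], []⟩,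
  ⟨1507, 120, 0, 192, 98, true, true, false, [(0, 6), (3, 6)], []⟩,
  ⟨1570, 120, 0, 192, 98, true, true, false, [(0, 12)], []⟩,
  ⟨1695, 120, 0, 192, 98, true, true, false, [(0, 12)], []⟩,
  ⟨1872, 120, 0, 160, 78, true, true, false, [(0, 15)], []⟩,
  ⟨2363, 120, 0, 128, 60, true, true, false, [(0, 17)], []⟩,
  ⟨6076, 120, 0, 2, 1, true, true, true, [(0, 25)], [(0, 1)]⟩,
  ⟨6271, 120, 0, 0, 0, true, false, false, [(0, 27)], []⟩
  ] = true := by decide +kernel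

def g76_13 : Gr := ⟨false, 355, 359, 1024, 1024, 76, 78, 8927, 9044, 0, 2048, 0, []⟩

theorem k76_13 : chk g76_13 T325 [
  ⟨355, 90, 720, 24, 280, false, false, false, [(0, 1), (3, 5), (15, 3), (7, 3), (8, 2), (9, 3), (3, 16)], []⟩,
  ⟨529, 90, 720, 64, 232, false, false, false, [(0, 1), (3, 28)], []⟩,
  ⟨650, 90, 630, 96, 192, false, false, false, [(0, 1), (3, 25)], []⟩,
  ⟨735, 90, 450, 208, 109, false, true, false, [(0, 1), (3, 14)], []⟩,
  ⟨794, 90, 450, 208, 109, false, true, false, [(0, 1), (3, 14)], []⟩,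
  ⟨853, 90, 0, 240, 132, true, true, false, [(0, 1), (3, 11)], []⟩,
  ⟨912, 90, 0, 240, 132, true, true, false, [(0, 1), (3, 11)], []⟩,
  ⟨971, 90, 0, 208, 109, true, true, false, [(0, 1), (3, 14)], []⟩,
  ⟨1030, 90, 0, 208, 109, true, true, false, [(0, 1), (3, 14)], []⟩,
  ⟨1114, 90, 0, 208, 109, true, true, false, [(0, 1), (3, 14)], []⟩,
  ⟨1198, 90, 0, 208, 109, true, true, false, [(0, 1), (3, 14)], []⟩,
  ⟨1282, 90, 0, 208, 109, true, true, false, [(0, 2), (3, 13)], []⟩,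
  ⟨1366, 90, 0, 208, 109, true, true, false, [(0, 2), (3, 13)], []⟩,
  ⟨1425, 90, 0, 208, 109, true, true, false, [(0, 3), (3, 12)], []⟩,
  ⟨1466, 90, 0, 208, 109, true, true, false, [(0, 3), (3, 12)], []⟩,
  ⟨1507, 90, 0, 208, 109, true, true, false, [(0, 5), (3, 10)], []⟩,
  ⟨1527, 90, 0, 208, 109, true, true, false, [(0, 8), (3, 7)], []⟩,
  ⟨1547, 90, 0, 208, 109, true, true, false, [(0, 15)], []⟩,
  ⟨1589, 90, 0, 192, 98, true, true, false, [(0, 17)], []⟩,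
  ⟨1709, 90, 0, 176, 88, true, true, false, [(0, 18)], []⟩,
  ⟨1946, 90, 0, 176, 88, true, true, false, [(0, 18)], []⟩,
  ⟨2603, 90, 0, 128, 60, true, true, false, [(0, 23)], []⟩,
  ⟨6148, 90, 0, 0, 0, true, false, false, [(0, 36)], []⟩,
  ⟨6342, 90, 0, 0, 0, true, false, false, [(0, 36)], []⟩
  ] = true := by decide +kernel

def g76_14 : Gr := ⟨false, 358, 366, 1024, 1024, 76, 78, 8927, 9044, 0, 2048, 0, []⟩

theorem k76_14 : chk g76_14 T350 [
  ⟨355, 70, 700, 20, 284, false, false, false, [(0, 1), (3, 6), (18, 4), (8, 1), (9, 3), (10, 4), (11, 3), (3, 22)], []⟩,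
  ⟨529, 70, 700, 60, 236, false, false, false, [(0, 1), (3, 17), (10, 1), (11, 3), (3, 17)], []⟩,
  ⟨614, 70, 700, 60, 228, false, false, false, [(0, 1), (3, 20), (11, 1), (3, 17)], []⟩,
  ⟨673, 70, 490, 208, 109, false, true, false, [(0, 1), (3, 19)], []⟩,
  ⟨732, 70, 490, 208, 109, false, true, false, [(0, 1), (3, 19)], []⟩,
  ⟨773, 70, 490, 208, 109, false, true, false, [(0, 1), (3, 19)], []⟩,
  ⟨802, 70, 490, 208, 109, false, true, false, [(0, 1), (3, 19)], []⟩,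
  ⟨822, 70, 0, 224, 120, true, true, false, [(0, 1), (3, 17)], []⟩,
  ⟨851, 70, 0, 224, 120, true, true, false, [(0, 1), (3, 17)], []⟩,
  ⟨880, 70, 0, 224, 120, true, true, false, [(0, 1), (3, 17)], []⟩,
  ⟨922, 70, 0, 224, 120, true, true, false, [(0, 1), (3, 17)], []⟩,
  ⟨964, 70, 0, 224, 120, true, true, false, [(0, 1), (3, 17)], []⟩,
  ⟨1006, 70, 0, 224, 120, true, true, false, [(0, 1), (3, 17)], []⟩,
  ⟨1048, 70, 0, 224, 120, true, true, false, [(0, 1), (3, 17)], []⟩,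
  ⟨1090, 70, 0, 224, 120, true, true, false, [(0, 1), (3, 17)], []⟩,
  ⟨1132, 70, 0, 224, 120, true, true, false, [(0, 1), (3, 17)], []⟩,
  ⟨1174, 70, 0, 208, 109, true, true, false, [(0, 1), (3, 19)], []⟩,
  ⟨1234, 70, 0, 208, 109, true, true, false, [(0, 2), (3, 18)], []⟩,
  ⟨1294, 70, 0, 208, 109, true, true, false, [(0, 2), (3, 18)], []⟩,
  ⟨1336, 70, 0, 208, 109, true, true, false, [(0, 2), (3, 18)], []⟩,
  ⟨1378, 70, 0, 208, 109, true, true, false, [(0, 2), (3, 18)], []⟩,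
  ⟨1420, 70, 0, 208, 109, true, true, false, [(0, 3), (3, 17)], []⟩,
  ⟨1449, 70, 0, 208, 109, true, true, false, [(0, 3), (3, 17)], []⟩,
  ⟨1469, 70, 0, 192, 98, true, true, false, [(0, 3), (3, 19)], []⟩,
  ⟨1489, 70, 0, 192, 98, true, true, false, [(0, 4), (3, 18)], []⟩,
  ⟨1509, 70, 0, 192, 98, true, true, false, [(0, 5), (3, 17)], []⟩,
  ⟨1529, 70, 0, 192, 98, true, true, false, [(0, 6), (3, 16)], []⟩,
  ⟨1549, 70, 0, 192, 98, true, true, false, [(0, 12), (3, 10)], []⟩,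
  ⟨1579, 70, 0, 192, 98, true, true, false, [(0, 22)], []⟩,
  ⟨1640, 70, 0, 192, 98, true, true, false, [(0, 22)], []⟩,
  ⟨1762, 70, 0, 176, 88, true, true, false, [(0, 24)], []⟩,
  ⟨2102, 70, 0, 160, 78, true, true, false, [(0, 26)], []⟩,
  ⟨3041, 70, 0, 96, 44, true, true, false, [(0, 35)], []⟩,
  ⟨6466, 70, 0, 0, 0, true, false, false, [(0, 47)], []⟩
  ] = true := by decide +kernel

def g76_15 : Gr := ⟨false, 366, 371, 1024, 1024, 76, 78, 8927, 9044, 0, 2048, 0, []⟩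

theorem k76_15 : chk g76_15 T350 [
  ⟨355, 120, 720, 20, 292, false, false, false, [(0, 1), (3, 3), (18, 3), (9, 2), (10, 2), (11, 2), (3, 13)], []⟩,
  ⟨529, 120, 720, 88, 216, false, false, false, [(0, 1), (3, 9), (10, 1), (11, 2), (3, 8)], []⟩,
  ⟨650, 120, 720, 88, 208, false, false, false, [(0, 1), (3, 11), (11, 1), (3, 8)], []⟩,
  ⟨735, 120, 480, 208, 109, false, true, false, [(0, 1), (3, 11)], []⟩,
  ⟨794, 120, 480, 208, 109, false, true, false, [(0, 1), (3, 11)], []⟩,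
  ⟨835, 120, 480, 208, 109, false, true, false, [(0, 1), (3, 11)], []⟩,
  ⟨876, 120, 0, 240, 132, true, true, false, [(0, 1), (3, 9)], []⟩,
  ⟨917, 120, 0, 224, 120, true, true, false, [(0, 1), (3, 10)], []⟩,
  ⟨976, 120, 0, 224, 120, true, true, false, [(0, 1), (3, 10)], []⟩,
  ⟨1035, 120, 0, 224, 120, true, true, false, [(0, 1), (3, 10)], []⟩,
  ⟨1094, 120, 0, 224, 120, true, true, false, [(0, 1), (3, 10)], []⟩,
  ⟨1153, 120, 0, 224, 120, true, true, false, [(0, 1), (3, 10)], []⟩,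
  ⟨1212, 120, 0, 208, 109, true, true, false, [(0, 2), (3, 10)], []⟩,
  ⟨1271, 120, 0, 208, 109, true, true, false, [(0, 2), (3, 10)], []⟩,
  ⟨1355, 120, 0, 208, 109, true, true, false, [(0, 2), (3, 10)], []⟩,
  ⟨1414, 120, 0, 208, 109, true, true, false, [(0, 2), (3, 10)], []⟩,
  ⟨1473, 120, 0, 208, 109, true, true, false, [(0, 3), (3, 9)], []⟩,
  ⟨1514, 120, 0, 208, 109, true, true, false, [(0, 3), (3, 9)], []⟩,
  ⟨1542, 120, 0, 208, 109, true, true, false, [(0, 4), (3, 8)], []⟩,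
  ⟨1570, 120, 0, 208, 109, true, true, false, [(0, 6), (3, 6)], []⟩,
  ⟨1590, 120, 0, 208, 109, true, true, false, [(0, 12)], []⟩,
  ⟨1610, 120, 0, 208, 109, true, true, false, [(0, 12)], []⟩,
  ⟨1639, 120, 0, 208, 109, true, true, false, [(0, 12)], []⟩,
  ⟨1668, 120, 0, 192, 98, true, true, false, [(0, 14)], []⟩,
  ⟨1727, 120, 0, 192, 98, true, true, false, [(0, 14)], []⟩,
  ⟨1895, 120, 0, 176, 88, true, true, false, [(0, 15)], []⟩,
  ⟨2362, 120, 0, 144, 69, true, true, false, [(0, 17)], []⟩,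
  ⟨4886, 120, 0, 32, 14, true, true, false, [(0, 25)], []⟩,
  ⟨6554, 120, 0, 0, 0, true, false, false, [(0, 28)], []⟩
  ] = true := by decide +kernel

def g76_16 : Gr := ⟨false, 371, 375, 1024, 1024, 76, 78, 8927, 9044, 0, 2048, 0, []⟩

theorem k76_16 : chk g76_16 T350 [
  ⟨355, 90, 720, 40, 280, false, false, false, [(0, 1), (3, 5), (18, 3), (9, 3), (10, 2), (11, 3), (3, 16)], []⟩,
  ⟨603, 90, 720, 80, 224, false, false, false, [(0, 1), (3, 12), (10, 1), (11, 3), (3, 12)], []⟩,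
  ⟨724, 90, 540, 192, 106, false, true, false, [(0, 1), (3, 15), (11, 1), (3, 1)], []⟩,
  ⟨809, 90, 540, 192, 98, false, true, false, [(0, 1), (3, 17)], []⟩,
  ⟨868, 90, 0, 224, 120, true, true, false, [(0, 1), (3, 14)], []⟩,
  ⟨927, 90, 0, 224, 120, true, true, false, [(0, 1), (3, 14)], []⟩,
  ⟨1011, 90, 0, 224, 120, true, true, false, [(0, 1), (3, 14)], []⟩,
  ⟨1095, 90, 0, 224, 120, true, true, false, [(0, 1), (3, 14)], []⟩,
  ⟨1179, 90, 0, 224, 120, true, true, false, [(0, 1), (3, 14)], []⟩,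
  ⟨1263, 90, 0, 224, 120, true, true, false, [(0, 2), (3, 13)], []⟩,
  ⟨1347, 90, 0, 224, 120, true, true, false, [(0, 2), (3, 13)], []⟩,
  ⟨1388, 90, 0, 192, 98, true, true, false, [(0, 2), (3, 16)], []⟩,
  ⟨1429, 90, 0, 192, 98, true, true, false, [(0, 2), (3, 16)], []⟩,
  ⟨1470, 90, 0, 192, 98, true, true, false, [(0, 3), (3, 15)], []⟩,
  ⟨1511, 90, 0, 192, 98, true, true, false, [(0, 3), (3, 15)], []⟩,
  ⟨1552, 90, 0, 192, 98, true, true, false, [(0, 4), (3, 14)], []⟩,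
  ⟨1593, 90, 0, 192, 98, true, true, false, [(0, 6), (3, 12)], []⟩,
  ⟨1652, 90, 0, 192, 98, true, true, false, [(0, 18)], []⟩,
  ⟨1770, 90, 0, 192, 98, true, true, false, [(0, 18)], []⟩,
  ⟨2003, 90, 0, 176, 88, true, true, false, [(0, 20)], []⟩,
  ⟨2648, 90, 0, 112, 52, true, true, false, [(0, 26)], []⟩,
  ⟨6132, 90, 0, 0, 0, true, false, false, [(0, 37)], []⟩,
  ⟨6625, 90, 0, 0, 0, true, false, false, [(0, 37)], []⟩
  ] = true := by decide +kernel

def g76_17 : Gr := ⟨false, 375, 381, 1024, 1024, 76, 78, 8927, 9044, 0, 2048, 0, []⟩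

theorem k76_17 : chk g76_17 T350 [
  ⟨498, 90, 540, 208, 117, false, true, false, [(0, 1), (3, 5), (18, 3), (9, 3), (10, 2), (11, 3)], []⟩,
  ⟨668, 90, 720, 96, 204, false, true, false, [(0, 1), (3, 14), (11, 2), (3, 11)], []⟩,
  ⟨751, 90, 540, 208, 109, false, true, false, [(0, 1), (3, 16)], []⟩,
  ⟨834, 90, 540, 208, 109, false, true, false, [(0, 1), (3, 16)], []⟩,
  ⟨892, 90, 0, 240, 132, true, true, false, [(0, 1), (3, 13)], []⟩,
  ⟨975, 90, 0, 240, 132, true, true, false, [(0, 1), (3, 13)], []⟩,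
  ⟨1033, 90, 0, 240, 132, true, true, false, [(0, 1), (3, 13)], []⟩,
  ⟨1091, 90, 0, 240, 132, true, true, false, [(0, 1), (3, 13)], []⟩,
  ⟨1149, 90, 0, 208, 109, true, true, false, [(0, 1), (3, 16)], []⟩,
  ⟨1207, 90, 0, 208, 109, true, true, false, [(0, 1), (3, 16)], []⟩,
  ⟨1289, 90, 0, 208, 109, true, true, false, [(0, 2), (3, 15)], []⟩,
  ⟨1371, 90, 0, 208, 109, true, true, false, [(0, 2), (3, 15)], []⟩,
  ⟨1453, 90, 0, 208, 109, true, true, false, [(0, 2), (3, 15)], []⟩,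
  ⟨1510, 90, 0, 208, 109, true, true, false, [(0, 3), (3, 14)], []⟩,
  ⟨1550, 90, 0, 208, 109, true, true, false, [(0, 3), (3, 14)], []⟩,
  ⟨1590, 90, 0, 208, 109, true, true, false, [(0, 5), (3, 12)], []⟩,
  ⟨1618, 90, 0, 208, 109, true, true, false, [(0, 9), (3, 8)], []⟩,
  ⟨1646, 90, 0, 208, 109, true, true, false, [(0, 17)], []⟩,
  ⟨1686, 90, 0, 192, 98, true, true, false, [(0, 19)], []⟩,
  ⟨1767, 90, 0, 192, 98, true, true, false, [(0, 19)], []⟩,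
  ⟨1929, 90, 0, 176, 88, true, true, false, [(0, 21)], []⟩,
  ⟨2380, 90, 0, 144, 69, true, true, false, [(0, 24)], []⟩,
  ⟨4121, 90, 0, 36, 16, true, true, false, [(0, 34)], []⟩,
  ⟨6731, 90, 0, 0, 0, true, false, false, [(0, 38)], []⟩
  ] = true := by decide +kernel

def g76_18 : Gr := ⟨false, 381, 384, 1024, 1024, 76, 78, 8927, 9044, 0, 2048, 0, []⟩

theorem k76_18 : chk g76_18 T350 [
  ⟨498, 120, 600, 208, 125, false, true, false, [(0, 1), (3, 3), (18, 3), (9, 2), (10, 2), (11, 2)], []⟩,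
  ⟨668, 120, 720, 88, 216, false, false, false, [(0, 1), (3, 11), (11, 1), (3, 9)], []⟩,
  ⟨751, 120, 720, 88, 208, false, false, false, [(0, 1), (3, 21)], []⟩,
  ⟨834, 120, 480, 208, 109, false, true, false, [(0, 1), (3, 12)], []⟩,
  ⟨892, 120, 480, 208, 109, false, true, false, [(0, 1), (3, 12)], []⟩,
  ⟨950, 120, 0, 240, 132, true, true, false, [(0, 1), (3, 10)], []⟩,
  ⟨1008, 120, 0, 240, 132, true, true, false, [(0, 1), (3, 10)], []⟩,
  ⟨1066, 120, 0, 224, 120, true, true, false, [(0, 1), (3, 11)], []⟩,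
  ⟨1149, 120, 0, 224, 120, true, true, false, [(0, 1), (3, 11)], []⟩,
  ⟨1232, 120, 0, 224, 120, true, true, false, [(0, 1), (3, 11)], []⟩,
  ⟨1315, 120, 0, 224, 120, true, true, false, [(0, 2), (3, 10)], []⟩,
  ⟨1398, 120, 0, 208, 109, true, true, false, [(0, 2), (3, 11)], []⟩,
  ⟨1481, 120, 0, 208, 109, true, true, false, [(0, 2), (3, 11)], []⟩,
  ⟨1563, 120, 0, 208, 109, true, true, false, [(0, 3), (3, 10)], []⟩,
  ⟨1620, 120, 0, 208, 109, true, true, false, [(0, 4), (3, 9)], []⟩,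
  ⟨1660, 120, 0, 208, 109, true, true, false, [(0, 10), (3, 3)], []⟩,
  ⟨1717, 120, 0, 208, 109, true, true, false, [(0, 13)], []⟩,
  ⟨1798, 120, 0, 192, 98, true, true, false, [(0, 15)], []⟩,
  ⟨2026, 120, 0, 176, 88, true, true, false, [(0, 16)], []⟩,
  ⟨2656, 120, 0, 128, 60, true, true, false, [(0, 19)], []⟩,
  ⟨6056, 120, 0, 0, 0, true, false, false, [(0, 29)], []⟩,
  ⟨6784, 120, 0, 0, 0, true, false, false, [(0, 29)], []⟩
  ] = true := by decide +kernel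

def g76_19 : Gr := ⟨false, 384, 390, 1024, 1024, 76, 78, 8927, 9044, 0, 2048, 0, []⟩

theorem k76_19 : chk g76_19 T375 [
  ⟨498, 90, 540, 208, 133, false, true, false, [(0, 1), (3, 5), (19, 3), (9, 3), (10, 2), (11, 3), (12, 1)], []⟩,
  ⟨668, 90, 720, 88, 224, false, false, false, [(0, 1), (3, 15), (11, 1), (3, 1), (12, 1), (3, 11)], []⟩,
  ⟨787, 90, 540, 208, 109, false, true, false, [(0, 1), (3, 17)], []⟩,
  ⟨870, 90, 540, 208, 109, false, true, false, [(0, 1), (3, 17)], []⟩,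
  ⟨928, 90, 540, 208, 109, false, true, false, [(0, 1), (3, 17)], []⟩,
  ⟨969, 90, 540, 208, 109, false, true, false, [(0, 1), (3, 17)], []⟩,
  ⟨1010, 90, 0, 240, 132, true, true, false, [(0, 1), (3, 14)], []⟩,
  ⟨1051, 90, 0, 240, 132, true, true, false, [(0, 1), (3, 14)], []⟩,
  ⟨1092, 90, 0, 240, 132, true, true, false, [(0, 1), (3, 14)], []⟩,
  ⟨1133, 90, 0, 208, 109, true, true, false, [(0, 1), (3, 17)], []⟩,
  ⟨1174, 90, 0, 208, 109, true, true, false, [(0, 1), (3, 17)], []⟩,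
  ⟨1232, 90, 0, 208, 109, true, true, false, [(0, 1), (3, 17)], []⟩,
  ⟨1290, 90, 0, 208, 109, true, true, false, [(0, 2), (3, 16)], []⟩,
  ⟨1348, 90, 0, 208, 109, true, true, false, [(0, 2), (3, 16)], []⟩,
  ⟨1406, 90, 0, 208, 109, true, true, false, [(0, 2), (3, 16)], []⟩,
  ⟨1464, 90, 0, 208, 109, true, true, false, [(0, 2), (3, 16)], []⟩,
  ⟨1522, 90, 0, 208, 109, true, true, false, [(0, 3), (3, 15)], []⟩,
  ⟨1580, 90, 0, 208, 109, true, true, false, [(0, 3), (3, 15)], []⟩,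
  ⟨1620, 90, 0, 208, 109, true, true, false, [(0, 4), (3, 14)], []⟩,
  ⟨1648, 90, 0, 208, 109, true, true, false, [(0, 7), (3, 11)], []⟩,
  ⟨1668, 90, 0, 208, 109, true, true, false, [(0, 16), (3, 2)], []⟩,
  ⟨1697, 90, 0, 208, 109, true, true, false, [(0, 18)], []⟩,
  ⟨1738, 90, 0, 192, 98, true, true, false, [(0, 20)], []⟩,
  ⟨1856, 90, 0, 192, 98, true, true, false, [(0, 20)], []⟩,
  ⟨2091, 90, 0, 160, 78, true, true, false, [(0, 23)], []⟩,
  ⟨2740, 90, 0, 128, 60, true, true, false, [(0, 26)], []⟩,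
  ⟨6244, 90, 0, 0, 0, true, false, false, [(0, 39)], []⟩,
  ⟨6889, 90, 0, 0, 0, true, false, false, [(0, 39)], []⟩
  ] = true := by decide +kernel

def g76_20 : Gr := ⟨false, 390, 398, 1024, 1024, 76, 78, 8927, 9044, 0, 2048, 0, []⟩

theorem k76_20 : chk g76_20 T375 [
  ⟨498, 120, 600, 224, 120, false, true, false, [(0, 1), (3, 3), (19, 3), (9, 2), (10, 2), (11, 2)], []⟩,
  ⟨668, 120, 720, 72, 240, false, false, false, [(0, 1), (3, 11), (11, 1), (3, 11)], []⟩,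
  ⟨751, 120, 600, 128, 184, false, false, false, [(0, 1), (3, 19)], []⟩,
  ⟨834, 120, 480, 208, 109, false, true, false, [(0, 1), (3, 13)], []⟩,
  ⟨892, 120, 480, 208, 109, false, true, false, [(0, 1), (3, 13)], []⟩,
  ⟨933, 120, 480, 208, 109, false, true, false, [(0, 1), (3, 13)], []⟩,
  ⟨961, 120, 480, 208, 109, false, true, false, [(0, 1), (3, 13)], []⟩,
  ⟨989, 120, 0, 224, 120, true, true, false, [(0, 1), (3, 12)], []⟩,
  ⟨1017, 120, 0, 224, 120, true, true, false, [(0, 1), (3, 12)], []⟩,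
  ⟨1058, 120, 0, 224, 120, true, true, false, [(0, 1), (3, 12)], []⟩,
  ⟨1099, 120, 0, 224, 120, true, true, false, [(0, 1), (3, 12)], []⟩,
  ⟨1140, 120, 0, 224, 120, true, true, false, [(0, 1), (3, 12)], []⟩,
  ⟨1198, 120, 0, 224, 120, true, true, false, [(0, 1), (3, 12)], []⟩,
  ⟨1256, 120, 0, 224, 120, true, true, false, [(0, 2), (3, 11)], []⟩,
  ⟨1314, 120, 0, 224, 120, true, true, false, [(0, 2), (3, 11)], []⟩,
  ⟨1372, 120, 0, 224, 120, true, true, false, [(0, 2), (3, 11)], []⟩,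
  ⟨1413, 120, 0, 208, 109, true, true, false, [(0, 2), (3, 12)], []⟩,
  ⟨1454, 120, 0, 208, 109, true, true, false, [(0, 2), (3, 12)], []⟩,
  ⟨1495, 120, 0, 208, 109, true, true, false, [(0, 2), (3, 12)], []⟩,
  ⟨1536, 120, 0, 208, 109, true, true, false, [(0, 3), (3, 11)], []⟩,
  ⟨1577, 120, 0, 208, 109, true, true, false, [(0, 3), (3, 11)], []⟩,
  ⟨1605, 120, 0, 208, 109, true, true, false, [(0, 4), (3, 10)], []⟩,
  ⟨1633, 120, 0, 208, 109, true, true, false, [(0, 4), (3, 10)], []⟩,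
  ⟨1653, 120, 0, 208, 109, true, true, false, [(0, 5), (3, 9)], []⟩,
  ⟨1667, 120, 0, 208, 109, true, true, false, [(0, 7), (3, 7)], []⟩,
  ⟨1681, 120, 0, 208, 109, true, true, false, [(0, 10), (3, 4)], []⟩,
  ⟨1695, 120, 0, 208, 109, true, true, false, [(0, 14)], []⟩,
  ⟨1715, 120, 0, 208, 109, true, true, false, [(0, 14)], []⟩,
  ⟨1745, 120, 0, 208, 109, true, true, false, [(0, 14)], []⟩,
  ⟨1788, 120, 0, 208, 109, true, true, false, [(0, 14)], []⟩,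
  ⟨1849, 120, 0, 192, 98, true, true, false, [(0, 16)], []⟩,
  ⟨2021, 120, 0, 176, 88, true, true, false, [(0, 17)], []⟩,
  ⟨2498, 120, 0, 144, 69, true, true, false, [(0, 19)], []⟩,
  ⟨5076, 120, 0, 20, 9, true, true, false, [(0, 28)], []⟩,
  ⟨7031, 120, 0, 0, 0, true, false, false, [(0, 30)], []⟩
  ] = true := by decide +kernel

def g76_21 : Gr := ⟨false, 398, 406, 1024, 1024, 76, 78, 8927, 9044, 0, 2048, 0, []⟩

theorem k76_21 : chk g76_21 T375 [
  ⟨498, 70, 560, 224, 128, false, true, false, [(0, 1), (3, 6), (19, 4), (8, 1), (9, 3), (10, 4), (11, 3), (12, 1)], []⟩,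
  ⟨668, 70, 700, 60, 259, false, true, false, [(0, 1), (3, 20), (11, 1), (3, 2), (12, 1), (3, 19)], []⟩,
  ⟨787, 70, 700, 88, 224, false, false, false, [(0, 1), (3, 40)], []⟩,
  ⟨870, 70, 560, 208, 109, false, true, false, [(0, 1), (3, 24)], []⟩,
  ⟨928, 70, 560, 208, 109, false, true, false, [(0, 1), (3, 24)], []⟩,
  ⟨986, 70, 0, 240, 132, true, true, false, [(0, 1), (3, 20)], []⟩,
  ⟨1044, 70, 0, 240, 132, true, true, false, [(0, 1), (3, 20)], []⟩,
  ⟨1102, 70, 0, 240, 132, true, true, false, [(0, 1), (3, 20)], []⟩,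
  ⟨1160, 70, 0, 240, 132, true, true, false, [(0, 1), (3, 20)], []⟩,
  ⟨1218, 70, 0, 224, 120, true, true, false, [(0, 1), (3, 22)], []⟩,
  ⟨1301, 70, 0, 224, 120, true, true, false, [(0, 2), (3, 21)], []⟩,
  ⟨1384, 70, 0, 224, 120, true, true, false, [(0, 2), (3, 21)], []⟩,
  ⟨1442, 70, 0, 224, 120, true, true, false, [(0, 2), (3, 21)], []⟩,
  ⟨1500, 70, 0, 208, 109, true, true, false, [(0, 2), (3, 23)], []⟩,
  ⟨1558, 70, 0, 208, 109, true, true, false, [(0, 3), (3, 22)], []⟩,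
  ⟨1598, 70, 0, 208, 109, true, true, false, [(0, 3), (3, 22)], []⟩,
  ⟨1638, 70, 0, 208, 109, true, true, false, [(0, 4), (3, 21)], []⟩,
  ⟨1678, 70, 0, 208, 109, true, true, false, [(0, 5), (3, 20)], []⟩,
  ⟨1706, 70, 0, 208, 109, true, true, false, [(0, 8), (3, 17)], []⟩,
  ⟨1725, 70, 0, 208, 109, true, true, false, [(0, 17), (3, 8)], []⟩,
  ⟨1753, 70, 0, 208, 109, true, true, false, [(0, 25)], []⟩,
  ⟨1794, 70, 0, 208, 109, true, true, false, [(0, 25)], []⟩,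
  ⟨1853, 70, 0, 192, 98, true, true, false, [(0, 28)], []⟩,
  ⟨1971, 70, 0, 192, 98, true, true, false, [(0, 28)], []⟩,
  ⟨2299, 70, 0, 160, 78, true, true, false, [(0, 32)], []⟩,
  ⟨3205, 70, 0, 88, 40, true, true, false, [(0, 41)], []⟩,
  ⟨6693, 70, 0, 0, 0, true, false, false, [(0, 52)], []⟩,
  ⟨7172, 70, 0, 0, 0, true, false, false, [(0, 52)], []⟩
  ] = true := by decide +kernel

def g76_22 : Gr := ⟨false, 406, 410, 1024, 1024, 76, 78, 8927, 9044, 0, 2048, 0, []⟩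

theorem k76_22 : chk g76_22 T375 [
  ⟨498, 120, 600, 240, 132, false, true, false, [(0, 1), (3, 3), (19, 3), (9, 2), (10, 2), (11, 2)], []⟩,
  ⟨668, 120, 720, 88, 240, false, false, false, [(0, 1), (3, 11), (11, 1), (3, 11)], []⟩,
  ⟨787, 120, 720, 112, 208, false, false, false, [(0, 1), (3, 21)], []⟩,
  ⟨906, 120, 600, 208, 109, false, true, false, [(0, 1), (3, 14)], []⟩,
  ⟨989, 120, 480, 208, 109, false, true, false, [(0, 1), (3, 14)], []⟩,
  ⟨1047, 120, 0, 240, 132, true, true, false, [(0, 1), (3, 12)], []⟩,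
  ⟨1105, 120, 0, 240, 132, true, true, false, [(0, 1), (3, 12)], []⟩,
  ⟨1188, 120, 0, 240, 132, true, true, false, [(0, 1), (3, 12)], []⟩,
  ⟨1271, 120, 0, 224, 120, true, true, false, [(0, 1), (3, 13)], []⟩,
  ⟨1354, 120, 0, 224, 120, true, true, false, [(0, 2), (3, 12)], []⟩,
  ⟨1437, 120, 0, 224, 120, true, true, false, [(0, 2), (3, 12)], []⟩,
  ⟨1520, 120, 0, 224, 120, true, true, false, [(0, 2), (3, 12)], []⟩,
  ⟨1578, 120, 0, 208, 109, true, true, false, [(0, 2), (3, 13)], []⟩,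
  ⟨1636, 120, 0, 208, 109, true, true, false, [(0, 3), (3, 12)], []⟩,
  ⟨1694, 120, 0, 208, 109, true, true, false, [(0, 4), (3, 11)], []⟩,
  ⟨1734, 120, 0, 208, 109, true, true, false, [(0, 6), (3, 9)], []⟩,
  ⟨1774, 120, 0, 208, 109, true, true, false, [(0, 15)], []⟩,
  ⟨1831, 120, 0, 208, 109, true, true, false, [(0, 15)], []⟩,
  ⟨1913, 120, 0, 208, 109, true, true, false, [(0, 15)], []⟩,
  ⟨2142, 120, 0, 176, 88, true, true, false, [(0, 18)], []⟩,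
  ⟨2777, 120, 0, 128, 60, true, true, false, [(0, 21)], []⟩,
  ⟨6203, 120, 0, 0, 0, true, false, false, [(0, 31)], []⟩,
  ⟨7243, 120, 0, 0, 0, true, false, false, [(0, 31)], []⟩
  ] = true := by decide +kernel

def g76_23 : Gr := ⟨false, 409, 417, 1024, 1024, 76, 78, 8927, 9044, 0, 2048, 0, []⟩

theorem k76_23 : chk g76_23 T400 [
  ⟨498, 50, 550, 224, 136, false, true, false, [(0, 1), (3, 9), (22, 5), (10, 2), (11, 5), (12, 4), (13, 5), (14, 4)], []⟩,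
  ⟨742, 50, 700, 96, 228, false, true, false, [(0, 1), (3, 15), (7, 1), (3, 7), (8, 2), (3, 1), (13, 4), (14, 4), (3, 3), (15, 2), (3, 17)], []⟩,
  ⟨861, 50, 700, 96, 216, false, false, false, [(0, 1), (3, 32), (14, 2), (3, 22)], []⟩,
  ⟨944, 50, 550, 208, 109, false, true, false, [(0, 1), (3, 33), (14, 1), (3, 2)], []⟩,
  ⟨1027, 50, 550, 208, 109, false, true, false, [(0, 1), (3, 33), (14, 1), (3, 2)], []⟩,
  ⟨1085, 50, 0, 240, 132, true, true, false, [(0, 1), (3, 31)], []⟩,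
  ⟨1143, 50, 0, 240, 132, true, true, false, [(0, 1), (3, 31)], []⟩,
  ⟨1201, 50, 0, 240, 132, true, true, false, [(0, 1), (3, 31)], []⟩,
  ⟨1259, 50, 0, 240, 132, true, true, false, [(0, 1), (3, 31)], []⟩,
  ⟨1317, 50, 0, 240, 132, true, true, false, [(0, 2), (3, 30)], []⟩,
  ⟨1375, 50, 0, 224, 120, true, true, false, [(0, 2), (3, 33)], []⟩,
  ⟨1433, 50, 0, 224, 120, true, true, false, [(0, 2), (3, 33)], []⟩,
  ⟨1491, 50, 0, 208, 109, true, true, false, [(0, 2), (3, 35)], []⟩,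
  ⟨1549, 50, 0, 208, 109, true, true, false, [(0, 2), (3, 35)], []⟩,
  ⟨1607, 50, 0, 208, 109, true, true, false, [(0, 3), (3, 34)], []⟩,
  ⟨1665, 50, 0, 208, 109, true, true, false, [(0, 3), (3, 34)], []⟩,
  ⟨1706, 50, 0, 208, 109, true, true, false, [(0, 4), (3, 33)], []⟩,
  ⟨1747, 50, 0, 208, 109, true, true, false, [(0, 6), (3, 31)], []⟩,
  ⟨1775, 50, 0, 208, 109, true, true, false, [(0, 20), (3, 17)], []⟩,
  ⟨1816, 50, 0, 208, 109, true, true, false, [(0, 37)], []⟩,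
  ⟨1899, 50, 0, 192, 98, true, true, false, [(0, 40)], []⟩,
  ⟨2064, 50, 0, 176, 88, true, true, false, [(0, 43)], []⟩,
  ⟨2522, 50, 0, 144, 69, true, true, false, [(0, 49)], []⟩,
  ⟨4289, 50, 0, 44, 19, true, true, false, [(0, 66)], []⟩,
  ⟨7366, 50, 0, 0, 0, true, false, false, [(0, 74)], []⟩
  ] = true := by decide +kernel

end Pool.Agent.Lib.MP_af3a4a_an.P1.CHK.H81.L
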