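import Pool.Agent.Lib.MP_af3a4a_an.P1.CHK.H81.LT
/-!
# Data, `76 ≤ N ≤ 78`, `417 ≤ 1024 R ≤ 820` (helper81)
-/
set_option autoImplicit false

namespace Pool.Agent.Lib.MP_af3a4a_an.P1.CHK.H81.L

open Pool.Agent.Lib.MP_af3a4a_an.P1.CHK.H58.G (Gr En)

def g76_24 : Gr := ⟨false, 417, 425, 1024, 1024, 76, 78, 8927, 9044, 0, 2048, 0, []⟩

theorem k76_24 : chk g76_24 T400 [
  ⟨498, 120, 720, 72, 280, false, false, false, [(0, 1), (3, 3), (22, 3), (11, 2), (12, 2), (13, 2), (14, 1), (15, 2), (3, 10)], []⟩,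
  ⟨742, 120, 720, 72, 256, false, false, false, [(0, 1), (3, 5), (7, 1), (3, 3), (8, 1), (3, 1), (13, 1), (14, 1), (3, 12)], []⟩,
  ⟨861, 120, 720, 72, 240, false, false, false, [(0, 1), (3, 25)], []⟩,
  ⟨944, 120, 600, 208, 109, false, true, false, [(0, 1), (3, 15)], []⟩,
  ⟨1027, 120, 600, 208, 109, false, true, false, [(0, 1), (3, 15)], []⟩,
  ⟨1068, 120, 480, 208, 109, false, true, false, [(0, 1), (3, 15)], []⟩,
  ⟨1109, 120, 480, 208, 109, false, true, false, [(0, 1), (3, 15)], []⟩,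
  ⟨1150, 120, 0, 224, 120, true, true, false, [(0, 1), (3, 14)], []⟩,
  ⟨1191, 120, 0, 224, 120, true, true, false, [(0, 1), (3, 14)], []⟩,
  ⟨1249, 120, 0, 224, 120, true, true, false, [(0, 1), (3, 14)], []⟩,
  ⟨1307, 120, 0, 224, 120, true, true, false, [(0, 2), (3, 13)], []⟩,
  ⟨1365, 120, 0, 224, 120, true, true, false, [(0, 2), (3, 13)], []⟩,
  ⟨1423, 120, 0, 224, 120, true, true, false, [(0, 2), (3, 13)], []⟩,
  ⟨1481, 120, 0, 224, 120, true, true, false, [(0, 2), (3, 13)], []⟩,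
  ⟨1539, 120, 0, 224, 120, true, true, false, [(0, 2), (3, 13)], []⟩,
  ⟨1597, 120, 0, 224, 120, true, true, false, [(0, 2), (3, 13)], []⟩,
  ⟨1655, 120, 0, 208, 109, true, true, false, [(0, 3), (3, 13)], []⟩,
  ⟨1695, 120, 0, 208, 109, true, true, false, [(0, 3), (3, 13)], []⟩,
  ⟨1735, 120, 0, 208, 109, true, true, false, [(0, 4), (3, 12)], []⟩,
  ⟨1763, 120, 0, 208, 109, true, true, false, [(0, 5), (3, 11)], []⟩,
  ⟨1791, 120, 0, 208, 109, true, true, false, [(0, 8), (3, 8)], []⟩,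
  ⟨1819, 120, 0, 208, 109, true, true, false, [(0, 16)], []⟩,
  ⟨1877, 120, 0, 208, 109, true, true, false, [(0, 16)], []⟩,
  ⟨1959, 120, 0, 208, 109, true, true, false, [(0, 16)], []⟩,
  ⟨2123, 120, 0, 176, 88, true, true, false, [(0, 19)], []⟩,
  ⟨2580, 120, 0, 144, 69, true, true, false, [(0, 21)], []⟩,
  ⟨5048, 120, 0, 20, 9, true, true, false, [(0, 30)], []⟩,
  ⟨7508, 120, 0, 0, 0, true, false, false, [(0, 32)], []⟩
  ] = true := by decide +kernel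

def g76_25 : Gr := ⟨false, 425, 431, 1024, 1024, 76, 78, 8927, 9044, 0, 2048, 0, []⟩

theorem k76_25 : chk g76_25 T400 [
  ⟨498, 90, 720, 24, 320, false, false, false, [(0, 1), (3, 5), (22, 3), (11, 3), (12, 2), (13, 3), (14, 2), (15, 3), (3, 18)], []⟩,
  ⟨742, 90, 720, 96, 240, false, false, false, [(0, 1), (3, 15), (13, 1), (14, 2), (3, 14)], []⟩,
  ⟨912, 90, 720, 96, 224, false, false, false, [(0, 1), (3, 17), (14, 1), (3, 14)], []⟩,
  ⟨1031, 90, 540, 208, 109, false, true, false, [(0, 1), (3, 21)], []⟩,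
  ⟨1114, 90, 540, 208, 109, false, true, false, [(0, 1), (3, 21)], []⟩,
  ⟨1197, 90, 0, 240, 132, true, true, false, [(0, 1), (3, 18)], []⟩,
  ⟨1280, 90, 0, 240, 132, true, true, false, [(0, 1), (3, 18)], []⟩,
  ⟨1363, 90, 0, 240, 132, true, true, false, [(0, 2), (3, 17)], []⟩,
  ⟨1446, 90, 0, 240, 132, true, true, false, [(0, 2), (3, 17)], []⟩,
  ⟨1504, 90, 0, 208, 109, true, true, false, [(0, 2), (3, 20)], []⟩,
  ⟨1562, 90, 0, 208, 109, true, true, false, [(0, 2), (3, 20)], []⟩,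
  ⟨1645, 90, 0, 208, 109, true, true, false, [(0, 2), (3, 20)], []⟩,
  ⟨1703, 90, 0, 208, 109, true, true, false, [(0, 3), (3, 19)], []⟩,
  ⟨1761, 90, 0, 208, 109, true, true, false, [(0, 4), (3, 18)], []⟩,
  ⟨1819, 90, 0, 208, 109, true, true, false, [(0, 6), (3, 16)], []⟩,
  ⟨1859, 90, 0, 208, 109, true, true, false, [(0, 22)], []⟩,
  ⟨1941, 90, 0, 208, 109, true, true, false, [(0, 22)], []⟩,
  ⟨2104, 90, 0, 192, 98, true, true, false, [(0, 24)], []⟩,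
  ⟨2556, 90, 0, 160, 78, true, true, false, [(0, 27)], []⟩,
  ⟨4302, 90, 0, 44, 19, true, true, false, [(0, 38)], []⟩,
  ⟨7614, 90, 0, 0, 0, true, false, false, [(0, 43)], []⟩
  ] = true := by decide +kernel

def g76_26 : Gr := ⟨false, 431, 436, 1024, 1024, 76, 78, 8927, 9044, 0, 2048, 0, []⟩

theorem k76_26 : chk g76_26 T400 [
  ⟨498, 120, 720, 56, 304, false, false, false, [(0, 1), (3, 3), (22, 3), (11, 2), (12, 2), (13, 2), (14, 1), (15, 2), (3, 12)], []⟩,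
  ⟨742, 120, 720, 112, 232, false, false, false, [(0, 1), (3, 11), (13, 1), (14, 1), (3, 10)], []⟩,
  ⟨912, 120, 720, 112, 216, false, false, false, [(0, 1), (3, 23)], []⟩,
  ⟨1031, 120, 720, 112, 204, false, true, false, [(0, 1), (3, 23)], []⟩,
  ⟨1114, 120, 600, 208, 109, false, true, false, [(0, 1), (3, 16)], []⟩,
  ⟨1172, 120, 600, 208, 109, false, true, false, [(0, 1), (3, 16)], []⟩,
  ⟨1213, 120, 0, 224, 120, true, true, false, [(0, 1), (3, 15)], []⟩,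
  ⟨1271, 120, 0, 224, 120, true, true, false, [(0, 1), (3, 15)], []⟩,
  ⟨1329, 120, 0, 224, 120, true, true, false, [(0, 2), (3, 14)], []⟩,
  ⟨1411, 120, 0, 224, 120, true, true, false, [(0, 2), (3, 14)], []⟩,
  ⟨1493, 120, 0, 224, 120, true, true, false, [(0, 2), (3, 14)], []⟩,
  ⟨1575, 120, 0, 224, 120, true, true, false, [(0, 2), (3, 14)], []⟩,
  ⟨1657, 120, 0, 224, 120, true, true, false, [(0, 2), (3, 14)], []⟩,
  ⟨1714, 120, 0, 208, 109, true, true, false, [(0, 3), (3, 14)], []⟩,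
  ⟨1771, 120, 0, 208, 109, true, true, false, [(0, 3), (3, 14)], []⟩,
  ⟨1828, 120, 0, 208, 109, true, true, false, [(0, 5), (3, 12)], []⟩,
  ⟨1868, 120, 0, 208, 109, true, true, false, [(0, 10), (3, 7)], []⟩,
  ⟨1949, 120, 0, 208, 109, true, true, false, [(0, 17)], []⟩,
  ⟨2178, 120, 0, 192, 98, true, true, false, [(0, 18)], []⟩,
  ⟨2629, 120, 0, 144, 69, true, true, false, [(0, 22)], []⟩,
  ⟨5068, 120, 0, 16, 7, true, true, false, [(0, 31)], []⟩,
  ⟨7702, 120, 0, 0, 0, true, false, false, [(0, 33)], []⟩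
  ] = true := by decide +kernel

def g76_27 : Gr := ⟨false, 435, 445, 1024, 1024, 76, 78, 8927, 9044, 0, 2048, 0, []⟩

theorem k76_27 : chk g76_27 T425 [
  ⟨698, 70, 560, 240, 132, false, true, false, [(0, 1), (3, 6), (23, 4), (10, 1), (11, 3), (12, 4), (13, 3), (14, 3), (15, 1)], []⟩,
  ⟨865, 70, 700, 128, 212, false, true, false, [(0, 1), (3, 17), (8, 1), (3, 4), (14, 2), (3, 1), (15, 2), (3, 12)], []⟩,
  ⟨982, 70, 630, 128, 200, false, false, false, [(0, 1), (3, 26), (15, 1), (3, 12)], []⟩,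
  ⟨1064, 70, 630, 128, 188, false, true, false, [(0, 1), (3, 39)], []⟩,
  ⟨1146, 70, 0, 256, 145, true, true, false, [(0, 1), (3, 23)], []⟩,
  ⟨1228, 70, 0, 240, 132, true, true, false, [(0, 1), (3, 25)], []⟩,
  ⟨1310, 70, 0, 240, 132, true, true, false, [(0, 1), (3, 25)], []⟩,
  ⟨1392, 70, 0, 240, 132, true, true, false, [(0, 2), (3, 24)], []⟩,
  ⟨1474, 70, 0, 240, 132, true, true, false, [(0, 2), (3, 24)], []⟩,
  ⟨1556, 70, 0, 224, 120, true, true, false, [(0, 2), (3, 26)], []⟩,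
  ⟨1638, 70, 0, 224, 120, true, true, false, [(0, 2), (3, 26)], []⟩,
  ⟨1695, 70, 0, 224, 120, true, true, false, [(0, 3), (3, 25)], []⟩,
  ⟨1752, 70, 0, 224, 120, true, true, false, [(0, 3), (3, 25)], []⟩,
  ⟨1792, 70, 0, 208, 109, true, true, false, [(0, 4), (3, 26)], []⟩,
  ⟨1832, 70, 0, 208, 109, true, true, false, [(0, 5), (3, 25)], []⟩,
  ⟨1860, 70, 0, 208, 109, true, true, false, [(0, 8), (3, 22)], []⟩,
  ⟨1888, 70, 0, 208, 109, true, true, false, [(0, 19), (3, 11)], []⟩,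
  ⟨1945, 70, 0, 208, 109, true, true, false, [(0, 30)], []⟩,
  ⟨2060, 70, 0, 192, 98, true, true, false, [(0, 32)], []⟩,
  ⟨2380, 70, 0, 176, 88, true, true, false, [(0, 34)], []⟩,
  ⟨3265, 70, 0, 104, 48, true, true, false, [(0, 44)], []⟩,
  ⟨6672, 70, 0, 0, 0, true, false, false, [(0, 57)], []⟩,
  ⟨7861, 70, 0, 0, 0, true, false, false, [(0, 57)], []⟩
  ] = true := by decide +kernel

def g76_28 : Gr := ⟨false, 445, 451, 1024, 1024, 76, 78, 8927, 9044, 0, 2048, 0, []⟩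

theorem k76_28 : chk g76_28 T425 [
  ⟨498, 120, 720, 44, 324, false, false, false, [(0, 1), (3, 3), (23, 3), (11, 2), (12, 2), (13, 2), (14, 1), (15, 2), (16, 1), (3, 13)], []⟩,
  ⟨742, 120, 720, 112, 244, false, true, false, [(0, 1), (3, 5), (7, 1), (3, 3), (8, 1), (3, 1), (13, 1), (14, 1), (15, 2), (3, 9)], []⟩,
  ⟨912, 120, 720, 112, 228, false, true, false, [(0, 1), (3, 14), (15, 1), (3, 9)], []⟩,
  ⟨1031, 120, 720, 112, 216, false, false, false, [(0, 1), (3, 24)], []⟩,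
  ⟨1150, 120, 600, 208, 117, false, true, false, [(0, 1), (3, 17)], []⟩,
  ⟨1208, 120, 600, 208, 109, false, true, false, [(0, 1), (3, 17)], []⟩,
  ⟨1266, 120, 0, 240, 132, true, true, false, [(0, 1), (3, 15)], []⟩,
  ⟨1324, 120, 0, 224, 120, true, true, false, [(0, 1), (3, 16)], []⟩,
  ⟨1407, 120, 0, 224, 120, true, true, false, [(0, 2), (3, 15)], []⟩,
  ⟨1490, 120, 0, 224, 120, true, true, false, [(0, 2), (3, 15)], []⟩,
  ⟨1573, 120, 0, 224, 120, true, true, false, [(0, 2), (3, 15)], []⟩,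
  ⟨1656, 120, 0, 224, 120, true, true, false, [(0, 2), (3, 15)], []⟩,
  ⟨1739, 120, 0, 224, 120, true, true, false, [(0, 3), (3, 14)], []⟩,
  ⟨1822, 120, 0, 208, 109, true, true, false, [(0, 3), (3, 15)], []⟩,
  ⟨1880, 120, 0, 208, 109, true, true, false, [(0, 5), (3, 13)], []⟩,
  ⟨1938, 120, 0, 208, 109, true, true, false, [(0, 10), (3, 8)], []⟩,
  ⟨2054, 120, 0, 208, 109, true, true, false, [(0, 18)], []⟩,
  ⟨2217, 120, 0, 192, 98, true, true, false, [(0, 20)], []⟩,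
  ⟨2671, 120, 0, 144, 69, true, true, false, [(0, 23)], []⟩,
  ⟨5124, 120, 0, 32, 14, true, true, false, [(0, 31)], []⟩,
  ⟨7967, 120, 0, 0, 0, true, false, false, [(0, 34)], []⟩
  ] = true := by decide +kernel

def g76_29 : Gr := ⟨false, 451, 459, 1024, 1024, 76, 78, 8927, 9044, 0, 2048, 0, []⟩

theorem k76_29 : chk g76_29 T425 [
  ⟨498, 120, 720, 28, 340, false, false, false, [(0, 1), (3, 3), (23, 3), (11, 2), (12, 2), (13, 2), (14, 1), (15, 2), (16, 1), (3, 15)], []⟩,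
  ⟨846, 120, 720, 120, 232, false, false, false, [(0, 1), (3, 5), (7, 1), (3, 2), (8, 2), (13, 2), (14, 1), (15, 2), (3, 9)], []⟩,
  ⟨1016, 120, 720, 120, 216, false, false, false, [(0, 1), (3, 24)], []⟩,
  ⟨1135, 120, 600, 120, 200, false, false, false, [(0, 1), (3, 24)], []⟩,
  ⟨1254, 120, 0, 256, 145, true, true, false, [(0, 1), (3, 14)], []⟩,
  ⟨1373, 120, 0, 256, 145, true, true, false, [(0, 1), (3, 14)], []⟩,
  ⟨1456, 120, 0, 256, 145, true, true, false, [(0, 2), (3, 13)], []⟩,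
  ⟨1514, 120, 0, 256, 145, true, true, false, [(0, 2), (3, 13)], []⟩,
  ⟨1572, 120, 0, 240, 132, true, true, false, [(0, 2), (3, 15)], []⟩,
  ⟨1630, 120, 0, 224, 120, true, true, false, [(0, 2), (3, 16)], []⟩,
  ⟨1688, 120, 0, 224, 120, true, true, false, [(0, 2), (3, 16)], []⟩,
  ⟨1746, 120, 0, 224, 120, true, true, false, [(0, 3), (3, 15)], []⟩,
  ⟨1787, 120, 0, 224, 120, true, true, false, [(0, 3), (3, 15)], []⟩,
  ⟨1828, 120, 0, 224, 120, true, true, false, [(0, 3), (3, 15)], []⟩,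
  ⟨1856, 120, 0, 208, 109, true, true, false, [(0, 4), (3, 15)], []⟩,
  ⟨1884, 120, 0, 208, 109, true, true, false, [(0, 5), (3, 14)], []⟩,
  ⟨1904, 120, 0, 208, 109, true, true, false, [(0, 6), (3, 13)], []⟩,
  ⟨1924, 120, 0, 208, 109, true, true, false, [(0, 8), (3, 11)], []⟩,
  ⟨1938, 120, 0, 208, 109, true, true, false, [(0, 11), (3, 8)], []⟩,
  ⟨1952, 120, 0, 208, 109, true, true, false, [(0, 15), (3, 4)], []⟩,
  ⟨1981, 120, 0, 208, 109, true, true, false, [(0, 19)], []⟩,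
  ⟨2067, 120, 0, 208, 109, true, true, false, [(0, 19)], []⟩,
  ⟨2309, 120, 0, 176, 88, true, true, false, [(0, 21)], []⟩,
  ⟨2977, 120, 0, 120, 56, true, true, false, [(0, 25)], []⟩,
  ⟨6584, 120, 0, 0, 0, true, false, false, [(0, 34)], []⟩,
  ⟨8108, 120, 0, 0, 0, true, false, false, [(0, 34)], []⟩
  ] = true := by decide +kernel

def g76_30 : Gr := ⟨false, 459, 461, 1024, 1024, 76, 78, 8927, 9044, 0, 2048, 0, []⟩

theorem k76_30 : chk g76_30 T425 [
  ⟨498, 120, 720, 40, 336, false, false, false, [(0, 1), (3, 3), (23, 3), (11, 2), (12, 2), (13, 2), (14, 1), (15, 2), (3, 15)], []⟩,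
  ⟨846, 120, 720, 96, 260, false, true, false, [(0, 1), (3, 5), (7, 1), (3, 2), (8, 2), (13, 2), (14, 1), (15, 2), (3, 11)], []⟩,
  ⟨1016, 120, 720, 112, 228, false, true, false, [(0, 1), (3, 25)], []⟩,
  ⟨1186, 120, 600, 176, 152, false, true, false, [(0, 1), (3, 20)], []⟩,
  ⟨1269, 120, 600, 176, 144, false, true, false, [(0, 1), (3, 20)], []⟩,
  ⟨1352, 120, 0, 240, 132, true, true, false, [(0, 1), (3, 16)], []⟩,
  ⟨1435, 120, 0, 240, 132, true, true, false, [(0, 2), (3, 15)], []⟩,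
  ⟨1553, 120, 0, 224, 120, true, true, false, [(0, 2), (3, 16)], []⟩,
  ⟨1671, 120, 0, 224, 120, true, true, false, [(0, 2), (3, 16)], []⟩,
  ⟨1789, 120, 0, 224, 120, true, true, false, [(0, 2), (3, 16)], []⟩,
  ⟨1871, 120, 0, 224, 120, true, true, false, [(0, 3), (3, 15)], []⟩,
  ⟨1953, 120, 0, 208, 109, true, true, false, [(0, 5), (3, 14)], []⟩,
  ⟨2035, 120, 0, 208, 109, true, true, false, [(0, 19)], []⟩,
  ⟨2266, 120, 0, 192, 98, true, true, false, [(0, 20)], []⟩,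
  ⟨2905, 120, 0, 144, 69, true, true, false, [(0, 24)], []⟩,
  ⟨6355, 120, 0, 0, 0, true, false, false, [(0, 34)], []⟩,
  ⟨8144, 120, 0, 0, 0, true, false, false, [(0, 34)], []⟩
  ] = true := by decide +kernel

def g76_31 : Gr := ⟨false, 460, 468, 1024, 1024, 76, 78, 8927, 9044, 0, 2048, 0, []⟩

theorem k76_31 : chk g76_31 T450 [
  ⟨698, 120, 600, 224, 160, false, true, false, [(0, 1), (3, 3), (25, 3), (12, 2), (13, 2), (14, 2), (15, 1), (16, 2), (17, 2)], []⟩,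
  ⟨937, 120, 720, 88, 256, false, false, false, [(0, 1), (3, 5), (8, 1), (3, 3), (9, 1), (3, 2), (15, 1), (16, 2), (3, 1), (17, 1), (3, 10)], []⟩,
  ⟨1104, 120, 720, 88, 240, false, false, false, [(0, 1), (3, 9), (9, 1), (3, 4), (16, 1), (3, 12)], []⟩,
  ⟨1221, 120, 600, 224, 120, false, true, false, [(0, 1), (3, 17)], []⟩,
  ⟨1303, 120, 0, 256, 145, true, true, false, [(0, 1), (3, 15)], []⟩,
  ⟨1385, 120, 0, 240, 132, true, true, false, [(0, 2), (3, 15)], []⟩,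
  ⟨1467, 120, 0, 224, 120, true, true, false, [(0, 2), (3, 16)], []⟩,
  ⟨1583, 120, 0, 224, 120, true, true, false, [(0, 2), (3, 16)], []⟩,
  ⟨1699, 120, 0, 224, 120, true, true, false, [(0, 2), (3, 16)], []⟩,
  ⟨1815, 120, 0, 224, 120, true, true, false, [(0, 3), (3, 15)], []⟩,
  ⟨1896, 120, 0, 224, 120, true, true, false, [(0, 4), (3, 14)], []⟩,
  ⟨1952, 120, 0, 224, 120, true, true, false, [(0, 5), (3, 13)], []⟩,
  ⟨1991, 120, 0, 224, 120, true, true, false, [(0, 11), (3, 7)], []⟩,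
  ⟨2030, 120, 0, 224, 120, true, true, false, [(0, 18)], []⟩,
  ⟨2110, 120, 0, 208, 109, true, true, false, [(0, 20)], []⟩,
  ⟨2335, 120, 0, 192, 98, true, true, false, [(0, 21)], []⟩,
  ⟨2956, 120, 0, 144, 69, true, true, false, [(0, 24)], []⟩,
  ⟨6311, 120, 0, 0, 0, true, false, false, [(0, 35)], []⟩,
  ⟨8267, 120, 0, 0, 0, true, false, false, [(0, 35)], []⟩
  ] = true := by decide +kernel

def g76_32 : Gr := ⟨false, 468, 481, 1024, 1024, 76, 78, 8927, 9044, 0, 2048, 0, []⟩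

theorem k76_32 : chk g76_32 T450 [
  ⟨498, 120, 720, 36, 340, false, false, false, [(0, 1), (3, 3), (25, 3), (12, 2), (13, 2), (14, 2), (15, 1), (16, 2), (17, 2), (3, 15)], []⟩,
  ⟨846, 120, 720, 88, 272, false, false, false, [(0, 1), (3, 5), (8, 1), (3, 2), (9, 2), (14, 2), (15, 1), (16, 2), (17, 2), (3, 11)], []⟩,
  ⟨1016, 120, 720, 104, 248, false, false, false, [(0, 1), (3, 14), (16, 1), (3, 12)], []⟩,
  ⟨1186, 120, 720, 128, 208, false, false, false, [(0, 1), (3, 14), (16, 1), (3, 10)], []⟩,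
  ⟨1269, 120, 600, 128, 200, false, false, false, [(0, 1), (3, 25)], []⟩,
  ⟨1327, 120, 0, 256, 145, true, true, false, [(0, 1), (3, 16)], []⟩,
  ⟨1385, 120, 0, 240, 132, true, true, false, [(0, 2), (3, 16)], []⟩,
  ⟨1468, 120, 0, 240, 132, true, true, false, [(0, 2), (3, 16)], []⟩,
  ⟨1551, 120, 0, 240, 132, true, true, false, [(0, 2), (3, 16)], []⟩,
  ⟨1634, 120, 0, 240, 132, true, true, false, [(0, 2), (3, 16)], []⟩,
  ⟨1717, 120, 0, 224, 120, true, true, false, [(0, 2), (3, 17)], []⟩,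
  ⟨1800, 120, 0, 224, 120, true, true, false, [(0, 3), (3, 16)], []⟩,
  ⟨1883, 120, 0, 224, 120, true, true, false, [(0, 3), (3, 16)], []⟩,
  ⟨1941, 120, 0, 224, 120, true, true, false, [(0, 4), (3, 15)], []⟩,
  ⟨1981, 120, 0, 224, 120, true, true, false, [(0, 6), (3, 13)], []⟩,
  ⟨2009, 120, 0, 224, 120, true, true, false, [(0, 9), (3, 10)], []⟩,
  ⟨2037, 120, 0, 224, 120, true, true, false, [(0, 18), (3, 1)], []⟩,
  ⟨2077, 120, 0, 224, 120, true, true, false, [(0, 19)], []⟩,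
  ⟨2135, 120, 0, 208, 109, true, true, false, [(0, 21)], []⟩,
  ⟨2299, 120, 0, 192, 98, true, true, false, [(0, 22)], []⟩,
  ⟨2753, 120, 0, 144, 69, true, true, false, [(0, 25)], []⟩,
  ⟨4507, 120, 0, 36, 16, true, true, false, [(0, 33)], []⟩,
  ⟨7948, 120, 0, 0, 0, true, false, false, [(0, 36)], []⟩,
  ⟨8497, 120, 0, 0, 0, true, false, false, [(0, 36)], []⟩
  ] = true := by decide +kernel

def g76_33 : Gr := ⟨false, 481, 487, 1024, 1024, 76, 78, 8927, 9044, 0, 2048, 0, []⟩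

theorem k76_33 : chk g76_33 T450 [
  ⟨498, 120, 720, 40, 352, false, false, false, [(0, 1), (3, 3), (25, 3), (12, 2), (13, 2), (14, 2), (15, 1), (16, 2), (17, 2), (3, 15)], []⟩,
  ⟨846, 120, 720, 80, 292, false, true, false, [(0, 1), (3, 5), (8, 1), (3, 2), (9, 2), (3, 1), (14, 1), (15, 1), (16, 2), (17, 2), (3, 12)], []⟩,
  ⟨1090, 120, 720, 96, 256, false, false, false, [(0, 1), (3, 9), (9, 1), (3, 4), (16, 1), (3, 13)], []⟩,
  ⟨1260, 120, 600, 176, 168, false, true, false, [(0, 1), (3, 22)], []⟩,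
  ⟨1379, 120, 600, 176, 152, false, true, false, [(0, 1), (3, 22)], []⟩,
  ⟨1462, 120, 0, 256, 145, true, true, false, [(0, 2), (3, 16)], []⟩,
  ⟨1580, 120, 0, 240, 132, true, true, false, [(0, 2), (3, 17)], []⟩,
  ⟨1698, 120, 0, 240, 132, true, true, false, [(0, 2), (3, 17)], []⟩,
  ⟨1816, 120, 0, 224, 120, true, true, false, [(0, 2), (3, 18)], []⟩,
  ⟨1934, 120, 0, 224, 120, true, true, false, [(0, 3), (3, 17)], []⟩,
  ⟨2016, 120, 0, 224, 120, true, true, false, [(0, 4), (3, 16)], []⟩,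
  ⟨2073, 120, 0, 208, 109, true, true, false, [(0, 8), (3, 13)], []⟩,
  ⟨2188, 120, 0, 208, 109, true, true, false, [(0, 21)], []⟩,
  ⟨2510, 120, 0, 176, 88, true, true, false, [(0, 23)], []⟩,
  ⟨3399, 120, 0, 112, 52, true, true, false, [(0, 28)], []⟩,
  ⟨6822, 120, 0, 0, 0, true, false, false, [(0, 36)], []⟩,
  ⟨8603, 120, 0, 0, 0, true, false, false, [(0, 36)], []⟩
  ] = true := by decide +kernel

def g76_34 : Gr := ⟨false, 486, 506, 1024, 1024, 76, 78, 8927, 9044, 0, 2048, 0, []⟩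

theorem k76_34 : chk g76_34 T475 [
  ⟨698, 120, 720, 72, 312, false, false, false, [(0, 1), (3, 3), (27, 3), (13, 2), (14, 2), (15, 2), (16, 1), (17, 2), (18, 2), (19, 2), (3, 12)], []⟩,
  ⟨1040, 120, 720, 112, 252, false, true, false, [(0, 1), (3, 5), (8, 1), (3, 2), (9, 2), (3, 1), (10, 2), (17, 2), (18, 2), (3, 1), (19, 1), (3, 9)], []⟩,
  ⟨1207, 120, 720, 112, 236, false, true, false, [(0, 1), (3, 9), (9, 1), (3, 6), (18, 1), (3, 11)], []⟩,
  ⟨1324, 120, 600, 112, 224, false, false, false, [(0, 1), (3, 16), (18, 1), (3, 11)], []⟩,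
  ⟨1406, 120, 600, 128, 200, false, false, false, [(0, 2), (3, 26)], []⟩,
  ⟨1446, 120, 0, 256, 145, true, true, false, [(0, 2), (3, 17)], []⟩,
  ⟨1486, 120, 0, 240, 132, true, true, false, [(0, 2), (3, 18)], []⟩,
  ⟨1543, 120, 0, 240, 132, true, true, false, [(0, 2), (3, 18)], []⟩,
  ⟨1600, 120, 0, 240, 132, true, true, false, [(0, 2), (3, 18)], []⟩,
  ⟨1657, 120, 0, 240, 132, true, true, false, [(0, 2), (3, 18)], []⟩,
  ⟨1714, 120, 0, 224, 120, true, true, false, [(0, 2), (3, 19)], []⟩,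
  ⟨1771, 120, 0, 224, 120, true, true, false, [(0, 2), (3, 19)], []⟩,
  ⟨1828, 120, 0, 224, 120, true, true, false, [(0, 3), (3, 18)], []⟩,
  ⟨1885, 120, 0, 224, 120, true, true, false, [(0, 3), (3, 18)], []⟩,
  ⟨1942, 120, 0, 224, 120, true, true, false, [(0, 3), (3, 18)], []⟩,
  ⟨1982, 120, 0, 224, 120, true, true, false, [(0, 4), (3, 17)], []⟩,
  ⟨2022, 120, 0, 224, 120, true, true, false, [(0, 5), (3, 16)], []⟩,
  ⟨2050, 120, 0, 224, 120, true, true, false, [(0, 6), (3, 15)], []⟩,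
  ⟨2069, 120, 0, 224, 120, true, true, false, [(0, 8), (3, 13)], []⟩,
  ⟨2088, 120, 0, 208, 109, true, true, false, [(0, 11), (3, 11)], []⟩,
  ⟨2107, 120, 0, 208, 109, true, true, false, [(0, 18), (3, 4)], []⟩,
  ⟨2165, 120, 0, 208, 109, true, true, false, [(0, 22)], []⟩,
  ⟨2281, 120, 0, 208, 109, true, true, false, [(0, 22)], []⟩,
  ⟨2512, 120, 0, 176, 88, true, true, false, [(0, 25)], []⟩,
  ⟨3407, 120, 0, 112, 52, true, true, false, [(0, 29)], []⟩,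
  ⟨6854, 120, 0, 0, 0, true, false, false, [(0, 38)], []⟩,
  ⟨8939, 120, 0, 0, 0, true, false, false, [(0, 38)], []⟩
  ] = true := by decide +kernel

def g76_35 : Gr := ⟨false, 506, 512, 1024, 1024, 76, 78, 8927, 9044, 0, 2048, 0, []⟩

theorem k76_35 : chk g76_35 T475 [
  ⟨698, 120, 720, 120, 288, false, false, false, [(0, 1), (3, 3), (27, 3), (13, 2), (14, 2), (15, 2), (16, 1), (17, 2), (18, 2), (19, 2), (3, 9)], []⟩,
  ⟨1040, 120, 720, 120, 264, false, false, false, [(0, 1), (3, 5), (8, 1), (3, 2), (9, 2), (3, 2), (10, 1), (17, 2), (18, 2), (3, 11)], []⟩,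
  ⟨1279, 120, 720, 120, 240, false, false, false, [(0, 1), (3, 9), (9, 1), (3, 6), (18, 1), (3, 11)], []⟩,
  ⟨1446, 120, 0, 256, 145, true, true, false, [(0, 1), (3, 18)], []⟩,
  ⟨1613, 120, 0, 256, 145, true, true, false, [(0, 2), (3, 17)], []⟩,
  ⟨1780, 120, 0, 256, 145, true, true, false, [(0, 2), (3, 17)], []⟩,
  ⟨1947, 120, 0, 240, 132, true, true, false, [(0, 2), (3, 19)], []⟩,
  ⟨2064, 120, 0, 224, 120, true, true, false, [(0, 3), (3, 19)], []⟩,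
  ⟨2181, 120, 0, 224, 120, true, true, false, [(0, 6), (3, 16)], []⟩,
  ⟨2346, 120, 0, 208, 109, true, true, false, [(0, 23)], []⟩,
  ⟨2804, 120, 0, 160, 78, true, true, false, [(0, 26)], []⟩,
  ⟨4570, 120, 0, 52, 23, true, true, false, [(0, 34)], []⟩,
  ⟨8035, 120, 0, 0, 0, true, false, false, [(0, 38)], []⟩,
  ⟨9045, 120, 0, 0, 0, true, false, false, [(0, 38)], []⟩
  ] = true := by decide +kernel

def g76_36 : Gr := ⟨false, 512, 538, 1024, 1024, 76, 78, 8927, 9044, 0, 2048, 0, []⟩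

theorem k76_36 : chk g76_36 T500 [
  ⟨698, 90, 630, 40, 352, false, false, false, [(0, 1), (3, 5), (28, 3), (14, 3), (15, 2), (16, 3), (17, 2), (18, 3), (19, 2), (20, 3), (21, 2), (3, 20)], []⟩,
  ⟨1040, 90, 720, 112, 272, false, false, false, [(0, 1), (3, 7), (9, 1), (3, 3), (10, 2), (3, 2), (11, 3), (18, 3), (19, 2), (20, 3), (3, 15)], []⟩,
  ⟨1279, 90, 630, 112, 248, false, false, false, [(0, 1), (3, 12), (10, 1), (3, 4), (11, 1), (3, 2), (18, 1), (19, 2), (20, 3), (3, 15)], []⟩,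
  ⟨1446, 90, 630, 112, 232, false, false, false, [(0, 1), (3, 22), (19, 1), (3, 1), (20, 2), (3, 15)], []⟩,
  ⟨1563, 90, 630, 144, 192, false, false, false, [(0, 2), (3, 24), (20, 1), (3, 12)], []⟩,
  ⟨1680, 90, 0, 256, 145, true, true, false, [(0, 2), (3, 24), (20, 1), (3, 1)], []⟩,
  ⟨1797, 90, 0, 256, 145, true, true, false, [(0, 2), (3, 24), (20, 1), (3, 1)], []⟩,
  ⟨1879, 90, 0, 224, 120, true, true, false, [(0, 2), (3, 29)], []⟩,
  ⟨1961, 90, 0, 224, 120, true, true, false, [(0, 3), (3, 28)], []⟩,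
  ⟨2043, 90, 0, 224, 120, true, true, false, [(0, 3), (3, 28)], []⟩,
  ⟨2125, 90, 0, 224, 120, true, true, false, [(0, 4), (3, 27)], []⟩,
  ⟨2182, 90, 0, 224, 120, true, true, false, [(0, 7), (3, 24)], []⟩,
  ⟨2222, 90, 0, 224, 120, true, true, false, [(0, 19), (3, 12)], []⟩,
  ⟨2303, 90, 0, 224, 120, true, true, false, [(0, 31)], []⟩,
  ⟨2530, 90, 0, 192, 98, true, true, false, [(0, 34)], []⟩,
  ⟨3158, 90, 0, 144, 69, true, true, false, [(0, 39)], []⟩,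
  ⟨6549, 90, 0, 0, 0, true, false, false, [(0, 53)], []⟩,
  ⟨9504, 90, 0, 0, 0, true, false, false, [(0, 53)], []⟩
  ] = true := by decide +kernel

def g76_37 : Gr := ⟨false, 537, 563, 1024, 1024, 76, 78, 8927, 9044, 0, 1954, 0, []⟩

theorem k76_37 : chk g76_37 T525 [
  ⟨698, 120, 720, 36, 372, false, false, true, [(0, 1), (3, 3), (29, 3), (14, 2), (15, 2), (16, 2), (17, 1), (18, 2), (19, 2), (20, 2), (21, 2), (3, 14)], [(3, 3)]⟩,
  ⟨1186, 120, 720, 120, 272, false, false, false, [(0, 1), (3, 4), (9, 2), (3, 1), (10, 3), (11, 3), (18, 2), (19, 2), (20, 2), (21, 2), (3, 11)], []⟩,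
  ⟨1522, 120, 600, 144, 221, false, true, false, [(0, 1), (3, 5), (9, 1), (3, 3), (10, 1), (3, 2), (11, 1), (3, 2), (12, 1), (19, 1), (20, 2), (21, 2), (3, 9)], []⟩,
  ⟨1686, 120, 600, 144, 200, false, false, false, [(0, 2), (3, 17), (20, 1), (3, 1), (21, 1), (3, 9)], []⟩,
  ⟨1850, 120, 0, 256, 145, true, true, false, [(0, 2), (3, 17), (20, 1), (3, 1), (21, 1), (3, 1)], []⟩,
  ⟨2014, 120, 0, 240, 132, true, true, false, [(0, 2), (3, 8), (5, 1), (3, 10), (21, 1), (3, 2)], []⟩,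
  ⟨2178, 120, 0, 224, 120, true, true, false, [(0, 3), (3, 7), (5, 1), (3, 10), (21, 1), (3, 3)], []⟩,
  ⟨2293, 120, 0, 224, 120, true, true, false, [(0, 6), (3, 4), (5, 1), (3, 14)], []⟩,
  ⟨2408, 120, 0, 224, 120, true, true, false, [(0, 25)], []⟩,
  ⟨2636, 120, 0, 192, 98, true, true, false, [(0, 28)], []⟩,
  ⟨3267, 120, 0, 144, 69, true, true, false, [(0, 31)], []⟩,
  ⟨6674, 120, 0, 0, 0, true, false, false, [(0, 42)], []⟩,
  ⟨9489, 120, 0, 0, 0, true, false, false, [(0, 42)], []⟩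
  ] = true := by decide +kernel

def g76_38 : Gr := ⟨false, 563, 589, 1024, 1024, 76, 78, 8927, 9044, 0, 1864, 0, []⟩

theorem k76_38 : chk g76_38 T550 [
  ⟨978, 120, 720, 88, 336, false, false, false, [(0, 1), (3, 3), (32, 3), (16, 2), (17, 2), (18, 2), (19, 1), (20, 2), (21, 2), (22, 2), (23, 2), (24, 2), (25, 2), (3, 11)], []⟩,
  ⟨1457, 120, 600, 128, 260, false, true, false, [(0, 1), (3, 5), (10, 1), (3, 2), (11, 2), (3, 1), (12, 2), (3, 1), (13, 2), (21, 1), (22, 2), (23, 2), (24, 2), (3, 10)], []⟩,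
  ⟨1792, 120, 600, 144, 213, false, true, false, [(0, 2), (3, 8), (11, 1), (3, 2), (12, 1), (3, 2), (13, 2), (22, 2), (23, 2), (24, 2), (3, 9)], []⟩,
  ⟨2127, 120, 0, 224, 120, true, true, true, [(0, 2), (3, 8), (5, 1), (3, 6), (13, 1), (3, 1), (22, 1), (23, 2), (24, 2)], [(3, 1), (25, 1), (3, 1)]⟩,
  ⟨2362, 120, 0, 240, 132, true, true, false, [(0, 4), (3, 6), (5, 1), (3, 10), (23, 1), (3, 1), (24, 1), (3, 1), (25, 1)], []⟩,
  ⟨2526, 120, 0, 224, 120, true, true, false, [(0, 21), (8, 1), (0, 1), (24, 1), (0, 1), (25, 1), (0, 1)], []⟩,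
  ⟨2981, 120, 0, 192, 98, true, true, false, [(0, 30)], []⟩,
  ⟨4236, 120, 0, 80, 36, true, true, false, [(0, 38)], []⟩,
  ⟨7684, 120, 0, 0, 0, true, false, false, [(0, 44)], []⟩,
  ⟨9470, 120, 0, 0, 0, true, false, false, [(0, 44)], []⟩
  ] = true := by decide +kernel

def g76_39 : Gr := ⟨false, 588, 615, 1024, 1024, 76, 78, 8927, 9044, 0, 1785, 0, []⟩

theorem k76_39 : chk g76_39 T575 [
  ⟨978, 120, 720, 88, 352, false, false, false, [(0, 1), (3, 3), (33, 3), (16, 2), (17, 2), (18, 2), (19, 1), (20, 2), (21, 2), (22, 2), (23, 2), (24, 2), (25, 2), (3, 13)], []⟩,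
  ⟨1663, 120, 600, 144, 248, false, false, false, [(0, 1), (3, 4), (10, 2), (3, 1), (11, 3), (12, 3), (13, 4), (22, 2), (23, 2), (24, 2), (25, 2), (26, 1), (3, 8)], []⟩,
  ⟨2142, 120, 0, 256, 145, true, true, true, [(0, 2), (3, 4), (4, 1), (3, 3), (5, 1), (3, 2), (12, 1), (3, 2), (13, 2), (22, 2), (23, 2), (24, 2)], [(25, 2), (26, 1)]⟩,
  ⟨2477, 120, 0, 224, 120, true, true, true, [(0, 3), (3, 7), (5, 1), (3, 6), (7, 1), (3, 3), (23, 1), (24, 2), (25, 2)], [(26, 1), (3, 2)]⟩,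
  ⟨2812, 120, 0, 224, 120, true, true, false, [(0, 21), (8, 1), (0, 1), (24, 1), (0, 1), (25, 1), (0, 3)], []⟩,
  ⟨3737, 120, 0, 144, 69, true, true, false, [(0, 35)], []⟩,
  ⟨7300, 120, 0, 0, 0, true, false, false, [(0, 46)], []⟩,
  ⟨9469, 120, 0, 0, 0, true, false, false, [(0, 46)], []⟩
  ] = true := by decide +kernel

def g76_40 : Gr := ⟨false, 614, 640, 1024, 1024, 76, 78, 8927, 9044, 0, 1709, 0, []⟩

theorem k76_40 : chk g76_40 T600 [
  ⟨978, 120, 600, 72, 376, false, false, true, [(0, 1), (3, 3), (35, 3), (17, 2), (18, 2), (19, 2), (20, 1), (21, 2), (22, 2), (23, 2), (24, 2), (25, 2), (26, 2), (27, 1), (3, 12)], [(3, 3)]⟩,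
  ⟨1663, 120, 600, 144, 269, false, true, false, [(0, 1), (3, 4), (11, 2), (3, 1), (12, 3), (13, 3), (14, 4), (23, 2), (24, 2), (25, 2), (26, 2), (27, 1), (3, 10)], []⟩,
  ⟨2348, 120, 0, 256, 145, true, true, true, [(0, 2), (3, 4), (4, 1), (3, 2), (5, 2), (3, 1), (6, 1), (13, 1), (3, 1), (14, 3), (23, 2), (24, 2), (25, 2), (26, 2)], [(27, 1), (28, 2)]⟩,
  ⟨2819, 120, 0, 208, 109, true, true, true, [(0, 6), (4, 1), (0, 3), (5, 1), (0, 2), (6, 1), (0, 2), (7, 2), (0, 1), (8, 3), (25, 2), (26, 2), (27, 1), (28, 2)], [(29, 2), (30, 1)]⟩,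
  ⟨3744, 120, 0, 160, 78, true, true, false, [(0, 36)], []⟩,
  ⟨7307, 120, 0, 0, 0, true, false, false, [(0, 48)], []⟩,
  ⟨9434, 120, 0, 0, 0, true, false, false, [(0, 48)], []⟩
  ] = true := by decide +kernel

def g76_41 : Gr := ⟨false, 640, 666, 1024, 1024, 76, 78, 8927, 9044, 0, 1640, 0, []⟩

theorem k76_41 : chk g76_41 T625 [
  ⟨1371, 120, 720, 144, 312, false, false, false, [(0, 1), (3, 3), (36, 3), (17, 2), (18, 2), (19, 2), (20, 1), (21, 2), (22, 2), (23, 2), (24, 2), (25, 2), (26, 2), (27, 1), (28, 2), (29, 2), (3, 8)], []⟩,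
  ⟨2331, 120, 0, 256, 145, true, true, true, [(0, 2), (3, 3), (4, 2), (3, 1), (5, 1), (12, 2), (13, 3), (14, 4), (15, 1), (23, 1), (24, 2), (25, 2), (26, 2)], [(27, 1), (28, 2), (29, 2)]⟩,
  ⟨3003, 120, 0, 208, 109, true, true, true, [(0, 6), (4, 1), (0, 2), (5, 2), (0, 1), (6, 2), (0, 1), (7, 3), (8, 3), (15, 1), (25, 2), (26, 2), (27, 1), (28, 2), (29, 2)], [(30, 2), (31, 1)]⟩,
  ⟨3944, 120, 0, 144, 69, true, true, false, [(0, 39)], []⟩,
  ⟨7569, 120, 0, 0, 0, true, false, false, [(0, 50)], []⟩,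
  ⟨9421, 120, 0, 0, 0, true, false, false, [(0, 50)], []⟩
  ] = true := by decide +kernel

def g76_42 : Gr := ⟨false, 665, 692, 1024, 1024, 76, 78, 8927, 9044, 0, 1578, 0, []⟩

theorem k76_42 : chk g76_42 T650 [
  ⟨1371, 120, 600, 128, 344, false, false, true, [(0, 1), (3, 3), (39, 3), (19, 2), (20, 2), (21, 2), (22, 1), (23, 2), (24, 2), (25, 2), (26, 2), (27, 2), (28, 2), (29, 1), (30, 2), (31, 2), (3, 8)], [(3, 3)]⟩,
  ⟨2331, 120, 0, 256, 145, true, true, true, [(0, 2), (3, 3), (4, 1), (12, 1), (3, 1), (5, 1), (13, 2), (14, 3), (15, 4), (16, 4), (27, 2), (28, 2)], [(29, 1), (30, 2), (31, 2), (32, 2)]⟩,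
  ⟨3291, 120, 0, 208, 109, true, true, true, [(0, 6), (4, 1), (0, 2), (5, 2), (0, 1), (6, 2), (7, 4), (8, 3), (16, 1), (27, 2), (28, 2), (29, 1), (30, 2), (31, 2), (32, 2)], [(33, 2), (34, 1)]⟩,
  ⟨4636, 120, 0, 96, 44, true, true, false, [(0, 44)], []⟩,
  ⟨8331, 120, 0, 0, 0, true, false, false, [(0, 51)], []⟩,
  ⟨9419, 120, 0, 0, 0, true, false, false, [(0, 51)], []⟩
  ] = true := by decide +kernel

def g76_43 : Gr := ⟨false, 691, 717, 1024, 1024, 76, 78, 8927, 9044, 0, 1519, 0, []⟩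

theorem k76_43 : chk g76_43 T675 [
  ⟨1371, 120, 600, 120, 368, false, false, true, [(0, 1), (3, 3), (40, 3), (19, 2), (20, 2), (21, 2), (22, 1), (23, 2), (24, 2), (25, 2), (26, 2), (27, 2), (28, 2), (29, 1), (30, 2), (31, 2), (32, 2), (3, 8)], [(3, 3)]⟩,
  ⟨2742, 120, 0, 256, 145, true, true, true, [(0, 2), (3, 3), (4, 1), (12, 1), (3, 1), (13, 3), (14, 3), (15, 4), (16, 4), (27, 2), (28, 2)], [(29, 1), (30, 2), (31, 2), (32, 2), (33, 1)]⟩,
  ⟨3702, 120, 0, 192, 98, true, true, true, [(0, 10), (5, 1), (0, 2), (6, 1), (0, 2), (7, 2), (0, 2), (8, 2), (0, 1), (9, 3), (29, 1), (30, 2), (31, 2), (32, 2), (33, 2), (34, 1)], [(34, 1), (35, 2)]⟩,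
  ⟨6340, 120, 0, 12, 6, true, true, false, [(0, 52)], []⟩,
  ⟨9394, 120, 0, 0, 0, true, false, false, [(0, 53)], []⟩
  ] = true := by decide +kernel

def g76_44 : Gr := ⟨false, 716, 743, 1024, 1024, 76, 78, 8927, 9044, 0, 1466, 0, []⟩

theorem k76_44 : chk g76_44 T700 [
  ⟨1921, 120, 600, 256, 233, false, true, false, [(0, 1), (3, 3), (41, 3), (19, 2), (20, 2), (21, 2), (22, 1), (23, 2), (24, 2), (25, 2), (26, 2), (27, 2), (28, 2), (29, 1), (30, 2), (31, 2), (32, 2), (33, 2), (34, 1)], []⟩,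
  ⟨3265, 120, 0, 208, 141, true, true, true, [(0, 5), (4, 2), (5, 4), (6, 3), (7, 2), (15, 2), (16, 4), (27, 2), (28, 2), (29, 1), (30, 2), (31, 2), (32, 2), (33, 2)], [(34, 2), (35, 2), (36, 1)]⟩,
  ⟨4609, 120, 0, 144, 69, true, true, false, [(0, 45)], []⟩,
  ⟨8303, 120, 0, 0, 0, true, false, false, [(0, 55)], []⟩,
  ⟨9395, 120, 0, 0, 0, true, false, false, [(0, 55)], []⟩
  ] = true := by decide +kernel

def g76_45 : Gr := ⟨false, 742, 768, 1024, 1024, 76, 78, 8927, 9044, 0, 1415, 0, []⟩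

theorem k76_45 : chk g76_45 T725 [
  ⟨1921, 120, 600, 272, 272, false, false, false, [(0, 1), (3, 3), (44, 3), (21, 2), (22, 2), (23, 2), (24, 1), (25, 2), (26, 2), (27, 2), (28, 2), (29, 2), (30, 2), (31, 1), (32, 2), (33, 2), (34, 2), (35, 2), (36, 2)], []⟩,
  ⟨3842, 120, 0, 208, 109, true, true, true, [(0, 4), (4, 3), (5, 4), (6, 3), (7, 2), (16, 2), (17, 4), (18, 4), (31, 1), (32, 2), (33, 2), (34, 2), (35, 2), (36, 2)], [(37, 2), (38, 1), (39, 2)]⟩,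
  ⟨5763, 120, 0, 24, 59, true, true, false, [(0, 55)], []⟩,
  ⟨9373, 120, 0, 0, 0, true, false, false, [(0, 57)], []⟩
  ] = true := by decide +kernel

def g76_46 : Gr := ⟨false, 768, 794, 1024, 1024, 76, 78, 8927, 9044, 0, 1367, 0, []⟩

theorem k76_46 : chk g76_46 T750 [
  ⟨1921, 120, 600, 272, 272, false, false, true, [(2, 4), (45, 3), (21, 2), (22, 2), (23, 2), (24, 1), (25, 2), (26, 2), (27, 2), (28, 2), (29, 2), (30, 2), (31, 1), (32, 2), (33, 2), (34, 2), (35, 2)], [(36, 2), (37, 2)]⟩,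
  ⟨3842, 120, 0, 224, 120, true, true, true, [(0, 4), (4, 3), (5, 4), (6, 3), (7, 2), (16, 2), (17, 4), (18, 4), (31, 1), (32, 2), (33, 2), (34, 2), (35, 2), (36, 2), (37, 2)], [(38, 1), (39, 2)]⟩,
  ⟨5763, 120, 0, 48, 64, true, false, false, [(0, 55)], []⟩,
  ⟨9362, 120, 0, 0, 0, true, false, false, [(0, 59)], []⟩
  ] = true := by decide +kernel

def g76_47 : Gr := ⟨false, 793, 820, 1024, 1024, 76, 78, 8927, 9044, 0, 1324, 0, []⟩

theorem k76_47 : chk g76_47 T775 [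
  ⟨2690, 120, 600, 240, 240, false, false, true, [(2, 4), (45, 3), (21, 2), (22, 2), (23, 2), (24, 1), (25, 2), (26, 2), (27, 2), (28, 2), (29, 2), (30, 2), (31, 1), (32, 2), (33, 2), (34, 2), (35, 2), (36, 2), (37, 2)], [(38, 1), (39, 2), (40, 1)]⟩,
  ⟨4573, 120, 0, 176, 96, true, true, true, [(0, 6), (4, 1), (0, 1), (5, 3), (6, 3), (7, 4), (8, 4), (9, 4), (31, 1), (19, 2), (33, 2), (34, 2), (35, 2), (36, 2), (37, 2), (38, 1), (39, 2), (40, 2)], [(41, 2), (42, 2)]⟩,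
  ⟨8266, 120, 0, 0, 0, true, false, false, [(0, 61)], []⟩,
  ⟨9365, 120, 0, 0, 0, true, false, false, [(0, 61)], []⟩
  ] = true := by decide +kernel

end Pool.Agent.Lib.MP_af3a4a_an.P1.CHK.H81.L
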