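import Pool.Agent.Lib.MP_af3a4a_an.P1.CHK.H81.DX
import Pool.Agent.Lib.MP_af3a4a_an.P1.CHK.H81.D76a
import Pool.Agent.Lib.MP_af3a4a_an.P1.CHK.H81.D76b
import Pool.Agent.Lib.MP_af3a4a_an.P1.CHK.H81.LW

/-!
# `76 ≤ N ≤ 78`, `R ≤ 4/5` (helper81)
-/

set_option autoImplicit false

namespace Pool.Agent.Lib.MP_af3a4a_an.P1.CHK.H81.L

open Pool.Agent.Lib.MP_af3a4a_an.SV (uu av)
open Pool.Agent.Lib.MP_af3a4a_an.P1.H80
open Pool.Agent.Lib.MP_af3a4a_an.P1.H74

theorem blk76 {N : ℕ} {z w : Fin N → ℂ} {R : ℝ} {σ : Fin N → ℂ} (hC : Cfg2 N z w R σ)
    (h0 : 76 ≤ N) (h1 : N ≤ 78) (hR : R ≤ 4 / 5) : False := by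
  rcases le_or_gt R (7 / 25) with r0 | r0
  · exact C0.c0_60_6 hC (by omega) (by omega) r0
  rcases le_or_gt R (37 / 128) with r1 | r1
  · exact win k76_0 rfl rfl hC h0 h1 (by norm_num [g76_0]; linarith only [r0]) (by norm_num [g76_0]; linarith only [r1])
      (by linarith only [r1]) (Or.inr (f0_of (κ := 1 / 2) (Rk := 59 / 200) (by norm_num [g76_0]) (by norm_num)
        (fun hm => C0.c0_60_4 hC (by omega) (by omega) (by linarith only [r1])
          (by linarith only [hm])) (by linarith only [r1])))
      (Or.inr (by decide))
      (profL_nil _ _ _)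
  rcases le_or_gt R (151 / 512) with r2 | r2
  · exact win k76_1 rfl rfl hC h0 h1 (by norm_num [g76_1]; linarith only [r1]) (by norm_num [g76_1]; linarith only [r2])
      (by linarith only [r2]) (Or.inr (f0_of (κ := 1 / 2) (Rk := 59 / 200) (by norm_num [g76_1]) (by norm_num)
        (fun hm => C0.c0_60_4 hC (by omega) (by omega) (by linarith only [r2])
          (by linarith only [hm])) (by linarith only [r2])))
      (Or.inr (by decide))
      (profL_nil _ _ _)
  rcases le_or_gt R (3 / 10) with r3 | r3
  · exact win k76_2 rfl rfl hC h0 h1 (by norm_num [g76_2]; linarith only [r2]) (by norm_num [g76_2]; linarith only [r3])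
      (by linarith only [r3]) (Or.inr (f0_of (κ := 3 / 8) (Rk := 31 / 100) (by norm_num [g76_2]) (by norm_num)
        (fun hm => C0.c0_60_3 hC (by omega) (by omega) (by linarith only [r3])
          (by linarith only [hm])) (by linarith only [r3])))
      (Or.inr (by decide))
      (profL_nil _ _ _)
  rcases le_or_gt R (313 / 1024) with r4 | r4
  · exact win k76_3 rfl rfl hC h0 h1 (by norm_num [g76_3]; linarith only [r3]) (by norm_num [g76_3]; linarith only [r4])
      (by linarith only [r4]) (Or.inr (f0_of (κ := 3 / 8) (Rk := 31 / 100) (by norm_num [g76_3]) (by norm_num)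
        (fun hm => C0.c0_60_3 hC (by omega) (by omega) (by linarith only [r4])
          (by linarith only [hm])) (by linarith only [r4])))
      (Or.inr (by decide))
      (T300_ok (by linarith only [r3]) (by linarith only [r4]) (by omega) hC.cfg.far hC.dist.le)
  rcases le_or_gt R (317 / 1024) with r5 | r5
  · exact win k76_4 rfl rfl hC h0 h1 (by norm_num [g76_4]; linarith only [r4]) (by norm_num [g76_4]; linarith only [r5])
      (by linarith only [r5]) (Or.inr (f0_of (κ := 3 / 8) (Rk := 31 / 100) (by norm_num [g76_4]) (by norm_num)
        (fun hm => C0.c0_60_3 hC (by omega) (by omega) (by linarith only [r5])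
          (by linarith only [hm])) (by linarith only [r5])))
      (Or.inr (by decide))
      (T300_ok (by linarith only [r4]) (by linarith only [r5]) (by omega) hC.cfg.far hC.dist.le)
  rcases le_or_gt R (323 / 1024) with r6 | r6
  · exact win k76_5 rfl rfl hC h0 h1 (by norm_num [g76_5]; linarith only [r5]) (by norm_num [g76_5]; linarith only [r6])
      (by linarith only [r6]) (Or.inr (f0_of (κ := 1 / 4) (Rk := 329 / 1000) (by norm_num [g76_5]) (by norm_num)
        (fun hm => C0.c0_60_2 hC (by omega) (by omega) (by linarith only [r6])
          (by linarith only [hm])) (by linarith only [r6])))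
      (Or.inr (by decide))
      (T300_ok (by linarith only [r5]) (by linarith only [r6]) (by omega) hC.cfg.far hC.dist.le)
  rcases le_or_gt R (327 / 1024) with r7 | r7
  · exact win k76_6 rfl rfl hC h0 h1 (by norm_num [g76_6]; linarith only [r6]) (by norm_num [g76_6]; linarith only [r7])
      (by linarith only [r7]) (Or.inr (f0_of (κ := 1 / 4) (Rk := 329 / 1000) (by norm_num [g76_6]) (by norm_num)
        (fun hm => C0.c0_60_2 hC (by omega) (by omega) (by linarith only [r7])
          (by linarith only [hm])) (by linarith only [r7])))
      (Or.inr (by decide))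
      (T300_ok (by linarith only [r6]) (by linarith only [r7]) (by omega) hC.cfg.far hC.dist.le)
  rcases le_or_gt R (165 / 512) with r8 | r8
  · exact win k76_7 rfl rfl hC h0 h1 (by norm_num [g76_7]; linarith only [r7]) (by norm_num [g76_7]; linarith only [r8])
      (by linarith only [r8]) (Or.inr (f0_of (κ := 1 / 4) (Rk := 329 / 1000) (by norm_num [g76_7]) (by norm_num)
        (fun hm => C0.c0_60_2 hC (by omega) (by omega) (by linarith only [r8])
          (by linarith only [hm])) (by linarith only [r8])))
      (Or.inr (by decide))
      (T300_ok (by linarith only [r7]) (by linarith only [r8]) (by omega) hC.cfg.far hC.dist.le)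
  rcases le_or_gt R (13 / 40) with r9 | r9
  · exact win k76_8 rfl rfl hC h0 h1 (by norm_num [g76_8]; linarith only [r8]) (by norm_num [g76_8]; linarith only [r9])
      (by linarith only [r9]) (Or.inr (f0_of (κ := 1 / 4) (Rk := 329 / 1000) (by norm_num [g76_8]) (by norm_num)
        (fun hm => C0.c0_60_2 hC (by omega) (by omega) (by linarith only [r9])
          (by linarith only [hm])) (by linarith only [r9])))
      (Or.inr (by decide))
      (T300_ok (by linarith only [r8]) (by linarith only [r9]) (by omega) hC.cfg.far hC.dist.le)
  rcases le_or_gt R (21 / 64) with r10 | r10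
  · exact win k76_9 rfl rfl hC h0 h1 (by norm_num [g76_9]; linarith only [r9]) (by norm_num [g76_9]; linarith only [r10])
      (by linarith only [r10]) (Or.inr (f0_of (κ := 1 / 4) (Rk := 329 / 1000) (by norm_num [g76_9]) (by norm_num)
        (fun hm => C0.c0_60_2 hC (by omega) (by omega) (by linarith only [r10])
          (by linarith only [hm])) (by linarith only [r10])))
      (Or.inr (by decide))
      (T325_ok (by linarith only [r9]) (by linarith only [r10]) (by omega) hC.cfg.far hC.dist.le)
  rcases le_or_gt R (341 / 1024) with r11 | r11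
  · exact win k76_10 rfl rfl hC h0 h1 (by norm_num [g76_10]; linarith only [r10]) (by norm_num [g76_10]; linarith only [r11])
      (by linarith only [r11]) (Or.inr (f0_of (κ := 1 / 8) (Rk := 349 / 1000) (by norm_num [g76_10]) (by norm_num)
        (fun hm => C0.c0_60_1 hC (by omega) (by omega) (by linarith only [r11])
          (by linarith only [hm])) (by linarith only [r11])))
      (Or.inl ⟨rfl, by decide, by decide⟩)
      (T325_ok (by linarith only [r10]) (by linarith only [r11]) (by omega) hC.cfg.far hC.dist.le)
  rcases le_or_gt R (349 / 1024) with r12 | r12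
  · exact win k76_11 rfl rfl hC h0 h1 (by norm_num [g76_11]; linarith only [r11]) (by norm_num [g76_11]; linarith only [r12])
      (by linarith only [r12]) (Or.inr (f0_of (κ := 1 / 8) (Rk := 349 / 1000) (by norm_num [g76_11]) (by norm_num)
        (fun hm => C0.c0_60_1 hC (by omega) (by omega) (by linarith only [r12])
          (by linarith only [hm])) (by linarith only [r12])))
      (Or.inl ⟨rfl, by decide, by decide⟩)
      (T325_ok (by linarith only [r11]) (by linarith only [r12]) (by omega) hC.cfg.far hC.dist.le)
  rcases le_or_gt R (355 / 1024) with r13 | r13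
  · exact win k76_12 rfl rfl hC h0 h1 (by norm_num [g76_12]; linarith only [r12]) (by norm_num [g76_12]; linarith only [r13])
      (by linarith only [r13]) (Or.inr (f0_of (κ := 1 / 8) (Rk := 349 / 1000) (by norm_num [g76_12]) (by norm_num)
        (fun hm => C0.c0_60_1 hC (by omega) (by omega) (by linarith only [r13])
          (by linarith only [hm])) (by linarith only [r13])))
      (Or.inl ⟨rfl, by decide, by decide⟩)
      (T325_ok (by linarith only [r12]) (by linarith only [r13]) (by omega) hC.cfg.far hC.dist.le)
  rcases le_or_gt R (7 / 20) with r14 | r14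
  · exact win k76_13 rfl rfl hC h0 h1 (by norm_num [g76_13]; linarith only [r13]) (by norm_num [g76_13]; linarith only [r14])
      (by linarith only [r14]) (Or.inl rfl)
      (Or.inl ⟨rfl, by decide, by decide⟩)
      (T325_ok (by linarith only [r13]) (by linarith only [r14]) (by omega) hC.cfg.far hC.dist.le)
  rcases le_or_gt R (183 / 512) with r15 | r15
  · exact win k76_14 rfl rfl hC h0 h1 (by norm_num [g76_14]; linarith only [r14]) (by norm_num [g76_14]; linarith only [r15])
      (by linarith only [r15]) (Or.inl rfl)
      (Or.inl ⟨rfl, by decide, by decide⟩)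
      (T350_ok (by linarith only [r14]) (by linarith only [r15]) (by omega) hC.cfg.far hC.dist.le)
  rcases le_or_gt R (371 / 1024) with r16 | r16
  · exact win k76_15 rfl rfl hC h0 h1 (by norm_num [g76_15]; linarith only [r15]) (by norm_num [g76_15]; linarith only [r16])
      (by linarith only [r16]) (Or.inl rfl)
      (Or.inl ⟨rfl, by decide, by decide⟩)
      (T350_ok (by linarith only [r15]) (by linarith only [r16]) (by omega) hC.cfg.far hC.dist.le)
  rcases le_or_gt R (375 / 1024) with r17 | r17
  · exact win k76_16 rfl rfl hC h0 h1 (by norm_num [g76_16]; linarith only [r16]) (by norm_num [g76_16]; linarith only [r17])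
      (by linarith only [r17]) (Or.inl rfl)
      (Or.inl ⟨rfl, by decide, by decide⟩)
      (T350_ok (by linarith only [r16]) (by linarith only [r17]) (by omega) hC.cfg.far hC.dist.le)
  rcases le_or_gt R (381 / 1024) with r18 | r18
  · exact win k76_17 rfl rfl hC h0 h1 (by norm_num [g76_17]; linarith only [r17]) (by norm_num [g76_17]; linarith only [r18])
      (by linarith only [r18]) (Or.inl rfl)
      (Or.inl ⟨rfl, by decide, by decide⟩)
      (T350_ok (by linarith only [r17]) (by linarith only [r18]) (by omega) hC.cfg.far hC.dist.le)
  rcases le_or_gt R (3 / 8) with r19 | r19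
  · exact win k76_18 rfl rfl hC h0 h1 (by norm_num [g76_18]; linarith only [r18]) (by norm_num [g76_18]; linarith only [r19])
      (by linarith only [r19]) (Or.inl rfl)
      (Or.inl ⟨rfl, by decide, by decide⟩)
      (T350_ok (by linarith only [r18]) (by linarith only [r19]) (by omega) hC.cfg.far hC.dist.le)
  rcases le_or_gt R (195 / 512) with r20 | r20
  · exact win k76_19 rfl rfl hC h0 h1 (by norm_num [g76_19]; linarith only [r19]) (by norm_num [g76_19]; linarith only [r20])
      (by linarith only [r20]) (Or.inl rfl)
      (Or.inl ⟨rfl, by decide, by decide⟩)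
      (T375_ok (by linarith only [r19]) (by linarith only [r20]) (by omega) hC.cfg.far hC.dist.le)
  rcases le_or_gt R (199 / 512) with r21 | r21
  · exact win k76_20 rfl rfl hC h0 h1 (by norm_num [g76_20]; linarith only [r20]) (by norm_num [g76_20]; linarith only [r21])
      (by linarith only [r21]) (Or.inl rfl)
      (Or.inl ⟨rfl, by decide, by decide⟩)
      (T375_ok (by linarith only [r20]) (by linarith only [r21]) (by omega) hC.cfg.far hC.dist.le)
  rcases le_or_gt R (203 / 512) with r22 | r22
  · exact win k76_21 rfl rfl hC h0 h1 (by norm_num [g76_21]; linarith only [r21]) (by norm_num [g76_21]; linarith only [r22])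
      (by linarith only [r22]) (Or.inl rfl)
      (Or.inl ⟨rfl, by decide, by decide⟩)
      (T375_ok (by linarith only [r21]) (by linarith only [r22]) (by omega) hC.cfg.far hC.dist.le)
  rcases le_or_gt R (2 / 5) with r23 | r23
  · exact win k76_22 rfl rfl hC h0 h1 (by norm_num [g76_22]; linarith only [r22]) (by norm_num [g76_22]; linarith only [r23])
      (by linarith only [r23]) (Or.inl rfl)
      (Or.inl ⟨rfl, by decide, by decide⟩)
      (T375_ok (by linarith only [r22]) (by linarith only [r23]) (by omega) hC.cfg.far hC.dist.le)
  rcases le_or_gt R (417 / 1024) with r24 | r24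
  · exact win k76_23 rfl rfl hC h0 h1 (by norm_num [g76_23]; linarith only [r23]) (by norm_num [g76_23]; linarith only [r24])
      (by linarith only [r24]) (Or.inl rfl)
      (Or.inl ⟨rfl, by decide, by decide⟩)
      (T400_ok (by linarith only [r23]) (by linarith only [r24]) (by omega) hC.cfg.far hC.dist.le)
  rcases le_or_gt R (425 / 1024) with r25 | r25
  · exact win k76_24 rfl rfl hC h0 h1 (by norm_num [g76_24]; linarith only [r24]) (by norm_num [g76_24]; linarith only [r25])
      (by linarith only [r25]) (Or.inl rfl)
      (Or.inl ⟨rfl, by decide, by decide⟩)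
      (T400_ok (by linarith only [r24]) (by linarith only [r25]) (by omega) hC.cfg.far hC.dist.le)
  rcases le_or_gt R (431 / 1024) with r26 | r26
  · exact win k76_25 rfl rfl hC h0 h1 (by norm_num [g76_25]; linarith only [r25]) (by norm_num [g76_25]; linarith only [r26])
      (by linarith only [r26]) (Or.inl rfl)
      (Or.inl ⟨rfl, by decide, by decide⟩)
      (T400_ok (by linarith only [r25]) (by linarith only [r26]) (by omega) hC.cfg.far hC.dist.le)
  rcases le_or_gt R (17 / 40) with r27 | r27
  · exact win k76_26 rfl rfl hC h0 h1 (by norm_num [g76_26]; linarith only [r26]) (by norm_num [g76_26]; linarith only [r27])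
      (by linarith only [r27]) (Or.inl rfl)
      (Or.inl ⟨rfl, by decide, by decide⟩)
      (T400_ok (by linarith only [r26]) (by linarith only [r27]) (by omega) hC.cfg.far hC.dist.le)
  rcases le_or_gt R (445 / 1024) with r28 | r28
  · exact win k76_27 rfl rfl hC h0 h1 (by norm_num [g76_27]; linarith only [r27]) (by norm_num [g76_27]; linarith only [r28])
      (by linarith only [r28]) (Or.inl rfl)
      (Or.inl ⟨rfl, by decide, by decide⟩)
      (T425_ok (by linarith only [r27]) (by linarith only [r28]) (by omega) hC.cfg.far hC.dist.le)
  rcases le_or_gt R (451 / 1024) with r29 | r29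
  · exact win k76_28 rfl rfl hC h0 h1 (by norm_num [g76_28]; linarith only [r28]) (by norm_num [g76_28]; linarith only [r29])
      (by linarith only [r29]) (Or.inl rfl)
      (Or.inl ⟨rfl, by decide, by decide⟩)
      (T425_ok (by linarith only [r28]) (by linarith only [r29]) (by omega) hC.cfg.far hC.dist.le)
  rcases le_or_gt R (459 / 1024) with r30 | r30
  · exact win k76_29 rfl rfl hC h0 h1 (by norm_num [g76_29]; linarith only [r29]) (by norm_num [g76_29]; linarith only [r30])
      (by linarith only [r30]) (Or.inl rfl)
      (Or.inl ⟨rfl, by decide, by decide⟩)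
      (T425_ok (by linarith only [r29]) (by linarith only [r30]) (by omega) hC.cfg.far hC.dist.le)
  rcases le_or_gt R (9 / 20) with r31 | r31
  · exact win k76_30 rfl rfl hC h0 h1 (by norm_num [g76_30]; linarith only [r30]) (by norm_num [g76_30]; linarith only [r31])
      (by linarith only [r31]) (Or.inl rfl)
      (Or.inl ⟨rfl, by decide, by decide⟩)
      (T425_ok (by linarith only [r30]) (by linarith only [r31]) (by omega) hC.cfg.far hC.dist.le)
  rcases le_or_gt R (117 / 256) with r32 | r32
  · exact win k76_31 rfl rfl hC h0 h1 (by norm_num [g76_31]; linarith only [r31]) (by norm_num [g76_31]; linarith only [r32])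
      (by linarith only [r32]) (Or.inl rfl)
      (Or.inl ⟨rfl, by decide, by decide⟩)
      (T450_ok (by linarith only [r31]) (by linarith only [r32]) (by omega) hC.cfg.far hC.dist.le)
  rcases le_or_gt R (481 / 1024) with r33 | r33
  · exact win k76_32 rfl rfl hC h0 h1 (by norm_num [g76_32]; linarith only [r32]) (by norm_num [g76_32]; linarith only [r33])
      (by linarith only [r33]) (Or.inl rfl)
      (Or.inl ⟨rfl, by decide, by decide⟩)
      (T450_ok (by linarith only [r32]) (by linarith only [r33]) (by omega) hC.cfg.far hC.dist.le)
  rcases le_or_gt R (19 / 40) with r34 | r34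
  · exact win k76_33 rfl rfl hC h0 h1 (by norm_num [g76_33]; linarith only [r33]) (by norm_num [g76_33]; linarith only [r34])
      (by linarith only [r34]) (Or.inl rfl)
      (Or.inl ⟨rfl, by decide, by decide⟩)
      (T450_ok (by linarith only [r33]) (by linarith only [r34]) (by omega) hC.cfg.far hC.dist.le)
  rcases le_or_gt R (253 / 512) with r35 | r35
  · exact win k76_34 rfl rfl hC h0 h1 (by norm_num [g76_34]; linarith only [r34]) (by norm_num [g76_34]; linarith only [r35])
      (by linarith only [r35]) (Or.inl rfl)
      (Or.inl ⟨rfl, by decide, by decide⟩)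
      (T475_ok (by linarith only [r34]) (by linarith only [r35]) (by omega) hC.cfg.far hC.dist.le)
  rcases le_or_gt R (1 / 2) with r36 | r36
  · exact win k76_35 rfl rfl hC h0 h1 (by norm_num [g76_35]; linarith only [r35]) (by norm_num [g76_35]; linarith only [r36])
      (by linarith only [r36]) (Or.inl rfl)
      (Or.inl ⟨rfl, by decide, by decide⟩)
      (T475_ok (by linarith only [r35]) (by linarith only [r36]) (by omega) hC.cfg.far hC.dist.le)
  rcases le_or_gt R (21 / 40) with r37 | r37
  · exact win k76_36 rfl rfl hC h0 h1 (by norm_num [g76_36]; linarith only [r36]) (by norm_num [g76_36]; linarith only [r37])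
      (by linarith only [r37]) (Or.inl rfl)
      (Or.inl ⟨rfl, by decide, by decide⟩)
      (T500_ok (by linarith only [r36]) (by linarith only [r37]) (by omega) hC.cfg.far hC.dist.le)
  rcases le_or_gt R (563 / 1024) with r38 | r38
  · exact win k76_37 rfl rfl hC h0 h1 (by norm_num [g76_37]; linarith only [r37]) (by norm_num [g76_37]; linarith only [r38])
      (by linarith only [r38]) (Or.inl rfl)
      (Or.inr (by decide))
      (T525_ok (by linarith only [r37]) (by linarith only [r38]) (by omega) hC.cfg.far hC.dist.le)
  rcases le_or_gt R (11 / 20) with r39 | r39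
  · exact win kx76_37 rfl rfl hC h0 h1 (by norm_num [gx76_37]; linarith only [r38]) (by norm_num [gx76_37]; linarith only [r39])
      (by linarith only [r39]) (Or.inl rfl)
      (Or.inr (by decide))
      (T525_ok (by linarith only [r38]) (by linarith only [r39]) (by omega) hC.cfg.far hC.dist.le)
  rcases le_or_gt R (23 / 40) with r40 | r40
  · exact win k76_38 rfl rfl hC h0 h1 (by norm_num [g76_38]; linarith only [r39]) (by norm_num [g76_38]; linarith only [r40])
      (by linarith only [r40]) (Or.inl rfl)
      (Or.inr (by decide))
      (T550_ok (by linarith only [r39]) (by linarith only [r40]) (by omega) hC.cfg.far hC.dist.le)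
  rcases le_or_gt R (3 / 5) with r41 | r41
  · exact win k76_39 rfl rfl hC h0 h1 (by norm_num [g76_39]; linarith only [r40]) (by norm_num [g76_39]; linarith only [r41])
      (by linarith only [r41]) (Or.inl rfl)
      (Or.inr (by decide))
      (T575_ok (by linarith only [r40]) (by linarith only [r41]) (by omega) hC.cfg.far hC.dist.le)
  rcases le_or_gt R (5 / 8) with r42 | r42
  · exact win k76_40 rfl rfl hC h0 h1 (by norm_num [g76_40]; linarith only [r41]) (by norm_num [g76_40]; linarith only [r42])
      (by linarith only [r42]) (Or.inl rfl)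
      (Or.inr (by decide))
      (T600_ok (by linarith only [r41]) (by linarith only [r42]) (by omega) hC.cfg.far hC.dist.le)
  rcases le_or_gt R (13 / 20) with r43 | r43
  · exact win k76_41 rfl rfl hC h0 h1 (by norm_num [g76_41]; linarith only [r42]) (by norm_num [g76_41]; linarith only [r43])
      (by linarith only [r43]) (Or.inl rfl)
      (Or.inr (by decide))
      (T625_ok (by linarith only [r42]) (by linarith only [r43]) (by omega) hC.cfg.far hC.dist.le)
  rcases le_or_gt R (27 / 40) with r44 | r44
  · exact win k76_42 rfl rfl hC h0 h1 (by norm_num [g76_42]; linarith only [r43]) (by norm_num [g76_42]; linarith only [r44])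
      (by linarith only [r44]) (Or.inl rfl)
      (Or.inr (by decide))
      (T650_ok (by linarith only [r43]) (by linarith only [r44]) (by omega) hC.cfg.far hC.dist.le)
  rcases le_or_gt R (7 / 10) with r45 | r45
  · exact win k76_43 rfl rfl hC h0 h1 (by norm_num [g76_43]; linarith only [r44]) (by norm_num [g76_43]; linarith only [r45])
      (by linarith only [r45]) (Or.inl rfl)
      (Or.inr (by decide))
      (T675_ok (by linarith only [r44]) (by linarith only [r45]) (by omega) hC.cfg.far hC.dist.le)
  rcases le_or_gt R (29 / 40) with r46 | r46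
  · exact win k76_44 rfl rfl hC h0 h1 (by norm_num [g76_44]; linarith only [r45]) (by norm_num [g76_44]; linarith only [r46])
      (by linarith only [r46]) (Or.inl rfl)
      (Or.inr (by decide))
      (T700_ok (by linarith only [r45]) (by linarith only [r46]) (by omega) hC.cfg.far hC.dist.le)
  rcases le_or_gt R (3 / 4) with r47 | r47
  · exact win k76_45 rfl rfl hC h0 h1 (by norm_num [g76_45]; linarith only [r46]) (by norm_num [g76_45]; linarith only [r47])
      (by linarith only [r47]) (Or.inl rfl)
      (Or.inr (by decide))
      (T725_ok (by linarith only [r46]) (by linarith only [r47]) (by omega) hC.cfg.far hC.dist.le)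
  rcases le_or_gt R (31 / 40) with r48 | r48
  · exact win k76_46 rfl rfl hC h0 h1 (by norm_num [g76_46]; linarith only [r47]) (by norm_num [g76_46]; linarith only [r48])
      (by linarith only [r48]) (Or.inl rfl)
      (Or.inr (by decide))
      (T750_ok (by linarith only [r47]) (by linarith only [r48]) (by omega) hC.cfg.far hC.dist.le)
  exact win k76_47 rfl rfl hC h0 h1 (by norm_num [g76_47]; linarith only [r48]) (by norm_num [g76_47]; linarith only [hR])
      (by linarith only [hR]) (Or.inl rfl)
      (Or.inr (by decide))
      (T775_ok (by linarith only [r48]) (by linarith only [hR]) (by omega) hC.cfg.far hC.dist.le)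

end Pool.Agent.Lib.MP_af3a4a_an.P1.CHK.H81.L
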