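import Pool.Agent.Lib.MP_af3a4a_an.P1.CHK.H81.LT
/-!
# Data, `79 ≤ N ≤ 80`, `286 ≤ 1024 R ≤ 820` (helper81)
-/
set_option autoImplicit false

namespace Pool.Agent.Lib.MP_af3a4a_an.P1.CHK.H81.L

open Pool.Agent.Lib.MP_af3a4a_an.P1.CHK.H58.G (Gr En)

def g79_0 : Gr := ⟨false, 286, 296, 1024, 1024, 79, 80, 9101, 9159, 512, 3668, 0, []⟩

theorem k79_0 : chk g79_0 [] [
  ⟨1360, 120, 0, 176, 88, true, true, false, [(0, 9)], []⟩,
  ⟨1539, 120, 0, 176, 88, true, true, false, [(0, 9)], []⟩,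
  ⟨1894, 120, 0, 144, 69, true, true, false, [(0, 12)], []⟩,
  ⟨3265, 120, 0, 72, 32, true, true, false, [(0, 17)], []⟩,
  ⟨7032, 120, 0, 0, 0, true, false, false, [(0, 23)], []⟩,
  ⟨9484, 120, 0, 0, 0, true, false, false, [(0, 23)], []⟩
  ] = true := by decide +kernel

def g79_1 : Gr := ⟨false, 296, 302, 1024, 1024, 79, 80, 9101, 9159, 512, 3544, 0, []⟩

theorem k79_1 : chk g79_1 [] [
  ⟨1359, 120, 0, 176, 88, true, true, false, [(0, 10)], []⟩,
  ⟨1486, 120, 0, 160, 78, true, true, false, [(0, 11)], []⟩,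
  ⟨1839, 120, 0, 144, 69, true, true, false, [(0, 12)], []⟩,
  ⟨2813, 120, 0, 88, 40, true, true, false, [(0, 16)], []⟩,
  ⟨6564, 120, 0, 0, 0, true, false, false, [(0, 23)], []⟩,
  ⟨9349, 120, 0, 0, 0, true, false, false, [(0, 23)], []⟩
  ] = true := by decide +kernel

def g79_2 : Gr := ⟨false, 302, 308, 1024, 1024, 79, 80, 9101, 9159, 384, 3474, 0, []⟩

theorem k79_2 : chk g79_2 [] [
  ⟨1070, 120, 0, 192, 98, true, true, false, [(0, 1), (3, 8)], []⟩,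
  ⟨1134, 120, 0, 192, 98, true, true, false, [(0, 2), (3, 7)], []⟩,
  ⟨1198, 120, 0, 192, 98, true, true, false, [(0, 2), (3, 7)], []⟩,
  ⟨1262, 120, 0, 192, 98, true, true, false, [(0, 3), (3, 6)], []⟩,
  ⟨1326, 120, 0, 176, 88, true, true, false, [(0, 4), (3, 6)], []⟩,
  ⟨1453, 120, 0, 176, 88, true, true, false, [(0, 10)], []⟩,
  ⟨1632, 120, 0, 176, 88, true, true, false, [(0, 10)], []⟩,
  ⟨1987, 120, 0, 144, 69, true, true, false, [(0, 13)], []⟩,
  ⟨3358, 120, 0, 80, 36, true, true, false, [(0, 17)], []⟩,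
  ⟨7125, 120, 0, 0, 0, true, false, false, [(0, 23)], []⟩,
  ⟨9347, 120, 0, 0, 0, true, false, false, [(0, 23)], []⟩
  ] = true := by decide +kernel

def g79_3 : Gr := ⟨false, 307, 317, 1024, 1024, 79, 80, 9101, 9159, 384, 3417, 0, []⟩

theorem k79_3 : chk g79_3 T300 [
  ⟨1067, 70, 0, 192, 98, true, true, false, [(0, 1), (3, 15)], []⟩,
  ⟨1130, 70, 0, 192, 98, true, true, false, [(0, 2), (3, 14)], []⟩,
  ⟨1193, 70, 0, 192, 98, true, true, false, [(0, 2), (3, 14)], []⟩,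
  ⟨1237, 70, 0, 192, 98, true, true, false, [(0, 2), (3, 14)], []⟩,
  ⟨1281, 70, 0, 192, 98, true, true, false, [(0, 3), (3, 13)], []⟩,
  ⟨1325, 70, 0, 192, 98, true, true, false, [(0, 4), (3, 12)], []⟩,
  ⟨1356, 70, 0, 192, 98, true, true, false, [(0, 8), (3, 8)], []⟩,
  ⟨1387, 70, 0, 192, 98, true, true, false, [(0, 16)], []⟩,
  ⟨1431, 70, 0, 192, 98, true, true, false, [(0, 16)], []⟩,
  ⟨1521, 70, 0, 176, 88, true, true, false, [(0, 19)], []⟩,
  ⟨1699, 70, 0, 160, 78, true, true, false, [(0, 21)], []⟩,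
  ⟨2194, 70, 0, 128, 60, true, true, false, [(0, 25)], []⟩,
  ⟨4868, 70, 0, 28, 12, true, true, false, [(0, 37)], []⟩,
  ⟨8612, 70, 0, 0, 0, true, false, false, [(0, 41)], []⟩,
  ⟨9462, 70, 0, 0, 0, true, false, false, [(0, 41)], []⟩
  ] = true := by decide +kernel

def g79_4 : Gr := ⟨false, 317, 325, 1024, 1024, 79, 80, 9101, 9159, 256, 3309, 0, []⟩

theorem k79_4 : chk g79_4 T300 [
  ⟨714, 120, 480, 192, 98, false, true, false, [(0, 1), (3, 9)], []⟩,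
  ⟨724, 120, 0, 208, 109, true, true, false, [(0, 1), (3, 8)], []⟩,
  ⟨734, 120, 0, 208, 109, true, true, false, [(0, 1), (3, 8)], []⟩,
  ⟨750, 120, 0, 208, 109, true, true, false, [(0, 1), (3, 8)], []⟩,
  ⟨773, 120, 0, 208, 109, true, true, false, [(0, 1), (3, 8)], []⟩,
  ⟨796, 120, 0, 208, 109, true, true, false, [(0, 1), (3, 8)], []⟩,
  ⟨829, 120, 0, 208, 109, true, true, false, [(0, 1), (3, 8)], []⟩,
  ⟨862, 120, 0, 208, 109, true, true, false, [(0, 1), (3, 8)], []⟩,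
  ⟨910, 120, 0, 208, 109, true, true, false, [(0, 1), (3, 8)], []⟩,
  ⟨958, 120, 0, 208, 109, true, true, false, [(0, 1), (3, 8)], []⟩,
  ⟨1006, 120, 0, 208, 109, true, true, false, [(0, 1), (3, 8)], []⟩,
  ⟨1054, 120, 0, 208, 109, true, true, false, [(0, 1), (3, 8)], []⟩,
  ⟨1102, 120, 0, 192, 98, true, true, false, [(0, 1), (3, 9)], []⟩,
  ⟨1170, 120, 0, 192, 98, true, true, false, [(0, 2), (3, 8)], []⟩,
  ⟨1238, 120, 0, 192, 98, true, true, false, [(0, 2), (3, 8)], []⟩,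
  ⟨1306, 120, 0, 192, 98, true, true, false, [(0, 2), (3, 8)], []⟩,
  ⟨1354, 120, 0, 192, 98, true, true, false, [(0, 3), (3, 7)], []⟩,
  ⟨1402, 120, 0, 192, 98, true, true, false, [(0, 6), (3, 4)], []⟩,
  ⟨1470, 120, 0, 192, 98, true, true, false, [(0, 10)], []⟩,
  ⟨1538, 120, 0, 192, 98, true, true, false, [(0, 10)], []⟩,
  ⟨1674, 120, 0, 176, 88, true, true, false, [(0, 12)], []⟩,
  ⟨2052, 120, 0, 144, 69, true, true, false, [(0, 14)], []⟩,
  ⟨3514, 120, 0, 72, 32, true, true, false, [(0, 19)], []⟩,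
  ⟨6383, 120, 0, 0, 0, true, false, false, [(0, 25)], []⟩,
  ⟨9252, 120, 0, 0, 0, true, false, false, [(0, 25)], []⟩,
  ⟨9394, 120, 0, 0, 0, true, false, false, [(0, 25)], []⟩
  ] = true := by decide +kernel

def g79_5 : Gr := ⟨false, 325, 333, 1024, 1024, 79, 80, 9101, 9159, 256, 3228, 0, []⟩

theorem k79_5 : chk g79_5 T300 [
  ⟨732, 36, 0, 224, 120, true, true, false, [(0, 1), (3, 27)], []⟩,
  ⟨748, 36, 0, 224, 120, true, true, false, [(0, 1), (3, 27)], []⟩,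
  ⟨764, 36, 0, 224, 120, true, true, false, [(0, 1), (3, 27)], []⟩,
  ⟨780, 36, 0, 224, 120, true, true, false, [(0, 1), (3, 27)], []⟩,
  ⟨803, 36, 0, 224, 120, true, true, false, [(0, 1), (3, 27)], []⟩,
  ⟨826, 36, 0, 208, 109, true, true, false, [(0, 1), (3, 31)], []⟩,
  ⟨859, 36, 0, 208, 109, true, true, false, [(0, 1), (3, 31)], []⟩,
  ⟨892, 36, 0, 208, 109, true, true, false, [(0, 1), (3, 31)], []⟩,
  ⟨940, 36, 0, 208, 109, true, true, false, [(0, 1), (3, 31)], []⟩,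
  ⟨988, 36, 0, 208, 109, true, true, false, [(0, 1), (3, 31)], []⟩,
  ⟨1036, 36, 0, 208, 109, true, true, false, [(0, 1), (3, 31)], []⟩,
  ⟨1084, 36, 0, 208, 109, true, true, false, [(0, 1), (3, 31)], []⟩,
  ⟨1132, 36, 0, 208, 109, true, true, false, [(0, 2), (3, 30)], []⟩,
  ⟨1180, 36, 0, 208, 109, true, true, false, [(0, 2), (3, 30)], []⟩,
  ⟨1228, 36, 0, 192, 98, true, true, false, [(0, 2), (3, 34)], []⟩,
  ⟨1276, 36, 0, 192, 98, true, true, false, [(0, 2), (3, 34)], []⟩,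
  ⟨1324, 36, 0, 192, 98, true, true, false, [(0, 2), (3, 34)], []⟩,
  ⟨1372, 36, 0, 192, 98, true, true, false, [(0, 3), (3, 33)], []⟩,
  ⟨1420, 36, 0, 192, 98, true, true, false, [(0, 5), (3, 31)], []⟩,
  ⟨1468, 36, 0, 192, 98, true, true, false, [(0, 36)], []⟩,
  ⟨1565, 36, 0, 176, 88, true, true, false, [(0, 40)], []⟩,
  ⟨1836, 36, 0, 160, 78, true, true, false, [(0, 43)], []⟩,
  ⟨2585, 36, 0, 120, 56, true, true, false, [(0, 53)], []⟩,
  ⟨5469, 36, 0, 0, 0, true, false, false, [(0, 83)], []⟩,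
  ⟨8353, 36, 0, 0, 0, true, false, false, [(0, 83)], []⟩,
  ⟨9390, 36, 0, 0, 0, true, false, false, [(0, 83)], []⟩
  ] = true := by decide +kernel

def g79_6 : Gr := ⟨false, 332, 338, 1024, 1024, 79, 80, 9101, 9159, 128, 2048, 0, []⟩

theorem k79_6 : chk g79_6 T325 [
  ⟨495, 120, 720, 72, 208, false, false, false, [(0, 1), (3, 19)], []⟩,
  ⟨584, 120, 720, 72, 200, false, false, false, [(0, 1), (3, 19)], []⟩,
  ⟨646, 120, 480, 192, 98, false, true, false, [(0, 1), (3, 10)], []⟩,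
  ⟨689, 120, 480, 192, 98, false, true, false, [(0, 1), (3, 10)], []⟩,
  ⟨732, 120, 480, 192, 98, false, true, false, [(0, 1), (3, 10)], []⟩,
  ⟨762, 120, 480, 192, 98, false, true, false, [(0, 1), (3, 10)], []⟩,
  ⟨783, 120, 480, 192, 98, false, true, false, [(0, 1), (3, 10)], []⟩,
  ⟨804, 120, 0, 208, 109, true, true, false, [(0, 1), (3, 9)], []⟩,
  ⟨835, 120, 0, 208, 109, true, true, false, [(0, 1), (3, 9)], []⟩,
  ⟨866, 120, 0, 208, 109, true, true, false, [(0, 1), (3, 9)], []⟩,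
  ⟨910, 120, 0, 208, 109, true, true, false, [(0, 1), (3, 9)], []⟩,
  ⟨954, 120, 0, 208, 109, true, true, false, [(0, 1), (3, 9)], []⟩,
  ⟨1017, 120, 0, 208, 109, true, true, false, [(0, 1), (3, 9)], []⟩,
  ⟨1080, 120, 0, 208, 109, true, true, false, [(0, 1), (3, 9)], []⟩,
  ⟨1143, 120, 0, 208, 109, true, true, false, [(0, 1), (3, 9)], []⟩,
  ⟨1206, 120, 0, 208, 109, true, true, false, [(0, 2), (3, 8)], []⟩,
  ⟨1269, 120, 0, 192, 98, true, true, false, [(0, 2), (3, 9)], []⟩,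
  ⟨1332, 120, 0, 192, 98, true, true, false, [(0, 2), (3, 9)], []⟩,
  ⟨1395, 120, 0, 192, 98, true, true, false, [(0, 3), (3, 8)], []⟩,
  ⟨1458, 120, 0, 192, 98, true, true, false, [(0, 5), (3, 6)], []⟩,
  ⟨1547, 120, 0, 192, 98, true, true, false, [(0, 11)], []⟩,
  ⟨1673, 120, 0, 192, 98, true, true, false, [(0, 11)], []⟩,
  ⟨1923, 120, 0, 160, 78, true, true, false, [(0, 14)], []⟩,
  ⟨2614, 120, 0, 112, 52, true, true, false, [(0, 17)], []⟩,
  ⟨6047, 120, 0, 0, 0, true, false, false, [(0, 26)], []⟩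
  ] = true := by decide +kernel

def g79_7 : Gr := ⟨false, 338, 348, 1024, 1024, 79, 80, 9101, 9159, 128, 2048, 0, []⟩

theorem k79_7 : chk g79_7 T325 [
  ⟨502, 70, 700, 60, 220, false, false, false, [(0, 1), (3, 17), (8, 1), (3, 18)], []⟩,
  ⟨591, 70, 700, 60, 212, false, false, false, [(0, 1), (3, 36)], []⟩,
  ⟨653, 70, 490, 192, 98, false, true, false, [(0, 1), (3, 19)], []⟩,
  ⟨696, 70, 490, 192, 98, false, true, false, [(0, 1), (3, 19)], []⟩,
  ⟨726, 70, 490, 192, 98, false, true, false, [(0, 1), (3, 19)], []⟩,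
  ⟨747, 70, 490, 192, 98, false, true, false, [(0, 1), (3, 19)], []⟩,
  ⟨768, 70, 490, 192, 98, false, true, false, [(0, 1), (3, 19)], []⟩,
  ⟨789, 70, 0, 224, 120, true, true, false, [(0, 1), (3, 15)], []⟩,
  ⟨810, 70, 0, 224, 120, true, true, false, [(0, 1), (3, 15)], []⟩,
  ⟨841, 70, 0, 224, 120, true, true, false, [(0, 1), (3, 15)], []⟩,
  ⟨872, 70, 0, 224, 120, true, true, false, [(0, 1), (3, 15)], []⟩,
  ⟨903, 70, 0, 224, 120, true, true, false, [(0, 1), (3, 15)], []⟩,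
  ⟨934, 70, 0, 224, 120, true, true, false, [(0, 1), (3, 15)], []⟩,
  ⟨978, 70, 0, 208, 109, true, true, false, [(0, 1), (3, 17)], []⟩,
  ⟨1022, 70, 0, 208, 109, true, true, false, [(0, 1), (3, 17)], []⟩,
  ⟨1066, 70, 0, 208, 109, true, true, false, [(0, 1), (3, 17)], []⟩,
  ⟨1129, 70, 0, 208, 109, true, true, false, [(0, 1), (3, 17)], []⟩,
  ⟨1192, 70, 0, 208, 109, true, true, false, [(0, 2), (3, 16)], []⟩,
  ⟨1236, 70, 0, 208, 109, true, true, false, [(0, 2), (3, 16)], []⟩,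
  ⟨1280, 70, 0, 208, 109, true, true, false, [(0, 2), (3, 16)], []⟩,
  ⟨1324, 70, 0, 192, 98, true, true, false, [(0, 2), (3, 18)], []⟩,
  ⟨1368, 70, 0, 192, 98, true, true, false, [(0, 2), (3, 18)], []⟩,
  ⟨1412, 70, 0, 192, 98, true, true, false, [(0, 3), (3, 17)], []⟩,
  ⟨1456, 70, 0, 192, 98, true, true, false, [(0, 4), (3, 16)], []⟩,
  ⟨1487, 70, 0, 192, 98, true, true, false, [(0, 8), (3, 12)], []⟩,
  ⟨1531, 70, 0, 192, 98, true, true, false, [(0, 20)], []⟩,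
  ⟨1620, 70, 0, 176, 88, true, true, false, [(0, 22)], []⟩,
  ⟨1797, 70, 0, 176, 88, true, true, false, [(0, 22)], []⟩,
  ⟨2147, 70, 0, 144, 69, true, true, false, [(0, 27)], []⟩,
  ⟨3502, 70, 0, 60, 27, true, true, false, [(0, 37)], []⟩,
  ⟨6226, 70, 0, 0, 0, true, false, false, [(0, 45)], []⟩
  ] = true := by decide +kernel

def g79_8 : Gr := ⟨false, 348, 356, 1024, 1024, 79, 80, 9101, 9159, 128, 2048, 0, []⟩

theorem k79_8 : chk g79_8 T325 [
  ⟨565, 70, 700, 80, 208, false, false, false, [(0, 1), (3, 17), (8, 1), (3, 17)], []⟩,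
  ⟨653, 70, 700, 88, 192, false, false, false, [(0, 1), (3, 34)], []⟩,
  ⟨714, 70, 490, 192, 98, false, true, false, [(0, 1), (3, 20)], []⟩,
  ⟨757, 70, 490, 192, 98, false, true, false, [(0, 1), (3, 20)], []⟩,
  ⟨787, 70, 490, 192, 98, false, true, false, [(0, 1), (3, 20)], []⟩,
  ⟨830, 70, 0, 224, 120, true, true, false, [(0, 1), (3, 16)], []⟩,
  ⟨873, 70, 0, 224, 120, true, true, false, [(0, 1), (3, 16)], []⟩,
  ⟨916, 70, 0, 224, 120, true, true, false, [(0, 1), (3, 16)], []⟩,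
  ⟨977, 70, 0, 224, 120, true, true, false, [(0, 1), (3, 16)], []⟩,
  ⟨1038, 70, 0, 224, 120, true, true, false, [(0, 1), (3, 16)], []⟩,
  ⟨1099, 70, 0, 208, 109, true, true, false, [(0, 1), (3, 18)], []⟩,
  ⟨1160, 70, 0, 208, 109, true, true, false, [(0, 1), (3, 18)], []⟩,
  ⟨1221, 70, 0, 208, 109, true, true, false, [(0, 2), (3, 17)], []⟩,
  ⟨1282, 70, 0, 208, 109, true, true, false, [(0, 2), (3, 17)], []⟩,
  ⟨1343, 70, 0, 208, 109, true, true, false, [(0, 2), (3, 17)], []⟩,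
  ⟨1404, 70, 0, 192, 98, true, true, false, [(0, 2), (3, 19)], []⟩,
  ⟨1465, 70, 0, 192, 98, true, true, false, [(0, 3), (3, 18)], []⟩,
  ⟨1508, 70, 0, 192, 98, true, true, false, [(0, 5), (3, 16)], []⟩,
  ⟨1551, 70, 0, 192, 98, true, true, false, [(0, 21)], []⟩,
  ⟨1638, 70, 0, 192, 98, true, true, false, [(0, 21)], []⟩,
  ⟨1810, 70, 0, 176, 88, true, true, false, [(0, 23)], []⟩,
  ⟨2151, 70, 0, 144, 69, true, true, false, [(0, 28)], []⟩,
  ⟨3469, 70, 0, 72, 32, true, true, false, [(0, 37)], []⟩,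
  ⟨6369, 70, 0, 0, 0, true, false, false, [(0, 46)], []⟩
  ] = true := by decide +kernel

def g79_9 : Gr := ⟨false, 356, 359, 1024, 1024, 79, 80, 9101, 9159, 0, 2048, 0, []⟩

theorem k79_9 : chk g79_9 T325 [
  ⟨355, 120, 720, 12, 292, false, false, false, [(0, 1), (3, 3), (15, 3), (7, 2), (8, 2), (9, 2), (3, 13)], []⟩,
  ⟨529, 120, 720, 64, 232, false, false, false, [(0, 1), (3, 9), (8, 1), (3, 11)], []⟩,
  ⟨650, 120, 720, 80, 208, false, false, false, [(0, 1), (3, 20)], []⟩,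
  ⟨735, 120, 480, 192, 98, false, true, false, [(0, 1), (3, 12)], []⟩,
  ⟨794, 120, 480, 192, 98, false, true, false, [(0, 1), (3, 12)], []⟩,
  ⟨853, 120, 0, 240, 132, true, true, false, [(0, 1), (3, 8)], []⟩,
  ⟨912, 120, 0, 240, 132, true, true, false, [(0, 1), (3, 8)], []⟩,
  ⟨953, 120, 0, 240, 132, true, true, false, [(0, 1), (3, 8)], []⟩,
  ⟨994, 120, 0, 240, 132, true, true, false, [(0, 1), (3, 8)], []⟩,
  ⟨1023, 120, 0, 240, 132, true, true, false, [(0, 1), (3, 8)], []⟩,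
  ⟨1052, 120, 0, 240, 132, true, true, false, [(0, 1), (3, 8)], []⟩,
  ⟨1066, 120, 0, 240, 132, true, true, false, [(0, 1), (3, 8)], []⟩,
  ⟨1080, 120, 0, 240, 132, true, true, false, [(0, 1), (3, 8)], []⟩,
  ⟨1090, 120, 0, 224, 120, true, true, false, [(0, 1), (3, 10)], []⟩,
  ⟨1100, 120, 0, 224, 120, true, true, false, [(0, 1), (3, 10)], []⟩,
  ⟨1110, 120, 0, 224, 120, true, true, false, [(0, 1), (3, 10)], []⟩,
  ⟨1120, 120, 0, 224, 120, true, true, false, [(0, 1), (3, 10)], []⟩,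
  ⟨1130, 120, 0, 224, 120, true, true, false, [(0, 1), (3, 10)], []⟩,
  ⟨1145, 120, 0, 208, 109, true, true, false, [(0, 1), (3, 11)], []⟩,
  ⟨1160, 120, 0, 208, 109, true, true, false, [(0, 1), (3, 11)], []⟩,
  ⟨1182, 120, 0, 208, 109, true, true, false, [(0, 1), (3, 11)], []⟩,
  ⟨1204, 120, 0, 208, 109, true, true, false, [(0, 2), (3, 10)], []⟩,
  ⟨1226, 120, 0, 208, 109, true, true, false, [(0, 2), (3, 10)], []⟩,
  ⟨1257, 120, 0, 208, 109, true, true, false, [(0, 2), (3, 10)], []⟩,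
  ⟨1288, 120, 0, 192, 98, true, true, false, [(0, 2), (3, 11)], []⟩,
  ⟨1319, 120, 0, 192, 98, true, true, false, [(0, 2), (3, 11)], []⟩,
  ⟨1364, 120, 0, 192, 98, true, true, false, [(0, 2), (3, 11)], []⟩,
  ⟨1409, 120, 0, 192, 98, true, true, false, [(0, 2), (3, 11)], []⟩,
  ⟨1454, 120, 0, 192, 98, true, true, false, [(0, 3), (3, 10)], []⟩,
  ⟨1499, 120, 0, 192, 98, true, true, false, [(0, 3), (3, 10)], []⟩,
  ⟨1544, 120, 0, 192, 98, true, true, false, [(0, 4), (3, 9)], []⟩,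
  ⟨1575, 120, 0, 192, 98, true, true, false, [(0, 9), (3, 4)], []⟩,
  ⟨1667, 120, 0, 192, 98, true, true, false, [(0, 13)], []⟩,
  ⟨1849, 120, 0, 176, 88, true, true, false, [(0, 14)], []⟩,
  ⟨2209, 120, 0, 160, 78, true, true, false, [(0, 15)], []⟩,
  ⟨3601, 120, 0, 64, 28, true, true, false, [(0, 22)], []⟩,
  ⟨6423, 120, 0, 0, 0, true, false, false, [(0, 27)], []⟩
  ] = true := by decide +kernel

def g79_10 : Gr := ⟨false, 358, 366, 1024, 1024, 79, 80, 9101, 9159, 0, 2048, 0, []⟩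

theorem k79_10 : chk g79_10 T350 [
  ⟨498, 120, 600, 192, 122, false, true, false, [(0, 1), (3, 3), (18, 3), (9, 2), (10, 2), (11, 2)], []⟩,
  ⟨617, 120, 720, 72, 216, false, false, false, [(0, 1), (3, 11), (11, 1), (3, 9)], []⟩,
  ⟨700, 120, 480, 192, 98, false, true, false, [(0, 1), (3, 12)], []⟩,
  ⟨758, 120, 480, 192, 98, false, true, false, [(0, 1), (3, 12)], []⟩,
  ⟨816, 120, 480, 192, 98, false, true, false, [(0, 1), (3, 12)], []⟩,
  ⟨857, 120, 480, 192, 98, false, true, false, [(0, 1), (3, 12)], []⟩,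
  ⟨885, 120, 480, 192, 98, false, true, false, [(0, 1), (3, 12)], []⟩,
  ⟨905, 120, 480, 192, 98, false, true, false, [(0, 1), (3, 12)], []⟩,
  ⟨919, 120, 0, 208, 109, true, true, false, [(0, 1), (3, 11)], []⟩,
  ⟨933, 120, 0, 208, 109, true, true, false, [(0, 1), (3, 11)], []⟩,
  ⟨953, 120, 0, 208, 109, true, true, false, [(0, 1), (3, 11)], []⟩,
  ⟨973, 120, 0, 208, 109, true, true, false, [(0, 1), (3, 11)], []⟩,
  ⟨1002, 120, 0, 208, 109, true, true, false, [(0, 1), (3, 11)], []⟩,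
  ⟨1031, 120, 0, 208, 109, true, true, false, [(0, 1), (3, 11)], []⟩,
  ⟨1073, 120, 0, 208, 109, true, true, false, [(0, 1), (3, 11)], []⟩,
  ⟨1115, 120, 0, 208, 109, true, true, false, [(0, 1), (3, 11)], []⟩,
  ⟨1176, 120, 0, 208, 109, true, true, false, [(0, 1), (3, 11)], []⟩,
  ⟨1237, 120, 0, 208, 109, true, true, false, [(0, 2), (3, 10)], []⟩,
  ⟨1298, 120, 0, 208, 109, true, true, false, [(0, 2), (3, 10)], []⟩,
  ⟨1359, 120, 0, 208, 109, true, true, false, [(0, 2), (3, 10)], []⟩,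
  ⟨1419, 120, 0, 208, 109, true, true, false, [(0, 2), (3, 10)], []⟩,
  ⟨1461, 120, 0, 192, 98, true, true, false, [(0, 3), (3, 10)], []⟩,
  ⟨1503, 120, 0, 192, 98, true, true, false, [(0, 3), (3, 10)], []⟩,
  ⟨1545, 120, 0, 192, 98, true, true, false, [(0, 4), (3, 9)], []⟩,
  ⟨1587, 120, 0, 192, 98, true, true, false, [(0, 8), (3, 5)], []⟩,
  ⟨1673, 120, 0, 192, 98, true, true, false, [(0, 13)], []⟩,
  ⟨1794, 120, 0, 192, 98, true, true, false, [(0, 13)], []⟩,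
  ⟨2034, 120, 0, 160, 78, true, true, false, [(0, 16)], []⟩,
  ⟨2697, 120, 0, 112, 52, true, true, false, [(0, 19)], []⟩,
  ⟨6279, 120, 0, 0, 0, true, false, false, [(0, 28)], []⟩,
  ⟨6548, 120, 0, 0, 0, true, false, false, [(0, 28)], []⟩
  ] = true := by decide +kernel

def g79_11 : Gr := ⟨false, 366, 372, 1024, 1024, 79, 80, 9101, 9159, 0, 2048, 0, []⟩

theorem k79_11 : chk g79_11 T350 [
  ⟨355, 90, 720, 20, 292, false, false, false, [(0, 1), (3, 5), (18, 3), (8, 1), (9, 2), (10, 3), (11, 2), (3, 18)], []⟩,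
  ⟨603, 90, 720, 72, 224, false, false, false, [(0, 1), (3, 8), (6, 1), (3, 3), (10, 2), (11, 2), (3, 13)], []⟩,
  ⟨724, 90, 540, 192, 106, false, true, false, [(0, 1), (3, 17)], []⟩,
  ⟨809, 90, 540, 192, 98, false, true, false, [(0, 1), (3, 17)], []⟩,
  ⟨868, 90, 0, 224, 120, true, true, false, [(0, 1), (3, 14)], []⟩,
  ⟨952, 90, 0, 224, 120, true, true, false, [(0, 1), (3, 14)], []⟩,
  ⟨1036, 90, 0, 224, 120, true, true, false, [(0, 1), (3, 14)], []⟩,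
  ⟨1120, 90, 0, 224, 120, true, true, false, [(0, 1), (3, 14)], []⟩,
  ⟨1204, 90, 0, 224, 120, true, true, false, [(0, 1), (3, 14)], []⟩,
  ⟨1288, 90, 0, 224, 120, true, true, false, [(0, 2), (3, 13)], []⟩,
  ⟨1347, 90, 0, 224, 120, true, true, false, [(0, 2), (3, 13)], []⟩,
  ⟨1406, 90, 0, 192, 98, true, true, false, [(0, 2), (3, 16)], []⟩,
  ⟨1465, 90, 0, 192, 98, true, true, false, [(0, 2), (3, 16)], []⟩,
  ⟨1524, 90, 0, 192, 98, true, true, false, [(0, 3), (3, 15)], []⟩,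
  ⟨1583, 90, 0, 192, 98, true, true, false, [(0, 4), (3, 14)], []⟩,
  ⟨1624, 90, 0, 192, 98, true, true, false, [(0, 10), (3, 8)], []⟩,
  ⟨1742, 90, 0, 192, 98, true, true, false, [(0, 18)], []⟩,
  ⟨1975, 90, 0, 176, 88, true, true, false, [(0, 20)], []⟩,
  ⟨2435, 90, 0, 144, 69, true, true, false, [(0, 23)], []⟩,
  ⟨5919, 90, 0, 0, 0, true, false, true, [(0, 36)], [(0, 1)]⟩,
  ⟨6655, 90, 0, 0, 0, true, false, false, [(0, 37)], []⟩
  ] = true := by decide +kernel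

def g79_12 : Gr := ⟨false, 372, 378, 1024, 1024, 79, 80, 9101, 9159, 0, 2048, 0, []⟩

theorem k79_12 : chk g79_12 T350 [
  ⟨498, 120, 600, 208, 117, false, true, false, [(0, 1), (3, 3), (18, 3), (9, 2), (10, 2), (11, 2)], []⟩,
  ⟨668, 120, 720, 88, 208, false, false, false, [(0, 1), (3, 11), (11, 1), (3, 9)], []⟩,
  ⟨751, 120, 600, 112, 180, false, true, false, [(0, 1), (3, 19)], []⟩,
  ⟨834, 120, 480, 208, 109, false, true, false, [(0, 1), (3, 12)], []⟩,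
  ⟨892, 120, 480, 208, 109, false, true, false, [(0, 1), (3, 12)], []⟩,
  ⟨933, 120, 480, 208, 109, false, true, false, [(0, 1), (3, 12)], []⟩,
  ⟨961, 120, 480, 192, 98, false, true, false, [(0, 1), (3, 13)], []⟩,
  ⟨981, 120, 480, 192, 98, false, true, false, [(0, 1), (3, 13)], []⟩,
  ⟨1001, 120, 0, 208, 109, true, true, false, [(0, 1), (3, 12)], []⟩,
  ⟨1021, 120, 0, 208, 109, true, true, false, [(0, 1), (3, 12)], []⟩,
  ⟨1050, 120, 0, 208, 109, true, true, false, [(0, 1), (3, 12)], []⟩,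
  ⟨1079, 120, 0, 208, 109, true, true, false, [(0, 1), (3, 12)], []⟩,
  ⟨1120, 120, 0, 208, 109, true, true, false, [(0, 1), (3, 12)], []⟩,
  ⟨1161, 120, 0, 208, 109, true, true, false, [(0, 1), (3, 12)], []⟩,
  ⟨1220, 120, 0, 208, 109, true, true, false, [(0, 1), (3, 12)], []⟩,
  ⟨1279, 120, 0, 208, 109, true, true, false, [(0, 2), (3, 11)], []⟩,
  ⟨1338, 120, 0, 208, 109, true, true, false, [(0, 2), (3, 11)], []⟩,
  ⟨1397, 120, 0, 208, 109, true, true, false, [(0, 2), (3, 11)], []⟩,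
  ⟨1456, 120, 0, 208, 109, true, true, false, [(0, 2), (3, 11)], []⟩,
  ⟨1515, 120, 0, 208, 109, true, true, false, [(0, 3), (3, 10)], []⟩,
  ⟨1556, 120, 0, 208, 109, true, true, false, [(0, 3), (3, 10)], []⟩,
  ⟨1597, 120, 0, 192, 98, true, true, false, [(0, 4), (3, 10)], []⟩,
  ⟨1638, 120, 0, 192, 98, true, true, false, [(0, 7), (3, 7)], []⟩,
  ⟨1722, 120, 0, 192, 98, true, true, false, [(0, 14)], []⟩,
  ⟨1889, 120, 0, 192, 98, true, true, false, [(0, 14)], []⟩,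
  ⟨2219, 120, 0, 160, 78, true, true, false, [(0, 17)], []⟩,
  ⟨3494, 120, 0, 72, 32, true, true, false, [(0, 23)], []⟩,
  ⟨6762, 120, 0, 0, 0, true, false, false, [(0, 29)], []⟩
  ] = true := by decide +kernel

def g79_13 : Gr := ⟨false, 378, 384, 1024, 1024, 79, 80, 9101, 9159, 0, 2048, 0, []⟩

theorem k79_13 : chk g79_13 T350 [
  ⟨498, 90, 540, 224, 120, false, true, false, [(0, 1), (3, 5), (18, 3), (8, 1), (9, 2), (10, 3), (11, 1)], []⟩,
  ⟨668, 90, 630, 104, 200, false, false, false, [(0, 1), (3, 15), (11, 1), (3, 11)], []⟩,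
  ⟨787, 90, 630, 104, 192, false, false, false, [(0, 1), (3, 27)], []⟩,
  ⟨870, 90, 450, 224, 120, false, true, false, [(0, 1), (3, 15)], []⟩,
  ⟨953, 90, 0, 224, 120, true, true, false, [(0, 1), (3, 15)], []⟩,
  ⟨1036, 90, 0, 224, 120, true, true, false, [(0, 1), (3, 15)], []⟩,
  ⟨1154, 90, 0, 224, 120, true, true, false, [(0, 1), (3, 15)], []⟩,
  ⟨1272, 90, 0, 224, 120, true, true, false, [(0, 1), (3, 15)], []⟩,
  ⟨1354, 90, 0, 224, 120, true, true, false, [(0, 2), (3, 14)], []⟩,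
  ⟨1436, 90, 0, 224, 120, true, true, false, [(0, 2), (3, 14)], []⟩,
  ⟨1493, 90, 0, 208, 109, true, true, false, [(0, 2), (3, 16)], []⟩,
  ⟨1550, 90, 0, 208, 109, true, true, false, [(0, 3), (3, 15)], []⟩,
  ⟨1590, 90, 0, 208, 109, true, true, false, [(0, 3), (3, 15)], []⟩,
  ⟨1618, 90, 0, 208, 109, true, true, false, [(0, 4), (3, 14)], []⟩,
  ⟨1646, 90, 0, 208, 109, true, true, false, [(0, 6), (3, 12)], []⟩,
  ⟨1665, 90, 0, 208, 109, true, true, false, [(0, 11), (3, 7)], []⟩,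
  ⟨1684, 90, 0, 208, 109, true, true, false, [(0, 18)], []⟩,
  ⟨1712, 90, 0, 208, 109, true, true, false, [(0, 18)], []⟩,
  ⟨1795, 90, 0, 192, 98, true, true, false, [(0, 20)], []⟩,
  ⟨2028, 90, 0, 176, 88, true, true, false, [(0, 21)], []⟩,
  ⟨2672, 90, 0, 128, 60, true, true, false, [(0, 26)], []⟩,
  ⟨6149, 90, 0, 0, 0, true, false, false, [(0, 39)], []⟩,
  ⟨6870, 90, 0, 0, 0, true, false, false, [(0, 39)], []⟩
  ] = true := by decide +kernel

def g79_14 : Gr := ⟨false, 384, 392, 1024, 1024, 79, 80, 9101, 9159, 0, 2048, 0, []⟩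

theorem k79_14 : chk g79_14 T375 [
  ⟨498, 120, 600, 192, 146, false, true, false, [(0, 1), (3, 3), (19, 3), (9, 2), (10, 2), (11, 2), (12, 2)], []⟩,
  ⟨668, 120, 720, 72, 232, false, false, false, [(0, 1), (3, 11), (11, 1), (3, 1), (12, 1), (3, 9)], []⟩,
  ⟨787, 120, 720, 112, 188, false, true, false, [(0, 1), (3, 20)], []⟩,
  ⟨870, 120, 480, 208, 109, false, true, false, [(0, 1), (3, 13)], []⟩,
  ⟨928, 120, 480, 208, 109, false, true, false, [(0, 1), (3, 13)], []⟩,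
  ⟨969, 120, 480, 208, 109, false, true, false, [(0, 1), (3, 13)], []⟩,
  ⟨997, 120, 480, 208, 109, false, true, false, [(0, 1), (3, 13)], []⟩,
  ⟨1017, 120, 480, 208, 109, false, true, false, [(0, 1), (3, 13)], []⟩,
  ⟨1031, 120, 480, 208, 109, false, true, false, [(0, 1), (3, 13)], []⟩,
  ⟨1040, 120, 480, 192, 98, false, true, false, [(0, 1), (3, 14)], []⟩,
  ⟨1049, 120, 0, 208, 109, true, true, false, [(0, 1), (3, 13)], []⟩,
  ⟨1058, 120, 0, 208, 109, true, true, false, [(0, 1), (3, 13)], []⟩,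
  ⟨1072, 120, 0, 208, 109, true, true, false, [(0, 1), (3, 13)], []⟩,
  ⟨1086, 120, 0, 208, 109, true, true, false, [(0, 1), (3, 13)], []⟩,
  ⟨1107, 120, 0, 208, 109, true, true, false, [(0, 1), (3, 13)], []⟩,
  ⟨1128, 120, 0, 208, 109, true, true, false, [(0, 1), (3, 13)], []⟩,
  ⟨1159, 120, 0, 208, 109, true, true, false, [(0, 1), (3, 13)], []⟩,
  ⟨1190, 120, 0, 208, 109, true, true, false, [(0, 1), (3, 13)], []⟩,
  ⟨1221, 120, 0, 208, 109, true, true, false, [(0, 1), (3, 13)], []⟩,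
  ⟨1265, 120, 0, 208, 109, true, true, false, [(0, 2), (3, 12)], []⟩,
  ⟨1309, 120, 0, 208, 109, true, true, false, [(0, 2), (3, 12)], []⟩,
  ⟨1353, 120, 0, 208, 109, true, true, false, [(0, 2), (3, 12)], []⟩,
  ⟨1416, 120, 0, 208, 109, true, true, false, [(0, 2), (3, 12)], []⟩,
  ⟨1479, 120, 0, 208, 109, true, true, false, [(0, 2), (3, 12)], []⟩,
  ⟨1523, 120, 0, 208, 109, true, true, false, [(0, 2), (3, 12)], []⟩,
  ⟨1567, 120, 0, 208, 109, true, true, false, [(0, 3), (3, 11)], []⟩,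
  ⟨1611, 120, 0, 208, 109, true, true, false, [(0, 3), (3, 11)], []⟩,
  ⟨1642, 120, 0, 208, 109, true, true, false, [(0, 4), (3, 10)], []⟩,
  ⟨1663, 120, 0, 192, 98, true, true, false, [(0, 6), (3, 9)], []⟩,
  ⟨1684, 120, 0, 192, 98, true, true, false, [(0, 8), (3, 7)], []⟩,
  ⟨1715, 120, 0, 192, 98, true, true, false, [(0, 15)], []⟩,
  ⟨1806, 120, 0, 192, 98, true, true, false, [(0, 15)], []⟩,
  ⟨1987, 120, 0, 192, 98, true, true, false, [(0, 15)], []⟩,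
  ⟨2344, 120, 0, 144, 69, true, true, false, [(0, 19)], []⟩,
  ⟨3726, 120, 0, 72, 32, true, true, false, [(0, 24)], []⟩,
  ⟨7013, 120, 0, 0, 0, true, false, false, [(0, 30)], []⟩
  ] = true := by decide +kernel

def g79_15 : Gr := ⟨false, 392, 402, 1024, 1024, 79, 80, 9101, 9159, 0, 2048, 0, []⟩

theorem k79_15 : chk g79_15 T375 [
  ⟨498, 70, 560, 224, 120, false, true, false, [(0, 1), (3, 6), (19, 4), (8, 1), (9, 4), (10, 3), (11, 3), (12, 1)], []⟩,
  ⟨668, 70, 700, 60, 252, false, false, false, [(0, 1), (3, 20), (11, 1), (3, 2), (12, 2), (3, 18)], []⟩,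
  ⟨787, 70, 630, 144, 168, false, false, false, [(0, 1), (3, 32)], []⟩,
  ⟨870, 70, 560, 208, 109, false, true, false, [(0, 1), (3, 24)], []⟩,
  ⟨928, 70, 560, 208, 109, false, true, false, [(0, 1), (3, 24)], []⟩,
  ⟨986, 70, 0, 240, 132, true, true, false, [(0, 1), (3, 20)], []⟩,
  ⟨1044, 70, 0, 240, 132, true, true, false, [(0, 1), (3, 20)], []⟩,
  ⟨1102, 70, 0, 240, 132, true, true, false, [(0, 1), (3, 20)], []⟩,
  ⟨1160, 70, 0, 224, 120, true, true, false, [(0, 1), (3, 22)], []⟩,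
  ⟨1218, 70, 0, 224, 120, true, true, false, [(0, 1), (3, 22)], []⟩,
  ⟨1301, 70, 0, 224, 120, true, true, false, [(0, 2), (3, 21)], []⟩,
  ⟨1384, 70, 0, 224, 120, true, true, false, [(0, 2), (3, 21)], []⟩,
  ⟨1442, 70, 0, 224, 120, true, true, false, [(0, 2), (3, 21)], []⟩,
  ⟨1500, 70, 0, 208, 109, true, true, false, [(0, 2), (3, 23)], []⟩,
  ⟨1558, 70, 0, 208, 109, true, true, false, [(0, 2), (3, 23)], []⟩,
  ⟨1616, 70, 0, 208, 109, true, true, false, [(0, 3), (3, 22)], []⟩,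
  ⟨1656, 70, 0, 208, 109, true, true, false, [(0, 4), (3, 21)], []⟩,
  ⟨1684, 70, 0, 208, 109, true, true, false, [(0, 5), (3, 20)], []⟩,
  ⟨1712, 70, 0, 208, 109, true, true, false, [(0, 7), (3, 18)], []⟩,
  ⟨1731, 70, 0, 208, 109, true, true, false, [(0, 16), (3, 9)], []⟩,
  ⟨1759, 70, 0, 192, 98, true, true, false, [(0, 27)], []⟩,
  ⟨1842, 70, 0, 192, 98, true, true, false, [(0, 27)], []⟩,
  ⟨2008, 70, 0, 176, 88, true, true, false, [(0, 29)], []⟩,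
  ⟨2469, 70, 0, 144, 69, true, true, false, [(0, 33)], []⟩,
  ⟨4247, 70, 0, 44, 19, true, true, false, [(0, 46)], []⟩,
  ⟨7192, 70, 0, 0, 0, true, false, false, [(0, 52)], []⟩
  ] = true := by decide +kernel

def g79_16 : Gr := ⟨false, 402, 410, 1024, 1024, 79, 80, 9101, 9159, 0, 2048, 0, []⟩

theorem k79_16 : chk g79_16 T375 [
  ⟨498, 90, 720, 28, 300, false, false, false, [(0, 1), (3, 5), (19, 3), (8, 1), (9, 2), (10, 3), (11, 2), (12, 3), (3, 18)], []⟩,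
  ⟨742, 90, 720, 80, 236, false, true, false, [(0, 1), (3, 8), (6, 1), (3, 5), (11, 2), (3, 1), (12, 2), (3, 13)], []⟩,
  ⟨861, 90, 630, 120, 192, false, false, false, [(0, 1), (3, 28)], []⟩,
  ⟨944, 90, 630, 120, 184, false, false, false, [(0, 1), (3, 28)], []⟩,
  ⟨1002, 90, 0, 240, 132, true, true, false, [(0, 1), (3, 16)], []⟩,
  ⟨1060, 90, 0, 240, 132, true, true, false, [(0, 1), (3, 16)], []⟩,
  ⟨1143, 90, 0, 240, 132, true, true, false, [(0, 1), (3, 16)], []⟩,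
  ⟨1226, 90, 0, 240, 132, true, true, false, [(0, 1), (3, 16)], []⟩,
  ⟨1284, 90, 0, 224, 120, true, true, false, [(0, 1), (3, 18)], []⟩,
  ⟨1342, 90, 0, 224, 120, true, true, false, [(0, 2), (3, 17)], []⟩,
  ⟨1400, 90, 0, 224, 120, true, true, false, [(0, 2), (3, 17)], []⟩,
  ⟨1458, 90, 0, 224, 120, true, true, false, [(0, 2), (3, 17)], []⟩,
  ⟨1516, 90, 0, 224, 120, true, true, false, [(0, 2), (3, 17)], []⟩,
  ⟨1556, 90, 0, 224, 120, true, true, false, [(0, 2), (3, 17)], []⟩,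
  ⟨1596, 90, 0, 224, 120, true, true, false, [(0, 3), (3, 16)], []⟩,
  ⟨1624, 90, 0, 208, 109, true, true, false, [(0, 3), (3, 18)], []⟩,
  ⟨1652, 90, 0, 208, 109, true, true, false, [(0, 3), (3, 18)], []⟩,
  ⟨1671, 90, 0, 208, 109, true, true, false, [(0, 4), (3, 17)], []⟩,
  ⟨1690, 90, 0, 208, 109, true, true, false, [(0, 4), (3, 17)], []⟩,
  ⟨1703, 90, 0, 192, 98, true, true, false, [(0, 4), (3, 18)], []⟩,
  ⟨1716, 90, 0, 192, 98, true, true, false, [(0, 5), (3, 17)], []⟩,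
  ⟨1729, 90, 0, 192, 98, true, true, false, [(0, 6), (3, 16)], []⟩,
  ⟨1742, 90, 0, 192, 98, true, true, false, [(0, 7), (3, 15)], []⟩,
  ⟨1755, 90, 0, 192, 98, true, true, false, [(0, 9), (3, 13)], []⟩,
  ⟨1764, 90, 0, 192, 98, true, true, false, [(0, 12), (3, 10)], []⟩,
  ⟨1773, 90, 0, 192, 98, true, true, false, [(0, 17), (3, 5)], []⟩,
  ⟨1794, 90, 0, 192, 98, true, true, false, [(0, 22)], []⟩,
  ⟨1857, 90, 0, 192, 98, true, true, false, [(0, 22)], []⟩,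
  ⟨2035, 90, 0, 192, 98, true, true, false, [(0, 22)], []⟩,
  ⟨2529, 90, 0, 160, 78, true, true, false, [(0, 25)], []⟩,
  ⟨5199, 90, 0, 28, 12, true, true, false, [(0, 38)], []⟩,
  ⟨7335, 90, 0, 0, 0, true, false, false, [(0, 41)], []⟩
  ] = true := by decide +kernel

def g79_17 : Gr := ⟨false, 409, 419, 1024, 1024, 79, 80, 9101, 9159, 0, 2048, 0, []⟩

theorem k79_17 : chk g79_17 T400 [
  ⟨498, 120, 720, 44, 292, false, false, false, [(0, 1), (3, 3), (22, 3), (11, 2), (12, 2), (13, 2), (14, 2), (15, 2), (3, 11)], []⟩,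
  ⟨742, 120, 720, 88, 232, false, false, false, [(0, 1), (3, 5), (7, 1), (3, 3), (8, 1), (3, 1), (13, 1), (14, 2), (3, 1), (15, 1), (3, 8)], []⟩,
  ⟨861, 120, 720, 88, 224, false, false, false, [(0, 1), (3, 13), (14, 1), (3, 10)], []⟩,
  ⟨944, 120, 600, 192, 122, false, true, false, [(0, 1), (3, 13), (14, 1), (3, 2)], []⟩,
  ⟨1002, 120, 600, 192, 114, false, true, false, [(0, 1), (3, 16)], []⟩,
  ⟨1060, 120, 600, 192, 106, false, true, false, [(0, 1), (3, 16)], []⟩,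
  ⟨1101, 120, 600, 192, 106, false, true, false, [(0, 1), (3, 16)], []⟩,
  ⟨1129, 120, 600, 192, 98, false, true, false, [(0, 1), (3, 16)], []⟩,
  ⟨1149, 120, 0, 240, 132, true, true, false, [(0, 1), (3, 13)], []⟩,
  ⟨1169, 120, 0, 240, 132, true, true, false, [(0, 1), (3, 13)], []⟩,
  ⟨1189, 120, 0, 240, 132, true, true, false, [(0, 1), (3, 13)], []⟩,
  ⟨1209, 120, 0, 240, 132, true, true, false, [(0, 1), (3, 13)], []⟩,
  ⟨1229, 120, 0, 240, 132, true, true, false, [(0, 1), (3, 13)], []⟩,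
  ⟨1258, 120, 0, 224, 120, true, true, false, [(0, 1), (3, 14)], []⟩,
  ⟨1287, 120, 0, 224, 120, true, true, false, [(0, 2), (3, 13)], []⟩,
  ⟨1316, 120, 0, 224, 120, true, true, false, [(0, 2), (3, 13)], []⟩,
  ⟨1357, 120, 0, 224, 120, true, true, false, [(0, 2), (3, 13)], []⟩,
  ⟨1398, 120, 0, 224, 120, true, true, false, [(0, 2), (3, 13)], []⟩,
  ⟨1439, 120, 0, 224, 120, true, true, false, [(0, 2), (3, 13)], []⟩,
  ⟨1480, 120, 0, 224, 120, true, true, false, [(0, 2), (3, 13)], []⟩,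
  ⟨1521, 120, 0, 224, 120, true, true, false, [(0, 2), (3, 13)], []⟩,
  ⟨1562, 120, 0, 208, 109, true, true, false, [(0, 2), (3, 14)], []⟩,
  ⟨1603, 120, 0, 208, 109, true, true, false, [(0, 2), (3, 14)], []⟩,
  ⟨1644, 120, 0, 208, 109, true, true, false, [(0, 3), (3, 13)], []⟩,
  ⟨1673, 120, 0, 208, 109, true, true, false, [(0, 3), (3, 13)], []⟩,
  ⟨1702, 120, 0, 208, 109, true, true, false, [(0, 3), (3, 13)], []⟩,
  ⟨1731, 120, 0, 208, 109, true, true, false, [(0, 4), (3, 12)], []⟩,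
  ⟨1751, 120, 0, 208, 109, true, true, false, [(0, 5), (3, 11)], []⟩,
  ⟨1771, 120, 0, 208, 109, true, true, false, [(0, 6), (3, 10)], []⟩,
  ⟨1785, 120, 0, 208, 109, true, true, false, [(0, 8), (3, 8)], []⟩,
  ⟨1799, 120, 0, 208, 109, true, true, false, [(0, 11), (3, 5)], []⟩,
  ⟨1820, 120, 0, 208, 109, true, true, false, [(0, 16)], []⟩,
  ⟨1882, 120, 0, 192, 98, true, true, false, [(0, 17)], []⟩,
  ⟨2057, 120, 0, 192, 98, true, true, false, [(0, 17)], []⟩,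
  ⟨2402, 120, 0, 160, 78, true, true, false, [(0, 20)], []⟩,
  ⟨3736, 120, 0, 72, 32, true, true, false, [(0, 26)], []⟩,
  ⟨7401, 120, 0, 0, 0, true, false, false, [(0, 32)], []⟩,
  ⟨7496, 120, 0, 0, 0, true, false, false, [(0, 32)], []⟩
  ] = true := by decide +kernel

def g79_18 : Gr := ⟨false, 419, 429, 1024, 1024, 79, 80, 9101, 9159, 0, 2048, 0, []⟩

theorem k79_18 : chk g79_18 T400 [
  ⟨498, 90, 720, 28, 316, false, false, false, [(0, 1), (3, 5), (22, 3), (10, 1), (11, 2), (12, 3), (13, 2), (14, 3), (15, 2), (3, 18)], []⟩,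
  ⟨742, 90, 720, 88, 248, false, false, false, [(0, 1), (3, 8), (7, 1), (3, 4), (8, 1), (3, 1), (13, 1), (14, 3), (3, 14)], []⟩,
  ⟨912, 90, 720, 88, 224, false, false, false, [(0, 1), (3, 17), (14, 2), (3, 14)], []⟩,
  ⟨995, 90, 630, 128, 184, false, false, false, [(0, 1), (3, 29)], []⟩,
  ⟨1078, 90, 540, 208, 109, false, true, false, [(0, 1), (3, 21)], []⟩,
  ⟨1136, 90, 0, 240, 132, true, true, false, [(0, 1), (3, 18)], []⟩,
  ⟨1219, 90, 0, 240, 132, true, true, false, [(0, 1), (3, 18)], []⟩,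
  ⟨1302, 90, 0, 240, 132, true, true, false, [(0, 1), (3, 18)], []⟩,
  ⟨1385, 90, 0, 240, 132, true, true, false, [(0, 2), (3, 17)], []⟩,
  ⟨1443, 90, 0, 224, 120, true, true, false, [(0, 2), (3, 19)], []⟩,
  ⟨1501, 90, 0, 224, 120, true, true, false, [(0, 2), (3, 19)], []⟩,
  ⟨1559, 90, 0, 208, 109, true, true, false, [(0, 2), (3, 20)], []⟩,
  ⟨1641, 90, 0, 208, 109, true, true, false, [(0, 2), (3, 20)], []⟩,
  ⟨1722, 90, 0, 208, 109, true, true, false, [(0, 3), (3, 19)], []⟩,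
  ⟨1779, 90, 0, 208, 109, true, true, false, [(0, 4), (3, 18)], []⟩,
  ⟨1836, 90, 0, 208, 109, true, true, false, [(0, 6), (3, 16)], []⟩,
  ⟨1893, 90, 0, 208, 109, true, true, false, [(0, 22)], []⟩,
  ⟨1974, 90, 0, 192, 98, true, true, false, [(0, 24)], []⟩,
  ⟨2135, 90, 0, 192, 98, true, true, false, [(0, 24)], []⟩,
  ⟨2582, 90, 0, 160, 78, true, true, false, [(0, 27)], []⟩,
  ⟨4998, 90, 0, 28, 12, true, true, false, [(0, 40)], []⟩,
  ⟨7675, 90, 0, 0, 0, true, false, false, [(0, 43)], []⟩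
  ] = true := by decide +kernel

def g79_19 : Gr := ⟨false, 429, 436, 1024, 1024, 79, 80, 9101, 9159, 0, 2048, 0, []⟩

theorem k79_19 : chk g79_19 T400 [
  ⟨498, 120, 720, 48, 304, false, false, false, [(0, 1), (3, 3), (22, 3), (11, 2), (12, 2), (13, 2), (14, 2), (15, 2), (3, 12)], []⟩,
  ⟨742, 120, 720, 88, 256, false, false, false, [(0, 1), (3, 11), (13, 1), (14, 2), (3, 11)], []⟩,
  ⟨912, 120, 720, 104, 224, false, false, false, [(0, 1), (3, 13), (14, 1), (3, 10)], []⟩,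
  ⟨1031, 120, 600, 128, 188, false, true, false, [(0, 1), (3, 22)], []⟩,
  ⟨1114, 120, 600, 208, 109, false, true, false, [(0, 1), (3, 16)], []⟩,
  ⟨1197, 120, 600, 208, 109, false, true, false, [(0, 1), (3, 16)], []⟩,
  ⟨1280, 120, 0, 224, 120, true, true, false, [(0, 1), (3, 15)], []⟩,
  ⟨1363, 120, 0, 224, 120, true, true, false, [(0, 2), (3, 14)], []⟩,
  ⟨1481, 120, 0, 224, 120, true, true, false, [(0, 2), (3, 14)], []⟩,
  ⟨1599, 120, 0, 224, 120, true, true, false, [(0, 2), (3, 14)], []⟩,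
  ⟨1681, 120, 0, 208, 109, true, true, false, [(0, 2), (3, 15)], []⟩,
  ⟨1763, 120, 0, 208, 109, true, true, false, [(0, 3), (3, 14)], []⟩,
  ⟨1845, 120, 0, 208, 109, true, true, false, [(0, 4), (3, 13)], []⟩,
  ⟨1902, 120, 0, 208, 109, true, true, false, [(0, 9), (3, 8)], []⟩,
  ⟨2017, 120, 0, 208, 109, true, true, false, [(0, 17)], []⟩,
  ⟨2246, 120, 0, 176, 88, true, true, false, [(0, 20)], []⟩,
  ⟨2880, 120, 0, 128, 60, true, true, false, [(0, 23)], []⟩,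
  ⟨6303, 120, 0, 0, 0, true, false, false, [(0, 33)], []⟩,
  ⟨7800, 120, 0, 0, 0, true, false, false, [(0, 33)], []⟩
  ] = true := by decide +kernel

def g79_20 : Gr := ⟨false, 435, 448, 1024, 1024, 79, 80, 9101, 9159, 0, 2048, 0, []⟩

theorem k79_20 : chk g79_20 T425 [
  ⟨498, 120, 720, 20, 332, false, false, false, [(0, 1), (3, 3), (23, 3), (11, 2), (12, 2), (13, 2), (14, 2), (15, 2), (3, 15)], []⟩,
  ⟨742, 120, 720, 88, 256, false, false, false, [(0, 1), (3, 5), (7, 1), (3, 3), (8, 1), (3, 1), (13, 1), (14, 2), (15, 2), (3, 10)], []⟩,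
  ⟨912, 120, 720, 88, 240, false, false, false, [(0, 1), (3, 13), (14, 1), (15, 2), (3, 10)], []⟩,
  ⟨1031, 120, 720, 104, 216, false, false, false, [(0, 1), (3, 15), (15, 1), (3, 9)], []⟩,
  ⟨1114, 120, 600, 128, 188, false, true, false, [(0, 1), (3, 15), (15, 1), (3, 7)], []⟩,
  ⟨1172, 120, 600, 128, 180, false, true, false, [(0, 1), (3, 23)], []⟩,
  ⟨1200, 120, 0, 240, 132, true, true, false, [(0, 1), (3, 15)], []⟩,
  ⟨1241, 120, 0, 240, 132, true, true, false, [(0, 1), (3, 15)], []⟩,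
  ⟨1282, 120, 0, 240, 132, true, true, false, [(0, 1), (3, 15)], []⟩,
  ⟨1323, 120, 0, 240, 132, true, true, false, [(0, 1), (3, 15)], []⟩,
  ⟨1381, 120, 0, 240, 132, true, true, false, [(0, 2), (3, 14)], []⟩,
  ⟨1439, 120, 0, 240, 132, true, true, false, [(0, 2), (3, 14)], []⟩,
  ⟨1497, 120, 0, 224, 120, true, true, false, [(0, 2), (3, 15)], []⟩,
  ⟨1555, 120, 0, 224, 120, true, true, false, [(0, 2), (3, 15)], []⟩,
  ⟨1613, 120, 0, 224, 120, true, true, false, [(0, 2), (3, 15)], []⟩,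
  ⟨1671, 120, 0, 224, 120, true, true, false, [(0, 2), (3, 15)], []⟩,
  ⟨1729, 120, 0, 208, 109, true, true, false, [(0, 3), (3, 15)], []⟩,
  ⟨1787, 120, 0, 208, 109, true, true, false, [(0, 3), (3, 15)], []⟩,
  ⟨1828, 120, 0, 208, 109, true, true, false, [(0, 4), (3, 14)], []⟩,
  ⟨1869, 120, 0, 208, 109, true, true, false, [(0, 5), (3, 13)], []⟩,
  ⟨1897, 120, 0, 208, 109, true, true, false, [(0, 7), (3, 11)], []⟩,
  ⟨1925, 120, 0, 208, 109, true, true, false, [(0, 14), (3, 4)], []⟩,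
  ⟨1983, 120, 0, 208, 109, true, true, false, [(0, 18)], []⟩,
  ⟨2066, 120, 0, 208, 109, true, true, false, [(0, 18)], []⟩,
  ⟨2231, 120, 0, 176, 88, true, true, false, [(0, 21)], []⟩,
  ⟨2689, 120, 0, 144, 69, true, true, false, [(0, 23)], []⟩,
  ⟨5167, 120, 0, 20, 9, true, true, false, [(0, 32)], []⟩,
  ⟨8015, 120, 0, 0, 0, true, false, false, [(0, 34)], []⟩
  ] = true := by decide +kernel

def g79_21 : Gr := ⟨false, 448, 461, 1024, 1024, 79, 80, 9101, 9159, 0, 2048, 0, []⟩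

theorem k79_21 : chk g79_21 T425 [
  ⟨498, 120, 720, 20, 340, false, false, false, [(0, 1), (3, 3), (23, 3), (11, 2), (12, 2), (13, 2), (14, 2), (15, 2), (3, 16)], []⟩,
  ⟨846, 120, 720, 88, 256, false, false, false, [(0, 1), (3, 5), (7, 1), (3, 2), (8, 2), (13, 2), (14, 2), (15, 2), (3, 11)], []⟩,
  ⟨1016, 120, 720, 104, 232, false, false, false, [(0, 1), (3, 15), (15, 1), (3, 10)], []⟩,
  ⟨1135, 120, 600, 128, 196, false, true, false, [(0, 1), (3, 24)], []⟩,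
  ⟨1218, 120, 600, 128, 188, false, true, false, [(0, 1), (3, 24)], []⟩,
  ⟨1276, 120, 600, 128, 180, false, true, false, [(0, 1), (3, 24)], []⟩,
  ⟨1334, 120, 0, 240, 132, true, true, false, [(0, 1), (3, 16)], []⟩,
  ⟨1392, 120, 0, 240, 132, true, true, false, [(0, 2), (3, 15)], []⟩,
  ⟨1450, 120, 0, 240, 132, true, true, false, [(0, 2), (3, 15)], []⟩,
  ⟨1508, 120, 0, 224, 120, true, true, false, [(0, 2), (3, 16)], []⟩,
  ⟨1591, 120, 0, 224, 120, true, true, false, [(0, 2), (3, 16)], []⟩,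
  ⟨1674, 120, 0, 224, 120, true, true, false, [(0, 2), (3, 16)], []⟩,
  ⟨1757, 120, 0, 224, 120, true, true, false, [(0, 2), (3, 16)], []⟩,
  ⟨1815, 120, 0, 208, 109, true, true, false, [(0, 3), (3, 16)], []⟩,
  ⟨1873, 120, 0, 208, 109, true, true, false, [(0, 4), (3, 15)], []⟩,
  ⟨1931, 120, 0, 208, 109, true, true, false, [(0, 5), (3, 14)], []⟩,
  ⟨1971, 120, 0, 208, 109, true, true, false, [(0, 9), (3, 10)], []⟩,
  ⟨2028, 120, 0, 208, 109, true, true, false, [(0, 19)], []⟩,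
  ⟨2144, 120, 0, 208, 109, true, true, false, [(0, 19)], []⟩,
  ⟨2373, 120, 0, 176, 88, true, true, false, [(0, 22)], []⟩,
  ⟨3008, 120, 0, 128, 60, true, true, false, [(0, 25)], []⟩,
  ⟨6434, 120, 0, 0, 0, true, false, false, [(0, 35)], []⟩,
  ⟨8247, 120, 0, 0, 0, true, false, false, [(0, 35)], []⟩
  ] = true := by decide +kernel

def g79_22 : Gr := ⟨false, 460, 476, 1024, 1024, 79, 80, 9101, 9159, 0, 2048, 0, []⟩

theorem k79_22 : chk g79_22 T450 [
  ⟨698, 120, 600, 240, 148, false, true, false, [(0, 1), (3, 3), (25, 3), (12, 2), (13, 2), (14, 2), (15, 2), (16, 2), (17, 1)], []⟩,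
  ⟨937, 120, 720, 104, 248, false, false, false, [(0, 1), (3, 9), (9, 1), (3, 3), (15, 1), (16, 2), (17, 1), (3, 10)], []⟩,
  ⟨1104, 120, 720, 104, 232, false, false, false, [(0, 1), (3, 13), (10, 1), (16, 2), (3, 11)], []⟩,
  ⟨1221, 120, 600, 128, 200, false, false, false, [(0, 1), (3, 15), (16, 1), (3, 9)], []⟩,
  ⟨1303, 120, 600, 128, 188, false, true, false, [(0, 1), (3, 15), (16, 1), (3, 9)], []⟩,
  ⟨1360, 120, 0, 240, 132, true, true, false, [(0, 1), (3, 17)], []⟩,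
  ⟨1441, 120, 0, 240, 132, true, true, false, [(0, 2), (3, 16)], []⟩,
  ⟨1522, 120, 0, 240, 132, true, true, false, [(0, 2), (3, 16)], []⟩,
  ⟨1603, 120, 0, 240, 132, true, true, false, [(0, 2), (3, 16)], []⟩,
  ⟨1684, 120, 0, 224, 120, true, true, false, [(0, 2), (3, 17)], []⟩,
  ⟨1765, 120, 0, 224, 120, true, true, false, [(0, 2), (3, 17)], []⟩,
  ⟨1846, 120, 0, 224, 120, true, true, false, [(0, 3), (3, 16)], []⟩,
  ⟨1903, 120, 0, 208, 109, true, true, false, [(0, 3), (3, 17)], []⟩,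
  ⟨1960, 120, 0, 208, 109, true, true, false, [(0, 4), (3, 16)], []⟩,
  ⟨2017, 120, 0, 208, 109, true, true, false, [(0, 7), (3, 13)], []⟩,
  ⟨2074, 120, 0, 208, 109, true, true, false, [(0, 20)], []⟩,
  ⟨2188, 120, 0, 208, 109, true, true, false, [(0, 20)], []⟩,
  ⟨2505, 120, 0, 176, 88, true, true, false, [(0, 23)], []⟩,
  ⟨3381, 120, 0, 104, 48, true, true, false, [(0, 28)], []⟩,
  ⟨6755, 120, 0, 0, 0, true, false, false, [(0, 36)], []⟩,
  ⟨8516, 120, 0, 0, 0, true, false, false, [(0, 36)], []⟩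
  ] = true := by decide +kernel

def g79_23 : Gr := ⟨false, 476, 487, 1024, 1024, 79, 80, 9101, 9159, 0, 2048, 0, []⟩

theorem k79_23 : chk g79_23 T450 [
  ⟨698, 120, 600, 256, 153, false, true, false, [(0, 1), (3, 3), (25, 3), (12, 2), (13, 2), (14, 2), (15, 2), (16, 2), (17, 1)], []⟩,
  ⟨1040, 120, 720, 112, 244, false, true, false, [(0, 1), (3, 5), (8, 1), (3, 3), (9, 1), (3, 2), (15, 2), (16, 2), (17, 1), (3, 10)], []⟩,
  ⟨1275, 120, 720, 112, 220, false, true, false, [(0, 1), (3, 13), (10, 1), (16, 2), (3, 11)], []⟩,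
  ⟨1390, 120, 600, 112, 208, false, false, false, [(0, 1), (3, 27)], []⟩,
  ⟨1505, 120, 0, 240, 132, true, true, false, [(0, 2), (3, 17)], []⟩,
  ⟨1620, 120, 0, 240, 132, true, true, false, [(0, 2), (3, 17)], []⟩,
  ⟨1735, 120, 0, 224, 120, true, true, false, [(0, 2), (3, 18)], []⟩,
  ⟨1850, 120, 0, 224, 120, true, true, false, [(0, 2), (3, 18)], []⟩,
  ⟨1965, 120, 0, 224, 120, true, true, false, [(0, 3), (3, 17)], []⟩,
  ⟨2080, 120, 0, 208, 109, true, true, false, [(0, 5), (3, 16)], []⟩,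
  ⟨2195, 120, 0, 208, 109, true, true, false, [(0, 21)], []⟩,
  ⟨2516, 120, 0, 192, 98, true, true, false, [(0, 22)], []⟩,
  ⟨3402, 120, 0, 112, 52, true, true, false, [(0, 28)], []⟩,
  ⟨6813, 120, 0, 0, 0, true, false, false, [(0, 37)], []⟩,
  ⟨8712, 120, 0, 0, 0, true, false, false, [(0, 37)], []⟩
  ] = true := by decide +kernel

def g79_24 : Gr := ⟨false, 486, 512, 1024, 1024, 79, 80, 9101, 9159, 0, 2048, 0, []⟩

theorem k79_24 : chk g79_24 T475 [
  ⟨698, 90, 720, 40, 336, false, false, false, [(0, 1), (3, 5), (27, 3), (12, 1), (13, 2), (14, 3), (15, 2), (16, 3), (17, 2), (18, 3), (19, 2), (3, 20)], []⟩,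
  ⟨1040, 90, 720, 120, 248, false, false, false, [(0, 1), (3, 7), (8, 2), (3, 2), (9, 3), (3, 2), (10, 3), (17, 2), (18, 3), (19, 2), (3, 12)], []⟩,
  ⟨1279, 90, 630, 120, 224, false, false, false, [(0, 1), (3, 8), (8, 1), (3, 4), (9, 1), (3, 3), (10, 2), (3, 1), (17, 1), (18, 3), (3, 14)], []⟩,
  ⟨1396, 90, 630, 120, 208, false, false, false, [(0, 1), (3, 18), (10, 1), (3, 4), (18, 1), (3, 14)], []⟩,
  ⟨1478, 90, 630, 120, 200, false, false, false, [(0, 2), (3, 22), (18, 1), (3, 14)], []⟩,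
  ⟨1559, 90, 0, 256, 145, true, true, false, [(0, 2), (3, 22), (18, 1), (3, 1)], []⟩,
  ⟨1616, 90, 0, 240, 132, true, true, false, [(0, 2), (3, 26)], []⟩,
  ⟨1673, 90, 0, 224, 120, true, true, false, [(0, 2), (3, 27)], []⟩,
  ⟨1753, 90, 0, 224, 120, true, true, false, [(0, 2), (3, 27)], []⟩,
  ⟨1833, 90, 0, 224, 120, true, true, false, [(0, 2), (3, 27)], []⟩,
  ⟨1913, 90, 0, 224, 120, true, true, false, [(0, 3), (3, 26)], []⟩,
  ⟨1993, 90, 0, 224, 120, true, true, false, [(0, 3), (3, 26)], []⟩,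
  ⟨2049, 90, 0, 224, 120, true, true, false, [(0, 4), (3, 25)], []⟩,
  ⟨2088, 90, 0, 224, 120, true, true, false, [(0, 6), (3, 23)], []⟩,
  ⟨2115, 90, 0, 224, 120, true, true, false, [(0, 9), (3, 20)], []⟩,
  ⟨2134, 90, 0, 224, 120, true, true, false, [(0, 16), (3, 13)], []⟩,
  ⟨2147, 90, 0, 224, 120, true, true, false, [(0, 24), (3, 5)], []⟩,
  ⟨2160, 90, 0, 224, 120, true, true, false, [(0, 29)], []⟩,
  ⟨2180, 90, 0, 224, 120, true, true, false, [(0, 29)], []⟩,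
  ⟨2239, 90, 0, 208, 109, true, true, false, [(0, 31)], []⟩,
  ⟨2474, 90, 0, 192, 98, true, true, false, [(0, 32)], []⟩,
  ⟨3123, 90, 0, 144, 69, true, true, false, [(0, 37)], []⟩,
  ⟨6626, 90, 0, 0, 0, true, false, false, [(0, 51)], []⟩,
  ⟨9160, 90, 0, 0, 0, true, false, false, [(0, 51)], []⟩
  ] = true := by decide +kernel

def g79_25 : Gr := ⟨false, 512, 538, 1024, 1024, 79, 80, 9101, 9159, 0, 2048, 0, []⟩

theorem k79_25 : chk g79_25 T500 [
  ⟨698, 120, 720, 44, 356, false, false, false, [(0, 1), (3, 3), (28, 3), (14, 2), (15, 2), (16, 2), (17, 2), (18, 2), (19, 1), (20, 2), (21, 2), (3, 15)], []⟩,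
  ⟨1186, 120, 720, 112, 260, false, true, false, [(0, 1), (3, 4), (9, 2), (3, 1), (10, 3), (11, 4), (18, 2), (19, 1), (20, 2), (21, 2), (3, 10)], []⟩,
  ⟨1425, 120, 600, 112, 236, false, true, false, [(0, 1), (3, 9), (10, 1), (3, 3), (11, 1), (3, 1), (18, 1), (19, 1), (3, 1), (20, 1), (3, 12)], []⟩,
  ⟨1592, 120, 600, 128, 208, false, false, false, [(0, 2), (3, 12), (11, 1), (3, 16)], []⟩,
  ⟨1709, 120, 0, 240, 132, true, true, false, [(0, 2), (3, 21)], []⟩,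
  ⟨1826, 120, 0, 240, 132, true, true, false, [(0, 2), (3, 21)], []⟩,
  ⟨1943, 120, 0, 240, 132, true, true, false, [(0, 2), (3, 21)], []⟩,
  ⟨2060, 120, 0, 224, 120, true, true, false, [(0, 3), (3, 21)], []⟩,
  ⟨2142, 120, 0, 224, 120, true, true, false, [(0, 4), (3, 20)], []⟩,
  ⟨2224, 120, 0, 224, 120, true, true, false, [(0, 6), (3, 18)], []⟩,
  ⟨2264, 120, 0, 208, 109, true, true, false, [(0, 15), (3, 10)], []⟩,
  ⟨2378, 120, 0, 208, 109, true, true, false, [(0, 25)], []⟩,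
  ⟨2826, 120, 0, 176, 88, true, true, false, [(0, 27)], []⟩,
  ⟨4060, 120, 0, 72, 32, true, true, false, [(0, 35)], []⟩,
  ⟨7451, 120, 0, 0, 0, true, false, false, [(0, 41)], []⟩,
  ⟨9625, 120, 0, 0, 0, true, false, false, [(0, 41)], []⟩
  ] = true := by decide +kernel

def g79_26 : Gr := ⟨false, 537, 564, 1024, 1024, 79, 80, 9101, 9159, 0, 1954, 0, []⟩

theorem k79_26 : chk g79_26 T525 [
  ⟨698, 120, 720, 44, 372, false, false, false, [(0, 1), (3, 3), (29, 3), (14, 2), (15, 2), (16, 2), (17, 2), (18, 2), (19, 1), (20, 2), (21, 2), (3, 17)], []⟩,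
  ⟨1186, 120, 720, 112, 280, false, false, false, [(0, 1), (3, 4), (9, 2), (3, 1), (10, 3), (11, 4), (18, 2), (19, 1), (20, 2), (21, 2), (3, 12)], []⟩,
  ⟨1528, 120, 600, 128, 236, false, true, false, [(0, 1), (3, 5), (9, 1), (3, 3), (10, 1), (3, 2), (11, 2), (3, 2), (19, 1), (20, 2), (21, 2), (3, 11)], []⟩,
  ⟨1767, 120, 600, 176, 168, false, true, false, [(0, 2), (3, 12), (11, 1), (3, 4), (20, 1), (3, 1), (21, 1), (3, 7)], []⟩,
  ⟨2006, 120, 0, 256, 145, true, true, false, [(0, 2), (3, 12), (11, 1), (3, 4), (20, 1), (3, 1), (21, 1), (3, 1)], []⟩,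
  ⟨2173, 120, 0, 224, 120, true, true, false, [(0, 3), (3, 23)], []⟩,
  ⟨2290, 120, 0, 224, 120, true, true, false, [(0, 4), (3, 22)], []⟩,
  ⟨2372, 120, 0, 224, 120, true, true, false, [(0, 10), (3, 16)], []⟩,
  ⟨2601, 120, 0, 208, 109, true, true, false, [(0, 27)], []⟩,
  ⟨3236, 120, 0, 160, 78, true, true, false, [(0, 31)], []⟩,
  ⟨6662, 120, 0, 2, 1, true, true, false, [(0, 42)], []⟩,
  ⟨9627, 120, 0, 0, 0, true, false, false, [(0, 43)], []⟩
  ] = true := by decide +kernel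

def g79_27 : Gr := ⟨false, 563, 589, 1024, 1024, 79, 80, 9101, 9159, 0, 1864, 0, []⟩

theorem k79_27 : chk g79_27 T550 [
  ⟨978, 120, 720, 80, 344, false, false, false, [(0, 1), (3, 3), (32, 3), (16, 2), (17, 2), (18, 2), (19, 2), (20, 2), (21, 1), (22, 2), (23, 2), (24, 2), (25, 2), (3, 12)], []⟩,
  ⟨1457, 120, 600, 120, 272, false, false, false, [(0, 1), (3, 5), (10, 1), (3, 2), (11, 2), (3, 1), (12, 3), (13, 2), (21, 1), (22, 2), (23, 2), (24, 2), (3, 11)], []⟩,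
  ⟨1792, 120, 600, 160, 206, false, true, false, [(0, 2), (3, 8), (11, 1), (3, 2), (12, 2), (3, 2), (13, 1), (22, 2), (23, 2), (3, 1), (24, 1), (3, 8)], []⟩,
  ⟨2127, 120, 0, 256, 145, true, true, false, [(0, 2), (3, 8), (5, 1), (3, 3), (12, 1), (3, 2), (13, 1), (3, 1), (22, 1), (3, 1), (23, 1), (3, 1), (24, 1), (3, 1)], []⟩,
  ⟨2362, 120, 0, 224, 120, true, true, false, [(0, 3), (3, 11), (6, 1), (3, 6), (23, 1), (3, 1), (24, 1), (3, 1), (25, 1), (3, 2)], []⟩,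
  ⟨2526, 120, 0, 224, 120, true, true, false, [(0, 14), (6, 1), (0, 6), (8, 1), (0, 1), (24, 1), (0, 1), (25, 1), (0, 1), (26, 1)], []⟩,
  ⟨2981, 120, 0, 192, 98, true, true, false, [(0, 30)], []⟩,
  ⟨4236, 120, 0, 80, 36, true, true, false, [(0, 38)], []⟩,
  ⟨7684, 120, 0, 0, 0, true, false, false, [(0, 44)], []⟩,
  ⟨9590, 120, 0, 0, 0, true, false, false, [(0, 44)], []⟩
  ] = true := by decide +kernel

def g79_28 : Gr := ⟨false, 588, 615, 1024, 1024, 79, 80, 9101, 9159, 0, 1785, 0, []⟩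

theorem k79_28 : chk g79_28 T575 [
  ⟨978, 120, 720, 80, 360, false, false, false, [(0, 1), (3, 3), (33, 3), (16, 2), (17, 2), (18, 2), (19, 2), (20, 2), (21, 1), (22, 2), (23, 2), (24, 2), (25, 2), (3, 14)], []⟩,
  ⟨1663, 120, 600, 160, 238, false, true, false, [(0, 1), (3, 4), (10, 2), (3, 1), (11, 3), (12, 4), (13, 3), (22, 2), (23, 2), (24, 2), (25, 2), (3, 1), (26, 1), (3, 6)], []⟩,
  ⟨2142, 120, 0, 240, 132, true, true, true, [(0, 2), (3, 4), (4, 1), (3, 3), (5, 1), (3, 2), (12, 2), (3, 1), (13, 2), (3, 1), (22, 1), (23, 2), (24, 2)], [(25, 2), (3, 1), (26, 1)]⟩,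
  ⟨2477, 120, 0, 240, 132, true, true, false, [(0, 3), (3, 7), (5, 1), (3, 3), (6, 1), (3, 6), (23, 1), (3, 1), (24, 1), (3, 1), (25, 1), (3, 1), (26, 1)], []⟩,
  ⟨2812, 120, 0, 224, 120, true, true, false, [(0, 14), (6, 1), (0, 6), (8, 1), (0, 1), (24, 1), (0, 1), (25, 1), (0, 1), (26, 1), (0, 1), (27, 1)], []⟩,
  ⟨3737, 120, 0, 160, 78, true, true, false, [(0, 34)], []⟩,
  ⟨7300, 120, 0, 0, 0, true, false, false, [(0, 46)], []⟩,
  ⟨9589, 120, 0, 0, 0, true, false, false, [(0, 46)], []⟩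
  ] = true := by decide +kernel

def g79_29 : Gr := ⟨false, 614, 640, 1024, 1024, 79, 80, 9101, 9159, 0, 1709, 0, []⟩

theorem k79_29 : chk g79_29 T600 [
  ⟨978, 120, 600, 64, 384, false, false, true, [(0, 1), (3, 3), (35, 3), (17, 2), (18, 2), (19, 2), (20, 2), (21, 2), (22, 1), (23, 2), (24, 2), (25, 2), (26, 2), (27, 2), (3, 12)], [(3, 3)]⟩,
  ⟨1663, 120, 600, 144, 272, false, false, false, [(0, 1), (3, 4), (11, 2), (3, 1), (12, 3), (13, 4), (14, 3), (23, 2), (24, 2), (25, 2), (26, 2), (27, 2), (3, 9)], []⟩,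
  ⟨2348, 120, 0, 240, 132, true, true, true, [(0, 2), (3, 4), (4, 1), (3, 2), (5, 2), (3, 2), (13, 2), (3, 1), (14, 2), (3, 1), (23, 1), (24, 2), (25, 2), (26, 2)], [(27, 2), (28, 2)]⟩,
  ⟨2827, 120, 0, 240, 132, true, true, false, [(0, 6), (4, 1), (0, 3), (5, 1), (0, 2), (6, 2), (0, 1), (7, 2), (0, 1), (8, 3), (25, 2), (26, 2), (27, 2), (28, 2)], []⟩,
  ⟨3769, 120, 0, 160, 78, true, true, false, [(0, 36)], []⟩,
  ⟨7396, 120, 0, 0, 0, true, false, false, [(0, 48)], []⟩,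
  ⟨9554, 120, 0, 0, 0, true, false, false, [(0, 48)], []⟩
  ] = true := by decide +kernel

def g79_30 : Gr := ⟨false, 640, 666, 1024, 1024, 79, 80, 9101, 9159, 0, 1640, 0, []⟩

theorem k79_30 : chk g79_30 T625 [
  ⟨1371, 120, 720, 144, 320, false, false, false, [(0, 1), (3, 3), (36, 3), (17, 2), (18, 2), (19, 2), (20, 2), (21, 2), (22, 1), (23, 2), (24, 2), (25, 2), (26, 2), (27, 2), (28, 2), (29, 2), (3, 7)], []⟩,
  ⟨2331, 120, 0, 240, 148, true, true, true, [(0, 2), (3, 3), (4, 2), (3, 2), (12, 2), (13, 4), (14, 3), (15, 1), (23, 1), (24, 2), (25, 2), (26, 2)], [(27, 2), (28, 2), (29, 2)]⟩,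
  ⟨3003, 120, 0, 224, 120, true, true, true, [(0, 6), (4, 1), (0, 2), (5, 2), (0, 1), (6, 3), (7, 3), (8, 3), (15, 1), (25, 2), (26, 2), (27, 2), (28, 2)], [(29, 2), (30, 1)]⟩,
  ⟨4322, 120, 0, 144, 69, true, true, false, [(0, 39)], []⟩,
  ⟨7947, 120, 0, 0, 0, true, false, false, [(0, 50)], []⟩,
  ⟨9541, 120, 0, 0, 0, true, false, false, [(0, 50)], []⟩
  ] = true := by decide +kernel

def g79_31 : Gr := ⟨false, 665, 692, 1024, 1024, 79, 80, 9101, 9159, 0, 1578, 0, []⟩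

theorem k79_31 : chk g79_31 T650 [
  ⟨1371, 120, 600, 144, 336, false, false, false, [(0, 1), (3, 3), (39, 3), (19, 2), (20, 2), (21, 2), (22, 2), (23, 2), (24, 1), (25, 2), (26, 2), (27, 2), (28, 2), (29, 2), (30, 2), (31, 2), (3, 9)], []⟩,
  ⟨2742, 120, 0, 224, 136, true, true, true, [(0, 2), (3, 3), (4, 1), (12, 1), (3, 1), (5, 1), (13, 2), (14, 4), (15, 3), (16, 4), (27, 2), (28, 2), (29, 2)], [(30, 2), (31, 2), (32, 2), (33, 1)]⟩,
  ⟨3414, 120, 0, 224, 120, true, true, false, [(0, 10), (5, 1), (0, 3), (6, 1), (0, 2), (7, 1), (0, 3), (8, 1), (0, 2), (9, 2), (29, 2), (30, 2), (31, 2), (32, 2), (33, 1)], []⟩,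
  ⟨5262, 120, 0, 64, 28, true, true, false, [(0, 47)], []⟩,
  ⟨8887, 120, 0, 0, 0, true, false, false, [(0, 52)], []⟩,
  ⟨9539, 120, 0, 0, 0, true, false, false, [(0, 52)], []⟩
  ] = true := by decide +kernel

def g79_32 : Gr := ⟨false, 691, 717, 1024, 1024, 79, 80, 9101, 9159, 0, 1519, 0, []⟩

theorem k79_32 : chk g79_32 T675 [
  ⟨1921, 120, 600, 256, 217, false, true, false, [(0, 1), (3, 3), (40, 3), (19, 2), (20, 2), (21, 2), (22, 2), (23, 2), (24, 1), (25, 2), (26, 2), (27, 2), (28, 2), (29, 2), (30, 2), (31, 2), (32, 2), (33, 1)], []⟩,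
  ⟨3265, 120, 0, 224, 120, true, true, true, [(0, 5), (4, 2), (5, 4), (6, 3), (14, 1), (7, 1), (15, 2), (16, 4), (27, 2), (28, 2), (29, 2), (30, 2), (31, 2), (32, 2)], [(33, 1), (34, 2)]⟩,
  ⟨4609, 120, 0, 128, 60, true, true, false, [(0, 44)], []⟩,
  ⟨8303, 120, 0, 0, 0, true, false, false, [(0, 54)], []⟩,
  ⟨9514, 120, 0, 0, 0, true, false, false, [(0, 54)], []⟩
  ] = true := by decide +kernel

def g79_33 : Gr := ⟨false, 716, 743, 1024, 1024, 79, 80, 9101, 9159, 0, 1466, 0, []⟩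

theorem k79_33 : chk g79_33 T700 [
  ⟨1921, 120, 600, 256, 241, false, true, true, [(0, 1), (3, 3), (41, 3), (19, 2), (20, 2), (21, 2), (22, 2), (23, 2), (24, 1), (25, 2), (26, 2), (27, 2), (28, 2), (29, 2), (30, 2), (31, 2), (32, 2)], [(33, 1), (34, 2)]⟩,
  ⟨3842, 120, 0, 208, 109, true, true, true, [(0, 5), (4, 2), (5, 4), (6, 3), (14, 1), (7, 1), (15, 2), (16, 4), (27, 2), (28, 2), (29, 2), (30, 2), (31, 2), (32, 2)], [(33, 1), (34, 2), (35, 2), (36, 1)]⟩,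
  ⟨6532, 120, 0, 20, 9, true, true, false, [(0, 54)], []⟩,
  ⟨9515, 120, 0, 0, 0, true, false, false, [(0, 56)], []⟩
  ] = true := by decide +kernel

def g79_34 : Gr := ⟨false, 742, 768, 1024, 1024, 79, 80, 9101, 9159, 0, 1415, 0, []⟩

theorem k79_34 : chk g79_34 T725 [
  ⟨1921, 120, 600, 272, 272, false, false, true, [(0, 1), (3, 3), (44, 3), (21, 2), (22, 2), (23, 2), (24, 2), (25, 2), (26, 1), (27, 2), (28, 2), (29, 2), (30, 2), (31, 2), (32, 2), (33, 2), (34, 2)], [(35, 1), (36, 2)]⟩,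
  ⟨3842, 120, 0, 192, 122, true, true, true, [(0, 4), (4, 3), (5, 4), (6, 3), (15, 1), (7, 1), (16, 2), (17, 4), (18, 4), (31, 2), (32, 2), (33, 2), (34, 2), (35, 1), (36, 2)], [(37, 2), (38, 2), (39, 2)]⟩,
  ⟨5763, 120, 0, 32, 64, true, false, false, [(0, 55)], []⟩,
  ⟨9493, 120, 0, 0, 0, true, false, false, [(0, 58)], []⟩
  ] = true := by decide +kernel

def g79_35 : Gr := ⟨false, 768, 794, 1024, 1024, 79, 80, 9101, 9159, 0, 1367, 0, []⟩

theorem k79_35 : chk g79_35 T750 [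
  ⟨2690, 120, 600, 224, 240, false, false, true, [(2, 4), (45, 3), (21, 2), (22, 2), (23, 2), (24, 2), (25, 2), (26, 1), (27, 2), (28, 2), (29, 2), (30, 2), (31, 2), (32, 2), (33, 2), (34, 2), (35, 1), (36, 2), (37, 2)], [(38, 2), (39, 2)]⟩,
  ⟨4573, 120, 0, 192, 98, true, true, false, [(0, 6), (4, 1), (0, 2), (5, 2), (6, 4), (7, 3), (8, 4), (9, 3), (18, 1), (31, 2), (32, 2), (33, 2), (34, 2), (35, 1), (36, 2), (37, 2), (38, 2), (39, 2), (40, 2)], []⟩,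
  ⟨8266, 120, 0, 0, 0, true, false, false, [(0, 60)], []⟩,
  ⟨9481, 120, 0, 0, 0, true, false, false, [(0, 60)], []⟩
  ] = true := by decide +kernel

def g79_36 : Gr := ⟨false, 793, 820, 1024, 1024, 79, 80, 9101, 9159, 0, 1324, 0, []⟩

theorem k79_36 : chk g79_36 T775 [
  ⟨2690, 120, 600, 224, 256, false, false, true, [(2, 4), (45, 3), (21, 2), (22, 2), (23, 2), (24, 2), (25, 2), (26, 1), (27, 2), (28, 2), (29, 2), (30, 2), (31, 2), (32, 2), (33, 2), (34, 2), (35, 1), (36, 2), (37, 2), (38, 2)], [(39, 2), (40, 2)]⟩,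
  ⟨4573, 120, 0, 192, 98, true, true, false, [(0, 6), (4, 1), (0, 1), (5, 3), (6, 4), (7, 3), (8, 4), (9, 4), (31, 2), (19, 2), (33, 2), (34, 2), (35, 1), (36, 2), (37, 2), (38, 2), (39, 2), (40, 2), (41, 2)], []⟩,
  ⟨8266, 120, 0, 0, 0, true, false, false, [(0, 62)], []⟩,
  ⟨9484, 120, 0, 0, 0, true, false, false, [(0, 62)], []⟩
  ] = true := by decide +kernel

end Pool.Agent.Lib.MP_af3a4a_an.P1.CHK.H81.L
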