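import Pool.Agent.Lib.MP_af3a4a_an.P1.CHK.H81.LT
/-!
# Data, `81 ≤ N ≤ 85`, `265 ≤ 1024 R ≤ 402` (helper81)
-/
set_option autoImplicit false

namespace Pool.Agent.Lib.MP_af3a4a_an.P1.CHK.H81.L

open Pool.Agent.Lib.MP_af3a4a_an.P1.CHK.H58.G (Gr En)

def g81_0 : Gr := ⟨false, 265, 271, 1024, 1024, 81, 85, 9216, 9441, 640, 3958, 0, []⟩

theorem k81_0 : chk g81_0 [] [
  ⟨1988, 120, 0, 128, 60, true, true, false, [(0, 11)], []⟩,
  ⟨4678, 120, 0, 24, 11, true, true, false, [(0, 19)], []⟩,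
  ⟨8445, 120, 0, 0, 0, true, false, false, [(0, 21)], []⟩,
  ⟨9658, 120, 0, 0, 0, true, false, false, [(0, 21)], []⟩
  ] = true := by decide +kernel

def g81_1 : Gr := ⟨false, 271, 279, 1024, 1024, 81, 85, 9216, 9441, 512, 3871, 0, []⟩

theorem k81_1 : chk g81_1 [] [
  ⟨1309, 120, 0, 176, 88, true, true, false, [(0, 8)], []⟩,
  ⟨1436, 120, 0, 176, 88, true, true, false, [(0, 8)], []⟩,
  ⟨1791, 120, 0, 144, 69, true, true, false, [(0, 11)], []⟩,
  ⟨2769, 120, 0, 88, 40, true, true, false, [(0, 15)], []⟩,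
  ⟨6536, 120, 0, 0, 0, true, false, false, [(0, 22)], []⟩,
  ⟨9725, 120, 0, 0, 0, true, false, false, [(0, 22)], []⟩
  ] = true := by decide +kernel

def g81_2 : Gr := ⟨false, 279, 289, 1024, 1024, 81, 85, 9216, 9441, 384, 3760, 0, []⟩

theorem k81_2 : chk g81_2 [] [
  ⟨972, 70, 0, 192, 98, true, true, false, [(0, 1), (3, 12)], []⟩,
  ⟨1003, 70, 0, 192, 98, true, true, false, [(0, 1), (3, 12)], []⟩,
  ⟨1034, 70, 0, 176, 88, true, true, false, [(0, 2), (3, 13)], []⟩,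
  ⟨1078, 70, 0, 176, 88, true, true, false, [(0, 2), (3, 13)], []⟩,
  ⟨1122, 70, 0, 176, 88, true, true, false, [(0, 2), (3, 13)], []⟩,
  ⟨1166, 70, 0, 176, 88, true, true, false, [(0, 2), (3, 13)], []⟩,
  ⟨1210, 70, 0, 176, 88, true, true, false, [(0, 3), (3, 12)], []⟩,
  ⟨1254, 70, 0, 176, 88, true, true, false, [(0, 6), (3, 9)], []⟩,
  ⟨1317, 70, 0, 176, 88, true, true, false, [(0, 15)], []⟩,
  ⟨1496, 70, 0, 160, 78, true, true, false, [(0, 17)], []⟩,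
  ⟨1850, 70, 0, 144, 69, true, true, false, [(0, 20)], []⟩,
  ⟨2826, 70, 0, 80, 36, true, true, false, [(0, 28)], []⟩,
  ⟨6586, 70, 0, 0, 0, true, false, false, [(0, 39)], []⟩,
  ⟨9784, 70, 0, 0, 0, true, false, false, [(0, 39)], []⟩
  ] = true := by decide +kernel

def g81_3 : Gr := ⟨false, 289, 295, 1024, 1024, 81, 85, 9216, 9441, 384, 3630, 0, []⟩

theorem k81_3 : chk g81_3 [] [
  ⟨1039, 120, 0, 192, 98, true, true, false, [(0, 1), (3, 7)], []⟩,
  ⟨1103, 120, 0, 192, 98, true, true, false, [(0, 2), (3, 6)], []⟩,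
  ⟨1167, 120, 0, 192, 98, true, true, false, [(0, 2), (3, 6)], []⟩,
  ⟨1211, 120, 0, 192, 98, true, true, false, [(0, 2), (3, 6)], []⟩,
  ⟨1255, 120, 0, 192, 98, true, true, false, [(0, 3), (3, 5)], []⟩,
  ⟨1276, 120, 0, 192, 98, true, true, false, [(0, 5), (3, 3)], []⟩,
  ⟨1297, 120, 0, 192, 98, true, true, false, [(0, 8)], []⟩,
  ⟨1318, 120, 0, 192, 98, true, true, false, [(0, 8)], []⟩,
  ⟨1339, 120, 0, 176, 88, true, true, false, [(0, 10)], []⟩,
  ⟨1384, 120, 0, 176, 88, true, true, false, [(0, 10)], []⟩,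
  ⟨1475, 120, 0, 160, 78, true, true, false, [(0, 11)], []⟩,
  ⟨1730, 120, 0, 144, 69, true, true, false, [(0, 12)], []⟩,
  ⟨2434, 120, 0, 104, 48, true, true, false, [(0, 15)], []⟩,
  ⟨6235, 120, 0, 0, 0, true, false, false, [(0, 23)], []⟩,
  ⟨9642, 120, 0, 0, 0, true, false, false, [(0, 23)], []⟩
  ] = true := by decide +kernel

def g81_4 : Gr := ⟨false, 295, 301, 1024, 1024, 81, 85, 9216, 9441, 384, 3556, 0, []⟩

theorem k81_4 : chk g81_4 [] [
  ⟨1016, 90, 0, 192, 98, true, true, false, [(0, 1), (3, 11)], []⟩,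
  ⟨1037, 90, 0, 192, 98, true, true, false, [(0, 1), (3, 11)], []⟩,
  ⟨1068, 90, 0, 192, 98, true, true, false, [(0, 2), (3, 10)], []⟩,
  ⟨1099, 90, 0, 192, 98, true, true, false, [(0, 2), (3, 10)], []⟩,
  ⟨1130, 90, 0, 192, 98, true, true, false, [(0, 2), (3, 10)], []⟩,
  ⟨1161, 90, 0, 176, 88, true, true, false, [(0, 2), (3, 11)], []⟩,
  ⟨1206, 90, 0, 176, 88, true, true, false, [(0, 2), (3, 11)], []⟩,
  ⟨1251, 90, 0, 176, 88, true, true, false, [(0, 3), (3, 10)], []⟩,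
  ⟨1296, 90, 0, 176, 88, true, true, false, [(0, 4), (3, 9)], []⟩,
  ⟨1360, 90, 0, 176, 88, true, true, false, [(0, 13)], []⟩,
  ⟨1489, 90, 0, 176, 88, true, true, false, [(0, 13)], []⟩,
  ⟨1744, 90, 0, 160, 78, true, true, false, [(0, 15)], []⟩,
  ⟨2448, 90, 0, 120, 56, true, true, false, [(0, 19)], []⟩,
  ⟨6249, 90, 0, 0, 0, true, false, false, [(0, 31)], []⟩,
  ⟨9638, 90, 0, 0, 0, true, false, false, [(0, 31)], []⟩
  ] = true := by decide +kernel

def g81_5 : Gr := ⟨false, 301, 308, 1024, 1024, 81, 85, 9216, 9441, 256, 3485, 0, []⟩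

theorem k81_5 : chk g81_5 [] [
  ⟨721, 36, 0, 208, 109, true, true, false, [(0, 1), (3, 25)], []⟩,
  ⟨765, 36, 0, 208, 109, true, true, false, [(0, 1), (3, 25)], []⟩,
  ⟨809, 36, 0, 208, 109, true, true, false, [(0, 1), (3, 25)], []⟩,
  ⟨872, 36, 0, 208, 109, true, true, false, [(0, 1), (3, 25)], []⟩,
  ⟨935, 36, 0, 192, 98, true, true, false, [(0, 1), (3, 29)], []⟩,
  ⟨998, 36, 0, 192, 98, true, true, false, [(0, 1), (3, 29)], []⟩,
  ⟨1088, 36, 0, 192, 98, true, true, false, [(0, 1), (3, 29)], []⟩,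
  ⟨1178, 36, 0, 192, 98, true, true, false, [(0, 2), (3, 28)], []⟩,
  ⟨1241, 36, 0, 192, 98, true, true, false, [(0, 2), (3, 28)], []⟩,
  ⟨1304, 36, 0, 176, 88, true, true, false, [(0, 3), (3, 31)], []⟩,
  ⟨1348, 36, 0, 176, 88, true, true, false, [(0, 7), (3, 27)], []⟩,
  ⟨1437, 36, 0, 176, 88, true, true, false, [(0, 34)], []⟩,
  ⟨1613, 36, 0, 160, 78, true, true, false, [(0, 38)], []⟩,
  ⟨1962, 36, 0, 144, 69, true, true, false, [(0, 43)], []⟩,
  ⟨3310, 36, 0, 72, 32, true, true, false, [(0, 61)], []⟩,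
  ⟨7014, 36, 0, 0, 0, true, false, false, [(0, 79)], []⟩,
  ⟨9665, 36, 0, 0, 0, true, false, false, [(0, 79)], []⟩
  ] = true := by decide +kernel

def g81_6 : Gr := ⟨false, 307, 313, 1024, 1024, 81, 85, 9216, 9441, 256, 3417, 0, []⟩

theorem k81_6 : chk g81_6 T300 [
  ⟨705, 70, 0, 208, 109, true, true, false, [(0, 1), (3, 13)], []⟩,
  ⟨727, 70, 0, 208, 109, true, true, false, [(0, 1), (3, 13)], []⟩,
  ⟨749, 70, 0, 208, 109, true, true, false, [(0, 1), (3, 13)], []⟩,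
  ⟨781, 70, 0, 208, 109, true, true, false, [(0, 1), (3, 13)], []⟩,
  ⟨813, 70, 0, 208, 109, true, true, false, [(0, 1), (3, 13)], []⟩,
  ⟨859, 70, 0, 208, 109, true, true, false, [(0, 1), (3, 13)], []⟩,
  ⟨905, 70, 0, 208, 109, true, true, false, [(0, 1), (3, 13)], []⟩,
  ⟨951, 70, 0, 192, 98, true, true, false, [(0, 1), (3, 15)], []⟩,
  ⟨1017, 70, 0, 192, 98, true, true, false, [(0, 1), (3, 15)], []⟩,
  ⟨1083, 70, 0, 192, 98, true, true, false, [(0, 1), (3, 15)], []⟩,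
  ⟨1149, 70, 0, 192, 98, true, true, false, [(0, 2), (3, 14)], []⟩,
  ⟨1215, 70, 0, 192, 98, true, true, false, [(0, 2), (3, 14)], []⟩,
  ⟨1281, 70, 0, 192, 98, true, true, false, [(0, 2), (3, 14)], []⟩,
  ⟨1327, 70, 0, 192, 98, true, true, false, [(0, 3), (3, 13)], []⟩,
  ⟨1373, 70, 0, 192, 98, true, true, false, [(0, 6), (3, 10)], []⟩,
  ⟨1419, 70, 0, 192, 98, true, true, false, [(0, 16)], []⟩,
  ⟨1484, 70, 0, 176, 88, true, true, false, [(0, 19)], []⟩,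
  ⟨1615, 70, 0, 160, 78, true, true, false, [(0, 21)], []⟩,
  ⟨1979, 70, 0, 144, 69, true, true, false, [(0, 23)], []⟩,
  ⟨2984, 70, 0, 80, 36, true, true, false, [(0, 31)], []⟩,
  ⟨6854, 70, 0, 0, 0, true, false, false, [(0, 42)], []⟩,
  ⟨9630, 70, 0, 0, 0, true, false, false, [(0, 42)], []⟩
  ] = true := by decide +kernel

def g81_7 : Gr := ⟨false, 313, 318, 1024, 1024, 81, 85, 9216, 9441, 256, 3352, 0, []⟩

theorem k81_7 : chk g81_7 T300 [
  ⟨735, 90, 450, 192, 98, false, true, false, [(0, 1), (3, 12)], []⟩,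
  ⟨766, 90, 0, 192, 98, true, true, false, [(0, 1), (3, 12)], []⟩,
  ⟨810, 90, 0, 192, 98, true, true, false, [(0, 1), (3, 12)], []⟩,
  ⟨854, 90, 0, 192, 98, true, true, false, [(0, 1), (3, 12)], []⟩,
  ⟨917, 90, 0, 192, 98, true, true, false, [(0, 1), (3, 12)], []⟩,
  ⟨980, 90, 0, 192, 98, true, true, false, [(0, 1), (3, 12)], []⟩,
  ⟨1070, 90, 0, 192, 98, true, true, false, [(0, 1), (3, 12)], []⟩,
  ⟨1160, 90, 0, 192, 98, true, true, false, [(0, 2), (3, 11)], []⟩,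
  ⟨1250, 90, 0, 192, 98, true, true, false, [(0, 2), (3, 11)], []⟩,
  ⟨1340, 90, 0, 192, 98, true, true, false, [(0, 3), (3, 10)], []⟩,
  ⟨1403, 90, 0, 192, 98, true, true, false, [(0, 5), (3, 8)], []⟩,
  ⟨1466, 90, 0, 192, 98, true, true, false, [(0, 13)], []⟩,
  ⟨1592, 90, 0, 176, 88, true, true, false, [(0, 15)], []⟩,
  ⟨1943, 90, 0, 144, 69, true, true, false, [(0, 18)], []⟩,
  ⟨2911, 90, 0, 96, 44, true, true, false, [(0, 23)], []⟩,
  ⟨6638, 90, 0, 0, 0, true, false, false, [(0, 33)], []⟩,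
  ⟨9598, 90, 0, 0, 0, true, false, false, [(0, 33)], []⟩
  ] = true := by decide +kernel

def g81_8 : Gr := ⟨false, 318, 324, 1024, 1024, 81, 85, 9216, 9441, 128, 3299, 0, []⟩

theorem k81_8 : chk g81_8 T300 [
  ⟨484, 90, 630, 72, 200, false, false, false, [(0, 1), (3, 13), (8, 1), (3, 11)], []⟩,
  ⟨546, 90, 450, 208, 109, false, true, false, [(0, 1), (3, 11)], []⟩,
  ⟨608, 90, 450, 208, 109, false, true, false, [(0, 1), (3, 11)], []⟩,
  ⟨651, 90, 450, 208, 109, false, true, false, [(0, 1), (3, 11)], []⟩,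
  ⟨694, 90, 450, 208, 109, false, true, false, [(0, 1), (3, 11)], []⟩,
  ⟨737, 90, 0, 208, 109, true, true, false, [(0, 1), (3, 11)], []⟩,
  ⟨799, 90, 0, 208, 109, true, true, false, [(0, 1), (3, 11)], []⟩,
  ⟨861, 90, 0, 208, 109, true, true, false, [(0, 1), (3, 11)], []⟩,
  ⟨949, 90, 0, 208, 109, true, true, false, [(0, 1), (3, 11)], []⟩,
  ⟨1037, 90, 0, 208, 109, true, true, false, [(0, 1), (3, 11)], []⟩,
  ⟨1125, 90, 0, 208, 109, true, true, false, [(0, 1), (3, 11)], []⟩,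
  ⟨1186, 90, 0, 208, 109, true, true, false, [(0, 2), (3, 10)], []⟩,
  ⟨1229, 90, 0, 208, 109, true, true, false, [(0, 2), (3, 10)], []⟩,
  ⟨1272, 90, 0, 192, 98, true, true, false, [(0, 2), (3, 12)], []⟩,
  ⟨1315, 90, 0, 192, 98, true, true, false, [(0, 2), (3, 12)], []⟩,
  ⟨1345, 90, 0, 192, 98, true, true, false, [(0, 3), (3, 11)], []⟩,
  ⟨1375, 90, 0, 192, 98, true, true, false, [(0, 4), (3, 10)], []⟩,
  ⟨1396, 90, 0, 192, 98, true, true, false, [(0, 5), (3, 9)], []⟩,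
  ⟨1417, 90, 0, 192, 98, true, true, false, [(0, 8), (3, 6)], []⟩,
  ⟨1447, 90, 0, 192, 98, true, true, false, [(0, 14)], []⟩,
  ⟨1490, 90, 0, 192, 98, true, true, false, [(0, 14)], []⟩,
  ⟨1578, 90, 0, 176, 88, true, true, false, [(0, 16)], []⟩,
  ⟨1825, 90, 0, 160, 78, true, true, false, [(0, 17)], []⟩,
  ⟨2508, 90, 0, 120, 56, true, true, false, [(0, 21)], []⟩,
  ⟨6194, 90, 0, 0, 0, true, false, false, [(0, 34)], []⟩,
  ⟨9624, 90, 0, 0, 0, true, false, false, [(0, 34)], []⟩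
  ] = true := by decide +kernel

def g81_9 : Gr := ⟨false, 324, 332, 1024, 1024, 81, 85, 9216, 9441, 128, 2048, 0, []⟩

theorem k81_9 : chk g81_9 T300 [
  ⟨491, 50, 650, 72, 200, false, false, false, [(0, 1), (3, 25), (8, 1), (3, 21)], []⟩,
  ⟨553, 50, 650, 72, 192, false, false, false, [(0, 1), (3, 47)], []⟩,
  ⟨596, 50, 650, 88, 176, false, false, false, [(0, 1), (3, 44)], []⟩,
  ⟨639, 50, 450, 192, 98, false, true, false, [(0, 1), (3, 25)], []⟩,
  ⟨669, 50, 0, 224, 120, true, true, false, [(0, 1), (3, 19)], []⟩,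
  ⟨712, 50, 0, 224, 120, true, true, false, [(0, 1), (3, 19)], []⟩,
  ⟨755, 50, 0, 224, 120, true, true, false, [(0, 1), (3, 19)], []⟩,
  ⟨798, 50, 0, 224, 120, true, true, false, [(0, 1), (3, 19)], []⟩,
  ⟨841, 50, 0, 224, 120, true, true, false, [(0, 1), (3, 19)], []⟩,
  ⟨884, 50, 0, 224, 120, true, true, false, [(0, 1), (3, 19)], []⟩,
  ⟨927, 50, 0, 208, 109, true, true, false, [(0, 1), (3, 22)], []⟩,
  ⟨970, 50, 0, 208, 109, true, true, false, [(0, 1), (3, 22)], []⟩,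
  ⟨1013, 50, 0, 208, 109, true, true, false, [(0, 1), (3, 22)], []⟩,
  ⟨1056, 50, 0, 208, 109, true, true, false, [(0, 1), (3, 22)], []⟩,
  ⟨1099, 50, 0, 208, 109, true, true, false, [(0, 1), (3, 22)], []⟩,
  ⟨1142, 50, 0, 208, 109, true, true, false, [(0, 2), (3, 21)], []⟩,
  ⟨1185, 50, 0, 192, 98, true, true, false, [(0, 2), (3, 24)], []⟩,
  ⟨1228, 50, 0, 192, 98, true, true, false, [(0, 2), (3, 24)], []⟩,
  ⟨1271, 50, 0, 192, 98, true, true, false, [(0, 2), (3, 24)], []⟩,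
  ⟨1314, 50, 0, 192, 98, true, true, false, [(0, 2), (3, 24)], []⟩,
  ⟨1357, 50, 0, 192, 98, true, true, false, [(0, 3), (3, 23)], []⟩,
  ⟨1400, 50, 0, 192, 98, true, true, false, [(0, 4), (3, 22)], []⟩,
  ⟨1430, 50, 0, 192, 98, true, true, false, [(0, 5), (3, 21)], []⟩,
  ⟨1451, 50, 0, 192, 98, true, true, false, [(0, 14), (3, 12)], []⟩,
  ⟨1482, 50, 0, 192, 98, true, true, false, [(0, 26)], []⟩,
  ⟨1571, 50, 0, 176, 88, true, true, false, [(0, 29)], []⟩,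
  ⟨1749, 50, 0, 160, 78, true, true, false, [(0, 32)], []⟩,
  ⟨2243, 50, 0, 144, 69, true, true, false, [(0, 35)], []⟩,
  ⟨4149, 50, 0, 40, 18, true, true, false, [(0, 54)], []⟩,
  ⟨6122, 50, 0, 0, 0, true, false, false, [(0, 62)], []⟩
  ] = true := by decide +kernel

def g81_10 : Gr := ⟨false, 332, 338, 1024, 1024, 81, 85, 9216, 9441, 128, 2048, 0, []⟩

theorem k81_10 : chk g81_10 T325 [
  ⟨500, 90, 720, 56, 224, false, false, false, [(0, 1), (3, 13), (8, 1), (3, 14)], []⟩,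
  ⟨589, 90, 450, 192, 98, false, true, false, [(0, 1), (3, 14)], []⟩,
  ⟨678, 90, 450, 192, 98, false, true, false, [(0, 1), (3, 14)], []⟩,
  ⟨740, 90, 450, 192, 98, false, true, false, [(0, 1), (3, 14)], []⟩,
  ⟨783, 90, 450, 192, 98, false, true, false, [(0, 1), (3, 14)], []⟩,
  ⟨826, 90, 450, 192, 98, false, true, false, [(0, 1), (3, 14)], []⟩,
  ⟨856, 90, 450, 192, 98, false, true, false, [(0, 1), (3, 14)], []⟩,
  ⟨877, 90, 0, 192, 98, true, true, false, [(0, 1), (3, 14)], []⟩,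
  ⟨898, 90, 0, 192, 98, true, true, false, [(0, 1), (3, 14)], []⟩,
  ⟨929, 90, 0, 192, 98, true, true, false, [(0, 1), (3, 14)], []⟩,
  ⟨960, 90, 0, 192, 98, true, true, false, [(0, 1), (3, 14)], []⟩,
  ⟨1004, 90, 0, 192, 98, true, true, false, [(0, 1), (3, 14)], []⟩,
  ⟨1048, 90, 0, 192, 98, true, true, false, [(0, 1), (3, 14)], []⟩,
  ⟨1111, 90, 0, 192, 98, true, true, false, [(0, 1), (3, 14)], []⟩,
  ⟨1174, 90, 0, 192, 98, true, true, false, [(0, 2), (3, 13)], []⟩,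
  ⟨1237, 90, 0, 192, 98, true, true, false, [(0, 2), (3, 13)], []⟩,
  ⟨1300, 90, 0, 192, 98, true, true, false, [(0, 2), (3, 13)], []⟩,
  ⟨1363, 90, 0, 192, 98, true, true, false, [(0, 2), (3, 13)], []⟩,
  ⟨1426, 90, 0, 192, 98, true, true, false, [(0, 3), (3, 12)], []⟩,
  ⟨1489, 90, 0, 192, 98, true, true, false, [(0, 6), (3, 9)], []⟩,
  ⟨1552, 90, 0, 192, 98, true, true, false, [(0, 15)], []⟩,
  ⟨1678, 90, 0, 176, 88, true, true, false, [(0, 17)], []⟩,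
  ⟨1928, 90, 0, 160, 78, true, true, false, [(0, 19)], []⟩,
  ⟨2619, 90, 0, 104, 48, true, true, false, [(0, 24)], []⟩,
  ⟨6233, 90, 0, 0, 0, true, false, false, [(0, 35)], []⟩
  ] = true := by decide +kernel

def g81_11 : Gr := ⟨false, 338, 344, 1024, 1024, 81, 85, 9216, 9441, 0, 2048, 0, []⟩

theorem k81_11 : chk g81_11 T325 [
  ⟨355, 90, 720, 24, 267, false, true, false, [(0, 1), (3, 5), (15, 3), (6, 1), (7, 2), (8, 3), (9, 2), (3, 16)], []⟩,
  ⟨529, 90, 720, 72, 208, false, false, false, [(0, 1), (3, 12), (8, 2), (3, 13)], []⟩,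
  ⟨614, 90, 450, 208, 109, false, true, false, [(0, 1), (3, 13)], []⟩,
  ⟨699, 90, 450, 208, 109, false, true, false, [(0, 1), (3, 13)], []⟩,
  ⟨758, 90, 450, 208, 109, false, true, false, [(0, 1), (3, 13)], []⟩,
  ⟨799, 90, 0, 208, 109, true, true, false, [(0, 1), (3, 13)], []⟩,
  ⟨858, 90, 0, 208, 109, true, true, false, [(0, 1), (3, 13)], []⟩,
  ⟨917, 90, 0, 208, 109, true, true, false, [(0, 1), (3, 13)], []⟩,
  ⟨1001, 90, 0, 208, 109, true, true, false, [(0, 1), (3, 13)], []⟩,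
  ⟨1085, 90, 0, 208, 109, true, true, false, [(0, 1), (3, 13)], []⟩,
  ⟨1169, 90, 0, 208, 109, true, true, false, [(0, 1), (3, 13)], []⟩,
  ⟨1253, 90, 0, 208, 109, true, true, false, [(0, 2), (3, 12)], []⟩,
  ⟨1312, 90, 0, 208, 109, true, true, false, [(0, 2), (3, 12)], []⟩,
  ⟨1371, 90, 0, 208, 109, true, true, false, [(0, 2), (3, 12)], []⟩,
  ⟨1399, 90, 0, 208, 109, true, true, false, [(0, 3), (3, 11)], []⟩,
  ⟨1427, 90, 0, 192, 98, true, true, false, [(0, 3), (3, 13)], []⟩,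
  ⟨1455, 90, 0, 192, 98, true, true, false, [(0, 4), (3, 12)], []⟩,
  ⟨1475, 90, 0, 192, 98, true, true, false, [(0, 5), (3, 11)], []⟩,
  ⟨1495, 90, 0, 192, 98, true, true, false, [(0, 6), (3, 10)], []⟩,
  ⟨1515, 90, 0, 192, 98, true, true, false, [(0, 12), (3, 4)], []⟩,
  ⟨1544, 90, 0, 192, 98, true, true, false, [(0, 16)], []⟩,
  ⟨1603, 90, 0, 192, 98, true, true, false, [(0, 16)], []⟩,
  ⟨1722, 90, 0, 176, 88, true, true, false, [(0, 18)], []⟩,
  ⟨2055, 90, 0, 160, 78, true, true, false, [(0, 19)], []⟩,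
  ⟨2973, 90, 0, 96, 44, true, true, false, [(0, 26)], []⟩,
  ⟨6344, 90, 0, 0, 0, true, false, false, [(0, 36)], []⟩
  ] = true := by decide +kernel

def g81_12 : Gr := ⟨false, 344, 348, 1024, 1024, 81, 85, 9216, 9441, 0, 2048, 0, []⟩

theorem k81_12 : chk g81_12 T325 [
  ⟨355, 120, 720, 24, 272, false, false, false, [(0, 1), (3, 3), (15, 3), (7, 2), (8, 2), (9, 2), (3, 12)], []⟩,
  ⟨529, 120, 720, 88, 200, false, false, false, [(0, 1), (3, 9), (8, 1), (3, 9)], []⟩,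
  ⟨614, 120, 720, 88, 192, false, false, false, [(0, 1), (3, 19)], []⟩,
  ⟨699, 120, 480, 192, 98, false, true, false, [(0, 1), (3, 11)], []⟩,
  ⟨758, 120, 480, 192, 98, false, true, false, [(0, 1), (3, 11)], []⟩,
  ⟨817, 120, 480, 192, 98, false, true, false, [(0, 1), (3, 11)], []⟩,
  ⟨858, 120, 0, 224, 120, true, true, false, [(0, 1), (3, 9)], []⟩,
  ⟨917, 120, 0, 224, 120, true, true, false, [(0, 1), (3, 9)], []⟩,
  ⟨976, 120, 0, 224, 120, true, true, false, [(0, 1), (3, 9)], []⟩,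
  ⟨1035, 120, 0, 208, 109, true, true, false, [(0, 1), (3, 10)], []⟩,
  ⟨1094, 120, 0, 208, 109, true, true, false, [(0, 1), (3, 10)], []⟩,
  ⟨1178, 120, 0, 208, 109, true, true, false, [(0, 1), (3, 10)], []⟩,
  ⟨1262, 120, 0, 208, 109, true, true, false, [(0, 2), (3, 9)], []⟩,
  ⟨1321, 120, 0, 192, 98, true, true, false, [(0, 2), (3, 10)], []⟩,
  ⟨1404, 120, 0, 192, 98, true, true, false, [(0, 2), (3, 10)], []⟩,
  ⟨1462, 120, 0, 192, 98, true, true, false, [(0, 3), (3, 9)], []⟩,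
  ⟨1520, 120, 0, 192, 98, true, true, false, [(0, 4), (3, 8)], []⟩,
  ⟨1602, 120, 0, 192, 98, true, true, false, [(0, 12)], []⟩,
  ⟨1719, 120, 0, 192, 98, true, true, false, [(0, 12)], []⟩,
  ⟨1950, 120, 0, 160, 78, true, true, false, [(0, 15)], []⟩,
  ⟨2590, 120, 0, 128, 60, true, true, false, [(0, 17)], []⟩,
  ⟨6047, 120, 0, 0, 0, true, false, false, [(0, 27)], []⟩,
  ⟨6417, 120, 0, 0, 0, true, false, false, [(0, 27)], []⟩
  ] = true := by decide +kernel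

def g81_13 : Gr := ⟨false, 348, 354, 1024, 1024, 81, 85, 9216, 9441, 0, 2048, 0, []⟩

theorem k81_13 : chk g81_13 T325 [
  ⟨355, 90, 720, 24, 275, false, true, false, [(0, 1), (3, 5), (15, 3), (6, 1), (7, 2), (8, 3), (9, 2), (3, 17)], []⟩,
  ⟨529, 90, 720, 72, 216, false, false, false, [(0, 1), (3, 13), (8, 1), (3, 14)], []⟩,
  ⟨650, 90, 450, 208, 109, false, true, false, [(0, 1), (3, 14)], []⟩,
  ⟨735, 90, 450, 208, 109, false, true, false, [(0, 1), (3, 14)], []⟩,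
  ⟨794, 90, 450, 208, 109, false, true, false, [(0, 1), (3, 14)], []⟩,
  ⟨853, 90, 450, 208, 109, false, true, false, [(0, 1), (3, 14)], []⟩,
  ⟨912, 90, 0, 208, 109, true, true, false, [(0, 1), (3, 14)], []⟩,
  ⟨971, 90, 0, 208, 109, true, true, false, [(0, 1), (3, 14)], []⟩,
  ⟨1055, 90, 0, 208, 109, true, true, false, [(0, 1), (3, 14)], []⟩,
  ⟨1139, 90, 0, 208, 109, true, true, false, [(0, 1), (3, 14)], []⟩,
  ⟨1223, 90, 0, 208, 109, true, true, false, [(0, 2), (3, 13)], []⟩,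
  ⟨1307, 90, 0, 208, 109, true, true, false, [(0, 2), (3, 13)], []⟩,
  ⟨1366, 90, 0, 208, 109, true, true, false, [(0, 2), (3, 13)], []⟩,
  ⟨1425, 90, 0, 208, 109, true, true, false, [(0, 2), (3, 13)], []⟩,
  ⟨1466, 90, 0, 208, 109, true, true, false, [(0, 3), (3, 12)], []⟩,
  ⟨1486, 90, 0, 192, 98, true, true, false, [(0, 4), (3, 13)], []⟩,
  ⟨1506, 90, 0, 192, 98, true, true, false, [(0, 4), (3, 13)], []⟩,
  ⟨1526, 90, 0, 192, 98, true, true, false, [(0, 5), (3, 12)], []⟩,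
  ⟨1546, 90, 0, 192, 98, true, true, false, [(0, 8), (3, 9)], []⟩,
  ⟨1566, 90, 0, 192, 98, true, true, false, [(0, 17)], []⟩,
  ⟨1608, 90, 0, 192, 98, true, true, false, [(0, 17)], []⟩,
  ⟨1668, 90, 0, 192, 98, true, true, false, [(0, 17)], []⟩,
  ⟨1788, 90, 0, 176, 88, true, true, false, [(0, 19)], []⟩,
  ⟨2122, 90, 0, 160, 78, true, true, false, [(0, 20)], []⟩,
  ⟨3042, 90, 0, 96, 44, true, true, false, [(0, 27)], []⟩,
  ⟨6528, 90, 0, 0, 0, true, false, false, [(0, 37)], []⟩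
  ] = true := by decide +kernel

def g81_14 : Gr := ⟨false, 354, 359, 1024, 1024, 81, 85, 9216, 9441, 0, 2048, 0, []⟩

theorem k81_14 : chk g81_14 T325 [
  ⟨355, 70, 700, 48, 261, false, true, false, [(0, 1), (3, 6), (15, 4), (6, 2), (7, 3), (8, 3), (9, 4), (3, 18)], []⟩,
  ⟨529, 70, 700, 80, 216, false, false, false, [(0, 1), (3, 17), (8, 1), (3, 18)], []⟩,
  ⟨650, 70, 700, 80, 204, false, true, false, [(0, 1), (3, 36)], []⟩,
  ⟨735, 70, 490, 192, 98, false, true, false, [(0, 1), (3, 21)], []⟩,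
  ⟨794, 70, 490, 192, 98, false, true, false, [(0, 1), (3, 21)], []⟩,
  ⟨853, 70, 490, 192, 98, false, true, false, [(0, 1), (3, 21)], []⟩,
  ⟨912, 70, 0, 224, 120, true, true, false, [(0, 1), (3, 17)], []⟩,
  ⟨971, 70, 0, 224, 120, true, true, false, [(0, 1), (3, 17)], []⟩,
  ⟨1030, 70, 0, 224, 120, true, true, false, [(0, 1), (3, 17)], []⟩,
  ⟨1089, 70, 0, 208, 109, true, true, false, [(0, 1), (3, 19)], []⟩,
  ⟨1173, 70, 0, 208, 109, true, true, false, [(0, 1), (3, 19)], []⟩,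
  ⟨1257, 70, 0, 208, 109, true, true, false, [(0, 2), (3, 18)], []⟩,
  ⟨1341, 70, 0, 208, 109, true, true, false, [(0, 2), (3, 18)], []⟩,
  ⟨1400, 70, 0, 208, 109, true, true, false, [(0, 2), (3, 18)], []⟩,
  ⟨1459, 70, 0, 192, 98, true, true, false, [(0, 3), (3, 19)], []⟩,
  ⟨1518, 70, 0, 192, 98, true, true, false, [(0, 3), (3, 19)], []⟩,
  ⟨1577, 70, 0, 192, 98, true, true, false, [(0, 6), (3, 16)], []⟩,
  ⟨1660, 70, 0, 192, 98, true, true, false, [(0, 22)], []⟩,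
  ⟨1778, 70, 0, 192, 98, true, true, false, [(0, 22)], []⟩,
  ⟨2012, 70, 0, 160, 78, true, true, false, [(0, 27)], []⟩,
  ⟨2659, 70, 0, 120, 56, true, true, false, [(0, 32)], []⟩,
  ⟨6154, 70, 0, 0, 0, true, false, false, [(0, 48)], []⟩,
  ⟨6620, 70, 0, 0, 0, true, false, false, [(0, 48)], []⟩
  ] = true := by decide +kernel

def g81_15 : Gr := ⟨false, 358, 364, 1024, 1024, 81, 85, 9216, 9441, 0, 2048, 0, []⟩

theorem k81_15 : chk g81_15 T350 [
  ⟨498, 90, 540, 208, 109, false, true, false, [(0, 1), (3, 5), (18, 3), (8, 1), (9, 2), (10, 3), (11, 1)], []⟩,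
  ⟨617, 90, 720, 72, 216, false, false, false, [(0, 1), (3, 15), (11, 1), (3, 13)], []⟩,
  ⟨736, 90, 540, 208, 109, false, true, false, [(0, 1), (3, 15)], []⟩,
  ⟨819, 90, 450, 208, 109, false, true, false, [(0, 1), (3, 15)], []⟩,
  ⟨877, 90, 450, 208, 109, false, true, false, [(0, 1), (3, 15)], []⟩,
  ⟨918, 90, 0, 208, 109, true, true, false, [(0, 1), (3, 15)], []⟩,
  ⟨976, 90, 0, 208, 109, true, true, false, [(0, 1), (3, 15)], []⟩,
  ⟨1034, 90, 0, 208, 109, true, true, false, [(0, 1), (3, 15)], []⟩,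
  ⟨1116, 90, 0, 208, 109, true, true, false, [(0, 1), (3, 15)], []⟩,
  ⟨1198, 90, 0, 208, 109, true, true, false, [(0, 1), (3, 15)], []⟩,
  ⟨1280, 90, 0, 208, 109, true, true, false, [(0, 2), (3, 14)], []⟩,
  ⟨1362, 90, 0, 208, 109, true, true, false, [(0, 2), (3, 14)], []⟩,
  ⟨1444, 90, 0, 208, 109, true, true, false, [(0, 2), (3, 14)], []⟩,
  ⟨1501, 90, 0, 208, 109, true, true, false, [(0, 3), (3, 13)], []⟩,
  ⟨1529, 90, 0, 208, 109, true, true, false, [(0, 4), (3, 12)], []⟩,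
  ⟨1548, 90, 0, 208, 109, true, true, false, [(0, 4), (3, 12)], []⟩,
  ⟨1567, 90, 0, 192, 98, true, true, false, [(0, 5), (3, 13)], []⟩,
  ⟨1586, 90, 0, 192, 98, true, true, false, [(0, 7), (3, 11)], []⟩,
  ⟨1599, 90, 0, 192, 98, true, true, false, [(0, 13), (3, 5)], []⟩,
  ⟨1628, 90, 0, 192, 98, true, true, false, [(0, 18)], []⟩,
  ⟨1688, 90, 0, 192, 98, true, true, false, [(0, 18)], []⟩,
  ⟨1773, 90, 0, 192, 98, true, true, false, [(0, 18)], []⟩,
  ⟨2012, 90, 0, 160, 78, true, true, false, [(0, 21)], []⟩,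
  ⟨2674, 90, 0, 120, 56, true, true, false, [(0, 25)], []⟩,
  ⟨6247, 90, 0, 0, 0, true, false, false, [(0, 38)], []⟩,
  ⟨6712, 90, 0, 0, 0, true, false, false, [(0, 38)], []⟩
  ] = true := by decide +kernel

def g81_16 : Gr := ⟨false, 364, 372, 1024, 1024, 81, 85, 9216, 9441, 0, 2048, 0, []⟩

theorem k81_16 : chk g81_16 T350 [
  ⟨355, 70, 700, 24, 288, false, false, false, [(0, 1), (3, 6), (18, 4), (8, 2), (9, 3), (10, 3), (11, 4), (3, 23)], []⟩,
  ⟨529, 70, 700, 64, 240, false, false, false, [(0, 1), (3, 17), (10, 1), (11, 4), (3, 18)], []⟩,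
  ⟨650, 70, 700, 80, 212, false, true, false, [(0, 1), (3, 20), (11, 2), (3, 16)], []⟩,
  ⟨735, 70, 490, 208, 109, false, true, false, [(0, 1), (3, 21)], []⟩,
  ⟨794, 70, 490, 208, 109, false, true, false, [(0, 1), (3, 21)], []⟩,
  ⟨853, 70, 490, 208, 109, false, true, false, [(0, 1), (3, 21)], []⟩,
  ⟨894, 70, 490, 208, 109, false, true, false, [(0, 1), (3, 21)], []⟩,
  ⟨935, 70, 0, 224, 120, true, true, false, [(0, 1), (3, 19)], []⟩,
  ⟨976, 70, 0, 224, 120, true, true, false, [(0, 1), (3, 19)], []⟩,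
  ⟨1017, 70, 0, 224, 120, true, true, false, [(0, 1), (3, 19)], []⟩,
  ⟨1076, 70, 0, 224, 120, true, true, false, [(0, 1), (3, 19)], []⟩,
  ⟨1135, 70, 0, 224, 120, true, true, false, [(0, 1), (3, 19)], []⟩,
  ⟨1194, 70, 0, 224, 120, true, true, false, [(0, 1), (3, 19)], []⟩,
  ⟨1235, 70, 0, 208, 109, true, true, false, [(0, 2), (3, 20)], []⟩,
  ⟨1294, 70, 0, 208, 109, true, true, false, [(0, 2), (3, 20)], []⟩,
  ⟨1353, 70, 0, 208, 109, true, true, false, [(0, 2), (3, 20)], []⟩,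
  ⟨1394, 70, 0, 208, 109, true, true, false, [(0, 2), (3, 20)], []⟩,
  ⟨1435, 70, 0, 208, 109, true, true, false, [(0, 2), (3, 20)], []⟩,
  ⟨1476, 70, 0, 208, 109, true, true, false, [(0, 2), (3, 20)], []⟩,
  ⟨1505, 70, 0, 208, 109, true, true, false, [(0, 3), (3, 19)], []⟩,
  ⟨1525, 70, 0, 192, 98, true, true, false, [(0, 3), (3, 21)], []⟩,
  ⟨1545, 70, 0, 192, 98, true, true, false, [(0, 4), (3, 20)], []⟩,
  ⟨1565, 70, 0, 192, 98, true, true, false, [(0, 4), (3, 20)], []⟩,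
  ⟨1579, 70, 0, 192, 98, true, true, false, [(0, 5), (3, 19)], []⟩,
  ⟨1593, 70, 0, 192, 98, true, true, false, [(0, 6), (3, 18)], []⟩,
  ⟨1607, 70, 0, 192, 98, true, true, false, [(0, 8), (3, 16)], []⟩,
  ⟨1616, 70, 0, 192, 98, true, true, false, [(0, 11), (3, 13)], []⟩,
  ⟨1625, 70, 0, 192, 98, true, true, false, [(0, 17), (3, 7)], []⟩,
  ⟨1646, 70, 0, 192, 98, true, true, false, [(0, 24)], []⟩,
  ⟨1691, 70, 0, 192, 98, true, true, false, [(0, 24)], []⟩,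
  ⟨1782, 70, 0, 192, 98, true, true, false, [(0, 24)], []⟩,
  ⟨1963, 70, 0, 176, 88, true, true, false, [(0, 26)], []⟩,
  ⟨2465, 70, 0, 144, 69, true, true, false, [(0, 31)], []⟩,
  ⟨6264, 70, 0, 0, 0, true, false, true, [(0, 46)], [(0, 3)]⟩,
  ⟨6860, 70, 0, 0, 0, true, false, false, [(0, 49)], []⟩
  ] = true := by decide +kernel

def g81_17 : Gr := ⟨false, 372, 377, 1024, 1024, 81, 85, 9216, 9441, 0, 2048, 0, []⟩

theorem k81_17 : chk g81_17 T350 [
  ⟨498, 120, 600, 208, 117, false, true, false, [(0, 1), (3, 3), (18, 3), (9, 2), (10, 2), (11, 2)], []⟩,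
  ⟨668, 120, 720, 104, 200, false, false, false, [(0, 1), (3, 11), (11, 1), (3, 8)], []⟩,
  ⟨787, 120, 480, 208, 109, false, true, false, [(0, 1), (3, 12)], []⟩,
  ⟨870, 120, 480, 208, 109, false, true, false, [(0, 1), (3, 12)], []⟩,
  ⟨928, 120, 480, 208, 109, false, true, false, [(0, 1), (3, 12)], []⟩,
  ⟨986, 120, 0, 224, 120, true, true, false, [(0, 1), (3, 11)], []⟩,
  ⟨1044, 120, 0, 224, 120, true, true, false, [(0, 1), (3, 11)], []⟩,
  ⟨1127, 120, 0, 224, 120, true, true, false, [(0, 1), (3, 11)], []⟩,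
  ⟨1210, 120, 0, 224, 120, true, true, false, [(0, 1), (3, 11)], []⟩,
  ⟨1293, 120, 0, 208, 109, true, true, false, [(0, 2), (3, 11)], []⟩,
  ⟨1376, 120, 0, 208, 109, true, true, false, [(0, 2), (3, 11)], []⟩,
  ⟨1459, 120, 0, 208, 109, true, true, false, [(0, 2), (3, 11)], []⟩,
  ⟨1517, 120, 0, 208, 109, true, true, false, [(0, 2), (3, 11)], []⟩,
  ⟨1575, 120, 0, 208, 109, true, true, false, [(0, 3), (3, 10)], []⟩,
  ⟨1615, 120, 0, 208, 109, true, true, false, [(0, 4), (3, 9)], []⟩,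
  ⟨1634, 120, 0, 208, 109, true, true, false, [(0, 6), (3, 7)], []⟩,
  ⟨1653, 120, 0, 208, 109, true, true, false, [(0, 8), (3, 5)], []⟩,
  ⟨1666, 120, 0, 208, 109, true, true, false, [(0, 13)], []⟩,
  ⟨1679, 120, 0, 208, 109, true, true, false, [(0, 13)], []⟩,
  ⟨1692, 120, 0, 208, 109, true, true, false, [(0, 13)], []⟩,
  ⟨1705, 120, 0, 208, 109, true, true, false, [(0, 13)], []⟩,
  ⟨1734, 120, 0, 192, 98, true, true, false, [(0, 15)], []⟩,
  ⟨1794, 120, 0, 192, 98, true, true, false, [(0, 15)], []⟩,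
  ⟨1965, 120, 0, 176, 88, true, true, false, [(0, 16)], []⟩,
  ⟨2438, 120, 0, 144, 69, true, true, false, [(0, 18)], []⟩,
  ⟨4996, 120, 0, 28, 12, true, true, false, [(0, 27)], []⟩,
  ⟨6952, 120, 0, 0, 0, true, false, false, [(0, 29)], []⟩
  ] = true := by decide +kernel

def g81_18 : Gr := ⟨false, 377, 383, 1024, 1024, 81, 85, 9216, 9441, 0, 2048, 0, []⟩

theorem k81_18 : chk g81_18 T350 [
  ⟨355, 90, 720, 24, 296, false, false, false, [(0, 1), (3, 5), (18, 3), (8, 1), (9, 2), (10, 3), (11, 2), (3, 20)], []⟩,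
  ⟨603, 90, 720, 72, 240, false, false, false, [(0, 1), (3, 8), (6, 1), (3, 3), (10, 2), (11, 2), (3, 15)], []⟩,
  ⟨724, 90, 720, 72, 224, false, false, false, [(0, 1), (3, 31)], []⟩,
  ⟨809, 90, 540, 208, 109, false, true, false, [(0, 1), (3, 17)], []⟩,
  ⟨868, 90, 540, 208, 109, false, true, false, [(0, 1), (3, 17)], []⟩,
  ⟨909, 90, 540, 208, 109, false, true, false, [(0, 1), (3, 17)], []⟩,
  ⟨950, 90, 540, 208, 109, false, true, false, [(0, 1), (3, 17)], []⟩,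
  ⟨991, 90, 0, 240, 132, true, true, false, [(0, 1), (3, 14)], []⟩,
  ⟨1032, 90, 0, 240, 132, true, true, false, [(0, 1), (3, 14)], []⟩,
  ⟨1073, 90, 0, 240, 132, true, true, false, [(0, 1), (3, 14)], []⟩,
  ⟨1114, 90, 0, 224, 120, true, true, false, [(0, 1), (3, 16)], []⟩,
  ⟨1155, 90, 0, 224, 120, true, true, false, [(0, 1), (3, 16)], []⟩,
  ⟨1196, 90, 0, 208, 109, true, true, false, [(0, 1), (3, 17)], []⟩,
  ⟨1255, 90, 0, 208, 109, true, true, false, [(0, 1), (3, 17)], []⟩,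
  ⟨1314, 90, 0, 208, 109, true, true, false, [(0, 2), (3, 16)], []⟩,
  ⟨1373, 90, 0, 208, 109, true, true, false, [(0, 2), (3, 16)], []⟩,
  ⟨1432, 90, 0, 208, 109, true, true, false, [(0, 2), (3, 16)], []⟩,
  ⟨1491, 90, 0, 208, 109, true, true, false, [(0, 2), (3, 16)], []⟩,
  ⟨1550, 90, 0, 208, 109, true, true, false, [(0, 3), (3, 15)], []⟩,
  ⟨1591, 90, 0, 208, 109, true, true, false, [(0, 3), (3, 15)], []⟩,
  ⟨1620, 90, 0, 208, 109, true, true, false, [(0, 4), (3, 14)], []⟩,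
  ⟨1640, 90, 0, 208, 109, true, true, false, [(0, 5), (3, 13)], []⟩,
  ⟨1654, 90, 0, 208, 109, true, true, false, [(0, 6), (3, 12)], []⟩,
  ⟨1668, 90, 0, 208, 109, true, true, false, [(0, 8), (3, 10)], []⟩,
  ⟨1677, 90, 0, 192, 98, true, true, false, [(0, 12), (3, 8)], []⟩,
  ⟨1686, 90, 0, 192, 98, true, true, false, [(0, 17), (3, 3)], []⟩,
  ⟨1707, 90, 0, 192, 98, true, true, false, [(0, 20)], []⟩,
  ⟨1771, 90, 0, 192, 98, true, true, false, [(0, 20)], []⟩,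
  ⟨1900, 90, 0, 192, 98, true, true, false, [(0, 20)], []⟩,
  ⟨2259, 90, 0, 160, 78, true, true, false, [(0, 23)], []⟩,
  ⟨3248, 90, 0, 72, 32, true, true, false, [(0, 32)], []⟩,
  ⟨7056, 90, 0, 0, 0, true, false, false, [(0, 40)], []⟩,
  ⟨7063, 90, 0, 0, 0, true, false, false, [(0, 40)], []⟩
  ] = true := by decide +kernel

def g81_19 : Gr := ⟨false, 383, 384, 1024, 1024, 81, 85, 9216, 9441, 0, 2048, 0, []⟩

theorem k81_19 : chk g81_19 T350 [
  ⟨355, 120, 720, 20, 308, false, false, false, [(0, 1), (3, 3), (18, 3), (9, 2), (10, 2), (11, 2), (3, 15)], []⟩,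
  ⟨603, 120, 720, 72, 240, false, false, false, [(0, 1), (3, 9), (10, 1), (11, 2), (3, 11)], []⟩,
  ⟨777, 120, 720, 88, 208, false, false, false, [(0, 1), (3, 11), (11, 1), (3, 10)], []⟩,
  ⟨862, 120, 480, 208, 109, false, true, false, [(0, 1), (3, 13)], []⟩,
  ⟨947, 120, 480, 208, 109, false, true, false, [(0, 1), (3, 13)], []⟩,
  ⟨1006, 120, 480, 208, 109, false, true, false, [(0, 1), (3, 13)], []⟩,
  ⟨1047, 120, 480, 208, 109, false, true, false, [(0, 1), (3, 13)], []⟩,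
  ⟨1088, 120, 0, 208, 109, true, true, false, [(0, 1), (3, 13)], []⟩,
  ⟨1129, 120, 0, 208, 109, true, true, false, [(0, 1), (3, 13)], []⟩,
  ⟨1188, 120, 0, 208, 109, true, true, false, [(0, 1), (3, 13)], []⟩,
  ⟨1247, 120, 0, 208, 109, true, true, false, [(0, 1), (3, 13)], []⟩,
  ⟨1331, 120, 0, 208, 109, true, true, false, [(0, 2), (3, 12)], []⟩,
  ⟨1415, 120, 0, 208, 109, true, true, false, [(0, 2), (3, 12)], []⟩,
  ⟨1499, 120, 0, 208, 109, true, true, false, [(0, 2), (3, 12)], []⟩,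
  ⟨1583, 120, 0, 208, 109, true, true, false, [(0, 3), (3, 11)], []⟩,
  ⟨1642, 120, 0, 208, 109, true, true, false, [(0, 3), (3, 11)], []⟩,
  ⟨1701, 120, 0, 192, 98, true, true, false, [(0, 5), (3, 10)], []⟩,
  ⟨1784, 120, 0, 192, 98, true, true, false, [(0, 15)], []⟩,
  ⟨2017, 120, 0, 176, 88, true, true, false, [(0, 16)], []⟩,
  ⟨2477, 120, 0, 144, 69, true, true, false, [(0, 19)], []⟩,
  ⟨4965, 120, 0, 20, 9, true, true, false, [(0, 28)], []⟩,
  ⟨7081, 120, 0, 0, 0, true, false, false, [(0, 30)], []⟩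
  ] = true := by decide +kernel

def g81_20 : Gr := ⟨false, 384, 390, 1024, 1024, 81, 85, 9216, 9441, 0, 2048, 0, []⟩

theorem k81_20 : chk g81_20 T375 [
  ⟨498, 120, 600, 224, 120, false, true, false, [(0, 1), (3, 3), (19, 3), (9, 2), (10, 2), (11, 2)], []⟩,
  ⟨668, 120, 720, 104, 208, false, false, false, [(0, 1), (3, 11), (11, 1), (3, 1), (12, 1), (3, 7)], []⟩,
  ⟨787, 120, 720, 104, 200, false, false, false, [(0, 1), (3, 21)], []⟩,
  ⟨870, 120, 480, 208, 109, false, true, false, [(0, 1), (3, 13)], []⟩,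
  ⟨953, 120, 480, 208, 109, false, true, false, [(0, 1), (3, 13)], []⟩,
  ⟨1011, 120, 480, 208, 109, false, true, false, [(0, 1), (3, 13)], []⟩,
  ⟨1069, 120, 0, 224, 120, true, true, false, [(0, 1), (3, 12)], []⟩,
  ⟨1127, 120, 0, 224, 120, true, true, false, [(0, 1), (3, 12)], []⟩,
  ⟨1210, 120, 0, 224, 120, true, true, false, [(0, 1), (3, 12)], []⟩,
  ⟨1293, 120, 0, 224, 120, true, true, false, [(0, 2), (3, 11)], []⟩,
  ⟨1376, 120, 0, 208, 109, true, true, false, [(0, 2), (3, 12)], []⟩,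
  ⟨1459, 120, 0, 208, 109, true, true, false, [(0, 2), (3, 12)], []⟩,
  ⟨1542, 120, 0, 208, 109, true, true, false, [(0, 2), (3, 12)], []⟩,
  ⟨1600, 120, 0, 208, 109, true, true, false, [(0, 3), (3, 11)], []⟩,
  ⟨1640, 120, 0, 208, 109, true, true, false, [(0, 4), (3, 10)], []⟩,
  ⟨1680, 120, 0, 208, 109, true, true, false, [(0, 5), (3, 9)], []⟩,
  ⟨1699, 120, 0, 208, 109, true, true, false, [(0, 7), (3, 7)], []⟩,
  ⟨1718, 120, 0, 208, 109, true, true, false, [(0, 12), (3, 2)], []⟩,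
  ⟨1737, 120, 0, 208, 109, true, true, false, [(0, 14)], []⟩,
  ⟨1756, 120, 0, 208, 109, true, true, false, [(0, 14)], []⟩,
  ⟨1784, 120, 0, 208, 109, true, true, false, [(0, 14)], []⟩,
  ⟨1843, 120, 0, 192, 98, true, true, false, [(0, 16)], []⟩,
  ⟨2009, 120, 0, 176, 88, true, true, false, [(0, 17)], []⟩,
  ⟨2470, 120, 0, 144, 69, true, true, false, [(0, 19)], []⟩,
  ⟨4248, 120, 0, 40, 18, true, true, false, [(0, 27)], []⟩,
  ⟨7192, 120, 0, 0, 0, true, false, false, [(0, 30)], []⟩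
  ] = true := by decide +kernel

def g81_21 : Gr := ⟨false, 390, 396, 1024, 1024, 81, 85, 9216, 9441, 0, 2048, 0, []⟩

theorem k81_21 : chk g81_21 T375 [
  ⟨498, 90, 540, 240, 132, false, true, false, [(0, 1), (3, 5), (19, 3), (8, 1), (9, 2), (10, 3), (11, 1)], []⟩,
  ⟨668, 90, 720, 88, 224, false, false, false, [(0, 1), (3, 15), (11, 1), (3, 2), (12, 1), (3, 12)], []⟩,
  ⟨787, 90, 720, 96, 208, false, false, false, [(0, 1), (3, 30)], []⟩,
  ⟨870, 90, 630, 104, 192, false, false, false, [(0, 1), (3, 29)], []⟩,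
  ⟨953, 90, 0, 240, 132, true, true, false, [(0, 1), (3, 15)], []⟩,
  ⟨1036, 90, 0, 240, 132, true, true, false, [(0, 1), (3, 15)], []⟩,
  ⟨1119, 90, 0, 240, 132, true, true, false, [(0, 1), (3, 15)], []⟩,
  ⟨1202, 90, 0, 240, 132, true, true, false, [(0, 1), (3, 15)], []⟩,
  ⟨1260, 90, 0, 224, 120, true, true, false, [(0, 1), (3, 17)], []⟩,
  ⟨1318, 90, 0, 224, 120, true, true, false, [(0, 2), (3, 16)], []⟩,
  ⟨1376, 90, 0, 224, 120, true, true, false, [(0, 2), (3, 16)], []⟩,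
  ⟨1434, 90, 0, 224, 120, true, true, false, [(0, 2), (3, 16)], []⟩,
  ⟨1475, 90, 0, 224, 120, true, true, false, [(0, 2), (3, 16)], []⟩,
  ⟨1516, 90, 0, 208, 109, true, true, false, [(0, 2), (3, 18)], []⟩,
  ⟨1557, 90, 0, 208, 109, true, true, false, [(0, 2), (3, 18)], []⟩,
  ⟨1585, 90, 0, 192, 98, true, true, false, [(0, 3), (3, 18)], []⟩,
  ⟨1613, 90, 0, 192, 98, true, true, false, [(0, 3), (3, 18)], []⟩,
  ⟨1641, 90, 0, 192, 98, true, true, false, [(0, 3), (3, 18)], []⟩,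
  ⟨1669, 90, 0, 192, 98, true, true, false, [(0, 4), (3, 17)], []⟩,
  ⟨1697, 90, 0, 192, 98, true, true, false, [(0, 5), (3, 16)], []⟩,
  ⟨1725, 90, 0, 192, 98, true, true, false, [(0, 7), (3, 14)], []⟩,
  ⟨1753, 90, 0, 192, 98, true, true, false, [(0, 16), (3, 5)], []⟩,
  ⟨1811, 90, 0, 192, 98, true, true, false, [(0, 21)], []⟩,
  ⟨1928, 90, 0, 192, 98, true, true, false, [(0, 21)], []⟩,
  ⟨2160, 90, 0, 176, 88, true, true, false, [(0, 23)], []⟩,
  ⟨2802, 90, 0, 128, 60, true, true, false, [(0, 28)], []⟩,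
  ⟨6268, 90, 0, 0, 0, true, false, false, [(0, 41)], []⟩,
  ⟨7303, 90, 0, 0, 0, true, false, false, [(0, 41)], []⟩
  ] = true := by decide +kernel

def g81_22 : Gr := ⟨false, 396, 402, 1024, 1024, 81, 85, 9216, 9441, 0, 2048, 0, []⟩

theorem k81_22 : chk g81_22 T375 [
  ⟨498, 120, 600, 208, 141, false, true, false, [(0, 1), (3, 3), (19, 3), (9, 2), (10, 2), (11, 2), (12, 2)], []⟩,
  ⟨668, 120, 720, 80, 240, false, false, false, [(0, 1), (3, 11), (11, 1), (3, 12)], []⟩,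
  ⟨787, 120, 720, 80, 228, false, true, false, [(0, 1), (3, 24)], []⟩,
  ⟨906, 120, 600, 208, 109, false, true, false, [(0, 1), (3, 14)], []⟩,
  ⟨989, 120, 480, 208, 109, false, true, false, [(0, 1), (3, 14)], []⟩,
  ⟨1047, 120, 480, 208, 109, false, true, false, [(0, 1), (3, 14)], []⟩,
  ⟨1088, 120, 480, 208, 109, false, true, false, [(0, 1), (3, 14)], []⟩,
  ⟨1116, 120, 480, 208, 109, false, true, false, [(0, 1), (3, 14)], []⟩,
  ⟨1144, 120, 0, 208, 109, true, true, false, [(0, 1), (3, 14)], []⟩,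
  ⟨1185, 120, 0, 208, 109, true, true, false, [(0, 1), (3, 14)], []⟩,
  ⟨1226, 120, 0, 208, 109, true, true, false, [(0, 1), (3, 14)], []⟩,
  ⟨1284, 120, 0, 208, 109, true, true, false, [(0, 1), (3, 14)], []⟩,
  ⟨1342, 120, 0, 208, 109, true, true, false, [(0, 2), (3, 13)], []⟩,
  ⟨1400, 120, 0, 208, 109, true, true, false, [(0, 2), (3, 13)], []⟩,
  ⟨1483, 120, 0, 208, 109, true, true, false, [(0, 2), (3, 13)], []⟩,
  ⟨1566, 120, 0, 208, 109, true, true, false, [(0, 2), (3, 13)], []⟩,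
  ⟨1624, 120, 0, 208, 109, true, true, false, [(0, 3), (3, 12)], []⟩,
  ⟨1682, 120, 0, 208, 109, true, true, false, [(0, 3), (3, 12)], []⟩,
  ⟨1722, 120, 0, 208, 109, true, true, false, [(0, 4), (3, 11)], []⟩,
  ⟨1750, 120, 0, 208, 109, true, true, false, [(0, 7), (3, 8)], []⟩,
  ⟨1769, 120, 0, 208, 109, true, true, false, [(0, 12), (3, 3)], []⟩,
  ⟨1797, 120, 0, 208, 109, true, true, false, [(0, 15)], []⟩,
  ⟨1838, 120, 0, 208, 109, true, true, false, [(0, 15)], []⟩,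
  ⟨1897, 120, 0, 192, 98, true, true, false, [(0, 17)], []⟩,
  ⟨2063, 120, 0, 176, 88, true, true, false, [(0, 18)], []⟩,
  ⟨2524, 120, 0, 144, 69, true, true, false, [(0, 20)], []⟩,
  ⟨4304, 120, 0, 40, 18, true, true, false, [(0, 28)], []⟩,
  ⟨7413, 120, 0, 0, 0, true, false, false, [(0, 31)], []⟩
  ] = true := by decide +kernel

end Pool.Agent.Lib.MP_af3a4a_an.P1.CHK.H81.L
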