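import Pool.Agent.Lib.MP_af3a4a_an.P1.CHK.H81.LT
/-!
# Data, `81 ≤ N ≤ 85`, `402 ≤ 1024 R ≤ 820` (helper81)
-/
set_option autoImplicit false

namespace Pool.Agent.Lib.MP_af3a4a_an.P1.CHK.H81.L

open Pool.Agent.Lib.MP_af3a4a_an.P1.CHK.H58.G (Gr En)

def g81_23 : Gr := ⟨false, 402, 410, 1024, 1024, 81, 85, 9216, 9441, 0, 2048, 0, []⟩

theorem k81_23 : chk g81_23 T375 [
  ⟨498, 90, 720, 20, 308, false, false, false, [(0, 1), (3, 5), (19, 3), (8, 1), (9, 2), (10, 3), (11, 2), (12, 3), (3, 20)], []⟩,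
  ⟨742, 90, 720, 88, 232, false, false, false, [(0, 1), (3, 8), (6, 1), (3, 5), (11, 2), (3, 1), (12, 2), (3, 13)], []⟩,
  ⟨861, 90, 720, 88, 216, false, false, false, [(0, 1), (3, 32)], []⟩,
  ⟨944, 90, 630, 128, 176, false, false, false, [(0, 1), (3, 28)], []⟩,
  ⟨1002, 90, 540, 208, 109, false, true, false, [(0, 1), (3, 20)], []⟩,
  ⟨1043, 90, 0, 240, 132, true, true, false, [(0, 1), (3, 17)], []⟩,
  ⟨1084, 90, 0, 240, 132, true, true, false, [(0, 1), (3, 17)], []⟩,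
  ⟨1142, 90, 0, 240, 132, true, true, false, [(0, 1), (3, 17)], []⟩,
  ⟨1200, 90, 0, 240, 132, true, true, false, [(0, 1), (3, 17)], []⟩,
  ⟨1258, 90, 0, 240, 132, true, true, false, [(0, 1), (3, 17)], []⟩,
  ⟨1298, 90, 0, 240, 132, true, true, false, [(0, 1), (3, 17)], []⟩,
  ⟨1338, 90, 0, 240, 132, true, true, false, [(0, 2), (3, 16)], []⟩,
  ⟨1378, 90, 0, 208, 109, true, true, false, [(0, 2), (3, 19)], []⟩,
  ⟨1418, 90, 0, 208, 109, true, true, false, [(0, 2), (3, 19)], []⟩,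
  ⟨1458, 90, 0, 208, 109, true, true, false, [(0, 2), (3, 19)], []⟩,
  ⟨1516, 90, 0, 208, 109, true, true, false, [(0, 2), (3, 19)], []⟩,
  ⟨1574, 90, 0, 208, 109, true, true, false, [(0, 2), (3, 19)], []⟩,
  ⟨1614, 90, 0, 208, 109, true, true, false, [(0, 3), (3, 18)], []⟩,
  ⟨1654, 90, 0, 208, 109, true, true, false, [(0, 3), (3, 18)], []⟩,
  ⟨1694, 90, 0, 208, 109, true, true, false, [(0, 3), (3, 18)], []⟩,
  ⟨1722, 90, 0, 208, 109, true, true, false, [(0, 4), (3, 17)], []⟩,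
  ⟨1750, 90, 0, 208, 109, true, true, false, [(0, 5), (3, 16)], []⟩,
  ⟨1769, 90, 0, 208, 109, true, true, false, [(0, 7), (3, 14)], []⟩,
  ⟨1782, 90, 0, 208, 109, true, true, false, [(0, 10), (3, 11)], []⟩,
  ⟨1791, 90, 0, 208, 109, true, true, false, [(0, 14), (3, 7)], []⟩,
  ⟨1800, 90, 0, 208, 109, true, true, false, [(0, 20), (3, 1)], []⟩,
  ⟨1814, 90, 0, 208, 109, true, true, false, [(0, 21)], []⟩,
  ⟨1835, 90, 0, 208, 109, true, true, false, [(0, 21)], []⟩,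
  ⟨1866, 90, 0, 192, 98, true, true, false, [(0, 23)], []⟩,
  ⟨1956, 90, 0, 176, 88, true, true, false, [(0, 24)], []⟩,
  ⟨2207, 90, 0, 176, 88, true, true, false, [(0, 24)], []⟩,
  ⟨2901, 90, 0, 120, 56, true, true, false, [(0, 30)], []⟩,
  ⟨6647, 90, 0, 0, 0, true, false, false, [(0, 43)], []⟩,
  ⟨7561, 90, 0, 0, 0, true, false, false, [(0, 43)], []⟩
  ] = true := by decide +kernel

def g81_24 : Gr := ⟨false, 409, 415, 1024, 1024, 81, 85, 9216, 9441, 0, 2048, 0, []⟩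

theorem k81_24 : chk g81_24 T400 [
  ⟨498, 120, 720, 28, 308, false, false, false, [(0, 1), (3, 3), (22, 3), (11, 2), (12, 2), (13, 2), (14, 2), (15, 2), (3, 13)], []⟩,
  ⟨742, 120, 720, 80, 244, false, true, false, [(0, 1), (3, 9), (8, 1), (3, 1), (13, 1), (14, 2), (3, 11)], []⟩,
  ⟨912, 120, 600, 208, 109, false, true, false, [(0, 1), (3, 13), (14, 1), (3, 1)], []⟩,
  ⟨1031, 120, 600, 208, 109, false, true, false, [(0, 1), (3, 13), (14, 1), (3, 1)], []⟩,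
  ⟨1089, 120, 600, 208, 109, false, true, false, [(0, 1), (3, 15)], []⟩,
  ⟨1147, 120, 480, 208, 109, false, true, false, [(0, 1), (3, 15)], []⟩,
  ⟨1188, 120, 0, 240, 132, true, true, false, [(0, 1), (3, 13)], []⟩,
  ⟨1229, 120, 0, 224, 120, true, true, false, [(0, 1), (3, 14)], []⟩,
  ⟨1287, 120, 0, 224, 120, true, true, false, [(0, 1), (3, 14)], []⟩,
  ⟨1345, 120, 0, 224, 120, true, true, false, [(0, 2), (3, 13)], []⟩,
  ⟨1403, 120, 0, 208, 109, true, true, false, [(0, 2), (3, 14)], []⟩,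
  ⟨1485, 120, 0, 208, 109, true, true, false, [(0, 2), (3, 14)], []⟩,
  ⟨1567, 120, 0, 208, 109, true, true, false, [(0, 2), (3, 14)], []⟩,
  ⟨1649, 120, 0, 208, 109, true, true, false, [(0, 2), (3, 14)], []⟩,
  ⟨1706, 120, 0, 208, 109, true, true, false, [(0, 3), (3, 13)], []⟩,
  ⟨1763, 120, 0, 208, 109, true, true, false, [(0, 4), (3, 12)], []⟩,
  ⟨1803, 120, 0, 208, 109, true, true, false, [(0, 6), (3, 10)], []⟩,
  ⟨1831, 120, 0, 208, 109, true, true, false, [(0, 12), (3, 4)], []⟩,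
  ⟨1871, 120, 0, 208, 109, true, true, false, [(0, 16)], []⟩,
  ⟨1929, 120, 0, 208, 109, true, true, false, [(0, 16)], []⟩,
  ⟨2045, 120, 0, 192, 98, true, true, false, [(0, 18)], []⟩,
  ⟨2368, 120, 0, 160, 78, true, true, false, [(0, 20)], []⟩,
  ⟨3259, 120, 0, 96, 44, true, true, false, [(0, 25)], []⟩,
  ⟨6690, 120, 0, 0, 0, true, false, false, [(0, 32)], []⟩,
  ⟨7653, 120, 0, 0, 0, true, false, false, [(0, 32)], []⟩
  ] = true := by decide +kernel

def g81_25 : Gr := ⟨false, 415, 421, 1024, 1024, 81, 85, 9216, 9441, 0, 2048, 0, []⟩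

theorem k81_25 : chk g81_25 T400 [
  ⟨498, 90, 720, 32, 304, false, false, false, [(0, 1), (3, 5), (22, 3), (10, 1), (11, 2), (12, 3), (13, 2), (14, 3), (15, 3), (3, 17)], []⟩,
  ⟨742, 90, 720, 80, 248, false, false, false, [(0, 1), (3, 8), (7, 1), (3, 4), (8, 1), (3, 1), (13, 1), (14, 3), (3, 15)], []⟩,
  ⟨912, 90, 720, 104, 208, false, false, false, [(0, 1), (3, 17), (14, 2), (3, 13)], []⟩,
  ⟨1031, 90, 540, 208, 109, false, true, false, [(0, 1), (3, 18), (14, 1), (3, 2)], []⟩,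
  ⟨1114, 90, 540, 208, 109, false, true, false, [(0, 1), (3, 21)], []⟩,
  ⟨1197, 90, 0, 240, 132, true, true, false, [(0, 1), (3, 18)], []⟩,
  ⟨1280, 90, 0, 240, 132, true, true, false, [(0, 1), (3, 18)], []⟩,
  ⟨1363, 90, 0, 240, 132, true, true, false, [(0, 2), (3, 17)], []⟩,
  ⟨1421, 90, 0, 224, 120, true, true, false, [(0, 2), (3, 19)], []⟩,
  ⟨1479, 90, 0, 208, 109, true, true, false, [(0, 2), (3, 20)], []⟩,
  ⟨1562, 90, 0, 208, 109, true, true, false, [(0, 2), (3, 20)], []⟩,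
  ⟨1645, 90, 0, 208, 109, true, true, false, [(0, 2), (3, 20)], []⟩,
  ⟨1728, 90, 0, 208, 109, true, true, false, [(0, 3), (3, 19)], []⟩,
  ⟨1786, 90, 0, 208, 109, true, true, false, [(0, 4), (3, 18)], []⟩,
  ⟨1844, 90, 0, 208, 109, true, true, false, [(0, 7), (3, 15)], []⟩,
  ⟨1884, 90, 0, 208, 109, true, true, false, [(0, 22)], []⟩,
  ⟨1966, 90, 0, 192, 98, true, true, false, [(0, 24)], []⟩,
  ⟨2129, 90, 0, 192, 98, true, true, false, [(0, 24)], []⟩,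
  ⟨2581, 90, 0, 144, 69, true, true, false, [(0, 29)], []⟩,
  ⟨4327, 90, 0, 32, 14, true, true, false, [(0, 40)], []⟩,
  ⟨7753, 90, 0, 0, 0, true, false, false, [(0, 44)], []⟩,
  ⟨7764, 90, 0, 0, 0, true, false, false, [(0, 44)], []⟩
  ] = true := by decide +kernel

def g81_26 : Gr := ⟨false, 421, 429, 1024, 1024, 81, 85, 9216, 9441, 0, 2048, 0, []⟩

theorem k81_26 : chk g81_26 T400 [
  ⟨498, 120, 720, 28, 316, false, false, false, [(0, 1), (3, 3), (22, 3), (11, 2), (12, 2), (13, 2), (14, 2), (15, 2), (3, 14)], []⟩,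
  ⟨742, 120, 720, 80, 252, false, true, false, [(0, 1), (3, 11), (13, 1), (14, 2), (3, 12)], []⟩,
  ⟨912, 120, 720, 104, 216, false, false, false, [(0, 1), (3, 13), (14, 1), (3, 10)], []⟩,
  ⟨1031, 120, 720, 104, 208, false, false, false, [(0, 1), (3, 24)], []⟩,
  ⟨1089, 120, 720, 104, 200, false, false, false, [(0, 1), (3, 24)], []⟩,
  ⟨1147, 120, 600, 208, 109, false, true, false, [(0, 1), (3, 16)], []⟩,
  ⟨1188, 120, 0, 240, 132, true, true, false, [(0, 1), (3, 14)], []⟩,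
  ⟨1229, 120, 0, 240, 132, true, true, false, [(0, 1), (3, 14)], []⟩,
  ⟨1287, 120, 0, 240, 132, true, true, false, [(0, 1), (3, 14)], []⟩,
  ⟨1345, 120, 0, 224, 120, true, true, false, [(0, 2), (3, 14)], []⟩,
  ⟨1403, 120, 0, 224, 120, true, true, false, [(0, 2), (3, 14)], []⟩,
  ⟨1461, 120, 0, 224, 120, true, true, false, [(0, 2), (3, 14)], []⟩,
  ⟨1519, 120, 0, 224, 120, true, true, false, [(0, 2), (3, 14)], []⟩,
  ⟨1577, 120, 0, 224, 120, true, true, false, [(0, 2), (3, 14)], []⟩,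
  ⟨1635, 120, 0, 208, 109, true, true, false, [(0, 2), (3, 15)], []⟩,
  ⟨1693, 120, 0, 208, 109, true, true, false, [(0, 3), (3, 14)], []⟩,
  ⟨1751, 120, 0, 208, 109, true, true, false, [(0, 3), (3, 14)], []⟩,
  ⟨1809, 120, 0, 208, 109, true, true, false, [(0, 4), (3, 13)], []⟩,
  ⟨1849, 120, 0, 208, 109, true, true, false, [(0, 6), (3, 11)], []⟩,
  ⟨1889, 120, 0, 208, 109, true, true, false, [(0, 11), (3, 6)], []⟩,
  ⟨1947, 120, 0, 208, 109, true, true, false, [(0, 17)], []⟩,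
  ⟨2029, 120, 0, 208, 109, true, true, false, [(0, 17)], []⟩,
  ⟨2259, 120, 0, 176, 88, true, true, false, [(0, 20)], []⟩,
  ⟨2897, 120, 0, 120, 56, true, true, false, [(0, 24)], []⟩,
  ⟨6339, 120, 0, 0, 0, true, false, false, [(0, 33)], []⟩,
  ⟨7911, 120, 0, 0, 0, true, false, false, [(0, 33)], []⟩
  ] = true := by decide +kernel

def g81_27 : Gr := ⟨false, 429, 436, 1024, 1024, 81, 85, 9216, 9441, 0, 2048, 0, []⟩

theorem k81_27 : chk g81_27 T400 [
  ⟨498, 120, 720, 20, 324, false, false, false, [(0, 1), (3, 3), (22, 3), (11, 2), (12, 2), (13, 2), (14, 2), (15, 2), (3, 15)], []⟩,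
  ⟨742, 120, 720, 72, 264, false, false, false, [(0, 1), (3, 11), (13, 1), (14, 2), (3, 13)], []⟩,
  ⟨912, 120, 720, 88, 240, false, false, false, [(0, 1), (3, 13), (14, 1), (3, 12)], []⟩,
  ⟨1031, 120, 720, 112, 204, false, true, false, [(0, 1), (3, 24)], []⟩,
  ⟨1114, 120, 600, 112, 196, false, true, false, [(0, 1), (3, 24)], []⟩,
  ⟨1172, 120, 0, 256, 145, true, true, false, [(0, 1), (3, 13)], []⟩,
  ⟨1230, 120, 0, 256, 145, true, true, false, [(0, 1), (3, 13)], []⟩,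
  ⟨1271, 120, 0, 256, 145, true, true, false, [(0, 1), (3, 13)], []⟩,
  ⟨1312, 120, 0, 240, 132, true, true, false, [(0, 1), (3, 15)], []⟩,
  ⟨1353, 120, 0, 240, 132, true, true, false, [(0, 2), (3, 14)], []⟩,
  ⟨1394, 120, 0, 224, 120, true, true, false, [(0, 2), (3, 15)], []⟩,
  ⟨1452, 120, 0, 224, 120, true, true, false, [(0, 2), (3, 15)], []⟩,
  ⟨1510, 120, 0, 224, 120, true, true, false, [(0, 2), (3, 15)], []⟩,
  ⟨1568, 120, 0, 224, 120, true, true, false, [(0, 2), (3, 15)], []⟩,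
  ⟨1626, 120, 0, 224, 120, true, true, false, [(0, 2), (3, 15)], []⟩,
  ⟨1684, 120, 0, 224, 120, true, true, false, [(0, 2), (3, 15)], []⟩,
  ⟨1742, 120, 0, 208, 109, true, true, false, [(0, 3), (3, 15)], []⟩,
  ⟨1782, 120, 0, 208, 109, true, true, false, [(0, 3), (3, 15)], []⟩,
  ⟨1822, 120, 0, 208, 109, true, true, false, [(0, 4), (3, 14)], []⟩,
  ⟨1862, 120, 0, 208, 109, true, true, false, [(0, 5), (3, 13)], []⟩,
  ⟨1890, 120, 0, 208, 109, true, true, false, [(0, 7), (3, 11)], []⟩,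
  ⟨1910, 120, 0, 208, 109, true, true, false, [(0, 11), (3, 7)], []⟩,
  ⟨1939, 120, 0, 208, 109, true, true, false, [(0, 18)], []⟩,
  ⟨2023, 120, 0, 192, 98, true, true, false, [(0, 19)], []⟩,
  ⟨2258, 120, 0, 176, 88, true, true, false, [(0, 20)], []⟩,
  ⟨2907, 120, 0, 128, 60, true, true, false, [(0, 24)], []⟩,
  ⟨6411, 120, 0, 0, 0, true, false, false, [(0, 34)], []⟩,
  ⟨8040, 120, 0, 0, 0, true, false, false, [(0, 34)], []⟩
  ] = true := by decide +kernel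

def g81_28 : Gr := ⟨false, 435, 441, 1024, 1024, 81, 85, 9216, 9441, 0, 2048, 0, []⟩

theorem k81_28 : chk g81_28 T425 [
  ⟨498, 120, 720, 28, 324, false, false, false, [(0, 1), (3, 3), (23, 3), (11, 2), (12, 2), (13, 2), (14, 2), (15, 2), (3, 15)], []⟩,
  ⟨846, 120, 720, 104, 232, false, false, false, [(0, 1), (3, 5), (7, 1), (3, 2), (8, 2), (13, 2), (14, 2), (15, 2), (3, 9)], []⟩,
  ⟨1016, 120, 720, 104, 216, false, false, false, [(0, 1), (3, 13), (14, 1), (3, 1), (15, 1), (3, 9)], []⟩,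
  ⟨1135, 120, 600, 208, 109, false, true, false, [(0, 1), (3, 15), (15, 1), (3, 1)], []⟩,
  ⟨1218, 120, 600, 208, 109, false, true, false, [(0, 1), (3, 17)], []⟩,
  ⟨1276, 120, 0, 240, 132, true, true, false, [(0, 1), (3, 15)], []⟩,
  ⟨1359, 120, 0, 240, 132, true, true, false, [(0, 1), (3, 15)], []⟩,
  ⟨1442, 120, 0, 224, 120, true, true, false, [(0, 2), (3, 15)], []⟩,
  ⟨1525, 120, 0, 224, 120, true, true, false, [(0, 2), (3, 15)], []⟩,
  ⟨1608, 120, 0, 224, 120, true, true, false, [(0, 2), (3, 15)], []⟩,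
  ⟨1691, 120, 0, 208, 109, true, true, false, [(0, 2), (3, 16)], []⟩,
  ⟨1774, 120, 0, 208, 109, true, true, false, [(0, 3), (3, 15)], []⟩,
  ⟨1857, 120, 0, 208, 109, true, true, false, [(0, 3), (3, 15)], []⟩,
  ⟨1915, 120, 0, 208, 109, true, true, false, [(0, 5), (3, 13)], []⟩,
  ⟨1973, 120, 0, 208, 109, true, true, false, [(0, 18)], []⟩,
  ⟨2089, 120, 0, 208, 109, true, true, false, [(0, 18)], []⟩,
  ⟨2319, 120, 0, 176, 88, true, true, false, [(0, 21)], []⟩,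
  ⟨2955, 120, 0, 120, 56, true, true, false, [(0, 25)], []⟩,
  ⟨6390, 120, 0, 0, 0, true, false, false, [(0, 34)], []⟩,
  ⟨8132, 120, 0, 0, 0, true, false, false, [(0, 34)], []⟩
  ] = true := by decide +kernel

def g81_29 : Gr := ⟨false, 441, 451, 1024, 1024, 81, 85, 9216, 9441, 0, 2048, 0, []⟩

theorem k81_29 : chk g81_29 T425 [
  ⟨498, 120, 720, 24, 336, false, false, false, [(0, 1), (3, 3), (23, 3), (11, 2), (12, 2), (13, 2), (14, 2), (15, 2), (3, 16)], []⟩,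
  ⟨846, 120, 720, 88, 256, false, false, false, [(0, 1), (3, 5), (7, 1), (3, 2), (8, 2), (13, 2), (14, 2), (15, 2), (3, 11)], []⟩,
  ⟨1016, 120, 720, 104, 224, false, false, false, [(0, 1), (3, 15), (15, 1), (3, 10)], []⟩,
  ⟨1135, 120, 600, 128, 192, false, false, false, [(0, 1), (3, 24)], []⟩,
  ⟨1218, 120, 600, 128, 184, false, false, false, [(0, 1), (3, 24)], []⟩,
  ⟨1276, 120, 0, 256, 145, true, true, false, [(0, 1), (3, 14)], []⟩,
  ⟨1334, 120, 0, 256, 145, true, true, false, [(0, 1), (3, 14)], []⟩,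
  ⟨1392, 120, 0, 240, 132, true, true, false, [(0, 2), (3, 15)], []⟩,
  ⟨1450, 120, 0, 240, 132, true, true, false, [(0, 2), (3, 15)], []⟩,
  ⟨1508, 120, 0, 224, 120, true, true, false, [(0, 2), (3, 16)], []⟩,
  ⟨1566, 120, 0, 224, 120, true, true, false, [(0, 2), (3, 16)], []⟩,
  ⟨1624, 120, 0, 224, 120, true, true, false, [(0, 2), (3, 16)], []⟩,
  ⟨1682, 120, 0, 224, 120, true, true, false, [(0, 2), (3, 16)], []⟩,
  ⟨1740, 120, 0, 224, 120, true, true, false, [(0, 2), (3, 16)], []⟩,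
  ⟨1798, 120, 0, 208, 109, true, true, false, [(0, 3), (3, 16)], []⟩,
  ⟨1856, 120, 0, 208, 109, true, true, false, [(0, 3), (3, 16)], []⟩,
  ⟨1897, 120, 0, 208, 109, true, true, false, [(0, 4), (3, 15)], []⟩,
  ⟨1925, 120, 0, 208, 109, true, true, false, [(0, 6), (3, 13)], []⟩,
  ⟨1953, 120, 0, 208, 109, true, true, false, [(0, 8), (3, 11)], []⟩,
  ⟨1981, 120, 0, 208, 109, true, true, false, [(0, 16), (3, 3)], []⟩,
  ⟨2039, 120, 0, 192, 98, true, true, false, [(0, 20)], []⟩,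
  ⟨2204, 120, 0, 192, 98, true, true, false, [(0, 20)], []⟩,
  ⟨2530, 120, 0, 160, 78, true, true, false, [(0, 23)], []⟩,
  ⟨3791, 120, 0, 88, 40, true, true, false, [(0, 28)], []⟩,
  ⟨7257, 120, 0, 0, 0, true, false, false, [(0, 35)], []⟩,
  ⟨8317, 120, 0, 0, 0, true, false, false, [(0, 35)], []⟩
  ] = true := by decide +kernel

def g81_30 : Gr := ⟨false, 451, 461, 1024, 1024, 81, 85, 9216, 9441, 0, 2048, 0, []⟩

theorem k81_30 : chk g81_30 T425 [
  ⟨498, 120, 720, 32, 336, false, false, false, [(0, 1), (3, 3), (23, 3), (11, 2), (12, 2), (13, 2), (14, 2), (15, 2), (3, 16)], []⟩,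
  ⟨846, 120, 720, 88, 264, false, false, false, [(0, 1), (3, 5), (7, 1), (3, 2), (8, 2), (13, 2), (14, 2), (15, 2), (3, 12)], []⟩,
  ⟨1016, 120, 720, 112, 224, false, false, false, [(0, 1), (3, 15), (15, 1), (3, 10)], []⟩,
  ⟨1186, 120, 720, 112, 208, false, false, false, [(0, 1), (3, 15), (15, 1), (3, 10)], []⟩,
  ⟨1269, 120, 600, 112, 200, false, false, false, [(0, 1), (3, 26)], []⟩,
  ⟨1352, 120, 0, 240, 132, true, true, false, [(0, 1), (3, 16)], []⟩,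
  ⟨1470, 120, 0, 240, 132, true, true, false, [(0, 2), (3, 15)], []⟩,
  ⟨1588, 120, 0, 240, 132, true, true, false, [(0, 2), (3, 15)], []⟩,
  ⟨1670, 120, 0, 240, 132, true, true, false, [(0, 2), (3, 15)], []⟩,
  ⟨1727, 120, 0, 224, 120, true, true, false, [(0, 2), (3, 17)], []⟩,
  ⟨1784, 120, 0, 224, 120, true, true, false, [(0, 3), (3, 16)], []⟩,
  ⟨1841, 120, 0, 224, 120, true, true, false, [(0, 3), (3, 16)], []⟩,
  ⟨1881, 120, 0, 208, 109, true, true, false, [(0, 3), (3, 17)], []⟩,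
  ⟨1921, 120, 0, 208, 109, true, true, false, [(0, 4), (3, 16)], []⟩,
  ⟨1961, 120, 0, 208, 109, true, true, false, [(0, 5), (3, 15)], []⟩,
  ⟨1989, 120, 0, 208, 109, true, true, false, [(0, 8), (3, 12)], []⟩,
  ⟨2008, 120, 0, 208, 109, true, true, false, [(0, 12), (3, 8)], []⟩,
  ⟨2036, 120, 0, 208, 109, true, true, false, [(0, 20)], []⟩,
  ⟨2119, 120, 0, 192, 98, true, true, false, [(0, 21)], []⟩,
  ⟨2352, 120, 0, 176, 88, true, true, false, [(0, 22)], []⟩,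
  ⟨2996, 120, 0, 128, 60, true, true, false, [(0, 26)], []⟩,
  ⟨6473, 120, 0, 0, 0, true, false, false, [(0, 36)], []⟩,
  ⟨8501, 120, 0, 0, 0, true, false, false, [(0, 36)], []⟩
  ] = true := by decide +kernel

def g81_31 : Gr := ⟨false, 460, 470, 1024, 1024, 81, 85, 9216, 9441, 0, 2048, 0, []⟩

theorem k81_31 : chk g81_31 T450 [
  ⟨698, 120, 600, 240, 148, false, true, false, [(0, 1), (3, 3), (25, 3), (12, 2), (13, 2), (14, 2), (15, 2), (16, 2), (17, 1)], []⟩,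
  ⟨1040, 120, 720, 120, 224, false, false, false, [(0, 1), (3, 5), (8, 1), (3, 2), (9, 2), (3, 2), (15, 2), (16, 2), (17, 2), (3, 8)], []⟩,
  ⟨1207, 120, 720, 120, 208, false, false, false, [(0, 1), (3, 15), (16, 1), (3, 1), (17, 1), (3, 8)], []⟩,
  ⟨1324, 120, 600, 120, 200, false, false, false, [(0, 1), (3, 15), (16, 1), (3, 10)], []⟩,
  ⟨1406, 120, 0, 240, 132, true, true, false, [(0, 1), (3, 17)], []⟩,
  ⟨1522, 120, 0, 240, 132, true, true, false, [(0, 2), (3, 16)], []⟩,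
  ⟨1638, 120, 0, 224, 120, true, true, false, [(0, 2), (3, 17)], []⟩,
  ⟨1754, 120, 0, 224, 120, true, true, false, [(0, 2), (3, 17)], []⟩,
  ⟨1870, 120, 0, 224, 120, true, true, false, [(0, 3), (3, 16)], []⟩,
  ⟨1951, 120, 0, 224, 120, true, true, false, [(0, 4), (3, 15)], []⟩,
  ⟨2007, 120, 0, 224, 120, true, true, false, [(0, 5), (3, 14)], []⟩,
  ⟨2046, 120, 0, 224, 120, true, true, false, [(0, 9), (3, 10)], []⟩,
  ⟨2073, 120, 0, 224, 120, true, true, false, [(0, 19)], []⟩,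
  ⟨2130, 120, 0, 208, 109, true, true, false, [(0, 21)], []⟩,
  ⟨2290, 120, 0, 192, 98, true, true, false, [(0, 22)], []⟩,
  ⟨2735, 120, 0, 160, 78, true, true, false, [(0, 24)], []⟩,
  ⟨4453, 120, 0, 44, 19, true, true, false, [(0, 33)], []⟩,
  ⟨7824, 120, 0, 0, 0, true, false, false, [(0, 37)], []⟩,
  ⟨8667, 120, 0, 0, 0, true, false, false, [(0, 37)], []⟩
  ] = true := by decide +kernel

def g81_32 : Gr := ⟨false, 470, 483, 1024, 1024, 81, 85, 9216, 9441, 0, 2048, 0, []⟩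

theorem k81_32 : chk g81_32 T450 [
  ⟨698, 120, 600, 256, 145, false, true, false, [(0, 1), (3, 3), (25, 3), (12, 2), (13, 2), (14, 2), (15, 2), (16, 2), (17, 1)], []⟩,
  ⟨1040, 120, 720, 120, 232, false, false, false, [(0, 1), (3, 5), (8, 1), (3, 3), (9, 1), (3, 2), (15, 2), (16, 2), (17, 2), (3, 9)], []⟩,
  ⟨1207, 120, 600, 120, 216, false, false, false, [(0, 1), (3, 15), (16, 1), (3, 11)], []⟩,
  ⟨1324, 120, 600, 120, 208, false, false, false, [(0, 1), (3, 27)], []⟩,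
  ⟨1406, 120, 0, 240, 132, true, true, false, [(0, 1), (3, 18)], []⟩,
  ⟨1522, 120, 0, 240, 132, true, true, false, [(0, 2), (3, 17)], []⟩,
  ⟨1638, 120, 0, 240, 132, true, true, false, [(0, 2), (3, 17)], []⟩,
  ⟨1754, 120, 0, 224, 120, true, true, false, [(0, 2), (3, 18)], []⟩,
  ⟨1870, 120, 0, 224, 120, true, true, false, [(0, 2), (3, 18)], []⟩,
  ⟨1986, 120, 0, 224, 120, true, true, false, [(0, 3), (3, 17)], []⟩,
  ⟨2042, 120, 0, 224, 120, true, true, false, [(0, 5), (3, 15)], []⟩,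
  ⟨2081, 120, 0, 224, 120, true, true, false, [(0, 8), (3, 12)], []⟩,
  ⟨2120, 120, 0, 224, 120, true, true, false, [(0, 20)], []⟩,
  ⟨2176, 120, 0, 208, 109, true, true, false, [(0, 22)], []⟩,
  ⟨2336, 120, 0, 192, 98, true, true, false, [(0, 23)], []⟩,
  ⟨2779, 120, 0, 160, 78, true, true, false, [(0, 25)], []⟩,
  ⟨4489, 120, 0, 44, 19, true, true, false, [(0, 34)], []⟩,
  ⟨7844, 120, 0, 0, 0, true, false, false, [(0, 38)], []⟩,
  ⟨8907, 120, 0, 0, 0, true, false, false, [(0, 38)], []⟩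
  ] = true := by decide +kernel

def g81_33 : Gr := ⟨false, 483, 487, 1024, 1024, 81, 85, 9216, 9441, 0, 2048, 0, []⟩

theorem k81_33 : chk g81_33 T450 [
  ⟨698, 120, 600, 240, 172, false, true, false, [(0, 1), (3, 3), (25, 3), (12, 2), (13, 2), (14, 2), (15, 2), (16, 2), (17, 2)], []⟩,
  ⟨1040, 120, 720, 112, 252, false, true, false, [(0, 1), (3, 5), (8, 1), (3, 3), (9, 1), (3, 2), (15, 2), (16, 2), (17, 2), (3, 10)], []⟩,
  ⟨1279, 120, 720, 112, 228, false, true, false, [(0, 1), (3, 15), (16, 1), (3, 12)], []⟩,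
  ⟨1446, 120, 0, 256, 145, true, true, false, [(0, 1), (3, 17)], []⟩,
  ⟨1681, 120, 0, 240, 132, true, true, false, [(0, 2), (3, 17)], []⟩,
  ⟨1846, 120, 0, 240, 132, true, true, false, [(0, 2), (3, 17)], []⟩,
  ⟨2011, 120, 0, 224, 120, true, true, false, [(0, 3), (3, 18)], []⟩,
  ⟨2126, 120, 0, 208, 109, true, true, false, [(0, 5), (3, 17)], []⟩,
  ⟨2288, 120, 0, 208, 109, true, true, false, [(0, 22)], []⟩,
  ⟨2738, 120, 0, 176, 88, true, true, false, [(0, 24)], []⟩,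
  ⟨4477, 120, 0, 60, 27, true, true, false, [(0, 33)], []⟩,
  ⟨7888, 120, 0, 0, 0, true, false, false, [(0, 38)], []⟩,
  ⟨8981, 120, 0, 0, 0, true, false, false, [(0, 38)], []⟩
  ] = true := by decide +kernel

def g81_34 : Gr := ⟨false, 486, 506, 1024, 1024, 81, 85, 9216, 9441, 0, 2048, 0, []⟩

theorem k81_34 : chk g81_34 T475 [
  ⟨698, 120, 720, 40, 336, false, false, false, [(0, 1), (3, 3), (27, 3), (13, 2), (14, 2), (15, 2), (16, 2), (17, 2), (18, 2), (19, 2), (3, 15)], []⟩,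
  ⟨1040, 120, 720, 104, 256, false, false, false, [(0, 1), (3, 5), (8, 1), (3, 2), (9, 2), (3, 2), (10, 2), (17, 2), (18, 2), (19, 2), (3, 10)], []⟩,
  ⟨1279, 120, 720, 104, 240, false, false, false, [(0, 1), (3, 9), (9, 1), (3, 3), (10, 1), (3, 1), (17, 1), (18, 2), (3, 1), (19, 1), (3, 10)], []⟩,
  ⟨1396, 120, 600, 120, 208, false, false, false, [(0, 1), (3, 17), (18, 1), (3, 11)], []⟩,
  ⟨1513, 120, 600, 144, 181, false, true, false, [(0, 2), (3, 16), (18, 1), (3, 9)], []⟩,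
  ⟨1595, 120, 0, 240, 132, true, true, false, [(0, 2), (3, 19)], []⟩,
  ⟨1677, 120, 0, 240, 132, true, true, false, [(0, 2), (3, 19)], []⟩,
  ⟨1759, 120, 0, 224, 120, true, true, false, [(0, 2), (3, 20)], []⟩,
  ⟨1841, 120, 0, 224, 120, true, true, false, [(0, 2), (3, 20)], []⟩,
  ⟨1923, 120, 0, 224, 120, true, true, false, [(0, 3), (3, 19)], []⟩,
  ⟨2005, 120, 0, 224, 120, true, true, false, [(0, 3), (3, 19)], []⟩,
  ⟨2062, 120, 0, 208, 109, true, true, false, [(0, 4), (3, 19)], []⟩,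
  ⟨2119, 120, 0, 208, 109, true, true, false, [(0, 5), (3, 18)], []⟩,
  ⟨2159, 120, 0, 208, 109, true, true, false, [(0, 10), (3, 13)], []⟩,
  ⟨2240, 120, 0, 208, 109, true, true, false, [(0, 23)], []⟩,
  ⟨2401, 120, 0, 208, 109, true, true, false, [(0, 23)], []⟩,
  ⟨2849, 120, 0, 160, 78, true, true, false, [(0, 27)], []⟩,
  ⟨4578, 120, 0, 52, 23, true, true, false, [(0, 35)], []⟩,
  ⟨7969, 120, 0, 0, 0, true, false, false, [(0, 39)], []⟩,
  ⟨9331, 120, 0, 0, 0, true, false, false, [(0, 39)], []⟩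
  ] = true := by decide +kernel

def g81_35 : Gr := ⟨false, 506, 512, 1024, 1024, 81, 85, 9216, 9441, 0, 2048, 0, []⟩

theorem k81_35 : chk g81_35 T475 [
  ⟨698, 120, 720, 44, 348, false, false, false, [(0, 1), (3, 3), (27, 3), (13, 2), (14, 2), (15, 2), (16, 2), (17, 2), (18, 2), (19, 2), (3, 15)], []⟩,
  ⟨1186, 120, 720, 112, 256, false, false, false, [(0, 1), (3, 5), (8, 1), (3, 2), (9, 2), (3, 1), (10, 3), (17, 2), (18, 2), (19, 2), (3, 10)], []⟩,
  ⟨1425, 120, 600, 112, 232, false, false, false, [(0, 1), (3, 17), (18, 1), (3, 12)], []⟩,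
  ⟨1592, 120, 0, 240, 132, true, true, false, [(0, 2), (3, 19)], []⟩,
  ⟨1827, 120, 0, 240, 132, true, true, false, [(0, 2), (3, 19)], []⟩,
  ⟨2062, 120, 0, 240, 132, true, true, false, [(0, 2), (3, 19)], []⟩,
  ⟨2227, 120, 0, 224, 120, true, true, false, [(0, 4), (3, 19)], []⟩,
  ⟨2459, 120, 0, 208, 109, true, true, false, [(0, 24)], []⟩,
  ⟨3100, 120, 0, 160, 78, true, true, false, [(0, 28)], []⟩,
  ⟨6559, 120, 0, 0, 0, true, false, false, [(0, 40)], []⟩,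
  ⟨9442, 120, 0, 0, 0, true, false, false, [(0, 40)], []⟩
  ] = true := by decide +kernel

def g81_36 : Gr := ⟨false, 512, 538, 1024, 1024, 81, 85, 9216, 9441, 0, 2048, 0, []⟩

theorem k81_36 : chk g81_36 T500 [
  ⟨698, 120, 720, 44, 356, false, false, false, [(0, 1), (3, 3), (28, 3), (14, 2), (15, 2), (16, 2), (17, 2), (18, 2), (19, 2), (20, 2), (21, 2), (3, 15)], []⟩,
  ⟨1186, 120, 720, 112, 260, false, true, false, [(0, 1), (3, 4), (9, 2), (3, 1), (10, 3), (11, 4), (18, 2), (19, 2), (20, 2), (21, 2), (3, 10)], []⟩,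
  ⟨1425, 120, 600, 112, 240, false, false, false, [(0, 1), (3, 9), (10, 1), (3, 3), (11, 1), (3, 2), (19, 2), (20, 2), (3, 12)], []⟩,
  ⟨1592, 120, 600, 128, 208, false, false, false, [(0, 2), (3, 12), (11, 1), (3, 3), (19, 1), (3, 1), (20, 1), (3, 11)], []⟩,
  ⟨1759, 120, 0, 240, 132, true, true, false, [(0, 2), (3, 16), (19, 1), (3, 1), (20, 1), (3, 2)], []⟩,
  ⟨1926, 120, 0, 240, 132, true, true, false, [(0, 2), (3, 16), (12, 1), (3, 1), (20, 1), (3, 1), (21, 1)], []⟩,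
  ⟨2043, 120, 0, 240, 132, true, true, false, [(0, 3), (3, 17), (20, 1), (3, 2)], []⟩,
  ⟨2125, 120, 0, 240, 132, true, true, false, [(0, 3), (3, 20)], []⟩,
  ⟨2182, 120, 0, 224, 120, true, true, false, [(0, 4), (3, 21)], []⟩,
  ⟨2239, 120, 0, 224, 120, true, true, false, [(0, 6), (3, 19)], []⟩,
  ⟨2267, 120, 0, 224, 120, true, true, false, [(0, 11), (3, 14)], []⟩,
  ⟨2295, 120, 0, 224, 120, true, true, false, [(0, 19), (3, 6)], []⟩,
  ⟨2376, 120, 0, 208, 109, true, true, false, [(0, 26)], []⟩,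
  ⟨2604, 120, 0, 192, 98, true, true, false, [(0, 27)], []⟩,
  ⟨3235, 120, 0, 144, 69, true, true, false, [(0, 31)], []⟩,
  ⟨6642, 120, 0, 0, 0, true, false, false, [(0, 42)], []⟩,
  ⟨9921, 120, 0, 0, 0, true, false, false, [(0, 42)], []⟩
  ] = true := by decide +kernel

def g81_37 : Gr := ⟨false, 537, 564, 1024, 1024, 81, 85, 9216, 9441, 0, 1954, 0, []⟩

theorem k81_37 : chk g81_37 T525 [
  ⟨978, 120, 720, 96, 312, false, false, false, [(0, 1), (3, 3), (29, 3), (14, 2), (15, 2), (16, 2), (17, 2), (18, 2), (19, 2), (20, 2), (21, 2), (22, 1), (3, 12)], []⟩,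
  ⟨1457, 120, 720, 112, 256, false, false, false, [(0, 1), (3, 5), (9, 1), (3, 2), (10, 2), (3, 1), (11, 3), (18, 2), (19, 2), (20, 2), (21, 2), (22, 1), (3, 11)], []⟩,
  ⟨1692, 120, 600, 128, 220, false, true, false, [(0, 2), (3, 12), (11, 1), (3, 3), (12, 1), (20, 2), (21, 2), (3, 11)], []⟩,
  ⟨1927, 120, 0, 240, 132, true, true, false, [(0, 2), (3, 12), (11, 1), (3, 3), (12, 1), (20, 2), (3, 1), (21, 1), (3, 2)], []⟩,
  ⟨2162, 120, 0, 240, 132, true, true, false, [(0, 3), (3, 15), (12, 1), (3, 1), (20, 1), (3, 1), (21, 1), (3, 2)], []⟩,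
  ⟨2326, 120, 0, 240, 132, true, true, false, [(0, 4), (3, 14), (7, 1), (3, 1), (20, 1), (3, 1), (21, 1), (3, 2)], []⟩,
  ⟨2406, 120, 0, 224, 120, true, true, false, [(0, 11), (3, 11), (21, 1), (3, 4)], []⟩,
  ⟨2631, 120, 0, 208, 109, true, true, false, [(0, 28)], []⟩,
  ⟨3254, 120, 0, 160, 78, true, true, false, [(0, 32)], []⟩,
  ⟨6617, 120, 0, 6, 3, true, true, false, [(0, 43)], []⟩,
  ⟨9923, 120, 0, 0, 0, true, false, false, [(0, 44)], []⟩
  ] = true := by decide +kernel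

def g81_38 : Gr := ⟨false, 563, 589, 1024, 1024, 81, 85, 9216, 9441, 0, 1864, 0, []⟩

theorem k81_38 : chk g81_38 T550 [
  ⟨978, 120, 720, 96, 328, false, false, false, [(0, 1), (3, 3), (32, 3), (16, 2), (17, 2), (18, 2), (19, 2), (20, 2), (21, 2), (22, 2), (23, 2), (24, 1), (25, 2), (3, 12)], []⟩,
  ⟨1457, 120, 600, 112, 276, false, true, false, [(0, 1), (3, 5), (10, 1), (3, 2), (11, 2), (3, 1), (12, 3), (13, 2), (21, 2), (22, 2), (23, 2), (24, 1), (3, 13)], []⟩,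
  ⟨1792, 120, 0, 256, 145, true, true, true, [(0, 2), (3, 8), (11, 1), (3, 3), (12, 1), (3, 2), (13, 2), (22, 2), (23, 2)], [(24, 1), (3, 2)]⟩,
  ⟨2127, 120, 0, 240, 132, true, true, false, [(0, 2), (3, 12), (12, 1), (3, 3), (13, 1), (22, 2), (23, 2), (24, 1), (3, 3)], []⟩,
  ⟨2362, 120, 0, 240, 132, true, true, false, [(0, 3), (3, 11), (6, 1), (3, 3), (13, 1), (3, 1), (22, 1), (3, 1), (23, 1), (3, 4)], []⟩,
  ⟨2526, 120, 0, 240, 132, true, true, false, [(0, 7), (3, 7), (6, 1), (3, 3), (7, 1), (3, 3), (23, 1), (3, 4)], []⟩,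
  ⟨2850, 120, 0, 208, 109, true, true, false, [(0, 30)], []⟩,
  ⟨3745, 120, 0, 128, 60, true, true, false, [(0, 36)], []⟩,
  ⟨7193, 120, 0, 0, 0, true, false, false, [(0, 46)], []⟩,
  ⟨9886, 120, 0, 0, 0, true, false, false, [(0, 46)], []⟩
  ] = true := by decide +kernel

def g81_39 : Gr := ⟨false, 588, 614, 1024, 1024, 81, 85, 9216, 9441, 0, 1785, 0, []⟩

theorem k81_39 : chk g81_39 T575 [
  ⟨978, 120, 720, 44, 380, false, false, true, [(0, 1), (3, 3), (33, 3), (16, 2), (17, 2), (18, 2), (19, 2), (20, 2), (21, 2), (22, 2), (23, 2), (24, 1), (25, 2), (3, 14)], [(3, 4)]⟩,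
  ⟨1663, 120, 600, 160, 240, false, false, false, [(0, 1), (3, 4), (10, 2), (3, 1), (11, 3), (12, 4), (13, 4), (22, 2), (23, 2), (24, 1), (25, 2), (3, 1), (26, 1), (3, 7)], []⟩,
  ⟨2142, 120, 0, 240, 132, true, true, true, [(0, 2), (3, 4), (4, 1), (3, 3), (5, 1), (3, 2), (12, 2), (3, 2), (13, 2), (22, 2), (23, 2), (24, 1), (25, 2)], [(3, 1), (26, 1), (3, 1)]⟩,
  ⟨2613, 120, 0, 224, 120, true, true, true, [(0, 3), (3, 7), (5, 1), (3, 3), (6, 1), (3, 2), (7, 1), (13, 1), (3, 1), (22, 1), (23, 2), (24, 1), (25, 2), (26, 1)], [(26, 1), (3, 1), (27, 1)]⟩,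
  ⟨3084, 120, 0, 208, 109, true, true, false, [(0, 32)], []⟩,
  ⟨4380, 120, 0, 96, 44, true, true, false, [(0, 40)], []⟩,
  ⟨7943, 120, 0, 0, 0, true, false, false, [(0, 48)], []⟩,
  ⟨9868, 120, 0, 0, 0, true, false, false, [(0, 48)], []⟩
  ] = true := by decide +kernel

def g81_40 : Gr := ⟨false, 614, 640, 1024, 1024, 81, 85, 9216, 9441, 0, 1709, 0, []⟩

theorem k81_40 : chk g81_40 T600 [
  ⟨1371, 120, 720, 120, 320, false, false, false, [(0, 1), (3, 3), (35, 3), (17, 2), (18, 2), (19, 2), (20, 2), (21, 2), (22, 2), (23, 2), (24, 2), (25, 1), (26, 2), (27, 2), (28, 2), (3, 10)], []⟩,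
  ⟨2043, 120, 0, 256, 145, true, true, true, [(0, 2), (3, 4), (4, 1), (3, 2), (12, 2), (3, 1), (13, 3), (14, 4), (23, 2), (24, 2), (25, 1), (26, 2)], [(27, 2), (3, 1), (28, 1)]⟩,
  ⟨2715, 120, 0, 224, 120, true, true, true, [(0, 3), (3, 3), (4, 1), (3, 3), (5, 1), (3, 2), (6, 2), (3, 2), (14, 2), (3, 1), (15, 3), (25, 1), (26, 2), (27, 2)], [(28, 2), (29, 2)]⟩,
  ⟨3185, 120, 0, 208, 109, true, true, false, [(0, 18), (7, 1), (0, 3), (8, 1), (0, 11)], []⟩,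
  ⟨4480, 120, 0, 96, 44, true, true, false, [(0, 42)], []⟩,
  ⟨8038, 120, 0, 0, 0, true, false, false, [(0, 50)], []⟩,
  ⟨9848, 120, 0, 0, 0, true, false, false, [(0, 50)], []⟩
  ] = true := by decide +kernel

def g81_41 : Gr := ⟨false, 640, 666, 1024, 1024, 81, 85, 9216, 9441, 0, 1640, 0, []⟩

theorem k81_41 : chk g81_41 T625 [
  ⟨1371, 120, 720, 120, 336, false, false, false, [(0, 1), (3, 3), (36, 3), (17, 2), (18, 2), (19, 2), (20, 2), (21, 2), (22, 2), (23, 2), (24, 2), (25, 1), (26, 2), (27, 2), (28, 2), (29, 2), (3, 10)], []⟩,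
  ⟨2331, 120, 0, 256, 145, true, true, true, [(0, 2), (3, 4), (4, 1), (3, 2), (12, 2), (13, 4), (14, 4), (23, 2), (24, 2), (25, 1), (26, 2)], [(27, 2), (28, 2), (29, 2)]⟩,
  ⟨3003, 120, 0, 224, 120, true, true, true, [(0, 6), (4, 1), (0, 2), (5, 2), (0, 1), (6, 3), (7, 4), (8, 2), (15, 2), (25, 1), (26, 2), (27, 2), (28, 2), (29, 1)], [(29, 1), (30, 2)]⟩,
  ⟨3944, 120, 0, 160, 78, true, true, false, [(0, 39)], []⟩,
  ⟨7569, 120, 0, 0, 0, true, false, false, [(0, 52)], []⟩,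
  ⟨9835, 120, 0, 0, 0, true, false, false, [(0, 52)], []⟩
  ] = true := by decide +kernel

def g81_42 : Gr := ⟨false, 665, 692, 1024, 1024, 81, 85, 9216, 9441, 0, 1578, 0, []⟩

theorem k81_42 : chk g81_42 T650 [
  ⟨1371, 120, 600, 120, 352, false, false, true, [(0, 1), (3, 3), (39, 3), (19, 2), (20, 2), (21, 2), (22, 2), (23, 2), (24, 2), (25, 2), (26, 2), (27, 1), (28, 2), (29, 2), (30, 2), (31, 2), (3, 8)], [(3, 4)]⟩,
  ⟨2742, 120, 0, 224, 144, true, true, true, [(0, 2), (3, 3), (4, 1), (12, 1), (3, 1), (5, 1), (13, 2), (14, 4), (15, 4), (16, 4), (27, 1), (28, 2), (29, 2)], [(30, 2), (31, 2), (32, 2), (33, 2)]⟩,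
  ⟨3414, 120, 0, 224, 120, true, true, false, [(0, 10), (5, 1), (0, 3), (6, 1), (0, 2), (7, 2), (0, 2), (8, 2), (0, 1), (9, 2), (29, 2), (30, 2), (31, 2), (32, 2), (33, 2)], []⟩,
  ⟨4733, 120, 0, 72, 72, true, false, false, [(0, 48)], []⟩,
  ⟨8358, 120, 0, 0, 0, true, false, false, [(0, 54)], []⟩,
  ⟨9832, 120, 0, 0, 0, true, false, false, [(0, 54)], []⟩
  ] = true := by decide +kernel

def g81_43 : Gr := ⟨false, 691, 717, 1024, 1024, 81, 85, 9216, 9441, 0, 1519, 0, []⟩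

theorem k81_43 : chk g81_43 T675 [
  ⟨1921, 120, 600, 256, 217, false, true, false, [(0, 1), (3, 3), (40, 3), (19, 2), (20, 2), (21, 2), (22, 2), (23, 2), (24, 2), (25, 2), (26, 2), (27, 1), (28, 2), (29, 2), (30, 2), (31, 2), (32, 2), (33, 2)], []⟩,
  ⟨3265, 120, 0, 224, 120, true, true, true, [(0, 5), (4, 2), (5, 4), (6, 3), (14, 1), (7, 1), (15, 3), (16, 4), (27, 1), (28, 2), (29, 2), (30, 2), (31, 2), (32, 2)], [(33, 2), (34, 2)]⟩,
  ⟨4609, 120, 0, 144, 69, true, true, false, [(0, 45)], []⟩,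
  ⟨8303, 120, 0, 0, 0, true, false, false, [(0, 56)], []⟩,
  ⟨9807, 120, 0, 0, 0, true, false, false, [(0, 56)], []⟩
  ] = true := by decide +kernel

def g81_44 : Gr := ⟨false, 716, 743, 1024, 1024, 81, 85, 9216, 9441, 0, 1466, 0, []⟩

theorem k81_44 : chk g81_44 T700 [
  ⟨1921, 120, 600, 256, 241, false, true, false, [(0, 1), (3, 3), (41, 3), (19, 2), (20, 2), (21, 2), (22, 2), (23, 2), (24, 2), (25, 2), (26, 2), (27, 1), (28, 2), (29, 2), (30, 2), (31, 2), (32, 2), (33, 2), (34, 2)], []⟩,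
  ⟨3842, 120, 0, 208, 109, true, true, true, [(0, 5), (4, 2), (5, 4), (6, 3), (14, 1), (7, 1), (15, 3), (16, 4), (27, 1), (28, 2), (29, 2), (30, 2), (31, 2), (32, 2), (33, 2)], [(34, 2), (35, 2), (36, 2)]⟩,
  ⟨5763, 120, 0, 28, 52, true, false, false, [(0, 55)], []⟩,
  ⟨9530, 120, 0, 0, 0, true, false, false, [(0, 58)], []⟩,
  ⟨9808, 120, 0, 0, 0, true, false, true, [(0, 51)], [(0, 7)]⟩
  ] = true := by decide +kernel

def g81_45 : Gr := ⟨false, 742, 768, 1024, 1024, 81, 85, 9216, 9441, 0, 1415, 0, []⟩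

theorem k81_45 : chk g81_45 T725 [
  ⟨1921, 120, 600, 160, 336, false, false, true, [(0, 1), (3, 3), (44, 3), (21, 2), (22, 2), (23, 2), (24, 2), (25, 2), (26, 2), (27, 2), (28, 2), (29, 1), (30, 2), (31, 2), (32, 2), (33, 2), (34, 2), (35, 2), (36, 2), (37, 2), (3, 3)], [(3, 4)]⟩,
  ⟨3842, 120, 0, 176, 144, true, true, true, [(0, 4), (4, 3), (5, 4), (6, 3), (15, 1), (7, 1), (16, 3), (17, 4), (18, 3), (31, 2), (32, 2), (33, 2), (34, 2), (35, 2), (36, 2), (37, 2)], [(38, 2), (39, 2), (40, 2)]⟩,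
  ⟨5763, 120, 0, 56, 49, true, true, false, [(0, 55)], []⟩,
  ⟨9530, 120, 0, 0, 0, true, false, true, [(0, 55)], [(0, 5)]⟩,
  ⟨9785, 120, 0, 0, 0, true, false, true, [(0, 51)], [(0, 9)]⟩
  ] = true := by decide +kernel

def g81_46 : Gr := ⟨false, 768, 794, 1024, 1024, 81, 85, 9216, 9441, 0, 1367, 0, []⟩

theorem k81_46 : chk g81_46 T750 [
  ⟨2690, 120, 600, 224, 240, false, false, true, [(2, 4), (45, 3), (21, 2), (22, 2), (23, 2), (24, 2), (25, 2), (26, 2), (27, 2), (28, 2), (29, 1), (30, 2), (31, 2), (32, 2), (33, 2), (34, 2), (35, 2), (36, 2), (37, 2)], [(38, 2), (39, 2)]⟩,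
  ⟨4573, 120, 0, 176, 88, true, true, true, [(0, 6), (4, 1), (0, 2), (5, 2), (6, 4), (7, 4), (8, 4), (9, 2), (18, 1), (31, 2), (32, 2), (33, 2), (34, 2), (35, 2), (36, 2), (37, 2), (38, 2), (39, 2)], [(40, 2), (41, 2)]⟩,
  ⟨8266, 120, 0, 0, 0, true, false, false, [(0, 62)], []⟩,
  ⟨9773, 120, 0, 0, 0, true, false, false, [(0, 62)], []⟩
  ] = true := by decide +kernel

def g81_47 : Gr := ⟨false, 793, 820, 1024, 1024, 81, 85, 9216, 9441, 0, 1324, 0, []⟩

theorem k81_47 : chk g81_47 T775 [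
  ⟨2690, 120, 600, 224, 264, false, false, true, [(2, 4), (45, 3), (21, 2), (22, 2), (23, 2), (24, 2), (25, 2), (26, 2), (27, 2), (28, 2), (29, 1), (30, 2), (31, 2), (32, 2), (33, 2), (34, 2), (35, 2), (36, 2), (37, 2), (38, 2)], [(39, 2), (40, 2)]⟩,
  ⟨4573, 120, 0, 208, 109, true, true, false, [(0, 6), (4, 1), (0, 1), (5, 3), (6, 4), (7, 4), (8, 4), (9, 3), (31, 2), (19, 2), (33, 2), (34, 2), (35, 2), (36, 2), (37, 2), (38, 2), (39, 2), (40, 2), (41, 2)], []⟩,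
  ⟨8266, 120, 0, 0, 0, true, false, false, [(0, 64)], []⟩,
  ⟨9776, 120, 0, 0, 0, true, false, false, [(0, 64)], []⟩
  ] = true := by decide +kernel

end Pool.Agent.Lib.MP_af3a4a_an.P1.CHK.H81.L
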