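import Pool.Agent.Lib.MP_af3a4a_an.P1.CHK.H81.DX
import Pool.Agent.Lib.MP_af3a4a_an.P1.CHK.H81.D81a
import Pool.Agent.Lib.MP_af3a4a_an.P1.CHK.H81.D81b
import Pool.Agent.Lib.MP_af3a4a_an.P1.CHK.H81.LW

/-!
# `81 ≤ N ≤ 85`, `R ≤ 4/5` (helper81)
-/

set_option autoImplicit false

namespace Pool.Agent.Lib.MP_af3a4a_an.P1.CHK.H81.L

open Pool.Agent.Lib.MP_af3a4a_an.SV (uu av)
open Pool.Agent.Lib.MP_af3a4a_an.P1.H80
open Pool.Agent.Lib.MP_af3a4a_an.P1.H74

theorem blk81 {N : ℕ} {z w : Fin N → ℂ} {R : ℝ} {σ : Fin N → ℂ} (hC : Cfg2 N z w R σ)
    (h0 : 81 ≤ N) (h1 : N ≤ 85) (hR : R ≤ 4 / 5) : False := by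
  rcases le_or_gt R (259 / 1000) with r0 | r0
  · exact C0.c0_80_6 hC (by omega) (by omega) r0
  rcases le_or_gt R (271 / 1024) with r1 | r1
  · exact win k81_0 rfl rfl hC h0 h1 (by norm_num [g81_0]; linarith only [r0]) (by norm_num [g81_0]; linarith only [r1])
      (by linarith only [r1]) (Or.inr (f0_of (κ := 5 / 8) (Rk := 53 / 200) (by norm_num [g81_0]) (by norm_num)
        (fun hm => C0.c0_80_5 hC (by omega) (by omega) (by linarith only [r1])
          (by linarith only [hm])) (by linarith only [r1])))
      (Or.inr (by decide))
      (profL_nil _ _ _)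
  rcases le_or_gt R (279 / 1024) with r2 | r2
  · exact win k81_1 rfl rfl hC h0 h1 (by norm_num [g81_1]; linarith only [r1]) (by norm_num [g81_1]; linarith only [r2])
      (by linarith only [r2]) (Or.inr (f0_of (κ := 1 / 2) (Rk := 139 / 500) (by norm_num [g81_1]) (by norm_num)
        (fun hm => C0.c0_80_4 hC (by omega) (by omega) (by linarith only [r2])
          (by linarith only [hm])) (by linarith only [r2])))
      (Or.inr (by decide))
      (profL_nil _ _ _)
  rcases le_or_gt R (289 / 1024) with r3 | r3
  · exact win k81_2 rfl rfl hC h0 h1 (by norm_num [g81_2]; linarith only [r2]) (by norm_num [g81_2]; linarith only [r3])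
      (by linarith only [r3]) (Or.inr (f0_of (κ := 3 / 8) (Rk := 147 / 500) (by norm_num [g81_2]) (by norm_num)
        (fun hm => C0.c0_80_3 hC (by omega) (by omega) (by linarith only [r3])
          (by linarith only [hm])) (by linarith only [r3])))
      (Or.inr (by decide))
      (profL_nil _ _ _)
  rcases le_or_gt R (295 / 1024) with r4 | r4
  · exact win k81_3 rfl rfl hC h0 h1 (by norm_num [g81_3]; linarith only [r3]) (by norm_num [g81_3]; linarith only [r4])
      (by linarith only [r4]) (Or.inr (f0_of (κ := 3 / 8) (Rk := 147 / 500) (by norm_num [g81_3]) (by norm_num)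
        (fun hm => C0.c0_80_3 hC (by omega) (by omega) (by linarith only [r4])
          (by linarith only [hm])) (by linarith only [r4])))
      (Or.inr (by decide))
      (profL_nil _ _ _)
  rcases le_or_gt R (301 / 1024) with r5 | r5
  · exact win k81_4 rfl rfl hC h0 h1 (by norm_num [g81_4]; linarith only [r4]) (by norm_num [g81_4]; linarith only [r5])
      (by linarith only [r5]) (Or.inr (f0_of (κ := 3 / 8) (Rk := 147 / 500) (by norm_num [g81_4]) (by norm_num)
        (fun hm => C0.c0_80_3 hC (by omega) (by omega) (by linarith only [r5])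
          (by linarith only [hm])) (by linarith only [r5])))
      (Or.inr (by decide))
      (profL_nil _ _ _)
  rcases le_or_gt R (3 / 10) with r6 | r6
  · exact win k81_5 rfl rfl hC h0 h1 (by norm_num [g81_5]; linarith only [r5]) (by norm_num [g81_5]; linarith only [r6])
      (by linarith only [r6]) (Or.inr (f0_of (κ := 1 / 4) (Rk := 313 / 1000) (by norm_num [g81_5]) (by norm_num)
        (fun hm => C0.c0_80_2 hC (by omega) (by omega) (by linarith only [r6])
          (by linarith only [hm])) (by linarith only [r6])))
      (Or.inr (by decide))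
      (profL_nil _ _ _)
  rcases le_or_gt R (313 / 1024) with r7 | r7
  · exact win k81_6 rfl rfl hC h0 h1 (by norm_num [g81_6]; linarith only [r6]) (by norm_num [g81_6]; linarith only [r7])
      (by linarith only [r7]) (Or.inr (f0_of (κ := 1 / 4) (Rk := 313 / 1000) (by norm_num [g81_6]) (by norm_num)
        (fun hm => C0.c0_80_2 hC (by omega) (by omega) (by linarith only [r7])
          (by linarith only [hm])) (by linarith only [r7])))
      (Or.inr (by decide))
      (T300_ok (by linarith only [r6]) (by linarith only [r7]) (by omega) hC.cfg.far hC.dist.le)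
  rcases le_or_gt R (159 / 512) with r8 | r8
  · exact win k81_7 rfl rfl hC h0 h1 (by norm_num [g81_7]; linarith only [r7]) (by norm_num [g81_7]; linarith only [r8])
      (by linarith only [r8]) (Or.inr (f0_of (κ := 1 / 4) (Rk := 313 / 1000) (by norm_num [g81_7]) (by norm_num)
        (fun hm => C0.c0_80_2 hC (by omega) (by omega) (by linarith only [r8])
          (by linarith only [hm])) (by linarith only [r8])))
      (Or.inr (by decide))
      (T300_ok (by linarith only [r7]) (by linarith only [r8]) (by omega) hC.cfg.far hC.dist.le)
  rcases le_or_gt R (81 / 256) with r9 | r9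
  · exact win k81_8 rfl rfl hC h0 h1 (by norm_num [g81_8]; linarith only [r8]) (by norm_num [g81_8]; linarith only [r9])
      (by linarith only [r9]) (Or.inr (f0_of (κ := 1 / 8) (Rk := 167 / 500) (by norm_num [g81_8]) (by norm_num)
        (fun hm => C0.c0_80_1 hC (by omega) (by omega) (by linarith only [r9])
          (by linarith only [hm])) (by linarith only [r9])))
      (Or.inr (by decide))
      (T300_ok (by linarith only [r8]) (by linarith only [r9]) (by omega) hC.cfg.far hC.dist.le)
  rcases le_or_gt R (83 / 256) with r10 | r10
  · exact win k81_9 rfl rfl hC h0 h1 (by norm_num [g81_9]; linarith only [r9]) (by norm_num [g81_9]; linarith only [r10])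
      (by linarith only [r10]) (Or.inr (f0_of (κ := 1 / 8) (Rk := 167 / 500) (by norm_num [g81_9]) (by norm_num)
        (fun hm => C0.c0_80_1 hC (by omega) (by omega) (by linarith only [r10])
          (by linarith only [hm])) (by linarith only [r10])))
      (Or.inl ⟨rfl, by decide, by decide⟩)
      (T300_ok (by linarith only [r9]) (by linarith only [r10]) (by omega) hC.cfg.far hC.dist.le)
  rcases le_or_gt R (13 / 40) with r11 | r11
  · exact win kx81_9 rfl rfl hC h0 h1 (by norm_num [gx81_9]; linarith only [r10]) (by norm_num [gx81_9]; linarith only [r11])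
      (by linarith only [r11]) (Or.inr (f0_of (κ := 1 / 8) (Rk := 167 / 500) (by norm_num [gx81_9]) (by norm_num)
        (fun hm => C0.c0_80_1 hC (by omega) (by omega) (by linarith only [r11])
          (by linarith only [hm])) (by linarith only [r11])))
      (Or.inl ⟨rfl, by decide, by decide⟩)
      (T300_ok (by linarith only [r10]) (by linarith only [r11]) (by omega) hC.cfg.far hC.dist.le)
  rcases le_or_gt R (169 / 512) with r12 | r12
  · exact win k81_10 rfl rfl hC h0 h1 (by norm_num [g81_10]; linarith only [r11]) (by norm_num [g81_10]; linarith only [r12])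
      (by linarith only [r12]) (Or.inr (f0_of (κ := 1 / 8) (Rk := 167 / 500) (by norm_num [g81_10]) (by norm_num)
        (fun hm => C0.c0_80_1 hC (by omega) (by omega) (by linarith only [r12])
          (by linarith only [hm])) (by linarith only [r12])))
      (Or.inl ⟨rfl, by decide, by decide⟩)
      (T325_ok (by linarith only [r11]) (by linarith only [r12]) (by omega) hC.cfg.far hC.dist.le)
  rcases le_or_gt R (43 / 128) with r13 | r13
  · exact win k81_11 rfl rfl hC h0 h1 (by norm_num [g81_11]; linarith only [r12]) (by norm_num [g81_11]; linarith only [r13])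
      (by linarith only [r13]) (Or.inl rfl)
      (Or.inl ⟨rfl, by decide, by decide⟩)
      (T325_ok (by linarith only [r12]) (by linarith only [r13]) (by omega) hC.cfg.far hC.dist.le)
  rcases le_or_gt R (87 / 256) with r14 | r14
  · exact win k81_12 rfl rfl hC h0 h1 (by norm_num [g81_12]; linarith only [r13]) (by norm_num [g81_12]; linarith only [r14])
      (by linarith only [r14]) (Or.inl rfl)
      (Or.inl ⟨rfl, by decide, by decide⟩)
      (T325_ok (by linarith only [r13]) (by linarith only [r14]) (by omega) hC.cfg.far hC.dist.le)
  rcases le_or_gt R (177 / 512) with r15 | r15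
  · exact win k81_13 rfl rfl hC h0 h1 (by norm_num [g81_13]; linarith only [r14]) (by norm_num [g81_13]; linarith only [r15])
      (by linarith only [r15]) (Or.inl rfl)
      (Or.inl ⟨rfl, by decide, by decide⟩)
      (T325_ok (by linarith only [r14]) (by linarith only [r15]) (by omega) hC.cfg.far hC.dist.le)
  rcases le_or_gt R (7 / 20) with r16 | r16
  · exact win k81_14 rfl rfl hC h0 h1 (by norm_num [g81_14]; linarith only [r15]) (by norm_num [g81_14]; linarith only [r16])
      (by linarith only [r16]) (Or.inl rfl)
      (Or.inl ⟨rfl, by decide, by decide⟩)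
      (T325_ok (by linarith only [r15]) (by linarith only [r16]) (by omega) hC.cfg.far hC.dist.le)
  rcases le_or_gt R (91 / 256) with r17 | r17
  · exact win k81_15 rfl rfl hC h0 h1 (by norm_num [g81_15]; linarith only [r16]) (by norm_num [g81_15]; linarith only [r17])
      (by linarith only [r17]) (Or.inl rfl)
      (Or.inl ⟨rfl, by decide, by decide⟩)
      (T350_ok (by linarith only [r16]) (by linarith only [r17]) (by omega) hC.cfg.far hC.dist.le)
  rcases le_or_gt R (93 / 256) with r18 | r18
  · exact win k81_16 rfl rfl hC h0 h1 (by norm_num [g81_16]; linarith only [r17]) (by norm_num [g81_16]; linarith only [r18])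
      (by linarith only [r18]) (Or.inl rfl)
      (Or.inl ⟨rfl, by decide, by decide⟩)
      (T350_ok (by linarith only [r17]) (by linarith only [r18]) (by omega) hC.cfg.far hC.dist.le)
  rcases le_or_gt R (377 / 1024) with r19 | r19
  · exact win k81_17 rfl rfl hC h0 h1 (by norm_num [g81_17]; linarith only [r18]) (by norm_num [g81_17]; linarith only [r19])
      (by linarith only [r19]) (Or.inl rfl)
      (Or.inl ⟨rfl, by decide, by decide⟩)
      (T350_ok (by linarith only [r18]) (by linarith only [r19]) (by omega) hC.cfg.far hC.dist.le)
  rcases le_or_gt R (383 / 1024) with r20 | r20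
  · exact win k81_18 rfl rfl hC h0 h1 (by norm_num [g81_18]; linarith only [r19]) (by norm_num [g81_18]; linarith only [r20])
      (by linarith only [r20]) (Or.inl rfl)
      (Or.inl ⟨rfl, by decide, by decide⟩)
      (T350_ok (by linarith only [r19]) (by linarith only [r20]) (by omega) hC.cfg.far hC.dist.le)
  rcases le_or_gt R (3 / 8) with r21 | r21
  · exact win k81_19 rfl rfl hC h0 h1 (by norm_num [g81_19]; linarith only [r20]) (by norm_num [g81_19]; linarith only [r21])
      (by linarith only [r21]) (Or.inl rfl)
      (Or.inl ⟨rfl, by decide, by decide⟩)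
      (T350_ok (by linarith only [r20]) (by linarith only [r21]) (by omega) hC.cfg.far hC.dist.le)
  rcases le_or_gt R (195 / 512) with r22 | r22
  · exact win k81_20 rfl rfl hC h0 h1 (by norm_num [g81_20]; linarith only [r21]) (by norm_num [g81_20]; linarith only [r22])
      (by linarith only [r22]) (Or.inl rfl)
      (Or.inl ⟨rfl, by decide, by decide⟩)
      (T375_ok (by linarith only [r21]) (by linarith only [r22]) (by omega) hC.cfg.far hC.dist.le)
  rcases le_or_gt R (99 / 256) with r23 | r23
  · exact win k81_21 rfl rfl hC h0 h1 (by norm_num [g81_21]; linarith only [r22]) (by norm_num [g81_21]; linarith only [r23])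
      (by linarith only [r23]) (Or.inl rfl)
      (Or.inl ⟨rfl, by decide, by decide⟩)
      (T375_ok (by linarith only [r22]) (by linarith only [r23]) (by omega) hC.cfg.far hC.dist.le)
  rcases le_or_gt R (201 / 512) with r24 | r24
  · exact win k81_22 rfl rfl hC h0 h1 (by norm_num [g81_22]; linarith only [r23]) (by norm_num [g81_22]; linarith only [r24])
      (by linarith only [r24]) (Or.inl rfl)
      (Or.inl ⟨rfl, by decide, by decide⟩)
      (T375_ok (by linarith only [r23]) (by linarith only [r24]) (by omega) hC.cfg.far hC.dist.le)
  rcases le_or_gt R (2 / 5) with r25 | r25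
  · exact win k81_23 rfl rfl hC h0 h1 (by norm_num [g81_23]; linarith only [r24]) (by norm_num [g81_23]; linarith only [r25])
      (by linarith only [r25]) (Or.inl rfl)
      (Or.inl ⟨rfl, by decide, by decide⟩)
      (T375_ok (by linarith only [r24]) (by linarith only [r25]) (by omega) hC.cfg.far hC.dist.le)
  rcases le_or_gt R (415 / 1024) with r26 | r26
  · exact win k81_24 rfl rfl hC h0 h1 (by norm_num [g81_24]; linarith only [r25]) (by norm_num [g81_24]; linarith only [r26])
      (by linarith only [r26]) (Or.inl rfl)
      (Or.inl ⟨rfl, by decide, by decide⟩)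
      (T400_ok (by linarith only [r25]) (by linarith only [r26]) (by omega) hC.cfg.far hC.dist.le)
  rcases le_or_gt R (421 / 1024) with r27 | r27
  · exact win k81_25 rfl rfl hC h0 h1 (by norm_num [g81_25]; linarith only [r26]) (by norm_num [g81_25]; linarith only [r27])
      (by linarith only [r27]) (Or.inl rfl)
      (Or.inl ⟨rfl, by decide, by decide⟩)
      (T400_ok (by linarith only [r26]) (by linarith only [r27]) (by omega) hC.cfg.far hC.dist.le)
  rcases le_or_gt R (429 / 1024) with r28 | r28
  · exact win k81_26 rfl rfl hC h0 h1 (by norm_num [g81_26]; linarith only [r27]) (by norm_num [g81_26]; linarith only [r28])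
      (by linarith only [r28]) (Or.inl rfl)
      (Or.inl ⟨rfl, by decide, by decide⟩)
      (T400_ok (by linarith only [r27]) (by linarith only [r28]) (by omega) hC.cfg.far hC.dist.le)
  rcases le_or_gt R (17 / 40) with r29 | r29
  · exact win k81_27 rfl rfl hC h0 h1 (by norm_num [g81_27]; linarith only [r28]) (by norm_num [g81_27]; linarith only [r29])
      (by linarith only [r29]) (Or.inl rfl)
      (Or.inl ⟨rfl, by decide, by decide⟩)
      (T400_ok (by linarith only [r28]) (by linarith only [r29]) (by omega) hC.cfg.far hC.dist.le)
  rcases le_or_gt R (441 / 1024) with r30 | r30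
  · exact win k81_28 rfl rfl hC h0 h1 (by norm_num [g81_28]; linarith only [r29]) (by norm_num [g81_28]; linarith only [r30])
      (by linarith only [r30]) (Or.inl rfl)
      (Or.inl ⟨rfl, by decide, by decide⟩)
      (T425_ok (by linarith only [r29]) (by linarith only [r30]) (by omega) hC.cfg.far hC.dist.le)
  rcases le_or_gt R (451 / 1024) with r31 | r31
  · exact win k81_29 rfl rfl hC h0 h1 (by norm_num [g81_29]; linarith only [r30]) (by norm_num [g81_29]; linarith only [r31])
      (by linarith only [r31]) (Or.inl rfl)
      (Or.inl ⟨rfl, by decide, by decide⟩)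
      (T425_ok (by linarith only [r30]) (by linarith only [r31]) (by omega) hC.cfg.far hC.dist.le)
  rcases le_or_gt R (9 / 20) with r32 | r32
  · exact win k81_30 rfl rfl hC h0 h1 (by norm_num [g81_30]; linarith only [r31]) (by norm_num [g81_30]; linarith only [r32])
      (by linarith only [r32]) (Or.inl rfl)
      (Or.inl ⟨rfl, by decide, by decide⟩)
      (T425_ok (by linarith only [r31]) (by linarith only [r32]) (by omega) hC.cfg.far hC.dist.le)
  rcases le_or_gt R (235 / 512) with r33 | r33
  · exact win k81_31 rfl rfl hC h0 h1 (by norm_num [g81_31]; linarith only [r32]) (by norm_num [g81_31]; linarith only [r33])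
      (by linarith only [r33]) (Or.inl rfl)
      (Or.inl ⟨rfl, by decide, by decide⟩)
      (T450_ok (by linarith only [r32]) (by linarith only [r33]) (by omega) hC.cfg.far hC.dist.le)
  rcases le_or_gt R (483 / 1024) with r34 | r34
  · exact win k81_32 rfl rfl hC h0 h1 (by norm_num [g81_32]; linarith only [r33]) (by norm_num [g81_32]; linarith only [r34])
      (by linarith only [r34]) (Or.inl rfl)
      (Or.inl ⟨rfl, by decide, by decide⟩)
      (T450_ok (by linarith only [r33]) (by linarith only [r34]) (by omega) hC.cfg.far hC.dist.le)
  rcases le_or_gt R (19 / 40) with r35 | r35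
  · exact win k81_33 rfl rfl hC h0 h1 (by norm_num [g81_33]; linarith only [r34]) (by norm_num [g81_33]; linarith only [r35])
      (by linarith only [r35]) (Or.inl rfl)
      (Or.inl ⟨rfl, by decide, by decide⟩)
      (T450_ok (by linarith only [r34]) (by linarith only [r35]) (by omega) hC.cfg.far hC.dist.le)
  rcases le_or_gt R (253 / 512) with r36 | r36
  · exact win k81_34 rfl rfl hC h0 h1 (by norm_num [g81_34]; linarith only [r35]) (by norm_num [g81_34]; linarith only [r36])
      (by linarith only [r36]) (Or.inl rfl)
      (Or.inl ⟨rfl, by decide, by decide⟩)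
      (T475_ok (by linarith only [r35]) (by linarith only [r36]) (by omega) hC.cfg.far hC.dist.le)
  rcases le_or_gt R (1 / 2) with r37 | r37
  · exact win k81_35 rfl rfl hC h0 h1 (by norm_num [g81_35]; linarith only [r36]) (by norm_num [g81_35]; linarith only [r37])
      (by linarith only [r37]) (Or.inl rfl)
      (Or.inl ⟨rfl, by decide, by decide⟩)
      (T475_ok (by linarith only [r36]) (by linarith only [r37]) (by omega) hC.cfg.far hC.dist.le)
  rcases le_or_gt R (21 / 40) with r38 | r38
  · exact win k81_36 rfl rfl hC h0 h1 (by norm_num [g81_36]; linarith only [r37]) (by norm_num [g81_36]; linarith only [r38])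
      (by linarith only [r38]) (Or.inl rfl)
      (Or.inl ⟨rfl, by decide, by decide⟩)
      (T500_ok (by linarith only [r37]) (by linarith only [r38]) (by omega) hC.cfg.far hC.dist.le)
  rcases le_or_gt R (11 / 20) with r39 | r39
  · exact win k81_37 rfl rfl hC h0 h1 (by norm_num [g81_37]; linarith only [r38]) (by norm_num [g81_37]; linarith only [r39])
      (by linarith only [r39]) (Or.inl rfl)
      (Or.inr (by decide))
      (T525_ok (by linarith only [r38]) (by linarith only [r39]) (by omega) hC.cfg.far hC.dist.le)
  rcases le_or_gt R (23 / 40) with r40 | r40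
  · exact win k81_38 rfl rfl hC h0 h1 (by norm_num [g81_38]; linarith only [r39]) (by norm_num [g81_38]; linarith only [r40])
      (by linarith only [r40]) (Or.inl rfl)
      (Or.inr (by decide))
      (T550_ok (by linarith only [r39]) (by linarith only [r40]) (by omega) hC.cfg.far hC.dist.le)
  rcases le_or_gt R (307 / 512) with r41 | r41
  · exact win k81_39 rfl rfl hC h0 h1 (by norm_num [g81_39]; linarith only [r40]) (by norm_num [g81_39]; linarith only [r41])
      (by linarith only [r41]) (Or.inl rfl)
      (Or.inr (by decide))
      (T575_ok (by linarith only [r40]) (by linarith only [r41]) (by omega) hC.cfg.far hC.dist.le)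
  rcases le_or_gt R (3 / 5) with r42 | r42
  · exact win kx81_39 rfl rfl hC h0 h1 (by norm_num [gx81_39]; linarith only [r41]) (by norm_num [gx81_39]; linarith only [r42])
      (by linarith only [r42]) (Or.inl rfl)
      (Or.inr (by decide))
      (T575_ok (by linarith only [r41]) (by linarith only [r42]) (by omega) hC.cfg.far hC.dist.le)
  rcases le_or_gt R (5 / 8) with r43 | r43
  · exact win k81_40 rfl rfl hC h0 h1 (by norm_num [g81_40]; linarith only [r42]) (by norm_num [g81_40]; linarith only [r43])
      (by linarith only [r43]) (Or.inl rfl)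
      (Or.inr (by decide))
      (T600_ok (by linarith only [r42]) (by linarith only [r43]) (by omega) hC.cfg.far hC.dist.le)
  rcases le_or_gt R (13 / 20) with r44 | r44
  · exact win k81_41 rfl rfl hC h0 h1 (by norm_num [g81_41]; linarith only [r43]) (by norm_num [g81_41]; linarith only [r44])
      (by linarith only [r44]) (Or.inl rfl)
      (Or.inr (by decide))
      (T625_ok (by linarith only [r43]) (by linarith only [r44]) (by omega) hC.cfg.far hC.dist.le)
  rcases le_or_gt R (27 / 40) with r45 | r45
  · exact win k81_42 rfl rfl hC h0 h1 (by norm_num [g81_42]; linarith only [r44]) (by norm_num [g81_42]; linarith only [r45])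
      (by linarith only [r45]) (Or.inl rfl)
      (Or.inr (by decide))
      (T650_ok (by linarith only [r44]) (by linarith only [r45]) (by omega) hC.cfg.far hC.dist.le)
  rcases le_or_gt R (7 / 10) with r46 | r46
  · exact win k81_43 rfl rfl hC h0 h1 (by norm_num [g81_43]; linarith only [r45]) (by norm_num [g81_43]; linarith only [r46])
      (by linarith only [r46]) (Or.inl rfl)
      (Or.inr (by decide))
      (T675_ok (by linarith only [r45]) (by linarith only [r46]) (by omega) hC.cfg.far hC.dist.le)
  rcases le_or_gt R (29 / 40) with r47 | r47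
  · exact win k81_44 rfl rfl hC h0 h1 (by norm_num [g81_44]; linarith only [r46]) (by norm_num [g81_44]; linarith only [r47])
      (by linarith only [r47]) (Or.inl rfl)
      (Or.inr (by decide))
      (T700_ok (by linarith only [r46]) (by linarith only [r47]) (by omega) hC.cfg.far hC.dist.le)
  rcases le_or_gt R (3 / 4) with r48 | r48
  · exact win k81_45 rfl rfl hC h0 h1 (by norm_num [g81_45]; linarith only [r47]) (by norm_num [g81_45]; linarith only [r48])
      (by linarith only [r48]) (Or.inl rfl)
      (Or.inr (by decide))
      (T725_ok (by linarith only [r47]) (by linarith only [r48]) (by omega) hC.cfg.far hC.dist.le)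
  rcases le_or_gt R (31 / 40) with r49 | r49
  · exact win k81_46 rfl rfl hC h0 h1 (by norm_num [g81_46]; linarith only [r48]) (by norm_num [g81_46]; linarith only [r49])
      (by linarith only [r49]) (Or.inl rfl)
      (Or.inr (by decide))
      (T750_ok (by linarith only [r48]) (by linarith only [r49]) (by omega) hC.cfg.far hC.dist.le)
  exact win k81_47 rfl rfl hC h0 h1 (by norm_num [g81_47]; linarith only [r49]) (by norm_num [g81_47]; linarith only [hR])
      (by linarith only [hR]) (Or.inl rfl)
      (Or.inr (by decide))
      (T775_ok (by linarith only [r49]) (by linarith only [hR]) (by omega) hC.cfg.far hC.dist.le)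

end Pool.Agent.Lib.MP_af3a4a_an.P1.CHK.H81.L
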