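import Pool.Agent.Lib.MP_af3a4a_an.P1.CHK.H81.LT
/-!
# Data, `86 ≤ N ≤ 90`, `265 ≤ 1024 R ≤ 820` (helper81)
-/
set_option autoImplicit false

namespace Pool.Agent.Lib.MP_af3a4a_an.P1.CHK.H81.L

open Pool.Agent.Lib.MP_af3a4a_an.P1.CHK.H58.G (Gr En)

def g86_0 : Gr := ⟨false, 265, 273, 1024, 1024, 86, 90, 9496, 9715, 512, 3958, 0, []⟩

theorem k86_0 : chk g86_0 [] [
  ⟨1407, 120, 0, 160, 78, true, true, false, [(0, 9)], []⟩,
  ⟨1659, 120, 0, 160, 78, true, true, false, [(0, 9)], []⟩,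
  ⟨2357, 120, 0, 96, 44, true, true, false, [(0, 14)], []⟩,
  ⟨6124, 120, 0, 0, 0, true, false, false, [(0, 22)], []⟩,
  ⟨9891, 120, 0, 0, 0, true, false, false, [(0, 22)], []⟩,
  ⟨10012, 120, 0, 0, 0, true, false, false, [(0, 22)], []⟩
  ] = true := by decide +kernel

def g86_1 : Gr := ⟨false, 273, 281, 1024, 1024, 86, 90, 9496, 9715, 512, 3842, 0, []⟩

theorem k86_1 : chk g86_1 [] [
  ⟨1296, 120, 0, 176, 88, true, true, false, [(0, 9)], []⟩,
  ⟨1359, 120, 0, 160, 78, true, true, false, [(0, 10)], []⟩,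
  ⟨1538, 120, 0, 160, 78, true, true, false, [(0, 10)], []⟩,
  ⟨1892, 120, 0, 144, 69, true, true, false, [(0, 11)], []⟩,
  ⟨3260, 120, 0, 80, 36, true, true, false, [(0, 16)], []⟩,
  ⟨7020, 120, 0, 0, 0, true, false, false, [(0, 23)], []⟩,
  ⟨10003, 120, 0, 0, 0, true, false, false, [(0, 23)], []⟩
  ] = true := by decide +kernel

def g86_2 : Gr := ⟨false, 281, 289, 1024, 1024, 86, 90, 9496, 9715, 384, 3733, 0, []⟩

theorem k86_2 : chk g86_2 [] [
  ⟨1041, 120, 0, 176, 88, true, true, false, [(0, 1), (3, 8)], []⟩,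
  ⟨1105, 120, 0, 176, 88, true, true, false, [(0, 2), (3, 7)], []⟩,
  ⟨1195, 120, 0, 176, 88, true, true, false, [(0, 2), (3, 7)], []⟩,
  ⟨1284, 120, 0, 176, 88, true, true, false, [(0, 3), (3, 6)], []⟩,
  ⟨1373, 120, 0, 176, 88, true, true, false, [(0, 9)], []⟩,
  ⟨1499, 120, 0, 176, 88, true, true, false, [(0, 9)], []⟩,
  ⟨1749, 120, 0, 144, 69, true, true, false, [(0, 12)], []⟩,
  ⟨2441, 120, 0, 112, 52, true, true, false, [(0, 14)], []⟩,
  ⟨6175, 120, 0, 0, 0, true, false, false, [(0, 23)], []⟩,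
  ⟨9909, 120, 0, 0, 0, true, false, false, [(0, 23)], []⟩,
  ⟨9996, 120, 0, 0, 0, true, false, false, [(0, 23)], []⟩
  ] = true := by decide +kernel

def g86_3 : Gr := ⟨false, 289, 297, 1024, 1024, 86, 90, 9496, 9715, 384, 3630, 0, []⟩

theorem k86_3 : chk g86_3 [] [
  ⟨1020, 90, 0, 176, 88, true, true, false, [(0, 1), (3, 12)], []⟩,
  ⟨1042, 90, 0, 176, 88, true, true, false, [(0, 1), (3, 12)], []⟩,
  ⟨1064, 90, 0, 176, 88, true, true, false, [(0, 1), (3, 12)], []⟩,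
  ⟨1096, 90, 0, 176, 88, true, true, false, [(0, 2), (3, 11)], []⟩,
  ⟨1128, 90, 0, 176, 88, true, true, false, [(0, 2), (3, 11)], []⟩,
  ⟨1174, 90, 0, 176, 88, true, true, false, [(0, 2), (3, 11)], []⟩,
  ⟨1220, 90, 0, 176, 88, true, true, false, [(0, 2), (3, 11)], []⟩,
  ⟨1266, 90, 0, 176, 88, true, true, false, [(0, 3), (3, 10)], []⟩,
  ⟨1312, 90, 0, 176, 88, true, true, false, [(0, 4), (3, 9)], []⟩,
  ⟨1378, 90, 0, 176, 88, true, true, false, [(0, 13)], []⟩,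
  ⟨1510, 90, 0, 176, 88, true, true, false, [(0, 13)], []⟩,
  ⟨1771, 90, 0, 160, 78, true, true, false, [(0, 15)], []⟩,
  ⟨2492, 90, 0, 112, 52, true, true, false, [(0, 20)], []⟩,
  ⟨6380, 90, 0, 0, 0, true, false, false, [(0, 32)], []⟩,
  ⟨9989, 90, 0, 0, 0, true, false, false, [(0, 32)], []⟩
  ] = true := by decide +kernel

def g86_4 : Gr := ⟨false, 297, 305, 1024, 1024, 86, 90, 9496, 9715, 256, 3532, 0, []⟩

theorem k86_4 : chk g86_4 [] [
  ⟨698, 120, 360, 192, 98, false, true, false, [(0, 1), (3, 8)], []⟩,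
  ⟨708, 120, 0, 192, 98, true, true, false, [(0, 1), (3, 8)], []⟩,
  ⟨724, 120, 0, 192, 98, true, true, false, [(0, 1), (3, 8)], []⟩,
  ⟨747, 120, 0, 192, 98, true, true, false, [(0, 1), (3, 8)], []⟩,
  ⟨770, 120, 0, 192, 98, true, true, false, [(0, 1), (3, 8)], []⟩,
  ⟨803, 120, 0, 192, 98, true, true, false, [(0, 1), (3, 8)], []⟩,
  ⟨851, 120, 0, 192, 98, true, true, false, [(0, 1), (3, 8)], []⟩,
  ⟨899, 120, 0, 192, 98, true, true, false, [(0, 1), (3, 8)], []⟩,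
  ⟨967, 120, 0, 192, 98, true, true, false, [(0, 1), (3, 8)], []⟩,
  ⟨1035, 120, 0, 192, 98, true, true, false, [(0, 1), (3, 8)], []⟩,
  ⟨1103, 120, 0, 192, 98, true, true, false, [(0, 1), (3, 8)], []⟩,
  ⟨1171, 120, 0, 192, 98, true, true, false, [(0, 2), (3, 7)], []⟩,
  ⟨1239, 120, 0, 192, 98, true, true, false, [(0, 2), (3, 7)], []⟩,
  ⟨1287, 120, 0, 192, 98, true, true, false, [(0, 3), (3, 6)], []⟩,
  ⟨1320, 120, 0, 192, 98, true, true, false, [(0, 3), (3, 6)], []⟩,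
  ⟨1353, 120, 0, 192, 98, true, true, false, [(0, 5), (3, 4)], []⟩,
  ⟨1376, 120, 0, 192, 98, true, true, false, [(0, 9)], []⟩,
  ⟨1399, 120, 0, 192, 98, true, true, false, [(0, 9)], []⟩,
  ⟨1422, 120, 0, 176, 88, true, true, false, [(0, 11)], []⟩,
  ⟨1470, 120, 0, 176, 88, true, true, false, [(0, 11)], []⟩,
  ⟨1607, 120, 0, 160, 78, true, true, false, [(0, 12)], []⟩,
  ⟨1989, 120, 0, 144, 69, true, true, false, [(0, 13)], []⟩,
  ⟨3043, 120, 0, 80, 36, true, true, false, [(0, 18)], []⟩,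
  ⟨5940, 120, 0, 0, 0, true, false, false, [(0, 25)], []⟩,
  ⟨8837, 120, 0, 0, 0, true, false, false, [(0, 25)], []⟩,
  ⟨9981, 120, 0, 0, 0, true, false, false, [(0, 25)], []⟩
  ] = true := by decide +kernel

def g86_5 : Gr := ⟨false, 305, 308, 1024, 1024, 86, 90, 9496, 9715, 256, 3439, 0, []⟩

theorem k86_5 : chk g86_5 [] [
  ⟨771, 120, 0, 208, 109, true, true, false, [(0, 1), (3, 7)], []⟩,
  ⟨835, 120, 0, 208, 109, true, true, false, [(0, 1), (3, 7)], []⟩,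
  ⟨925, 120, 0, 208, 109, true, true, false, [(0, 1), (3, 7)], []⟩,
  ⟨1015, 120, 0, 208, 109, true, true, false, [(0, 1), (3, 7)], []⟩,
  ⟨1078, 120, 0, 208, 109, true, true, false, [(0, 1), (3, 7)], []⟩,
  ⟨1122, 120, 0, 208, 109, true, true, false, [(0, 1), (3, 7)], []⟩,
  ⟨1153, 120, 0, 208, 109, true, true, false, [(0, 2), (3, 6)], []⟩,
  ⟨1184, 120, 0, 192, 98, true, true, false, [(0, 2), (3, 8)], []⟩,
  ⟨1215, 120, 0, 192, 98, true, true, false, [(0, 2), (3, 8)], []⟩,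
  ⟨1246, 120, 0, 192, 98, true, true, false, [(0, 2), (3, 8)], []⟩,
  ⟨1277, 120, 0, 192, 98, true, true, false, [(0, 2), (3, 8)], []⟩,
  ⟨1308, 120, 0, 192, 98, true, true, false, [(0, 3), (3, 7)], []⟩,
  ⟨1339, 120, 0, 176, 88, true, true, false, [(0, 3), (3, 8)], []⟩,
  ⟨1370, 120, 0, 176, 88, true, true, false, [(0, 4), (3, 7)], []⟩,
  ⟨1401, 120, 0, 176, 88, true, true, false, [(0, 6), (3, 5)], []⟩,
  ⟨1464, 120, 0, 176, 88, true, true, false, [(0, 11)], []⟩,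
  ⟨1642, 120, 0, 160, 78, true, true, false, [(0, 12)], []⟩,
  ⟨2135, 120, 0, 144, 69, true, true, false, [(0, 13)], []⟩,
  ⟨4036, 120, 0, 44, 19, true, true, false, [(0, 21)], []⟩,
  ⟨7764, 120, 0, 0, 0, true, false, false, [(0, 25)], []⟩,
  ⟨9814, 120, 0, 0, 0, true, false, false, [(0, 25)], []⟩
  ] = true := by decide +kernel

def g86_6 : Gr := ⟨false, 307, 312, 1024, 1024, 86, 90, 9496, 9715, 256, 3417, 0, []⟩

theorem k86_6 : chk g86_6 T300 [
  ⟨801, 90, 0, 208, 109, true, true, false, [(0, 1), (3, 10)], []⟩,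
  ⟨891, 90, 0, 208, 109, true, true, false, [(0, 1), (3, 10)], []⟩,
  ⟨981, 90, 0, 208, 109, true, true, false, [(0, 1), (3, 10)], []⟩,
  ⟨1071, 90, 0, 208, 109, true, true, false, [(0, 1), (3, 10)], []⟩,
  ⟨1134, 90, 0, 192, 98, true, true, false, [(0, 1), (3, 12)], []⟩,
  ⟨1197, 90, 0, 192, 98, true, true, false, [(0, 2), (3, 11)], []⟩,
  ⟨1260, 90, 0, 192, 98, true, true, false, [(0, 2), (3, 11)], []⟩,
  ⟨1323, 90, 0, 192, 98, true, true, false, [(0, 2), (3, 11)], []⟩,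
  ⟨1367, 90, 0, 192, 98, true, true, false, [(0, 3), (3, 10)], []⟩,
  ⟨1411, 90, 0, 192, 98, true, true, false, [(0, 6), (3, 7)], []⟩,
  ⟨1474, 90, 0, 176, 88, true, true, false, [(0, 15)], []⟩,
  ⟨1600, 90, 0, 176, 88, true, true, false, [(0, 15)], []⟩,
  ⟨1950, 90, 0, 144, 69, true, true, false, [(0, 18)], []⟩,
  ⟨2916, 90, 0, 96, 44, true, true, false, [(0, 23)], []⟩,
  ⟨6635, 90, 0, 0, 0, true, false, false, [(0, 33)], []⟩,
  ⟨9878, 90, 0, 0, 0, true, false, false, [(0, 33)], []⟩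
  ] = true := by decide +kernel

def g86_7 : Gr := ⟨false, 312, 318, 1024, 1024, 86, 90, 9496, 9715, 256, 3362, 0, []⟩

theorem k86_7 : chk g86_7 T300 [
  ⟨767, 120, 0, 208, 109, true, true, false, [(0, 1), (3, 8)], []⟩,
  ⟨811, 120, 0, 208, 109, true, true, false, [(0, 1), (3, 8)], []⟩,
  ⟨874, 120, 0, 208, 109, true, true, false, [(0, 1), (3, 8)], []⟩,
  ⟨937, 120, 0, 208, 109, true, true, false, [(0, 1), (3, 8)], []⟩,
  ⟨1000, 120, 0, 192, 98, true, true, false, [(0, 1), (3, 9)], []⟩,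
  ⟨1090, 120, 0, 192, 98, true, true, false, [(0, 1), (3, 9)], []⟩,
  ⟨1180, 120, 0, 192, 98, true, true, false, [(0, 2), (3, 8)], []⟩,
  ⟨1270, 120, 0, 192, 98, true, true, false, [(0, 2), (3, 8)], []⟩,
  ⟨1360, 120, 0, 192, 98, true, true, false, [(0, 2), (3, 8)], []⟩,
  ⟨1423, 120, 0, 192, 98, true, true, false, [(0, 4), (3, 6)], []⟩,
  ⟨1485, 120, 0, 192, 98, true, true, false, [(0, 10)], []⟩,
  ⟨1547, 120, 0, 176, 88, true, true, false, [(0, 12)], []⟩,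
  ⟨1723, 120, 0, 160, 78, true, true, false, [(0, 13)], []⟩,
  ⟨2212, 120, 0, 144, 69, true, true, false, [(0, 14)], []⟩,
  ⟨4857, 120, 0, 28, 12, true, true, false, [(0, 23)], []⟩,
  ⟨8561, 120, 0, 0, 0, true, false, false, [(0, 26)], []⟩,
  ⟨9906, 120, 0, 0, 0, true, false, false, [(0, 26)], []⟩
  ] = true := by decide +kernel

def g86_8 : Gr := ⟨false, 318, 324, 1024, 1024, 86, 90, 9496, 9715, 128, 2048, 0, []⟩

theorem k86_8 : chk g86_8 T300 [
  ⟨495, 70, 700, 60, 204, false, false, false, [(0, 1), (3, 18), (8, 1), (3, 16)], []⟩,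
  ⟨584, 70, 630, 88, 176, false, false, false, [(0, 1), (3, 31)], []⟩,
  ⟨646, 70, 490, 192, 98, false, true, false, [(0, 1), (3, 17)], []⟩,
  ⟨708, 70, 490, 192, 98, false, true, false, [(0, 1), (3, 17)], []⟩,
  ⟨751, 70, 490, 192, 98, false, true, false, [(0, 1), (3, 17)], []⟩,
  ⟨794, 70, 0, 208, 109, true, true, false, [(0, 1), (3, 15)], []⟩,
  ⟨856, 70, 0, 208, 109, true, true, false, [(0, 1), (3, 15)], []⟩,
  ⟨918, 70, 0, 208, 109, true, true, false, [(0, 1), (3, 15)], []⟩,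
  ⟨980, 70, 0, 208, 109, true, true, false, [(0, 1), (3, 15)], []⟩,
  ⟨1042, 70, 0, 208, 109, true, true, false, [(0, 1), (3, 15)], []⟩,
  ⟨1130, 70, 0, 192, 98, true, true, false, [(0, 1), (3, 17)], []⟩,
  ⟨1218, 70, 0, 192, 98, true, true, false, [(0, 2), (3, 16)], []⟩,
  ⟨1306, 70, 0, 192, 98, true, true, false, [(0, 2), (3, 16)], []⟩,
  ⟨1394, 70, 0, 192, 98, true, true, false, [(0, 3), (3, 15)], []⟩,
  ⟨1455, 70, 0, 192, 98, true, true, false, [(0, 5), (3, 13)], []⟩,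
  ⟨1516, 70, 0, 192, 98, true, true, false, [(0, 18)], []⟩,
  ⟨1603, 70, 0, 176, 88, true, true, false, [(0, 21)], []⟩,
  ⟨1847, 70, 0, 160, 78, true, true, false, [(0, 23)], []⟩,
  ⟨2522, 70, 0, 120, 56, true, true, false, [(0, 28)], []⟩,
  ⟨6148, 70, 0, 0, 0, true, false, false, [(0, 44)], []⟩
  ] = true := by decide +kernel

def g86_9 : Gr := ⟨false, 324, 330, 1024, 1024, 86, 90, 9496, 9715, 128, 2048, 0, []⟩

theorem k86_9 : chk g86_9 T300 [
  ⟨502, 120, 720, 52, 220, false, false, false, [(0, 1), (3, 21)], []⟩,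
  ⟨591, 120, 600, 104, 160, false, false, false, [(0, 1), (3, 17)], []⟩,
  ⟨680, 120, 480, 192, 98, false, true, false, [(0, 1), (3, 10)], []⟩,
  ⟨742, 120, 480, 192, 98, false, true, false, [(0, 1), (3, 10)], []⟩,
  ⟨785, 120, 480, 192, 98, false, true, false, [(0, 1), (3, 10)], []⟩,
  ⟨828, 120, 480, 192, 98, false, true, false, [(0, 1), (3, 10)], []⟩,
  ⟨858, 120, 480, 192, 98, false, true, false, [(0, 1), (3, 10)], []⟩,
  ⟨879, 120, 0, 192, 98, true, true, false, [(0, 1), (3, 10)], []⟩,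
  ⟨910, 120, 0, 192, 98, true, true, false, [(0, 1), (3, 10)], []⟩,
  ⟨954, 120, 0, 192, 98, true, true, false, [(0, 1), (3, 10)], []⟩,
  ⟨998, 120, 0, 192, 98, true, true, false, [(0, 1), (3, 10)], []⟩,
  ⟨1061, 120, 0, 192, 98, true, true, false, [(0, 1), (3, 10)], []⟩,
  ⟨1124, 120, 0, 192, 98, true, true, false, [(0, 1), (3, 10)], []⟩,
  ⟨1213, 120, 0, 192, 98, true, true, false, [(0, 2), (3, 9)], []⟩,
  ⟨1302, 120, 0, 192, 98, true, true, false, [(0, 2), (3, 9)], []⟩,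
  ⟨1391, 120, 0, 192, 98, true, true, false, [(0, 2), (3, 9)], []⟩,
  ⟨1453, 120, 0, 192, 98, true, true, false, [(0, 3), (3, 8)], []⟩,
  ⟨1496, 120, 0, 192, 98, true, true, false, [(0, 7), (3, 4)], []⟩,
  ⟨1558, 120, 0, 192, 98, true, true, false, [(0, 11)], []⟩,
  ⟨1646, 120, 0, 176, 88, true, true, false, [(0, 13)], []⟩,
  ⟨1893, 120, 0, 160, 78, true, true, false, [(0, 14)], []⟩,
  ⟨2575, 120, 0, 128, 60, true, true, false, [(0, 16)], []⟩,
  ⟨6257, 120, 0, 0, 0, true, false, false, [(0, 27)], []⟩,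
  ⟨6262, 120, 0, 0, 0, true, false, false, [(0, 27)], []⟩
  ] = true := by decide +kernel

def g86_10 : Gr := ⟨false, 330, 333, 1024, 1024, 86, 90, 9496, 9715, 128, 2048, 0, []⟩

theorem k86_10 : chk g86_10 T300 [
  ⟨561, 120, 720, 56, 216, false, false, false, [(0, 1), (3, 21)], []⟩,
  ⟨649, 120, 600, 144, 125, false, true, false, [(0, 1), (3, 14)], []⟩,
  ⟨710, 120, 480, 208, 109, false, true, false, [(0, 1), (3, 9)], []⟩,
  ⟨771, 120, 480, 208, 109, false, true, false, [(0, 1), (3, 9)], []⟩,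
  ⟨832, 120, 0, 208, 109, true, true, false, [(0, 1), (3, 9)], []⟩,
  ⟨919, 120, 0, 208, 109, true, true, false, [(0, 1), (3, 9)], []⟩,
  ⟨1006, 120, 0, 208, 109, true, true, false, [(0, 1), (3, 9)], []⟩,
  ⟨1093, 120, 0, 208, 109, true, true, false, [(0, 1), (3, 9)], []⟩,
  ⟨1180, 120, 0, 208, 109, true, true, false, [(0, 1), (3, 9)], []⟩,
  ⟨1267, 120, 0, 208, 109, true, true, false, [(0, 2), (3, 8)], []⟩,
  ⟨1328, 120, 0, 208, 109, true, true, false, [(0, 2), (3, 8)], []⟩,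
  ⟨1370, 120, 0, 208, 109, true, true, false, [(0, 2), (3, 8)], []⟩,
  ⟨1399, 120, 0, 208, 109, true, true, false, [(0, 3), (3, 7)], []⟩,
  ⟨1428, 120, 0, 192, 98, true, true, false, [(0, 3), (3, 9)], []⟩,
  ⟨1448, 120, 0, 192, 98, true, true, false, [(0, 3), (3, 9)], []⟩,
  ⟨1468, 120, 0, 192, 98, true, true, false, [(0, 4), (3, 8)], []⟩,
  ⟨1488, 120, 0, 192, 98, true, true, false, [(0, 5), (3, 7)], []⟩,
  ⟨1508, 120, 0, 192, 98, true, true, false, [(0, 7), (3, 5)], []⟩,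
  ⟨1528, 120, 0, 192, 98, true, true, false, [(0, 12)], []⟩,
  ⟨1571, 120, 0, 176, 88, true, true, false, [(0, 13)], []⟩,
  ⟨1694, 120, 0, 176, 88, true, true, false, [(0, 13)], []⟩,
  ⟨2038, 120, 0, 160, 78, true, true, false, [(0, 14)], []⟩,
  ⟨2986, 120, 0, 96, 44, true, true, false, [(0, 19)], []⟩,
  ⟨6319, 120, 0, 0, 0, true, false, false, [(0, 27)], []⟩
  ] = true := by decide +kernel

def g86_11 : Gr := ⟨false, 332, 340, 1024, 1024, 86, 90, 9496, 9715, 128, 2048, 0, []⟩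

theorem k86_11 : chk g86_11 T325 [
  ⟨563, 90, 720, 56, 216, false, false, false, [(0, 1), (3, 13), (8, 1), (3, 2), (9, 1), (3, 12)], []⟩,
  ⟨624, 90, 630, 88, 184, false, false, false, [(0, 1), (3, 26)], []⟩,
  ⟨667, 90, 540, 192, 98, false, true, false, [(0, 1), (3, 15)], []⟩,
  ⟨710, 90, 540, 192, 98, false, true, false, [(0, 1), (3, 15)], []⟩,
  ⟨740, 90, 540, 192, 98, false, true, false, [(0, 1), (3, 15)], []⟩,
  ⟨770, 90, 450, 192, 98, false, true, false, [(0, 1), (3, 15)], []⟩,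
  ⟨791, 90, 450, 192, 98, false, true, false, [(0, 1), (3, 15)], []⟩,
  ⟨805, 90, 450, 192, 98, false, true, false, [(0, 1), (3, 15)], []⟩,
  ⟨819, 90, 450, 192, 98, false, true, false, [(0, 1), (3, 15)], []⟩,
  ⟨833, 90, 0, 208, 109, true, true, false, [(0, 1), (3, 13)], []⟩,
  ⟨847, 90, 0, 208, 109, true, true, false, [(0, 1), (3, 13)], []⟩,
  ⟨868, 90, 0, 208, 109, true, true, false, [(0, 1), (3, 13)], []⟩,
  ⟨889, 90, 0, 208, 109, true, true, false, [(0, 1), (3, 13)], []⟩,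
  ⟨920, 90, 0, 208, 109, true, true, false, [(0, 1), (3, 13)], []⟩,
  ⟨951, 90, 0, 208, 109, true, true, false, [(0, 1), (3, 13)], []⟩,
  ⟨996, 90, 0, 208, 109, true, true, false, [(0, 1), (3, 13)], []⟩,
  ⟨1041, 90, 0, 208, 109, true, true, false, [(0, 1), (3, 13)], []⟩,
  ⟨1086, 90, 0, 208, 109, true, true, false, [(0, 1), (3, 13)], []⟩,
  ⟨1150, 90, 0, 208, 109, true, true, false, [(0, 1), (3, 13)], []⟩,
  ⟨1194, 90, 0, 208, 109, true, true, false, [(0, 2), (3, 12)], []⟩,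
  ⟨1238, 90, 0, 208, 109, true, true, false, [(0, 2), (3, 12)], []⟩,
  ⟨1282, 90, 0, 192, 98, true, true, false, [(0, 2), (3, 14)], []⟩,
  ⟨1326, 90, 0, 192, 98, true, true, false, [(0, 2), (3, 14)], []⟩,
  ⟨1370, 90, 0, 192, 98, true, true, false, [(0, 2), (3, 14)], []⟩,
  ⟨1414, 90, 0, 192, 98, true, true, false, [(0, 3), (3, 13)], []⟩,
  ⟨1445, 90, 0, 192, 98, true, true, false, [(0, 3), (3, 13)], []⟩,
  ⟨1476, 90, 0, 192, 98, true, true, false, [(0, 4), (3, 12)], []⟩,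
  ⟨1507, 90, 0, 192, 98, true, true, false, [(0, 5), (3, 11)], []⟩,
  ⟨1528, 90, 0, 192, 98, true, true, false, [(0, 10), (3, 6)], []⟩,
  ⟨1559, 90, 0, 192, 98, true, true, false, [(0, 16)], []⟩,
  ⟨1604, 90, 0, 192, 98, true, true, false, [(0, 16)], []⟩,
  ⟨1695, 90, 0, 176, 88, true, true, false, [(0, 18)], []⟩,
  ⟨1950, 90, 0, 160, 78, true, true, false, [(0, 19)], []⟩,
  ⟨2655, 90, 0, 104, 48, true, true, false, [(0, 25)], []⟩,
  ⟨6452, 90, 0, 0, 0, true, false, false, [(0, 36)], []⟩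
  ] = true := by decide +kernel

def g86_12 : Gr := ⟨false, 340, 348, 1024, 1024, 86, 90, 9496, 9715, 0, 2048, 0, []⟩

theorem k86_12 : chk g86_12 T325 [
  ⟨355, 90, 720, 16, 272, false, false, false, [(0, 1), (3, 5), (15, 3), (6, 1), (7, 3), (8, 2), (9, 3), (3, 17)], []⟩,
  ⟨529, 90, 720, 64, 220, false, true, false, [(0, 1), (3, 13), (8, 1), (3, 15)], []⟩,
  ⟨650, 90, 720, 64, 208, false, false, false, [(0, 1), (3, 29)], []⟩,
  ⟨709, 90, 540, 192, 98, false, true, false, [(0, 1), (3, 16)], []⟩,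
  ⟨750, 90, 540, 192, 98, false, true, false, [(0, 1), (3, 16)], []⟩,
  ⟨791, 90, 540, 192, 98, false, true, false, [(0, 1), (3, 16)], []⟩,
  ⟨820, 90, 540, 192, 98, false, true, false, [(0, 1), (3, 16)], []⟩,
  ⟨840, 90, 540, 192, 98, false, true, false, [(0, 1), (3, 16)], []⟩,
  ⟨854, 90, 540, 192, 98, false, true, false, [(0, 1), (3, 16)], []⟩,
  ⟨864, 90, 0, 208, 109, true, true, false, [(0, 1), (3, 14)], []⟩,
  ⟨879, 90, 0, 208, 109, true, true, false, [(0, 1), (3, 14)], []⟩,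
  ⟨894, 90, 0, 208, 109, true, true, false, [(0, 1), (3, 14)], []⟩,
  ⟨916, 90, 0, 208, 109, true, true, false, [(0, 1), (3, 14)], []⟩,
  ⟨938, 90, 0, 208, 109, true, true, false, [(0, 1), (3, 14)], []⟩,
  ⟨969, 90, 0, 208, 109, true, true, false, [(0, 1), (3, 14)], []⟩,
  ⟨1000, 90, 0, 208, 109, true, true, false, [(0, 1), (3, 14)], []⟩,
  ⟨1045, 90, 0, 208, 109, true, true, false, [(0, 1), (3, 14)], []⟩,
  ⟨1090, 90, 0, 208, 109, true, true, false, [(0, 1), (3, 14)], []⟩,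
  ⟨1135, 90, 0, 208, 109, true, true, false, [(0, 1), (3, 14)], []⟩,
  ⟨1199, 90, 0, 208, 109, true, true, false, [(0, 1), (3, 14)], []⟩,
  ⟨1244, 90, 0, 208, 109, true, true, false, [(0, 2), (3, 13)], []⟩,
  ⟨1289, 90, 0, 208, 109, true, true, false, [(0, 2), (3, 13)], []⟩,
  ⟨1334, 90, 0, 208, 109, true, true, false, [(0, 2), (3, 13)], []⟩,
  ⟨1365, 90, 0, 208, 109, true, true, false, [(0, 2), (3, 13)], []⟩,
  ⟨1396, 90, 0, 192, 98, true, true, false, [(0, 2), (3, 15)], []⟩,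
  ⟨1427, 90, 0, 192, 98, true, true, false, [(0, 2), (3, 15)], []⟩,
  ⟨1458, 90, 0, 192, 98, true, true, false, [(0, 3), (3, 14)], []⟩,
  ⟨1489, 90, 0, 192, 98, true, true, false, [(0, 3), (3, 14)], []⟩,
  ⟨1511, 90, 0, 192, 98, true, true, false, [(0, 4), (3, 13)], []⟩,
  ⟨1533, 90, 0, 192, 98, true, true, false, [(0, 5), (3, 12)], []⟩,
  ⟨1548, 90, 0, 192, 98, true, true, false, [(0, 7), (3, 10)], []⟩,
  ⟨1563, 90, 0, 192, 98, true, true, false, [(0, 11), (3, 6)], []⟩,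
  ⟨1585, 90, 0, 192, 98, true, true, false, [(0, 17)], []⟩,
  ⟨1617, 90, 0, 192, 98, true, true, false, [(0, 17)], []⟩,
  ⟨1664, 90, 0, 192, 98, true, true, false, [(0, 17)], []⟩,
  ⟨1797, 90, 0, 160, 78, true, true, false, [(0, 20)], []⟩,
  ⟨2168, 90, 0, 160, 78, true, true, false, [(0, 20)], []⟩,
  ⟨3190, 90, 0, 88, 40, true, true, false, [(0, 28)], []⟩,
  ⟨6604, 90, 0, 0, 0, true, false, false, [(0, 37)], []⟩
  ] = true := by decide +kernel

def g86_13 : Gr := ⟨false, 348, 356, 1024, 1024, 86, 90, 9496, 9715, 0, 2048, 0, []⟩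

theorem k86_13 : chk g86_13 T325 [
  ⟨355, 120, 720, 28, 268, false, false, false, [(0, 1), (3, 4), (15, 2), (7, 2), (8, 2), (9, 2), (3, 13)], []⟩,
  ⟨529, 120, 720, 40, 248, false, false, false, [(0, 1), (3, 24)], []⟩,
  ⟨650, 120, 480, 192, 98, false, true, false, [(0, 1), (3, 12)], []⟩,
  ⟨735, 120, 480, 192, 98, false, true, false, [(0, 1), (3, 12)], []⟩,
  ⟨820, 120, 480, 192, 98, false, true, false, [(0, 1), (3, 12)], []⟩,
  ⟨879, 120, 480, 192, 98, false, true, false, [(0, 1), (3, 12)], []⟩,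
  ⟨920, 120, 480, 192, 98, false, true, false, [(0, 1), (3, 12)], []⟩,
  ⟨949, 120, 480, 192, 98, false, true, false, [(0, 1), (3, 12)], []⟩,
  ⟨969, 120, 480, 192, 98, false, true, false, [(0, 1), (3, 12)], []⟩,
  ⟨983, 120, 480, 192, 98, false, true, false, [(0, 1), (3, 12)], []⟩,
  ⟨993, 120, 480, 192, 98, false, true, false, [(0, 1), (3, 12)], []⟩,
  ⟨1003, 120, 480, 192, 98, false, true, false, [(0, 1), (3, 12)], []⟩,
  ⟨1013, 120, 0, 192, 98, true, true, false, [(0, 1), (3, 12)], []⟩,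
  ⟨1023, 120, 0, 192, 98, true, true, false, [(0, 1), (3, 12)], []⟩,
  ⟨1038, 120, 0, 192, 98, true, true, false, [(0, 1), (3, 12)], []⟩,
  ⟨1053, 120, 0, 192, 98, true, true, false, [(0, 1), (3, 12)], []⟩,
  ⟨1075, 120, 0, 192, 98, true, true, false, [(0, 1), (3, 12)], []⟩,
  ⟨1097, 120, 0, 192, 98, true, true, false, [(0, 1), (3, 12)], []⟩,
  ⟨1128, 120, 0, 192, 98, true, true, false, [(0, 1), (3, 12)], []⟩,
  ⟨1159, 120, 0, 192, 98, true, true, false, [(0, 1), (3, 12)], []⟩,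
  ⟨1204, 120, 0, 192, 98, true, true, false, [(0, 1), (3, 12)], []⟩,
  ⟨1249, 120, 0, 192, 98, true, true, false, [(0, 2), (3, 11)], []⟩,
  ⟨1294, 120, 0, 192, 98, true, true, false, [(0, 2), (3, 11)], []⟩,
  ⟨1358, 120, 0, 192, 98, true, true, false, [(0, 2), (3, 11)], []⟩,
  ⟨1422, 120, 0, 192, 98, true, true, false, [(0, 2), (3, 11)], []⟩,
  ⟨1486, 120, 0, 192, 98, true, true, false, [(0, 3), (3, 10)], []⟩,
  ⟨1531, 120, 0, 192, 98, true, true, false, [(0, 3), (3, 10)], []⟩,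
  ⟨1576, 120, 0, 192, 98, true, true, false, [(0, 5), (3, 8)], []⟩,
  ⟨1607, 120, 0, 192, 98, true, true, false, [(0, 9), (3, 4)], []⟩,
  ⟨1671, 120, 0, 192, 98, true, true, false, [(0, 13)], []⟩,
  ⟨1762, 120, 0, 192, 98, true, true, false, [(0, 13)], []⟩,
  ⟨1943, 120, 0, 160, 78, true, true, false, [(0, 16)], []⟩,
  ⟨2446, 120, 0, 144, 69, true, true, false, [(0, 17)], []⟩,
  ⟨6255, 120, 0, 2, 1, true, true, false, [(0, 28)], []⟩,
  ⟨6755, 120, 0, 0, 0, true, false, false, [(0, 29)], []⟩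
  ] = true := by decide +kernel

def g86_14 : Gr := ⟨false, 356, 359, 1024, 1024, 86, 90, 9496, 9715, 0, 2048, 0, []⟩

theorem k86_14 : chk g86_14 T325 [
  ⟨355, 120, 720, 32, 278, false, true, false, [(0, 1), (3, 4), (15, 2), (7, 2), (8, 2), (9, 2), (3, 13)], []⟩,
  ⟨603, 120, 720, 56, 233, false, true, false, [(0, 1), (3, 9), (8, 1), (3, 1), (9, 1), (3, 11)], []⟩,
  ⟨724, 120, 720, 96, 188, false, true, false, [(0, 1), (3, 20)], []⟩,
  ⟨845, 120, 480, 208, 109, false, true, false, [(0, 1), (3, 11)], []⟩,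
  ⟨930, 120, 0, 224, 120, true, true, false, [(0, 1), (3, 10)], []⟩,
  ⟨1015, 120, 0, 224, 120, true, true, false, [(0, 1), (3, 10)], []⟩,
  ⟨1100, 120, 0, 208, 109, true, true, false, [(0, 1), (3, 11)], []⟩,
  ⟨1220, 120, 0, 208, 109, true, true, false, [(0, 1), (3, 11)], []⟩,
  ⟨1340, 120, 0, 208, 109, true, true, false, [(0, 2), (3, 10)], []⟩,
  ⟨1460, 120, 0, 208, 109, true, true, false, [(0, 2), (3, 10)], []⟩,
  ⟨1543, 120, 0, 208, 109, true, true, false, [(0, 3), (3, 9)], []⟩,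
  ⟨1583, 120, 0, 208, 109, true, true, false, [(0, 4), (3, 8)], []⟩,
  ⟨1611, 120, 0, 208, 109, true, true, false, [(0, 5), (3, 7)], []⟩,
  ⟨1631, 120, 0, 192, 98, true, true, false, [(0, 8), (3, 6)], []⟩,
  ⟨1660, 120, 0, 192, 98, true, true, false, [(0, 14)], []⟩,
  ⟨1719, 120, 0, 192, 98, true, true, false, [(0, 14)], []⟩,
  ⟨1886, 120, 0, 176, 88, true, true, false, [(0, 15)], []⟩,
  ⟨2349, 120, 0, 144, 69, true, true, false, [(0, 17)], []⟩,
  ⟨4137, 120, 0, 44, 19, true, true, false, [(0, 25)], []⟩,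
  ⟨6812, 120, 0, 0, 0, true, false, false, [(0, 29)], []⟩
  ] = true := by decide +kernel

def g86_15 : Gr := ⟨false, 358, 363, 1024, 1024, 86, 90, 9496, 9715, 0, 2048, 0, []⟩

theorem k86_15 : chk g86_15 T350 [
  ⟨355, 120, 720, 60, 252, false, false, false, [(0, 1), (3, 4), (18, 2), (9, 2), (10, 2), (11, 2), (3, 11)], []⟩,
  ⟨603, 120, 720, 60, 228, false, false, false, [(0, 1), (3, 9), (10, 1), (11, 2), (3, 11)], []⟩,
  ⟨724, 120, 720, 112, 172, false, true, false, [(0, 1), (3, 19)], []⟩,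
  ⟨809, 120, 600, 176, 104, false, true, false, [(0, 1), (3, 14)], []⟩,
  ⟨894, 120, 0, 224, 120, true, true, false, [(0, 1), (3, 10)], []⟩,
  ⟨979, 120, 0, 224, 120, true, true, false, [(0, 1), (3, 10)], []⟩,
  ⟨1064, 120, 0, 224, 120, true, true, false, [(0, 1), (3, 10)], []⟩,
  ⟨1149, 120, 0, 224, 120, true, true, false, [(0, 1), (3, 10)], []⟩,
  ⟨1234, 120, 0, 224, 120, true, true, false, [(0, 1), (3, 10)], []⟩,
  ⟨1293, 120, 0, 224, 120, true, true, false, [(0, 2), (3, 9)], []⟩,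
  ⟨1334, 120, 0, 224, 120, true, true, false, [(0, 2), (3, 9)], []⟩,
  ⟨1363, 120, 0, 208, 109, true, true, false, [(0, 2), (3, 11)], []⟩,
  ⟨1392, 120, 0, 208, 109, true, true, false, [(0, 2), (3, 11)], []⟩,
  ⟨1421, 120, 0, 208, 109, true, true, false, [(0, 2), (3, 11)], []⟩,
  ⟨1450, 120, 0, 192, 98, true, true, false, [(0, 2), (3, 12)], []⟩,
  ⟨1479, 120, 0, 192, 98, true, true, false, [(0, 2), (3, 12)], []⟩,
  ⟨1508, 120, 0, 192, 98, true, true, false, [(0, 3), (3, 11)], []⟩,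
  ⟨1537, 120, 0, 192, 98, true, true, false, [(0, 3), (3, 11)], []⟩,
  ⟨1566, 120, 0, 192, 98, true, true, false, [(0, 3), (3, 11)], []⟩,
  ⟨1595, 120, 0, 192, 98, true, true, false, [(0, 4), (3, 10)], []⟩,
  ⟨1624, 120, 0, 192, 98, true, true, false, [(0, 5), (3, 9)], []⟩,
  ⟨1644, 120, 0, 192, 98, true, true, false, [(0, 9), (3, 5)], []⟩,
  ⟨1686, 120, 0, 192, 98, true, true, false, [(0, 14)], []⟩,
  ⟨1807, 120, 0, 176, 88, true, true, false, [(0, 15)], []⟩,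
  ⟨2046, 120, 0, 176, 88, true, true, false, [(0, 15)], []⟩,
  ⟨2708, 120, 0, 112, 52, true, true, false, [(0, 20)], []⟩,
  ⟨6279, 120, 0, 0, 0, true, false, false, [(0, 29)], []⟩,
  ⟨6888, 120, 0, 0, 0, true, false, false, [(0, 29)], []⟩
  ] = true := by decide +kernel

def g86_16 : Gr := ⟨false, 363, 369, 1024, 1024, 86, 90, 9496, 9715, 0, 2048, 0, []⟩

theorem k86_16 : chk g86_16 T350 [
  ⟨355, 120, 720, 16, 295, false, true, false, [(0, 1), (3, 4), (18, 2), (9, 2), (10, 2), (11, 2), (3, 15)], []⟩,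
  ⟨603, 120, 720, 104, 200, false, false, false, [(0, 1), (3, 9), (10, 1), (11, 2), (3, 8)], []⟩,
  ⟨724, 120, 720, 104, 184, false, false, false, [(0, 1), (3, 20)], []⟩,
  ⟨845, 120, 600, 192, 98, false, true, false, [(0, 1), (3, 13)], []⟩,
  ⟨930, 120, 480, 192, 98, false, true, false, [(0, 1), (3, 13)], []⟩,
  ⟨989, 120, 480, 192, 98, false, true, false, [(0, 1), (3, 13)], []⟩,
  ⟨1030, 120, 480, 192, 98, false, true, false, [(0, 1), (3, 13)], []⟩,
  ⟨1059, 120, 480, 192, 98, false, true, false, [(0, 1), (3, 13)], []⟩,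
  ⟨1088, 120, 0, 224, 120, true, true, false, [(0, 1), (3, 11)], []⟩,
  ⟨1117, 120, 0, 224, 120, true, true, false, [(0, 1), (3, 11)], []⟩,
  ⟨1146, 120, 0, 192, 98, true, true, false, [(0, 1), (3, 13)], []⟩,
  ⟨1187, 120, 0, 208, 109, true, true, false, [(0, 1), (3, 12)], []⟩,
  ⟨1228, 120, 0, 192, 98, true, true, false, [(0, 1), (3, 13)], []⟩,
  ⟨1287, 120, 0, 192, 98, true, true, false, [(0, 2), (3, 12)], []⟩,
  ⟨1346, 120, 0, 192, 98, true, true, false, [(0, 2), (3, 12)], []⟩,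
  ⟨1405, 120, 0, 192, 98, true, true, false, [(0, 2), (3, 12)], []⟩,
  ⟨1489, 120, 0, 192, 98, true, true, false, [(0, 2), (3, 12)], []⟩,
  ⟨1572, 120, 0, 192, 98, true, true, false, [(0, 3), (3, 11)], []⟩,
  ⟨1630, 120, 0, 192, 98, true, true, false, [(0, 4), (3, 10)], []⟩,
  ⟨1671, 120, 0, 192, 98, true, true, false, [(0, 7), (3, 7)], []⟩,
  ⟨1754, 120, 0, 192, 98, true, true, false, [(0, 14)], []⟩,
  ⟨1871, 120, 0, 192, 98, true, true, false, [(0, 14)], []⟩,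
  ⟨2196, 120, 0, 160, 78, true, true, false, [(0, 17)], []⟩,
  ⟨3094, 120, 0, 104, 48, true, true, false, [(0, 21)], []⟩,
  ⟨6553, 120, 0, 0, 0, true, false, false, [(0, 30)], []⟩,
  ⟨7002, 120, 0, 0, 0, true, false, false, [(0, 30)], []⟩
  ] = true := by decide +kernel

def g86_17 : Gr := ⟨false, 369, 377, 1024, 1024, 86, 90, 9496, 9715, 0, 2048, 0, []⟩

theorem k86_17 : chk g86_17 T350 [
  ⟨498, 90, 720, 28, 276, false, false, false, [(0, 1), (3, 5), (18, 3), (8, 1), (9, 3), (10, 2), (11, 3), (12, 3), (3, 16)], []⟩,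
  ⟨668, 90, 720, 64, 232, false, false, false, [(0, 1), (3, 15), (11, 2), (3, 15)], []⟩,
  ⟨787, 90, 720, 96, 192, false, false, false, [(0, 1), (3, 29)], []⟩,
  ⟨870, 90, 540, 208, 109, false, true, false, [(0, 1), (3, 17)], []⟩,
  ⟨928, 90, 540, 208, 109, false, true, false, [(0, 1), (3, 17)], []⟩,
  ⟨969, 90, 540, 208, 109, false, true, false, [(0, 1), (3, 17)], []⟩,
  ⟨997, 90, 0, 240, 132, true, true, false, [(0, 1), (3, 14)], []⟩,
  ⟨1025, 90, 0, 240, 132, true, true, false, [(0, 1), (3, 14)], []⟩,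
  ⟨1053, 90, 0, 208, 109, true, true, false, [(0, 1), (3, 17)], []⟩,
  ⟨1094, 90, 0, 208, 109, true, true, false, [(0, 1), (3, 17)], []⟩,
  ⟨1135, 90, 0, 208, 109, true, true, false, [(0, 1), (3, 17)], []⟩,
  ⟨1193, 90, 0, 208, 109, true, true, false, [(0, 1), (3, 17)], []⟩,
  ⟨1251, 90, 0, 208, 109, true, true, false, [(0, 1), (3, 17)], []⟩,
  ⟨1309, 90, 0, 208, 109, true, true, false, [(0, 2), (3, 16)], []⟩,
  ⟨1392, 90, 0, 208, 109, true, true, false, [(0, 2), (3, 16)], []⟩,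
  ⟨1450, 90, 0, 208, 109, true, true, false, [(0, 2), (3, 16)], []⟩,
  ⟨1508, 90, 0, 208, 109, true, true, false, [(0, 2), (3, 16)], []⟩,
  ⟨1548, 90, 0, 208, 109, true, true, false, [(0, 3), (3, 15)], []⟩,
  ⟨1588, 90, 0, 208, 109, true, true, false, [(0, 3), (3, 15)], []⟩,
  ⟨1616, 90, 0, 208, 109, true, true, false, [(0, 4), (3, 14)], []⟩,
  ⟨1635, 90, 0, 192, 98, true, true, false, [(0, 4), (3, 16)], []⟩,
  ⟨1654, 90, 0, 192, 98, true, true, false, [(0, 5), (3, 15)], []⟩,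
  ⟨1673, 90, 0, 192, 98, true, true, false, [(0, 6), (3, 14)], []⟩,
  ⟨1692, 90, 0, 192, 98, true, true, false, [(0, 10), (3, 10)], []⟩,
  ⟨1711, 90, 0, 192, 98, true, true, false, [(0, 20)], []⟩,
  ⟨1752, 90, 0, 192, 98, true, true, false, [(0, 20)], []⟩,
  ⟨1835, 90, 0, 192, 98, true, true, false, [(0, 20)], []⟩,
  ⟨2069, 90, 0, 160, 78, true, true, false, [(0, 23)], []⟩,
  ⟨2716, 90, 0, 112, 52, true, true, false, [(0, 28)], []⟩,
  ⟨6208, 90, 0, 0, 0, true, false, false, [(0, 40)], []⟩,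
  ⟨7154, 90, 0, 0, 0, true, false, false, [(0, 40)], []⟩
  ] = true := by decide +kernel

def g86_18 : Gr := ⟨false, 377, 384, 1024, 1024, 86, 90, 9496, 9715, 0, 2048, 0, []⟩

theorem k86_18 : chk g86_18 T350 [
  ⟨498, 90, 720, 24, 288, false, false, false, [(0, 1), (3, 5), (18, 3), (8, 1), (9, 3), (10, 2), (11, 3), (12, 3), (3, 17)], []⟩,
  ⟨668, 90, 720, 72, 232, false, false, false, [(0, 1), (3, 16), (11, 1), (3, 15)], []⟩,
  ⟨787, 90, 720, 72, 224, false, false, false, [(0, 1), (3, 32)], []⟩,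
  ⟨870, 90, 630, 128, 160, false, false, false, [(0, 1), (3, 26)], []⟩,
  ⟨928, 90, 540, 208, 109, false, true, false, [(0, 1), (3, 18)], []⟩,
  ⟨986, 90, 540, 208, 109, false, true, false, [(0, 1), (3, 18)], []⟩,
  ⟨1044, 90, 0, 224, 120, true, true, false, [(0, 1), (3, 16)], []⟩,
  ⟨1127, 90, 0, 224, 120, true, true, false, [(0, 1), (3, 16)], []⟩,
  ⟨1210, 90, 0, 224, 120, true, true, false, [(0, 1), (3, 16)], []⟩,
  ⟨1293, 90, 0, 224, 120, true, true, false, [(0, 1), (3, 16)], []⟩,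
  ⟨1376, 90, 0, 224, 120, true, true, false, [(0, 2), (3, 15)], []⟩,
  ⟨1459, 90, 0, 208, 109, true, true, false, [(0, 2), (3, 17)], []⟩,
  ⟨1517, 90, 0, 208, 109, true, true, false, [(0, 2), (3, 17)], []⟩,
  ⟨1575, 90, 0, 208, 109, true, true, false, [(0, 2), (3, 17)], []⟩,
  ⟨1615, 90, 0, 208, 109, true, true, false, [(0, 3), (3, 16)], []⟩,
  ⟨1655, 90, 0, 208, 109, true, true, false, [(0, 3), (3, 16)], []⟩,
  ⟨1674, 90, 0, 208, 109, true, true, false, [(0, 4), (3, 15)], []⟩,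
  ⟨1693, 90, 0, 208, 109, true, true, false, [(0, 5), (3, 14)], []⟩,
  ⟨1706, 90, 0, 192, 98, true, true, false, [(0, 7), (3, 14)], []⟩,
  ⟨1715, 90, 0, 192, 98, true, true, false, [(0, 8), (3, 13)], []⟩,
  ⟨1724, 90, 0, 192, 98, true, true, false, [(0, 11), (3, 10)], []⟩,
  ⟨1733, 90, 0, 192, 98, true, true, false, [(0, 15), (3, 6)], []⟩,
  ⟨1742, 90, 0, 192, 98, true, true, false, [(0, 21)], []⟩,
  ⟨1773, 90, 0, 192, 98, true, true, false, [(0, 21)], []⟩,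
  ⟨1862, 90, 0, 176, 88, true, true, false, [(0, 22)], []⟩,
  ⟨2113, 90, 0, 176, 88, true, true, false, [(0, 22)], []⟩,
  ⟨2806, 90, 0, 128, 60, true, true, false, [(0, 27)], []⟩,
  ⟨6545, 90, 0, 0, 0, true, false, false, [(0, 41)], []⟩,
  ⟨7287, 90, 0, 0, 0, true, false, false, [(0, 41)], []⟩
  ] = true := by decide +kernel

def g86_19 : Gr := ⟨false, 384, 394, 1024, 1024, 86, 90, 9496, 9715, 0, 2048, 0, []⟩

theorem k86_19 : chk g86_19 T375 [
  ⟨498, 120, 720, 28, 292, false, false, false, [(0, 1), (3, 4), (19, 2), (9, 2), (10, 2), (11, 2), (12, 2), (3, 14)], []⟩,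
  ⟨668, 120, 720, 80, 232, false, false, false, [(0, 1), (3, 11), (11, 1), (3, 12)], []⟩,
  ⟨787, 120, 720, 80, 220, false, true, false, [(0, 1), (3, 24)], []⟩,
  ⟨870, 120, 720, 104, 192, false, false, false, [(0, 1), (3, 22)], []⟩,
  ⟨928, 120, 720, 104, 184, false, false, false, [(0, 1), (3, 22)], []⟩,
  ⟨969, 120, 600, 192, 98, false, true, false, [(0, 1), (3, 15)], []⟩,
  ⟨1010, 120, 600, 192, 98, false, true, false, [(0, 1), (3, 15)], []⟩,
  ⟨1038, 120, 600, 192, 98, false, true, false, [(0, 1), (3, 15)], []⟩,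
  ⟨1058, 120, 600, 192, 98, false, true, false, [(0, 1), (3, 15)], []⟩,
  ⟨1072, 120, 600, 192, 98, false, true, false, [(0, 1), (3, 15)], []⟩,
  ⟨1081, 120, 0, 224, 120, true, true, false, [(0, 1), (3, 13)], []⟩,
  ⟨1095, 120, 0, 224, 120, true, true, false, [(0, 1), (3, 13)], []⟩,
  ⟨1109, 120, 0, 224, 120, true, true, false, [(0, 1), (3, 13)], []⟩,
  ⟨1123, 120, 0, 224, 120, true, true, false, [(0, 1), (3, 13)], []⟩,
  ⟨1144, 120, 0, 224, 120, true, true, false, [(0, 1), (3, 13)], []⟩,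
  ⟨1165, 120, 0, 224, 120, true, true, false, [(0, 1), (3, 13)], []⟩,
  ⟨1186, 120, 0, 224, 120, true, true, false, [(0, 1), (3, 13)], []⟩,
  ⟨1217, 120, 0, 224, 120, true, true, false, [(0, 1), (3, 13)], []⟩,
  ⟨1248, 120, 0, 224, 120, true, true, false, [(0, 1), (3, 13)], []⟩,
  ⟨1279, 120, 0, 224, 120, true, true, false, [(0, 1), (3, 13)], []⟩,
  ⟨1310, 120, 0, 224, 120, true, true, false, [(0, 2), (3, 12)], []⟩,
  ⟨1341, 120, 0, 208, 109, true, true, false, [(0, 2), (3, 13)], []⟩,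
  ⟨1372, 120, 0, 208, 109, true, true, false, [(0, 2), (3, 13)], []⟩,
  ⟨1416, 120, 0, 208, 109, true, true, false, [(0, 2), (3, 13)], []⟩,
  ⟨1460, 120, 0, 208, 109, true, true, false, [(0, 2), (3, 13)], []⟩,
  ⟨1504, 120, 0, 208, 109, true, true, false, [(0, 2), (3, 13)], []⟩,
  ⟨1548, 120, 0, 208, 109, true, true, false, [(0, 2), (3, 13)], []⟩,
  ⟨1579, 120, 0, 208, 109, true, true, false, [(0, 2), (3, 13)], []⟩,
  ⟨1610, 120, 0, 192, 98, true, true, false, [(0, 3), (3, 13)], []⟩,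
  ⟨1641, 120, 0, 192, 98, true, true, false, [(0, 3), (3, 13)], []⟩,
  ⟨1672, 120, 0, 192, 98, true, true, false, [(0, 3), (3, 13)], []⟩,
  ⟨1703, 120, 0, 192, 98, true, true, false, [(0, 4), (3, 12)], []⟩,
  ⟨1734, 120, 0, 192, 98, true, true, false, [(0, 5), (3, 11)], []⟩,
  ⟨1756, 120, 0, 192, 98, true, true, false, [(0, 8), (3, 8)], []⟩,
  ⟨1787, 120, 0, 192, 98, true, true, false, [(0, 16)], []⟩,
  ⟨1851, 120, 0, 192, 98, true, true, false, [(0, 16)], []⟩,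
  ⟨1980, 120, 0, 192, 98, true, true, false, [(0, 16)], []⟩,
  ⟨2236, 120, 0, 160, 78, true, true, false, [(0, 19)], []⟩,
  ⟨2942, 120, 0, 104, 48, true, true, false, [(0, 23)], []⟩,
  ⟨6754, 120, 0, 0, 0, true, false, false, [(0, 32)], []⟩,
  ⟨7476, 120, 0, 0, 0, true, false, false, [(0, 32)], []⟩
  ] = true := by decide +kernel

def g86_20 : Gr := ⟨false, 394, 400, 1024, 1024, 86, 90, 9496, 9715, 0, 2048, 0, []⟩

theorem k86_20 : chk g86_20 T375 [
  ⟨498, 120, 720, 24, 296, false, false, false, [(0, 1), (3, 4), (19, 2), (9, 2), (10, 2), (11, 2), (12, 2), (3, 15)], []⟩,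
  ⟨742, 120, 720, 72, 240, false, false, false, [(0, 1), (3, 11), (11, 1), (3, 1), (12, 1), (3, 11)], []⟩,
  ⟨912, 120, 600, 160, 142, false, true, false, [(0, 1), (3, 18)], []⟩,
  ⟨995, 120, 600, 160, 134, false, true, false, [(0, 1), (3, 18)], []⟩,
  ⟨1078, 120, 0, 224, 120, true, true, false, [(0, 1), (3, 13)], []⟩,
  ⟨1161, 120, 0, 224, 120, true, true, false, [(0, 1), (3, 13)], []⟩,
  ⟨1279, 120, 0, 224, 120, true, true, false, [(0, 1), (3, 13)], []⟩,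
  ⟨1397, 120, 0, 224, 120, true, true, false, [(0, 2), (3, 12)], []⟩,
  ⟨1515, 120, 0, 224, 120, true, true, false, [(0, 2), (3, 12)], []⟩,
  ⟨1572, 120, 0, 224, 120, true, true, false, [(0, 2), (3, 12)], []⟩,
  ⟨1612, 120, 0, 224, 120, true, true, false, [(0, 2), (3, 12)], []⟩,
  ⟨1652, 120, 0, 208, 109, true, true, false, [(0, 3), (3, 13)], []⟩,
  ⟨1680, 120, 0, 208, 109, true, true, false, [(0, 3), (3, 13)], []⟩,
  ⟨1708, 120, 0, 208, 109, true, true, false, [(0, 3), (3, 13)], []⟩,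
  ⟨1736, 120, 0, 192, 98, true, true, false, [(0, 4), (3, 13)], []⟩,
  ⟨1755, 120, 0, 192, 98, true, true, false, [(0, 5), (3, 12)], []⟩,
  ⟨1774, 120, 0, 192, 98, true, true, false, [(0, 6), (3, 11)], []⟩,
  ⟨1793, 120, 0, 192, 98, true, true, false, [(0, 7), (3, 10)], []⟩,
  ⟨1806, 120, 0, 192, 98, true, true, false, [(0, 10), (3, 7)], []⟩,
  ⟨1826, 120, 0, 192, 98, true, true, false, [(0, 17)], []⟩,
  ⟨1886, 120, 0, 192, 98, true, true, false, [(0, 17)], []⟩,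
  ⟨2056, 120, 0, 176, 88, true, true, false, [(0, 18)], []⟩,
  ⟨2528, 120, 0, 160, 78, true, true, false, [(0, 19)], []⟩,
  ⟨4348, 120, 0, 36, 16, true, true, false, [(0, 29)], []⟩,
  ⟨7590, 120, 0, 0, 0, true, false, false, [(0, 32)], []⟩
  ] = true := by decide +kernel

def g86_21 : Gr := ⟨false, 400, 410, 1024, 1024, 86, 90, 9496, 9715, 0, 2048, 0, []⟩

theorem k86_21 : chk g86_21 T375 [
  ⟨498, 120, 720, 32, 296, false, false, false, [(0, 1), (3, 4), (19, 2), (9, 2), (10, 2), (11, 2), (12, 2), (3, 15)], []⟩,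
  ⟨742, 120, 720, 72, 240, false, false, false, [(0, 1), (3, 11), (11, 1), (3, 1), (12, 1), (3, 12)], []⟩,
  ⟨912, 120, 720, 96, 208, false, false, false, [(0, 1), (3, 24)], []⟩,
  ⟨995, 120, 720, 96, 200, false, false, false, [(0, 1), (3, 24)], []⟩,
  ⟨1053, 120, 600, 208, 109, false, true, false, [(0, 1), (3, 15)], []⟩,
  ⟨1094, 120, 480, 208, 109, false, true, false, [(0, 1), (3, 15)], []⟩,
  ⟨1122, 120, 0, 240, 132, true, true, false, [(0, 1), (3, 13)], []⟩,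
  ⟨1163, 120, 0, 224, 120, true, true, false, [(0, 1), (3, 14)], []⟩,
  ⟨1204, 120, 0, 224, 120, true, true, false, [(0, 1), (3, 14)], []⟩,
  ⟨1262, 120, 0, 224, 120, true, true, false, [(0, 1), (3, 14)], []⟩,
  ⟨1320, 120, 0, 224, 120, true, true, false, [(0, 1), (3, 14)], []⟩,
  ⟨1378, 120, 0, 224, 120, true, true, false, [(0, 2), (3, 13)], []⟩,
  ⟨1436, 120, 0, 208, 109, true, true, false, [(0, 2), (3, 14)], []⟩,
  ⟨1494, 120, 0, 208, 109, true, true, false, [(0, 2), (3, 14)], []⟩,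
  ⟨1552, 120, 0, 208, 109, true, true, false, [(0, 2), (3, 14)], []⟩,
  ⟨1610, 120, 0, 208, 109, true, true, false, [(0, 2), (3, 14)], []⟩,
  ⟨1668, 120, 0, 208, 109, true, true, false, [(0, 3), (3, 13)], []⟩,
  ⟨1726, 120, 0, 208, 109, true, true, false, [(0, 3), (3, 13)], []⟩,
  ⟨1767, 120, 0, 208, 109, true, true, false, [(0, 4), (3, 12)], []⟩,
  ⟨1795, 120, 0, 208, 109, true, true, false, [(0, 5), (3, 11)], []⟩,
  ⟨1823, 120, 0, 208, 109, true, true, false, [(0, 7), (3, 9)], []⟩,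
  ⟨1837, 120, 0, 208, 109, true, true, false, [(0, 12), (3, 4)], []⟩,
  ⟨1857, 120, 0, 208, 109, true, true, false, [(0, 16)], []⟩,
  ⟨1877, 120, 0, 208, 109, true, true, false, [(0, 16)], []⟩,
  ⟨1897, 120, 0, 208, 109, true, true, false, [(0, 16)], []⟩,
  ⟨1958, 120, 0, 192, 98, true, true, false, [(0, 18)], []⟩,
  ⟨2130, 120, 0, 176, 88, true, true, false, [(0, 19)], []⟩,
  ⟨2470, 120, 0, 160, 78, true, true, false, [(0, 20)], []⟩,
  ⟨3784, 120, 0, 56, 25, true, true, false, [(0, 28)], []⟩,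
  ⟨7395, 120, 0, 0, 0, true, false, false, [(0, 33)], []⟩,
  ⟨7780, 120, 0, 0, 0, true, false, false, [(0, 33)], []⟩
  ] = true := by decide +kernel

def g86_22 : Gr := ⟨false, 409, 422, 1024, 1024, 86, 90, 9496, 9715, 0, 2048, 0, []⟩

theorem k86_22 : chk g86_22 T400 [
  ⟨498, 120, 720, 32, 304, false, false, false, [(0, 1), (3, 4), (22, 2), (11, 2), (12, 2), (13, 2), (14, 2), (15, 2), (3, 14)], []⟩,
  ⟨742, 120, 720, 96, 232, false, false, false, [(0, 1), (3, 11), (13, 1), (14, 2), (3, 11)], []⟩,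
  ⟨912, 120, 720, 96, 216, false, false, false, [(0, 1), (3, 13), (14, 1), (3, 11)], []⟩,
  ⟨1031, 120, 720, 96, 204, false, true, false, [(0, 1), (3, 25)], []⟩,
  ⟨1089, 120, 600, 144, 152, false, false, false, [(0, 1), (3, 21)], []⟩,
  ⟨1130, 120, 600, 208, 109, false, true, false, [(0, 1), (3, 16)], []⟩,
  ⟨1158, 120, 0, 240, 132, true, true, false, [(0, 1), (3, 14)], []⟩,
  ⟨1186, 120, 0, 240, 132, true, true, false, [(0, 1), (3, 14)], []⟩,
  ⟨1214, 120, 0, 224, 120, true, true, false, [(0, 1), (3, 15)], []⟩,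
  ⟨1255, 120, 0, 224, 120, true, true, false, [(0, 1), (3, 15)], []⟩,
  ⟨1296, 120, 0, 224, 120, true, true, false, [(0, 1), (3, 15)], []⟩,
  ⟨1337, 120, 0, 224, 120, true, true, false, [(0, 1), (3, 15)], []⟩,
  ⟨1395, 120, 0, 224, 120, true, true, false, [(0, 2), (3, 14)], []⟩,
  ⟨1453, 120, 0, 224, 120, true, true, false, [(0, 2), (3, 14)], []⟩,
  ⟨1511, 120, 0, 224, 120, true, true, false, [(0, 2), (3, 14)], []⟩,
  ⟨1569, 120, 0, 208, 109, true, true, false, [(0, 2), (3, 15)], []⟩,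
  ⟨1627, 120, 0, 208, 109, true, true, false, [(0, 2), (3, 15)], []⟩,
  ⟨1685, 120, 0, 208, 109, true, true, false, [(0, 2), (3, 15)], []⟩,
  ⟨1726, 120, 0, 208, 109, true, true, false, [(0, 3), (3, 14)], []⟩,
  ⟨1767, 120, 0, 208, 109, true, true, false, [(0, 3), (3, 14)], []⟩,
  ⟨1808, 120, 0, 208, 109, true, true, false, [(0, 4), (3, 13)], []⟩,
  ⟨1836, 120, 0, 208, 109, true, true, false, [(0, 5), (3, 12)], []⟩,
  ⟨1856, 120, 0, 208, 109, true, true, false, [(0, 7), (3, 10)], []⟩,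
  ⟨1870, 120, 0, 208, 109, true, true, false, [(0, 10), (3, 7)], []⟩,
  ⟨1879, 120, 0, 208, 109, true, true, false, [(0, 14), (3, 3)], []⟩,
  ⟨1888, 120, 0, 208, 109, true, true, false, [(0, 17)], []⟩,
  ⟨1902, 120, 0, 208, 109, true, true, false, [(0, 17)], []⟩,
  ⟨1923, 120, 0, 208, 109, true, true, false, [(0, 17)], []⟩,
  ⟨1944, 120, 0, 208, 109, true, true, false, [(0, 17)], []⟩,
  ⟨1975, 120, 0, 192, 98, true, true, false, [(0, 19)], []⟩,
  ⟨2038, 120, 0, 192, 98, true, true, false, [(0, 19)], []⟩,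
  ⟨2217, 120, 0, 176, 88, true, true, false, [(0, 20)], []⟩,
  ⟨2715, 120, 0, 144, 69, true, true, false, [(0, 22)], []⟩,
  ⟨6482, 120, 0, 6, 3, true, true, false, [(0, 33)], []⟩,
  ⟨8008, 120, 0, 0, 0, true, false, false, [(0, 34)], []⟩
  ] = true := by decide +kernel

def g86_23 : Gr := ⟨false, 422, 435, 1024, 1024, 86, 90, 9496, 9715, 0, 2048, 0, []⟩

theorem k86_23 : chk g86_23 T400 [
  ⟨498, 120, 720, 32, 312, false, false, false, [(0, 1), (3, 4), (22, 2), (11, 2), (12, 2), (13, 2), (14, 2), (15, 2), (3, 15)], []⟩,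
  ⟨742, 120, 720, 96, 244, false, true, false, [(0, 1), (3, 11), (13, 1), (14, 2), (3, 12)], []⟩,
  ⟨912, 120, 720, 96, 228, false, true, false, [(0, 1), (3, 13), (14, 1), (3, 12)], []⟩,
  ⟨1031, 120, 720, 96, 216, false, false, false, [(0, 1), (3, 26)], []⟩,
  ⟨1114, 120, 600, 120, 184, false, false, false, [(0, 1), (3, 24)], []⟩,
  ⟨1172, 120, 600, 120, 184, false, false, false, [(0, 1), (3, 24)], []⟩,
  ⟨1230, 120, 600, 208, 109, false, true, false, [(0, 1), (3, 17)], []⟩,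
  ⟨1288, 120, 0, 240, 132, true, true, false, [(0, 1), (3, 15)], []⟩,
  ⟨1346, 120, 0, 224, 120, true, true, false, [(0, 1), (3, 16)], []⟩,
  ⟨1404, 120, 0, 224, 120, true, true, false, [(0, 2), (3, 15)], []⟩,
  ⟨1487, 120, 0, 224, 120, true, true, false, [(0, 2), (3, 15)], []⟩,
  ⟨1570, 120, 0, 224, 120, true, true, false, [(0, 2), (3, 15)], []⟩,
  ⟨1653, 120, 0, 208, 109, true, true, false, [(0, 2), (3, 16)], []⟩,
  ⟨1736, 120, 0, 208, 109, true, true, false, [(0, 2), (3, 16)], []⟩,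
  ⟨1794, 120, 0, 208, 109, true, true, false, [(0, 3), (3, 15)], []⟩,
  ⟨1852, 120, 0, 208, 109, true, true, false, [(0, 4), (3, 14)], []⟩,
  ⟨1892, 120, 0, 208, 109, true, true, false, [(0, 5), (3, 13)], []⟩,
  ⟨1932, 120, 0, 208, 109, true, true, false, [(0, 8), (3, 10)], []⟩,
  ⟨1960, 120, 0, 208, 109, true, true, false, [(0, 18)], []⟩,
  ⟨2000, 120, 0, 208, 109, true, true, false, [(0, 18)], []⟩,
  ⟨2058, 120, 0, 208, 109, true, true, false, [(0, 18)], []⟩,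
  ⟨2222, 120, 0, 176, 88, true, true, false, [(0, 21)], []⟩,
  ⟨2676, 120, 0, 160, 78, true, true, false, [(0, 22)], []⟩,
  ⟨4430, 120, 0, 32, 14, true, true, false, [(0, 32)], []⟩,
  ⟨7871, 120, 0, 0, 0, true, false, false, [(0, 35)], []⟩,
  ⟨8254, 120, 0, 0, 0, true, false, false, [(0, 35)], []⟩
  ] = true := by decide +kernel

def g86_24 : Gr := ⟨false, 435, 448, 1024, 1024, 86, 90, 9496, 9715, 0, 2048, 0, []⟩

theorem k86_24 : chk g86_24 T425 [
  ⟨498, 120, 720, 32, 320, false, false, false, [(0, 1), (3, 4), (23, 2), (11, 2), (12, 2), (13, 2), (14, 2), (15, 2), (3, 16)], []⟩,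
  ⟨846, 120, 720, 96, 244, false, true, false, [(0, 1), (3, 5), (7, 1), (3, 2), (8, 2), (13, 2), (14, 2), (15, 2), (3, 11)], []⟩,
  ⟨1016, 120, 720, 96, 228, false, true, false, [(0, 1), (3, 15), (15, 1), (3, 11)], []⟩,
  ⟨1135, 120, 600, 120, 192, false, false, false, [(0, 1), (3, 25)], []⟩,
  ⟨1218, 120, 600, 120, 184, false, false, false, [(0, 1), (3, 25)], []⟩,
  ⟨1301, 120, 600, 208, 109, false, true, false, [(0, 1), (3, 18)], []⟩,
  ⟨1384, 120, 0, 240, 132, true, true, false, [(0, 1), (3, 16)], []⟩,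
  ⟨1467, 120, 0, 224, 120, true, true, false, [(0, 2), (3, 16)], []⟩,
  ⟨1550, 120, 0, 224, 120, true, true, false, [(0, 2), (3, 16)], []⟩,
  ⟨1633, 120, 0, 224, 120, true, true, false, [(0, 2), (3, 16)], []⟩,
  ⟨1716, 120, 0, 208, 109, true, true, false, [(0, 2), (3, 17)], []⟩,
  ⟨1799, 120, 0, 208, 109, true, true, false, [(0, 3), (3, 16)], []⟩,
  ⟨1882, 120, 0, 208, 109, true, true, false, [(0, 3), (3, 16)], []⟩,
  ⟨1940, 120, 0, 208, 109, true, true, false, [(0, 4), (3, 15)], []⟩,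
  ⟨1998, 120, 0, 208, 109, true, true, false, [(0, 8), (3, 11)], []⟩,
  ⟨2056, 120, 0, 208, 109, true, true, false, [(0, 19)], []⟩,
  ⟨2139, 120, 0, 208, 109, true, true, false, [(0, 19)], []⟩,
  ⟨2371, 120, 0, 176, 88, true, true, false, [(0, 22)], []⟩,
  ⟨3012, 120, 0, 120, 56, true, true, false, [(0, 26)], []⟩,
  ⟨6474, 120, 0, 0, 0, true, false, false, [(0, 36)], []⟩,
  ⟨8501, 120, 0, 0, 0, true, false, false, [(0, 36)], []⟩
  ] = true := by decide +kernel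

def g86_25 : Gr := ⟨false, 448, 461, 1024, 1024, 86, 90, 9496, 9715, 0, 2048, 0, []⟩

theorem k86_25 : chk g86_25 T425 [
  ⟨498, 120, 720, 32, 336, false, false, false, [(0, 1), (3, 4), (23, 2), (11, 2), (12, 2), (13, 2), (14, 2), (15, 2), (3, 17)], []⟩,
  ⟨846, 120, 720, 96, 256, false, false, false, [(0, 1), (3, 5), (7, 1), (3, 3), (8, 1), (3, 1), (13, 1), (14, 2), (15, 2), (3, 12)], []⟩,
  ⟨1090, 120, 720, 96, 232, false, false, false, [(0, 1), (3, 13), (14, 1), (3, 1), (15, 1), (3, 12)], []⟩,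
  ⟨1260, 120, 720, 120, 192, false, false, false, [(0, 1), (3, 26)], []⟩,
  ⟨1343, 120, 0, 240, 132, true, true, false, [(0, 1), (3, 17)], []⟩,
  ⟨1426, 120, 0, 240, 132, true, true, false, [(0, 1), (3, 17)], []⟩,
  ⟨1544, 120, 0, 224, 120, true, true, false, [(0, 2), (3, 17)], []⟩,
  ⟨1662, 120, 0, 224, 120, true, true, false, [(0, 2), (3, 17)], []⟩,
  ⟨1780, 120, 0, 224, 120, true, true, false, [(0, 2), (3, 17)], []⟩,
  ⟨1862, 120, 0, 224, 120, true, true, false, [(0, 3), (3, 16)], []⟩,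
  ⟨1944, 120, 0, 224, 120, true, true, false, [(0, 3), (3, 16)], []⟩,
  ⟨1984, 120, 0, 224, 120, true, true, false, [(0, 4), (3, 15)], []⟩,
  ⟨2012, 120, 0, 224, 120, true, true, false, [(0, 6), (3, 13)], []⟩,
  ⟨2031, 120, 0, 208, 109, true, true, false, [(0, 8), (3, 13)], []⟩,
  ⟨2044, 120, 0, 208, 109, true, true, false, [(0, 10), (3, 11)], []⟩,
  ⟨2057, 120, 0, 208, 109, true, true, false, [(0, 14), (3, 7)], []⟩,
  ⟨2070, 120, 0, 208, 109, true, true, false, [(0, 20), (3, 1)], []⟩,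
  ⟨2099, 120, 0, 208, 109, true, true, false, [(0, 21)], []⟩,
  ⟨2184, 120, 0, 192, 98, true, true, false, [(0, 22)], []⟩,
  ⟨2423, 120, 0, 176, 88, true, true, false, [(0, 23)], []⟩,
  ⟨3085, 120, 0, 120, 56, true, true, false, [(0, 27)], []⟩,
  ⟨6656, 120, 0, 0, 0, true, false, false, [(0, 37)], []⟩,
  ⟨8748, 120, 0, 0, 0, true, false, false, [(0, 37)], []⟩
  ] = true := by decide +kernel

def g86_26 : Gr := ⟨false, 460, 486, 1024, 1024, 86, 90, 9496, 9715, 0, 2048, 0, []⟩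

theorem k86_26 : chk g86_26 T450 [
  ⟨698, 120, 720, 44, 316, false, false, false, [(0, 1), (3, 4), (25, 2), (12, 2), (13, 2), (14, 2), (15, 2), (16, 2), (17, 2), (18, 2), (3, 14)], []⟩,
  ⟨1040, 120, 720, 96, 248, false, false, false, [(0, 1), (3, 5), (8, 1), (3, 3), (9, 1), (3, 2), (15, 2), (16, 2), (17, 2), (3, 12)], []⟩,
  ⟨1207, 120, 720, 120, 208, false, false, false, [(0, 1), (3, 15), (16, 1), (3, 12)], []⟩,
  ⟨1324, 120, 600, 120, 200, false, false, false, [(0, 1), (3, 28)], []⟩,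
  ⟨1406, 120, 600, 120, 192, false, false, false, [(0, 1), (3, 28)], []⟩,
  ⟨1463, 120, 600, 120, 184, false, false, false, [(0, 2), (3, 27)], []⟩,
  ⟨1520, 120, 0, 240, 132, true, true, false, [(0, 2), (3, 18)], []⟩,
  ⟨1577, 120, 0, 240, 132, true, true, false, [(0, 2), (3, 18)], []⟩,
  ⟨1634, 120, 0, 224, 120, true, true, false, [(0, 2), (3, 19)], []⟩,
  ⟨1691, 120, 0, 224, 120, true, true, false, [(0, 2), (3, 19)], []⟩,
  ⟨1748, 120, 0, 224, 120, true, true, false, [(0, 2), (3, 19)], []⟩,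
  ⟨1805, 120, 0, 224, 120, true, true, false, [(0, 2), (3, 19)], []⟩,
  ⟨1862, 120, 0, 224, 120, true, true, false, [(0, 3), (3, 18)], []⟩,
  ⟨1919, 120, 0, 208, 109, true, true, false, [(0, 3), (3, 19)], []⟩,
  ⟨1959, 120, 0, 208, 109, true, true, false, [(0, 3), (3, 19)], []⟩,
  ⟨1999, 120, 0, 208, 109, true, true, false, [(0, 4), (3, 18)], []⟩,
  ⟨2027, 120, 0, 208, 109, true, true, false, [(0, 5), (3, 17)], []⟩,
  ⟨2055, 120, 0, 208, 109, true, true, false, [(0, 6), (3, 16)], []⟩,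
  ⟨2074, 120, 0, 208, 109, true, true, false, [(0, 7), (3, 15)], []⟩,
  ⟨2093, 120, 0, 208, 109, true, true, false, [(0, 9), (3, 13)], []⟩,
  ⟨2106, 120, 0, 208, 109, true, true, false, [(0, 13), (3, 9)], []⟩,
  ⟨2119, 120, 0, 208, 109, true, true, false, [(0, 18), (3, 4)], []⟩,
  ⟨2139, 120, 0, 208, 109, true, true, false, [(0, 22)], []⟩,
  ⟨2181, 120, 0, 208, 109, true, true, false, [(0, 22)], []⟩,
  ⟨2266, 120, 0, 208, 109, true, true, false, [(0, 22)], []⟩,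
  ⟨2504, 120, 0, 176, 88, true, true, false, [(0, 25)], []⟩,
  ⟨3162, 120, 0, 120, 56, true, true, false, [(0, 29)], []⟩,
  ⟨6712, 120, 0, 0, 0, true, false, false, [(0, 39)], []⟩,
  ⟨9222, 120, 0, 0, 0, true, false, false, [(0, 39)], []⟩
  ] = true := by decide +kernel

def g86_27 : Gr := ⟨false, 486, 512, 1024, 1024, 86, 90, 9496, 9715, 0, 2048, 0, []⟩

theorem k86_27 : chk g86_27 T475 [
  ⟨698, 120, 720, 48, 336, false, false, false, [(0, 1), (3, 4), (27, 2), (13, 2), (14, 2), (15, 2), (16, 2), (17, 2), (18, 2), (19, 2), (3, 16)], []⟩,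
  ⟨1040, 120, 720, 96, 268, false, true, false, [(0, 1), (3, 5), (8, 1), (3, 3), (9, 1), (3, 2), (10, 2), (17, 2), (18, 2), (3, 1), (19, 1), (3, 12)], []⟩,
  ⟨1279, 120, 720, 120, 224, false, false, false, [(0, 1), (3, 13), (10, 1), (3, 1), (17, 1), (18, 2), (3, 12)], []⟩,
  ⟨1446, 120, 600, 120, 208, false, false, false, [(0, 1), (3, 17), (18, 1), (3, 12)], []⟩,
  ⟨1563, 120, 600, 120, 200, false, false, false, [(0, 2), (3, 29)], []⟩,
  ⟨1680, 120, 0, 240, 132, true, true, false, [(0, 2), (3, 20)], []⟩,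
  ⟨1797, 120, 0, 224, 120, true, true, false, [(0, 2), (3, 21)], []⟩,
  ⟨1914, 120, 0, 224, 120, true, true, false, [(0, 2), (3, 21)], []⟩,
  ⟨2031, 120, 0, 224, 120, true, true, false, [(0, 3), (3, 20)], []⟩,
  ⟨2113, 120, 0, 224, 120, true, true, false, [(0, 4), (3, 19)], []⟩,
  ⟨2170, 120, 0, 224, 120, true, true, false, [(0, 5), (3, 18)], []⟩,
  ⟨2210, 120, 0, 224, 120, true, true, false, [(0, 8), (3, 15)], []⟩,
  ⟨2238, 120, 0, 224, 120, true, true, false, [(0, 16), (3, 7)], []⟩,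
  ⟨2266, 120, 0, 224, 120, true, true, false, [(0, 23)], []⟩,
  ⟨2323, 120, 0, 208, 109, true, true, false, [(0, 25)], []⟩,
  ⟨2551, 120, 0, 192, 98, true, true, false, [(0, 26)], []⟩,
  ⟨3182, 120, 0, 120, 56, true, true, false, [(0, 31)], []⟩,
  ⟨6589, 120, 0, 0, 0, true, false, false, [(0, 41)], []⟩,
  ⟨9716, 120, 0, 0, 0, true, false, false, [(0, 41)], []⟩
  ] = true := by decide +kernel

def g86_28 : Gr := ⟨false, 512, 538, 1024, 1024, 86, 90, 9496, 9715, 0, 2048, 0, []⟩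

theorem k86_28 : chk g86_28 T500 [
  ⟨698, 120, 720, 72, 336, false, false, false, [(0, 1), (3, 4), (28, 2), (14, 2), (15, 2), (16, 2), (17, 2), (18, 2), (19, 2), (20, 2), (21, 2), (3, 14)], []⟩,
  ⟨1186, 120, 720, 96, 276, false, true, false, [(0, 1), (3, 5), (9, 1), (3, 2), (10, 2), (3, 1), (11, 3), (18, 2), (19, 2), (20, 2), (21, 2), (3, 12)], []⟩,
  ⟨1528, 120, 720, 112, 232, false, false, false, [(0, 1), (3, 9), (10, 1), (3, 3), (11, 1), (3, 1), (18, 1), (19, 2), (20, 2), (3, 1), (21, 1), (3, 11)], []⟩,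
  ⟨1695, 120, 0, 240, 132, true, true, false, [(0, 2), (3, 16), (19, 1), (3, 1), (20, 1), (3, 3)], []⟩,
  ⟨1862, 120, 0, 240, 132, true, true, false, [(0, 2), (3, 22)], []⟩,
  ⟨2029, 120, 0, 224, 120, true, true, false, [(0, 2), (3, 23)], []⟩,
  ⟨2196, 120, 0, 224, 120, true, true, false, [(0, 3), (3, 22)], []⟩,
  ⟨2313, 120, 0, 224, 120, true, true, false, [(0, 5), (3, 20)], []⟩,
  ⟨2430, 120, 0, 224, 120, true, true, false, [(0, 25)], []⟩,
  ⟨2756, 120, 0, 192, 98, true, true, false, [(0, 28)], []⟩,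
  ⟨3656, 120, 0, 112, 52, true, true, false, [(0, 34)], []⟩,
  ⟨7121, 120, 0, 0, 0, true, false, false, [(0, 43)], []⟩,
  ⟨10209, 120, 0, 0, 0, true, false, false, [(0, 43)], []⟩
  ] = true := by decide +kernel

def g86_29 : Gr := ⟨false, 537, 564, 1024, 1024, 86, 90, 9496, 9715, 0, 1954, 0, []⟩

theorem k86_29 : chk g86_29 T525 [
  ⟨978, 120, 720, 60, 340, false, false, false, [(0, 1), (3, 4), (29, 2), (14, 2), (15, 2), (16, 2), (17, 2), (18, 2), (19, 2), (20, 2), (21, 2), (22, 2), (3, 15)], []⟩,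
  ⟨1457, 120, 720, 112, 260, false, true, false, [(0, 1), (3, 5), (9, 1), (3, 2), (10, 2), (3, 1), (11, 3), (18, 2), (19, 2), (20, 2), (21, 2), (3, 13)], []⟩,
  ⟨1792, 120, 600, 160, 184, false, false, false, [(0, 2), (3, 12), (11, 1), (3, 3), (12, 1), (20, 2), (21, 2), (3, 9)], []⟩,
  ⟨2027, 120, 0, 224, 120, true, true, false, [(0, 2), (3, 18), (20, 1), (3, 1), (21, 1), (3, 4)], []⟩,
  ⟨2262, 120, 0, 224, 120, true, true, false, [(0, 3), (3, 19), (21, 1), (3, 4)], []⟩,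
  ⟨2426, 120, 0, 224, 120, true, true, false, [(0, 5), (3, 22)], []⟩,
  ⟨2657, 120, 0, 224, 120, true, true, false, [(0, 27)], []⟩,
  ⟨3296, 120, 0, 160, 78, true, true, false, [(0, 32)], []⟩,
  ⟨6744, 120, 0, 0, 0, true, false, false, [(0, 45)], []⟩,
  ⟨10192, 120, 0, 0, 0, true, false, false, [(0, 45)], []⟩,
  ⟨10211, 120, 0, 0, 0, true, false, false, [(0, 45)], []⟩
  ] = true := by decide +kernel

def g86_30 : Gr := ⟨false, 563, 589, 1024, 1024, 86, 90, 9496, 9715, 0, 1864, 0, []⟩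

theorem k86_30 : chk g86_30 T550 [
  ⟨978, 120, 720, 96, 328, false, false, false, [(0, 1), (3, 4), (32, 2), (16, 2), (17, 2), (18, 2), (19, 2), (20, 2), (21, 2), (22, 2), (23, 2), (24, 2), (25, 2), (3, 12)], []⟩,
  ⟨1663, 120, 600, 160, 222, false, true, false, [(0, 1), (3, 5), (10, 1), (3, 1), (11, 3), (12, 4), (13, 2), (21, 2), (22, 2), (23, 2), (24, 2), (25, 2), (3, 7)], []⟩,
  ⟨2142, 120, 0, 224, 120, true, true, true, [(0, 2), (3, 12), (12, 1), (3, 2), (13, 2), (22, 2), (23, 2), (24, 2)], [(3, 1), (25, 1), (3, 2)]⟩,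
  ⟨2477, 120, 0, 224, 120, true, true, false, [(0, 3), (3, 19), (23, 1), (3, 1), (24, 1), (3, 1), (25, 1), (3, 2)], []⟩,
  ⟨2812, 120, 0, 224, 120, true, true, false, [(0, 22), (8, 1), (0, 1), (24, 1), (0, 1), (25, 1), (0, 1), (26, 1)], []⟩,
  ⟨3737, 120, 0, 144, 69, true, true, false, [(0, 36)], []⟩,
  ⟨7300, 120, 0, 0, 0, true, false, false, [(0, 47)], []⟩,
  ⟨10172, 120, 0, 0, 0, true, false, false, [(0, 47)], []⟩
  ] = true := by decide +kernel

def g86_31 : Gr := ⟨false, 588, 615, 1024, 1024, 86, 90, 9496, 9715, 0, 1785, 0, []⟩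

theorem k86_31 : chk g86_31 T575 [
  ⟨978, 120, 600, 48, 384, false, false, true, [(0, 1), (3, 4), (33, 2), (16, 2), (17, 2), (18, 2), (19, 2), (20, 2), (21, 2), (22, 2), (23, 2), (24, 2), (25, 2), (3, 14)], [(3, 4)]⟩,
  ⟨1663, 120, 600, 160, 246, false, true, false, [(0, 1), (3, 5), (10, 1), (3, 1), (11, 3), (12, 4), (13, 4), (22, 2), (23, 2), (24, 2), (25, 2), (3, 9)], []⟩,
  ⟨2348, 120, 0, 224, 120, true, true, true, [(0, 2), (3, 4), (4, 1), (3, 3), (5, 1), (3, 2), (12, 2), (3, 1), (13, 3), (22, 2), (23, 2), (24, 2), (25, 2)], [(26, 2), (3, 1), (27, 1)]⟩,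
  ⟨2827, 120, 0, 224, 120, true, true, false, [(0, 10), (5, 1), (0, 2), (6, 2), (0, 2), (7, 2), (0, 1), (22, 1), (8, 1), (14, 1), (24, 2), (25, 2), (26, 2), (27, 2)], []⟩,
  ⟨3769, 120, 0, 160, 78, true, true, false, [(0, 36)], []⟩,
  ⟨7396, 120, 0, 0, 0, true, false, false, [(0, 49)], []⟩,
  ⟨10171, 120, 0, 0, 0, true, false, false, [(0, 49)], []⟩
  ] = true := by decide +kernel

def g86_32 : Gr := ⟨false, 614, 640, 1024, 1024, 86, 90, 9496, 9715, 0, 1709, 0, []⟩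

theorem k86_32 : chk g86_32 T600 [
  ⟨1371, 120, 600, 112, 328, false, false, false, [(0, 1), (3, 4), (35, 2), (17, 2), (18, 2), (19, 2), (20, 2), (21, 2), (22, 2), (23, 2), (24, 2), (25, 2), (26, 2), (27, 2), (28, 2), (3, 11)], []⟩,
  ⟨2331, 120, 0, 256, 145, true, true, true, [(0, 2), (3, 4), (4, 1), (3, 2), (12, 2), (3, 1), (13, 3), (14, 4), (23, 2), (24, 2), (25, 2), (26, 2)], [(27, 2), (28, 2)]⟩,
  ⟨3003, 120, 0, 224, 120, true, true, false, [(0, 6), (4, 1), (0, 2), (5, 2), (0, 2), (6, 2), (0, 1), (7, 3), (8, 2), (15, 2), (25, 2), (26, 2), (27, 2), (28, 2), (29, 2)], []⟩,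
  ⟨3944, 120, 0, 144, 69, true, true, false, [(0, 40)], []⟩,
  ⟨7569, 120, 0, 0, 0, true, false, false, [(0, 51)], []⟩,
  ⟨10134, 120, 0, 0, 0, true, false, false, [(0, 51)], []⟩
  ] = true := by decide +kernel

def g86_33 : Gr := ⟨false, 640, 666, 1024, 1024, 86, 90, 9496, 9715, 0, 1640, 0, []⟩

theorem k86_33 : chk g86_33 T625 [
  ⟨1371, 120, 600, 112, 344, false, false, false, [(0, 1), (3, 4), (36, 2), (17, 2), (18, 2), (19, 2), (20, 2), (21, 2), (22, 2), (23, 2), (24, 2), (25, 2), (26, 2), (27, 2), (28, 2), (29, 1), (3, 12)], []⟩,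
  ⟨2742, 120, 0, 224, 128, true, true, true, [(0, 2), (3, 3), (4, 2), (3, 1), (5, 1), (12, 2), (13, 4), (14, 4), (23, 2), (24, 2), (25, 2), (26, 2)], [(27, 2), (28, 2), (29, 2), (30, 2)]⟩,
  ⟨3414, 120, 0, 208, 109, true, true, false, [(0, 14), (6, 1), (0, 3), (7, 1), (0, 2), (8, 2), (0, 1), (25, 1), (9, 1), (26, 1), (27, 2), (28, 2), (29, 2), (30, 2), (31, 2)], []⟩,
  ⟨5262, 120, 0, 72, 32, true, true, false, [(0, 47)], []⟩,
  ⟨8887, 120, 0, 0, 0, true, false, false, [(0, 53)], []⟩,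
  ⟨10120, 120, 0, 0, 0, true, false, false, [(0, 53)], []⟩
  ] = true := by decide +kernel

def g86_34 : Gr := ⟨false, 665, 692, 1024, 1024, 86, 90, 9496, 9715, 0, 1578, 0, []⟩

theorem k86_34 : chk g86_34 T650 [
  ⟨1921, 120, 600, 256, 201, false, true, false, [(0, 1), (3, 4), (39, 2), (19, 2), (20, 2), (21, 2), (22, 2), (23, 2), (24, 2), (25, 2), (26, 2), (27, 2), (28, 2), (29, 2), (30, 2), (31, 2), (32, 2)], []⟩,
  ⟨3265, 120, 0, 208, 109, true, true, true, [(0, 5), (4, 2), (5, 4), (6, 3), (14, 1), (7, 1), (15, 3), (16, 4), (27, 2), (28, 2), (29, 2), (30, 2), (31, 2), (32, 2)], [(33, 2), (34, 2)]⟩,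
  ⟨4609, 120, 0, 128, 60, true, true, false, [(0, 45)], []⟩,
  ⟨8303, 120, 0, 0, 0, true, false, false, [(0, 55)], []⟩,
  ⟨10118, 120, 0, 0, 0, true, false, false, [(0, 55)], []⟩
  ] = true := by decide +kernel

def g86_35 : Gr := ⟨false, 691, 717, 1024, 1024, 86, 90, 9496, 9715, 0, 1519, 0, []⟩

theorem k86_35 : chk g86_35 T675 [
  ⟨1921, 120, 600, 256, 225, false, true, false, [(0, 1), (3, 4), (40, 2), (19, 2), (20, 2), (21, 2), (22, 2), (23, 2), (24, 2), (25, 2), (26, 2), (27, 2), (28, 2), (29, 2), (30, 2), (31, 2), (32, 2), (33, 2)], []⟩,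
  ⟨3842, 120, 0, 192, 98, true, true, true, [(0, 5), (4, 2), (5, 4), (6, 3), (14, 1), (7, 1), (15, 3), (16, 4), (27, 2), (28, 2), (29, 2), (30, 2), (31, 2), (32, 2), (33, 2)], [(34, 2), (35, 2), (36, 1)]⟩,
  ⟨5763, 120, 0, 24, 51, true, true, false, [(0, 55)], []⟩,
  ⟨9530, 120, 0, 0, 0, true, false, false, [(0, 57)], []⟩,
  ⟨10091, 120, 0, 0, 0, true, false, true, [(0, 51)], [(0, 6)]⟩
  ] = true := by decide +kernel

def g86_36 : Gr := ⟨false, 716, 743, 1024, 1024, 86, 90, 9496, 9715, 0, 1466, 0, []⟩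

theorem k86_36 : chk g86_36 T700 [
  ⟨1921, 120, 600, 176, 312, false, false, false, [(0, 1), (3, 4), (41, 2), (19, 2), (20, 2), (21, 2), (22, 2), (23, 2), (24, 2), (25, 2), (26, 2), (27, 2), (28, 2), (29, 2), (30, 2), (31, 2), (32, 2), (33, 2), (34, 2), (3, 6)], []⟩,
  ⟨3842, 120, 0, 176, 128, true, true, true, [(0, 5), (4, 2), (5, 4), (6, 3), (14, 1), (7, 1), (15, 3), (16, 4), (27, 2), (28, 2), (29, 2), (30, 2), (31, 2), (32, 2), (33, 2), (34, 2)], [(35, 2), (36, 2), (37, 2)]⟩,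
  ⟨5763, 120, 0, 48, 53, true, true, false, [(0, 55)], []⟩,
  ⟨9530, 120, 0, 0, 0, true, false, false, [(0, 59)], []⟩,
  ⟨10092, 120, 0, 0, 0, true, false, true, [(0, 51)], [(0, 8)]⟩
  ] = true := by decide +kernel

def g86_37 : Gr := ⟨false, 742, 768, 1024, 1024, 86, 90, 9496, 9715, 0, 1415, 0, []⟩

theorem k86_37 : chk g86_37 T725 [
  ⟨2690, 120, 600, 240, 212, false, true, false, [(0, 1), (3, 4), (44, 2), (21, 2), (22, 2), (23, 2), (24, 2), (25, 2), (26, 2), (27, 2), (28, 2), (29, 2), (30, 2), (31, 2), (32, 2), (33, 2), (34, 2), (35, 2), (36, 2), (37, 2), (38, 1)], []⟩,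
  ⟨4573, 120, 0, 176, 88, true, true, true, [(0, 6), (4, 1), (0, 2), (5, 2), (0, 1), (6, 3), (7, 4), (8, 4), (9, 2), (18, 2), (31, 2), (32, 2), (33, 2), (34, 2), (35, 2), (36, 2), (37, 2), (38, 2)], [(39, 2), (40, 2)]⟩,
  ⟨8266, 120, 0, 0, 0, true, false, false, [(0, 61)], []⟩,
  ⟨10069, 120, 0, 0, 0, true, false, false, [(0, 61)], []⟩
  ] = true := by decide +kernel

def g86_38 : Gr := ⟨false, 768, 794, 1024, 1024, 86, 90, 9496, 9715, 0, 1367, 0, []⟩

theorem k86_38 : chk g86_38 T750 [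
  ⟨2690, 120, 600, 240, 236, false, true, true, [(2, 5), (45, 2), (21, 2), (22, 2), (23, 2), (24, 2), (25, 2), (26, 2), (27, 2), (28, 2), (29, 2), (30, 2), (31, 2), (32, 2), (33, 2), (34, 2), (35, 2), (36, 2)], [(37, 2), (38, 2), (39, 1)]⟩,
  ⟨4573, 120, 0, 176, 104, true, true, true, [(0, 6), (4, 1), (0, 2), (5, 2), (6, 4), (7, 4), (8, 4), (9, 2), (18, 2), (31, 2), (32, 2), (33, 2), (34, 2), (35, 2), (36, 2), (37, 2), (38, 2), (39, 2)], [(40, 2), (41, 2)]⟩,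
  ⟨8266, 120, 0, 0, 0, true, false, false, [(0, 63)], []⟩,
  ⟨10057, 120, 0, 0, 0, true, false, false, [(0, 63)], []⟩
  ] = true := by decide +kernel

def g86_39 : Gr := ⟨false, 793, 820, 1024, 1024, 86, 90, 9496, 9715, 0, 1324, 0, []⟩

theorem k86_39 : chk g86_39 T775 [
  ⟨2690, 120, 600, 240, 256, false, false, true, [(2, 5), (45, 2), (21, 2), (22, 2), (23, 2), (24, 2), (25, 2), (26, 2), (27, 2), (28, 2), (29, 2), (30, 2), (31, 2), (32, 2), (33, 2), (34, 2), (35, 2), (36, 2), (37, 2)], [(38, 2), (39, 2), (40, 1)]⟩,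
  ⟨4573, 120, 0, 176, 128, true, true, false, [(0, 6), (4, 1), (0, 1), (5, 3), (6, 4), (7, 4), (8, 4), (9, 3), (18, 1), (31, 2), (19, 1), (32, 1), (33, 2), (34, 2), (35, 2), (36, 2), (37, 2), (38, 2), (39, 2), (40, 2), (41, 2), (42, 2)], []⟩,
  ⟨8266, 120, 0, 0, 0, true, false, false, [(0, 65)], []⟩,
  ⟨10059, 120, 0, 0, 0, true, false, false, [(0, 65)], []⟩
  ] = true := by decide +kernel

end Pool.Agent.Lib.MP_af3a4a_an.P1.CHK.H81.L
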