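import Pool.Agent.Lib.MP_af3a4a_an.P1.CHK.H81.LT
/-!
# Data, `91 ≤ N ≤ 95`, `265 ≤ 1024 R ≤ 820` (helper81)
-/
set_option autoImplicit false

namespace Pool.Agent.Lib.MP_af3a4a_an.P1.CHK.H81.L

open Pool.Agent.Lib.MP_af3a4a_an.P1.CHK.H58.G (Gr En)

def g91_0 : Gr := ⟨false, 265, 275, 1024, 1024, 91, 95, 9768, 9981, 512, 3958, 0, []⟩

theorem k91_0 : chk g91_0 [] [
  ⟨1273, 120, 0, 176, 88, true, true, false, [(0, 9)], []⟩,
  ⟨1296, 120, 0, 176, 88, true, true, false, [(0, 9)], []⟩,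
  ⟨1364, 120, 0, 160, 78, true, true, false, [(0, 10)], []⟩,
  ⟨1557, 120, 0, 160, 78, true, true, false, [(0, 10)], []⟩,
  ⟨2091, 120, 0, 128, 60, true, true, false, [(0, 12)], []⟩,
  ⟨4975, 120, 0, 32, 14, true, true, false, [(0, 20)], []⟩,
  ⟨7859, 120, 0, 0, 0, true, false, false, [(0, 23)], []⟩,
  ⟨10361, 120, 0, 0, 0, true, false, false, [(0, 23)], []⟩
  ] = true := by decide +kernel

def g91_1 : Gr := ⟨false, 275, 283, 1024, 1024, 91, 95, 9768, 9981, 512, 3815, 0, []⟩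

theorem k91_1 : chk g91_1 [] [
  ⟨1490, 120, 0, 160, 78, true, true, false, [(0, 10)], []⟩,
  ⟨1742, 120, 0, 160, 78, true, true, false, [(0, 10)], []⟩,
  ⟨2440, 120, 0, 112, 52, true, true, false, [(0, 14)], []⟩,
  ⟨6207, 120, 0, 0, 0, true, false, false, [(0, 23)], []⟩,
  ⟨9974, 120, 0, 0, 0, true, false, false, [(0, 23)], []⟩,
  ⟨10277, 120, 0, 0, 0, true, false, false, [(0, 23)], []⟩
  ] = true := by decide +kernel

def g91_2 : Gr := ⟨false, 283, 293, 1024, 1024, 91, 95, 9768, 9981, 384, 3707, 0, []⟩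

theorem k91_2 : chk g91_2 [] [
  ⟨1056, 90, 0, 192, 98, true, true, false, [(0, 1), (3, 10)], []⟩,
  ⟨1087, 90, 0, 176, 88, true, true, false, [(0, 2), (3, 11)], []⟩,
  ⟨1131, 90, 0, 176, 88, true, true, false, [(0, 2), (3, 11)], []⟩,
  ⟨1175, 90, 0, 176, 88, true, true, false, [(0, 2), (3, 11)], []⟩,
  ⟨1219, 90, 0, 176, 88, true, true, false, [(0, 2), (3, 11)], []⟩,
  ⟨1263, 90, 0, 176, 88, true, true, false, [(0, 3), (3, 10)], []⟩,
  ⟨1307, 90, 0, 176, 88, true, true, false, [(0, 3), (3, 10)], []⟩,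
  ⟨1351, 90, 0, 176, 88, true, true, false, [(0, 13)], []⟩,
  ⟨1441, 90, 0, 176, 88, true, true, false, [(0, 13)], []⟩,
  ⟨1620, 90, 0, 160, 78, true, true, false, [(0, 15)], []⟩,
  ⟨2117, 90, 0, 128, 60, true, true, false, [(0, 18)], []⟩,
  ⟨4034, 90, 0, 44, 19, true, true, false, [(0, 27)], []⟩,
  ⟨7794, 90, 0, 0, 0, true, false, false, [(0, 32)], []⟩,
  ⟨10339, 90, 0, 0, 0, true, false, false, [(0, 32)], []⟩
  ] = true := by decide +kernel

def g91_3 : Gr := ⟨false, 293, 299, 1024, 1024, 91, 95, 9768, 9981, 384, 3580, 0, []⟩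

theorem k91_3 : chk g91_3 [] [
  ⟨1138, 120, 0, 192, 98, true, true, false, [(0, 1), (3, 8)], []⟩,
  ⟨1228, 120, 0, 176, 88, true, true, false, [(0, 2), (3, 8)], []⟩,
  ⟨1318, 120, 0, 176, 88, true, true, false, [(0, 2), (3, 8)], []⟩,
  ⟨1408, 120, 0, 176, 88, true, true, false, [(0, 10)], []⟩,
  ⟨1587, 120, 0, 176, 88, true, true, false, [(0, 10)], []⟩,
  ⟨1942, 120, 0, 144, 69, true, true, false, [(0, 13)], []⟩,
  ⟨2920, 120, 0, 80, 36, true, true, false, [(0, 18)], []⟩,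
  ⟨6687, 120, 0, 0, 0, true, false, false, [(0, 25)], []⟩,
  ⟨10189, 120, 0, 0, 0, true, false, false, [(0, 25)], []⟩
  ] = true := by decide +kernel

def g91_4 : Gr := ⟨false, 299, 305, 1024, 1024, 91, 95, 9768, 9981, 256, 3508, 0, []⟩

theorem k91_4 : chk g91_4 [] [
  ⟨777, 120, 0, 208, 109, true, true, false, [(0, 1), (3, 7)], []⟩,
  ⟨841, 120, 0, 208, 109, true, true, false, [(0, 1), (3, 7)], []⟩,
  ⟨905, 120, 0, 208, 109, true, true, false, [(0, 1), (3, 7)], []⟩,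
  ⟨969, 120, 0, 208, 109, true, true, false, [(0, 1), (3, 7)], []⟩,
  ⟨1033, 120, 0, 208, 109, true, true, false, [(0, 1), (3, 7)], []⟩,
  ⟨1077, 120, 0, 208, 109, true, true, false, [(0, 1), (3, 7)], []⟩,
  ⟨1108, 120, 0, 208, 109, true, true, false, [(0, 1), (3, 7)], []⟩,
  ⟨1129, 120, 0, 192, 98, true, true, false, [(0, 2), (3, 8)], []⟩,
  ⟨1150, 120, 0, 192, 98, true, true, false, [(0, 2), (3, 8)], []⟩,
  ⟨1171, 120, 0, 192, 98, true, true, false, [(0, 2), (3, 8)], []⟩,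
  ⟨1192, 120, 0, 192, 98, true, true, false, [(0, 2), (3, 8)], []⟩,
  ⟨1213, 120, 0, 192, 98, true, true, false, [(0, 2), (3, 8)], []⟩,
  ⟨1234, 120, 0, 192, 98, true, true, false, [(0, 2), (3, 8)], []⟩,
  ⟨1255, 120, 0, 176, 88, true, true, false, [(0, 2), (3, 9)], []⟩,
  ⟨1286, 120, 0, 176, 88, true, true, false, [(0, 2), (3, 9)], []⟩,
  ⟨1317, 120, 0, 176, 88, true, true, false, [(0, 3), (3, 8)], []⟩,
  ⟨1348, 120, 0, 176, 88, true, true, false, [(0, 3), (3, 8)], []⟩,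
  ⟨1379, 120, 0, 176, 88, true, true, false, [(0, 4), (3, 7)], []⟩,
  ⟨1410, 120, 0, 176, 88, true, true, false, [(0, 6), (3, 5)], []⟩,
  ⟨1474, 120, 0, 176, 88, true, true, false, [(0, 11)], []⟩,
  ⟨1655, 120, 0, 160, 78, true, true, false, [(0, 12)], []⟩,
  ⟨2013, 120, 0, 144, 69, true, true, false, [(0, 14)], []⟩,
  ⟨3396, 120, 0, 72, 32, true, true, false, [(0, 19)], []⟩,
  ⟨7197, 120, 0, 0, 0, true, false, false, [(0, 25)], []⟩,
  ⟨10185, 120, 0, 0, 0, true, false, false, [(0, 25)], []⟩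
  ] = true := by decide +kernel

def g91_5 : Gr := ⟨false, 305, 308, 1024, 1024, 91, 95, 9768, 9981, 256, 2048, 0, []⟩

theorem k91_5 : chk g91_5 [] [
  ⟨791, 120, 480, 176, 88, false, true, false, [(0, 1), (3, 10)], []⟩,
  ⟨835, 120, 480, 176, 88, false, true, false, [(0, 1), (3, 10)], []⟩,
  ⟨866, 120, 480, 176, 88, false, true, false, [(0, 1), (3, 10)], []⟩,
  ⟨887, 120, 480, 176, 88, false, true, false, [(0, 1), (3, 10)], []⟩,
  ⟨908, 120, 0, 176, 88, true, true, false, [(0, 1), (3, 10)], []⟩,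
  ⟨939, 120, 0, 176, 88, true, true, false, [(0, 1), (3, 10)], []⟩,
  ⟨970, 120, 0, 176, 88, true, true, false, [(0, 1), (3, 10)], []⟩,
  ⟨1015, 120, 0, 176, 88, true, true, false, [(0, 1), (3, 10)], []⟩,
  ⟨1079, 120, 0, 176, 88, true, true, false, [(0, 1), (3, 10)], []⟩,
  ⟨1143, 120, 0, 176, 88, true, true, false, [(0, 1), (3, 10)], []⟩,
  ⟨1234, 120, 0, 176, 88, true, true, false, [(0, 2), (3, 9)], []⟩,
  ⟨1325, 120, 0, 176, 88, true, true, false, [(0, 2), (3, 9)], []⟩,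
  ⟨1416, 120, 0, 176, 88, true, true, false, [(0, 3), (3, 8)], []⟩,
  ⟨1545, 120, 0, 176, 88, true, true, false, [(0, 11)], []⟩,
  ⟨1726, 120, 0, 176, 88, true, true, false, [(0, 11)], []⟩,
  ⟨2228, 120, 0, 128, 60, true, true, false, [(0, 15)], []⟩,
  ⟨4942, 120, 0, 28, 12, true, true, false, [(0, 23)], []⟩,
  ⟨6005, 120, 0, 0, 0, true, false, false, [(0, 26)], []⟩
  ] = true := by decide +kernel

def g91_6 : Gr := ⟨false, 307, 315, 1024, 1024, 91, 95, 9768, 9981, 256, 2048, 0, []⟩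

theorem k91_6 : chk g91_6 T300 [
  ⟨776, 120, 480, 192, 98, false, true, false, [(0, 1), (3, 9)], []⟩,
  ⟨820, 120, 0, 192, 98, true, true, false, [(0, 1), (3, 9)], []⟩,
  ⟨864, 120, 0, 192, 98, true, true, false, [(0, 1), (3, 9)], []⟩,
  ⟨927, 120, 0, 192, 98, true, true, false, [(0, 1), (3, 9)], []⟩,
  ⟨1017, 120, 0, 192, 98, true, true, false, [(0, 1), (3, 9)], []⟩,
  ⟨1107, 120, 0, 192, 98, true, true, false, [(0, 1), (3, 9)], []⟩,
  ⟨1197, 120, 0, 192, 98, true, true, false, [(0, 2), (3, 8)], []⟩,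
  ⟨1287, 120, 0, 192, 98, true, true, false, [(0, 2), (3, 8)], []⟩,
  ⟨1350, 120, 0, 192, 98, true, true, false, [(0, 2), (3, 8)], []⟩,
  ⟨1413, 120, 0, 192, 98, true, true, false, [(0, 3), (3, 7)], []⟩,
  ⟨1457, 120, 0, 192, 98, true, true, false, [(0, 6), (3, 4)], []⟩,
  ⟨1487, 120, 0, 192, 98, true, true, false, [(0, 10)], []⟩,
  ⟨1550, 120, 0, 176, 88, true, true, false, [(0, 12)], []⟩,
  ⟨1727, 120, 0, 160, 78, true, true, false, [(0, 13)], []⟩,
  ⟨2218, 120, 0, 144, 69, true, true, false, [(0, 14)], []⟩,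
  ⟨4869, 120, 0, 32, 14, true, true, false, [(0, 23)], []⟩,
  ⟨6141, 120, 0, 0, 0, true, false, false, [(0, 26)], []⟩
  ] = true := by decide +kernel

def g91_7 : Gr := ⟨false, 315, 320, 1024, 1024, 91, 95, 9768, 9981, 256, 2048, 0, []⟩

theorem k91_7 : chk g91_7 T300 [
  ⟨815, 90, 450, 192, 98, false, true, false, [(0, 1), (3, 13)], []⟩,
  ⟨879, 90, 0, 192, 98, true, true, false, [(0, 1), (3, 13)], []⟩,
  ⟨969, 90, 0, 192, 98, true, true, false, [(0, 1), (3, 13)], []⟩,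
  ⟨1096, 90, 0, 192, 98, true, true, false, [(0, 1), (3, 13)], []⟩,
  ⟨1223, 90, 0, 192, 98, true, true, false, [(0, 1), (3, 13)], []⟩,
  ⟨1350, 90, 0, 192, 98, true, true, false, [(0, 2), (3, 12)], []⟩,
  ⟨1439, 90, 0, 192, 98, true, true, false, [(0, 3), (3, 11)], []⟩,
  ⟨1501, 90, 0, 192, 98, true, true, false, [(0, 6), (3, 8)], []⟩,
  ⟨1626, 90, 0, 176, 88, true, true, false, [(0, 16)], []⟩,
  ⟨1873, 90, 0, 160, 78, true, true, false, [(0, 18)], []⟩,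
  ⟨2557, 90, 0, 120, 56, true, true, false, [(0, 22)], []⟩,
  ⟨6239, 90, 0, 0, 0, true, false, false, [(0, 35)], []⟩
  ] = true := by decide +kernel

def g91_8 : Gr := ⟨false, 320, 326, 1024, 1024, 91, 95, 9768, 9981, 128, 2048, 0, []⟩

theorem k91_8 : chk g91_8 T300 [
  ⟨560, 120, 720, 80, 184, false, false, false, [(0, 1), (3, 10), (8, 1), (3, 8)], []⟩,
  ⟨648, 120, 480, 192, 98, false, true, false, [(0, 1), (3, 10)], []⟩,
  ⟨736, 120, 480, 192, 98, false, true, false, [(0, 1), (3, 10)], []⟩,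
  ⟨797, 120, 480, 192, 98, false, true, false, [(0, 1), (3, 10)], []⟩,
  ⟨840, 120, 480, 192, 98, false, true, false, [(0, 1), (3, 10)], []⟩,
  ⟨883, 120, 0, 192, 98, true, true, false, [(0, 1), (3, 10)], []⟩,
  ⟨944, 120, 0, 192, 98, true, true, false, [(0, 1), (3, 10)], []⟩,
  ⟨1005, 120, 0, 192, 98, true, true, false, [(0, 1), (3, 10)], []⟩,
  ⟨1092, 120, 0, 192, 98, true, true, false, [(0, 1), (3, 10)], []⟩,
  ⟨1179, 120, 0, 192, 98, true, true, false, [(0, 1), (3, 10)], []⟩,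
  ⟨1301, 120, 0, 192, 98, true, true, false, [(0, 2), (3, 9)], []⟩,
  ⟨1387, 120, 0, 192, 98, true, true, false, [(0, 2), (3, 9)], []⟩,
  ⟨1473, 120, 0, 192, 98, true, true, false, [(0, 3), (3, 8)], []⟩,
  ⟨1533, 120, 0, 192, 98, true, true, false, [(0, 11)], []⟩,
  ⟨1593, 120, 0, 192, 98, true, true, false, [(0, 11)], []⟩,
  ⟨1713, 120, 0, 176, 88, true, true, false, [(0, 13)], []⟩,
  ⟨2047, 120, 0, 144, 69, true, true, false, [(0, 15)], []⟩,
  ⟨2970, 120, 0, 80, 36, true, true, false, [(0, 20)], []⟩,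
  ⟨6356, 120, 0, 0, 0, true, false, false, [(0, 27)], []⟩
  ] = true := by decide +kernel

def g91_9 : Gr := ⟨false, 326, 333, 1024, 1024, 91, 95, 9768, 9981, 128, 2048, 0, []⟩

theorem k91_9 : chk g91_9 T300 [
  ⟨567, 120, 600, 112, 160, false, false, false, [(0, 1), (3, 10), (8, 1), (3, 6)], []⟩,
  ⟨655, 120, 600, 112, 152, false, false, false, [(0, 1), (3, 17)], []⟩,
  ⟨716, 120, 600, 112, 148, false, true, false, [(0, 1), (3, 17)], []⟩,
  ⟨759, 120, 0, 224, 120, true, true, false, [(0, 1), (3, 8)], []⟩,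
  ⟨820, 120, 0, 224, 120, true, true, false, [(0, 1), (3, 8)], []⟩,
  ⟨881, 120, 0, 224, 120, true, true, false, [(0, 1), (3, 8)], []⟩,
  ⟨942, 120, 0, 224, 120, true, true, false, [(0, 1), (3, 8)], []⟩,
  ⟨985, 120, 0, 224, 120, true, true, false, [(0, 1), (3, 8)], []⟩,
  ⟨1028, 120, 0, 224, 120, true, true, false, [(0, 1), (3, 8)], []⟩,
  ⟨1058, 120, 0, 224, 120, true, true, false, [(0, 1), (3, 8)], []⟩,
  ⟨1079, 120, 0, 224, 120, true, true, false, [(0, 1), (3, 8)], []⟩,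
  ⟨1093, 120, 0, 208, 109, true, true, false, [(0, 1), (3, 10)], []⟩,
  ⟨1107, 120, 0, 208, 109, true, true, false, [(0, 1), (3, 10)], []⟩,
  ⟨1121, 120, 0, 208, 109, true, true, false, [(0, 1), (3, 10)], []⟩,
  ⟨1135, 120, 0, 208, 109, true, true, false, [(0, 1), (3, 10)], []⟩,
  ⟨1149, 120, 0, 192, 98, true, true, false, [(0, 1), (3, 11)], []⟩,
  ⟨1170, 120, 0, 192, 98, true, true, false, [(0, 1), (3, 11)], []⟩,
  ⟨1191, 120, 0, 192, 98, true, true, false, [(0, 1), (3, 11)], []⟩,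
  ⟨1212, 120, 0, 192, 98, true, true, false, [(0, 2), (3, 10)], []⟩,
  ⟨1243, 120, 0, 192, 98, true, true, false, [(0, 2), (3, 10)], []⟩,
  ⟨1274, 120, 0, 192, 98, true, true, false, [(0, 2), (3, 10)], []⟩,
  ⟨1305, 120, 0, 192, 98, true, true, false, [(0, 2), (3, 10)], []⟩,
  ⟨1336, 120, 0, 192, 98, true, true, false, [(0, 2), (3, 10)], []⟩,
  ⟨1367, 120, 0, 192, 98, true, true, false, [(0, 2), (3, 10)], []⟩,
  ⟨1398, 120, 0, 192, 98, true, true, false, [(0, 2), (3, 10)], []⟩,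
  ⟨1429, 120, 0, 192, 98, true, true, false, [(0, 3), (3, 9)], []⟩,
  ⟨1460, 120, 0, 192, 98, true, true, false, [(0, 3), (3, 9)], []⟩,
  ⟨1481, 120, 0, 176, 88, true, true, false, [(0, 4), (3, 9)], []⟩,
  ⟨1502, 120, 0, 176, 88, true, true, false, [(0, 4), (3, 9)], []⟩,
  ⟨1533, 120, 0, 176, 88, true, true, false, [(0, 6), (3, 7)], []⟩,
  ⟨1578, 120, 0, 176, 88, true, true, false, [(0, 13)], []⟩,
  ⟨1706, 120, 0, 176, 88, true, true, false, [(0, 13)], []⟩,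
  ⟨1887, 120, 0, 160, 78, true, true, false, [(0, 15)], []⟩,
  ⟨2389, 120, 0, 128, 60, true, true, false, [(0, 17)], []⟩,
  ⟨6188, 120, 0, 2, 1, true, true, false, [(0, 27)], []⟩,
  ⟨6492, 120, 0, 0, 0, true, false, false, [(0, 28)], []⟩
  ] = true := by decide +kernel

def g91_10 : Gr := ⟨false, 332, 338, 1024, 1024, 91, 95, 9768, 9981, 128, 2048, 0, []⟩

theorem k91_10 : chk g91_10 T325 [
  ⟨574, 120, 720, 80, 196, false, true, false, [(0, 1), (3, 10), (8, 1), (3, 1), (9, 1), (3, 7)], []⟩,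
  ⟨699, 120, 480, 192, 98, false, true, false, [(0, 1), (3, 11)], []⟩,
  ⟨787, 120, 480, 192, 98, false, true, false, [(0, 1), (3, 11)], []⟩,
  ⟨848, 120, 480, 192, 98, false, true, false, [(0, 1), (3, 11)], []⟩,
  ⟨909, 120, 480, 192, 98, false, true, false, [(0, 1), (3, 11)], []⟩,
  ⟨952, 120, 0, 192, 98, true, true, false, [(0, 1), (3, 11)], []⟩,
  ⟨995, 120, 0, 192, 98, true, true, false, [(0, 1), (3, 11)], []⟩,
  ⟨1056, 120, 0, 192, 98, true, true, false, [(0, 1), (3, 11)], []⟩,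
  ⟨1143, 120, 0, 192, 98, true, true, false, [(0, 1), (3, 11)], []⟩,
  ⟨1230, 120, 0, 192, 98, true, true, false, [(0, 1), (3, 11)], []⟩,
  ⟨1317, 120, 0, 192, 98, true, true, false, [(0, 2), (3, 10)], []⟩,
  ⟨1404, 120, 0, 192, 98, true, true, false, [(0, 2), (3, 10)], []⟩,
  ⟨1491, 120, 0, 192, 98, true, true, false, [(0, 3), (3, 9)], []⟩,
  ⟨1551, 120, 0, 192, 98, true, true, false, [(0, 4), (3, 8)], []⟩,
  ⟨1611, 120, 0, 192, 98, true, true, false, [(0, 12)], []⟩,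
  ⟨1697, 120, 0, 192, 98, true, true, false, [(0, 12)], []⟩,
  ⟨1938, 120, 0, 160, 78, true, true, false, [(0, 15)], []⟩,
  ⟨2604, 120, 0, 120, 56, true, true, false, [(0, 18)], []⟩,
  ⟨6199, 120, 0, 0, 0, true, false, false, [(0, 28)], []⟩,
  ⟨6590, 120, 0, 0, 0, true, false, false, [(0, 28)], []⟩
  ] = true := by decide +kernel

def g91_11 : Gr := ⟨false, 338, 348, 1024, 1024, 91, 95, 9768, 9981, 0, 2048, 0, []⟩

theorem k91_11 : chk g91_11 T325 [
  ⟨355, 90, 720, 36, 256, false, true, false, [(0, 1), (3, 5), (15, 3), (6, 1), (7, 3), (8, 3), (9, 2), (3, 16)], []⟩,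
  ⟨529, 90, 720, 72, 208, false, false, false, [(0, 1), (3, 13), (8, 2), (3, 14)], []⟩,
  ⟨650, 90, 720, 72, 200, false, false, false, [(0, 1), (3, 29)], []⟩,
  ⟨735, 90, 540, 192, 98, false, true, false, [(0, 1), (3, 16)], []⟩,
  ⟨794, 90, 540, 192, 98, false, true, false, [(0, 1), (3, 16)], []⟩,
  ⟨835, 90, 540, 192, 98, false, true, false, [(0, 1), (3, 16)], []⟩,
  ⟨876, 90, 540, 192, 98, false, true, false, [(0, 1), (3, 16)], []⟩,
  ⟨905, 90, 540, 192, 98, false, true, false, [(0, 1), (3, 16)], []⟩,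
  ⟨934, 90, 0, 224, 120, true, true, false, [(0, 1), (3, 13)], []⟩,
  ⟨963, 90, 0, 224, 120, true, true, false, [(0, 1), (3, 13)], []⟩,
  ⟨992, 90, 0, 224, 120, true, true, false, [(0, 1), (3, 13)], []⟩,
  ⟨1021, 90, 0, 224, 120, true, true, false, [(0, 1), (3, 13)], []⟩,
  ⟨1050, 90, 0, 224, 120, true, true, false, [(0, 1), (3, 13)], []⟩,
  ⟨1070, 90, 0, 192, 98, true, true, false, [(0, 1), (3, 16)], []⟩,
  ⟨1099, 90, 0, 192, 98, true, true, false, [(0, 1), (3, 16)], []⟩,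
  ⟨1128, 90, 0, 192, 98, true, true, false, [(0, 1), (3, 16)], []⟩,
  ⟨1170, 90, 0, 192, 98, true, true, false, [(0, 1), (3, 16)], []⟩,
  ⟨1212, 90, 0, 192, 98, true, true, false, [(0, 1), (3, 16)], []⟩,
  ⟨1272, 90, 0, 192, 98, true, true, false, [(0, 2), (3, 15)], []⟩,
  ⟨1332, 90, 0, 192, 98, true, true, false, [(0, 2), (3, 15)], []⟩,
  ⟨1392, 90, 0, 192, 98, true, true, false, [(0, 2), (3, 15)], []⟩,
  ⟨1452, 90, 0, 192, 98, true, true, false, [(0, 2), (3, 15)], []⟩,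
  ⟨1512, 90, 0, 192, 98, true, true, false, [(0, 3), (3, 14)], []⟩,
  ⟨1554, 90, 0, 192, 98, true, true, false, [(0, 4), (3, 13)], []⟩,
  ⟨1583, 90, 0, 192, 98, true, true, false, [(0, 6), (3, 11)], []⟩,
  ⟨1612, 90, 0, 192, 98, true, true, false, [(0, 14), (3, 3)], []⟩,
  ⟨1654, 90, 0, 192, 98, true, true, false, [(0, 17)], []⟩,
  ⟨1775, 90, 0, 176, 88, true, true, false, [(0, 19)], []⟩,
  ⟨2014, 90, 0, 160, 78, true, true, false, [(0, 21)], []⟩,
  ⟨2676, 90, 0, 120, 56, true, true, false, [(0, 25)], []⟩,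
  ⟨6247, 90, 0, 0, 0, true, false, false, [(0, 38)], []⟩,
  ⟨6784, 90, 0, 0, 0, true, false, false, [(0, 38)], []⟩
  ] = true := by decide +kernel

def g91_12 : Gr := ⟨false, 348, 358, 1024, 1024, 91, 95, 9768, 9981, 0, 2048, 0, []⟩

theorem k91_12 : chk g91_12 T325 [
  ⟨355, 90, 720, 36, 264, false, true, false, [(0, 1), (3, 5), (15, 3), (6, 1), (7, 3), (8, 3), (9, 2), (3, 17)], []⟩,
  ⟨603, 90, 720, 72, 216, false, false, false, [(0, 1), (3, 12), (8, 3), (3, 1), (9, 1), (3, 13)], []⟩,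
  ⟨724, 90, 720, 72, 200, false, false, false, [(0, 1), (3, 30)], []⟩,
  ⟨809, 90, 540, 192, 98, false, true, false, [(0, 1), (3, 17)], []⟩,
  ⟨868, 90, 540, 192, 98, false, true, false, [(0, 1), (3, 17)], []⟩,
  ⟨909, 90, 540, 192, 98, false, true, false, [(0, 1), (3, 17)], []⟩,
  ⟨950, 90, 0, 224, 120, true, true, false, [(0, 1), (3, 14)], []⟩,
  ⟨991, 90, 0, 224, 120, true, true, false, [(0, 1), (3, 14)], []⟩,
  ⟨1032, 90, 0, 224, 120, true, true, false, [(0, 1), (3, 14)], []⟩,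
  ⟨1073, 90, 0, 224, 120, true, true, false, [(0, 1), (3, 14)], []⟩,
  ⟨1114, 90, 0, 224, 120, true, true, false, [(0, 1), (3, 14)], []⟩,
  ⟨1155, 90, 0, 224, 120, true, true, false, [(0, 1), (3, 14)], []⟩,
  ⟨1196, 90, 0, 192, 98, true, true, false, [(0, 1), (3, 17)], []⟩,
  ⟨1237, 90, 0, 192, 98, true, true, false, [(0, 1), (3, 17)], []⟩,
  ⟨1296, 90, 0, 192, 98, true, true, false, [(0, 2), (3, 16)], []⟩,
  ⟨1355, 90, 0, 192, 98, true, true, false, [(0, 2), (3, 16)], []⟩,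
  ⟨1414, 90, 0, 192, 98, true, true, false, [(0, 2), (3, 16)], []⟩,
  ⟨1473, 90, 0, 192, 98, true, true, false, [(0, 2), (3, 16)], []⟩,
  ⟨1532, 90, 0, 192, 98, true, true, false, [(0, 3), (3, 15)], []⟩,
  ⟨1591, 90, 0, 192, 98, true, true, false, [(0, 3), (3, 15)], []⟩,
  ⟨1632, 90, 0, 192, 98, true, true, false, [(0, 6), (3, 12)], []⟩,
  ⟨1673, 90, 0, 192, 98, true, true, false, [(0, 18)], []⟩,
  ⟨1732, 90, 0, 192, 98, true, true, false, [(0, 18)], []⟩,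
  ⟨1899, 90, 0, 176, 88, true, true, false, [(0, 20)], []⟩,
  ⟨2228, 90, 0, 144, 69, true, true, false, [(0, 24)], []⟩,
  ⟨3502, 90, 0, 72, 32, true, true, false, [(0, 31)], []⟩,
  ⟨6979, 90, 0, 0, 0, true, false, false, [(0, 39)], []⟩
  ] = true := by decide +kernel

def g91_13 : Gr := ⟨false, 358, 364, 1024, 1024, 91, 95, 9768, 9981, 0, 2048, 0, []⟩

theorem k91_13 : chk g91_13 T350 [
  ⟨498, 120, 600, 192, 122, false, true, false, [(0, 1), (3, 4), (18, 2), (8, 1), (9, 2), (10, 2), (11, 2)], []⟩,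
  ⟨742, 120, 600, 192, 98, false, true, false, [(0, 1), (3, 6), (6, 1), (3, 3), (10, 1), (11, 2)], []⟩,
  ⟨861, 120, 600, 192, 98, false, true, false, [(0, 1), (3, 12), (11, 1)], []⟩,
  ⟨944, 120, 480, 192, 98, false, true, false, [(0, 1), (3, 13)], []⟩,
  ⟨1027, 120, 480, 192, 98, false, true, false, [(0, 1), (3, 13)], []⟩,
  ⟨1085, 120, 480, 192, 98, false, true, false, [(0, 1), (3, 13)], []⟩,
  ⟨1143, 120, 0, 192, 98, true, true, false, [(0, 1), (3, 13)], []⟩,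
  ⟨1201, 120, 0, 192, 98, true, true, false, [(0, 1), (3, 13)], []⟩,
  ⟨1284, 120, 0, 192, 98, true, true, false, [(0, 1), (3, 13)], []⟩,
  ⟨1367, 120, 0, 192, 98, true, true, false, [(0, 2), (3, 12)], []⟩,
  ⟨1450, 120, 0, 192, 98, true, true, false, [(0, 2), (3, 12)], []⟩,
  ⟨1533, 120, 0, 192, 98, true, true, false, [(0, 2), (3, 12)], []⟩,
  ⟨1616, 120, 0, 192, 98, true, true, false, [(0, 3), (3, 11)], []⟩,
  ⟨1699, 120, 0, 192, 98, true, true, false, [(0, 5), (3, 9)], []⟩,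
  ⟨1816, 120, 0, 192, 98, true, true, false, [(0, 14)], []⟩,
  ⟨2048, 120, 0, 160, 78, true, true, false, [(0, 17)], []⟩,
  ⟨2689, 120, 0, 120, 56, true, true, false, [(0, 20)], []⟩,
  ⟨6151, 120, 0, 0, 0, true, false, false, [(0, 30)], []⟩,
  ⟨7096, 120, 0, 0, 0, true, false, false, [(0, 30)], []⟩
  ] = true := by decide +kernel

def g91_14 : Gr := ⟨false, 364, 370, 1024, 1024, 91, 95, 9768, 9981, 0, 2048, 0, []⟩

theorem k91_14 : chk g91_14 T350 [
  ⟨498, 120, 720, 28, 276, false, false, false, [(0, 1), (3, 4), (18, 2), (8, 1), (9, 2), (10, 2), (11, 2), (12, 2), (3, 12)], []⟩,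
  ⟨738, 120, 720, 112, 180, false, true, false, [(0, 1), (3, 6), (6, 1), (3, 3), (10, 1), (11, 2), (3, 7)], []⟩,
  ⟨855, 120, 720, 112, 168, false, false, false, [(0, 1), (3, 12), (11, 1), (3, 7)], []⟩,
  ⟨937, 120, 0, 224, 120, true, true, false, [(0, 1), (3, 11)], []⟩,
  ⟨1053, 120, 0, 224, 120, true, true, false, [(0, 1), (3, 11)], []⟩,
  ⟨1169, 120, 0, 224, 120, true, true, false, [(0, 1), (3, 11)], []⟩,
  ⟨1285, 120, 0, 224, 120, true, true, false, [(0, 1), (3, 11)], []⟩,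
  ⟨1366, 120, 0, 224, 120, true, true, false, [(0, 2), (3, 10)], []⟩,
  ⟨1423, 120, 0, 208, 109, true, true, false, [(0, 2), (3, 12)], []⟩,
  ⟨1462, 120, 0, 208, 109, true, true, false, [(0, 2), (3, 12)], []⟩,
  ⟨1501, 120, 0, 192, 98, true, true, false, [(0, 2), (3, 13)], []⟩,
  ⟨1557, 120, 0, 192, 98, true, true, false, [(0, 2), (3, 13)], []⟩,
  ⟨1613, 120, 0, 192, 98, true, true, false, [(0, 3), (3, 12)], []⟩,
  ⟨1652, 120, 0, 192, 98, true, true, false, [(0, 4), (3, 11)], []⟩,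
  ⟨1691, 120, 0, 192, 98, true, true, false, [(0, 5), (3, 10)], []⟩,
  ⟨1730, 120, 0, 192, 98, true, true, false, [(0, 9), (3, 6)], []⟩,
  ⟨1810, 120, 0, 176, 88, true, true, false, [(0, 16)], []⟩,
  ⟨2035, 120, 0, 176, 88, true, true, false, [(0, 16)], []⟩,
  ⟨2656, 120, 0, 128, 60, true, true, false, [(0, 20)], []⟩,
  ⟨6012, 120, 0, 2, 1, true, true, false, [(0, 30)], []⟩,
  ⟨7213, 120, 0, 0, 0, true, false, false, [(0, 31)], []⟩
  ] = true := by decide +kernel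

def g91_15 : Gr := ⟨false, 370, 376, 1024, 1024, 91, 95, 9768, 9981, 0, 2048, 0, []⟩

theorem k91_15 : chk g91_15 T350 [
  ⟨498, 120, 720, 20, 284, false, false, false, [(0, 1), (3, 4), (18, 2), (8, 1), (9, 2), (10, 2), (11, 2), (12, 2), (3, 13)], []⟩,
  ⟨738, 120, 720, 72, 224, false, false, false, [(0, 1), (3, 6), (6, 1), (3, 3), (10, 1), (11, 2), (3, 11)], []⟩,
  ⟨855, 120, 600, 192, 98, false, true, false, [(0, 1), (3, 14)], []⟩,
  ⟨972, 120, 600, 192, 98, false, true, false, [(0, 1), (3, 14)], []⟩,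
  ⟨1054, 120, 480, 192, 98, false, true, false, [(0, 1), (3, 14)], []⟩,
  ⟨1111, 120, 480, 192, 98, false, true, false, [(0, 1), (3, 14)], []⟩,
  ⟨1168, 120, 0, 224, 120, true, true, false, [(0, 1), (3, 12)], []⟩,
  ⟨1225, 120, 0, 208, 109, true, true, false, [(0, 1), (3, 13)], []⟩,
  ⟨1306, 120, 0, 208, 109, true, true, false, [(0, 1), (3, 13)], []⟩,
  ⟨1387, 120, 0, 192, 98, true, true, false, [(0, 2), (3, 13)], []⟩,
  ⟨1468, 120, 0, 192, 98, true, true, false, [(0, 2), (3, 13)], []⟩,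
  ⟨1549, 120, 0, 192, 98, true, true, false, [(0, 2), (3, 13)], []⟩,
  ⟨1630, 120, 0, 192, 98, true, true, false, [(0, 3), (3, 12)], []⟩,
  ⟨1711, 120, 0, 192, 98, true, true, false, [(0, 4), (3, 11)], []⟩,
  ⟨1792, 120, 0, 192, 98, true, true, false, [(0, 15)], []⟩,
  ⟨1907, 120, 0, 192, 98, true, true, false, [(0, 15)], []⟩,
  ⟨2228, 120, 0, 160, 78, true, true, false, [(0, 18)], []⟩,
  ⟨3113, 120, 0, 96, 44, true, true, false, [(0, 23)], []⟩,
  ⟨6522, 120, 0, 0, 0, true, false, false, [(0, 31)], []⟩,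
  ⟨7330, 120, 0, 0, 0, true, false, false, [(0, 31)], []⟩
  ] = true := by decide +kernel

def g91_16 : Gr := ⟨false, 376, 384, 1024, 1024, 91, 95, 9768, 9981, 0, 2048, 0, []⟩

theorem k91_16 : chk g91_16 T350 [
  ⟨498, 120, 720, 28, 284, false, false, false, [(0, 1), (3, 4), (18, 2), (8, 1), (9, 2), (10, 2), (11, 2), (12, 2), (3, 13)], []⟩,
  ⟨742, 120, 720, 80, 220, false, true, false, [(0, 1), (3, 11), (11, 2), (3, 11)], []⟩,
  ⟨861, 120, 720, 80, 208, false, false, false, [(0, 1), (3, 24)], []⟩,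
  ⟨944, 120, 480, 224, 120, false, true, false, [(0, 1), (3, 12)], []⟩,
  ⟨1027, 120, 0, 224, 120, true, true, false, [(0, 1), (3, 12)], []⟩,
  ⟨1145, 120, 0, 224, 120, true, true, false, [(0, 1), (3, 12)], []⟩,
  ⟨1263, 120, 0, 224, 120, true, true, false, [(0, 1), (3, 12)], []⟩,
  ⟨1381, 120, 0, 224, 120, true, true, false, [(0, 2), (3, 11)], []⟩,
  ⟨1463, 120, 0, 224, 120, true, true, false, [(0, 2), (3, 11)], []⟩,
  ⟨1520, 120, 0, 208, 109, true, true, false, [(0, 2), (3, 13)], []⟩,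
  ⟨1560, 120, 0, 192, 98, true, true, false, [(0, 2), (3, 14)], []⟩,
  ⟨1600, 120, 0, 192, 98, true, true, false, [(0, 2), (3, 14)], []⟩,
  ⟨1640, 120, 0, 192, 98, true, true, false, [(0, 3), (3, 13)], []⟩,
  ⟨1680, 120, 0, 192, 98, true, true, false, [(0, 3), (3, 13)], []⟩,
  ⟨1720, 120, 0, 192, 98, true, true, false, [(0, 4), (3, 12)], []⟩,
  ⟨1760, 120, 0, 192, 98, true, true, false, [(0, 6), (3, 10)], []⟩,
  ⟨1800, 120, 0, 192, 98, true, true, false, [(0, 16)], []⟩,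
  ⟨1881, 120, 0, 176, 88, true, true, false, [(0, 17)], []⟩,
  ⟨2110, 120, 0, 176, 88, true, true, false, [(0, 17)], []⟩,
  ⟨2742, 120, 0, 128, 60, true, true, false, [(0, 21)], []⟩,
  ⟨6156, 120, 0, 0, 0, true, false, false, [(0, 32)], []⟩,
  ⟨7486, 120, 0, 0, 0, true, false, false, [(0, 32)], []⟩
  ] = true := by decide +kernel

def g91_17 : Gr := ⟨false, 384, 392, 1024, 1024, 91, 95, 9768, 9981, 0, 2048, 0, []⟩

theorem k91_17 : chk g91_17 T375 [
  ⟨498, 120, 720, 24, 291, false, true, false, [(0, 1), (3, 4), (19, 2), (8, 1), (9, 2), (10, 2), (11, 2), (12, 2), (3, 14)], []⟩,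
  ⟨742, 120, 720, 72, 232, false, false, false, [(0, 1), (3, 6), (6, 1), (3, 3), (7, 1), (11, 2), (12, 2), (3, 10)], []⟩,
  ⟨910, 120, 720, 88, 200, false, false, false, [(0, 1), (3, 12), (11, 1), (3, 1), (12, 1), (3, 9)], []⟩,
  ⟨992, 120, 480, 208, 109, false, true, false, [(0, 1), (3, 14)], []⟩,
  ⟨1049, 120, 480, 208, 109, false, true, false, [(0, 1), (3, 14)], []⟩,
  ⟨1106, 120, 0, 224, 120, true, true, false, [(0, 1), (3, 13)], []⟩,
  ⟨1163, 120, 0, 224, 120, true, true, false, [(0, 1), (3, 13)], []⟩,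
  ⟨1244, 120, 0, 224, 120, true, true, false, [(0, 1), (3, 13)], []⟩,
  ⟨1325, 120, 0, 208, 109, true, true, false, [(0, 1), (3, 14)], []⟩,
  ⟨1406, 120, 0, 208, 109, true, true, false, [(0, 2), (3, 13)], []⟩,
  ⟨1487, 120, 0, 208, 109, true, true, false, [(0, 2), (3, 13)], []⟩,
  ⟨1568, 120, 0, 208, 109, true, true, false, [(0, 2), (3, 13)], []⟩,
  ⟨1649, 120, 0, 208, 109, true, true, false, [(0, 2), (3, 13)], []⟩,
  ⟨1706, 120, 0, 208, 109, true, true, false, [(0, 3), (3, 12)], []⟩,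
  ⟨1746, 120, 0, 208, 109, true, true, false, [(0, 4), (3, 11)], []⟩,
  ⟨1774, 120, 0, 208, 109, true, true, false, [(0, 5), (3, 10)], []⟩,
  ⟨1793, 120, 0, 208, 109, true, true, false, [(0, 7), (3, 8)], []⟩,
  ⟨1806, 120, 0, 192, 98, true, true, false, [(0, 9), (3, 8)], []⟩,
  ⟨1819, 120, 0, 192, 98, true, true, false, [(0, 13), (3, 4)], []⟩,
  ⟨1848, 120, 0, 192, 98, true, true, false, [(0, 17)], []⟩,
  ⟨1907, 120, 0, 192, 98, true, true, false, [(0, 17)], []⟩,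
  ⟨2075, 120, 0, 176, 88, true, true, false, [(0, 18)], []⟩,
  ⟨2542, 120, 0, 160, 78, true, true, false, [(0, 19)], []⟩,
  ⟨4346, 120, 0, 36, 16, true, true, false, [(0, 29)], []⟩,
  ⟨7642, 120, 0, 0, 0, true, false, false, [(0, 32)], []⟩
  ] = true := by decide +kernel

def g91_18 : Gr := ⟨false, 392, 400, 1024, 1024, 91, 95, 9768, 9981, 0, 2048, 0, []⟩

theorem k91_18 : chk g91_18 T375 [
  ⟨498, 120, 720, 20, 300, false, false, false, [(0, 1), (3, 4), (19, 2), (8, 1), (9, 2), (10, 2), (11, 2), (12, 2), (3, 15)], []⟩,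
  ⟨742, 120, 720, 80, 232, false, false, false, [(0, 1), (3, 6), (6, 1), (3, 4), (11, 2), (12, 2), (3, 10)], []⟩,
  ⟨912, 120, 720, 80, 216, false, false, false, [(0, 1), (3, 14), (12, 1), (3, 10)], []⟩,
  ⟨1031, 120, 0, 240, 132, true, true, false, [(0, 1), (3, 12)], []⟩,
  ⟨1150, 120, 0, 240, 132, true, true, false, [(0, 1), (3, 12)], []⟩,
  ⟨1269, 120, 0, 240, 132, true, true, false, [(0, 1), (3, 12)], []⟩,
  ⟨1352, 120, 0, 240, 132, true, true, false, [(0, 1), (3, 12)], []⟩,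
  ⟨1435, 120, 0, 208, 109, true, true, false, [(0, 2), (3, 14)], []⟩,
  ⟨1518, 120, 0, 208, 109, true, true, false, [(0, 2), (3, 14)], []⟩,
  ⟨1601, 120, 0, 208, 109, true, true, false, [(0, 2), (3, 14)], []⟩,
  ⟨1684, 120, 0, 192, 98, true, true, false, [(0, 2), (3, 15)], []⟩,
  ⟨1767, 120, 0, 192, 98, true, true, false, [(0, 3), (3, 14)], []⟩,
  ⟨1850, 120, 0, 192, 98, true, true, false, [(0, 5), (3, 12)], []⟩,
  ⟨1968, 120, 0, 192, 98, true, true, false, [(0, 17)], []⟩,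
  ⟨2134, 120, 0, 176, 88, true, true, false, [(0, 19)], []⟩,
  ⟨2595, 120, 0, 144, 69, true, true, false, [(0, 21)], []⟩,
  ⟨5086, 120, 0, 20, 9, true, true, false, [(0, 31)], []⟩,
  ⟨7798, 120, 0, 0, 0, true, false, false, [(0, 33)], []⟩
  ] = true := by decide +kernel

def g91_19 : Gr := ⟨false, 400, 410, 1024, 1024, 91, 95, 9768, 9981, 0, 2048, 0, []⟩

theorem k91_19 : chk g91_19 T375 [
  ⟨498, 120, 720, 32, 296, false, false, false, [(0, 1), (3, 4), (19, 2), (8, 1), (9, 2), (10, 2), (11, 2), (12, 2), (3, 15)], []⟩,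
  ⟨742, 120, 720, 80, 240, false, false, false, [(0, 1), (3, 6), (6, 1), (3, 4), (11, 2), (12, 2), (3, 11)], []⟩,
  ⟨912, 120, 720, 80, 224, false, false, false, [(0, 1), (3, 26)], []⟩,
  ⟨1031, 120, 720, 104, 192, false, false, false, [(0, 1), (3, 24)], []⟩,
  ⟨1114, 120, 600, 128, 160, false, false, false, [(0, 1), (3, 22)], []⟩,
  ⟨1197, 120, 0, 240, 132, true, true, false, [(0, 1), (3, 13)], []⟩,
  ⟨1280, 120, 0, 240, 132, true, true, false, [(0, 1), (3, 13)], []⟩,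
  ⟨1338, 120, 0, 240, 132, true, true, false, [(0, 1), (3, 13)], []⟩,
  ⟨1396, 120, 0, 208, 109, true, true, false, [(0, 2), (3, 15)], []⟩,
  ⟨1454, 120, 0, 208, 109, true, true, false, [(0, 2), (3, 15)], []⟩,
  ⟨1512, 120, 0, 208, 109, true, true, false, [(0, 2), (3, 15)], []⟩,
  ⟨1570, 120, 0, 208, 109, true, true, false, [(0, 2), (3, 15)], []⟩,
  ⟨1628, 120, 0, 208, 109, true, true, false, [(0, 2), (3, 15)], []⟩,
  ⟨1686, 120, 0, 208, 109, true, true, false, [(0, 2), (3, 15)], []⟩,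
  ⟨1744, 120, 0, 192, 98, true, true, false, [(0, 3), (3, 15)], []⟩,
  ⟨1802, 120, 0, 192, 98, true, true, false, [(0, 3), (3, 15)], []⟩,
  ⟨1843, 120, 0, 192, 98, true, true, false, [(0, 5), (3, 13)], []⟩,
  ⟨1884, 120, 0, 192, 98, true, true, false, [(0, 7), (3, 11)], []⟩,
  ⟨1942, 120, 0, 192, 98, true, true, false, [(0, 18)], []⟩,
  ⟨2058, 120, 0, 192, 98, true, true, false, [(0, 18)], []⟩,
  ⟨2289, 120, 0, 160, 78, true, true, false, [(0, 21)], []⟩,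
  ⟨3185, 120, 0, 104, 48, true, true, false, [(0, 25)], []⟩,
  ⟨6637, 120, 0, 0, 0, true, false, false, [(0, 34)], []⟩,
  ⟨7993, 120, 0, 0, 0, true, false, false, [(0, 34)], []⟩
  ] = true := by decide +kernel

def g91_20 : Gr := ⟨false, 409, 422, 1024, 1024, 91, 95, 9768, 9981, 0, 2048, 0, []⟩

theorem k91_20 : chk g91_20 T400 [
  ⟨498, 120, 720, 44, 292, false, false, false, [(0, 1), (3, 4), (22, 2), (10, 1), (11, 2), (12, 2), (13, 2), (14, 2), (15, 2), (3, 13)], []⟩,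
  ⟨846, 120, 720, 80, 236, false, true, false, [(0, 1), (3, 5), (7, 2), (3, 2), (8, 2), (13, 2), (14, 2), (15, 2), (3, 10)], []⟩,
  ⟨1016, 120, 720, 104, 200, false, false, false, [(0, 1), (3, 14), (14, 1), (3, 10)], []⟩,
  ⟨1135, 120, 720, 104, 192, false, false, false, [(0, 1), (3, 14), (14, 1), (3, 10)], []⟩,
  ⟨1218, 120, 0, 240, 132, true, true, false, [(0, 1), (3, 14)], []⟩,
  ⟨1301, 120, 0, 240, 132, true, true, false, [(0, 1), (3, 14)], []⟩,
  ⟨1359, 120, 0, 240, 132, true, true, false, [(0, 1), (3, 14)], []⟩,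
  ⟨1417, 120, 0, 240, 132, true, true, false, [(0, 2), (3, 13)], []⟩,
  ⟨1458, 120, 0, 240, 132, true, true, false, [(0, 2), (3, 13)], []⟩,
  ⟨1499, 120, 0, 224, 120, true, true, false, [(0, 2), (3, 15)], []⟩,
  ⟨1540, 120, 0, 208, 109, true, true, false, [(0, 2), (3, 16)], []⟩,
  ⟨1581, 120, 0, 208, 109, true, true, false, [(0, 2), (3, 16)], []⟩,
  ⟨1639, 120, 0, 208, 109, true, true, false, [(0, 2), (3, 16)], []⟩,
  ⟨1697, 120, 0, 208, 109, true, true, false, [(0, 2), (3, 16)], []⟩,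
  ⟨1737, 120, 0, 208, 109, true, true, false, [(0, 3), (3, 15)], []⟩,
  ⟨1777, 120, 0, 192, 98, true, true, false, [(0, 3), (3, 16)], []⟩,
  ⟨1817, 120, 0, 192, 98, true, true, false, [(0, 3), (3, 16)], []⟩,
  ⟨1857, 120, 0, 192, 98, true, true, false, [(0, 4), (3, 15)], []⟩,
  ⟨1885, 120, 0, 192, 98, true, true, false, [(0, 5), (3, 14)], []⟩,
  ⟨1913, 120, 0, 192, 98, true, true, false, [(0, 7), (3, 12)], []⟩,
  ⟨1941, 120, 0, 192, 98, true, true, false, [(0, 13), (3, 6)], []⟩,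
  ⟨1999, 120, 0, 192, 98, true, true, false, [(0, 19)], []⟩,
  ⟨2163, 120, 0, 176, 88, true, true, false, [(0, 20)], []⟩,
  ⟨2620, 120, 0, 144, 69, true, true, false, [(0, 23)], []⟩,
  ⟨4382, 120, 0, 44, 19, true, true, false, [(0, 31)], []⟩,
  ⟨7839, 120, 0, 0, 0, true, false, false, [(0, 35)], []⟩,
  ⟨8227, 120, 0, 0, 0, true, false, false, [(0, 35)], []⟩
  ] = true := by decide +kernel

def g91_21 : Gr := ⟨false, 422, 436, 1024, 1024, 91, 95, 9768, 9981, 0, 2048, 0, []⟩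

theorem k91_21 : chk g91_21 T400 [
  ⟨498, 120, 720, 32, 312, false, false, false, [(0, 1), (3, 4), (22, 2), (10, 1), (11, 2), (12, 2), (13, 2), (14, 2), (15, 2), (3, 15)], []⟩,
  ⟨846, 120, 720, 80, 248, false, false, false, [(0, 1), (3, 5), (7, 2), (3, 2), (8, 2), (13, 2), (14, 2), (15, 2), (3, 11)], []⟩,
  ⟨1086, 120, 720, 104, 208, false, false, false, [(0, 1), (3, 10), (8, 1), (3, 2), (14, 2), (3, 11)], []⟩,
  ⟨1203, 120, 720, 104, 192, false, false, false, [(0, 1), (3, 26)], []⟩,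
  ⟨1285, 120, 0, 240, 132, true, true, false, [(0, 1), (3, 15)], []⟩,
  ⟨1367, 120, 0, 240, 132, true, true, false, [(0, 1), (3, 15)], []⟩,
  ⟨1449, 120, 0, 240, 132, true, true, false, [(0, 2), (3, 14)], []⟩,
  ⟨1531, 120, 0, 240, 132, true, true, false, [(0, 2), (3, 14)], []⟩,
  ⟨1613, 120, 0, 208, 109, true, true, false, [(0, 2), (3, 17)], []⟩,
  ⟨1695, 120, 0, 208, 109, true, true, false, [(0, 2), (3, 17)], []⟩,
  ⟨1777, 120, 0, 208, 109, true, true, false, [(0, 2), (3, 17)], []⟩,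
  ⟨1859, 120, 0, 208, 109, true, true, false, [(0, 3), (3, 16)], []⟩,
  ⟨1916, 120, 0, 208, 109, true, true, false, [(0, 4), (3, 15)], []⟩,
  ⟨1956, 120, 0, 192, 98, true, true, false, [(0, 5), (3, 15)], []⟩,
  ⟨1996, 120, 0, 192, 98, true, true, false, [(0, 10), (3, 10)], []⟩,
  ⟨2077, 120, 0, 192, 98, true, true, false, [(0, 20)], []⟩,
  ⟨2239, 120, 0, 192, 98, true, true, false, [(0, 20)], []⟩,
  ⟨2688, 120, 0, 144, 69, true, true, false, [(0, 24)], []⟩,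
  ⟨4421, 120, 0, 44, 19, true, true, false, [(0, 32)], []⟩,
  ⟨7821, 120, 0, 0, 0, true, false, false, [(0, 36)], []⟩,
  ⟨8500, 120, 0, 0, 0, true, false, false, [(0, 36)], []⟩
  ] = true := by decide +kernel

def g91_22 : Gr := ⟨false, 435, 448, 1024, 1024, 91, 95, 9768, 9981, 0, 2048, 0, []⟩

theorem k91_22 : chk g91_22 T425 [
  ⟨698, 120, 600, 240, 132, false, true, false, [(0, 1), (3, 4), (23, 2), (10, 1), (11, 2), (12, 2), (13, 2), (14, 2), (15, 1)], []⟩,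
  ⟨1040, 120, 720, 104, 224, false, false, false, [(0, 1), (3, 6), (7, 1), (3, 2), (8, 2), (3, 1), (13, 1), (14, 2), (15, 2), (3, 10)], []⟩,
  ⟨1207, 120, 720, 104, 208, false, false, false, [(0, 1), (3, 16), (15, 1), (3, 10)], []⟩,
  ⟨1324, 120, 0, 240, 132, true, true, false, [(0, 1), (3, 16)], []⟩,
  ⟨1441, 120, 0, 240, 132, true, true, false, [(0, 1), (3, 16)], []⟩,
  ⟨1558, 120, 0, 240, 132, true, true, false, [(0, 2), (3, 15)], []⟩,
  ⟨1640, 120, 0, 208, 109, true, true, false, [(0, 2), (3, 18)], []⟩,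
  ⟨1756, 120, 0, 208, 109, true, true, false, [(0, 2), (3, 18)], []⟩,
  ⟨1872, 120, 0, 208, 109, true, true, false, [(0, 3), (3, 17)], []⟩,
  ⟨1953, 120, 0, 208, 109, true, true, false, [(0, 3), (3, 17)], []⟩,
  ⟨2034, 120, 0, 208, 109, true, true, false, [(0, 5), (3, 15)], []⟩,
  ⟨2115, 120, 0, 192, 98, true, true, false, [(0, 21)], []⟩,
  ⟨2342, 120, 0, 192, 98, true, true, false, [(0, 21)], []⟩,
  ⟨2969, 120, 0, 128, 60, true, true, false, [(0, 26)], []⟩,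
  ⟨6357, 120, 0, 0, 0, true, false, false, [(0, 37)], []⟩,
  ⟨8734, 120, 0, 0, 0, true, false, false, [(0, 37)], []⟩
  ] = true := by decide +kernel

def g91_23 : Gr := ⟨false, 448, 461, 1024, 1024, 91, 95, 9768, 9981, 0, 2048, 0, []⟩

theorem k91_23 : chk g91_23 T425 [
  ⟨698, 120, 600, 240, 140, false, true, false, [(0, 1), (3, 4), (23, 2), (10, 1), (11, 2), (12, 2), (13, 2), (14, 2), (15, 2)], []⟩,
  ⟨1040, 120, 720, 104, 232, false, false, false, [(0, 1), (3, 6), (7, 1), (3, 2), (8, 2), (3, 1), (13, 1), (14, 2), (15, 2), (3, 11)], []⟩,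
  ⟨1279, 120, 720, 104, 208, false, false, false, [(0, 1), (3, 10), (8, 1), (3, 5), (15, 1), (3, 11)], []⟩,
  ⟨1446, 120, 0, 240, 132, true, true, false, [(0, 1), (3, 17)], []⟩,
  ⟨1613, 120, 0, 240, 132, true, true, false, [(0, 2), (3, 16)], []⟩,
  ⟨1730, 120, 0, 208, 109, true, true, false, [(0, 2), (3, 19)], []⟩,
  ⟨1847, 120, 0, 208, 109, true, true, false, [(0, 2), (3, 19)], []⟩,
  ⟨1964, 120, 0, 208, 109, true, true, false, [(0, 3), (3, 18)], []⟩,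
  ⟨2081, 120, 0, 208, 109, true, true, false, [(0, 4), (3, 17)], []⟩,
  ⟨2198, 120, 0, 192, 98, true, true, false, [(0, 22)], []⟩,
  ⟨2430, 120, 0, 192, 98, true, true, false, [(0, 22)], []⟩,
  ⟨3072, 120, 0, 120, 56, true, true, false, [(0, 28)], []⟩,
  ⟨6537, 120, 0, 0, 0, true, false, false, [(0, 38)], []⟩,
  ⟨8987, 120, 0, 0, 0, true, false, false, [(0, 38)], []⟩
  ] = true := by decide +kernel

def g91_24 : Gr := ⟨false, 460, 486, 1024, 1024, 91, 95, 9768, 9981, 0, 2048, 0, []⟩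

theorem k91_24 : chk g91_24 T450 [
  ⟨698, 120, 720, 44, 316, false, false, false, [(0, 1), (3, 4), (25, 2), (11, 1), (12, 2), (13, 2), (14, 2), (15, 2), (16, 2), (17, 2), (18, 2), (3, 14)], []⟩,
  ⟨1040, 120, 720, 80, 264, false, false, false, [(0, 1), (3, 6), (8, 1), (3, 2), (9, 2), (3, 2), (15, 2), (16, 2), (17, 2), (3, 13)], []⟩,
  ⟨1279, 120, 720, 120, 208, false, false, false, [(0, 1), (3, 6), (8, 1), (3, 3), (9, 1), (3, 3), (10, 1), (16, 2), (3, 1), (17, 1), (3, 10)], []⟩,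
  ⟨1446, 120, 600, 120, 192, false, false, false, [(0, 1), (3, 14), (10, 1), (3, 1), (16, 1), (3, 1), (17, 1), (3, 10)], []⟩,
  ⟨1528, 120, 0, 240, 132, true, true, false, [(0, 2), (3, 18)], []⟩,
  ⟨1644, 120, 0, 240, 132, true, true, false, [(0, 2), (3, 18)], []⟩,
  ⟨1760, 120, 0, 240, 132, true, true, false, [(0, 2), (3, 18)], []⟩,
  ⟨1841, 120, 0, 208, 109, true, true, false, [(0, 2), (3, 21)], []⟩,
  ⟨1922, 120, 0, 208, 109, true, true, false, [(0, 3), (3, 20)], []⟩,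
  ⟨2003, 120, 0, 208, 109, true, true, false, [(0, 3), (3, 20)], []⟩,
  ⟨2059, 120, 0, 208, 109, true, true, false, [(0, 4), (3, 19)], []⟩,
  ⟨2115, 120, 0, 208, 109, true, true, false, [(0, 5), (3, 18)], []⟩,
  ⟨2154, 120, 0, 208, 109, true, true, false, [(0, 8), (3, 15)], []⟩,
  ⟨2181, 120, 0, 208, 109, true, true, false, [(0, 16), (3, 7)], []⟩,
  ⟨2261, 120, 0, 192, 98, true, true, false, [(0, 24)], []⟩,
  ⟨2487, 120, 0, 192, 98, true, true, false, [(0, 24)], []⟩,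
  ⟨3111, 120, 0, 144, 69, true, true, false, [(0, 28)], []⟩,
  ⟨6482, 120, 0, 0, 0, true, false, false, [(0, 40)], []⟩,
  ⟨9475, 120, 0, 0, 0, true, false, false, [(0, 40)], []⟩
  ] = true := by decide +kernel

def g91_25 : Gr := ⟨false, 486, 512, 1024, 1024, 91, 95, 9768, 9981, 0, 2048, 0, []⟩

theorem k91_25 : chk g91_25 T475 [
  ⟨698, 120, 720, 48, 336, false, false, false, [(0, 1), (3, 4), (27, 2), (12, 1), (13, 2), (14, 2), (15, 2), (16, 2), (17, 2), (18, 2), (19, 2), (3, 16)], []⟩,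
  ⟨1186, 120, 720, 96, 256, false, false, false, [(0, 1), (3, 5), (8, 2), (3, 1), (9, 3), (10, 4), (17, 2), (18, 2), (19, 2), (3, 12)], []⟩,
  ⟨1522, 120, 720, 120, 208, false, false, false, [(0, 1), (3, 6), (8, 1), (3, 3), (9, 1), (3, 2), (10, 2), (17, 2), (18, 2), (19, 2), (3, 10)], []⟩,
  ⟨1686, 120, 0, 256, 145, true, true, false, [(0, 2), (3, 17), (18, 1), (3, 1)], []⟩,
  ⟨1850, 120, 0, 224, 120, true, true, false, [(0, 2), (3, 17), (18, 1), (3, 4)], []⟩,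
  ⟨2014, 120, 0, 224, 120, true, true, false, [(0, 2), (3, 17), (18, 1), (3, 4)], []⟩,
  ⟨2176, 120, 0, 208, 109, true, true, false, [(0, 3), (3, 22)], []⟩,
  ⟨2289, 120, 0, 208, 109, true, true, false, [(0, 6), (3, 19)], []⟩,
  ⟨2449, 120, 0, 192, 98, true, true, false, [(0, 26)], []⟩,
  ⟨2893, 120, 0, 160, 78, true, true, false, [(0, 29)], []⟩,
  ⟨4606, 120, 0, 60, 27, true, true, false, [(0, 37)], []⟩,
  ⟨7967, 120, 0, 0, 0, true, false, false, [(0, 42)], []⟩,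
  ⟨9982, 120, 0, 0, 0, true, false, false, [(0, 42)], []⟩
  ] = true := by decide +kernel

def g91_26 : Gr := ⟨false, 512, 538, 1024, 1024, 91, 95, 9768, 9981, 0, 2048, 0, []⟩

theorem k91_26 : chk g91_26 T500 [
  ⟨978, 120, 720, 96, 296, false, false, false, [(0, 1), (3, 4), (28, 2), (13, 1), (14, 2), (15, 2), (16, 2), (17, 2), (18, 2), (19, 2), (20, 2), (21, 2), (3, 12)], []⟩,
  ⟨1457, 120, 720, 120, 232, false, false, false, [(0, 1), (3, 5), (9, 2), (3, 2), (10, 2), (3, 1), (11, 3), (18, 2), (19, 2), (20, 2), (21, 2), (3, 10)], []⟩,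
  ⟨1792, 120, 600, 120, 208, false, false, false, [(0, 2), (3, 5), (4, 1), (3, 3), (10, 1), (3, 3), (11, 1), (3, 2), (19, 2), (20, 2), (3, 1), (21, 1), (3, 10)], []⟩,
  ⟨2027, 120, 0, 224, 120, true, true, false, [(0, 2), (3, 13), (11, 1), (3, 3), (19, 1), (3, 1), (20, 1), (3, 1), (21, 1), (3, 2)], []⟩,
  ⟨2262, 120, 0, 224, 120, true, true, false, [(0, 3), (3, 8), (5, 1), (3, 7), (12, 1), (3, 1), (20, 1), (3, 1), (21, 1), (3, 2)], []⟩,
  ⟨2426, 120, 0, 208, 109, true, true, false, [(0, 6), (3, 21)], []⟩,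
  ⟨2657, 120, 0, 208, 109, true, true, false, [(0, 27)], []⟩,
  ⟨3296, 120, 0, 144, 69, true, true, false, [(0, 33)], []⟩,
  ⟨6744, 120, 0, 0, 0, true, false, false, [(0, 44)], []⟩,
  ⟨10192, 120, 0, 0, 0, true, false, false, [(0, 44)], []⟩,
  ⟨10488, 120, 0, 0, 0, true, false, false, [(0, 44)], []⟩
  ] = true := by decide +kernel

def g91_27 : Gr := ⟨false, 537, 564, 1024, 1024, 91, 95, 9768, 9981, 0, 1954, 0, []⟩

theorem k91_27 : chk g91_27 T525 [
  ⟨978, 120, 720, 48, 352, false, false, false, [(0, 1), (3, 4), (29, 2), (13, 1), (14, 2), (15, 2), (16, 2), (17, 2), (18, 2), (19, 2), (20, 2), (21, 2), (22, 2), (3, 16)], []⟩,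
  ⟨1663, 120, 720, 112, 244, false, true, false, [(0, 1), (3, 5), (9, 2), (3, 1), (10, 3), (11, 4), (18, 2), (19, 2), (20, 2), (21, 2), (22, 2), (3, 11)], []⟩,
  ⟨2134, 120, 0, 224, 120, true, true, true, [(0, 2), (3, 5), (4, 1), (3, 3), (10, 1), (3, 2), (11, 2), (3, 2), (12, 2), (20, 2), (21, 2)], [(22, 2), (3, 1), (23, 1)]⟩,
  ⟨2463, 120, 0, 224, 120, true, true, false, [(0, 3), (3, 4), (4, 1), (3, 3), (5, 1), (3, 3), (6, 1), (3, 3), (12, 1), (3, 1), (20, 1), (3, 1), (21, 1), (3, 1), (22, 1), (3, 1), (23, 1)], []⟩,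
  ⟨2792, 120, 0, 208, 109, true, true, false, [(0, 15), (6, 1), (0, 3), (7, 1), (0, 3), (21, 1), (0, 1), (22, 1), (0, 1), (23, 1), (0, 1)], []⟩,
  ⟨3701, 120, 0, 128, 60, true, true, false, [(0, 36)], []⟩,
  ⟨7200, 120, 0, 0, 0, true, false, false, [(0, 46)], []⟩,
  ⟨10491, 120, 0, 0, 0, true, false, false, [(0, 46)], []⟩
  ] = true := by decide +kernel

def g91_28 : Gr := ⟨false, 563, 589, 1024, 1024, 91, 95, 9768, 9981, 0, 1864, 0, []⟩

theorem k91_28 : chk g91_28 T550 [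
  ⟨978, 120, 720, 72, 352, false, false, false, [(0, 1), (3, 4), (32, 2), (15, 1), (16, 2), (17, 2), (18, 2), (19, 2), (20, 2), (21, 2), (22, 2), (23, 2), (24, 2), (25, 2), (3, 14)], []⟩,
  ⟨1663, 120, 600, 112, 268, false, true, false, [(0, 1), (3, 5), (10, 2), (3, 1), (11, 3), (12, 4), (13, 1), (20, 1), (21, 2), (22, 2), (23, 2), (24, 2), (25, 2), (3, 11)], []⟩,
  ⟨2348, 120, 0, 224, 120, true, true, true, [(0, 2), (3, 5), (4, 1), (3, 2), (5, 1), (11, 1), (3, 2), (12, 2), (3, 1), (13, 3), (22, 2), (23, 2), (24, 2)], [(25, 2), (26, 2)]⟩,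
  ⟨2827, 120, 0, 208, 109, true, true, true, [(0, 7), (4, 1), (0, 3), (5, 1), (0, 2), (6, 2), (0, 2), (7, 2), (22, 2), (23, 2), (24, 2), (25, 2)], [(26, 2), (27, 1)]⟩,
  ⟨3769, 120, 0, 160, 78, true, true, false, [(0, 35)], []⟩,
  ⟨7396, 120, 0, 0, 0, true, false, false, [(0, 48)], []⟩,
  ⟨10451, 120, 0, 0, 0, true, false, false, [(0, 48)], []⟩
  ] = true := by decide +kernel

def g91_29 : Gr := ⟨false, 588, 615, 1024, 1024, 91, 95, 9768, 9981, 0, 1785, 0, []⟩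

theorem k91_29 : chk g91_29 T575 [
  ⟨1371, 120, 720, 112, 312, false, false, false, [(0, 1), (3, 4), (33, 2), (15, 1), (16, 2), (17, 2), (18, 2), (19, 2), (20, 2), (21, 2), (22, 2), (23, 2), (24, 2), (25, 2), (26, 2), (3, 11)], []⟩,
  ⟨2331, 120, 0, 224, 128, true, true, true, [(0, 2), (3, 4), (4, 1), (10, 1), (3, 1), (11, 3), (12, 4), (13, 4), (22, 2), (23, 2), (24, 2)], [(25, 2), (26, 2), (27, 2)]⟩,
  ⟨3003, 120, 0, 224, 120, true, true, false, [(0, 7), (4, 1), (0, 2), (5, 2), (0, 1), (6, 3), (0, 1), (7, 3), (22, 2), (14, 1), (23, 1), (24, 2), (25, 2), (26, 2), (27, 2)], []⟩,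
  ⟨4322, 120, 0, 128, 60, true, true, false, [(0, 40)], []⟩,
  ⟨7947, 120, 0, 0, 0, true, false, false, [(0, 50)], []⟩,
  ⟨10450, 120, 0, 0, 0, true, false, false, [(0, 50)], []⟩
  ] = true := by decide +kernel

def g91_30 : Gr := ⟨false, 614, 640, 1024, 1024, 91, 95, 9768, 9981, 0, 1709, 0, []⟩

theorem k91_30 : chk g91_30 T600 [
  ⟨1371, 120, 600, 112, 328, false, false, false, [(0, 1), (3, 4), (35, 2), (16, 1), (17, 2), (18, 2), (19, 2), (20, 2), (21, 2), (22, 2), (23, 2), (24, 2), (25, 2), (26, 2), (27, 2), (28, 2), (3, 11)], []⟩,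
  ⟨2742, 120, 0, 224, 120, true, true, true, [(0, 2), (3, 4), (4, 1), (11, 1), (3, 1), (12, 3), (13, 4), (14, 4), (23, 2), (24, 2), (25, 2), (26, 2)], [(27, 2), (28, 2), (29, 2)]⟩,
  ⟨3414, 120, 0, 208, 109, true, true, false, [(0, 7), (4, 1), (0, 3), (5, 1), (0, 3), (6, 1), (0, 3), (7, 1), (0, 2), (8, 2), (0, 1), (25, 1), (26, 2), (27, 2), (28, 2), (29, 2), (30, 2)], []⟩,
  ⟨5262, 120, 0, 64, 28, true, true, false, [(0, 47)], []⟩,
  ⟨8887, 120, 0, 0, 0, true, false, false, [(0, 52)], []⟩,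
  ⟨10412, 120, 0, 0, 0, true, false, false, [(0, 52)], []⟩
  ] = true := by decide +kernel

def g91_31 : Gr := ⟨false, 640, 666, 1024, 1024, 91, 95, 9768, 9981, 0, 1640, 0, []⟩

theorem k91_31 : chk g91_31 T625 [
  ⟨1921, 120, 600, 256, 185, false, true, false, [(0, 1), (3, 4), (36, 2), (16, 1), (17, 2), (18, 2), (19, 2), (20, 2), (21, 2), (22, 2), (23, 2), (24, 2), (25, 2), (26, 2), (27, 2), (28, 2), (29, 2)], []⟩,
  ⟨3265, 120, 0, 224, 120, true, true, true, [(0, 5), (4, 3), (5, 4), (6, 2), (13, 2), (14, 4), (15, 4), (25, 2), (26, 2), (27, 2), (28, 2), (29, 1)], [(29, 1), (30, 2)]⟩,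
  ⟨4609, 120, 0, 112, 52, true, true, false, [(0, 45)], []⟩,
  ⟨8303, 120, 0, 0, 0, true, false, false, [(0, 55)], []⟩,
  ⟨10397, 120, 0, 0, 0, true, false, false, [(0, 55)], []⟩
  ] = true := by decide +kernel

def g91_32 : Gr := ⟨false, 665, 692, 1024, 1024, 91, 95, 9768, 9981, 0, 1578, 0, []⟩

theorem k91_32 : chk g91_32 T650 [
  ⟨1921, 120, 600, 256, 209, false, true, false, [(0, 1), (3, 4), (39, 2), (18, 1), (19, 2), (20, 2), (21, 2), (22, 2), (23, 2), (24, 2), (25, 2), (26, 2), (27, 2), (28, 2), (29, 2), (30, 2), (31, 2), (32, 2)], []⟩,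
  ⟨3842, 120, 0, 176, 96, true, true, true, [(0, 5), (4, 3), (5, 4), (6, 2), (14, 2), (15, 4), (16, 4), (27, 2), (28, 2), (29, 2), (30, 2), (31, 2), (32, 2)], [(33, 2), (34, 2), (35, 2)]⟩,
  ⟨6532, 120, 0, 16, 7, true, true, false, [(0, 55)], []⟩,
  ⟨10299, 120, 0, 0, 0, true, false, false, [(0, 57)], []⟩,
  ⟨10395, 120, 0, 0, 0, true, false, false, [(0, 57)], []⟩
  ] = true := by decide +kernel

def g91_33 : Gr := ⟨false, 691, 717, 1024, 1024, 91, 95, 9768, 9981, 0, 1519, 0, []⟩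

theorem k91_33 : chk g91_33 T675 [
  ⟨1921, 120, 600, 256, 233, false, true, false, [(0, 1), (3, 4), (40, 2), (18, 1), (19, 2), (20, 2), (21, 2), (22, 2), (23, 2), (24, 2), (25, 2), (26, 2), (27, 2), (28, 2), (29, 2), (30, 2), (31, 2), (32, 2), (33, 2)], []⟩,
  ⟨3842, 120, 0, 176, 120, true, true, true, [(0, 5), (4, 3), (5, 4), (6, 2), (14, 2), (15, 4), (16, 4), (27, 2), (28, 2), (29, 2), (30, 2), (31, 2), (32, 2), (33, 2), (34, 2)], [(35, 2), (36, 2)]⟩,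
  ⟨5763, 120, 0, 28, 60, true, false, false, [(0, 56)], []⟩,
  ⟨9530, 120, 0, 0, 0, true, false, false, [(0, 59)], []⟩,
  ⟨10367, 120, 0, 0, 0, true, false, true, [(0, 51)], [(0, 8)]⟩
  ] = true := by decide +kernel

def g91_34 : Gr := ⟨false, 716, 743, 1024, 1024, 91, 95, 9768, 9981, 0, 1466, 0, []⟩

theorem k91_34 : chk g91_34 T700 [
  ⟨2690, 120, 600, 240, 196, false, true, false, [(0, 1), (3, 4), (41, 2), (18, 1), (19, 2), (20, 2), (21, 2), (22, 2), (23, 2), (24, 2), (25, 2), (26, 2), (27, 2), (28, 2), (29, 2), (30, 2), (31, 2), (32, 2), (33, 2), (34, 2), (35, 1)], []⟩,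
  ⟨4573, 120, 0, 192, 98, true, true, false, [(0, 6), (4, 2), (0, 1), (5, 3), (6, 4), (7, 4), (8, 4), (9, 1), (17, 3), (29, 2), (30, 2), (31, 2), (32, 2), (33, 2), (34, 2), (35, 2), (36, 2), (37, 1)], []⟩,
  ⟨8266, 120, 0, 0, 0, true, false, false, [(0, 61)], []⟩,
  ⟨10369, 120, 0, 0, 0, true, false, false, [(0, 61)], []⟩
  ] = true := by decide +kernel

def g91_35 : Gr := ⟨false, 742, 768, 1024, 1024, 91, 95, 9768, 9981, 0, 1415, 0, []⟩

theorem k91_35 : chk g91_35 T725 [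
  ⟨2690, 120, 600, 240, 220, false, true, true, [(0, 1), (3, 4), (44, 2), (20, 1), (21, 2), (22, 2), (23, 2), (24, 2), (25, 2), (26, 2), (27, 2), (28, 2), (29, 2), (30, 2), (31, 2), (32, 2), (33, 2), (34, 2), (35, 2)], [(36, 2), (37, 2), (38, 1)]⟩,
  ⟨4573, 120, 0, 192, 98, true, true, false, [(0, 6), (4, 2), (0, 1), (5, 3), (6, 4), (7, 4), (8, 4), (9, 1), (18, 3), (31, 2), (32, 2), (33, 2), (34, 2), (35, 2), (36, 2), (37, 2), (38, 2), (39, 2), (40, 1)], []⟩,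
  ⟨8266, 120, 0, 0, 0, true, false, false, [(0, 63)], []⟩,
  ⟨10345, 120, 0, 0, 0, true, false, false, [(0, 63)], []⟩
  ] = true := by decide +kernel

def g91_36 : Gr := ⟨false, 768, 794, 1024, 1024, 91, 95, 9768, 9981, 0, 1367, 0, []⟩

theorem k91_36 : chk g91_36 T750 [
  ⟨2690, 120, 600, 240, 240, false, false, true, [(2, 5), (45, 2), (20, 1), (21, 2), (22, 2), (23, 2), (24, 2), (25, 2), (26, 2), (27, 2), (28, 2), (29, 2), (30, 2), (31, 2), (32, 2), (33, 2), (34, 2), (35, 2), (36, 2)], [(37, 2), (38, 2), (39, 1)]⟩,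
  ⟨4573, 120, 0, 192, 98, true, true, false, [(0, 6), (4, 2), (0, 1), (5, 3), (6, 4), (7, 4), (8, 4), (9, 1), (18, 3), (31, 2), (32, 2), (33, 2), (34, 2), (35, 2), (36, 2), (37, 2), (38, 2), (39, 2), (40, 2), (41, 1)], []⟩,
  ⟨8266, 120, 0, 0, 0, true, false, false, [(0, 65)], []⟩,
  ⟨10332, 120, 0, 0, 0, true, false, false, [(0, 65)], []⟩
  ] = true := by decide +kernel

def g91_37 : Gr := ⟨false, 793, 820, 1024, 1024, 91, 95, 9768, 9981, 0, 1324, 0, []⟩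

theorem k91_37 : chk g91_37 T775 [
  ⟨2690, 120, 600, 256, 249, false, true, true, [(2, 5), (45, 2), (20, 1), (21, 2), (22, 2), (23, 2), (24, 2), (25, 2), (26, 2), (27, 2), (28, 2), (29, 2), (30, 2), (31, 2), (32, 2), (33, 2), (34, 2), (35, 2), (36, 2), (37, 2)], [(38, 2), (39, 2)]⟩,
  ⟨5380, 120, 0, 160, 78, true, true, true, [(0, 6), (4, 2), (5, 4), (6, 4), (7, 4), (8, 4), (9, 2), (18, 2), (31, 2), (32, 2), (33, 2), (34, 2), (35, 2), (36, 2), (37, 2), (38, 2), (39, 2), (40, 2), (41, 2)], [(42, 2), (43, 2)]⟩,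
  ⟨9147, 120, 0, 0, 0, true, false, false, [(0, 67)], []⟩,
  ⟨10335, 120, 0, 0, 0, true, false, false, [(0, 67)], []⟩
  ] = true := by decide +kernel

end Pool.Agent.Lib.MP_af3a4a_an.P1.CHK.H81.L
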