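import Pool.Agent.Lib.MP_af3a4a_an.P1.CHK.H81.DX
import Pool.Agent.Lib.MP_af3a4a_an.P1.CHK.H81.D91a
import Pool.Agent.Lib.MP_af3a4a_an.P1.CHK.H81.LW

/-!
# `91 ≤ N ≤ 95`, `R ≤ 4/5` (helper81)
-/

set_option autoImplicit false

namespace Pool.Agent.Lib.MP_af3a4a_an.P1.CHK.H81.L

open Pool.Agent.Lib.MP_af3a4a_an.SV (uu av)
open Pool.Agent.Lib.MP_af3a4a_an.P1.H80
open Pool.Agent.Lib.MP_af3a4a_an.P1.H74

theorem blk91 {N : ℕ} {z w : Fin N → ℂ} {R : ℝ} {σ : Fin N → ℂ} (hC : Cfg2 N z w R σ)
    (h0 : 91 ≤ N) (h1 : N ≤ 95) (hR : R ≤ 4 / 5) : False := by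
  rcases le_or_gt R (259 / 1000) with r0 | r0
  · exact C0.c0_80_6 hC (by omega) (by omega) r0
  rcases le_or_gt R (275 / 1024) with r1 | r1
  · exact win k91_0 rfl rfl hC h0 h1 (by norm_num [g91_0]; linarith only [r0]) (by norm_num [g91_0]; linarith only [r1])
      (by linarith only [r1]) (Or.inr (f0_of (κ := 1 / 2) (Rk := 139 / 500) (by norm_num [g91_0]) (by norm_num)
        (fun hm => C0.c0_80_4 hC (by omega) (by omega) (by linarith only [r1])
          (by linarith only [hm])) (by linarith only [r1])))
      (Or.inr (by decide))
      (profL_nil _ _ _)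
  rcases le_or_gt R (283 / 1024) with r2 | r2
  · exact win k91_1 rfl rfl hC h0 h1 (by norm_num [g91_1]; linarith only [r1]) (by norm_num [g91_1]; linarith only [r2])
      (by linarith only [r2]) (Or.inr (f0_of (κ := 1 / 2) (Rk := 139 / 500) (by norm_num [g91_1]) (by norm_num)
        (fun hm => C0.c0_80_4 hC (by omega) (by omega) (by linarith only [r2])
          (by linarith only [hm])) (by linarith only [r2])))
      (Or.inr (by decide))
      (profL_nil _ _ _)
  rcases le_or_gt R (293 / 1024) with r3 | r3
  · exact win k91_2 rfl rfl hC h0 h1 (by norm_num [g91_2]; linarith only [r2]) (by norm_num [g91_2]; linarith only [r3])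
      (by linarith only [r3]) (Or.inr (f0_of (κ := 3 / 8) (Rk := 147 / 500) (by norm_num [g91_2]) (by norm_num)
        (fun hm => C0.c0_80_3 hC (by omega) (by omega) (by linarith only [r3])
          (by linarith only [hm])) (by linarith only [r3])))
      (Or.inr (by decide))
      (profL_nil _ _ _)
  rcases le_or_gt R (299 / 1024) with r4 | r4
  · exact win k91_3 rfl rfl hC h0 h1 (by norm_num [g91_3]; linarith only [r3]) (by norm_num [g91_3]; linarith only [r4])
      (by linarith only [r4]) (Or.inr (f0_of (κ := 3 / 8) (Rk := 147 / 500) (by norm_num [g91_3]) (by norm_num)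
        (fun hm => C0.c0_80_3 hC (by omega) (by omega) (by linarith only [r4])
          (by linarith only [hm])) (by linarith only [r4])))
      (Or.inr (by decide))
      (profL_nil _ _ _)
  rcases le_or_gt R (305 / 1024) with r5 | r5
  · exact win k91_4 rfl rfl hC h0 h1 (by norm_num [g91_4]; linarith only [r4]) (by norm_num [g91_4]; linarith only [r5])
      (by linarith only [r5]) (Or.inr (f0_of (κ := 1 / 4) (Rk := 313 / 1000) (by norm_num [g91_4]) (by norm_num)
        (fun hm => C0.c0_80_2 hC (by omega) (by omega) (by linarith only [r5])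
          (by linarith only [hm])) (by linarith only [r5])))
      (Or.inr (by decide))
      (profL_nil _ _ _)
  rcases le_or_gt R (3 / 10) with r6 | r6
  · exact win k91_5 rfl rfl hC h0 h1 (by norm_num [g91_5]; linarith only [r5]) (by norm_num [g91_5]; linarith only [r6])
      (by linarith only [r6]) (Or.inr (f0_of (κ := 1 / 4) (Rk := 313 / 1000) (by norm_num [g91_5]) (by norm_num)
        (fun hm => C0.c0_80_2 hC (by omega) (by omega) (by linarith only [r6])
          (by linarith only [hm])) (by linarith only [r6])))
      (Or.inl ⟨rfl, by decide, by decide⟩)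
      (profL_nil _ _ _)
  rcases le_or_gt R (315 / 1024) with r7 | r7
  · exact win k91_6 rfl rfl hC h0 h1 (by norm_num [g91_6]; linarith only [r6]) (by norm_num [g91_6]; linarith only [r7])
      (by linarith only [r7]) (Or.inr (f0_of (κ := 1 / 4) (Rk := 313 / 1000) (by norm_num [g91_6]) (by norm_num)
        (fun hm => C0.c0_80_2 hC (by omega) (by omega) (by linarith only [r7])
          (by linarith only [hm])) (by linarith only [r7])))
      (Or.inl ⟨rfl, by decide, by decide⟩)
      (T300_ok (by linarith only [r6]) (by linarith only [r7]) (by omega) hC.cfg.far hC.dist.le)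
  rcases le_or_gt R (5 / 16) with r8 | r8
  · exact win k91_7 rfl rfl hC h0 h1 (by norm_num [g91_7]; linarith only [r7]) (by norm_num [g91_7]; linarith only [r8])
      (by linarith only [r8]) (Or.inr (f0_of (κ := 1 / 4) (Rk := 313 / 1000) (by norm_num [g91_7]) (by norm_num)
        (fun hm => C0.c0_80_2 hC (by omega) (by omega) (by linarith only [r8])
          (by linarith only [hm])) (by linarith only [r8])))
      (Or.inl ⟨rfl, by decide, by decide⟩)
      (T300_ok (by linarith only [r7]) (by linarith only [r8]) (by omega) hC.cfg.far hC.dist.le)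
  rcases le_or_gt R (163 / 512) with r9 | r9
  · exact win k91_8 rfl rfl hC h0 h1 (by norm_num [g91_8]; linarith only [r8]) (by norm_num [g91_8]; linarith only [r9])
      (by linarith only [r9]) (Or.inr (f0_of (κ := 1 / 8) (Rk := 167 / 500) (by norm_num [g91_8]) (by norm_num)
        (fun hm => C0.c0_80_1 hC (by omega) (by omega) (by linarith only [r9])
          (by linarith only [hm])) (by linarith only [r9])))
      (Or.inl ⟨rfl, by decide, by decide⟩)
      (T300_ok (by linarith only [r8]) (by linarith only [r9]) (by omega) hC.cfg.far hC.dist.le)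
  rcases le_or_gt R (13 / 40) with r10 | r10
  · exact win k91_9 rfl rfl hC h0 h1 (by norm_num [g91_9]; linarith only [r9]) (by norm_num [g91_9]; linarith only [r10])
      (by linarith only [r10]) (Or.inr (f0_of (κ := 1 / 8) (Rk := 167 / 500) (by norm_num [g91_9]) (by norm_num)
        (fun hm => C0.c0_80_1 hC (by omega) (by omega) (by linarith only [r10])
          (by linarith only [hm])) (by linarith only [r10])))
      (Or.inl ⟨rfl, by decide, by decide⟩)
      (T300_ok (by linarith only [r9]) (by linarith only [r10]) (by omega) hC.cfg.far hC.dist.le)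
  rcases le_or_gt R (169 / 512) with r11 | r11
  · exact win k91_10 rfl rfl hC h0 h1 (by norm_num [g91_10]; linarith only [r10]) (by norm_num [g91_10]; linarith only [r11])
      (by linarith only [r11]) (Or.inr (f0_of (κ := 1 / 8) (Rk := 167 / 500) (by norm_num [g91_10]) (by norm_num)
        (fun hm => C0.c0_80_1 hC (by omega) (by omega) (by linarith only [r11])
          (by linarith only [hm])) (by linarith only [r11])))
      (Or.inl ⟨rfl, by decide, by decide⟩)
      (T325_ok (by linarith only [r10]) (by linarith only [r11]) (by omega) hC.cfg.far hC.dist.le)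
  rcases le_or_gt R (87 / 256) with r12 | r12
  · exact win k91_11 rfl rfl hC h0 h1 (by norm_num [g91_11]; linarith only [r11]) (by norm_num [g91_11]; linarith only [r12])
      (by linarith only [r12]) (Or.inl rfl)
      (Or.inl ⟨rfl, by decide, by decide⟩)
      (T325_ok (by linarith only [r11]) (by linarith only [r12]) (by omega) hC.cfg.far hC.dist.le)
  rcases le_or_gt R (179 / 512) with r13 | r13
  · exact win k91_12 rfl rfl hC h0 h1 (by norm_num [g91_12]; linarith only [r12]) (by norm_num [g91_12]; linarith only [r13])
      (by linarith only [r13]) (Or.inl rfl)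
      (Or.inl ⟨rfl, by decide, by decide⟩)
      (T325_ok (by linarith only [r12]) (by linarith only [r13]) (by omega) hC.cfg.far hC.dist.le)
  rcases le_or_gt R (7 / 20) with r14 | r14
  · exact win kx91_12 rfl rfl hC h0 h1 (by norm_num [gx91_12]; linarith only [r13]) (by norm_num [gx91_12]; linarith only [r14])
      (by linarith only [r14]) (Or.inl rfl)
      (Or.inl ⟨rfl, by decide, by decide⟩)
      (T325_ok (by linarith only [r13]) (by linarith only [r14]) (by omega) hC.cfg.far hC.dist.le)
  rcases le_or_gt R (91 / 256) with r15 | r15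
  · exact win k91_13 rfl rfl hC h0 h1 (by norm_num [g91_13]; linarith only [r14]) (by norm_num [g91_13]; linarith only [r15])
      (by linarith only [r15]) (Or.inl rfl)
      (Or.inl ⟨rfl, by decide, by decide⟩)
      (T350_ok (by linarith only [r14]) (by linarith only [r15]) (by omega) hC.cfg.far hC.dist.le)
  rcases le_or_gt R (185 / 512) with r16 | r16
  · exact win k91_14 rfl rfl hC h0 h1 (by norm_num [g91_14]; linarith only [r15]) (by norm_num [g91_14]; linarith only [r16])
      (by linarith only [r16]) (Or.inl rfl)
      (Or.inl ⟨rfl, by decide, by decide⟩)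
      (T350_ok (by linarith only [r15]) (by linarith only [r16]) (by omega) hC.cfg.far hC.dist.le)
  rcases le_or_gt R (47 / 128) with r17 | r17
  · exact win k91_15 rfl rfl hC h0 h1 (by norm_num [g91_15]; linarith only [r16]) (by norm_num [g91_15]; linarith only [r17])
      (by linarith only [r17]) (Or.inl rfl)
      (Or.inl ⟨rfl, by decide, by decide⟩)
      (T350_ok (by linarith only [r16]) (by linarith only [r17]) (by omega) hC.cfg.far hC.dist.le)
  rcases le_or_gt R (3 / 8) with r18 | r18
  · exact win k91_16 rfl rfl hC h0 h1 (by norm_num [g91_16]; linarith only [r17]) (by norm_num [g91_16]; linarith only [r18])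
      (by linarith only [r18]) (Or.inl rfl)
      (Or.inl ⟨rfl, by decide, by decide⟩)
      (T350_ok (by linarith only [r17]) (by linarith only [r18]) (by omega) hC.cfg.far hC.dist.le)
  rcases le_or_gt R (49 / 128) with r19 | r19
  · exact win k91_17 rfl rfl hC h0 h1 (by norm_num [g91_17]; linarith only [r18]) (by norm_num [g91_17]; linarith only [r19])
      (by linarith only [r19]) (Or.inl rfl)
      (Or.inl ⟨rfl, by decide, by decide⟩)
      (T375_ok (by linarith only [r18]) (by linarith only [r19]) (by omega) hC.cfg.far hC.dist.le)
  rcases le_or_gt R (25 / 64) with r20 | r20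
  · exact win k91_18 rfl rfl hC h0 h1 (by norm_num [g91_18]; linarith only [r19]) (by norm_num [g91_18]; linarith only [r20])
      (by linarith only [r20]) (Or.inl rfl)
      (Or.inl ⟨rfl, by decide, by decide⟩)
      (T375_ok (by linarith only [r19]) (by linarith only [r20]) (by omega) hC.cfg.far hC.dist.le)
  rcases le_or_gt R (2 / 5) with r21 | r21
  · exact win k91_19 rfl rfl hC h0 h1 (by norm_num [g91_19]; linarith only [r20]) (by norm_num [g91_19]; linarith only [r21])
      (by linarith only [r21]) (Or.inl rfl)
      (Or.inl ⟨rfl, by decide, by decide⟩)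
      (T375_ok (by linarith only [r20]) (by linarith only [r21]) (by omega) hC.cfg.far hC.dist.le)
  rcases le_or_gt R (211 / 512) with r22 | r22
  · exact win k91_20 rfl rfl hC h0 h1 (by norm_num [g91_20]; linarith only [r21]) (by norm_num [g91_20]; linarith only [r22])
      (by linarith only [r22]) (Or.inl rfl)
      (Or.inl ⟨rfl, by decide, by decide⟩)
      (T400_ok (by linarith only [r21]) (by linarith only [r22]) (by omega) hC.cfg.far hC.dist.le)
  rcases le_or_gt R (17 / 40) with r23 | r23
  · exact win k91_21 rfl rfl hC h0 h1 (by norm_num [g91_21]; linarith only [r22]) (by norm_num [g91_21]; linarith only [r23])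
      (by linarith only [r23]) (Or.inl rfl)
      (Or.inl ⟨rfl, by decide, by decide⟩)
      (T400_ok (by linarith only [r22]) (by linarith only [r23]) (by omega) hC.cfg.far hC.dist.le)
  rcases le_or_gt R (7 / 16) with r24 | r24
  · exact win k91_22 rfl rfl hC h0 h1 (by norm_num [g91_22]; linarith only [r23]) (by norm_num [g91_22]; linarith only [r24])
      (by linarith only [r24]) (Or.inl rfl)
      (Or.inl ⟨rfl, by decide, by decide⟩)
      (T425_ok (by linarith only [r23]) (by linarith only [r24]) (by omega) hC.cfg.far hC.dist.le)
  rcases le_or_gt R (9 / 20) with r25 | r25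
  · exact win k91_23 rfl rfl hC h0 h1 (by norm_num [g91_23]; linarith only [r24]) (by norm_num [g91_23]; linarith only [r25])
      (by linarith only [r25]) (Or.inl rfl)
      (Or.inl ⟨rfl, by decide, by decide⟩)
      (T425_ok (by linarith only [r24]) (by linarith only [r25]) (by omega) hC.cfg.far hC.dist.le)
  rcases le_or_gt R (243 / 512) with r26 | r26
  · exact win k91_24 rfl rfl hC h0 h1 (by norm_num [g91_24]; linarith only [r25]) (by norm_num [g91_24]; linarith only [r26])
      (by linarith only [r26]) (Or.inl rfl)
      (Or.inl ⟨rfl, by decide, by decide⟩)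
      (T450_ok (by linarith only [r25]) (by linarith only [r26]) (by omega) hC.cfg.far hC.dist.le)
  rcases le_or_gt R (19 / 40) with r27 | r27
  · exact win kx91_24 rfl rfl hC h0 h1 (by norm_num [gx91_24]; linarith only [r26]) (by norm_num [gx91_24]; linarith only [r27])
      (by linarith only [r27]) (Or.inl rfl)
      (Or.inl ⟨rfl, by decide, by decide⟩)
      (T450_ok (by linarith only [r26]) (by linarith only [r27]) (by omega) hC.cfg.far hC.dist.le)
  rcases le_or_gt R (1 / 2) with r28 | r28
  · exact win k91_25 rfl rfl hC h0 h1 (by norm_num [g91_25]; linarith only [r27]) (by norm_num [g91_25]; linarith only [r28])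
      (by linarith only [r28]) (Or.inl rfl)
      (Or.inl ⟨rfl, by decide, by decide⟩)
      (T475_ok (by linarith only [r27]) (by linarith only [r28]) (by omega) hC.cfg.far hC.dist.le)
  rcases le_or_gt R (21 / 40) with r29 | r29
  · exact win k91_26 rfl rfl hC h0 h1 (by norm_num [g91_26]; linarith only [r28]) (by norm_num [g91_26]; linarith only [r29])
      (by linarith only [r29]) (Or.inl rfl)
      (Or.inl ⟨rfl, by decide, by decide⟩)
      (T500_ok (by linarith only [r28]) (by linarith only [r29]) (by omega) hC.cfg.far hC.dist.le)
  rcases le_or_gt R (11 / 20) with r30 | r30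
  · exact win k91_27 rfl rfl hC h0 h1 (by norm_num [g91_27]; linarith only [r29]) (by norm_num [g91_27]; linarith only [r30])
      (by linarith only [r30]) (Or.inl rfl)
      (Or.inr (by decide))
      (T525_ok (by linarith only [r29]) (by linarith only [r30]) (by omega) hC.cfg.far hC.dist.le)
  rcases le_or_gt R (23 / 40) with r31 | r31
  · exact win k91_28 rfl rfl hC h0 h1 (by norm_num [g91_28]; linarith only [r30]) (by norm_num [g91_28]; linarith only [r31])
      (by linarith only [r31]) (Or.inl rfl)
      (Or.inr (by decide))
      (T550_ok (by linarith only [r30]) (by linarith only [r31]) (by omega) hC.cfg.far hC.dist.le)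
  rcases le_or_gt R (3 / 5) with r32 | r32
  · exact win k91_29 rfl rfl hC h0 h1 (by norm_num [g91_29]; linarith only [r31]) (by norm_num [g91_29]; linarith only [r32])
      (by linarith only [r32]) (Or.inl rfl)
      (Or.inr (by decide))
      (T575_ok (by linarith only [r31]) (by linarith only [r32]) (by omega) hC.cfg.far hC.dist.le)
  rcases le_or_gt R (5 / 8) with r33 | r33
  · exact win k91_30 rfl rfl hC h0 h1 (by norm_num [g91_30]; linarith only [r32]) (by norm_num [g91_30]; linarith only [r33])
      (by linarith only [r33]) (Or.inl rfl)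
      (Or.inr (by decide))
      (T600_ok (by linarith only [r32]) (by linarith only [r33]) (by omega) hC.cfg.far hC.dist.le)
  rcases le_or_gt R (13 / 20) with r34 | r34
  · exact win k91_31 rfl rfl hC h0 h1 (by norm_num [g91_31]; linarith only [r33]) (by norm_num [g91_31]; linarith only [r34])
      (by linarith only [r34]) (Or.inl rfl)
      (Or.inr (by decide))
      (T625_ok (by linarith only [r33]) (by linarith only [r34]) (by omega) hC.cfg.far hC.dist.le)
  rcases le_or_gt R (27 / 40) with r35 | r35
  · exact win k91_32 rfl rfl hC h0 h1 (by norm_num [g91_32]; linarith only [r34]) (by norm_num [g91_32]; linarith only [r35])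
      (by linarith only [r35]) (Or.inl rfl)
      (Or.inr (by decide))
      (T650_ok (by linarith only [r34]) (by linarith only [r35]) (by omega) hC.cfg.far hC.dist.le)
  rcases le_or_gt R (7 / 10) with r36 | r36
  · exact win k91_33 rfl rfl hC h0 h1 (by norm_num [g91_33]; linarith only [r35]) (by norm_num [g91_33]; linarith only [r36])
      (by linarith only [r36]) (Or.inl rfl)
      (Or.inr (by decide))
      (T675_ok (by linarith only [r35]) (by linarith only [r36]) (by omega) hC.cfg.far hC.dist.le)
  rcases le_or_gt R (29 / 40) with r37 | r37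
  · exact win k91_34 rfl rfl hC h0 h1 (by norm_num [g91_34]; linarith only [r36]) (by norm_num [g91_34]; linarith only [r37])
      (by linarith only [r37]) (Or.inl rfl)
      (Or.inr (by decide))
      (T700_ok (by linarith only [r36]) (by linarith only [r37]) (by omega) hC.cfg.far hC.dist.le)
  rcases le_or_gt R (3 / 4) with r38 | r38
  · exact win k91_35 rfl rfl hC h0 h1 (by norm_num [g91_35]; linarith only [r37]) (by norm_num [g91_35]; linarith only [r38])
      (by linarith only [r38]) (Or.inl rfl)
      (Or.inr (by decide))
      (T725_ok (by linarith only [r37]) (by linarith only [r38]) (by omega) hC.cfg.far hC.dist.le)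
  rcases le_or_gt R (31 / 40) with r39 | r39
  · exact win k91_36 rfl rfl hC h0 h1 (by norm_num [g91_36]; linarith only [r38]) (by norm_num [g91_36]; linarith only [r39])
      (by linarith only [r39]) (Or.inl rfl)
      (Or.inr (by decide))
      (T750_ok (by linarith only [r38]) (by linarith only [r39]) (by omega) hC.cfg.far hC.dist.le)
  exact win k91_37 rfl rfl hC h0 h1 (by norm_num [g91_37]; linarith only [r39]) (by norm_num [g91_37]; linarith only [hR])
      (by linarith only [hR]) (Or.inl rfl)
      (Or.inr (by decide))
      (T775_ok (by linarith only [r39]) (by linarith only [hR]) (by omega) hC.cfg.far hC.dist.le)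

end Pool.Agent.Lib.MP_af3a4a_an.P1.CHK.H81.L
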