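import Pool.Agent.Lib.MP_af3a4a_an.P1.CHK.H81.LT
/-!
# Data, `96 ≤ N ≤ 99`, `265 ≤ 1024 R ≤ 820` (helper81)
-/
set_option autoImplicit false

namespace Pool.Agent.Lib.MP_af3a4a_an.P1.CHK.H81.L

open Pool.Agent.Lib.MP_af3a4a_an.P1.CHK.H58.G (Gr En)

def g96_0 : Gr := ⟨false, 265, 278, 1024, 1024, 96, 99, 10033, 10189, 512, 3958, 0, []⟩

theorem k96_0 : chk g96_0 [] [
  ⟨1362, 120, 0, 160, 78, true, true, false, [(0, 10)], []⟩,
  ⟨1489, 120, 0, 160, 78, true, true, false, [(0, 10)], []⟩,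
  ⟨1668, 120, 0, 160, 78, true, true, false, [(0, 10)], []⟩,
  ⟨2366, 120, 0, 112, 52, true, true, false, [(0, 14)], []⟩,
  ⟨6133, 120, 0, 2, 1, true, true, false, [(0, 23)], []⟩,
  ⟨9900, 120, 0, 0, 0, true, false, false, [(0, 24)], []⟩,
  ⟨10692, 120, 0, 0, 0, true, false, false, [(0, 24)], []⟩
  ] = true := by decide +kernel

def g96_1 : Gr := ⟨false, 278, 283, 1024, 1024, 96, 99, 10033, 10189, 512, 3773, 0, []⟩

theorem k96_1 : chk g96_1 [] [
  ⟨1540, 120, 0, 176, 88, true, true, false, [(0, 9)], []⟩,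
  ⟨2038, 120, 0, 128, 60, true, true, false, [(0, 13)], []⟩,
  ⟨3959, 120, 0, 44, 19, true, true, false, [(0, 20)], []⟩,
  ⟨7726, 120, 0, 0, 0, true, false, false, [(0, 24)], []⟩,
  ⟨10376, 120, 0, 0, 0, true, false, false, [(0, 24)], []⟩
  ] = true := by decide +kernel

def g96_2 : Gr := ⟨false, 283, 291, 1024, 1024, 96, 99, 10033, 10189, 384, 3707, 0, []⟩

theorem k96_2 : chk g96_2 [] [
  ⟨1054, 120, 0, 176, 88, true, true, false, [(0, 1), (3, 9)], []⟩,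
  ⟨1076, 120, 0, 176, 88, true, true, false, [(0, 1), (3, 9)], []⟩,
  ⟨1098, 120, 0, 176, 88, true, true, false, [(0, 1), (3, 9)], []⟩,
  ⟨1130, 120, 0, 176, 88, true, true, false, [(0, 2), (3, 8)], []⟩,
  ⟨1162, 120, 0, 176, 88, true, true, false, [(0, 2), (3, 8)], []⟩,
  ⟨1208, 120, 0, 176, 88, true, true, false, [(0, 2), (3, 8)], []⟩,
  ⟨1254, 120, 0, 160, 78, true, true, false, [(0, 2), (3, 9)], []⟩,
  ⟨1300, 120, 0, 160, 78, true, true, false, [(0, 3), (3, 8)], []⟩,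
  ⟨1366, 120, 0, 160, 78, true, true, false, [(0, 4), (3, 7)], []⟩,
  ⟨1498, 120, 0, 160, 78, true, true, false, [(0, 11)], []⟩,
  ⟨1759, 120, 0, 160, 78, true, true, false, [(0, 11)], []⟩,
  ⟨2480, 120, 0, 112, 52, true, true, false, [(0, 15)], []⟩,
  ⟨6368, 120, 0, 0, 0, true, false, false, [(0, 25)], []⟩,
  ⟨10256, 120, 0, 0, 0, true, false, false, [(0, 25)], []⟩,
  ⟨10483, 120, 0, 0, 0, true, false, false, [(0, 25)], []⟩
  ] = true := by decide +kernel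

def g96_3 : Gr := ⟨false, 291, 299, 1024, 1024, 96, 99, 10033, 10189, 384, 3605, 0, []⟩

theorem k96_3 : chk g96_3 [] [
  ⟨1159, 120, 0, 192, 98, true, true, false, [(0, 1), (3, 8)], []⟩,
  ⟨1249, 120, 0, 192, 98, true, true, false, [(0, 2), (3, 7)], []⟩,
  ⟨1312, 120, 0, 192, 98, true, true, false, [(0, 2), (3, 7)], []⟩,
  ⟨1356, 120, 0, 192, 98, true, true, false, [(0, 3), (3, 6)], []⟩,
  ⟨1387, 120, 0, 192, 98, true, true, false, [(0, 4), (3, 5)], []⟩,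
  ⟨1418, 120, 0, 176, 88, true, true, false, [(0, 7), (3, 4)], []⟩,
  ⟨1481, 120, 0, 176, 88, true, true, false, [(0, 11)], []⟩,
  ⟨1659, 120, 0, 160, 78, true, true, false, [(0, 12)], []⟩,
  ⟨2152, 120, 0, 144, 69, true, true, false, [(0, 13)], []⟩,
  ⟨4053, 120, 0, 48, 21, true, true, false, [(0, 21)], []⟩,
  ⟨7781, 120, 0, 0, 0, true, false, false, [(0, 25)], []⟩,
  ⟨10474, 120, 0, 0, 0, true, false, false, [(0, 25)], []⟩
  ] = true := by decide +kernel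

def g96_4 : Gr := ⟨false, 299, 308, 1024, 1024, 96, 99, 10033, 10189, 256, 2048, 0, []⟩

theorem k96_4 : chk g96_4 [] [
  ⟨776, 120, 480, 176, 88, false, true, false, [(0, 1), (3, 10)], []⟩,
  ⟨820, 120, 480, 176, 88, false, true, false, [(0, 1), (3, 10)], []⟩,
  ⟨851, 120, 480, 176, 88, false, true, false, [(0, 1), (3, 10)], []⟩,
  ⟨872, 120, 480, 176, 88, false, true, false, [(0, 1), (3, 10)], []⟩,
  ⟨893, 120, 0, 176, 88, true, true, false, [(0, 1), (3, 10)], []⟩,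
  ⟨924, 120, 0, 176, 88, true, true, false, [(0, 1), (3, 10)], []⟩,
  ⟨955, 120, 0, 176, 88, true, true, false, [(0, 1), (3, 10)], []⟩,
  ⟨1000, 120, 0, 176, 88, true, true, false, [(0, 1), (3, 10)], []⟩,
  ⟨1064, 120, 0, 176, 88, true, true, false, [(0, 1), (3, 10)], []⟩,
  ⟨1128, 120, 0, 176, 88, true, true, false, [(0, 1), (3, 10)], []⟩,
  ⟨1219, 120, 0, 176, 88, true, true, false, [(0, 2), (3, 9)], []⟩,
  ⟨1310, 120, 0, 176, 88, true, true, false, [(0, 2), (3, 9)], []⟩,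
  ⟨1401, 120, 0, 176, 88, true, true, false, [(0, 3), (3, 8)], []⟩,
  ⟨1492, 120, 0, 176, 88, true, true, false, [(0, 11)], []⟩,
  ⟨1621, 120, 0, 176, 88, true, true, false, [(0, 11)], []⟩,
  ⟨1876, 120, 0, 144, 69, true, true, false, [(0, 14)], []⟩,
  ⟨2580, 120, 0, 104, 48, true, true, false, [(0, 17)], []⟩,
  ⟨6130, 120, 0, 0, 0, true, false, false, [(0, 26)], []⟩
  ] = true := by decide +kernel

def g96_5 : Gr := ⟨false, 307, 312, 1024, 1024, 96, 99, 10033, 10189, 256, 2048, 0, []⟩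

theorem k96_5 : chk g96_5 T300 [
  ⟨841, 120, 0, 208, 109, true, true, false, [(0, 1), (3, 8)], []⟩,
  ⟨931, 120, 0, 192, 98, true, true, false, [(0, 1), (3, 9)], []⟩,
  ⟨1058, 120, 0, 192, 98, true, true, false, [(0, 1), (3, 9)], []⟩,
  ⟨1185, 120, 0, 192, 98, true, true, false, [(0, 1), (3, 9)], []⟩,
  ⟨1312, 120, 0, 192, 98, true, true, false, [(0, 2), (3, 8)], []⟩,
  ⟨1401, 120, 0, 192, 98, true, true, false, [(0, 2), (3, 8)], []⟩,
  ⟨1490, 120, 0, 192, 98, true, true, false, [(0, 4), (3, 6)], []⟩,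
  ⟨1579, 120, 0, 176, 88, true, true, false, [(0, 12)], []⟩,
  ⟨1828, 120, 0, 160, 78, true, true, false, [(0, 13)], []⟩,
  ⟨2518, 120, 0, 120, 56, true, true, false, [(0, 16)], []⟩,
  ⟨6209, 120, 0, 0, 0, true, false, false, [(0, 26)], []⟩
  ] = true := by decide +kernel

def g96_6 : Gr := ⟨false, 312, 320, 1024, 1024, 96, 99, 10033, 10189, 256, 2048, 0, []⟩

theorem k96_6 : chk g96_6 T300 [
  ⟨828, 120, 480, 176, 88, false, true, false, [(0, 1), (3, 11)], []⟩,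
  ⟨872, 120, 480, 176, 88, false, true, false, [(0, 1), (3, 11)], []⟩,
  ⟨916, 120, 480, 176, 88, false, true, false, [(0, 1), (3, 11)], []⟩,
  ⟨947, 120, 480, 176, 88, false, true, false, [(0, 1), (3, 11)], []⟩,
  ⟨968, 120, 0, 176, 88, true, true, false, [(0, 1), (3, 11)], []⟩,
  ⟨999, 120, 0, 176, 88, true, true, false, [(0, 1), (3, 11)], []⟩,
  ⟨1030, 120, 0, 176, 88, true, true, false, [(0, 1), (3, 11)], []⟩,
  ⟨1075, 120, 0, 176, 88, true, true, false, [(0, 1), (3, 11)], []⟩,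
  ⟨1120, 120, 0, 176, 88, true, true, false, [(0, 1), (3, 11)], []⟩,
  ⟨1184, 120, 0, 176, 88, true, true, false, [(0, 1), (3, 11)], []⟩,
  ⟨1248, 120, 0, 176, 88, true, true, false, [(0, 2), (3, 10)], []⟩,
  ⟨1339, 120, 0, 176, 88, true, true, false, [(0, 2), (3, 10)], []⟩,
  ⟨1430, 120, 0, 176, 88, true, true, false, [(0, 2), (3, 10)], []⟩,
  ⟨1521, 120, 0, 176, 88, true, true, false, [(0, 4), (3, 8)], []⟩,
  ⟨1650, 120, 0, 176, 88, true, true, false, [(0, 12)], []⟩,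
  ⟨1905, 120, 0, 160, 78, true, true, false, [(0, 14)], []⟩,
  ⟨2609, 120, 0, 104, 48, true, true, false, [(0, 18)], []⟩,
  ⟨6369, 120, 0, 0, 0, true, false, false, [(0, 27)], []⟩
  ] = true := by decide +kernel

def g96_7 : Gr := ⟨false, 320, 328, 1024, 1024, 96, 99, 10033, 10189, 128, 2048, 0, []⟩

theorem k96_7 : chk g96_7 T300 [
  ⟨570, 120, 720, 64, 200, false, false, false, [(0, 1), (3, 10), (8, 1), (3, 10)], []⟩,
  ⟨694, 120, 600, 160, 102, false, true, false, [(0, 1), (3, 13)], []⟩,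
  ⟨781, 120, 600, 160, 86, false, true, false, [(0, 1), (3, 13)], []⟩,
  ⟨868, 120, 0, 208, 109, true, true, false, [(0, 1), (3, 9)], []⟩,
  ⟨955, 120, 0, 208, 109, true, true, false, [(0, 1), (3, 9)], []⟩,
  ⟨1042, 120, 0, 208, 109, true, true, false, [(0, 1), (3, 9)], []⟩,
  ⟨1129, 120, 0, 208, 109, true, true, false, [(0, 1), (3, 9)], []⟩,
  ⟨1216, 120, 0, 208, 109, true, true, false, [(0, 1), (3, 9)], []⟩,
  ⟨1276, 120, 0, 208, 109, true, true, false, [(0, 2), (3, 8)], []⟩,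
  ⟨1318, 120, 0, 192, 98, true, true, false, [(0, 2), (3, 10)], []⟩,
  ⟨1360, 120, 0, 192, 98, true, true, false, [(0, 2), (3, 10)], []⟩,
  ⟨1402, 120, 0, 192, 98, true, true, false, [(0, 2), (3, 10)], []⟩,
  ⟨1444, 120, 0, 192, 98, true, true, false, [(0, 3), (3, 9)], []⟩,
  ⟨1486, 120, 0, 176, 88, true, true, false, [(0, 3), (3, 10)], []⟩,
  ⟨1528, 120, 0, 176, 88, true, true, false, [(0, 4), (3, 9)], []⟩,
  ⟨1570, 120, 0, 176, 88, true, true, false, [(0, 13)], []⟩,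
  ⟨1656, 120, 0, 176, 88, true, true, false, [(0, 13)], []⟩,
  ⟨1896, 120, 0, 160, 78, true, true, false, [(0, 14)], []⟩,
  ⟨2560, 120, 0, 112, 52, true, true, false, [(0, 18)], []⟩,
  ⟨6144, 120, 0, 0, 0, true, false, false, [(0, 28)], []⟩,
  ⟨6528, 120, 0, 0, 0, true, false, false, [(0, 28)], []⟩
  ] = true := by decide +kernel

def g96_8 : Gr := ⟨false, 328, 333, 1024, 1024, 96, 99, 10033, 10189, 128, 2048, 0, []⟩

theorem k96_8 : chk g96_8 T300 [
  ⟨580, 120, 720, 80, 192, false, false, false, [(0, 1), (3, 10), (8, 1), (3, 9)], []⟩,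
  ⟨705, 120, 720, 80, 180, false, true, false, [(0, 1), (3, 20)], []⟩,
  ⟨830, 120, 480, 192, 98, false, true, false, [(0, 1), (3, 11)], []⟩,
  ⟨918, 120, 480, 192, 98, false, true, false, [(0, 1), (3, 11)], []⟩,
  ⟨979, 120, 0, 192, 98, true, true, false, [(0, 1), (3, 11)], []⟩,
  ⟨1066, 120, 0, 192, 98, true, true, false, [(0, 1), (3, 11)], []⟩,
  ⟨1153, 120, 0, 192, 98, true, true, false, [(0, 1), (3, 11)], []⟩,
  ⟨1276, 120, 0, 192, 98, true, true, false, [(0, 1), (3, 11)], []⟩,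
  ⟨1399, 120, 0, 192, 98, true, true, false, [(0, 2), (3, 10)], []⟩,
  ⟨1522, 120, 0, 192, 98, true, true, false, [(0, 3), (3, 9)], []⟩,
  ⟨1582, 120, 0, 192, 98, true, true, false, [(0, 5), (3, 7)], []⟩,
  ⟨1667, 120, 0, 192, 98, true, true, false, [(0, 12)], []⟩,
  ⟨1837, 120, 0, 160, 78, true, true, false, [(0, 15)], []⟩,
  ⟨2308, 120, 0, 128, 60, true, true, false, [(0, 17)], []⟩,
  ⟨4855, 120, 0, 32, 14, true, true, false, [(0, 25)], []⟩,
  ⟨6627, 120, 0, 0, 0, true, false, false, [(0, 28)], []⟩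
  ] = true := by decide +kernel

def g96_9 : Gr := ⟨false, 332, 340, 1024, 1024, 96, 99, 10033, 10189, 128, 2048, 0, []⟩

theorem k96_9 : chk g96_9 T325 [
  ⟨585, 120, 720, 64, 208, false, false, false, [(0, 1), (3, 10), (8, 1), (3, 11)], []⟩,
  ⟨710, 120, 600, 160, 110, false, true, false, [(0, 1), (3, 14)], []⟩,
  ⟨798, 120, 480, 208, 109, false, true, false, [(0, 1), (3, 10)], []⟩,
  ⟨859, 120, 0, 208, 109, true, true, false, [(0, 1), (3, 10)], []⟩,
  ⟨946, 120, 0, 208, 109, true, true, false, [(0, 1), (3, 10)], []⟩,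
  ⟨1069, 120, 0, 208, 109, true, true, false, [(0, 1), (3, 10)], []⟩,
  ⟨1192, 120, 0, 208, 109, true, true, false, [(0, 1), (3, 10)], []⟩,
  ⟨1278, 120, 0, 208, 109, true, true, false, [(0, 2), (3, 9)], []⟩,
  ⟨1364, 120, 0, 208, 109, true, true, false, [(0, 2), (3, 9)], []⟩,
  ⟨1424, 120, 0, 208, 109, true, true, false, [(0, 2), (3, 9)], []⟩,
  ⟨1466, 120, 0, 192, 98, true, true, false, [(0, 2), (3, 11)], []⟩,
  ⟨1508, 120, 0, 192, 98, true, true, false, [(0, 3), (3, 10)], []⟩,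
  ⟨1537, 120, 0, 192, 98, true, true, false, [(0, 3), (3, 10)], []⟩,
  ⟨1566, 120, 0, 176, 88, true, true, false, [(0, 4), (3, 10)], []⟩,
  ⟨1595, 120, 0, 176, 88, true, true, false, [(0, 5), (3, 9)], []⟩,
  ⟨1637, 120, 0, 176, 88, true, true, false, [(0, 14)], []⟩,
  ⟨1757, 120, 0, 176, 88, true, true, false, [(0, 14)], []⟩,
  ⟨2093, 120, 0, 160, 78, true, true, false, [(0, 15)], []⟩,
  ⟨3019, 120, 0, 88, 40, true, true, false, [(0, 21)], []⟩,
  ⟨6586, 120, 0, 0, 0, true, false, false, [(0, 29)], []⟩,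
  ⟨6767, 120, 0, 0, 0, true, false, false, [(0, 29)], []⟩
  ] = true := by decide +kernel

def g96_10 : Gr := ⟨false, 340, 348, 1024, 1024, 96, 99, 10033, 10189, 0, 2048, 0, []⟩

theorem k96_10 : chk g96_10 T325 [
  ⟨355, 120, 720, 24, 267, false, true, false, [(0, 1), (3, 4), (15, 2), (6, 1), (7, 2), (8, 2), (9, 2), (3, 13)], []⟩,
  ⟨603, 120, 720, 60, 219, false, true, false, [(0, 1), (3, 9), (8, 2), (9, 2), (3, 10)], []⟩,
  ⟨724, 120, 600, 144, 133, false, true, false, [(0, 1), (3, 16)], []⟩,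
  ⟨845, 120, 480, 192, 98, false, true, false, [(0, 1), (3, 12)], []⟩,
  ⟨930, 120, 480, 192, 98, false, true, false, [(0, 1), (3, 12)], []⟩,
  ⟨989, 120, 480, 192, 98, false, true, false, [(0, 1), (3, 12)], []⟩,
  ⟨1048, 120, 0, 192, 98, true, true, false, [(0, 1), (3, 12)], []⟩,
  ⟨1132, 120, 0, 192, 98, true, true, false, [(0, 1), (3, 12)], []⟩,
  ⟨1216, 120, 0, 192, 98, true, true, false, [(0, 1), (3, 12)], []⟩,
  ⟨1335, 120, 0, 192, 98, true, true, false, [(0, 2), (3, 11)], []⟩,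
  ⟨1454, 120, 0, 192, 98, true, true, false, [(0, 2), (3, 11)], []⟩,
  ⟨1573, 120, 0, 192, 98, true, true, false, [(0, 3), (3, 10)], []⟩,
  ⟨1656, 120, 0, 192, 98, true, true, false, [(0, 5), (3, 8)], []⟩,
  ⟨1739, 120, 0, 192, 98, true, true, false, [(0, 13)], []⟩,
  ⟨1905, 120, 0, 160, 78, true, true, false, [(0, 16)], []⟩,
  ⟨2365, 120, 0, 144, 69, true, true, false, [(0, 17)], []⟩,
  ⟨4140, 120, 0, 48, 21, true, true, false, [(0, 25)], []⟩,
  ⟨6926, 120, 0, 0, 0, true, false, false, [(0, 29)], []⟩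
  ] = true := by decide +kernel

def g96_11 : Gr := ⟨false, 348, 356, 1024, 1024, 96, 99, 10033, 10189, 0, 2048, 0, []⟩

theorem k96_11 : chk g96_11 T325 [
  ⟨355, 120, 720, 20, 281, false, true, false, [(0, 1), (3, 4), (15, 2), (6, 1), (7, 2), (8, 2), (9, 2), (3, 14)], []⟩,
  ⟨603, 120, 720, 56, 225, false, true, false, [(0, 1), (3, 9), (8, 2), (3, 1), (9, 1), (3, 11)], []⟩,
  ⟨777, 120, 600, 176, 104, false, true, false, [(0, 1), (3, 14)], []⟩,
  ⟨898, 120, 600, 176, 88, false, true, false, [(0, 1), (3, 14)], []⟩,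
  ⟨1019, 120, 0, 224, 120, true, true, false, [(0, 1), (3, 10)], []⟩,
  ⟨1140, 120, 0, 224, 120, true, true, false, [(0, 1), (3, 10)], []⟩,
  ⟨1225, 120, 0, 224, 120, true, true, false, [(0, 1), (3, 10)], []⟩,
  ⟨1284, 120, 0, 208, 109, true, true, false, [(0, 1), (3, 12)], []⟩,
  ⟨1343, 120, 0, 192, 98, true, true, false, [(0, 2), (3, 12)], []⟩,
  ⟨1402, 120, 0, 192, 98, true, true, false, [(0, 2), (3, 12)], []⟩,
  ⟨1461, 120, 0, 192, 98, true, true, false, [(0, 2), (3, 12)], []⟩,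
  ⟨1520, 120, 0, 192, 98, true, true, false, [(0, 2), (3, 12)], []⟩,
  ⟨1579, 120, 0, 192, 98, true, true, false, [(0, 3), (3, 11)], []⟩,
  ⟨1638, 120, 0, 176, 88, true, true, false, [(0, 4), (3, 11)], []⟩,
  ⟨1697, 120, 0, 176, 88, true, true, false, [(0, 6), (3, 9)], []⟩,
  ⟨1816, 120, 0, 176, 88, true, true, false, [(0, 15)], []⟩,
  ⟨2052, 120, 0, 176, 88, true, true, false, [(0, 15)], []⟩,
  ⟨2705, 120, 0, 128, 60, true, true, false, [(0, 19)], []⟩,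
  ⟨6228, 120, 0, 0, 0, true, false, false, [(0, 30)], []⟩,
  ⟨7085, 120, 0, 0, 0, true, false, false, [(0, 30)], []⟩
  ] = true := by decide +kernel

def g96_12 : Gr := ⟨false, 356, 359, 1024, 1024, 96, 99, 10033, 10189, 0, 2048, 0, []⟩

theorem k96_12 : chk g96_12 T325 [
  ⟨498, 120, 720, 36, 260, false, false, false, [(0, 1), (3, 4), (15, 2), (6, 1), (7, 2), (8, 2), (9, 2), (3, 13)], []⟩,
  ⟨742, 120, 720, 96, 188, false, true, false, [(0, 1), (3, 10), (8, 1), (3, 10)], []⟩,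
  ⟨912, 120, 600, 192, 98, false, true, false, [(0, 1), (3, 13)], []⟩,
  ⟨1031, 120, 480, 192, 98, false, true, false, [(0, 1), (3, 13)], []⟩,
  ⟨1150, 120, 0, 208, 109, true, true, false, [(0, 1), (3, 12)], []⟩,
  ⟨1269, 120, 0, 208, 109, true, true, false, [(0, 1), (3, 12)], []⟩,
  ⟨1388, 120, 0, 192, 98, true, true, false, [(0, 2), (3, 12)], []⟩,
  ⟨1556, 120, 0, 192, 98, true, true, false, [(0, 2), (3, 12)], []⟩,
  ⟨1673, 120, 0, 192, 98, true, true, false, [(0, 3), (3, 11)], []⟩,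
  ⟨1790, 120, 0, 192, 98, true, true, false, [(0, 14)], []⟩,
  ⟨1956, 120, 0, 176, 88, true, true, false, [(0, 16)], []⟩,
  ⟨2416, 120, 0, 144, 69, true, true, false, [(0, 18)], []⟩,
  ⟨4190, 120, 0, 48, 21, true, true, false, [(0, 26)], []⟩,
  ⟨7145, 120, 0, 0, 0, true, false, false, [(0, 30)], []⟩
  ] = true := by decide +kernel

def g96_13 : Gr := ⟨false, 358, 368, 1024, 1024, 96, 99, 10033, 10189, 0, 2048, 0, []⟩

theorem k96_13 : chk g96_13 T350 [
  ⟨498, 120, 720, 20, 276, false, false, false, [(0, 1), (3, 4), (18, 2), (8, 1), (9, 2), (10, 2), (11, 2), (12, 2), (3, 13)], []⟩,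
  ⟨738, 120, 720, 80, 204, false, true, false, [(0, 1), (3, 6), (6, 1), (3, 3), (10, 1), (11, 2), (3, 10)], []⟩,
  ⟨855, 120, 720, 80, 192, false, false, false, [(0, 1), (3, 23)], []⟩,
  ⟨937, 120, 600, 176, 96, false, true, false, [(0, 1), (3, 15)], []⟩,
  ⟨994, 120, 600, 176, 88, false, true, false, [(0, 1), (3, 15)], []⟩,
  ⟨1051, 120, 0, 224, 120, true, true, false, [(0, 1), (3, 11)], []⟩,
  ⟨1108, 120, 0, 224, 120, true, true, false, [(0, 1), (3, 11)], []⟩,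
  ⟨1165, 120, 0, 224, 120, true, true, false, [(0, 1), (3, 11)], []⟩,
  ⟨1222, 120, 0, 224, 120, true, true, false, [(0, 1), (3, 11)], []⟩,
  ⟨1262, 120, 0, 208, 109, true, true, false, [(0, 1), (3, 13)], []⟩,
  ⟨1319, 120, 0, 208, 109, true, true, false, [(0, 1), (3, 13)], []⟩,
  ⟨1376, 120, 0, 208, 109, true, true, false, [(0, 2), (3, 12)], []⟩,
  ⟨1433, 120, 0, 192, 98, true, true, false, [(0, 2), (3, 13)], []⟩,
  ⟨1490, 120, 0, 192, 98, true, true, false, [(0, 2), (3, 13)], []⟩,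
  ⟨1547, 120, 0, 192, 98, true, true, false, [(0, 2), (3, 13)], []⟩,
  ⟨1604, 120, 0, 192, 98, true, true, false, [(0, 3), (3, 12)], []⟩,
  ⟨1661, 120, 0, 192, 98, true, true, false, [(0, 3), (3, 12)], []⟩,
  ⟨1701, 120, 0, 192, 98, true, true, false, [(0, 4), (3, 11)], []⟩,
  ⟨1741, 120, 0, 192, 98, true, true, false, [(0, 8), (3, 7)], []⟩,
  ⟨1822, 120, 0, 176, 88, true, true, false, [(0, 16)], []⟩,
  ⟨2049, 120, 0, 176, 88, true, true, false, [(0, 16)], []⟩,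
  ⟨2677, 120, 0, 128, 60, true, true, false, [(0, 20)], []⟩,
  ⟨6069, 120, 0, 0, 0, true, false, false, [(0, 31)], []⟩,
  ⟨7324, 120, 0, 0, 0, true, false, false, [(0, 31)], []⟩
  ] = true := by decide +kernel

def g96_14 : Gr := ⟨false, 368, 384, 1024, 1024, 96, 99, 10033, 10189, 0, 2048, 0, []⟩

theorem k96_14 : chk g96_14 T350 [
  ⟨498, 120, 720, 24, 280, false, false, false, [(0, 1), (3, 4), (18, 2), (8, 1), (9, 2), (10, 2), (11, 2), (12, 2), (3, 14)], []⟩,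
  ⟨742, 120, 720, 72, 216, false, false, false, [(0, 1), (3, 11), (11, 2), (3, 12)], []⟩,
  ⟨861, 120, 720, 96, 188, false, true, false, [(0, 1), (3, 23)], []⟩,
  ⟨944, 120, 720, 96, 180, false, true, false, [(0, 1), (3, 23)], []⟩,
  ⟨1002, 120, 600, 192, 98, false, true, false, [(0, 1), (3, 15)], []⟩,
  ⟨1043, 120, 600, 192, 98, false, true, false, [(0, 1), (3, 15)], []⟩,
  ⟨1071, 120, 600, 192, 98, false, true, false, [(0, 1), (3, 15)], []⟩,
  ⟨1091, 120, 600, 192, 98, false, true, false, [(0, 1), (3, 15)], []⟩,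
  ⟨1105, 120, 480, 192, 98, false, true, false, [(0, 1), (3, 15)], []⟩,
  ⟨1114, 120, 480, 192, 98, false, true, false, [(0, 1), (3, 15)], []⟩,
  ⟨1123, 120, 0, 208, 109, true, true, false, [(0, 1), (3, 14)], []⟩,
  ⟨1137, 120, 0, 208, 109, true, true, false, [(0, 1), (3, 14)], []⟩,
  ⟨1151, 120, 0, 208, 109, true, true, false, [(0, 1), (3, 14)], []⟩,
  ⟨1172, 120, 0, 208, 109, true, true, false, [(0, 1), (3, 14)], []⟩,
  ⟨1193, 120, 0, 208, 109, true, true, false, [(0, 1), (3, 14)], []⟩,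
  ⟨1214, 120, 0, 208, 109, true, true, false, [(0, 1), (3, 14)], []⟩,
  ⟨1245, 120, 0, 208, 109, true, true, false, [(0, 1), (3, 14)], []⟩,
  ⟨1276, 120, 0, 208, 109, true, true, false, [(0, 1), (3, 14)], []⟩,
  ⟨1307, 120, 0, 208, 109, true, true, false, [(0, 1), (3, 14)], []⟩,
  ⟨1351, 120, 0, 208, 109, true, true, false, [(0, 2), (3, 13)], []⟩,
  ⟨1395, 120, 0, 208, 109, true, true, false, [(0, 2), (3, 13)], []⟩,
  ⟨1439, 120, 0, 208, 109, true, true, false, [(0, 2), (3, 13)], []⟩,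
  ⟨1483, 120, 0, 208, 109, true, true, false, [(0, 2), (3, 13)], []⟩,
  ⟨1527, 120, 0, 192, 98, true, true, false, [(0, 2), (3, 14)], []⟩,
  ⟨1571, 120, 0, 192, 98, true, true, false, [(0, 2), (3, 14)], []⟩,
  ⟨1615, 120, 0, 192, 98, true, true, false, [(0, 2), (3, 14)], []⟩,
  ⟨1659, 120, 0, 192, 98, true, true, false, [(0, 3), (3, 13)], []⟩,
  ⟨1703, 120, 0, 192, 98, true, true, false, [(0, 3), (3, 13)], []⟩,
  ⟨1734, 120, 0, 192, 98, true, true, false, [(0, 4), (3, 12)], []⟩,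
  ⟨1765, 120, 0, 192, 98, true, true, false, [(0, 6), (3, 10)], []⟩,
  ⟨1787, 120, 0, 192, 98, true, true, false, [(0, 10), (3, 6)], []⟩,
  ⟨1818, 120, 0, 192, 98, true, true, false, [(0, 16)], []⟩,
  ⟨1882, 120, 0, 192, 98, true, true, false, [(0, 16)], []⟩,
  ⟨1973, 120, 0, 176, 88, true, true, false, [(0, 18)], []⟩,
  ⟨2229, 120, 0, 160, 78, true, true, false, [(0, 19)], []⟩,
  ⟨2935, 120, 0, 112, 52, true, true, false, [(0, 23)], []⟩,
  ⟨6747, 120, 0, 0, 0, true, false, false, [(0, 32)], []⟩,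
  ⟨7642, 120, 0, 0, 0, true, false, false, [(0, 32)], []⟩
  ] = true := by decide +kernel

def g96_15 : Gr := ⟨false, 384, 397, 1024, 1024, 96, 99, 10033, 10189, 0, 2048, 0, []⟩

theorem k96_15 : chk g96_15 T375 [
  ⟨498, 120, 720, 24, 291, false, true, false, [(0, 1), (3, 4), (19, 2), (8, 1), (9, 2), (10, 2), (11, 2), (12, 2), (3, 15)], []⟩,
  ⟨742, 120, 720, 72, 232, false, false, false, [(0, 1), (3, 6), (6, 1), (3, 4), (11, 2), (12, 2), (3, 11)], []⟩,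
  ⟨912, 120, 720, 96, 196, false, true, false, [(0, 1), (3, 24)], []⟩,
  ⟨1031, 120, 720, 96, 184, false, false, false, [(0, 1), (3, 24)], []⟩,
  ⟨1114, 120, 600, 192, 98, false, true, false, [(0, 1), (3, 16)], []⟩,
  ⟨1172, 120, 600, 192, 98, false, true, false, [(0, 1), (3, 16)], []⟩,
  ⟨1230, 120, 0, 224, 120, true, true, false, [(0, 1), (3, 14)], []⟩,
  ⟨1288, 120, 0, 224, 120, true, true, false, [(0, 1), (3, 14)], []⟩,
  ⟨1346, 120, 0, 208, 109, true, true, false, [(0, 1), (3, 15)], []⟩,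
  ⟨1429, 120, 0, 208, 109, true, true, false, [(0, 2), (3, 14)], []⟩,
  ⟨1512, 120, 0, 208, 109, true, true, false, [(0, 2), (3, 14)], []⟩,
  ⟨1595, 120, 0, 208, 109, true, true, false, [(0, 2), (3, 14)], []⟩,
  ⟨1678, 120, 0, 192, 98, true, true, false, [(0, 2), (3, 15)], []⟩,
  ⟨1761, 120, 0, 192, 98, true, true, false, [(0, 3), (3, 14)], []⟩,
  ⟨1844, 120, 0, 192, 98, true, true, false, [(0, 4), (3, 13)], []⟩,
  ⟨1927, 120, 0, 192, 98, true, true, false, [(0, 17)], []⟩,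
  ⟨2044, 120, 0, 192, 98, true, true, false, [(0, 17)], []⟩,
  ⟨2370, 120, 0, 160, 78, true, true, false, [(0, 20)], []⟩,
  ⟨3269, 120, 0, 96, 44, true, true, false, [(0, 25)], []⟩,
  ⟨6731, 120, 0, 0, 0, true, false, false, [(0, 33)], []⟩,
  ⟨7901, 120, 0, 0, 0, true, false, false, [(0, 33)], []⟩
  ] = true := by decide +kernel

def g96_16 : Gr := ⟨false, 397, 410, 1024, 1024, 96, 99, 10033, 10189, 0, 2048, 0, []⟩

theorem k96_16 : chk g96_16 T375 [
  ⟨498, 120, 720, 28, 300, false, false, false, [(0, 1), (3, 4), (19, 2), (8, 1), (9, 2), (10, 2), (11, 2), (12, 2), (3, 16)], []⟩,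
  ⟨846, 120, 720, 88, 224, false, false, false, [(0, 1), (3, 6), (6, 1), (3, 3), (7, 1), (11, 2), (12, 2), (3, 11)], []⟩,
  ⟨1016, 120, 720, 88, 208, false, false, false, [(0, 1), (3, 26)], []⟩,
  ⟨1135, 120, 720, 112, 172, false, true, false, [(0, 1), (3, 24)], []⟩,
  ⟨1193, 120, 0, 224, 120, true, true, false, [(0, 1), (3, 15)], []⟩,
  ⟨1276, 120, 0, 224, 120, true, true, false, [(0, 1), (3, 15)], []⟩,
  ⟨1359, 120, 0, 224, 120, true, true, false, [(0, 1), (3, 15)], []⟩,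
  ⟨1442, 120, 0, 208, 109, true, true, false, [(0, 2), (3, 15)], []⟩,
  ⟨1559, 120, 0, 208, 109, true, true, false, [(0, 2), (3, 15)], []⟩,
  ⟨1676, 120, 0, 208, 109, true, true, false, [(0, 2), (3, 15)], []⟩,
  ⟨1758, 120, 0, 208, 109, true, true, false, [(0, 3), (3, 14)], []⟩,
  ⟨1840, 120, 0, 208, 109, true, true, false, [(0, 3), (3, 14)], []⟩,
  ⟨1880, 120, 0, 208, 109, true, true, false, [(0, 5), (3, 12)], []⟩,
  ⟨1908, 120, 0, 208, 109, true, true, false, [(0, 7), (3, 10)], []⟩,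
  ⟨1927, 120, 0, 208, 109, true, true, false, [(0, 11), (3, 6)], []⟩,
  ⟨1940, 120, 0, 208, 109, true, true, false, [(0, 17)], []⟩,
  ⟨1982, 120, 0, 192, 98, true, true, false, [(0, 19)], []⟩,
  ⟨2102, 120, 0, 176, 88, true, true, false, [(0, 20)], []⟩,
  ⟨2436, 120, 0, 160, 78, true, true, false, [(0, 21)], []⟩,
  ⟨3727, 120, 0, 88, 40, true, true, false, [(0, 27)], []⟩,
  ⟨7274, 120, 0, 0, 0, true, false, false, [(0, 34)], []⟩,
  ⟨8160, 120, 0, 0, 0, true, false, false, [(0, 34)], []⟩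
  ] = true := by decide +kernel

def g96_17 : Gr := ⟨false, 409, 425, 1024, 1024, 96, 99, 10033, 10189, 0, 2048, 0, []⟩

theorem k96_17 : chk g96_17 T400 [
  ⟨498, 120, 720, 28, 308, false, false, false, [(0, 1), (3, 4), (22, 2), (10, 1), (11, 2), (12, 2), (13, 2), (14, 2), (15, 2), (3, 15)], []⟩,
  ⟨846, 120, 720, 88, 232, false, false, false, [(0, 1), (3, 6), (7, 1), (3, 2), (8, 2), (13, 2), (14, 2), (15, 2), (3, 10)], []⟩,
  ⟨1086, 120, 720, 88, 208, false, false, false, [(0, 1), (3, 10), (8, 1), (3, 2), (14, 2), (3, 12)], []⟩,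
  ⟨1203, 120, 720, 112, 176, false, false, false, [(0, 1), (3, 25)], []⟩,
  ⟨1285, 120, 0, 224, 120, true, true, false, [(0, 1), (3, 16)], []⟩,
  ⟨1367, 120, 0, 224, 120, true, true, false, [(0, 1), (3, 16)], []⟩,
  ⟨1483, 120, 0, 224, 120, true, true, false, [(0, 2), (3, 15)], []⟩,
  ⟨1599, 120, 0, 208, 109, true, true, false, [(0, 2), (3, 16)], []⟩,
  ⟨1715, 120, 0, 208, 109, true, true, false, [(0, 2), (3, 16)], []⟩,
  ⟨1831, 120, 0, 208, 109, true, true, false, [(0, 3), (3, 15)], []⟩,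
  ⟨1912, 120, 0, 208, 109, true, true, false, [(0, 4), (3, 14)], []⟩,
  ⟨1969, 120, 0, 208, 109, true, true, false, [(0, 6), (3, 12)], []⟩,
  ⟨1996, 120, 0, 208, 109, true, true, false, [(0, 14), (3, 4)], []⟩,
  ⟨2053, 120, 0, 192, 98, true, true, false, [(0, 20)], []⟩,
  ⟨2214, 120, 0, 176, 88, true, true, false, [(0, 21)], []⟩,
  ⟨2660, 120, 0, 160, 78, true, true, false, [(0, 22)], []⟩,
  ⟨4383, 120, 0, 40, 18, true, true, false, [(0, 32)], []⟩,
  ⟨7762, 120, 0, 0, 0, true, false, false, [(0, 36)], []⟩,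
  ⟨8458, 120, 0, 0, 0, true, false, false, [(0, 36)], []⟩
  ] = true := by decide +kernel

def g96_18 : Gr := ⟨false, 425, 436, 1024, 1024, 96, 99, 10033, 10189, 0, 2048, 0, []⟩

theorem k96_18 : chk g96_18 T400 [
  ⟨498, 120, 720, 28, 324, false, false, false, [(0, 1), (3, 4), (22, 2), (10, 1), (11, 2), (12, 2), (13, 2), (14, 2), (15, 2), (3, 16)], []⟩,
  ⟨846, 120, 720, 88, 248, false, false, false, [(0, 1), (3, 6), (7, 1), (3, 3), (8, 1), (13, 2), (14, 2), (3, 1), (15, 1), (3, 11)], []⟩,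
  ⟨1090, 120, 720, 88, 224, false, false, false, [(0, 1), (3, 14), (14, 1), (3, 13)], []⟩,
  ⟨1260, 120, 720, 112, 188, false, true, false, [(0, 1), (3, 26)], []⟩,
  ⟨1379, 120, 0, 224, 120, true, true, false, [(0, 1), (3, 17)], []⟩,
  ⟨1547, 120, 0, 224, 120, true, true, false, [(0, 2), (3, 16)], []⟩,
  ⟨1715, 120, 0, 208, 109, true, true, false, [(0, 2), (3, 17)], []⟩,
  ⟨1883, 120, 0, 208, 109, true, true, false, [(0, 2), (3, 17)], []⟩,
  ⟨2000, 120, 0, 208, 109, true, true, false, [(0, 4), (3, 15)], []⟩,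
  ⟨2082, 120, 0, 208, 109, true, true, false, [(0, 8), (3, 11)], []⟩,
  ⟨2246, 120, 0, 176, 88, true, true, false, [(0, 22)], []⟩,
  ⟨2700, 120, 0, 160, 78, true, true, false, [(0, 23)], []⟩,
  ⟨4454, 120, 0, 52, 23, true, true, false, [(0, 32)], []⟩,
  ⟨7895, 120, 0, 0, 0, true, false, false, [(0, 37)], []⟩,
  ⟨8677, 120, 0, 0, 0, true, false, false, [(0, 37)], []⟩
  ] = true := by decide +kernel

def g96_19 : Gr := ⟨false, 435, 461, 1024, 1024, 96, 99, 10033, 10189, 0, 2048, 0, []⟩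

theorem k96_19 : chk g96_19 T425 [
  ⟨698, 120, 720, 40, 304, false, false, false, [(0, 1), (3, 4), (23, 2), (10, 1), (11, 2), (12, 2), (13, 2), (14, 2), (15, 2), (16, 2), (3, 15)], []⟩,
  ⟨1040, 120, 720, 88, 240, false, false, false, [(0, 1), (3, 6), (7, 1), (3, 2), (8, 2), (3, 1), (13, 1), (14, 2), (15, 2), (3, 13)], []⟩,
  ⟨1207, 120, 720, 112, 200, false, false, false, [(0, 1), (3, 16), (15, 1), (3, 11)], []⟩,
  ⟨1324, 120, 600, 112, 192, false, false, false, [(0, 1), (3, 28)], []⟩,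
  ⟨1406, 120, 600, 112, 184, false, false, false, [(0, 1), (3, 28)], []⟩,
  ⟨1488, 120, 0, 224, 120, true, true, false, [(0, 2), (3, 18)], []⟩,
  ⟨1570, 120, 0, 224, 120, true, true, false, [(0, 2), (3, 18)], []⟩,
  ⟨1652, 120, 0, 208, 109, true, true, false, [(0, 2), (3, 19)], []⟩,
  ⟨1768, 120, 0, 208, 109, true, true, false, [(0, 2), (3, 19)], []⟩,
  ⟨1884, 120, 0, 208, 109, true, true, false, [(0, 2), (3, 19)], []⟩,
  ⟨1965, 120, 0, 208, 109, true, true, false, [(0, 3), (3, 18)], []⟩,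
  ⟨2046, 120, 0, 208, 109, true, true, false, [(0, 4), (3, 17)], []⟩,
  ⟨2085, 120, 0, 208, 109, true, true, false, [(0, 7), (3, 14)], []⟩,
  ⟨2112, 120, 0, 208, 109, true, true, false, [(0, 12), (3, 9)], []⟩,
  ⟨2152, 120, 0, 208, 109, true, true, false, [(0, 21)], []⟩,
  ⟨2209, 120, 0, 192, 98, true, true, false, [(0, 23)], []⟩,
  ⟨2435, 120, 0, 176, 88, true, true, false, [(0, 24)], []⟩,
  ⟨3059, 120, 0, 128, 60, true, true, false, [(0, 28)], []⟩,
  ⟨6430, 120, 0, 0, 0, true, false, false, [(0, 39)], []⟩,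
  ⟨9175, 120, 0, 0, 0, true, false, false, [(0, 39)], []⟩
  ] = true := by decide +kernel

def g96_20 : Gr := ⟨false, 460, 487, 1024, 1024, 96, 99, 10033, 10189, 0, 2048, 0, []⟩

theorem k96_20 : chk g96_20 T450 [
  ⟨698, 120, 720, 44, 316, false, false, false, [(0, 1), (3, 4), (25, 2), (11, 1), (12, 2), (13, 2), (14, 2), (15, 2), (16, 2), (17, 2), (18, 1), (3, 16)], []⟩,
  ⟨1178, 120, 720, 104, 232, false, false, false, [(0, 1), (3, 5), (8, 2), (3, 1), (9, 3), (3, 1), (14, 1), (15, 2), (16, 2), (17, 2), (3, 2), (18, 1), (3, 9)], []⟩,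
  ⟨1413, 120, 720, 104, 208, false, false, false, [(0, 1), (3, 10), (9, 1), (3, 3), (10, 1), (3, 1), (16, 1), (3, 1), (17, 1), (3, 12)], []⟩,
  ⟨1577, 120, 600, 128, 176, false, false, false, [(0, 2), (3, 28)], []⟩,
  ⟨1741, 120, 0, 224, 120, true, true, false, [(0, 2), (3, 20)], []⟩,
  ⟨1905, 120, 0, 224, 120, true, true, false, [(0, 2), (3, 20)], []⟩,
  ⟨2020, 120, 0, 224, 120, true, true, false, [(0, 3), (3, 19)], []⟩,
  ⟨2100, 120, 0, 208, 109, true, true, false, [(0, 3), (3, 21)], []⟩,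
  ⟨2180, 120, 0, 208, 109, true, true, false, [(0, 5), (3, 19)], []⟩,
  ⟨2236, 120, 0, 208, 109, true, true, false, [(0, 10), (3, 14)], []⟩,
  ⟨2349, 120, 0, 192, 98, true, true, false, [(0, 25)], []⟩,
  ⟨2663, 120, 0, 176, 88, true, true, false, [(0, 26)], []⟩,
  ⟨3531, 120, 0, 104, 48, true, true, false, [(0, 32)], []⟩,
  ⟨6872, 120, 0, 0, 0, true, false, false, [(0, 41)], []⟩,
  ⟨9692, 120, 0, 0, 0, true, false, false, [(0, 41)], []⟩
  ] = true := by decide +kernel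

def g96_21 : Gr := ⟨false, 486, 512, 1024, 1024, 96, 99, 10033, 10189, 0, 2048, 0, []⟩

theorem k96_21 : chk g96_21 T475 [
  ⟨978, 120, 720, 80, 288, false, false, false, [(0, 1), (3, 4), (27, 2), (12, 1), (13, 2), (14, 2), (15, 2), (16, 2), (17, 2), (18, 2), (19, 3), (20, 2), (3, 11)], []⟩,
  ⟨1457, 120, 720, 104, 232, false, false, false, [(0, 1), (3, 6), (8, 1), (3, 2), (9, 2), (3, 1), (10, 3), (17, 2), (18, 2), (19, 3), (3, 11)], []⟩,
  ⟨1692, 120, 600, 128, 188, false, true, false, [(0, 2), (3, 17), (18, 1), (3, 2), (19, 1), (3, 9)], []⟩,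
  ⟨1927, 120, 0, 224, 120, true, true, false, [(0, 2), (3, 17), (18, 1), (3, 2), (19, 1), (3, 1)], []⟩,
  ⟨2162, 120, 0, 224, 120, true, true, false, [(0, 3), (3, 19), (19, 1), (3, 1)], []⟩,
  ⟨2326, 120, 0, 208, 109, true, true, false, [(0, 4), (3, 18), (19, 1), (3, 1), (20, 1), (3, 1)], []⟩,
  ⟨2490, 120, 0, 192, 98, true, true, false, [(0, 27)], []⟩,
  ⟨2945, 120, 0, 176, 88, true, true, false, [(0, 28)], []⟩,
  ⟨4703, 120, 0, 56, 25, true, true, false, [(0, 38)], []⟩,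
  ⟨8151, 120, 0, 0, 0, true, false, false, [(0, 43)], []⟩,
  ⟨10190, 120, 0, 0, 0, true, false, false, [(0, 43)], []⟩
  ] = true := by decide +kernel

def g96_22 : Gr := ⟨false, 512, 538, 1024, 1024, 96, 99, 10033, 10189, 0, 2048, 0, []⟩

theorem k96_22 : chk g96_22 T500 [
  ⟨978, 120, 720, 56, 328, false, false, false, [(0, 1), (3, 4), (28, 2), (13, 1), (14, 2), (15, 2), (16, 2), (17, 2), (18, 2), (19, 2), (20, 3), (21, 2), (3, 15)], []⟩,
  ⟨1650, 120, 720, 128, 216, false, false, false, [(0, 1), (3, 5), (9, 2), (3, 1), (10, 3), (11, 4), (18, 2), (19, 2), (20, 3), (21, 2), (3, 1), (22, 1), (3, 7)], []⟩,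
  ⟨1979, 120, 0, 240, 132, true, true, false, [(0, 2), (3, 13), (11, 1), (3, 3), (19, 1), (3, 1), (20, 2), (3, 1), (21, 1)], []⟩,
  ⟨2308, 120, 0, 224, 120, true, true, false, [(0, 3), (3, 18), (20, 2), (21, 2), (3, 1), (22, 1)], []⟩,
  ⟨2469, 120, 0, 208, 109, true, true, false, [(0, 5), (3, 17), (20, 1), (3, 1), (21, 1), (3, 3)], []⟩,
  ⟨2916, 120, 0, 192, 98, true, true, false, [(0, 29)], []⟩,
  ⟨4148, 120, 0, 80, 36, true, true, false, [(0, 38)], []⟩,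
  ⟨7533, 120, 0, 0, 0, true, false, false, [(0, 45)], []⟩,
  ⟨10707, 120, 0, 0, 0, true, false, false, [(0, 45)], []⟩
  ] = true := by decide +kernel

def g96_23 : Gr := ⟨false, 537, 564, 1024, 1024, 96, 99, 10033, 10189, 0, 1954, 0, []⟩

theorem k96_23 : chk g96_23 T525 [
  ⟨978, 120, 720, 96, 320, false, false, false, [(0, 1), (3, 4), (29, 2), (13, 1), (14, 2), (15, 2), (16, 2), (17, 2), (18, 2), (19, 2), (20, 3), (21, 2), (22, 2), (3, 12)], []⟩,
  ⟨1663, 120, 600, 120, 240, false, false, false, [(0, 1), (3, 5), (9, 2), (3, 1), (10, 3), (11, 4), (18, 2), (19, 2), (20, 3), (21, 2), (22, 2), (3, 10)], []⟩,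
  ⟨2142, 120, 0, 240, 132, true, true, false, [(0, 2), (3, 5), (4, 1), (3, 3), (10, 1), (3, 3), (11, 1), (3, 2), (12, 2), (20, 3), (21, 2), (22, 2)], []⟩,
  ⟨2621, 120, 0, 192, 98, true, true, true, [(0, 3), (3, 4), (4, 1), (3, 3), (5, 1), (3, 3), (6, 1), (3, 3), (12, 1), (3, 1), (20, 2), (21, 2), (22, 2), (23, 1)], [(23, 1), (24, 2)]⟩,
  ⟨3100, 120, 0, 192, 98, true, true, false, [(0, 31)], []⟩,
  ⟨4949, 120, 0, 72, 32, true, true, false, [(0, 41)], []⟩,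
  ⟨8576, 120, 0, 0, 0, true, false, false, [(0, 47)], []⟩,
  ⟨10709, 120, 0, 0, 0, true, false, false, [(0, 47)], []⟩
  ] = true := by decide +kernel

def g96_24 : Gr := ⟨false, 563, 589, 1024, 1024, 96, 99, 10033, 10189, 0, 1864, 0, []⟩

theorem k96_24 : chk g96_24 T550 [
  ⟨1371, 120, 600, 240, 188, false, true, false, [(0, 1), (3, 4), (32, 2), (15, 1), (16, 2), (17, 2), (18, 2), (19, 2), (20, 2), (21, 2), (22, 3), (23, 2), (24, 2), (25, 2)], []⟩,
  ⟨2331, 120, 0, 240, 132, true, true, true, [(0, 2), (3, 4), (4, 1), (10, 1), (3, 2), (11, 2), (3, 1), (12, 3), (13, 4), (22, 3), (23, 2)], [(24, 2), (25, 2)]⟩,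
  ⟨3003, 120, 0, 192, 98, true, true, true, [(0, 7), (4, 1), (0, 2), (5, 2), (0, 2), (6, 2), (0, 1), (7, 3), (22, 3), (23, 2), (24, 2), (25, 2), (26, 1)], [(26, 1), (27, 2)]⟩,
  ⟨4322, 120, 0, 120, 56, true, true, false, [(0, 39)], []⟩,
  ⟨7947, 120, 0, 0, 0, true, false, false, [(0, 49)], []⟩,
  ⟨10669, 120, 0, 0, 0, true, false, false, [(0, 49)], []⟩
  ] = true := by decide +kernel

def g96_25 : Gr := ⟨false, 588, 615, 1024, 1024, 96, 99, 10033, 10189, 0, 1785, 0, []⟩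

theorem k96_25 : chk g96_25 T575 [
  ⟨1371, 120, 600, 112, 312, false, false, false, [(0, 1), (3, 4), (33, 2), (15, 1), (16, 2), (17, 2), (18, 2), (19, 2), (20, 2), (21, 2), (22, 3), (23, 2), (24, 2), (25, 2), (26, 2), (3, 11)], []⟩,
  ⟨2331, 120, 0, 256, 145, true, true, true, [(0, 2), (3, 4), (4, 1), (10, 1), (3, 1), (11, 3), (12, 4), (13, 4), (22, 3), (23, 2), (24, 2)], [(25, 2), (26, 1)]⟩,
  ⟨3272, 120, 0, 208, 109, true, true, true, [(0, 7), (4, 1), (0, 2), (5, 2), (0, 1), (6, 3), (0, 1), (7, 3), (22, 3), (23, 2), (24, 2), (25, 2), (26, 2)], [(27, 2), (28, 1)]⟩,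
  ⟨5120, 120, 0, 80, 36, true, true, false, [(0, 45)], []⟩,
  ⟨8745, 120, 0, 0, 0, true, false, false, [(0, 51)], []⟩,
  ⟨10668, 120, 0, 0, 0, true, false, false, [(0, 51)], []⟩
  ] = true := by decide +kernel

def g96_26 : Gr := ⟨false, 614, 640, 1024, 1024, 96, 99, 10033, 10189, 0, 1709, 0, []⟩

theorem k96_26 : chk g96_26 T600 [
  ⟨1921, 120, 600, 256, 169, false, true, false, [(0, 1), (3, 4), (35, 2), (16, 1), (17, 2), (18, 2), (19, 2), (20, 2), (21, 2), (22, 2), (23, 3), (24, 2), (25, 2), (26, 2), (27, 2), (28, 1)], []⟩,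
  ⟨3265, 120, 0, 208, 109, true, true, true, [(0, 5), (4, 3), (5, 4), (6, 3), (13, 1), (14, 4), (23, 3), (24, 2), (25, 2), (26, 2), (27, 2), (28, 2)], [(29, 2), (30, 1)]⟩,
  ⟨4609, 120, 0, 104, 48, true, true, false, [(0, 45)], []⟩,
  ⟨8303, 120, 0, 0, 0, true, false, false, [(0, 54)], []⟩,
  ⟨10629, 120, 0, 0, 0, true, false, false, [(0, 54)], []⟩
  ] = true := by decide +kernel

def g96_27 : Gr := ⟨false, 640, 666, 1024, 1024, 96, 99, 10033, 10189, 0, 1640, 0, []⟩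

theorem k96_27 : chk g96_27 T625 [
  ⟨1921, 120, 600, 256, 193, false, true, false, [(0, 1), (3, 4), (36, 2), (16, 1), (17, 2), (18, 2), (19, 2), (20, 2), (21, 2), (22, 2), (23, 3), (24, 2), (25, 2), (26, 2), (27, 2), (28, 2), (29, 1)], []⟩,
  ⟨3265, 120, 0, 208, 109, true, true, true, [(0, 5), (4, 3), (5, 4), (6, 2), (13, 2), (14, 4), (15, 5), (25, 2), (26, 2), (27, 2), (28, 2), (29, 2)], [(30, 2), (31, 1)]⟩,
  ⟨4609, 120, 0, 128, 60, true, true, false, [(0, 45)], []⟩,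
  ⟨8303, 120, 0, 0, 0, true, false, false, [(0, 56)], []⟩,
  ⟨10614, 120, 0, 0, 0, true, false, false, [(0, 56)], []⟩
  ] = true := by decide +kernel

def g96_28 : Gr := ⟨false, 665, 692, 1024, 1024, 96, 99, 10033, 10189, 0, 1578, 0, []⟩

theorem k96_28 : chk g96_28 T650 [
  ⟨1921, 120, 600, 256, 209, false, true, false, [(0, 1), (3, 4), (39, 2), (18, 1), (19, 2), (20, 2), (21, 2), (22, 2), (23, 2), (24, 2), (25, 3), (26, 2), (27, 2), (28, 2), (29, 2), (30, 2), (31, 2), (32, 2)], []⟩,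
  ⟨3842, 120, 0, 176, 104, true, true, true, [(0, 5), (4, 3), (5, 4), (6, 2), (14, 2), (15, 4), (16, 5), (27, 2), (28, 2), (29, 2), (30, 2), (31, 2), (32, 2), (33, 2)], [(34, 2), (35, 2)]⟩,
  ⟨5763, 120, 0, 20, 60, true, false, false, [(0, 56)], []⟩,
  ⟨9530, 120, 0, 0, 0, true, false, false, [(0, 58)], []⟩,
  ⟨10611, 120, 0, 0, 0, true, false, false, [(0, 58)], []⟩
  ] = true := by decide +kernel

def g96_29 : Gr := ⟨false, 691, 717, 1024, 1024, 96, 99, 10033, 10189, 0, 1519, 0, []⟩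

theorem k96_29 : chk g96_29 T675 [
  ⟨2690, 120, 600, 224, 192, false, true, false, [(0, 1), (3, 4), (40, 2), (18, 1), (19, 2), (20, 2), (21, 2), (22, 2), (23, 2), (24, 2), (25, 3), (26, 2), (27, 2), (28, 2), (29, 2), (30, 2), (31, 2), (32, 2), (33, 2), (34, 2)], []⟩,
  ⟨4573, 120, 0, 176, 88, true, true, false, [(0, 7), (4, 1), (0, 2), (5, 2), (0, 1), (6, 3), (7, 4), (8, 4), (16, 1), (27, 2), (17, 1), (28, 1), (29, 2), (30, 2), (31, 2), (32, 2), (33, 2), (34, 2), (35, 2), (36, 2)], []⟩,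
  ⟨8266, 120, 0, 0, 0, true, false, false, [(0, 60)], []⟩,
  ⟨10583, 120, 0, 0, 0, true, false, false, [(0, 60)], []⟩
  ] = true := by decide +kernel

def g96_30 : Gr := ⟨false, 716, 743, 1024, 1024, 96, 99, 10033, 10189, 0, 1466, 0, []⟩

theorem k96_30 : chk g96_30 T700 [
  ⟨2690, 120, 600, 240, 204, false, true, false, [(0, 1), (3, 4), (41, 2), (18, 1), (19, 2), (20, 2), (21, 2), (22, 2), (23, 2), (24, 2), (25, 3), (26, 2), (27, 2), (28, 2), (29, 2), (30, 2), (31, 2), (32, 2), (33, 2), (34, 2), (35, 1)], []⟩,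
  ⟨4573, 120, 0, 144, 109, true, true, true, [(0, 6), (4, 2), (0, 1), (5, 3), (6, 4), (7, 4), (8, 4), (16, 1), (17, 4), (29, 2), (30, 2), (31, 2), (32, 2), (33, 2), (34, 2), (35, 2), (36, 2), (37, 1)], [(37, 2), (38, 2)]⟩,
  ⟨8266, 120, 0, 0, 0, true, false, false, [(0, 62)], []⟩,
  ⟨10585, 120, 0, 0, 0, true, false, false, [(0, 62)], []⟩
  ] = true := by decide +kernel

def g96_31 : Gr := ⟨false, 742, 768, 1024, 1024, 96, 99, 10033, 10189, 0, 1415, 0, []⟩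

theorem k96_31 : chk g96_31 T725 [
  ⟨2690, 120, 600, 240, 220, false, true, true, [(0, 1), (3, 4), (44, 2), (20, 1), (21, 2), (22, 2), (23, 2), (24, 2), (25, 2), (26, 2), (27, 3), (28, 2), (29, 2), (30, 2), (31, 2), (32, 2), (33, 2), (34, 2), (35, 2)], [(36, 2), (37, 2), (38, 1)]⟩,
  ⟨4573, 120, 0, 176, 104, true, true, false, [(0, 6), (4, 2), (0, 1), (5, 3), (6, 4), (7, 4), (8, 4), (17, 1), (18, 4), (31, 2), (32, 2), (33, 2), (34, 2), (35, 2), (36, 2), (37, 2), (38, 2), (39, 3), (40, 2)], []⟩,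
  ⟨8266, 120, 0, 0, 0, true, false, false, [(0, 64)], []⟩,
  ⟨10560, 120, 0, 0, 0, true, false, false, [(0, 64)], []⟩
  ] = true := by decide +kernel

def g96_32 : Gr := ⟨false, 768, 794, 1024, 1024, 96, 99, 10033, 10189, 0, 1367, 0, []⟩

theorem k96_32 : chk g96_32 T750 [
  ⟨2690, 120, 600, 240, 244, false, true, true, [(2, 5), (45, 2), (20, 1), (21, 2), (22, 2), (23, 2), (24, 2), (25, 2), (26, 2), (27, 3), (28, 2), (29, 2), (30, 2), (31, 2), (32, 2), (33, 2), (34, 2), (35, 2), (36, 2), (37, 2)], [(38, 2), (39, 1)]⟩,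
  ⟨5380, 120, 0, 144, 77, true, true, true, [(0, 6), (4, 2), (0, 1), (5, 3), (6, 4), (7, 4), (8, 4), (17, 1), (18, 4), (31, 2), (32, 2), (33, 2), (34, 2), (35, 2), (36, 2), (37, 2), (38, 2), (39, 3), (40, 2)], [(41, 2), (42, 2)]⟩,
  ⟨9147, 120, 0, 0, 0, true, false, false, [(0, 66)], []⟩,
  ⟨10547, 120, 0, 0, 0, true, false, false, [(0, 66)], []⟩
  ] = true := by decide +kernel

def g96_33 : Gr := ⟨false, 793, 820, 1024, 1024, 96, 99, 10033, 10189, 0, 1324, 0, []⟩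

theorem k96_33 : chk g96_33 T775 [
  ⟨3767, 120, 600, 208, 197, false, true, true, [(2, 5), (45, 2), (20, 1), (21, 2), (22, 2), (23, 2), (24, 2), (25, 2), (26, 2), (27, 3), (28, 2), (29, 2), (30, 2), (31, 2), (32, 2), (33, 2), (34, 2), (35, 2), (36, 2), (37, 2), (38, 2), (39, 2)], [(39, 1), (40, 2), (41, 1)]⟩,
  ⟨5613, 120, 0, 160, 78, true, true, false, [(0, 15), (6, 1), (0, 3), (7, 1), (0, 3), (8, 2), (0, 2), (9, 2), (0, 2), (10, 2), (0, 1), (33, 1), (11, 2), (0, 1), (35, 1), (0, 1), (36, 1), (0, 1), (37, 1), (0, 1), (38, 1), (0, 1), (39, 2), (40, 2), (0, 1), (41, 1), (0, 1), (42, 1), (0, 1)], []⟩,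
  ⟨9233, 120, 0, 0, 0, true, false, false, [(0, 68)], []⟩,
  ⟨10550, 120, 0, 0, 0, true, false, false, [(0, 68)], []⟩
  ] = true := by decide +kernel

end Pool.Agent.Lib.MP_af3a4a_an.P1.CHK.H81.L
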