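import Pool.Agent.Lib.MP_af3a4a_an.P1.CHK.H81.LT
/-!
# Data: the small windows at the ends of the tables (helper81)
-/
set_option autoImplicit false

namespace Pool.Agent.Lib.MP_af3a4a_an.P1.CHK.H81.L

open Pool.Agent.Lib.MP_af3a4a_an.P1.CHK.H58.G (Gr En)

def gx64_45 : Gr := ⟨false, 460, 461, 1024, 1024, 64, 64, 8192, 8192, 0, 2048, 0, []⟩

theorem kx64_45 : chk gx64_45 T425 [
  ⟨498, 120, 600, 240, 172, false, true, false, [(0, 1), (3, 3), (23, 2), (11, 2), (12, 2), (13, 1), (14, 2), (15, 2)], []⟩,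
  ⟨742, 120, 720, 104, 256, false, false, false, [(0, 1), (3, 8), (8, 1), (3, 1), (14, 2), (15, 2), (3, 9)], []⟩,
  ⟨861, 120, 720, 104, 248, false, false, false, [(0, 1), (3, 23)], []⟩,
  ⟨944, 120, 720, 104, 240, false, false, false, [(0, 1), (3, 23)], []⟩,
  ⟨1027, 120, 600, 176, 168, false, true, false, [(0, 1), (3, 18)], []⟩,
  ⟨1085, 120, 0, 256, 145, true, true, false, [(0, 1), (3, 13)], []⟩,
  ⟨1143, 120, 0, 256, 145, true, true, false, [(0, 1), (3, 13)], []⟩,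
  ⟨1201, 120, 0, 256, 145, true, true, false, [(0, 1), (3, 13)], []⟩,
  ⟨1284, 120, 0, 256, 145, true, true, false, [(0, 2), (3, 12)], []⟩,
  ⟨1366, 120, 0, 256, 145, true, true, false, [(0, 2), (3, 12)], []⟩,
  ⟨1448, 120, 0, 240, 132, true, true, false, [(0, 2), (3, 13)], []⟩,
  ⟨1530, 120, 0, 240, 132, true, true, false, [(0, 2), (3, 13)], []⟩,
  ⟨1587, 120, 0, 240, 132, true, true, false, [(0, 2), (3, 13)], []⟩,
  ⟨1644, 120, 0, 224, 120, true, true, false, [(0, 3), (3, 13)], []⟩,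
  ⟨1701, 120, 0, 224, 120, true, true, false, [(0, 3), (3, 13)], []⟩,
  ⟨1741, 120, 0, 224, 120, true, true, false, [(0, 4), (3, 12)], []⟩,
  ⟨1781, 120, 0, 224, 120, true, true, false, [(0, 5), (3, 11)], []⟩,
  ⟨1809, 120, 0, 224, 120, true, true, false, [(0, 8), (3, 8)], []⟩,
  ⟨1837, 120, 0, 224, 120, true, true, false, [(0, 15), (3, 1)], []⟩,
  ⟨1894, 120, 0, 208, 109, true, true, false, [(0, 17)], []⟩,
  ⟨2056, 120, 0, 208, 109, true, true, false, [(0, 17)], []⟩,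
  ⟨2377, 120, 0, 176, 88, true, true, false, [(0, 19)], []⟩,
  ⟨3264, 120, 0, 88, 40, true, true, false, [(0, 25)], []⟩,
  ⟨6679, 120, 0, 0, 0, true, false, false, [(0, 31)], []⟩,
  ⟨7377, 120, 0, 0, 0, true, false, false, [(0, 31)], []⟩
  ] = true := by decide +kernel

def gx66_13 : Gr := ⟨false, 358, 359, 1024, 1024, 66, 66, 8319, 8320, 0, 2048, 0, []⟩

theorem kx66_13 : chk gx66_13 T325 [
  ⟨355, 90, 720, 16, 288, false, false, false, [(0, 1), (3, 4), (15, 3), (6, 1), (7, 2), (8, 2), (9, 3), (3, 15)], []⟩,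
  ⟨476, 90, 630, 72, 232, false, false, false, [(0, 1), (3, 25)], []⟩,
  ⟨561, 90, 630, 96, 200, false, false, false, [(0, 1), (3, 23)], []⟩,
  ⟨620, 90, 450, 208, 109, false, true, false, [(0, 1), (3, 13)], []⟩,
  ⟨661, 90, 450, 208, 109, false, true, false, [(0, 1), (3, 13)], []⟩,
  ⟨702, 90, 450, 208, 109, false, true, false, [(0, 1), (3, 13)], []⟩,
  ⟨743, 90, 0, 240, 132, true, true, false, [(0, 1), (3, 10)], []⟩,
  ⟨784, 90, 0, 240, 132, true, true, false, [(0, 1), (3, 10)], []⟩,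
  ⟨825, 90, 0, 240, 132, true, true, false, [(0, 1), (3, 10)], []⟩,
  ⟨866, 90, 0, 240, 132, true, true, false, [(0, 1), (3, 10)], []⟩,
  ⟨907, 90, 0, 224, 120, true, true, false, [(0, 1), (3, 12)], []⟩,
  ⟨966, 90, 0, 224, 120, true, true, false, [(0, 1), (3, 12)], []⟩,
  ⟨1025, 90, 0, 224, 120, true, true, false, [(0, 1), (3, 12)], []⟩,
  ⟨1084, 90, 0, 224, 120, true, true, false, [(0, 1), (3, 12)], []⟩,
  ⟨1143, 90, 0, 208, 109, true, true, false, [(0, 2), (3, 12)], []⟩,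
  ⟨1202, 90, 0, 208, 109, true, true, false, [(0, 2), (3, 12)], []⟩,
  ⟨1261, 90, 0, 208, 109, true, true, false, [(0, 2), (3, 12)], []⟩,
  ⟨1320, 90, 0, 208, 109, true, true, false, [(0, 2), (3, 12)], []⟩,
  ⟨1379, 90, 0, 208, 109, true, true, false, [(0, 3), (3, 11)], []⟩,
  ⟨1420, 90, 0, 208, 109, true, true, false, [(0, 5), (3, 9)], []⟩,
  ⟨1461, 90, 0, 208, 109, true, true, false, [(0, 14)], []⟩,
  ⟨1520, 90, 0, 208, 109, true, true, false, [(0, 14)], []⟩,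
  ⟨1604, 90, 0, 192, 98, true, true, false, [(0, 16)], []⟩,
  ⟨1838, 90, 0, 160, 78, true, true, false, [(0, 18)], []⟩,
  ⟨2487, 90, 0, 128, 60, true, true, false, [(0, 21)], []⟩,
  ⟨5834, 90, 0, 0, 0, true, false, false, [(0, 33)], []⟩
  ] = true := by decide +kernel

def gx67_24 : Gr := ⟨false, 409, 410, 1024, 1024, 67, 67, 8381, 8382, 0, 2048, 0, []⟩

theorem kx67_24 : chk gx67_24 T375 [
  ⟨355, 120, 720, 16, 328, false, false, false, [(0, 1), (3, 3), (19, 2), (9, 2), (10, 2), (11, 2), (12, 1), (3, 14)], []⟩,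
  ⟨603, 120, 720, 88, 248, false, false, false, [(0, 1), (3, 9), (11, 2), (12, 1), (3, 9)], []⟩,
  ⟨724, 120, 720, 88, 232, false, false, false, [(0, 1), (3, 21)], []⟩,
  ⟨809, 120, 480, 224, 120, false, true, false, [(0, 1), (3, 12)], []⟩,
  ⟨868, 120, 480, 224, 120, false, true, false, [(0, 1), (3, 12)], []⟩,
  ⟨909, 120, 0, 256, 145, true, true, false, [(0, 1), (3, 10)], []⟩,
  ⟨950, 120, 0, 256, 145, true, true, false, [(0, 1), (3, 10)], []⟩,
  ⟨991, 120, 0, 256, 145, true, true, false, [(0, 1), (3, 10)], []⟩,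
  ⟨1032, 120, 0, 240, 132, true, true, false, [(0, 1), (3, 11)], []⟩,
  ⟨1091, 120, 0, 240, 132, true, true, false, [(0, 1), (3, 11)], []⟩,
  ⟨1150, 120, 0, 240, 132, true, true, false, [(0, 1), (3, 11)], []⟩,
  ⟨1209, 120, 0, 240, 132, true, true, false, [(0, 1), (3, 11)], []⟩,
  ⟨1268, 120, 0, 240, 132, true, true, false, [(0, 2), (3, 10)], []⟩,
  ⟨1327, 120, 0, 224, 120, true, true, false, [(0, 2), (3, 11)], []⟩,
  ⟨1386, 120, 0, 224, 120, true, true, false, [(0, 2), (3, 11)], []⟩,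
  ⟨1445, 120, 0, 224, 120, true, true, false, [(0, 2), (3, 11)], []⟩,
  ⟨1504, 120, 0, 224, 120, true, true, false, [(0, 2), (3, 11)], []⟩,
  ⟨1545, 120, 0, 224, 120, true, true, false, [(0, 3), (3, 10)], []⟩,
  ⟨1586, 120, 0, 208, 109, true, true, false, [(0, 4), (3, 10)], []⟩,
  ⟨1615, 120, 0, 208, 109, true, true, false, [(0, 5), (3, 9)], []⟩,
  ⟨1644, 120, 0, 208, 109, true, true, false, [(0, 6), (3, 8)], []⟩,
  ⟨1673, 120, 0, 208, 109, true, true, false, [(0, 13), (3, 1)], []⟩,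
  ⟨1732, 120, 0, 208, 109, true, true, false, [(0, 14)], []⟩,
  ⟨1899, 120, 0, 192, 98, true, true, false, [(0, 15)], []⟩,
  ⟨2230, 120, 0, 176, 88, true, true, false, [(0, 16)], []⟩,
  ⟨3143, 120, 0, 88, 40, true, true, false, [(0, 22)], []⟩,
  ⟨6657, 120, 0, 0, 0, true, false, false, [(0, 28)], []⟩,
  ⟨6713, 120, 0, 0, 0, true, false, false, [(0, 28)], []⟩
  ] = true := by decide +kernel

def gx67_54 : Gr := ⟨false, 742, 743, 1024, 1024, 67, 67, 8381, 8382, 0, 1415, 0, []⟩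

theorem kx67_54 : chk gx67_54 T700 [
  ⟨1371, 120, 600, 304, 304, false, false, true, [(0, 1), (3, 3), (41, 2), (19, 2), (20, 2), (21, 2), (22, 1), (23, 2), (24, 2), (25, 2), (26, 1), (27, 2), (28, 2), (29, 2), (30, 1), (31, 2)], [(32, 1)]⟩,
  ⟨2742, 120, 0, 256, 161, true, true, true, [(0, 2), (3, 3), (4, 1), (3, 1), (5, 1), (13, 2), (14, 3), (15, 4), (16, 3), (27, 2), (28, 2), (29, 2)], [(30, 1), (31, 2), (32, 2), (33, 2), (34, 1)]⟩,
  ⟨3702, 120, 0, 208, 109, true, true, true, [(0, 9), (5, 1), (0, 2), (6, 1), (0, 3), (7, 1), (0, 2), (8, 1), (0, 2), (9, 2), (0, 1), (29, 1), (10, 1), (31, 2), (32, 2), (33, 2), (34, 1), (35, 2)], [(36, 1)]⟩,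
  ⟨6340, 120, 0, 0, 0, true, false, false, [(0, 51)], []⟩,
  ⟨8405, 120, 0, 0, 0, true, false, false, [(0, 51)], []⟩
  ] = true := by decide +kernel

def gx68_30 : Gr := ⟨false, 435, 436, 1024, 1024, 68, 68, 8444, 8445, 0, 2048, 0, []⟩

theorem kx68_30 : chk gx68_30 T400 [
  ⟨498, 120, 600, 240, 148, false, true, false, [(0, 1), (3, 3), (22, 2), (10, 1), (11, 1), (12, 2), (13, 2), (14, 2)], []⟩,
  ⟨742, 120, 720, 104, 240, false, false, false, [(0, 1), (3, 5), (7, 1), (3, 4), (13, 1), (14, 2), (3, 9)], []⟩,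
  ⟨861, 120, 720, 104, 224, false, false, false, [(0, 1), (3, 22)], []⟩,
  ⟨944, 120, 600, 160, 168, false, false, false, [(0, 1), (3, 18)], []⟩,
  ⟨1002, 120, 480, 224, 120, false, true, false, [(0, 1), (3, 14)], []⟩,
  ⟨1060, 120, 0, 256, 145, true, true, false, [(0, 1), (3, 12)], []⟩,
  ⟨1118, 120, 0, 256, 145, true, true, false, [(0, 1), (3, 12)], []⟩,
  ⟨1176, 120, 0, 256, 145, true, true, false, [(0, 1), (3, 12)], []⟩,
  ⟨1234, 120, 0, 240, 132, true, true, false, [(0, 1), (3, 13)], []⟩,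
  ⟨1317, 120, 0, 240, 132, true, true, false, [(0, 2), (3, 12)], []⟩,
  ⟨1400, 120, 0, 240, 132, true, true, false, [(0, 2), (3, 12)], []⟩,
  ⟨1458, 120, 0, 240, 132, true, true, false, [(0, 2), (3, 12)], []⟩,
  ⟨1516, 120, 0, 224, 120, true, true, false, [(0, 2), (3, 13)], []⟩,
  ⟨1574, 120, 0, 224, 120, true, true, false, [(0, 2), (3, 13)], []⟩,
  ⟨1632, 120, 0, 224, 120, true, true, false, [(0, 3), (3, 12)], []⟩,
  ⟨1689, 120, 0, 224, 120, true, true, false, [(0, 3), (3, 12)], []⟩,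
  ⟨1729, 120, 0, 224, 120, true, true, false, [(0, 5), (3, 10)], []⟩,
  ⟨1757, 120, 0, 208, 109, true, true, false, [(0, 7), (3, 9)], []⟩,
  ⟨1785, 120, 0, 208, 109, true, true, false, [(0, 12), (3, 4)], []⟩,
  ⟨1843, 120, 0, 208, 109, true, true, false, [(0, 16)], []⟩,
  ⟨2006, 120, 0, 192, 98, true, true, false, [(0, 17)], []⟩,
  ⟨2459, 120, 0, 160, 78, true, true, false, [(0, 19)], []⟩,
  ⟨4208, 120, 0, 44, 19, true, true, false, [(0, 27)], []⟩,
  ⟨7192, 120, 0, 0, 0, true, false, false, [(0, 30)], []⟩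
  ] = true := by decide +kernel

def gx69_42 : Gr := ⟨false, 614, 615, 1024, 1024, 69, 69, 8505, 8506, 0, 1709, 0, []⟩

theorem kx69_42 : chk gx69_42 T575 [
  ⟨978, 120, 600, 288, 288, false, false, false, [(0, 1), (3, 3), (33, 2), (15, 1), (16, 1), (17, 2), (18, 2), (19, 2), (20, 1), (21, 2), (22, 2), (23, 2), (24, 2)], []⟩,
  ⟨1663, 120, 600, 144, 264, false, false, false, [(0, 1), (3, 4), (10, 2), (3, 1), (11, 2), (3, 1), (12, 3), (13, 3), (22, 2), (23, 2), (24, 2), (25, 1), (3, 9)], []⟩,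
  ⟨2142, 120, 0, 256, 145, true, true, true, [(0, 2), (3, 4), (4, 1), (3, 6), (12, 1), (3, 2), (13, 1), (3, 1), (22, 1), (23, 2), (24, 2)], [(25, 1), (3, 1)]⟩,
  ⟨2477, 120, 0, 240, 132, true, true, false, [(0, 3), (3, 19), (24, 1), (3, 3)], []⟩,
  ⟨2948, 120, 0, 208, 109, true, true, false, [(0, 29)], []⟩,
  ⟨4244, 120, 0, 96, 44, true, true, false, [(0, 36)], []⟩,
  ⟨7807, 120, 0, 0, 0, true, false, false, [(0, 43)], []⟩,
  ⟨8526, 120, 0, 0, 0, true, false, false, [(0, 43)], []⟩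
  ] = true := by decide +kernel

def gx70_48 : Gr := ⟨false, 563, 564, 1024, 1024, 70, 72, 8567, 8689, 0, 1864, 0, []⟩

theorem kx70_48 : chk gx70_48 T525 [
  ⟨698, 120, 720, 112, 336, false, false, false, [(0, 1), (3, 3), (29, 2), (13, 1), (14, 1), (15, 2), (16, 2), (17, 2), (18, 2), (19, 1), (20, 2), (21, 2), (3, 11)], []⟩,
  ⟨1186, 120, 720, 128, 284, false, true, false, [(0, 1), (3, 4), (9, 2), (3, 1), (10, 2), (3, 1), (11, 3), (18, 2), (19, 1), (20, 2), (21, 2), (3, 10)], []⟩,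
  ⟨1528, 120, 600, 144, 237, false, true, false, [(0, 1), (3, 5), (9, 1), (3, 6), (11, 1), (3, 2), (12, 1), (20, 2), (3, 1), (21, 1), (3, 9)], []⟩,
  ⟨1767, 120, 0, 256, 145, true, true, true, [(0, 2), (3, 19)], [(3, 1)]⟩,
  ⟨2006, 120, 0, 240, 132, true, true, false, [(0, 2), (3, 21)], []⟩,
  ⟨2245, 120, 0, 240, 132, true, true, false, [(0, 3), (3, 20)], []⟩,
  ⟨2412, 120, 0, 240, 132, true, true, false, [(0, 23)], []⟩,
  ⟨2876, 120, 0, 192, 98, true, true, false, [(0, 27)], []⟩,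
  ⟨4155, 120, 0, 72, 32, true, true, false, [(0, 35)], []⟩,
  ⟨7669, 120, 0, 0, 0, true, false, false, [(0, 40)], []⟩,
  ⟨8712, 120, 0, 0, 0, true, false, false, [(0, 40)], []⟩
  ] = true := by decide +kernel

def gx73_25 : Gr := ⟨false, 435, 436, 1024, 1024, 73, 75, 8749, 8869, 0, 2048, 0, []⟩

theorem kx73_25 : chk gx73_25 T400 [
  ⟨498, 120, 720, 64, 296, false, false, false, [(0, 1), (3, 3), (22, 2), (10, 1), (11, 2), (12, 1), (13, 2), (14, 2), (15, 2), (3, 11)], []⟩,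
  ⟨742, 120, 720, 104, 240, false, false, false, [(0, 1), (3, 11), (14, 2), (3, 10)], []⟩,
  ⟨912, 120, 720, 104, 224, false, false, false, [(0, 1), (3, 23)], []⟩,
  ⟨1031, 120, 600, 160, 160, false, false, false, [(0, 1), (3, 19)], []⟩,
  ⟨1150, 120, 0, 256, 145, true, true, false, [(0, 1), (3, 12)], []⟩,
  ⟨1269, 120, 0, 256, 145, true, true, false, [(0, 1), (3, 12)], []⟩,
  ⟨1352, 120, 0, 256, 145, true, true, false, [(0, 2), (3, 11)], []⟩,
  ⟨1410, 120, 0, 224, 120, true, true, false, [(0, 2), (3, 14)], []⟩,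
  ⟨1468, 120, 0, 224, 120, true, true, false, [(0, 2), (3, 14)], []⟩,
  ⟨1526, 120, 0, 224, 120, true, true, false, [(0, 2), (3, 14)], []⟩,
  ⟨1584, 120, 0, 224, 120, true, true, false, [(0, 2), (3, 14)], []⟩,
  ⟨1642, 120, 0, 224, 120, true, true, false, [(0, 2), (3, 14)], []⟩,
  ⟨1700, 120, 0, 224, 120, true, true, false, [(0, 3), (3, 13)], []⟩,
  ⟨1741, 120, 0, 224, 120, true, true, false, [(0, 3), (3, 13)], []⟩,
  ⟨1782, 120, 0, 208, 109, true, true, false, [(0, 4), (3, 13)], []⟩,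
  ⟨1810, 120, 0, 208, 109, true, true, false, [(0, 6), (3, 11)], []⟩,
  ⟨1838, 120, 0, 208, 109, true, true, false, [(0, 9), (3, 8)], []⟩,
  ⟨1879, 120, 0, 208, 109, true, true, false, [(0, 17)], []⟩,
  ⟨1962, 120, 0, 208, 109, true, true, false, [(0, 17)], []⟩,
  ⟨2194, 120, 0, 176, 88, true, true, false, [(0, 19)], []⟩,
  ⟨2836, 120, 0, 120, 56, true, true, false, [(0, 23)], []⟩,
  ⟨6302, 120, 0, 0, 0, true, false, false, [(0, 32)], []⟩,
  ⟨7553, 120, 0, 0, 0, true, false, false, [(0, 32)], []⟩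
  ] = true := by decide +kernel

def gx73_37 : Gr := ⟨false, 563, 564, 1024, 1024, 73, 75, 8749, 8869, 0, 1864, 0, []⟩

theorem kx73_37 : chk gx73_37 T525 [
  ⟨698, 120, 600, 288, 288, false, false, false, [(0, 1), (3, 3), (29, 2), (13, 1), (14, 2), (15, 1), (16, 2), (17, 2), (18, 2), (19, 2), (20, 2)], []⟩,
  ⟨1186, 120, 720, 112, 296, false, false, false, [(0, 1), (3, 4), (9, 2), (3, 1), (10, 2), (3, 1), (11, 3), (18, 2), (19, 2), (20, 2), (21, 1), (3, 12)], []⟩,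
  ⟨1528, 120, 600, 128, 252, false, true, false, [(0, 1), (3, 12), (11, 1), (3, 3), (19, 1), (20, 2), (3, 12)], []⟩,
  ⟨1767, 120, 0, 256, 145, true, true, false, [(0, 2), (3, 17), (20, 1), (3, 3)], []⟩,
  ⟨2006, 120, 0, 240, 132, true, true, false, [(0, 2), (3, 22)], []⟩,
  ⟨2245, 120, 0, 240, 132, true, true, false, [(0, 3), (3, 21)], []⟩,
  ⟨2412, 120, 0, 224, 120, true, true, false, [(0, 25)], []⟩,
  ⟨2876, 120, 0, 192, 98, true, true, false, [(0, 27)], []⟩,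
  ⟨4155, 120, 0, 80, 36, true, true, false, [(0, 35)], []⟩,
  ⟨7669, 120, 0, 0, 0, true, false, false, [(0, 41)], []⟩,
  ⟨8893, 120, 0, 0, 0, true, false, false, [(0, 41)], []⟩
  ] = true := by decide +kernel

def gx76_37 : Gr := ⟨false, 563, 564, 1024, 1024, 76, 78, 8927, 9044, 0, 1864, 0, []⟩

theorem kx76_37 : chk gx76_37 T525 [
  ⟨978, 120, 600, 240, 212, false, true, false, [(0, 1), (3, 3), (29, 3), (14, 2), (15, 2), (16, 2), (17, 1), (18, 2), (19, 2), (20, 2), (21, 2), (22, 2)], []⟩,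
  ⟨1457, 120, 720, 144, 248, false, false, false, [(0, 1), (3, 5), (9, 1), (3, 2), (10, 2), (3, 1), (11, 2), (3, 1), (18, 1), (19, 2), (20, 2), (21, 2), (3, 9)], []⟩,
  ⟨1792, 120, 0, 256, 145, true, true, true, [(0, 2), (3, 17), (20, 1), (3, 1), (21, 1)], [(3, 1)]⟩,
  ⟨2127, 120, 0, 240, 132, true, true, false, [(0, 2), (3, 22)], []⟩,
  ⟨2362, 120, 0, 240, 132, true, true, false, [(0, 4), (3, 20)], []⟩,
  ⟨2692, 120, 0, 208, 109, true, true, false, [(0, 27)], []⟩,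
  ⟨3602, 120, 0, 120, 56, true, true, false, [(0, 33)], []⟩,
  ⟨7104, 120, 0, 0, 0, true, false, false, [(0, 42)], []⟩,
  ⟨9068, 120, 0, 0, 0, true, false, false, [(0, 42)], []⟩
  ] = true := by decide +kernel

def gx81_9 : Gr := ⟨false, 332, 333, 1024, 1024, 81, 85, 9216, 9441, 128, 2048, 0, []⟩

theorem kx81_9 : chk gx81_9 T300 [
  ⟨500, 120, 720, 60, 219, false, true, false, [(0, 1), (3, 20)], []⟩,
  ⟨589, 120, 600, 88, 184, false, false, false, [(0, 1), (3, 18)], []⟩,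
  ⟨678, 120, 480, 192, 98, false, true, false, [(0, 1), (3, 10)], []⟩,
  ⟨740, 120, 480, 192, 98, false, true, false, [(0, 1), (3, 10)], []⟩,
  ⟨783, 120, 0, 224, 120, true, true, false, [(0, 1), (3, 8)], []⟩,
  ⟨845, 120, 0, 224, 120, true, true, false, [(0, 1), (3, 8)], []⟩,
  ⟨907, 120, 0, 208, 109, true, true, false, [(0, 1), (3, 9)], []⟩,
  ⟨995, 120, 0, 208, 109, true, true, false, [(0, 1), (3, 9)], []⟩,
  ⟨1083, 120, 0, 208, 109, true, true, false, [(0, 1), (3, 9)], []⟩,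
  ⟨1171, 120, 0, 208, 109, true, true, false, [(0, 1), (3, 9)], []⟩,
  ⟨1259, 120, 0, 192, 98, true, true, false, [(0, 2), (3, 9)], []⟩,
  ⟨1347, 120, 0, 192, 98, true, true, false, [(0, 2), (3, 9)], []⟩,
  ⟨1435, 120, 0, 192, 98, true, true, false, [(0, 3), (3, 8)], []⟩,
  ⟨1496, 120, 0, 192, 98, true, true, false, [(0, 11)], []⟩,
  ⟨1619, 120, 0, 192, 98, true, true, false, [(0, 11)], []⟩,
  ⟨1793, 120, 0, 160, 78, true, true, false, [(0, 14)], []⟩,
  ⟨2274, 120, 0, 128, 60, true, true, false, [(0, 16)], []⟩,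
  ⟨4877, 120, 0, 24, 11, true, true, false, [(0, 24)], []⟩,
  ⟨6141, 120, 0, 0, 0, true, false, false, [(0, 26)], []⟩
  ] = true := by decide +kernel

def gx81_39 : Gr := ⟨false, 614, 615, 1024, 1024, 81, 85, 9216, 9441, 0, 1709, 0, []⟩

theorem kx81_39 : chk gx81_39 T575 [
  ⟨978, 120, 720, 160, 320, false, false, false, [(0, 1), (3, 3), (33, 3), (16, 2), (17, 2), (18, 2), (19, 2), (20, 2), (21, 2), (22, 2), (23, 2), (24, 1), (25, 2), (3, 9)], []⟩,
  ⟨1663, 120, 600, 160, 262, false, true, false, [(0, 1), (3, 5), (10, 1), (3, 1), (11, 3), (12, 4), (13, 4), (22, 2), (23, 2), (24, 1), (25, 2), (3, 9)], []⟩,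
  ⟨2348, 120, 0, 240, 132, true, true, true, [(0, 2), (3, 8), (5, 1), (3, 2), (12, 2), (3, 2), (13, 2), (22, 2), (23, 2), (24, 1), (25, 2)], [(3, 1), (26, 1), (3, 1)]⟩,
  ⟨2827, 120, 0, 240, 132, true, true, true, [(0, 10), (5, 1), (0, 2), (6, 2), (0, 2), (7, 2), (0, 1), (22, 1), (8, 1), (14, 1), (24, 1), (25, 2), (26, 2)], [(27, 1)]⟩,
  ⟨3769, 120, 0, 160, 78, true, true, false, [(0, 35)], []⟩,
  ⟨7396, 120, 0, 0, 0, true, false, false, [(0, 48)], []⟩,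
  ⟨9464, 120, 0, 0, 0, true, false, false, [(0, 48)], []⟩
  ] = true := by decide +kernel

def gx86_23 : Gr := ⟨false, 435, 436, 1024, 1024, 86, 90, 9496, 9715, 0, 2048, 0, []⟩

theorem kx86_23 : chk gx86_23 T400 [
  ⟨498, 120, 720, 44, 316, false, false, false, [(0, 1), (3, 4), (22, 2), (11, 2), (12, 2), (13, 2), (14, 2), (15, 2), (3, 14)], []⟩,
  ⟨846, 120, 720, 96, 244, false, true, false, [(0, 1), (3, 9), (8, 1), (3, 1), (13, 1), (14, 2), (3, 1), (15, 1), (3, 10)], []⟩,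
  ⟨1090, 120, 720, 120, 200, false, false, false, [(0, 1), (3, 13), (14, 1), (3, 10)], []⟩,
  ⟨1260, 120, 600, 120, 184, false, false, false, [(0, 1), (3, 24)], []⟩,
  ⟨1430, 120, 0, 240, 132, true, true, false, [(0, 1), (3, 15)], []⟩,
  ⟨1600, 120, 0, 224, 120, true, true, false, [(0, 2), (3, 15)], []⟩,
  ⟨1770, 120, 0, 224, 120, true, true, false, [(0, 2), (3, 15)], []⟩,
  ⟨1889, 120, 0, 224, 120, true, true, false, [(0, 3), (3, 14)], []⟩,
  ⟨1972, 120, 0, 208, 109, true, true, false, [(0, 5), (3, 14)], []⟩,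
  ⟨2055, 120, 0, 192, 98, true, true, false, [(0, 20)], []⟩,
  ⟨2289, 120, 0, 176, 88, true, true, false, [(0, 21)], []⟩,
  ⟨2935, 120, 0, 120, 56, true, true, false, [(0, 25)], []⟩,
  ⟨6424, 120, 0, 0, 0, true, false, false, [(0, 35)], []⟩,
  ⟨8273, 120, 0, 0, 0, true, false, false, [(0, 35)], []⟩
  ] = true := by decide +kernel

def gx86_26 : Gr := ⟨false, 486, 487, 1024, 1024, 86, 90, 9496, 9715, 0, 2048, 0, []⟩

theorem kx86_26 : chk gx86_26 T450 [
  ⟨698, 120, 720, 96, 296, false, false, false, [(0, 1), (3, 4), (25, 2), (12, 2), (13, 2), (14, 2), (15, 2), (16, 2), (17, 2), (18, 1), (3, 11)], []⟩,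
  ⟨1178, 120, 720, 96, 256, false, false, false, [(0, 1), (3, 5), (8, 1), (3, 2), (9, 2), (3, 2), (15, 2), (16, 2), (17, 2), (3, 12)], []⟩,
  ⟨1413, 120, 600, 160, 176, false, false, false, [(0, 1), (3, 25)], []⟩,
  ⟨1648, 120, 0, 240, 132, true, true, false, [(0, 2), (3, 18)], []⟩,
  ⟨1883, 120, 0, 224, 120, true, true, false, [(0, 2), (3, 19)], []⟩,
  ⟨2118, 120, 0, 224, 120, true, true, false, [(0, 3), (3, 18)], []⟩,
  ⟨2282, 120, 0, 224, 120, true, true, false, [(0, 21)], []⟩,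
  ⟨2738, 120, 0, 176, 88, true, true, false, [(0, 25)], []⟩,
  ⟨3994, 120, 0, 72, 32, true, true, false, [(0, 33)], []⟩,
  ⟨7445, 120, 0, 0, 0, true, false, false, [(0, 39)], []⟩,
  ⟨9241, 120, 0, 0, 0, true, false, false, [(0, 39)], []⟩
  ] = true := by decide +kernel

def gx91_12 : Gr := ⟨false, 358, 359, 1024, 1024, 91, 95, 9768, 9981, 0, 2048, 0, []⟩

theorem kx91_12 : chk gx91_12 T325 [
  ⟨498, 120, 600, 192, 122, false, true, false, [(0, 1), (3, 4), (15, 2), (6, 1), (7, 2), (8, 2), (9, 2)], []⟩,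
  ⟨668, 120, 720, 80, 208, false, false, false, [(0, 1), (3, 22)], []⟩,
  ⟨836, 120, 600, 192, 98, false, true, false, [(0, 1), (3, 13)], []⟩,
  ⟨953, 120, 0, 224, 120, true, true, false, [(0, 1), (3, 10)], []⟩,
  ⟨1070, 120, 0, 224, 120, true, true, false, [(0, 1), (3, 10)], []⟩,
  ⟨1187, 120, 0, 224, 120, true, true, false, [(0, 1), (3, 10)], []⟩,
  ⟨1304, 120, 0, 224, 120, true, true, false, [(0, 1), (3, 10)], []⟩,
  ⟨1421, 120, 0, 192, 98, true, true, false, [(0, 2), (3, 12)], []⟩,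
  ⟨1538, 120, 0, 192, 98, true, true, false, [(0, 2), (3, 12)], []⟩,
  ⟨1655, 120, 0, 192, 98, true, true, false, [(0, 3), (3, 11)], []⟩,
  ⟨1737, 120, 0, 192, 98, true, true, false, [(0, 14)], []⟩,
  ⟨1967, 120, 0, 176, 88, true, true, false, [(0, 15)], []⟩,
  ⟨2604, 120, 0, 128, 60, true, true, false, [(0, 19)], []⟩,
  ⟨6045, 120, 0, 2, 1, true, true, false, [(0, 29)], []⟩,
  ⟨6999, 120, 0, 0, 0, true, false, false, [(0, 30)], []⟩
  ] = true := by decide +kernel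

def gx91_24 : Gr := ⟨false, 486, 487, 1024, 1024, 91, 95, 9768, 9981, 0, 2048, 0, []⟩

theorem kx91_24 : chk gx91_24 T450 [
  ⟨978, 120, 600, 256, 145, false, true, false, [(0, 1), (3, 4), (25, 2), (11, 1), (12, 2), (13, 2), (14, 2), (15, 2), (16, 2), (17, 1)], []⟩,
  ⟨1449, 120, 720, 120, 216, false, false, false, [(0, 1), (3, 6), (8, 1), (3, 2), (9, 2), (3, 2), (10, 2), (16, 2), (17, 2), (3, 10)], []⟩,
  ⟨1773, 120, 0, 256, 145, true, true, false, [(0, 2), (3, 15), (16, 1), (3, 1)], []⟩,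
  ⟨2097, 120, 0, 224, 120, true, true, false, [(0, 2), (3, 20)], []⟩,
  ⟨2255, 120, 0, 192, 98, true, true, false, [(0, 4), (3, 20)], []⟩,
  ⟨2695, 120, 0, 192, 98, true, true, false, [(0, 24)], []⟩,
  ⟨3907, 120, 0, 96, 44, true, true, false, [(0, 32)], []⟩,
  ⟨7237, 120, 0, 0, 0, true, false, false, [(0, 40)], []⟩,
  ⟨9494, 120, 0, 0, 0, true, false, false, [(0, 40)], []⟩
  ] = true := by decide +kernel

end Pool.Agent.Lib.MP_af3a4a_an.P1.CHK.H81.L
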