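import Pool.Agent.Lib.MP_af3a4a_an.P1.CHK.H58.GD

/-!
# The general checker with lines (helper81)

As `CHK.H58.G` (whose `Gr`, `En` and node functions are used), with a table of lines
`(X0, X, c, g)`: `|q(x)| ≤ exp(-N ((c / 1024) x² / ρ + (g / 1024) x m₁))` for
`X0 / 1024 ≤ x ≤ X / 1024`. The type `4 + i` is the line number `i`.
-/

set_option autoImplicit false

namespace Pool.Agent.Lib.MP_af3a4a_an.P1.CHK.H81.L

open Pool.Agent.Lib.MP_af3a4a_an.P1.CHK.Arith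
open Pool.Agent.Lib.MP_af3a4a_an.P1.CHK.H58.G

def lk : List (ℕ × ℕ × ℕ × ℕ) → ℕ → ℕ × ℕ × ℕ × ℕ
  | [], _ => (0, 0, 0, 0)
  | p :: _, 0 => p
  | _ :: l, n + 1 => lk l n

/-- the node of a line -/
def eL (c gg k0 h s : ℕ) : ℕ :=
  ev (h * h * c * 256 + 1) fun p =>
    es p (Nat.min (s * s * c * 1024 + gg * k0 * s * 1024) (p + 70368744177664))

def ndL (g : Gr) (Sm fU cU k0 h ty c gg : ℕ) : ℕ → ℕ :=
  bif Nat.ble ty 3 then ndf g Sm fU cU k0 h ty 0 else eL c gg k0 h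

/-- the type `ty` is valid from `s0` to `s` -/
def vlL (g : Gr) (fU cU ty X0 X s0 s : ℕ) : Bool :=
  bif Nat.ble ty 3 then vld g fU cU ty 0 s else
    Nat.ble (X0 * g.Bb) (s0 * 1024) && Nat.ble (s * 1024) (X * g.Ba)

def run (g : Gr) (L : List (ℕ × ℕ × ℕ × ℕ)) (Kf : ℕ → ℕ → ℕ) (Sm fU cU k0 h th sc : ℕ) :
    List (ℕ × ℕ) → ℕ → ℕ → ℕ → ℕ → (ℕ → ℕ → ℕ → ℕ → Bool) → Bool
  | [], s, T, U, V, k => k s T U V
  | it :: l, s0, T, U, V, k =>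
    ev (lk L (it.1 - 4)).1 fun X0 => ev (lk L (it.1 - 4)).2.1 fun X =>
    ev (lk L (it.1 - 4)).2.2.1 fun c => ev (lk L (it.1 - 4)).2.2.2 fun gg =>
    seg (ndL g Sm fU cU k0 h it.1 c gg) Kf h th sc it.2 s0
      (ndL g Sm fU cU k0 h it.1 c gg s0) T U V
      fun s T U V => vlL g fU cU it.1 X0 X s0 s &&
        run g L Kf Sm fU cU k0 h th sc l s T U V k

def runT (g : Gr) (L : List (ℕ × ℕ × ℕ × ℕ)) (Sm fU cU k0 h : ℕ) :
    List (ℕ × ℕ) → ℕ → ℕ → (ℕ → ℕ → Bool) → Bool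
  | [], s, Q, k => k s Q
  | it :: l, s0, Q, k =>
    ev (lk L (it.1 - 4)).1 fun X0 => ev (lk L (it.1 - 4)).2.1 fun X =>
    ev (lk L (it.1 - 4)).2.2.1 fun c => ev (lk L (it.1 - 4)).2.2.2 fun gg =>
    segT (ndL g Sm fU cU k0 h it.1 c gg) h it.2 s0 (ndL g Sm fU cU k0 h it.1 c gg s0) Q
      fun s Q => vlL g fU cU it.1 X0 X s0 s &&
        runT g L Sm fU cU k0 h l s Q k

/-- one cell in `κ` -/
def one (g : Gr) (L : List (ℕ × ℕ × ℕ × ℕ)) (k0 : ℕ) (e : En) : Bool :=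
  ev (mxU g e.k1) fun mx => ev (Nat.min (1048576 + 2 * mx) (g.r1 * 1024)) fun Sm =>
  ev ((g.R0 - 1024) * 1048576 / g.R0) fun gp =>
  ev ((3 * g.R1 + (1048576 / g.R0 + 1) - 2048) * mx / 1024 + 1) fun gn =>
  ev (Nat.min 1048576 (isq (mx * 2147483648 / g.R0 + 1))) fun rho =>
  ev (Nat.min 1048576 (mx * 2048 / g.R0 + 1)) fun rho2 =>
  ev (Nat.min (g.fx * 1024) (mx * 1024 / g.R0 + 1)) fun fU => ev (cW fU) fun cU =>
  ev e.h fun h => ev e.th fun th => ev ((g.R0 - e.sg) * g.Ba / 1024) fun sc =>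
  Nat.ble 1 h && (Nat.ble (e.sg + 1) g.R0 &&
  run g L (fun s s' => bif e.q then kapQ g.r1 mx rho2 g.Ba g.Bb s s'
      else kapM g.hi g.R1 g.r1 mx gp gn g.Ba g.Bb s s') Sm fU cU k0 h th sc e.a
    0 1099511627776 0 0 fun s T U V =>
  Nat.ble (1024 * s) (1000 * g.Ba) && (
  bif e.t then
    Nat.ble s sc && runT g L Sm fU cU k0 h e.b s 0 fun s2 Q =>
      Nat.ble (g.R1 - e.sg) (s2 * 1024 / g.Bb) &&
        fin g e mx Sm rho th ((g.Na + 1) * g.r1 * g.Bb * Q / (g.Na * 2147483648) + 1) T U V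
  else Nat.ble g.R1 (s * 1024 / g.Bb + e.sg) && fin g e mx Sm rho th 0 T U V))

def goK (g : Gr) (L : List (ℕ × ℕ × ℕ × ℕ)) : ℕ → List En → Bool
  | k0, [] => Nat.ble (g.fx * g.R1 * g.r1 * g.Bb / 1073741824 + 1) k0
  | k0, e :: l => one g L k0 e && goK g L e.k1 l

/-- **the checker of a group** -/
def chk (g : Gr) (L : List (ℕ × ℕ × ℕ × ℕ)) (l : List En) : Bool :=
  Nat.ble 1 g.R0 && (Nat.ble g.R0 g.R1 && (Nat.ble 1 g.Ba && (Nat.ble 1 g.Bb &&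
    (Nat.ble 40 g.Na && (
    (bif g.hi then Nat.ble 1024 g.R0 && (Nat.beq g.r0 g.R0 && Nat.beq g.r1 g.R1) else
      Nat.ble g.R1 1024 && (Nat.beq g.r0 1024 && Nat.beq g.r1 1024)) && (
    Nat.ble (g.r1 * (g.Ba * g.Ba)) (g.Na * 1073741824) && (
    Nat.ble (g.Nb * 1073741824) (g.r0 * (g.Bb * g.Bb)) &&
    ev (g.f0 * g.R0 * g.r0 * g.Ba / 1073741824) fun k0 => goK g L k0 l)))))))

end Pool.Agent.Lib.MP_af3a4a_an.P1.CHK.H81.L
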