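import Pool.Agent.Lib.MP_af3a4a_an.P1.CHK.H58.GW
import Pool.Agent.Lib.MP_af3a4a_an.P1.CHK.H81.LD

/-!
# The general checker with lines is sound (helper81, after helper58)
-/

set_option autoImplicit false

namespace Pool.Agent.Lib.MP_af3a4a_an.P1.CHK.H81.L

open Finset MeasureTheory ComplexConjugate
open Pool.Agent.Lib.MP_af3a4a_an.SV (uu av)
open Pool.Agent.Lib.MP_af3a4a_an.P1.H80
open Pool.Agent.Lib.MP_af3a4a_an.P1.H74
open Pool.Agent.Lib.MP_af3a4a_an.P1.H81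
open Pool.Agent.Lib.MP_af3a4a_an.P1.CHK.Arith
open Pool.Agent.Lib.MP_af3a4a_an.P1.CHK.H58.M (kM kM_nonneg kM_cont le_of_sq_le_sq' CellQ node_le exp_chord)
open Pool.Agent.Lib.MP_af3a4a_an.P1.CHK.H58.G hiding run runT one goK chk Cells run_sound
  runT_sound one_sound goK_sound chk_sound

/-- the profiles of the lines -/
def ProfL (N : ℕ) (w : Fin N → ℂ) (ρ : ℝ) (L : List (ℕ × ℕ × ℕ × ℕ)) : Prop :=
  ∀ p ∈ L, ∀ x ∈ Set.Icc ((p.1 : ℝ) / 1024) ((p.2.1 : ℝ) / 1024), ‖qq (uu w) x‖ ≤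
    Real.exp (-(N * ((p.2.2.1 : ℝ) / 1024 * x ^ 2 / ρ +
      (p.2.2.2 : ℝ) / 1024 * x * (av (uu w)).re)))

/-- the cell of a line -/
theorem cellL {N : ℕ} {w : Fin N → ℂ} {ρ β : ℝ} (hρ : 0 < ρ) (hβ : 0 < β) (hN : β ^ 2 * ρ = N)
    {c gg k0 : ℕ} {X Y : ℝ} (hC : ∀ x ∈ Set.Icc X Y, ‖qq (uu w) x‖ ≤
      Real.exp (-(N * ((c : ℝ) / 1024 * x ^ 2 / ρ + (gg : ℝ) / 1024 * x * (av (uu w)).re))))
    (hk : (k0 : ℝ) / 2 ^ 10 ≤ (av (uu w)).re * ρ * β)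
    (h j : ℕ) (hj0 : X ≤ (j : ℝ) / 2 ^ 10 / β) (hj : ((j + h : ℕ) : ℝ) / 2 ^ 10 / β ≤ Y) :
    CellQ N (uu w) β (eL c gg k0 h) h j := by
  intro τ hτ
  obtain ⟨s0, hs0⟩ : ∃ s0, s0 = (j : ℝ) / 2 ^ 10 := ⟨_, rfl⟩
  obtain ⟨s1, hs1⟩ : ∃ s1, s1 = ((j + h : ℕ) : ℝ) / 2 ^ 10 := ⟨_, rfl⟩
  obtain ⟨H, hH⟩ : ∃ H, H = (h : ℝ) / 2 ^ 10 := ⟨_, rfl⟩
  obtain ⟨C, hCd⟩ : ∃ C, C = (c : ℝ) / 1024 := ⟨_, rfl⟩
  obtain ⟨G, hGd⟩ : ∃ G, G = (gg : ℝ) / 1024 := ⟨_, rfl⟩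
  obtain ⟨K, hKd⟩ : ∃ K, K = (k0 : ℝ) / 2 ^ 10 := ⟨_, rfl⟩
  rw [← hCd, ← hGd] at hC
  rw [← hKd] at hk
  have hC0 : 0 ≤ C := by rw [hCd]; positivity
  have hG0 : 0 ≤ G := by rw [hGd]; positivity
  have hK0 : 0 ≤ K := by rw [hKd]; positivity
  have h0 : 0 ≤ s0 := by rw [hs0]; positivity
  have h1 : 0 ≤ s1 := by rw [hs1]; positivity
  have hs10 : s1 - s0 = H := by rw [hs1, hs0, hH]; push_cast; ring
  have hH0 : 0 ≤ H := by rw [hH]; positivity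
  have hnode : ∀ i : ℕ, Real.exp (-(C * ((i : ℝ) / 2 ^ 10) ^ 2 + G * K * ((i : ℝ) / 2 ^ 10) -
      C * H ^ 2 / 4)) ≤ (eL c gg k0 h i : ℝ) / 2 ^ 40 := by
    intro i
    unfold eL
    rw [ev_eq]
    apply node_le
    have h4 : C * H ^ 2 / 4 = ((h * h * c * 256 : ℕ) : ℝ) / 2 ^ 40 := by
      rw [hH, hCd]; push_cast; ring
    have h5 : C * ((i : ℝ) / 2 ^ 10) ^ 2 + G * K * ((i : ℝ) / 2 ^ 10) =
        ((i * i * c * 1024 + gg * k0 * i * 1024 : ℕ) : ℝ) / 2 ^ 40 := by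
      rw [hCd, hGd, hKd]; push_cast; ring
    rw [h4, h5, Nat.cast_add (h * h * c * 256) 1, add_div]
    have : (0 : ℝ) ≤ ((1 : ℕ) : ℝ) / 2 ^ 40 := by positivity
    linarith
  rw [← hs0, ← hs1]
  rw [← hs1] at hj
  rw [← hs0] at hj0
  obtain ⟨s, hs⟩ : ∃ s, s = s0 + τ * (s1 - s0) := ⟨_, rfl⟩
  have hsc : s = (1 - τ) * s0 + τ * s1 := by rw [hs]; ring
  have hτ1 := sub_nonneg.2 hτ.2
  have hτ0 := hτ.1
  have hs_0 : 0 ≤ s := by
    rw [hsc]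
    positivity
  have hs_00 : s0 ≤ s := by
    have : 0 ≤ τ * (s1 - s0) := by
      rw [hs10]; positivity
    rw [hs]
    linarith
  have hs_1 : s ≤ s1 := by
    have : 0 ≤ (1 - τ) * (s1 - s0) := by
      rw [hs10]; positivity
    rw [hs]
    linarith
  have hx : s / β ≤ Y := (div_le_div_of_nonneg_right hs_1 hβ.le).trans hj
  have hx0 : X ≤ s / β := hj0.trans (div_le_div_of_nonneg_right hs_00 hβ.le)
  have hq := hC _ ⟨hx0, hx⟩
  have hm : G * K * s ≤ N * (G * (s / β) * (av (uu w)).re) := by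
    have e1 : (N : ℝ) * (G * (s / β) * (av (uu w)).re) = G * ((av (uu w)).re * ρ * β) * s := by
      rw [← hN]
      field_simp
    rw [e1]
    exact mul_le_mul_of_nonneg_right (mul_le_mul_of_nonneg_left hk hG0) hs_0
  refine exp_chord (f0 := C * s0 ^ 2 + G * K * s0 - C * H ^ 2 / 4)
    (f1 := C * s1 ^ 2 + G * K * s1 - C * H ^ 2 / 4)
    hτ.1 hτ.2 (by rw [← hs]; exact hq) ?_
    (by rw [hs0]; exact hnode j) (by rw [hs1]; exact hnode (j + h))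
  have e1 : (N : ℝ) * (C * (s / β) ^ 2 / ρ + G * (s / β) * (av (uu w)).re) =
      C * s ^ 2 + N * (G * (s / β) * (av (uu w)).re) := by
    rw [← hN]
    field_simp
  rw [e1]
  have h9 := sq_conv hs hs10
  have h10 : C * (τ * (1 - τ) * H ^ 2) ≤ C * H ^ 2 / 4 := by
    have := mul_le_mul_of_nonneg_left
      (mul_le_mul_of_nonneg_right (tau_le (τ := τ)) (sq_nonneg H)) hC0
    linarith
  have h11 : C * s ^ 2 = (1 - τ) * (C * s0 ^ 2) + τ * (C * s1 ^ 2) - C * (τ * (1 - τ) * H ^ 2) := by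
    rw [h9]
    ring
  have h12 : G * K * s = (1 - τ) * (G * K * s0) + τ * (G * K * s1) := by
    rw [hsc]
    ring
  linarith

theorem lk_mem (l : List (ℕ × ℕ × ℕ × ℕ)) (i : ℕ) : lk l i ∈ l ∨ lk l i = (0, 0, 0, 0) := by
  induction l generalizing i with
  | nil => right; rfl
  | cons p l ih =>
    cases i with
    | zero => left; simp [lk]
    | succ i =>
      rcases ih i with h | h
      · left; simp only [lk]; exact List.mem_cons_of_mem _ h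
      · right; simp only [lk]; exact h

/-- all items are cells -/
def Cells (N : ℕ) (u : Fin N → ℂ) (β : ℝ) (g : Gr) (L : List (ℕ × ℕ × ℕ × ℕ))
    (Sm fU cU k0 h : ℕ) : Prop :=
  ∀ ty s0 s : ℕ, vlL g fU cU ty (lk L (ty - 4)).1 (lk L (ty - 4)).2.1 s0 s = true →
    ∀ j, s0 ≤ j → j + h ≤ s → CellQ N u β
      (ndL g Sm fU cU k0 h ty (lk L (ty - 4)).2.2.1 (lk L (ty - 4)).2.2.2) h j

section

variable {N : ℕ} {z w : Fin N → ℂ} {R β ρ : ℝ} {σ : Fin N → ℂ} {g : Gr}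
  {L : List (ℕ × ℕ × ℕ × ℕ)}

theorem cells (c : Cf N w R β ρ g) (htab : g.tab = []) (hL : ProfL N w ρ L)
    {Sm fU cU k0 h : ℕ} (hh : 1 ≤ h)
    (hS : ρ * SV.sq (uu w) ≤ (Sm : ℝ) / 2 ^ 20)
    (hk : (k0 : ℝ) / 2 ^ 10 ≤ (av (uu w)).re * ρ * β)
    (hf : (av (uu w)).re ≤ (fU : ℝ) / 2 ^ 20 * R) (hcU : cU = cW fU) :
    Cells N (uu w) β g L Sm fU cU k0 h := by
  have hρ : 0 < ρ := by linarith [c.hρ]
  have hβ := c.hβ
  intro ty s0 s hv j hj0 hj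
  unfold vlL at hv
  unfold ndL
  cases ht : Nat.ble ty 3 with
  | true =>
    rw [ht, cond_true] at hv
    rw [cond_true]
    have h1 := c.cells hh hS hk hf hcU ty s
    rw [htab] at h1
    exact h1 hv j hj
  | false =>
    rw [ht, cond_false, Bool.and_eq_true, Nat.ble_eq, Nat.ble_eq] at hv
    rw [cond_false]
    obtain ⟨hv0, hv1⟩ := hv
    have hBar : (0 : ℝ) < g.Ba := by exact_mod_cast c.hBa
    have hBbr : (0 : ℝ) < g.Bb := by exact_mod_cast c.hBb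
    rcases lk_mem L (ty - 4) with hm | hm
    · apply cellL hρ hβ c.hβN (X := ((lk L (ty - 4)).1 : ℝ) / 1024)
        (Y := ((lk L (ty - 4)).2.1 : ℝ) / 1024) (hL _ hm) hk h j
      · have h4 : (lk L (ty - 4)).1 * g.Bb ≤ j * 1024 :=
          le_trans hv0 (Nat.mul_le_mul_right _ hj0)
        have h5 : ((lk L (ty - 4)).1 : ℝ) * g.Bb ≤ (j : ℝ) * 1024 := by exact_mod_cast h4
        have h6 : (j : ℝ) / 2 ^ 10 / ((g.Bb : ℝ) / 2 ^ 10) ≤ (j : ℝ) / 2 ^ 10 / β :=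
          div_le_div_of_nonneg_left (by positivity) hβ c.hβb
        refine le_trans ?_ h6
        rw [le_div_iff₀ (by positivity)]
        have e : ((lk L (ty - 4)).1 : ℝ) / 1024 * ((g.Bb : ℝ) / 2 ^ 10) =
          ((lk L (ty - 4)).1 : ℝ) * g.Bb / 1024 / 2 ^ 10 := by ring
        rw [e]
        apply div_le_div_of_nonneg_right _ (by positivity)
        rw [div_le_iff₀ (by norm_num)]
        exact h5
      · have h4 : (j + h) * 1024 ≤ (lk L (ty - 4)).2.1 * g.Ba :=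
          le_trans (Nat.mul_le_mul_right _ hj) hv1
        have h5 : ((j + h : ℕ) : ℝ) * 1024 ≤ (lk L (ty - 4)).2.1 * g.Ba := by exact_mod_cast h4
        have h6 : ((j + h : ℕ) : ℝ) / 2 ^ 10 / β ≤
            ((j + h : ℕ) : ℝ) / 2 ^ 10 / ((g.Ba : ℝ) / 2 ^ 10) :=
          div_le_div_of_nonneg_left (by positivity) (by positivity) c.hβa
        refine h6.trans ?_
        rw [div_le_iff₀ (by positivity)]
        have e : ((lk L (ty - 4)).2.1 : ℝ) / 1024 * ((g.Ba : ℝ) / 2 ^ 10) =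
          ((lk L (ty - 4)).2.1 : ℝ) * g.Ba / 1024 / 2 ^ 10 := by ring
        rw [e]
        apply div_le_div_of_nonneg_right _ (by positivity)
        rw [le_div_iff₀ (by norm_num)]
        exact h5
    · rw [hm] at hv1
      simp only [zero_mul] at hv1
      omega

end

theorem run_sound {N : ℕ} {u : Fin N → ℂ} {ρ β Y : ℝ} {kp : ℝ → ℝ} (hρ : 0 < ρ) (hβ : 0 < β)
    (hN : β ^ 2 * ρ = N) (hkp : ContinuousOn kp (Set.Icc 0 Y)) {g : Gr} {Kf : ℕ → ℕ → ℕ}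
    {L : List (ℕ × ℕ × ℕ × ℕ)} {Sm fU cU k0 h th sc : ℕ} (hh : 1 ≤ h)
    (hY : ∀ s : ℕ, 1024 * s ≤ 1000 * g.Ba → (s : ℝ) / 2 ^ 10 / β ≤ Y)
    (hK : ∀ s : ℕ, 1024 * (s + h) ≤ 1000 * g.Ba →
      ∀ x ∈ Set.Icc ((s : ℝ) / 2 ^ 10 / β) (((s + h : ℕ) : ℝ) / 2 ^ 10 / β),
        ρ * kp x ≤ (Kf s (s + h) : ℝ) / 2 ^ 20)
    (hC : Cells N u β g L Sm fU cU k0 h)
    {k : ℕ → ℕ → ℕ → ℕ → Bool} (l : List (ℕ × ℕ)) :
    ∀ s T U V : ℕ, run g L Kf Sm fU cU k0 h th sc l s T U V k = true →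
      ∃ s' T' U' V', s ≤ s' ∧ k s' T' U' V' = true ∧
        (1024 * s' ≤ 1000 * g.Ba → Inv N u β kp th sc s T U V →
        Inv N u β kp th sc s' T' U' V') := by
  induction l with
  | nil =>
    intro s T U V hc
    exact ⟨s, T, U, V, le_rfl, hc, fun _ hI => hI⟩
  | cons it l ih =>
    intro s T U V hc
    unfold run at hc
    simp only [ev_eq] at hc
    obtain ⟨T1, U1, V1, hk, hI1⟩ := seg_sound hρ hβ hN hkp hh hY hK it.2 s T U V hc
    rw [Bool.and_eq_true] at hk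
    obtain ⟨hv, hk⟩ := hk
    obtain ⟨s', T', U', V', hs', hk', hI'⟩ := ih _ _ _ _ hk
    refine ⟨s', T', U', V', le_trans (Nat.le_add_right _ _) hs', hk', fun hd hI => hI' hd ?_⟩
    apply hI1 (le_trans (Nat.mul_le_mul_left _ hs') hd) hI
    intro j hj0 hj
    exact hC it.1 _ _ hv j hj0 hj

theorem runT_sound {N : ℕ} {u : Fin N → ℂ} {β a : ℝ} (hβ : 0 < β) {g : Gr}
    {L : List (ℕ × ℕ × ℕ × ℕ)} {Sm fU cU k0 h : ℕ} (hh : 1 ≤ h)
    (hC : Cells N u β g L Sm fU cU k0 h)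
    {k : ℕ → ℕ → Bool} (l : List (ℕ × ℕ)) :
    ∀ s Q : ℕ, runT g L Sm fU cU k0 h l s Q k = true →
      ∃ s' Q', s ≤ s' ∧ k s' Q' = true ∧
        (β * (∫ x in a..((s : ℝ) / 2 ^ 10 / β), ‖qq u x‖) ≤ (Q : ℝ) / 2 ^ 51 →
        β * (∫ x in a..((s' : ℝ) / 2 ^ 10 / β), ‖qq u x‖) ≤ (Q' : ℝ) / 2 ^ 51) := by
  induction l with
  | nil =>
    intro s Q hc
    exact ⟨s, Q, le_rfl, hc, fun hI => hI⟩
  | cons it l ih =>
    intro s Q hc
    unfold runT at hc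
    simp only [ev_eq] at hc
    obtain ⟨Q1, hk, hI1⟩ := segT_sound (u := u) (a := a) hβ hh it.2 s Q hc
    rw [Bool.and_eq_true] at hk
    obtain ⟨hv, hk⟩ := hk
    obtain ⟨s', Q', hs', hk', hI'⟩ := ih _ _ hk
    refine ⟨s', Q', le_trans (Nat.le_add_right _ _) hs', hk', fun hI => hI' ?_⟩
    apply hI1 hI
    intro j hj0 hj
    exact hC it.1 _ _ hv j hj0 hj

section

variable {N : ℕ} {z w : Fin N → ℂ} {R β ρ : ℝ} {σ : Fin N → ℂ} {g : Gr}
  {L : List (ℕ × ℕ × ℕ × ℕ)}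

theorem tail_sound (c : Cf N w R β ρ g) {h : ℕ} {Sm fU cU k0 s : ℕ} (hh : 1 ≤ h)
    (hC : Cells N (uu w) β g L Sm fU cU k0 h) {b : List (ℕ × ℕ)} {xe : ℕ} {kk : ℕ → Bool}
    (hrun : runT g L Sm fU cU k0 h b s 0 (fun s2 Q =>
      Nat.ble xe (s2 * 1024 / g.Bb) &&
        kk ((g.Na + 1) * g.r1 * g.Bb * Q / (g.Na * 2147483648) + 1)) = true) :
    ∃ tail, kk tail = true ∧ ∀ Y : ℝ, (s : ℝ) / 2 ^ 10 / β ≤ Y → Y ≤ (xe : ℝ) / 1024 →
      ((N : ℝ) + 1) * ∫ x in ((s : ℝ) / 2 ^ 10 / β)..Y, ‖qq (uu w) x‖ ≤ (tail : ℝ) / 2 ^ 40 := by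
  have hβ := c.hβ
  have hρ : 0 < ρ := by linarith [c.hρ]
  obtain ⟨a, ha⟩ : ∃ a, a = (s : ℝ) / 2 ^ 10 / β := ⟨_, rfl⟩
  obtain ⟨s2, Q, hs2, hk, hI⟩ := runT_sound (u := uu w) (a := a) hβ hh hC b s 0 hrun
  have hI := hI (by rw [← ha, intervalIntegral.integral_same]; norm_num)
  obtain ⟨bb, hb⟩ : ∃ bb, bb = (s2 : ℝ) / 2 ^ 10 / β := ⟨_, rfl⟩
  rw [← hb] at hI
  obtain ⟨t0, ht0⟩ : ∃ t0, t0 = (g.Na + 1) * g.r1 * g.Bb * Q / (g.Na * 2147483648) + 1 := ⟨_, rfl⟩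
  rw [← ht0] at hk
  rw [Bool.and_eq_true, Nat.ble_eq] at hk
  obtain ⟨hxe, hkk⟩ := hk
  refine ⟨t0, hkk, fun Y hY0 hY1 => ?_⟩
  rw [← ha] at hY0 ⊢
  have hNr : (40 : ℝ) ≤ N := by exact_mod_cast c.hN
  have hNar : (40 : ℝ) ≤ g.Na := by exact_mod_cast c.hNa1
  have hNaN : (g.Na : ℝ) ≤ N := by exact_mod_cast c.hNa
  have hBbr : (0 : ℝ) < g.Bb := by exact_mod_cast c.hBb
  have hxb : ((s2 * 1024 / g.Bb : ℕ) : ℝ) / 1024 ≤ bb := by
    have h1 := div_le_real (s2 * 1024) g.Bb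
    have h2 : (s2 : ℝ) / 2 ^ 10 / ((g.Bb : ℝ) / 2 ^ 10) ≤ bb := by
      rw [hb]
      exact div_le_div_of_nonneg_left (by positivity) hβ c.hβb
    refine le_trans ?_ h2
    rw [div_le_iff₀ (by norm_num)]
    refine h1.trans (le_of_eq ?_)
    push_cast
    field_simp
  have hfin : ((N : ℝ) + 1) * (∫ z in a..bb, ‖qq (uu w) z‖) ≤ (t0 : ℝ) / 2 ^ 40 := by
    obtain ⟨I, hId⟩ : ∃ I, I = ∫ x in a..bb, ‖qq (uu w) x‖ := ⟨_, rfl⟩
    rw [← hId] at hI ⊢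
    have h1 : ((N : ℝ) + 1) * I ≤ (((g.Na : ℝ) + 1) / g.Na * ((g.r1 : ℝ) / 2 ^ 10 *
        ((g.Bb : ℝ) / 2 ^ 10))) * (β * I) := by
      have hI0 : 0 ≤ I := by
        rw [hId]
        apply intervalIntegral.integral_nonneg _ (fun x _ => norm_nonneg _)
        rw [ha, hb]
        apply div_le_div_of_nonneg_right _ hβ.le
        apply div_le_div_of_nonneg_right _ (by positivity)
        exact_mod_cast hs2
      have h2 : ((N : ℝ) + 1) / N ≤ ((g.Na : ℝ) + 1) / g.Na := by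
        rw [div_le_div_iff₀ (by linarith) (by linarith)]
        linarith
      have h3 : β * ρ ≤ (g.r1 : ℝ) / 2 ^ 10 * ((g.Bb : ℝ) / 2 ^ 10) := by
        rw [mul_comm β]
        exact mul_le_mul c.hr1 c.hβb hβ.le (by positivity)
      have h4 : ((N : ℝ) + 1) * I = (((N : ℝ) + 1) / N * (β * ρ)) * (β * I) := by
        have e : (N : ℝ) = β ^ 2 * ρ := c.hβN.symm
        have hNN : (N : ℝ) ≠ 0 := by linarith
        have e2 : (β * ρ) * β = (N : ℝ) := by rw [e]; ring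
        calc ((N : ℝ) + 1) * I = (((N : ℝ) + 1) / N) * N * I := by field_simp
          _ = (((N : ℝ) + 1) / N) * ((β * ρ) * β) * I := by rw [e2]
          _ = _ := by ring
      rw [h4]
      apply mul_le_mul_of_nonneg_right _ (by positivity)
      exact mul_le_mul h2 h3 (by positivity) (by positivity)
    refine h1.trans ?_
    have h5 := mul_le_mul_of_nonneg_left hI (by positivity : (0 : ℝ) ≤ ((g.Na : ℝ) + 1) / g.Na *
      ((g.r1 : ℝ) / 2 ^ 10 * ((g.Bb : ℝ) / 2 ^ 10)))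
    refine h5.trans ?_
    have h6 := real_le_div ((g.Na + 1) * g.r1 * g.Bb * Q) (g.Na * 2147483648) (by
      have := c.hNa1
      omega)
    rw [← ht0] at h6
    refine le_trans (le_of_eq ?_) (div_le_div_of_nonneg_right h6 (by positivity))
    have : (g.Na : ℝ) ≠ 0 := by linarith
    push_cast
    field_simp
    norm_num
    ring
  have hYm : Y ≤ bb := by
    refine le_trans ?_ hxb
    refine hY1.trans ?_
    apply div_le_div_of_nonneg_right _ (by norm_num)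
    exact_mod_cast hxe
  refine le_trans ?_ hfin
  apply mul_le_mul_of_nonneg_left _ (by linarith)
  have hadd : (∫ x in a..bb, ‖qq (uu w) x‖) =
      (∫ x in a..Y, ‖qq (uu w) x‖) + ∫ x in Y..bb, ‖qq (uu w) x‖ :=
    (intervalIntegral.integral_add_adjacent_intervals
      ((qq_cont (uu w)).norm.intervalIntegrable _ _)
      ((qq_cont (uu w)).norm.intervalIntegrable _ _)).symm
  rw [hadd]
  have := intervalIntegral.integral_nonneg (μ := volume) (f := fun x => ‖qq (uu w) x‖) hYm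
    (fun x _ => norm_nonneg _)
  linarith

theorem one_sound (hC2 : Cfg2 N z w R σ) (c : Cf N w R β ρ g) (htab : g.tab = [])
    (hL : ProfL N w ρ L) {k0 : ℕ} {e : En}
    (hk0 : (k0 : ℝ) / 2 ^ 10 ≤ (av (uu w)).re * ρ * β)
    (hk1 : (av (uu w)).re * ρ * β ≤ (e.k1 : ℝ) / 2 ^ 10)
    (h : one g L k0 e = true) : False := by
  obtain ⟨hmx, hmx1⟩ := c.mx_sound hk1
  have hN1 : 1 ≤ N := by have := c.hN; omega
  have hρ : 0 < ρ := by linarith [c.hρ]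
  have hβ := c.hβ
  have hR := c.hR
  have hBar : (0 : ℝ) < g.Ba := by exact_mod_cast c.hBa
  unfold one at h
  simp only [ev_eq, Bool.and_eq_true, Nat.ble_eq] at h
  obtain ⟨hh, hsg, h⟩ := h
  obtain ⟨mx, hmx'⟩ : ∃ mx, mx = mxU g e.k1 := ⟨_, rfl⟩
  rw [← hmx'] at hmx hmx1 h
  have hgpgn := c.gp_gn hmx
  obtain ⟨hrho, hrho2⟩ := c.rho_sound hmx
  have hfU := c.fU_sound hmx
  obtain ⟨Sm, hSm⟩ : ∃ Sm, Sm = Nat.min (1048576 + 2 * mx) (g.r1 * 1024) := ⟨_, rfl⟩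
  obtain ⟨gp, hgp⟩ : ∃ gp, gp = (g.R0 - 1024) * 1048576 / g.R0 := ⟨_, rfl⟩
  obtain ⟨gn, hgn⟩ : ∃ gn, gn = (3 * g.R1 + (1048576 / g.R0 + 1) - 2048) * mx / 1024 + 1 :=
    ⟨_, rfl⟩
  obtain ⟨rho, hrh⟩ : ∃ rho, rho = Nat.min 1048576 (isq (mx * 2147483648 / g.R0 + 1)) := ⟨_, rfl⟩
  obtain ⟨rho2, hrh2⟩ : ∃ rho2, rho2 = Nat.min 1048576 (mx * 2048 / g.R0 + 1) := ⟨_, rfl⟩
  obtain ⟨fU, hfUd⟩ : ∃ fU, fU = Nat.min (g.fx * 1024) (mx * 1024 / g.R0 + 1) := ⟨_, rfl⟩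
  obtain ⟨cU, hcU⟩ : ∃ cU, cU = cW fU := ⟨_, rfl⟩
  obtain ⟨sc, hsc⟩ : ∃ sc, sc = (g.R0 - e.sg) * g.Ba / 1024 := ⟨_, rfl⟩
  have hrho1 : 1 ≤ rho := by
    rw [hrh]
    exact Nat.le_min.2 ⟨by norm_num, isq_pos _⟩
  rw [← hrh] at hrho
  rw [← hrh2] at hrho2
  rw [← hfUd] at hfU
  rw [← hgp, ← hgn] at hgpgn
  rw [← hSm, ← hgp, ← hgn, ← hrh, ← hrh2, ← hfUd, ← hcU, ← hsc] at h
  clear hgp hgn hrh hrh2 hfUd hmx'
  have hS : ρ * SV.sq (uu w) ≤ (Sm : ℝ) / 2 ^ 20 := by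
    have hsq1 : SV.sq (uu w) ≤ 1 := by
      have hNpos : (0 : ℝ) < N := by exact_mod_cast (show 0 < N by omega)
      unfold SV.sq
      have : ∑ k, ‖uu w k‖ ^ 2 ≤ ∑ _k : Fin N, (1 : ℝ) :=
        Finset.sum_le_sum fun k _ => pow_le_one₀ (norm_nonneg _) (c.u_le k)
      simp only [Finset.sum_const, Finset.card_univ, Fintype.card_fin, nsmul_eq_mul, mul_one] at this
      rw [div_mul_eq_mul_div, one_mul, div_le_one hNpos]
      exact this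
    have h1 : ρ * SV.sq (uu w) ≤ (g.r1 : ℝ) / 2 ^ 10 := by
      have := mul_le_mul_of_nonneg_left hsq1 hρ.le
      linarith [c.hr1]
    have h2 := c.hSq
    rw [hSm]
    rcases Nat.le_total (1048576 + 2 * mx) (g.r1 * 1024) with h3 | h3
    · rw [show Nat.min (1048576 + 2 * mx) (g.r1 * 1024) = 1048576 + 2 * mx from Nat.min_eq_left h3]
      push_cast
      have e : (1048576 + 2 * (mx : ℝ)) / 2 ^ 20 = 1 + 2 * (mx / 2 ^ 20) := by ring
      rw [e]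
      linarith
    · rw [show Nat.min (1048576 + 2 * mx) (g.r1 * 1024) = g.r1 * 1024 from Nat.min_eq_right h3]
      push_cast
      have e : (g.r1 : ℝ) * 1024 / 2 ^ 20 = g.r1 / 2 ^ 10 := by ring
      rw [e]
      exact h1
  clear hSm
  obtain ⟨Y, hYd⟩ : ∃ Y : ℝ, Y = 1000 / 1024 := ⟨_, rfl⟩
  have hY1 : Y < 1 := by rw [hYd]; norm_num
  have hY : ∀ s : ℕ, 1024 * s ≤ 1000 * g.Ba → (s : ℝ) / 2 ^ 10 / β ≤ Y := by
    intro s hs
    have h1 : (s : ℝ) / 2 ^ 10 / β ≤ (s : ℝ) / 2 ^ 10 / ((g.Ba : ℝ) / 2 ^ 10) :=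
      div_le_div_of_nonneg_left (by positivity) (by positivity) c.hβa
    refine h1.trans ?_
    have h2 : (1024 : ℝ) * s ≤ 1000 * g.Ba := by exact_mod_cast hs
    rw [hYd, div_le_iff₀ (by positivity)]
    have e : (1000 : ℝ) / 1024 * ((g.Ba : ℝ) / 2 ^ 10) = 1000 * g.Ba / 2 ^ 20 := by ring
    rw [e, div_le_div_iff₀ (by positivity) (by positivity)]
    nlinarith
  obtain ⟨kp, hkp⟩ : ∃ kp : ℝ → ℝ, kp = if e.q then (fun x => 1 / dn (av (uu w)) x) else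
    kM (uu w) := ⟨_, rfl⟩
  have hkpc : ContinuousOn kp (Set.Icc 0 Y) := by
    rw [hkp]
    by_cases hq : e.q = true
    · rw [if_pos hq]
      apply ContinuousOn.div continuousOn_const
      · unfold dn
        fun_prop
      · intro x hx
        exact (dn_pos c.av_le hx.1 (lt_of_le_of_lt hx.2 hY1)).ne'
    · rw [if_neg hq]
      exact kM_cont c.u_le hY1
  have hK : ∀ s : ℕ, 1024 * (s + e.h) ≤ 1000 * g.Ba →
      ∀ x ∈ Set.Icc ((s : ℝ) / 2 ^ 10 / β) (((s + e.h : ℕ) : ℝ) / 2 ^ 10 / β),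
        ρ * kp x ≤ ((bif e.q then kapQ g.r1 mx rho2 g.Ba g.Bb s (s + e.h)
          else kapM g.hi g.R1 g.r1 mx gp gn g.Ba g.Bb s (s + e.h) : ℕ) : ℝ) / 2 ^ 20 := by
    intro s hs x hx
    by_cases hq : e.q = true
    · rw [hkp, if_pos hq, hq, cond_true]
      exact kapQ_sound c.av_le hρ.le c.hr1 c.m_nonneg hmx hrho2 c.hBa c.hβa c.hBb c.hβb hs hx.1 hx.2
    · have hq' : e.q = false := by simpa using hq
      rw [hkp, if_neg hq, hq', cond_false]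
      exact kapM_sound hN1 c.hw c.ht hR c.hR1 hρ.le c.hr1 (fun h => ⟨(c.hhi h).1, (c.hhi h).2.1⟩)
        c.m_nonneg hmx hgpgn c.hBa c.hβa c.hBb c.hβb hs hx.1 hx.2
  have hcells := cells c htab hL (h := e.h) hh hS hk0 hfU hcU
  obtain ⟨s, T, U, V, _, hk, hI⟩ := run_sound (u := uu w) hρ hβ c.hβN hkpc hh hY hK hcells e.a
    0 _ 0 0 h
  simp only [Bool.and_eq_true, Nat.ble_eq] at hk
  obtain ⟨hdom, hk⟩ := hk
  have hI := hI hdom (by
    constructor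
    · intro y _ hy1
      have hy2 : β * y ≤ 0 := by simpa using hy1
      have hy3 : 0 ≤ β * y := by
        rename_i hh0
        rcases hh0 with h0 | h0
        · exact le_trans (by positivity) h0
        · exact le_trans (by positivity) h0
      have hy : y = 0 := by
        have : β * y = 0 := le_antisymm hy2 hy3
        rcases mul_eq_zero.1 this with h0 | h0
        · exact absurd h0 hβ.ne'
        · exact h0
      rw [hy, qq_zero, norm_one]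
      norm_num
    · simp
    · simp)
  -- the end
  obtain ⟨y, hy⟩ : ∃ y, y = R - (e.sg : ℝ) / 2 ^ 10 := ⟨_, rfl⟩
  have hsg' : e.sg < g.R0 := by omega
  have hsr0 : ((g.R0 - e.sg : ℕ) : ℝ) = g.R0 - e.sg := Nat.cast_sub hsg'.le
  have hsr1 : ((g.R1 - e.sg : ℕ) : ℝ) = g.R1 - e.sg := Nat.cast_sub (hsg'.le.trans c.hg01)
  have hy0 : ((g.R0 - e.sg : ℕ) : ℝ) / 2 ^ 10 ≤ y := by
    have := c.hR0
    rw [hsr0, sub_div, hy]; linarith
  have hy1 : y ≤ ((g.R1 - e.sg : ℕ) : ℝ) / 2 ^ 10 := by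
    have := c.hR1
    rw [hsr1, sub_div, hy]; linarith
  have hypos : 0 ≤ y := le_trans (by positivity) hy0
  have hyR : y ≤ R := by
    rw [hy]
    have : (0 : ℝ) ≤ (e.sg : ℝ) / 2 ^ 10 := by positivity
    linarith
  have hscy : (sc : ℝ) / 2 ^ 10 ≤ β * y := by
    have h1 := div_le_real ((g.R0 - e.sg) * g.Ba) 1024
    rw [← hsc] at h1
    have h2 := mul_le_mul c.hβa hy0 (by positivity) hβ.le
    refine le_trans ?_ h2
    rw [div_le_iff₀ (by positivity)]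
    refine h1.trans (le_of_eq ?_)
    push_cast
    ring
  have hfin : ∀ tail : ℕ, fin g e mx Sm rho e.th tail T U V = true →
      (∃ y0 : ℝ, 0 ≤ y0 ∧ y0 ≤ y ∧ y0 ≤ (s : ℝ) / 2 ^ 10 / β ∧ ‖qq (uu w) y0‖ ≤ (T : ℝ) / 2 ^ 40 ∧
        ((N : ℝ) + 1) * (∫ x in y0..y, ‖qq (uu w) x‖) ≤ (tail : ℝ) / 2 ^ 40) → False := by
    intro tail hf ⟨y0, hy00, hy0y, hy0s, hqy, htail⟩
    unfold fin at hf
    simp only [ev_eq, Bool.and_eq_true, Nat.ble_eq] at hf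
    obtain ⟨hG, hend⟩ := hf
    have hg := gain_sound c hY1 hkp hS hrho hrho1 hI hy00 (hy0y.trans hyR) hy0s (hY s hdom) hqy
    obtain ⟨G, hGd⟩ : ∃ G, G = gain g e.q Sm rho e.th T U V := ⟨_, rfl⟩
    rw [← hGd] at hg hG hend
    refine endt_sound hC2 c.hN c.hNa c.hNb c.hR0 c.hR1 c.hg01 hsg' hmx hmx1 ?_ hend
    rw [← hy, Nat.cast_sub (by omega), sub_div]
    have h1 : (∫ x in (0 : ℝ)..y0, qq (uu w) x) = (∫ x in (0 : ℝ)..y, qq (uu w) x) -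
        ∫ x in y0..y, qq (uu w) x := by
      rw [eq_sub_iff_add_eq]
      exact intervalIntegral.integral_add_adjacent_intervals
        ((qq_cont (uu w)).intervalIntegrable _ _) ((qq_cont (uu w)).intervalIntegrable _ _)
    have h2 : ‖∫ x in (0 : ℝ)..y0, qq (uu w) x‖ ≤ ‖∫ x in (0 : ℝ)..y, qq (uu w) x‖ +
        ∫ x in y0..y, ‖qq (uu w) x‖ := by
      rw [h1]
      refine (norm_sub_le _ _).trans ?_
      have := intervalIntegral.norm_integral_le_integral_norm (μ := volume)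
        (f := fun x => qq (uu w) x) hy0y
      linarith
    have h3 := mul_le_mul_of_nonneg_left h2 (by positivity : (0 : ℝ) ≤ (N : ℝ) + 1)
    rw [mul_add] at h3
    linarith
  by_cases ht : e.t = true
  · rw [ht, cond_true] at hk
    rw [Bool.and_eq_true, Nat.ble_eq] at hk
    obtain ⟨hssc, hk⟩ := hk
    obtain ⟨tail, hft, htl⟩ := tail_sound c (kk := fun tail => fin g e mx Sm rho e.th tail T U V)
      hh hcells hk
    have hsy : (s : ℝ) / 2 ^ 10 / β ≤ y := by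
      rw [div_le_iff₀ hβ, mul_comm]
      refine le_trans ?_ hscy
      apply div_le_div_of_nonneg_right _ (by positivity)
      exact_mod_cast hssc
    refine hfin tail hft ⟨(s : ℝ) / 2 ^ 10 / β, by positivity, hsy, le_rfl, ?_, ?_⟩
    · have e1 : β * ((s : ℝ) / 2 ^ 10 / β) = (s : ℝ) / 2 ^ 10 := by field_simp
      exact hI.hT _ (Or.inr (le_of_eq e1.symm)) (le_of_eq e1)
    · apply htl y hsy
      refine hy1.trans (le_of_eq ?_)
      norm_num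
  · have ht' : e.t = false := by simpa using ht
    rw [ht', cond_false, Bool.and_eq_true, Nat.ble_eq] at hk
    obtain ⟨hE, hk⟩ := hk
    have hys : y ≤ (s : ℝ) / 2 ^ 10 / β := by
      have h1 := div_le_real (s * 1024) g.Bb
      have hBbr : (0 : ℝ) < g.Bb := by exact_mod_cast c.hBb
      have h2 : ((g.R1 : ℝ) - e.sg) ≤ ((s * 1024 / g.Bb : ℕ) : ℝ) := by
        have : (g.R1 : ℝ) ≤ ((s * 1024 / g.Bb : ℕ) : ℝ) + e.sg := by exact_mod_cast hE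
        linarith
      have h3 : ((g.R1 : ℝ) - e.sg) / 2 ^ 10 ≤ (s : ℝ) / 2 ^ 10 / ((g.Bb : ℝ) / 2 ^ 10) := by
        have h4 := div_le_div_of_nonneg_right (h2.trans h1) (by positivity : (0 : ℝ) ≤ 2 ^ 10)
        refine h4.trans (le_of_eq ?_)
        push_cast
        field_simp
        norm_num
      rw [← hsr1] at h3
      refine hy1.trans (h3.trans ?_)
      exact div_le_div_of_nonneg_left (by positivity) hβ c.hβb
    refine hfin 0 hk ⟨y, hypos, le_rfl, hys, ?_, ?_⟩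
    · apply hI.hT y (Or.inl hscy)
      have := mul_le_mul_of_nonneg_left hys hβ.le
      refine this.trans (le_of_eq ?_)
      field_simp
    · rw [intervalIntegral.integral_same]
      norm_num

theorem goK_sound (hC2 : Cfg2 N z w R σ) (c : Cf N w R β ρ g) (htab : g.tab = [])
    (hL : ProfL N w ρ L) (l : List En) :
    ∀ k0 : ℕ, (k0 : ℝ) / 2 ^ 10 ≤ (av (uu w)).re * ρ * β → goK g L k0 l = true → False := by
  induction l with
  | nil =>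
    intro k0 hk h
    unfold goK at h
    rw [Nat.ble_eq] at h
    have h1 := real_lt_div (g.fx * g.R1 * g.r1 * g.Bb) 1073741824 (by norm_num)
    have h2 : (av (uu w)).re * ρ * β ≤ (g.fx : ℝ) / 1024 * (g.R1 / 2 ^ 10) * (g.r1 / 2 ^ 10) *
        (g.Bb / 2 ^ 10) := by
      have hρ : 0 ≤ ρ := by linarith [c.hρ]
      have hm : (av (uu w)).re ≤ (g.fx : ℝ) / 1024 * (g.R1 / 2 ^ 10) :=
        c.hfx.trans (mul_le_mul_of_nonneg_left c.hR1 (by positivity))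
      have h3 := mul_le_mul hm c.hr1 hρ (by positivity)
      exact mul_le_mul h3 c.hβb c.hβ.le (by positivity)
    have h3 : ((g.fx * g.R1 * g.r1 * g.Bb / 1073741824 + 1 : ℕ) : ℝ) ≤ k0 := by exact_mod_cast h
    have h4 : (g.fx : ℝ) / 1024 * (g.R1 / 2 ^ 10) * (g.r1 / 2 ^ 10) * (g.Bb / 2 ^ 10) =
        ((g.fx * g.R1 * g.r1 * g.Bb : ℕ) : ℝ) / ((1073741824 : ℕ) : ℝ) / 2 ^ 10 := by
      push_cast
      ring
    rw [h4] at h2
    have h5 := div_lt_div_of_pos_right (h1.trans_le h3) (by positivity : (0 : ℝ) < 2 ^ 10)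
    linarith
  | cons e l ih =>
    intro k0 hk h
    unfold goK at h
    rw [Bool.and_eq_true] at h
    obtain ⟨h1, h2⟩ := h
    rcases le_total ((av (uu w)).re * ρ * β) ((e.k1 : ℝ) / 2 ^ 10) with h3 | h3
    · exact one_sound hC2 c htab hL hk h3 h1
    · exact ih _ h3 h2

end

/-- **the checker is sound** -/
theorem chk_sound {N : ℕ} {z w : Fin N → ℂ} {R : ℝ} {σ : Fin N → ℂ} {g : Gr} {L : List (ℕ × ℕ × ℕ × ℕ)}
    {l : List En} (h : chk g L l = true) (htab : g.tab = []) (hC2 : Cfg2 N z w R σ) (hNa : g.Na ≤ N) (hNb : N ≤ g.Nb)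
    (hR0 : (g.R0 : ℝ) / 2 ^ 10 ≤ R) (hR1 : R ≤ (g.R1 : ℝ) / 2 ^ 10)
    (hf0 : (g.f0 : ℝ) / 1024 * R ≤ (av (uu w)).re)
    (hfx : (av (uu w)).re ≤ (g.fx : ℝ) / 1024 * R)
    (hP : ∀ x ∈ Set.Icc (0 : ℝ) ((g.pc : ℝ) / 10), ‖qq (uu w) x‖ ≤
      Real.exp (-(N * ((x ^ 2 / 2 - x ^ 3 / 5) / max 1 R))))
    (hV : g.R1 ≤ 820 → R ≤ 4 / 5)
    (hW : g.R1 ≤ 768 → ProfW N w R) (hL : ProfL N w (max 1 R) L) : False := by
  unfold chk at h
  simp only [ev_eq, Bool.and_eq_true, Nat.ble_eq] at h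
  obtain ⟨hg0, hg01, hBa, hBb, hNa40, hr, hBaN, hBbN, hgo⟩ := h
  have hR := hC2.hR
  have hw : ∀ k, 1 ≤ ‖w k‖ := hC2.cfg.far
  have ht : ∑ k, ‖w k - (R : ℂ)‖ ≤ N := hC2.dist.le
  have hN40 : 40 ≤ N := by omega
  have hN1 : 1 ≤ N := by omega
  have hNr : (40 : ℝ) ≤ N := by exact_mod_cast hN40
  have hNar : (g.Na : ℝ) ≤ N := by exact_mod_cast hNa
  have hNbr : (N : ℝ) ≤ g.Nb := by exact_mod_cast hNb
  obtain ⟨ρ, hρd⟩ : ∃ ρ, ρ = max 1 R := ⟨_, rfl⟩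
  rw [← hρd] at hP hL
  have hρ1 : 1 ≤ ρ := by rw [hρd]; exact le_max_left _ _
  have hρ0 : 0 < ρ := by linarith
  -- the two cases
  have hcase : (g.hi = true ∧ 1024 ≤ g.R0 ∧ g.r0 = g.R0 ∧ g.r1 = g.R1 ∧ ρ = R ∧ 1 ≤ R) ∨
      (g.hi = false ∧ g.R1 ≤ 1024 ∧ g.r0 = 1024 ∧ g.r1 = 1024 ∧ ρ = 1 ∧ R ≤ 1) := by
    cases hh : g.hi with
    | true =>
      left
      rw [hh, cond_true] at hr
      simp only [Bool.and_eq_true, Nat.ble_eq] at hr
      obtain ⟨h1, h2, h3⟩ := hr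
      have h4 : 1 ≤ R := by
        refine le_trans ?_ hR0
        rw [le_div_iff₀ (by positivity)]
        have : (1024 : ℝ) ≤ g.R0 := by exact_mod_cast h1
        linarith
      exact ⟨rfl, h1, Nat.eq_of_beq_eq_true h2, Nat.eq_of_beq_eq_true h3,
        by rw [hρd]; exact max_eq_right h4, h4⟩
    | false =>
      right
      rw [hh, cond_false] at hr
      simp only [Bool.and_eq_true, Nat.ble_eq] at hr
      obtain ⟨h1, h2, h3⟩ := hr
      have h4 : R ≤ 1 := by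
        refine hR1.trans ?_
        rw [div_le_iff₀ (by positivity)]
        have : (g.R1 : ℝ) ≤ 1024 := by exact_mod_cast h1
        linarith
      exact ⟨rfl, h1, Nat.eq_of_beq_eq_true h2, Nat.eq_of_beq_eq_true h3,
        by rw [hρd]; exact max_eq_left h4, h4⟩
  have hr0 : (g.r0 : ℝ) / 2 ^ 10 ≤ ρ := by
    rcases hcase with ⟨_, _, h2, _, h4, _⟩ | ⟨_, _, h2, _, h4, _⟩
    · rw [h2, h4]; exact hR0
    · rw [h2, h4]; norm_num
  have hr1 : ρ ≤ (g.r1 : ℝ) / 2 ^ 10 := by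
    rcases hcase with ⟨_, _, _, h3, h4, _⟩ | ⟨_, _, _, h3, h4, _⟩
    · rw [h3, h4]; exact hR1
    · rw [h3, h4]; norm_num
  have hr00 : 1 ≤ g.r0 := by
    rcases hcase with ⟨_, h1, h2, _⟩ | ⟨_, _, h2, _⟩
    · omega
    · omega
  have hm0 : 0 ≤ (av (uu w)).re := by
    have h1 := first_moment hN1 hw ht hR
    have : 0 ≤ R * ‖av (uu w)‖ ^ 2 := by positivity
    linarith
  have hSq : ρ * SV.sq (uu w) ≤ 1 + 2 * (av (uu w)).re := by
    rcases hcase with ⟨_, _, _, _, h4, _⟩ | ⟨_, _, _, _, h4, _⟩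
    · rw [h4]
      exact sq_bound hN1 hw ht hR
    · rw [h4, one_mul]
      have hsq1 : SV.sq (uu w) ≤ 1 := by
        have hNpos : (0 : ℝ) < N := by linarith
        have hu : ∀ k, ‖uu w k‖ ≤ 1 := by
          intro k
          unfold uu
          rw [norm_inv]
          exact inv_le_one_of_one_le₀ (hw k)
        unfold SV.sq
        have : ∑ k, ‖uu w k‖ ^ 2 ≤ ∑ _k : Fin N, (1 : ℝ) :=
          Finset.sum_le_sum fun k _ => pow_le_one₀ (norm_nonneg _) (hu k)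
        simp only [Finset.sum_const, Finset.card_univ, Fintype.card_fin, nsmul_eq_mul,
          mul_one] at this
        rw [div_mul_eq_mul_div, one_mul, div_le_one hNpos]
        exact this
      linarith
  obtain ⟨β, hβ⟩ : ∃ β, β = Real.sqrt (N / ρ) := ⟨_, rfl⟩
  have hβ2 : β ^ 2 = N / ρ := by
    rw [hβ, Real.sq_sqrt (by positivity)]
  have hβ0 : 0 ≤ β := by rw [hβ]; exact Real.sqrt_nonneg _
  have hβa : (g.Ba : ℝ) / 2 ^ 10 ≤ β := by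
    apply le_of_sq_le_sq' _ hβ0
    rw [hβ2, le_div_iff₀ hρ0]
    have h1 : ((g.Ba : ℝ) / 2 ^ 10) ^ 2 * ρ ≤ ((g.Ba : ℝ) / 2 ^ 10) ^ 2 * ((g.r1 : ℝ) / 2 ^ 10) :=
      mul_le_mul_of_nonneg_left hr1 (by positivity)
    have e : ((g.Ba : ℝ) / 2 ^ 10) ^ 2 * ((g.r1 : ℝ) / 2 ^ 10) = g.r1 * (g.Ba * g.Ba) / 2 ^ 30 := by
      ring
    rw [e] at h1
    refine h1.trans ?_
    rw [div_le_iff₀ (by positivity)]
    have h2 : (g.r1 : ℝ) * (g.Ba * g.Ba) ≤ g.Na * 1073741824 := by exact_mod_cast hBaN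
    refine h2.trans ?_
    norm_num
    exact hNa
  have hβb : β ≤ (g.Bb : ℝ) / 2 ^ 10 := by
    apply le_of_sq_le_sq' _ (by positivity)
    rw [hβ2, div_le_iff₀ hρ0]
    have h1 : ((g.Bb : ℝ) / 2 ^ 10) ^ 2 * ((g.r0 : ℝ) / 2 ^ 10) ≤ ((g.Bb : ℝ) / 2 ^ 10) ^ 2 * ρ :=
      mul_le_mul_of_nonneg_left hr0 (by positivity)
    have e : ((g.Bb : ℝ) / 2 ^ 10) ^ 2 * ((g.r0 : ℝ) / 2 ^ 10) = g.r0 * (g.Bb * g.Bb) / 2 ^ 30 := by
      ring
    rw [e] at h1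
    refine le_trans ?_ h1
    rw [le_div_iff₀ (by positivity)]
    have h2 : (g.Nb : ℝ) * 1073741824 ≤ g.r0 * (g.Bb * g.Bb) := by exact_mod_cast hBbN
    refine le_trans ?_ h2
    norm_num
    exact hNb
  have hβN : β ^ 2 * ρ = N := by
    rw [hβ2]
    field_simp
  have c : Cf N w R β ρ g := by
    refine ⟨hN40, hNa, hNa40, hNb, hw, ht, hR, hR0, hR1, hg0, hg01, hρ1, hr0, hr1, hr00, ?_, ?_,
      hSq, hBa, hBb, hβa, hβb, hβN, hfx, hP, hV, hW,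
      by rw [htab]; intro p hp; simp at hp⟩
    · intro hh
      rcases hcase with ⟨_, h1, _, _, h4, h5⟩ | ⟨h0, _⟩
      · exact ⟨h4, h5, h1⟩
      · rw [h0] at hh
        exact absurd hh (by simp)
    · intro h820
      rcases hcase with ⟨_, h1, _⟩ | ⟨_, _, _, _, h4, _⟩
      · omega
      · exact h4
  refine goK_sound hC2 c htab hL l _ ?_ hgo
  have h1 := div_le_real (g.f0 * g.R0 * g.r0 * g.Ba) 1073741824
  have h2 : (g.f0 : ℝ) / 1024 * (g.R0 / 2 ^ 10) * (g.r0 / 2 ^ 10) * (g.Ba / 2 ^ 10) ≤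
      (av (uu w)).re * ρ * β := by
    have hm : (g.f0 : ℝ) / 1024 * (g.R0 / 2 ^ 10) ≤ (av (uu w)).re :=
      (mul_le_mul_of_nonneg_left hR0 (by positivity)).trans hf0
    have h3 := mul_le_mul hm hr0 (by positivity) hm0
    exact mul_le_mul h3 hβa (by positivity) (by positivity)
  refine le_trans ?_ h2
  have h3 := div_le_div_of_nonneg_right h1 (by positivity : (0 : ℝ) ≤ 2 ^ 10)
  refine h3.trans (le_of_eq ?_)
  push_cast
  ring

end Pool.Agent.Lib.MP_af3a4a_an.P1.CHK.H81.L
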