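import Pool.Agent.Lib.MP_af3a4a_an.P1.CHK.H39.Pt1
import Pool.Agent.Lib.MP_af3a4a_an.P1.CHK.H39.Pt2
import Pool.Agent.Lib.MP_af3a4a_an.P1.CHK.H39.Pt3
import Pool.Agent.Lib.MP_af3a4a_an.P1.CHK.H39.Pt6
import Pool.Agent.Lib.MP_af3a4a_an.P1.CHK.H39.Line1
import Pool.Agent.Lib.MP_af3a4a_an.P1.CHK.H39.Line2
import Pool.Agent.Lib.MP_af3a4a_an.P1.CHK.H39.Line3
import Pool.Agent.Lib.MP_af3a4a_an.P1.CHK.H81.LS

/-!
# The tables of helper39 as lines (helper81)
-/

set_option autoImplicit false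

namespace Pool.Agent.Lib.MP_af3a4a_an.P1.CHK.H81.L

open Pool.Agent.Lib.MP_af3a4a_an.SV (uu av)
open Pool.Agent.Lib.MP_af3a4a_an.P1.H80
open Pool.Agent.Lib.MP_af3a4a_an.P1.CHK.H39.TabS

theorem profL_nil (N : ℕ) (w : Fin N → ℂ) (ρ : ℝ) : ProfL N w ρ [] := by
  intro p hp
  simp at hp

theorem profL_append {N : ℕ} {w : Fin N → ℂ} {ρ : ℝ} {L L' : List (ℕ × ℕ × ℕ × ℕ)}
    (h : ProfL N w ρ L) (h' : ProfL N w ρ L') : ProfL N w ρ (L ++ L') := by
  intro p hp
  rcases List.mem_append.1 hp with hp | hp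
  · exact h p hp
  · exact h' p hp

/-- a line of slope `c` -/
def lnM (x0 c : ℕ) (l : List (ℕ × ℕ)) : List (ℕ × ℕ × ℕ × ℕ) :=
  l.map fun q => (x0, q.1, c, q.2)

/-- a pure table -/
def ptM (x0 : ℕ) (l : List (ℕ × ℕ × ℕ × ℕ)) : List (ℕ × ℕ × ℕ × ℕ) :=
  l.map fun q => (x0, q.1, q.2.1, 0)

theorem profL_ln {N : ℕ} {w : Fin N → ℂ} {ρ : ℝ} {x0 c : ℕ} {l : List (ℕ × ℕ)}
    (h : ∀ q ∈ l, ∀ x ∈ Set.Icc ((x0 : ℝ) / 1024) ((q.1 : ℝ) / 1024), ‖qq (uu w) x‖ ≤
      Real.exp (-(N * ((c : ℝ) / 1024 * x ^ 2 / ρ + (q.2 : ℝ) / 1024 * x * (av (uu w)).re)))) :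
    ProfL N w ρ (lnM x0 c l) := by
  intro p hp
  obtain ⟨q, hq, rfl⟩ := List.mem_map.1 hp
  exact h q hq

theorem profL_pt {N : ℕ} {w : Fin N → ℂ} {ρ : ℝ} {x0 : ℕ} {l : List (ℕ × ℕ × ℕ × ℕ)}
    (h : ∀ q ∈ l, ∀ x ∈ Set.Icc ((x0 : ℝ) / 1024) ((q.1 : ℝ) / 1024), ‖qq (uu w) x‖ ≤
      Real.exp (-(N * ((q.2.1 : ℝ) / 1024 * x ^ 2 / ρ)))) :
    ProfL N w ρ (ptM x0 l) := by
  intro p hp
  obtain ⟨q, hq, rfl⟩ := List.mem_map.1 hp
  intro x hx
  refine (h q hq x hx).trans (le_of_eq ?_)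
  congr 2
  simp

section

variable {N : ℕ} {w : Fin N → ℂ} {R : ℝ}

def T300 : List (ℕ × ℕ × ℕ × ℕ) :=
  lnM 51 205 ln205_300 ++ (lnM 51 389 ln389_300 ++ (ptM 82 pt300 ++ (ptM 51 pu300)))

theorem T300_ok (h0 : 3 / 10 ≤ R) (h1 : R ≤ 13 / 40) (hN : 1 ≤ N) (hw : ∀ k, 1 ≤ ‖w k‖)
    (ht : ∑ k, ‖w k - (R : ℂ)‖ ≤ N) : ProfL N w (max 1 R) T300 := by
  have a0 := h0
  have a1 := h1
  exact profL_append (profL_ln (by have h := ln205_300_ok (R := R) (by linarith) (by linarith) hN hw ht; exact h))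
    (profL_append (profL_ln (by have h := ln389_300_ok (R := R) (by linarith) (by linarith) hN hw ht; exact h))
    (profL_append (profL_pt (by have h := pt300_ok (R := R) (by linarith) (by linarith) hN hw ht; exact h))
    ((profL_pt (by have h := pu300_ok (R := R) (by linarith) (by linarith) hN hw ht; exact h)))))

def T325 : List (ℕ × ℕ × ℕ × ℕ) :=
  lnM 52 205 ln205_325 ++ (lnM 52 389 ln389_325 ++ (ptM 82 pt325 ++ (ptM 51 pu325)))

theorem T325_ok (h0 : 13 / 40 ≤ R) (h1 : R ≤ 7 / 20) (hN : 1 ≤ N) (hw : ∀ k, 1 ≤ ‖w k‖)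
    (ht : ∑ k, ‖w k - (R : ℂ)‖ ≤ N) : ProfL N w (max 1 R) T325 := by
  have a0 := h0
  have a1 := h1
  exact profL_append (profL_ln (by have h := ln205_325_ok (R := R) (by linarith) (by linarith) hN hw ht; exact h))
    (profL_append (profL_ln (by have h := ln389_325_ok (R := R) (by linarith) (by linarith) hN hw ht; exact h))
    (profL_append (profL_pt (by have h := pt325_ok (R := R) (by linarith) (by linarith) hN hw ht; exact h))
    ((profL_pt (by have h := pu325_ok (R := R) (by linarith) (by linarith) hN hw ht; exact h)))))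

def T350 : List (ℕ × ℕ × ℕ × ℕ) :=
  lnM 52 205 ln205_350 ++ (lnM 52 389 ln389_350 ++ (ptM 82 pt350 ++ (ptM 51 pu350)))

theorem T350_ok (h0 : 7 / 20 ≤ R) (h1 : R ≤ 3 / 8) (hN : 1 ≤ N) (hw : ∀ k, 1 ≤ ‖w k‖)
    (ht : ∑ k, ‖w k - (R : ℂ)‖ ≤ N) : ProfL N w (max 1 R) T350 := by
  have a0 := h0
  have a1 := h1
  exact profL_append (profL_ln (by have h := ln205_350_ok (R := R) (by linarith) (by linarith) hN hw ht; exact h))
    (profL_append (profL_ln (by have h := ln389_350_ok (R := R) (by linarith) (by linarith) hN hw ht; exact h))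
    (profL_append (profL_pt (by have h := pt350_ok (R := R) (by linarith) (by linarith) hN hw ht; exact h))
    ((profL_pt (by have h := pu350_ok (R := R) (by linarith) (by linarith) hN hw ht; exact h)))))

def T375 : List (ℕ × ℕ × ℕ × ℕ) :=
  lnM 52 205 ln205_375 ++ (lnM 52 389 ln389_375 ++ (ptM 82 pt375 ++ (ptM 51 pu375)))

theorem T375_ok (h0 : 3 / 8 ≤ R) (h1 : R ≤ 2 / 5) (hN : 1 ≤ N) (hw : ∀ k, 1 ≤ ‖w k‖)
    (ht : ∑ k, ‖w k - (R : ℂ)‖ ≤ N) : ProfL N w (max 1 R) T375 := by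
  have a0 := h0
  have a1 := h1
  exact profL_append (profL_ln (by have h := ln205_375_ok (R := R) (by linarith) (by linarith) hN hw ht; exact h))
    (profL_append (profL_ln (by have h := ln389_375_ok (R := R) (by linarith) (by linarith) hN hw ht; exact h))
    (profL_append (profL_pt (by have h := pt375_ok (R := R) (by linarith) (by linarith) hN hw ht; exact h))
    ((profL_pt (by have h := pu375_ok (R := R) (by linarith) (by linarith) hN hw ht; exact h)))))

def T400 : List (ℕ × ℕ × ℕ × ℕ) :=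
  lnM 52 205 ln205_400 ++ (lnM 52 389 ln389_400 ++ (ptM 82 pt400 ++ (ptM 51 pu400)))

theorem T400_ok (h0 : 2 / 5 ≤ R) (h1 : R ≤ 17 / 40) (hN : 1 ≤ N) (hw : ∀ k, 1 ≤ ‖w k‖)
    (ht : ∑ k, ‖w k - (R : ℂ)‖ ≤ N) : ProfL N w (max 1 R) T400 := by
  have a0 := h0
  have a1 := h1
  exact profL_append (profL_ln (by have h := ln205_400_ok (R := R) (by linarith) (by linarith) hN hw ht; exact h))
    (profL_append (profL_ln (by have h := ln389_400_ok (R := R) (by linarith) (by linarith) hN hw ht; exact h))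
    (profL_append (profL_pt (by have h := pt400_ok (R := R) (by linarith) (by linarith) hN hw ht; exact h))
    ((profL_pt (by have h := pu400_ok (R := R) (by linarith) (by linarith) hN hw ht; exact h)))))

def T425 : List (ℕ × ℕ × ℕ × ℕ) :=
  lnM 52 205 ln205_425 ++ (lnM 52 389 ln389_425 ++ (ptM 82 pt425 ++ (ptM 51 pu425)))

theorem T425_ok (h0 : 17 / 40 ≤ R) (h1 : R ≤ 9 / 20) (hN : 1 ≤ N) (hw : ∀ k, 1 ≤ ‖w k‖)
    (ht : ∑ k, ‖w k - (R : ℂ)‖ ≤ N) : ProfL N w (max 1 R) T425 := by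
  have a0 := h0
  have a1 := h1
  exact profL_append (profL_ln (by have h := ln205_425_ok (R := R) (by linarith) (by linarith) hN hw ht; exact h))
    (profL_append (profL_ln (by have h := ln389_425_ok (R := R) (by linarith) (by linarith) hN hw ht; exact h))
    (profL_append (profL_pt (by have h := pt425_ok (R := R) (by linarith) (by linarith) hN hw ht; exact h))
    ((profL_pt (by have h := pu425_ok (R := R) (by linarith) (by linarith) hN hw ht; exact h)))))

def T450 : List (ℕ × ℕ × ℕ × ℕ) :=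
  lnM 52 205 ln205_450 ++ (lnM 52 389 ln389_450 ++ (ptM 82 pt450 ++ (ptM 51 pu450)))

theorem T450_ok (h0 : 9 / 20 ≤ R) (h1 : R ≤ 19 / 40) (hN : 1 ≤ N) (hw : ∀ k, 1 ≤ ‖w k‖)
    (ht : ∑ k, ‖w k - (R : ℂ)‖ ≤ N) : ProfL N w (max 1 R) T450 := by
  have a0 := h0
  have a1 := h1
  exact profL_append (profL_ln (by have h := ln205_450_ok (R := R) (by linarith) (by linarith) hN hw ht; exact h))
    (profL_append (profL_ln (by have h := ln389_450_ok (R := R) (by linarith) (by linarith) hN hw ht; exact h))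
    (profL_append (profL_pt (by have h := pt450_ok (R := R) (by linarith) (by linarith) hN hw ht; exact h))
    ((profL_pt (by have h := pu450_ok (R := R) (by linarith) (by linarith) hN hw ht; exact h)))))

def T475 : List (ℕ × ℕ × ℕ × ℕ) :=
  lnM 51 205 ln205_475 ++ (lnM 51 389 ln389_475 ++ (ptM 82 pt475 ++ (ptM 51 pu475)))

theorem T475_ok (h0 : 19 / 40 ≤ R) (h1 : R ≤ 1 / 2) (hN : 1 ≤ N) (hw : ∀ k, 1 ≤ ‖w k‖)
    (ht : ∑ k, ‖w k - (R : ℂ)‖ ≤ N) : ProfL N w (max 1 R) T475 := by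
  have a0 := h0
  have a1 := h1
  exact profL_append (profL_ln (by have h := ln205_475_ok (R := R) (by linarith) (by linarith) hN hw ht; exact h))
    (profL_append (profL_ln (by have h := ln389_475_ok (R := R) (by linarith) (by linarith) hN hw ht; exact h))
    (profL_append (profL_pt (by have h := pt475_ok (R := R) (by linarith) (by linarith) hN hw ht; exact h))
    ((profL_pt (by have h := pu475_ok (R := R) (by linarith) (by linarith) hN hw ht; exact h)))))

def T500 : List (ℕ × ℕ × ℕ × ℕ) :=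
  lnM 52 205 ln205_500 ++ (lnM 52 389 ln389_500 ++ (ptM 82 pt500 ++ (ptM 51 pu500)))

theorem T500_ok (h0 : 1 / 2 ≤ R) (h1 : R ≤ 21 / 40) (hN : 1 ≤ N) (hw : ∀ k, 1 ≤ ‖w k‖)
    (ht : ∑ k, ‖w k - (R : ℂ)‖ ≤ N) : ProfL N w (max 1 R) T500 := by
  have a0 := h0
  have a1 := h1
  exact profL_append (profL_ln (by have h := ln205_500_ok (R := R) (by linarith) (by linarith) hN hw ht; exact h))
    (profL_append (profL_ln (by have h := ln389_500_ok (R := R) (by linarith) (by linarith) hN hw ht; exact h))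
    (profL_append (profL_pt (by have h := pt500_ok (R := R) (by linarith) (by linarith) hN hw ht; exact h))
    ((profL_pt (by have h := pu500_ok (R := R) (by linarith) (by linarith) hN hw ht; exact h)))))

def T525 : List (ℕ × ℕ × ℕ × ℕ) :=
  lnM 52 205 ln205_525 ++ (lnM 52 389 ln389_525 ++ (ptM 82 pt525 ++ (ptM 51 pu525)))

theorem T525_ok (h0 : 21 / 40 ≤ R) (h1 : R ≤ 11 / 20) (hN : 1 ≤ N) (hw : ∀ k, 1 ≤ ‖w k‖)
    (ht : ∑ k, ‖w k - (R : ℂ)‖ ≤ N) : ProfL N w (max 1 R) T525 := by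
  have a0 := h0
  have a1 := h1
  exact profL_append (profL_ln (by have h := ln205_525_ok (R := R) (by linarith) (by linarith) hN hw ht; exact h))
    (profL_append (profL_ln (by have h := ln389_525_ok (R := R) (by linarith) (by linarith) hN hw ht; exact h))
    (profL_append (profL_pt (by have h := pt525_ok (R := R) (by linarith) (by linarith) hN hw ht; exact h))
    ((profL_pt (by have h := pu525_ok (R := R) (by linarith) (by linarith) hN hw ht; exact h)))))

def T550 : List (ℕ × ℕ × ℕ × ℕ) :=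
  lnM 51 205 ln205_550 ++ (lnM 51 389 ln389_550 ++ (ptM 82 pt550 ++ (ptM 51 pu550)))

theorem T550_ok (h0 : 11 / 20 ≤ R) (h1 : R ≤ 23 / 40) (hN : 1 ≤ N) (hw : ∀ k, 1 ≤ ‖w k‖)
    (ht : ∑ k, ‖w k - (R : ℂ)‖ ≤ N) : ProfL N w (max 1 R) T550 := by
  have a0 := h0
  have a1 := h1
  exact profL_append (profL_ln (by have h := ln205_550_ok (R := R) (by linarith) (by linarith) hN hw ht; exact h))
    (profL_append (profL_ln (by have h := ln389_550_ok (R := R) (by linarith) (by linarith) hN hw ht; exact h))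
    (profL_append (profL_pt (by have h := pt550_ok (R := R) (by linarith) (by linarith) hN hw ht; exact h))
    ((profL_pt (by have h := pu550_ok (R := R) (by linarith) (by linarith) hN hw ht; exact h)))))

def T575 : List (ℕ × ℕ × ℕ × ℕ) :=
  lnM 52 205 ln205_575 ++ (lnM 52 389 ln389_575 ++ (ptM 82 pt575 ++ (ptM 51 pu575)))

theorem T575_ok (h0 : 23 / 40 ≤ R) (h1 : R ≤ 3 / 5) (hN : 1 ≤ N) (hw : ∀ k, 1 ≤ ‖w k‖)
    (ht : ∑ k, ‖w k - (R : ℂ)‖ ≤ N) : ProfL N w (max 1 R) T575 := by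
  have a0 := h0
  have a1 := h1
  exact profL_append (profL_ln (by have h := ln205_575_ok (R := R) (by linarith) (by linarith) hN hw ht; exact h))
    (profL_append (profL_ln (by have h := ln389_575_ok (R := R) (by linarith) (by linarith) hN hw ht; exact h))
    (profL_append (profL_pt (by have h := pt575_ok (R := R) (by linarith) (by linarith) hN hw ht; exact h))
    ((profL_pt (by have h := pu575_ok (R := R) (by linarith) (by linarith) hN hw ht; exact h)))))

def T600 : List (ℕ × ℕ × ℕ × ℕ) :=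
  lnM 51 205 ln205_600 ++ (lnM 51 389 ln389_600 ++ (ptM 82 pt600 ++ (ptM 51 pu600)))

theorem T600_ok (h0 : 3 / 5 ≤ R) (h1 : R ≤ 5 / 8) (hN : 1 ≤ N) (hw : ∀ k, 1 ≤ ‖w k‖)
    (ht : ∑ k, ‖w k - (R : ℂ)‖ ≤ N) : ProfL N w (max 1 R) T600 := by
  have a0 := h0
  have a1 := h1
  exact profL_append (profL_ln (by have h := ln205_600_ok (R := R) (by linarith) (by linarith) hN hw ht; exact h))
    (profL_append (profL_ln (by have h := ln389_600_ok (R := R) (by linarith) (by linarith) hN hw ht; exact h))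
    (profL_append (profL_pt (by have h := pt600_ok (R := R) (by linarith) (by linarith) hN hw ht; exact h))
    ((profL_pt (by have h := pu600_ok (R := R) (by linarith) (by linarith) hN hw ht; exact h)))))

def T625 : List (ℕ × ℕ × ℕ × ℕ) :=
  lnM 51 205 ln205_625 ++ (lnM 51 389 ln389_625 ++ (ptM 82 pt625 ++ (ptM 51 pu625)))

theorem T625_ok (h0 : 5 / 8 ≤ R) (h1 : R ≤ 13 / 20) (hN : 1 ≤ N) (hw : ∀ k, 1 ≤ ‖w k‖)
    (ht : ∑ k, ‖w k - (R : ℂ)‖ ≤ N) : ProfL N w (max 1 R) T625 := by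
  have a0 := h0
  have a1 := h1
  exact profL_append (profL_ln (by have h := ln205_625_ok (R := R) (by linarith) (by linarith) hN hw ht; exact h))
    (profL_append (profL_ln (by have h := ln389_625_ok (R := R) (by linarith) (by linarith) hN hw ht; exact h))
    (profL_append (profL_pt (by have h := pt625_ok (R := R) (by linarith) (by linarith) hN hw ht; exact h))
    ((profL_pt (by have h := pu625_ok (R := R) (by linarith) (by linarith) hN hw ht; exact h)))))

def T650 : List (ℕ × ℕ × ℕ × ℕ) :=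
  lnM 52 205 ln205_650 ++ (lnM 52 389 ln389_650 ++ (ptM 82 pt650 ++ (ptM 51 pu650)))

theorem T650_ok (h0 : 13 / 20 ≤ R) (h1 : R ≤ 27 / 40) (hN : 1 ≤ N) (hw : ∀ k, 1 ≤ ‖w k‖)
    (ht : ∑ k, ‖w k - (R : ℂ)‖ ≤ N) : ProfL N w (max 1 R) T650 := by
  have a0 := h0
  have a1 := h1
  exact profL_append (profL_ln (by have h := ln205_650_ok (R := R) (by linarith) (by linarith) hN hw ht; exact h))
    (profL_append (profL_ln (by have h := ln389_650_ok (R := R) (by linarith) (by linarith) hN hw ht; exact h))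
    (profL_append (profL_pt (by have h := pt650_ok (R := R) (by linarith) (by linarith) hN hw ht; exact h))
    ((profL_pt (by have h := pu650_ok (R := R) (by linarith) (by linarith) hN hw ht; exact h)))))

def T675 : List (ℕ × ℕ × ℕ × ℕ) :=
  lnM 51 205 ln205_675 ++ (lnM 51 389 ln389_675 ++ (ptM 82 pt675 ++ (ptM 51 pu675)))

theorem T675_ok (h0 : 27 / 40 ≤ R) (h1 : R ≤ 7 / 10) (hN : 1 ≤ N) (hw : ∀ k, 1 ≤ ‖w k‖)
    (ht : ∑ k, ‖w k - (R : ℂ)‖ ≤ N) : ProfL N w (max 1 R) T675 := by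
  have a0 := h0
  have a1 := h1
  exact profL_append (profL_ln (by have h := ln205_675_ok (R := R) (by linarith) (by linarith) hN hw ht; exact h))
    (profL_append (profL_ln (by have h := ln389_675_ok (R := R) (by linarith) (by linarith) hN hw ht; exact h))
    (profL_append (profL_pt (by have h := pt675_ok (R := R) (by linarith) (by linarith) hN hw ht; exact h))
    ((profL_pt (by have h := pu675_ok (R := R) (by linarith) (by linarith) hN hw ht; exact h)))))

def T700 : List (ℕ × ℕ × ℕ × ℕ) :=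
  lnM 52 205 ln205_700 ++ (lnM 52 389 ln389_700 ++ (ptM 82 pt700 ++ (ptM 51 pu700)))

theorem T700_ok (h0 : 7 / 10 ≤ R) (h1 : R ≤ 29 / 40) (hN : 1 ≤ N) (hw : ∀ k, 1 ≤ ‖w k‖)
    (ht : ∑ k, ‖w k - (R : ℂ)‖ ≤ N) : ProfL N w (max 1 R) T700 := by
  have a0 := h0
  have a1 := h1
  exact profL_append (profL_ln (by have h := ln205_700_ok (R := R) (by linarith) (by linarith) hN hw ht; exact h))
    (profL_append (profL_ln (by have h := ln389_700_ok (R := R) (by linarith) (by linarith) hN hw ht; exact h))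
    (profL_append (profL_pt (by have h := pt700_ok (R := R) (by linarith) (by linarith) hN hw ht; exact h))
    ((profL_pt (by have h := pu700_ok (R := R) (by linarith) (by linarith) hN hw ht; exact h)))))

def T725 : List (ℕ × ℕ × ℕ × ℕ) :=
  lnM 51 205 ln205_725 ++ (lnM 51 389 ln389_725 ++ (ptM 82 pt725 ++ (ptM 51 pu725)))

theorem T725_ok (h0 : 29 / 40 ≤ R) (h1 : R ≤ 3 / 4) (hN : 1 ≤ N) (hw : ∀ k, 1 ≤ ‖w k‖)
    (ht : ∑ k, ‖w k - (R : ℂ)‖ ≤ N) : ProfL N w (max 1 R) T725 := by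
  have a0 := h0
  have a1 := h1
  exact profL_append (profL_ln (by have h := ln205_725_ok (R := R) (by linarith) (by linarith) hN hw ht; exact h))
    (profL_append (profL_ln (by have h := ln389_725_ok (R := R) (by linarith) (by linarith) hN hw ht; exact h))
    (profL_append (profL_pt (by have h := pt725_ok (R := R) (by linarith) (by linarith) hN hw ht; exact h))
    ((profL_pt (by have h := pu725_ok (R := R) (by linarith) (by linarith) hN hw ht; exact h)))))

def T750 : List (ℕ × ℕ × ℕ × ℕ) :=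
  lnM 51 205 ln205_750 ++ (lnM 51 389 ln389_750 ++ (ptM 82 pt750 ++ (ptM 51 pu750)))

theorem T750_ok (h0 : 3 / 4 ≤ R) (h1 : R ≤ 31 / 40) (hN : 1 ≤ N) (hw : ∀ k, 1 ≤ ‖w k‖)
    (ht : ∑ k, ‖w k - (R : ℂ)‖ ≤ N) : ProfL N w (max 1 R) T750 := by
  have a0 := h0
  have a1 := h1
  exact profL_append (profL_ln (by have h := ln205_750_ok (R := R) (by linarith) (by linarith) hN hw ht; exact h))
    (profL_append (profL_ln (by have h := ln389_750_ok (R := R) (by linarith) (by linarith) hN hw ht; exact h))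
    (profL_append (profL_pt (by have h := pt750_ok (R := R) (by linarith) (by linarith) hN hw ht; exact h))
    ((profL_pt (by have h := pu750_ok (R := R) (by linarith) (by linarith) hN hw ht; exact h)))))

def T775 : List (ℕ × ℕ × ℕ × ℕ) :=
  lnM 51 205 ln205_775 ++ (lnM 51 389 ln389_775 ++ (ptM 82 pt775 ++ (ptM 51 pu775)))

theorem T775_ok (h0 : 31 / 40 ≤ R) (h1 : R ≤ 4 / 5) (hN : 1 ≤ N) (hw : ∀ k, 1 ≤ ‖w k‖)
    (ht : ∑ k, ‖w k - (R : ℂ)‖ ≤ N) : ProfL N w (max 1 R) T775 := by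
  have a0 := h0
  have a1 := h1
  exact profL_append (profL_ln (by have h := ln205_775_ok (R := R) (by linarith) (by linarith) hN hw ht; exact h))
    (profL_append (profL_ln (by have h := ln389_775_ok (R := R) (by linarith) (by linarith) hN hw ht; exact h))
    (profL_append (profL_pt (by have h := pt775_ok (R := R) (by linarith) (by linarith) hN hw ht; exact h))
    ((profL_pt (by have h := pu775_ok (R := R) (by linarith) (by linarith) hN hw ht; exact h)))))

end

end Pool.Agent.Lib.MP_af3a4a_an.P1.CHK.H81.L
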