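import Pool.Agent.Lib.MP_af3a4a_an.P1.CHK.H81.D64
import Pool.Agent.Lib.MP_af3a4a_an.P1.CHK.H81.D65
import Pool.Agent.Lib.MP_af3a4a_an.P1.CHK.H81.D66
import Pool.Agent.Lib.MP_af3a4a_an.P1.CHK.H81.D67
import Pool.Agent.Lib.MP_af3a4a_an.P1.CHK.H81.D68
import Pool.Agent.Lib.MP_af3a4a_an.P1.CHK.H81.D69
import Pool.Agent.Lib.MP_af3a4a_an.P1.CHK.H81.D70
import Pool.Agent.Lib.MP_af3a4a_an.P1.CHK.H81.D73
import Pool.Agent.Lib.MP_af3a4a_an.P1.CHK.H81.D76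
import Pool.Agent.Lib.MP_af3a4a_an.P1.CHK.H81.D79
import Pool.Agent.Lib.MP_af3a4a_an.P1.CHK.H81.D81
import Pool.Agent.Lib.MP_af3a4a_an.P1.CHK.H81.D86
import Pool.Agent.Lib.MP_af3a4a_an.P1.CHK.H81.D91
import Pool.Agent.Lib.MP_af3a4a_an.P1.CHK.H81.D96

/-!
# `64 ≤ N < 100`, `R ≤ 4/5`, all `m` (council 2, helper81)
-/

set_option autoImplicit false

namespace Pool.Agent.Lib.MP_af3a4a_an.P1.CHK.H81.L

open Pool.Agent.Lib.MP_af3a4a_an.P1.H80

/-- **`64 ≤ N < 100`, `R ≤ 4/5`** -/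
theorem small_64 {N : ℕ} {z w : Fin N → ℂ} {R : ℝ} {σ : Fin N → ℂ} (hC : Cfg2 N z w R σ)
    (h0 : 64 ≤ N) (h1 : N < 100) (hR : R ≤ 4 / 5) : False := by
  rcases Nat.lt_or_ge N 65 with h | h
  · exact blk64 hC h0 (by omega) hR
  rcases Nat.lt_or_ge N 66 with h' | h'
  · exact blk65 hC h (by omega) hR
  rcases Nat.lt_or_ge N 67 with h | h
  · exact blk66 hC h' (by omega) hR
  rcases Nat.lt_or_ge N 68 with h' | h'
  · exact blk67 hC h (by omega) hR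
  rcases Nat.lt_or_ge N 69 with h | h
  · exact blk68 hC h' (by omega) hR
  rcases Nat.lt_or_ge N 70 with h' | h'
  · exact blk69 hC h (by omega) hR
  rcases Nat.lt_or_ge N 73 with h | h
  · exact blk70 hC h' (by omega) hR
  rcases Nat.lt_or_ge N 76 with h' | h'
  · exact blk73 hC h (by omega) hR
  rcases Nat.lt_or_ge N 79 with h | h
  · exact blk76 hC h' (by omega) hR
  rcases Nat.lt_or_ge N 81 with h' | h'
  · exact blk79 hC h (by omega) hR
  rcases Nat.lt_or_ge N 86 with h | h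
  · exact blk81 hC h' (by omega) hR
  rcases Nat.lt_or_ge N 91 with h' | h'
  · exact blk86 hC h (by omega) hR
  rcases Nat.lt_or_ge N 96 with h | h
  · exact blk91 hC h' (by omega) hR
  · exact blk96 hC h (by omega) hR

end Pool.Agent.Lib.MP_af3a4a_an.P1.CHK.H81.L
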